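import Pool.Agent.Lib.MP_557161_ag.HG.St1

/-!
Basic operations on functionals on Artin-Schreier covers.
-/

namespace Pool.Agent.Lib.MP_557161_ag.HG

open Pool.Agent.Lib.MP_557161_ag.DL

variable {K : Type} [Field K] {p j : ℕ} {c c' d : Cd}

namespace FC1A

variable {E : Ph K c} {E' : Ph K c'} {W : ASp K d} {f : ∀ L : Fld K, c'.X L → c.X L}

/-- The induced map of Artin-Schreier covers. -/
abbrev up (d : Cd) (f : ∀ L : Fld K, c'.X L → c.X L) (L : Fld K)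
    (z : ((c'.prod .one).prod d).X L) : ((c.prod .one).prod d).X L := ((f L z.1.1, z.1.2), z.2)

theorem mem_iff {L : Fld K} {x : c.X L} {y : L} {w : d.X L} :
    ((E.tot p).prod W).sp.mem (L := L) (some ((x, y), w)) ↔
      E.S.mem L x ∧ y ^ p - y = E.φ L x ∧ W.mem L w :=
  (ASp.sp_some _).trans ⟨fun h => ⟨h.1.1.1, h.1.2, h.2⟩, fun h => ⟨⟨⟨h.1, trivial⟩, h.2.1⟩, h.2.2⟩⟩

theorem up_mp (h : PMp E' E f) (p : ℕ) (W : ASp K d) :
    Mp ((E'.tot p).prod W) ((E.tot p).prod W) (up d f) :=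
  ⟨fun _ _ R _ _ m m' e => ⟨⟨h.reg R m.1.1.1 m'.1.1.1 e.1.1, e.1.2⟩, e.2⟩,
    fun L _ m => ⟨⟨⟨h.mem L _ m.1.1.1, trivial⟩, m.1.2.trans (h.ph L _ m.1.1.1).symm⟩, m.2⟩⟩

theorem up_pro (hp : Pro E'.S E.S f) (p : ℕ) (W : ASp K d) :
    Pro ((E'.tot p).prod W) ((E.tot p).prod W) (up d f) := fun M O x z hO m m' e => by
  obtain ⟨x', h1, h2⟩ := hp M O x.1.1 z.1.1 hO m.1.1.1 m'.1.1.1 e.1.1
  exact ⟨((x', z.1.2), z.2), ⟨⟨⟨h1, trivial⟩, Rel.eq (Rel.sub (Rel.pow e.1.2 p) e.1.2)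
    (E'.reg _ m.1.1.1 h1 h2) m.1.2⟩, m'.2⟩, ⟨h2, e.1.2⟩, e.2⟩

theorem up_srj (h : PMp E' E f) (hs : Srj E'.S E.S f) (p : ℕ) (W : ASp K d) :
    Srj ((E'.tot p).prod W) ((E.tot p).prod W) (up d f) := fun L _ z m => by
  obtain ⟨x, h1, h2⟩ := hs L z.1.1 m.1.1.1
  refine ⟨((x, z.1.2), z.2), ⟨⟨⟨h1, trivial⟩, ?_⟩, m.2⟩, Prod.ext (Prod.ext h2 rfl) rfl⟩
  exact m.1.2.trans ((congrArg (E.φ L) h2).symm.trans (h.ph L x h1))

theorem supp (θ : Pre j ((E.tot p).prod W).sp) {L : Fld K} {x : c.X L} {y : L} {w : d.X L}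
    (h : θ.v L (some ((x, y), w)) ≠ 0) :
    Good j L ∧ E.S.mem L x ∧ y ^ p - y = E.φ L x ∧ W.mem L w :=
  ⟨(θ.supp _ _ h).1, mem_iff.1 (θ.supp _ _ h).2⟩

theorem v_map (θ : Pre j ((E.tot p).prod W).sp) {L L' : Fld K} {ι : L →ₐ[K] L'} (hL : Good j L)
    (hι : Fin' ι) (x : c.X L) (y : L) (w : d.X L) :
    θ.v L' (some ((c.map ι x, ι y), d.map ι w)) = deg ι * θ.v L (some ((x, y), w)) :=
  θ.ext ι (some ((x, y), w)) hL (hL.of_fin hι)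

theorem lift_pt {S : ASp K c} {S' : ASp K c'} (h : Mp S' S f) (hs : Srj S' S f) {L : Fld K}
    {x : c.X L} (hx : S.mem L x) : ∃ (L' : Fld K) (ι : L →ₐ[K] L') (x' : c'.X L'),
      Fin' ι ∧ S'.mem L' x' ∧ f L' x' = c.map ι x := by
  obtain ⟨L', ι, _, h1, ⟨x', rfl, h2⟩, h3⟩ := CKL.surj_lift (hs.mor h) (S.sp_some.2 hx)
  exact ⟨L', ι, x', h1, h2, Option.some.inj h3⟩

theorem pull [FA3 K] (h : PMp E' E f) (hp : Pro E'.S E.S f) (Φ : NF p j E W) :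
    ∃ Φ' : NF p j E' W, ∀ L x y w, E'.S.mem L x → Φ'.b L x y w = Φ.b L (f L x) y w := by
  let θ := Φ.toFe.pull (up_mp h p W).mor ((up_pro hp p W).mor _)
  have h1 : ∀ L x y w, E'.S.mem L x → θ.v L (some ((x, y), w)) = Φ.b L (f L x) y w := by
    intro L x y w hx
    by_cases m : ((E'.tot p).prod W).sp.mem (L := L) (some ((x, y), w))
    · exact Fe.pull_of_mem _ _ _ m
    · rw [not_not.1 fun e => m (θ.supp _ _ e).2]
      by_contra e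
      obtain ⟨-, -, a, b⟩ := supp Φ.toPre (Ne.symm e)
      exact m (mem_iff.2 ⟨hx, a.trans (h.ph L x hx), b⟩)
  refine ⟨⟨θ, fun L x y w => ?_, fun L x y w m₁ m₂ a b e => ?_⟩, h1⟩
  · by_cases hx : E'.S.mem L x
    · simp only [h1 L x _ w hx]
      exact Φ.nt L _ y w
    · exact Finset.sum_eq_zero fun _ _ => not_not.1 fun e => hx (supp θ.toPre e).2.1
  · by_contra e'
    have hx := (supp θ.toPre e').2.1
    exact e' ((h1 L x y w hx).trans (Φ.kills L _ y w m₁ m₂ (FA3.dm_reg h.reg hx a) b e))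

theorem ext {E E' : Ph K c} (h : PMp E' E fun _ x => x) (ho : AOpn E'.S E.S) (Φ' : NF p j E' W) :
    ∃ Φ : NF p j E W, ∀ L x y w, Φ.b L x y w = Φ'.b L x y w := by
  refine ⟨⟨⟨⟨Φ'.v, fun L z e => ?_, Φ'.ext, Φ'.low⟩, fun M z g hM hz hg => ?_⟩, Φ'.nt, Φ'.kills⟩,
    fun _ _ _ _ => rfl⟩
  · obtain ⟨a, z, rfl, b⟩ := Φ'.supp L z e
    exact ⟨a, z, rfl, (up_mp h p W).mem L z b⟩
  · obtain ⟨⟨⟨x, y⟩, w⟩, rfl, m⟩ := hz
    by_cases hx : E'.S.mem M x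
    · exact Φ'.rat M _ g hM (mem_iff.2 ⟨hx, m.1.2.trans (h.ph M x hx), m.2⟩) hg
    · have e : ∀ O : Dv M j, Φ'.v O.1.res ((((c.prod .one).prod d).amb K).red O.1
          (some ((x, y), w))) = 0 := fun O => not_not.1 fun e => by
        obtain ⟨z, e1, e2⟩ := (Φ'.supp _ _ e).2
        exact hx (ho M O.1 x z.1.1 m.1.1.1 e2.1.1.1 (Cd.lift_of_red e1).1.1)
      simp [HasS, e]

/-- A multiple of a functional. -/
def smul {A : Amb K} {Y : Sp A} (a : ℂ) (φ : Fe j Y) : Fe j Y where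
  v L y := a * φ.v L y
  supp L y h := φ.supp L y (right_ne_zero_of_mul h)
  ext ι y h h' := by rw [φ.ext ι y h h', mul_left_comm]
  low ι y h := by rw [φ.low ι y h, mul_zero]
  rat M y g hM hy hg := by
    obtain ⟨h1, h2⟩ := φ.rat M y g hM hy hg
    simp only [mul_left_comm _ a]
    exact ⟨h1.subset fun _ e => right_ne_zero_of_mul e, by rw [← mul_finsum, h2, mul_zero]⟩

theorem desc [Base K] [FA3 K] (h : PMp E' E f) (hp : Pro E'.S E.S f) (hs : Srj E'.S E.S f)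
    (Φ' : NF p j E' W) (hf : ∀ L x x' y w, E'.S.mem L x → E'.S.mem L x' → f L x = f L x' →
      Φ'.b L x y w = Φ'.b L x' y w) :
    ∃ Φ : NF p j E W, ∀ L x y w, E'.S.mem L x → Φ.b L (f L x) y w = Φ'.b L x y w := by
  obtain ⟨ψ, hψ⟩ := descent ((up_pro hp p W).mor (up_mp h p W)) ((up_srj h hs p W).mor _) Φ'.toFe
    (by
      rintro L _ _ ⟨⟨⟨x, y⟩, w⟩, rfl, a⟩ ⟨⟨⟨x', y'⟩, w'⟩, rfl, b⟩ e
      have e' : up d f L ((x, y), w) = up d f L ((x', y'), w') := Option.some.inj e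
      obtain rfl : y = y' := congrArg (·.1.2) e'
      obtain rfl : w = w' := congrArg (·.2) e'
      exact hf L x x' y w a.1.1.1 b.1.1.1 (congrArg (·.1.1) e'))
  have h1 : ∀ L x y w, E'.S.mem L x → ψ.v L (some ((f L x, y), w)) = Φ'.b L x y w := by
    intro L x y w hx
    by_cases m : Good j L ∧ y ^ p - y = E'.φ L x ∧ W.mem L w
    · have s : Function.Surjective (AlgHom.id K L) := Function.surjective_id
      have := hψ L L (AlgHom.id K L) (some ((f L x, y), w)) (some ((x, y), w)) m.1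
        (Fin'.of_surj s) (mem_iff.2 ⟨hx, m.2⟩) (Amb.map_id _ _).symm
      rw [deg_of_surj s, Nat.cast_one, one_mul] at this
      exact this.symm
    · rw [not_not.1 fun e => m ⟨(supp ψ.toPre e).1, (supp ψ.toPre e).2.2.1.trans (h.ph L x hx),
        (supp ψ.toPre e).2.2.2⟩]
      exact (not_not.1 fun e => m ⟨(supp Φ'.toPre e).1, (supp Φ'.toPre e).2.2⟩).symm
  refine ⟨⟨ψ, fun L x y w => ?_, fun L x y w m₁ m₂ a b e => ?_⟩, h1⟩
  · by_contra e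
    obtain ⟨a, -, e'⟩ := Finset.exists_ne_zero_of_sum_ne_zero e
    obtain ⟨hL, hx, -⟩ := supp ψ.toPre e'
    obtain ⟨L', ι, x', a1, a2, a3⟩ := lift_pt h.toMp hs hx
    refine mul_ne_zero (deg_ne a1) e ?_
    rw [Finset.mul_sum, ← Φ'.nt L' x' (ι y) (d.map ι w)]
    refine Finset.sum_congr rfl fun a _ => ?_
    rw [← v_map ψ.toPre hL a1, ← a3, h1 L' x' _ _ a2, map_add, map_natCast]
  · by_contra e'
    obtain ⟨hL, hx, -⟩ := supp ψ.toPre e'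
    obtain ⟨L₀, κ, y₀, a1, a2⟩ := FA3.dm_iff.1 a
    obtain ⟨x₀, rfl, hx₀⟩ : E.S.sp.mem y₀ := (E.S.sp.map_iff κ y₀).1 (a1 ▸ E.S.sp_some.2 hx)
    obtain rfl : c.map κ x₀ = x := Option.some.inj a1
    obtain ⟨L₁, ι, x₁, b1, b2, b3⟩ := lift_pt h.toMp hs hx₀
    obtain ⟨N, κ₁, κ₂, c1, c2⟩ := exists_amalgam ι κ b1
    have c3 : f N (c'.map κ₁ x₁) = c.map κ₂ (c.map κ x₀) := by
      rw [h.reg.nat κ₁ b2, b3, c.map_map, c.map_map]
      exact c.map_congr fun i => DFunLike.congr_fun c1 _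
    refine mul_ne_zero (deg_ne c2) e' ?_
    rw [← v_map ψ.toPre hL c2, ← c3, h1 N _ _ _ ((E'.S.map_iff κ₁ x₁).2 b2)]
    exact Φ'.kills N _ _ _ m₁ m₂ ((FA3.dm_map κ₁).2 (FA3.dm_tr x₁ (b1.tr_eq ▸ a2)))
      ((FA3.dm_map κ₂).2 b) e

end FC1A

open FC1A in
theorem FC1_thm [Base K] [FA3 K] : FC1 K p where
  mem Φ _ _ _ _ h := supp Φ.toPre h
  pull h hp _ Φ := pull h hp Φ
  srj {c c' c₁ c₂ d S S' E₁ E₂ W f γ₁ γ₂} h hs r₁ r₂ j Φ₁ Φ₂ χ e L x y w hx := by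
    by_cases hL : Good j L
    · obtain ⟨L', ι, x', a1, a2, a3⟩ := lift_pt h hs hx
      have := e L' x' (ι y) (d.map ι w) a2
      rw [a3, r₁.nat ι hx, r₂.nat ι hx, NF.b, NF.b, v_map Φ₁.toPre hL a1, v_map Φ₂.toPre hL a1,
        mul_left_comm] at this
      exact mul_left_cancel₀ (deg_ne a1) this
    · have e₁ : Φ₁.b L (γ₁ L x) y w = 0 := not_not.1 fun e => hL (supp Φ₁.toPre e).1
      have e₂ : Φ₂.b L (γ₂ L x) y w = 0 := not_not.1 fun e => hL (supp Φ₂.toPre e).1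
      rw [e₁, e₂, mul_zero]
  res {c d E E' W} h j Φ hΦ := by
    refine ⟨⟨⟨⟨Φ.v, fun L z e => ?_, Φ.ext, Φ.low⟩, fun M z g hM hz hg => ?_⟩, Φ.nt, Φ.kills⟩,
      fun _ _ _ _ => rfl⟩
    · obtain ⟨a, ⟨⟨x, y⟩, w⟩, rfl, b⟩ := Φ.supp L z e
      have hx := hΦ L x y w e
      exact ⟨a, mem_iff.2 ⟨hx, b.1.2.trans (h.ph L x hx), b.2⟩⟩
    · obtain ⟨z, rfl, m⟩ := hz
      exact Φ.rat M _ g hM ⟨z, rfl, (up_mp h p W).mem M z m⟩ hg
  ext h ho _ Φ' := ext h ho Φ'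
  sum s a Φ := by
    obtain ⟨ψ, hψ⟩ := Fe.exists_sum s fun i => smul (a i) (Φ i).toFe
    refine ⟨⟨ψ, fun L x y w => ?_, fun L x y w m₁ m₂ h1 h2 e => ?_⟩, fun L x y w => hψ L _⟩
    · simp only [hψ]
      rw [Finset.sum_comm]
      refine Finset.sum_eq_zero fun i _ => ?_
      exact (Finset.mul_sum _ _ _).symm.trans (by rw [(Φ i).nt, mul_zero])
    · rw [hψ]
      exact Finset.sum_eq_zero fun i _ =>
        mul_eq_zero_of_right _ ((Φ i).kills L x y w m₁ m₂ h1 h2 e)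
  desc h hp hs _ Φ' hf := desc h hp hs Φ' hf
  img {c c' d E E' W f} h hp hs hv j Φ L x y w := by
    by_contra e
    obtain ⟨hL, hx, -⟩ := supp Φ.toPre e
    obtain ⟨Φ', h1⟩ := pull h hp Φ
    obtain ⟨L', ι, x', a1, a2, a3⟩ := lift_pt h.toMp hs hx
    refine mul_ne_zero (deg_ne a1) e ?_
    rw [NF.b, ← v_map Φ.toPre hL a1, ← a3]
    exact (h1 L' x' _ _ a2).symm.trans (hv j Φ' _ _ _ _)
  opn h ho hv j Φ' L x y w := by
    obtain ⟨Φ, h1⟩ := ext h ho Φ'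
    rw [← h1, hv j Φ]
  pt h j Φ L x y w := by
    by_contra e
    obtain ⟨hL, hx, -⟩ := supp Φ.toPre e
    exact e (Φ.kills L x y w 0 j (h L x hx) (FA3.dm_tr w hL.2.le) (by omega))

end Pool.Agent.Lib.MP_557161_ag.HG
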