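import Pool.Agent.Lib.MP_557161_ag.HG.St4
import Pool.Agent.Lib.MP_557161_ag.HG.FC1

/-!
The double plane over the torus is a double cover of the torus `∏ X ^ a = 1`.
-/

namespace Pool.Agent.Lib.MP_557161_ag.HG

open Pool.Agent.Lib.MP_557161_ag.DL

variable {K : Type} [Field K] {c c' : Cd}

namespace A1p

theorem transfer [FA3 K] {U : ASp K c} {V : ASp K c'} {f : ∀ L : Fld K, c.X L → c'.X L}
    {g : ∀ L : Fld K, c'.X L → c.X L} (h : Iso U V f g) {τ : ∀ L : Fld K, c.X L → c.X L}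
    {τ' : ∀ L : Fld K, c'.X L → c'.X L} (hm : ∀ L x, V.mem L (τ' L x) ↔ V.mem L x)
    (hc : ∀ L x, V.mem L x → g L (τ' L x) = τ L (g L x)) (κ : Type) [Fintype κ] [DecidableEq κ]
    (hV : AltV V τ' κ) : AltS U τ κ := by
  intro d W j Φ hk ha
  have hr : ∀ σ : Equiv.Perm κ, Reg (V.pi κ) (.pi κ c) fun L x i => g L (x (σ i)) :=
    fun σ _ _ R _ _ m m' e i => h.mg.reg R (m _) (m' _) (e _)
  have mg : ∀ σ : Equiv.Perm κ, Mp ((V.pi κ).prod W) ((U.pi κ).prod W)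
      fun L x => (fun i => g L (x.1 (σ i)), x.2) := fun σ =>
    ⟨fun _ _ R _ _ m m' e => ⟨hr σ R m.1 m'.1 e.1, e.2⟩,
      fun L _ m => ⟨fun i => h.mg.mem L _ (m.1 _), m.2⟩⟩
  have mf : ∀ σ : Equiv.Perm κ, Mp ((U.pi κ).prod W) ((V.pi κ).prod W)
      fun L x => (fun i => f L (x.1 (σ.symm i)), x.2) := fun σ =>
    ⟨fun _ _ R _ _ m m' e => ⟨fun i => h.mf.reg R (m.1 _) (m'.1 _) (e.1 _), e.2⟩,
      fun L _ m => ⟨fun i => h.mf.mem L _ (m.1 _), m.2⟩⟩
  have pr : ∀ σ : Equiv.Perm κ, Pro ((V.pi κ).prod W) ((U.pi κ).prod W)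
      fun L x => (fun i => g L (x.1 (σ i)), x.2) := fun σ =>
    Pro.of_left (mf σ) (mg σ) fun L x m => Prod.ext (funext fun i => by
      simp only [Equiv.apply_symm_apply]
      exact h.fg L _ (m.1 i)) rfl
  obtain ⟨Ψ, hΨ⟩ := Fe.exists_sum Finset.univ fun σ : Equiv.Perm κ =>
    FC1A.smul ((Equiv.Perm.sign σ : ℤ) : ℂ) (Fe.pull (mg σ).mor ((pr σ).mor (mg σ)) Φ)
  have h1 : ∀ (L : Fld K) (x : κ → c'.X L) (w : d.X L), (∀ i, V.mem L (x i)) → W.mem L w →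
      Ψ.a L (x, w) = ∑ σ : Equiv.Perm κ,
        ((Equiv.Perm.sign σ : ℤ) : ℂ) * Φ.a L (fun i => g L (x (σ i)), w) := fun L x w m m' =>
    (hΨ L _).trans (Finset.sum_congr rfl fun σ _ => congrArg (_ * ·)
      (Fe.pull_of_mem (mg σ).mor _ Φ ((ASp.sp_some _).2 ⟨m, m'⟩)))
  have h2 : ∀ (L : Fld K) (x : κ → c'.X L) (w : d.X L), ¬ ((∀ i, V.mem L (x i)) ∧ W.mem L w) →
      Ψ.a L (x, w) = 0 := fun L x w m =>
    not_not.1 fun e => m ((ASp.sp_some _).1 (Ψ.supp L _ e).2)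
  have h3 := hV W j Ψ (fun L x w m₁ m₂ d₁ d₂ e => ?_) (fun i L x w => ?_) (fun σ L x w => ?_)
  · intro L x w
    by_cases m : (∀ i, U.mem L (x i)) ∧ W.mem L w
    · rw [← h3 L (fun i => f L (x i)) w, h1 L _ w (fun i => h.mf.mem L _ (m.1 i)) m.2]
      simp only [h.gf L _ (m.1 _)]
    · refine Finset.sum_eq_zero fun σ _ => mul_eq_zero_of_right _ (not_not.1 fun e => m ?_)
      have := (ASp.sp_some _).1 (Φ.supp L _ e).2
      exact ⟨fun i => by simpa using this.1 (σ.symm i), this.2⟩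
  · by_cases m : (∀ i, V.mem L (x i)) ∧ W.mem L w
    · rw [h1 L x w m.1 m.2]
      exact Finset.sum_eq_zero fun σ _ => mul_eq_zero_of_right _
        (hk L _ w m₁ m₂ (FA3.dm_reg (hr σ) m.1 d₁) d₂ e)
    · exact h2 L x w m
  · have e : (∀ k, V.mem L (Function.update x i (τ' L (x i)) k)) ↔ ∀ k, V.mem L (x k) :=
      forall_congr' fun k => by
        by_cases e : k = i
        · subst e
          rw [Function.update_self, hm]
        · rw [Function.update_of_ne e]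
    by_cases m : (∀ i, V.mem L (x i)) ∧ W.mem L w
    · rw [h1 L x w m.1 m.2, h1 L _ w (e.2 m.1) m.2, ← Finset.sum_neg_distrib]
      refine Finset.sum_congr rfl fun σ _ => ?_
      rw [← mul_neg, ← ha (σ.symm i) L (fun k => g L (x (σ k))) w]
      congr 3
      funext k
      by_cases e' : k = σ.symm i
      · subst e'
        rw [Function.update_self, Equiv.apply_symm_apply, Function.update_self, hc L _ (m.1 i)]
      · rw [Function.update_of_ne e', Function.update_of_ne fun e'' => e' (by simp [← e''])]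
    · rw [h2 L x w m, h2 L _ w fun m' => m ⟨e.1 m'.1, m'.2⟩, neg_zero]
  · by_cases m : (∀ i, V.mem L (x i)) ∧ W.mem L w
    · rw [h1 L x w m.1 m.2, h1 L _ w (fun i => m.1 _) m.2, Finset.mul_sum]
      refine Fintype.sum_equiv (Equiv.mulLeft σ) _ _ fun ρ => ?_
      have : ((Equiv.Perm.sign σ : ℤ) : ℂ) * ((Equiv.Perm.sign σ : ℤ) : ℂ) = 1 := by
        rw [← Int.cast_mul, ← Units.val_mul, Int.units_mul_self, Units.val_one, Int.cast_one]
      rw [Equiv.coe_mulLeft, Equiv.Perm.sign_mul, Units.val_mul, Int.cast_mul, ← mul_assoc,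
        ← mul_assoc, this, one_mul]
      rfl
    · rw [h2 L x w m, h2 L _ w fun m' => m ⟨fun i => by simpa using m'.1 (σ.symm i), m'.2⟩,
        mul_zero]

section Mon

variable {F : Type} [Field F]

/-- Monomial maps of the torus. -/
noncomputable def mon (M : Matrix (Fin 3) (Fin 3) ℤ) (x : Fin 3 → F) (l : Fin 3) : F :=
  ∏ j, x j ^ M l j

theorem mon_ne (M : Matrix (Fin 3) (Fin 3) ℤ) {x : Fin 3 → F} (h : ∀ i, x i ≠ 0) (l : Fin 3) :
    mon M x l ≠ 0 := Finset.prod_ne_zero_iff.2 fun j _ => zpow_ne_zero _ (h j)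

theorem mon_mon {M N : Matrix (Fin 3) (Fin 3) ℤ} (e : M * N = 1) {x : Fin 3 → F}
    (h : ∀ i, x i ≠ 0) : mon M (mon N x) = x := by
  funext l
  have : mon M (mon N x) l = mon (M * N) x l := by
    simp only [mon, Matrix.mul_apply, Fin.prod_univ_three, Fin.sum_univ_three, mul_zpow,
      ← zpow_mul, zpow_add₀ (h _), mul_comm (M _ _)]
    ring
  rw [this, e, mon, Finset.prod_eq_single l]
  · simp
  · intro b _ hb
    simp [Matrix.one_apply_ne hb.symm]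
  · simp

theorem mon_rel {M L : Fld K} (R : Rel M L) (N : Matrix (Fin 3) (Fin 3) ℤ) {x : Fin 3 → M}
    {x' : Fin 3 → L} (e : ∀ i, R.r (x i) (x' i)) (h : ∀ i, x' i ≠ 0) (l : Fin 3) :
    R.r (mon N x l) (mon N x' l) := Rel.prod _ fun j _ => Rel.zpow (e j) (h j) _

end Mon

variable (G : GD K)

theorem sum_a : ∑ i, G.a i = G.n := by
  have h0 := G.hw 0
  have h1 := G.hw 1
  have h2 := G.hw 2
  have h3 := G.sw
  rw [← G.hu] at h3
  simp only [Fin.sum_univ_three] at h3 ⊢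
  change G.n * G.w 0 = G.u * G.a 0 + G.a 2 at h0
  change G.n * G.w 1 = G.u * G.a 1 + G.a 0 at h1
  change G.n * G.w 2 = G.u * G.a 2 + G.a 1 at h2
  refine Nat.eq_of_mul_eq_mul_left (Nat.succ_pos G.u) ?_
  rw [Nat.succ_eq_add_one, mul_comm _ G.n]
  conv_rhs => rw [← h3, mul_add, mul_add, h0, h1, h2]
  ring

theorem odd_n : G.n % 2 = 1 := by
  have h1 := G.hn
  have h2 : Odd G.u := ⟨G.e - 1, by have := G.hu; omega⟩
  have h3 := Nat.odd_iff.1 (h2.mul h2)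
  have h4 := Nat.odd_iff.1 h2
  omega

theorem odd_a (l : Fin 3) : G.a l % 2 = 1 := by
  have h2 : Odd G.u := ⟨G.e - 1, by have := G.hu; omega⟩
  have h : ∀ i, G.a i % 2 = G.a (i - 1) % 2 := fun i => by
    have h3 : Even (G.u * G.a i + G.a (i - 1)) := G.hw i ▸ (G.ev i).mul_left _
    rw [Nat.even_add, Nat.even_mul, or_iff_right (Nat.not_even_iff_odd.2 h2), Nat.even_iff,
      Nat.even_iff] at h3
    omega
  have h1 : G.a 1 % 2 = G.a 0 % 2 := h 1
  have h3 : G.a 2 % 2 = G.a 1 % 2 := h 2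
  have h4 := sum_a G
  have h5 := odd_n G
  rw [Fin.sum_univ_three] at h4
  fin_cases l <;> simp only [Fin.zero_eta, Fin.mk_one, Fin.reduceFinMk] <;> omega

theorem exists_hd : ∃ H : HD K, H.aa none = G.n ∧ (∀ l, H.aa (some l) = G.a l) ∧ H.lam = G.lam := by
  have en : 2 * (G.n / 2) + 1 = G.n := by have := odd_n G; omega
  have ea : ∀ l, 2 * (G.a l / 2) + 1 = G.a l := fun l => by have := odd_a G l; omega
  have ch := G.ch
  simp only [Nat.cast_mul, Nat.cast_prod, ne_eq, mul_eq_zero, not_or, Finset.prod_eq_zero_iff,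
    Nat.cast_ofNat] at ch
  refine ⟨⟨fun l => l.elim (G.n / 2) fun l => G.a l / 2, G.lam, ?_, G.l0, ch.1.1.1, ?_, ?_⟩,
    en, ea, rfl⟩
  · have h4 := sum_a G
    have := ea 0
    have := ea 1
    have := ea 2
    simp only [Option.elim, Fin.sum_univ_three] at h4 ⊢
    omega
  · rintro (_ | l)
    · exact en.symm ▸ ch.1.2
    · exact (ea l).symm ▸ fun e => ch.2 ⟨l, Finset.mem_univ _, e⟩
  · simp only [Option.elim, en, ea]
    exact G.disc

theorem exists_mat : ∃ M N : Matrix (Fin 3) (Fin 3) ℤ, M * N = 1 ∧ N * M = 1 ∧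
    (∀ l, N 0 l = G.a l) ∧ ∀ (F : Type) [Field F] (x : Fin 3 → F), (∀ i, x i ≠ 0) → x 0 = 1 →
      ∀ l, mon M x l * ∏ i, x i ^ G.w i = x l ^ G.u * x (l + 1) := by
  obtain ⟨p, hp⟩ : ∃ p : Fin 3 → ℤ, p 0 * G.a 0 + p 1 * G.a 1 + p 2 * G.a 2 = 1 := by
    have h1 := Nat.gcd_eq_gcd_ab (G.a 0) (Nat.gcd (G.a 1) (G.a 2))
    have h2 := Nat.gcd_eq_gcd_ab (G.a 1) (G.a 2)
    rw [G.cop] at h1
    refine ⟨![Nat.gcdA (G.a 0) (Nat.gcd (G.a 1) (G.a 2)),
      Nat.gcdA (G.a 1) (G.a 2) * Nat.gcdB (G.a 0) (Nat.gcd (G.a 1) (G.a 2)),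
      Nat.gcdB (G.a 1) (G.a 2) * Nat.gcdB (G.a 0) (Nat.gcd (G.a 1) (G.a 2))], ?_⟩
    simp only [Matrix.cons_val_zero, Matrix.cons_val_one, Matrix.cons_val]
    linear_combination -h1 - Nat.gcdB (G.a 0) (Nat.gcd (G.a 1) (G.a 2)) * h2
  have h1 : (G.n : ℤ) * G.w 1 = G.u * G.a 1 + G.a 0 := by exact_mod_cast G.hw 1
  have h2 : (G.n : ℤ) * G.w 2 = G.u * G.a 2 + G.a 1 := by exact_mod_cast G.hw 2
  have h3 : (G.n : ℤ) + G.u = G.u * G.u + 1 := by exact_mod_cast G.hn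
  have h4 : (G.a 0 : ℤ) + G.a 1 + G.a 2 = G.n := by
    have := sum_a G
    rw [Fin.sum_univ_three] at this
    exact_mod_cast this
  have hn : (G.n : ℤ) ≠ 0 := by have := odd_n G; omega
  have e2 : (1 - G.w 1 - G.w 2 + G.u * G.w 2 : ℤ) = G.a 2 := mul_left_cancel₀ hn (by
    linear_combination -h1 + (G.u - 1) * h2 - h4 - G.a 2 * h3)
  have e1 : (-G.u + G.u * G.w 1 + G.w 2 : ℤ) = G.a 1 := mul_left_cancel₀ hn (by
    linear_combination G.u * h1 + h2 + G.u * h4 - G.a 1 * h3)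
  have e0 : (G.u * G.u - G.u * G.w 1 - G.u * G.w 2 + G.w 1 : ℤ) = G.a 0 := by
    linear_combination -h3 - h4 - e1 - e2
  let M : Matrix (Fin 3) (Fin 3) ℤ :=
    !![p 0, 1 - G.w 1, -G.w 2; p 1, G.u - G.w 1, 1 - G.w 2; p 2, -G.w 1, G.u - G.w 2]
  have hd : M.det = 1 := by
    simp only [M, Matrix.det_fin_three, Matrix.of_apply, Matrix.cons_val', Matrix.cons_val_zero,
      Matrix.cons_val_one, Matrix.cons_val, Matrix.cons_val_fin_one]
    linear_combination hp + p 0 * e0 + p 1 * e1 + p 2 * e2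
  refine ⟨M, M.adjugate, by rw [Matrix.mul_adjugate, hd, one_smul],
    by rw [Matrix.adjugate_mul, hd, one_smul], fun l => ?_, fun F _ x h h0 l => ?_⟩
  · rw [Matrix.adjugate_fin_three]
    fin_cases l <;> simp [M]
    · linear_combination e0
    · linear_combination e1
    · linear_combination e2
  · have a1 := h 1
    have a2 := h 2
    fin_cases l <;> simp [M, mon, Fin.prod_univ_three, h0, zpow_sub₀ a1, zpow_sub₀ a2] <;>
      field_simp

theorem half (F : Type) [Field F] (x : Fin 3 → F) :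
    (∏ i, x i ^ (G.w i / 2)) ^ 2 = ∏ i, x i ^ G.w i := by
  rw [← Finset.prod_pow]
  exact Finset.prod_congr rfl fun i _ => by
    rw [← pow_mul, Nat.div_mul_cancel (G.ev i).two_dvd]

theorem aeval_br (L : Fld K) (x : Fin 3 → L) : MvPolynomial.aeval x (brF G.u G.w G.lam) =
    ∑ i, x i ^ G.u * x (i + 1) + algebraMap K L G.lam * ∏ i, x i ^ G.w i := by
  simp [brF]

end A1p

open A1p in
theorem A1_thm [FW0 K] : A1 K := ⟨fun G => by
  obtain ⟨H, hn, ha, hl⟩ := exists_hd G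
  obtain ⟨M, N, e1, e2, e3, e4⟩ := exists_mat G
  refine ⟨H, hn, fun κ _ _ => ?_⟩
  have e5 : ∀ (L : Fld K) (x : Fin 3 → L), ∏ i, x i ^ H.aa (some i) = mon N x 0 := fun L x =>
    Finset.prod_congr rfl fun i _ => by rw [e3, ha, zpow_natCast]
  have e6 : ∀ (L : Fld K) (x : Fin 3 → L) (n : Fin 3 → ℕ), (∀ i, x i ≠ 0) → ∏ i, x i ^ n i ≠ 0 :=
    fun L x n h => Finset.prod_ne_zero_iff.2 fun i _ => pow_ne_zero _ (h i)
  refine transfer (U := G.UU) (V := H.U3) (τ := ngz) (τ' := ngz)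
    (f := fun _ x => (mon M x.1, x.2 / ∏ i, x.1 i ^ (G.w i / 2)))
    (g := fun _ x => (mon N x.1, x.2 * ∏ i, mon N x.1 i ^ (G.w i / 2)))
    ⟨⟨fun _ L R _ _ _ m e => ⟨mon_rel R M e.1 m.1.2, Rel.div e.2
        (Rel.prod _ fun i _ => Rel.pow (e.1 i) _) (e6 L _ _ m.1.2)⟩, fun L x m => ?_⟩,
      ⟨fun _ _ R _ _ _ m e => ⟨mon_rel R N e.1 m.1.1.2, R.mul e.2
        (Rel.prod _ fun i _ => Rel.pow (mon_rel R N e.1 m.1.1.2 i) _)⟩, fun L x m => ?_⟩,
      fun L x m => ?_, fun L x m => ?_⟩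
    (fun L x => and_congr Iff.rfl (by simp only [ngz, neg_sq])) (fun L x _ => ?_) κ
  · refine ⟨⟨⟨trivial, mon_ne M m.1.2⟩, (e5 L _).trans ?_⟩, ?_⟩
    · rw [mon_mon e2 m.1.2]
      exact m.2.1
    · change (x.2 / ∏ i, x.1 i ^ (G.w i / 2)) ^ 2 = ∑ i, mon M x.1 i + algebraMap K L H.lam
      rw [div_pow, half, m.2.2, aeval_br, div_eq_iff (e6 L _ _ m.1.2), add_mul, Finset.sum_mul, hl]
      simp only [e4 L x.1 m.1.2 m.2.1]
  · have h0 : mon N x.1 0 = 1 := (e5 L _).symm.trans m.1.2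
    have h1 := mon_ne N m.1.1.2
    refine ⟨⟨trivial, h1⟩, h0, ?_⟩
    change (x.2 * ∏ i, mon N x.1 i ^ (G.w i / 2)) ^ 2 = _
    rw [mul_pow, half, m.2, aeval_br, add_mul, Finset.sum_mul, hl]
    simp only [← e4 L _ h1 h0, mon_mon e1 m.1.1.2]
  · refine Prod.ext (mon_mon e2 m.1.2) ?_
    simp only [mon_mon e2 m.1.2]
    exact div_mul_cancel₀ _ (e6 L _ _ m.1.2)
  · exact Prod.ext (mon_mon e1 m.1.1.2) (mul_div_cancel_right₀ _ (e6 L _ _ (mon_ne N m.1.1.2)))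
  · exact Prod.ext rfl (neg_mul _ _)⟩

end Pool.Agent.Lib.MP_557161_ag.HG
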