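import Pool.Agent.Lib.MP_557161_ag.HG.St4

/-!
Repeated characters do not contribute.
-/

namespace Pool.Agent.Lib.MP_557161_ag.HG

open Pool.Agent.Lib.MP_557161_ag.DL

namespace A5aa

section S2

variable {I F : Type} [DecidableEq I] {q q' : I} {y : I → F} {u u' v v' : F}

/-- Two coordinates are replaced. -/
def s2 (q q' : I) (y : I → F) (u u' : F) : I → F := Function.update (Function.update y q u) q' u'

lemma s2_r : s2 q q' y u u' q' = u' := Function.update_self ..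

lemma s2_l (h : q ≠ q') : s2 q q' y u u' q = u := by
  rw [s2, Function.update_of_ne h, Function.update_self]

lemma s2_o {a : I} (h1 : a ≠ q) (h2 : a ≠ q') : s2 q q' y u u' a = y a := by
  rw [s2, Function.update_of_ne h2, Function.update_of_ne h1]

lemma s2_ext (h : q ≠ q') {z : I → F} (h1 : z q = u) (h2 : z q' = u')
    (h3 : ∀ a, a ≠ q → a ≠ q' → z a = y a) : z = s2 q q' y u u' := funext fun a => by
  by_cases e : a = q
  · rw [e, s2_l h, h1]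
  by_cases e' : a = q'
  · rw [e', s2_r, h2]
  rw [s2_o e e', h3 a e e']

lemma s2_prod [Fintype I] (h : q ≠ q') {N : Type} [CommMonoid N] (G : I → F → N) :
    ∏ a, G a (s2 q q' y u u' a) =
      G q u * G q' u' * ∏ a ∈ (Finset.univ.erase q).erase q', G a (y a) := by
  rw [← Finset.mul_prod_erase _ _ (Finset.mem_univ q), ← Finset.mul_prod_erase (a := q') _ _
    (Finset.mem_erase.2 ⟨h.symm, Finset.mem_univ _⟩), s2_l h, s2_r, mul_assoc]
  congr 2
  exact Finset.prod_congr rfl fun a ha => by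
    rw [s2_o (Finset.ne_of_mem_erase (Finset.mem_of_mem_erase ha)) (Finset.ne_of_mem_erase ha)]

lemma s2_sum [Fintype I] (h : q ≠ q') {N : Type} [AddCommMonoid N] (G : I → F → N) :
    ∑ a, G a (s2 q q' y u u' a) =
      G q u + G q' u' + ∑ a ∈ (Finset.univ.erase q).erase q', G a (y a) :=
  s2_prod (N := Multiplicative N) h G

end S2

variable {K : Type} [Field K] {κ : Type} [DecidableEq κ]

section St

variable {I : Type} [Finite I] [Finite κ] [DecidableEq I] (i : κ) (q q' : I) {M L : Fld K}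

/-- The shape of the points. -/
abbrev sh (κ I : Type) [Finite κ] [Finite I] : Cd := (Cd.vec κ).prod (.pi κ ((Cd.vec I).prod .one))

/-- Two coordinates of one copy are replaced. -/
def st (x : (sh κ I).X L) (u u' : L) : (sh κ I).X L :=
  (x.1, Function.update x.2 i (s2 q q' (x.2 i).1 u u', (x.2 i).2))

variable {i q q'} {x : (sh κ I).X L} {u u' v v' : L}

lemma st_i : (st i q q' x u u').2 i = (s2 q q' (x.2 i).1 u u', (x.2 i).2) :=
  Function.update_self ..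

lemma st_l (h : q ≠ q') : ((st i q q' x u u').2 i).1 q = u := by
  rw [st_i]
  exact s2_l h

lemma st_r : ((st i q q' x u u').2 i).1 q' = u' := by
  rw [st_i]
  exact s2_r

lemma st_act (γ : ∀ L : Fld K, ((Cd.vec I).prod .one).X L → ((Cd.vec I).prod .one).X L)
    (e : γ L (s2 q q' (x.2 i).1 u u', (x.2 i).2) = (s2 q q' (x.2 i).1 v v', (x.2 i).2)) :
    cact i γ L (st i q q' x u u') = st i q q' x v v' := by
  rw [cact, st_i, e]
  exact Prod.ext rfl (Function.update_idem ..)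

lemma st_st (h : q ≠ q') : st i q q' (st i q q' x u u') v v' = st i q q' x v v' := by
  rw [st, st_i, s2_ext (z := s2 q q' (s2 q q' (x.2 i).1 u u') v v') (y := (x.2 i).1) h (s2_l h) s2_r
    fun a h1 h2 => by rw [s2_o h1 h2, s2_o h1 h2]]
  exact Prod.ext rfl (Function.update_idem ..)

lemma st_self : st i q q' x ((x.2 i).1 q) ((x.2 i).1 q') = x := by simp [st, s2]

lemma st_swap (h : q ≠ q') :
    cact i (uperm (Equiv.swap q q')) L (st i q q' x u u') = st i q q' x u' u :=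
  st_act _ (Prod.ext (s2_ext h (by simp [uperm, s2_r]) (by simp [uperm, s2_l h]) fun a h1 h2 => by
    simp [uperm, Equiv.swap_apply_of_ne_of_ne h1 h2, s2_o h1 h2]) rfl)

lemma st_mul (h : q ≠ q') (ξ : K) :
    cact i (umul fun a => if a = q then ξ else if a = q' then ξ⁻¹ else 1) L (st i q q' x u u') =
      st i q q' x (algebraMap K L ξ * u) ((algebraMap K L ξ)⁻¹ * u') :=
  st_act _ (Prod.ext (s2_ext h (by simp [umul, s2_l h]) (by simp [umul, s2_r, h.symm])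
    fun a h1 h2 => by simp [umul, h1, h2, s2_o h1 h2]) rfl)

lemma rel_st {R : Rel M L} {z : (sh κ I).X M} {a a' : M} (e : (sh κ I).lift R.r z x)
    (h1 : R.r a u) (h2 : R.r a' u') : (sh κ I).lift R.r (st i q q' z a a') (st i q q' x u u') :=
  ⟨e.1, Rel.update (q := fun _ => ((Cd.vec I).prod .one).lift R.r) e.2 i
    ⟨Rel.update (q := fun _ => R.r) (Rel.update (q := fun _ => R.r) (e.2 i).1 q h1) q' h2,
      (e.2 i).2⟩⟩

end St

lemma int_root {M : Fld K} (O : Pl M) {u u' : M} {c e : O.res} {a : ℕ} (ha : 0 < a)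
    (h1 : (Rel.ofPl O).r (u * u') c) (h2 : (Rel.ofPl O).r (u ^ a + u' ^ a) e) : u ∈ O.O := by
  by_contra h
  have u0 : u ≠ 0 := fun e => h (e ▸ zero_mem _)
  have h3 : u⁻¹ ∈ O.O := (O.O.mem_or_inv_mem u).resolve_left h
  have h4 : (Rel.ofPl O).r u⁻¹ 0 := ⟨h3, by
    by_contra e
    exact h (by simpa using ((O.rd_ne_zero_iff h3).1 e).2)⟩
  have h5 := Rel.pow h4 a
  rw [zero_pow ha.ne'] at h5
  refine one_ne_zero (Rel.eq (Rel.ofPl O).one (Rel.sub ((Rel.ofPl O).mul h2 h5)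
    ((Rel.ofPl O).mul ((Rel.ofPl O).mul (Rel.pow h1 a) h5) h5)) ?_ |>.trans (by simp))
  have : u ^ a * u⁻¹ ^ a = 1 := by rw [← mul_pow, mul_inv_cancel₀ u0, one_pow]
  rw [mul_pow]
  linear_combination (u' ^ a * u⁻¹ ^ a - 1) * this

lemma ex_root {F : Type} [Field F] [IsAlgClosed F] {c : F} (hc : c ≠ 0) (e : F) {a : ℕ}
    (ha : 0 < a) : ∃ u u' : F, u * u' = c ∧ u ^ a + u' ^ a = e := by
  obtain ⟨Z, hZ⟩ := IsAlgClosed.exists_root (Polynomial.C 1 * Polynomial.X ^ 2 +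
    Polynomial.C (-e) * Polynomial.X + Polynomial.C (c ^ a))
    (by rw [Polynomial.degree_quadratic one_ne_zero]; decide)
  obtain ⟨u, rfl⟩ := IsAlgClosed.exists_pow_nat_eq Z ha
  replace hZ : (u ^ a) ^ 2 - e * u ^ a + c ^ a = 0 := by simpa [sub_eq_add_neg] using hZ
  have u0 : u ≠ 0 := by
    rintro rfl
    simp [ha.ne', hc] at hZ
  refine ⟨u, c / u, mul_div_cancel₀ _ u0, ?_⟩
  rw [div_pow]
  field_simp
  linear_combination hZ

variable (H : HD K) [Fintype κ] (i : κ) {l : Option (Fin 3)} {k k' : Fin (H.aa l)} {L : Fld K}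

lemma blk (h : k ≠ k') (y : H.Ix → L) {u u' v v' : L} (e : u * u' = v * v') (l' : Option (Fin 3))
    (n : ℕ) : ∏ c, s2 ⟨l, k⟩ ⟨l, k'⟩ y u u' ⟨l', c⟩ ^ n = ∏ c, s2 ⟨l, k⟩ ⟨l, k'⟩ y v v' ⟨l', c⟩ ^ n := by
  have h1 : ∀ g : H.Ix → L, ∏ c, g ⟨l', c⟩ = ∏ a : H.Ix, if a.1 = l' then g a else 1 := fun g => by
    rw [Fintype.prod_sigma, Finset.prod_eq_single l' (fun b _ hb => by simp [hb]) (by simp)]
    simp
  have h2 : (⟨l, k⟩ : H.Ix) ≠ ⟨l, k'⟩ := by simpa using h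
  rw [Finset.prod_pow, Finset.prod_pow, h1, h1,
    s2_prod h2 fun (a : H.Ix) (z : L) => if a.1 = l' then z else 1,
    s2_prod h2 fun (a : H.Ix) (z : L) => if a.1 = l' then z else 1]
  split_ifs
  · rw [e]
  · rfl

variable {H i} {x : (sh κ H.Ix).X L} {u u' v v' : L}

lemma st_mem (h : k ≠ k') (e : u * u' = v * v')
    (m : (H.EU κ).S.mem L (st i ⟨l, k⟩ ⟨l, k'⟩ x u u')) :
    (H.EU κ).S.mem L (st i ⟨l, k⟩ ⟨l, k'⟩ x v v') := by
  have h2 : (⟨l, k⟩ : H.Ix) ≠ ⟨l, k'⟩ := by simpa using h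
  refine ⟨trivial, fun i' => ?_⟩
  have := m.2 i'
  by_cases hi : i' = i
  · subst hi
    rw [st_i] at this ⊢
    have h0 : v * v' ≠ 0 := e ▸ mul_ne_zero ((s2_l h2).symm.trans_ne (this.1.2 ⟨l, k⟩))
      (s2_r.symm.trans_ne (this.1.2 ⟨l, k'⟩))
    refine ⟨⟨trivial, fun a => ?_⟩, ?_⟩
    · change s2 _ _ _ _ _ a ≠ 0
      by_cases e1 : a = ⟨l, k⟩
      · rw [e1, s2_l h2]
        exact left_ne_zero_of_mul h0
      by_cases e2 : a = ⟨l, k'⟩
      · rw [e2, s2_r]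
        exact right_ne_zero_of_mul h0
      exact ((s2_o e1 e2).trans (s2_o e1 e2).symm).trans_ne (this.1.2 a)
    · simpa only [← blk H h _ e] using this.2
  · simpa only [st, Function.update_of_ne hi] using this

lemma st_mem' (h : k ≠ k') (e : (x.2 i).1 ⟨l, k⟩ * (x.2 i).1 ⟨l, k'⟩ = v * v')
    (m : (H.EU κ).S.mem L x) : (H.EU κ).S.mem L (st i ⟨l, k⟩ ⟨l, k'⟩ x v v') :=
  st_mem h e (by rwa [st_self])

lemma st_ph (h : k ≠ k') : ∃ c : L, ∀ u u' : L, (H.EU κ).φ L (st i ⟨l, k⟩ ⟨l, k'⟩ x u u') =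
    c + sgO l * (u ^ H.aa l + u' ^ H.aa l) := by
  have h2 : (⟨l, k⟩ : H.Ix) ≠ ⟨l, k'⟩ := by simpa using h
  refine ⟨(H.EU κ).φ L (st i ⟨l, k⟩ ⟨l, k'⟩ x 0 0), fun u u' => ?_⟩
  simp only [HD.EU, st, Function.apply_update fun _ (y : H.ush.X L) =>
    ∑ a : H.Ix, sgO a.1 * y.1 a ^ H.aa a.1, Finset.sum_update_of_mem (Finset.mem_univ i),
    s2_sum h2 fun (a : H.Ix) (z : L) => sgO a.1 * z ^ H.aa a.1, zero_pow (Nat.succ_ne_zero _)]
  ring

variable (H i k k')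

/-- The quotient. -/
noncomputable def E2 : Ph K ((sh κ H.Ix).prod .one) where
  S := ((H.EU κ).S.prod (.univ K .one)).cl (fun _ x => (x.1.2 i).1 ⟨l, k'⟩ = 1)
    fun _ _ R _ _ _ _ e h => Rel.eq ((e.1.2 i).1 _) R.one h
  φ L x := (H.EU κ).φ L x.1 + sgO l * (x.2 - ((x.1.2 i).1 ⟨l, k⟩ ^ H.aa l + 1))
  reg _ _ R _ _ m m' e := R.add ((H.EU κ).reg R m.1.1 m'.1.1 e.1) (R.mul (R.sgO l)
    (Rel.sub e.2 (R.add (Rel.pow ((e.1.2 i).1 _) _) R.one)))

/-- The quotient map. -/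
noncomputable def qm (L : Fld K) (x : (sh κ H.Ix).X L) : ((sh κ H.Ix).prod .one).X L :=
  (st i ⟨l, k⟩ ⟨l, k'⟩ x ((x.2 i).1 ⟨l, k⟩ * (x.2 i).1 ⟨l, k'⟩) 1,
    (x.2 i).1 ⟨l, k⟩ ^ H.aa l + (x.2 i).1 ⟨l, k'⟩ ^ H.aa l)

variable {H i k k'}

omit [DecidableEq κ] in
lemma van_E2 {p : ℕ} [h2 : FC2 K p] {d : Cd} (W : ASp K d) : Van p (E2 H i k k') W :=
  h2.kill (fun _ x => (x.2.1, x.2.2 + sgO l * x.1))
    ⟨fun _ _ R _ _ _ _ e => ⟨e.2.1, R.add e.2.2 (R.mul (R.sgO l) e.1)⟩, fun _ _ m => m.2⟩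
    fun L t x _ => ⟨by simp, by simp, by
      have : (sgO l : L) * sgO l = 1 := by cases l <;> simp [sgO]
      simp only [E2]
      linear_combination t * this⟩

lemma pmp_qm (h : k ≠ k') : PMp (H.EU κ) (E2 H i k k') (qm H i k k') where
  reg _ _ R _ _ _ _ e := ⟨rel_st e (R.mul ((e.2 i).1 _) ((e.2 i).1 _)) R.one,
    R.add (Rel.pow ((e.2 i).1 _) _) (Rel.pow ((e.2 i).1 _) _)⟩
  mem L x m := ⟨⟨st_mem' h (mul_one _).symm m, trivial⟩, st_r⟩
  ph L x _ := by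
    obtain ⟨c, hc⟩ := st_ph (i := i) (x := x) h
    conv_rhs => rw [← st_self (i := i) (q := ⟨l, k⟩) (q' := ⟨l, k'⟩) (x := x), hc]
    simp only [E2, qm, hc, st_l (show (⟨l, k⟩ : H.Ix) ≠ ⟨l, k'⟩ by simpa using h)]
    ring

lemma pro_qm (h : k ≠ k') : Pro (H.EU κ).S (E2 H i k k').S (qm H i k k') := by
  intro M O x z _ _ mz e
  have h2 : (⟨l, k⟩ : H.Ix) ≠ ⟨l, k'⟩ := by simpa using h
  have e1 := (e.1.2 i).1 ⟨l, k⟩
  rw [qm, st_l h2] at e1
  have r1 : (Rel.ofPl O).r _ _ := ⟨int_root O (Nat.succ_pos _) e1 e.2, rfl⟩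
  have e2 : (Rel.ofPl O).r (_ + _) _ := e.2
  rw [add_comm] at e2
  have r2 : (Rel.ofPl O).r _ _ :=
    ⟨int_root O (Nat.succ_pos _) (mul_comm ((x.2 i).1 ⟨l, k⟩) _ ▸ e1) e2, rfl⟩
  have r3 := rel_st (i := i) (q := ⟨l, k⟩) (q' := ⟨l, k'⟩) e.1 r1 r2
  rw [qm, st_st h2, st_self] at r3
  refine ⟨_, st_mem' h ?_ mz.1.1, r3⟩
  rw [show (z.1.2 i).1 ⟨l, k'⟩ = 1 from mz.2, mul_one]
  exact Rel.eq e1 ((Rel.ofPl O).mul r1 r2) rfl

lemma srj_qm (h : k ≠ k') : Srj (H.EU κ).S (E2 H i k k').S (qm H i k k') := by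
  intro L _ z mz
  have h2 : (⟨l, k⟩ : H.Ix) ≠ ⟨l, k'⟩ := by simpa using h
  have h1 : (z.1.2 i).1 ⟨l, k'⟩ = 1 := mz.2
  obtain ⟨u, u', e1, e2⟩ := ex_root ((mz.1.1.2 i).1.2 ⟨l, k⟩) z.2 (Nat.succ_pos (2 * H.b l))
  refine ⟨st i ⟨l, k⟩ ⟨l, k'⟩ z.1 u u', st_mem' h (by rw [h1, mul_one, e1]) mz.1.1, ?_⟩
  rw [qm, st_l h2, st_r, st_st h2, e1, e2, ← h1, st_self]

end A5aa

open A5aa in
theorem A5a_thm {K : Type} [Field K] [Base K] {p : ℕ} [Fact p.Prime] [CharP K p] [FW0 K]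
    [hw : FWp K p] : A5a K p where
  rep H κ _ _ d W j Φ i l k k' ξ h hξ h1 h2 L x y w := by
    have hq : (⟨l, k⟩ : H.Ix) ≠ ⟨l, k'⟩ := by simpa using h
    have key : ∀ (L : Fld K) (x : (sh κ H.Ix).X L) (y : L) (w : d.X L) (u u' v v' : L),
        (H.EU κ).S.mem L (st i ⟨l, k⟩ ⟨l, k'⟩ x u u') → u * u' = v * v' →
        v ^ H.aa l = u ^ H.aa l → Φ.b L (st i ⟨l, k⟩ ⟨l, k'⟩ x v v') y w =
          Φ.b L (st i ⟨l, k⟩ ⟨l, k'⟩ x u u') y w := fun L x y w u u' v v' m e e' => by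
      have u0 : u ≠ 0 := (st_l hq).symm.trans_ne ((m.2 i).1.2 ⟨l, k⟩)
      have z0 : algebraMap K L ξ ≠ 0 := (map_ne_zero _).2 (hξ.ne_zero (Nat.succ_ne_zero _))
      obtain ⟨c, -, hc⟩ := (hξ.map_of_injective (algebraMap K L).injective).eq_pow_of_pow_eq_one
        (show (v / u) ^ H.aa l = 1 by rw [div_pow, e', div_self (pow_ne_zero _ u0)])
      obtain rfl : v = algebraMap K L ξ ^ c * u := by rw [hc, div_mul_cancel₀ _ u0]
      clear hc e'
      induction c generalizing v' with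
      | zero =>
        rw [pow_zero, one_mul] at e ⊢
        rw [mul_left_cancel₀ u0 e]
      | succ c ih =>
        have e2 : u * u' = algebraMap K L ξ ^ c * u * (algebraMap K L ξ * v') := by
          rw [e]
          ring
        have := h2 L _ y w (st_mem h e2 m)
        rw [st_mul hq, one_mul, inv_mul_cancel_left₀ z0, ← mul_assoc, ← pow_succ'] at this
        exact this.trans (ih _ e2)
    obtain ⟨Ψ, hΨ⟩ := hw.c1.desc (pmp_qm (i := i) h) (pro_qm h) (srj_qm h) Φ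
      fun L x x' y w m _ e => by
        have e1 := congrArg (fun z => (z.1.2 i).1 ⟨l, k⟩) e
        have e2 := congrArg Prod.snd e
        have e3 := congrArg (fun z => st i ⟨l, k⟩ ⟨l, k'⟩ z.1 ((x'.2 i).1 ⟨l, k⟩) ((x'.2 i).1 ⟨l, k'⟩)) e
        simp only [qm, st_l hq, st_st hq, st_self] at e1 e2 e3
        rw [← st_self (i := i) (q := ⟨l, k⟩) (q' := ⟨l, k'⟩) (x := x)] at m
        rw [← e3]
        conv_lhs => rw [← st_self (i := i) (q := ⟨l, k⟩) (q' := ⟨l, k'⟩) (x := x)]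
        generalize (x.2 i).1 ⟨l, k⟩ = u, (x.2 i).1 ⟨l, k'⟩ = u', (x'.2 i).1 ⟨l, k⟩ = v,
          (x'.2 i).1 ⟨l, k'⟩ = v' at m e1 e2 ⊢
        have e4 : (v ^ H.aa l - u ^ H.aa l) * (v ^ H.aa l - u' ^ H.aa l) = 0 := by
          have := congrArg (· ^ H.aa l) e1
          simp only [mul_pow] at this
          linear_combination this - v ^ H.aa l * e2
        rcases mul_eq_zero.1 e4 with e5 | e5
        · exact (key L x y w u u' v v' m e1 (sub_eq_zero.1 e5)).symm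
        · have := h1 L _ y w m
          rw [st_swap hq, one_mul] at this
          exact this.symm.trans (key L x y w u' u v v' (st_mem h (mul_comm _ _) m)
            ((mul_comm _ _).trans e1) (sub_eq_zero.1 e5)).symm
    by_contra h0
    exact h0 ((hΨ L x y w (hw.c1.mem Φ h0).2.1).symm.trans (van_E2 W j Ψ L _ y w))

end Pool.Agent.Lib.MP_557161_ag.HG
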