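import Pool.Agent.Lib.MP_557161_ag.HG.St4

/-!
Reduction to the standard character.
-/

namespace Pool.Agent.Lib.MP_557161_ag.HG

open Pool.Agent.Lib.MP_557161_ag.DL Finset

namespace A5Aux

section Abstract

variable {X Y : Type} [Fintype Y] [DecidableEq Y] {N : ℕ} [NeZero N] (χ : AddChar (ZMod N) ℂ)
  (act : (Y → ZMod N) → X → X) (F : X → ℂ)

/-- The component of `F` that belongs to the character `c`. -/
noncomputable def pr (c : Y → ZMod N) (x : X) : ℂ :=
  ∑ m : Y → ZMod N, χ (-∑ y, c y * m y) * F (act m x)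

variable {χ act F}

lemma pr_act (hadd : ∀ m m' x, act m (act m' x) = act (m + m') x) (c m' : Y → ZMod N) (x : X) :
    pr χ act F c (act m' x) = χ (∑ y, c y * m' y) * pr χ act F c x := by
  unfold pr
  rw [mul_sum]
  refine Fintype.sum_equiv (Equiv.addRight m') _ _ fun m => ?_
  rw [hadd, ← mul_assoc, ← AddChar.map_add_eq_mul, Equiv.coe_addRight]
  congr 2
  simp only [Pi.add_apply, mul_add, sum_add_distrib]
  ring

lemma pr_perm (P : Equiv.Perm Y) (T : X → X) (ε : ℂ) (x : X)
    (hT : ∀ m, act (fun y => m (P y)) (T x) = T (act m x))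
    (hF : ∀ m, F (T (act m x)) = ε * F (act m x)) (c c' : Y → ZMod N) (hc : ∀ y, c' y = c (P y)) :
    pr χ act F c' (T x) = ε * pr χ act F c x := by
  unfold pr
  rw [mul_sum]
  refine (Fintype.sum_equiv (Equiv.arrowCongr P.symm (Equiv.refl _)) _ _ fun m => ?_).symm
  change _ = χ (-∑ y, c' y * m (P y)) * F (act (fun y => m (P y)) (T x))
  rw [hT, hF, ← Equiv.sum_comp P fun y => c y * m y]
  simp only [hc]
  ring

lemma eq_zero_of_pr (hχ : ∀ t, χ t = 1 → t = 0) (x : X) (h0 : act 0 x = x)
    (h : ∀ c, pr χ act F c x = 0) : F x = 0 := by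
  have h1 : ∑ c, pr χ act F c x = 0 := Finset.sum_eq_zero fun c _ => h c
  unfold pr at h1
  rw [Finset.sum_comm, Finset.sum_eq_single (0 : Y → ZMod N)] at h1
  · simp only [Pi.zero_apply, mul_zero, sum_const_zero, neg_zero, AddChar.map_zero_eq_one, one_mul,
      h0, sum_const, card_univ, nsmul_eq_mul, mul_eq_zero, Nat.cast_eq_zero,
      Fintype.card_ne_zero, false_or] at h1
    exact h1
  · intro m _ hm
    let ψ : AddChar (Y → ZMod N) ℂ := χ.compAddMonoidHom
      (AddMonoidHom.mk' (fun c => -∑ y, c y * m y) (by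
        intro a b
        simp only [Pi.add_apply, add_mul, sum_add_distrib]
        ring))
    have h2 : ψ ≠ 1 := by
      intro h3
      refine hm (funext fun y => ?_)
      have h4 : χ (-∑ y', (Pi.single y (1 : ZMod N) : Y → ZMod N) y' * m y') = 1 :=
        DFunLike.congr_fun h3 (Pi.single y 1)
      have h5 := hχ _ h4
      simpa [Pi.single_apply] using h5
    have h6 : ∑ c : Y → ZMod N, χ (-∑ y, c y * m y) = 0 := AddChar.sum_eq_zero_of_ne_one h2
    rw [← sum_mul, h6, zero_mul]
  · intro h2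
    exact absurd (mem_univ _) h2

end Abstract

variable {K : Type} [Field K] (H : HD K)

lemma aa_dvd (l : Option (Fin 3)) : H.aa l ∣ H.N :=
  (Finset.dvd_prod_of_mem _ (mem_univ l)).mul_left 2

lemma N_cast : (H.N : K) ≠ 0 := by
  unfold HD.N
  rw [Nat.cast_mul, Nat.cast_prod]
  exact mul_ne_zero (by exact_mod_cast H.two) (Finset.prod_ne_zero_iff.2 fun l _ => H.ch l)

instance : NeZero H.N := ⟨fun h => N_cast H (by rw [h, Nat.cast_zero])⟩

/-- The cofactor of an exponent. -/
def dd (l : Option (Fin 3)) : ZMod H.N := ((H.N / H.aa l : ℕ) : ZMod H.N)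

lemma aa_dd (l : Option (Fin 3)) : (H.aa l : ZMod H.N) * dd H l = 0 := by
  rw [dd, ← Nat.cast_mul, Nat.mul_div_cancel' (aa_dvd H l), ZMod.natCast_self]

lemma exists_fin (l : Option (Fin 3)) (t : ZMod H.N) (h : t * H.aa l = 0) :
    ∃ k : Fin (H.aa l), t = dd H l * (k.1 : ZMod H.N) := by
  obtain ⟨d, hd⟩ := aa_dvd H l
  have h0 : 0 < H.aa l := Nat.succ_pos _
  have h1 : H.N / H.aa l = d := by rw [hd, Nat.mul_div_cancel_left _ h0]
  have h2 : H.N ∣ t.val * H.aa l := by
    rw [← ZMod.natCast_eq_zero_iff, Nat.cast_mul, ZMod.natCast_zmod_val, h]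
  have h3 : d ∣ t.val := by
    refine Nat.dvd_of_mul_dvd_mul_left h0 ?_
    rw [← hd, mul_comm]
    exact h2
  obtain ⟨k, hk⟩ := h3
  have h4 : k < H.aa l := by
    have h5 := ZMod.val_lt t
    rw [hk] at h5
    refine lt_of_mul_lt_mul_left (a := d) ?_ (Nat.zero_le _)
    rwa [mul_comm d (H.aa l), ← hd]
  refine ⟨⟨k, h4⟩, ?_⟩
  rw [dd, h1, ← Nat.cast_mul, ← hk, ZMod.natCast_zmod_val]

variable {κ : Type} [Fintype κ] (E : AddChar (ZMod H.N) K)

/-- The action of the roots of unity. -/
def act (m : κ × H.Ix → ZMod H.N) (L : Fld K) (x : ((Cd.vec κ).prod (.pi κ H.ush)).X L) :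
    ((Cd.vec κ).prod (.pi κ H.ush)).X L :=
  (x.1, fun i => umul (fun a => E (dd H a.1 * m (i, a))) L (x.2 i))

lemma act_zero (L : Fld K) (x : ((Cd.vec κ).prod (.pi κ H.ush)).X L) : act H E 0 L x = x := by
  refine Prod.ext rfl (funext fun i => Prod.ext (funext fun a => ?_) rfl)
  change algebraMap K L (E (dd H a.1 * 0)) * (x.2 i).1 a = (x.2 i).1 a
  rw [mul_zero, AddChar.map_zero_eq_one, map_one, one_mul]

lemma act_add (L : Fld K) (m m' : κ × H.Ix → ZMod H.N) (x : ((Cd.vec κ).prod (.pi κ H.ush)).X L) :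
    act H E m L (act H E m' L x) = act H E (m + m') L x := by
  refine Prod.ext rfl (funext fun i => Prod.ext (funext fun a => ?_) rfl)
  change algebraMap K L (E (dd H a.1 * m (i, a))) *
    (algebraMap K L (E (dd H a.1 * m' (i, a))) * (x.2 i).1 a) =
    algebraMap K L (E (dd H a.1 * (m (i, a) + m' (i, a)))) * (x.2 i).1 a
  rw [mul_add, AddChar.map_add_eq_mul, map_mul (algebraMap K L), mul_assoc]

lemma act_pow (m : κ × H.Ix → ZMod H.N) (L : Fld K) (x : ((Cd.vec κ).prod (.pi κ H.ush)).X L)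
    (i : κ) (a : H.Ix) : ((act H E m L x).2 i).1 a ^ H.aa a.1 = (x.2 i).1 a ^ H.aa a.1 := by
  change (algebraMap K L (E (dd H a.1 * m (i, a))) * (x.2 i).1 a) ^ H.aa a.1 = _
  rw [mul_pow, ← map_pow, ← AddChar.map_nsmul_eq_pow, nsmul_eq_mul, ← mul_assoc, aa_dd, zero_mul,
    AddChar.map_zero_eq_one, map_one, one_mul]

lemma act_pmp (m : κ × H.Ix → ZMod H.N) : PMp (H.EU κ) (H.EU κ) (act H E m) where
  reg _ _ R _ _ _ _ e := ⟨e.1, fun i => ⟨fun a => R.mul (R.const _) ((e.2 i).1 a), (e.2 i).2⟩⟩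
  mem L x h := by
    refine ⟨trivial, fun i => ⟨⟨trivial, fun a h0 => (h.2 i).1.2 a ?_⟩, ?_, ?_⟩⟩
    · have h1 := act_pow H E m L x i a
      rw [show ((act H E m L x).2 i).1 a = 0 from h0, zero_pow (Nat.succ_ne_zero _)] at h1
      exact pow_eq_zero_iff (Nat.succ_ne_zero _) |>.1 h1.symm
    · exact (h.2 i).2.1.trans (Finset.prod_congr rfl fun k _ =>
        (act_pow H E m L x i ⟨none, k⟩).symm)
    · exact ((Finset.prod_congr rfl fun l _ => Finset.prod_congr rfl fun k _ =>
        act_pow H E m L x i ⟨some l, k⟩).trans (h.2 i).2.2).trans (congrArg _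
          (Finset.prod_congr rfl fun k _ => (act_pow H E m L x i ⟨none, k⟩).symm))
  ph L x _ := congrArg (-∑ i, x.1 i ^ 2 + ·) (Finset.sum_congr rfl fun i _ =>
    Finset.sum_congr rfl fun a _ => congrArg (sgO a.1 * ·) (act_pow H E m L x i a))

/-- A permutation of the copies. -/
def pcp {I : Type} (σ : Equiv.Perm κ) : Equiv.Perm (κ × I) where
  toFun z := (σ z.1, z.2)
  invFun z := (σ.symm z.1, z.2)
  left_inv z := by simp
  right_inv z := by simp

omit [Fintype κ] in
lemma pcp_snd {I α : Type} (σ : Equiv.Perm κ) (f : I → α) (z : κ × I) :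
    f z.2 = f (pcp σ z).2 := rfl

lemma act_cperm (σ : Equiv.Perm κ) (m : κ × H.Ix → ZMod H.N) (L : Fld K)
    (x : ((Cd.vec κ).prod (.pi κ H.ush)).X L) :
    act H E (fun y => m (pcp σ y)) L (cperm σ L x) = cperm σ L (act H E m L x) := rfl

variable [DecidableEq κ]

lemma cact_umul (i : κ) (ξ : H.Ix → K) (m : κ × H.Ix → ZMod H.N)
    (h : ∀ a, E (dd H a.1 * m (i, a)) = ξ a) (h' : ∀ j a, j ≠ i → m (j, a) = 0) (L : Fld K)
    (x : ((Cd.vec κ).prod (.pi κ H.ush)).X L) : cact i (umul ξ) L x = act H E m L x := by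
  refine Prod.ext rfl (funext fun j => ?_)
  change Function.update x.2 i (umul ξ L (x.2 i)) j =
    umul (fun a => E (dd H a.1 * m (j, a))) L (x.2 j)
  by_cases e : j = i
  · subst e
    rw [Function.update_self, funext h]
  · rw [Function.update_of_ne e]
    refine Prod.ext (funext fun a => ?_) rfl
    change (x.2 j).1 a = algebraMap K L (E (dd H a.1 * m (j, a))) * (x.2 j).1 a
    rw [h' j a e, mul_zero, AddChar.map_zero_eq_one, map_one, one_mul]

lemma act_ngl (i : κ) (m : κ × H.Ix → ZMod H.N) (L : Fld K)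
    (x : ((Cd.vec κ).prod (.pi κ H.ush)).X L) :
    act H E m L (cact i ngl L x) = cact i ngl L (act H E m L x) := by
  refine Prod.ext rfl (funext fun j => ?_)
  change umul (fun a => E (dd H a.1 * m (j, a))) L (Function.update x.2 i (ngl L (x.2 i)) j) =
    Function.update (act H E m L x).2 i (ngl L ((act H E m L x).2 i)) j
  by_cases e : j = i
  · subst e
    rw [Function.update_self, Function.update_self]
    rfl
  · rw [Function.update_of_ne e, Function.update_of_ne e]
    rfl

/-- A permutation of the coordinates of one copy. -/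
def pone {I : Type} (i : κ) (σ : Equiv.Perm I) : Equiv.Perm (κ × I) :=
  Equiv.prodCongrRight fun j => if j = i then σ else 1

omit [Fintype κ] in
lemma pone_self {I : Type} (i : κ) (σ : Equiv.Perm I) (a : I) : pone i σ (i, a) = (i, σ a) := by
  simp [pone]

omit [Fintype κ] in
lemma pone_ne {I : Type} {i j : κ} (h : j ≠ i) (σ : Equiv.Perm I) (a : I) :
    pone i σ (j, a) = (j, a) := by
  simp [pone, h]

lemma act_uperm (i : κ) (σ : Equiv.Perm H.Ix) (hσ : ∀ a, (σ a).1 = a.1)
    (m : κ × H.Ix → ZMod H.N) (L : Fld K) (x : ((Cd.vec κ).prod (.pi κ H.ush)).X L) :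
    act H E (fun y => m (pone i σ y)) L (cact i (uperm σ) L x) =
      cact i (uperm σ) L (act H E m L x) := by
  refine Prod.ext rfl (funext fun j => ?_)
  change umul (fun a => E (dd H a.1 * m (pone i σ (j, a)))) L
      (Function.update x.2 i (uperm σ L (x.2 i)) j) =
    Function.update (act H E m L x).2 i (uperm σ L ((act H E m L x).2 i)) j
  by_cases e : j = i
  · subst e
    rw [Function.update_self, Function.update_self]
    refine Prod.ext (funext fun a => ?_) rfl
    change algebraMap K L (E (dd H a.1 * m (pone j σ (j, a)))) * (x.2 j).1 (σ a) =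
      algebraMap K L (E (dd H (σ a).1 * m (j, σ a))) * (x.2 j).1 (σ a)
    rw [pone_self, hσ]
  · rw [Function.update_of_ne e, Function.update_of_ne e]
    simp only [pone_ne e]
    rfl

variable {p : ℕ} [FC1 K p]

lemma exists_pr [DecidableEq H.Ix] (χ : AddChar (ZMod H.N) ℂ) {d : Cd} {W : ASp K d} {j : ℕ}
    (Φ : NF p j (H.EU κ) W) (c : κ × H.Ix → ZMod H.N) : ∃ Ψ : NF p j (H.EU κ) W, ∀ L x y w,
      Ψ.b L x y w = pr χ (fun m => act H E m L) (fun x => Φ.b L x y w) c x := by
  have h1 : ∀ m : κ × H.Ix → ZMod H.N, ∃ Φ' : NF p j (H.EU κ) W, ∀ L x y w,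
      Φ'.b L x y w = Φ.b L (act H E m L x) y w := by
    intro m
    have h2 : ∀ L x, act H E (-m) L (act H E m L x) = x := fun L x => by
      rw [act_add, neg_add_cancel, act_zero]
    obtain ⟨Φ', h⟩ := FC1.pull (act_pmp H E m)
      (Pro.of_left (act_pmp H E (-m)).toMp (act_pmp H E m).toMp fun L x _ => h2 L x) Φ
    refine ⟨Φ', fun L x y w => ?_⟩
    by_cases hx : (H.EU κ).S.mem L x
    · exact h L x y w hx
    · have h3 : Φ'.b L x y w = 0 := by
        by_contra h4
        exact hx (FC1.mem Φ' h4).2.1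
      have h5 : Φ.b L (act H E m L x) y w = 0 := by
        by_contra h4
        exact hx (h2 L x ▸ (act_pmp H E (-m)).mem L _ (FC1.mem Φ h4).2.1)
      rw [h3, h5]
  choose Φ' h using h1
  obtain ⟨Ψ, hΨ⟩ := FC1.sum Finset.univ (fun m => χ (-∑ y, c y * m y)) Φ'
  exact ⟨Ψ, fun L x y w => (hΨ L x y w).trans (Finset.sum_congr rfl fun m _ => by rw [h])⟩

end A5Aux

open A5Aux in
theorem A5_thm {K : Type} [Field K] [Base K] {p : ℕ} [FWp K p] [A5a K p] : A5 K p := by
  refine ⟨fun H κ _ _ h10 d W j Φ hc hn hu => ?_⟩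
  classical
  have : NeZero (H.N : K) := ⟨N_cast H⟩
  obtain ⟨ζ, hζ⟩ := HasEnoughRootsOfUnity.exists_primitiveRoot K H.N
  have hω := Complex.isPrimitiveRoot_exp H.N (NeZero.ne _)
  generalize Complex.exp _ = ω at hω
  obtain ⟨E, hEd⟩ : ∃ E : AddChar (ZMod H.N) K, ∀ l, E (dd H l) = ζ ^ (H.N / H.aa l) :=
    ⟨AddChar.zmodChar H.N hζ.pow_eq_one, fun l => AddChar.zmodChar_apply' _ _⟩
  obtain ⟨χ, hχ1, hχ2⟩ : ∃ χ : AddChar (ZMod H.N) ℂ, (∀ t, χ t = 1 → t = 0) ∧
      ∀ n : ℕ, χ n = ω ^ n := ⟨AddChar.zmodChar H.N hω.pow_eq_one, fun t =>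
    ((AddChar.zmodChar_primitive_of_primitive_root H.N hω).zmod_char_eq_one_iff H.N t).1,
    fun n => AddChar.zmodChar_apply' _ _⟩
  obtain ⟨sd, hsd⟩ : ∃ sd : H.Ix → ZMod H.N, ∀ a, sd a = dd H a.1 * (a.2.1 : ZMod H.N) :=
    ⟨_, fun _ => rfl⟩
  choose Ψ hΨ using exists_pr H E χ Φ
  have hact : ∀ c m L x y w, (Ψ c).b L (act H E m L x) y w =
      χ (∑ z, c z * m z) * (Ψ c).b L x y w := fun c m L x y w => by
    rw [hΨ, hΨ]
    exact pr_act (act_add H E L) c m x
  have hperm : ∀ (i : κ) (σ : Equiv.Perm H.Ix), (∀ a, (σ a).1 = a.1) →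
      ∀ c c' : κ × H.Ix → ZMod H.N, (∀ z, c' z = c (pone i σ z)) → ∀ L x y w,
      (H.EU κ).S.mem L x → (Ψ c').b L (cact i (uperm σ) L x) y w = 1 * (Ψ c).b L x y w := by
    intro i σ hσ c c' hcc L x y w hx
    rw [hΨ, hΨ]
    exact pr_perm (pone i σ) (cact i (uperm σ) L) 1 x (fun m => act_uperm H E i σ hσ m L x)
      (fun m => hu i σ hσ L _ y w ((act_pmp H E m).mem L x hx)) c c' hcc
  have hstd : ∀ L x y w, (Ψ fun z => sd z.2).b L x y w = 0 := by
    refine h10 ζ ω hζ hω W j _ (fun σ L x y w hx => ?_) (fun i L x y w hx => ?_)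
      fun i a L x y w _ => ?_
    · rw [hΨ, hΨ]
      exact pr_perm (pcp σ) (cperm σ L) 1 x (fun m => act_cperm H E σ m L x)
        (fun m => hc σ L _ y w ((act_pmp H E m).mem L x hx)) _ _ (pcp_snd σ sd)
    · rw [hΨ, hΨ]
      exact pr_perm (Equiv.refl _) (cact i ngl L) (-1) x (fun m => act_ngl H E i m L x)
        (fun m => hn i L _ y w ((act_pmp H E m).mem L x hx)) _ _ fun _ => rfl
    · rw [cact_umul H E i _ (Pi.single (i, a) 1), hact]
      · congr 1
        simp only [Pi.single_apply, mul_ite, mul_one, mul_zero, sum_ite_eq', mem_univ, if_true]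
        rw [hsd, dd, ← Nat.cast_mul, hχ2]
      · intro a'
        by_cases e : a' = a
        · subst e
          rw [if_pos rfl, Pi.single_eq_same, mul_one, hEd]
        · rw [if_neg e, Pi.single_eq_of_ne fun h => e (congrArg Prod.snd h), mul_zero,
            AddChar.map_zero_eq_one]
      · exact fun j' a' e => Pi.single_eq_of_ne (fun h => e (congrArg Prod.fst h)) _
  have hall : ∀ c L x y w, (Ψ c).b L x y w = 0 := by
    intro c
    by_cases h1 : ∃ z, c z * H.aa z.2.1 ≠ 0
    · obtain ⟨z, hz⟩ := h1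
      intro L x y w
      have h2 := hact c (Pi.single z (H.aa z.2.1)) L x y w
      have h3 : act H E (Pi.single z (H.aa z.2.1)) L x = x := by
        refine Prod.ext rfl (funext fun i => Prod.ext (funext fun a => ?_) rfl)
        change algebraMap K L (E (dd H a.1 * (Pi.single z (H.aa z.2.1 : ZMod H.N) :
          κ × H.Ix → ZMod H.N) (i, a))) * (x.2 i).1 a = (x.2 i).1 a
        by_cases e : (i, a) = z
        · subst e
          rw [Pi.single_eq_same, mul_comm (dd H _), aa_dd, AddChar.map_zero_eq_one, map_one,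
            one_mul]
        · rw [Pi.single_eq_of_ne e, mul_zero, AddChar.map_zero_eq_one, map_one, one_mul]
      simp only [h3, Pi.single_apply, mul_ite, mul_zero, sum_ite_eq', mem_univ, if_true] at h2
      by_contra h4
      exact hz (hχ1 _ (mul_right_cancel₀ h4 (h2.symm.trans (one_mul _).symm)))
    push Not at h1
    choose k hk using fun i l (t : Fin (H.aa l)) => exists_fin H l (c (i, ⟨l, t⟩)) (h1 (i, ⟨l, t⟩))
    by_cases h2 : ∃ i l, ¬ Function.Injective (k i l)
    · obtain ⟨i, l, h2⟩ := h2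
      obtain ⟨t, t', h3, h4⟩ := Function.not_injective_iff.1 h2
      have h5 : c (i, ⟨l, t⟩) = c (i, ⟨l, t'⟩) := by
        rw [hk, hk, h3]
      have h6 : (⟨l, t⟩ : H.Ix) ≠ ⟨l, t'⟩ := fun h => h4 (eq_of_heq (Sigma.mk.inj h).2)
      refine A5a.rep H κ W j (Ψ c) i l t t' (ζ ^ (H.N / H.aa l)) h4
        (hζ.pow (NeZero.pos _) (Nat.div_mul_cancel (aa_dvd H l)).symm)
        (hperm i _ (fun a => ?_) c c ?_) fun L x y w _ => ?_
      · rw [Equiv.swap_apply_def]
        split_ifs with e e'
        · rw [e]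
        · rw [e']
        · rfl
      · rintro ⟨i', a⟩
        by_cases e : i' = i
        · subst e
          rw [pone_self, Equiv.swap_apply_def]
          split_ifs with e e'
          · rw [e, h5]
          · rw [e', h5]
          · rfl
        · rw [pone_ne e]
      · rw [cact_umul H E i _ (Pi.single (i, ⟨l, t⟩) 1 - Pi.single (i, ⟨l, t'⟩) 1), hact]
        · congr 1
          simp only [Pi.sub_apply, mul_sub, sum_sub_distrib, Pi.single_apply, mul_ite, mul_one,
            mul_zero, sum_ite_eq', mem_univ, if_true, h5, sub_self, AddChar.map_zero_eq_one]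
        · intro a
          rw [Pi.sub_apply]
          by_cases e : a = ⟨l, t⟩
          · subst e
            rw [if_pos rfl, Pi.single_eq_same,
              Pi.single_eq_of_ne fun h => h6 (congrArg Prod.snd h), sub_zero, mul_one, hEd]
          · rw [if_neg e, Pi.single_eq_of_ne fun h => e (congrArg Prod.snd h)]
            by_cases e' : a = ⟨l, t'⟩
            · subst e'
              rw [if_pos rfl, Pi.single_eq_same, zero_sub, mul_neg, mul_one,
                AddChar.map_neg_eq_inv, hEd]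
            · rw [if_neg e', Pi.single_eq_of_ne fun h => e' (congrArg Prod.snd h), sub_zero,
                mul_zero, AddChar.map_zero_eq_one]
        · intro j' a e
          rw [Pi.sub_apply, Pi.single_eq_of_ne fun h => e (congrArg Prod.fst h),
            Pi.single_eq_of_ne fun h => e (congrArg Prod.fst h), sub_zero]
    push Not at h2
    have h3 : ∀ s : Finset κ, ∀ L x y w,
        (Ψ fun z => if z.1 ∈ s then c z else sd z.2).b L x y w = 0 := by
      intro s
      induction s using Finset.induction_on with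
      | empty => simpa using hstd
      | insert i s hi ih =>
        intro L x y w
        by_contra h4
        let σ : Equiv.Perm H.Ix := Equiv.sigmaCongrRight fun l =>
          (Equiv.ofBijective _ (Finite.injective_iff_bijective.1 (h2 i l))).symm
        refine h4 ((one_mul _).symm.trans ((hperm i σ (fun a => rfl) _ _ ?_ L x y w
          (FC1.mem _ h4).2.1).symm.trans (ih L _ y w)))
        rintro ⟨i', l, t⟩
        by_cases e : i' = i
        · subst e
          rw [pone_self, if_neg hi, if_pos (mem_insert_self _ _), hsd]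
          refine Eq.trans ?_ (hk i' l _).symm
          rw [Equiv.ofBijective_apply_symm_apply (k i' l)]
        · rw [pone_ne e]
          simp only [mem_insert, e, false_or]
    simpa using h3 Finset.univ
  intro L x y w
  exact eq_zero_of_pr (act := fun m => act H E m L) (F := fun x => Φ.b L x y w) hχ1 x
    (act_zero H E L x) fun c => (hΨ c L x y w).symm.trans (hall c L x y w)

end Pool.Agent.Lib.MP_557161_ag.HG
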