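import Pool.Agent.Lib.MP_557161_ag.HG.St1

/-!
Transport of the tools for Artin-Schreier covers to Kummer covers.
-/

namespace Pool.Agent.Lib.MP_557161_ag.HG

open Pool.Agent.Lib.MP_557161_ag.DL

variable {K : Type} [Field K] {p N : ℕ} {c c' d : Cd}

section Emp

variable {E : EqD K c} {E' : EqD K c'} {f : ∀ L : Fld K, c'.X L → c.X L}
  {h : ∀ L : Fld K, c'.X L → L}

lemma EMp.h_ne (e : EMp N E' E f h) (hN : 0 < N) {L : Fld K} {x : c'.X L} (m : E'.S.mem L x) :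
    h L x ≠ 0 := fun h0 =>
  E.ne L _ (e.mem L x m) (by rw [e.gh L x m, h0, zero_pow hN.ne', mul_zero])

/-- The induced map of Kummer covers. -/
def kumMap (f : ∀ L : Fld K, c'.X L → c.X L) (h : ∀ L : Fld K, c'.X L → L) (L : Fld K)
    (x : (c'.prod .one).X L) : (c.prod .one).X L := (f L x.1, x.2 * h L x.1)

lemma EMp.kum (e : EMp N E' E f h) : PMp (E'.kum N) (E.kum N) (kumMap f h) where
  reg _ _ R _ _ m m' l := ⟨e.reg R m.1.1 m'.1.1 l.1, R.mul l.2 (e.rh R m.1.1 m'.1.1 l.1)⟩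
  mem L x m := ⟨⟨e.mem L _ m.1.1, trivial⟩, by
    change (x.2 * h L x.1) ^ N = E.g L (f L x.1)
    rw [mul_pow, e.gh L _ m.1.1, show x.2 ^ N = E'.g L x.1 from m.2]⟩
  ph L x m := e.ph L _ m.1.1

lemma EMp.kum_pro (e : EMp N E' E f h) (hN : 0 < N) (hp : Pro E'.S E.S f) :
    Pro (E'.kum N).S (E.kum N).S (kumMap f h) := by
  intro M O x z hO m mz l
  obtain ⟨x', m', l'⟩ := hp M O x.1 z.1 hO m.1.1 mz.1.1 l.1
  have h1 : (Rel.ofPl O).r x.2 (z.2 / h _ x') := by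
    have := Rel.div (R := Rel.ofPl O) l.2 (e.rh _ m.1.1 m' l') (e.h_ne hN m')
    rwa [show (kumMap f h M x).2 = x.2 * h M x.1 from rfl,
      mul_div_cancel_right₀ _ (e.h_ne hN m.1.1)] at this
  exact ⟨(x', z.2 / h _ x'), ⟨⟨m', trivial⟩,
    Rel.eq (Rel.pow h1 N) (E'.rg _ m.1.1 m' l') m.2⟩, l', h1⟩

lemma EMp.kum_srj (e : EMp N E' E f h) (hN : 0 < N) (hs : Srj E'.S E.S f) :
    Srj (E'.kum N).S (E.kum N).S (kumMap f h) := by
  intro L _ z mz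
  obtain ⟨x, m, ex⟩ := hs L z.1 mz.1.1
  have h0 := e.h_ne hN m
  refine ⟨(x, z.2 / h L x), ⟨⟨m, trivial⟩, ?_⟩, Prod.ext ex (div_mul_cancel₀ _ h0)⟩
  change (z.2 / h L x) ^ N = E'.g L x
  rw [div_pow, show z.2 ^ N = E.g L z.1 from mz.2, ← ex, e.gh L x m,
    mul_div_cancel_right₀ _ (pow_ne_zero _ h0)]

end Emp

/-- The exchange of the last two coordinates. -/
def swp (c d e : Cd) (L : Fld K) (x : ((c.prod d).prod e).X L) : ((c.prod e).prod d).X L :=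
  ((x.1.1, x.2), x.1.2)

section Iso

variable (E : EqD K c) {κ : Type} [Fintype κ] (f : ∀ L : Fld K, c.X L → κ → L)
  (hf : Reg E.S (.vec κ) f)

include hf in
lemma reg_kum (N : ℕ) : Reg (E.kum N).S (.vec κ) fun L x => f L x.1 :=
  fun _ _ R _ _ m m' l => hf R m.1.1 m'.1.1 l.1

lemma iso_lin (N : ℕ) : Iso ((E.lin f hf).kum N).S ((E.kum N).lin _ (reg_kum E f hf N)).S
    (swp c (.vec κ) .one) (swp c .one (.vec κ)) where
  mf := ⟨fun _ _ _ _ _ _ _ l => ⟨⟨l.1.1, l.2⟩, l.1.2⟩,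
    fun _ _ m => ⟨⟨⟨m.1.1.1, trivial⟩, m.2⟩, trivial⟩⟩
  mg := ⟨fun _ _ _ _ _ _ _ l => ⟨⟨l.1.1, l.2⟩, l.1.2⟩,
    fun _ _ m => ⟨⟨⟨m.1.1.1, trivial⟩, trivial⟩, m.1.2⟩⟩
  gf _ _ _ := rfl
  fg _ _ _ := rfl

lemma iso_zer (N : ℕ) : Iso ((E.zer f hf).kum N).S ((E.kum N).zer _ (reg_kum E f hf N)).S
    (fun _ x => x) (fun _ x => x) where
  mf := ⟨Reg.id _, fun _ _ m => ⟨⟨⟨m.1.1.1, trivial⟩, m.2⟩, m.1.1.2⟩⟩
  mg := ⟨Reg.id _, fun _ _ m => ⟨⟨⟨m.1.1.1, m.2⟩, trivial⟩, m.1.2⟩⟩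
  gf _ _ _ := rfl
  fg _ _ _ := rfl

variable (ψ : ∀ L : Fld K, c.X L → L) (hψ : Reg E.S .one ψ)

include hψ in
lemma reg_kum' (N : ℕ) : Reg (E.kum N).S .one fun L x => ψ L x.1 :=
  fun _ _ R _ _ m m' l => hψ R m.1.1 m'.1.1 l.1

lemma iso_dfm (N : ℕ) : Iso ((E.dfm ψ hψ).kum N).S ((E.kum N).dfm _ (reg_kum' E ψ hψ N)).S
    (swp c .one .one) (swp c .one .one) where
  mf := ⟨fun _ _ _ _ _ _ _ l => ⟨⟨l.1.1, l.2⟩, l.1.2⟩,
    fun _ _ m => ⟨⟨⟨m.1.1.1, trivial⟩, m.2⟩, m.1.1.2⟩⟩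
  mg := ⟨fun _ _ _ _ _ _ _ l => ⟨⟨l.1.1, l.2⟩, l.1.2⟩,
    fun _ _ m => ⟨⟨⟨m.1.1.1, m.2⟩, trivial⟩, m.1.2⟩⟩
  gf _ _ _ := rfl
  fg _ _ _ := rfl

end Iso

lemma van_iso [h1 : FC1 K p] {E : Ph K c} {E' : Ph K c'} {W : ASp K d}
    {f : ∀ L : Fld K, c'.X L → c.X L} {f' : ∀ L : Fld K, c.X L → c'.X L}
    (i : Iso E'.S E.S f f') (hφ : ∀ L x, E'.S.mem L x → E.φ L (f L x) = E'.φ L x) :
    Van p E' W ↔ Van p E W :=
  ⟨h1.img ⟨i.mf, hφ⟩ i.pro i.srj, h1.img (f := f') ⟨i.mg, fun L z m => by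
    rw [← hφ L _ (i.mg.mem L z m), i.fg L z m]⟩ i.symm.pro i.symm.srj⟩

lemma b_zero [h1 : FC1 K p] {E : Ph K c} {W : ASp K d} {j : ℕ} (Φ : NF p j E W) {L : Fld K}
    {x : c.X L} (y : L) (w : d.X L) (h : ¬ E.S.mem L x) : Φ.b L x y w = 0 := by
  by_contra e
  exact h (h1.mem Φ e).2.1

theorem FC7_thm [Base K] [Fact p.Prime] [CharP K p] [a3 : FA3 K] [h1 : FC1 K p] [h4 : FC4 K p]
    [h5 : FC5 K p] [h6 : FC6 K p] : FC7 K p where
  pull {N} hN c c' d E E' W f h e hp j Φ := by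
    obtain ⟨Φ', hΦ⟩ := h1.pull e.kum (e.kum_pro hN hp) Φ
    refine ⟨Φ', fun L x r y w m => ?_⟩
    by_cases hr : r ^ N = E'.g L x
    · exact hΦ L (x, r) y w ⟨⟨m, trivial⟩, hr⟩
    · rw [b_zero Φ' y w fun m' => hr m'.2, b_zero Φ y w fun m' => hr ?_]
      have : (r * h L x) ^ N = E.g L (f L x) := m'.2
      rw [mul_pow, e.gh L x m] at this
      exact mul_right_cancel₀ (pow_ne_zero _ (e.h_ne hN m)) this
  img hN _ _ _ _ _ _ _ _ e hp hs := h1.img e.kum (e.kum_pro hN hp) (e.kum_srj hN hs)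
  iso {N} hN c c' d E E' W f f' a ha i h := by
    obtain ⟨b, hb⟩ := IsAlgClosed.exists_pow_nat_eq a hN
    have e : EMp N E' E f fun L _ => algebraMap K L b :=
      ⟨⟨i.mf, fun L x m => (h L x m).1⟩, fun _ _ R _ _ _ _ _ => R.const b, fun L x m => by
        rw [(h L x m).2, ← map_pow, hb, mul_comm]⟩
    have e' : EMp N E E' f' fun L _ => algebraMap K L b⁻¹ :=
      ⟨⟨i.mg, fun L z m => by rw [← (h L _ (i.mg.mem L z m)).1, i.fg L z m]⟩,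
        fun _ _ R _ _ _ _ _ => R.const b⁻¹, fun L z m => by
        have := (h L _ (i.mg.mem L z m)).2
        rw [i.fg L z m] at this
        rw [this, ← map_pow, inv_pow, hb, map_inv₀, mul_comm (algebraMap K L a),
          mul_inv_cancel_right₀ ((map_ne_zero _).2 ha)]⟩
    exact ⟨h1.img e.kum (e.kum_pro hN i.pro) (e.kum_srj hN i.srj),
      h1.img e'.kum (e'.kum_pro hN i.symm.pro) (e'.kum_srj hN i.symm.srj)⟩
  opn {N} c d E E' W h ho := by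
    refine h1.opn ⟨⟨Reg.id _, fun L x m => ⟨⟨(h L _ m.1.1).1, trivial⟩, ?_⟩⟩,
      fun L x m => (h L _ m.1.1).2.1⟩ fun M O x x' m m' l => ?_
    · exact (show x.2 ^ N = E'.g L x.1 from m.2).trans (h L _ m.1.1).2.2.symm
    · have := ho M O x.1 x'.1 m.1.1 m'.1.1 l.1
      exact ⟨⟨this, trivial⟩, (show x.2 ^ N = E.g M x.1 from m.2).trans (h M _ this).2.2⟩
  pt {N} hN c d E W h := by
    refine h1.pt fun L x m => a3.dm_alg (h L x.1 m.1.1) fun F hF => ⟨?_, ?_⟩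
    · exact Cd.lift_mono (fun a _ ha => isAlgebraic_algebraMap (⟨a, ha⟩ : F)) hF
    · have hg : E.g L x.1 ∈ F := E.rg.all_sub F m.1.1 hF
      refine IsAlgebraic.of_pow hN ?_
      rw [show x.2 ^ N = E.g L x.1 from m.2]
      exact isAlgebraic_algebraMap (⟨_, hg⟩ : F)
  lin {N} c d E W κ _ f hf :=
    (van_iso (iso_lin E f hf N) fun _ _ _ => rfl).trans
      ((Iff.intro (h5.lin _ _) (h4.lin _ _)).trans
        (van_iso (iso_zer E f hf N) fun _ _ _ => rfl).symm)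
  s5 {N} c d E W κ _ f hf j Φ := by
    have i0 := (iso_zer E f hf N).symm
    have i1 := iso_lin E f hf N
    obtain ⟨Φ₀, h0⟩ := h1.pull (E' := (E.kum N).zer _ (reg_kum E f hf N))
      ⟨i0.mf, fun _ _ _ => rfl⟩ i0.pro Φ
    obtain ⟨Ψ₀, h2, -⟩ := h5.s5 _ _ Φ₀
    obtain ⟨Ψ, h3⟩ := h1.pull (E' := (E.lin f hf).kum N) ⟨i1.mf, fun _ _ _ => rfl⟩ i1.pro Ψ₀
    refine ⟨Ψ, fun L M α T x r y w hT m => ?_⟩
    have hg : E.g M (c.map α x) = α (E.g L x) := E.rg.nat α m.1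
    by_cases hr : r ^ N = E.g L x
    · have m0 : ((E.kum N).zer _ (reg_kum E f hf N)).S.mem L (x, r) := ⟨⟨⟨m.1, trivial⟩, hr⟩, m.2⟩
      rw [h3 M ((c.map α x, T), α r) _ _ ⟨⟨⟨(E.S.map_iff α x).2 m.1, trivial⟩, trivial⟩, ?_⟩,
        ← h0 L (x, r) y w m0]
      · exact h2 L M α T (x, r) y w hT m0
      · change α r ^ N = E.g M (c.map α x)
        rw [hg, ← map_pow, hr]
    · rw [b_zero Φ y w fun m' => hr m'.2, mul_zero]
      refine b_zero Ψ _ _ fun m' => hr (α.injective ?_)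
      have : α r ^ N = E.g M (c.map α x) := m'.2
      rw [hg, ← map_pow] at this
      exact this
  spec {N} c d E W ψ hψ hv j Φ L x r y w h :=
    h6.spec _ (reg_kum' E ψ hψ N) ((van_iso (iso_dfm E ψ hψ N) fun _ _ _ => rfl).1 hv) Φ L (x, r)
      y w h

end Pool.Agent.Lib.MP_557161_ag.HG
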