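import Pool.Agent.Lib.MP_557161_ag.HG.St4
import Pool.Agent.Lib.MP_557161_ag.HG.FC7

/-!
Descent to the hypergeometric torus.
-/

namespace Pool.Agent.Lib.MP_557161_ag.HG

open Pool.Agent.Lib.MP_557161_ag.DL

namespace A6a

variable {K : Type} [Field K] {p : ℕ} {c d : Cd}

/-- The trivial invertible function. -/
def un (E : Ph K c) : EqD K c :=
  ⟨E, fun _ _ => 1, fun _ _ R _ _ _ _ _ => R.one, fun _ _ _ => one_ne_zero⟩

theorem root {N : ℕ} (hN : 0 < N) {ζ : K} (hζ : IsPrimitiveRoot ζ N) {L : Fld K} {ξ : L}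
    (h : ξ ^ N = 1) : ∃ m, ξ = algebraMap K L ζ ^ m := by
  have : NeZero N := ⟨hN.ne'⟩
  obtain ⟨m, -, e⟩ := (hζ.map_of_injective (algebraMap K L).injective).eq_pow_of_pow_eq_one h
  exact ⟨m, e.symm⟩

theorem twist [h1 : FC1 K p] {N : ℕ} (hN : 0 < N) {ζ : K} {ω : ℂ} (hζ : IsPrimitiveRoot ζ N)
    (hω : IsPrimitiveRoot ω N) {E : Ph K c} {W : ASp K d} {j : ℕ} (Φ : NF p j E W) :
    ∃ Φ' : NF p j ((un E).kum N) W, ∀ L x m y w, E.S.mem L x →
      Φ'.b L (x, algebraMap K L ζ ^ m) y w = ω ^ m * Φ.b L x y w := by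
  have hm : ∀ (L : Fld K) x m, E.S.mem L x →
      ((un E).kum N).S.mem L (x, algebraMap K L ζ ^ m) := fun L x m hx => ⟨⟨hx, trivial⟩, by
    change (algebraMap K L ζ ^ m) ^ N = 1
    rw [← pow_mul, mul_comm, pow_mul, ← map_pow, hζ.pow_eq_one, map_one, one_pow]⟩
  have key : ∀ m : ℕ, ∃ Ψ : NF p j ((un E).kum N) W, ∀ L x ξ y w, E.S.mem L x →
      (ξ = algebraMap K L ζ ^ m → Ψ.b L (x, ξ) y w = Φ.b L x y w) ∧
      (ξ ≠ algebraMap K L ζ ^ m → Ψ.b L (x, ξ) y w = 0) := fun m => by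
    let E' : Ph K (c.prod .one) := ((un E).kum N).res (((un E).kum N).S.cl
      (fun L x => x.2 = algebraMap K L ζ ^ m)
      fun _ _ R _ _ _ _ e h => Rel.eq e.2 (Rel.pow (R.const _) _) h) fun _ _ h => h.1
    have a1 : Mp E'.S E.S fun _ x => x.1 := ⟨fun _ _ _ _ _ _ _ e => e.1, fun _ _ h => h.1.1.1⟩
    obtain ⟨Φ₁, e₁⟩ := h1.pull (E' := E') ⟨a1, fun _ _ _ => rfl⟩
      (Pro.of_left (g := fun L x => (x, algebraMap K L ζ ^ m))
        ⟨fun _ _ R _ _ _ _ e => ⟨e, Rel.pow (R.const _) _⟩, fun L x h => ⟨hm L x m h, rfl⟩⟩ a1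
        fun _ _ h => Prod.ext rfl h.2.symm) Φ
    obtain ⟨Ψ, e₂⟩ := h1.ext (E := (un E).kum N) (E' := E')
      ⟨⟨Reg.id _, fun _ _ h => h.1⟩, fun _ _ _ => rfl⟩ (fun M O x x' a b l => ⟨a, by
        obtain ⟨i, e⟩ := root hN hζ (ξ := x.2) a.2
        have e' := (Rel.eq l.2 (Rel.pow ((Rel.ofPl O).const ζ) i) e).symm.trans b.2
        rw [← map_pow, ← map_pow] at e'
        rw [e, ← map_pow, ← map_pow, (algebraMap K O.res).injective e']⟩) Φ₁
    refine ⟨Ψ, fun L x ξ y w hx => ⟨fun e => ?_, fun e => ?_⟩⟩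
    · rw [e₂, e₁ L (x, ξ) y w ⟨e ▸ hm L x m hx, e⟩]
    · rw [e₂, b_zero Φ₁ y w fun h => e h.2]
  choose Ψ hΨ using key
  obtain ⟨Φ', e⟩ := h1.sum (Finset.range N) (fun m => ω ^ m) Ψ
  refine ⟨Φ', fun L x m y w hx => ?_⟩
  have hζ' := hζ.map_of_injective (algebraMap K L).injective
  have e1 : algebraMap K L ζ ^ m = algebraMap K L ζ ^ (m % N) := by
    rw [hζ'.eq_orderOf, pow_mod_orderOf]
  have e2 : ω ^ m = ω ^ (m % N) := by rw [hω.eq_orderOf, pow_mod_orderOf]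
  rw [e, Finset.sum_eq_single_of_mem (m % N) (Finset.mem_range.2 (Nat.mod_lt _ hN)),
    (hΨ _ L x _ y w hx).1 e1, e2]
  intro i hi h
  rw [(hΨ _ L x _ y w hx).2 fun e' => h (hζ'.pow_inj (Finset.mem_range.1 hi) (Nat.mod_lt _ hN)
    (e'.symm.trans e1)), mul_zero]

theorem mem_of_pow {M : Fld K} {O : Pl M} {a : M} {n : ℕ} (hn : n ≠ 0) (h : a ^ n ∈ O.O) :
    a ∈ O.O := by
  rw [← ValuationSubring.valuation_le_one_iff] at h ⊢
  rwa [map_pow, pow_le_one_iff hn] at h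

variable (H : HD K) (κ : Type) [Fintype κ]

/-- The indices of the numerator. -/
abbrev IA : Type := Σ l : Fin 3, Fin (H.aa (some l))

/-- The exponents of the numerator. -/
def eA (a : IA H) : ℕ := H.N / H.aa (some a.1) * a.2.1

/-- The exponents of the denominator. -/
def eB (k : Fin (H.aa none)) : ℕ := ∏ l, H.aa l + H.N / H.aa none * k.1

/-- The quadratic variables. -/
def quad (K : Type) [Field K] (κ : Type) [Fintype κ] : EqD K (.vec κ) :=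
  un ⟨.univ K _, fun _ x => -∑ i, x i ^ 2,
    fun _ _ _ _ _ _ _ e => Rel.neg (Rel.sum _ fun i _ => Rel.pow (e i) 2)⟩

/-- The target. -/
noncomputable abbrev TT := tw (quad K κ) H.t κ (eA H) (eB H)

/-- The map to the target. -/
def ff (L : Fld K) (x : ((Cd.vec κ).prod (.pi κ H.ush)).X L) :
    ((Cd.vec κ).prod (.pi κ (wsh (IA H) (Fin (H.aa none))))).X L :=
  (x.1, fun i => (fun a => (x.2 i).1 ⟨some a.1, a.2⟩ ^ H.aa (some a.1),
    fun k => (x.2 i).1 ⟨none, k⟩ ^ H.aa none))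

/-- The root for one copy. -/
def h1 {L : Type} [Field L] (y : (H.Ix → L) × L) : L := y.2 * ∏ a : H.Ix, y.1 a ^ a.2.1

variable {H κ}

theorem h1_mul {L : Type} [Field L] (y y' : (H.Ix → L) × L) : h1 H (y * y') = h1 H y * h1 H y' := by
  simp only [h1, Prod.fst_mul, Prod.snd_mul, Pi.mul_apply, mul_pow, Finset.prod_mul_distrib]
  ring

theorem h1_one {L : Type} [Field L] : h1 H (1 : (H.Ix → L) × L) = 1 := by simp [h1]

theorem N_pos : 0 < H.N := mul_pos two_pos (Finset.prod_pos fun _ _ => Nat.succ_pos _)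

theorem aa_mul (l : Option (Fin 3)) : H.aa l * (H.N / H.aa l) = H.N :=
  Nat.mul_div_cancel' ((Finset.dvd_prod_of_mem _ (Finset.mem_univ l)).mul_left 2)

theorem prod_ix {M : Type} [CommMonoid M] (f : H.Ix → M) :
    ∏ a, f a = (∏ k, f ⟨none, k⟩) * ∏ a : IA H, f ⟨some a.1, a.2⟩ := by
  rw [Fintype.prod_sigma, Fintype.prod_option, Fintype.prod_sigma]

theorem sum_ix {M : Type} [AddCommMonoid M] (f : H.Ix → M) :
    ∑ a, f a = (∑ k, f ⟨none, k⟩) + ∑ a : IA H, f ⟨some a.1, a.2⟩ := by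
  rw [Fintype.sum_sigma, Fintype.sum_option, Fintype.sum_sigma]

theorem emp : EMp H.N (un (H.EU κ)) (TT H κ) (ff H κ) fun _ x => ∏ i, h1 H (x.2 i) where
  reg _ _ _ _ _ _ _ e := ⟨e.1, fun i => ⟨fun _ => Rel.pow ((e.2 i).1 _) _,
    fun _ => Rel.pow ((e.2 i).1 _) _⟩⟩
  mem L x m := ⟨⟨⟨trivial, trivial⟩, fun i => ⟨fun _ => pow_ne_zero _ ((m.2 i).1.2 _),
    fun _ => pow_ne_zero _ ((m.2 i).1.2 _)⟩⟩, fun i =>
      (Fintype.prod_sigma _).trans (m.2 i).2.2⟩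
  ph L x m := by
    refine congrArg (-∑ i, x.1 i ^ 2 + ·) (Finset.sum_congr rfl fun i _ => ?_)
    rw [sum_ix]
    simp only [sgO, Option.elim, one_mul, neg_one_mul, Finset.sum_neg_distrib, ff]
    ring
  rh _ _ R _ _ _ _ e := Rel.prod _ fun i _ =>
    R.mul (e.2 i).2 (Rel.prod _ fun a _ => Rel.pow ((e.2 i).1 a) _)
  gh L x m := by
    refine congrArg (1 * ·) ?_
    rw [← Finset.prod_pow]
    refine Finset.prod_congr rfl fun i _ => ?_
    have e : (x.2 i).2 ^ 2 = ∏ k, (x.2 i).1 ⟨none, k⟩ ^ H.aa none := (m.2 i).2.1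
    have e' : ∀ (l) (u : L) (k : ℕ), (u ^ H.aa l) ^ (H.N / H.aa l * k) = (u ^ k) ^ H.N :=
      fun l u k => by rw [← pow_mul, ← mul_assoc, aa_mul, mul_comm, pow_mul]
    have e2 : ∀ (u : L) (k : Fin (H.aa none)), u ^ eB H k =
        u ^ (∏ l, H.aa l) * u ^ (H.N / H.aa none * k.1) := fun u k => pow_add _ _ _
    simp only [ff, eA, h1, e2, e', Finset.prod_mul_distrib]
    rw [Finset.prod_pow, Finset.prod_pow, ← e, Finset.prod_pow, prod_ix, ← pow_mul, mul_pow,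
      mul_pow]
    exact (mul_comm _ _).trans (mul_assoc _ _ _)

theorem pro : Pro (H.EU κ).S (TT H κ).S (ff H κ) := by
  intro M O x z _ m mz l
  have a1 : ∀ i a, ∃ b, b ≠ 0 ∧ (Rel.ofPl O).r ((x.2 i).1 a ^ H.aa a.1) b := by
    rintro i ⟨_ | a, k⟩
    exacts [⟨_, (mz.1.2 i).2 k, (l.2 i).2 k⟩, ⟨_, (mz.1.2 i).1 ⟨a, k⟩, (l.2 i).1 ⟨a, k⟩⟩]
  have a2 : ∀ i a, (Rel.ofPl O).r ((x.2 i).1 a) (O.rd ((x.2 i).1 a)) := fun i a =>
    ⟨mem_of_pow (Nat.succ_ne_zero _) (a1 i a).choose_spec.2.1, rfl⟩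
  have a3 := fun i => Rel.prod Finset.univ fun k _ => Rel.pow (a2 i ⟨none, k⟩) (H.aa none)
  have a4 : ∀ i, (Rel.ofPl O).r (x.2 i).2 (O.rd (x.2 i).2) := fun i =>
    ⟨mem_of_pow two_ne_zero ((m.2 i).2.1 ▸ (a3 i).1), rfl⟩
  refine ⟨(z.1, fun i => (fun a => O.rd ((x.2 i).1 a), O.rd (x.2 i).2)),
    ⟨trivial, fun i => ⟨⟨trivial, fun a h => ?_⟩, Rel.eq (Rel.pow (a4 i) 2) (a3 i) (m.2 i).2.1,
      Rel.eq (Rel.prod _ fun _ _ => Rel.prod _ fun _ _ => Rel.pow (a2 i _) _)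
        ((Rel.ofPl O).mul ((Rel.ofPl O).const _) (a3 i)) (m.2 i).2.2⟩⟩, l.1,
    fun i => ⟨a2 i, a4 i⟩⟩
  obtain ⟨b, b0, hb⟩ := a1 i a
  exact b0 ((Rel.eq hb (Rel.pow (a2 i a) _) rfl).trans
    (by rw [show O.rd ((x.2 i).1 a) = 0 from h, zero_pow (Nat.succ_ne_zero _)]))

theorem srj : Srj (H.EU κ).S (TT H κ).S (ff H κ) := by
  intro L _ z mz
  choose u hu using fun i (a : IA H) =>
    IsAlgClosed.exists_pow_nat_eq ((z.2 i).1 a) (Nat.succ_pos (2 * H.b (some a.1)))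
  choose u' hu' using fun i k =>
    IsAlgClosed.exists_pow_nat_eq ((z.2 i).2 k) (Nat.succ_pos (2 * H.b none))
  choose r hr using fun i => IsAlgClosed.exists_pow_nat_eq (∏ k, (z.2 i).2 k) two_pos
  refine ⟨(z.1, fun i => (fun a => match a with
    | ⟨none, k⟩ => u' i k
    | ⟨some a, k⟩ => u i ⟨a, k⟩, r i)), ⟨trivial, fun i => ⟨⟨trivial, ?_⟩, ?_, ?_⟩⟩,
    Prod.ext rfl (funext fun i => Prod.ext (funext (hu i)) (funext (hu' i)))⟩
  · rintro ⟨_ | a, k⟩ h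
    · exact (mz.1.2 i).2 k ((hu' i k).symm.trans (pow_eq_zero_iff (Nat.succ_ne_zero _) |>.2 h))
    · exact (mz.1.2 i).1 ⟨a, k⟩
        ((hu i ⟨a, k⟩).symm.trans (pow_eq_zero_iff (Nat.succ_ne_zero _) |>.2 h))
  · exact (hr i).trans (Finset.prod_congr rfl fun k _ => (hu' i k).symm)
  · refine Eq.trans ?_ ((mz.2 i).trans (congrArg _
      (Finset.prod_congr rfl fun k _ => (hu' i k).symm)))
    rw [Fintype.prod_sigma]
    exact Finset.prod_congr rfl fun a _ => Finset.prod_congr rfl fun k _ => hu i ⟨a, k⟩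

theorem mem_mul {L : Fld K} {g : κ → (H.Ix → L) × L}
    (hg : ∀ i, (∀ a, (g i).1 a ^ H.aa a.1 = 1) ∧ (g i).2 ^ 2 = 1) {x}
    (m : (H.EU κ).S.mem L x) : (H.EU κ).S.mem L (x.1, g * x.2) := by
  have e : ∀ i a, ((g * x.2) i).1 a ^ H.aa a.1 = (x.2 i).1 a ^ H.aa a.1 := fun i a => by
    rw [Pi.mul_apply, Prod.fst_mul, Pi.mul_apply, mul_pow, (hg i).1, one_mul]
  refine ⟨trivial, fun i => ⟨⟨trivial, fun a h => (m.2 i).1.2 a
    (pow_eq_zero_iff (Nat.succ_ne_zero _) |>.1 ((e i a).symm.trans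
      (pow_eq_zero_iff (Nat.succ_ne_zero _) |>.2 h)))⟩, ?_, ?_⟩⟩
  · refine Eq.trans ?_ ((m.2 i).2.1.trans (Finset.prod_congr rfl fun k _ => (e i ⟨none, k⟩).symm))
    change ((g i).2 * (x.2 i).2) ^ 2 = _
    rw [mul_pow, (hg i).2, one_mul]
  · exact (Finset.prod_congr rfl fun a _ => Finset.prod_congr rfl fun k _ => e i ⟨some a, k⟩).trans
      ((m.2 i).2.2.trans (congrArg _ (Finset.prod_congr rfl fun k _ => (e i ⟨none, k⟩).symm)))

open Classical in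
theorem orbit [DecidableEq κ] {ζ : K} {ω : ℂ} (hζ : IsPrimitiveRoot ζ H.N)
    (hω : IsPrimitiveRoot ω H.N) {W : ASp K d} {j : ℕ} (Φ : NF p j (H.EU κ) W)
    (h2 : ∀ i, Φ.Eqv (cact i ngl) (-1))
    (h3 : ∀ i (a : H.Ix), Φ.Eqv (cact i (umul fun a' => if a' = a then ζ ^ (H.N / H.aa a.1) else 1))
      (ω ^ (H.N / H.aa a.1 * a.2.1))) {L : Fld K} {g : κ → (H.Ix → L) × L}
    (hg : ∀ i, (∀ a, (g i).1 a ^ H.aa a.1 = 1) ∧ (g i).2 ^ 2 = 1) :
    ∃ m, ∏ i, h1 H (g i) = algebraMap K L ζ ^ m ∧ ∀ x y w, (H.EU κ).S.mem L x →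
      Φ.b L (x.1, g * x.2) y w = ω ^ m * Φ.b L x y w := by
  let T : Submonoid (κ → (H.Ix → L) × L) :=
    { carrier := {g | (∀ i, (∀ a, (g i).1 a ^ H.aa a.1 = 1) ∧ (g i).2 ^ 2 = 1) ∧
        ∃ m, ∏ i, h1 H (g i) = algebraMap K L ζ ^ m ∧ ∀ x y w, (H.EU κ).S.mem L x →
          Φ.b L (x.1, g * x.2) y w = ω ^ m * Φ.b L x y w}
      one_mem' := ⟨fun i => ⟨fun a => one_pow _, one_pow _⟩, 0, by simp [h1_one],
        fun x y w _ => by rw [one_mul, pow_zero, one_mul]⟩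
      mul_mem' := by
        rintro g g' ⟨a, m, b, e⟩ ⟨a', m', b', e'⟩
        refine ⟨fun i => ⟨fun k => ?_, ?_⟩, m + m', ?_, fun x y w hx => ?_⟩
        · rw [Pi.mul_apply, Prod.fst_mul, Pi.mul_apply, mul_pow, (a i).1, (a' i).1, one_mul]
        · rw [Pi.mul_apply, Prod.snd_mul, mul_pow, (a i).2, (a' i).2, one_mul]
        · simp only [Pi.mul_apply, h1_mul, Finset.prod_mul_distrib, b, b', pow_add]
        · rw [mul_assoc, e (x.1, g' * x.2) y w (mem_mul a' hx), e' x y w hx, pow_add, mul_assoc] }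
  have gen : ∀ i (u : (H.Ix → L) × L) m, (∀ a, u.1 a ^ H.aa a.1 = 1) → u.2 ^ 2 = 1 →
      h1 H u = algebraMap K L ζ ^ m → ∀ γ : ∀ L : Fld K, H.ush.X L → H.ush.X L,
      (∀ y, γ L y = u * y) → Φ.Eqv (cact i γ) (ω ^ m) → Pi.mulSingle i u ∈ T := by
    intro i u m a b e γ e' h
    refine ⟨fun k => ?_, m, ?_, fun x y w hx => Eq.trans ?_ (h L x y w hx)⟩
    · by_cases hk : k = i
      · subst hk
        rw [Pi.mulSingle_eq_same]
        exact ⟨a, b⟩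
      · rw [Pi.mulSingle_eq_of_ne hk]
        exact ⟨fun _ => one_pow _, one_pow _⟩
    · rw [Finset.prod_eq_single_of_mem i (Finset.mem_univ _) fun k _ hk => by
        rw [Pi.mulSingle_eq_of_ne hk, h1_one], Pi.mulSingle_eq_same, e]
    · refine congrArg (fun z => Φ.b L (x.1, z) y w) (funext fun k => ?_)
      by_cases hk : k = i
      · subst hk
        rw [Pi.mul_apply, Pi.mulSingle_eq_same, Function.update_self, e']
      · rw [Pi.mul_apply, Pi.mulSingle_eq_of_ne hk, Function.update_of_ne hk, one_mul]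
  refine And.right (?_ : g ∈ T)
  rw [← Finset.univ_prod_mulSingle g]
  refine prod_mem fun i _ => ?_
  change g i ∈ T.comap (MonoidHom.mulSingle (fun _ : κ => (H.Ix → L) × L) i)
  rw [← Prod.fst_mul_snd (g i)]
  refine mul_mem ?_ ?_
  · change (g i).1 ∈ (T.comap (MonoidHom.mulSingle (fun _ : κ => (H.Ix → L) × L) i)).comap
      (MonoidHom.inl _ L)
    rw [← Finset.univ_prod_mulSingle (g i).1]
    refine prod_mem fun a _ => ?_
    change (g i).1 a ∈ ((T.comap (MonoidHom.mulSingle (fun _ : κ => (H.Ix → L) × L) i)).comap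
      (MonoidHom.inl _ L)).comap (MonoidHom.mulSingle (fun _ : H.Ix => L) a)
    have hη := hζ.pow N_pos ((mul_comm _ _).trans (aa_mul a.1)).symm
    obtain ⟨m, e⟩ := root (Nat.succ_pos _) hη ((hg i).1 a)
    rw [e]
    refine pow_mem ?_ m
    refine gen i (Pi.mulSingle a _, 1) _ (fun k => ?_) (one_pow _) ?_ _
      (fun y => Prod.ext (funext fun k => ?_) (one_mul _).symm) (h3 i a)
    · dsimp only
      by_cases hk : k = a
      · subst hk
        rw [Pi.mulSingle_eq_same, ← map_pow, hη.pow_eq_one, map_one]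
      · rw [Pi.mulSingle_eq_of_ne hk, one_pow]
    · dsimp only [h1]
      rw [one_mul, Finset.prod_eq_single_of_mem a (Finset.mem_univ _) fun k _ hk => by
        rw [Pi.mulSingle_eq_of_ne hk, one_pow], Pi.mulSingle_eq_same, map_pow, pow_mul]
    · simp only [umul, Prod.fst_mul, Pi.mul_apply, Pi.mulSingle_apply]
      split_ifs
      exacts [rfl, by rw [map_one]]
  · rcases sq_eq_one_iff.1 (hg i).2 with e | e
    · rw [e]
      exact one_mem _
    · rw [e]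
      have e1 := (hζ.pow N_pos (mul_comm _ _)).eq_neg_one_of_two_right
      have e2 := (hω.pow N_pos (mul_comm _ _)).eq_neg_one_of_two_right
      exact gen i (1, -1) (∏ l, H.aa l) (fun _ => one_pow _) neg_one_sq
        (by rw [← map_pow, e1]; simp [h1]) ngl
        (fun y => Prod.ext (one_mul _).symm (neg_one_mul _).symm) (e2 ▸ h2 i)

theorem tv [TV K p] (hκ : Nat.card κ = H.aa none) (W : ASp K d) :
    EVan p H.N (tor (quad K κ) fun x : IA H × Fin (H.aa none) => eA H x.1 + eB H x.2) W := by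
  have a1 : ∀ (n : ℕ) (k : Fin (n + 1)), n + 1 ∣ k.1 + (-k).1 := fun n k =>
    Nat.dvd_of_mod_eq_zero (by rw [← Fin.val_add, add_neg_cancel, Fin.val_zero])
  have a2 : ∀ (l) (k : Fin (H.aa l)), H.N ∣ H.N / H.aa l * k.1 + H.N / H.aa l * (-k).1 :=
    fun l k => by
      rw [← mul_add]
      nth_rw 1 [← aa_mul (H := H) l, mul_comm]
      exact mul_dvd_mul_left _ (a1 _ k)
  have a3 : ∀ (n : ℕ) (k : Fin (2 * n + 1)), -k = k → k = 0 := fun n k h => by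
    obtain ⟨c, e⟩ := a1 _ k
    have := k.2
    rw [h] at e
    rcases c with _ | _ | c
    · exact Fin.ext (by rw [Fin.val_zero]; omega)
    · omega
    · nlinarith
  have a4 : ∀ x : IA H × Fin (H.aa none), (⟨x.1.1, -x.1.2⟩, -x.2) = x →
      x = (⟨x.1.1, 0⟩, 0) := by
    rintro ⟨⟨l, k⟩, k'⟩ h
    obtain ⟨h, h'⟩ := Prod.ext_iff.1 h
    rw [a3 _ k (eq_of_heq (Sigma.mk.inj_iff.1 h).2), a3 _ k' h']
  have hp : 0 < ∏ l, H.aa l := Finset.prod_pos fun _ _ => Nat.succ_pos _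
  refine TV.van H.two hp rfl W _ (fun x => (⟨x.1.1, -x.1.2⟩, -x.2)) (fun x => by simp)
    (fun x => ?_) (fun x h => ?_) ?_ _ (fun _ _ => trivial) (fun _ _ => rfl)
    ⟨1, fun _ _ => (map_one _).symm⟩
  · have := dvd_add (dvd_add (a2 _ x.1.2) (a2 _ x.2)) (dvd_refl H.N)
    refine Eq.subst ?_ this
    simp only [eA, eB, HD.N]
    ring
  · rw [a4 x h]
    simp only [eA, eB, Fin.val_zero, mul_zero, zero_add, add_zero]
    exact Nat.mod_eq_of_lt (by omega)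
  · rw [hκ, ← Nat.card_eq_of_bijective (α := Fin 3) (fun l => ⟨(⟨l, 0⟩, 0), by simp⟩)
      ⟨fun l l' h => congrArg (·.1.1.1) h, fun x => ⟨x.1.1.1, Subtype.ext (a4 x.1 x.2).symm⟩⟩,
      Nat.card_fin]
    exact ⟨H.b none + 2, by simp only [HD.aa]; ring⟩

end A6a

open A6a in
theorem A6_thm {K : Type} [Field K] [Base K] {p : ℕ} [Fact p.Prime] [CharP K p] [FW0 K]
    [FWp K p] [MT K p] [TV K p] : A6 K p where
  van H κ _ _ hκ ζ ω hζ hω d W j Φ h1 h2 h3 L x y w := by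
    obtain ⟨Φ', e⟩ := twist N_pos hζ hω Φ
    have hs := (emp (H := H) (κ := κ)).kum_srj N_pos srj
    obtain ⟨Ψ, e'⟩ := FC1.desc emp.kum (emp.kum_pro N_pos pro) hs Φ' (by
      rintro L ⟨x, ξ⟩ ⟨x', ξ'⟩ y w m m' h
      have a0 : x.1 = x'.1 := congrArg (·.1.1) h
      have a1 : ∀ i a, (x.2 i).1 a ^ H.aa a.1 = (x'.2 i).1 a ^ H.aa a.1 := by
        rintro i ⟨_ | a, k⟩
        exacts [congrArg (fun z => (z.1.2 i).2 k) h, congrArg (fun z => (z.1.2 i).1 ⟨a, k⟩) h]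
      have a2 : ∀ i, (x.2 i).2 ^ 2 = (x'.2 i).2 ^ 2 := fun i => (m.1.1.2 i).2.1.trans
        ((Finset.prod_congr rfl fun k _ => a1 i ⟨none, k⟩).trans (m'.1.1.2 i).2.1.symm)
      have a3 : ∀ i a, (x.2 i).1 a ≠ 0 := fun i => (m.1.1.2 i).1.2
      have a4 : ∀ i, (x.2 i).2 ≠ 0 := fun i h0 => Finset.prod_ne_zero_iff.2
        (fun k _ => pow_ne_zero _ (a3 i ⟨none, k⟩))
        ((m.1.1.2 i).2.1.symm.trans (by rw [h0, zero_pow two_ne_zero]))
      obtain ⟨k, b1, b2⟩ := orbit hζ hω Φ h2 h3 (g := x'.2 / x.2) fun i =>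
        ⟨fun a => by
          rw [Pi.div_apply, Prod.fst_div, Pi.div_apply, div_pow, ← a1,
            div_self (pow_ne_zero _ (a3 i a))], by
          rw [Pi.div_apply, Prod.snd_div, div_pow, ← a2, div_self (pow_ne_zero _ (a4 i))]⟩
      have a5 : x'.2 = x'.2 / x.2 * x.2 := funext fun i =>
        Prod.ext (funext fun a => (div_mul_cancel₀ _ (a3 i a)).symm) (div_mul_cancel₀ _ (a4 i)).symm
      obtain ⟨n, rfl⟩ := root N_pos hζ (ξ := ξ') m'.2
      obtain rfl : ξ = algebraMap K L ζ ^ (n + k) := by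
        refine mul_right_cancel₀ (emp.h_ne N_pos m.1.1) ((congrArg Prod.snd h).trans ?_)
        change _ * ∏ i, A6a.h1 H (x'.2 i) = _
        rw [a5, pow_add, ← b1, mul_assoc, ← Finset.prod_mul_distrib]
        simp only [Pi.mul_apply, h1_mul]
      rw [e L x _ y w m.1.1, e L x' _ y w m'.1.1, pow_add, mul_assoc, ← b2 x y w m.1.1, ← a5, a0])
    have hn : (H.aa none : K) ≠ 0 := H.ch none
    have hP : ∏ l, (H.aa (some l) : K) ^ H.aa (some l) ≠ 0 :=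
      Finset.prod_ne_zero_iff.2 fun l _ => pow_ne_zero _ (H.ch _)
    have h0 := MT.van N_pos (quad K κ) W H.t
      (div_ne_zero (pow_ne_zero _ (div_ne_zero (neg_ne_zero.2 hn) H.l0)) hP)
      (fun h => H.disc (by
        rw [HD.t, div_eq_one_iff_eq hP, div_pow, div_eq_iff (pow_ne_zero _ H.l0)] at h
        exact (mul_comm _ _).trans h.symm)) κ (eA H) (eB H) (hκ ▸ Nat.succ_pos _)
      (by rw [hκ, HD.aa, H.hb]; simp [Fin.sum_univ_three]; ring) (by rw [hκ, Nat.card_fin]) (tv hκ W) Ψ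
      fun σ => FC1.srj (E₁ := (TT H κ).kum H.N) (S := ((TT H κ).kum H.N).S)
        (γ₁ := fun _ x => ((x.1.1, fun i => x.1.2 (σ i)), x.2))
        (γ₂ := fun _ x => x) emp.kum.toMp hs
        (fun _ _ _ _ _ _ _ l => ⟨⟨l.1.1, fun i => l.1.2 (σ i)⟩, l.2⟩) (Reg.id _) Ψ Ψ 1 (by
          rintro L ⟨x, ξ⟩ y w m
          obtain ⟨n, rfl⟩ := root N_pos hζ (ξ := ξ) m.2
          have m' : (H.EU κ).S.mem L (cperm σ L x) := ⟨trivial, fun i => m.1.1.2 (σ i)⟩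
          have a := e' L (cperm σ L x, _) y w ⟨⟨m', trivial⟩, m.2⟩
          rw [e L _ _ y w m', h1 σ L x y w m.1.1, one_mul, ← e L x _ y w m.1.1, ← e' L _ y w m] at a
          rw [one_mul, ← a]
          exact congrArg (fun z => Ψ.b L (_, _ * z) y w)
            (Equiv.prod_comp σ fun i => A6a.h1 H (x.2 i)).symm)
    by_cases hx : (H.EU κ).S.mem L x
    · rw [← one_mul (Φ.b L x y w), ← pow_zero ω, ← e L x 0 y w hx,
        ← e' L (x, _) y w ⟨⟨hx, trivial⟩, by simp [un]⟩, h0]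
    · exact b_zero Φ y w hx

end Pool.Agent.Lib.MP_557161_ag.HG
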