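import Pool.Agent.Lib.MP_557161_ag.HG.Itf

/-!
The branch curve is smooth.
-/

namespace Pool.Agent.Lib.MP_557161_ag.HG

open MvPolynomial

variable {K : Type} [Field K] {L : Type} [CommRing L] [Algebra K L]

theorem aeval_brF (u : ℕ) (w : Fin 3 → ℕ) (lam : K) (x : Fin 3 → L) :
    aeval x (brF u w lam) = ∑ i, x i ^ u * x (i + 1) + algebraMap K L lam * ∏ i, x i ^ w i := by
  simp [brF]

theorem aeval_pd (u : ℕ) (w : Fin 3 → ℕ) (lam : K) (x : Fin 3 → L) (i : Fin 3) :
    aeval x (pderiv i (brF u w lam)) = u * x i ^ (u - 1) * x (i + 1) + x (i - 1) ^ u +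
      algebraMap K L lam * (w i * x i ^ (w i - 1) *
        (x (i + 1) ^ w (i + 1) * x (i - 1) ^ w (i - 1))) := by
  have e : (-1 : Fin 3) = 2 := rfl
  fin_cases i <;>
    simp [brF, Fin.sum_univ_three, Fin.prod_univ_three, Derivation.leibniz_pow, pderiv_X, e] <;>
    ring

theorem map_brF {R S : Type} [CommRing R] [CommRing S] (f : R →+* S) (u : ℕ) (w : Fin 3 → ℕ)
    (lam : R) : map f (brF u w lam) = brF u w (f lam) := by
  simp [brF]

namespace GD

variable (G : GD K)

include G in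
theorem two_ne : (2 : K) ≠ 0 := fun h => G.ch (by push_cast; rw [h]; ring)

theorem e_ne : (G.e : K) ≠ 0 := fun h => G.ch (by push_cast; rw [h]; ring)

theorem n_ne : (G.n : K) ≠ 0 := fun h => G.ch (by push_cast; rw [h]; ring)

theorem a_ne (i : Fin 3) : (G.a i : K) ≠ 0 := fun h => G.ch (by
  push_cast
  rw [Finset.prod_eq_zero (Finset.mem_univ i) h, mul_zero])

theorem a_pos (i : Fin 3) : 0 < G.a i := Nat.pos_of_ne_zero fun h => G.a_ne i (by simp [h])

theorem n_pos : 0 < G.n := Nat.pos_of_ne_zero fun h => G.n_ne (by simp [h])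

theorem two_le_w (i : Fin 3) : 2 ≤ G.w i := by
  obtain ⟨r, hr⟩ := G.ev i
  have h1 := G.hw i
  have h2 := G.a_pos (i - 1)
  rcases Nat.eq_zero_or_pos r with h | h
  · rw [hr, h] at h1
    omega
  · omega

theorem three_le_e : 3 ≤ G.e := by
  have h := G.sw
  rw [Fin.sum_univ_three] at h
  have := G.two_le_w 0
  have := G.two_le_w 1
  have := G.two_le_w 2
  omega

theorem five_le_u : 5 ≤ G.u := by
  have := G.three_le_e
  have := G.hu
  omega

theorem sum_a : ∑ i, G.a i = G.n := by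
  have h := G.sw
  have h0 := G.hw 0
  have h1 := G.hw 1
  have h2 := G.hw 2
  rw [Fin.sum_univ_three] at h ⊢
  refine Nat.eq_of_mul_eq_mul_left (Nat.succ_pos G.u) ?_
  have : G.n * (G.w 0 + G.w 1 + G.w 2) = (G.u + 1) * G.n := by rw [h, G.hu, mul_comm]
  rw [Nat.succ_eq_add_one, ← this, mul_add G.n, mul_add G.n, h0, h1, h2]
  show _ = _ + G.a 2 + (_ + G.a 0) + (_ + G.a 1)
  ring

theorem hom : (brF G.u G.w G.lam).IsHomogeneous (2 * G.e) := by
  refine IsHomogeneous.add (IsHomogeneous.sum _ _ _ fun i _ => ?_) ?_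
  · have := ((isHomogeneous_X K i).pow G.u).mul (isHomogeneous_X K (i + 1))
    rwa [one_mul, G.hu] at this
  · have := (isHomogeneous_C (Fin 3) G.lam).mul (IsHomogeneous.prod Finset.univ
      (fun i => (X i : MvPolynomial (Fin 3) K) ^ G.w i) (fun i => 1 * G.w i)
      fun i _ => (isHomogeneous_X K i).pow _)
    simp only [one_mul, G.sw, zero_add] at this
    exact this

/-- The branch curve is smooth. -/
theorem smooth {L : Type} [Field L] [Algebra K L] {x : Fin 3 → L} (hx : x ≠ 0) :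
    ∃ i, aeval x (pderiv i (brF G.u G.w G.lam)) ≠ 0 := by
  by_contra! h
  simp only [aeval_pd] at h
  have hu := G.five_le_u
  have hw := G.two_le_w
  have cast : ∀ m : ℕ, (m : K) ≠ 0 → (m : L) ≠ 0 := fun m hm => by
    rw [← map_natCast (algebraMap K L)]
    exact (map_ne_zero _).2 hm
  have z : ∀ i, x i = 0 → x (i - 1) = 0 := fun i hi => by
    have h1 := h i
    have := hw i
    rw [hi, zero_pow (by omega), zero_pow (by omega)] at h1
    simp only [mul_zero, zero_mul, zero_add, add_zero] at h1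
    exact pow_eq_zero_iff (by omega) |>.1 h1
  have nz : ∀ i, x i ≠ 0 := fun i hi => hx (funext fun j => by
    have h1 := z i hi
    have h2 := z _ h1
    fin_cases i <;> fin_cases j <;> assumption)
  set l := algebraMap K L G.lam
  set m := l * ∏ i, x i ^ G.w i with hm
  have m0 : m ≠ 0 := mul_ne_zero ((map_ne_zero _).2 G.l0)
    (Finset.prod_ne_zero_iff.2 fun i _ => pow_ne_zero _ (nz i))
  let y : Fin 3 → L := fun i => G.n * (x i ^ G.u * x (i + 1)) + G.a i * m
  have h1 : ∀ i, G.u * y i + y (i - 1) = 0 := fun i => by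
    have e1 : (G.n : L) * G.w i = G.u * G.a i + G.a (i - 1) := by exact_mod_cast congrArg _ (G.hw i)
    have e2 : x i ^ G.u = x i ^ (G.u - 1) * x i := by rw [← pow_succ]; congr 1; omega
    have e3 : m = l * (x i ^ (G.w i - 1) * x i *
        (x (i + 1) ^ G.w (i + 1) * x (i - 1) ^ G.w (i - 1))) := by
      have := hw i
      rw [← pow_succ, show G.w i - 1 + 1 = G.w i by omega, hm, Fin.prod_univ_three]
      have e : (-1 : Fin 3) = 2 := rfl
      fin_cases i <;> simp [e] <;> exact Or.inl (by ring)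
    simp only [y, sub_add_cancel]
    linear_combination (G.n * x i) * h i + (G.n * G.u * x (i + 1)) * e2 + (G.n * G.w i) * e3 -
      m * e1
  have h2 : ∀ i, y i = 0 := fun i => by
    have e1 : ((G.u : L) + 1) = 2 * G.e := by exact_mod_cast congrArg _ G.hu
    have e2 : (G.n : L) + G.u = G.u * G.u + 1 := by exact_mod_cast congrArg _ G.hn
    have e3 : i - 1 - 1 - 1 = i := by fin_cases i <;> rfl
    have e4 := h1 (i - 1 - 1)
    rw [e3] at e4
    refine mul_left_cancel₀ (mul_ne_zero (mul_ne_zero (cast 2 (by exact_mod_cast G.two_ne)) (cast _ G.e_ne))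
      (cast _ G.n_ne)) ?_
    push_cast
    linear_combination (G.u * G.u) * h1 i - G.u * h1 (i - 1) + e4 - (G.n * y i) * e1 +
      ((G.u + 1) * y i) * e2
  have h3 : ∏ i, ((G.n : L) * (x i ^ G.u * x (i + 1))) ^ G.a i = ∏ i, (-m * G.a i) ^ G.a i :=
    Finset.prod_congr rfl fun i _ => congrArg (· ^ _) (by linear_combination h2 i)
  have h4 : ∏ i, (x i ^ G.u * x (i + 1)) ^ G.a i = (∏ i, x i ^ G.w i) ^ G.n := by
    simp only [Fin.prod_univ_three, mul_pow, ← pow_mul, mul_comm (G.w _) G.n, G.hw, pow_add]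
    show _ * x 1 ^ G.a 0 * (_ * x 2 ^ G.a 1) * (_ * x 0 ^ G.a 2) =
      _ * x 0 ^ G.a 2 * (_ * x 1 ^ G.a 0) * (_ * x 2 ^ G.a 1)
    ring
  simp only [mul_pow (G.n : L), mul_pow (-m), Finset.prod_mul_distrib, Finset.prod_pow_eq_pow_sum,
    G.sum_a, h4] at h3
  apply G.disc
  apply (algebraMap K L).injective
  simp only [map_mul, map_pow, map_prod, map_natCast, map_neg]
  refine mul_left_cancel₀ (pow_ne_zero G.n (neg_ne_zero.2 m0)) ?_
  rw [mul_left_comm, ← h3, ← mul_pow, ← mul_pow, ← mul_pow, hm]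
  congr 1
  ring

end GD

end Pool.Agent.Lib.MP_557161_ag.HG
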