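import Pool.Agent.Lib.MP_557161_ag.HG.StZ
import Pool.Agent.Lib.MP_557161_ag.HG.Geo0

/-!
Either a polynomial in the graph of Frobenius that does not vanish at `q` is rationally equivalent
to a sum of products, or the poles at `q` and `-q` have total order at least four.
-/

namespace Pool.Agent.Lib.MP_557161_ag.HG

open Pool.Agent.Lib.MP_557161_ag.DL

namespace Fn2

open Polynomial

/-- The shift of sequences. -/
noncomputable def sh : Module.End ℂ (ℕ → ℂ) := LinearMap.funLeft ℂ ℂ Nat.succ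

lemma sh_pow (j : ℕ) (c : ℕ → ℂ) (t : ℕ) : (sh ^ j) c t = c (j + t) := by
  induction j generalizing t with
  | zero => simp
  | succ j ih =>
    rw [pow_succ', Module.End.mul_apply]
    exact (ih (t + 1)).trans (congrArg c (by omega))

lemma aeval_sh (f : ℂ[X]) (c : ℕ → ℂ) (t : ℕ) :
    aeval sh f c t = f.sum fun j a => a * c (j + t) := by
  rw [aeval_endomorphism, Polynomial.sum, Polynomial.sum, Finset.sum_apply]
  exact Finset.sum_congr rfl fun j _ => by rw [Pi.smul_apply, sh_pow, smul_eq_mul]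

/-- The sequence has a linear recurrence with non zero constant term. -/
def Rc (a : ℕ → ℂ) : Prop := ∃ g : ℂ[X], g.coeff 0 ≠ 0 ∧ aeval sh g a = 0

lemma Rc.add {a b : ℕ → ℂ} (h : Rc a) (h' : Rc b) : Rc (a + b) := by
  obtain ⟨f, f0, hf⟩ := h
  obtain ⟨g, g0, hg⟩ := h'
  refine ⟨f * g, by rw [mul_coeff_zero]; exact mul_ne_zero f0 g0, ?_⟩
  rw [map_add]
  nth_rw 1 [mul_comm f g]
  rw [map_mul, map_mul, Module.End.mul_apply, Module.End.mul_apply, hf, hg, map_zero, map_zero,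
    add_zero]

lemma Rc.geo {z : ℂ} (hz : z ≠ 0) : Rc fun m => z ^ (m + 1) :=
  ⟨X - C z, by simpa using hz, funext fun t => by
    rw [map_sub, aeval_X, aeval_C, LinearMap.sub_apply, Pi.sub_apply, Module.algebraMap_end_apply]
    show z ^ (t + 1 + 1) - z * z ^ (t + 1) = 0
    ring⟩

lemma Rc.scale {a : ℕ → ℂ} {q : ℂ} (hq : q ≠ 0) (h : Rc fun m => a m / q ^ (m + 1)) : Rc a := by
  obtain ⟨g, g0, hg⟩ := h
  refine ⟨g.comp (C q⁻¹ * X), by rwa [comp_C_mul_X_coeff, pow_zero, mul_one], funext fun t => ?_⟩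
  have h1 := congrFun hg t
  rw [aeval_sh, sum_over_range _ (by simp)] at h1
  rw [aeval_sh, sum_over_range' _ (by simp) (g.natDegree + 1) (Nat.lt_succ_of_le
    (natDegree_comp_le.trans (by
      simpa using Nat.mul_le_mul_left _ (natDegree_C_mul_le q⁻¹ X |>.trans natDegree_X_le)))),
    Pi.zero_apply, ← mul_zero (q ^ (t + 1)), ← h1.trans (Pi.zero_apply t), Finset.mul_sum]
  refine Finset.sum_congr rfl fun j _ => ?_
  rw [comp_C_mul_X_coeff, add_assoc, pow_add q j, inv_pow]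
  field_simp

lemma Rc.rat {a : ℕ → ℚ} (h : Rc fun m => (a m : ℂ)) :
    ∃ g : ℚ[X], g.coeff 0 ≠ 0 ∧ ∀ m, (g.sum fun j c => c * a (j + m)) = 0 := by
  obtain ⟨g, g0, hg⟩ := h
  obtain ⟨r, hr⟩ : ∃ r : Module.Dual ℚ ℂ, r (g.coeff 0) ≠ 0 := by
    by_contra h
    exact g0 ((Module.forall_dual_apply_eq_zero_iff ℚ _).1 fun r => by_contra fun e => h ⟨r, e⟩)
  let f : ℚ[X] := ∑ j ∈ Finset.range (g.natDegree + 1), monomial j (r (g.coeff j))
  have hf : ∀ j ∈ Finset.range (g.natDegree + 1), f.coeff j = r (g.coeff j) := fun j hj => by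
    simp only [f, finsetSum_coeff, coeff_monomial, Finset.sum_ite_eq', if_pos hj]
  refine ⟨f, by rwa [hf 0 (by simp)], fun m => ?_⟩
  have h1 := congrArg r (congrFun hg m)
  rw [aeval_sh, sum_over_range _ (by simp), map_sum, Pi.zero_apply, map_zero] at h1
  rw [sum_over_range' _ (by simp) (g.natDegree + 1) (Nat.lt_succ_of_le
    (natDegree_sum_le_of_forall_le _ _ fun j hj => (natDegree_monomial_le _).trans
      (Nat.lt_succ_iff.1 (Finset.mem_range.1 hj)))), ← h1]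
  refine Finset.sum_congr rfl fun j hj => ?_
  rw [hf j hj, mul_comm (g.coeff j), ← Rat.smul_def, map_smul, smul_eq_mul, mul_comm]

lemma cnt [ZB] {σ : ℂ[X] →ₗ[ℂ] ℂ} {r₀ : ℕ} (h : ∀ a, phi σ r₀ (chD a) = 0)
    (h0 : σ (chC 0) = 2 * r₀ + 1) {q : ℕ} (hq : 1 < q) {ν : ℂ →₀ ℤ} (ν0 : ν 0 = 0)
    (hν : ∀ m : ℕ, 1 + (q : ℂ) ^ (m + 1) + ((q : ℂ) ^ 2) ^ (m + 1) +
      σ (chC (m + 1 : ℕ)) * (q : ℂ) ^ (m + 1) = ν.sum fun z c => c * z ^ (m + 1)) :
    4 ≤ ν q + ν (-q) := by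
  have q0 : (q : ℂ) ≠ 0 := Nat.cast_ne_zero.2 (by omega)
  have q1 : (1 : ℝ) < q := by exact_mod_cast hq
  have ne : ∀ {a b : ℝ}, a < b → (a : ℂ) ≠ b ∧ (b : ℂ) ≠ a := fun h =>
    ⟨by exact_mod_cast h.ne, by exact_mod_cast h.ne'⟩
  let μ : ℂ →₀ ℤ := ν - Finsupp.single 1 1 - Finsupp.single (q : ℂ) 1 -
    Finsupp.single ((q : ℂ) ^ 2) 1
  have h1 := ZB.cnt σ r₀ h h0 (Finsupp.equivMapDomain (Equiv.mulRight₀ _ q0).symm μ)
    (by simp [μ, ν0, q0.symm, (pow_ne_zero 2 q0).symm]) fun m hm => by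
      obtain ⟨m, rfl⟩ := Nat.exists_eq_succ_of_ne_zero hm.ne'
      have h2 : ∀ x : ℂ →₀ ℤ, (x.sum fun z c => (c : ℂ) * z ^ (m + 1)) =
          Finsupp.linearCombination ℤ (fun z : ℂ => z ^ (m + 1)) x := fun x => by
        rw [Finsupp.linearCombination_apply]
        exact Finset.sum_congr rfl fun z _ => (zsmul_eq_mul _ _).symm
      have h3 : (μ.sum fun z c => (c : ℂ) * z ^ (m + 1)) =
          σ (chC (m + 1 : ℕ)) * (q : ℂ) ^ (m + 1) := by
        have h4 := hν m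
        rw [h2] at h4 ⊢
        simp only [μ, map_sub, Finsupp.linearCombination_single, one_smul, one_pow, ← h4]
        ring
      rw [Finsupp.sum_equivMapDomain, ← mul_left_inj' (pow_ne_zero (m + 1) q0), ← h3,
        Finsupp.sum_mul]
      refine Finset.sum_congr rfl fun z _ => ?_
      simp only [Equiv.mulRight₀_symm_apply, Nat.succ_eq_add_one, mul_pow, inv_pow]
      field_simp
  have e1 := ne q1
  have e2 := ne (show (q : ℝ) < q ^ 2 by nlinarith)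
  have e3 := ne (show -(q : ℝ) < 1 by linarith)
  have e4 := ne (show -(q : ℝ) < q by linarith)
  have e5 := ne (show -(q : ℝ) < q ^ 2 by nlinarith)
  push_cast at e1 e2 e3 e4 e5
  simp only [Finsupp.equivMapDomain_apply, Equiv.symm_symm, Equiv.mulRight₀_apply, one_mul,
    neg_mul, μ, Finsupp.sub_apply, Finsupp.single_eq_same, Finsupp.single_eq_of_ne e1.2,
    Finsupp.single_eq_of_ne e2.1, Finsupp.single_eq_of_ne e3.1, Finsupp.single_eq_of_ne e4.1,
    Finsupp.single_eq_of_ne e5.1] at h1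
  omega

lemma cpow_pi {q : ℕ} (hq : 1 < q) :
    (q : ℂ) ^ (1 + Real.pi * Complex.I / Real.log q : ℂ) = -q := by
  have q0 : (q : ℂ) ≠ 0 := Nat.cast_ne_zero.2 (by omega)
  have h1 : ((Real.log q : ℝ) : ℂ) ≠ 0 :=
    Complex.ofReal_ne_zero.2 (Real.log_pos (by exact_mod_cast hq)).ne'
  rw [Complex.cpow_add _ _ q0, Complex.cpow_one, Complex.cpow_def_of_ne_zero q0,
    ← Complex.natCast_log, mul_div_cancel₀ _ h1, Complex.exp_pi_mul_I, mul_neg_one]

end Fn2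

open MvPolynomial

variable {k : Type} [Field k]

/-- The double plane over the algebraic closure. -/
noncomputable def GD.up (G : GD k) : GD (AlgebraicClosure k) where
  e := G.e
  u := G.u
  n := G.n
  a := G.a
  w := G.w
  lam := algebraMap k _ G.lam
  hu := G.hu
  hn := G.hn
  hw := G.hw
  ev := G.ev
  sw := G.sw
  cop := G.cop
  ch := by
    rw [← map_natCast (algebraMap k (AlgebraicClosure k))]
    exact (map_ne_zero _).2 G.ch
  l0 := (map_ne_zero _).2 G.l0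
  disc h := G.disc ((algebraMap k (AlgebraicClosure k)).injective (by simpa using h))

lemma GD.up_F (G : GD k) : MvPolynomial.map (algebraMap k (AlgebraicClosure k)) G.F = G.up.F :=
  map_brF _ _ _ _

lemma GD.nsq0 [XA (AlgebraicClosure k)] (G : GD k) (g : MvPolynomial (Fin 3) k) : g ^ 2 ≠ G.F :=
  fun h => XA.nsq G.up (.base _) (MvPolynomial.map (algebraMap k (AlgebraicClosure k)) g) (by
    rw [← map_pow, h, G.up_F]
    exact (MvPolynomial.map_id _).symm)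

lemma GD.hI [XJ] (G : GD k) : Homog (dpI G.e G.F) := XJ.hom (by have := G.three_le_e; omega) G.hom

lemma GD.hs [XK] (G : GD k) (s : G.σ) : Algebra.Smooth k (Chart (dpI G.e G.F) s) :=
  XK.smooth (by have := G.three_le_e; omega) G.two_ne G.hom (fun _ hx _ => G.smooth hx) s

lemma GD.hd [XJ] [XA (AlgebraicClosure k)] (G : GD k) :
    ∀ P ∈ (dpI G.e G.F).minimalPrimes,
      ringKrullDim (MvPolynomial G.σ k ⧸ P) = (2 + 1 : ℕ) := fun P hP => by
  obtain ⟨h1, h2⟩ := XJ.dim (e := G.e) (by have := G.three_le_e; omega) G.nsq0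
  rw [Ideal.minimalPrimes_eq_subsingleton_self] at hP
  rw [Set.mem_singleton_iff.1 hP]
  exact h2

lemma GD.upI_eq [XJ] (G : GD k) : upI (dpI G.e G.F) = dpI G.up.e G.up.F := by
  rw [XJ.up, G.up_F]; rfl

variable [Finite k] {p : ℕ} [CharP k p] [XT] [XZ] [XJ] [XK] [ZA] [ZB] [ZD] [ZT]
  [XA (AlgebraicClosure k)] [XI (AlgebraicClosure k) p] [XV (AlgebraicClosure k) p]
  [ZR (AlgebraicClosure k) p] [XQ (AlgebraicClosure k) p]

include p in
theorem decomp (G : GD k) (L : ℕ → Type) [∀ m, Field (L m)] [∀ m, Algebra k (L m)]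
    (hL : ∀ m, Module.finrank k (L m) = m + 1) : ∃ ν : ℂ →₀ ℤ,
    (∀ m, (points (dpI G.e G.F) (L m) : ℂ) = ν.sum fun z c => c * z ^ (m + 1)) ∧
    (ν (Nat.card k) + ν (-Nat.card k) ≤ 3 →
      ∃ f : Polynomial ℚ, f.eval ((Nat.card k : ℚ) ^ 1) ≠ 0 ∧
      ∀ t, (f.sum fun j a => a • (T0.sm (AlgebraicClosure k) G.hI G.hs G.hd).grC
        (Nat.card k ^ (j + t))) ∈
        RatB (upI (dpI G.e G.F)) ⊔ ⨆ δ, ProdB (upI (dpI G.e G.F)) δ) := by
  have hq : 1 < Nat.card k := Finite.one_lt_card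
  have q0 : (Nat.card k : ℂ) ≠ 0 := Nat.cast_ne_zero.2 (by omega)
  have hF : G.up.Fr p (Nat.card k) := by
    have := Fintype.ofFinite k
    obtain ⟨f, -, hf⟩ := FiniteField.card k p
    refine ⟨⟨f, by rw [Nat.card_eq_fintype_card, hf]⟩, ?_⟩
    show algebraMap k _ G.lam ^ _ = algebraMap k _ G.lam
    rw [← map_pow, Nat.card_eq_fintype_card, FiniteField.pow_card]
  have hY : (T0.sm (AlgebraicClosure k) G.hI G.hs G.hd).I = dpI G.up.e G.up.F := G.upI_eq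
  obtain ⟨r₀, hr₀⟩ := (XA.three G.up).2.1
  obtain ⟨r, sd, E, h1, h2, h3⟩ := ZA.frob r₀
  by_cases hA : ∃ e, dsum E (lamP (Nat.card k) (G.up.PP (Nat.card k))) (Nat.card k) e ≠ 0
  · obtain ⟨e, he⟩ := hA
    obtain ⟨f, k1, k2, k3⟩ := ZR.rel (p := p) (G := G.up) hq hF hr₀.symm sd E h1 h2 e he
    obtain ⟨f, h4, h5⟩ := XZ.one (RatB (upI (dpI G.e G.F)) ⊔ ⨆ δ, ProdB (upI (dpI G.e G.F)) δ)
      (fun j => (T0.sm (AlgebraicClosure k) G.hI G.hs G.hd).grC (Nat.card k ^ j))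
      {(Nat.card k : ℂ), 0} fun β hβ => by
        refine ⟨f, hβ.elim (fun e => e ▸ k1) fun e => e ▸ k2, fun b hb t => ?_⟩
        obtain ⟨φ, l1, l2, l3⟩ := XQ.brg (p := p) G.up _ hY _ hF b hb
        have h4 := k3 φ l1 l2 _ l3 t
        rw [Polynomial.sum_def] at h4 ⊢
        simp only [← mul_div_assoc, ← Finset.sum_div] at h4
        exact (div_eq_zero_iff.1 h4).resolve_right two_ne_zero
    have h6 : ∀ x : ℚ, f.eval x = 0 → Polynomial.aeval (x : ℂ) f = 0 := fun x h => by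
      have h7 := Polynomial.aeval_algebraMap_apply ℂ x f
      rwa [Polynomial.coe_aeval_eq_eval, h, map_zero] at h7
    obtain ⟨g, g0, hg⟩ := ZT.rc G.hI G.hs G.hd f (fun h => h4 0 (Or.inr rfl) (by
      simpa using h6 0 (by rwa [← Polynomial.coeff_zero_eq_eval_zero]))) h5 L hL
    obtain ⟨ν, -, hν⟩ := ZD.rat G.hI L hL g g0 hg
    exact ⟨ν, hν, fun _ => ⟨f, fun h => h4 _ (Or.inl rfl) (by simpa using h6 _ h), h5⟩⟩
  · obtain ⟨σ, hσ⟩ := ZB.ex fun m => G.up.PP (Nat.card k) m / (Nat.card k : ℂ) ^ m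
    have h4 : ∀ a, phi σ r₀ (chD a) = 0 := fun a => by
      obtain ⟨e, he⟩ := h3 a
      have h5 := (he _ _ σ q0 hσ).symm.trans (by_contra fun h => hA ⟨e, h⟩)
      exact (mul_eq_zero.1 h5).resolve_left (mul_ne_zero (mul_ne_zero (by simp)
        (Nat.cast_ne_zero.2 r₀.factorial_ne_zero)) (pow_ne_zero _ q0))
    have hN : ∀ m, (points (dpI G.e G.F) (L m) : ℂ) = 1 ^ (m + 1) + (Nat.card k : ℂ) ^ (m + 1) +
        ((Nat.card k : ℂ) ^ 2) ^ (m + 1) + G.up.PP (Nat.card k) (m + 1) := fun m => by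
      have h5 := congrArg (Nat.cast : ℕ → ℂ)
        (XI.cnt (p := p) G.up _ (Nat.one_lt_pow (Nat.add_one_ne_zero m) hq) (XV.pow hF (m + 1)))
      rw [(XT.fixed G.hI G.hs G.hd (L m) m (hL m)).trans
        (XI.fix (p := p) G.up _ hY _ (XV.pow hF _)), GD.PP, if_neg m.succ_ne_zero,
        pow_right_comm, one_pow]
      push_cast at h5
      linear_combination h5 / 2
    obtain ⟨g, g0, hg⟩ := ZB.rc σ r₀ h4
    have h5 : Fn2.Rc fun m => G.up.PP (Nat.card k) (m + 1) :=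
      Fn2.Rc.scale q0 ⟨g, g0, funext fun t => by
        rw [Fn2.aeval_sh, Pi.zero_apply, ← hg (t + 1 : ℕ)]
        exact Finset.sum_congr rfl fun j _ => by
          simp only [← Nat.cast_add, hσ, add_assoc]⟩
    obtain ⟨g', g1, hg'⟩ := Fn2.Rc.rat (a := fun m => (points (dpI G.e G.F) (L m) : ℚ)) (by
      simp only [Rat.cast_natCast, hN]
      exact (((Fn2.Rc.geo one_ne_zero).add (.geo q0)).add (.geo (pow_ne_zero 2 q0))).add h5)
    obtain ⟨ν, ν0, hν⟩ := ZD.rat G.hI L hL g' g1 hg'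
    refine ⟨ν, hν, fun h => absurd (Fn2.cnt h4 ?_ hq ν0 fun m => ?_) (by omega)⟩
    · rw [show chC 0 = chC (0 : ℕ) from rfl, hσ, GD.PP, if_pos rfl, hr₀]
      simp
    · rw [← hν, hN, hσ, div_mul_cancel₀ _ (pow_ne_zero _ q0), one_pow]

include p in
theorem zeta_dec (G : GD k) (L : ℕ → Type) [∀ m, Field (L m)] [∀ m, Algebra k (L m)]
    (hL : ∀ m, Module.finrank k (L m) = m + 1) : ∃ ζ : ℂ → ℂ, IsZeta (dpI G.e G.F) 2 L ζ ∧
    (((-3 : ℤ) : WithTop ℤ) ≤ meromorphicOrderAt ζ 1 +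
      meromorphicOrderAt ζ (1 + Real.pi * Complex.I / Real.log (Nat.card k)) →
    (∀ F : ∀ P : Var (dpI G.e G.F) 1, Res (dpI G.e G.F) P.1, ∃ ρ : ℕ,
      Module.rank ℤ (Num (dpI G.e G.F) 1 1 F) = ρ ∧ meromorphicOrderAt ζ 1 = (-(ρ : ℤ) : ℤ)) ∧
    ([ZY] → TateAt (Nat.card k) 1 (upI (dpI G.e G.F)))) := by
  obtain ⟨ν, h1, h2⟩ := decomp (p := p) G L hL
  obtain ⟨ζ, h3, h4⟩ := ZT.zeta G.hI G.hd L hL ν h1
  refine ⟨ζ, h3, fun h => ?_⟩
  rw [h4, h4, Fn2.cpow_pi Finite.one_lt_card, Complex.cpow_one, ← WithTop.coe_add,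
    WithTop.coe_le_coe] at h
  obtain ⟨f, h5, h6⟩ := h2 (by omega)
  refine ⟨fun F => ?_, ZY.tate G.hI G.hs G.hd ?_ ?_ f 1 h5 (h6 0)⟩
  · obtain ⟨ρ, h7, h8⟩ := ZT.tate G.hI G.hs G.hd f 1 1 rfl h5 h6 L hL ν h1 F
    exact ⟨ρ, h7, by rw [h4, Complex.cpow_one, ← h8, pow_one]⟩
  · rw [G.upI_eq]
    exact (XJ.dim (e := G.up.e) (by have := G.up.three_le_e; omega) fun g h =>
      XA.nsq G.up (.base _) g (h.trans (MvPolynomial.map_id _).symm)).1
  · rw [G.upI_eq]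
    refine ⟨some fun _ => 0, fun h => ?_⟩
    have h7 := XI.zl (p := p) G.up (.base _) (![1, 0, 0], 0) (by
      rw [XA.bd G.up (.base _) _ 1 rfl]
      simp [show G.up.u ≠ 0 by have := G.up.hu; omega]) _ h
    have h8 : G.up.nu (L := AlgebraicClosure k) (![1, 0, 0], 0) (some fun _ => 0) = 0 :=
      (aeval_X _ _).symm.trans h7
    simp [GD.nu] at h8

end Pool.Agent.Lib.MP_557161_ag.HG
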