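import Pool.Agent.Lib.MP_557161_ag.HG.St1

/-!
Purely transcendental extensions.
-/

namespace Pool.Agent.Lib.MP_557161_ag.HG

open Pool.Agent.Lib.MP_557161_ag.DL Pool.Agent.Lib.MP_557161_ag.DL.ValA IntermediateField

variable {K : Type} [Field K]

namespace Fa1

variable {L L' M M' N : Fld K} {κ κ' : Type} {j : ℕ}

lemma left_mem (α : L →ₐ[K] M) (T : κ → M) (a : L) : α a ∈ gen α T :=
  subset_adjoin K _ (Or.inl ⟨a, rfl⟩)

lemma right_mem (α : L →ₐ[K] M) (T : κ → M) (i : κ) : T i ∈ gen α T :=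
  subset_adjoin K _ (Or.inr ⟨i, rfl⟩)

lemma gen_le {α : L →ₐ[K] M} {T : κ → M} {F : IntermediateField K M} (h : ∀ a, α a ∈ F)
    (h' : ∀ i, T i ∈ F) : gen α T ≤ F := by
  refine adjoin_le_iff.2 ?_
  rintro _ (⟨a, rfl⟩ | ⟨i, rfl⟩)
  exacts [h a, h' i]

lemma mem_gen (α : L →ₐ[K] M) (T : κ → M) (x : M) :
    letI := alg α
    x ∈ gen α T ↔ x ∈ adjoin L (Set.range T) := by
  letI := alg α
  haveI := tower α
  constructor
  · intro h
    exact gen_le (F := (adjoin L (Set.range T)).restrictScalars K)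
      (fun a => (adjoin L (Set.range T)).algebraMap_mem a)
      (fun i => subset_adjoin L _ ⟨i, rfl⟩) h
  · intro h
    induction h using adjoin_induction with
    | mem x hx => obtain ⟨i, rfl⟩ := hx; exact right_mem α T i
    | algebraMap a => exact left_mem α T a
    | add x y _ _ hx hy => exact add_mem hx hy
    | inv x _ hx => exact inv_mem hx
    | mul x y _ _ hx hy => exact mul_mem hx hy

lemma mem_gen' (α : L →ₐ[K] M) (T : κ → M) (x : M) :
    x ∈ gen α T ↔ ∃ P Q : MvPolynomial κ L,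
      x = MvPolynomial.eval₂ α.toRingHom T P / MvPolynomial.eval₂ α.toRingHom T Q := by
  letI := alg α
  rw [mem_gen]
  exact mem_adjoin_range_iff L T x

lemma top_iff (α : L →ₐ[K] M) (T : κ → M) :
    letI := alg α
    gen α T = ⊤ ↔ adjoin L (Set.range T) = ⊤ := by
  letI := alg α
  rw [eq_top_iff, eq_top_iff]
  exact ⟨fun h x _ => (mem_gen α T x).1 (h mem_top), fun h x _ => (mem_gen α T x).2 (h mem_top)⟩

lemma isAlg {α : L →ₐ[K] M} {T : κ → M} (h : gen α T = ⊤) :
    letI := alg α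
    Algebra.IsAlgebraic (Algebra.adjoin L (Set.range T)) M := by
  letI := alg α
  open scoped IntermediateField.algebraAdjoinAdjoin in
  haveI : Algebra.IsAlgebraic (adjoin L (Set.range T)) M := by
    rw [(top_iff α T).1 h]; infer_instance
  exact (IntermediateField.isAlgebraic_adjoin_iff_top).1 ‹_›

lemma tr_top [Finite κ] {α : L →ₐ[K] M} {T : κ → M} (h : gen α T = ⊤) :
    M.tr ≤ L.tr + Nat.card κ := by
  letI := alg α
  haveI := isAlg h
  rw [← tr_add α, Nat.cast_card]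
  exact add_le_add_right
    ((Algebra.IsAlgebraic.trdeg_le_cardinalMk L (Set.range T)).trans Cardinal.mk_range_le) _

lemma ess [Finite κ] {α : L →ₐ[K] M} {T : κ → M} (h : gen α T = ⊤)
    (hL : Algebra.EssFiniteType K L) : Algebra.EssFiniteType K M := by
  letI := alg α
  haveI := tower α
  haveI : Algebra.EssFiniteType L M := fg_top_iff.1 (by
    rw [← (top_iff α T).1 h]; exact fg_adjoin_of_finite (Set.finite_range T))
  exact Algebra.EssFiniteType.comp K L M

lemma ind [Finite κ] {α : L →ₐ[K] M} {T : κ → M} (h : Free j α T) :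
    letI := alg α
    AlgebraicIndependent L T := by
  letI := alg α
  haveI := isAlg h.top
  have h1 := tr_add α
  rw [h.gL.2, h.gM.2, Nat.cast_add, Nat.cast_card] at h1
  have h2 := Cardinal.eq_of_add_eq_add_left h1 Cardinal.natCast_lt_aleph0
  exact (Algebra.IsAlgebraic.isTranscendenceBasis_of_le_trdeg_of_finite L T h2.ge).1

lemma ne [Finite κ] {α : L →ₐ[K] M} {T : κ → M} (h : Free j α T) (P : MvPolynomial κ L)
    (hP : P ≠ 0) : MvPolynomial.eval₂ α.toRingHom T P ≠ 0 := by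
  letI := alg α
  exact fun e => hP (algebraicIndependent_iff.1 (ind h) P e)

lemma of_ne [Finite κ] {α : L →ₐ[K] M} {T : κ → M} (hL : Good j L)
    (h : ∀ P : MvPolynomial κ L, MvPolynomial.eval₂ α.toRingHom T P = 0 → P = 0)
    (ht : gen α T = ⊤) : Free j α T := by
  letI := alg α
  haveI := isAlg ht
  have h1 : AlgebraicIndependent L T := algebraicIndependent_iff.2 h
  have h2 : IsTranscendenceBasis L T := h1.isTranscendenceBasis_iff_isAlgebraic.2 ‹_›
  refine ⟨hL, ⟨ess ht hL.1, ?_⟩, ht⟩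
  rw [← tr_add α, hL.2, ← h2.cardinalMk_eq_trdeg, Nat.cast_add, Nat.cast_card]

lemma map_ev (β : M →ₐ[K] N) (α : L →ₐ[K] M) (T : κ → M) (P : MvPolynomial κ L) :
    β (MvPolynomial.eval₂ α.toRingHom T P) =
      MvPolynomial.eval₂ (β.comp α).toRingHom (fun i => β (T i)) P :=
  MvPolynomial.eval₂_comp_left β.toRingHom α.toRingHom T P

/-- The subfield generated by the image of `α` and the family `T` as an extension of `L`. -/
lemma exists_sub (α : L →ₐ[K] M) (T : κ → M) :
    ∃ (α₁ : L →ₐ[K] M.sub (gen α T)) (β : M.sub (gen α T) →ₐ[K] M) (T₁ : κ → M.sub (gen α T)),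
      β.comp α₁ = α ∧ (∀ i, β (T₁ i) = T i) ∧ gen α₁ T₁ = ⊤ := by
  let α₁ : L →ₐ[K] M.sub (gen α T) := α.codRestrict (gen α T).toSubalgebra (left_mem α T)
  let β : M.sub (gen α T) →ₐ[K] M := (gen α T).val
  let T₁ : κ → M.sub (gen α T) := fun i => ⟨T i, right_mem α T i⟩
  refine ⟨α₁, β, T₁, AlgHom.ext fun _ => rfl, fun _ => rfl, eq_top_iff.2 fun x _ => ?_⟩
  obtain ⟨P, Q, e⟩ := (mem_gen' α T x.1).1 x.2
  refine (mem_gen' α₁ T₁ x).2 ⟨P, Q, β.injective ?_⟩
  show β x = β _
  rw [map_div₀, map_ev, map_ev]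
  exact e

lemma isFrac [Finite κ] {α : L →ₐ[K] M} {T : κ → M} (h : Free j α T) :
    letI := (MvPolynomial.eval₂Hom α.toRingHom T).toAlgebra
    IsFractionRing (MvPolynomial κ L) M := by
  letI := (MvPolynomial.eval₂Hom α.toRingHom T).toAlgebra
  haveI : FaithfulSMul (MvPolynomial κ L) M := (faithfulSMul_iff_algebraMap_injective _ _).2
    ((injective_iff_map_eq_zero _).2 fun P e => by_contra fun hP => ne h P hP e)
  refine IsFractionRing.of_field _ _ fun z => ?_
  exact (mem_gen' α T z).1 (by rw [h.top]; exact mem_top)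

lemma ev_map (ι : L →ₐ[K] L') (α' : L' →ₐ[K] M') (T' : κ → M') (P : MvPolynomial κ L) :
    MvPolynomial.eval₂ α'.toRingHom T' (MvPolynomial.map ι.toRingHom P) =
      MvPolynomial.eval₂ (α'.comp ι).toRingHom T' P :=
  MvPolynomial.eval₂_map ι.toRingHom T' α'.toRingHom P

lemma deg_eq {j' : ℕ} [Finite κ] {α : L →ₐ[K] M} {α' : L' →ₐ[K] M'} {T : κ → M} {ι : L →ₐ[K] L'}
    {ρ : M →ₐ[K] M'} (h : Free j α T) (h' : Free j' α' fun i => ρ (T i))
    (hc : ρ.comp α = α'.comp ι) : deg ρ = deg ι := by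
  letI := alg ι
  letI := alg ρ
  letI := (MvPolynomial.eval₂Hom α.toRingHom T).toAlgebra
  letI := (MvPolynomial.eval₂Hom α'.toRingHom fun i => ρ (T i)).toAlgebra
  letI := (MvPolynomial.eval₂Hom (ρ.comp α).toRingHom fun i => ρ (T i)).toAlgebra
  letI : Algebra (MvPolynomial κ L) (MvPolynomial κ L') := MvPolynomial.algebraMvPolynomial
  haveI := isFrac h
  haveI := isFrac h'
  haveI : IsScalarTower (MvPolynomial κ L) M M' :=
    IsScalarTower.of_algebraMap_eq fun P => (map_ev ρ α T P).symm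
  haveI : IsScalarTower (MvPolynomial κ L) (MvPolynomial κ L') M' :=
    IsScalarTower.of_algebraMap_eq fun P => by
      show MvPolynomial.eval₂ (ρ.comp α).toRingHom (fun i => ρ (T i)) P =
        MvPolynomial.eval₂ α'.toRingHom (fun i => ρ (T i)) (MvPolynomial.map ι.toRingHom P)
      rw [ev_map, hc]
  show Module.finrank M M' = Module.finrank L L'
  rw [IsFractionRing.finrank_eq (MvPolynomial κ L) M (MvPolynomial κ L') M']
  have h1 := rank_mvPolynomial_mvPolynomial L L' κ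
  rw [Cardinal.lift_id] at h1
  exact congrArg Cardinal.toNat h1

lemma lift {j' : ℕ} [Finite κ] {α : L →ₐ[K] M} {α' : L' →ₐ[K] M'} {T : κ → M} {T' : κ → M'}
    (h : Free j α T) (h' : Free j' α' T') (ι : L →ₐ[K] L') :
    ∃ ρ : M →ₐ[K] M', ρ.comp α = α'.comp ι ∧ (∀ i, ρ (T i) = T' i) ∧ deg ρ = deg ι := by
  letI := (MvPolynomial.eval₂Hom α.toRingHom T).toAlgebra
  haveI := isFrac h
  have hinj : Function.Injective (MvPolynomial.eval₂Hom (α'.comp ι).toRingHom T') :=
    (injective_iff_map_eq_zero _).2 fun P e => by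
      refine MvPolynomial.map_injective ι.toRingHom ι.injective ?_
      rw [map_zero]
      exact by_contra fun hP => ne h' _ hP ((ev_map ι α' T' P).trans e)
  let ρ₀ : M →+* M' := IsFractionRing.lift (A := MvPolynomial κ L) hinj
  have h1 : ∀ P : MvPolynomial κ L, ρ₀ (MvPolynomial.eval₂ α.toRingHom T P) =
      MvPolynomial.eval₂ (α'.comp ι).toRingHom T' P := fun P =>
    IsFractionRing.lift_algebraMap hinj P
  have h2 : ∀ x : L, ρ₀ (α x) = α' (ι x) := fun x => by simpa using h1 (MvPolynomial.C x)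
  have h3 : ∀ i, ρ₀ (T i) = T' i := fun i => by simpa using h1 (MvPolynomial.X i)
  let ρ : M →ₐ[K] M' := ⟨ρ₀, fun c => by
    show ρ₀ (algebraMap K M c) = _
    rw [← α.commutes, h2, ι.commutes, α'.commutes]⟩
  have hc : ρ.comp α = α'.comp ι := AlgHom.ext h2
  have h4 : T' = fun i => ρ (T i) := funext fun i => (h3 i).symm
  exact ⟨ρ, hc, h3, deg_eq h (h4 ▸ h') hc⟩

lemma fr_free (κ : Type) [Finite κ] (hL : Good j L) : Free j (frα L κ) (frT L κ) := by
  have e : ∀ P : MvPolynomial κ L, MvPolynomial.eval₂ (frα L κ).toRingHom (frT L κ) P =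
      algebraMap (MvPolynomial κ L) (FractionRing (MvPolynomial κ L)) P := fun P => by
    have h1 := MvPolynomial.eval₂_comp_left
      (algebraMap (MvPolynomial κ L) (FractionRing (MvPolynomial κ L))) MvPolynomial.C
      MvPolynomial.X P
    rw [MvPolynomial.eval₂_eta] at h1
    exact h1.symm
  refine of_ne hL (fun P hP => ?_) (eq_top_iff.2 fun x _ => ?_)
  · rw [e] at hP
    exact (IsFractionRing.to_map_eq_zero_iff).1 hP
  · obtain ⟨P, Q, -, h⟩ := IsFractionRing.div_surjective (MvPolynomial κ L) x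
    exact (mem_gen' _ _ x).2 ⟨P, Q, by rw [e, e, h]⟩

lemma comp {α : L →ₐ[K] M} {β : M →ₐ[K] N} [Finite κ] [Finite κ'] {T : κ → M} {U : κ' → N}
    (h : Free j α T) (h' : Free (j + Nat.card κ) β U) :
    Free j (β.comp α) (Sum.elim (fun i => β (T i)) U) := by
  refine ⟨h.gL, by rw [Nat.card_sum, ← add_assoc]; exact h'.gM, ?_⟩
  rw [eq_top_iff, ← h'.top]
  refine gen_le (fun y => ?_) fun i => right_mem _ _ (Sum.inr i)
  have h1 : gen α T ≤ (gen (β.comp α) (Sum.elim (fun i => β (T i)) U)).comap β :=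
    gen_le (fun a => left_mem (β.comp α) _ a) fun i => right_mem (β.comp α) _ (Sum.inl i)
  rw [h.top] at h1
  exact h1 mem_top

lemma split {α : L →ₐ[K] M} [Finite κ] {T : κ → M} (h : Free j α T) (q : κ → Prop) :
    ∃ (M₁ : Fld K) (α₁ : L →ₐ[K] M₁) (β : M₁ →ₐ[K] M) (T₁ : {i // q i} → M₁), β.comp α₁ = α ∧
      (∀ i, β (T₁ i) = T i) ∧ Free j α₁ T₁ ∧
      Free (j + Nat.card {i // q i}) β fun i : {i // ¬ q i} => T i := by
  classical
  obtain ⟨α₁, β, T₁, hc, hT, ht⟩ := exists_sub α fun i : {i // q i} => T i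
  have h1 : Free j α₁ T₁ := by
    refine of_ne h.gL (fun P hP => ?_) ht
    refine MvPolynomial.rename_injective Subtype.val Subtype.val_injective ?_
    rw [map_zero]
    refine by_contra fun h0 => ne h _ h0 ?_
    have h2 := map_ev β α₁ T₁ P
    rw [hP, map_zero, hc, funext hT] at h2
    rw [MvPolynomial.eval₂_rename]
    exact h2.symm
  refine ⟨_, α₁, β, T₁, hc, hT, h1, h1.gM, ?_, ?_⟩
  · rw [add_assoc, ← Nat.card_sum, Nat.card_congr (Equiv.sumCompl q)]
    exact h.gM
  · rw [eq_top_iff, ← h.top]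
    refine gen_le (fun a => ?_) fun i => ?_
    · rw [← show β (α₁ a) = α a from AlgHom.congr_fun hc a]; exact left_mem β _ _
    · by_cases hi : q i
      · rw [← hT ⟨i, hi⟩]; exact left_mem β _ _
      · exact right_mem β (fun i : {i // ¬ q i} => T i) ⟨i, hi⟩

lemma trans {α : L →ₐ[K] M} [Finite κ] {T : κ → M} (h : Free j α T) (i : κ) :
    Trans' α (T i) :=
  (trans_iff α (T i)).2 (by
    letI := alg α
    exact (ind h).transcendental i)

lemma one {α : L →ₐ[K] M} [Unique κ] {T : κ → M} :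
    Free j α T ↔ Good j L ∧ Trans' α (T default) ∧ Gen α (T default) := by
  have h1 : gen α T = ⊤ ↔ Gen α (T default) := by
    rw [top_iff, gen_iff, Set.range_unique]
  exact ⟨fun h => ⟨h.gL, trans h _, h1.1 h.top⟩, fun h =>
    ⟨h.1, by rw [Nat.card_unique]; exact h.1.succ h.2.1 h.2.2, h1.2 h.2.2⟩⟩

lemma zero {α : L →ₐ[K] M} [IsEmpty κ] {T : κ → M} :
    Free j α T ↔ Good j L ∧ Function.Surjective α := by
  constructor
  · refine fun h => ⟨h.gL, fun x => ?_⟩
    have h1 : gen α T ≤ α.fieldRange := gen_le (fun a => ⟨a, rfl⟩) fun i => isEmptyElim i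
    rw [h.top] at h1
    exact h1 mem_top
  · rintro ⟨h, hs⟩
    refine ⟨h, by rw [Nat.card_of_isEmpty]; exact h.of_fin (Fin'.of_surj hs),
      eq_top_iff.2 fun x _ => ?_⟩
    obtain ⟨a, rfl⟩ := hs x
    exact left_mem α T a

lemma tr_mono (F F' : IntermediateField K M) (h : ∀ x ∈ F', IsAlgebraic F x) :
    (M.sub F').tr ≤ (M.sub F).tr := by
  let E := algebraicClosure F M
  have h1 := trdeg_add_eq K F (A := E)
  rw [trdeg_eq_zero (R := F), add_zero] at h1
  let φ : F' →ₐ[K] E := F'.val.codRestrict (E.restrictScalars K).toSubalgebra fun x =>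
    mem_algebraicClosure_iff.2 (h x.1 x.2)
  exact (trdeg_le_of_injective φ φ.injective).trans h1.ge

end Fa1

theorem FA1_thm [Base K] : FA1 K where
  fr_free := Fa1.fr_free
  lift h h' ι := by
    obtain ⟨ρ, h1, h2, h3⟩ := Fa1.lift h h' ι
    exact ⟨ρ, h1, h2, fun _ => h3⟩
  of_gen h e hT := ⟨h.gL, by rw [e]; exact h.gM, by
    rw [eq_top_iff, ← h.top]; exact Fa1.gen_le (Fa1.left_mem _ _) hT⟩
  comp := Fa1.comp
  split := Fa1.split
  one := Fa1.one
  zero := Fa1.zero
  ne := Fa1.ne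
  trans := Fa1.trans
  tr_gen α _ _ T := by
    obtain ⟨α₁, -, T₁, -, -, ht⟩ := Fa1.exists_sub α T
    exact Fa1.tr_top ht
  tr_mono := Fa1.tr_mono
  sub α _ _ T hL e := by
    obtain ⟨α₁, β, T₁, hc, hT, ht⟩ := Fa1.exists_sub α T
    exact ⟨_, α₁, β, T₁, hc, hT, hL, ⟨Fa1.ess ht hL.1, e⟩, ht⟩

end Pool.Agent.Lib.MP_557161_ag.HG
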