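import Pool.Agent.Lib.MP_557161_ag.HG.StY
import Pool.Agent.Lib.MP_557161_ag.TU.GrC

/-!
The ideal of the double plane: its points, the fixed points and the graph of Frobenius.
-/

namespace Pool.Agent.Lib.MP_557161_ag.HG

open Pool.Agent.Lib.MP_557161_ag.DL MvPolynomial

namespace XIa

variable {K : Type} [Field K] (G : GD K)

/-- The coordinates of a point. -/
def co {L : Type} (y : xz.X L) : Option (Fin 3) → L := fun s => s.elim y.2 y.1

section Ring

variable {L : Type} [CommRing L] [Algebra K L]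

lemma aeval_nuP (y : xz.X L) (s : G.σ) : aeval (co y) (nuP K G.e s) = G.nu y s := by
  rcases s with _ | m <;> simp [co, nuP, GD.nu]

lemma aeval_nu (y : xz.X L) (f : MvPolynomial G.σ K) :
    aeval (co y) (aeval (R := K) (nuP K G.e) f) = aeval (G.nu y) f := by
  rw [← AlgHom.comp_apply, comp_aeval]
  exact congrArg (fun v => aeval v f) (funext (aeval_nuP G y))

lemma aeval_H (y : xz.X L) (F : MvPolynomial (Fin 3) K) :
    aeval (co y) (X none ^ 2 - rename some F) = y.2 ^ 2 - aeval y.1 F := by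
  rw [map_sub, map_pow, aeval_X, aeval_rename]
  rfl

omit [Algebra K L] in
lemma nu_scl (a : L) (y : xz.X L) : G.nu (G.scl a y) = a ^ G.e • G.nu y := by
  funext s
  rcases s with _ | m
  · rfl
  · simp [GD.nu, GD.scl, Finset.prod_mul_distrib]

end Ring

lemma zl (L : Fld K) (y : xz.X L) (h : y.2 ^ 2 = aeval y.1 G.F) :
    G.nu y ∈ zeroLocus L (dpI G.e G.F) := fun f hf => by
  obtain ⟨g, hg⟩ := Ideal.mem_span_singleton'.1 (Ideal.mem_comap.1 hf)
  rw [← aeval_nu, ← hg, map_mul, aeval_H, h, sub_self, mul_zero]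

lemma nu_frb (Q : ℕ) (L : Fld K) (y : xz.X L) : G.nu (frb Q L y) = fun s => G.nu y s ^ Q := by
  funext s
  rcases s with _ | m
  · rfl
  · simp [GD.nu, frb, Finset.prod_pow]

lemma nu_const {L : Type} [CommRing L] (y : xz.X L) (k : Fin 3) :
    G.nu y (some fun _ => k) = y.1 k ^ G.e := by simp [GD.nu]

lemma nu_ne {L : Type} [Field L] {y : xz.X L} (h : y.1 ≠ 0) : G.nu y ≠ 0 := fun h0 =>
  h (funext fun k => pow_eq_zero_iff' (n := G.e) |>.1 ((nu_const G y k).symm.trans (congrFun h0 _)) |>.1)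

/-- The points of the zero locus come from the cone. -/
lemma of_zl [IsAlgClosed K] (he : 0 < G.e) {v : G.σ → K} (hv : v ∈ zeroLocus K (dpI G.e G.F)) :
    ∃ y : xz.X K, y.2 ^ 2 = aeval y.1 G.F ∧ v = G.nu y := by
  let φ : MvPolynomial G.σ K →+* MvPolynomial (Option (Fin 3)) K :=
    (aeval (R := K) (nuP K G.e)).toRingHom
  let _ := φ.toAlgebra
  have hx : ∀ s, IsIntegral (MvPolynomial G.σ K) (X s : MvPolynomial (Option (Fin 3)) K) := by
    rintro (_ | i)
    · have := isIntegral_algebraMap (R := MvPolynomial G.σ K)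
        (A := MvPolynomial (Option (Fin 3)) K) (x := X none)
      simpa [RingHom.algebraMap_toAlgebra, φ, nuP] using this
    · refine IsIntegral.of_pow he ?_
      have := isIntegral_algebraMap (R := MvPolynomial G.σ K)
        (A := MvPolynomial (Option (Fin 3)) K) (x := X (some fun _ => i))
      simpa [RingHom.algebraMap_toAlgebra, φ, nuP] using this
  have hint : Algebra.IsIntegral (MvPolynomial G.σ K) (MvPolynomial (Option (Fin 3)) K) :=
    ⟨fun f => by
      induction f using MvPolynomial.induction_on with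
      | C c =>
        have := isIntegral_algebraMap (R := MvPolynomial G.σ K)
          (A := MvPolynomial (Option (Fin 3)) K) (x := C c)
        simpa [RingHom.algebraMap_toAlgebra, φ] using this
      | add f g hf hg => exact hf.add hg
      | mul_X f s hf => exact hf.mul (hx s)⟩
  obtain ⟨P, h1, h2, h3⟩ := Ideal.exists_ideal_over_prime_of_isIntegral (vanishingIdeal K {v})
    (Ideal.span {X none ^ 2 - rename some G.F} : Ideal (MvPolynomial (Option (Fin 3)) K))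
    fun f hf => by
      rintro _ rfl
      exact hv f hf
  have h4 : P.IsMaximal := Ideal.isMaximal_of_isIntegral_of_isMaximal_comap P
    (h3 ▸ (inferInstance : (vanishingIdeal K {v}).IsMaximal))
  obtain ⟨u, rfl⟩ := isMaximal_iff_eq_vanishingIdeal_singleton.1 h4
  have e : u = co ((fun i => u (some i), u none) : xz.X K) := funext fun s => by
    rcases s with _ | i <;> rfl
  refine ⟨(fun i => u (some i), u none), ?_, funext fun s => ?_⟩
  · have h5 := h1 (Ideal.mem_span_singleton_self _) u rfl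
    rw [e, aeval_H] at h5
    exact sub_eq_zero.1 h5
  · have h5 : X s - C (v s) ∈ vanishingIdeal K {v} := by
      rintro _ rfl
      simp
    rw [← h3] at h5
    have h6 : aeval u (aeval (R := K) (nuP K G.e) (X s - C (v s))) = 0 := h5 u rfl
    rw [e, aeval_nu, map_sub, aeval_X, aeval_C] at h6
    exact (sub_eq_zero.1 h6).symm

lemma cn_scl {L : Fld K} (hF : G.F.IsHomogeneous (2 * G.e)) (a : L) {y : xz.X L}
    (h : y.2 ^ 2 = aeval y.1 G.F) : (G.scl a y).2 ^ 2 = aeval (G.scl a y).1 G.F := by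
  show (a ^ G.e * y.2) ^ 2 = aeval (a • y.1) G.F
  rw [aeval_smul_of_isHomogeneous hF, ← h]
  ring

lemma pt_scl {L : Fld K} {a : L} (ha : a ≠ 0) (y : xz.X L) : G.pt L (G.scl a y) = G.pt L y := by
  rw [GD.pt, nu_scl]
  exact Submodule.span_singleton_smul_eq (pow_ne_zero _ ha).isUnit _

lemma scl_of_pt {L : Fld K} (he : 0 < G.e) {y y' : xz.X L} (hy : y.1 ≠ 0)
    (h : G.pt L y = G.pt L y') : ∃ a : L, y' = G.scl a y := by
  obtain ⟨c, hc⟩ := Submodule.span_singleton_eq_span_singleton.1 h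
  have h1 : ∀ s, G.nu y' s = c * G.nu y s := fun s => (congrFun hc s).symm
  obtain ⟨k, hk⟩ := Function.ne_iff.1 hy
  have hk : y.1 k ≠ 0 := hk
  have h2 := h1 (some fun _ => k)
  rw [nu_const, nu_const] at h2
  have h3 : y'.1 k ≠ 0 := fun h0 => by
    rw [h0, zero_pow he.ne'] at h2
    exact mul_ne_zero c.ne_zero (pow_ne_zero _ hk) h2.symm
  have h4 : (y'.1 k / y.1 k) ^ G.e = c := by
    rw [div_pow, h2, mul_div_cancel_right₀ _ (pow_ne_zero _ hk)]
  refine ⟨y'.1 k / y.1 k, Prod.ext (funext fun i => ?_) ?_⟩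
  · have e : ∀ u : xz.X L, u.1 k * G.nu u (some (Function.update (fun _ => k) ⟨0, he⟩ i)) =
        u.1 i * u.1 k ^ G.e := fun u => by
      have := Finset.prod_update_of_mem (Finset.mem_univ (⟨0, he⟩ : Fin G.e)) (fun _ => u.1 k) (u.1 i)
      simp only [GD.nu, Option.elim, Function.apply_update (fun _ => u.1), this, Finset.prod_const,
        Finset.card_univ_sdiff, Fintype.card_fin, Finset.card_singleton]
      rw [mul_left_comm, ← pow_succ', Nat.sub_add_cancel he]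
    have h5 := e y'
    rw [h1, h2] at h5
    have h6 := e y
    show y'.1 i = y'.1 k / y.1 k * y.1 i
    rw [div_mul_eq_mul_div, eq_div_iff hk]
    refine mul_right_cancel₀ (mul_ne_zero c.ne_zero (pow_ne_zero G.e hk)) ?_
    linear_combination (y'.1 k * c) * h6 - y.1 k * h5
  · show y'.2 = (y'.1 k / y.1 k) ^ G.e * y.2
    rw [h4]
    exact h1 none

lemma fix [IsAlgClosed K] (he : 0 < G.e) (hF : G.F.IsHomogeneous (2 * G.e))
    (hI : Homog (dpI G.e G.F)) (Y : Sm K G.σ) (hY : Y.I = dpI G.e G.F) (Q : ℕ) :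
    Y.fixed Q = G.fx Q false := by
  rw [Sm.fixed, GD.fx, hY]
  refine Nat.card_congr (Equiv.ofBijective (fun x => ⟨x.1.submodule, ?_⟩) ⟨fun x x' h => ?_, ?_⟩)
  · obtain ⟨x, h1, c, h2⟩ := x
    obtain ⟨y, h3, h4⟩ := of_zl G he h1
    have h5 := x.rep_nonzero
    refine ⟨y, ⟨fun h0 => h5 ?_, h3⟩, ?_, ?_⟩
    · have h6 := aeval_smul_of_isHomogeneous hF (0 : K) y.1
      rw [zero_smul, ← h0, zero_pow (by omega), zero_mul, ← h3] at h6
      rw [h4]
      funext s
      rcases s with _ | m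
      · exact pow_eq_zero_iff two_ne_zero |>.1 h6
      · exact Finset.prod_eq_zero (Finset.mem_univ (⟨0, he⟩ : Fin G.e)) (congrFun h0 (m _))
    · rw [Projectivization.submodule_eq, h4]
      rfl
    · show x.submodule = Submodule.span K {G.nu (frb Q (.base K) y)}
      rw [nu_frb, ← h4, h2, Projectivization.submodule_eq]
      refine (Submodule.span_singleton_smul_eq (Ne.isUnit fun h0 => h5 (funext fun s => ?_)) _).symm
      have := congrFun h2 s
      rw [h0, zero_smul] at this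
      exact (pow_eq_zero_iff'.1 this).1
  · exact Subtype.ext (Projectivization.submodule_injective (congrArg Subtype.val h))
  · rintro ⟨E, y, ⟨h1, h2⟩, h3, h4⟩
    obtain ⟨a, ha⟩ := Projectivization.exists_smul_eq_mk_rep K (G.nu y) (nu_ne G h1)
    obtain ⟨c, hc⟩ := Submodule.span_singleton_eq_span_singleton.1 (h3.symm.trans h4)
    refine ⟨⟨Projectivization.mk K (G.nu y) (nu_ne G h1), ?_, (a : K) ^ Q * c / a, ?_⟩,
      Subtype.ext ((Projectivization.submodule_mk _ _).trans h3.symm)⟩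
    · rw [← ha]
      exact hI.smul_mem (zl G (.base K) y h2) a
    · rw [← ha]
      funext s
      have h5 : (c : K) * G.nu y s = G.nu y s ^ Q :=
        (congrFun hc s).trans (congrFun (nu_frb G Q (.base K) y) s)
      show ((a : K) * G.nu y s) ^ Q = (a : K) ^ Q * c / a * ((a : K) * G.nu y s)
      rw [mul_pow, ← h5]
      field_simp

/-- Normalised vectors. -/
def Nm (x : Fin 3 → K) : Prop := x 0 = 1 ∨ x 0 = 0 ∧ (x 1 = 1 ∨ x 1 = 0 ∧ x 2 = 1)

lemma exists_nm {x : Fin 3 → K} (hx : x ≠ 0) : ∃ a : K, a ≠ 0 ∧ Nm (a • x) := by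
  by_cases h0 : x 0 = 0
  · by_cases h1 : x 1 = 0
    · have h2 : x 2 ≠ 0 := fun h2 => hx (funext fun i => by fin_cases i <;> assumption)
      exact ⟨(x 2)⁻¹, inv_ne_zero h2, by simp [Nm, h0, h1, h2]⟩
    · exact ⟨(x 1)⁻¹, inv_ne_zero h1, by simp [Nm, h0, h1]⟩
  · exact ⟨(x 0)⁻¹, inv_ne_zero h0, by simp [Nm, h0]⟩

lemma Nm.one {x : Fin 3 → K} (h : Nm x) {a : K} (h' : Nm (a • x)) : a = 1 := by
  rcases h with h | ⟨h, h1 | ⟨h1, h2⟩⟩ <;> simp_all [Nm]
  · rcases h' with h' | ⟨rfl, h'⟩ <;> simp_all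
  · rcases h' with h' | ⟨rfl, h'⟩ <;> simp_all

lemma Nm.pow {x : Fin 3 → K} (h : Nm x) {Q : ℕ} (hQ : Q ≠ 0) : Nm fun i => x i ^ Q := by
  rcases h with h | ⟨h, h1 | ⟨h1, h2⟩⟩ <;> simp_all [Nm]

lemma Nm.ne {x : Fin 3 → K} (h : Nm x) : x ≠ 0 := by
  rintro rfl
  simp [Nm] at h

lemma Nm.ex {x : Fin 3 → K} (h : Nm x) : ∃ k, x k = 1 := by
  rcases h with h | ⟨-, h | ⟨-, h⟩⟩ <;> exact ⟨_, h⟩

lemma card_fq [IsAlgClosed K] {p Q : ℕ} [CharP K p] (hQ : 1 < Q) (h : p ∣ Q) :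
    Nat.card {t : K // t ^ Q = t} = Q := by
  have h1 := Polynomial.card_rootSet_eq_natDegree (K := K) (galois_poly_separable (K := K) p Q h)
    (IsAlgClosed.splits _)
  rw [FiniteField.X_pow_card_sub_X_natDegree_eq K hQ, ← Nat.card_eq_fintype_card] at h1
  refine (Nat.card_congr (Equiv.subtypeEquivRight fun t => ?_)).trans h1
  rw [Polynomial.mem_rootSet_of_ne (FiniteField.X_pow_card_sub_X_ne_zero K hQ)]
  simp [sub_eq_zero]

lemma card_p2 [IsAlgClosed K] {p Q : ℕ} [CharP K p] (hQ : 1 < Q) (h : p ∣ Q) :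
    Nat.card {x : Fin 3 → K // Nm x ∧ ∀ i, x i ^ Q = x i} = 1 + Q + Q ^ 2 := by
  have h0 : (0 : K) ^ Q = 0 := zero_pow (by omega)
  have h1 := card_fq (K := K) hQ h
  have : Finite {t : K // t ^ Q = t} := Nat.finite_of_card_ne_zero (by omega)
  let f : (Unit ⊕ {t : K // t ^ Q = t}) ⊕ {t : K // t ^ Q = t} × {t : K // t ^ Q = t} →
      {x : Fin 3 → K // Nm x ∧ ∀ i, x i ^ Q = x i} := Sum.elim (Sum.elim
    (fun _ => ⟨![0, 0, 1], by simp [Nm], fun i => by fin_cases i <;> simp [h0]⟩)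
    fun a => ⟨![0, 1, a], by simp [Nm], fun i => by fin_cases i <;> simp [h0, a.2]⟩)
    fun a => ⟨![1, a.1, a.2], by simp [Nm], fun i => by fin_cases i <;> simp [a.1.2, a.2.2]⟩
  have hf : Function.Bijective f := by
    constructor
    · rintro ((a | a) | ⟨a, b⟩) ((a' | a') | ⟨a', b'⟩) h <;> simp_all [f, Subtype.ext_iff]
    · rintro ⟨x, h | ⟨h, h2 | ⟨h2, h3⟩⟩, hx⟩
      · exact ⟨.inr (⟨x 1, hx 1⟩, ⟨x 2, hx 2⟩), Subtype.ext (funext fun i => by
          fin_cases i <;> simp [f, h])⟩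
      · exact ⟨.inl (.inr ⟨x 2, hx 2⟩), Subtype.ext (funext fun i => by
          fin_cases i <;> simp [f, h, h2])⟩
      · exact ⟨.inl (.inl ()), Subtype.ext (funext fun i => by
          fin_cases i <;> simp [f, h, h2, h3])⟩
  rw [← Nat.card_eq_of_bijective f hf, Nat.card_sum, Nat.card_sum, Nat.card_prod, h1, sq]
  simp

/-- The sign in the field. -/
def sk (ε : Bool) (z : K) : K := bif ε then -z else z

lemma sg_eq (ε : Bool) (y : xz.X (Fld.base K)) : sg ε (.base K) y = (y.1, sk ε y.2) := by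
  cases ε <;> rfl

lemma fx_eq (he : 0 < G.e) (hF : G.F.IsHomogeneous (2 * G.e)) {Q : ℕ} (hQ : Q ≠ 0) (ε : Bool) :
    G.fx Q ε = Nat.card (Σ x : {x : Fin 3 → K // Nm x ∧ ∀ i, x i ^ Q = x i},
      {z : K // z ^ 2 = aeval x.1 G.F ∧ sk ε (z ^ Q) = z}) := by
  have h0 : ∀ (x : Fin 3 → K) (z : K), (∀ i, x i ^ Q = x i) → sk ε (z ^ Q) = z →
      G.pt (.base K) (x, z) = G.pt (.base K) (sg ε _ (frb Q (.base K) (x, z))) := fun x z h h' => by
    rw [sg_eq]
    exact congrArg _ (Prod.ext (funext fun i => (h i).symm) h'.symm)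
  refine (Nat.card_congr (Equiv.ofBijective (fun u => ⟨G.pt (.base K) (u.1.1, u.2.1),
    (u.1.1, u.2.1), ⟨u.1.2.1.ne, u.2.2.1⟩, rfl, h0 _ _ u.1.2.2 u.2.2.2⟩) ⟨?_, ?_⟩)).symm
  · rintro ⟨⟨x, hx⟩, z, hz⟩ ⟨⟨x', hx'⟩, z', hz'⟩ h
    have h' : G.pt (.base K) (x, z) = G.pt (.base K) (x', z') := congrArg Subtype.val h
    clear h
    obtain ⟨a, ha⟩ := scl_of_pt G he hx.1.ne h'
    have h1 : x' = a • x := congrArg Prod.fst ha
    have h2 : z' = a ^ G.e * z := congrArg Prod.snd ha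
    obtain rfl : a = 1 := hx.1.one (h1 ▸ hx'.1)
    rw [one_smul] at h1
    rw [one_pow, one_mul] at h2
    subst h1 h2
    rfl
  · rintro ⟨E, y, ⟨h1, h2⟩, rfl, h4⟩
    obtain ⟨a, ha, h5⟩ := exists_nm h1
    have h6 : G.pt (.base K) (G.scl a y) =
        G.pt (.base K) (sg ε _ (frb Q (.base K) (G.scl a y))) := by
      have e : sg ε (.base K) (frb Q (.base K) (G.scl a y)) =
          G.scl (a ^ Q) (sg ε (.base K) (frb Q (.base K) y)) := by
        rw [sg_eq, sg_eq]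
        refine Prod.ext (funext fun i => mul_pow _ _ _) ?_
        show sk ε ((a ^ G.e * y.2) ^ Q) = (a ^ Q) ^ G.e * sk ε (y.2 ^ Q)
        rw [mul_pow, ← pow_mul, ← pow_mul, mul_comm Q]
        cases ε <;> simp [sk]
      rw [e, pt_scl G ha, pt_scl G (pow_ne_zero _ ha), h4]
    obtain ⟨b, hb⟩ := scl_of_pt G he h5.ne h6
    rw [sg_eq] at hb
    have h7 : (fun i => (a • y.1) i ^ Q) = b • a • y.1 := congrArg Prod.fst hb
    have h8 : sk ε ((a ^ G.e * y.2) ^ Q) = b ^ G.e * (a ^ G.e * y.2) := congrArg Prod.snd hb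
    obtain rfl : b = 1 := h5.one (h7 ▸ h5.pow hQ)
    exact ⟨⟨⟨a • y.1, h5, fun i => (congrFun h7 i).trans (one_mul _)⟩, a ^ G.e * y.2,
      cn_scl G hF a h2, h8.trans (by rw [one_pow, one_mul])⟩, Subtype.ext (pt_scl G ha y)⟩

lemma card_fib [IsAlgClosed K] (h2 : (2 : K) ≠ 0) {Q : ℕ} (hQ : Odd Q) {c : K} (hc : c ^ Q = c) :
    Nat.card ({z : K // z ^ 2 = c ∧ sk false (z ^ Q) = z} ⊕
      {z : K // z ^ 2 = c ∧ sk true (z ^ Q) = z}) = 2 := by
  obtain ⟨r, rfl⟩ := IsAlgClosed.exists_pow_nat_eq c two_pos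
  have h1 : ∀ z : K, z ^ 2 = r ^ 2 → z = r ∨ z = -r := fun z => sq_eq_sq_iff_eq_or_eq_neg.1
  have h3 := h1 (r ^ Q) (by rw [← pow_mul, mul_comm, pow_mul, hc])
  have h4 : ∀ z : K, -z = z → z = 0 := fun z h =>
    (mul_eq_zero.1 (by linear_combination -h : 2 * z = 0)).resolve_left h2
  have h5 := hQ.neg_pow r
  rw [Nat.card_eq_two_iff]
  by_cases h0 : r = 0
  · subst h0
    have h6 : (0 : K) ^ Q = 0 := zero_pow hQ.pos.ne'
    refine ⟨.inl ⟨0, rfl, h6⟩, .inr ⟨0, rfl, by simp [sk, h6]⟩, by simp, Set.eq_univ_of_forall ?_⟩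
    rintro (⟨z, hz⟩ | ⟨z, hz⟩) <;> obtain rfl : z = 0 := by simpa using hz.1
    · exact Or.inl rfl
    · exact Or.inr rfl
  · have h6 : r ≠ -r := fun h => h0 (h4 r h.symm)
    rcases h3 with h3 | h3
    · refine ⟨.inl ⟨r, rfl, h3⟩, .inl ⟨-r, by ring, h5.trans (congrArg _ h3)⟩, by simpa using h6,
        Set.eq_univ_of_forall ?_⟩
      rintro (⟨z, hz⟩ | ⟨z, hz, hz'⟩)
      · rcases h1 z hz.1 with rfl | rfl
        · exact Or.inl rfl
        · exact Or.inr rfl
      · have h7 : -z ^ Q = z := hz'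
        rcases h1 z hz with rfl | rfl
        · exact (h6 (h7.symm.trans (congrArg _ h3))).elim
        · rw [h5, neg_neg, h3] at h7
          exact (h6 h7).elim
    · refine ⟨.inr ⟨r, rfl, by simp [sk, h3]⟩, .inr ⟨-r, by ring, by simp [sk, h5, h3]⟩,
        by simpa using h6, Set.eq_univ_of_forall ?_⟩
      rintro (⟨z, hz, hz'⟩ | ⟨z, hz⟩)
      · have h7 : z ^ Q = z := hz'
        rcases h1 z hz with rfl | rfl
        · exact (h6 (h7.symm.trans h3)).elim
        · rw [h5, h3, neg_neg] at h7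
          exact (h6 h7).elim
      · rcases h1 z hz.1 with rfl | rfl
        · exact Or.inl rfl
        · exact Or.inr rfl

lemma cnt [IsAlgClosed K] {p Q : ℕ} [Fact p.Prime] [CharP K p] (he : 0 < G.e) (h2 : (2 : K) ≠ 0)
    (hF : G.F.IsHomogeneous (2 * G.e)) (hQ : 1 < Q) (h : G.Fr p Q)
    (hf : ∀ x : Fin 3 → K, aeval (fun i => x i ^ Q) G.F = aeval x G.F ^ Q) :
    G.fx Q false + G.fx Q true = 2 * (1 + Q + Q ^ 2) := by
  obtain ⟨⟨f, rfl⟩, -⟩ := h
  have hp : p ∣ p ^ f := dvd_pow_self p fun h0 => by simp [h0] at hQ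
  have ho : Odd (p ^ f) := ((Fact.out : p.Prime).odd_of_ne_two fun h0 => h2 (by
    have := CharP.cast_eq_zero K p
    rwa [h0] at this)).pow
  have h1 := card_p2 (K := K) hQ hp
  have : Finite {x : Fin 3 → K // Nm x ∧ ∀ i, x i ^ p ^ f = x i} :=
    Nat.finite_of_card_ne_zero (by omega)
  have := Fintype.ofFinite {x : Fin 3 → K // Nm x ∧ ∀ i, x i ^ p ^ f = x i}
  have h3 := fun x : {x : Fin 3 → K // Nm x ∧ ∀ i, x i ^ p ^ f = x i} =>
    card_fib h2 ho (c := aeval x.1 G.F) (by rw [← hf, funext x.2.2])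
  have h4 := fun x => Nat.finite_of_card_ne_zero ((h3 x).trans_ne two_ne_zero)
  have h5 := fun x => @Finite.sum_left _ _ (h4 x)
  have h6 := fun x => @Finite.sum_right _ _ (h4 x)
  simp only [Nat.card_sum] at h3
  rw [fx_eq G he hF ho.pos.ne', fx_eq G he hF ho.pos.ne', Nat.card_sigma, Nat.card_sigma,
    ← Finset.sum_add_distrib, Finset.sum_congr rfl fun x _ => h3 x, Finset.sum_const,
    Finset.card_univ, ← Nat.card_eq_fintype_card, h1, smul_eq_mul, mul_comm]

lemma ev_scl {L : Fld K} (Q : ℕ) (c a : L) (y : xz.X L) {f : Bridge.SS K G.σ} {γ}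
    (hf : f.IsWeightedHomogeneous (w2 G.σ G.σ) γ) :
    Bridge.ev (fun s => c * G.nu (G.scl a y) s ^ Q) (G.nu (G.scl a y)) f =
      Bridge.mon (c * (a ^ G.e) ^ Q) (a ^ G.e) γ * Bridge.ev (fun s => G.nu y s ^ Q) (G.nu y) f := by
  rw [← Bridge.ev_smul _ _ _ _ hf, nu_scl]
  congr 2
  funext s
  simp [mul_pow, mul_assoc]

lemma ev_eq {L : Fld K} (Q : ℕ) (y : xz.X L) (f : Bridge.SS K G.σ) :
    Bridge.ev (fun s => G.nu y s ^ Q) (G.nu y) f = aeval (co y) (aeval (R := K)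
      (Sum.elim (fun s => nuP K G.e s ^ Q) (nuP K G.e)) f) := by
  rw [← AlgHom.comp_apply, comp_aeval, Bridge.ev]
  refine congrArg (fun v => aeval v f) (funext ?_)
  rintro (s | s) <;> simp [aeval_nuP]

lemma ev_gr (Y : Sm K G.σ) {L : Fld K} (Q : ℕ) {v : G.σ → L} (hv : v ∈ zeroLocus L Y.I)
    {f : Bridge.SS K G.σ} (hf : f ∈ Y.gr Q) : Bridge.ev (fun s => v s ^ Q) v f = 0 := by
  have e : (Bridge.ev (fun s => v s ^ Q) v : Bridge.SS K G.σ →+* L) =
      (Polynomial.eval₂RingHom (aeval (R := K) v : MvPolynomial G.σ K →+* L) 1).comp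
        (Sm.GrC.par0 K G.σ Q : Bridge.SS K G.σ →+* _) := by
    refine MvPolynomial.ringHom_ext (fun r => ?_) fun s => ?_
    · simp [Sm.GrC.par0, Bridge.ev]
    · rcases s with s | s <;> simp [Sm.GrC.par0, Bridge.ev]
  refine (RingHom.congr_fun e f).trans ?_
  show (Sm.GrC.par0 K G.σ Q f).eval₂ _ 1 = 0
  rw [Polynomial.eval₂_eq_sum, Polynomial.sum]
  exact Finset.sum_eq_zero fun n _ => mul_eq_zero_of_left (hv _ ((Sm.GrC.mem_gr Y Q f).1 hf n)) _

lemma gr [Base K] [XA K] [XG K] [XJ] (Y : Sm K G.σ) (hY : Y.I = dpI G.e G.F) (Q : ℕ) {M : Fld K}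
    {α : Fld.base K →ₐ[K] M} {y : xz.X M} (hy : G.GenU 0 α y) :
    Y.grC Q = Finsupp.single (Bridge.PP (G.nu (frb Q M y)) (G.nu y)) 1 := by
  have he : 0 < G.e := by have := (XA.three G).1; omega
  have hF := XA.hom G
  have hp : Y.I.IsPrime := hY ▸ (XJ.dim he fun g h => XA.nsq G (.base K) g (h.trans (map_id _).symm)).1
  have hz : G.nu y ∈ zeroLocus M Y.I := hY ▸ zl G M y hy.mem.2.2
  have key : ∀ {f : Bridge.SS K G.σ} {γ}, f.IsWeightedHomogeneous (w2 G.σ G.σ) γ →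
      Bridge.ev (fun s => G.nu y s ^ Q) (G.nu y) f = 0 → ∀ (u : xz.X (Fld.base K)) (k : Fin 3),
      u.1 k = 1 → u.2 ^ 2 = aeval u.1 G.F → Bridge.ev (fun s => G.nu u s ^ Q) (G.nu u) f = 0 := by
    intro f γ hf h0 u k h1 h2
    have h3 := ev_scl G Q 1 (y.1 k)⁻¹ y hf
    simp only [h0, mul_zero, one_mul] at h3
    rw [ev_eq] at h3
    have h4 := XG.ker hy k (aeval (R := K) (Sum.elim (fun s => nuP K G.e s ^ Q) (nuP K G.e)) f) (by
      rw [← h3, aeval_def]
      congr 1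
      · exact RingHom.ext α.commutes
      · funext s
        rcases s with _ | i
        · show _ / _ = _ * _
          rw [inv_pow, div_eq_inv_mul]
        · exact div_eq_inv_mul _ _)
    obtain ⟨a, b, h5⟩ := Ideal.mem_span_pair.1 h4
    rw [ev_eq]
    refine (congrArg (aeval (R := K) (co u)) h5.symm).trans ?_
    have e : MvPolynomial.map (algebraMap K (Fld.base K)) G.F = G.F := map_id _
    rw [e, map_add, map_mul, map_mul, aeval_H, h2, map_sub, aeval_X, map_one]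
    show _ * (u.1 k - 1) + _ = 0
    rw [h1, sub_self, sub_self, mul_zero, mul_zero, add_zero]
  have hg : Y.gr Q = (Bridge.PP (G.nu (frb Q M y)) (G.nu y)).asIdeal := by
    rw [nu_frb]
    refine le_antisymm (Bridge.le_hom (Y.gr_hom Q) fun f hf => ev_gr G Y Q hz hf) fun f hf =>
      Bridge.mem_of_comp (w := w2 G.σ G.σ) fun γ => ?_
    have h1 := weightedHomogeneousComponent_isWeightedHomogeneous (w := w2 G.σ G.σ) γ f
    rw [Y.mem_gr_iff hp.isRadical, hY]
    intro c v hv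
    obtain ⟨u, h2, rfl⟩ := of_zl G he hv
    obtain ⟨a, u', k, h3, h4, rfl⟩ : ∃ (a : K) (u' : xz.X (Fld.base K)) (k : Fin 3), u'.1 k = 1 ∧
        u'.2 ^ 2 = aeval u'.1 G.F ∧ u = G.scl a u' := by
      by_cases h0 : u.1 = 0
      · obtain ⟨z, hz⟩ := IsAlgClosed.exists_pow_nat_eq (aeval (fun _ => (1 : K)) G.F) two_pos
        have h6 := aeval_smul_of_isHomogeneous hF (0 : K) u.1
        rw [zero_smul, ← h0, zero_pow (by omega), zero_mul, ← h2] at h6
        refine ⟨0, (fun _ => 1, z), 0, rfl, hz, Prod.ext (h0.trans (zero_smul K _).symm) ?_⟩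
        rw [pow_eq_zero_iff two_ne_zero |>.1 h6]
        simp [GD.scl, he.ne']
      · obtain ⟨a, ha, h5⟩ := exists_nm h0
        obtain ⟨k, hk⟩ := h5.ex
        refine ⟨a⁻¹, G.scl a u, k, hk, cn_scl G (L := .base K) hF a h2, Prod.ext ?_ ?_⟩
        · exact (inv_smul_smul₀ ha _).symm
        · show u.2 = a⁻¹ ^ G.e * (a ^ G.e * u.2)
          rw [inv_pow, inv_mul_cancel_left₀ (pow_ne_zero _ ha)]
    have h5 := ev_scl G (L := .base K) Q c a u' h1
    rw [key h1 (Bridge.mem_hom.1 hf γ) u' k h3 h4, mul_zero] at h5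
    exact h5
  rw [Y.grC_eq hp.isRadical (fun a ha => ?_) Q {Bridge.PP (G.nu (frb Q M y)) (G.nu y)} fun z => ?_,
    Finset.sum_singleton]
  · rw [Ideal.minimalPrimes_eq_subsingleton_self, Set.mem_singleton_iff] at ha
    refine ⟨some fun _ => 0, fun h => ?_⟩
    have h1 := hz _ (ha ▸ h)
    rw [aeval_X, nu_const, hy.mem.2.1, one_pow] at h1
    exact one_ne_zero h1
  · rw [hg, Ideal.minimalPrimes_eq_subsingleton_self, Finset.mem_singleton, Set.mem_singleton_iff,
      PrimeSpectrum.ext_iff]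

end XIa

variable {K : Type} [Field K] [Base K] {p : ℕ} [Fact p.Prime] [CharP K p]

theorem XI_thm [XA K] [XG K] [XJ] : XI K p where
  zl := XIa.zl
  fix G Y hY Q _ := have he : 0 < G.e := by have := (XA.three G).1; omega
    XIa.fix G he (XA.hom G) (XJ.hom he (XA.hom G)) Y hY Q
  cnt G _ hQ h := XIa.cnt G (by have := (XA.three G).1; omega) (XA.three G).2.2.2.1 (XA.hom G) hQ h
    (XA.frob G h (.base K))
  gr G Y hY Q _ _ _ _ hy := XIa.gr G Y hY Q hy

end Pool.Agent.Lib.MP_557161_ag.HG
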