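import Pool.Agent.Lib.MP_557161_ag.HG.StY

/-!
Normalised values on products of graphs of Frobenius.
-/

namespace Pool.Agent.Lib.MP_557161_ag.HG

open Pool.Agent.Lib.MP_557161_ag.DL
open Bridge (dg dg_map dg_top)
open ValA (alg trans_iff gen_iff)

variable {K : Type} [Field K] {p : ℕ}

namespace XWa

variable {L L' M M' : Fld K} {κ T : Type} {j : ℕ}

open Polynomial in
lemma deg_pow {α : L →ₐ[K] M'} {U : M'} (ht : Trans' α U) (hg' : Gen α U) {ρ : M' →ₐ[K] M}
    {X' : M} (hg : Gen (ρ.comp α) X') (hp : p.Prime) (h2 : p ≠ 2) {k : ℕ} (e : ρ U = X' ^ p ^ k) :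
    deg ρ = p ^ k := by
  let := alg ρ
  have hirr : Irreducible (X ^ p ^ k - C U : M'[X]) :=
    X_pow_sub_C_irreducible_of_prime_pow hp h2 k fun b hb => by
      obtain ⟨O, -, h1, h3, -⟩ := Pl.exists_zero_place ht hg'
      have := Pl.ord_pow h1 b p
      rw [hb, h3] at this
      exact hp.one_lt.ne' (by exact_mod_cast Int.eq_one_of_mul_eq_one_right (by omega) this.symm)
  have hgen : Gen ρ X' := fun x => by
    obtain ⟨P, Q, h1, h3⟩ := hg x
    exact ⟨P.map α.toRingHom, Q.map α.toRingHom, by rwa [eval₂_map], by rwa [eval₂_map, eval₂_map]⟩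
  have hmon := monic_X_pow_sub_C U (pow_pos hp.pos k).ne'
  have h0 : aeval X' (X ^ p ^ k - C U : M'[X]) = 0 := by
    rw [map_sub, map_pow, aeval_X, aeval_C]
    exact sub_eq_zero.2 e.symm
  rw [gen_iff] at hgen
  rw [deg, ← IntermediateField.finrank_top', ← hgen, IntermediateField.adjoin.finrank ⟨_, hmon, h0⟩,
    ← minpoly.eq_of_irreducible_of_monic hirr h0 hmon, natDegree_X_pow_sub_C]

lemma map_gen (α : L →ₐ[K] M) (T : κ → M) (β : M →ₐ[K] M') :
    (gen α T).map β = gen (β.comp α) fun i => β (T i) := by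
  rw [gen, gen, IntermediateField.adjoin_map, Set.image_union, ← Set.range_comp, ← Set.range_comp]
  rfl

lemma dg_le {F F' : IntermediateField K L} (h : F' ≤ F) (h0 : dg F = 0) : dg F' = 0 := by
  have := deg_comp (L := L.sub F') (L' := L.sub F) (L'' := L) (IntermediateField.inclusion h) F.val
  rw [dg] at h0
  rw [h0, mul_zero] at this
  exact this

lemma tr_of_dg {F : IntermediateField K L} (hL : Good j L) (h : dg F ≠ 0) : (L.sub F).tr = j :=
  (((deg_pos_iff _).1 (Nat.pos_of_ne_zero h)).tr_eq).symm.trans hL.2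

lemma cfg_map (q : ℕ) (e : T → ℕ) (ι : L →ₐ[K] L') (P : T → xz.X L) :
    (fun t => xz.map ι (cfg q e L P t)) = cfg q e L' fun t => xz.map ι (P t) :=
  funext fun _ => Prod.ext (funext fun _ => map_pow ι _ _) (map_pow ι _ _)

lemma cfg_add (q : ℕ) (e δ : T → ℕ) (P : T → xz.X L) :
    cfg q (fun t => e t + δ t) L P = cfg q e L (cfg q δ L P) :=
  funext fun t => Prod.ext (funext fun i => by simp only [cfg, frb, ← pow_mul, ← pow_add, add_comm])
    (by simp only [cfg, frb, ← pow_mul, ← pow_add, add_comm])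

lemma xf_map (ι : L →ₐ[K] L') (P : T → xz.X L) :
    xf L' (fun t => xz.map ι (P t)) = (xf L P).map ι := by
  rw [xf, xf, IntermediateField.adjoin_map, ← Set.range_comp]
  rfl

lemma mem_xf (P : T → xz.X L) (t : T) (i : Fin 3) : (P t).1 i ∈ xf L P :=
  IntermediateField.subset_adjoin _ _ ⟨(t, i), rfl⟩

lemma ext' [Finite T] {S : Sp ((Cd.pi T xz).amb K)} (θ : Pre j S) (q : ℕ) (e : T → ℕ)
    (ι : L →ₐ[K] L') (P : T → xz.X L) (h : Good j L) (h' : Good j L') :
    θ.a L' (cfg q e L' fun t => xz.map ι (P t)) = deg ι * θ.a L (cfg q e L P) := by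
  rw [← cfg_map]
  exact θ.ext ι (some (cfg q e L P)) h h'

/-- One coordinate for each slot. -/
def cc (o : T → ℕ) (τ : T → T) (P : T → xz.X L) (t : T) : L :=
  if o t < o (τ t) then (P t).1 1 else (P t).1 2

lemma xf_eq {o : T → ℕ} (ho : Function.Injective o) {τ : T → T} (hτ : Inv τ) {P : T → xz.X L}
    (h0 : ∀ t, (P t).1 0 = 1) (hP : ∀ t, P (τ t) = P t) :
    xf L P = gen (L := .base K) (Algebra.ofId K L) (cc o τ P) := by
  have h1 : ∀ t, cc o τ P t ∈ gen (L := .base K) (Algebra.ofId K L) (cc o τ P) := fun t =>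
    IntermediateField.subset_adjoin _ _ (Or.inr ⟨t, rfl⟩)
  refine le_antisymm (IntermediateField.adjoin_le_iff.2 ?_) (IntermediateField.adjoin_le_iff.2 ?_)
  · rintro _ ⟨⟨t, i⟩, rfl⟩
    have h2 := h1 t
    have h3 := h1 (τ t)
    have h4 : o (τ t) ≠ o t := fun e => (hτ t).2 (ho e)
    rw [cc, (hτ t).1, hP] at h3
    rw [cc] at h2
    have h5 : (P t).1 1 ∈ gen (L := .base K) (Algebra.ofId K L) (cc o τ P) ∧
        (P t).1 2 ∈ gen (L := .base K) (Algebra.ofId K L) (cc o τ P) := by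
      by_cases h : o t < o (τ t)
      · rw [if_pos h] at h2
        rw [if_neg (by omega)] at h3
        exact ⟨h2, h3⟩
      · rw [if_neg h] at h2
        rw [if_pos (by omega)] at h3
        exact ⟨h3, h2⟩
    fin_cases i
    exacts [Set.mem_of_eq_of_mem (h0 t) (one_mem _), h5.1, h5.2]
  · rintro _ (⟨a, rfl⟩ | ⟨t, rfl⟩)
    · exact (xf L P).algebraMap_mem a
    · unfold cc
      split_ifs <;> exact mem_xf P t _

lemma low0 [FA3 K] [Finite T] {G : GD K} {S : Sp ((Cd.pi T xz).amb K)} (θ : Pre j S) (q : ℕ)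
    (e : T → ℕ) {P : T → xz.X L} (hL : Good j L) (hP : ∀ t, G.UU.mem L (P t))
    (h : dg (xf L P) = 0) : θ.a L (cfg q e L P) = 0 := by
  obtain ⟨m, hm⟩ := good_adjoin L _ (Set.finite_range fun s : T × Fin 3 => (P s.1).1 s.2)
  have h1 : m ≤ j := by
    have := tr_le (L := L.sub (xf L P)) (L' := L) (xf L P).val
    rw [hL.2, show (L.sub (xf L P)).tr = m from hm.2] at this
    exact_mod_cast this
  refine FA3.low' θ (m := m) (FA3.dm_alg (c := .vec (T × Fin 3)) (x := fun s => (P s.1).1 s.2)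
    ⟨xf L P, fun s => mem_xf P s.1 s.2, hm.2.le⟩ fun F hF t => ⟨fun i => ?_, ?_⟩)
    (lt_of_le_of_ne h1 fun e => ?_)
  · exact (isAlgebraic_algebraMap (⟨_, hF (t, i)⟩ : F)).pow _
  · refine (IsAlgebraic.of_pow two_pos ?_).pow _
    rw [(hP t).2.2]
    exact isAlgebraic_algebraMap
      (⟨_, (Rel.aeval (R := Rel.ofSub F) (fun i => ⟨hF (t, i), rfl⟩) _).1⟩ : F)
  · exact ((deg_pos_iff _).2 (Good.fin (L := L.sub (xf L P)) (xf L P).val hL (e ▸ hm.2))).ne' h

lemma gen' [Base K] [XG K] (G : GD K) (κ : Type) [Finite κ] : ∃ (L : Fld K) (P : κ → xz.X L),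
    Good (2 * Nat.card κ) L ∧ (∀ i, G.UU.mem L (P i)) ∧ dg (xf L P) ≠ 0 := by
  refine Finite.induction_empty_option (P := fun κ => ∃ (L : Fld K) (P : κ → xz.X L),
    Good (2 * Nat.card κ) L ∧ (∀ i, G.UU.mem L (P i)) ∧ dg (xf L P) ≠ 0) ?_ ?_ ?_ κ
  · rintro _ _ e ⟨L, P, h1, h2, h3⟩
    refine ⟨L, fun b => P (e.symm b), by rwa [← Nat.card_congr e], fun _ => h2 _, ?_⟩
    rwa [xf, ← (e.symm.prodCongr (Equiv.refl (Fin 3))).surjective.range_comp] at h3
  · exact ⟨.base K, PEmpty.elim, by simpa using good_base, fun i => i.elim,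
      (deg_of_surj (L := (Fld.base K).sub _) (L' := .base K) fun x =>
        ⟨⟨x, IntermediateField.algebraMap_mem _ x⟩, rfl⟩).trans_ne one_ne_zero⟩
  · rintro κ _ ⟨L, P, h1, h2, h3⟩
    obtain ⟨M, α, y, hy⟩ := XG.ex G h1
    refine ⟨M, fun o => o.elim y fun i => xz.map α (P i), ?_, ?_, ?_⟩
    · simpa only [Nat.card_eq_fintype_card, Fintype.card_option, mul_add] using hy.gM
    · rintro (_ | i)
      exacts [hy.mem, (G.UU.map_iff α _).2 (h2 i)]
    · have := XG.dgr hy (Set.range fun s : κ × Fin 3 => (P s.1).1 s.2)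
      refine (Eq.trans (congrArg (fun s => dg (IntermediateField.adjoin K s)) ?_) this).trans_ne
        (mul_ne_zero two_ne_zero h3)
      ext x
      constructor
      · rintro ⟨⟨_ | t, i⟩, rfl⟩
        exacts [Or.inr ⟨i, rfl⟩, Or.inl ⟨_, ⟨(t, i), rfl⟩, rfl⟩]
      · rintro (⟨_, ⟨⟨t, i⟩, rfl⟩, rfl⟩ | ⟨i, rfl⟩)
        exacts [⟨(some t, i), rfl⟩, ⟨(none, i), rfl⟩]

variable [FA1 K]

lemma endo [Finite κ] [DecidableEq κ] {α : L →ₐ[K] M} {T : κ → M} (h : Free j α T) (s : κ)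
    (hp : p.Prime) (h2 : p ≠ 2) (k : ℕ) : ∃ ρ : M →ₐ[K] M, ρ.comp α = α ∧
      (∀ t, ρ (T t) = if t = s then T t ^ p ^ k else T t) ∧ deg ρ = p ^ k := by
  obtain ⟨M₁, α₁, β, T₁, rfl, hT, -, F₂⟩ := FA1.split h (· ≠ s)
  let : Unique {i // ¬ i ≠ s} := ⟨⟨⟨s, fun h => h rfl⟩⟩, fun a => Subtype.ext (not_not.1 a.2)⟩
  obtain ⟨-, t₁, g₁⟩ := FA1.one.1 F₂
  have t₂ : Trans' β (T s ^ p ^ k) := by
    let := alg β
    exact (trans_iff _ _).2 (((trans_iff _ _).1 t₁).pow (pow_pos hp.pos k))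
  obtain ⟨ρ, e₁, e₂⟩ := exists_lift t₁ g₁ t₂
  refine ⟨ρ, by rw [← AlgHom.comp_assoc, e₁], fun t => ?_,
    deg_pow t₁ g₁ (by rw [e₁]; exact g₁) hp h2 e₂⟩
  split_ifs with e
  · rw [e]
    exact e₂
  · rw [← hT ⟨t, e⟩]
    exact AlgHom.congr_fun e₁ _

lemma free_of [Base K] [Finite T] {c : T → L} (hL : Good (Nat.card T) L)
    (h : dg (gen (L := .base K) (Algebra.ofId K L) c) ≠ 0) :
    ∃ (M : Fld K) (α : Fld.base K →ₐ[K] M) (β : M →ₐ[K] L) (U : T → M), (∀ i, β (U i) = c i) ∧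
      Free 0 α U ∧ deg β = dg (gen (L := .base K) (Algebra.ofId K L) c) := by
  obtain ⟨M, α, β, U, e₁, e₂, hF⟩ := FA1.sub (L := .base K) (Algebra.ofId K L) c good_base
    (by rw [zero_add]; exact tr_of_dg hL h)
  refine ⟨M, α, β, U, e₂, hF, ?_⟩
  rw [← e₁, ← funext e₂, ← map_gen, hF.top, dg_map, dg_top, one_mul]

lemma dg_cfg [Base K] [Finite T] [DecidableEq T] {τ : T → T} (hτ : Inv τ) {P : T → xz.X L}
    (hL : Good (Nat.card T) L) (h0 : ∀ t, (P t).1 0 = 1) (hP : ∀ t, P (τ t) = P t) (hp : p.Prime)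
    (h2 : p ≠ 2) (f m : ℕ) (i : T) :
    dg (xf L (cfg (p ^ f) (fun t => if t = i ∨ t = τ i then m else 0) L P)) =
      (p ^ f) ^ (2 * m) * dg (xf L P) := by
  by_cases h : dg (xf L P) = 0
  · rw [h, mul_zero]
    refine dg_le (IntermediateField.adjoin_le_iff.2 ?_) h
    rintro _ ⟨⟨t, i⟩, rfl⟩
    exact pow_mem (mem_xf P t i) _
  obtain ⟨o, ho⟩ := Countable.exists_injective_nat T
  have hδ : ∀ t, (τ t = i ∨ τ t = τ i) ↔ (t = i ∨ t = τ i) := fun t =>
    ⟨fun h => h.symm.imp (fun e => by rw [← (hτ t).1, e, (hτ i).1]) fun e => by rw [← e, (hτ t).1],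
      fun h => h.symm.imp (fun e => by rw [e, (hτ i).1]) fun e => by rw [e]⟩
  rw [xf_eq ho hτ h0 hP] at h ⊢
  rw [xf_eq ho hτ (fun t => (congrArg (· ^ _) (h0 t)).trans (one_pow _))
    fun t => by simp only [cfg, hδ, hP]]
  obtain ⟨M, α, β, U, e₁, hF, e₂⟩ := free_of hL h
  obtain ⟨ρ, a₁, a₂, a₃⟩ := endo hF i hp h2 (f * m)
  obtain ⟨ρ', b₁, b₂, b₃⟩ := endo hF (τ i) hp h2 (f * m)
  have e₃ := map_gen α U (β.comp (ρ.comp ρ'))
  rw [hF.top, Subsingleton.elim ((β.comp (ρ.comp ρ')).comp α) (Algebra.ofId K L)] at e₃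
  rw [show cc o τ (cfg (p ^ f) (fun t => if t = i ∨ t = τ i then m else 0) L P) =
    fun t => (β.comp (ρ.comp ρ')) (U t) from funext fun t => ?_, ← e₃, dg_map, dg_top, one_mul,
    deg_comp, deg_comp, a₃, b₃, e₂, ← pow_add, ← pow_mul]
  · congr 2
    ring
  have e₄ : cc o τ (cfg (p ^ f) (fun t => if t = i ∨ t = τ i then m else 0) L P) t =
      cc o τ P t ^ (p ^ f) ^ (if t = i ∨ t = τ i then m else 0) := by
    unfold cc
    by_cases h : o t < o (τ t)
    · rw [if_pos h, if_pos h]; rfl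
    · rw [if_neg h, if_neg h]; rfl
  rw [e₄, ← e₁, AlgHom.comp_apply, AlgHom.comp_apply, b₂]
  by_cases h3 : t = τ i
  · rw [if_pos h3, if_pos (Or.inr h3), map_pow, a₂, if_neg (h3 ▸ (hτ i).2), map_pow, pow_mul]
  · rw [if_neg h3, a₂]
    by_cases h4 : t = i
    · rw [if_pos h4, if_pos (Or.inl h4), map_pow, pow_mul]
    · rw [if_neg h4, if_neg (not_or.2 ⟨h4, h3⟩), pow_zero, pow_one]

lemma cmp [Base K] {G : GD K} {q : ℕ} (hq : Odd q) (φ : AF (Nat.card Bool) (G.UU.pi Bool))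
    (hφ : AntiP φ.a) (e : Bool → ℕ) {y : xz.X L} {y' : xz.X L'} (hL : Good (Nat.card Bool) L)
    (hL' : Good (Nat.card Bool) L') (hy : G.UU.mem L y) (hy' : G.UU.mem L' y')
    (h : dg (xf L fun _ : Bool => y) ≠ 0) (h' : dg (xf L' fun _ : Bool => y') ≠ 0) :
    φ.a L (cfg q e L fun _ => y) * dg (xf L' fun _ : Bool => y') =
      dg (xf L fun _ : Bool => y) * φ.a L' (cfg q e L' fun _ => y') := by
  have ho : Function.Injective Bool.toNat := fun a b => by cases a <;> cases b <;> simp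
  have hτ : Inv not := fun a => by cases a <;> simp
  rw [xf_eq ho hτ (fun _ => hy.2.1) fun _ => rfl] at h ⊢
  rw [xf_eq ho hτ (fun _ => hy'.2.1) fun _ => rfl] at h' ⊢
  obtain ⟨M, α, β, U, e₁, hF, e₂⟩ := free_of hL h
  obtain ⟨M', α', β', U', e₁', hF', e₂'⟩ := free_of hL' h'
  obtain ⟨ρ, -, a₂, a₃⟩ := FA1.lift hF hF' (AlgHom.id K K)
  obtain ⟨N, κ₁, κ₂, b₁, b₂⟩ := exists_amalgam β (β'.comp ρ)
    ((deg_pos_iff _).1 (e₂ ▸ Nat.pos_of_ne_zero h))
  have hN := hL'.of_fin b₂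
  have d₁ := congrArg (fun f => (deg f : ℂ)) b₁
  simp only [deg_comp, a₃ rfl, deg_of_surj (ι := AlgHom.id K (Fld.base K)) Function.surjective_id,
    one_mul, e₂, e₂', Nat.cast_mul] at d₁
  have c₁ : ∀ b, κ₁ (cc Bool.toNat not (fun _ => y) b) = κ₂ (cc Bool.toNat not (fun _ => y') b) :=
    fun b => by rw [← e₁, ← e₁', ← a₂]; exact AlgHom.congr_fun b₁ _
  have c₂ : (xz.map κ₁ y).1 = (xz.map κ₂ y').1 := funext fun i => by
    fin_cases i
    exacts [(congrArg κ₁ hy.2.1).trans ((map_one κ₁).trans ((congrArg κ₂ hy'.2.1).trans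
      (map_one κ₂)).symm), c₁ false, c₁ true]
  have c₃ : (xz.map κ₁ y).2 ^ 2 = (xz.map κ₂ y').2 ^ 2 := by
    rw [((G.UU.map_iff κ₁ y).2 hy).2.2, ((G.UU.map_iff κ₂ y').2 hy').2.2, c₂]
  have c₄ : φ.a N (cfg q e N fun _ => xz.map κ₁ y) = φ.a N (cfg q e N fun _ => xz.map κ₂ y') := by
    rcases sq_eq_sq_iff_eq_or_eq_neg.1 c₃ with c | c
    · rw [show xz.map κ₁ y = xz.map κ₂ y' from Prod.ext c₂ c]
    · rw [show xz.map κ₁ y = ngz N (xz.map κ₂ y') from Prod.ext c₂ c]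
      generalize xz.map κ₂ y' = w
      have c₅ := hφ false N (Function.update (cfg q e N fun _ => w) true
        (ngz N (cfg q e N (fun _ => w) true)))
      rw [hφ true, neg_neg] at c₅
      refine Eq.trans (congrArg _ (funext fun b => ?_)) c₅
      cases b <;> exact Prod.ext rfl (hq.pow.neg_pow _)
  rw [ext' φ.toPre q e κ₁ (fun _ => y) hL hN, ext' φ.toPre q e κ₂ (fun _ => y') hL' hN] at c₄
  have d₂ := deg_ne b₂
  have d₃ : (deg κ₁ : ℂ) ≠ 0 := fun e => mul_ne_zero (Nat.cast_ne_zero.2 h') d₂ (by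
    rw [← d₁, e, mul_zero])
  refine mul_left_cancel₀ d₃ ?_
  rw [← mul_assoc, c₄, mul_left_comm, ← mul_assoc, d₁]
  ring

end XWa

theorem XW_thm [Base K] [Fact p.Prime] [CharP K p] [FA1 K] [FA3 K] [XA K] [XG K] [XV K p] :
    XW K p where
  shift {G q} hq {T} _ φ {τ} hτ e e' i m v h1 h2 h3 := by
    classical
    have hp : p.Prime := Fact.out
    have p2 : p ≠ 2 := fun e => (XA.three G).2.2.2.1 (by
      have := CharP.cast_eq_zero K p
      rwa [e, Nat.cast_ofNat] at this)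
    obtain ⟨⟨f, rfl⟩, hl⟩ := id hq
    obtain rfl : e' = fun t => e t + if t = i ∨ t = τ i then m else 0 := funext fun t => by
      by_cases a : t = i
      · rw [if_pos (Or.inl a), a, h1]
      · by_cases b : t = τ i
        · rw [if_pos (Or.inr b), b, h2]
        · rw [if_neg (not_or.2 ⟨a, b⟩), h3 t a b, add_zero]
    have hδ : ∀ t, (τ t = i ∨ τ t = τ i) ↔ (t = i ∨ t = τ i) := fun t =>
      ⟨fun h => h.symm.imp (fun e => by rw [← (hτ t).1, e, (hτ i).1]) fun e => by rw [← e, (hτ t).1],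
        fun h => h.symm.imp (fun e => by rw [e, (hτ i).1]) fun e => by rw [e]⟩
    refine ⟨fun H L P hL hU hP => ?_, fun H L P hL hU hP => ?_⟩
    · obtain ⟨a1, -, a2, -⟩ := XV.mp (XV.pow hq m)
      obtain ⟨L', ι, _, b1, ⟨y, rfl, b2⟩, b3⟩ := CKL.surj_lift (Srj.mor a1 a2) ⟨_, rfl, hU i⟩
      have b4 : frb ((p ^ f) ^ m) L' y = xz.map ι (P i) := Option.some.inj b3
      let P₀ : T → xz.X L' := fun t => if t = i ∨ t = τ i then y else xz.map ι (P t)
      have c1 : ∀ t, G.UU.mem L' (P₀ t) := fun t => by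
        simp only [P₀]
        split_ifs
        exacts [b2, (G.UU.map_iff ι _).2 (hU t)]
      have c2 : ∀ t, P₀ (τ t) = P₀ t := fun t => by simp only [P₀, hδ, hP]
      have c3 : cfg (p ^ f) (fun t => if t = i ∨ t = τ i then m else 0) L' P₀ =
          fun t => xz.map ι (P t) := funext fun t => by
        simp only [cfg, P₀]
        split_ifs with h
        · rcases h with rfl | rfl
          · exact b4
          · rw [b4, hP]
        · exact Prod.ext (funext fun _ => pow_one _) (pow_one _)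
      have hL' := hL.of_fin b1
      have c4 := H L' P₀ hL' c1 c2
      have c5 := XWa.dg_cfg hτ hL' (fun t => (c1 t).2.1) c2 hp p2 f m i
      rw [c3, XWa.xf_map, dg_map] at c5
      rw [XWa.cfg_add, c3, XWa.ext' φ.toPre _ e ι P hL hL', ← mul_assoc, mul_comm (dg _ : ℂ),
        ← Nat.cast_pow, ← Nat.cast_mul, ← c5, Nat.cast_mul, mul_comm (dg _ : ℂ), mul_assoc] at c4
      exact mul_left_cancel₀ (deg_ne b1) c4
    · rw [XWa.cfg_add, H L (cfg _ _ L P) hL (fun t => (XV.mp (XV.pow hq _)).1.mem _ _ (hU t))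
        (fun t => by simp only [cfg, hδ, hP]), XWa.dg_cfg hτ hL (fun t => (hU t).2.1) hP hp p2]
      push_cast
      ring
  val {G q} hq φ hφ e := by
    have hp : p.Prime := Fact.out
    have p2 : p ≠ 2 := fun e => (XA.three G).2.2.2.1 (by
      have := CharP.cast_eq_zero K p
      rwa [e, Nat.cast_ofNat] at this)
    have ho : Odd q := by
      obtain ⟨⟨f, rfl⟩, -⟩ := hq
      exact (hp.odd_of_ne_two p2).pow
    have hc : ∀ {L : Fld K} {P : Bool → xz.X L}, (∀ i, P (!i) = P i) → P = fun _ => P true :=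
      fun h => funext fun b => by cases b; exacts [h true, rfl]
    by_cases h : ∃ (L : Fld K) (y : xz.X L), Good (Nat.card Bool) L ∧ G.UU.mem L y ∧
      dg (xf L fun _ : Bool => y) ≠ 0
    · obtain ⟨L', y', a1, a2, a3⟩ := h
      refine ⟨φ.a L' (cfg q e L' fun _ => y') / dg (xf L' fun _ : Bool => y'),
        fun L P hL hU hP => ?_⟩
      by_cases h0 : dg (xf L P) = 0
      · rw [XWa.low0 φ.toPre q e hL hU h0, h0, Nat.cast_zero, zero_mul]
      · rw [hc hP] at h0 ⊢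
        rw [← mul_div_assoc, eq_div_iff (Nat.cast_ne_zero.2 a3)]
        exact XWa.cmp ho φ hφ e hL a1 (hU true) a2 h0 a3
    · refine ⟨0, fun L P hL hU hP => ?_⟩
      rw [mul_zero]
      exact XWa.low0 φ.toPre q e hL hU
        (by_contra fun h0 => h ⟨L, P true, hL, hU true, by rwa [hc hP] at h0⟩)
  gen G κ _ := XWa.gen' G κ

end Pool.Agent.Lib.MP_557161_ag.HG
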