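import Pool.Agent.Lib.MP_557161_ag.HG.StX
import Pool.Agent.Lib.MP_557161_ag.HG.XW
import Pool.Agent.Lib.MP_557161_ag.HG.FA1

/-!
From linear forms on cycles of the square to functionals on the part over the torus.
-/

namespace Pool.Agent.Lib.MP_557161_ag.HG

open Pool.Agent.Lib.MP_557161_ag.DL MvPolynomial
open Pool.Agent.Lib.MP_60ec62_ag.DL (Cyc)
open Bridge (vv dg FF PP)

variable {K : Type} [Field K] {p : ℕ}

namespace XQa

/-- A rational functional as a complex one. -/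
def cx {A : Amb K} {P : Sp A} {j : ℕ} (φ : Fn j P) : Fe j P where
  v L y := φ.v L y
  supp L y h := φ.supp L y fun e => h (by rw [e, Rat.cast_zero])
  ext ι y h h' := by rw [φ.ext ι y h h', Rat.cast_mul, Rat.cast_natCast]
  low ι y h := by rw [φ.low ι y h, Rat.cast_zero]
  rat M y f hM hy hf := by
    obtain ⟨h1, h2⟩ := φ.rat M y f hM hy hf
    have e : ∀ O : Dv M j, (O.1.ord f : ℂ) * (φ.v O.1.res (A.red O.1 y) : ℂ) =
        Rat.castHom ℂ ((O.1.ord f : ℚ) * φ.v O.1.res (A.red O.1 y)) := fun O => by simp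
    simp only [e]
    exact ⟨h1.subset fun O h e => h ((congrArg (Rat.castHom ℂ) e).trans (map_zero _)),
      ((Rat.castHom ℂ).toAddMonoidHom.map_finsum h1).symm.trans
        ((congrArg (Rat.castHom ℂ) h2).trans (map_zero _))⟩

/-- The shape of the empty tuple. -/
abbrev cE : Cd := Cd.vec Empty

/-- The projection from the product with a point. -/
def fst {A : Amb K} (P : Sp A) : Mor (P.prod (ASp.univ K cE).sp) P where
  f y := y.1
  mem _ h := h.1
  nat _ _ _ := rfl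
  cont _ _ _ _ _ := rfl

lemma fst_proper {A : Amb K} (P : Sp A) : (fst P).Proper := by
  rintro M O ⟨y, _⟩ - ⟨-, w, rfl, -⟩ h
  exact ⟨h, Empty.elim, Cd.red_some (c := cE) fun i => i.elim, trivial⟩

variable (G : GD K)

/-- Two slots. -/
def two (L : Fld K) (x : (Cd.pi Bool xz).X L) : ((xz.prod xz).prod cE).X L :=
  ((x true, x false), Empty.elim)

lemma two_mp : Mp (G.UU.pi Bool) ((G.UU.prod G.UU).prod (ASp.univ K cE)) two :=
  ⟨fun _ _ _ _ _ _ _ e => ⟨⟨e true, e false⟩, fun i => i.elim⟩,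
    fun _ _ h => ⟨⟨h true, h false⟩, trivial⟩⟩

lemma two_pro : Pro (G.UU.pi Bool) ((G.UU.prod G.UU).prod (ASp.univ K cE)) two :=
  Pro.of_left (g := fun _ z b => bif b then z.1.1 else z.1.2)
    ⟨fun _ _ _ _ _ _ _ e b => by cases b; exacts [e.1.2, e.1.1],
      fun _ _ h b => by cases b; exacts [h.1.2, h.1.1]⟩ (two_mp G)
    fun _ _ _ => funext fun b => by cases b <;> rfl

variable {G} {L M : Fld K}

lemma uu_ngz {y : xz.X L} : G.UU.mem L (ngz L y) ↔ G.UU.mem L y :=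
  and_congr Iff.rfl (and_congr Iff.rfl (by rw [show (ngz L y).2 ^ 2 = y.2 ^ 2 from neg_sq _]; rfl))

lemma cn_ngz {y : xz.X L} (h : G.Cn L y) : G.Cn L (ngz L y) := ⟨h.1, (neg_sq y.2).trans h.2⟩

lemma fr_pow {q : ℕ} (h : G.Fr p q) (m : ℕ) : G.Fr p (q ^ m) := by
  obtain ⟨⟨f, hf⟩, h2⟩ := h
  refine ⟨⟨f * m, by rw [hf, pow_mul]⟩, ?_⟩
  induction m with
  | zero => rw [pow_zero, pow_one]
  | succ m ih => rw [pow_succ, pow_mul, ih, h2]

lemma uu_frb [Fact p.Prime] [CharP K p] [XA K] {Q : ℕ} (h : G.Fr p Q) {y : xz.X L}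
    (hy : G.UU.mem L y) : G.UU.mem L (frb Q L y) :=
  ⟨⟨trivial, fun i => pow_ne_zero _ (hy.1.2 i)⟩, (congrArg (· ^ Q) hy.2.1).trans (one_pow _),
    (pow_right_comm y.2 Q 2).trans ((congrArg (· ^ Q) hy.2.2).trans (XA.frob G h L y.1).symm)⟩

lemma ff_top {α : Fld.base K →ₐ[K] M} {y : xz.X M} (h0 : y.1 0 = 1) (h : gen α (xz.co y) = ⊤)
    (u : G.σ → M) : FF u (G.nu y) = ⊤ := by
  have h1 : G.nu y (some fun _ => 0) = 1 := by simp [GD.nu, h0]
  have h2 : ∀ s, G.nu y s ∈ FF u (G.nu y) := fun s =>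
    IntermediateField.subset_adjoin _ _ (Or.inr ⟨(s, some fun _ => 0), by
      simp only [h1, div_one]⟩)
  rw [eq_top_iff, ← h]
  refine Fa1.gen_le (fun a => ?_) ?_
  · rw [Subsingleton.elim α (Algebra.ofId K M)]
    exact IntermediateField.algebraMap_mem _ a
  · rintro (i | i)
    · have h3 := h2 (some (Function.update (fun _ => 0) ⟨0, G.e_pos⟩ i))
      have h4 : G.nu y (some (Function.update (fun _ => 0) ⟨0, G.e_pos⟩ i)) = y.1 i := by
        show ∏ j, y.1 (Function.update (fun _ => (0 : Fin 3)) (⟨0, G.e_pos⟩ : Fin G.e) i j) = _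
        rw [Finset.prod_eq_single ⟨0, G.e_pos⟩ (fun j _ hj => by
          rw [Function.update_of_ne hj, h0]) (fun e => absurd (Finset.mem_univ _) e),
          Function.update_self]
      rwa [h4] at h3
    · exact h2 none

lemma exists_gen {y : xz.X L} (hL : Good 2 L) (hy : G.UU.mem L y)
    (h : dg (xf L fun _ : Bool => y) ≠ 0) : ∃ (M : Fld K) (α : Fld.base K →ₐ[K] M) (β : M →ₐ[K] L)
      (y₀ : xz.X M), G.GenU 0 α y₀ ∧ xz.map β y₀ = y := by
  obtain ⟨α, β, T, -, hT, ht⟩ := Fa1.exists_sub (L := .base K) (Algebra.ofId K L) (xz.co y)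
  have e1 : xz.map β (xz.mk' T) = y :=
    xz.inj (funext fun i => by rw [xz.co_map, xz.co_mk, hT])
  have hF : (xf L fun _ : Bool => y) ≤ gen (L := .base K) (Algebra.ofId K L) (xz.co y) :=
    IntermediateField.adjoin_le_iff.2 (by
      rintro _ ⟨⟨t, i⟩, rfl⟩
      exact Fa1.right_mem _ (xz.co y) (Sum.inl i))
  have h1 := tr_le (L := L.sub (xf L fun _ : Bool => y)) (L' := L.sub _)
    (IntermediateField.inclusion hF)
  rw [XWa.tr_of_dg hL h] at h1
  exact ⟨_, α, β, xz.mk' T, ⟨good_base,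
    hL.down (ι := β) (le_antisymm ((tr_le β).trans hL.2.le) h1),
    (G.UU.map_iff β _).1 (e1.symm ▸ hy), by rw [xz.co_mk, ht]⟩, e1⟩

lemma gr_val [XG K] [XI K p] (Y : Sm K G.σ) (hY : Y.I = dpI G.e G.F) {Q : ℕ}
    (hQ : G.Fr p Q) (b : Cyc (MvPolynomial (G.σ ⊕ G.σ) K) →ₗ[ℚ] ℚ) {y : xz.X L} (hL : Good 2 L)
    (hy : G.UU.mem L y) (h : dg (xf L fun _ : Bool => y) ≠ 0) :
    2 * ((dg (FF (G.nu (frb Q L y)) (G.nu y)) : ℚ) *
      b (Finsupp.single (PP (G.nu (frb Q L y)) (G.nu y)) 1)) =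
      dg (xf L fun _ : Bool => y) * b (Y.grC Q) := by
  obtain ⟨M, α, β, y₀, hU, rfl⟩ := exists_gen hL hy h
  have h2 := XG.dgr hU ∅
  have h1 : ∀ F : IntermediateField K (Fld.base K), dg F = 1 := fun F =>
    deg_of_surj (L := (Fld.base K).sub F) (L' := .base K) fun x => ⟨⟨x, F.algebraMap_mem x⟩, rfl⟩
  rw [Set.image_empty, Set.empty_union, h1] at h2
  have h3 : (xf M fun _ : Bool => y₀) = IntermediateField.adjoin K (Set.range y₀.1) :=
    congrArg (IntermediateField.adjoin K) ((Prod.snd_surjective (α := Bool)).range_comp y₀.1)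
  have e2 : frb Q L (xz.map β y₀) = xz.map β (frb Q M y₀) :=
    Prod.ext (funext fun _ => (map_pow β _ _).symm) (map_pow β _ _).symm
  have e3 : G.nu (xz.map β (frb Q M y₀)) = _ := (G.nu_map β.toRingHom (frb Q M y₀)).symm
  have e4 : G.nu (xz.map β y₀) = _ := (G.nu_map β.toRingHom y₀).symm
  have e5 : dg (xf L fun _ : Bool => xz.map β y₀) = 2 * 1 * deg β := by
    rw [XWa.xf_map β fun _ => y₀, Bridge.dg_map, h3, h2]
  have e6 : dg (FF (G.nu (frb Q L (xz.map β y₀))) (G.nu (xz.map β y₀))) = 1 * deg β := by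
    rw [e2, e3, e4, Bridge.FF_map, Bridge.dg_map, ff_top hU.mem.2.1 hU.top, Bridge.dg_top]
  have e7 : PP (G.nu (frb Q L (xz.map β y₀))) (G.nu (xz.map β y₀)) =
      PP (G.nu (frb Q M y₀)) (G.nu y₀) := by rw [e2, e3, e4, Bridge.PP_map]
  rw [XI.gr G Y hY Q hQ hU, e5, e6, e7]
  push_cast
  ring

end XQa

theorem XQ_thm [Base K] [Fact p.Prime] [CharP K p] [FA3 K] [XA K] [XG K] [XI K p] [YA K] [YW K]
    [YQ K] : XQ K p where
  brg G Y hY q hq b hb := by
    classical
    have hI : Homog Y.I := wHomog_iff_homog.1 Y.hI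
    let φ₀ : Fn (Nat.card Bool) ((DL.XS Y.I hI).prod (DL.XS Y.I hI)) :=
      { v := vv b hI _
        supp := fun L y e => by_contra fun e' => e (if_neg e')
        ext := Bridge.vv_ext b hI
        low := Bridge.vv_low b hI
        rat := fun M y f hM hy hf => (Bridge.vv_rat b hI (fun z g h γ k1 k2 k3 k4 k5 k6 => hb
          (Submodule.mem_sup_left (Submodule.mem_sup_left (Submodule.subset_span
            ⟨z, g, h, γ, k1, k2, k3, k4, k5, k6, rfl⟩)))) (fun Z hZ => hb (Submodule.mem_sup_left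
              (Submodule.mem_sup_right (Submodule.subset_span
                ⟨Z, by rintro _ ⟨s, t, rfl⟩; exact hZ s t, rfl⟩)))) y hM hy hf).out }
    have k0 : φ₀.Kills := Bridge.vv_kills b hI fun a c k1 k2 k3 k4 k5 => hb (Submodule.mem_sup_right
      (Submodule.mem_iSup_of_mem _ (Submodule.subset_span ⟨a, c, k1, k2, k3, k4, k5, rfl⟩)))
    have hx : ∀ {L : Fld K} {E : (Sub K G.σ).pt L}, G.XX.mem E → (DL.XS Y.I hI).mem E := by
      rintro L _ ⟨y, hy, rfl⟩
      exact ⟨G.nu y, G.nu_ne hy.1, hY ▸ XI.zl (p := p) G L y hy.2, rfl⟩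
    let m : Mor G.X2 ((DL.XS Y.I hI).prod (DL.XS Y.I hI)) :=
      ⟨fun y => y, fun _ h => ⟨hx h.1, hx h.2⟩, fun _ _ _ => rfl, fun _ _ _ _ _ => rfl⟩
    have hm : m.Proper := fun O _ _ h _ => ⟨YA.cmp O h.1, YA.cmp O h.2⟩
    have k1 : (φ₀.pull m hm).Kills := fun L L₁ L₂ ι₁ ι₂ y z h => by
      by_contra e
      exact e ((Fn.pull_of_mem _ _ _ ((φ₀.pull m hm).supp _ _ e).2).trans (k0 L L₁ L₂ ι₁ ι₂ y z h))
    have an := YQ.anti G _ k1
    have hv : ∀ (L : Fld K) (s : G.A2.pt L), Good (Nat.card Bool) L → G.X2.mem s →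
        (φ₀.pull m hm).v L s = Bridge.wt b s.1 s.2 := fun L s h h' =>
      (Fn.pull_of_mem m hm φ₀ h').trans (if_pos ⟨h, m.mem _ h'⟩)
    generalize φ₀.pull m hm = φ₁ at k1 an hv
    obtain ⟨Φ, hΦ⟩ := YW.aff G (W := ASp.univ K XQa.cE) (1 / 4)
      ((XQa.cx φ₁).pull (XQa.fst G.X2) (XQa.fst_proper G.X2))
    let φ : AF (Nat.card Bool) (G.UU.pi Bool) :=
      Φ.pull (XQa.two_mp G).mor (Pro.mor _ (XQa.two_pro G))
    have h0 : ∀ (L : Fld K) (x : Bool → xz.X L), ¬ (∀ t, G.UU.mem L (x t)) → φ.a L x = 0 :=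
      fun L x h => by_contra fun e => h ((G.UU.pi Bool).sp_some.1 (φ.supp L _ e).2)
    have h1 : ∀ (L : Fld K) (x : Bool → xz.X L), (∀ t, G.UU.mem L (x t)) →
        φ.a L x = (φ₁.v L (G.pt L (x true), G.pt L (x false)) : ℂ) := fun L x h => by
      have c1 := YA.uu (h true)
      have c2 := YA.uu (h false)
      have c3 : ∀ A B, G.Cn L A → G.Cn L B →
          ((XQa.cx φ₁).pull (XQa.fst G.X2) (XQa.fst_proper G.X2)).v L
            ((G.pt L A, G.pt L B), some Empty.elim) = (φ₁.v L (G.pt L A, G.pt L B) : ℂ) :=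
        fun A B hA hB => Fe.pull_of_mem _ _ _ ⟨⟨⟨A, hA, rfl⟩, B, hB, rfl⟩, _, rfl, trivial⟩
      refine (Fe.pull_of_mem _ _ _ ((G.UU.pi Bool).sp_some.2 h)).trans
        ((hΦ L (x true) (x false) Empty.elim (h true) (h false)).trans ?_)
      simp only [Fintype.sum_bool, sn, sg, cond_true, cond_false]
      rw [c3 _ _ c1 c2, c3 _ _ (XQa.cn_ngz c1) c2, c3 _ _ c1 (XQa.cn_ngz c2),
        c3 _ _ (XQa.cn_ngz c1) (XQa.cn_ngz c2), (an L _ _ c1).1, (an L _ _ c1).1, (an L _ _ c2).2]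
      push_cast
      ring
    refine ⟨φ, fun i L x => ?_, fun L L₁ L₂ ι₁ ι₂ w a1 a2 a3 => ?_, fun j L P hL hU hP => ?_⟩
    · have c1 : (∀ t, G.UU.mem L (Function.update x i (ngz L (x i)) t)) ↔
          ∀ t, G.UU.mem L (x t) := forall_congr' fun t => by
        by_cases e : t = i
        · rw [e, Function.update_self, XQa.uu_ngz]
        · rw [Function.update_of_ne e]
      by_cases h : ∀ t, G.UU.mem L (x t)
      · rw [h1 L x h, h1 L _ (c1.2 h)]
        cases i
        · rw [Function.update_self, Function.update_of_ne (by decide),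
            (an L _ _ (YA.uu (h false))).2, Rat.cast_neg]
        · rw [Function.update_self, Function.update_of_ne (by decide),
            (an L _ _ (YA.uu (h true))).1, Rat.cast_neg]
      · rw [h0 L x h, h0 L _ fun e => h (c1.1 e), neg_zero]
    · by_cases h : ∀ t, G.UU.mem L (w t)
      · choose A hA using fun i => a1 (true, i) rfl
        choose B hB using fun i => a2 (false, i) Bool.false_ne_true
        have e1 : w true = xz.map ι₁ (xz.mk' A) :=
          xz.inj (funext fun i => by rw [xz.co_map, xz.co_mk, hA])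
        have e2 : w false = xz.map ι₂ (xz.mk' B) :=
          xz.inj (funext fun i => by rw [xz.co_map, xz.co_mk, hB])
        rw [h1 L w h, e1, e2, ← GD.map_pt, ← GD.map_pt, k1 L L₁ L₂ ι₁ ι₂ _ _ a3, Rat.cast_zero]
      · exact h0 L w h
    · obtain ⟨y, rfl⟩ : ∃ y, P = fun _ => y :=
        ⟨P true, funext fun t => by cases t; exacts [hP true, rfl]⟩
      by_cases h : dg (xf L fun _ : Bool => y) = 0
      · rw [XWa.low0 φ.toPre q _ hL hU h, h, Nat.cast_zero, zero_mul]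
      have hQ := XQa.fr_pow hq j
      have c1 := XQa.uu_frb hQ (hU true)
      have e1 : cfg q (fun b => bif b then j else 0) L (fun _ => y) false = y :=
        Prod.ext (funext fun _ => pow_one _) (pow_one _)
      have e2 : cfg q (fun b => bif b then j else 0) L (fun _ => y) true = frb (q ^ j) L y := rfl
      have c2 : G.X2.mem (L := L) (G.pt L (frb (q ^ j) L y), G.pt L y) :=
        ⟨⟨_, YA.uu c1, rfl⟩, _, YA.uu (hU true), rfl⟩
      have c3 : φ₁.v L (G.pt L (frb (q ^ j) L y), G.pt L y) = _ :=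
        (hv L _ hL c2).trans
          (Bridge.wt_span b (G.nu_ne (YA.uu c1).1) (G.nu_ne (YA.uu (hU true)).1))
      have c4 := XQa.gr_val Y hY hQ b (by simpa using hL) (hU true) h
      rw [← c3] at c4
      rw [h1 L _ fun t => by cases t; exacts [e1.symm ▸ hU true, c1], e1, e2, ← mul_div_assoc,
        eq_div_iff two_ne_zero, mul_comm]
      exact_mod_cast c4

end Pool.Agent.Lib.MP_557161_ag.HG
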