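import Pool.Agent.Lib.MP_557161_ag.HG.StX

/-!
The fixed point formula.
-/

namespace Pool.Agent.Lib.MP_557161_ag.HG

open Pool.Agent.Lib.MP_557161_ag.DL MvPolynomial Submodule

namespace YLa

variable {K : Type} [Field K] {G : GD K} {L M : Fld K} {Q : ℕ} {ε : Bool}

/-- Frobenius, or its composition with the involution. -/
def gg (Q : ℕ) (ε : Bool) (L : Fld K) (y : xz.X L) : xz.X L := sg ε L (frb Q L y)

lemma gg_one (y : xz.X L) (i : Fin 3) : (gg Q ε L y).1 i = y.1 i ^ Q := by cases ε <;> rfl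

lemma gg_rel {R : Rel M L} {y : xz.X M} {y' : xz.X L} (h : xz.lift R.r y y') :
    xz.lift R.r (gg Q ε M y) (gg Q ε L y') := by
  cases ε
  exacts [⟨fun i => Rel.pow (h.1 i) Q, Rel.pow h.2 Q⟩,
    ⟨fun i => Rel.pow (h.1 i) Q, Rel.neg (Rel.pow h.2 Q)⟩]

lemma gg_map (κ : L →ₐ[K] M) (y : xz.X L) : gg Q ε M (xz.map κ y) = xz.map κ (gg Q ε L y) :=
  ((Cd.lift_hom κ).1 (gg_rel ((Cd.lift_hom κ).2 rfl))).symm

lemma scl_map (κ : L →ₐ[K] M) (a : L) (y : xz.X L) :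
    xz.map κ (G.scl a y) = G.scl (κ a) (xz.map κ y) :=
  Prod.ext (funext fun _ => map_mul κ _ _) (by simp [GD.scl])

lemma gg_scl (a : L) (y : xz.X L) : gg Q ε L (G.scl a y) = G.scl (a ^ Q) (gg Q ε L y) := by
  cases ε <;> refine Prod.ext (funext fun i => mul_pow _ _ _) ?_ <;>
    simp [gg, sg, frb, ngz, GD.scl, mul_pow, pow_right_comm a]

lemma fin_sum {ι : Type} (c : ℂ) : ∑ᶠ _ : ι, c = Nat.card ι * c := by
  rcases eq_or_ne c 0 with rfl | h
  · simp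
  cases finite_or_infinite ι
  · have := Fintype.ofFinite ι
    simp [finsum_eq_sum_of_fintype]
  · rw [finsum_of_infinite_support (by simpa [Function.support_const h] using Set.infinite_univ)]
    simp

lemma mem_rg [IsAlgClosed K] {x : L} (h : IsIntegral K x) : ∃ c, Algebra.ofId K L c = x :=
  minpoly.mem_range_of_degree_eq_one K x
    (IsAlgClosed.degree_eq_one_of_irreducible K (minpoly.irreducible h))

variable {p : ℕ} [Fact p.Prime] [CharP K p]

lemma gg_mv (hQ : G.Fr p Q) (y v : xz.X L) (ρ : L) :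
    gg Q ε L (mv y ρ v) = mv (gg Q ε L y) (ρ ^ Q) (gg Q ε L v) := by
  obtain ⟨⟨f, rfl⟩, -⟩ := hQ
  have : CharP L p := charP_of_injective_algebraMap (algebraMap K L).injective p
  cases ε <;> refine Prod.ext (funext fun i => ?_) ?_ <;>
    simp [gg, sg, frb, ngz, mv, add_pow_char_pow, mul_pow, add_comm]

lemma gg_cn [ha : XA K] (hQ : G.Fr p Q) {y : xz.X L} (h : G.Cn L y) : G.Cn L (gg Q ε L y) := by
  obtain ⟨k, hk⟩ := Function.ne_iff.1 h.1
  refine ⟨Function.ne_iff.2 ⟨k, (gg_one y k).trans_ne (pow_ne_zero _ hk)⟩, ?_⟩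
  rw [funext (gg_one y), ha.frob G hQ, ← h.2, pow_right_comm]
  cases ε
  exacts [rfl, neg_sq _]

variable [ya : YA K]

omit [Fact p.Prime] [CharP K p] in
lemma red_pt {O : Pl M} {y : xz.X M} {y' : xz.X O.res} (h : G.Cn M y)
    (l : xz.lift (Rel.ofPl O).r y y') (h0 : y'.1 ≠ 0) : G.Cn O.res y' ∧
    (Sub K G.σ).red O (G.pt M y) = G.pt O.res y' ∧ (O.IsDVR → ordv O (G.nu y) = 0) := by
  obtain ⟨l1, rfl⟩ := (Cd.lift_pl O).1 l
  obtain ⟨-, h1, h2, -, -, h3⟩ := ya.red h l1.1 h0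
  exact ⟨h1, h2, h3⟩

omit [Fact p.Prime] [CharP K p] in
lemma gg_pt {y y' : xz.X L} (h : G.Cn L y) (h' : G.Cn L y')
    (e : G.pt L y = G.pt L y') : G.pt L (gg Q ε L y) = G.pt L (gg Q ε L y') := by
  obtain ⟨a, a0, rfl⟩ := ya.pt_eq h h' e
  rw [gg_scl, GD.pt_scl _ (pow_ne_zero _ a0)]

variable [XA K]

/-- The fixed points. -/
abbrev Fx (G : GD K) (Q : ℕ) (ε : Bool) : Type :=
  {E : (Sub K G.σ).pt (.base K) // ∃ y, G.Cn (.base K) y ∧ E = G.pt _ y ∧
    E = G.pt _ (sg ε _ (frb Q _ y))}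

lemma fix_pt [IsAlgClosed K] (h1 : 1 < Q) (hQ : G.Fr p Q) {y : xz.X L} (h : G.Cn L y)
    (e : G.pt L (gg Q ε L y) = G.pt L y) :
    ∃ E : Fx G Q ε, G.pt L y = (Sub K G.σ).map (L := .base K) (Algebra.ofId K L) E.1 := by
  obtain ⟨k, hk⟩ := Function.ne_iff.1 h.1
  have k0 : (y.1 k)⁻¹ ≠ 0 := inv_ne_zero hk
  have e1 := (GD.pt_scl (G := G) y k0).symm
  have h' := h.scl k0
  have k1 : (G.scl (y.1 k)⁻¹ y).1 k = 1 := inv_mul_cancel₀ hk
  rw [gg_pt h h' e1, e1] at e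
  rw [e1]
  generalize G.scl (y.1 k)⁻¹ y = z at *
  obtain ⟨a, -, ha⟩ := ya.pt_eq h' (gg_cn hQ h') e.symm
  have h2 : ∀ i, z.1 i ^ Q = a * z.1 i := fun i => (gg_one z i).symm.trans (by rw [ha]; rfl)
  obtain rfl : a = 1 := by simpa [k1] using (h2 k).symm
  choose x hx using fun i => mem_rg (K := K) (x := z.1 i) (by
    by_cases h0 : z.1 i = 0
    · exact h0 ▸ isIntegral_zero
    · refine IsIntegral.of_pow (Nat.sub_pos_of_lt h1) ?_
      rw [pow_sub₀ _ h0 h1.le, h2, pow_one, mul_inv_cancel_right₀ h0]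
      exact isIntegral_one)
  obtain ⟨t, ht⟩ := mem_rg (K := K) (x := z.2) (IsIntegral.of_pow two_pos (by
    rw [h'.2, ← funext hx]
    exact (aeval_mapV (L := .base K) (Algebra.ofId K L) x G.F).symm ▸ isIntegral_algebraMap))
  obtain rfl : z = xz.map (Algebra.ofId K L) (x, t) := Prod.ext (funext hx).symm ht.symm
  refine ⟨⟨_, (x, t), (GD.cn_map (L := .base K) _).1 h', rfl,
    (Sub K G.σ).inj (L := .base K) (Algebra.ofId K L) ?_⟩, (GD.map_pt (L := .base K) _ _).symm⟩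
  rw [GD.map_pt, GD.map_pt, ← e, gg_map (L := .base K)]
  rfl

lemma loc [b3 : FB3 K] (h1 : 1 < Q) (hQ : G.Fr p Q) {α : L →ₐ[K] M} {O : Pl M} (hO : O.IsDVR)
    (h : Pl.Triv α O) {R : xz.X L} (hR : G.Cn L R) (hg : G.pt L R = G.pt L (gg Q ε L R))
    {y v : xz.X M} (hy : G.Cn M y) {a ρ : M} (a0 : a ≠ 0) (r0 : ρ ≠ 0) (r1 : ρ ∈ O.O)
    (r2 : O.rd ρ = 0) (hv : xz.all (· ∈ O.O) v) (e : G.scl a y = mv (xz.map α R) ρ v)
    (ht : G.tv (xz.map h.hom R) (xz.map O.rd v) ≠ 0) :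
    G.sv (gg Q ε M y) y ≠ 0 ∧
      ordv O (G.sv (gg Q ε M y) y) = O.ord ρ + ordv O (G.nu (gg Q ε M y)) + ordv O (G.nu y) ∧
      G.A3.red O ((G.pt M (gg Q ε M y), G.pt M y), span M {G.sv (gg Q ε M y) y}) =
        ((G.pt _ (xz.map h.hom R), G.pt _ (xz.map h.hom R)),
          span O.res {G.tv (xz.map h.hom R) (xz.map O.rd v)}) := by
  obtain ⟨c, c0, hc⟩ := ya.pt_eq hR (gg_cn hQ hR) hg
  have c1 : h.hom c ≠ 0 := (map_ne_zero _).2 c0
  have lR := Cd.lift_triv (c := xz) h R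
  have lg := Cd.lift_triv (c := xz) h (gg Q ε L R)
  have lv : xz.lift (Rel.ofPl O).r v _ := (Cd.lift_pl O).2 ⟨hv, rfl⟩
  have lr : (Rel.ofPl O).r ρ 0 := ⟨r1, r2⟩
  have ly : xz.lift (Rel.ofPl O).r (G.scl a y) (xz.map h.hom R) := by
    rw [e]
    exact ⟨fun i => by simpa [mv] using (Rel.ofPl O).add (lR.1 i) ((Rel.ofPl O).mul lr (lv.1 i)),
      by simpa [mv] using (Rel.ofPl O).add lR.2 ((Rel.ofPl O).mul lr lv.2)⟩
  have cR := (GD.cn_map h.hom).2 hR
  obtain ⟨-, p1, o1⟩ := red_pt (hy.scl a0) ly cR.1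
  obtain ⟨-, p2, o2⟩ := red_pt (gg_cn (ε := ε) hQ (hy.scl a0)) (gg_rel ly) (gg_cn hQ cR).1
  have aQ := pow_ne_zero G.e (pow_ne_zero Q a0)
  have ae := pow_ne_zero G.e a0
  obtain ⟨t1, t2, r, t3, t4⟩ := ya.taylor G O _ v ρ ((Cd.lift_pl O).1 lR).1 hv r1
  obtain ⟨s1, -, r', s3, s4⟩ := ya.taylor G O _ (gg Q ε M v) (ρ ^ Q) ((Cd.lift_pl O).1 lg).1
    ((Cd.lift_pl O).1 (gg_rel lv)).1 (pow_mem r1 Q)
  rw [((Cd.lift_pl O).1 lR).2] at t2
  have nR : ∀ s, (Rel.ofPl O).r (G.nu (xz.map α R) s) (G.nu (xz.map h.hom R) s) := fun s => by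
    rcases s with _ | m
    exacts [lR.2, Rel.prod Finset.univ fun i _ => lR.1 (m i)]
  obtain ⟨n, rfl⟩ : ∃ n, Q = n + 2 := ⟨Q - 2, by omega⟩
  obtain ⟨u, hu, s5⟩ : ∃ u, IntV O u ∧ G.nu (gg (n + 2) ε M (G.scl a y)) =
      α c ^ G.e • G.nu (xz.map α R) + ρ ^ 2 • u := by
    refine ⟨_, IntV.smul (pow_mem r1 n) (s1.add (IntV.smul (pow_mem r1 (n + 2)) s3)), ?_⟩
    rw [e, gg_mv hQ, gg_map, s4, hc, scl_map, G.nu_scl]
    funext s
    simp only [Pi.add_apply, Pi.smul_apply, smul_eq_mul]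
    ring
  obtain ⟨b, hb, s6⟩ : ∃ b, (∀ s, (Rel.ofPl O).r (b s)
      ((h.hom c ^ G.e • G.tv (xz.map h.hom R) (xz.map O.rd v)) s)) ∧
      ((a ^ (n + 2)) ^ G.e * a ^ G.e) • G.sv (gg (n + 2) ε M y) y = ρ • b := by
    have w : ∀ {A B : G.σ → M} {A' B' : G.σ → O.res}, (∀ s, (Rel.ofPl O).r (A s) (A' s)) →
        (∀ s, (Rel.ofPl O).r (B s) (B' s)) → ∀ s, (Rel.ofPl O).r (wdg A B s) (wdg A' B' s) :=
      fun hA hB s => Rel.sub ((Rel.ofPl O).mul (hA _) (hB _)) ((Rel.ofPl O).mul (hA _) (hB _))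
    have lc : (Rel.ofPl O).r (α c ^ G.e) (h.hom c ^ G.e) := Rel.pow (Cd.lift_triv (c := .one) h c) _
    refine ⟨α c ^ G.e • G.tv (xz.map α R) v + ρ • (α c ^ G.e • wdg (G.nu (xz.map α R)) r +
      wdg u (G.nu (xz.map α R) + ρ • G.dnu (xz.map α R) v + ρ ^ 2 • r)), fun s => ?_, ?_⟩
    · have := (Rel.ofPl O).add ((Rel.ofPl O).mul lc (w nR (fun s => ⟨t1 s, congrFun t2 s⟩) s))
        ((Rel.ofPl O).mul lr ((Rel.ofPl O).add
          ((Rel.ofPl O).mul lc (w nR (fun s => ⟨t3 s, rfl⟩) s)) (w (fun s => ⟨hu s, rfl⟩)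
            (fun s => ⟨((IntV.add (fun s => (nR s).1) (IntV.smul r1 t1)).add
              (IntV.smul (pow_mem r1 2) t3)) s, rfl⟩) s)))
      rwa [zero_mul, add_zero] at this
    · rw [GD.sv, ← wdg_smul, ← G.nu_scl, ← G.nu_scl, ← gg_scl, s5, e, t4]
      funext s
      simp only [GD.tv, wdg, Pi.add_apply, Pi.smul_apply, smul_eq_mul]
      ring
  have b1 : IntV O b := fun s => (hb s).1
  have b2 : rdV O b = _ := funext fun s => (hb s).2
  have b3' : rdV O b ≠ 0 := b2 ▸ smul_ne_zero (pow_ne_zero _ c1) ht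
  have b0 : b ≠ 0 := fun e => b3' (by simp [e])
  have v0 : G.sv (gg (n + 2) ε M y) y ≠ 0 := fun e =>
    smul_ne_zero r0 b0 (by rw [← s6, e, smul_zero])
  rw [gg_scl] at p2 o2
  rw [GD.pt_scl _ a0] at p1
  rw [GD.pt_scl _ (pow_ne_zero _ a0), gg_map, hc, scl_map, GD.pt_scl _ c1] at p2
  refine ⟨v0, ?_, Prod.ext (Prod.ext p2 p1) ?_⟩
  · have q1 := o1 hO
    have q2 := o2 hO
    have q3 := congrArg (ordv O) s6
    rw [G.nu_scl, b3.ordv_smul hO (G.nu_ne hy.1) ae] at q1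
    rw [G.nu_scl, b3.ordv_smul hO (G.nu_ne (gg_cn hQ hy).1) aQ] at q2
    rw [b3.ordv_smul hO v0 (mul_ne_zero aQ ae), b3.ordv_smul hO b0 r0, b3.ordv_prim hO b1 b3',
      Pl.ord_mul hO aQ ae] at q3
    omega
  · change sred O _ = _
    rw [← span_singleton_smul_eq (mul_ne_zero aQ ae).isUnit, s6, span_singleton_smul_eq r0.isUnit,
      sred_single b1 b3', b2, span_singleton_smul_eq (pow_ne_zero _ c1).isUnit]

end YLa

open YLa in
theorem YL_thm {K : Type} [Field K] [Base K] {p : ℕ} [Fact p.Prime] [CharP K p] [FW0 K] [XA K]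
    [ya : YA K] [yb : YB K] [yf : YF K] [yp : YP K] : YL K p where
  loop {G d W j φ Ψ} hc Q h1 hQ L M α y hy w hw ε := by
    obtain ⟨ψ, Ξ, hψ, hΞ, hΨ⟩ := hc
    have cy := ya.uu hy.mem
    have cg := gg_cn (ε := ε) hQ cy
    have mp : ∀ {N N' : Fld K} (κ : N →ₐ[K] N') (E : Fx G Q ε),
        (Sub K G.σ).map κ ((Sub K G.σ).map (L := .base K) (Algebra.ofId K N) E.1) =
          (Sub K G.σ).map (L := .base K) (Algebra.ofId K N') E.1 := fun κ E => by
      rw [← Amb.map_comp, Algebra.ext_id _ (κ.comp _) (Algebra.ofId K _)]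
    have hR : ∀ E : Fx G Q ε, ∃ R : xz.X L, G.Cn L R ∧ G.pt L R = G.pt L (gg Q ε L R) ∧
        G.pt L R = (Sub K G.σ).map (L := .base K) (Algebra.ofId K L) E.1 := fun ⟨E, R, r1, r2, r3⟩ =>
      ⟨xz.map (Algebra.ofId K L) R, (GD.cn_map (L := .base K) _).2 r1, by
        rw [gg_map (L := .base K), ← GD.map_pt (L := .base K), ← GD.map_pt (L := .base K), ← r2]
        exact congrArg _ r3, (GD.map_pt (L := .base K) _ R).symm.trans (congrArg _ r2.symm)⟩
    choose R r1 r2 r3 using hR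
    choose f ft v₀ v₁ T a ρ v f1 f2 f3 f4 f5 f6 f7 f8 f9 using fun E => yp.pt hy (R E) (r1 E)
    have r0 : ∀ E, ρ E ≠ 0 := fun E e => by
      have := f5 E
      rw [e, Pl.ord_zero _ (f E).2.1] at this
      exact zero_ne_one this
    have lc := fun E =>
      have := (Pl.ord_pos_iff (f E).2.1 (r0 E)).1 (by rw [f5 E]; exact one_pos)
      loc h1 hQ (f E).2.1 (ft E) (r1 E) (r2 E) cy (f4 E) (r0 E) this.1 this.2 (f6 E) (f7 E)
        (f8 E ▸ (yb.fp_mem (ft E).hom (T E) (f1 E)).1)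
    have b0 : G.sv (gg Q ε M y) y ≠ 0 := fun e =>
      (lc (fix_pt h1 hQ cy ((ya.sv_eq cg cy).1 e)).choose).1 e
    have rw' : ∀ {O : Pl M} (h : Pl.Triv α O), (d.amb K).red O (some (d.map α w)) =
        some (d.map h.hom w) := fun h => (d.amb K).red_triv h (some w)
    obtain ⟨t, ht⟩ : ∃ t : Dv M (j + 1) → ℂ, t = fun O : Dv M (j + 1) =>
      ((ordv O.1 (G.sv (gg Q ε M y) y) - ordv O.1 (G.nu (gg Q ε M y)) - ordv O.1 (G.nu y) : ℤ) : ℂ) *
        ψ.v O.1.res (G.A3.red O.1 ((G.pt M (gg Q ε M y), G.pt M y), span M {G.sv (gg Q ε M y) y}),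
          (d.amb K).red O.1 (some (d.map α w))) := ⟨_, rfl⟩
    have t1 : ∀ E, t (f E) = G.e * φ.a L w := fun E => by
      rw [ht]
      dsimp only
      rw [(lc E).2.1, (lc E).2.2, rw' (ft E), f5, f8, ← yf.fib hψ hy.gL (f2 E) (f3 E) (f1 E) hw,
        add_right_comm, add_sub_cancel_right, add_sub_cancel_right, Int.cast_one, one_mul]
      rfl
    have inj : Function.Injective f := fun E E' e => by
      have k : ∀ E, (Sub K G.σ).red (f E).1 (G.pt M y) =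
          (Sub K G.σ).map (L := .base K) (Algebra.ofId K (f E).1.res) E.1 := fun E =>
        (congrArg (·.1.2) (lc E).2.2).trans (by rw [← mp (ft E).hom, ← r3, GD.map_pt])
      have k1 := k E
      rw [e, k E'] at k1
      exact Subtype.ext ((Sub K G.σ).inj _ k1).symm
    have t2 : ∀ O, t O ≠ 0 → O ∈ Set.range f := fun O h0 => by
      rw [ht] at h0
      have h2 := right_ne_zero_of_mul h0
      have h3 := (ψ.supp _ _ h2).2.1
      obtain ⟨a', a0, i1, i2⟩ := ya.prim O.1 cy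
      have ly : xz.lift (Rel.ofPl O.1).r (G.scl a' y) _ :=
        (Cd.lift_pl O.1).2 ⟨⟨i1, (ya.red (cy.scl a0) i1 i2).1⟩, rfl⟩
      obtain ⟨c1, p1, -⟩ := red_pt (cy.scl a0) ly i2
      obtain ⟨-, p2, -⟩ := red_pt (gg_cn (ε := ε) hQ (cy.scl a0)) (gg_rel ly) (gg_cn hQ c1).1
      rw [GD.pt_scl _ a0] at p1
      rw [gg_scl, GD.pt_scl _ (pow_ne_zero _ a0)] at p2
      obtain ⟨E, hE⟩ := fix_pt h1 hQ c1 (p2.symm.trans (h3.2.trans p1))
      replace p1 := p1.trans hE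
      replace p2 := h3.2.trans p1
      have lw : ∀ {L' : Fld K} (κ : L' →ₐ[K] O.1.res) (π : (Sub K (G.σ × G.σ)).pt L')
          (w' : (d.amb K).pt L'), L'.tr < (j + 1 : ℕ) → (Sub K _).map κ π =
          (Sub K _).red O.1 (span M {G.sv (gg Q ε M y) y}) →
          (d.amb K).red O.1 (some (d.map α w)) ≠ (d.amb K).map κ w' := fun {L'} κ π w' k1 k2 k3 => by
        refine h2 (Eq.trans (congrArg _ ?_) (ψ.low κ
          ((((Sub K G.σ).map (L := .base K) (Algebra.ofId K L') E.1,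
            (Sub K G.σ).map (L := .base K) (Algebra.ofId K L') E.1), π), w') k1))
        exact Prod.ext (Prod.ext (Prod.ext (p2.trans (mp κ E).symm) (p1.trans (mp κ E).symm))
          k2.symm) k3
      have tr : Pl.Triv α O.1 := by
        by_contra hn
        have ov := Pl.over_comap α O.1
        have k1 := (Pl.comap α O.1).tr_res_lt (fun e => hn fun x =>
          (ov x).1 (e ▸ ValuationSubring.mem_top _)) hy.gL.2.le
        have k2 : G.A3.red O.1 ((G.pt M (gg Q ε M y), G.pt M y), span M {G.sv (gg Q ε M y) y}) =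
            ((_, _), _) := Prod.ext (Prod.ext (p2.trans (mp ov.resHom E).symm)
              (p1.trans (mp ov.resHom E).symm)) rfl
        obtain ⟨L', α', κ, π, k3, k4, k5⟩ := yb.dm ov.resHom (k2 ▸ h3)
        refine lw κ π ((d.amb K).map α' ((d.amb K).red (Pl.comap α O.1) (some w))) (k4.trans_lt ?_)
          k5 (((d.amb K).red_map ov (some w)).trans (by rw [← k3, Amb.map_comp]))
        obtain ⟨m, hm⟩ := Cardinal.lt_aleph0.1 (k1.trans (Cardinal.natCast_lt_aleph0))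
        rw [hm] at k1 ⊢
        norm_cast at k1 ⊢
        omega
      have lR := (Cd.lift_pl O.1).1 (Cd.lift_triv (c := xz) tr (R E))
      have cR := (GD.cn_map α).2 (r1 E)
      obtain ⟨a₁, ρ₁, u, n1, n2, n3, n4, n5, n6, -, n7⟩ := ya.near (O := O.1) cy cR lR.1.1
        (fun e => ((GD.cn_map tr.hom).2 (r1 E)).1 ((congrArg Prod.fst lR.2).symm.trans e))
        (fun e => b0 ((ya.sv_eq cg cy).2 (by
          rw [gg_pt cy cR e, e, gg_map, ← GD.map_pt, ← r2, GD.map_pt])))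
        (by rw [p1, ← GD.map_pt, Amb.red_triv _ tr, r3, mp])
      rw [lR.2] at n7
      by_contra hn
      obtain ⟨L', α', κ, π, k3, k4, k5⟩ := f9 E O.1 tr a₁ ρ₁ u O.2.1
        (fun e => hn ⟨E, Subtype.ext e.symm⟩) n1 n3 n4 n5 n6 n7
      exact lw κ π ((d.amb K).map α' (some w)) (k4.trans_lt (by norm_cast; omega)) (k5.trans
        (congrArg (·.2) (loc h1 hQ O.2.1 tr (r1 E) (r2 E) cy n1 n2 n3 n4 n5 n6 n7).2.2).symm)
        (((d.amb K).red_triv tr (some w)).trans (by rw [← k3, Amb.map_comp]))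
    have t3 : ∑ᶠ O, t O = G.e * G.fx Q ε * φ.a L w := by
      rw [← Set.indicator_eq_self.2 t2, ← finsum_mem_def, finsum_mem_range inj]
      simp only [t1]
      rw [fin_sum, GD.fx]
      ring
    have hw' := (W.map_iff α w).2 hw
    have m1 : G.BB.mem (L := M) ((G.pt M (gg Q ε M y), G.pt M y), span M {G.sv (gg Q ε M y) y}) :=
      ⟨_, _, _, cg, cy, rfl, rfl, b0, rfl, Or.inl rfl⟩
    have sw : G.sv y (gg Q ε M y) = (-1 : M) • G.sv (gg Q ε M y) y :=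
      funext fun s => by simp [GD.sv, wdg, mul_comm]
    have n1 : (-1 : M) ≠ 0 := neg_ne_zero.2 one_ne_zero
    have m2 : G.BB.mem (L := M) ((G.pt M y, G.pt M (gg Q ε M y)), span M {G.sv (gg Q ε M y) y}) :=
      ⟨_, _, _, cy, cg, rfl, rfl, sw ▸ smul_ne_zero n1 b0,
        by rw [sw, span_singleton_smul_eq n1.isUnit], Or.inl rfl⟩
    refine ⟨(hΨ M _ _ m1).trans ((hΞ M _ _ _ _ 1 hy.gM cg cy b0 m1 hw' one_ne_zero
      fun _ => (one_smul _ _).symm).2.symm.trans (Eq.trans (finsum_congr fun O => ?_) t3)),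
      (hΨ M _ _ m2).trans ((hΞ M _ _ _ _ (-1) hy.gM cy cg b0 m2 hw' n1
        fun _ => sw).2.symm.trans (Eq.trans (finsum_congr fun O => ?_) t3))⟩
    · rw [ht]
      beta_reduce
      rw [Pl.ord_eq_zero_of_mem one_ne_zero (one_mem _) (by simp)]
      congr 2
      ring
    · rw [ht]
      beta_reduce
      rw [Pl.ord_eq_zero_of_mem n1 (neg_mem (one_mem _)) (by simp)]
      by_cases e : (Sub K G.σ).red O.1 (G.pt M (gg Q ε M y)) = (Sub K G.σ).red O.1 (G.pt M y)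
      · congr 2
        · ring
        · exact Prod.ext (Prod.ext (Prod.ext e.symm e) rfl) rfl
      · refine (mul_eq_zero_of_right _ ?_).trans (mul_eq_zero_of_right _ ?_).symm
        · exact by_contra fun h0 => e (ψ.supp _ _ h0).2.1.2.symm
        · exact by_contra fun h0 => e (ψ.supp _ _ h0).2.1.2

end Pool.Agent.Lib.MP_557161_ag.HG
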