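import Pool.Agent.Lib.MP_557161_ag.HG.StX

/-!
The intersection with the diagonal vanishes on exterior products.
-/

namespace Pool.Agent.Lib.MP_557161_ag.HG

open Pool.Agent.Lib.MP_557161_ag.DL Submodule

namespace YKp

variable {K : Type} [Field K] {d : Cd} {q : d.ι → Prop} {L L₁ : Fld K} {ι : L₁ →ₐ[K] L}

/-- The coordinates of `w` are distributed over two fields of small transcendence degree. -/
def Spl (q : d.ι → Prop) (n : ℕ) (ι : L₁ →ₐ[K] L) (w : d.X L) : Prop :=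
  ∃ (L₂ : Fld K) (ι₂ : L₂ →ₐ[K] L), (∀ i, q i → d.co w i ∈ Set.range ι) ∧
    (∀ i, ¬ q i → d.co w i ∈ Set.range ι₂) ∧ L₁.tr + L₂.tr ≤ n

lemma Spl.red {n : ℕ} {w : d.X L} (h : Spl q (n + 1) ι w) {O : Pl L} (hO : ¬ Pl.Triv ι O) :
    Spl q n (Pl.over_comap ι O).resHom (d.map O.rd w) := by
  obtain ⟨L₂, ι₂, h1, h2, h3⟩ := h
  refine ⟨_, (Pl.over_comap ι₂ O).resHom, fun i hi => ?_, fun i hi => ?_, ?_⟩
  · obtain ⟨a, ha⟩ := h1 i hi
    exact ⟨_, by rw [d.co_map, ← ha]; exact Pl.Over.resHom_rd _ a⟩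
  · obtain ⟨a, ha⟩ := h2 i hi
    exact ⟨_, by rw [d.co_map, ← ha]; exact Pl.Over.resHom_rd _ a⟩
  · obtain ⟨m, hm⟩ := Cardinal.lt_aleph0.1
      ((self_le_add_right _ _).trans_lt (h3.trans_lt (Cardinal.natCast_lt_aleph0)))
    obtain ⟨m', hm'⟩ := Cardinal.lt_aleph0.1
      ((self_le_add_left _ _).trans_lt (h3.trans_lt (Cardinal.natCast_lt_aleph0)))
    have k1 := Pl.tr_res_lt (Pl.comap ι O) (fun e => hO fun x =>
      (Pl.over_comap ι O x).1 (e ▸ ValuationSubring.mem_top _)) hm.le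
    have k2 := (Pl.tr_res_le (Pl.comap ι₂ O)).trans hm'.le
    obtain ⟨k, hk⟩ := Cardinal.lt_aleph0.1 (k1.trans Cardinal.natCast_lt_aleph0)
    rw [hk] at k1 ⊢
    rw [hm, hm'] at h3
    refine (add_le_add_right k2 _).trans ?_
    norm_cast at k1 h3 ⊢
    omega

lemma ordv_triv {O : Pl L} (h : Pl.Triv ι O) (hd : O.IsDVR) {σ : Type} (x : σ → L₁) :
    ordv O (mapV ι.toRingHom x) = 0 := by
  unfold ordv
  split_ifs with h'
  · exact Pl.ord_eq_zero_of_mem' hd (h _) (by rw [mapV, ← map_inv₀]; exact h _)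
  · rfl

lemma hasS_zero {α : Type} {g : α → ℂ} {c : ℂ} (h : HasS g c) (e : ∀ a, g a = 0) : c = 0 := by
  rw [← h.2, funext e, finsum_zero]

variable {G : GD K} {W : ASp K d} {j : ℕ}

lemma ordv_nu {O : Pl L} (h : Pl.Triv ι O) (hd : O.IsDVR) (y : xz.X L₁) :
    ordv O (G.nu (xz.map ι y)) = 0 :=
  (congrArg (ordv O) (G.nu_map ι.toRingHom y)).symm.trans (ordv_triv h hd _)

lemma psi {φ : AF j W} {ψ : Fe (j + 1) (G.EE.prod W.sp)} (h : G.IsPsi φ ψ) (hk : KlP d q j φ.a)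
    (t : G.A3.pt L₁) {w : d.X L} (hw : Spl q (j + 1) ι w) : ψ.v L (G.A3.map ι t, some w) = 0 := by
  by_contra h0
  obtain ⟨g, m, mw⟩ := ψ.supp _ _ h0
  obtain ⟨⟨y, y', b, h1, -, h3, -, h5, h6, -⟩, e⟩ := (G.EE.map_iff ι t).1 m
  have et : G.A3.map ι t = ((G.pt L (xz.map ι y), G.pt L (xz.map ι y)),
      span L {mapV ι.toRingHom b}) :=
    Prod.ext (Prod.ext ((congrArg _ h3).trans (GD.map_pt ι y))
      ((congrArg _ (e.symm.trans h3)).trans (GD.map_pt ι y)))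
      ((congrArg _ h6).trans (smap_single _ _))
  rw [et] at h0
  refine h0 (hasS_zero (h L _ _ w g ((GD.cn_map ι).2 h1) (mt (mapV_eq_zero _).1 h5) (et ▸ m)
    (W.sp_some.1 mw)) fun O => ?_)
  by_cases hO : Pl.Triv ι O.1
  · rw [ordv_triv hO O.2.1, ordv_nu hO O.2.1]
    simp
  · obtain ⟨L₂, ι₂, k1, k2, k3⟩ := hw.red hO
    rw [rv, hk _ _ _ _ ι₂ _ k1 k2 k3, ite_self, mul_zero]

lemma xi {ψ : Fe j (G.EE.prod W.sp)} {Ξ : Fe (j + 1) (G.BB.prod W.sp)} (h : G.IsXi ψ Ξ)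
    (hk : ∀ (L L₁ : Fld K) (ι : L₁ →ₐ[K] L) (t : G.A3.pt L₁) (w : d.X L), Spl q j ι w →
      ψ.v L (G.A3.map ι t, some w) = 0)
    (t : G.A3.pt L₁) {w : d.X L} (hw : Spl q (j + 1) ι w) : Ξ.v L (G.A3.map ι t, some w) = 0 := by
  by_contra h0
  obtain ⟨g, m, mw⟩ := Ξ.supp _ _ h0
  obtain ⟨y, y', b, h1, h2, h3, h4, h5, h6, h7⟩ := (G.BB.map_iff ι t).1 m
  have et : G.A3.map ι t = ((G.pt L (xz.map ι y), G.pt L (xz.map ι y')),
      span L {mapV ι.toRingHom b}) :=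
    Prod.ext (Prod.ext ((congrArg _ h3).trans (GD.map_pt ι y))
      ((congrArg _ h4).trans (GD.map_pt ι y'))) ((congrArg _ h6).trans (smap_single _ _))
  rw [et] at h0
  refine h0 (hasS_zero (h L _ _ _ w 1 g ((GD.cn_map ι).2 h1) ((GD.cn_map ι).2 h2)
    (mt (mapV_eq_zero _).1 h5) (et ▸ m) (W.sp_some.1 mw) one_ne_zero fun n => ?_) fun O => ?_)
  · rcases h7 with rfl | ⟨rfl, -⟩
    · rw [one_smul, GD.sv_map]
    · exact absurd rfl n
  by_cases hO : Pl.Triv ι O.1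
  · rw [ordv_triv hO O.2.1, ordv_nu hO O.2.1, ordv_nu hO O.2.1,
      Pl.ord_eq_zero_of_mem one_ne_zero (one_mem _) (by simp)]
    simp
  · refine mul_eq_zero_of_right _ ((congrArg (fun z => ψ.v _ (G.A3.red O.1 z,
      (d.amb K).red O.1 (some w))) et.symm).trans ?_)
    rw [G.A3.red_map (Pl.over_comap ι O.1)]
    by_contra h8
    obtain ⟨-, -, w', e, -⟩ := ψ.supp _ _ h8
    have e' : (d.amb K).red O.1 (some w) = some w' := e
    rw [e', ← ((Cd.lift_pl O.1).1 (Cd.lift_of_red e')).2] at h8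
    exact h8 (hk _ _ _ _ _ (hw.red hO))

end YKp

theorem YK_thm {K : Type} [Field K] [YB K] : YK K where
  kills := by
    rintro G d W j φ Ψ ⟨ψ, Ξ, h1, h2, h3⟩ q hk L L₁ L₂ ι₁ ι₂ s w k1 k2 k3
    by_contra h0
    obtain ⟨π, hπ⟩ := YB.lift ((G.X2.map_iff ι₁ s).1 (Ψ.supp _ _ h0).2.1)
    exact h0 ((h3 L (G.A3.map ι₁ (s, π)) w ((G.BB.map_iff ι₁ _).2 hπ)).trans
      (YKp.xi h2 (fun _ _ _ t _ hw => YKp.psi h1 hk t hw) _ ⟨L₂, ι₂, k1, k2, k3⟩))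

end Pool.Agent.Lib.MP_557161_ag.HG
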