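import Pool.Agent.Lib.MP_557161_ag.HG.YP1

/-!
The place of the blow-up of a rational point.
-/

namespace Pool.Agent.Lib.MP_557161_ag.HG

open Pool.Agent.Lib.MP_557161_ag.DL MvPolynomial Submodule

variable {K : Type} [Field K] {G : GD K} {L M : Fld K} {j : ℕ} {α : L →ₐ[K] M} {y : xz.X M}
  {μ i₁ i₂ : Option (Fin 3)}

lemma YP_gl (α : L →ₐ[K] M) {κ : Type} (T : κ → M) (a : L) : α a ∈ gen α T :=
  IntermediateField.subset_adjoin _ _ (Or.inl ⟨a, rfl⟩)

lemma YP_gr (α : L →ₐ[K] M) {κ : Type} (T : κ → M) (a : κ) : T a ∈ gen α T :=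
  IntermediateField.subset_adjoin _ _ (Or.inr ⟨a, rfl⟩)

lemma YP_poly [XG K] (hy : G.GenU j α y) {k : Fin 3} (I : YPI (some k) μ i₁ i₂) {R : xz.X L}
    (hR : G.Cn L R) (hk : R.1 k ≠ 0) (hn : YPn G (YPc R) μ ≠ 0) {D : Option (Fin 3) → M}
    (hD : ∀ s, YPc (G.scl (α (R.1 k) / y.1 k) y) s = α (YPc R s) + D s) {M₀ : Fld K}
    {α₀ : L →ₐ[K] M₀} {β : M₀ →ₐ[K] M} (e : β.comp α₀ = α) {T : Bool → M₀}
    (hT : ∀ b, β (T b) = D (bif b then i₂ else i₁)) :
    ∃ (x : Option (Fin 3) → M₀) (h : Polynomial M₀),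
      (∀ s, x s = α₀ (YPc R s) ∨ ∃ b, x s = α₀ (YPc R s) + T b) ∧ Gen β (D μ) ∧
      h.coeff 0 = aeval x (YPH G) ∧ h.coeff 1 = YPn G x μ ∧ h.coeff 1 ≠ 0 ∧
      h.eval₂ β.toRingHom (D μ) = 0 ∧ (∀ O : Pl M₀, (∀ s, x s ∈ O.O) → ∀ n, h.coeff n ∈ O.O) ∧
      (gen α₀ T = ⊤ → ∀ g : Polynomial M₀, g.eval₂ β.toRingHom (D μ) = 0 → h ∣ g) := by
  obtain ⟨n1, n2, n3, n4, n5, n6⟩ := I.ne
  have hyk := hy.mem.1.2 k
  set Y := YPc (G.scl (α (R.1 k) / y.1 k) y) with hY
  have eα : ∀ c, β (α₀ c) = α c := fun c => by rw [← e]; rfl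
  have hDk : D (some k) = 0 := left_eq_add.1 ((div_mul_cancel₀ _ hyk).symm.trans (hD (some k)))
  let x : Option (Fin 3) → M₀ := fun s =>
    α₀ (YPc R s) + if s = i₂ then T true else if s = i₁ then T false else 0
  have hx : ∀ s, β (x s) + (if s = μ then D μ else 0) = Y s := fun s => by
    rw [hD]
    rcases I.all s with rfl | rfl | rfl | rfl <;> simp [x, n4.symm, n5.symm, *]
  let P : Option (Fin 3) → Polynomial M₀ := fun s =>
    Polynomial.C (x s) + Polynomial.X * if s = μ then 1 else 0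
  let ψ : Polynomial M₀ →ₐ[K] M := Polynomial.aevalTower β (D μ)
  have hψ : ∀ s, ψ (P s) = Y s := fun s => by
    rw [← hx]
    simp only [ψ, P, map_add, map_mul, Polynomial.aevalTower_C, Polynomial.aevalTower_X]
    split_ifs <;> simp
  obtain ⟨t, -, ht⟩ := YP_taylor (⊤ : Subring (Polynomial M₀)) (fun _ => trivial)
    (x := fun s => Polynomial.C (x s)) (v := fun s => if s = μ then 1 else 0) (ρ := Polynomial.X)
    (fun _ => trivial) (fun _ => trivial) trivial (YPH G)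
  have eC : ∀ f, aeval (fun s => Polynomial.C (x s)) f = Polynomial.C (aeval x f) := fun f =>
    (comp_aeval_apply _ (Polynomial.CAlgHom : M₀ →ₐ[K] _) f).symm
  simp only [eC, mul_ite, mul_one, mul_zero, Finset.sum_ite_eq', Finset.mem_univ, if_true] at ht
  have c1 : (aeval P (YPH G)).coeff 1 = YPn G x μ := by
    simp only [P, mul_ite, mul_one, mul_zero]
    rw [ht, YPn]
    generalize aeval x (YPH G) = a, aeval x (pderiv μ (YPH G)) = b
    simp [pow_two, mul_assoc, Polynomial.coeff_X_mul, Polynomial.coeff_C]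
  refine ⟨x, aeval P (YPH G), fun s => ?_, ?_, ?_, c1, c1 ▸ fun h0 => hn ?_, ?_, fun O hO => ?_,
    fun hg g h0 => ?_⟩
  · simp only [x]
    split_ifs
    exacts [.inr ⟨_, rfl⟩, .inr ⟨_, rfl⟩, .inl (add_zero _)]
  · let _ := ValA.alg β
    have _ := ValA.tower β
    rw [ValA.gen_iff, ← IntermediateField.restrictScalars_eq_top_iff (K := K), eq_top_iff, ← hy.top]
    set E := (IntermediateField.adjoin M₀ {D μ}).restrictScalars K
    have h1 : ∀ c, β c ∈ E := (IntermediateField.adjoin M₀ {D μ}).algebraMap_mem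
    have h2 : ∀ s, Y s ∈ E := fun s => hx s ▸ add_mem (h1 _) (by
      split_ifs
      exacts [IntermediateField.mem_adjoin_simple_self M₀ _, zero_mem _])
    have h3 : α (R.1 k) / y.1 k ∈ E := by simpa [hY, YPc, GD.scl, hy.mem.2.1] using h2 (some 0)
    have h4 := div_ne_zero ((map_ne_zero α).2 hk) hyk
    refine IntermediateField.adjoin_le_iff.2 (Set.union_subset ?_ ?_)
    · rintro _ ⟨c, rfl⟩
      exact eα c ▸ h1 _
    · rintro _ ⟨i | i, rfl⟩
      · exact (mul_div_cancel_left₀ (y.1 i) h4).subst (motive := (· ∈ E)) (div_mem (h2 (some i)) h3)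
      · exact (mul_div_cancel_left₀ y.2 (pow_ne_zero G.e h4)).subst (motive := (· ∈ E))
          (div_mem (h2 none) (pow_mem h3 _))
  · simp only [P, mul_ite, mul_one, mul_zero]
    rw [ht]
    generalize aeval x (YPH G) = a, aeval x (pderiv μ (YPH G)) = b
    simp [pow_two, mul_assoc]
  · have := YP_ker hy k hk (AlgHom.id K L) (x := YPc R) rfl
      (f := aeval (fun s => if s = μ then C (YPc R s) else X s) (pderiv μ (YPH G))) (by
        rw [comp_aeval_apply, ← map_zero β, ← h0, YPn, comp_aeval_apply]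
        congr 2
        funext s
        split_ifs with h
        · simp [x, h, n4, n5, eα]
        · rw [aevalTower_X, ← hY, ← hx, if_neg h, add_zero])
    rw [YP_cn hR, zero_dvd_iff, comp_aeval_apply] at this
    refine Eq.trans ?_ this
    congr 2
    funext s
    split_ifs <;> simp
  · refine (comp_aeval_apply _ ψ _).trans ?_
    rw [funext hψ]
    exact YP_cn (GD.Cn.scl ⟨Function.ne_iff.2 ⟨k, hyk⟩, hy.mem.2.2⟩
      (div_ne_zero ((map_ne_zero α).2 hk) hyk))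
  · have hC : ∀ c ∈ O.O, Polynomial.C c ∈ Polynomial.lifts O.O.subtype := fun c h =>
      Polynomial.C_mem_lifts O.O.subtype ⟨c, h⟩
    have : aeval P (YPH G) ∈ Polynomial.lifts O.O.subtype :=
      eval₂_mem (f := algebraMap K _) (v := P) (p := YPH G) (fun _ _ => hC _ (O.const _))
        fun s => add_mem (hC _ (hO s))
        (mul_mem (Polynomial.X_mem_lifts _) (by split_ifs; exacts [one_mem _, zero_mem _]))
    intro n
    obtain ⟨c, hc⟩ := (Polynomial.lifts_iff_coeff_lifts _).1 this n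
    exact hc ▸ c.2
  · let ι : L →ₐ[K] Polynomial M₀ := Polynomial.CAlgHom.comp α₀
    let Φ := aevalTower ι P
    have a1 : ∀ c, Polynomial.C (α₀ c) ∈ Φ.range := fun c => ⟨C c, aevalTower_C _ _ _⟩
    have a2 : ∀ s, P s - Polynomial.C (α₀ (YPc R s)) ∈ Φ.range := fun s =>
      sub_mem ⟨X s, aevalTower_X _ _ _⟩ (a1 _)
    have a3 : Algebra.adjoin K (Set.range α₀ ∪ Set.range T) ≤ Φ.range.comap Polynomial.CAlgHom := by
      refine Algebra.adjoin_le (Set.union_subset ?_ ?_)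
      · rintro _ ⟨c, rfl⟩
        exact a1 c
      · rintro _ ⟨_ | _, rfl⟩
        · simpa [P, x, n4.symm, n6] using a2 i₁
        · simpa [P, x, n5.symm] using a2 i₂
    have a4 : ∀ g : Polynomial M₀, ∃ c, c ≠ 0 ∧ Polynomial.C c ∈ Φ.range ∧ Polynomial.C c * g ∈ Φ.range :=
      fun g => by
      induction g using Polynomial.induction_on with
      | C a =>
        obtain ⟨r, h1, s, h2, rfl⟩ := IntermediateField.mem_adjoin_iff_div.1
          (show a ∈ gen α₀ T from hg ▸ IntermediateField.mem_top)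
        by_cases h : s = 0
        · exact ⟨1, one_ne_zero, by simp, by simp [h]⟩
        · exact ⟨s, h, a3 h2, by rw [← map_mul, mul_div_cancel₀ _ h]; exact a3 h1⟩
      | add f g hf hg =>
        obtain ⟨c, h1, h2, h3⟩ := hf
        obtain ⟨c', h4, h5, h6⟩ := hg
        refine ⟨c * c', mul_ne_zero h1 h4, map_mul Polynomial.C c c' ▸ mul_mem h2 h5, ?_⟩
        rw [map_mul, mul_add, mul_right_comm, mul_assoc _ _ g]
        exact add_mem (mul_mem h3 h5) (mul_mem h2 h6)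
      | monomial n a hf =>
        obtain ⟨c, h1, h2, h3⟩ := hf
        refine ⟨c, h1, h2, ?_⟩
        rw [pow_succ, ← mul_assoc, ← mul_assoc, mul_assoc _ _ (_ ^ n)]
        exact mul_mem h3 (by simpa [P, x, n4, n5] using a2 μ)
    obtain ⟨c, h1, -, f, h2⟩ := a4 g
    have h3 : ψ.comp Φ = aevalTower α Y := algHom_ext' (AlgHom.ext fun c => by simp [ψ, Φ, ι, eα])
      fun s => by simp [Φ, hψ]
    have := YP_ker hy k hk ι (x := P) (by simp [P, x, ι, YPc, *]) (f := f) (by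
      rw [← hY, ← h3, AlgHom.comp_apply, show Φ f = _ from h2, map_mul, show ψ g = 0 from h0, mul_zero])
    rwa [show aevalTower ι P f = _ from h2, (Polynomial.isUnit_C.2 h1.isUnit).dvd_mul_left] at this

lemma YP_drop {M₀ : Fld K} {α₀ : L →ₐ[K] M₀} {β : M₀ →ₐ[K] M} {U : Bool → M₀}
    (hU : Free j α₀ U) {O₀ : Dv M₀ (j + 1)}
    (H : ∀ O' : Dv M₀ (j + 1), O' ≠ O₀ → (∀ a, U a ∈ O'.1.O) → O'.1.rd (U true) = 0 → ∃ m, m < j + 1 ∧
      (O'.1.res.sub (gen (Pl.over_comap α₀ O'.1).resHom fun a => O'.1.rd (U a))).tr ≤ m)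
    {O : Pl M} (h : Pl.Triv (β.comp α₀) O) (hO : O.IsDVR) (hne : ¬ Pl.Over β O₀.1 O) (h0 : U true ≠ 0)
    (h1 : ∀ a, β (U a) ∈ O.O) (h2 : O.rd (β (U true)) = 0) :
    ∃ (L' : Fld K) (α' : L →ₐ[K] L') (κ : L' →ₐ[K] O.res) (u : L'),
      κ.comp α' = h.hom ∧ L'.tr ≤ j ∧ κ u = O.rd (β (U false)) := by
  have ov := Pl.over_comap β O
  set O₁ := Pl.comap β O
  have h3 : O₁.rd (U true) = 0 := (map_eq_zero ov.resHom).1 ((ov.resHom_rd _).trans h2)
  have h4 : O₁.O ≠ ⊤ := fun e =>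
    (O₁.rd_ne_zero_iff (h1 true)).2 ⟨h0, e ▸ ValuationSubring.mem_top _⟩ h3
  have h' : Pl.Triv α₀ O₁ := h
  let F := gen (Pl.over_comap α₀ O₁).resHom fun a => O₁.rd (U a)
  refine ⟨O₁.res.sub F, h'.hom.codRestrict F.toSubalgebra fun c => ?_, ov.resHom.comp F.val,
    ⟨_, YP_gr _ _ false⟩, AlgHom.ext fun c => ?_, ?_, ov.resHom_rd _⟩
  · rw [h'.hom_apply, ← (Pl.over_comap α₀ O₁).resHom_rd]
    exact YP_gl _ _ _
  · exact (congrArg ov.resHom (h'.hom_apply c)).trans ((ov.resHom_rd _).trans (h.hom_apply c).symm)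
  · by_cases e : O₁.res.tr = (j + 1 : ℕ)
    · obtain ⟨m, h5, h6⟩ := H ⟨O₁, ov.isDVR hO h4, e⟩ (fun e' => hne (e' ▸ ov)) h1 h3
      exact h6.trans (Nat.cast_le.2 (by omega))
    · have h5 := Pl.tr_res_lt O₁ h4 (n := j + 1 + 1) (hU.gM.2.trans (by simp [add_assoc, one_add_one_eq_two])).le
      rw [Nat.cast_add_one, Cardinal.lt_natCast_add_one_iff] at h5
      have h6 := h5.lt_of_ne e
      rw [Nat.cast_add_one, Cardinal.lt_natCast_add_one_iff] at h6
      exact (tr_le (L := O₁.res.sub F) F.val).trans h6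

theorem YP_thm [FA1 K] [FA2 K] [XA K] [XG K] [XH K] [YA K] : YP K where
  pt {G j L M α y} hy R hR := by
    obtain ⟨k, hk⟩ := Function.ne_iff.1 hR.1
    replace hk : R.1 k ≠ 0 := hk
    obtain ⟨μ, hμ, hn⟩ := YP_idx hR hk
    obtain ⟨i₁, i₂, I⟩ := YPI.ex _ _ hμ
    have hyk := hy.mem.1.2 k
    have ha := div_ne_zero ((map_ne_zero α).2 hk) hyk
    set a := α (R.1 k) / y.1 k with ea
    obtain ⟨D, hD⟩ : ∃ D : _ → M, ∀ s, YPc (G.scl a y) s = α (YPc R s) + D s :=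
      ⟨fun s => YPc (G.scl a y) s - α (YPc R s), fun s => (add_sub_cancel _ _).symm⟩
    have hDk : D (some k) = 0 := left_eq_add.1 ((div_mul_cancel₀ _ hyk).symm.trans (hD (some k)))
    have hH := YP_cn (GD.Cn.scl (YA.uu hy.mem) ha)
    rw [funext hD] at hH
    let T : Bool → M := fun b => D (bif b then i₂ else i₁)
    have c2 : Nat.card Bool = 2 := by simp
    obtain ⟨M₀, α₀, β, T₀, rfl, hT, hF⟩ := FA1.sub α T hy.gL (by
      obtain ⟨x, h, -, h1, -, -, h2, h3, -⟩ := YP_poly hy I hR hk hn hD (M₀ := M.sub (gen α T))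
        (α₀ := α.codRestrict (gen α T).toSubalgebra (YP_gl α T)) (β := (gen α T).val) rfl
        (T := fun b => ⟨T b, YP_gr α T b⟩) fun _ => rfl
      rw [← (h1.fin fun e => h2 (by rw [e h h3, Polynomial.coeff_zero])).tr_eq, c2, hy.gM.2])
    obtain ⟨x, h, hx, p1, p2, p3, -, p4, p5, p6⟩ := YP_poly hy I hR hk hn hD rfl hT
    have t0 : T₀ true ≠ 0 := map_zero α₀ ▸ (FA1.trans hF true).ne 0
    let U : Bool → M₀ := fun b => bif b then T₀ true else T₀ false / T₀ true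
    have eU : T₀ false = U false * U true := (div_mul_cancel₀ _ t0).symm
    have hU : Free j α₀ U := FA1.of_gen hF rfl fun b => by
      cases b
      exacts [eU ▸ mul_mem (YP_gr α₀ U _) (YP_gr α₀ U _), YP_gr α₀ U true]
    obtain ⟨O₀, h₀, z1, z2, z3, z4, z5⟩ := FA2.zero hU (i := j + 1) (by rw [c2]) true
    have rx : ∀ s, (Rel.ofPl O₀.1).r (x s) (h₀.hom (YPc R s)) := fun s => by
      have r0 : (Rel.ofPl O₀.1).r (α₀ (YPc R s)) (h₀.hom (YPc R s)) := ⟨h₀ _, (h₀.hom_apply _).symm⟩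
      rcases hx s with e | ⟨_ | _, e⟩ <;> rw [e]
      · exact r0
      · simpa [eU] using (Rel.ofPl O₀.1).add r0 ((Rel.ofPl O₀.1).mul ⟨z1 false, rfl⟩ ⟨z1 true, z3⟩)
      · simpa [U] using (Rel.ofPl O₀.1).add r0 ⟨z1 true, z3⟩
    have ra : ∀ P, O₀.1.rd (aeval x P) = h₀.hom (aeval (YPc R) P) := fun P =>
      (Rel.aeval rx P).2.trans (aeval_mapV h₀.hom _ P)
    obtain ⟨O, ov, w1, w2, w3, w4, w5⟩ := XH.hen O₀ (D μ) h (by simpa using hF.gM) p1
      (p5 _ fun s => (rx s).1) (by rw [p2, ra, YP_cn hR, map_zero])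
      (by rw [p3, YPn, ra]; exact (map_ne_zero _).2 hn) fun g => ⟨p6 hF.top g, fun ⟨c, e⟩ => by
        rw [e, Polynomial.eval₂_mul, p4, zero_mul]⟩
    have ht : Pl.Triv (β.comp α₀) O.1 := fun c => (ov _).1 (h₀ c)
    have eh : ov.resHom.comp h₀.hom = ht.hom := AlgHom.ext fun c =>
      (congrArg ov.resHom (h₀.hom_apply c)).trans ((ov.resHom_rd _).trans (ht.hom_apply c).symm)
    have d2 : β (U true) = D i₂ := hT true
    have d0 : D i₂ ≠ 0 := d2 ▸ (map_ne_zero β).2 t0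
    have d1 : β (U false) = D i₁ / D i₂ := by rw [← d2]; exact (map_div₀ β _ _).trans (by rw [hT]; rfl)
    have d3 : D i₂ ∈ O.1.O := d2 ▸ (ov _).1 (z1 true)
    have d4 : O.1.rd (D i₂) = 0 := by rw [← d2, ← ov.resHom_rd, z3, map_zero]
    have d5 : D i₁ / D i₂ ∈ O.1.O := d1 ▸ (ov _).1 (z1 false)
    have tan := fun {O : Pl M} (h : Pl.Triv (β.comp α₀) O) {ρ} h0 h1 h2 hw =>
      YP_tan h (YP_cn hR) (w := fun s => D s / ρ) (ρ := ρ) h0 h1 h2 hw
        (by simpa only [mul_div_cancel₀ _ h0] using hH)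
    have d6 : D μ / D i₂ ∈ O.1.O := by
      by_contra e
      have e0 : D μ ≠ 0 := fun e' => e (by rw [e', zero_div]; exact zero_mem _)
      have e1 : D i₂ / D μ ∈ O.1.O := inv_div (D μ) _ ▸ (O.1.O.mem_or_inv_mem _).resolve_left e
      have e2 : O.1.rd (D i₂ / D μ) = 0 :=
        by_contra fun e' => e (inv_div (D i₂) _ ▸ ((O.1.rd_ne_zero_iff e1).1 e').2)
      have e3 : D i₁ / D μ = D i₁ / D i₂ * (D i₂ / D μ) := by field_simp
      have := tan ht e0 w1 w2 fun s => by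
        rcases I.all s with rfl | rfl | rfl | rfl
        exacts [by simp [hDk], by simp [e0], e3 ▸ mul_mem d5 e1, e1]
      rw [I.sum, e3, O.1.rd_mul d5 e1, e2, hDk, div_self e0] at this
      simp [hn] at this
    have d7 : ∀ s, D s / D i₂ ∈ O.1.O := fun s => by
      rcases I.all s with rfl | rfl | rfl | rfl
      exacts [by simp [hDk], d6, d5, by simp [d0]]
    let _ : Unique {b : Bool // b ≠ true} := ⟨⟨⟨false, by decide⟩⟩, by decide⟩
    obtain ⟨-, g1, g2⟩ := FA1.one.1 z4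
    have g3 : ov.resHom (O₀.1.rd (U false)) = O.1.rd (D i₁ / D i₂) := by rw [ov.resHom_rd, d1]
    refine ⟨O, ht, _, _, O.1.rd (D i₁ / D i₂), a, D i₂, YPv fun s => D s / D i₂, YP_frm I hR hk hn,
      g3 ▸ eh ▸ Trans'.of_map.2 g1, fun z => ?_, ha, by rw [← d2, w3, z2],
      ⟨fun i => d7 _, d7 none⟩, ?_, ?_, fun O' h' a' ρ v hO hne ha' h1 h2 hv e h0 => ?_⟩
    · obtain ⟨z, rfl⟩ := w4 z
      obtain ⟨P, Q, h1, h2⟩ := g2 z
      refine ⟨P, Q, ?_⟩
      rw [← g3, ← eh, ← ValA.map_eval₂, ← ValA.map_eval₂, ← map_mul]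
      exact ⟨(map_ne_zero _).2 h1, congrArg _ h2⟩
    · have e : ∀ s, YPc (G.scl a y) s = β (α₀ (YPc R s)) + D i₂ * (D s / D i₂) := fun s => by
        rw [mul_div_cancel₀ _ d0]
        exact hD s
      exact Prod.ext (funext fun i => e (some i)) (e none)
    · exact (YP_tv I ht.hom hn (w := fun s => O.1.rd (D s / D i₂)) (by simp [hDk])
        (tan ht d0 d3 d4 d7)).trans (by simp [d0])
    · have e1 : G.scl a y = G.scl (a / a') (mv (xz.map (β.comp α₀) R) ρ v) := by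
        rw [← e]
        exact Prod.ext (by simp [GD.scl, smul_smul, ha'])
          (by simp only [GD.scl, ← mul_assoc, ← mul_pow, div_mul_cancel₀ _ ha'])
      obtain ⟨w, q1, q2, q3⟩ := YP_near h' hR hk h1 h2 hv (l := a / a')
        ((congrFun (congrArg YPc e1) (some k)).symm.trans ((hD _).trans (by rw [hDk, add_zero]; rfl)))
      have q4 : ∀ s, D s = ρ * w s := fun s => add_left_cancel ((hD s).symm.trans (e1 ▸ q1 s))
      have q5 : ρ ≠ 0 := left_ne_zero_of_mul (q4 i₂ ▸ d0)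
      have q6 : ∀ s, D s ∈ O'.O ∧ O'.rd (D s) = 0 := fun s => by
        rw [q4, O'.rd_mul h1 (q2 s), h2, zero_mul]
        exact ⟨mul_mem h1 (q2 s), rfl⟩
      rw [← q3, YP_tv I h'.hom hn
        (by rw [(mul_eq_zero.1 ((q4 _).symm.trans hDk)).resolve_left q5, O'.rd_zero])
        (YP_tan h' (YP_cn hR) q5 h1 h2 q2 (by simpa only [← q4] using hH))] at h0 ⊢
      by_cases hw : O'.rd (w i₂) = 0
      · rw [hw, zero_smul, zero_add] at h0 ⊢
        exact ⟨L, .id K L, h'.hom, _, rfl, hy.gL.2.le, (smap_single _ _).trans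
          (span_singleton_smul_eq (left_ne_zero_of_smul h0).isUnit _).symm⟩
      · have q7 := Rel.div (R := .ofPl O') ⟨q2 i₁, rfl⟩ ⟨q2 i₂, rfl⟩ hw
        rw [← mul_div_mul_left _ _ q5, ← q4, ← q4, ← d1] at q7
        obtain ⟨L', α', κ, u, q8, q9, hu⟩ := YP_drop hU z5 h' hO
          (fun ov' => hne (w5 O' ov' (q6 μ).1 (q6 μ).2)) t0
          (fun b => by cases b; exacts [q7.1, d2 ▸ (q6 _).1]) (d2 ▸ (q6 _).2)
        refine ⟨L', α', κ, span L' {mapV α' (G.tv R (YPv (YPf (YPn G (YPc R)) μ i₂))) +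
          u • mapV α' (G.tv R (YPv (YPf (YPn G (YPc R)) μ i₁)))}, q8, q9, (smap_single _ _).trans ?_⟩
        rw [← span_singleton_smul_eq (Ne.isUnit hw), mapV_add, mapV_smul, smul_add, smul_smul, ← q8,
          show κ.toRingHom u = _ from hu.trans q7.2, mul_div_cancel₀ _ hw]
        rfl

end Pool.Agent.Lib.MP_557161_ag.HG
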