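import Pool.Agent.Lib.MP_557161_ag.HG.StZ

/-!
The unfolding lemma of the forms of Frobenius, generated once.
-/

namespace Pool.Agent.Lib.MP_557161_ag.HG.Once

theorem unfold_once : True := by
  have := @Pool.Agent.Lib.MP_557161_ag.HG.phi.eq_def
  have := @Pool.Agent.Lib.MP_557161_ag.HG.phi.eq_1
  have := @Pool.Agent.Lib.MP_557161_ag.HG.phi.eq_2
  trivial

end Pool.Agent.Lib.MP_557161_ag.HG.Once
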