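import Pool.Agent.Lib.MP_557161_ag.HG.StZ
import Pool.Agent.Lib.MP_557161_ag.HG.Once

/-!
The sum of the diagrams, by extension of polynomial identities.
-/

namespace Pool.Agent.Lib.MP_557161_ag.HG

open Polynomial

/-- Functions of linear forms that are polynomial on lines and see only bounded degrees. -/
def ZAP (F : (ℂ[X] →ₗ[ℂ] ℂ) → ℂ) : Prop :=
  (∀ τ ρ, ∃ p : ℂ[X], ∀ t : ℂ, F (τ + t • ρ) = p.eval t) ∧
    ∃ M : ℕ, ∀ τ τ', (∀ g : ℂ[X], g.natDegree ≤ M → τ g = τ' g) → F τ = F τ'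

variable {F F' : (ℂ[X] →ₗ[ℂ] ℂ) → ℂ}

lemma ZAP.const (c : ℂ) : ZAP fun _ => c := ⟨fun _ _ => ⟨C c, by simp⟩, 0, fun _ _ _ => rfl⟩

lemma ZAP.app (g : ℂ[X]) : ZAP fun τ => τ g :=
  ⟨fun τ ρ => ⟨C (τ g) + X * C (ρ g), fun t => by simp [mul_comm t]⟩, _, fun _ _ h => h g le_rfl⟩

lemma ZAP.op (f : ℂ → ℂ → ℂ) (f' : ℂ[X] → ℂ[X] → ℂ[X])
    (e : ∀ p q t, (f' p q).eval t = f (p.eval t) (q.eval t)) (h : ZAP F) (h' : ZAP F') :
    ZAP fun τ => f (F τ) (F' τ) := by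
  obtain ⟨h1, M, h2⟩ := h
  obtain ⟨h3, M', h4⟩ := h'
  refine ⟨fun τ ρ => ?_, max M M', fun τ τ' h => ?_⟩
  · obtain ⟨p, hp⟩ := h1 τ ρ
    obtain ⟨q, hq⟩ := h3 τ ρ
    exact ⟨f' p q, fun t => by simp only [e, hp, hq]⟩
  · simp only [h2 τ τ' fun g e => h g (le_max_of_le_left e), h4 τ τ' fun g e => h g (le_max_of_le_right e)]

lemma ZAP.mul (h : ZAP F) (h' : ZAP F') : ZAP fun τ => F τ * F' τ :=
  h.op (· * ·) (· * ·) (fun _ _ _ => eval_mul) h'

lemma ZAP.sub (h : ZAP F) (h' : ZAP F') : ZAP fun τ => F τ - F' τ :=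
  h.op (· - ·) (· - ·) eval_sub h'

lemma ZAP.sum {ι : Type} (s : Finset ι) {f : ι → (ℂ[X] →ₗ[ℂ] ℂ) → ℂ} (h : ∀ i, ZAP (f i)) :
    ZAP fun τ => ∑ i ∈ s, f i τ := by
  classical
  induction s using Finset.induction_on with
  | empty => exact .const 0
  | insert a s ha ih =>
    simp only [Finset.sum_insert ha]
    exact (h a).op (· + ·) (· + ·) (fun _ _ _ => eval_add) ih

lemma ZAP.phi (k : ℕ) (h : Fin k → ℂ[X]) : ZAP fun τ => phi τ k h := by
  induction k with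
  | zero => exact .const 1
  | succ k ih => exact ((ZAP.app _).mul (ih _)).sub (.sum _ fun _ => ih _)

lemma ZA_ev (lam lam' : ℕ → ℕ → ℂ) (r : ℕ) (τ : Tw r → Tw r) (e : Tw r → ℕ) :
    (ev lam r τ e).2 = (ev lam' r τ e).2 := by
  induction r with
  | zero => rfl
  | succ r ih => exact ih _ _

lemma ZAP.ev {lam : (ℂ[X] →ₗ[ℂ] ℂ) → ℕ → ℕ → ℂ} (h : ∀ x y, ZAP fun σ => lam σ x y) (r : ℕ)
    (τ : Tw r → Tw r) (e : Tw r → ℕ) : ZAP fun σ => (ev (lam σ) r τ e).1 := by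
  induction r with
  | zero => exact .const 1
  | succ r ih =>
    refine ZAP.mul ?_ (ih _ _)
    split_ifs
    exacts [h _ _, .const 1]

lemma ZAP.zero (h : ZAP F) (τ₀ : ℂ[X] →ₗ[ℂ] ℂ)
    (h0 : ∀ (O : Type) [Fintype O] (u : O → ℂ), F (τ₀ + ∑ o, leval (u o)) = 0) (τ : ℂ[X] →ₗ[ℂ] ℂ) :
    F τ = 0 := by
  classical
  have key : ∀ (s : Finset ℂ) (c : ℂ → ℂ) (O : Type) [Fintype O] (u : O → ℂ),
      F (τ₀ + ∑ v ∈ s, c v • leval v + ∑ o, leval (u o)) = 0 := fun s c => by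
    induction s using Finset.induction_on with
    | empty => simpa using h0
    | insert a s ha ih =>
      intro O _ u
      obtain ⟨p, hp⟩ := h.1 (τ₀ + ∑ v ∈ s, c v • leval v + ∑ o, leval (u o)) (leval a)
      have : p = 0 := p.eq_zero_of_infinite_isRoot ((Set.infinite_range_of_injective
        (Nat.cast_injective (R := ℂ))).mono (by
          rintro _ ⟨n, rfl⟩
          refine (hp n).symm.trans (Eq.trans (congrArg F ?_) (ih _ (Sum.elim u fun _ : Fin n => a)))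
          simp [add_assoc, Nat.cast_smul_eq_nsmul]))
      rw [Finset.sum_insert ha, add_comm (c a • _), ← add_assoc, add_right_comm, hp, this, eval_zero]
  obtain ⟨M, hM⟩ := h.2
  obtain ⟨s, hs⟩ := Infinite.exists_subset_card_eq ℂ (M + 1)
  refine (hM _ _ fun g hg => ?_).trans (key s (fun v => (τ - τ₀) (Lagrange.basis s id v)) Empty nofun)
  have e := Lagrange.eq_interpolate (s := s) (v := id) (f := g) (Set.injOn_id _)
    (degree_le_natDegree.trans_lt (Nat.cast_lt.2 (by omega)))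
  have e' := congrArg (τ - τ₀) e
  simp only [Lagrange.interpolate_apply, ← smul_eq_C_mul, map_sum, map_smul, smul_eq_mul, id] at e'
  simp only [Finset.univ_eq_empty, Finset.sum_empty, add_zero, LinearMap.add_apply, LinearMap.sum_apply,
    LinearMap.smul_apply, leval_apply, smul_eq_mul, mul_comm _ (g.eval _), ← e']
  simp

lemma ZA_phi {σ σ' : ℂ[X] → ℂ} (e : ∀ g : ℂ[X], g.eval 2 = 0 → σ g = σ' g) (k : ℕ)
    (h : Fin k → ℂ[X]) (h2 : ∀ i, (h i).eval 2 = 0) : phi σ k h = phi σ' k h := by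
  induction k with
  | zero => rfl
  | succ k ih =>
    rw [phi, phi, e _ (h2 0), ih (Fin.tail h) fun i => h2 i.succ]
    refine congrArg _ (Finset.sum_congr rfl fun i _ => ih _ fun j => ?_)
    rw [Function.update_apply]
    split_ifs
    exacts [by rw [eval_mul, h2, zero_mul], h2 _]

lemma ZA_C {x : ℂ} (hx : x ≠ 0) (m : ℕ) : (chC m).eval (x + x⁻¹) = x ^ m + x⁻¹ ^ m := by
  induction m using Nat.twoStepInduction with
  | zero => simp [one_add_one_eq_two]
  | one => simp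
  | more m h1 h2 =>
    push_cast at h2 ⊢
    rw [chC, Chebyshev.C_add_two, eval_sub, eval_mul, eval_X, h1, h2]
    linear_combination (x ^ m + x⁻¹ ^ m) * mul_inv_cancel₀ hx

theorem ZA_thm [ZA1] : ZA where
  frob r₀ := by
    obtain ⟨r, sd, E, h1, h2, h3⟩ := ZA1.mod r₀
    refine ⟨r, sd, E, h1, h2, fun a => (h3 a).imp fun e he q P σ hq hP => ?_⟩
    obtain rfl : P = fun m : ℕ => q ^ m * σ (chC m) :=
      funext fun m => by rw [hP, mul_div_cancel₀ _ (pow_ne_zero _ hq)]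
    refine sub_eq_zero.1 (ZAP.zero (F := fun σ => dsum E (lamP q fun m : ℕ => q ^ m * σ (chC m)) q e -
      _ * phi σ r₀ (chD a)) (.sub (.sum _ fun π => .mul (.const _) ?_) (.mul (.const _) (.phi _ _)))
      ((2 : ℂ)⁻¹ • leval 2) (fun O _ u => ?_) σ)
    · simp only [ZA_ev _ 0]
      exact .mul (.ev (fun x y => .mul (.const _) (.mul (.const _) (.app _))) _ _ _) (.const _)
    · have : ∀ u : ℂ, ∃ x : ℂ, x ≠ 0 ∧ x + x⁻¹ = u := fun u => by
        obtain ⟨s, hs⟩ := IsAlgClosed.exists_eq_mul_self (u ^ 2 - 4)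
        have e : (u + s) / 2 * ((u - s) / 2) = 1 := by linear_combination hs / 4
        exact ⟨_, left_ne_zero_of_mul_eq_one e, by rw [← eq_inv_of_mul_eq_one_right e]; ring⟩
      choose x h4 h5 using this
      rw [sub_eq_zero, ZA_phi (σ' := fun h => ∑ o, h.eval (x (u o) + (x (u o))⁻¹))
        (fun g hg => by simp [h5, hg]) _ _ fun i => by simp only [chD, eval_sub, Chebyshev.C_eval_two, sub_self],
        ← he O (fun o => x (u o)) q hq fun o => h4 _]
      simp only [← ZA_C (h4 _), h5]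
      simp [Chebyshev.C_eval_two]

end Pool.Agent.Lib.MP_557161_ag.HG
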