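import Pool.Agent.Lib.MP_557161_ag.HG.XC1

/-!
The colouring model.
-/

namespace Pool.Agent.Lib.MP_557161_ag.HG

namespace XCa

open Finset Sum

/-- The slots on one side. -/
abbrev Lm (m : ℕ) : Type := Unit ⊕ Fin m ⊕ Fin m

/-- The left and the right slots. -/
def slot (m : ℕ) : Lm m ⊕ Lm m → Tw (m + m) :=
  Sum.elim (Sum.elim (fun _ => op _ true) (Sum.elim (sl _ · false) (sl _ · true)))
    (Sum.elim (fun _ => op _ false)
      (Sum.elim (fun k => sl _ (m + k) true) fun k => sl _ (m + k) false))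

theorem lt_two {m : ℕ} {q : ℕ → Prop} (h : ∀ k : Fin m, q k) (h' : ∀ k : Fin m, q (m + k)) (k : ℕ)
    (hk : k < m + m) : q k := by
  rcases lt_or_ge k m with h1 | h1
  · exact h ⟨k, h1⟩
  · obtain ⟨k, rfl⟩ := Nat.exists_eq_add_of_le h1
    exact h' ⟨k, by omega⟩

theorem slot_bij (m : ℕ) : Function.Bijective (slot m) := by
  refine (Nat.bijective_iff_surjective_and_card _).2 ⟨fun t => ?_, by rw [card_tw]; simp; ring⟩
  rcases slots _ t with ⟨_ | _, rfl⟩ | ⟨k, h, b, rfl⟩
  · exact ⟨inr (inl ()), rfl⟩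
  · exact ⟨inl (inl ()), rfl⟩
  refine lt_two (q := fun k => ∃ a, slot m a = sl _ k b) (fun k => ?_) (fun k => ?_) k h <;> cases b
  exacts [⟨inl (inr (inl k)), rfl⟩, ⟨inl (inr (inr k)), rfl⟩, ⟨inr (inr (inr k)), rfl⟩,
    ⟨inr (inr (inl k)), rfl⟩]

variable {T B κ : Type} (E : κ ⊕ κ ≃ T) (π : Equiv.Perm κ)

theorem tp_l (i : κ) : tp E π (E (inl i)) = E (inr (π i)) := by simp [tp]

theorem tp_r (i : κ) : tp E π (E (inr i)) = E (inl (π.symm i)) := by simp [tp]

theorem inv_tp : Inv (tp E π) := fun t => by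
  obtain ⟨i | i, rfl⟩ := E.surjective t <;> simp [tp_l, tp_r]

variable {s : B → B} {o : Bool → B} {P : Finset B}

theorem cp_tp (hs : ∀ x, s (s x) = x) (c : T → B) : (∀ t, c (tp E π t) = s (c t)) ↔
    ∀ i, c (E (inr (π i))) = s (c (E (inl i))) := by
  refine ⟨fun h i => by rw [← h, tp_l], fun h t => ?_⟩
  obtain ⟨i | i, rfl⟩ := E.surjective t
  · rw [tp_l, h]
  · rw [tp_r, ← hs (c _), ← h, Equiv.apply_symm_apply]

open Classical in
theorem det_eq {m : ℕ} (hs : ∀ x, s (s x) = x) (ho : ∀ b, s (o b) = o !b) {I : B → Prop}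
    (h1 : ∀ x, I x → ¬ I (s x)) (h2 : ∀ b, ¬ I (o b)) {c : Tw (m + m) → B}
    (hm : Mt s o _ c) (hc : ∀ k, k < m + m → I (c (sl _ k false))) :
    (Matrix.of fun j i => if c (slot m (inr j)) = s (c (slot m (inl i))) then (1 : ℤ) else 0).det =
      (Matrix.of fun j i : Fin m =>
        if c (sl _ (m + j) false) = c (sl _ i false) then (1 : ℤ) else 0).det ^ 2 := by
  have a1 : ∀ k : Fin m, I (c (sl _ k false)) := fun k => hc _ (by omega)
  have a2 : ∀ k : Fin m, I (c (sl _ (m + k) false)) := fun k => hc _ (by omega)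
  have a3 : ∀ k : Fin m, c (sl _ k true) = s (c (sl _ k false)) := fun k => hm.2 _ (by omega)
  have a4 : ∀ k : Fin m, c (sl _ (m + k) true) = s (c (sl _ (m + k) false)) :=
    fun k => hm.2 _ (by omega)
  have b0 : ∀ {x y}, s x = s y ↔ x = y := (Function.Involutive.injective hs).eq_iff
  have b1 : ∀ {x} b, I x → x ≠ o b := fun b h e => h2 b (e ▸ h)
  have b2 : ∀ {x} b, I x → s x ≠ o b := fun b h e => b1 (!b) h (by rw [← ho, ← e, hs])
  have b3 : ∀ {x y}, I x → I y → x ≠ s y := fun h h' e => h1 _ h' (e ▸ h)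
  set N := Matrix.of fun j i : Fin m =>
    if c (sl _ (m + j) false) = c (sl _ i false) then (1 : ℤ) else 0 with hN
  rw [show (Matrix.of fun j i => if c (slot m (inr j)) = s (c (slot m (inl i))) then (1 : ℤ) else 0)
    = Matrix.fromBlocks 1 0 0 (Matrix.fromBlocks N 0 0 N) from ?_, Matrix.det_fromBlocks_zero₂₁,
    Matrix.det_fromBlocks_zero₂₁, Matrix.det_one, one_mul, sq]
  ext (j | j | j) (i | i | i) <;>
    simp [slot, hN, hm.1, ho, hs, a3, a4, b0, b1 _ (a2 _), b2 _ (a2 _), (b1 _ (a1 _)).symm,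
      (b2 _ (a1 _)).symm, b3 (a2 _) (a1 _), (b3 (a1 _) (a2 _)).symm]

open Classical in
theorem main [Fintype B] [Fintype κ] [DecidableEq κ] {m : ℕ} (ε : κ ≃ Lm m) (hs : ∀ x, s (s x) = x)
    (ho : ∀ b, s (o b) = o !b) (z : B → ℂ) (hz : ∀ x, z x ≠ 0) (H : ℂ → Prop)
    (h0 : ∀ x, H (z x) → x ∈ P) (h1 : ∀ x, H (z x) → ¬ H (z (s x))) (h2 : ∀ b, ¬ H (z (o b)))
    (f : Fin m → B) (hf : Function.Injective f) (hf' : ∀ k, H (z (f k))) :
    ∃ e, Sep univ e ∧ ∑ π : Equiv.Perm κ, ((Equiv.Perm.sign π : ℤ) : ℂ) *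
      ∑ c with Col s o P _ (tp ((ε.sumCongr ε).trans (.ofBijective _ (slot_bij m))) π) c,
        ∏ t, z (c t) ^ e t ≠ 0 := by
  set E := (ε.sumCongr ε).trans (.ofBijective _ (slot_bij m))
  let A : (Tw (m + m) → B) → ℤ := fun c =>
    ∑ π : Equiv.Perm κ, Equiv.Perm.sign π * if Col s o P _ (tp E π) c then 1 else 0
  let G : (Tw (m + m) → B) → Prop := fun c => ∀ k, k < m + m → H (z (c (sl _ k false)))
  have a1 : ∀ c, G c → Mt s o _ c → A c = (Matrix.of fun j i : Fin m =>
      if c (sl _ (m + j) false) = c (sl _ i false) then (1 : ℤ) else 0).det ^ 2 := fun c hc hm => by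
    rw [← det_eq hs ho (I := fun x => H (z x)) h1 h2 hm hc, ← Matrix.det_submatrix_equiv_self ε,
      Matrix.det_apply']
    refine sum_congr rfl fun π _ => congrArg _ ?_
    simp only [Matrix.submatrix_apply, Matrix.of_apply, prod_boole, mem_univ, true_imp_iff]
    exact if_congr ⟨fun h => (cp_tp E π hs c).1 h.2.1, fun h => ⟨hm, (cp_tp E π hs c).2 h,
      lo_of _ _ _ fun k hk => h0 _ (hc k hk)⟩⟩ rfl rfl
  have a2 : 0 < ∑ c, A c * if G c then 1 else 0 := by
    let c₀ : Tw (m + m) → B := fun t => Sum.elim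
      (Sum.elim (fun _ => o true) (Sum.elim f fun k => s (f k)))
      (Sum.elim (fun _ => o false) (Sum.elim (fun k => s (f k)) f))
      ((Equiv.ofBijective _ (slot_bij m)).symm t)
    have b := fun a => congrArg (Sum.elim
      (Sum.elim (fun _ => o true) (Sum.elim f fun k => s (f k)))
      (Sum.elim (fun _ => o false) (Sum.elim (fun k => s (f k)) f)))
      ((Equiv.ofBijective _ (slot_bij m)).symm_apply_apply a)
    have b1 : ∀ k : Fin m, c₀ (sl _ k false) = f k := fun k => b (inl (inr (inl k)))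
    have b2 : ∀ k : Fin m, c₀ (sl _ (m + k) false) = f k := fun k => b (inr (inr (inr k)))
    have b3 : G c₀ := lt_two (fun k => b1 k ▸ hf' k) fun k => b2 k ▸ hf' k
    refine sum_pos' (fun c _ => ?_) ⟨c₀, mem_univ _, ?_⟩
    · split_ifs with hc
      · by_cases hm : Mt s o _ c
        · rw [a1 c hc hm, mul_one]
          exact sq_nonneg _
        · simp only [A, Col, hm, false_and, if_false, mul_zero, sum_const_zero, zero_mul, le_refl]
      · rw [mul_zero]
    · rw [if_pos b3, a1 c₀ b3 ⟨fun x => by cases x; exacts [b (inr (inl ())), b (inl (inl ()))],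
        lt_two (fun k => (b (inl (inr (inr k)))).trans (congrArg s (b1 k).symm))
          fun k => (b (inr (inr (inl k)))).trans (congrArg s (b2 k).symm)⟩]
      simp only [b1, b2, hf.eq_iff]
      rw [show (Matrix.of fun j i : Fin m => if j = i then (1 : ℤ) else 0) = 1 from by
        ext j i; simp [Matrix.one_apply]]
      simp
  obtain ⟨e, h3, h4⟩ := ex_e (fun (c : Tw (m + m) → B) t => z (c t)) (fun _ _ => hz _)
    (fun t v => if (∃ k, k < m + m ∧ t = sl _ k false) → H v then 1 else 0) univ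
    (fun c => (A c : ℂ)) fun h => a2.ne' (Int.cast_injective (α := ℂ) (by
      rw [Int.cast_zero, ← h, Int.cast_sum]
      refine sum_congr rfl fun c _ => ?_
      rw [Int.cast_mul, Int.cast_ite, Int.cast_one, Int.cast_zero, prod_boole]
      refine congrArg _ ?_
      by_cases hc : G c
      · rw [if_pos hc, if_pos fun t _ ⟨k, hk, e⟩ => e ▸ hc k hk]
      · rw [if_neg hc, if_neg fun h => hc fun k hk => h _ (mem_univ _) ⟨k, hk, rfl⟩]))
  refine ⟨e, h3, fun h => h4 (Eq.trans ?_ h)⟩
  simp only [A, Int.cast_sum, sum_mul, sum_filter, mul_sum]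
  rw [sum_comm]
  refine sum_congr rfl fun π _ => sum_congr rfl fun c _ => ?_
  split_ifs <;> simp

theorem half {n m : ℕ} (hn : n = 2 * m + 1) (α : Fin n → ℂ) {Q : ℂ} (s : Equiv.Perm (Fin n))
    (hQ : Q ≠ 0) (hs : ∀ i, α (s i) * α i = Q) (hu : {i | α i ^ 2 = Q}.Subsingleton) :
    ∃ (s' : Fin n → Fin n) (R : ℂ → ℂ → Prop) (f : Fin m → Fin n), (∀ i, s' (s' i) = i) ∧
      (∀ i, α (s' i) = Q / α i) ∧ (∀ x y, R x y → ¬ R y x) ∧ Function.Injective f ∧
      ∀ k, R (α (f k)) (Q / α (f k)) := by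
  obtain ⟨_, -⟩ := exists_wellOrder ℂ
  have a0 : ∀ i, α i ≠ 0 := fun i => right_ne_zero_of_mul (hs i ▸ hQ)
  have a1 : ∀ i, α (s i) = Q / α i := fun i => eq_div_of_mul_eq (a0 i) (hs i)
  have a2 : ∀ i, α (s.symm i) = Q / α i := fun i => eq_div_of_mul_eq (a0 i) (by
    rw [← hs (s.symm i), s.apply_symm_apply, mul_comm])
  have a3 : ∀ i, Q / (Q / α i) = α i := fun i => div_div_cancel₀ hQ
  have a4 : m ≤ #{i | α i < Q / α i} := by
    have b1 : #{i | Q / α i < α i} ≤ #{i | α i < Q / α i} :=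
      card_le_card_of_injOn s (fun i hi => by simpa [a1, a3] using hi) s.injective.injOn
    have b2 : #{i | α i = Q / α i} ≤ 1 := card_le_one.2 fun i hi j hj => hu
      ((sq _).trans ((eq_div_iff (a0 i)).1 (mem_filter.1 hi).2))
      ((sq _).trans ((eq_div_iff (a0 j)).1 (mem_filter.1 hj).2))
    have b3 := (card_le_card (s := univ) fun i _ => (by simpa using lt_trichotomy _ _ :
      i ∈ univ.filter (fun i => α i < Q / α i) ∪ (univ.filter (fun i => α i = Q / α i) ∪
        univ.filter fun i => Q / α i < α i))).trans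
      ((card_union_le _ _).trans (Nat.add_le_add_left (card_union_le _ _) _))
    rw [card_univ, Fintype.card_fin] at b3
    omega
  obtain ⟨f⟩ := Function.Embedding.nonempty_of_card_le (α := Fin m)
    (β := ({i | α i < Q / α i} : Finset _)) (by rwa [Fintype.card_fin, Fintype.card_coe])
  refine ⟨fun i => if α i < Q / α i then s i else if Q / α i < α i then s.symm i else i, (· < ·),
    fun k => f k, fun i => ?_, fun i => ?_, fun _ _ => lt_asymm,
    Subtype.val_injective.comp f.injective, fun k => (mem_filter.1 (f k).2).2⟩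
  · by_cases h : α i < Q / α i
    · simp [h, a1, a3, lt_asymm h]
    by_cases h' : Q / α i < α i
    · simp [h, h', a2, a3]
    · simp [h, h']
  · dsimp only
    split_ifs with h h'
    exacts [a1 i, a2 i, le_antisymm (not_lt.1 h') (not_lt.1 h)]

end XCa

open XCa Finset Sum in
theorem XC_thm : XC where
  inv := XCa.inv
  perm {n} α q hq h1 h2 := by
    classical
    have a0 : ∀ i, α i ≠ 0 := fun i => norm_pos_iff.1 (h1 i ▸ hq)
    have a := geom (ι := Fin n ⊕ Fin n) (Sum.elim 1 (-1)) (Sum.elim α fun i => star (α i))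
      (by simp [a0]) 1 fun m => by
        have := Complex.conj_eq_iff_im.2 (h2 (1 + m) (by omega))
        simp only [map_sum, map_pow] at this
        simp [this]
    refine ⟨Equiv.ofFiberEquiv (f := fun i => star (α i)) (g := α) fun w =>
      Fintype.equivOfCardEq ?_, fun i => ?_⟩
    · have b : ∀ g : ℂ → ℂ, ∑ i, g (α i) = ∑ i, g (star (α i)) := fun g => by
        simpa [add_neg_eq_zero] using a g
      have := b fun v => if v = w then 1 else 0
      rw [sum_boole, sum_boole, Nat.cast_inj] at this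
      rw [Fintype.card_subtype, Fintype.card_subtype]
      exact this.symm
    · rw [Equiv.ofFiberEquiv_map (g := α), ← h1 i]
      exact Complex.conj_mul' _
  col {n} := by
    classical
    rintro ⟨m, hn⟩
    obtain ⟨ε⟩ : Nonempty (Fin n ≃ Lm m) := Fintype.card_eq.1 (by simp [hn]; ring)
    refine ⟨m + m, fun k => decide (k < m), (ε.sumCongr ε).trans (.ofBijective _ (slot_bij m)),
      fun i => ?_, fun i => ?_, fun α Q β s hQ hs hu hβ hb => ?_⟩
    · change side _ _ (slot m (inl (ε i))) = _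
      rcases ε i with k | k | k
      exacts [side_op _ _ _, (side_sl _ _ _ _ (by omega)).trans (by simp),
        (side_sl _ _ _ _ (by omega)).trans (by simp)]
    · change side _ _ (slot m (inr (ε i))) = _
      rcases ε i with k | k | k
      exacts [side_op _ _ _, (side_sl _ _ _ _ (by omega)).trans (by simp),
        (side_sl _ _ _ _ (by omega)).trans (by simp)]
    obtain ⟨s', R, f, a1, a2, a3, a4, a5⟩ := half hn α s hQ hs hu
    have a0 : ∀ i, α i ≠ 0 := fun i => right_ne_zero_of_mul (hs i ▸ hQ)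
    let z : Fin n ⊕ Bool → ℂ := Sum.elim α fun b => bif b then β else Q / β
    have b1 : ∀ x : Fin n ⊕ Bool, Sum.map s' not (Sum.map s' not x) = x := by
      rintro (i | b) <;> simp [a1]
    have b2 : ∀ b, ¬ ((∃ i, α i = z (inr b)) ∧ R (z (inr b)) (Q / z (inr b))) := by
      have c : ∀ i, α i = β → Q / β = β := fun i h =>
        div_eq_of_eq_mul hβ (by rw [← hb i h, h, sq])
      rintro (_ | _) ⟨⟨i, h⟩, h'⟩
      · have h1 : Q / (Q / β) = β := div_div_cancel₀ hQ
        have h2 : R (Q / β) (Q / (Q / β)) := h'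
        rw [h1, c (s' i) (by rw [a2, h]; exact h1)] at h2
        exact a3 _ _ h2 h2
      · have h2 : R β (Q / β) := h'
        rw [c i h] at h2
        exact a3 _ _ h2 h2
    obtain ⟨e, h1, h2⟩ := main (s := Sum.map s' not) (o := inr) (P := univ.map .inl) ε b1
      (fun _ => rfl) z (by rintro (i | _ | _); exacts [a0 i, div_ne_zero hQ hβ, hβ])
      (fun v => (∃ i, α i = v) ∧ R v (Q / v))
      (by rintro (i | b) h; exacts [mem_map_of_mem _ (mem_univ i), absurd h (b2 b)])
      (by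
        rintro (i | b) h h'
        · have h2 : R (α (s' i)) (Q / α (s' i)) := h'.2
          rw [a2, div_div_cancel₀ hQ] at h2
          exact a3 _ _ h.2 h2
        · exact b2 b h) b2 (fun k => inl (f k)) (inl_injective.comp a4) fun k => ⟨⟨_, rfl⟩, a5 k⟩
    refine ⟨e, fun π => adm _ _ _ (inv_tp _ π) h1, fun h => h2 (Eq.trans ?_ h)⟩
    refine sum_congr rfl fun π _ => ?_
    rw [← ev_eq (o := inr) (P := univ.map .inl) (lam := lpv α Q) b1 (fun _ => rfl) z
      (fun x y => by simp [lpv, z, a2]) _ _ e (inv_tp _ π)]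
    rfl

end Pool.Agent.Lib.MP_557161_ag.HG
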