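import Pool.Agent.Lib.MP_557161_ag.HG.StZ
import Pool.Agent.Lib.MP_557161_ag.HG.Once
import Pool.Agent.Lib.MP_557161_ag.HG.XC

/-!
The sum of the diagrams in a model with integral multiplicities.
-/

namespace Pool.Agent.Lib.MP_557161_ag.HG

namespace ZAa

open Finset Sum Matrix XCa

variable {B O : Type} {m : ℕ}

theorem andreief [Fintype B] (M N : B → Fin m → ℂ) :
    ∑ v : Fin m → B, (of fun k l => M (v k) l).det * (of fun k l => N (v k) l).det =
      m.factorial * (of fun l l' => ∑ b, M b l * N b l').det := by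
  have h : ∀ (M : B → Fin m → ℂ) (v : Fin m → B), (of fun k l => M (v k) l).det =
      ∑ σ : Equiv.Perm (Fin m), ((Equiv.Perm.sign σ : ℤ) : ℂ) * ∏ k, M (v k) (σ k) := fun M v => by
    rw [← det_transpose, det_apply']
    rfl
  have h2 : ∀ τ : Equiv.Perm (Fin m), ∑ v : Fin m → B, (of fun k l => M (v k) l).det *
      (((Equiv.Perm.sign τ : ℤ) : ℂ) * ∏ k, N (v k) (τ k)) =
      (of fun l l' => ∑ b, M b l * N b l').det := fun τ => by
    have e : ((Equiv.Perm.sign τ : ℤ) : ℂ) * ((Equiv.Perm.sign τ : ℤ) : ℂ) = 1 := by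
      rw [← Int.cast_mul, ← Units.val_mul, Int.units_mul_self, Units.val_one, Int.cast_one]
    rw [← one_mul (det (of fun l l' => ∑ b, M b l * N b l')), ← e, mul_assoc, ← det_permute' τ,
      det_apply', mul_sum]
    simp only [h M, sum_mul, submatrix_apply, of_apply, id, Fintype.prod_sum, mul_sum,
      prod_mul_distrib]
    rw [sum_comm]
    exact sum_congr rfl fun _ _ => sum_congr rfl fun _ _ => by ring
  simp only [h N, mul_sum]
  rw [sum_comm]
  simp [h2, Fintype.card_perm]

open Classical in
theorem phi_eq [Fintype O] (y : O → ℂ) : ∀ (k : ℕ) (h : Fin k → Polynomial ℂ),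
    phi (fun h => ∑ o, h.eval (y o)) k h =
      ∑ o : Fin k → O, if Function.Injective o then ∏ l, (h l).eval (y (o l)) else 0
  | 0, _ => by simp [phi, Function.injective_of_subsingleton]
  | k + 1, h => by
    rw [phi, ← (Fin.consEquiv fun _ => O).sum_comp, Fintype.sum_prod_type, sum_comm, phi_eq y k,
      mul_sum]
    simp only [phi_eq y k]
    rw [sum_comm (s := univ (α := Fin k)), ← sum_sub_distrib]
    refine sum_congr rfl fun o _ => ?_
    simp only [show ∀ c, Fin.consEquiv (fun _ => O) (c, o) = Fin.cons c o from fun _ => rfl,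
      Fin.cons_injective_iff, Fin.prod_univ_succ, Fin.cons_zero, Fin.cons_succ]
    by_cases ho : Function.Injective o
    · have e : ∀ i, ∏ l, (Function.update (Fin.tail h) i (h 0 * Fin.tail h i) l).eval (y (o l)) =
          (h 0).eval (y (o i)) * ∏ l, (Fin.tail h l).eval (y (o l)) := fun i => by
        rw [← mul_prod_erase _ _ (mem_univ i), ← mul_prod_erase _ _ (mem_univ i),
          Function.update_self, Polynomial.eval_mul, mul_assoc]
        congr 2
        exact prod_congr rfl fun l hl => by rw [Function.update_of_ne (ne_of_mem_erase hl)]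
      simp only [ho, if_true, and_true, e, ← sum_mul, ← sub_mul]
      rw [← sum_filter, ← sum_mul, ← sum_image (f := fun c => (h 0).eval (y c)) ho.injOn,
        ← sum_sdiff (subset_univ (univ.image o)), add_sub_cancel_right]
      congr 2
      ext c
      simp
    · simp [ho]

theorem chC_eval {x : ℂ} (hx : x ≠ 0) : ∀ n : ℕ, (chC n).eval (x + x⁻¹) = x ^ n + x⁻¹ ^ n
  | 0 => by simp [one_add_one_eq_two]
  | 1 => by simp
  | n + 2 => by
    have h1 := chC_eval hx n
    have h2 := chC_eval hx (n + 1)
    push_cast at h2 ⊢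
    rw [chC, Polynomial.Chebyshev.C_add_two, Polynomial.eval_sub, Polynomial.eval_mul,
      Polynomial.eval_X, h1, h2]
    linear_combination (x ^ n + x⁻¹ ^ n) * mul_inv_cancel₀ hx

variable [DecidableEq B] {s : B → B} {o : B}

/-- The colours of the slots on one side. -/
def cR (s : B → B) (o : B) (v : Fin m → B) : Lm m → B :=
  Sum.elim (fun _ => o) (Sum.elim (fun k => s (v k)) v)

/-- The indicator of equality. -/
def dl (a b : B) : ℂ := if a = b then 1 else 0

theorem det_cR (hs : ∀ x, s (s x) = x) (ho : s o = o) (u v : Fin m → B) :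
    (of fun j i => dl (cR s o v j) (cR s o u i)).det =
      (of fun k l => dl (v k) (u l) + dl (s (v k)) (u l)).det *
        (of fun k l => dl (v k) (u l) - dl (s (v k)) (u l)).det := by
  have b0 : ∀ {x y}, s x = s y ↔ x = y := (Function.Involutive.injective hs).eq_iff
  have b1 : ∀ {x y}, x = s y ↔ s x = y := fun {x y} => by rw [← b0, hs]
  by_cases hu : ∃ l, u l = o
  · obtain ⟨l, hl⟩ := hu
    rw [det_zero_of_column_eq (i := inr (inl l)) (j := inr (inr l)) (by simp)
      (fun _ => by simp [cR, hl, ho]), det_eq_zero_of_column_eq_zero (A := of fun k l =>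
        dl (v k) (u l) - dl (s (v k)) (u l)) l fun k => by simp [dl, hl, ← b1, ho], mul_zero]
  by_cases hv : ∃ k, v k = o
  · obtain ⟨k, hk⟩ := hv
    rw [det_zero_of_row_eq (i := inr (inl k)) (j := inr (inr k)) (by simp)
      (funext fun _ => by simp [cR, hk, ho]), det_eq_zero_of_row_eq_zero (A := of fun k l =>
        dl (v k) (u l) - dl (s (v k)) (u l)) k fun l => by simp [hk, ho], mul_zero]
  push Not at hu hv
  obtain ⟨A, hA⟩ : ∃ A : Matrix (Fin m) (Fin m) ℂ, A = of fun k l => dl (v k) (u l) := ⟨_, rfl⟩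
  obtain ⟨C, hC⟩ : ∃ C : Matrix (Fin m) (Fin m) ℂ, C = of fun k l => dl (s (v k)) (u l) := ⟨_, rfl⟩
  have e1 : (of fun j i => dl (cR s o v j) (cR s o u i)) = fromBlocks 1 0 0 (fromBlocks A C C A) := by
    ext (j | j | j) (i | i | i) <;>
      simp [cR, dl, hA, hC, b0, b1, ho, hv, (hu _).symm, (b1 (y := o)).symm]
  have e2 : fromBlocks A C C A * fromBlocks 1 0 1 1 =
      fromBlocks 1 0 1 1 * fromBlocks (A + C) C 0 (A - C) := by
    simp [fromBlocks_multiply, add_comm]
  have e3 := congrArg det e2
  simp only [det_mul, det_fromBlocks_zero₁₂, det_fromBlocks_zero₂₁, det_one, mul_one, one_mul] at e3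
  rw [e1, det_fromBlocks_zero₂₁, det_one, one_mul, e3, hA, hC]
  rfl

theorem sum_v [Fintype B] (hs : ∀ x, s (s x) = x) (ho : s o = o) (β : B → ℂ) (u : Fin m → B) :
    ∑ v : Fin m → B, (of fun j i => dl (cR s o v j) (cR s o u i)).det * ∏ k, β (v k) =
      m.factorial * ((∏ l, (β (u l) - β (s (u l)))) *
        (of fun l l' => dl (u l) (u l') - dl (s (u l)) (u l')).det) := by
  have b1 : ∀ {x y}, s x = y ↔ x = s y := fun {x y} => by
    rw [← (Function.Involutive.injective hs).eq_iff, hs]
  have h := andreief (fun b l => dl b (u l) + dl (s b) (u l))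
    fun b l => β b * (dl b (u l) - dl (s b) (u l))
  rw [← det_mul_column]
  refine Eq.trans (sum_congr rfl fun v _ => ?_) (h.trans (congrArg _ (congrArg det ?_)))
  · rw [det_cR hs ho, mul_assoc, mul_comm (det _) (∏ k, _), ← det_mul_column]
    rfl
  · ext l l'
    simp only [of_apply, add_mul, sum_add_distrib, dl, ite_mul, one_mul, zero_mul, b1 (y := u l),
      sum_ite_eq', mem_univ, if_true, hs]
    ring

open Classical in
theorem det_orb (o : Fin m → O) (b : Fin m → Bool) :
    (of fun l l' => dl (some (o l, b l)) (some (o l', b l')) -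
      dl (some (o l, !b l)) (some (o l', b l'))).det = if Function.Injective o then 1 else 0 := by
  split_ifs with h
  · rw [← det_one (n := Fin m)]
    congr 1
    ext l l'
    by_cases e : l = l' <;> simp [dl, e, h.eq_iff, one_apply]
  · obtain ⟨l, l', h1, h2⟩ := Function.not_injective_iff.1 h
    have e : (of fun l l' => dl (some (o l, b l)) (some (o l', b l')) -
        dl (some (o l, !b l)) (some (o l', b l'))) = of fun l l' => (bif b l then 1 else -1) *
          (of fun l l' => dl (some (o l, true)) (some (o l', b l')) -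
            dl (some (o l, false)) (some (o l', b l'))) l l' := by
      ext l l'
      simp only [of_apply]
      cases b l <;> simp
    rw [e, det_mul_column, det_zero_of_row_eq h2 (funext fun _ => by simp only [of_apply, h1]),
      mul_zero]

/-- The exponents. -/
noncomputable def ex (a : Fin m → ℕ) (t : Tw (m + m)) : ℕ :=
  Sum.elim (Sum.elim 0 (Sum.elim (a · + 1) 0)) (Sum.elim 0 (Sum.elim 1 0))
    ((Equiv.ofBijective _ (slot_bij m)).symm t)

open Classical in
theorem main [Fintype B] {κ : Type} [Fintype κ] [DecidableEq κ] (ε : κ ≃ Lm m)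
    (hs : ∀ x, s (s x) = x) (ho : s o = o) (z : B → ℂ) (a : Fin m → ℕ) :
    ∑ π : Equiv.Perm κ, ((Equiv.Perm.sign π : ℤ) : ℂ) * ∑ c with Col s (fun _ => o) univ _
      (tp ((ε.sumCongr ε).trans (.ofBijective _ (slot_bij m))) π) c, ∏ t, z (c t) ^ ex a t =
      m.factorial * ∑ u : Fin m → B, (∏ l, z (u l) ^ (a l + 1) * (z (s (u l)) - z (u l))) *
        (of fun l l' => dl (u l) (u l') - dl (s (u l)) (u l')).det := by
  set E := (ε.sumCongr ε).trans (.ofBijective _ (slot_bij m))
  let F : (Fin m → B) × (Fin m → B) → Tw (m + m) → B := fun x t =>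
    Sum.elim (fun i => s (cR s o x.1 i)) (cR s o x.2) ((Equiv.ofBijective _ (slot_bij m)).symm t)
  have b : ∀ x i, F x (slot m i) = Sum.elim (fun i => s (cR s o x.1 i)) (cR s o x.2) i :=
    fun x i => congrArg _ ((Equiv.ofBijective _ (slot_bij m)).symm_apply_apply i)
  have b1 : ∀ x (k : Fin m), F x (sl _ k false) = x.1 k := fun x k =>
    (b x (inl (inr (inl k)))).trans (hs _)
  have b2 : ∀ x (k : Fin m), F x (sl _ (m + k) false) = x.2 k := fun x k => b x (inr (inr (inr k)))
  simp only [sum_filter, mul_sum]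
  rw [sum_comm, ← Fintype.sum_of_injective F (fun x y h => Prod.ext
    (funext fun k => by rw [← b1, h, b1]) (funext fun k => by rw [← b2, h, b2]))
    (fun x => (∏ l, z (x.1 l) ^ (a l + 1)) *
      ((of fun j i => dl (cR s o x.2 j) (cR s o x.1 i)).det * ∏ k, z (s (x.2 k)))) _
    (fun c hc => sum_eq_zero fun π _ => ?_) fun x => ?_, Fintype.sum_prod_type]
  · refine sum_congr rfl fun u _ => ?_
    simp only [← mul_sum, sum_v hs ho fun x => z (s x), hs, prod_mul_distrib]
    ring
  · rw [if_neg fun h => hc ⟨(fun k => c (sl _ k false), fun k => c (sl _ (m + k) false)),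
      funext fun t => ?_⟩, mul_zero]
    obtain ⟨i, rfl⟩ := (slot_bij m).2 t
    rw [b]
    rcases i with (i | k | k) | i | k | k
    exacts [ho.trans (h.1.1 _).symm, hs _, (h.1.2 _ (by omega)).symm, (h.1.1 _).symm,
      (h.1.2 _ (by omega)).symm, rfl]
  · have c1 : Mt s (fun _ => o) _ (F x) := ⟨fun y => by
      cases y
      exacts [b x (inr (inl ())), (b x (inl (inl ()))).trans ho],
      lt_two (fun k => (b x (inl (inr (inr k)))).trans (congrArg s (b1 x k).symm))
        fun k => (b x (inr (inr (inl k)))).trans (congrArg s (b2 x k).symm)⟩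
    have c2 : ∏ t, z (F x t) ^ ex a t = (∏ l, z (x.1 l) ^ (a l + 1)) * ∏ k, z (s (x.2 k)) := by
      rw [← (Equiv.ofBijective _ (slot_bij m)).prod_comp]
      simp [F, ex, cR, hs]
    rw [← det_submatrix_equiv_self ε, det_apply', sum_mul, mul_sum]
    refine sum_congr rfl fun π _ => ?_
    have c3 : Col s (fun _ => o) univ _ (tp E π) (F x) ↔
        ∀ i, cR s o x.2 (ε (π i)) = cR s o x.1 (ε i) := by
      refine (and_iff_right c1).trans ((and_iff_left (lo_of _ _ _ fun _ _ => mem_univ _)).trans
        ((cp_tp E π hs _).trans (forall_congr' fun i => ?_)))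
      rw [show F x (E (inr (π i))) = _ from b x (inr (ε (π i))),
        show F x (E (inl i)) = _ from b x (inl (ε i))]
      simp [hs]
    simp only [submatrix_apply, of_apply, dl, prod_boole, mem_univ, true_imp_iff, c2, c3]
    split_ifs <;> ring

end ZAa

open ZAa XCa Finset Sum in
theorem ZA1_thm : ZA1 where
  mod m := by
    classical
    obtain ⟨ε⟩ : Nonempty (Fin (2 * m + 1) ≃ Lm m) := Fintype.card_eq.1 (by simp; ring)
    refine ⟨m + m, fun k => decide (k < m), (ε.sumCongr ε).trans (.ofBijective _ (slot_bij m)),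
      fun i => ?_, fun i => ?_, fun a => ⟨ex a, fun O _ x q hq hx => ?_⟩⟩
    · change side _ _ (slot m (inl (ε i))) = _
      rcases ε i with k | k | k
      exacts [side_op _ _ _, (side_sl _ _ _ _ (by omega)).trans (by simp),
        (side_sl _ _ _ _ (by omega)).trans (by simp)]
    · change side _ _ (slot m (inr (ε i))) = _
      rcases ε i with k | k | k
      exacts [side_op _ _ _, (side_sl _ _ _ _ (by omega)).trans (by simp),
        (side_sl _ _ _ _ (by omega)).trans (by simp)]
    let z : Option (O × Bool) → ℂ := fun c => c.elim q fun c => q * bif c.2 then x c.1 else (x c.1)⁻¹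
    let s : Option (O × Bool) → Option (O × Bool) := Option.map fun c => (c.1, !c.2)
    have hs : ∀ c, s (s c) = c := by rintro (_ | c) <;> simp [s]
    have hl : ∀ i j, lamP q (fun m => q ^ m * (1 + ∑ o, (x o ^ m + (x o)⁻¹ ^ m))) i j =
        ∑ c ∈ univ, z c ^ i * z (s c) ^ j := fun i j => by
      have e : ∀ (y : ℂ) (i d : ℕ), y ≠ 0 → (q * y) ^ i * (q * y⁻¹) ^ (i + d) =
          q ^ (2 * i) * (q ^ d * y⁻¹ ^ d) := fun y i d hy => by
        rw [pow_add, ← mul_assoc, ← mul_pow, mul_mul_mul_comm, mul_inv_cancel₀ hy]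
        ring
      have e' := fun o i d => e (x o)⁻¹ i d (inv_ne_zero (hx o))
      simp only [inv_inv] at e'
      simp only [Fintype.sum_option, Fintype.sum_prod_type, Fintype.sum_bool, z, s, lamP,
        Option.map, Option.elim, Bool.not_true, Bool.not_false, cond]
      rcases le_total i j with h | h <;> obtain ⟨d, rfl⟩ := Nat.exists_eq_add_of_le h
      · simp only [min_eq_left h, max_eq_right h, Nat.add_sub_cancel_left, e _ _ _ (hx _), e',
          mul_add, mul_sum]
        congr 1
        · ring
        · exact sum_congr rfl fun _ _ => add_comm _ _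
      · simp only [min_eq_right h, max_eq_left h, Nat.add_sub_cancel_left, e _ _ _ (hx _), e',
          mul_add, mul_sum, mul_comm (_ ^ (j + d))]
        congr 1
        ring
    refine ((sum_congr rfl fun π _ => congrArg _ ((congrArg _ (pow_add (z none) _ _)).trans
      (ev_eq (o := fun _ => none) hs (fun _ => rfl) z hl _ _ (ex a) (inv_tp _ π)))).trans
      (main ε hs rfl z a)).trans ?_
    have key : ∀ g : (Fin m → Option (O × Bool)) → ℂ, (∀ u l, u l = none → g u = 0) →
        ∑ u, g u = ∑ o : Fin m → O, ∑ b : Fin m → Bool, g fun l => some (o l, b l) := fun g hg => by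
      rw [← Fintype.sum_prod_type']
      refine (Fintype.sum_of_injective _ (fun y y' h => Prod.ext
        (funext fun l => congrArg Prod.fst (Option.some.inj (congrFun h l)))
        (funext fun l => congrArg Prod.snd (Option.some.inj (congrFun h l)))) _ _
        (fun u hu => by_contra fun h => ?_) fun _ => rfl).symm
      choose y hy using fun l => Option.ne_none_iff_exists.1 fun e => h (hg u l e)
      exact hu ⟨(fun l => (y l).1, fun l => (y l).2), funext hy⟩
    rw [phi_eq, key _ fun u l hl => by rw [prod_eq_zero (mem_univ l) (by simp [hl, s]), zero_mul],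
      mul_comm ((-1) ^ m : ℂ), mul_assoc, mul_assoc, mul_sum, mul_sum, mul_sum, mul_sum]
    refine sum_congr rfl fun o _ => congrArg _ ?_
    simp only [s, Option.map, det_orb, ← sum_mul]
    split_ifs
    · rw [← Fintype.prod_sum fun l b => z (some (o l, b)) ^ (a l + 1) *
        (z (some (o l, !b)) - z (some (o l, b))), mul_one, ← prod_pow_eq_pow_sum,
        ← prod_mul_distrib, ← Fin.prod_const, ← prod_mul_distrib]
      refine prod_congr rfl fun l _ => ?_
      have h1 := chC_eval (hx (o l)) (a l + 2)
      push_cast at h1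
      simp only [Fintype.sum_bool, z, Option.elim, Bool.not_true, Bool.not_false, cond, chD,
        Polynomial.eval_sub, h1, chC_eval (hx (o l))]
      linear_combination q ^ (a l + 2) * (x (o l) ^ a l + (x (o l))⁻¹ ^ a l) *
        mul_inv_cancel₀ (hx (o l))
    · simp

end Pool.Agent.Lib.MP_557161_ag.HG
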