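import Pool.Agent.Lib.MP_557161_ag.HG.StZ
import Pool.Agent.Lib.MP_557161_ag.HG.Once
import Pool.Agent.Lib.MP_557161_ag.TU.T1b

/-!
Linear forms on polynomials whose form of Frobenius vanishes.
-/

namespace Pool.Agent.Lib.MP_557161_ag.HG

open Polynomial Finset
open Function (update update_idem update_self update_of_ne update_comm update_eq_self Embedding)

namespace ZBa

lemma x_mul (m : ℤ) : X * chC m = chC (m + 1) + chC (m - 1) := by
  rw [chC, chC, chC, Chebyshev.C_add_one]; ring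

/-- The sum of the two shifts. -/
noncomputable def sh : Module.End ℂ (ℤ → ℂ) :=
  LinearMap.funLeft ℂ ℂ (· + 1) + LinearMap.funLeft ℂ ℂ (· - 1)

lemma aeval_sh (s : ℤ → ℂ) (m : ℤ) : ∀ n, aeval sh (chC m) s n = s (n + m) + s (n - m) := by
  have e : ∀ (t : ℤ → ℂ) (n : ℤ), sh t n = t (n + 1) + t (n - 1) := fun _ _ => rfl
  induction m using Chebyshev.induct with
  | zero => simp [map_ofNat, two_mul]
  | one => simpa using e s
  | add_two m ih1 ih2 =>
    intro n
    rw [chC, Chebyshev.C_add_two, map_sub, map_mul, aeval_X, LinearMap.sub_apply, Pi.sub_apply,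
      Module.End.mul_apply, e, ih1, ih1, ih2]
    ring_nf
  | neg_add_one m ih1 ih2 =>
    intro n
    rw [chC, Chebyshev.C_sub_one, map_sub, map_mul, aeval_X, LinearMap.sub_apply, Pi.sub_apply,
      Module.End.mul_apply, e, ih1, ih1, ih2]
    ring_nf

lemma eval_c {z : ℂ} (h : z ≠ 0) (m : ℤ) : (chC m).eval (z + z⁻¹) = z ^ m + z ^ (-m) := by
  have e := congrFun (Module.End.aeval_apply_of_mem_apply_eq_smul (f := sh) (p := chC m)
    (x := fun n => z ^ n) (μ := z + z⁻¹) (funext fun n => by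
      show z ^ (n + 1) + z ^ (n - 1) = _ * z ^ n
      rw [zpow_add_one₀ h, zpow_sub_one₀ h]; ring)) 0
  simpa [aeval_sh] using e.symm

lemma mul_mem {S : Submodule ℂ ℂ[X]} (h : ∀ p ∈ S, X * p ∈ S) {a : ℂ[X]} (ha : a ∈ S) (p : ℂ[X]) :
    a * p ∈ S := by
  induction p using Polynomial.induction_on with
  | C c => rw [mul_comm, ← smul_eq_C_mul]; exact S.smul_mem c ha
  | add p q hp hq => rw [mul_add]; exact S.add_mem hp hq
  | monomial n c ih => rw [pow_succ', mul_left_comm (C c), mul_left_comm]; exact h _ ih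

lemma x_span {s : Set ℂ[X]} (h : ∀ p ∈ s, X * p ∈ Submodule.span ℂ s) :
    ∀ p ∈ Submodule.span ℂ s, X * p ∈ Submodule.span ℂ s := fun _ hp =>
  (Submodule.span_le (p := (Submodule.span ℂ s).comap (LinearMap.mulLeft ℂ X))).2 h hp

lemma ext_c {σ τ : ℂ[X] →ₗ[ℂ] ℂ} (h : ∀ m : ℤ, σ (chC m) = τ (chC m)) (p : ℂ[X]) : σ p = τ p := by
  have h1 : chC 0 * (C 2⁻¹ * p) ∈ Submodule.span ℂ (Set.range chC) := mul_mem (x_span (by
    rintro _ ⟨m, rfl⟩
    rw [x_mul]
    exact add_mem (Submodule.subset_span ⟨_, rfl⟩) (Submodule.subset_span ⟨_, rfl⟩)))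
    (Submodule.subset_span (Set.mem_range_self 0)) _
  rw [chC, Chebyshev.C_zero, ← mul_assoc, ← map_ofNat C 2, ← C_mul, mul_inv_cancel₀ two_ne_zero,
    C_1, one_mul] at h1
  exact LinearMap.eqOn_span (by rintro _ ⟨m, rfl⟩; exact h m) h1

lemma mem_span {p : ℂ[X]} (h : X ^ 2 - 4 ∣ p) :
    p ∈ Submodule.span ℂ (Set.range fun a : ℕ => chC (a + 2) - chC a) := by
  obtain ⟨r, rfl⟩ := h
  refine mul_mem (x_span ?_) (Submodule.subset_span (Set.mem_range.2 ⟨0, ?_⟩)) r
  · rintro _ ⟨a, rfl⟩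
    have e : X * (chC (a + 2) - chC a) =
        (chC ((a + 1 : ℕ) + 2) - chC (a + 1 : ℕ)) + (chC (a + 1) - chC (a - 1)) := by
      rw [mul_sub, x_mul, x_mul]; push_cast; ring_nf
    rw [e]
    refine add_mem (Submodule.subset_span ⟨_, rfl⟩) ?_
    cases a with
    | zero => simp [chC]
    | succ a => exact Submodule.subset_span ⟨a, by push_cast; ring_nf⟩
  · simp [chC, Chebyshev.C_two]; ring

variable (σ : ℂ[X] →ₗ[ℂ] ℂ)

lemma head {k : ℕ} (h : Fin k → ℂ[X]) (ψ : Fin k → ℂ[X])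
    (hψ : ∀ i x, phi σ k (update h i x) = σ (x * ψ i)) (x : ℂ[X]) :
    phi σ (k + 1) (Fin.cons x h) = σ (x * (C (phi σ k h) - ∑ i, h i * ψ i)) := by
  simp only [phi, Fin.cons_zero, Fin.tail_cons, hψ, mul_sub, mul_sum, map_sub, map_sum, mul_assoc]
  rw [mul_comm x, ← smul_eq_C_mul, map_smul, smul_eq_mul, mul_comm]

lemma slot : ∀ (k : ℕ) (h : Fin k → ℂ[X]) (i : Fin k), ∃ ψ, ∀ x,
    phi σ k (update h i x) = σ (x * ψ)
  | k + 1, h, i => by
    choose ψ hψ using slot k
    refine Fin.cases ?_ (fun j => ?_) i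
    · exact ⟨_, fun x => Eq.trans (by rw [← Fin.update_cons_zero (h 0), Fin.cons_self_tail])
        (head σ (Fin.tail h) _ (hψ _) x)⟩
    · refine ⟨C (σ (h 0)) * ψ (Fin.tail h) j - ∑ i, if i = j then h 0 * ψ (Fin.tail h) j else
        ψ (update (Fin.tail h) i (h 0 * Fin.tail h i)) j, fun x => ?_⟩
      rw [phi, Fin.tail_update_succ, update_of_ne (Fin.succ_ne_zero j).symm, hψ, mul_sub, map_sub,
        mul_left_comm, ← smul_eq_C_mul, map_smul, smul_eq_mul, mul_sum, map_sum]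
      refine congrArg _ (sum_congr rfl fun i _ => ?_)
      split_ifs with e
      · subst e
        rw [update_idem, update_self, hψ, mul_left_comm, mul_assoc]
      · rw [update_of_ne e, update_comm (Ne.symm e), hψ]

/-- The form vanishes on the multiples of `X ^ 2 - 4`. -/
def Zr (k : ℕ) : Prop := ∀ h : Fin k → ℂ[X], (∀ i, X ^ 2 - 4 ∣ h i) → phi σ k h = 0

lemma zr {k : ℕ} (h : ∀ a, phi σ k (chD a) = 0) : Zr σ k := by
  have key : ∀ (s : Finset (Fin k)) (g : Fin k → ℂ[X]), (∀ i ∈ s, X ^ 2 - 4 ∣ g i) →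
      (∀ i ∉ s, ∃ a : ℕ, chC (a + 2) - chC a = g i) → phi σ k g = 0 := fun s => by
    induction s using Finset.induction_on with
    | empty =>
      intro g _ h2
      choose a ha using fun i => h2 i (notMem_empty i)
      exact funext ha ▸ h a
    | insert i s hi ih =>
      intro g h1 h2
      obtain ⟨ψ, hψ⟩ := slot σ k g i
      rw [← update_eq_self i g, hψ]
      refine LinearMap.eqOn_span (f := σ ∘ₗ LinearMap.mulRight ℂ ψ) (g := 0) ?_
        (mem_span (h1 i (mem_insert_self _ _)))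
      rintro _ ⟨a, rfl⟩
      refine (hψ _).symm.trans (ih _ (fun j hj => ?_) fun j hj => ?_)
      · rw [update_of_ne (ne_of_mem_of_not_mem hj hi)]
        exact h1 j (mem_insert_of_mem hj)
      · by_cases e : j = i
        · exact ⟨a, by rw [e, update_self]⟩
        · rw [update_of_ne e]
          exact h2 j (by simp [e, hj])
  exact fun g hg => key univ g (fun i _ => hg i) fun i hi => absurd (mem_univ i) hi

lemma ann {k : ℕ} (h : Zr σ k) : ∃ G : ℂ[X], G ≠ 0 ∧ ∀ p, σ (G * p) = 0 := by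
  induction k with
  | zero => exact absurd (h Fin.elim0 fun i => i.elim0) one_ne_zero
  | succ k ih =>
    by_cases hk : Zr σ k
    · exact ih hk
    simp only [Zr, not_forall] at hk
    obtain ⟨g, h1, h2⟩ := hk
    choose ψ hψ using slot σ k g
    refine ⟨(X ^ 2 - 4) * (C (phi σ k g) - ∑ i, g i * ψ i), mul_ne_zero (fun e => ?_) fun e => ?_,
      fun p => ?_⟩
    · simpa using congrArg (eval 0) e
    · have e1 : ∀ i, (g i).eval 2 = 0 := fun i => by
        obtain ⟨r, hr⟩ := h1 i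
        rw [hr, eval_mul]
        norm_num
      simpa [eval_finsetSum, e1, h2] using congrArg (eval 2) e
    · rw [mul_right_comm, ← head σ g ψ hψ]
      exact h _ (Fin.cases (dvd_mul_right _ _) h1)

lemma rec_of {G : ℂ[X]} (h0 : G ≠ 0) (h : ∀ p, σ (G * p) = 0) :
    ∃ g : ℂ[X], g.coeff 0 ≠ 0 ∧ ∀ m : ℤ, (g.sum fun j c => c * σ (chC (j + m))) = 0 := by
  let L : ℤ → ℂ[X] →ₗ[ℂ] ℂ[X] := fun m =>
    lsum fun j => LinearMap.toSpanSingleton ℂ _ (chC (j + m))
  have h1 : ∀ (i n : ℕ) (m : ℤ), L m ((X ^ 2 + 1) ^ i * X ^ n) = X ^ i * chC (i + n + m) := by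
    intro i
    induction i with
    | zero => intro n m; simp [L, X_pow_eq_monomial]
    | succ i ih =>
      intro n m
      rw [pow_succ, mul_assoc, add_mul, ← pow_add, one_mul, mul_add, map_add, ih (2 + n),
        ih n, pow_succ, mul_assoc, x_mul, mul_add]
      push_cast; ring_nf
  have h2 : ∀ (m : ℤ) (g : ℂ[X]), (g.sum fun j c => c * σ (chC (j + m))) = σ (L m g) := fun m g => by
    simp [L, Polynomial.sum_def]
  refine ⟨∑ i ∈ range (G.natDegree + 1), G.coeff i • ((X ^ 2 + 1) ^ i * X ^ (G.natDegree - i)),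
    ?_, fun m => ?_⟩
  · rw [coeff_zero_eq_eval_zero, eval_finsetSum, sum_range_succ, sum_eq_zero fun i hi => by
      simp [Nat.sub_ne_zero_of_lt (mem_range.1 hi)]]
    simpa using h0
  · refine Eq.trans ?_ (h (chC (G.natDegree + m)))
    refine Eq.trans (h2 m _) (congrArg σ ?_)
    conv_rhs => enter [1]; rw [G.as_sum_range_C_mul_X_pow]
    rw [map_sum, sum_mul]
    refine sum_congr rfl fun i hi => ?_
    rw [map_smul, h1, smul_eq_C_mul, mul_assoc, ← Nat.cast_add,
      Nat.add_sub_cancel' (Nat.le_of_lt_succ (mem_range.1 hi))]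

variable {σ} {U : Finset ℂ} {μ : ℂ → ℂ}

lemma val (hσ : ∀ h, X ^ 2 - 4 ∣ h → σ h = ∑ u ∈ U, μ u * h.eval u) :
    ∀ (k : ℕ) (o : Fin k → ℂ), (∀ i, o i ∈ U) → (∀ u ∈ U, ∀ n < #{i | o i = u}, μ u ≠ n) →
    ∃ c ≠ 0, ∀ h : Fin k → ℂ[X], (∀ i, X ^ 2 - 4 ∣ h i ∧
      ∀ u ∈ U, (h i).eval u = if u = o i then 1 else 0) → phi σ k h = c
  | 0, _, _, _ => ⟨1, one_ne_zero, fun _ _ => rfl⟩
  | k + 1, o, h1, h2 => by
    have e : ∀ u, #{i | o i = u} = (if o 0 = u then 1 else 0) + #{i | Fin.tail o i = u} := fun u => by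
      rw [card_filter, card_filter, Fin.sum_univ_succ]; rfl
    obtain ⟨c, c0, hc⟩ := val hσ k (Fin.tail o) (fun i => h1 _) fun u hu n hn =>
      h2 u hu n (e u ▸ hn.trans_le (Nat.le_add_left _ _))
    refine ⟨(μ (o 0) - #{i | Fin.tail o i = o 0}) * c, mul_ne_zero (sub_ne_zero.2
      (h2 _ (h1 0) _ (by rw [e, if_pos rfl]; omega))) c0, fun h hh => ?_⟩
    rw [phi, hc (Fin.tail h) fun i => hh i.succ, hσ _ (hh 0).1,
      sum_eq_single_of_mem _ (h1 0) fun u hu hn => by rw [(hh 0).2 u hu, if_neg hn, mul_zero],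
      (hh 0).2 _ (h1 0), if_pos rfl, mul_one, sub_mul, card_filter, Nat.cast_sum, sum_mul]
    refine congrArg _ (sum_congr rfl fun i _ => ?_)
    have e1 : ∀ u ∈ U, (h 0 * Fin.tail h i).eval u =
        if u = o 0 ∧ u = Fin.tail o i then 1 else 0 := fun u hu => by
      rw [eval_mul, (hh 0).2 u hu, Fin.tail, (hh i.succ).2 u hu, ite_zero_mul_ite_zero, mul_one]
      rfl
    split_ifs with e2
    · rw [Nat.cast_one, one_mul]
      refine hc _ fun j => ?_
      by_cases e3 : j = i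
      · subst e3
        rw [update_self]
        exact ⟨(hh 0).1.mul_right _, fun u hu => by simp only [e1 u hu, e2, and_self]⟩
      · rw [update_of_ne e3]
        exact hh j.succ
    · obtain ⟨ψ, hψ⟩ := slot σ k (Fin.tail h) i
      rw [hψ, Nat.cast_zero, zero_mul, hσ _ (((hh 0).1.mul_right _).mul_right _)]
      exact sum_eq_zero fun u hu => by
        rw [eval_mul, e1 u hu, if_neg fun a => e2 (a.2.symm.trans a.1), zero_mul, mul_zero]

lemma core (hU : ∀ u ∈ U, u ^ 2 - 4 ≠ 0)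
    (hσ : ∀ h, X ^ 2 - 4 ∣ h → σ h = ∑ u ∈ U, μ u * h.eval u) {r : ℕ} (hr : Zr σ r) :
    ∃ n < r, ∑ u ∈ U, μ u = n := by
  have key : ∀ o : Fin r → ℂ, (∀ i, o i ∈ U) → ¬ ∀ u ∈ U, ∀ n < #{i | o i = u}, μ u ≠ n :=
    fun o h1 h2 => by
      obtain ⟨c, c0, hc⟩ := val hσ r o h1 h2
      refine c0 ((hc (fun i => (X ^ 2 - 4) * (C (o i ^ 2 - 4)⁻¹ * Lagrange.basis U id (o i)))
        fun i => ⟨dvd_mul_right _ _, fun u hu => ?_⟩).symm.trans (hr _ fun i => dvd_mul_right _ _))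
      split_ifs with e
      · subst e
        have := Lagrange.eval_basis_self (v := id) (Set.injOn_id _) hu
        simp only [id] at this
        simp [this, mul_inv_cancel₀ (hU _ hu)]
      · have := Lagrange.eval_basis_of_ne (v := id) (Ne.symm e) hu
        simp only [id] at this
        simp [this]
  have h1 : ∀ u, ∃ n : ℕ, u ∈ U → μ u = n := fun u => by
    by_contra h
    push Not at h
    exact key (fun _ => u) (fun _ => (h 0).1) fun v _ n hn => by
      obtain ⟨i, hi⟩ := card_pos.1 (hn.trans_le' (Nat.zero_le n))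
      exact (mem_filter.1 hi).2 ▸ (h n).2
  choose n hn using h1
  refine ⟨∑ u ∈ U, n u, not_le.1 fun h => ?_, by rw [Nat.cast_sum]; exact sum_congr rfl hn⟩
  obtain ⟨f⟩ := Embedding.nonempty_of_card_le (α := Fin r)
    (β := (U.sigma fun u => range (n u) : Finset (Σ _ : ℂ, ℕ))) (by simpa using h)
  refine key (fun i => (f i).1.1) (fun i => (mem_sigma.1 (f i).2).1) fun u hu m hm e => ?_
  rw [hn u hu, Nat.cast_inj] at e
  refine absurd hm (not_lt.2 (e ▸ (card_le_card_of_injOn (fun i => (f i).1.2) (fun i hi => ?_)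
    fun i hi j hj e => ?_).trans_eq (card_range _)))
  · exact (mem_filter.1 hi).2 ▸ (mem_sigma.1 (f i).2).2
  · exact f.injective (Subtype.ext (Sigma.ext
      ((mem_filter.1 hi).2.trans (mem_filter.1 hj).2.symm) (heq_of_eq e)))

lemma all_int {S : Finset ℂ} {ν : ℂ → ℂ} (h0 : ∀ z ∈ S, z ≠ 0) {g : ℂ[X]} (hg : g.coeff 0 ≠ 0)
    {s : ℤ → ℂ} (h1 : ∀ m : ℤ, (g.sum fun j c => c * s (j + m)) = 0)
    (h2 : ∀ m : ℕ, 0 < m → s m = ∑ z ∈ S, ν z * z ^ m) (m : ℤ) : s m = ∑ z ∈ S, ν z * z ^ m := by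
  have h3 := DL.T0.vanish S ν g fun t ht => by
    rw [← h1 t]
    exact sum_congr rfl fun j _ => congrArg _ (by rw [← h2 _ (by omega), Nat.cast_add])
  have h4 : ∀ m : ℤ, (g.sum fun j c => c * ∑ z ∈ S, ν z * z ^ (j + m)) = 0 := fun m => by
    simp only [Polynomial.sum_def, mul_sum]
    rw [sum_comm]
    refine sum_eq_zero fun z hz => ?_
    by_cases e : ν z = 0
    · simp [e]
    · have h5 : g.eval z = 0 := h3 z hz (h0 z hz) e
      rw [eval_eq_sum, Polynomial.sum_def] at h5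
      refine Eq.trans (sum_congr rfl fun j _ => ?_) ((mul_sum _ _ (ν z * z ^ m)).symm.trans
        (by rw [h5, mul_zero]))
      rw [zpow_add₀ (h0 z hz), zpow_natCast]; ring
  have h5 : ∀ (n : ℕ) (m : ℤ), -n < m → s m = ∑ z ∈ S, ν z * z ^ m := fun n => by
    induction n with
    | zero =>
      intro m hm
      obtain ⟨m, rfl⟩ := Int.eq_ofNat_of_zero_le (by omega : 0 ≤ m)
      simpa using h2 m (by omega)
    | succ n ih =>
      intro m hm
      have h6 := sub_eq_zero.2 ((h1 m).trans (h4 m).symm)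
      rw [Polynomial.sum_def, Polynomial.sum_def, ← sum_sub_distrib, sum_eq_single_of_mem 0
        (mem_support_iff.2 hg) fun j _ hj => by rw [ih _ (by omega), sub_self], ← mul_sub] at h6
      simpa using sub_eq_zero.1 ((mul_eq_zero.1 h6).resolve_left hg)
  exact h5 (m.natAbs + 1) m (by omega)

end ZBa

open ZBa in
theorem ZB_thm : ZB where
  ex c := by
    refine ⟨LinearMap.proj 0 ∘ₗ LinearMap.applyₗ (fun n : ℤ => c n.natAbs / 2) ∘ₗ
      (aeval sh).toLinearMap, fun m => (aeval_sh _ m 0).trans ?_⟩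
    simp
  rc σ r h := let ⟨_, h0, h1⟩ := ann σ (zr σ h); rec_of σ h0 h1
  cnt σ r h h0 ν ν0 hν := by
    obtain ⟨G, g0, g1⟩ := ann σ (zr σ h)
    obtain ⟨g, g2, g3⟩ := rec_of σ g0 g1
    have n0 : ∀ z ∈ ν.support, z ≠ 0 := fun z hz e => Finsupp.mem_support_iff.1 hz (e ▸ ν0)
    have h1 := all_int (ν := fun z => ν z) (s := fun m => σ (chC m)) n0 g2 g3 hν
    have h2 : ∀ p, σ p = ∑ z ∈ ν.support, ν z / 2 * p.eval (z + z⁻¹) := fun p => by
      refine (ext_c (τ := ∑ z ∈ ν.support, ((ν z : ℂ) / 2) • leval (z + z⁻¹)) (fun m => ?_) p).trans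
        (by simp)
      have e := h1 (-m)
      rw [chC, Chebyshev.C_neg] at e
      refine Eq.trans (b := (σ (chC m) + σ (chC m)) / 2) (by ring) ?_
      nth_rewrite 1 [h1 m]
      rw [e, ← sum_add_distrib, sum_div, LinearMap.sum_apply]
      refine sum_congr rfl fun z hz => ?_
      rw [LinearMap.smul_apply, leval_apply, smul_eq_mul, eval_c (n0 z hz)]
      ring
    let S := ν.support.filter fun z => (z + z⁻¹) ^ 2 - 4 ≠ 0
    have h3 : ∀ f : ℂ → ℂ, ∑ u ∈ S.image (fun z => z + z⁻¹),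
        (∑ z ∈ S with z + z⁻¹ = u, (ν z : ℂ) / 2) * f u = ∑ z ∈ S, ν z / 2 * f (z + z⁻¹) := fun f => by
      refine (sum_congr rfl fun u _ => ?_).trans (sum_fiberwise_of_maps_to (g := fun z => z + z⁻¹)
        (fun z hz => mem_image_of_mem _ hz) _)
      rw [sum_mul]
      exact sum_congr rfl fun z hz => by rw [(mem_filter.1 hz).2]
    obtain ⟨n, hn, h4⟩ := core (U := S.image fun z => z + z⁻¹)
      (μ := fun u => ∑ z ∈ S with z + z⁻¹ = u, (ν z : ℂ) / 2) (fun u hu => by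
        obtain ⟨z, hz, rfl⟩ := mem_image.1 hu
        exact (mem_filter.1 hz).2) (fun p ⟨r, hr⟩ => by
        rw [h3 fun u => p.eval u, h2]
        refine (sum_filter_of_ne fun z _ e => ?_).symm
        exact fun e' => e (by simp [hr, e'])) (zr σ h)
    have h5 := h3 fun _ => 1
    simp only [mul_one] at h5
    have h6 : ∑ z ∈ ν.support with ¬ (z + z⁻¹) ^ 2 - 4 ≠ 0, (ν z : ℂ) = ν 1 + ν (-1) := by
      rw [← sum_pair (f := fun z => (ν z : ℂ)) (by norm_num)]
      refine sum_subset (fun z hz => ?_) fun z hz hz' => ?_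
      · obtain ⟨a1, a2⟩ := mem_filter.1 hz
        have a3 := n0 z a1
        have a4 : (z ^ 2 - 1) ^ 2 = 0 := by
          rw [← mul_zero (z ^ 2), ← not_not.1 a2]; field_simp; ring
        simpa using sq_eq_one_iff.1 (sub_eq_zero.1 (pow_eq_zero_iff two_ne_zero |>.1 a4))
      · by_contra e
        refine hz' (mem_filter.2 ⟨Finsupp.mem_support_iff.2 (by simpa using e), not_not.2 ?_⟩)
        rcases mem_insert.1 hz with rfl | a
        · norm_num
        · rw [mem_singleton.1 a]; norm_num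
    have h7 := (h1 0).symm.trans h0
    simp only [zpow_zero, mul_one] at h7
    rw [← sum_filter_add_sum_filter_not _ fun z => (z + z⁻¹) ^ 2 - 4 ≠ 0, h6] at h7
    have h8 : (2 * n + (ν 1 + ν (-1)) : ℂ) = 2 * r + 1 := by
      rw [← h7, ← h4, h5, mul_sum]
      exact congrArg (· + _) (sum_congr rfl fun z _ => by ring)
    have h9 : (2 * n + (ν 1 + ν (-1)) : ℤ) = 2 * r + 1 := by exact_mod_cast h8
    omega

end Pool.Agent.Lib.MP_557161_ag.HG
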