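import Pool.Agent.Lib.MP_557161_ag.HG.StY

/-!
The relation between the graphs of the powers of Frobenius.
-/

namespace Pool.Agent.Lib.MP_557161_ag.HG

open Pool.Agent.Lib.MP_557161_ag.DL

variable {K : Type} [Field K] {p : ℕ}

namespace XRa

lemma cfg_cfg {T : Type} (q : ℕ) (e e' : T → ℕ) (L : Fld K) (P : T → xz.X L) :
    cfg q e' L (cfg q e L P) = cfg q (e + e') L P := by
  funext i
  simp only [cfg, frb, Pi.add_apply, pow_add, pow_mul]

lemma inv_bool {τ : Bool → Bool} (h : Inv τ) : τ = not := funext fun b => by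
  have := (h b).2
  cases b <;> simpa using this

lemma inv_not : Inv not := fun b => by cases b <;> simp

lemma inv_tp {T κ : Type} (E : κ ⊕ κ ≃ T) (π : Equiv.Perm κ) : Inv (tp E π) := fun t => by
  obtain ⟨i | i, rfl⟩ := E.surjective t <;> simp [tp]

lemma lam_eq {n : ℕ} {α : Fin n → ℂ} {Q : ℂ} {s : Equiv.Perm (Fin n)} (hQ : Q ≠ 0)
    (hs : ∀ i, α (s i) * α i = Q) (x m : ℕ) : lpv α Q (x + m) x = Q ^ x * ∑ i, α i ^ m ∧
      lpv α Q x (x + m) = Q ^ x * ∑ i, α i ^ m := by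
  have h0 : ∀ i, α i ≠ 0 := fun i e => hQ (by rw [← hs i, e, mul_zero])
  have h1 : ∀ i, α i ^ x * (Q / α i) ^ x = Q ^ x := fun i => by
    rw [← mul_pow, mul_div_cancel₀ _ (h0 i)]
  constructor
  · rw [lpv, Finset.mul_sum]
    exact Finset.sum_congr rfl fun i _ => by rw [← h1 i]; ring
  · rw [lpv, ← Equiv.sum_comp s fun i => α i ^ m, Finset.mul_sum]
    refine Finset.sum_congr rfl fun i _ => ?_
    rw [← h1 i, eq_div_of_mul_eq (h0 i) (hs i)]
    ring

variable {G : GD K} {q : ℕ}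

/-- The iterated contraction. -/
lemma iter [XC] [XS K p] (hq : 1 < q) (hF : G.Fr p q) (lam : ℕ → ℕ → ℂ)
    (hl : ∀ x m, 0 < m → lam (x + m) x = (q : ℂ) ^ (2 * x) *
      (((G.fx (q ^ m) false : ℂ) - G.fx (q ^ m) true) / 2) ∧ lam x (x + m) = lam (x + m) x)
    (φ : AF (Nat.card Bool) (G.UU.pi Bool)) (h1 : AntiP φ.a) (h2 : KlS id φ.a) (sd : ℕ → Bool)
    (r : ℕ) : ∃ Φ : AF (Nat.card (Tw r)) (G.UU.pi (Tw r)), AntiP Φ.a ∧ KlS (side sd r) Φ.a ∧
      ∀ (τ : Tw r → Tw r) (e : Tw r → ℕ) (w : ℂ), Inv τ → Adm r τ e →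
        DV G q φ.a not (fun b => bif b then (ev lam r τ e).2.1 else (ev lam r τ e).2.2) w →
        DV G q Φ.a τ e ((ev lam r τ e).1 * w / 2 ^ r) := by
  induction r with
  | zero =>
    refine ⟨φ, h1, h2, fun τ e w hτ _ h => ?_⟩
    obtain rfl : τ = not := inv_bool hτ
    have e1 : (fun b : Bool => bif b then e true else e false) = e :=
      funext fun b => by cases b <;> rfl
    have e2 : (ev lam 0 not e).1 * w / 2 ^ 0 = w := by simp [ev]
    rw [e2]
    exact e1 ▸ h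
  | succ r ih =>
    obtain ⟨Φ, a1, a2, a3⟩ := ih
    obtain ⟨Ψ, b1, b2, b3⟩ := XS.step hq hF lam hl Φ a1
    refine ⟨Ψ, b1, b2 _ (sd r) a2, fun τ e w hτ hA h => ?_⟩
    have h3 := b3 τ e _ hτ hA.1 (a3 _ _ w (XC.inv hτ) hA.2 h)
    have e2 : ∀ a b : ℂ, a * b * w / 2 ^ (r + 1) = a * (b * w / 2 ^ r) / 2 := fun a b => by ring
    exact (e2 _ _).symm ▸ h3

/-- The alternating sum on a product of two powers. -/
lemma alt [ALT K] {T : Type} [Finite T] [DecidableEq T] (E : Fin G.n ⊕ Fin G.n ≃ T)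
    (sd : T → Bool) (s1 : ∀ i, sd (E (Sum.inl i)) = true) (s2 : ∀ i, sd (E (Sum.inr i)) = false)
    (ψ : AF (Nat.card T) (G.UU.pi T)) (h1 : AntiP ψ.a) (h2 : KlS sd ψ.a) (L : Fld K)
    (x w : Fin G.n → xz.X L) : ∑ σ : Equiv.Perm (Fin G.n), ((Equiv.Perm.sign σ : ℤ) : ℂ) *
      ψ.a L (fun t => Sum.elim (fun i => x (σ i)) w (E.symm t)) = 0 := by
  let g : ∀ L : Fld K, ((Cd.pi (Fin G.n) xz).prod (Cd.pi (Fin G.n) xz)).X L → (Cd.pi T xz).X L :=
    fun _ z t => Sum.elim z.1 z.2 (E.symm t)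
  let g' : ∀ L : Fld K, (Cd.pi T xz).X L → ((Cd.pi (Fin G.n) xz).prod (Cd.pi (Fin G.n) xz)).X L :=
    fun _ z => (fun i => z (E (Sum.inl i)), fun i => z (E (Sum.inr i)))
  have gl : ∀ L z i, g L z (E (Sum.inl i)) = z.1 i := fun L z i => by simp [g]
  have gr : ∀ L z i, g L z (E (Sum.inr i)) = z.2 i := fun L z i => by simp [g]
  have gg : ∀ L z, g' L (g L z) = z := fun L z => Prod.ext (funext (gl L z)) (funext (gr L z))
  have m1 : Mp ((G.UU.pi (Fin G.n)).prod (G.UU.pi (Fin G.n))) (G.UU.pi T) g :=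
    ⟨fun _ _ R _ _ _ _ h t => by
      obtain ⟨i | i, rfl⟩ := E.surjective t
      · rw [gl, gl]; exact h.1 i
      · rw [gr, gr]; exact h.2 i, fun L z m t => by
      obtain ⟨i | i, rfl⟩ := E.surjective t
      · rw [gl]; exact m.1 i
      · rw [gr]; exact m.2 i⟩
  have m2 : Mp (G.UU.pi T) ((G.UU.pi (Fin G.n)).prod (G.UU.pi (Fin G.n))) g' :=
    ⟨fun _ _ R _ _ _ _ h => ⟨fun _ => h _, fun _ => h _⟩, fun L z m => ⟨fun _ => m _, fun _ => m _⟩⟩
  let Ψ : AF (Nat.card T) ((G.UU.pi (Fin G.n)).prod (G.UU.pi (Fin G.n))) :=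
    Fe.pull m1.mor ((Pro.of_left m2 m1 fun L z _ => gg L z).mor m1) ψ
  have hΨ : ∀ L z, Ψ.a L z = ψ.a L (g L z) := fun L z => by
    by_cases h : ((G.UU.pi (Fin G.n)).prod (G.UU.pi (Fin G.n))).mem L z
    · exact Fe.pull_of_mem _ _ _ ((ASp.sp_some _).2 h)
    · refine (if_neg fun h' => h ((ASp.sp_some _).1 h')).trans (by_contra fun h' => h ?_)
      exact gg L z ▸ m2.mem L _ ((ASp.sp_some _).1 (ψ.supp L _ (Ne.symm h')).2)
  have h := ALT.alt G (Fin G.n) (Nat.card_fin _) _ _ Ψ (fun L x w m₁ m₂ d1 d2 hm => ?_)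
    (fun i L x w => ?_) L x w
  · simpa only [hΨ] using h
  · obtain ⟨F₁, a1, t1⟩ := d1
    obtain ⟨F₂, a2, t2⟩ := d2
    rw [hΨ]
    refine h2 L (L.sub F₁) (L.sub F₂) F₁.val F₂.val _ (fun s hs => ?_) (fun s hs => ?_)
      ((add_le_add t1 t2).trans (by exact_mod_cast hm))
    · obtain ⟨t, k⟩ := s
      obtain ⟨i | i, rfl⟩ := E.surjective t
      · exact ⟨⟨_, ((Cd.pi (Fin G.n) xz).all_iff _ x).1 a1 (i, k)⟩,
          congrArg (xz.co · k) (gl L (x, w) i).symm⟩
      · exact absurd ((s2 i).symm.trans hs) (by simp)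
    · obtain ⟨t, k⟩ := s
      obtain ⟨i | i, rfl⟩ := E.surjective t
      · exact absurd (s1 i) hs
      · exact ⟨⟨_, ((Cd.pi (Fin G.n) xz).all_iff _ w).1 a2 (i, k)⟩,
          congrArg (xz.co · k) (gr L (x, w) i).symm⟩
  · rw [hΨ, hΨ, ← h1 (E (Sum.inl i)) L, gl]
    congr 1
    funext t
    obtain ⟨k | k, rfl⟩ := E.surjective t
    · rw [gl]
      by_cases e : k = i
      · subst e; simp
      · rw [Function.update_of_ne (fun e' => e (by simpa using e')), gl]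
        exact Function.update_of_ne e _ _
    · rw [gr, Function.update_of_ne (by simp), gr]

end XRa

open XRa in
theorem XR_thm [ALT K] [XA K] [XC] [XV K p] [XW K p] [XS K p] : XR K p where
  rel {G q} hq hF α s hs hsub hfx β hβ hα := by
    have q0 : ((q : ℂ) ^ 2) ≠ 0 := pow_ne_zero _ (Nat.cast_ne_zero.2 (by omega))
    obtain ⟨r, sd, E, s1, s2, hc⟩ := XC.col (XA.three G).2.1
    obtain ⟨e, hA, hne⟩ := hc α _ β s q0 hs hsub hβ hα
    set lam := lpv α ((q : ℂ) ^ 2) with hlam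
    let c : Equiv.Perm (Fin G.n) → ℂ := fun π => (ev lam r (tp E π) e).1
    let x : Equiv.Perm (Fin G.n) → ℕ := fun π => (ev lam r (tp E π) e).2.1
    let y : Equiv.Perm (Fin G.n) → ℕ := fun π => (ev lam r (tp E π) e).2.2
    let Y := ∑ π, y π
    have hY : ∀ π, y π ≤ Y := fun π =>
      Finset.single_le_sum (fun _ _ => Nat.zero_le _) (Finset.mem_univ π)
    refine ⟨∑ π, Polynomial.monomial (x π + (Y - y π))
      (((Equiv.Perm.sign π : ℤ) : ℂ) * (c π * (q : ℂ) ^ (2 * y π))), ?_, ?_⟩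
    · refine fun h => mul_ne_zero (pow_ne_zero Y hβ) hne ?_
      rw [← h, Polynomial.eval_finsetSum, Finset.mul_sum]
      refine Finset.sum_congr rfl fun π _ => ?_
      have e1 : β ^ Y = β ^ (Y - y π) * β ^ y π := by rw [← pow_add, Nat.sub_add_cancel (hY π)]
      have e2 : (q : ℂ) ^ (2 * y π) = β ^ y π * ((q : ℂ) ^ 2 / β) ^ y π := by
        rw [← mul_pow, mul_div_cancel₀ _ hβ, pow_mul]
      rw [Polynomial.eval_monomial, e1, e2]
      ring
    intro φ a1 a2 v hv t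
    obtain ⟨φ', b0, b1, b2⟩ := XV.pull hF φ fun b => bif b then t + Y else 0
    obtain ⟨Φ, c1, c2, c3⟩ := iter hq hF lam (fun x m hm => by
      obtain ⟨l1, l2⟩ := lam_eq q0 hs x m
      rw [hfx m hm, pow_mul]
      exact ⟨l1, l2.trans l1.symm⟩) φ' (b1 a1) (b2 _ a2) sd r
    obtain ⟨ψ, d0, d1, d2⟩ := XV.pull hF Φ e
    obtain ⟨L, P, hL, hP, hd⟩ := XW.gen (p := p) G (Fin G.n)
    have h := alt E _ s1 s2 ψ (d1 c1) (d2 _ c2) L P P
    have hcard : Nat.card (Tw r) = 2 * Nat.card (Fin G.n) := by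
      rw [← Nat.card_congr E, Nat.card_sum, two_mul]
    have key : ∀ π : Equiv.Perm (Fin G.n),
        ψ.a L (fun t => Sum.elim (fun i => P (π i)) P (E.symm t)) = Bridge.dg (xf L P) *
          (c π * ((q : ℂ) ^ (2 * y π) * v (x π + (Y - y π) + t)) / 2 ^ r) := fun π => by
      have e1 : DV G q φ'.a not (fun b => bif b then x π else y π)
          ((q : ℂ) ^ (2 * y π) * v (x π + (Y - y π) + t)) := fun L P g1 g2 g3 => by
        rw [b0, cfg_cfg]
        refine (XW.shift hF φ inv_not _ _ true (y π) _ ?_ ?_ ?_).2 (hv _) L P g1 g2 g3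
        · have := hY π
          show x π + (t + Y) = x π + (Y - y π) + t + y π
          omega
        · show y π + 0 = 0 + y π
          omega
        · rintro (_ | _) h h'
          exacts [absurd rfl h', absurd rfl h]
      have e2 : xf L (fun t => Sum.elim (fun i => P (π i)) P (E.symm t)) = xf L P := by
        refine congrArg (IntermediateField.adjoin K) (Set.Subset.antisymm ?_ ?_)
        · rintro _ ⟨⟨t, k⟩, rfl⟩
          obtain ⟨i | i, rfl⟩ := E.surjective t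
          · exact ⟨(π i, k), by simp⟩
          · exact ⟨(i, k), by simp⟩
        · rintro _ ⟨⟨i, k⟩, rfl⟩
          exact ⟨(E (Sum.inr i), k), by simp⟩
      rw [d0, ← e2]
      refine c3 _ e _ (inv_tp E π) (hA π) e1 L _ (hcard ▸ hL) (fun t => ?_) fun t => ?_
      · obtain ⟨i | i, rfl⟩ := E.surjective t <;> simpa using hP _
      · obtain ⟨i | i, rfl⟩ := E.surjective t <;> simp [tp]
    have h0 : (Bridge.dg (xf L P) : ℂ) / 2 ^ r ≠ 0 :=
      div_ne_zero (Nat.cast_ne_zero.2 hd) (pow_ne_zero _ two_ne_zero)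
    refine (mul_eq_zero.1 ?_).resolve_left h0
    have e3 := map_sum (Polynomial.lsum (R := ℂ) fun j => LinearMap.mulRight ℂ (v (j + t)))
      (fun π => Polynomial.monomial (x π + (Y - y π))
        (((Equiv.Perm.sign π : ℤ) : ℂ) * (c π * (q : ℂ) ^ (2 * y π)))) Finset.univ
    simp only [Polynomial.lsum_apply, LinearMap.mulRight_apply] at e3
    rw [e3, ← h, Finset.mul_sum]
    refine Finset.sum_congr rfl fun π _ => ?_
    rw [key, Polynomial.sum_monomial_index _ (fun j a => a * v (j + t)) (zero_mul _)]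
    ring

end Pool.Agent.Lib.MP_557161_ag.HG
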