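import Pool.Agent.Lib.MP_557161_ag.HG.StY

/-!
A simple root modulo a discrete place gives a unique unramified place with the same residue field.
-/

namespace Pool.Agent.Lib.MP_557161_ag.HG

open Pool.Agent.Lib.MP_557161_ag.DL Pool.Agent.Lib.MP_557161_ag.DL.Pl
open Pool.Agent.Lib.MP_557161_ag.DL.Pl.ValB Polynomial

namespace XHa

variable {K : Type} [Field K] {M₀ M : Fld K}

/-- Evaluation of integral polynomials at `θ`. -/
noncomputable abbrev ev (β : M₀ →ₐ[K] M) (O : Pl M₀) (θ : M) : O.O[X] →+* M :=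
  eval₂RingHom (ph β O) θ

/-- The residue of the constant coefficient. -/
noncomputable abbrev rho (O : Pl M₀) : O.O[X] →+* O.res := O.rh.comp constantCoeff

variable {β : M₀ →ₐ[K] M} {O : Pl M₀} {θ : M}

lemma ev_C (c : O.O) : ev β O θ (C c) = β c := eval₂_C _ _

lemma ev_X : ev β O θ X = θ := eval₂_X _ _

lemma ev_map (a : O.O[X]) : (a.map O.O.subtype).eval₂ β.toRingHom θ = ev β O θ a := by
  rw [eval₂_map]; rfl

lemma rho_C (c : O.O) : rho O (C c) = O.rd c := by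
  rw [O.rd_coe]
  exact congrArg O.rh (coeff_C_zero)

lemma rho_X : rho O X = 0 := by
  rw [RingHom.comp_apply, constantCoeff_apply, coeff_X_zero, map_zero]

/-- The hypotheses on the polynomial. -/
structure Hy (β : M₀ →ₐ[K] M) (O : Pl M₀) (θ : M) (h : O.O[X]) : Prop where
  c0 : O.rh (h.coeff 0) = 0
  c1 : O.rh (h.coeff 1) ≠ 0
  ker : ∀ g : M₀[X], g.eval₂ β.toRingHom θ = 0 ↔ h.map O.O.subtype ∣ g

variable {h : O.O[X]} {π : M₀}

lemma Hy.rho_eq (H : Hy β O θ h) {a : O.O[X]} (ha : ev β O θ a = 0) : rho O a = 0 := by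
  obtain ⟨c, hc⟩ := (H.ker (a.map O.O.subtype)).1 ((ev_map a).trans ha)
  have inj : Function.Injective (map O.O.subtype : O.O[X] → M₀[X]) :=
    map_injective _ Subtype.val_injective
  by_cases h0 : c = 0
  · rw [h0, mul_zero, ← Polynomial.map_zero O.O.subtype] at hc
    rw [inj hc, map_zero]
  obtain ⟨γ, c', g0, g1, rfl⟩ := exists_prim O h0
  have h1 : h.map O.rh ≠ 0 := fun e => H.c1 (by rw [← coeff_map, e, coeff_zero])
  have hγ : γ ∈ O.O := by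
    by_contra h2
    have h3 := (O.O.mem_or_inv_mem γ).resolve_left h2
    have h4 : O.rh ⟨γ⁻¹, h3⟩ = 0 := by
      rw [← O.rd_of_mem h3]
      exact by_contra fun e => h2 (inv_inv γ ▸ (un_of_rd h3 e).2.2)
    have h5 : C (⟨γ⁻¹, h3⟩ : O.O) * a = h * c' := inj (by
      rw [Polynomial.map_mul, Polynomial.map_mul, hc, map_C, mul_left_comm, ← mul_assoc (C _),
        ← C_mul]
      erw [inv_mul_cancel₀ g0]
      rw [C_1, one_mul])
    have h6 := congrArg (map O.rh) h5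
    rw [Polynomial.map_mul, Polynomial.map_mul, map_C, h4, C_0, zero_mul] at h6
    exact mul_ne_zero h1 g1 h6.symm
  have h7 : a = h * (C (⟨γ, hγ⟩ : O.O) * c') := inj (by
    rw [hc, Polynomial.map_mul, Polynomial.map_mul, map_C]; rfl)
  rw [h7, map_mul]
  exact mul_eq_zero_of_left H.c0 _

lemma Hy.ev_ne (H : Hy β O θ h) {a : O.O[X]} (ha : rho O a ≠ 0) : ev β O θ a ≠ 0 :=
  fun e => ha (H.rho_eq e)

lemma exists_div (hπ : Unif O π) {c : O.O} (hc : O.rh c = 0) :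
    ∃ d : O.O, (c : M₀) = π * d := by
  by_cases h0 : (c : M₀) = 0
  · exact ⟨0, by rw [h0]; simp⟩
  obtain ⟨n, u, hu, e⟩ := hπ.2.2.2 c h0
  have h1 := (hπ.mem_iff hu n).1 (e ▸ c.2)
  have h2 : n ≠ 0 := fun e' => by
    rw [e', zpow_zero, mul_one] at e
    exact hu.rd (by rw [← e, O.rd_coe, hc])
  refine ⟨⟨u * π ^ (n - 1), (hπ.mem_iff hu _).2 (by omega)⟩, ?_⟩
  show (c : M₀) = π * (u * π ^ (n - 1))
  rw [e, zpow_sub_one₀ hπ.1, mul_left_comm, mul_left_comm π, mul_inv_cancel₀ hπ.1, mul_one]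

lemma ev_split (a : O.O[X]) : ev β O θ a = β (a.coeff 0) + θ * ev β O θ a.divX := by
  conv_lhs => rw [← X_mul_divX_add a]
  rw [map_add, map_mul, ev_X, ev_C, add_comm]

lemma Hy.step (H : Hy β O θ h) (hπ : Unif O π) {a : O.O[X]} (ha : rho O a = 0) :
    ∃ a', ev β O θ a * ev β O θ h.divX = β π * ev β O θ a' := by
  obtain ⟨c, hc⟩ := exists_div hπ (c := a.coeff 0) ha
  obtain ⟨d, hd⟩ := exists_div hπ H.c0
  have h1 : ev β O θ h = 0 := (ev_map h).symm.trans ((H.ker _).2 dvd_rfl)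
  rw [ev_split, hd, map_mul] at h1
  refine ⟨C c * h.divX - C d * a.divX, ?_⟩
  rw [ev_split a, hc, map_sub, map_mul, map_mul, map_mul, ev_C, ev_C]
  linear_combination ev β O θ a.divX * h1

lemma exists_int (hπ : Unif O π) (P : M₀[X]) :
    ∃ (N : ℕ) (q : O.O[X]), β π ^ N * P.eval₂ β.toRingHom θ = ev β O θ q := by
  by_cases hP : P = 0
  · exact ⟨0, 0, by rw [hP, eval₂_zero, mul_zero, map_zero]⟩
  obtain ⟨c, a, c0, -, rfl⟩ := exists_prim O hP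
  obtain ⟨n, u, hu, rfl⟩ := hπ.2.2.2 c c0
  refine ⟨(-n).toNat, C ⟨u * π ^ (n + (-n).toNat), (hπ.mem_iff hu _).2 (by omega)⟩ * a, ?_⟩
  rw [eval₂_mul, eval₂_C, ev_map, map_mul (ev β O θ), ev_C, ← mul_assoc, ← map_pow]
  congr 1
  refine (map_mul β _ _).symm.trans (congrArg β ?_)
  show π ^ (-n).toNat * (u * π ^ n) = u * π ^ (n + (-n).toNat)
  rw [zpow_add₀ hπ.1, zpow_natCast]
  ring

lemma Hy.prime (H : Hy β O θ h) : Prime (h.map O.O.subtype) := by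
  refine ⟨fun e => H.c1 ?_, fun e => ?_, fun a b e => ?_⟩
  · rw [(Polynomial.map_eq_zero_iff Subtype.val_injective).1 e, coeff_zero, map_zero]
  · have := (H.ker 1).2 e.dvd
    rw [eval₂_one] at this
    exact one_ne_zero this
  · rwa [← H.ker, eval₂_mul, mul_eq_zero, H.ker, H.ker] at e

lemma Hy.dec0 (H : Hy β O θ h) (hπ : Unif O π) {P : M₀[X]} (hP : P.eval₂ β.toRingHom θ ≠ 0) :
    ∃ (n : ℤ) (a b : O.O[X]), rho O a ≠ 0 ∧ rho O b ≠ 0 ∧
      P.eval₂ β.toRingHom θ * ev β O θ b = β π ^ n * ev β O θ a := by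
  have p0 : β π ≠ 0 := (_root_.map_ne_zero β).2 hπ.1
  obtain ⟨u, v, huv⟩ := (H.prime.irreducible.coprime_iff_not_dvd).2 fun e => hP ((H.ker P).2 e)
  have h1 := congrArg (eval₂ β.toRingHom θ) huv
  rw [eval₂_add, eval₂_mul, eval₂_mul, (H.ker _).2 dvd_rfl, mul_zero, zero_add, eval₂_one] at h1
  obtain ⟨N, q, hq⟩ := exists_int (β := β) (θ := θ) hπ v
  obtain ⟨N', a₀, h2⟩ := exists_int (β := β) (θ := θ) hπ P
  generalize P.eval₂ β.toRingHom θ = y at *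
  have hu : rho O h.divX ≠ 0 := by
    rw [RingHom.comp_apply, constantCoeff_apply, coeff_divX]
    exact H.c1
  by_contra hn
  have key : ∀ n : ℕ, ∃ a b, rho O b ≠ 0 ∧
      β π ^ N' * y * ev β O θ b = β π ^ n * ev β O θ a := by
    intro n
    induction n with
    | zero => exact ⟨a₀, 1, by simp, by rw [map_one, mul_one, pow_zero, one_mul, h2]⟩
    | succ n ih =>
      obtain ⟨a, b, hb, e⟩ := ih
      by_cases ha : rho O a = 0
      · obtain ⟨a', e'⟩ := H.step hπ ha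
        refine ⟨a', b * h.divX, by rw [map_mul]; exact mul_ne_zero hb hu, ?_⟩
        rw [map_mul, ← mul_assoc, e, mul_assoc, e', pow_succ, mul_assoc]
      · refine (hn ⟨(n : ℤ) - N', a, b, ha, hb, ?_⟩).elim
        rw [zpow_sub₀ p0, zpow_natCast, zpow_natCast, div_mul_eq_mul_div,
          eq_div_iff (pow_ne_zero _ p0), ← e]
        ring
  obtain ⟨a, b, hb, e⟩ := key (N + N' + 1)
  have h3 : ev β O θ (b - C ⟨π, hπ.2.1⟩ * a * q) = 0 := by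
    refine mul_left_cancel₀ (pow_ne_zero (N + N') p0) ?_
    rw [map_sub, map_mul, map_mul, ev_C, ← hq, mul_zero]
    show β π ^ (N + N') * (_ - β π * _ * _) = 0
    linear_combination (β π ^ N * eval₂ β.toRingHom θ v) * e -
      (β π ^ (N + N') * ev β O θ b) * h1
  have h4 := H.rho_eq h3
  have h5 : O.rd π = 0 := by_contra fun e => hπ.2.2.1 (un_of_rd hπ.2.1 e).2.2
  rw [map_sub, map_mul, map_mul, rho_C] at h4
  erw [h5] at h4
  rw [zero_mul, zero_mul, sub_zero] at h4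
  exact hb h4

lemma Hy.dec (H : Hy β O θ h) (hπ : Unif O π) (hg : Gen β θ) {x : M} (hx : x ≠ 0) :
    ∃ (n : ℤ) (a b : O.O[X]), rho O a ≠ 0 ∧ rho O b ≠ 0 ∧
      x * ev β O θ b = β π ^ n * ev β O θ a := by
  have p0 : β π ≠ 0 := (_root_.map_ne_zero β).2 hπ.1
  obtain ⟨P, Q, h1, e⟩ := hg x
  obtain ⟨n, a, b, ha, hb, e1⟩ := H.dec0 hπ (P := P) (e ▸ mul_ne_zero hx h1)
  obtain ⟨m, c, d, hc, hd, e2⟩ := H.dec0 hπ h1
  refine ⟨n - m, a * d, b * c, by rw [map_mul]; exact mul_ne_zero ha hd,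
    by rw [map_mul]; exact mul_ne_zero hb hc, ?_⟩
  rw [zpow_sub₀ p0, div_mul_eq_mul_div, eq_div_iff (zpow_ne_zero _ p0), map_mul, map_mul]
  linear_combination (ev β O θ d) * e1 - (x * ev β O θ b) * e2 +
    (ev β O θ b * ev β O θ d) * e

lemma rd_ev {O' : Pl M} (ov : Over β O O') (h1 : θ ∈ O'.O) (h2 : O'.rd θ = 0) (a : O.O[X]) :
    ev β O θ a ∈ O'.O ∧ O'.rd (ev β O θ a) = ov.resHom (rho O a) := by
  have := gauss_rd ov h1 a
  rwa [h2, eval₂_at_zero, coeff_map] at this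

lemma un_ev {O' : Pl M} (ov : Over β O O') (h1 : θ ∈ O'.O) (h2 : O'.rd θ = 0) {a : O.O[X]}
    (ha : rho O a ≠ 0) : Un O' (ev β O θ a) :=
  un_of_rd (rd_ev ov h1 h2 a).1 (by
    rw [(rd_ev ov h1 h2 a).2]; exact (_root_.map_ne_zero _).2 ha)

lemma Hy.unif (H : Hy β O θ h) (hπ : Unif O π) (hg : Gen β θ) {O' : Pl M} (ov : Over β O O')
    (h1 : θ ∈ O'.O) (h2 : O'.rd θ = 0) : Unif O' (β π) := by
  refine ⟨(_root_.map_ne_zero β).2 hπ.1, (ov _).1 hπ.2.1, by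
    rw [← map_inv₀, ← ov]; exact hπ.2.2.1, fun x hx => ?_⟩
  obtain ⟨n, a, b, ha, hb, e⟩ := H.dec hπ hg hx
  have h3 := un_ev ov h1 h2 hb
  refine ⟨n, _, (un_ev ov h1 h2 ha).mul h3.inv, ?_⟩
  rw [(eq_mul_inv_iff_mul_eq₀ h3.1).2 e]
  ring

lemma Hy.uniq (H : Hy β O θ h) (hπ : Unif O π) (hg : Gen β θ) {O₁ O₂ : Pl M} (o₁ : Over β O O₁)
    (o₂ : Over β O O₂) (m₁ : θ ∈ O₁.O) (m₂ : θ ∈ O₂.O) (r₁ : O₁.rd θ = 0) (r₂ : O₂.rd θ = 0) :
    O₁ = O₂ := by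
  refine Pl.ext fun x => ?_
  by_cases hx : x = 0
  · rw [hx]
    exact iff_of_true (zero_mem _) (zero_mem _)
  obtain ⟨n, a, b, ha, hb, e⟩ := H.dec hπ hg hx
  rw [← (un_ev o₁ m₁ r₁ hb).mul_mem_iff, ← (un_ev o₂ m₂ r₂ hb).mul_mem_iff (x := x), mul_comm, e,
    mul_comm, (H.unif hπ hg o₁ m₁ r₁).mem_iff (un_ev o₁ m₁ r₁ ha),
    (H.unif hπ hg o₂ m₂ r₂).mem_iff (un_ev o₂ m₂ r₂ ha)]

lemma Hy.ex (H : Hy β O θ h) (hπ : Unif O π) (hg : Gen β θ) :
    ∃ (O' : Pl M) (ov : Over β O O'), θ ∈ O'.O ∧ O'.rd θ = 0 ∧ Function.Surjective ov.resHom := by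
  have p0 : β π ≠ 0 := (_root_.map_ne_zero β).2 hπ.1
  have hC : ev β O θ (C ⟨π, hπ.2.1⟩) = β π := ev_C _
  have HH : ∀ x : M, ∃ a b, rho O b ≠ 0 ∧
      (x * ev β O θ b = ev β O θ a ∨ x⁻¹ * ev β O θ b = ev β O θ a) := fun x => by
    by_cases hx : x = 0
    · exact ⟨0, 1, by simp, Or.inl (by rw [hx, zero_mul, map_zero])⟩
    obtain ⟨n, a, b, ha, hb, e⟩ := H.dec hπ hg hx
    obtain ⟨k, rfl | rfl⟩ := n.eq_nat_or_neg
    · exact ⟨C ⟨π, hπ.2.1⟩ ^ k * a, b, hb, Or.inl (by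
        rw [map_mul, map_pow, hC, ← zpow_natCast]; exact e)⟩
    · refine ⟨C ⟨π, hπ.2.1⟩ ^ k * b, a, ha, Or.inr ?_⟩
      rw [zpow_neg, zpow_natCast, eq_inv_mul_iff_mul_eq₀ (pow_ne_zero _ p0)] at e
      rw [map_mul, map_pow, hC, inv_mul_eq_iff_eq_mul₀ hx, mul_left_comm]
      exact e.symm
  have hi : ∀ a, ev β O θ a ≠ 0 → (ev β O θ a)⁻¹ ∈ loc (ev β O θ) (rho O) HH → rho O a ≠ 0 := by
    rintro a h0 ⟨c, b, hb, e⟩ ha
    rw [inv_mul_eq_iff_eq_mul₀ h0] at e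
    have := H.rho_eq (a := b - a * c) (by rw [map_sub, map_mul, e, sub_self])
    rw [map_sub, map_mul, ha, zero_mul, sub_zero] at this
    exact hb this
  let O' : Pl M := ⟨loc (ev β O θ) (rho O) HH, fun c => by
    rw [← β.commutes]
    exact ev_C (β := β) (θ := θ) ⟨_, O.const c⟩ ▸ ev_mem_loc _⟩
  have ov : Over β O O' := fun f => ⟨fun hf =>
    ev_C (β := β) (θ := θ) ⟨f, hf⟩ ▸ ev_mem_loc (H := HH) _, fun hf => by
    by_contra h1
    have h2 := (O.O.mem_or_inv_mem f).resolve_left h1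
    have h0 : f ≠ 0 := fun e => h1 (e ▸ zero_mem _)
    have h3 := hi (C ⟨f⁻¹, h2⟩) (by
      rw [ev_C]; exact (_root_.map_ne_zero β).2 (inv_ne_zero h0))
      (by rw [ev_C, map_inv₀, inv_inv]; exact hf)
    rw [rho_C] at h3
    exact h1 (inv_inv f ▸ (un_of_rd h2 h3).2.2)⟩
  have m : θ ∈ O'.O := (ev_X : ev β O θ X = θ) ▸ ev_mem_loc (H := HH) _
  have r : O'.rd θ = 0 := by_contra fun e =>
    hi X (by rw [ev_X]; exact (un_of_rd m e).1) (by rw [ev_X]; exact (un_of_rd m e).2.2) rho_X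
  refine ⟨O', ov, m, r, fun z => ?_⟩
  obtain ⟨x, hx, rfl⟩ := O'.rd_surj z
  obtain ⟨a, b, hb, e⟩ := id hx
  refine ⟨rho O a / rho O b, ?_⟩
  rw [map_div₀, div_eq_iff ((_root_.map_ne_zero ov.resHom).2 hb), ← (rd_ev ov m r a).2,
    ← (rd_ev ov m r b).2, ← rd_mul _ hx (rd_ev ov m r b).1]
  exact (congrArg O'.rd e).symm

end XHa

open XHa in
theorem XH_thm {K : Type} [Field K] : XH K := ⟨fun {j M₀ M β} O₀ θ h _ hg hc h0 h1 hk => by
  obtain ⟨h', rfl⟩ := (mem_lifts (f := O₀.1.O.subtype) _).1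
    ((lifts_iff_coeff_lifts h).2 fun n => ⟨⟨_, hc n⟩, rfl⟩)
  rw [coeff_map] at h0 h1
  have H : Hy β O₀.1 θ h' := ⟨(O₀.1.rd_coe _).symm.trans h0,
    fun e => h1 ((O₀.1.rd_coe _).trans e), hk⟩
  obtain ⟨π, hπ⟩ := exists_unif O₀.2.1
  obtain ⟨O, ov, m, r, s⟩ := H.ex hπ hg
  have u := H.unif hπ hg ov m r
  refine ⟨⟨O, u.isDVR, (Fin'.of_surj s).tr_eq.trans O₀.2.2⟩, ov, m, r, fun f => ?_, s,
    fun O' o' m' r' => H.uniq hπ hg o' ov m' m r' r⟩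
  by_cases hf : f = 0
  · rw [hf, map_zero, ord_zero _ O₀.2.1, ord_zero _ u.isDVR]
  · obtain ⟨n, v, hv, rfl⟩ := hπ.2.2.2 f hf
    rw [hπ.ord_eq hv, map_mul, map_zpow₀, u.ord_eq ((Un.map ov).2 hv)]⟩

end Pool.Agent.Lib.MP_557161_ag.HG
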