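import Pool.Agent.Lib.MP_557161_ag.TU.T1b

/-!
The trace formula on the span of finitely many orbits, and the multiplicities of the eigenvalues.
-/

namespace Pool.Agent.Lib.MP_557161_ag.HG.XT1

open Polynomial Finset Module Pool.Agent.Lib.MP_557161_ag.DL

theorem tr_fin {E : Type} [AddCommGroup E] [Module ℚ E] (U : Submodule ℚ E)
    [FiniteDimensional ℚ U] (T : End ℚ U) {ι : Type} [Fintype ι] (φ : ι → E →ₗ[ℚ] ℚ) (B : ι → E)
    (h1 : ∀ u : U, (T u : E) = ∑ s, φ s u • B s) (h2 : ∀ s', ∑ s, φ s (B s') • B s ∈ U) :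
    LinearMap.trace ℚ U T = ∑ s, φ s (B s) := by
  have := FiniteDimensional.span_of_finite ℚ (Set.finite_range B)
  let W := U ⊔ Submodule.span ℚ (Set.range B)
  let S : E →ₗ[ℚ] E := ∑ s, (φ s).smulRight (B s)
  have hS : ∀ v, S v = ∑ s, φ s v • B s := fun v => by
    simp only [S, LinearMap.sum_apply, LinearMap.smulRight_apply]
  have hW : W ≤ U.comap S := by
    refine sup_le (fun u hu => ?_) (Submodule.span_le.2 ?_)
    · rw [Submodule.mem_comap, hS, ← h1 ⟨u, hu⟩]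
      exact Subtype.mem _
    · rintro _ ⟨s, rfl⟩
      rw [SetLike.mem_coe, Submodule.mem_comap, hS]
      exact h2 s
  let g : W →ₗ[ℚ] U := (S ∘ₗ W.subtype).codRestrict U fun v => hW v.2
  let i : U →ₗ[ℚ] W := Submodule.inclusion le_sup_left
  let B' : ι → W := fun s => ⟨B s, Submodule.mem_sup_right (Submodule.subset_span ⟨s, rfl⟩)⟩
  have e1 : T = g ∘ₗ i := LinearMap.ext fun u => Subtype.ext ((h1 u).trans (hS u).symm)
  have e2 : i ∘ₗ g = ∑ s, (φ s ∘ₗ W.subtype).smulRight (B' s) := by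
    refine LinearMap.ext fun v => Subtype.ext ((hS v).trans ?_)
    simp only [LinearMap.sum_apply, LinearMap.smulRight_apply, Submodule.coe_sum,
      Submodule.coe_smul]
    rfl
  rw [e1, LinearMap.trace_comp_comm', e2, map_sum]
  exact sum_congr rfl fun s _ => LinearMap.trace_smulRight _ _

theorem abs {Pr : Type} (θ : Equiv.Perm Pr) (ip : Pr → Pr → ℚ) (H : Set Pr)
    (hH : ∀ u ∈ H, θ u ∈ H) (hip : ∀ u z, ip (θ u) (θ z) = ip u z) (q : ℚ) (f : ℚ[X])
    (hf : f.eval q ≠ 0) {ι : ℕ → Type} [∀ t, Fintype (ι t)]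
    (c : ∀ t, ι t → ℚ) (a b : ∀ t, ι t → Pr) (hb : ∀ t s, b t s ∈ H)
    (h : ∀ t, ∀ u ∈ H, ∀ z, (f.sum fun j x => x * (q ^ (j + t) * ip ((θ ^ (j + t)) u) z)) =
      ∑ s, c t s * (ip u (a t s) * ip (b t s) z))
    {R : ℕ} (hR : 0 < R) (hbR : ∀ s, (θ ^ R) (b 0 s) = b 0 s) :
    ∃ tr : ℕ → ℚ, (∀ t, (f.sum fun j x => x * (q ^ (j + t) * tr (j + t))) =
        ∑ s, c t s * ip (b t s) (a t s)) ∧
      ∀ ω : ℂ, IsPrimitiveRoot ω R → FiniteDimensional ℚ (T0.inv θ ip H) ∧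
        ∃ μ : ℕ → ℕ, μ 0 = finrank ℚ (T0.inv θ ip H) ∧
          ∀ m, (tr m : ℂ) = ∑ j ∈ range R, μ j * ω ^ (j * m) := by
  let V := Submodule.span ℚ (ip '' H)
  let Θ : End ℚ (Pr → ℚ) := LinearMap.funLeft ℚ ℚ θ.symm
  have hΘ : ∀ u, Θ (ip u) = ip (θ u) := fun u => funext fun z => by
    show ip u (θ.symm z) = _
    rw [← hip, θ.apply_symm_apply]
  have hΘm : ∀ m u, (Θ ^ m) (ip u) = ip ((θ ^ m) u) := by
    intro m u
    induction m with
    | zero => rfl
    | succ m ih => rw [pow_succ', End.mul_apply, ih, hΘ, pow_succ', Equiv.Perm.mul_apply]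
  have hHm : ∀ m, ∀ u ∈ H, (θ ^ m) u ∈ H := by
    intro m u hu
    induction m with
    | zero => exact hu
    | succ m ih => rw [pow_succ', Equiv.Perm.mul_apply]; exact hH _ ih
  have hV : ∀ m, ∀ v ∈ V, (Θ ^ m) v ∈ V := by
    intro m v hv
    refine (Submodule.span_le (p := V.comap (Θ ^ m))).2 ?_ hv
    rintro _ ⟨u, hu, rfl⟩
    show (Θ ^ m) (ip u) ∈ V
    rw [hΘm]
    exact Submodule.subset_span ⟨_, hHm m u hu, rfl⟩
  let U := Submodule.span ℚ (Set.range fun x : ι 0 × ℕ => ip ((θ ^ x.2) (b 0 x.1)))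
  have hUV : U ≤ V := Submodule.span_le.2 (by
    rintro _ ⟨x, rfl⟩
    exact Submodule.subset_span ⟨_, hHm _ _ (hb 0 _), rfl⟩)
  have hfin : FiniteDimensional ℚ U := by
    refine FiniteDimensional.span_of_finite ℚ ((Set.finite_range
      fun x : ι 0 × Fin R => ip ((θ ^ (x.2 : ℕ)) (b 0 x.1))).subset ?_)
    rintro _ ⟨⟨s, j⟩, rfl⟩
    refine ⟨(s, ⟨j % R, Nat.mod_lt _ hR⟩), congrArg ip ?_⟩
    conv_rhs => rw [← Nat.mod_add_div j R, pow_add, Equiv.Perm.mul_apply, pow_mul,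
      Equiv.Perm.pow_apply_eq_self_of_apply_eq_self (hbR s)]
  have hU : ∀ v ∈ U, Θ v ∈ U := by
    intro v hv
    refine (Submodule.span_le (p := U.comap Θ)).2 ?_ hv
    rintro _ ⟨x, rfl⟩
    show Θ (ip _) ∈ U
    rw [hΘ, ← Equiv.Perm.mul_apply, ← pow_succ']
    exact Submodule.subset_span ⟨(x.1, x.2 + 1), rfl⟩
  let Θ' : End ℚ U := Θ.restrict hU
  have hΘ' : ∀ m (v : U), ((Θ' ^ m) v : Pr → ℚ) = (Θ ^ m) v := by
    intro m v
    induction m with
    | zero => rfl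
    | succ m ih => rw [pow_succ', pow_succ', End.mul_apply, End.mul_apply, ← ih]; rfl
  have hT : ∀ t, ∀ v ∈ V, ∑ j ∈ f.support, (f.coeff j * q ^ (j + t)) • (Θ ^ (j + t)) v =
      ∑ s, (c t s * v (a t s)) • ip (b t s) := by
    intro t v hv
    have h1 : V ≤ LinearMap.eqLocus (∑ j ∈ f.support, (f.coeff j * q ^ (j + t)) • Θ ^ (j + t))
        (∑ s, c t s • (LinearMap.proj (a t s) : (Pr → ℚ) →ₗ[ℚ] ℚ).smulRight (ip (b t s))) := by
      refine Submodule.span_le.2 ?_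
      rintro _ ⟨u, hu, rfl⟩
      rw [SetLike.mem_coe, LinearMap.mem_eqLocus]
      funext z
      have := h t u hu z
      rw [sum_def] at this
      simp only [LinearMap.sum_apply, LinearMap.smul_apply, Finset.sum_apply, Pi.smul_apply, hΘm,
        smul_eq_mul, LinearMap.smulRight_apply, LinearMap.proj_apply, mul_assoc]
      exact this
    have h2 := LinearMap.mem_eqLocus.1 (h1 hv)
    simp only [LinearMap.sum_apply, LinearMap.smul_apply, LinearMap.smulRight_apply,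
      LinearMap.proj_apply, smul_smul] at h2
    exact h2
  have hTU : ∀ t, ∀ v ∈ V,
      ∑ j ∈ f.support, (f.coeff j * q ^ (j + t)) • (Θ ^ (j + t)) v ∈ U := by
    intro t v hv
    have h1 := hT 0 _ (V.smul_mem (q ^ t) (hV t v hv))
    rw [sum_congr rfl fun j _ => show (f.coeff j * q ^ (j + 0)) • (Θ ^ (j + 0)) (q ^ t • (Θ ^ t) v)
      = (f.coeff j * q ^ (j + t)) • (Θ ^ (j + t)) v by
        rw [map_smul, smul_smul, add_zero, pow_add, pow_add, End.mul_apply, mul_assoc]] at h1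
    rw [h1]
    exact Submodule.sum_mem _ fun s _ => Submodule.smul_mem _ _
      (Submodule.subset_span ⟨(s, 0), rfl⟩)
  have hr1 : Θ' ^ R = 1 := by
    ext1 v
    apply Subtype.ext
    rw [hΘ', End.one_apply]
    refine (Submodule.span_le (p := LinearMap.eqLocus (Θ ^ R) LinearMap.id)).2 ?_ v.2
    rintro _ ⟨x, rfl⟩
    show (Θ ^ R) (ip _) = ip _
    rw [hΘm, ← Equiv.Perm.mul_apply, ← pow_add, add_comm, pow_add, Equiv.Perm.mul_apply, hbR]
  refine ⟨fun m => LinearMap.trace ℚ U (Θ' ^ m), fun t => ?_, fun ω hω => ?_⟩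
  · have h1 := tr_fin U (∑ j ∈ f.support, (f.coeff j * q ^ (j + t)) • Θ' ^ (j + t))
      (fun s => c t s • (LinearMap.proj (a t s) : (Pr → ℚ) →ₗ[ℚ] ℚ)) (fun s => ip (b t s))
      (fun u => by
        simp only [LinearMap.sum_apply, LinearMap.smul_apply, Submodule.coe_sum,
          Submodule.coe_smul, hΘ']
        exact hT t u (hUV u.2))
      fun s => by
        have hs : ip (b t s) ∈ V := Submodule.subset_span ⟨_, hb t s, rfl⟩
        have h2 := hTU t _ hs
        rw [hT t _ hs] at h2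
        exact h2
    simp only [map_sum, map_smul, smul_eq_mul, mul_assoc] at h1
    rw [sum_def]
    exact h1
  · obtain ⟨μ, h0, hμ⟩ := T0.fourier Θ' hR hr1 hω
    have e' : (LinearMap.eqLocus Θ' LinearMap.id).map U.subtype = T0.inv θ ip H := by
      ext v
      constructor
      · rintro ⟨v, hv, rfl⟩
        exact ⟨hUV v.2, congrArg Subtype.val hv⟩
      · rintro ⟨h1, h2⟩
        have h3 : ∀ m, (Θ ^ m) v = v := fun m => by
          induction m with
          | zero => rfl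
          | succ m ih => rw [pow_succ', End.mul_apply, ih]; exact h2
        have h4 := hTU 0 v h1
        simp only [h3, add_zero] at h4
        rw [← sum_smul, ← sum_def f fun j x => x * q ^ j, ← eval_eq_sum,
          U.smul_mem_iff hf] at h4
        exact ⟨⟨v, h4⟩, Subtype.ext h2, rfl⟩
    refine ⟨e' ▸ inferInstance, μ, ?_, hμ⟩
    rw [h0, ← e', Submodule.finrank_map_subtype_eq]

theorem mult {q : ℕ} (hq : 1 < q) {d R : ℕ} (hR : 0 < R) {ω : ℂ} (hω : IsPrimitiveRoot ω R)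
    (μ : ℕ → ℕ → ℕ) {ι : Type} [Fintype ι] (γ : ι → ℂ) (f : ℂ[X])
    (h : ∀ t, 0 < t → (f.sum fun j a => a * (∑ i, γ i ^ (j + t) - ∑ n ∈ range (d + 1),
      ((q : ℂ) ^ n) ^ (j + t) * ∑ l ∈ range R, μ n l * ω ^ (l * (j + t)))) = 0)
    {n : ℕ} (hn : n ≤ d) (hf : f.eval ((q : ℂ) ^ n) ≠ 0) :
    (∑ i, if γ i = (q : ℂ) ^ n then 1 else 0 : ℤ) = μ n 0 := by
  classical
  have hq1 : (1 : ℝ) < q := by exact_mod_cast hq
  have hq0 : (q : ℂ) ≠ 0 := Nat.cast_ne_zero.2 (by omega)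
  let w : ℂ →₀ ℤ := ∑ i, Finsupp.single (γ i) 1 -
    ∑ x ∈ range (d + 1) ×ˢ range R, Finsupp.single ((q : ℂ) ^ x.1 * ω ^ x.2) (μ x.1 x.2 : ℤ)
  have h6 : ∀ t, ∑ z ∈ w.support, (w z : ℂ) * z ^ t = ∑ i, γ i ^ t - ∑ n ∈ range (d + 1),
      ((q : ℂ) ^ n) ^ t * ∑ l ∈ range R, μ n l * ω ^ (l * t) := fun t => by
    have h7 : ∑ z ∈ w.support, (w z : ℂ) * z ^ t =
        Finsupp.linearCombination ℤ (fun z : ℂ => z ^ t) w := by
      rw [Finsupp.linearCombination_apply, Finsupp.sum]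
      exact sum_congr rfl fun z _ => (zsmul_eq_mul _ _).symm
    rw [h7]
    simp only [w, map_sub, map_sum, Finsupp.linearCombination_single, zsmul_eq_mul, mul_sum,
      sum_product, Int.cast_one, one_mul]
    congr 1
    refine sum_congr rfl fun n _ => sum_congr rfl fun j _ => ?_
    rw [mul_pow, pow_mul, Int.cast_natCast]
    ring
  have h8 : w ((q : ℂ) ^ n) = 0 := by_contra fun h0 => hf
    (T0.vanish w.support (fun z => (w z : ℂ)) f (fun t ht => by simp only [h6]; exact h t ht) _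
      (Finsupp.mem_support_iff.2 h0) (pow_ne_zero _ hq0) (Int.cast_ne_zero.2 h0))
  have e : ∀ x ∈ range (d + 1) ×ˢ range R,
      (if (q : ℂ) ^ x.1 * ω ^ x.2 = (q : ℂ) ^ n then (μ x.1 x.2 : ℤ) else 0 : ℤ) =
      if x = (n, 0) then (μ n 0 : ℤ) else 0 := by
    rintro ⟨n', j⟩ hx
    have hj := mem_range.1 (mem_product.1 hx).2
    by_cases e : (n', j) = (n, 0)
    · obtain ⟨rfl, rfl⟩ := Prod.mk.inj e
      simp
    · rw [if_neg e, if_neg]
      intro h
      have a1 := congrArg norm h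
      rw [norm_mul, norm_pow, norm_pow, hω.norm'_eq_one hR.ne', one_pow, mul_one, norm_pow,
        Complex.norm_natCast] at a1
      obtain rfl : n' = n := pow_right_injective₀ (by positivity) hq1.ne' a1
      rw [mul_eq_left₀ (pow_ne_zero _ hq0), ← pow_zero ω] at h
      exact e (Prod.ext rfl (hω.pow_inj hj hR h))
  simp only [w, Finsupp.sub_apply, Finsupp.finsetSum_apply, Finsupp.single_apply] at h8
  rw [sum_congr rfl e, sum_ite_eq', if_pos (by simp [hR, hn])] at h8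
  exact sub_eq_zero.1 h8

end Pool.Agent.Lib.MP_557161_ag.HG.XT1
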