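import Pool.Agent.Lib.MP_557161_ag.HG.StY
import Pool.Agent.Lib.MP_557161_ag.HG.XT1
import Pool.Agent.Lib.MP_557161_ag.TU.T1a
import Pool.Agent.Lib.MP_557161_ag.TU.Pts
import Pool.Agent.Lib.MP_557161_ag.TU.Shift

/-!
The order of the pole of the zeta function from a decomposition of a polynomial in the graph of
Frobenius.
-/

namespace Pool.Agent.Lib.MP_557161_ag.HG

open Finset Pool.Agent.Lib.MP_557161_ag.DL

namespace XT1

open Polynomial T0 T0.T1a
open Pool.Agent.Lib.MP_60ec62_ag.DL (dm Cyc cm mem_cm)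

variable {k : Type} [Field k] [Fintype k] {K : Type} [Field K] [Algebra k K] [Base K] {p : ℕ}
  [FBar K p] {σ : Type} [Finite σ] (Y : Sm K σ) {e : ℕ} (hq : Fintype.card k = p ^ e)
  (hI : ∀ m, DefOver (p ^ (e * m)) Y.I)

include hq hI

omit [Base K] in
theorem th_cod (m n : ℕ) (u : PrimeSpectrum (MvPolynomial σ K))
    (hu : u ∈ cod Y n) : (th k K σ ^ m) u ∈ cod Y n := by
  refine ⟨(Y.C1.hp_cm_iff (hI m) _).1 ?_, by rw [dm_th_pow hq]; exact hu.2⟩
  rw [cm_th' hq]
  exact hu.1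

theorem row (f : ℚ[X]) (t : ℕ) {N : ℕ} {c : Fin N → ℚ}
    {a b : Fin N → PrimeSpectrum (MvPolynomial σ K)}
    (hab : ∀ s, Y.C1.HP (a s) ∧ Y.C1.HP (b s) ∧ dm K (a s) + dm K (b s) = Y.d + 2)
    (E : ∀ x, Mid Y x → Y.C2.bil x (f.sum fun j y => y • Y.grC (p ^ (e * (j + t)))) =
      ∑ s, c s * Y.C2.bil x (Finsupp.single (bxP (a s) (b s)) 1))
    (n : ℕ) (u : PrimeSpectrum (MvPolynomial σ K)) (hu : u ∈ cod Y n)
    (z : PrimeSpectrum (MvPolynomial σ K)) :
    (f.sum fun j x => x * ((((p : ℚ) ^ e) ^ n) ^ (j + t) *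
      (Y.C1.ip ((th k K σ ^ (j + t)) u) z : ℚ))) =
      ∑ s : {s // dm K (b s) + n = Y.d + 1},
        c s * ((Y.C1.ip u (a s) : ℚ) * (Y.C1.ip (b s) z : ℚ)) := by
  have h0 := hu.2
  by_cases h : Y.C1.HP z ∧ dm K u + dm K z = Y.d + 2
  · have h1 := E (Finsupp.single (bxP u z) 1) fun y hy => by
      rw [← (Finsupp.single_apply_ne_zero.1 hy).1.symm, dm_bxP, h.2]
    rw [sum_def, map_sum] at h1
    rw [sum_def, ← Finset.sum_subtype
      (Finset.univ.filter fun s => dm K (b s) + n = Y.d + 1) (by simp)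
      fun s => c s * ((Y.C1.ip u (a s) : ℚ) * Y.C1.ip (b s) z), Finset.sum_filter]
    refine Eq.trans (sum_congr rfl fun j _ => ?_) (h1.trans (sum_congr rfl fun s _ => ?_))
    · have h2 := th_cod Y hq hI (j + t) n u hu
      have h3 := h2.2
      have h4 := Y.bil_gr (hI (j + t)) _ z h2.1 h.1 (by omega)
      rw [cm_th' hq, show Y.d + 1 - dm K ((th k K σ ^ (j + t)) u) = n by omega] at h4
      rw [map_smul, h4, smul_eq_mul, pow_right_comm _ n, pow_mul]
      push_cast
      rfl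
    · obtain ⟨h2, h3, h4⟩ := hab s
      rw [bil_ss, Y.ip_bxP u z _ _ hu.1 h.1 h2 h3 (by omega), Int.cast_mul, Y.C1.ip_symm z]
      split_ifs with h'
      · rfl
      · have : Y.C1.ip u (a s) = 0 := by_contra fun h5 => by
          have := (ip_ne Y h5).2.2
          omega
        rw [this, Int.cast_zero, zero_mul, mul_zero]
  · have h1 : ∀ y ∈ cod Y n, Y.C1.ip y z = 0 := fun y hy => by_contra fun h2 =>
      h ⟨(ip_ne Y h2).2.1, by have := (ip_ne Y h2).2.2; have := hy.2; omega⟩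
    rw [sum_def, sum_eq_zero, sum_eq_zero]
    · intro s _
      rw [h1 _ ⟨(hab s).2.1, s.2⟩, Int.cast_zero, mul_zero, mul_zero]
    · intro j _
      rw [h1 _ (th_cod Y hq hI _ n u hu), Int.cast_zero, mul_zero, mul_zero]

theorem trace_rec (he : 0 < e) (f : ℚ[X]) (hf : ∀ n, n ≤ Y.d → f.eval (((p : ℚ) ^ e) ^ n) ≠ 0)
    (H : ∀ t, (f.sum fun j a => a • Y.grC (p ^ (e * (j + t)))) ∈ RatB Y.I ⊔ ⨆ δ, ProdB Y.I δ) :
    ∃ R, 0 < R ∧ ∃ tr : ℕ → ℕ → ℚ,
      (∀ t, 0 < t → (f.sum fun j a => a * ((Y.fixed (p ^ (e * (j + t))) : ℚ) -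
        ∑ n ∈ range (Y.d + 1), (((p : ℚ) ^ e) ^ n) ^ (j + t) * tr n (j + t))) = 0) ∧
      ∀ ω : ℂ, IsPrimitiveRoot ω R → ∀ n, n ≤ Y.d →
        FiniteDimensional ℚ (inv (th k K σ) (fun u z => (Y.C1.ip u z : ℚ)) (cod Y n)) ∧
        ∃ μ : ℕ → ℕ, μ 0 = Module.finrank ℚ
            (inv (th k K σ) (fun u z => (Y.C1.ip u z : ℚ)) (cod Y n)) ∧
          ∀ m, (tr n m : ℂ) = ∑ j ∈ range R, μ j * ω ^ (j * m) := by
  choose N c a b hab E using fun t => T1a.exists_dec Y (H t)
  have hper := th_periodic (K := K) (σ := σ) hq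
  choose r₀ hr₀ hr₁ using fun s => hper (b 0 s)
  have hr : 0 < ∏ s, r₀ s := prod_pos fun s _ => hr₀ s
  choose! tr h1 h2 using fun (n : ℕ) (hn : n ≤ Y.d) => XT1.abs
    (ι := fun t => {s // dm K (b t s) + n = Y.d + 1}) (th k K σ)
    (fun u z => (Y.C1.ip u z : ℚ)) (cod Y n)
    (fun u hu => by simpa only [pow_one] using th_cod Y hq hI 1 n u hu)
    (fun u z => by rw [← Y.C1.ip_cm (hI 1), ← pow_one (th k K σ), cm_th' hq, cm_th' hq])
    (((p : ℚ) ^ e) ^ n) f (hf n hn)
    (fun t s => c t s.1) (fun t s => a t s.1) (fun t s => b t s.1)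
    (fun t s => ⟨(hab t s.1).2.1, s.2⟩) (fun t => row Y hq hI f t (hab t) (E t) n) hr (fun s => by
      obtain ⟨x, hx⟩ := dvd_prod_of_mem r₀ (mem_univ s.1)
      rw [hx, pow_mul, Equiv.Perm.pow_apply_eq_self_of_apply_eq_self (hr₁ _)])
  refine ⟨_, hr, tr, fun t ht => ?_, fun ω hω n hn => h2 n hn ω hω⟩
  have h3 := E t _ (T1a.mid_gr Y)
  rw [sum_def, map_sum, sum_congr rfl fun j _ => by
    rw [map_smul, Y.lefschetz (Nat.mul_pos he (by omega)) (hI _), smul_eq_mul],
    sum_congr (s₁ := univ) rfl fun s _ => congrArg (c t s * ·)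
      (T1a.bil_diag Y (hab t s).1 (hab t s).2.1 (hab t s).2.2),
    ← sum_fiberwise_of_maps_to (s := univ) (t := range (Y.d + 1))
      (g := fun s => Y.d + 1 - dm K (b t s)) fun s _ => by
        have := (hab t s).2.2
        have := Y.dm_le (hab t s).1.2
        rw [mem_range]
        omega] at h3
  simp only [sum_def] at h1 ⊢
  simp only [mul_sub, mul_sum, sum_sub_distrib]
  rw [h3, sum_comm, sub_eq_zero]
  refine sum_congr rfl fun n hn => ?_
  rw [h1 n (Nat.lt_succ_iff.1 (mem_range.1 hn))]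
  exact sum_subtype (p := fun s => dm K (b t s) + n = Y.d + 1) _ (fun s => by
    have := Y.dm_le (hab t s).2.1.2
    rw [mem_filter]
    exact ⟨fun h => by have := h.2; omega, fun h => ⟨mem_univ _, by omega⟩⟩) _

end XT1

theorem XT_fixed {k : Type} [Field k] [Finite k] {σ : Type} [Finite σ]
    {I : Ideal (MvPolynomial σ k)} (hI : Homog I) (hs : ∀ s, Algebra.Smooth k (Chart I s)) {d : ℕ}
    (hd : ∀ P ∈ I.minimalPrimes, ringKrullDim (MvPolynomial σ k ⧸ P) = (d + 1 : ℕ))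
    (L : Type) [Field L] [Algebra k L] (m : ℕ) (hL : Module.finrank k L = m + 1) :
    points I L = (T0.sm (AlgebraicClosure k) hI hs hd).fixed (Nat.card k ^ (m + 1)) := by
  have : Module.Finite k L := Module.finite_of_finrank_eq_succ hL
  have : Finite L := Module.finite_of_finite k
  have := Fintype.ofFinite L
  rw [T0.points_eq hI (IsAlgClosed.lift : L →ₐ[k] AlgebraicClosure k), ← Nat.card_eq_fintype_card,
    Module.natCard_eq_pow_finrank (K := k) (V := L), hL]
  rfl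

theorem XT_thm : XT where
  fixed := XT_fixed
  tate := by
    intro k _ _ σ _ I hI hs d hd f hf H L _ _ hL ι _ γ hγ hγ'
    have := T0.fbar k
    have := Fintype.ofFinite k
    obtain ⟨e, -, hq⟩ := FiniteField.card k (ringChar k)
    have hc : Nat.card k = ringChar k ^ (e : ℕ) := by rw [Nat.card_eq_fintype_card, hq]
    have hc' : (Nat.card k : ℚ) = (ringChar k : ℚ) ^ (e : ℕ) := by rw [hc, Nat.cast_pow]
    obtain ⟨R, hR, tr, h1, h2⟩ := XT1.trace_rec (T0.sm (AlgebraicClosure k) hI hs hd) hq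
      (T0.defOver_up' hq I) e.2 f (fun n hn => hc' ▸ hf n hn)
      fun t => by simp only [pow_mul, ← hc]; exact H t
    have hω := Complex.isPrimitiveRoot_exp _ hR.ne'
    choose! hfin μ hμ0 hμ using h2 _ hω
    simp only [pow_mul, ← hc, ← hc'] at h1
    have h3 : ∀ n, n ≤ d → (∑ i, if γ i = (Nat.card k : ℂ) ^ n then 1 else 0 : ℤ) = μ n 0 := by
      intro n hn
      refine XT1.mult Finite.one_lt_card hR hω μ γ (f.map (algebraMap ℚ ℂ)) (fun t ht => ?_) hn ?_
      · have h7 := congrArg (algebraMap ℚ ℂ) (h1 t ht)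
        rw [Polynomial.sum_over_range _ (by simp), map_sum] at h7
        rw [Polynomial.sum_over_range _ (by simp), Polynomial.natDegree_map,
          ← h7.trans (map_zero _)]
        refine sum_congr rfl fun j _ => ?_
        obtain ⟨m, hm⟩ : ∃ m, j + t = m + 1 := ⟨j + t - 1, by omega⟩
        rw [Polynomial.coeff_map, map_mul, hm, ← hγ, XT_fixed hI hs hd (L m) m (hL m),
          sum_congr rfl fun n hn => by rw [← hμ n (Nat.lt_succ_iff.1 (mem_range.1 hn))]]
        simp only [eq_ratCast, Rat.cast_sub, Rat.cast_natCast, Rat.cast_sum, Rat.cast_mul,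
          Rat.cast_pow]
        rfl
      · have h8 := hf n hn
        rw [← (map_ne_zero (algebraMap ℚ ℂ)), ← Polynomial.eval₂_at_apply, map_pow, map_natCast,
          Polynomial.eval₂_eq_eval_map] at h8
        exact h8
    obtain ⟨ζ, z1, ⟨c, z2⟩, z3⟩ := T0.T1b.zetaZ univ γ (fun _ => 1) (Nat.card k)
      Finite.one_lt_card (fun m => points I (L m)) fun m => by simp [hγ]
    obtain ⟨C, hC⟩ := points_le hI hd
    obtain ⟨ζ', y1, y2, y3⟩ := zeta_shift (Nat.card k) Finite.one_lt_card d C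
      (fun m => points I (L m)) (fun m => by
        have : Module.Finite k (L m) := Module.finite_of_finrank_eq_succ (hL m)
        have : Finite (L m) := Module.finite_of_finite k
        have h := hC (L m)
        rwa [Module.natCard_eq_pow_finrank (K := k), hL] at h) z1 z2
    refine ⟨ζ', ⟨y1, y2⟩, fun i n h F => ⟨μ n 0, ?_, ?_⟩, fun n h => ?_⟩
    · have := hfin n (show n ≤ d by omega)
      rw [T0.rank_num (K := AlgebraicClosure k) hI hs hd hq h F, hμ0 n (show n ≤ d by omega),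
        Module.finrank_eq_rank]
    · rw [y3, z3, h3 n (by omega)]
    · rw [y3, z3, sum_eq_zero fun i _ => if_neg (hγ' i n h)]
      rfl

end Pool.Agent.Lib.MP_557161_ag.HG
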