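import Pool.Agent.Lib.MP_557161_ag.HG.StY

/-!
One rational polynomial for all the values.
-/

namespace Pool.Agent.Lib.MP_557161_ag.HG

open Polynomial

namespace XZp

variable {V : Type} [AddCommGroup V] [Module ℚ V]

/-- The value of a polynomial in the shift. -/
noncomputable def sh (g : ℕ → V) (t : ℕ) : ℚ[X] →ₗ[ℚ] V :=
  lsum fun j => LinearMap.toSpanSingleton ℚ V (g (j + t))

lemma sh_apply (g : ℕ → V) (t : ℕ) (f : ℚ[X]) : sh g t f = f.sum fun j a => a • g (j + t) := rfl

lemma sh_monomial (g : ℕ → V) (t j : ℕ) (a : ℚ) : sh g t (monomial j a) = a • g (j + t) :=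
  sum_monomial_index a (fun j a => a • g (j + t)) (zero_smul _ _)

lemma sh_mul (g : ℕ → V) (t n : ℕ) (c : ℚ) (f : ℚ[X]) :
    sh g t (monomial n c * f) = c • sh g (n + t) f := by
  induction f using Polynomial.induction_on' with
  | add f f' h h' => rw [mul_add, map_add, map_add, h, h', smul_add]
  | monomial j a =>
    rw [monomial_mul_monomial, sh_monomial, sh_monomial, mul_smul, add_comm n j, add_assoc]

/-- The ideal of relations. -/
def rel (N : Submodule ℚ V) (g : ℕ → V) : Ideal ℚ[X] where
  carrier := {f | ∀ t, sh g t f ∈ N}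
  zero_mem' t := by rw [map_zero]; exact N.zero_mem
  add_mem' h h' t := by rw [map_add]; exact N.add_mem (h t) (h' t)
  smul_mem' c f h := by
    induction c using Polynomial.induction_on' with
    | add c c' h h' =>
      intro t
      rw [add_smul, map_add]
      exact N.add_mem (h t) (h' t)
    | monomial n c =>
      intro t
      rw [smul_eq_mul, sh_mul]
      exact N.smul_mem _ (h _)

lemma eval_eq_zero (f : ℂ[X]) (β : ℂ)
    (h : ∀ φ : ℂ →ₗ[ℚ] ℚ, ∑ j ∈ f.support, (φ (f.coeff j) : ℂ) * β ^ j = 0) : f.eval β = 0 := by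
  classical
  let e := Module.Basis.ofVectorSpace ℚ ℂ
  let s := f.support.biUnion fun j => (e.repr (f.coeff j)).support
  have h1 : ∀ j ∈ f.support, f.coeff j = ∑ i ∈ s, (e.coord i (f.coeff j) : ℂ) * e i := by
    intro j hj
    conv_lhs => rw [← e.linearCombination_repr (f.coeff j)]
    rw [Finsupp.linearCombination_apply, Finsupp.sum_of_support_subset _
      (Finset.subset_biUnion_of_mem (fun j => (e.repr (f.coeff j)).support) hj)
      (fun i a => a • e i) fun i _ => zero_smul _ _]
    exact Finset.sum_congr rfl fun i _ => Rat.smul_def _ _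
  rw [eval_eq_sum, sum_def, Finset.sum_congr rfl fun j hj => by rw [h1 j hj, Finset.sum_mul],
    Finset.sum_comm]
  refine Finset.sum_eq_zero fun i _ => ?_
  rw [← mul_zero (e i), ← h (e.coord i), Finset.mul_sum]
  exact Finset.sum_congr rfl fun j _ => by ring

end XZp

open XZp in
theorem XZ_thm : XZ where
  one {V} _ _ N g S h := by
    obtain ⟨f₀, hf₀⟩ := (IsPrincipalIdealRing.principal (rel N g)).principal
    refine ⟨f₀, fun β hβ h0 => ?_, (hf₀.ge (Ideal.mem_span_singleton_self f₀) :)⟩
    obtain ⟨f, hf, hb⟩ := h β hβ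
    refine hf (eval_eq_zero f β fun φ => ?_)
    have h1 : ∑ j ∈ f.support, monomial j (φ (f.coeff j)) ∈ rel N g := fun t => by
      by_contra h2
      obtain ⟨b, b0, bN⟩ := N.exists_le_ker_of_notMem h2
      have := congrArg φ (hb b bN t)
      rw [sum_def, map_sum, map_zero] at this
      refine b0 ?_
      rw [map_sum, map_sum, ← this]
      refine Finset.sum_congr rfl fun j _ => ?_
      rw [sh_monomial, map_smul, mul_comm, ← Rat.smul_def, map_smul, smul_eq_mul, smul_eq_mul,
        mul_comm]
    rw [hf₀] at h1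
    obtain ⟨c, hc⟩ := Ideal.mem_span_singleton'.1 h1
    have := congrArg (aeval β) hc
    rw [map_mul, h0, mul_zero, map_sum] at this
    rw [this]
    exact Finset.sum_congr rfl fun j _ => by rw [aeval_monomial]; rfl

end Pool.Agent.Lib.MP_557161_ag.HG
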