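import Pool.Agent.Lib.MP_557161_ag.HG.StZ
import Pool.Agent.Lib.MP_557161_ag.DL.T0e
import Pool.Agent.Lib.MP_557161_ag.TU.T1b
import Pool.Agent.Lib.MP_557161_ag.DW.Count
import Pool.Agent.Lib.MP_557161_ag.DW.Rec

/-!
Integral multiplicities from a linear recurrence, over an arbitrary finite field.
-/

namespace Pool.Agent.Lib.MP_557161_ag.HG

open Pool.Agent.Lib.MP_557161_ag.DL

namespace ZDa

section Seq

open Polynomial Finset

lemma sum_expand (f : ℕ) (g : ℚ[X]) (a : ℕ → ℚ) :
    ((expand ℚ f g).sum fun j c => c * a j) = g.sum fun j c => c * a (j * f) := by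
  induction g using Polynomial.induction_on' with
  | add u v hu hv =>
    rw [map_add, sum_add_index _ _ _ (by simp) (fun _ _ _ => add_mul _ _ _),
      sum_add_index _ _ _ (by simp) (fun _ _ _ => add_mul _ _ _), hu, hv]
  | monomial n c =>
    rw [expand_monomial, sum_monomial_index _ _ (by simp), sum_monomial_index _ _ (by simp)]

/-- The power sums of a finite family with integral multiplicities. -/
noncomputable abbrev ps (t : ℕ) : (ℂ →₀ ℤ) →ₗ[ℤ] ℂ :=
  Finsupp.linearCombination ℤ fun z : ℂ => z ^ t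

lemma ps_eq (t : ℕ) (u : ℂ →₀ ℤ) : ps t u = u.sum fun z c => c * z ^ t := by
  rw [Finsupp.linearCombination_apply]
  exact Finsupp.sum_congr fun z _ => zsmul_eq_mul _ _

lemma ps_zero {u : ℂ →₀ ℤ} (h : ∀ t, 0 < t → ps t u = 0) {z : ℂ} (hz : z ≠ 0) : u z = 0 := by
  by_contra h0
  have h1 := T0.T1b.geom_zero u.support (fun z => u z * z) (fun t => by
    rw [← h (t + 1) t.succ_pos, ps_eq, Finsupp.sum]
    exact sum_congr rfl fun z _ => by ring) z (Finsupp.mem_support_iff.2 h0)
  exact mul_ne_zero (Int.cast_ne_zero.2 h0) hz h1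

lemma descend {p : ℕ} [Fact p.Prime] {f : ℕ} (hf : 0 < f) (N a : ℕ → ℕ)
    (h0 : ∀ t, ¬ f ∣ t → a t = 0) (h1 : ∀ m, a (f * (m + 1)) = f * N m)
    (ha : DW.Mer fun t => (a t : ℂ_[p])) (g : ℚ[X]) (hg : g.coeff 0 ≠ 0)
    (hr : ∀ m, (g.sum fun j c => c * (N (j + m) : ℚ)) = 0) :
    ∃ ν : ℂ →₀ ℤ, ν 0 = 0 ∧ ∀ m, (N m : ℂ) = ν.sum fun z c => c * z ^ (m + 1) := by
  classical
  obtain ⟨S, n, h2⟩ := DW.Mer.expand_complex (p := p) (a := fun t => (a t : ℤ))
    (by simpa only [Int.cast_natCast] using ha) (g := expand ℚ f g)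
    (by rwa [coeff_expand hf, if_pos (dvd_zero f), Nat.zero_div]) fun t ht => by
      rw [sum_expand f g fun j => ((a (j + t) : ℤ) : ℚ)]
      by_cases h : f ∣ t
      · obtain ⟨m, rfl⟩ := h
        obtain ⟨m, rfl⟩ := Nat.exists_eq_succ_of_ne_zero (n := m) (by rintro rfl; simp at ht)
        rw [← mul_zero (f : ℚ), ← hr m, Polynomial.sum, Polynomial.sum, mul_sum]
        refine sum_congr rfl fun j _ => ?_
        rw [show j * f + f * m.succ = f * (j + m + 1) by rw [Nat.succ_eq_add_one]; ring, h1]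
        push_cast
        ring
      · refine sum_eq_zero fun j _ => ?_
        simp [h0 _ fun k => h ((Nat.dvd_add_right (dvd_mul_left f j)).1 k)]
  let w : ℂ →₀ ℤ := ∑ z ∈ S.erase 0, Finsupp.single z (n z)
  have w0 : w 0 = 0 := by
    simp only [w, Finsupp.finsetSum_apply]
    exact sum_eq_zero fun z hz => Finsupp.single_eq_of_ne (ne_of_mem_erase hz).symm
  have hw : ∀ t, 0 < t → ps t w = a t := fun t ht => by
    have h3 := h2 t ht
    rw [Int.cast_natCast] at h3
    rw [h3, ← sum_erase S (a := 0) (by simp [ht.ne'])]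
    simp only [w, map_sum, Finsupp.linearCombination_single, zsmul_eq_mul]
  have hs : ∀ η : ℂ, η ^ f = 1 → ∀ z, z ≠ 0 → w (η * z) = w z := fun η hη z hz => by
    have η0 : η ≠ 0 := by
      rintro rfl
      simp [hf.ne'] at hη
    have h3 := ps_zero (u := w.mapDomain (η * ·) - w) (fun t ht => by
      have h4 : ps t (w.mapDomain (η * ·)) = η ^ t * ps t w := by
        rw [Finsupp.linearCombination_mapDomain, Finsupp.linearCombination_apply,
          Finsupp.linearCombination_apply, Finsupp.mul_sum]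
        exact Finsupp.sum_congr fun z _ => by simp [mul_pow, mul_left_comm]
      rw [map_sub, h4, hw t ht]
      by_cases h : f ∣ t
      · obtain ⟨m, rfl⟩ := h
        rw [pow_mul, hη, one_pow, one_mul, sub_self]
      · simp [h0 t h]) (mul_ne_zero η0 hz)
    rw [Finsupp.sub_apply, Finsupp.mapDomain_apply (mul_right_injective₀ η0), sub_eq_zero] at h3
    exact h3.symm
  let c : ℂ →₀ ℤ := w.mapDomain (· ^ f)
  have hc : ∀ y, c y = ∑ z ∈ w.support with z ^ f = y, w z := fun y => by
    simp only [c, Finsupp.mapDomain, Finsupp.sum, Finsupp.finsetSum_apply,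
      Finsupp.single_apply, sum_filter]
  have hz0 : ∀ z ∈ w.support, z ≠ 0 := fun z hz e => Finsupp.mem_support_iff.1 hz (e ▸ w0)
  have hd : ∀ y, (f : ℤ) ∣ c y := fun y => by
    rw [hc]
    rcases (w.support.filter fun z => z ^ f = y).eq_empty_or_nonempty with h | ⟨z, hz⟩
    · simp [h]
    obtain ⟨hz1, hz2⟩ := mem_filter.1 hz
    have z0 := hz0 z hz1
    have hζ := Complex.isPrimitiveRoot_exp f hf.ne'
    generalize Complex.exp _ = ζ at hζ
    have hp : ∀ i, (ζ ^ i) ^ f = 1 := fun i => by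
      rw [← pow_mul, mul_comm, pow_mul, hζ.pow_eq_one, one_pow]
    have h3 : w.support.filter (fun z => z ^ f = y) = (range f).image fun i => ζ ^ i * z := by
      ext u
      rw [mem_filter, mem_image]
      constructor
      · rintro ⟨-, hu⟩
        have : NeZero f := ⟨hf.ne'⟩
        obtain ⟨i, hi, e⟩ := hζ.eq_pow_of_pow_eq_one (ξ := u / z)
          (by rw [div_pow, hu, hz2, div_self (hz2 ▸ pow_ne_zero _ z0)])
        exact ⟨i, mem_range.2 hi, by rw [e, div_mul_cancel₀ _ z0]⟩
      · rintro ⟨i, -, rfl⟩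
        refine ⟨?_, by rw [mul_pow, hp, one_mul, hz2]⟩
        rw [Finsupp.mem_support_iff, hs _ (hp i) z z0]
        exact Finsupp.mem_support_iff.1 hz1
    rw [h3, sum_image fun i hi j hj e => hζ.injOn_pow hi hj (mul_right_cancel₀ z0 e),
      sum_congr rfl fun i _ => hs _ (hp i) z z0]
    simp
  let ν : ℂ →₀ ℤ := c.mapRange (· / (f : ℤ)) (by simp)
  have hν : c = (f : ℤ) • ν := Finsupp.ext fun y => by
    rw [Finsupp.smul_apply, Finsupp.mapRange_apply, smul_eq_mul, Int.mul_ediv_cancel' (hd y)]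
  refine ⟨ν, ?_, fun m => ?_⟩
  · rw [Finsupp.mapRange_apply, hc, sum_eq_zero, Int.zero_ediv]
    exact fun z hz => absurd (pow_eq_zero_iff hf.ne' |>.1 (mem_filter.1 hz).2)
      (hz0 z (mem_filter.1 hz).1)
  · have h3 : ps (m + 1) c = ps (f * (m + 1)) w := by
      rw [Finsupp.linearCombination_mapDomain]
      simp only [ps, Function.comp_def, pow_mul]
    rw [hw _ (Nat.mul_pos hf m.succ_pos), h1, hν, map_zsmul, zsmul_eq_mul, ps_eq] at h3
    push_cast at h3
    exact (mul_left_cancel₀ (Nat.cast_ne_zero.2 hf.ne') h3).symm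

end Seq

section Cnt

open MvPolynomial

variable {k : Type} [Field k] {σ : Type}

/-- The number of common zeros. -/
noncomputable def cnt (H : Set (MvPolynomial σ k)) (L : Type) [Field L] [Algebra k L] : ℕ :=
  Nat.card {x : σ → L // ∀ g ∈ H, aeval x g = 0}

lemma points_sum [Fintype σ] {I : Ideal (MvPolynomial σ k)} (hI : Homog I) :
    ∃ H : σ → Set (MvPolynomial σ k), (∀ s, 0 ∈ H s) ∧
      ∀ (L : Type) [Field L] [Algebra k L] [Finite L], points I L = ∑ s, cnt (H s) L := by
  classical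
  let e := Fintype.equivFin σ
  let H : σ → Set (MvPolynomial σ k) := fun s =>
    (I : Set _) ∪ {X s - 1} ∪ {g | ∃ t, e t < e s ∧ g = X t}
  refine ⟨H, fun s => Or.inl (Or.inl I.zero_mem), fun L _ _ _ => ?_⟩
  have hH : ∀ s (x : σ → L), (∀ g ∈ H s, aeval x g = 0) ↔
      x ∈ zeroLocus L I ∧ x s = 1 ∧ ∀ t, e t < e s → x t = 0 := by
    intro s x
    constructor
    · intro hh
      refine ⟨fun g hg => hh g (Or.inl (Or.inl hg)), ?_, fun t ht => ?_⟩
      · have := hh (X s - 1) (Or.inl (Or.inr rfl))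
        simpa [sub_eq_zero] using this
      · simpa using hh (X t) (Or.inr ⟨t, ht, rfl⟩)
    · rintro ⟨h1, h2, h3⟩ g ((hg | hg) | ⟨t, ht, rfl⟩)
      · exact h1 g hg
      · rw [Set.mem_singleton_iff.1 hg]
        simp [h2]
      · simpa using h3 t ht
  unfold points cnt
  rw [← Nat.card_sigma]
  symm
  have hne : ∀ s (x : σ → L), (∀ g ∈ H s, aeval x g = 0) → x ≠ 0 := by
    intro s x hx h0
    have := ((hH s x).1 hx).2.1
    rw [h0] at this
    exact zero_ne_one this
  refine Nat.card_eq_of_bijective (fun w => ⟨Projectivization.mk L w.2.1 (hne w.1 _ w.2.2), ?_⟩)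
    ⟨?_, ?_⟩
  · obtain ⟨s, x, hx'⟩ := w
    obtain ⟨a, ha⟩ := Projectivization.exists_smul_eq_mk_rep L x (hne s x hx')
    dsimp only
    rw [← ha]
    exact hI.smul_mem ((hH s x).1 hx').1 a
  · rintro ⟨s, x, hx'⟩ ⟨s', x', hy'⟩ hh
    obtain ⟨a, ha⟩ := (Projectivization.mk_eq_mk_iff' L _ _ _ _).1 (congrArg Subtype.val hh)
    dsimp only at ha
    obtain ⟨-, h1, h2⟩ := (hH s x).1 hx'
    obtain ⟨-, h3, h4⟩ := (hH s' x').1 hy'
    have hat : ∀ t, a * x' t = x t := fun t => congrFun ha t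
    have hss : s = s' := by
      apply e.injective
      rcases lt_trichotomy (e s) (e s') with hl | hl | hl
      · have := hat s
        rw [h4 s hl, h1, mul_zero] at this
        exact absurd this zero_ne_one
      · exact hl
      · have h5 := hat s'
        rw [h2 s' hl, h3, mul_one] at h5
        have := hat s
        rw [h5, h1, zero_mul] at this
        exact absurd this zero_ne_one
    subst hss
    have h5 := hat s
    rw [h3, h1, mul_one] at h5
    rw [h5, one_smul] at ha
    subst ha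
    rfl
  · rintro ⟨P, hP⟩
    have hv := P.rep_nonzero
    obtain ⟨s, hs1, hs2⟩ := Finset.exists_min_image (Finset.univ.filter fun t => P.rep t ≠ 0) e
      (by
        by_contra hn
        apply hv
        funext t
        by_contra ht
        exact hn ⟨t, Finset.mem_filter.2 ⟨Finset.mem_univ _, ht⟩⟩)
    have hs3 : P.rep s ≠ 0 := (Finset.mem_filter.1 hs1).2
    refine ⟨⟨s, (P.rep s)⁻¹ • P.rep, (hH s _).2 ⟨hI.smul_mem hP _, ?_, fun t ht => ?_⟩⟩, ?_⟩
    · simp [hs3]
    · have : P.rep t = 0 := by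
        by_contra h0
        exact absurd (hs2 t (Finset.mem_filter.2 ⟨Finset.mem_univ _, h0⟩)) (not_le.2 ht)
      simp [this]
    · apply Subtype.ext
      dsimp only
      conv_rhs => rw [← P.mk_rep]
      exact (Projectivization.mk_eq_mk_iff' L _ _ _ _).2 ⟨_, rfl⟩

lemma cnt_eq (H : Set (MvPolynomial σ k)) {K L : Type} [Field K] [Field L] [Algebra k K]
    [Algebra k L] [Fintype L] (e : L →ₐ[k] K) : cnt H L = Nat.card
      {x : σ → K // (∀ s, x s ^ Fintype.card L = x s) ∧ ∀ g ∈ H, aeval x g = 0} := by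
  have h1 : ∀ (x : σ → L) (g : MvPolynomial σ k), aeval (fun s => e (x s)) g = e (aeval x g) :=
    fun x g => by rw [← comp_aeval, AlgHom.comp_apply]
  refine Nat.card_eq_of_bijective (fun x => ⟨fun s => e (x.1 s), fun s => by
    rw [← map_pow, FiniteField.pow_card], fun g hg => by rw [h1, x.2 g hg, map_zero]⟩)
    ⟨fun x y h => Subtype.ext (funext fun s => e.injective
      (congrFun (congrArg Subtype.val h) s)), fun z => ?_⟩
  choose x hx using fun s => T0.mem_range_of_pow (e : L →+* K) (z.2.1 s)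
  have h2 : (fun s => e (x s)) = z.1 := funext hx
  exact ⟨⟨x, fun g hg => (map_eq_zero e).1 (by rw [← h1, h2, z.2.2 g hg])⟩, Subtype.ext h2⟩

variable {p : ℕ} [Fact p.Prime] [Algebra (ZMod p) k]

variable (p k σ) in
/-- A presentation over the prime field. -/
noncomputable def pr : MvPolynomial (k ⊕ σ) (ZMod p) →ₐ[ZMod p] MvPolynomial σ k :=
  aeval (Sum.elim C X)

lemma pr_surj (g : MvPolynomial σ k) : ∃ u, pr k σ p u = g := by
  induction g using MvPolynomial.induction_on with
  | C a => exact ⟨X (Sum.inl a), by simp [pr]⟩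
  | add f g hf hg =>
    obtain ⟨u, rfl⟩ := hf
    obtain ⟨v, rfl⟩ := hg
    exact ⟨u + v, map_add _ _ _⟩
  | mul_X f i hf =>
    obtain ⟨u, rfl⟩ := hf
    exact ⟨u * X (Sum.inr i), by simp [pr]⟩

variable {K : Type} [Field K] [Algebra (ZMod p) K]

lemma aeval_pr (φ : k →ₐ[ZMod p] K) (x : σ → K) (u : MvPolynomial (k ⊕ σ) (ZMod p)) :
    aeval (Sum.elim φ x) u = aevalTower φ x (pr k σ p u) := by
  rw [← AlgHom.comp_apply]
  congr 1
  refine algHom_ext ?_
  rintro (a | s) <;> simp [pr]

lemma card_pr [Finite k] [Finite σ] (H : Set (MvPolynomial σ k)) (h0 : 0 ∈ H) {t : ℕ}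
    (ht : 0 < t) : Nat.card {z : k ⊕ σ → K // (∀ i, z i ^ p ^ t = z i) ∧
      ∀ g ∈ pr k σ p ⁻¹' H, aeval z g = 0} = ∑ φ : k →ₐ[ZMod p] K,
      Nat.card {x : σ → K // (∀ s, x s ^ p ^ t = x s) ∧ (∀ a, φ a ^ p ^ t = φ a) ∧
        ∀ g ∈ H, aevalTower φ x g = 0} := by
  have := fun φ : k →ₐ[ZMod p] K => DW.Count.finite_pts (p := p) (K := K) (ι := σ) ht
    (fun x => (∀ a, φ a ^ p ^ t = φ a) ∧ ∀ g ∈ H, aevalTower φ x g = 0)
  rw [← Nat.card_sigma]
  symm
  refine Nat.card_eq_of_bijective (fun w => ⟨Sum.elim w.1 w.2.1, ?_, fun g hg => ?_⟩) ⟨?_, ?_⟩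
  · rintro (a | s)
    exacts [w.2.2.2.1 a, w.2.2.1 s]
  · rw [aeval_pr, w.2.2.2.2 _ hg]
  · rintro ⟨φ, x, hx⟩ ⟨φ', x', hx'⟩ h
    have h1 : Sum.elim φ x = Sum.elim φ' x' := congrArg Subtype.val h
    obtain rfl : φ = φ' := AlgHom.ext fun a => congrFun h1 (Sum.inl a)
    obtain rfl : x = x' := funext fun s => congrFun h1 (Sum.inr s)
    rfl
  · rintro ⟨z, hz, hz'⟩
    have h1 : ∀ u v, pr k σ p u = pr k σ p v → aeval z u = aeval z v := fun u v hu => by
      rw [← sub_eq_zero, ← map_sub]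
      exact hz' _ (by rw [Set.mem_preimage, map_sub, hu, sub_self]; exact h0)
    let φ : k →ₐ[ZMod p] K :=
      { toFun := fun a => z (Sum.inl a)
        map_one' := by simpa using h1 (X (Sum.inl 1)) 1 (by simp [pr])
        map_zero' := by simpa using h1 (X (Sum.inl 0)) 0 (by simp [pr])
        map_mul' := fun a b => by
          have h := h1 (X (Sum.inl (a * b))) (X (Sum.inl a) * X (Sum.inl b)) (by simp [pr])
          rwa [map_mul, aeval_X, aeval_X, aeval_X] at h
        map_add' := fun a b => by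
          have h := h1 (X (Sum.inl (a + b))) (X (Sum.inl a) + X (Sum.inl b)) (by simp [pr])
          rwa [map_add, aeval_X, aeval_X, aeval_X] at h
        commutes' := fun r => by
          simpa using h1 (X (Sum.inl (algebraMap _ k r))) (C r) (by simp [pr]) }
    have h2 : Sum.elim φ (fun s => z (Sum.inr s)) = z := by
      funext i
      cases i <;> rfl
    refine ⟨⟨φ, fun s => z (Sum.inr s), fun s => hz _, fun a => hz _, fun g hg => ?_⟩,
      Subtype.ext h2⟩
    obtain ⟨u, rfl⟩ := pr_surj (p := p) g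
    rw [← aeval_pr, h2, hz' u hg]

lemma mer_aff [Finite k] [Finite σ] [IsAlgClosed K] (hK : ∀ x : K, ∃ m, 0 < m ∧ x ^ p ^ m = x)
    (H : Set (MvPolynomial σ k)) (h0 : 0 ∈ H) :
    ∃ a : ℕ → ℕ, (DW.Mer fun t => (a t : ℂ_[p])) ∧
      (∀ t, ¬ Module.finrank (ZMod p) k ∣ t → a t = 0) ∧
      ∀ (L : Type) [Field L] [Algebra k L] (m : ℕ), Module.finrank k L = m + 1 →
        a (Module.finrank (ZMod p) k * (m + 1)) = Module.finrank (ZMod p) k * cnt H L := by
  have := Fintype.ofFinite k
  refine ⟨_, DW.mer_count hK (pr k σ p ⁻¹' H), fun t ht => ?_, fun L _ _ m hL => ?_⟩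
  · rw [card_pr H h0 (Nat.pos_of_ne_zero (by rintro rfl; exact ht (dvd_zero _)))]
    refine Finset.sum_eq_zero fun φ _ => Nat.card_eq_zero.2 (Or.inl ⟨fun x => ht ?_⟩)
    rw [← FiniteField.orderOf_frobeniusAlgHom, orderOf_dvd_iff_pow_eq_one]
    refine AlgHom.ext fun a => φ.injective ?_
    rw [AlgHom.coe_pow, FiniteField.coe_frobeniusAlgHom, pow_iterate, ZMod.card]
    exact (map_pow φ _ _).trans (x.2.2.1 a)
  · have : Module.Finite k L := Module.finite_of_finrank_eq_succ hL
    have : Finite L := Module.finite_of_finite k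
    have := Fintype.ofFinite L
    have hk : Fintype.card k = p ^ Module.finrank (ZMod p) k := by
      rw [Module.card_eq_pow_finrank (K := ZMod p), ZMod.card]
    have hc : Fintype.card L = p ^ (Module.finrank (ZMod p) k * (m + 1)) := by
      rw [Module.card_eq_pow_finrank (K := k), hL, hk, pow_mul]
    rw [card_pr H h0 (Nat.mul_pos Module.finrank_pos m.succ_pos),
      Finset.sum_congr rfl (g := fun _ => cnt H L) fun φ _ => ?_, Finset.sum_const,
      Finset.card_univ, smul_eq_mul]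
    · congr 1
      convert AlgHom.card (ZMod p) k K
    · let := φ.toRingHom.toAlgebra
      rw [cnt_eq H (IsAlgClosed.lift : L →ₐ[k] K), hc]
      refine Nat.card_congr (Equiv.subtypeEquivRight fun x => and_congr_right fun _ =>
        ⟨fun h => h.2, fun h => ⟨fun a => ?_, h⟩⟩)
      rw [← map_pow, pow_mul, ← hk, FiniteField.pow_card_pow]

end Cnt

end ZDa

theorem ZD_thm : ZD where
  rat {k} _ _ {σ} _ {I} hI L _ _ hL g hg hr := by
    have hb := T0.fbar k
    have : Fact (ringChar k).Prime := ⟨hb.prime⟩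
    have := hb.char
    have := Fintype.ofFinite σ
    let := ZMod.algebra k (ringChar k)
    let := ZMod.algebra (AlgebraicClosure k) (ringChar k)
    obtain ⟨H, h0, h1⟩ := ZDa.points_sum hI
    choose a ha h2 h3 using fun s => ZDa.mer_aff (p := ringChar k) hb.alg (H s) (h0 s)
    refine ZDa.descend (p := ringChar k) (f := Module.finrank (ZMod (ringChar k)) k)
      Module.finrank_pos (fun m => points I (L m)) (fun t => ∑ s, a s t)
      (fun t ht => Finset.sum_eq_zero fun s _ => h2 s t ht) (fun m => ?_)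
      ((DW.Mer.sum Finset.univ fun s _ => ha s).congr fun t _ => Nat.cast_sum _ _) g hg hr
    have : Module.Finite k (L m) := Module.finite_of_finrank_eq_succ (hL m)
    have : Finite (L m) := Module.finite_of_finite k
    rw [h1, Finset.mul_sum]
    exact Finset.sum_congr rfl fun s _ => h3 s (L m) m (hL m)

end Pool.Agent.Lib.MP_557161_ag.HG
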