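import Pool.Agent.Lib.MP_557161_ag.HG.StZ
import Pool.Agent.Lib.MP_557161_ag.HG.XT

/-!
The trace formula without hypotheses on the roots of the polynomial.
-/

namespace Pool.Agent.Lib.MP_557161_ag.HG

open Finset Pool.Agent.Lib.MP_557161_ag.DL

namespace ZT1

section

open Polynomial Module

theorem abs {Pr : Type} (θ : Equiv.Perm Pr) (ip : Pr → Pr → ℚ) (H : Set Pr)
    (hH : ∀ u ∈ H, θ u ∈ H) (hip : ∀ u z, ip (θ u) (θ z) = ip u z) (q : ℚ) (f : ℚ[X])
    {ι : ℕ → Type} [∀ t, Fintype (ι t)]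
    (c : ∀ t, ι t → ℚ) (a b : ∀ t, ι t → Pr) (hb : ∀ t s, b t s ∈ H)
    (h : ∀ t, ∀ u ∈ H, ∀ z, (f.sum fun j x => x * (q ^ (j + t) * ip ((θ ^ (j + t)) u) z)) =
      ∑ s, c t s * (ip u (a t s) * ip (b t s) z))
    {R : ℕ} (hR : 0 < R) (hbR : ∀ s, (θ ^ R) (b 0 s) = b 0 s) :
    ∃ tr : ℕ → ℚ, (∀ t, (f.sum fun j x => x * (q ^ (j + t) * tr (j + t))) =
        ∑ s, c t s * ip (b t s) (a t s)) ∧
      ∀ ω : ℂ, IsPrimitiveRoot ω R → ∃ μ : ℕ → ℕ,
        (∀ m, (tr m : ℂ) = ∑ j ∈ range R, μ j * ω ^ (j * m)) ∧ (f.eval q ≠ 0 →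
          FiniteDimensional ℚ (T0.inv θ ip H) ∧ μ 0 = finrank ℚ (T0.inv θ ip H)) := by
  let V := Submodule.span ℚ (ip '' H)
  let Θ : End ℚ (Pr → ℚ) := LinearMap.funLeft ℚ ℚ θ.symm
  have hΘ : ∀ u, Θ (ip u) = ip (θ u) := fun u => funext fun z => by
    show ip u (θ.symm z) = _
    rw [← hip, θ.apply_symm_apply]
  have hΘm : ∀ m u, (Θ ^ m) (ip u) = ip ((θ ^ m) u) := by
    intro m u
    induction m with
    | zero => rfl
    | succ m ih => rw [pow_succ', End.mul_apply, ih, hΘ, pow_succ', Equiv.Perm.mul_apply]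
  have hHm : ∀ m, ∀ u ∈ H, (θ ^ m) u ∈ H := by
    intro m u hu
    induction m with
    | zero => exact hu
    | succ m ih => rw [pow_succ', Equiv.Perm.mul_apply]; exact hH _ ih
  have hV : ∀ m, ∀ v ∈ V, (Θ ^ m) v ∈ V := by
    intro m v hv
    refine (Submodule.span_le (p := V.comap (Θ ^ m))).2 ?_ hv
    rintro _ ⟨u, hu, rfl⟩
    show (Θ ^ m) (ip u) ∈ V
    rw [hΘm]
    exact Submodule.subset_span ⟨_, hHm m u hu, rfl⟩
  let U := Submodule.span ℚ (Set.range fun x : ι 0 × ℕ => ip ((θ ^ x.2) (b 0 x.1)))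
  have hUV : U ≤ V := Submodule.span_le.2 (by
    rintro _ ⟨x, rfl⟩
    exact Submodule.subset_span ⟨_, hHm _ _ (hb 0 _), rfl⟩)
  have hfin : FiniteDimensional ℚ U := by
    refine FiniteDimensional.span_of_finite ℚ ((Set.finite_range
      fun x : ι 0 × Fin R => ip ((θ ^ (x.2 : ℕ)) (b 0 x.1))).subset ?_)
    rintro _ ⟨⟨s, j⟩, rfl⟩
    refine ⟨(s, ⟨j % R, Nat.mod_lt _ hR⟩), congrArg ip ?_⟩
    conv_rhs => rw [← Nat.mod_add_div j R, pow_add, Equiv.Perm.mul_apply, pow_mul,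
      Equiv.Perm.pow_apply_eq_self_of_apply_eq_self (hbR s)]
  have hU : ∀ v ∈ U, Θ v ∈ U := by
    intro v hv
    refine (Submodule.span_le (p := U.comap Θ)).2 ?_ hv
    rintro _ ⟨x, rfl⟩
    show Θ (ip _) ∈ U
    rw [hΘ, ← Equiv.Perm.mul_apply, ← pow_succ']
    exact Submodule.subset_span ⟨(x.1, x.2 + 1), rfl⟩
  let Θ' : End ℚ U := Θ.restrict hU
  have hΘ' : ∀ m (v : U), ((Θ' ^ m) v : Pr → ℚ) = (Θ ^ m) v := by
    intro m v
    induction m with
    | zero => rfl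
    | succ m ih => rw [pow_succ', pow_succ', End.mul_apply, End.mul_apply, ← ih]; rfl
  have hT : ∀ t, ∀ v ∈ V, ∑ j ∈ f.support, (f.coeff j * q ^ (j + t)) • (Θ ^ (j + t)) v =
      ∑ s, (c t s * v (a t s)) • ip (b t s) := by
    intro t v hv
    have h1 : V ≤ LinearMap.eqLocus (∑ j ∈ f.support, (f.coeff j * q ^ (j + t)) • Θ ^ (j + t))
        (∑ s, c t s • (LinearMap.proj (a t s) : (Pr → ℚ) →ₗ[ℚ] ℚ).smulRight (ip (b t s))) := by
      refine Submodule.span_le.2 ?_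
      rintro _ ⟨u, hu, rfl⟩
      rw [SetLike.mem_coe, LinearMap.mem_eqLocus]
      funext z
      have := h t u hu z
      rw [sum_def] at this
      simp only [LinearMap.sum_apply, LinearMap.smul_apply, Finset.sum_apply, Pi.smul_apply, hΘm,
        smul_eq_mul, LinearMap.smulRight_apply, LinearMap.proj_apply, mul_assoc]
      exact this
    have h2 := LinearMap.mem_eqLocus.1 (h1 hv)
    simp only [LinearMap.sum_apply, LinearMap.smul_apply, LinearMap.smulRight_apply,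
      LinearMap.proj_apply, smul_smul] at h2
    exact h2
  have hTU : ∀ t, ∀ v ∈ V,
      ∑ j ∈ f.support, (f.coeff j * q ^ (j + t)) • (Θ ^ (j + t)) v ∈ U := by
    intro t v hv
    have h1 := hT 0 _ (V.smul_mem (q ^ t) (hV t v hv))
    rw [sum_congr rfl fun j _ => show (f.coeff j * q ^ (j + 0)) • (Θ ^ (j + 0)) (q ^ t • (Θ ^ t) v)
      = (f.coeff j * q ^ (j + t)) • (Θ ^ (j + t)) v by
        rw [map_smul, smul_smul, add_zero, pow_add, pow_add, End.mul_apply, mul_assoc]] at h1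
    rw [h1]
    exact Submodule.sum_mem _ fun s _ => Submodule.smul_mem _ _
      (Submodule.subset_span ⟨(s, 0), rfl⟩)
  have hr1 : Θ' ^ R = 1 := by
    ext1 v
    apply Subtype.ext
    rw [hΘ', End.one_apply]
    refine (Submodule.span_le (p := LinearMap.eqLocus (Θ ^ R) LinearMap.id)).2 ?_ v.2
    rintro _ ⟨x, rfl⟩
    show (Θ ^ R) (ip _) = ip _
    rw [hΘm, ← Equiv.Perm.mul_apply, ← pow_add, add_comm, pow_add, Equiv.Perm.mul_apply, hbR]
  refine ⟨fun m => LinearMap.trace ℚ U (Θ' ^ m), fun t => ?_, fun ω hω => ?_⟩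
  · have h1 := XT1.tr_fin U (∑ j ∈ f.support, (f.coeff j * q ^ (j + t)) • Θ' ^ (j + t))
      (fun s => c t s • (LinearMap.proj (a t s) : (Pr → ℚ) →ₗ[ℚ] ℚ)) (fun s => ip (b t s))
      (fun u => by
        simp only [LinearMap.sum_apply, LinearMap.smul_apply, Submodule.coe_sum,
          Submodule.coe_smul, hΘ']
        exact hT t u (hUV u.2))
      fun s => by
        have hs : ip (b t s) ∈ V := Submodule.subset_span ⟨_, hb t s, rfl⟩
        have h2 := hTU t _ hs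
        rw [hT t _ hs] at h2
        exact h2
    simp only [map_sum, map_smul, smul_eq_mul, mul_assoc] at h1
    rw [sum_def]
    exact h1
  · obtain ⟨μ, h0, hμ⟩ := T0.fourier Θ' hR hr1 hω
    refine ⟨μ, hμ, fun hf => ?_⟩
    have e' : (LinearMap.eqLocus Θ' LinearMap.id).map U.subtype = T0.inv θ ip H := by
      ext v
      constructor
      · rintro ⟨v, hv, rfl⟩
        exact ⟨hUV v.2, congrArg Subtype.val hv⟩
      · rintro ⟨h1, h2⟩
        have h3 : ∀ m, (Θ ^ m) v = v := fun m => by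
          induction m with
          | zero => rfl
          | succ m ih => rw [pow_succ', End.mul_apply, ih]; exact h2
        have h4 := hTU 0 v h1
        simp only [h3, add_zero] at h4
        rw [← sum_smul, ← sum_def f fun j x => x * q ^ j, ← eval_eq_sum,
          U.smul_mem_iff hf] at h4
        exact ⟨⟨v, h4⟩, Subtype.ext h2, rfl⟩
    refine ⟨e' ▸ inferInstance, ?_⟩
    rw [h0, ← e', Submodule.finrank_map_subtype_eq]

theorem mult {q : ℕ} (hq : 1 < q) {d R : ℕ} (hR : 0 < R) {ω : ℂ} (hω : IsPrimitiveRoot ω R)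
    (μ : ℕ → ℕ → ℕ) (ν : ℂ →₀ ℤ) (f : ℂ[X])
    (h : ∀ t, 0 < t → (f.sum fun j a => a * ((ν.sum fun z c => c * z ^ (j + t)) - ∑ n ∈ range (d + 1),
      ((q : ℂ) ^ n) ^ (j + t) * ∑ l ∈ range R, μ n l * ω ^ (l * (j + t)))) = 0)
    {n : ℕ} (hn : n ≤ d) (hf : f.eval ((q : ℂ) ^ n) ≠ 0) :
    ν ((q : ℂ) ^ n) = μ n 0 := by
  classical
  have hq1 : (1 : ℝ) < q := by exact_mod_cast hq
  have hq0 : (q : ℂ) ≠ 0 := Nat.cast_ne_zero.2 (by omega)
  let w : ℂ →₀ ℤ := ν -
    ∑ x ∈ range (d + 1) ×ˢ range R, Finsupp.single ((q : ℂ) ^ x.1 * ω ^ x.2) (μ x.1 x.2 : ℤ)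
  have h6 : ∀ t, ∑ z ∈ w.support, (w z : ℂ) * z ^ t =
      (ν.sum fun z c => c * z ^ t) - ∑ n ∈ range (d + 1),
      ((q : ℂ) ^ n) ^ t * ∑ l ∈ range R, μ n l * ω ^ (l * t) := fun t => by
    have h7 : ∀ w : ℂ →₀ ℤ, ∑ z ∈ w.support, (w z : ℂ) * z ^ t =
        Finsupp.linearCombination ℤ (fun z : ℂ => z ^ t) w := fun w => by
      rw [Finsupp.linearCombination_apply, Finsupp.sum]
      exact sum_congr rfl fun z _ => (zsmul_eq_mul _ _).symm
    rw [h7, Finsupp.sum, h7]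
    simp only [w, map_sub, map_sum, Finsupp.linearCombination_single, zsmul_eq_mul, mul_sum,
      sum_product]
    congr 1
    refine sum_congr rfl fun n _ => sum_congr rfl fun j _ => ?_
    rw [mul_pow, pow_mul, Int.cast_natCast]
    ring
  have h8 : w ((q : ℂ) ^ n) = 0 := by_contra fun h0 => hf
    (T0.vanish w.support (fun z => (w z : ℂ)) f (fun t ht => by simp only [h6]; exact h t ht) _
      (Finsupp.mem_support_iff.2 h0) (pow_ne_zero _ hq0) (Int.cast_ne_zero.2 h0))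
  have e : ∀ x ∈ range (d + 1) ×ˢ range R,
      (if (q : ℂ) ^ x.1 * ω ^ x.2 = (q : ℂ) ^ n then (μ x.1 x.2 : ℤ) else 0 : ℤ) =
      if x = (n, 0) then (μ n 0 : ℤ) else 0 := by
    rintro ⟨n', j⟩ hx
    have hj := mem_range.1 (mem_product.1 hx).2
    by_cases e : (n', j) = (n, 0)
    · obtain ⟨rfl, rfl⟩ := Prod.mk.inj e
      simp
    · rw [if_neg e, if_neg]
      intro h
      have a1 := congrArg norm h
      rw [norm_mul, norm_pow, norm_pow, hω.norm'_eq_one hR.ne', one_pow, mul_one, norm_pow,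
        Complex.norm_natCast] at a1
      obtain rfl : n' = n := pow_right_injective₀ (by positivity) hq1.ne' a1
      rw [mul_eq_left₀ (pow_ne_zero _ hq0), ← pow_zero ω] at h
      exact e (Prod.ext rfl (hω.pow_inj hj hR h))
  simp only [w, Finsupp.sub_apply, Finsupp.finsetSum_apply, Finsupp.single_apply] at h8
  rw [sum_congr rfl e, sum_ite_eq', if_pos (by simp [hR, hn])] at h8
  exact sub_eq_zero.1 h8

open Classical in
theorem zetaZ {I : Type} (S : Finset I) (α : I → ℂ) (ν : I → ℤ) (q : ℕ) (hq : 1 < q)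
    (N : ℕ → ℂ) (hN : ∀ j, N j = ∑ i ∈ S, ν i * α i ^ (j + 1)) :
    ∃ ζ : ℂ → ℂ, Meromorphic ζ ∧
      (∃ c : ℝ, ∀ s : ℂ, c < s.re →
        ζ s = Complex.exp (∑' j : ℕ, N j * (q : ℂ) ^ (-((j + 1 : ℕ) : ℂ) * s) / (j + 1 : ℕ))) ∧
      ∀ n : ℂ, meromorphicOrderAt ζ n =
        ((-∑ i ∈ S, if α i = (q : ℂ) ^ n then ν i else 0 : ℤ) : WithTop ℤ) := by
  have hq0 : (q : ℂ) ≠ 0 := Nat.cast_ne_zero.2 (by omega)
  have hq1 : (1 : ℝ) < q := by exact_mod_cast hq
  obtain ⟨d, hd0⟩ := pow_unbounded_of_one_lt (∑ i ∈ S, ‖α i‖) hq1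
  have hα : ∀ i ∈ S, ‖α i‖ ≤ (q : ℝ) ^ d := fun i hi =>
    (single_le_sum (f := fun i => ‖α i‖) (fun i _ => norm_nonneg _) hi).trans hd0.le
  have hd : ∀ (c s : ℂ), HasDerivAt (fun s : ℂ => 1 - c * (q : ℂ) ^ (-s))
      (c * (q : ℂ) ^ (-s) * Complex.log q) s := by
    intro c s
    have := (((hasDerivAt_neg s).const_cpow (c := (q : ℂ)) (Or.inl hq0)).const_mul c).const_sub 1
    refine this.congr_deriv ?_
    ring
  have han : ∀ (c s : ℂ), AnalyticAt ℂ (fun s : ℂ => 1 - c * (q : ℂ) ^ (-s)) s := fun c s =>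
    Differentiable.analyticAt (fun z => (hd c z).differentiableAt) s
  have hme : ∀ (i : I) (s : ℂ),
      MeromorphicAt (fun s : ℂ => (1 - α i * (q : ℂ) ^ (-s)) ^ (-ν i)) s := fun i s =>
    (han (α i) s).meromorphicAt.zpow (-ν i)
  refine ⟨fun s => ∏ i ∈ S, (1 - α i * (q : ℂ) ^ (-s)) ^ (-ν i), fun s => ?_,
    ⟨d, fun s hs => ?_⟩, fun n => ?_⟩
  · exact MeromorphicAt.fun_prod fun i _ => hme i s
  · have h1 : ∀ i ∈ S, ‖α i * (q : ℂ) ^ (-s)‖ < 1 := by
      intro i hi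
      rw [norm_mul, Complex.norm_natCast_cpow_of_pos (by omega), Complex.neg_re]
      refine (mul_le_mul_of_nonneg_right (hα i hi) (by positivity)).trans_lt ?_
      rw [← Real.rpow_natCast, ← Real.rpow_add (by positivity)]
      exact Real.rpow_lt_one_of_one_lt_of_neg hq1 (by linarith)
    have h2 := hasSum_sum fun i hi =>
      (Complex.hasSum_taylorSeries_neg_log' (h1 i hi)).mul_left (ν i : ℂ)
    have h3 : ∀ j : ℕ, N j * (q : ℂ) ^ (-((j + 1 : ℕ) : ℂ) * s) / (j + 1 : ℕ)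
        = ∑ i ∈ S, (ν i : ℂ) * ((α i * (q : ℂ) ^ (-s)) ^ (j + 1) / (j + 1)) := by
      intro j
      rw [hN, neg_mul, ← mul_neg, Complex.cpow_nat_mul, sum_mul, sum_div]
      refine sum_congr rfl fun i _ => ?_
      rw [mul_pow, Nat.cast_succ]
      ring
    simp only [h3]
    rw [h2.tsum_eq, Complex.exp_sum]
    refine prod_congr rfl fun i hi => ?_
    rw [Complex.exp_int_mul, Complex.exp_neg, Complex.exp_log, inv_zpow']
    intro h
    have := h1 i hi
    rw [← sub_eq_zero.1 h] at this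
    simp at this
  · rw [meromorphicOrderAt_fun_prod (f := fun i s => (1 - α i * (q : ℂ) ^ (-s)) ^ (-ν i))
      fun i _ => hme i _, ← sum_neg_distrib, WithTop.coe_sum]
    refine sum_congr rfl fun i _ => ?_
    have h1 : (q : ℂ) ^ (-n) = ((q : ℂ) ^ n)⁻¹ := Complex.cpow_neg _ _
    have h0 : (q : ℂ) ^ n ≠ 0 := fun h => hq0 ((Complex.cpow_eq_zero_iff _ _).1 h).1
    rw [fun_meromorphicOrderAt_zpow (han _ _).meromorphicAt, (han _ _).meromorphicOrderAt_eq]
    split_ifs with h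
    · rw [(han _ _).analyticOrderAt_eq_one_of_zero_deriv_ne_zero]
      · exact mul_one _
      · rw [h, h1, mul_inv_cancel₀ h0, sub_self]
      · rw [(hd _ _).deriv, h, h1, mul_inv_cancel₀ h0, one_mul,
          ← Complex.natCast_log, Ne, Complex.ofReal_eq_zero]
        exact (Real.log_pos hq1).ne'
    · rw [(han _ _).analyticOrderAt_eq_zero.2]
      · exact mul_zero _
      · rw [h1, sub_ne_zero, ← div_eq_mul_inv, ne_comm, Ne, div_eq_one_iff_eq h0]
        exact h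

/-- The shift of sequences. -/
noncomputable def sh : Module.End ℚ (ℕ → ℚ) := LinearMap.funLeft ℚ ℚ Nat.succ

theorem sh_pow (j : ℕ) (c : ℕ → ℚ) (t : ℕ) : (sh ^ j) c t = c (j + t) := by
  induction j generalizing t with
  | zero => simp
  | succ j ih =>
    rw [pow_succ', Module.End.mul_apply]
    exact (ih (t + 1)).trans (congrArg c (by omega))

theorem aeval_sh (f : ℚ[X]) (c : ℕ → ℚ) (t : ℕ) :
    aeval sh f c t = f.sum fun j a => a * c (j + t) := by
  rw [aeval_endomorphism, Polynomial.sum, Polynomial.sum, Finset.sum_apply]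
  exact sum_congr rfl fun j _ => by rw [Pi.smul_apply, sh_pow, smul_eq_mul]

theorem recur {q : ℚ} (hq : q ≠ 0) {a : ℕ → ℚ} {f : ℚ[X]} (hf0 : f.coeff 0 ≠ 0) {d R : ℕ}
    (hR : 0 < R) {tr : ℕ → ℕ → ℚ}
    (h1 : ∀ t, 0 < t → (f.sum fun j c => c * (a (j + t) -
      ∑ n ∈ range (d + 1), (q ^ n) ^ (j + t) * tr n (j + t))) = 0)
    (hper : ∀ n t, tr n (R + t) = tr n t) :
    ∃ g : ℚ[X], g.coeff 0 ≠ 0 ∧ ∀ m, (g.sum fun j c => c * a (j + m + 1)) = 0 := by
  let h : ℚ[X] := ∏ n ∈ range (d + 1), (X ^ R - C ((q ^ n) ^ R))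
  let b : ℕ → ℕ → ℚ := fun n t => (q ^ n) ^ t * tr n t
  have h2 : aeval sh h (∑ n ∈ range (d + 1), b n) = 0 := by
    rw [map_sum]
    refine sum_eq_zero fun n hn => ?_
    obtain ⟨c, hc⟩ : (X ^ R - C ((q ^ n) ^ R)) ∣ h := dvd_prod_of_mem _ hn
    have h3 : aeval sh (X ^ R - C ((q ^ n) ^ R)) (b n) = 0 := by
      funext t
      rw [map_sub, map_pow, aeval_X, aeval_C, LinearMap.sub_apply, Pi.sub_apply, sh_pow,
        Module.algebraMap_end_apply, Pi.smul_apply, smul_eq_mul, Pi.zero_apply]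
      simp only [b]
      rw [hper, pow_add]
      ring
    rw [hc, mul_comm, map_mul, Module.End.mul_apply, h3, map_zero]
  have h3 : aeval sh (X * f) (a - ∑ n ∈ range (d + 1), b n) = 0 := by
    funext t
    rw [map_mul, aeval_X, Module.End.mul_apply, Pi.zero_apply, ← h1 (t + 1) t.succ_pos]
    refine (aeval_sh f _ (t + 1)).trans ?_
    simp only [Pi.sub_apply, Finset.sum_apply, b]
  have h4 : aeval sh (X * (f * h)) a = 0 := by
    rw [← sub_add_cancel a (∑ n ∈ range (d + 1), b n), map_add]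
    nth_rw 1 [show X * (f * h) = h * (X * f) by ring]
    rw [← mul_assoc X, map_mul, map_mul _ (X * f), Module.End.mul_apply, Module.End.mul_apply, h2,
      h3, map_zero, map_zero, add_zero]
  refine ⟨f * h, ?_, fun t => ?_⟩
  · rw [mul_coeff_zero, coeff_zero_eq_eval_zero h, eval_prod]
    refine mul_ne_zero hf0 (prod_ne_zero_iff.2 fun n _ => ?_)
    simp [hR.ne', hq]
  · have h5 := congrFun h4 t
    rw [map_mul, aeval_X, Module.End.mul_apply] at h5
    exact (aeval_sh (f * h) a (t + 1)).symm.trans h5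

end

open Polynomial T0 T0.T1a
open Pool.Agent.Lib.MP_60ec62_ag.DL (dm Cyc cm mem_cm)

variable {k : Type} [Field k] [Fintype k] {K : Type} [Field K] [Algebra k K] [Base K] {p : ℕ}
  [FBar K p] {σ : Type} [Finite σ] (Y : Sm K σ) {e : ℕ} (hq : Fintype.card k = p ^ e)
  (hI : ∀ m, DefOver (p ^ (e * m)) Y.I)

include hq hI

theorem trace_rec (he : 0 < e) (f : ℚ[X])
    (H : ∀ t, (f.sum fun j a => a • Y.grC (p ^ (e * (j + t)))) ∈ RatB Y.I ⊔ ⨆ δ, ProdB Y.I δ) :
    ∃ R, 0 < R ∧ ∃ tr : ℕ → ℕ → ℚ,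
      (∀ t, 0 < t → (f.sum fun j a => a * ((Y.fixed (p ^ (e * (j + t))) : ℚ) -
        ∑ n ∈ range (Y.d + 1), (((p : ℚ) ^ e) ^ n) ^ (j + t) * tr n (j + t))) = 0) ∧
      ∀ ω : ℂ, IsPrimitiveRoot ω R → ∀ n, ∃ μ : ℕ → ℕ,
        (∀ m, (tr n m : ℂ) = ∑ j ∈ range R, μ j * ω ^ (j * m)) ∧
        (f.eval (((p : ℚ) ^ e) ^ n) ≠ 0 →
          FiniteDimensional ℚ (inv (th k K σ) (fun u z => (Y.C1.ip u z : ℚ)) (cod Y n)) ∧
          μ 0 = Module.finrank ℚ
            (inv (th k K σ) (fun u z => (Y.C1.ip u z : ℚ)) (cod Y n))) := by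
  choose N c a b hab E using fun t => T1a.exists_dec Y (H t)
  have hper := th_periodic (K := K) (σ := σ) hq
  choose r₀ hr₀ hr₁ using fun s => hper (b 0 s)
  have hr : 0 < ∏ s, r₀ s := prod_pos fun s _ => hr₀ s
  choose tr h1 h2 using fun n : ℕ => ZT1.abs
    (ι := fun t => {s // dm K (b t s) + n = Y.d + 1}) (th k K σ)
    (fun u z => (Y.C1.ip u z : ℚ)) (cod Y n)
    (fun u hu => by simpa only [pow_one] using XT1.th_cod Y hq hI 1 n u hu)
    (fun u z => by rw [← Y.C1.ip_cm (hI 1), ← pow_one (th k K σ), cm_th' hq, cm_th' hq])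
    (((p : ℚ) ^ e) ^ n) f
    (fun t s => c t s.1) (fun t s => a t s.1) (fun t s => b t s.1)
    (fun t s => ⟨(hab t s.1).2.1, s.2⟩) (fun t => XT1.row Y hq hI f t (hab t) (E t) n) hr
    (fun s => by
      obtain ⟨x, hx⟩ := dvd_prod_of_mem r₀ (mem_univ s.1)
      rw [hx, pow_mul, Equiv.Perm.pow_apply_eq_self_of_apply_eq_self (hr₁ _)])
  refine ⟨_, hr, tr, fun t ht => ?_, fun ω hω n => h2 n ω hω⟩
  have h3 := E t _ (T1a.mid_gr Y)
  rw [sum_def, map_sum, sum_congr rfl fun j _ => by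
    rw [map_smul, Y.lefschetz (Nat.mul_pos he (by omega)) (hI _), smul_eq_mul],
    sum_congr (s₁ := univ) rfl fun s _ => congrArg (c t s * ·)
      (T1a.bil_diag Y (hab t s).1 (hab t s).2.1 (hab t s).2.2),
    ← sum_fiberwise_of_maps_to (s := univ) (t := range (Y.d + 1))
      (g := fun s => Y.d + 1 - dm K (b t s)) fun s _ => by
        have := (hab t s).2.2
        have := Y.dm_le (hab t s).1.2
        rw [mem_range]
        omega] at h3
  simp only [sum_def] at h1 ⊢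
  simp only [mul_sub, mul_sum, sum_sub_distrib]
  rw [h3, sum_comm, sub_eq_zero]
  refine sum_congr rfl fun n _ => ?_
  rw [h1 n]
  exact sum_subtype (p := fun s => dm K (b t s) + n = Y.d + 1) _ (fun s => by
    have := Y.dm_le (hab t s).2.1.2
    rw [mem_filter]
    exact ⟨fun h => by have := h.2; omega, fun h => ⟨mem_univ _, by omega⟩⟩) _

end ZT1

theorem ZT_thm : ZT where
  rc := by
    intro k _ _ σ _ I hI hs d hd f hf H L _ _ hL
    have := T0.fbar k
    have := Fintype.ofFinite k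
    obtain ⟨e, -, hq⟩ := FiniteField.card k (ringChar k)
    have hc : Nat.card k = ringChar k ^ (e : ℕ) := by rw [Nat.card_eq_fintype_card, hq]
    have hc' : (Nat.card k : ℚ) = (ringChar k : ℚ) ^ (e : ℕ) := by rw [hc, Nat.cast_pow]
    obtain ⟨R, hR, tr, h1, h2⟩ := ZT1.trace_rec (T0.sm (AlgebraicClosure k) hI hs hd) hq
      (T0.defOver_up' hq I) e.2 f fun t => by simp only [pow_mul, ← hc]; exact H t
    have hω := Complex.isPrimitiveRoot_exp _ hR.ne'
    choose μ hμ hμ0 using h2 _ hω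
    simp only [pow_mul, ← hc, ← hc'] at h1
    obtain ⟨g, g0, g1⟩ := ZT1.recur (q := Nat.card k) (Nat.cast_ne_zero.2 Nat.card_pos.ne')
      (a := fun t => ((T0.sm (AlgebraicClosure k) hI hs hd).fixed (Nat.card k ^ t) : ℚ)) hf hR h1
      fun n t => by
        apply Rat.cast_injective (α := ℂ)
        rw [hμ, hμ]
        refine sum_congr rfl fun j _ => ?_
        rw [mul_add, pow_add, mul_comm j R, pow_mul, hω.pow_eq_one, one_pow, one_mul]
    refine ⟨g, g0, fun m => ?_⟩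
    rw [← g1 m]
    simp only [XT_fixed hI hs hd (L _) _ (hL _)]
  tate := by
    intro k _ _ σ _ I hI hs d hd f i n hin hf H L _ _ hL ν hν F
    have := T0.fbar k
    have := Fintype.ofFinite k
    obtain ⟨e, -, hq⟩ := FiniteField.card k (ringChar k)
    have hc : Nat.card k = ringChar k ^ (e : ℕ) := by rw [Nat.card_eq_fintype_card, hq]
    have hc' : (Nat.card k : ℚ) = (ringChar k : ℚ) ^ (e : ℕ) := by rw [hc, Nat.cast_pow]
    obtain ⟨R, hR, tr, h1, h2⟩ := ZT1.trace_rec (T0.sm (AlgebraicClosure k) hI hs hd) hq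
      (T0.defOver_up' hq I) e.2 f fun t => by simp only [pow_mul, ← hc]; exact H t
    have hω := Complex.isPrimitiveRoot_exp _ hR.ne'
    choose μ hμ hμ0 using h2 _ hω
    simp only [pow_mul, ← hc, ← hc'] at h1
    obtain ⟨hfin, hμ1⟩ := hμ0 n (hc' ▸ hf)
    refine ⟨μ n 0, ?_, ?_⟩
    · rw [T0.rank_num (K := AlgebraicClosure k) hI hs hd hq hin F, hμ1, Module.finrank_eq_rank]
    · refine ZT1.mult (d := d) Finite.one_lt_card hR hω μ ν (f.map (algebraMap ℚ ℂ))
        (fun t ht => ?_) (by omega) ?_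
      · have h7 := congrArg (algebraMap ℚ ℂ) (h1 t ht)
        rw [Polynomial.sum_over_range _ (by simp), map_sum] at h7
        rw [Polynomial.sum_over_range _ (by simp), Polynomial.natDegree_map,
          ← h7.trans (map_zero _)]
        refine sum_congr rfl fun j _ => ?_
        obtain ⟨m, hm⟩ : ∃ m, j + t = m + 1 := ⟨j + t - 1, by omega⟩
        rw [Polynomial.coeff_map, map_mul, hm, ← hν, XT_fixed hI hs hd (L m) m (hL m),
          sum_congr rfl fun n _ => by rw [← hμ n]]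
        simp only [eq_ratCast, Rat.cast_sub, Rat.cast_natCast, Rat.cast_sum, Rat.cast_mul,
          Rat.cast_pow]
        rfl
      · rwa [← (map_ne_zero (algebraMap ℚ ℂ)), ← Polynomial.eval₂_at_apply, map_pow, map_natCast,
          Polynomial.eval₂_eq_eval_map] at hf
  zeta := by
    intro k _ _ σ _ I hI d hd L _ _ hL ν hν
    obtain ⟨ζ, z1, ⟨c, z2⟩, z3⟩ := ZT1.zetaZ ν.support id ν (Nat.card k)
      Finite.one_lt_card (fun m => points I (L m)) hν
    obtain ⟨C, hC⟩ := points_le hI hd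
    obtain ⟨ζ', y1, y2, y3⟩ := zeta_shift (Nat.card k) Finite.one_lt_card d C
      (fun m => points I (L m)) (fun m => by
        have : Module.Finite k (L m) := Module.finite_of_finrank_eq_succ (hL m)
        have : Finite (L m) := Module.finite_of_finite k
        have h := hC (L m)
        rwa [Module.natCard_eq_pow_finrank (K := k), hL] at h) z1 z2
    refine ⟨ζ', ⟨y1, y2⟩, fun s => ?_⟩
    rw [y3, z3]
    simp only [id, sum_ite_eq', Finsupp.mem_support_iff]
    split_ifs with h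
    · rfl
    · rw [not_not.1 h]

end Pool.Agent.Lib.MP_557161_ag.HG
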