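import Pool.Agent.Lib.MP_557161_ag.HG.St4

/-!
Power sums of odd degree in terms of the elementary symmetric functions.
-/

namespace Pool.Agent.Lib.MP_557161_ag.HG

open Finset hiding mk map

section Ring

variable {F : Type} [CommRing F] {ι : Type} [Fintype ι]

lemma A3_sum (u : ι → F) (k : ℕ) : es u k = ∑ t ∈ powersetCard k univ, ∏ i ∈ t, u i := by
  simp [es, MvPolynomial.esymm]

lemma A3_ms (u : ι → F) (k : ℕ) : es u k = (univ.val.map u).esymm k :=
  MvPolynomial.aeval_esymm_eq_multiset_esymm _ _ _ _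

lemma A3_zero (u : ι → F) : es u 0 = 1 := by simp [es]

lemma A3_top (a : ℕ) (u : Fin a → F) : es u a = ∏ k, u k := by
  have := powersetCard_self (univ : Finset (Fin a))
  rw [card_univ, Fintype.card_fin] at this
  rw [A3_sum, this, sum_singleton]

lemma A3_perm (u : ι → F) (σ : Equiv.Perm ι) (k : ℕ) : es (fun i => u (σ i)) k = es u k := by
  conv_rhs => rw [es, ← MvPolynomial.rename_esymm ι ℤ k σ, MvPolynomial.aeval_rename]
  rfl

open PowerSeries

lemma A3_coeff (u : ι → F) (k : ℕ) : coeff k (∏ i, (1 + C (u i) * X : F⟦X⟧)) = es u k := by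
  classical
  rw [prod_one_add, map_sum, A3_sum, powersetCard_eq_filter, sum_filter]
  refine sum_congr rfl fun t _ => ?_
  rw [prod_mul_distrib, prod_const, ← map_prod, coeff_C_mul, coeff_X_pow]
  by_cases h : k = t.card
  · simp [h]
  · simp [h, Ne.symm h]

lemma A3_inv (x : F) : (1 + C x * X : F⟦X⟧) * mk (fun k => (-x) ^ k) = 1 := by
  ext (_ | k)
  · simp
  · rw [add_mul, one_mul, mul_assoc, map_add, coeff_C_mul, coeff_succ_X_mul, coeff_mk, coeff_mk,
      coeff_one, if_neg k.succ_ne_zero]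
    ring

omit [Fintype ι] in
lemma A3_log (u : ι → F) (s : Finset ι) : d⁄dX F (∏ i ∈ s, (1 + C (u i) * X : F⟦X⟧)) =
    (∏ i ∈ s, (1 + C (u i) * X : F⟦X⟧)) * ∑ i ∈ s, C (u i) * mk (fun k => (-u i) ^ k) := by
  classical
  induction s using Finset.induction_on with
  | empty => simp
  | insert a s ha ih =>
    rw [prod_insert ha, sum_insert ha, Derivation.leibniz, ih, map_add, derivative_one,
      Derivation.leibniz, derivative_C, derivative_X]
    simp only [smul_eq_mul]
    linear_combination (-(∏ i ∈ s, (1 + C (u i) * X : F⟦X⟧)) * C (u a)) * A3_inv (u a)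

/-- The generating series cut at the degree `b`. -/
noncomputable def A3E {b : ℕ} (e : Fin b → F) : F⟦X⟧ :=
  1 + X * mk fun j => if h : j < b then e ⟨j, h⟩ else 0

lemma A3E_map {R : Type} [CommRing R] {b : ℕ} (f : R →+* F) (e : Fin b → R) :
    map f (A3E e) = A3E fun k => f (e k) := by
  rw [A3E, A3E, map_add, map_one, map_mul, map_X]
  congr 2
  ext j
  rw [coeff_map, coeff_mk, coeff_mk]
  split_ifs
  exacts [rfl, map_zero f]

lemma A3E_zero {b : ℕ} : A3E (0 : Fin b → F) = 1 := by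
  rw [A3E, add_eq_left]
  exact mul_eq_zero_of_right _ (by ext j; simp)

lemma A3_dmap {R : Type} [CommRing R] (f : R →+* F) (g : R⟦X⟧) :
    map f (d⁄dX R g) = d⁄dX F (map f g) := by
  ext j
  simp [coeff_derivative]

lemma A3_const {b : ℕ} {e : Fin b → F} {G : F⟦X⟧} (h : A3E e * G = 1) : coeff 0 G = 1 := by
  simpa [A3E] using congrArg constantCoeff h

lemma A3_iff {b : ℕ} {e : Fin b → F} {G : F⟦X⟧} (h : A3E e * G = 1) :
    (∀ k : Fin b, coeff (b - k) G = 0) ↔ e = 0 := by
  constructor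
  · intro hk
    have h1 : X ^ (b + 1) ∣ G - 1 := X_pow_dvd_iff.2 fun m hm => by
      rcases m with _ | m
      · rw [map_sub, A3_const h, coeff_zero_one, sub_self]
      · have := hk ⟨b - (m + 1), by omega⟩
        rw [show b - (b - (m + 1)) = m + 1 by omega] at this
        rw [map_sub, this, coeff_one, if_neg m.succ_ne_zero, sub_self]
    have h2 := h1.mul_left (A3E e)
    rw [mul_sub, h, mul_one] at h2
    funext k
    have := X_pow_dvd_iff.1 h2 (k + 1) (by omega)
    simpa [A3E, coeff_succ_X_mul] using this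
  · rintro rfl k
    rw [A3E_zero, one_mul] at h
    rw [h, coeff_one, if_neg (by omega)]

lemma A3_main {b : ℕ} (u : Fin (2 * b + 1) → F) {G : F⟦X⟧}
    (h : A3E (fun k : Fin b => es u (k + 1)) * G = 1) : ∑ k, u k ^ (2 * b + 1) =
      coeff (2 * b) (d⁄dX F (A3E fun k : Fin b => es u (k + 1)) * G) +
        ∑ k : Fin b, es u (b + 1 + k) * (((2 * b + 1 : ℕ) : F) * coeff (b - k) G) +
        ((2 * b + 1 : ℕ) : F) * ∏ k, u k := by
  set E0 := A3E fun k : Fin b => es u (k + 1) with hE0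
  set Z : F⟦X⟧ := mk fun k => es u (b + 1 + k) with hZ
  have hE : ∏ i, (1 + C (u i) * X : F⟦X⟧) = E0 + X ^ (b + 1) * Z := by
    ext m
    rw [A3_coeff, map_add, coeff_X_pow_mul', hE0, A3E, map_add]
    rcases m with _ | m
    · simp [A3_zero]
    · rw [coeff_succ_X_mul, coeff_mk, coeff_one, if_neg m.succ_ne_zero, zero_add, hZ, coeff_mk]
      by_cases hm : m < b
      · rw [dif_pos hm, if_neg (by omega), add_zero]
      · rw [dif_neg hm, if_pos (by omega), zero_add]
        congr 1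
        omega
  have hl := A3_log u univ
  have hu : (∏ i, (1 + C (u i) * X : F⟦X⟧)) * ∏ i, mk (fun k => (-u i) ^ k) = 1 := by
    rw [← prod_mul_distrib]
    exact prod_eq_one fun i _ => A3_inv _
  set S : F⟦X⟧ := ∑ i, C (u i) * mk (fun k => (-u i) ^ k) with hS
  set Y := X ^ (b + 1) * (Z * G) with hY
  have hE' : ∏ i, (1 + C (u i) * X : F⟦X⟧) = E0 * (1 + Y) := by
    rw [hE, hY]
    linear_combination (-X ^ (b + 1) * Z) * h
  have d1 : X ^ b ∣ d⁄dX F Y := X_pow_dvd_iff.2 fun m hm => by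
    rw [coeff_derivative, hY, coeff_X_pow_mul', if_neg (by omega), zero_mul]
  have d2 : X ^ (2 * b + 1) ∣ d⁄dX F E0 * G + d⁄dX F Y - S := by
    have d3 : X ^ (2 * b + 1) ∣ Y * d⁄dX F Y := by
      rw [show 2 * b + 1 = b + 1 + b by ring, pow_add]
      exact mul_dvd_mul (dvd_mul_right _ _) d1
    rw [hE', Derivation.leibniz, map_add, derivative_one] at hl
    rw [hE'] at hu
    simp only [smul_eq_mul] at hl
    have : d⁄dX F E0 * G + d⁄dX F Y - S =
        (∏ i, mk (fun k => (-u i) ^ k)) * E0 * (Y * d⁄dX F Y) := by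
      linear_combination (-(d⁄dX F E0 * G + d⁄dX F Y - S)) * hu +
        (∏ i, mk (fun k => (-u i) ^ k)) * hl +
        (∏ i, mk (fun k => (-u i) ^ k)) * (1 + Y) * d⁄dX F E0 * h
    rw [this]
    exact d3.mul_left _
  have d4 := X_pow_dvd_iff.1 d2 (2 * b) (by omega)
  have c1 : coeff (2 * b) S = ∑ k, u k ^ (2 * b + 1) := by
    rw [hS, map_sum]
    refine sum_congr rfl fun i _ => ?_
    rw [coeff_C_mul, coeff_mk, pow_mul, neg_sq, ← pow_mul, pow_succ']
  have c2 : coeff (2 * b + 1) Y = ∑ k : Fin b, es u (b + 1 + k) * coeff (b - k) G + ∏ k, u k := by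
    rw [hY, coeff_X_pow_mul', if_pos (by omega), show 2 * b + 1 - (b + 1) = b by omega, coeff_mul,
      Nat.sum_antidiagonal_eq_sum_range_succ fun i j => coeff i Z * coeff j G, sum_range_succ,
      sum_range, Nat.sub_self, A3_const h, mul_one, hZ]
    simp only [coeff_mk]
    rw [← A3_top, show b + 1 + b = 2 * b + 1 by ring]
  rw [map_sub, map_add, coeff_derivative, c1, c2, sub_eq_zero] at d4
  rw [← d4, add_assoc, add_mul, sum_mul]
  push_cast
  congr 2
  · exact sum_congr rfl fun _ _ => by ring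
  · ring

lemma A3_newton (b : ℕ) : ∃ (P : MvPolynomial (Fin b) ℤ) (H : Fin b → MvPolynomial (Fin b) ℤ),
    ∀ (F : Type) [CommRing F] (e : Fin b → F), ∃ G : F⟦X⟧, A3E e * G = 1 ∧
      MvPolynomial.aeval e P = coeff (2 * b) (d⁄dX F (A3E e) * G) ∧
      ∀ k, MvPolynomial.aeval e (H k) = coeff (b - k) G := by
  have h := mul_invOfUnit (A3E (MvPolynomial.X : Fin b → MvPolynomial (Fin b) ℤ)) 1 (by simp [A3E])
  refine ⟨coeff (2 * b) (d⁄dX _ (A3E MvPolynomial.X) * invOfUnit (A3E MvPolynomial.X) 1),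
    fun k => coeff (b - k) (invOfUnit (A3E MvPolynomial.X) 1), fun F _ e => ?_⟩
  have e1 : map (MvPolynomial.aeval (R := ℤ) e).toRingHom (A3E MvPolynomial.X) = A3E e := by
    rw [A3E_map]
    simp
  refine ⟨map (MvPolynomial.aeval (R := ℤ) e).toRingHom (invOfUnit (A3E MvPolynomial.X) 1),
    ?_, ?_, fun k => (coeff_map _ _ _).symm⟩
  · rw [← e1, ← map_mul, h, map_one]
  · rw [← e1, ← A3_dmap, ← map_mul, coeff_map]
    rfl

end Ring

open Polynomial

lemma A3_srj {F : Type} [Field F] [IsAlgClosed F] (a : ℕ) (c : ℕ → F) : ∃ u : Fin a → F,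
    ∀ k, 0 < k → k ≤ a → es u k = c k := by
  set Q : F[X] := X ^ a + ∑ j : Fin a, C ((-1) ^ (a - j) * c (a - j)) * X ^ (j : ℕ) with hQ
  have hd := degree_sum_fin_lt fun j : Fin a => (-1) ^ (a - j) * c (a - j)
  have hm : Q.Monic := monic_X_pow_add hd
  have hn : Q.natDegree = a := by
    rw [hQ, natDegree_add_eq_left_of_degree_lt (by rwa [degree_X_pow]), natDegree_X_pow]
  have hs := IsAlgClosed.splits Q
  obtain ⟨u, hu⟩ : ∃ u : Fin a → F, univ.val.map u = Q.roots := by
    have hc : Q.roots.toList.length = a := by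
      rw [Multiset.length_toList, ← hs.natDegree_eq_card_roots, hn]
    refine ⟨fun i => Q.roots.toList.get (i.cast hc.symm), ?_⟩
    rw [Fin.univ_val_map, ← List.ofFn_congr hc, List.ofFn_get, Multiset.coe_toList]
  refine ⟨u, fun k h0 hk => ?_⟩
  have h := coeff_eq_esymm_roots_of_splits hs (k := a - k) (by omega)
  rw [hm.leadingCoeff, hn, ← hu, ← A3_ms, one_mul, hQ, coeff_add, coeff_X_pow, if_neg (by omega),
    zero_add, finsetSum_coeff, sum_eq_single ⟨a - k, by omega⟩, coeff_C_mul_X_pow, if_pos rfl,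
    Nat.sub_sub_self hk] at h
  · exact (mul_left_cancel₀ (pow_ne_zero _ (neg_ne_zero.2 one_ne_zero)) h).symm
  · intro j _ hj
    rw [coeff_C_mul_X_pow, if_neg fun e => hj (Fin.ext e.symm)]
  · simp

lemma A3_int {M : Type} [Field M] (O : ValuationSubring M) (a : ℕ) (u : Fin a → M)
    (h : ∀ k, 0 < k → k ≤ a → es u k ∈ O) (i : Fin a) : u i ∈ O := by
  have hc : Multiset.card (univ.val.map u) = a := by simp
  have hl : ((univ.val.map u).map fun t => X - C t).prod ∈ lifts (algebraMap O M) := by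
    refine (lifts_iff_coeff_lifts _).2 fun n => ?_
    by_cases hn : n ≤ a
    · rw [Multiset.prod_X_sub_C_coeff _ (hc.symm ▸ hn), hc, ← A3_ms]
      refine ⟨⟨_, O.mul_mem _ _ (pow_mem (neg_mem O.one_mem) _) ?_⟩, rfl⟩
      rcases Nat.eq_zero_or_pos (a - n) with e | e
      · rw [e, A3_zero]
        exact O.one_mem
      · exact h _ e (by omega)
    · rw [coeff_eq_zero_of_natDegree_lt (by rw [natDegree_multiset_prod_X_sub_C_eq_card]; omega)]
      exact ⟨0, map_zero _⟩
  obtain ⟨q, h1, -, h2⟩ := lifts_and_natDegree_eq_and_monic hl (monic_multiset_prod_of_monic _ _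
    fun t _ => monic_X_sub_C t)
  have : IsIntegral O (u i) := ⟨q, h2, by
    rw [← eval_map, h1, ← IsRoot.def, ← mem_roots (h1 ▸ (h2.map _).ne_zero),
      roots_multiset_prod_X_sub_C]
    simp⟩
  obtain ⟨y, hy⟩ := IsIntegrallyClosed.isIntegral_iff.1 this
  exact hy ▸ y.2

open Pool.Agent.Lib.MP_557161_ag.DL in
theorem A3_thm {K : Type} [Field K] : A3 K where
  newton b := by
    obtain ⟨P, H, h⟩ := A3_newton b
    refine ⟨P, H, fun F u => ?_, fun F => ?_, fun F e => ?_⟩
    · obtain ⟨G, h1, h2, h3⟩ := h F fun k : Fin b => es u (k + 1)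
      simp only [h2, h3]
      exact A3_main u h1
    · obtain ⟨G, -, h2, -⟩ := h F 0
      rw [A3E_zero, PowerSeries.derivative_one, zero_mul, map_zero] at h2
      exact h2
    · obtain ⟨G, h1, -, h3⟩ := h F e
      simp only [h3]
      exact A3_iff h1
  top _ := A3_top
  perm _ _ := A3_perm
  srj _ _ := A3_srj
  int O := A3_int O.O

end Pool.Agent.Lib.MP_557161_ag.HG
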