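import Pool.Agent.Lib.MP_557161_ag.HG.St1

/-!
Zero places and Gauss places of purely transcendental extensions.
-/

namespace Pool.Agent.Lib.MP_557161_ag.HG

open Pool.Agent.Lib.MP_557161_ag.DL MvPolynomial Pl Pl.ValB

variable {K : Type} [Field K] {L M N : Fld K} {κ : Type}

/-- Algebraic independence over the image of `α`. -/
def FA2Ind (α : L →ₐ[K] M) (T : κ → M) : Prop :=
  ∀ P : MvPolynomial κ L, P ≠ 0 → eval₂ α.toRingHom T P ≠ 0

theorem FA2_nat {c : Cardinal} {n : ℕ} (h : c < n) : ∃ m, m < n ∧ c ≤ (m : ℕ) := by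
  obtain ⟨m, rfl⟩ := Cardinal.lt_aleph0.1 (h.trans Cardinal.natCast_lt_aleph0)
  exact ⟨m, by exact_mod_cast h, le_rfl⟩

theorem FA2_base (α : L →ₐ[K] M) (T : κ → M) (c : L) : α c ∈ gen α T :=
  IntermediateField.subset_adjoin _ _ (Or.inl ⟨c, rfl⟩)

theorem FA2_var (α : L →ₐ[K] M) (T : κ → M) (a : κ) : T a ∈ gen α T :=
  IntermediateField.subset_adjoin _ _ (Or.inr ⟨a, rfl⟩)

theorem FA2_le {α : L →ₐ[K] M} {T : κ → M} {F : IntermediateField K M} (h : ∀ c, α c ∈ F)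
    (h' : ∀ a, T a ∈ F) : gen α T ≤ F :=
  IntermediateField.adjoin_le_iff.2 (by rintro _ (⟨c, rfl⟩ | ⟨a, rfl⟩); exacts [h c, h' a])

theorem FA2_map {α : L →ₐ[K] M} {T : κ → M} (β : M →ₐ[K] N) (h : gen α T = ⊤) (x : M) :
    β x ∈ gen (β.comp α) fun a => β (T a) :=
  FA2_le (F := (gen (β.comp α) fun a => β (T a)).comap β) (FA2_base (β.comp α) _)
    (FA2_var _ fun a => β (T a)) (h ▸ IntermediateField.mem_top)

theorem FA2_frac {α : L →ₐ[K] M} {T : κ → M} {x : M} (hx : x ∈ gen α T) :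
    ∃ P Q : MvPolynomial κ L, x = eval₂ α.toRingHom T P / eval₂ α.toRingHom T Q := by
  let := ValA.alg α
  have := ValA.tower α
  exact (IntermediateField.mem_adjoin_range_iff L T x).1
    (FA2_le (F := (IntermediateField.adjoin L (Set.range T)).restrictScalars K)
      (fun c => (IntermediateField.adjoin L (Set.range T)).algebraMap_mem c)
      (fun a => IntermediateField.subset_adjoin L _ ⟨a, rfl⟩) hx)

theorem FA2_prim (O : Pl L) {P : MvPolynomial κ L} (hP : P ≠ 0) :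
    ∃ (c : L) (a : MvPolynomial κ O.O), c ≠ 0 ∧ map O.rh a ≠ 0 ∧ P = C c * map O.O.subtype a := by
  obtain ⟨i, hi, h1, h2⟩ := exists_max O P.support (fun m => P.coeff m)
    (by obtain ⟨i, hi⟩ := support_nonempty.2 hP; exact ⟨i, hi, mem_support_iff.1 hi⟩)
  obtain ⟨a, ha⟩ : C (P.coeff i)⁻¹ * P ∈ Set.range (map O.O.subtype) := by
    refine mem_range_map_iff_coeffs_subset.2 fun c hc => ?_
    obtain ⟨m, hm, rfl⟩ := mem_coeffs_iff.1 hc
    rw [mem_support_iff, coeff_C_mul] at hm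
    rw [coeff_C_mul, ← div_eq_inv_mul]
    exact ⟨⟨_, h2 m (mem_support_iff.2 (right_ne_zero_of_mul hm))⟩, rfl⟩
  refine ⟨P.coeff i, a, h1, fun e => ?_, ?_⟩
  · have e1 : a.coeff i = 1 := Subtype.ext (by
      have := congrArg (coeff i) ha
      rwa [coeff_map, coeff_C_mul, inv_mul_cancel₀ h1] at this)
    have := congrArg (coeff i) e
    rw [coeff_map, e1, map_one, coeff_zero] at this
    exact one_ne_zero this
  · rw [ha, ← mul_assoc, ← C_mul, mul_inv_cancel₀ h1, C_1, one_mul]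

theorem FA2_dec {α : L →ₐ[K] M} {T : κ → M} (O : Pl L) {x : M} (hx : x ∈ gen α T) (h0 : x ≠ 0) :
    ∃ (c : L) (a b : MvPolynomial κ O.O), c ≠ 0 ∧ map O.rh a ≠ 0 ∧ map O.rh b ≠ 0 ∧
      x * eval₂ (ph α O) T b = α c * eval₂ (ph α O) T a := by
  obtain ⟨P, Q, e⟩ := FA2_frac hx
  obtain ⟨h1, h2⟩ := div_ne_zero_iff.1 (e ▸ h0)
  obtain ⟨c, a, c1, c2, rfl⟩ := FA2_prim O (P := P) fun e => h1 (by rw [e, eval₂_zero])
  obtain ⟨d, b, d1, d2, rfl⟩ := FA2_prim O (P := Q) fun e => h2 (by rw [e, eval₂_zero])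
  refine ⟨c / d, a, b, div_ne_zero c1 d1, c2, d2, ?_⟩
  rw [eq_div_iff h2, eval₂_mul, eval₂_mul, eval₂_C, eval₂_C, eval₂_map, eval₂_map] at e
  have hd : α d ≠ 0 := (_root_.map_ne_zero α).2 d1
  rw [map_div₀, div_mul_eq_mul_div, eq_div_iff hd, mul_assoc, mul_comm _ (α d)]
  exact e

theorem FA2_rd {α : L →ₐ[K] M} {T : κ → M} {O : Pl L} {O' : Pl M} (h : Over α O O')
    (hT : ∀ a, T a ∈ O'.O) (a : MvPolynomial κ O.O) : eval₂ (ph α O) T a ∈ O'.O ∧
      O'.rd (eval₂ (ph α O) T a) =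
        eval₂ h.resHom.toRingHom (fun a => O'.rd (T a)) (map O.rh a) := by
  induction a using MvPolynomial.induction_on with
  | C c =>
    rw [map_C, eval₂_C, eval₂_C]
    exact ⟨(h (c : L)).1 c.2,
      (h.resHom_rd c).symm.trans (congrArg h.resHom (O.rd_coe c))⟩
  | add p q hp hq =>
    rw [map_add, eval₂_add, eval₂_add, rd_add _ hp.1 hq.1, hp.2, hq.2]
    exact ⟨add_mem hp.1 hq.1, rfl⟩
  | mul_X p n hp =>
    rw [map_mul, map_X, eval₂_mul, eval₂_mul, eval₂_X, eval₂_X, rd_mul _ hp.1 (hT n), hp.2]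
    exact ⟨mul_mem hp.1 (hT n), rfl⟩

theorem FA2_un {α : L →ₐ[K] M} {T : κ → M} {O : Pl L} {O' : Pl M} (h : Over α O O')
    (hT : ∀ a, T a ∈ O'.O) (ht : FA2Ind h.resHom fun a => O'.rd (T a)) {a : MvPolynomial κ O.O}
    (ha : map O.rh a ≠ 0) : Un O' (eval₂ (ph α O) T a) :=
  un_of_rd (FA2_rd h hT a).1 fun e => ht _ ha ((FA2_rd h hT a).2.symm.trans e)

theorem FA2_mem {α : L →ₐ[K] M} {T : κ → M} {O : Pl L} {O' : Pl M} (h : Over α O O')
    (hT : ∀ a, T a ∈ O'.O) (ht : FA2Ind h.resHom fun a => O'.rd (T a)) {x : M} {c : L}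
    {a b : MvPolynomial κ O.O} (ha : map O.rh a ≠ 0) (hb : map O.rh b ≠ 0)
    (e : x * eval₂ (ph α O) T b = α c * eval₂ (ph α O) T a) : x ∈ O'.O ↔ c ∈ O.O := by
  rw [← (FA2_un h hT ht hb).mul_mem_iff, mul_comm, e, mul_comm, (FA2_un h hT ht ha).mul_mem_iff, ← h]

/-- Existence of the Gauss extension. -/
theorem FA2_gauss {α : L →ₐ[K] M} {T : κ → M} (ht : FA2Ind α T) (hg : gen α T = ⊤) (O : Pl L)
    (hO : O.IsDVR) : ∃ (O' : Pl M) (h : Over α O O'), (∀ a, T a ∈ O'.O) ∧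
      FA2Ind h.resHom (fun a => O'.rd (T a)) ∧ gen h.resHom (fun a => O'.rd (T a)) = ⊤ ∧
      O'.IsDVR ∧ ∀ f, O'.ord (α f) = O.ord f := by
  let ev : MvPolynomial κ O.O →+* M := eval₂Hom (ph α O) T
  let ρ : MvPolynomial κ O.O →+* MvPolynomial κ O.res := map O.rh
  have hi : Function.Injective ev := (injective_iff_map_eq_zero _).2 fun a ha =>
    map_injective O.O.subtype Subtype.val_injective (by
      rw [map_zero]
      exact by_contra fun e => ht _ e (by rw [eval₂_map]; exact ha))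
  have hC : ∀ c : O.O, ev (C c) = α c := fun c => eval₂_C _ _ _
  have hd := fun x : M => FA2_dec (α := α) (T := T) O (x := x) (hg ▸ IntermediateField.mem_top)
  have H : ∀ x : M, ∃ a b, ρ b ≠ 0 ∧ (x * ev b = ev a ∨ x⁻¹ * ev b = ev a) := fun x => by
    by_cases hx : x = 0
    · exact ⟨0, 1, by simp, Or.inl (by simp [hx])⟩
    obtain ⟨c, a, b, c0, ha, hb, e⟩ := hd x hx
    rcases O.O.mem_or_inv_mem c with hc | hc
    · exact ⟨C ⟨c, hc⟩ * a, b, hb, Or.inl (by rw [map_mul, hC]; exact e)⟩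
    · refine ⟨C ⟨c⁻¹, hc⟩ * b, a, ha, Or.inr ?_⟩
      rw [map_mul, hC, map_inv₀, inv_mul_eq_iff_eq_mul₀ hx, mul_left_comm,
        eq_inv_mul_iff_mul_eq₀ ((_root_.map_ne_zero α).2 c0)]
      exact e.symm
  let O' : Pl M := ⟨loc ev ρ H, fun c => by
    rw [← α.commutes]
    exact hC ⟨_, O.const c⟩ ▸ ev_mem_loc _⟩
  have h : Over α O O' := fun f => ⟨fun hf => hC ⟨f, hf⟩ ▸ ev_mem_loc (H := H) _, fun hf => by
    by_contra h1
    have h2 := (O.O.mem_or_inv_mem f).resolve_left h1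
    have h0 : f ≠ 0 := fun e => h1 (e ▸ zero_mem _)
    have h3 := (inv_mem_loc (H := H) hi (a := C ⟨f⁻¹, h2⟩)
      (C_ne_zero.2 fun e => inv_ne_zero h0 (congrArg Subtype.val e))).1
      (by rw [hC, map_inv₀, inv_inv]; exact hf)
    refine h1 (inv_inv f ▸ (un_of_rd h2 fun e => h3 ?_).2.2)
    rw [rd_of_mem O h2] at e
    simp [ρ, e]⟩
  have hT : ∀ a, T a ∈ O'.O := fun a =>
    (eval₂_X (ph α O) T a : ev (X a) = T a) ▸ ev_mem_loc (H := H) _
  have ht' : FA2Ind h.resHom fun a => O'.rd (T a) := fun P hP e => by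
    obtain ⟨a, rfl⟩ := map_surjective _ O.rh_surj P
    exact (rd_ev_iff (O := O') (H := H) hi rfl a).2 hP ((FA2_rd h hT a).2.trans e)
  obtain ⟨π, hπ⟩ := exists_unif hO
  have h1 : Unif O' (α π) := by
    refine ⟨(_root_.map_ne_zero α).2 hπ.1, (h _).1 hπ.2.1,
      by rw [← map_inv₀, ← h]; exact hπ.2.2.1, fun x hx => ?_⟩
    obtain ⟨c, a, b, c0, ha, hb, e⟩ := hd x hx
    obtain ⟨n, u, hu, rfl⟩ := hπ.2.2.2 c c0
    have h2 := FA2_un h hT ht' hb
    refine ⟨n, _, (((Un.map h).2 hu).mul (FA2_un h hT ht' ha)).mul h2.inv, ?_⟩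
    rw [(eq_mul_inv_iff_mul_eq₀ h2.1).2 e, map_mul, map_zpow₀]
    ring
  refine ⟨O', h, hT, ht', eq_top_iff.2 fun z _ => ?_, h1.isDVR, fun f => ?_⟩
  · obtain ⟨x, hx, rfl⟩ := O'.rd_surj z
    obtain ⟨a, b, hb, e⟩ := id hx
    have e1 := (congrArg O'.rd e).trans (FA2_rd h hT a).2
    have e2 := rd_mul _ hx (FA2_rd h hT b).1
    rw [(FA2_rd h hT b).2] at e2
    rw [(eq_div_iff (ht' _ hb)).2 (e2.symm.trans e1)]
    exact div_mem (eval₂_mem (fun _ _ => FA2_base _ _ _) (FA2_var _ _))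
      (eval₂_mem (fun _ _ => FA2_base _ _ _) (FA2_var _ _))
  · by_cases hf : f = 0
    · rw [hf, map_zero, ord_zero _ hO, ord_zero _ h1.isDVR]
    · obtain ⟨n, u, hu, rfl⟩ := hπ.2.2.2 f hf
      rw [hπ.ord_eq hu, map_mul, map_zpow₀, h1.ord_eq ((Un.map h).2 hu)]

theorem FA2_res_lt {m : ℕ} {α : L →ₐ[K] M} {O : Pl M} (h : ¬ Triv α O) (hL : L.tr ≤ m) :
    (comap α O).res.tr < m :=
  tr_res_lt _ (fun e => h fun x =>
    (show x ∈ (comap α O).O from e ▸ ValuationSubring.mem_top x)) hL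

variable [FA1 K] [Finite κ] {j : ℕ}

theorem FA2_ind {α : L →ₐ[K] M} {T : κ → M} (hL : Good j L)
    (h : ¬ (M.sub (gen α T)).tr < (j + Nat.card κ : ℕ)) : FA2Ind α T := fun P hP e => by
  obtain ⟨M₁, α₁, β, T₁, rfl, h1, h2⟩ := FA1.sub α T hL
    (le_antisymm (by rw [Nat.cast_add, ← hL.2]; exact FA1.tr_gen α T) (not_lt.1 h))
  obtain rfl : T = β ∘ T₁ := (funext h1).symm
  exact FA1.ne h2 P hP (β.injective
    (((eval₂_comp_left β.toRingHom _ T₁ P).trans e).trans (map_zero β).symm))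

theorem FA2_free {α : L →ₐ[K] M} {T : κ → M} (hL : Good j L) (ht : FA2Ind α T)
    (hg : gen α T = ⊤) : Free j α T := by
  have h1 : ((j + Nat.card κ : ℕ) : Cardinal) ≤ (M.sub (gen α T)).tr := by
    let := ValA.alg α
    have h2 : AlgebraicIndependent L T :=
      algebraicIndependent_iff.2 fun P e => by_contra fun hP => ht P hP e
    rw [hg]
    refine le_trans ?_ (tr_le (L := M) (L' := M.sub ⊤) IntermediateField.topEquiv.symm.toAlgHom)
    rw [← ValA.tr_add α, Nat.cast_add, hL.2, Nat.cast_card]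
    exact add_le_add_right h2.cardinalMk_le_trdeg _
  obtain ⟨M₁, α₁, β, T₁, h2, h3, h4⟩ := FA1.sub α T hL
    (le_antisymm (by rw [Nat.cast_add, ← hL.2]; exact FA1.tr_gen α T) h1)
  refine ⟨hL, h4.gM.of_fin (Fin'.of_surj (ι := β) fun x => ?_), hg⟩
  exact FA2_le (α := α) (T := T) (F := β.fieldRange) (fun c => ⟨α₁ c, h2 ▸ rfl⟩)
    (fun a => ⟨T₁ a, h3 a⟩) (hg ▸ IntermediateField.mem_top)

theorem FA2_thm [Base K] : FA2 K where
  res_lt h hL := Cardinal.lt_natCast_add_one_iff.1 (by exact_mod_cast FA2_res_lt h hL)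
  res_le α O hL := (tr_res_le _).trans hL
  zero := by
    intro i j L M α κ _ T hF hi s
    obtain ⟨M₁, α₁, β, T₁, rfl, e1, f1, f2⟩ := FA1.split hF (· ≠ s)
    let : Unique {a // ¬ a ≠ s} := ⟨⟨⟨s, fun e => e rfl⟩⟩, fun a => Subtype.ext (not_not.1 a.2)⟩
    obtain ⟨g1, g2, g3⟩ := FA1.one.1 f2
    have hc : j + Nat.card {a // a ≠ s} = i := by
      have := (g1.succ g2 g3).2.symm.trans hF.gM.2
      rw [hi] at this
      exact_mod_cast Nat.succ_injective (Nat.cast_injective this)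
    obtain ⟨O, h, d1, d2, d3⟩ := exists_zero_place g2 g3
    have s0 : T s ≠ 0 := fun e => g2.ne 0 (e.trans (map_zero β).symm)
    obtain ⟨s1, s2⟩ := (ord_pos_iff d1 s0).1 (d2 ▸ one_pos)
    have hinv : ∀ O : Pl M, T s ∈ O.O → O.rd (T s) = 0 → (T s)⁻¹ ∉ O.O := fun O a b c =>
      Un.rd ⟨s0, a, c⟩ b
    refine ⟨⟨O, d1, (Fin'.of_surj d3).tr_eq.trans (hc ▸ g1.2)⟩, fun x => h (α₁ x), fun a => ?_, d2,
      s2, ?_, fun O' hne hT h0 => FA2_nat ?_⟩
    · by_cases ha : a = s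
      · exact ha ▸ s1
      · exact e1 ⟨a, ha⟩ ▸ h _
    · have e : (fun a : {a // a ≠ s} => O.rd (T a)) = fun a => h.hom (T₁ a) :=
        funext fun a => by rw [h.hom_apply, e1]
      refine ⟨f1.gL, f1.gM.of_fin (Fin'.of_surj d3), eq_top_iff.2 fun z _ => ?_⟩
      obtain ⟨x, rfl⟩ := d3 z
      rw [e]
      exact FA2_map h.hom f1.top x
    · by_contra hlt
      have hov := over_comap (β.comp α₁) O'.1
      have hlt' : ¬ (O'.1.res.sub (gen hov.resHom fun a : {a // a ≠ s} => O'.1.rd (T a))).tr < i :=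
        fun e => hlt (lt_of_le_of_lt (tr_le (L := O'.1.res.sub _) (L' := O'.1.res.sub _)
          (IntermediateField.inclusion (FA2_le (FA2_base _ _) fun a => by
            by_cases ha : a = s
            · rw [ha, h0]; exact zero_mem _
            · exact FA2_var _ (fun a : {a // a ≠ s} => O'.1.rd (T a)) ⟨a, ha⟩))) e)
      have htr : Triv (β.comp α₁) O'.1 := by_contra fun e => hlt' (by
        obtain ⟨m, m1, m2⟩ := FA2_nat (FA2_res_lt e f1.gL.2.le)
        refine (FA1.tr_gen _ _).trans_lt ((add_le_add_left m2 _).trans_lt ?_)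
        exact_mod_cast (by omega : m + Nat.card {a // a ≠ s} < i))
      have htr' : Triv (AlgHom.id K L) (comap (β.comp α₁) O'.1) := htr
      have hg : Good j (comap (β.comp α₁) O'.1).res :=
        f1.gL.of_fin (Fin'.of_surj (ι := htr'.hom) fun z => by
          obtain ⟨x, -, rfl⟩ := rd_surj _ z
          exact ⟨x, htr'.hom_apply x⟩)
      have hind := FA2_ind hg (by rw [hc]; exact hlt')
      refine hne (Subtype.ext (zero_place_unique g2 g3 (fun x => ?_) h (hinv _ (hT s) h0)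
        (hinv _ s1 s2)))
      by_cases hx : β x = 0
      · rw [hx]; exact zero_mem _
      have m1 := FA2_map β f1.top x
      simp only [e1] at m1
      obtain ⟨c, a, b, -, ha, hb, e⟩ := FA2_dec (comap (β.comp α₁) O'.1) m1 hx
      exact (FA2_mem hov (fun a : {a // a ≠ s} => hT a) hind ha hb e).2 (htr c)
  gauss := by
    intro j L M α κ _ T hF O
    have hg := O.2.good hF.gL
    obtain ⟨O', h, a1, a2, a3, a4, a5⟩ := FA2_gauss (FA1.ne hF) hF.top O.1 O.2.1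
    have hF' := FA2_free hg a2 a3
    refine ⟨⟨O', a4, hF'.gM.2⟩, h, a1, a5, hF', fun O'' h' hne hT => FA2_nat ?_⟩
    by_contra hlt
    refine hne (Subtype.ext (Pl.ext fun x => ?_))
    by_cases hx : x = 0
    · rw [hx]
      exact iff_of_true (zero_mem _) (zero_mem _)
    obtain ⟨c, a, b, -, ha, hb, e⟩ := FA2_dec (α := α) (T := T) O.1
      (hF.top ▸ IntermediateField.mem_top) hx
    exact (FA2_mem h' hT (FA2_ind hg hlt) ha hb e).trans (FA2_mem h a1 a2 ha hb e).symm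
  comap_dv := by
    intro j k L M α O hL hO hT κ _ t hk
    have h1 : (comap α O).res.tr ≤ j :=
      Cardinal.lt_natCast_add_one_iff.1 (by exact_mod_cast FA2_res_lt hT hL.2.le)
    rcases h1.eq_or_lt with e | e
    · exact Or.inl ⟨(over_comap α O).isDVR hO fun e => hT fun x =>
        (show x ∈ (comap α O).O from e ▸ ValuationSubring.mem_top x), e⟩
    · obtain ⟨m, m1, m2⟩ := FA2_nat e
      refine Or.inr ⟨m + k, by omega, (FA1.tr_gen _ _).trans ?_⟩
      rw [Nat.cast_add]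
      exact add_le_add m2 (Nat.cast_le.2 hk)

end Pool.Agent.Lib.MP_557161_ag.HG
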