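import Pool.Agent.Lib.MP_557161_ag.HG.St1

/-!
Dimensions of points and generic values.
-/

namespace Pool.Agent.Lib.MP_557161_ag.HG

open Pool.Agent.Lib.MP_557161_ag.DL

variable {K : Type} [Field K] {c d c' : Cd}

namespace FA3Aux

lemma dm_of {L₀ L : Fld K} (κ : L₀ →ₐ[K] L) (x : c.X L₀) {m : ℕ} (h : L₀.tr ≤ m) :
    c.Dm L (c.map κ x) m := by
  refine ⟨κ.fieldRange, (c.all_iff _ _).2 fun i => ?_, le_trans ?_ h⟩
  · rw [c.co_map]
    exact ⟨_, rfl⟩
  · exact trdeg_le_of_surjective (κ.codRestrict κ.fieldRange.toSubalgebra fun a => ⟨a, rfl⟩)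
      fun ⟨_, a, e⟩ => ⟨a, Subtype.ext e⟩

lemma exists_sub {L : Fld K} (F : IntermediateField K L) {x : c.X L} (h : c.all (· ∈ F) x) :
    ∃ x₀ : c.X (L.sub F), c.map (F.val : L.sub F →ₐ[K] L) x₀ = x :=
  ⟨c.mk' fun i => ⟨c.co x i, (c.all_iff _ _).1 h i⟩,
    c.inj (funext fun i => by rw [c.co_map, c.co_mk]; rfl)⟩

lemma exists_of {L : Fld K} {x : c.X L} {m : ℕ} (h : c.Dm L x m) :
    ∃ (L₀ : Fld K) (κ : L₀ →ₐ[K] L) (x₀ : c.X L₀), c.map κ x₀ = x ∧ L₀.tr ≤ m := by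
  obtain ⟨F, h1, h2⟩ := h
  obtain ⟨x₀, e⟩ := exists_sub F h1
  exact ⟨_, _, x₀, e, h2⟩

lemma dm_iff {L : Fld K} {x : c.X L} {m : ℕ} : c.Dm L x m ↔ Dm (c.amb K) L (some x) m := by
  constructor
  · intro h
    obtain ⟨L₀, κ, x₀, e, h2⟩ := exists_of h
    exact ⟨L₀, κ, some x₀, congrArg some e, h2⟩
  · rintro ⟨L₀, κ, y₀, e, h2⟩
    cases y₀ with
    | none => exact nomatch e
    | some x₀ => exact Option.some.inj e ▸ dm_of κ x₀ h2

lemma dm_map {L L' : Fld K} (ι : L →ₐ[K] L') {x : c.X L} {m : ℕ} :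
    c.Dm L' (c.map ι x) m ↔ c.Dm L x m := by
  constructor
  · rintro ⟨F, h1, h2⟩
    refine ⟨F.comap ι, (c.all_iff _ _).2 fun i => ?_, le_trans (tr_le (L := L.sub (F.comap ι))
      (L' := L'.sub F) ((ι.comp (F.comap ι).val).codRestrict F.toSubalgebra fun a => a.2)) h2⟩
    have := (c.all_iff _ _).1 h1 i
    rwa [c.co_map] at this
  · intro h
    obtain ⟨L₀, κ, x₀, rfl, h2⟩ := exists_of h
    rw [c.map_map]
    exact dm_of (ι.comp κ) x₀ h2

lemma red_of {L₀ M : Fld K} (κ : L₀ →ₐ[K] M) {O : Pl M} {x : c.X L₀} {x' : c.X O.res} {m : ℕ}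
    (e : c.lift (Rel.ofPl O).r (c.map κ x) x') (h : (Pl.comap κ O).res.tr ≤ m) :
    c.Dm O.res x' m := by
  have h0 := Pl.over_comap κ O
  have h1 := (Cd.all_over h0).1 ((Cd.lift_pl O).1 e).1
  rw [Cd.lift_eq e (Cd.lift_over h0 ((Cd.lift_pl _).2 ⟨h1, rfl⟩)) rfl]
  exact dm_of _ _ h

lemma low {A : Amb K} {P : Sp A} {j m : ℕ} (θ : Pre j P) {L : Fld K} {y : A.pt L}
    (h : Dm A L y m) (hm : m < j) : θ.v L y = 0 := by
  obtain ⟨L₀, κ, y₀, rfl, h2⟩ := h
  exact θ.low κ y₀ (h2.trans_lt (by exact_mod_cast hm))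

lemma dm_reg {S : ASp K c} {f : ∀ L : Fld K, c.X L → d.X L} {L : Fld K} {x : c.X L} {m : ℕ}
    (hf : Reg S d f) (hx : S.mem L x) (h : c.Dm L x m) : d.Dm L (f L x) m :=
  let ⟨F, h1, h2⟩ := h
  ⟨F, hf.all_sub F hx h1, h2⟩

variable [FA1 K]

lemma alg_dm {L : Fld K} (F : IntermediateField K L) {x : c.X L} {m : ℕ}
    (h : c.all (IsAlgebraic F) x) (h2 : (L.sub F).tr ≤ m) : c.Dm L x m :=
  ⟨(algebraicClosure F L).restrictScalars K,
    (c.all_iff _ _).2 fun i => mem_algebraicClosure_iff.2 ((c.all_iff _ _).1 h i),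
    (FA1.tr_mono F _ fun _ hx => mem_algebraicClosure_iff.1 hx).trans h2⟩

lemma dm_pair {L : Fld K} {x : c.X L} {w : d.X L} {m m' : ℕ} (h : c.Dm L x m)
    (h' : d.Dm L w m') : (c.prod d).Dm L (x, w) (m + m') := by
  obtain ⟨F, h1, h2⟩ := h
  obtain ⟨F', h3, h4⟩ := h'
  obtain ⟨α, T, hT⟩ := exists_isTranscendenceBasis' K F'
  have h5 : Cardinal.mk α ≤ m' := hT.cardinalMk_eq_trdeg.trans_le h4
  have : Finite α := Cardinal.mk_lt_aleph0_iff.1 (h5.trans_lt Cardinal.natCast_lt_aleph0)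
  let G := gen (L := L.sub F) F.val fun i => (T i : L)
  refine alg_dm G ⟨(c.all_iff _ _).2 fun i => ?_, (d.all_iff _ _).2 fun i => ?_⟩ ?_
  · exact isAlgebraic_algebraMap (R := G) (A := L) ⟨c.co x i,
      IntermediateField.subset_adjoin _ _ (Or.inl ⟨⟨_, (c.all_iff _ _).1 h1 i⟩, rfl⟩)⟩
  · have h6 : Algebra.adjoin K (Set.range T) ≤ G.toSubalgebra.comap F'.val :=
      Algebra.adjoin_le (by
        rintro _ ⟨i, rfl⟩
        exact IntermediateField.subset_adjoin _ _ (Or.inr ⟨i, rfl⟩))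
    exact (hT.isAlgebraic.isAlgebraic ⟨d.co w i, (d.all_iff _ _).1 h3 i⟩).ringHom_of_comp_eq
      (S := G) ((F'.val.comp (Subalgebra.val _)).codRestrict G.toSubalgebra
        fun a => h6 a.2).toRingHom F'.val.toRingHom
      (fun a b e => Subtype.ext (Subtype.ext (congrArg (fun z : G => (z : L)) e))) rfl
  · refine (FA1.tr_gen _ _).trans ?_
    rw [Nat.cast_add, Nat.cast_card]
    exact add_le_add h2 h5

lemma dm_vec {κ : Type} [Finite κ] {L : Fld K} (T : κ → L) : (Cd.vec κ).Dm L T (Nat.card κ) :=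
  ⟨gen (L := .base K) (Algebra.ofId K L) T,
    fun i => IntermediateField.subset_adjoin _ _ (Or.inr ⟨i, rfl⟩),
    (FA1.tr_gen _ _).trans (by rw [tr_base, zero_add])⟩

variable {κ : Type} [Finite κ] {P : Sp (c'.amb K)} {j : ℕ} (θ : Pre (j + Nat.card κ) P)
  (S : ASp K c) (f : ∀ L : Fld K, c.X L → (κ → L) → c'.X L)
  (hf : Reg (S.prod (.univ K (.vec κ))) c' fun L x => f L x.1 x.2)

include hf

lemma gv_aux {L M L' M' : Fld K} {α : L →ₐ[K] M} {α' : L' →ₐ[K] M'} {T : κ → M} {T' : κ → M'}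
    (h : Free j α T) (h' : Free j α' T') (ι : L →ₐ[K] L') {x : c.X L} (hx : S.mem L x) :
    θ.a M' (f M' (c.map α' (c.map ι x)) T') = deg ι * θ.a M (f M (c.map α x) T) := by
  obtain ⟨ρ, e1, e2, e3⟩ := FA1.lift h h' ι
  have e4 := hf.nat ρ (x := (c.map α x, T)) ⟨(S.map_iff α x).2 hx, trivial⟩
  have e5 : c.map α' (c.map ι x) = c.map ρ (c.map α x) := by
    rw [c.map_map, c.map_map]
    exact c.map_congr fun i => (DFunLike.congr_fun e1 _).symm
  rw [← e3 rfl, e5, ← funext e2]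
  exact (congrArg (θ.a M') e4).trans (θ.ext ρ (some _) h.gM h'.gM)

lemma gv_eq {L M : Fld K} {α : L →ₐ[K] M} {T : κ → M} (x : c.X L) (hx : S.mem L x)
    (h : Free j α T) : θ.a M (f M (c.map α x) T) = gv θ.a f j L x := by
  have := gv_aux θ S f hf (FA1.fr_free κ h.gL) h (AlgHom.id K L) hx
  rw [deg_of_surj (ι := AlgHom.id K L) Function.surjective_id, Nat.cast_one, one_mul,
    show c.map (AlgHom.id K L) x = x from c.map_id x] at this
  rw [this, gv, if_pos h.gL]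

open Classical in
lemma gv_pre : ∃ θ' : Pre j S.sp, ∀ L x, S.mem L x → θ'.a L x = gv θ.a f j L x := by
  refine ⟨⟨fun L y => Option.elim y 0 fun x => if S.mem L x then gv θ.a f j L x else 0,
    ?_, ?_, ?_⟩, fun L x hx => if_pos hx⟩
  · rintro L (_ | x) h
    · exact absurd rfl h
    · have hx : S.mem L x := by_contra fun e => h (if_neg e)
      exact ⟨by_contra fun e => h ((if_pos hx).trans (if_neg e)), x, rfl, hx⟩
  · rintro L L' ι (_ | x) hL hL'
    · exact (mul_zero _).symm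
    · show (if S.mem L' (c.map ι x) then gv θ.a f j L' (c.map ι x) else 0) =
        deg ι * if S.mem L x then gv θ.a f j L x else 0
      rw [S.map_iff]
      split_ifs with hx
      · rw [gv, gv, if_pos hL, if_pos hL']
        exact gv_aux θ S f hf (FA1.fr_free κ hL) (FA1.fr_free κ hL') ι hx
      · exact (mul_zero _).symm
  · rintro L L' ι (_ | x) hL
    · rfl
    · show (if S.mem L' (c.map ι x) then gv θ.a f j L' (c.map ι x) else 0) = 0
      obtain ⟨m, hm⟩ := Cardinal.lt_aleph0.1 (hL.trans Cardinal.natCast_lt_aleph0)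
      rw [gv]
      split_ifs with hx
      · refine low θ (dm_iff.1 (dm_reg hf (x := (c.map (frα L' κ) (c.map ι x), frT L' κ))
          ⟨(S.map_iff _ _).2 hx, trivial⟩
          (dm_pair ((dm_map _).2 (dm_of ι x hm.le)) (dm_vec _)))) ?_
        rw [hm] at hL
        exact Nat.add_lt_add_right (by exact_mod_cast hL) _
      · rfl
      · rfl

end FA3Aux

open FA3Aux in
theorem FA3_thm [FA1 K] : FA3 K where
  dm_iff := dm_iff
  dm_map ι := dm_map ι
  dm_tr {_ L} x _ h := ⟨⊤, (Cd.all_iff _ _ _).2 fun _ => trivial,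
    (tr_le (L := L.sub ⊤) (⊤ : IntermediateField K L).val).trans h⟩
  dm_mono := fun ⟨F, h1, h2⟩ h => ⟨F, h1, h2.trans (by exact_mod_cast h)⟩
  dm_red e h := by
    obtain ⟨L₀, κ, x₀, rfl, h2⟩ := exists_of h
    exact red_of κ e ((Pl.tr_res_le _).trans h2)
  dm_red_lt {_ M O _ _ m} F e h1 h2 h3 := by
    obtain ⟨x₀, rfl⟩ := exists_sub F h1
    obtain ⟨a, ha, ha'⟩ := h3
    refine red_of (L₀ := M.sub F) F.val e ?_
    have := Pl.tr_res_lt (Pl.comap (M := M.sub F) F.val O) (fun e' => ha' (by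
      have : (⟨a, ha⟩ : M.sub F) ∈ (Pl.comap (M := M.sub F) F.val O).O := by
        rw [e']; exact ValuationSubring.mem_top _
      exact this)) h2
    rwa [Nat.cast_succ, Cardinal.lt_natCast_add_one_iff] at this
  dm_pair := dm_pair
  dm_alg := fun ⟨F, h1, h2⟩ h => alg_dm F (h F h1) h2
  dm_vec := dm_vec
  dm_reg := dm_reg
  low := low
  low' θ _ _ h hm := low θ (dm_iff.1 h) hm
  v_red {c _ _} θ _ O x h := by
    unfold rv
    split_ifs with hx
    · exact congrArg _ (if_pos hx)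
    · refine (congrArg _ (if_neg hx)).trans (by_contra fun e => h _ (θ.supp _ _ e).2)
  gv_eq θ S f hf := gv_eq θ S f hf
  gv_pre θ S f hf := gv_pre θ S f hf

end Pool.Agent.Lib.MP_557161_ag.HG
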