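import Pool.Agent.Lib.MP_557161_ag.HG.St1
import Pool.Agent.Lib.MP_557161_ag.DL.Bridge2

/-!
Finiteness of divisors on affine spaces.
-/

namespace Pool.Agent.Lib.MP_557161_ag.HG

open Pool.Agent.Lib.MP_557161_ag.DL
open Pool.Agent.Lib.MP_60ec62_ag.DL (dm dm_lt eq_of_le_of_dm_le)

variable {K : Type} [Field K]

namespace FB0a

variable {A : Amb K} {P : Sp A} {j : ℕ} {L M₀ M : Fld K} {R : Type} [CommRing R] [Algebra K R]

/-- The places that contribute to the divisor of `f`. -/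
def Sup (θ : Pre j P) (y : A.pt M) (f : M) : Set (Pl M) :=
  {O | O.IsDiv j ∧ O.ord f ≠ 0 ∧ θ.v O.res (A.red O y) ≠ 0}

lemma exists_sub (ρ : R →ₐ[K] L) : ∃ (L₀ : Fld K) (κ : L₀ →ₐ[K] L) (ρ₀ : R →ₐ[K] L₀),
    (∀ a, κ (ρ₀ a) = ρ a) ∧ ∀ x, ∃ a b, ρ₀ b ≠ 0 ∧ x * ρ₀ b = ρ₀ a := by
  let F := IntermediateField.adjoin K (Set.range ρ)
  refine ⟨L.sub F, F.val, ρ.codRestrict F.toSubalgebra fun a =>
    IntermediateField.subset_adjoin _ _ ⟨a, rfl⟩, fun _ => rfl, fun x => ?_⟩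
  obtain ⟨u, hu, v, hv, e⟩ := IntermediateField.mem_adjoin_iff_div.1 x.2
  have hs : Algebra.adjoin K (Set.range ρ) ≤ ρ.range := Algebra.adjoin_le fun _ h => h
  obtain ⟨a, rfl⟩ := hs hu
  obtain ⟨b, rfl⟩ := hs hv
  by_cases hb : ρ b = 0
  · refine ⟨0, 1, by simp, ?_⟩
    rw [map_one, map_zero, mul_one]
    exact Subtype.ext (e.trans (by show ρ a / ρ b = 0; rw [hb, div_zero]))
  · exact ⟨a, b, fun h => hb (congrArg Subtype.val h), Subtype.ext ((eq_div_iff hb).1 e)⟩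

/-- The point given by a homomorphism on the polynomial ring. -/
noncomputable def pt (c : Cd) (ρ : MvPolynomial c.ι K →ₐ[K] L) : c.X L :=
  c.mk' fun i => ρ (MvPolynomial.X i)

lemma co_pt (c : Cd) (ρ : MvPolynomial c.ι K →ₐ[K] L) (i : c.ι) :
    c.co (pt c ρ) i = ρ (MvPolynomial.X i) := by rw [pt, c.co_mk]

lemma aeval_pt (c : Cd) (ρ : MvPolynomial c.ι K →ₐ[K] L) :
    MvPolynomial.aeval (c.co (pt c ρ)) = ρ :=
  MvPolynomial.algHom_ext fun i => by rw [MvPolynomial.aeval_X, co_pt]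

variable [Base K]

lemma low (θ : Pre j P) (κ : M₀ →ₐ[K] M) (y : A.pt M₀) {i : ℕ} (h0 : Good i M₀) (hi : i ≤ j)
    (hM : Good (j + 1) M) {f : M} (hf : f ≠ 0) : (Sup θ (A.map κ y) f).Finite := by
  have h1 : ∀ O ∈ Sup θ (A.map κ y) f, Pl.Triv κ O := fun O hO => by
    by_contra h
    refine hO.2.2 ?_
    rw [A.red_map (Pl.over_comap κ O), θ.low]
    refine Pl.tr_res_lt _ (fun e => h fun x => ?_) (h0.2.trans_le (by exact_mod_cast hi))
    exact (Pl.over_comap κ O x).1 (e ▸ ValuationSubring.mem_top _)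
  rcases hi.lt_or_eq with hi | rfl
  · refine Set.finite_empty.subset fun O hO => hO.2.2 ?_
    rw [A.red_triv (h1 O hO), θ.low]
    exact h0.2.trans_lt (by exact_mod_cast hi)
  · exact (Pl.degree_zero κ h0 hM hf).1.subset fun O hO => ⟨h1 O hO, hO.1.1, hO.2.1⟩

lemma fin (θ : Pre j P) (κ : M₀ →ₐ[K] M) (y : A.pt M₀) (h0 : Good (j + 1) M₀)
    (hM : Good (j + 1) M) (H : ∀ g, g ≠ 0 → (Sup θ y g).Finite) {f : M} (hf : f ≠ 0) :
    (Sup θ (A.map κ y) f).Finite := by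
  have hκ := Good.fin κ hM h0.2
  obtain ⟨s, hs, h4⟩ := Bridge.exists_coeffs hκ f
  obtain ⟨t, ht, h5⟩ := Bridge.exists_coeffs hκ f⁻¹
  refine (((hs.union ht).subset (Set.sdiff_subset (t := {0}))).biUnion
    (t := fun a => ⋃ O ∈ Sup θ y a, {O' | Pl.Over κ O O'}) fun a ha =>
      (H a ha.2).biUnion fun O hO => Pl.finite_over hκ h0 hO.1).subset fun O' hO' => ?_
  have h7 := Pl.over_comap κ O'
  have h6 := CKL.isDiv_comap hκ hO'.1
  have h2 : θ.v _ (A.red (Pl.comap κ O') y) ≠ 0 := fun e => hO'.2.2 (by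
    rw [A.red_map h7, θ.ext _ _ (h6.good h0) (hO'.1.good hM), e, mul_zero])
  by_contra h8
  have h9 : ∀ a ∈ s ∪ t, κ a ∈ O'.O := fun a ha => by
    by_cases ha0 : a = 0
    · rw [ha0, map_zero]; exact zero_mem _
    refine (h7 a).1 ((Pl.ord_nonneg_iff h6.1).1 (le_of_eq (by_contra fun e => h8 ?_)))
    exact Set.mem_biUnion (x := a) ⟨ha, ha0⟩
      (Set.mem_biUnion (x := Pl.comap κ O') ⟨h6, Ne.symm e, h2⟩ h7)
  exact hO'.2.1 (Pl.ord_eq_zero_of_mem hf (h4 _ fun a ha => h9 a (Or.inl ha))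
    (h5 _ fun a ha => h9 a (Or.inr ha)))

lemma fin_cen [Algebra.FiniteType K R] (φ : R →ₐ[K] M)
    (hfr : ∀ x : M, ∃ a b, φ b ≠ 0 ∧ x * φ b = φ a) (hM : M.tr = (j + 1 : ℕ)) {a : R}
    (ha : φ a ≠ 0) :
    {O : Pl M | O.IsDiv j ∧ ∃ z, Pl.Cen φ z O ∧ dm K z = j ∧ a ∈ z.asIdeal}.Finite := by
  let w : PrimeSpectrum R := ⟨RingHom.ker φ, RingHom.ker_isPrime φ⟩
  have hw : dm K w = j + 1 := by
    have := (ValC.tr_eq_dm φ w (fun _ => Iff.rfl) hfr).2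
    rw [hM] at this
    exact_mod_cast this.symm
  have : IsNoetherianRing R := Algebra.FiniteType.isNoetherianRing K R
  have hfin : {z : PrimeSpectrum R | w ≤ z ∧ dm K z = j ∧ a ∈ z.asIdeal}.Finite := by
    refine Set.Finite.of_finite_image ((Ideal.finite_minimalPrimes_of_isNoetherianRing R
      (w.asIdeal ⊔ Ideal.span {a})).subset ?_) (f := PrimeSpectrum.asIdeal)
      fun _ _ _ _ e => PrimeSpectrum.ext e
    rintro _ ⟨z, ⟨h1, h2, h3⟩, rfl⟩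
    refine ⟨⟨z.isPrime, sup_le h1 ((Ideal.span_singleton_le_iff_mem _).2 h3)⟩, fun q hq hz => ?_⟩
    have h4 : w < ⟨q, hq.1⟩ := lt_of_le_of_ne (le_sup_left.trans hq.2) fun e => ha (by
      have : a ∈ (⟨q, hq.1⟩ : PrimeSpectrum R).asIdeal :=
        hq.2 (Ideal.mem_sup_right (Ideal.mem_span_singleton_self a))
      rwa [← e] at this)
    have h5 := dm_lt (K := K) h4
    have h6 := eq_of_le_of_dm_le (K := K) (p := ⟨q, hq.1⟩) (q := z) hz (by omega)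
    exact (congrArg PrimeSpectrum.asIdeal h6).ge
  refine (hfin.biUnion (t := fun z => {O : Pl M | O.IsDiv j ∧ Pl.Cen φ z O}) fun z hz =>
    (Pl.sum_cen φ w z (fun _ => Iff.rfl) hfr hM hz.2.1).1).subset ?_
  rintro O ⟨h1, z, h2, h3, h4⟩
  exact Set.mem_biUnion (x := z) ⟨fun b hb => (h2.2 b).1 (by
    rw [show φ b = 0 from hb, O.rd_zero]), h3, h4⟩ ⟨h1, h2⟩

lemma top (c : Cd) (θ : Pre j (ASp.univ K c).sp) (φ : MvPolynomial c.ι K →ₐ[K] M)
    (hfr : ∀ x : M, ∃ a b, φ b ≠ 0 ∧ x * φ b = φ a) (hM : Good (j + 1) M) {f : M} (hf : f ≠ 0) :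
    (Sup θ (some (pt c φ)) f).Finite := by
  obtain ⟨a, b, hb, e⟩ := hfr f
  have ha : φ a ≠ 0 := e ▸ mul_ne_zero hf hb
  refine ((fin_cen φ hfr hM.2 ha).union (fin_cen φ hfr hM.2 hb)).subset fun O hO => ?_
  obtain ⟨x', e', -⟩ := (θ.supp _ _ hO.2.2).2
  have h1 := (c.lift_iff _ _ _).1 (Cd.lift_of_red e')
  have hA : ∀ a, φ a ∈ O.O := fun a => by
    have := (Rel.aeval h1 a).1
    rwa [aeval_pt] at this
  obtain ⟨L₀, κ, ρ₀, h2, h3⟩ := exists_sub (ValC.rho hA)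
  have hc := ValC.cen_ctr hA
  have h4 : Good (dm K (ValC.ctr hA)) L₀ := ValC.tr_eq_dm ρ₀ _ (fun a => by
    rw [← hc.2, ← ValC.rho_apply hA, ← h2, map_eq_zero κ]) h3
  have h5 : dm K (ValC.ctr hA) = j := by
    refine le_antisymm ?_ (not_lt.1 fun h => hO.2.2 ?_)
    · have := tr_le κ
      rw [h4.2, hO.1.2] at this
      exact_mod_cast this
    · rw [e', show x' = c.map κ (pt c ρ₀) from c.inj (funext fun i => by
        rw [c.co_map, co_pt, h2, ValC.rho_apply, ← co_pt, (h1 i).2])]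
      exact θ.low κ (some _) (h4.2.trans_lt (by exact_mod_cast h))
  by_contra h6
  have u : ∀ a, a ∉ (ValC.ctr hA).asIdeal → (φ a)⁻¹ ∈ O.O := fun a h =>
    ((O.rd_ne_zero_iff (hA a)).1 (mt (hc.2 a).1 h)).2
  have ua := u a fun h => h6 (Or.inl ⟨hO.1, _, hc, h5, h⟩)
  have ub := u b fun h => h6 (Or.inr ⟨hO.1, _, hc, h5, h⟩)
  have e2 : f = φ a * (φ b)⁻¹ := by rw [← e, mul_inv_cancel_right₀ hb]
  refine hO.2.1 (Pl.ord_eq_zero_of_mem hf (e2 ▸ mul_mem (hA a) ub) ?_)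
  rw [e2, mul_inv, inv_inv]
  exact mul_mem ua (hA b)

end FB0a

open FB0a in
theorem FB0_thm [Base K] : FB0 K := ⟨fun c j θ M y f hM hy hf => by
  obtain ⟨x, rfl, -⟩ := hy
  obtain ⟨M₀, κ, φ, h1, h2⟩ :=
    exists_sub (MvPolynomial.aeval (c.co x) : MvPolynomial c.ι K →ₐ[K] M)
  have h0 := ValC.tr_eq_dm φ ⟨RingHom.ker φ, RingHom.ker_isPrime φ⟩ (fun _ => Iff.rfl) h2
  generalize dm K (⟨RingHom.ker φ, RingHom.ker_isPrime φ⟩ : PrimeSpectrum _) = i at h0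
  have e : x = c.map κ (pt c φ) := c.inj (funext fun i => by
    rw [c.co_map, co_pt, h1, MvPolynomial.aeval_X])
  have h3 : i ≤ j + 1 := by
    have := tr_le κ
    rw [h0.2, hM.2] at this
    exact_mod_cast this
  have h4 : (Sup θ (some x) f).Finite := by
    rw [e]
    rcases h3.lt_or_eq with h | rfl
    · exact low θ κ (some _) h0 (Nat.le_of_lt_succ h) hM hf
    · exact fin θ κ (some _) h0 hM (fun g hg => top c θ φ h2 h0 hg) hf
  exact (h4.preimage Subtype.val_injective.injOn).subset fun O hO =>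
    ⟨O.2, fun e => hO (by simp [e]), right_ne_zero_of_mul hO⟩⟩

end Pool.Agent.Lib.MP_557161_ag.HG
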