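import Pool.Agent.Lib.MP_557161_ag.HG.St1
import Pool.Agent.Lib.MP_60ec62_ag.DL.KeyEqB

/-!
The key lemma on affine spaces: the divisors of the tame symbols add up to zero.
-/

namespace Pool.Agent.Lib.MP_557161_ag.HG

open Pool.Agent.Lib.MP_557161_ag.DL Function
open Pool.Agent.Lib.MP_60ec62_ag.DL (dm dv Cyc dv_supp)
open Pool.Agent.Lib.MP_60ec62_ag.DL.KeyEq (od od_cast quad)
open ValC (rho rho_apply ctr cen_ctr Loc tr_eq_dm)
open Pl (Cen cenDeg cenFld)

namespace KeyA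

lemma fs_sub {α : Type} (p : α → Prop) (G : α → ℂ) (H : {a // p a} → ℂ)
    (h1 : ∀ a (h : p a), G a = H ⟨a, h⟩) (h2 : ∀ a, ¬ p a → G a = 0) : ∑ᶠ a, G a = ∑ᶠ a, H a := by
  classical
  rw [show H = fun a => G a.1 from funext fun a => (h1 a.1 a.2).symm,
    finsum_subtype_eq_finsum_cond]
  refine finsum_congr fun a => ?_
  rw [finsum_eq_if]
  split_ifs with h
  · rfl
  · exact h2 a h

lemma fs_two {α : Type} {p q : α → Prop} (F : {a // p a} → ℂ) (G : {a // q a} → ℂ)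
    (h1 : ∀ a hp hq, F ⟨a, hp⟩ = G ⟨a, hq⟩) (h2 : ∀ a hp, ¬ q a → F ⟨a, hp⟩ = 0)
    (h3 : ∀ a hq, ¬ p a → G ⟨a, hq⟩ = 0) : ∑ᶠ a, F a = ∑ᶠ a, G a := by
  classical
  refine (fs_sub p (fun a => if h : p a then F ⟨a, h⟩ else 0) F (fun a h => dif_pos h)
    fun a h => dif_neg h).symm.trans (fs_sub q _ G (fun a h => ?_) fun a h => ?_)
  · split_ifs with h'
    exacts [h1 a h' h, (h3 a h h').symm]
  · split_ifs with h'
    exacts [h2 a h' h, rfl]

lemma fs_int {α : Type} (H : α → ℤ) (c : ℂ) :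
    ∑ᶠ a, (H a : ℂ) * c = ((∑ᶠ a, H a : ℤ) : ℂ) * c := by
  rw [← finsum_mul]
  exact congrArg (· * c)
    (AddMonoidHom.map_finsum_of_injective (Int.castAddHom ℂ) Int.cast_injective H).symm

lemma fs_lin {β : Type} (t : β → ℂ) (d : β →₀ ℚ) :
    ∑ᶠ z, (d z : ℂ) * t z = Finsupp.linearCombination ℚ t d := by
  rw [finsum_eq_sum_of_support_subset (s := d.support) _ fun z hz => by
    simpa using left_ne_zero_of_mul hz, Finsupp.linearCombination_apply, Finsupp.sum]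
  exact Finset.sum_congr rfl fun z _ => (Rat.smul_def _ _).symm

variable {K : Type} [Field K] {j : ℕ} {L L' M N : Fld K} {D : Type} [CommRing D] [Algebra K D]

lemma tame_ne {O : Pl M} (h : O.IsDVR) {f g : M} (hf : f ≠ 0) (hg : g ≠ 0) : tame O f g ≠ 0 := by
  have h1 := zpow_ne_zero (O.ord g) hf
  have h2 := zpow_ne_zero (O.ord f) hg
  have h3 : O.ord (f ^ O.ord g / g ^ O.ord f) = 0 := by
    rw [div_eq_mul_inv, Pl.ord_mul h h1 (inv_ne_zero h2), Pl.ord_inv h, Pl.ValB.ord_zpow h hf,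
      Pl.ValB.ord_zpow h hg]
    ring
  refine Pl.ValB.Un.rd ⟨div_ne_zero h1 h2, (Pl.ord_nonneg_iff h).1 h3.ge,
    (Pl.ord_nonneg_iff h).1 ?_⟩
  rw [Pl.ord_inv h, h3, neg_zero]

variable (K) in
/-- The residue field of a prime. -/
noncomputable abbrev kz (z : PrimeSpectrum D) : Fld K := ⟨FractionRing (D ⧸ z.asIdeal)⟩

variable (K) in
/-- The map to the residue field. -/
noncomputable def ev (z : PrimeSpectrum D) : D →ₐ[K] kz K z :=
  (IsScalarTower.toAlgHom K _ (FractionRing (D ⧸ z.asIdeal))).comp (Ideal.Quotient.mkₐ K z.asIdeal)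

lemma ev_zero (z : PrimeSpectrum D) (a : D) : ev K z a = 0 ↔ a ∈ z.asIdeal :=
  (map_eq_zero_iff _ (IsFractionRing.injective (D ⧸ z.asIdeal) _)).trans
    Ideal.Quotient.eq_zero_iff_mem

lemma ev_frac (z : PrimeSpectrum D) (x : kz K z) :
    ∃ a b, ev K z b ≠ 0 ∧ x * ev K z b = ev K z a := by
  obtain ⟨a, b, hb, rfl⟩ := IsFractionRing.div_surjective (A := D ⧸ z.asIdeal) x
  obtain ⟨a, rfl⟩ := Ideal.Quotient.mk_surjective a
  obtain ⟨b, rfl⟩ := Ideal.Quotient.mk_surjective b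
  have h : ev K z b ≠ 0 := fun e =>
    nonZeroDivisors.ne_zero hb (Ideal.Quotient.eq_zero_iff_mem.2 ((ev_zero z b).1 e))
  exact ⟨a, b, h, div_mul_cancel₀ _ h⟩

lemma ev_lift {z : PrimeSpectrum D} (ρ : D →ₐ[K] L) (h : ∀ a, ρ a = 0 ↔ a ∈ z.asIdeal) :
    ∃ ι : kz K z →ₐ[K] L, ∀ a, ι (ev K z a) = ρ a := by
  have hi : Injective (Ideal.Quotient.liftₐ z.asIdeal ρ fun a => (h a).2) :=
    RingHom.lift_injective_of_ker_le_ideal _ _ fun a ha => (h a).1 ha
  exact ⟨IsFractionRing.liftAlgHom hi, fun a => IsFractionRing.lift_algebraMap hi _⟩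

lemma deg_cen {z : PrimeSpectrum D} {ρ : D →ₐ[K] N} {O : Pl N} (ι : kz K z →ₐ[K] O.res)
    (h : ∀ a, ι (ev K z a) = O.rd (ρ a)) : deg ι = cenDeg ρ O := by
  let κ : kz K z →ₐ[K] cenFld ρ O := ι.codRestrict
    (IntermediateField.adjoin K (Set.range fun a => O.rd (ρ a))).toSubalgebra fun x => by
      obtain ⟨a, b, hb, e⟩ := ev_frac z x
      rw [eq_div_of_mul_eq hb e, map_div₀, h, h]
      exact IntermediateField.div_mem _ (IntermediateField.subset_adjoin _ _ ⟨a, rfl⟩)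
        (IntermediateField.subset_adjoin _ _ ⟨b, rfl⟩)
  have hκ : Surjective κ := fun y => by
    have : IntermediateField.adjoin K (Set.range fun a => O.rd (ρ a)) ≤ ι.fieldRange :=
      IntermediateField.adjoin_le_iff.2 (by
        rintro _ ⟨a, rfl⟩
        exact ⟨_, h a⟩)
    exact (this y.2).imp fun c e => Subtype.ext e
  exact (deg_comp (L' := cenFld ρ O) κ (IntermediateField.val _)).trans
    (by rw [deg_of_surj hκ, one_mul]; rfl)

variable {c : Cd}

lemma red_int {ρ : D →ₐ[K] N} {O : Pl N} (h : ∀ a, ρ a ∈ O.O) (x : c.X D) :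
    (c.amb K).red O (some (c.map ρ x)) = some (c.map (rho h) x) :=
  Cd.red_some ((c.lift_iff _ _ _).2 fun i => by
    rw [c.co_map, c.co_map]; exact ⟨h _, (rho_apply h _).symm⟩)

lemma map_pt {ρ : D →ₐ[K] L} {ρ' : D →ₐ[K] L'} (ι : L →ₐ[K] L') (h : ∀ a, ι (ρ a) = ρ' a)
    (x : c.X D) : (c.amb K).map ι (some (c.map ρ x)) = some (c.map ρ' x) :=
  congrArg some ((c.map_map _ _ x).trans (c.map_congr fun _ => h _))

variable (K) in
/-- The ring is integral over the coordinates of the point. -/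
def Itg (x : c.X D) : Prop :=
  ∀ (N : Fld K) (ρ : D →ₐ[K] N) (O : Pl N), ¬ (∀ a, ρ a ∈ O.O) →
    (c.amb K).red O (some (c.map ρ x)) = none

variable (θ : Pre j (ASp.univ K c).sp)

lemma v_none (L : Fld K) : θ.v L none = 0 :=
  by_contra fun h => (θ.supp L _ h).2.elim fun _ e => nomatch e.1

/-- The value at the generic point of a prime. -/
noncomputable def th (x : c.X D) (z : PrimeSpectrum D) : ℂ :=
  θ.v (kz K z) (some (c.map (ev K z) x))

variable [Base K]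

lemma low_sum {A : Amb K} {P : Sp A} (θ : Pre j P) (κ : L →ₐ[K] M) (y : A.pt L) {i : ℕ}
    (h0 : Good i L) (hi : i ≤ j) (hM : Good (j + 1) M) {f : M} (hf : f ≠ 0) :
    ∑ᶠ O : Dv M j, (O.1.ord f : ℂ) * θ.v O.1.res (A.red O.1 (A.map κ y)) = 0 := by
  have h1 : ∀ O : Pl M, ¬ Pl.Triv κ O → θ.v O.res (A.red O (A.map κ y)) = 0 := fun O h => by
    rw [A.red_map (Pl.over_comap κ O), θ.low]
    refine Pl.tr_res_lt _ (fun e => h fun x => ?_) (h0.2.trans_le (by exact_mod_cast hi))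
    exact (Pl.over_comap κ O x).1 (e ▸ ValuationSubring.mem_top _)
  rcases hi.lt_or_eq with hi | rfl
  · refine finsum_eq_zero_of_forall_eq_zero fun O => mul_eq_zero_of_right _ ?_
    by_cases h : Pl.Triv κ O.1
    · rw [A.red_triv h, θ.low]
      exact h0.2.trans_lt (by exact_mod_cast hi)
    · exact h1 _ h
  rw [fs_two _ (fun O : {O : Pl M // Pl.Triv κ O ∧ O.IsDVR} =>
    ((O.1.ord f * (deg O.2.1.hom : ℤ) : ℤ) : ℂ) * θ.v L y), fs_int, (Pl.degree_zero κ h0 hM hf).2,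
    Int.cast_zero, zero_mul]
  · intro O h h'
    simp only []
    rw [A.red_triv h'.1, θ.ext _ _ h0 (h.good hM)]
    push_cast
    ring
  · exact fun O h h' => mul_eq_zero_of_right _ (h1 O fun e => h' ⟨e, h.1⟩)
  · intro O h h'
    have h6 : deg h.1.hom = 0 := Nat.eq_zero_of_not_pos fun e =>
      h' ⟨h.2, ((deg_pos_iff _).1 e).tr_eq.trans h0.2⟩
    simp only [h6]
    simp

variable [Algebra.FiniteType K D]

omit [Base K] in
lemma kz_good (z : PrimeSpectrum D) : Good (dm K z) (kz K z) :=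
  tr_eq_dm _ z (ev_zero z) (ev_frac z)

omit [Base K] in
lemma dm_le {z : PrimeSpectrum D} (ι : kz K z →ₐ[K] L) (h : L.tr = j) : dm K z ≤ j := by
  have := tr_le ι
  rw [(kz_good z).2, h] at this
  exact_mod_cast this

lemma div_sum [FB0 K] {x : c.X D} (hx : Itg K x) (hN : Good (j + 1) N) (ρ : D →ₐ[K] N)
    {q : PrimeSpectrum D} (hq : ∀ a, ρ a = 0 ↔ a ∈ q.asIdeal)
    (hfr : ∀ m : N, ∃ a b, ρ b ≠ 0 ∧ m * ρ b = ρ a) {u : D} (hu : ρ u ≠ 0) :
    HasS (fun O : Dv N j => (O.1.ord (ρ u) : ℂ) *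
      θ.v O.1.res ((c.amb K).red O.1 (some (c.map ρ x))))
      (Finsupp.linearCombination ℚ (th θ x) (dv K q u)) := by
  classical
  have fin := FB0.fins c j θ N (some (c.map ρ x)) (ρ u) hN ⟨_, rfl, trivial⟩ hu
  refine ⟨fin, ?_⟩
  have hd : dm K q = j + 1 := by exact_mod_cast (tr_eq_dm ρ q hq hfr).2.symm.trans hN.2
  rw [← fs_lin]
  refine (fib_sum (fun O : Dv N j => if h : ∀ a, ρ a ∈ O.1.O then ctr h else q) fin
    fun z => ?_).2.symm
  have h1 : ∀ (O : Dv N j) (h : Cen ρ z O.1), θ.v O.1.res ((c.amb K).red O.1 (some (c.map ρ x))) =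
      if dm K z = j then cenDeg ρ O.1 * th θ x z else 0 := fun O h => by
    obtain ⟨ι, hι⟩ := ev_lift (z := z) (rho h.1) fun a => by rw [rho_apply]; exact h.2 a
    rw [red_int h.1, ← map_pt ι hι]
    split_ifs with e
    · rw [← deg_cen ι fun a => (hι a).trans (rho_apply _ _)]
      exact θ.ext ι _ (e ▸ kz_good z) (O.2.good hN)
    · refine θ.low ι _ ?_
      rw [(kz_good z).2]
      exact_mod_cast (dm_le ι O.2.2).lt_of_ne e
  have h2 : ∀ O : Dv N j, (if h : ∀ a, ρ a ∈ O.1.O then ctr h else q) = z → ¬ Cen ρ z O.1 →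
      θ.v O.1.res ((c.amb K).red O.1 (some (c.map ρ x))) = 0 := fun O e h => by
    rw [hx N ρ O.1 fun h' => h (by rw [← e, dif_pos h']; exact cen_ctr h'), v_none]
  by_cases e : dm K z = j
  swap
  · rw [show dv K q u z = 0 from by_contra fun h => e (by have := (dv_supp h).2.2.2; omega),
      Rat.cast_zero, zero_mul]
    refine finsum_mem_eq_zero_of_forall_eq_zero fun O hO => mul_eq_zero_of_right _ ?_
    by_cases h : Cen ρ z O.1
    · rw [h1 O h, if_neg e]
    · exact h2 O hO h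
  obtain ⟨-, h3⟩ := Pl.sum_cen ρ q z hq hfr hN.2 e
  have h4 := (h3 u hu).symm.trans
    (AddMonoidHom.map_finsum_of_injective (Int.castAddHom ℚ) Int.cast_injective _).symm
  rw [h4, Int.coe_castAddHom, Rat.cast_intCast, ← fs_int, finsum_mem_def]
  refine fs_two _ _ (fun O h h' => ?_) (fun O h h' => ?_) fun O h h' => absurd h.1 h'
  · rw [Set.indicator_of_mem, h1 ⟨O, h⟩ h'.2, if_pos e]
    · push_cast
      ring
    · exact (dif_pos h'.2.1).trans (PrimeSpectrum.ext (Ideal.ext fun a =>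
        ((cen_ctr h'.2.1).2 a).symm.trans (h'.2.2 a)))
  · rw [Set.indicator_apply_eq_zero]
    exact fun hO => mul_eq_zero_of_right _ (h2 ⟨O, h⟩ hO fun e => h' ⟨h, e⟩)

variable [IsDomain D]

omit [Base K] in
lemma ord_od {ψ : D →ₐ[K] M} (hψ : Injective ψ) {q : PrimeSpectrum D} {O : Pl M} (h : Loc ψ q O)
    (hc : Cen ψ q O) (hq : dm K q + 1 = dm K (MP_60ec62_ag.DL.gen D)) {u : D} (hu : u ≠ 0) :
    O.ord (ψ u) = od K u q := by
  have : IsNoetherianRing D := Algebra.EssFiniteType.isNoetherianRing K D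
  have h1 := od_cast (K := K) u q
  rw [dv, if_neg (show u ∉ (MP_60ec62_ag.DL.gen D).asIdeal from hu),
    MP_60ec62_ag.DL.CycA.cyc_apply, if_pos (by omega), Nat.cast_inj] at h1
  rw [h.len hψ hc, h1]
  rfl

omit [Base K] in
lemma ord_frac {ψ : D →ₐ[K] M} (hψ : Injective ψ) {q : PrimeSpectrum D} {O : Pl M} (h0 : O.IsDVR)
    (h : Loc ψ q O) (hc : Cen ψ q O) (hq : dm K q + 1 = dm K (MP_60ec62_ag.DL.gen D)) {f : M}
    {a b : D} (ha : a ≠ 0) (hb : b ≠ 0) (e : f * ψ b = ψ a) :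
    O.ord f = od K a q - od K b q := by
  have h1 := (map_ne_zero_iff _ hψ).2 ha
  rw [← ord_od hψ h hc hq ha, ← ord_od hψ h hc hq hb, ← e, Pl.ord_mul h0
    (left_ne_zero_of_mul (e ▸ h1)) (right_ne_zero_of_mul (e ▸ h1)), add_sub_cancel_right]

lemma key_model [IsIntegrallyClosed D] [FB0 K] {x : c.X D} (hx : Itg K x) (hM : Good (j + 2) M)
    (ψ : D →ₐ[K] M) (hψ : Injective ψ) (hfr : ∀ m : M, ∃ a b, ψ b ≠ 0 ∧ m * ψ b = ψ a)
    {f g : M} (hf : f ≠ 0) (hg : g ≠ 0) :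
    HasS (fun O : Dv M (j + 1) => ∑ᶠ O' : Dv O.1.res j, (O'.1.ord (tame O.1 f g) : ℂ) *
      θ.v O'.1.res ((c.amb K).red O'.1 ((c.amb K).red O.1 (some (c.map ψ x))))) 0 := by
  classical
  have : IsNoetherianRing D := Algebra.EssFiniteType.isNoetherianRing K D
  obtain ⟨a, b, b0, e1⟩ := hfr f
  obtain ⟨a', b', b0', e2⟩ := hfr g
  have a0 : ψ a ≠ 0 := e1 ▸ mul_ne_zero hf b0
  have a0' : ψ a' ≠ 0 := e2 ▸ mul_ne_zero hg b0'
  have n0 := fun u => (map_ne_zero_iff ψ hψ (x := u)).1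
  obtain ⟨X, Y, h1, h2⟩ := quad (K := K) (n0 _ a0) (n0 _ b0) (n0 _ a0') (n0 _ b0')
  generalize hS : (_ ∪ _ : Finset (PrimeSpectrum D)) = S at h1 h2
  have hd : dm K (MP_60ec62_ag.DL.gen D) = j + 2 := by
    exact_mod_cast (tr_eq_dm ψ (MP_60ec62_ag.DL.gen D) (fun a => map_eq_zero_iff _ hψ)
      hfr).2.symm.trans hM.2
  have ht : ∀ q : PrimeSpectrum D, dm K q + 1 = dm K (MP_60ec62_ag.DL.gen D) →
      q.asIdeal.height = 1 := fun q e => by
    have h3 := MP_60ec62_ag.DL.Dim.dm_height (𝕜 := K) q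
    rw [← e, Nat.cast_add, add_comm] at h3
    exact WithTop.add_left_cancel (ENat.natCast_ne_top _) h3
  choose P p1 p2 p3 using fun q h => ValC.exists_place ψ hψ hfr q (ht q h)
  let Q : S → Dv M (j + 1) := fun q => ⟨P q (h1 q q.2).1, p1 _ _, ((p3 _ _).good (p2 _ _)).2.trans
    (congrArg _ (Nat.add_right_cancel ((h1 q q.2).1.trans hd)))⟩
  have inj : Injective Q := fun q q' e => Subtype.ext (PrimeSpectrum.ext (Ideal.ext fun u => by
    rw [← (p2 _ (h1 q q.2).1).2, show P _ (h1 q q.2).1 = P _ (h1 q' q'.2).1 from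
      congrArg Subtype.val e, (p2 _ _).2]))
  set F := fun O : Dv M (j + 1) => ∑ᶠ O' : Dv O.1.res j, (O'.1.ord (tame O.1 f g) : ℂ) *
    θ.v O'.1.res ((c.amb K).red O'.1 ((c.amb K).red O.1 (some (c.map ψ x)))) with hF
  have h3 : ∀ O, O ∉ Set.range Q → F O = 0 := fun O hO => by
    by_cases h : ∀ u, ψ u ∈ O.1.O
    swap
    · refine finsum_eq_zero_of_forall_eq_zero fun O' => mul_eq_zero_of_right _ ?_
      rw [hx M ψ O.1 h]
      exact v_none θ _
    obtain ⟨ι, hι⟩ := ev_lift (z := ctr h) (rho h) fun _ => Iff.rfl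
    rcases (dm_le ι O.2.2).lt_or_eq with e | e
    · simp only [hF]
      rw [red_int h, ← map_pt ι hι]
      exact low_sum θ ι _ (kz_good _) (Nat.le_of_lt_succ e) (O.2.good hM) (tame_ne O.2.1 hf hg)
    have e' : dm K (ctr h) + 1 = dm K (MP_60ec62_ag.DL.gen D) := by rw [e, hd]
    have e3 := (p3 _ e').unique hψ (Ideal.ne_bot_of_height_eq_one (ht _ e')) (p1 _ _) (cen_ctr h)
    have h4 : ctr h ∉ S := fun m => hO ⟨⟨_, m⟩, Subtype.ext e3.symm⟩
    simp only [← hS, Finset.mem_union, Finsupp.mem_support_iff, Finsupp.sub_apply, ← od_cast,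
      not_or, not_not, sub_eq_zero, Nat.cast_inj] at h4
    have h5 : tame O.1 f g = 1 := by
      rw [tame, e3, ord_frac hψ (p1 _ _) (p3 _ e') (p2 _ _) e' (n0 _ a0) (n0 _ b0) e1,
        ord_frac hψ (p1 _ _) (p3 _ e') (p2 _ _) e' (n0 _ a0') (n0 _ b0') e2, h4.1, h4.2]
      simp
    refine finsum_eq_zero_of_forall_eq_zero fun O' => mul_eq_zero_of_left ?_ _
    rw [h5, Pl.ord_eq_zero_of_mem one_ne_zero (one_mem _) (by rw [inv_one]; exact one_mem _),
      Int.cast_zero]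
  have h4 : ∀ q : S, F (Q q) =
      Finsupp.linearCombination ℚ (th θ x) (dv K q.1 (X q) - dv K q.1 (Y q)) := fun q => by
    obtain ⟨k1, k2, k3, k4⟩ := h1 q q.2
    have hc := p2 _ k1
    have hk : ∀ u, rho hc.1 u = 0 ↔ u ∈ q.1.asIdeal := fun u => by rw [rho_apply]; exact hc.2 u
    have k5 := mt (hk _).1 k2
    have k6 := mt (hk _).1 k3
    have k7 : tame (P _ k1) f g = rho hc.1 (X q) * (rho hc.1 (Y q))⁻¹ := by
      have k8 : (P _ k1).rd (ψ (Y q)) ≠ 0 := mt (hc.2 _).1 k3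
      obtain ⟨k9, k10⟩ := (Pl.rd_ne_zero_iff _ (hc.1 _)).1 k8
      rw [rho_apply, rho_apply, ← Pl.rd_inv _ (hc.1 _) k8, ← Pl.rd_mul _ (hc.1 _) k10, tame,
        ord_frac hψ (p1 _ _) (p3 _ k1) hc k1 (n0 _ a0) (n0 _ b0) e1,
        ord_frac hψ (p1 _ _) (p3 _ k1) hc k1 (n0 _ a0') (n0 _ b0') e2, zpow_sub₀ hf, zpow_sub₀ hg,
        eq_div_of_mul_eq b0 e1, eq_div_of_mul_eq b0' e2]
      have k11 := congrArg ψ k4
      simp only [map_mul, map_pow] at k11
      simp only [zpow_natCast, div_pow]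
      congr 1
      field_simp
      linear_combination -k11
    obtain ⟨s1, s2⟩ := div_sum θ hx ((Q q).2.good hM) (rho hc.1) hk ((p3 _ k1).frac hc) k5
    obtain ⟨s3, s4⟩ := div_sum θ hx ((Q q).2.good hM) (rho hc.1) hk ((p3 _ k1).frac hc) k6
    rw [map_sub, ← s2, ← s4, ← finsum_sub_distrib s1 s3]
    refine finsum_congr fun O' => ?_
    rw [← sub_mul, ← Int.cast_sub, sub_eq_add_neg, ← Pl.ord_inv O'.2.1,
      ← Pl.ord_mul O'.2.1 k5 (inv_ne_zero k6), ← k7, ← red_int hc.1]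
  refine ⟨(Set.finite_range Q).subset fun O hO => by_contra fun h => hO (h3 O h), ?_⟩
  rw [← finsum_mem_univ, finsum_mem_inter_support_eq' F Set.univ (Set.range Q) fun O hO =>
    iff_of_true trivial (by_contra fun h => hO (h3 O h)), finsum_mem_range inj,
    finsum_eq_sum_of_fintype, Finset.sum_congr rfl fun q _ => h4 q, ← map_sum,
    Finset.sum_coe_sort S fun q => dv K q (X q) - dv K q (Y q), h2, map_zero]

end KeyA

open KeyA MvPolynomial in
theorem FB1_thm {K : Type} [Field K] [Base K] [FB0 K] : FB1 K := by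
  refine ⟨fun c j θ M y f g hM ⟨x, e, _⟩ hy hf hg => ?_⟩
  subst e
  obtain ⟨p, hp, _⟩ := Base.char (K := K)
  have := Fact.mk hp
  have hs := hy (M.sub (IntermediateField.adjoin K (Set.range (c.co x)))) (IntermediateField.val _)
    (some (c.mk' fun i => ⟨c.co x i, IntermediateField.subset_adjoin _ _ ⟨i, rfl⟩⟩))
    (congrArg some (c.inj (funext fun i => by rw [c.co_map, c.co_mk]; rfl)))
  have hfr : ∀ m : M, ∃ a b : MvPolynomial c.ι K, aeval (c.co x) b ≠ 0 ∧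
      m * aeval (c.co x) b = aeval (c.co x) a := fun m => by
    obtain ⟨m, rfl⟩ := hs m
    obtain ⟨a, b, e⟩ := (IntermediateField.mem_adjoin_range_iff K _ _).1 m.2
    by_cases h : aeval (c.co x) b = 0
    · exact ⟨0, 1, by simp, by
        rw [map_one, mul_one, map_zero]; exact e.trans (by rw [h, div_zero])⟩
    · exact ⟨a, b, h, (eq_div_iff h).1 e⟩
  obtain ⟨D, _, _, _, _, _, _, _, ψ, h1, h2⟩ := ValC.exists_model p (aeval (c.co x)) hfr
  have : Algebra.FiniteType K D := .trans (S := MvPolynomial c.ι K) inferInstance inferInstance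
  have e : x = c.map ψ (c.mk' fun i => algebraMap (MvPolynomial c.ι K) D (X i)) :=
    c.inj (funext fun i => by rw [c.co_map, c.co_mk, h2, aeval_X])
  rw [e]
  refine key_model θ (fun N ρ O h => if_neg fun h' => h fun d => ?_) hM ψ h1
    (fun m => (hfr m).elim fun a ⟨b, h⟩ => ⟨algebraMap _ D a, algebraMap _ D b, by rwa [h2, h2]⟩)
    hf hg
  simp only [c.all_iff, c.co_map, c.co_mk] at h'
  let : Algebra (MvPolynomial c.ι K) N :=
    (ρ.toRingHom.comp (algebraMap (MvPolynomial c.ι K) D)).toAlgebra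
  refine ValC.mem_of_integral (A := MvPolynomial c.ι K) (fun a => ?_)
    ((Algebra.IsIntegral.isIntegral (R := MvPolynomial c.ι K) d).map
      ({ ρ.toRingHom with commutes' := fun _ => rfl } : D →ₐ[MvPolynomial c.ι K] N))
  show ρ (algebraMap _ D a) ∈ O.O
  induction a using MvPolynomial.induction_on with
  | C k =>
    rw [← algebraMap_eq, ← IsScalarTower.algebraMap_apply, AlgHom.commutes]
    exact O.const k
  | add a b ha hb => rw [map_add, map_add]; exact add_mem ha hb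
  | mul_X a i ha => rw [map_mul, map_mul]; exact mul_mem ha (h' i)

end Pool.Agent.Lib.MP_557161_ag.HG
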