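import Pool.Agent.Lib.MP_557161_ag.HG.St1

/-!
Consequences of the existence of an atlas.
-/

namespace Pool.Agent.Lib.MP_557161_ag.HG

open Pool.Agent.Lib.MP_557161_ag.DL
open CKL (isDiv_comap)

variable {K : Type} [Field K] {A : Amb K} {P : Sp A} {j : ℕ}

namespace B2

open Classical in
/-- The restriction of a functional to the points of `Q`. -/
noncomputable def rst (θ : Pre j P) (Q : Sp A) : Pre j P where
  v L y := if Q.mem y then θ.v L y else 0
  supp L y h := θ.supp L y fun e => h (by rw [e, ite_self])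
  ext ι y h h' := by
    by_cases hy : Q.mem y
    · rw [if_pos hy, if_pos ((Q.map_iff ι y).2 hy), θ.ext ι y h h']
    · rw [if_neg hy, if_neg fun e => hy ((Q.map_iff ι y).1 e), mul_zero]
  low ι y h := by rw [θ.low ι y h, ite_self]

/-- The points whose first chart is `i`. -/
def fst {n : ℕ} (C : Fin n → Chrt P) (i : Fin n) : Sp A where
  mem y := (C i).U.mem y ∧ ∀ k < i, ¬ (C k).U.mem y
  map_iff ι y := and_congr ((C i).U.map_iff ι y)
    (forall₂_congr fun k _ => not_congr ((C k).U.map_iff ι y))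

theorem split (hP : Atl P) (θ : Pre j P) :
    ∃ (n : ℕ) (C : Fin n → Chrt P) (θ' : Fin n → Pre j P),
      (∀ i L y, (θ' i).v L y ≠ 0 → (C i).U.mem y) ∧ ∀ L y, θ.v L y = ∑ i, (θ' i).v L y := by
  classical
  obtain ⟨-, n, C, hC⟩ := hP
  refine ⟨n, C, fun i => rst θ (fst C i), fun i L y h => ?_, fun L y => ?_⟩
  · by_contra h'
    exact h (if_neg fun e : (fst C i).mem y => h' e.1)
  · by_cases h : θ.v L y = 0
    · rw [h]
      exact (Finset.sum_eq_zero fun i _ => by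
        show (if (fst C i).mem y then θ.v L y else 0) = 0
        rw [h, ite_self]).symm
    · obtain ⟨i, hi, hm⟩ := wellFounded_lt.has_min {i | (C i).U.mem y} (hC L y (θ.supp L y h).2)
      rw [Finset.sum_eq_single i (fun k _ hk => ?_) fun e => absurd (Finset.mem_univ i) e]
      · exact (if_pos (show (fst C i).mem y from ⟨hi, fun k hk e => hm k e hk⟩)).symm
      · exact if_neg fun e : (fst C k).mem y =>
          (lt_or_gt_of_ne hk).elim (hm k e.1) fun e' => e.2 i e' hi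

variable (C : Chrt P)

theorem univ_mem {L : Fld K} {z : (C.c.amb K).pt L} (h : C.S.mem z) :
    (ASp.univ K C.c).sp.mem z := by
  cases z with
  | none => exact absurd h (C.ne L)
  | some x => exact ⟨x, rfl, trivial⟩

open Classical in
/-- The transport of a functional to the affine space of a chart. -/
noncomputable def tr (θ : Pre j P) : Pre j (ASp.univ K C.c).sp where
  v L z := if C.S.mem z then θ.v L (C.g.f z) else 0
  supp L z h := by
    split_ifs at h with hz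
    · exact ⟨(θ.supp L _ h).1, univ_mem C hz⟩
    · exact absurd rfl h
  ext ι z h h' := by
    by_cases hz : C.S.mem z
    · rw [if_pos hz, if_pos ((C.S.map_iff ι z).2 hz), C.g.nat ι z hz, θ.ext ι _ h h']
    · rw [if_neg hz, if_neg fun e => hz ((C.S.map_iff ι z).1 e), mul_zero]
  low ι z h := by
    split_ifs with hz
    · rw [C.g.nat ι z ((C.S.map_iff ι z).1 hz), θ.low ι _ h]
    · rfl

variable {C} {M : Fld K} {O : Pl M} {y : A.pt M} {θ : Pre j P}

theorem mem_of_red (hO : O.IsDVR) (hy : C.U.mem y) (h : C.S.mem ((C.c.amb K).red O (C.f.f y))) :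
    C.U.mem (A.red O y) := by
  have e := C.g.cont O _ hO (C.f.mem y hy) h
  rw [C.gf _ y hy] at e
  exact e ▸ C.g.mem _ h

theorem tr_red (hθ : ∀ L y, θ.v L y ≠ 0 → C.U.mem y) (hO : O.IsDVR) (hy : C.U.mem y) :
    θ.v O.res (A.red O y) = (tr C θ).v O.res ((C.c.amb K).red O (C.f.f y)) := by
  by_cases h : C.U.mem (A.red O y)
  · rw [← C.f.cont O y hO hy h]
    refine Eq.symm ((if_pos (C.f.mem _ h)).trans ?_)
    rw [C.gf _ _ h]
  · rw [not_not.1 fun e => h (hθ _ _ e)]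
    exact (if_neg fun e => h (mem_of_red hO hy e)).symm

theorem red_two (hP : LC P) (hθ : ∀ L y, θ.v L y ≠ 0 → C.U.mem y) (hO : O.IsDVR) {O' : Pl O.res}
    (hO' : O'.IsDVR) (hy : P.mem y) (h : ¬ C.U.mem (A.red O y)) :
    θ.v O'.res (A.red O' (A.red O y)) = 0 :=
  not_not.1 fun e => h (C.opn.gz _ O' _ hO' (hP M O O' y hO hO' hy (θ.supp _ _ e).2) (hθ _ _ e))

theorem tr_two (hP : LC P) (hθ : ∀ L y, θ.v L y ≠ 0 → C.U.mem y) (hO : O.IsDVR) {O' : Pl O.res}
    (hO' : O'.IsDVR) (hy : C.U.mem y) :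
    θ.v O'.res (A.red O' (A.red O y)) =
      (tr C θ).v O'.res ((C.c.amb K).red O' ((C.c.amb K).red O (C.f.f y))) := by
  by_cases h : C.U.mem (A.red O y)
  · rw [tr_red hθ hO' h, C.f.cont O y hO hy h]
  · rw [red_two hP hθ hO hO' (C.opn.sub _ y hy) h]
    exact (if_neg fun e => h (mem_of_red hO hy (C.lc M O O' _ hO hO' (C.f.mem y hy) e))).symm

theorem gen_f (hy : C.U.mem y) (h : GenPt A M y) : GenPt (C.c.amb K) M (C.f.f y) :=
  fun L κ z e => h L κ (C.g.f z) (by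
    rw [← C.g.nat κ z ((C.S.map_iff κ z).1 (e ▸ C.f.mem y hy)), e, C.gf _ y hy])

theorem gen_g {z : (C.c.amb K).pt M} (hz : C.S.mem z) (h : GenPt (C.c.amb K) M z) :
    GenPt A M (C.g.f z) :=
  fun L κ y e => h L κ (C.f.f y) (by
    rw [← C.f.nat κ y ((C.U.map_iff κ y).1 (e ▸ C.g.mem z hz)), e, C.fg _ z hz])

theorem fin_sum {α ι : Type} [Fintype ι] {g : ι → α → ℂ} (h : ∀ i, (Function.support (g i)).Finite) :
    (Function.support fun a => ∑ i, g i a).Finite :=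
  (Set.finite_iUnion h).subset fun a ha => by
    obtain ⟨i, -, hi⟩ := Finset.exists_ne_zero_of_sum_ne_zero ha
    exact Set.mem_iUnion.2 ⟨i, hi⟩

theorem hasS_sum {α ι : Type} [Fintype ι] {g : ι → α → ℂ} (h : ∀ i, HasS (g i) 0) :
    HasS (fun a => ∑ i, g i a) 0 :=
  ⟨fin_sum fun i => (h i).1, by
    rw [finsum_sum_comm _ (fun a i => g i a) fun i _ => (h i).1]
    exact Finset.sum_eq_zero fun i _ => (h i).2⟩

theorem hasS_zero {α : Type} {g : α → ℂ} (h : ∀ a, g a = 0) : HasS g 0 :=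
  ⟨Set.finite_empty.subset fun a e => e (h a), finsum_eq_zero_of_forall_eq_zero h⟩

theorem fins [FB0 K] (hP : Atl P) : FinS P := by
  intro j θ M y f hM hy hf
  obtain ⟨n, C, θ', h1, h2⟩ := split hP θ
  simp only [h2, Finset.mul_sum]
  refine fin_sum (g := fun i (O : Dv M j) => (O.1.ord f : ℂ) * (θ' i).v O.1.res (A.red O.1 y))
    fun i => ?_
  by_cases h : (C i).U.mem y
  · have e := fun O : Dv M j => tr_red (h1 i) O.2.1 h
    simp only [e]
    exact FB0.fins _ j _ M _ f hM (univ_mem _ ((C i).f.mem y h)) hf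
  · exact (hasS_zero fun O : Dv M j => by
      rw [not_not.1 fun e => h ((C i).opn.gz M O.1 y O.2.1 hy (h1 i _ _ e)), mul_zero]).1

theorem key [Base K] [FB0 K] [FB1 K] (hP : Atl P) : Key P := by
  intro j θ M y f g hM hy hg hf hf'
  obtain ⟨n, C, θ', h1, h2⟩ := split hP θ
  have e : ∀ O : Dv M (j + 1), ∑ᶠ O' : Dv O.1.res j,
      (O'.1.ord (tame O.1 f g) : ℂ) * θ.v O'.1.res (A.red O'.1 (A.red O.1 y)) =
      ∑ i, ∑ᶠ O' : Dv O.1.res j,
        (O'.1.ord (tame O.1 f g) : ℂ) * (θ' i).v O'.1.res (A.red O'.1 (A.red O.1 y)) := fun O => by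
    simp only [h2, Finset.mul_sum]
    refine finsum_sum_comm _ (fun (O' : Dv O.1.res j) i =>
      (O'.1.ord (tame O.1 f g) : ℂ) * (θ' i).v O'.1.res (A.red O'.1 (A.red O.1 y))) fun i _ => ?_
    by_cases h0 : tame O.1 f g = 0
    · exact (hasS_zero fun O' : Dv O.1.res j => by
        rw [h0, Pl.ord_zero _ O'.2.1, Int.cast_zero, zero_mul]).1
    by_cases h : (C i).U.mem (A.red O.1 y)
    · exact fins hP j _ _ _ _ (O.2.good hM) ((C i).opn.sub _ _ h) h0
    · exact (hasS_zero fun O' : Dv O.1.res j => by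
        rw [red_two hP.1 (h1 i) O.2.1 O'.2.1 hy h, mul_zero]).1
  simp only [e]
  refine hasS_sum (g := fun i (O : Dv M (j + 1)) => ∑ᶠ O' : Dv O.1.res j,
    (O'.1.ord (tame O.1 f g) : ℂ) * (θ' i).v O'.1.res (A.red O'.1 (A.red O.1 y))) fun i => ?_
  by_cases h : (C i).U.mem y
  · have e' := fun (O : Dv M (j + 1)) (O' : Dv O.1.res j) => tr_two hP.1 (h1 i) O.2.1 O'.2.1 h
    simp only [e']
    exact FB1.key _ j _ M _ f g hM (univ_mem _ ((C i).f.mem y h)) (gen_f h hg) hf hf'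
  · exact hasS_zero fun O => finsum_eq_zero_of_forall_eq_zero fun O' => by
      rw [red_two hP.1 (h1 i) O.2.1 O'.2.1 hy fun e => h ((C i).opn.gz M O.1 y O.2.1 hy e),
        mul_zero]

theorem gen_aff (c : Cd) (M : Fld K) (x : c.X M) :
    ∃ (L : Fld K) (κ : L →ₐ[K] M) (z : (c.amb K).pt L) (m : ℕ),
      (c.amb K).map κ z = some x ∧ GenPt (c.amb K) L z ∧ Good m L := by
  obtain ⟨m, hm⟩ := good_adjoin M _ (Set.finite_range (c.co x))
  set F := IntermediateField.adjoin K (Set.range (c.co x)) with hF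
  have e : (c.amb K).map (L := M.sub F) F.val (some (c.mk' fun i =>
      (⟨c.co x i, IntermediateField.subset_adjoin _ _ ⟨i, rfl⟩⟩ : F))) = some x :=
    congrArg some (c.inj (funext fun i => by rw [c.co_map, c.co_mk]; rfl))
  refine ⟨M.sub F, F.val, _, m, e, fun L κ z hz a => ?_, hm⟩
  rw [← hz, ← (c.amb K).map_comp] at e
  cases z with
  | none => exact nomatch e
  | some x' =>
    have e' : c.map (F.val.comp κ) x' = x := Option.some.inj e
    have : F ≤ (F.val.comp κ).fieldRange := IntermediateField.adjoin_le_iff.2 (by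
      rintro _ ⟨i, rfl⟩
      exact ⟨c.co x' i, by rw [← e', c.co_map]; rfl⟩)
    obtain ⟨b, hb⟩ := this a.2
    exact ⟨b, Subtype.ext hb⟩

theorem genpt (hP : Atl P) (M : Fld K) (y : A.pt M) (hy : P.mem y) :
    ∃ (L : Fld K) (κ : L →ₐ[K] M) (y₀ : A.pt L) (m : ℕ),
      A.map κ y₀ = y ∧ GenPt A L y₀ ∧ Good m L := by
  obtain ⟨-, n, C, hC⟩ := hP
  obtain ⟨i, hi⟩ := hC M y hy
  have h := (C i).f.mem y hi
  obtain ⟨x, hx, -⟩ := univ_mem _ h
  obtain ⟨L, κ, z, m, h1, h2, h3⟩ := gen_aff (C i).c M x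
  rw [← hx] at h1
  have hz := ((C i).S.map_iff κ z).1 (h1 ▸ h)
  exact ⟨L, κ, (C i).g.f z, m, by rw [← (C i).g.nat κ z hz, h1, (C i).gf _ y hi], gen_g hz h2, h3⟩

theorem red_low (θ : Pre j P) {L : Fld K} (κ : L →ₐ[K] M) (y : A.pt L) (hL : L.tr ≤ j) {O : Pl M}
    (h : ¬ Pl.Triv κ O) : θ.v O.res (A.red O (A.map κ y)) = 0 := by
  rw [A.red_map (Pl.over_comap κ O)]
  refine θ.low _ _ (Pl.tr_res_lt _ (fun e => h fun x => ?_) hL)
  exact (Pl.over_comap κ O x).1 (e ▸ ValuationSubring.mem_top x)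

variable [Base K]

theorem rat_eq (θ : Pre j P) {L : Fld K} (κ : L →ₐ[K] M) (y : A.pt L) (hL : Good j L)
    (hM : Good (j + 1) M) {f : M} (hf : f ≠ 0) : θ.Rat M (A.map κ y) f := by
  obtain ⟨h1, h2⟩ := Pl.degree_zero κ hL hM hf
  have h3 : (Function.support fun O : {O : Pl M // Pl.Triv κ O ∧ O.IsDVR} =>
      O.1.ord f * (deg O.2.1.hom : ℤ)).Finite :=
    (h1.preimage Subtype.val_injective.injOn).subset fun O h =>
      ⟨O.2.1, O.2.2, left_ne_zero_of_mul h⟩
  refine Hi.transfer _ (fun O : {O : Pl M // Pl.Triv κ O ∧ O.IsDVR} =>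
    ((O.1.ord f * (deg O.2.1.hom : ℤ) : ℤ) : ℂ) * θ.v L y) (fun a b => a.1 = b.1)
    (fun a h => ?_) (fun b _ => ?_) (fun a b h => ?_)
    (fun a b b' h h' => Subtype.ext (h.symm.trans h'))
    (fun a a' b h h' => Subtype.ext (h.trans h'.symm)) ⟨h3.subset fun O h => ?_, ?_⟩
  · exact ⟨⟨a.1, not_not.1 fun e => h (by rw [red_low θ κ y hL.2.le e, mul_zero]), a.2.1⟩, rfl⟩
  · refine ⟨⟨b.1, b.2.2, le_antisymm ?_ (hL.2 ▸ tr_le b.2.1.hom)⟩, rfl⟩
    have := Pl.tr_res_lt b.1 b.2.2.ne_top hM.2.le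
    rwa [Nat.cast_succ, ← Cardinal.succ_natCast, Order.lt_succ_iff] at this
  · obtain ⟨a, ha⟩ := a
    obtain ⟨b, hb⟩ := b
    obtain rfl : a = b := h
    show _ * θ.v a.res (A.red a (A.map κ y)) = _
    rw [A.red_triv hb.1, θ.ext _ y hL (ha.good hM), Int.cast_mul, Int.cast_natCast, mul_assoc]
  · exact fun e => h (by simp only [e, Int.cast_zero, zero_mul])
  · have := map_finsum (Int.castRingHom ℂ) h3
    rw [h2, map_zero] at this
    rw [← finsum_mul]
    exact mul_eq_zero_of_left this.symm _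

theorem rat_fin [FB0 K] (hP : Atl P) (θ : Pre j P) {L : Fld K} (κ : L →ₐ[K] M) (y : A.pt L)
    (hL : Good (j + 1) L) (hM : Good (j + 1) M) (hy : P.mem y) {f : M} (hf : f ≠ 0)
    (h : θ.Rat L y (nrm κ f)) : θ.Rat M (A.map κ y) f := by
  have b1 := hM.fin κ hL.2
  have c1 := fins hP j θ M _ f hM ((P.map_iff κ y).2 hy) hf
  refine ⟨c1, Eq.trans (Eq.symm (fib_sum (β := Dv L j)
    (fun O' : Dv M j => ⟨Pl.comap κ O'.1, isDiv_comap b1 O'.2⟩) c1 fun O => ?_).2) h.2⟩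
  have d1 : Function.Injective fun O' : {O' : Pl M // Pl.Over κ O.1 O'} =>
      (⟨O'.1, O'.2.isDiv b1 hL O.2⟩ : Dv M j) := fun _ _ e => Subtype.ext (congrArg Subtype.val e :)
  have d2 := Pl.sum_ord_nrm b1 hL O.2 hf
  have : Finite {O' : Pl M // Pl.Over κ O.1 O'} := Pl.finite_over b1 hL O.2
  have := Fintype.ofFinite {O' : Pl M // Pl.Over κ O.1 O'}
  rw [finsum_eq_sum_of_fintype] at d2
  refine (finsum_mem_congr (t := Set.range _) ?_ fun _ _ => rfl).trans
    ((finsum_mem_range d1).trans ?_)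
  · ext O'
    exact ⟨fun e => ⟨⟨O'.1, e ▸ Pl.over_comap κ O'.1⟩, rfl⟩,
      by rintro ⟨O'', rfl⟩; exact Subtype.ext O''.2.eq_comap.symm⟩
  · rw [finsum_eq_sum_of_fintype, ← d2, Int.cast_sum, Finset.sum_mul]
    refine Finset.sum_congr rfl fun O' _ => ?_
    show _ * θ.v O'.1.res (A.red O'.1 (A.map κ y)) = _
    rw [A.red_map O'.2, θ.ext _ _ (O.2.good hL) ((O'.2.isDiv b1 hL O.2).good hM), Int.cast_mul,
      Int.cast_natCast, mul_assoc]

theorem rat [FB0 K] (hP : Atl P) (θ : Pre j P)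
    (h : ∀ M y f, Good (j + 1) M → P.mem y → GenPt A M y → f ≠ 0 → θ.Rat M y f)
    (M : Fld K) (y : A.pt M) (f : M) (hM : Good (j + 1) M) (hy : P.mem y) (hf : f ≠ 0) :
    θ.Rat M y f := by
  obtain ⟨L, κ, y₀, m, rfl, h2, h3⟩ := genpt hP M y hy
  have h4 : m ≤ j + 1 := by
    have := tr_le κ
    rwa [h3.2, hM.2, Nat.cast_le] at this
  have h5 := (P.map_iff κ y₀).1 hy
  rcases h4.eq_or_lt with rfl | h4
  · exact rat_fin hP θ κ y₀ h3 hM h5 hf
      (h L y₀ _ h3 h5 h2 (nrm_ne_zero (hM.fin κ h3.2) hf))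
  rcases (Nat.lt_succ_iff.1 h4).eq_or_lt with rfl | h4
  · exact rat_eq θ κ y₀ h3 hM hf
  have h6 : L.tr < j := by rwa [h3.2, Nat.cast_lt]
  refine hasS_zero fun O => ?_
  by_cases e : Pl.Triv κ O.1
  · rw [A.red_triv e, θ.low _ _ h6, mul_zero]
  · rw [red_low θ κ y₀ h6.le e, mul_zero]

end B2

theorem FB2_thm [Base K] [FA1 K] [FA3 K] [FB0 K] [FB1 K] : FB2 K :=
  ⟨B2.fins, B2.key, B2.genpt, fun h _ => B2.rat h⟩

end Pool.Agent.Lib.MP_557161_ag.HG
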