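import Pool.Agent.Lib.MP_557161_ag.HG.St1

/-!
Atlases of affine spaces, products, subspaces, projective spaces; orders of vectors.
-/

namespace Pool.Agent.Lib.MP_557161_ag.HG

open Pool.Agent.Lib.MP_557161_ag.DL

variable {K : Type} [Field K] {A B : Amb K}

namespace FB3p

lemma atl_of {P : Sp A} (h : LC P) {ι : Type} [Finite ι] (C : ι → Chrt P)
    (e : ∀ (L : Fld K) (y : A.pt L), P.mem y → ∃ i, (C i).U.mem y) : Atl P := by
  obtain ⟨n, ⟨φ⟩⟩ := Finite.exists_equiv_fin ι
  refine ⟨h, n, fun i => C (φ.symm i), fun L y m => ?_⟩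
  obtain ⟨i, hi⟩ := e L y m
  exact ⟨φ i, by simpa only [φ.symm_apply_apply] using hi⟩

/-- The identity. -/
def idM (P : Sp A) : Mor P P :=
  ⟨fun y => y, fun _ h => h, fun _ _ _ => rfl, fun _ _ _ _ _ => rfl⟩

lemma red_ne {c : Cd} {M : Fld K} {O : Pl M} {y : (c.amb K).pt M} {x' : c.X O.res}
    (h : (c.amb K).red O y = some x') : ∃ x, y = some x := by
  cases y with
  | none => exact nomatch h
  | some x => exact ⟨x, rfl⟩

lemma lc_sp {c : Cd} (S : ASp K c) : LC S.sp := by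
  rintro M O O' _ - - ⟨x, rfl, hx⟩ ⟨x'', e, hx''⟩
  obtain ⟨x', e'⟩ := red_ne e
  rw [e'] at e
  exact ⟨x', e', S.mid (Cd.lift_of_red e') (Cd.lift_of_red e) hx hx''⟩

lemma ne_sp {c : Cd} (S : ASp K c) (L : Fld K) : ¬ S.sp.mem (L := L) none :=
  fun ⟨_, e, _⟩ => nomatch e

/-- An open affine part. -/
noncomputable def affC {c : Cd} (S : ASp K c) (P : Sp (c.amb K)) (h : Opn S.sp P) : Chrt P :=
  ⟨S.sp, h, c, S.sp, lc_sp S, ne_sp S, idM _, idM _, fun _ _ _ => rfl, fun _ _ _ => rfl⟩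

lemma aff {c : Cd} (S : ASp K c) : Atl S.sp :=
  atl_of (lc_sp S) (fun _ : Unit => affC S S.sp ⟨fun _ _ h => h, fun _ _ _ _ h _ => h⟩)
    fun _ _ h => ⟨(), h⟩

section Sub

variable {P Q : Sp A}

/-- The chart of a subspace. -/
def subC (C : Chrt P) (h : ∀ (L : Fld K) (y : A.pt L), Q.mem y → P.mem y) (hQ : LC Q) :
    Chrt Q where
  U := C.U.inter Q
  opn := ⟨fun _ _ m => m.2, fun M O y d m m' => ⟨C.opn.gz M O y d (h _ _ m) m'.1, m⟩⟩
  c := C.c
  S := ⟨fun z => C.S.mem z ∧ Q.mem (C.g.f z), fun κ z =>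
    ⟨fun m => have := (C.S.map_iff κ z).1 m.1
      ⟨this, (Q.map_iff κ _).1 (C.g.nat κ z this ▸ m.2)⟩,
    fun m => ⟨(C.S.map_iff κ z).2 m.1, (C.g.nat κ z m.1).symm ▸ (Q.map_iff κ _).2 m.2⟩⟩⟩
  lc M O O' z d d' m m'' := by
    have m' := C.lc M O O' z d d' m.1 m''.1
    have e := C.g.cont O z d m.1 m'
    have e' := C.g.cont O' _ d' m' m''.1
    refine ⟨m', ?_⟩
    rw [e]
    refine hQ M O O' _ d d' m.2 ?_
    rw [← e, ← e']
    exact m''.2
  ne L m := C.ne L m.1
  f := ⟨C.f.f, fun y m => ⟨C.f.mem y m.1, (C.gf _ y m.1).symm ▸ m.2⟩,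
    fun κ y m => C.f.nat κ y m.1, fun O y d m m' => C.f.cont O y d m.1 m'.1⟩
  g := ⟨C.g.f, fun z m => ⟨C.g.mem z m.1, m.2⟩,
    fun κ z m => C.g.nat κ z m.1, fun O z d m m' => C.g.cont O z d m.1 m'.1⟩
  gf L y m := C.gf L y m.1
  fg L z m := C.fg L z m.1

lemma sub (hP : Atl P) (h : ∀ (L : Fld K) (y : A.pt L), Q.mem y → P.mem y) (hQ : LC Q) :
    Atl Q := by
  obtain ⟨-, n, C, e⟩ := hP
  refine ⟨hQ, n, fun i => subC (C i) h hQ, fun L y m => ?_⟩
  obtain ⟨i, hi⟩ := e L y (h L y m)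
  exact ⟨i, hi, m⟩

end Sub

section Prod

variable {c d : Cd} {L L' M : Fld K}

/-- The pair of two finite points. -/
def pr (a : (c.amb K).pt L) (b : (d.amb K).pt L) : ((c.prod d).amb K).pt L :=
  Option.bind a fun x => Option.map (fun w => (x, w)) b

/-- The first component. -/
def p1 (z : ((c.prod d).amb K).pt L) : (c.amb K).pt L := Option.map Prod.fst z

/-- The second component. -/
def p2 (z : ((c.prod d).amb K).pt L) : (d.amb K).pt L := Option.map Prod.snd z

lemma map_pr (κ : L →ₐ[K] L') (a : (c.amb K).pt L) (b : (d.amb K).pt L) :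
    pr ((c.amb K).map κ a) ((d.amb K).map κ b) = ((c.prod d).amb K).map κ (pr a b) := by
  cases a <;> cases b <;> rfl

lemma map_p1 (κ : L →ₐ[K] L') (z : ((c.prod d).amb K).pt L) :
    p1 (((c.prod d).amb K).map κ z) = (c.amb K).map κ (p1 z) := by
  cases z <;> rfl

lemma map_p2 (κ : L →ₐ[K] L') (z : ((c.prod d).amb K).pt L) :
    p2 (((c.prod d).amb K).map κ z) = (d.amb K).map κ (p2 z) := by
  cases z <;> rfl

lemma red_p {O : Pl M} {z : ((c.prod d).amb K).pt M} (h : ((c.prod d).amb K).red O z ≠ none) :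
    p1 (((c.prod d).amb K).red O z) = (c.amb K).red O (p1 z) ∧
      p2 (((c.prod d).amb K).red O z) = (d.amb K).red O (p2 z) := by
  obtain ⟨z', e⟩ := Option.ne_none_iff_exists'.1 h
  obtain ⟨x, rfl⟩ := red_ne e
  have := Cd.lift_of_red e
  rw [e]
  exact ⟨(Cd.red_some this.1).symm, (Cd.red_some this.2).symm⟩

lemma red_pr {O : Pl M} {a : (c.amb K).pt M} {b : (d.amb K).pt M}
    (ha : (c.amb K).red O a ≠ none) (hb : (d.amb K).red O b ≠ none) :
    pr ((c.amb K).red O a) ((d.amb K).red O b) = ((c.prod d).amb K).red O (pr a b) := by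
  obtain ⟨x', e⟩ := Option.ne_none_iff_exists'.1 ha
  obtain ⟨w', e'⟩ := Option.ne_none_iff_exists'.1 hb
  obtain ⟨x, rfl⟩ := red_ne e
  obtain ⟨w, rfl⟩ := red_ne e'
  rw [e, e']
  exact (Cd.red_some (c := c.prod d) (x := (x, w)) (x' := (x', w'))
    ⟨Cd.lift_of_red e, Cd.lift_of_red e'⟩).symm

lemma p_pr {a : (c.amb K).pt L} {b : (d.amb K).pt L} (ha : a ≠ none) (hb : b ≠ none) :
    p1 (pr a b) = a ∧ p2 (pr a b) = b := by
  obtain ⟨x, rfl⟩ := Option.ne_none_iff_exists'.1 ha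
  obtain ⟨w, rfl⟩ := Option.ne_none_iff_exists'.1 hb
  exact ⟨rfl, rfl⟩

lemma pr_p (z : ((c.prod d).amb K).pt L) : pr (p1 z) (p2 z) = z := by
  cases z <;> rfl

variable {P : Sp A} {Q : Sp B}

lemma ne_of (C : Chrt P) {z : (C.c.amb K).pt L} (h : C.S.mem z) : z ≠ none :=
  fun e => C.ne L (e ▸ h)

lemma ne_of' (C : Chrt P) {z : ((C.c.prod d).amb K).pt L} (h : C.S.mem (p1 z)) : z ≠ none :=
  fun e => ne_of C h (by rw [e]; rfl)

/-- The product of the images of two charts. -/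
def prodS (C : Chrt P) (D : Chrt Q) : Sp ((C.c.prod D.c).amb K) where
  mem z := C.S.mem (p1 z) ∧ D.S.mem (p2 z)
  map_iff κ z := by rw [map_p1, map_p2, C.S.map_iff, D.S.map_iff]

/-- The product of two charts. -/
def prodC (C : Chrt P) (D : Chrt Q) : Chrt (P.prod Q) where
  U := C.U.prod D.U
  opn := ⟨fun L y m => ⟨C.opn.sub L _ m.1, D.opn.sub L _ m.2⟩,
    fun M O y d m m' => ⟨C.opn.gz M O _ d m.1 m'.1, D.opn.gz M O _ d m.2 m'.2⟩⟩
  c := C.c.prod D.c
  S := prodS C D
  lc M O O' z d d' m m'' := by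
    have n'' := ne_of' C m''.1
    have n' : ((C.c.prod D.c).amb K).red O z ≠ none := fun e => n'' (by rw [e]; rfl)
    obtain ⟨e1, e2⟩ := red_p n'
    obtain ⟨e3, e4⟩ := red_p n''
    obtain ⟨m1, m2⟩ := m''
    rw [e3, e1] at m1
    rw [e4, e2] at m2
    exact ⟨e1 ▸ C.lc M O O' _ d d' m.1 m1, e2 ▸ D.lc M O O' _ d d' m.2 m2⟩
  ne L m := C.ne L m.1
  f :=
    { f := fun y => pr (C.f.f y.1) (D.f.f y.2)
      mem := fun y m => by
        have h1 := C.f.mem _ m.1
        have h2 := D.f.mem _ m.2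
        obtain ⟨e1, e2⟩ := p_pr (ne_of C h1) (ne_of D h2)
        exact ⟨e1.symm ▸ h1, e2.symm ▸ h2⟩
      nat := fun κ y m => by
        rw [← map_pr, ← C.f.nat κ _ m.1, ← D.f.nat κ _ m.2]; rfl
      cont := fun O y d m m' => by
        have e1 := C.f.cont O _ d m.1 m'.1
        have e2 := D.f.cont O _ d m.2 m'.2
        rw [← red_pr (e1 ▸ ne_of C (C.f.mem _ m'.1)) (e2 ▸ ne_of D (D.f.mem _ m'.2)), ← e1, ← e2]
        rfl }
  g :=
    { f := fun z => (C.g.f (p1 z), D.g.f (p2 z))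
      mem := fun z m => ⟨C.g.mem _ m.1, D.g.mem _ m.2⟩
      nat := fun κ z m => by
        rw [map_p1, map_p2, C.g.nat κ _ m.1, D.g.nat κ _ m.2]; rfl
      cont := fun O z d m m' => by
        obtain ⟨e1, e2⟩ := red_p (ne_of' C m'.1)
        obtain ⟨m1, m2⟩ := m'
        rw [e1] at m1 ⊢
        rw [e2] at m2 ⊢
        rw [C.g.cont O _ d m.1 m1, D.g.cont O _ d m.2 m2]; rfl }
  gf L y m := by
    obtain ⟨e1, e2⟩ := p_pr (ne_of C (C.f.mem _ m.1)) (ne_of D (D.f.mem _ m.2))
    show (C.g.f (p1 (pr _ _)), D.g.f (p2 (pr _ _))) = y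
    rw [e1, e2, C.gf L _ m.1, D.gf L _ m.2]
    rfl
  fg L z m := by
    show pr (C.f.f (C.g.f _)) (D.f.f (D.g.f _)) = z
    rw [C.fg L _ m.1, D.fg L _ m.2, pr_p]

lemma prod (hP : Atl P) (hQ : Atl Q) : Atl (P.prod Q) := by
  obtain ⟨l, n, C, e⟩ := hP
  obtain ⟨l', n', D, e'⟩ := hQ
  refine atl_of (fun M O O' y d d' m m'' => ⟨l M O O' _ d d' m.1 m''.1, l' M O O' _ d d' m.2 m''.2⟩)
    (fun i : Fin n × Fin n' => prodC (C i.1) (D i.2)) fun L y m => ?_
  obtain ⟨i, hi⟩ := e L _ m.1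
  obtain ⟨k, hk⟩ := e' L _ m.2
  exact ⟨(i, k), hi, hk⟩

end Prod

section Lines

open Submodule

variable {σ : Type} {L L' M : Fld K}

lemma line_uniq {F : Type} [Field F] {s : σ} {x x' : σ → F} (h : x s = 1) (h' : x' s = 1)
    (e : span F {x} = span F {x'}) : x = x' := by
  obtain ⟨a, rfl⟩ := mem_span_singleton.1 (e.le (mem_span_singleton_self x))
  have : a = 1 := by simpa [h'] using h
  rw [this, one_smul]

lemma span_norm {F : Type} [Field F] {s : σ} {x : σ → F} (h : x s ≠ 0) :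
    span F {x} = span F {(x s)⁻¹ • x} :=
  (span_singleton_smul_eq (IsUnit.mk0 _ (inv_ne_zero h)) x).symm

lemma line_red {O : Pl M} {s : σ} {x : σ → M} {x' : σ → O.res} (h' : x' s = 1)
    (e : sred O (span M {x}) = span O.res {x'}) :
    x s ≠ 0 ∧ IntV O ((x s)⁻¹ • x) ∧ rdV O ((x s)⁻¹ • x) = x' := by
  obtain ⟨z, hz, iz, rz⟩ := e.ge (mem_span_singleton_self x')
  obtain ⟨a, rfl⟩ := mem_span_singleton.1 hz
  have h1 : O.rd ((a • x) s) = 1 := (congrFun rz s).trans h'
  have h2 : O.rd ((a • x) s) ≠ 0 := h1 ▸ one_ne_zero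
  obtain ⟨h3, h4⟩ := (O.rd_ne_zero_iff (iz s)).1 h2
  have h5 : a ≠ 0 ∧ x s ≠ 0 := mul_ne_zero_iff.1 h3
  have h6 : (x s)⁻¹ • x = ((a • x) s)⁻¹ • a • x := by
    rw [smul_smul, Pi.smul_apply, smul_eq_mul, mul_inv, mul_comm a⁻¹, mul_assoc,
      inv_mul_cancel₀ h5.1, mul_one]
  refine ⟨h5.2, h6 ▸ IntV.smul h4 iz, ?_⟩
  rw [h6, rdV_smul h4 iz, O.rd_inv (iz s) h2, h1, inv_one, one_smul, rz]

open Classical in
/-- The normalised generator. -/
noncomputable def nv {F : Type} [Field F] (s : σ) (E : Submodule F (σ → F)) : Option (σ → F) :=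
  if h : ∃ x : σ → F, x s = 1 ∧ E = span F {x} then some h.choose else none

lemma nv_span {F : Type} [Field F] {s : σ} {x : σ → F} (h : x s = 1) :
    nv s (span F {x}) = some x := by
  have e : ∃ y : σ → F, y s = 1 ∧ span F {x} = span F {y} := ⟨x, h, rfl⟩
  rw [nv, dif_pos e, ← line_uniq h e.choose_spec.1 e.choose_spec.2]

variable [Finite σ]

/-- The lines with a nonzero coordinate. -/
def lineU (K : Type) [Field K] (s : σ) : Sp (Sub K σ) where
  mem {L} E := ∃ x : σ → L, x s = 1 ∧ E = span L {x}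
  map_iff {L L'} κ E := by
    constructor
    · rintro ⟨x, h, e⟩
      obtain ⟨y, -, rfl⟩ := ((Lines K σ).map_iff κ E).1
        ⟨x, fun e => one_ne_zero (h.symm.trans (congrFun e s)), e⟩
      have e' : span L' {mapV κ.toRingHom y} = span L' {x} := (smap_single _ y).symm.trans e
      obtain ⟨a, ha⟩ := mem_span_singleton.1 (e'.ge (mem_span_singleton_self x))
      have h0 : y s ≠ 0 := fun h0 => by
        have := congrFun ha s
        rw [h] at this
        simp [mapV, h0] at this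
      exact ⟨_, inv_mul_cancel₀ h0, span_norm h0⟩
    · rintro ⟨x, h, rfl⟩
      exact ⟨mapV κ.toRingHom x, (congrArg κ h).trans (map_one κ), smap_single _ x⟩

/-- The normalised vectors. -/
def lineS (K : Type) [Field K] (s : σ) : ASp K (.vec σ) :=
  (ASp.univ K _).cl (fun _ x => x s = 1) fun _ _ R _ _ _ _ e h => Rel.eq (e s) R.one h

/-- A chart of the projective space. -/
noncomputable def lineC (K : Type) [Field K] (s : σ) : Chrt (Lines K σ) where
  U := lineU K s
  opn := ⟨fun _ _ ⟨x, h, e⟩ => ⟨x, fun e => one_ne_zero (h.symm.trans (congrFun e s)), e⟩, by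
    rintro M O _ - ⟨x, -, rfl⟩ ⟨x', h', e⟩
    have h0 := (line_red h' e).1
    exact ⟨_, inv_mul_cancel₀ h0, span_norm h0⟩⟩
  c := .vec σ
  S := (lineS K s).sp
  lc := lc_sp _
  ne := ne_sp _
  f :=
    { f := fun E => nv s E
      mem := by
        rintro L _ ⟨x, h, rfl⟩
        exact ⟨x, nv_span h, trivial, h⟩
      nat := by
        rintro L L' κ _ ⟨x, h, rfl⟩
        show nv s (smap κ.toRingHom _) = _
        rw [smap_single, nv_span h]
        exact nv_span ((congrArg κ h).trans (map_one κ))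
      cont := by
        rintro M O _ - ⟨x, h, rfl⟩ ⟨x', h', e⟩
        obtain ⟨-, h1, h2⟩ := line_red h' e
        rw [h, inv_one, one_smul] at h1 h2
        rw [e, nv_span h, nv_span h']
        exact (Cd.red_some (c := .vec σ) fun i => ⟨h1 i, congrFun h2 i⟩).symm }
  g :=
    { f := fun {L} z => Option.elim z (⊥ : Submodule L (σ → L)) fun x => span L {x}
      mem := by
        rintro L _ ⟨x, rfl, h⟩
        exact ⟨x, h.2, rfl⟩
      nat := by
        rintro L L' κ _ ⟨x, rfl, h⟩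
        exact (smap_single κ.toRingHom x).symm
      cont := by
        rintro M O _ - ⟨x, rfl, h⟩ ⟨x', e, h'⟩
        have l := Cd.lift_of_red e
        obtain rfl : rdV O x = x' := funext fun i => (l i).2
        rw [e]
        exact (sred_single (fun i => (l i).1)
          fun e => one_ne_zero (h'.2.symm.trans (congrFun e s))).symm }
  gf := by
    rintro L _ ⟨x, h, rfl⟩
    show Option.elim (nv s (span L {x})) (⊥ : Submodule L (σ → L)) _ = _
    rw [nv_span h]
    rfl
  fg := by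
    rintro L _ ⟨x, rfl, h⟩
    exact nv_span h.2

lemma lines (σ : Type) [Finite σ] : Atl (Lines K σ) := by
  refine atl_of ?_ (lineC K) ?_
  · rintro M O O' _ - - ⟨x, h, rfl⟩ -
    exact exists_gen_line (E := sred O _) (by rw [finrank_sred, finrank_span_singleton h])
  · rintro L _ ⟨x, h, rfl⟩
    obtain ⟨s, hs⟩ := Function.ne_iff.1 h
    exact ⟨s, _, inv_mul_cancel₀ hs, span_norm hs⟩

end Lines

section P1

variable {M : Fld K} {O : Pl M}

lemma red_in {t : M} (h : t ∈ O.O) : (Cd.one.amb K).red O (some t) = some (O.rd t) :=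
  Cd.red_some (c := .one) ⟨h, rfl⟩

lemma red_out {t : M} (h : t ∉ O.O) : (Cd.one.amb K).red O (some t) = none := if_neg h

open Classical in
/-- The chart at infinity. -/
noncomputable def infC (K : Type) [Field K] : Chrt (P1 K) where
  U := ⟨fun y => y ≠ some 0, fun κ y => by
    cases y with
    | none => exact ⟨fun _ => nofun, fun _ => nofun⟩
    | some t => exact not_congr (Option.some_inj.trans ((map_eq_zero κ).trans Option.some_inj.symm))⟩
  opn := ⟨fun _ _ _ => trivial, fun M O y _ _ m e => m (by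
    rw [e, red_in (zero_mem _), O.rd_zero])⟩
  c := .one
  S := (ASp.univ K .one).sp
  lc := lc_sp _
  ne := ne_sp _
  f :=
    { f := fun y => some (Option.elim y 0 fun t => t⁻¹)
      mem := fun _ _ => ⟨_, rfl, trivial⟩
      nat := fun κ y _ => by
        cases y with
        | none => exact congrArg some (map_zero κ).symm
        | some t => exact congrArg some (map_inv₀ κ t).symm
      cont := fun O y _ m m' => by
        cases y with
        | none => exact ((red_in (zero_mem _)).trans (congrArg some O.rd_zero)).symm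
        | some t =>
          show _ = (Cd.one.amb K).red O (some t⁻¹)
          by_cases h : t ∈ O.O
          · rw [red_in h] at m' ⊢
            have h0 : O.rd t ≠ 0 := fun e => m' (congrArg some e)
            rw [red_in ((O.rd_ne_zero_iff h).1 h0).2, O.rd_inv h h0]
            rfl
          · have h1 := (O.O.mem_or_inv_mem t).resolve_left h
            have h2 : O.rd t⁻¹ = 0 := by
              by_contra h2
              exact h (inv_inv t ▸ ((O.rd_ne_zero_iff h1).1 h2).2)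
            rw [red_out h, red_in h1, h2]
            rfl }
  g :=
    { f := fun z => Option.bind z fun t => if t = 0 then none else some t⁻¹
      mem := by
        rintro L _ ⟨t, rfl, -⟩
        show (if t = 0 then none else some t⁻¹) ≠ some 0
        split_ifs with h
        exacts [nofun, fun e => h (inv_eq_zero.1 (Option.some.inj e))]
      nat := by
        rintro L L' κ _ ⟨t, rfl, -⟩
        show (if κ t = 0 then none else some (κ t)⁻¹) =
          Option.map κ (if t = 0 then none else some t⁻¹)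
        by_cases h : t = 0
        · rw [if_pos h, if_pos ((map_eq_zero κ).2 h)]; rfl
        · rw [if_neg h, if_neg (mt (map_eq_zero κ).1 h), ← map_inv₀]; rfl
      cont := by
        rintro M O _ - ⟨t, rfl, -⟩ ⟨t', e, -⟩
        obtain ⟨h, rfl⟩ := Cd.lift_of_red e
        rw [e]
        show (if O.rd t = 0 then none else some (O.rd t)⁻¹) =
          (Cd.one.amb K).red O (if t = 0 then none else some t⁻¹)
        by_cases h0 : O.rd t = 0
        · rw [if_pos h0]
          split_ifs with h1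
          · rfl
          · exact (red_out fun h2 => (O.rd_ne_zero_iff h).2 ⟨h1, h2⟩ h0).symm
        · obtain ⟨h1, h2⟩ := (O.rd_ne_zero_iff h).1 h0
          rw [if_neg h0, if_neg h1, red_in h2, O.rd_inv h h0] }
  gf L y m := by
    cases y with
    | none => exact if_pos rfl
    | some t =>
      have h : t⁻¹ ≠ 0 := inv_ne_zero fun e => m (congrArg some e)
      exact (if_neg h).trans (congrArg some (inv_inv t))
  fg := by
    rintro L _ ⟨t, rfl, -⟩
    show some (Option.elim (if t = 0 then none else some t⁻¹) 0 fun t => t⁻¹) = some t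
    split_ifs with h
    · exact congrArg some h.symm
    · exact congrArg some (inv_inv t)

lemma opn_fin : Opn (ASp.univ K .one).sp (P1 K) := by
  refine ⟨fun _ _ _ => trivial, fun M O y _ _ ⟨x, e, _⟩ => ?_⟩
  obtain ⟨t, rfl⟩ := red_ne e
  exact ⟨t, rfl, trivial⟩

lemma atl_p1 : Atl (P1 K) := by
  refine atl_of (fun _ _ _ _ _ _ _ _ => trivial)
    (fun b : Bool => b.rec (infC K) (affC _ _ opn_fin)) fun L y _ => ?_
  cases y with
  | none => exact ⟨false, nofun⟩
  | some t => exact ⟨true, t, rfl, trivial⟩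

end P1

section Ord

variable {M : Fld K} {O : Pl M} {σ : Type} {x : σ → M}

lemma ordv_eq {s : σ} (d : O.IsDVR) (h : x s ≠ 0) (i : IntV O ((x s)⁻¹ • x)) :
    ordv O x = O.ord (x s) := by
  have e : ∃ s, x s ≠ 0 ∧ IntV O ((x s)⁻¹ • x) := ⟨s, h, i⟩
  rw [ordv, dif_pos e]
  obtain ⟨h', i'⟩ := e.choose_spec
  have h1 := (Pl.ord_nonneg_iff d).2 (i e.choose)
  have h2 := (Pl.ord_nonneg_iff d).2 (i' s)
  rw [Pi.smul_apply, smul_eq_mul] at h1 h2
  rw [Pl.ord_mul d (inv_ne_zero h) h', Pl.ord_inv d] at h1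
  rw [Pl.ord_mul d (inv_ne_zero h') h, Pl.ord_inv d] at h2
  omega

lemma ordv_smul [Finite σ] {a : M} (d : O.IsDVR) (h : x ≠ 0) (ha : a ≠ 0) :
    ordv O (a • x) = O.ord a + ordv O x := by
  obtain ⟨s, hs, i⟩ := exists_scale O h
  have e : ((a • x) s)⁻¹ • a • x = (x s)⁻¹ • x := by
    rw [smul_smul, Pi.smul_apply, smul_eq_mul, mul_inv, mul_comm a⁻¹, mul_assoc,
      inv_mul_cancel₀ ha, mul_one]
  rw [ordv_eq d hs i, ordv_eq (s := s) d (mul_ne_zero ha hs) (e ▸ i)]
  exact Pl.ord_mul d ha hs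

lemma ordv_prim (d : O.IsDVR) (i : IntV O x) (h : rdV O x ≠ 0) : ordv O x = 0 := by
  obtain ⟨s, hs⟩ := Function.ne_iff.1 h
  obtain ⟨h1, h2⟩ := (O.rd_ne_zero_iff (i s)).1 hs
  rw [ordv_eq d h1 (IntV.smul h2 i), Pl.ord_eq_zero_of_mem h1 (i s) h2]

lemma exists_prim (O : Pl M) [Finite σ] (h : x ≠ 0) :
    ∃ a : M, a ≠ 0 ∧ IntV O (a • x) ∧ rdV O (a • x) ≠ 0 := by
  obtain ⟨s, hs, i⟩ := exists_scale O h
  refine ⟨_, inv_ne_zero hs, i, fun e => ?_⟩
  have : O.rd ((x s)⁻¹ * x s) = 0 := congrFun e s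
  rw [inv_mul_cancel₀ hs, O.rd_one] at this
  exact one_ne_zero this

end Ord

end FB3p

theorem FB3_thm : FB3 K where
  aff := FB3p.aff
  prod := FB3p.prod
  sub := FB3p.sub
  lines := FB3p.lines
  p1 := FB3p.atl_p1
  ordv_eq := FB3p.ordv_eq
  ordv_smul := FB3p.ordv_smul
  ordv_prim := FB3p.ordv_prim
  exists_prim O _ _ _ := FB3p.exists_prim O
  red_line := sred_single

end Pool.Agent.Lib.MP_557161_ag.HG
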