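import Pool.Agent.Lib.MP_557161_ag.HG.St1

/-!
Intersection with a Cartier divisor.
-/

namespace Pool.Agent.Lib.MP_557161_ag.HG

open Pool.Agent.Lib.MP_557161_ag.DL
open CKL (isDiv_comap)

variable {K : Type} [Field K] {A : Amb K} {P D : Sp A} {j : ℕ} {L M M' : Fld K}

namespace FB4a

section Sums

variable {α β : Type} {g g' : α → ℂ} {c c' : ℂ}

lemma hs_zero : HasS (fun _ : α => (0 : ℂ)) 0 := by simp [HasS]

lemma hs_add (h : HasS g c) (h' : HasS g' c') : HasS (fun a => g a + g' a) (c + c') :=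
  ⟨(h.1.union h'.1).subset (Function.support_add _ _), by
    rw [finsum_add_distrib h.1 h'.1, h.2, h'.2]⟩

lemma hs_mul (b : ℂ) (h : HasS g c) : HasS (fun a => b * g a) (b * c) :=
  ⟨h.1.subset (Function.support_mul_subset_right _ _), by rw [← mul_finsum, h.2]⟩

lemma hs_sum (s : Finset β) {g : β → α → ℂ} {c : β → ℂ} (h : ∀ b ∈ s, HasS (g b) (c b)) :
    HasS (fun a => ∑ b ∈ s, g b a) (∑ b ∈ s, c b) := by
  classical
  induction s using Finset.induction_on with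
  | empty => simpa using hs_zero
  | insert b s hb ih =>
    simp only [Finset.sum_insert hb]
    exact hs_add (h b (by simp)) (ih fun i hi => h i (by simp [hi]))

lemma hs_congr (h : HasS g c) (e : ∀ a, g' a = g a) (e' : c' = c) : HasS g' c' := by
  rw [funext e, e']
  exact h

end Sums

lemma ord_unit {O : Pl M} {t : M} (h : t ∈ O.O) (h0 : O.rd t ≠ 0) : O.ord t = 0 :=
  Pl.ord_eq_zero_of_mem ((O.rd_ne_zero_iff h).1 h0).1 h ((O.rd_ne_zero_iff h).1 h0).2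

lemma ord_one (O : Pl M) : O.ord 1 = 0 := ord_unit (one_mem _) (by simp)

lemma tame_mem {O : Pl M} (h : O.IsDVR) {f g : M} (hf : f ≠ 0) (hg : g ≠ 0) :
    f ^ O.ord g / g ^ O.ord f ∈ O.O ∧ tame O f g ≠ 0 := by
  have h0 : f ^ O.ord g / g ^ O.ord f ≠ 0 := div_ne_zero (zpow_ne_zero _ hf) (zpow_ne_zero _ hg)
  have h1 : O.ord (f ^ O.ord g / g ^ O.ord f) = 0 := by
    rw [div_eq_mul_inv, Pl.ord_mul h (zpow_ne_zero _ hf) (inv_ne_zero (zpow_ne_zero _ hg)),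
      Pl.ord_inv h, Pl.ValB.ord_zpow h hf, Pl.ValB.ord_zpow h hg]
    ring
  have h2 := (Pl.ord_nonneg_iff h).1 h1.ge
  refine ⟨h2, (O.rd_ne_zero_iff h2).2 ⟨h0, (Pl.ord_nonneg_iff h).1 ?_⟩⟩
  rw [Pl.ord_inv h, h1, neg_zero]

lemma tame_unit {O : Pl M} (h : O.IsDVR) {f g t : M} (hf : f ≠ 0) (hg : g ≠ 0) (ht : t ∈ O.O)
    (h0 : O.rd t ≠ 0) : tame O f (t * g) = tame O f g * O.rd t ^ (-O.ord f) := by
  have h1 := Rel.zpow (R := Rel.ofPl O) ⟨ht, rfl⟩ h0 (-O.ord f)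
  rw [tame, tame, Pl.ord_mul h ((O.rd_ne_zero_iff ht).1 h0).1 hg, ord_unit ht h0, zero_add, ← h1.2,
    ← O.rd_mul (tame_mem h hf hg).1 h1.1, mul_zpow, zpow_neg, mul_comm (t ^ _), ← div_div,
    div_eq_mul_inv _ (t ^ _)]

lemma tame_one (O : Pl M) (f : M) : tame O f 1 = 1 := by simp [tame, ord_one]

/-- The sum over the places above a given place. -/
lemma fib [Base K] {Q : Sp A} (θ : Pre j Q) {ι : M →ₐ[K] M'} (b1 : Fin' ι) (hM : Good (j + 1) M)
    (y : A.pt M) (O : Dv M j) {f : M'} (hf : f ≠ 0) (F : Dv M' j → ℂ)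
    (hF : ∀ O' : Dv M' j, Pl.Over ι O.1 O'.1 →
      F O' = (O'.1.ord f : ℂ) * θ.v O'.1.res (A.red O'.1 (A.map ι y))) :
    ∑ᶠ O' ∈ {O' : Dv M' j | (⟨Pl.comap ι O'.1, isDiv_comap b1 O'.2⟩ : Dv M j) = O}, F O' =
      (O.1.ord (nrm ι f) : ℂ) * θ.v O.1.res (A.red O.1 y) := by
  have d1 : Function.Injective fun O' : {O' : Pl M' // Pl.Over ι O.1 O'} =>
      (⟨O'.1, O'.2.isDiv b1 hM O.2⟩ : Dv M' j) :=
    fun _ _ e => Subtype.ext (congrArg Subtype.val e :)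
  have d2 := Pl.sum_ord_nrm b1 hM O.2 hf
  have : Finite {O' : Pl M' // Pl.Over ι O.1 O'} := Pl.finite_over b1 hM O.2
  have := Fintype.ofFinite {O' : Pl M' // Pl.Over ι O.1 O'}
  rw [finsum_eq_sum_of_fintype] at d2
  refine (finsum_mem_congr (t := Set.range _) ?_ fun _ _ => rfl).trans
    ((finsum_mem_range d1).trans ?_)
  · ext O'
    exact ⟨fun e => ⟨⟨O'.1, e ▸ Pl.over_comap ι O'.1⟩, rfl⟩,
      by rintro ⟨O'', rfl⟩; exact Subtype.ext O''.2.eq_comap.symm⟩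
  · rw [finsum_eq_sum_of_fintype, ← d2, Int.cast_sum, Finset.sum_mul]
    refine Finset.sum_congr rfl fun O' _ => ?_
    rw [hF _ O'.2, A.red_map O'.2, θ.ext _ _ (O.2.good hM)
      ((O'.2.isDiv b1 hM O.2).good (hM.of_fin b1)), Int.cast_mul, Int.cast_natCast, mul_assoc]

variable (C : Car P D)

lemma sec_in {z : A.pt L} (hz : D.mem z) {i₀ : C.ι} (h : (C.U i₀).mem z) (α : L →ₐ[K] M) :
    C.Sec (A.map α z) fun i => α (C.t i i₀ L z) where
  ne i hi := (map_ne_zero α).2 (C.t_ne _ _ _ _ (((C.U i).map_iff _ _).1 hi) h)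
  tr i k hi hk := by
    rw [(C.U _).map_iff] at hi hk
    rw [(C.rt i k).nat α z ⟨hi, hk⟩, ← map_mul, C.coc _ _ _ _ _ hi hk h]
  can e := absurd ((D.map_iff _ _).2 hz) e

lemma sec_out {z : A.pt L} (hz : ¬ D.mem z) (α : L →ₐ[K] M) :
    C.Sec (A.map α z) fun i => α (C.s i L z) where
  ne i hi := (map_ne_zero α).2 fun e => hz ((C.zero _ _ _ (((C.U i).map_iff _ _).1 hi)).1 e)
  tr i k hi hk := by
    rw [(C.U _).map_iff] at hi hk
    rw [(C.rt i k).nat α z ⟨hi, hk⟩, ← map_mul, C.s_eq _ _ _ _ hi hk]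
  can _ i hi := ((C.rs i).nat α z (((C.U i).map_iff _ _).1 hi)).symm

lemma sec (y : A.pt L) (hy : P.mem y) :
    ∃ σ : C.ι → L, ∀ (M : Fld K) (α : L →ₐ[K] M), C.Sec (A.map α y) fun i => α (σ i) := by
  by_cases h : D.mem y
  · obtain ⟨i, hi⟩ := C.cov L y hy
    exact ⟨_, fun M α => sec_in C h hi α⟩
  · exact ⟨_, fun M α => sec_out C h α⟩

lemma sec_id {y : A.pt L} {σ : C.ι → L}
    (h : C.Sec (A.map (AlgHom.id K L) y) fun i => AlgHom.id K L (σ i)) : C.Sec y σ := by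
  rwa [A.map_id] at h

lemma t_unit {O : Pl M} {y : A.pt M} (h : O.IsDVR) (hy : P.mem y) {i k : C.ι}
    (hi : (C.U i).mem (A.red O y)) (hk : (C.U k).mem (A.red O y)) :
    C.t i k M y ∈ O.O ∧ O.rd (C.t i k M y) = C.t i k O.res (A.red O y) :=
  (C.rt i k).cont O y h ⟨(C.opn i).gz _ O y h hy hi, (C.opn k).gz _ O y h hy hk⟩ ⟨hi, hk⟩

lemma ord_eq {O : Pl M} {y : A.pt M} {σ : C.ι → M} {i : C.ι} (h : O.IsDVR) (hy : P.mem y)
    (hσ : C.Sec y σ) (hi : (C.U i).mem (A.red O y)) : C.ord O y σ = O.ord (σ i) := by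
  have e : ∃ i, (C.U i).mem (A.red O y) := ⟨i, hi⟩
  have hk := e.choose_spec
  have h1 := (C.opn _).gz _ O y h hy hi
  have h2 := (C.opn _).gz _ O y h hy hk
  obtain ⟨h3, h4⟩ := t_unit C h hy hi hk
  rw [Car.ord, dif_pos e, hσ.tr i _ h1 h2, Pl.ord_mul h (C.t_ne _ _ _ _ h1 h2) (hσ.ne _ h2),
    ord_unit h3 (h4 ▸ C.t_ne _ _ _ _ hi hk), zero_add]

noncomputable instance : Fintype C.ι := @Fintype.ofFinite _ C.fin

/-- The points whose first chart is `i`. -/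
def Fst (i : C.ι) : Sp A where
  mem y := (C.U i).mem y ∧ ∀ k, (C.U k).mem y → Fintype.equivFin _ i ≤ Fintype.equivFin _ k
  map_iff ι y := by simp only [Sp.map_iff]

open Classical in
/-- The part of a functional in the first chart `i`. -/
noncomputable def cut (φ : Pre j D) (i : C.ι) : Pre j P where
  v L y := if (Fst C i).mem y then φ.v L y else 0
  supp L y h := by
    split_ifs at h with hy
    · exact ⟨(φ.supp L _ h).1, C.sub _ _ (φ.supp L _ h).2⟩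
    · exact absurd rfl h
  ext ι y h h' := by
    simp only [Sp.map_iff]
    split_ifs
    · exact φ.ext ι y h h'
    · exact (mul_zero _).symm
  low ι y h := by
    split_ifs
    · exact φ.low ι y h
    · rfl

lemma sum_cut (φ : Pre j D) (z : A.pt L) {g : C.ι → ℂ} {c : ℂ} (h : ∀ i, (C.U i).mem z → g i = c) :
    ∑ i, g i * (cut C φ i).v L z = c * φ.v L z := by
  classical
  by_cases h0 : φ.v L z = 0
  · simp [cut, h0]
  obtain ⟨k, hk⟩ := C.cov L z (C.sub _ _ (φ.supp _ _ h0).2)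
  obtain ⟨i, hi, hm⟩ := Finset.exists_min_image (Finset.univ.filter fun k => (C.U k).mem z)
    (Fintype.equivFin _) ⟨k, by simpa using hk⟩
  have hi' : (Fst C i).mem z := ⟨by simpa using hi, fun k hk => hm k (by simpa using hk)⟩
  rw [Finset.sum_eq_single i (fun k _ e => ?_) (by simp), h i hi'.1]
  · exact congrArg _ (if_pos hi')
  · refine mul_eq_zero_of_right _ (if_neg fun hk' => e ?_)
    exact (Fintype.equivFin _).injective (le_antisymm (hk'.2 i hi'.1) (hi'.2 k hk'.1))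

open Classical in
/-- A section, extended by `1`. -/
noncomputable def ex1 (y : A.pt M) (σ : C.ι → M) (i : C.ι) : M := if (C.U i).mem y then σ i else 1

lemma ex1_ne {y : A.pt M} {σ : C.ι → M} (hσ : C.Sec y σ) (i : C.ι) : ex1 C y σ i ≠ 0 := by
  unfold ex1
  split_ifs with h
  exacts [hσ.ne i h, one_ne_zero]

/-- The terms of the intersection product. -/
noncomputable abbrev tm (φ : Pre j D) (y : A.pt M) (σ : C.ι → M) (O : Dv M j) : ℂ :=
  (C.ord O.1 y σ : ℂ) * φ.v O.1.res (A.red O.1 y)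

lemma fin [FB2 K] (hP : Atl P) (φ : Pre j D) {y : A.pt M} {σ : C.ι → M} (hM : Good (j + 1) M)
    (hy : P.mem y) (hσ : C.Sec y σ) : (Function.support (tm C φ y σ)).Finite :=
  (hs_congr (g' := tm C φ y σ) (hs_sum Finset.univ fun i _ =>
    ⟨FB2.fins hP j (cut C φ i) M y _ hM hy (ex1_ne C hσ i), rfl⟩) (fun O =>
      (sum_cut C φ _ fun i hi => by
        rw [ord_eq C O.2.1 hy hσ hi, ex1, if_pos ((C.opn i).gz _ _ y O.2.1 hy hi)]).symm) rfl).1

lemma tm_eq (φ : Pre j D) {y : A.pt M} {σ : C.ι → M} (O : Dv M j) (hy : P.mem y) (hσ : C.Sec y σ)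
    {n : ℂ} (h : ∀ i, (C.U i).mem (A.red O.1 y) → (O.1.ord (σ i) : ℂ) = n) :
    tm C φ y σ O = n * φ.v O.1.res (A.red O.1 y) := by
  by_cases h0 : φ.v O.1.res (A.red O.1 y) = 0
  · rw [tm, h0, mul_zero, mul_zero]
  · obtain ⟨i, hi⟩ := C.cov _ _ (C.sub _ _ (φ.supp _ _ h0).2)
    rw [tm, ord_eq C O.2.1 hy hσ hi, h i hi]

lemma indep (φ : Fe j D) {y : A.pt M} {σ σ' : C.ι → M} (hM : Good (j + 1) M) (hy : P.mem y)
    (hσ : C.Sec y σ) (hσ' : C.Sec y σ') {c : ℂ} (h : HasS (tm C φ.toPre y σ) c) :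
    HasS (tm C φ.toPre y σ') c := by
  by_cases hD : D.mem y
  · obtain ⟨k, hk⟩ := C.cov _ _ hy
    have h0 := div_ne_zero (hσ'.ne k hk) (hσ.ne k hk)
    refine hs_congr (hs_add (φ.rat M y _ hM hD h0) h) (fun O => ?_) (zero_add _).symm
    rw [tm, ← add_mul]
    refine tm_eq C _ O hy hσ' fun i hi => ?_
    have h1 := (C.opn i).gz _ _ y O.2.1 hy hi
    rw [ord_eq C O.2.1 hy hσ hi, ← Int.cast_add, ← Pl.ord_mul O.2.1 h0 (hσ.ne i h1),
      hσ.tr i k h1 hk, hσ'.tr i k h1 hk, mul_left_comm, div_mul_cancel₀ _ (hσ.ne k hk)]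
  · refine hs_congr h (fun O => tm_eq C _ O hy hσ' fun i hi => ?_) rfl
    have h1 := (C.opn i).gz _ _ y O.2.1 hy hi
    rw [ord_eq C O.2.1 hy hσ hi, hσ.can hD i h1, hσ'.can hD i h1]

open Classical in
/-- The value of the intersection product. -/
noncomputable def val (φ : Pre j D) (M : Fld K) (y : A.pt M) : ℂ :=
  if h : Good (j + 1) M ∧ P.mem y then ∑ᶠ O, tm C φ y (sec C y h.2).choose O else 0

lemma val_eq [FB2 K] (hP : Atl P) (φ : Fe j D) {y : A.pt M} {σ : C.ι → M} (hM : Good (j + 1) M)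
    (hy : P.mem y) (hσ : C.Sec y σ) : HasS (tm C φ.toPre y σ) (val C φ.toPre M y) := by
  have h := sec_id C ((sec C y hy).choose_spec M (AlgHom.id K M))
  exact indep C φ hM hy h hσ ⟨fin C hP _ hM hy h, by rw [val, dif_pos ⟨hM, hy⟩]⟩

variable [Base K] [FB2 K]

/-- The intersection product. -/
noncomputable def pre (hP : Atl P) (φ : Fe j D) : Pre (j + 1) P where
  v := val C φ.toPre
  supp L y h := by_contra fun e => h (dif_neg e)
  ext {L L'} ι y h h' := by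
    by_cases hy : P.mem y
    swap
    · rw [val, val, dif_neg fun e => hy ((P.map_iff _ _).1 e.2), dif_neg fun e => hy e.2, mul_zero]
    obtain ⟨σ, hσ⟩ := sec C y hy
    have h0 := sec_id C (hσ L (AlgHom.id K L))
    have b1 := h'.fin ι h.2
    have hy' := (P.map_iff ι y).2 hy
    have h1 := val_eq C hP φ h' hy' (hσ L' ι)
    refine h1.2.symm.trans ((fib_sum (β := Dv L j)
      (fun O' : Dv L' j => ⟨Pl.comap ι O'.1, isDiv_comap b1 O'.2⟩) h1.1 fun O => ?_).2.symm.trans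
      (hs_mul (deg ι) (val_eq C hP φ h hy h0)).2)
    by_cases hz : P.mem (A.red O.1 y)
    · obtain ⟨i, hi⟩ := C.cov _ _ hz
      have h2 := (C.opn i).gz _ _ y O.2.1 hy hi
      rw [fib φ.toPre b1 h y O ((map_ne_zero ι).2 (h0.ne i h2)) _ fun O' e => ?_, nrm_map,
        Pl.ord_pow O.2.1, tm, ord_eq C O.2.1 hy h0 hi, Int.cast_mul, Int.cast_natCast, mul_assoc]
      rw [tm, ord_eq C O'.2.1 hy' (hσ L' ι) (i := i)]
      rwa [A.red_map e, Sp.map_iff]
    · have h2 : φ.v O.1.res (A.red O.1 y) = 0 :=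
        by_contra fun e => hz (C.sub _ _ (φ.supp _ _ e).2)
      rw [fib φ.toPre b1 h y O one_ne_zero _ fun O' e => ?_, tm, h2, mul_zero, mul_zero, mul_zero]
      have h3 : φ.v O'.1.res (A.red O'.1 (A.map ι y)) = 0 := by_contra fun e' => hz (by
        have := C.sub _ _ (φ.supp _ _ e').2
        rwa [A.red_map e, Sp.map_iff] at this)
      rw [tm, h3, mul_zero, mul_zero]
  low {L L'} ι y h := by
    by_contra e
    have h1 : Good (j + 1) L' ∧ P.mem (A.map ι y) := by_contra fun e' => e (dif_neg e')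
    obtain ⟨σ, hσ⟩ := sec C y ((P.map_iff ι y).1 h1.2)
    refine e ((val_eq C hP φ h1.1 h1.2 (hσ L' ι)).2.symm.trans
      (finsum_eq_zero_of_forall_eq_zero fun O => ?_))
    by_cases ht : Pl.Triv ι O.1
    · refine (tm_eq C _ O h1.2 (hσ L' ι) fun i _ => ?_).trans (zero_mul _)
      rw [Pl.ord_eq_zero_of_mem' O.2.1 (ht _) (map_inv₀ ι _ ▸ ht _), Int.cast_zero]
    · rw [Nat.cast_succ, ← Cardinal.succ_natCast, Order.lt_succ_iff] at h
      rw [tm, A.red_map (Pl.over_comap ι O.1), φ.low _ _ (Pl.tr_res_lt _ (fun e => ht fun x =>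
        (Pl.over_comap ι O.1 x).1 (e ▸ ValuationSubring.mem_top _)) h), mul_zero]

lemma inner (hP : Atl P) (φ : Fe j D) {y : A.pt M} {σ : C.ι → M} {f : M} (hM : Good (j + 2) M)
    (hy : P.mem y) (hσ : C.Sec y σ) (hf : f ≠ 0) (O : Dv M (j + 1)) :
    ∑ i, ∑ᶠ O' : Dv O.1.res j, (O'.1.ord (tame O.1 f (ex1 C y σ i)) : ℂ) *
      (cut C φ.toPre i).v O'.1.res (A.red O'.1 (A.red O.1 y)) =
      -O.1.ord f * val C φ.toPre O.1.res (A.red O.1 y) := by
  have hO := O.2.1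
  have hG := O.2.good hM
  by_cases hz : P.mem (A.red O.1 y)
  swap
  · rw [val, dif_neg fun e => hz e.2, mul_zero]
    refine Finset.sum_eq_zero fun i _ => finsum_eq_zero_of_forall_eq_zero fun O' => ?_
    exact mul_eq_zero_of_right _ (by_contra fun e =>
      hz (hP.1 _ _ _ y hO O'.2.1 hy ((cut C φ.toPre i).supp _ _ e).2))
  obtain ⟨a, τ, a0, hτ, h1, h2⟩ : ∃ (a : O.1.res) (τ : C.ι → O.1.res), a ≠ 0 ∧
      C.Sec (A.red O.1 y) τ ∧ φ.toPre.Rat _ (A.red O.1 y) a ∧ ∀ i, (C.U i).mem (A.red O.1 y) →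
        tame O.1 f (σ i) = a * τ i ^ (-O.1.ord f) := by
    obtain ⟨k, hk⟩ := C.cov _ _ hz
    have hk' := (C.opn k).gz _ _ y hO hy hk
    by_cases hD : D.mem (A.red O.1 y)
    · have a0 := (tame_mem hO hf (hσ.ne k hk')).2
      refine ⟨_, _, a0, sec_id C (sec_in C hD hk _), φ.rat _ _ _ hG hD a0, fun i hi => ?_⟩
      obtain ⟨h3, h4⟩ := t_unit C hO hy hi hk
      rw [hσ.tr i k ((C.opn i).gz _ _ y hO hy hi) hk',
        tame_unit hO hf (hσ.ne k hk') h3 (h4 ▸ C.t_ne _ _ _ _ hi hk), h4]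
    · have hD' : ¬ D.mem y := fun e => hD ((C.zero _ _ _ hk).1 (by
        rw [← ((C.rs k).cont O.1 y hO hk' hk).2, (C.zero _ _ _ hk').2 e, Pl.rd_zero]))
      refine ⟨1, _, one_ne_zero, sec_id C (sec_out C hD _), hs_congr hs_zero (fun O' => ?_) rfl,
        fun i hi => ?_⟩
      · rw [ord_one, Int.cast_zero, zero_mul]
      · have hi' := (C.opn i).gz _ _ y hO hy hi
        obtain ⟨h3, h4⟩ := (C.rs i).cont O.1 y hO hi' hi
        rw [hσ.can hD' i hi', ← mul_one (C.s i M y), tame_unit hO hf one_ne_zero h3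
          (h4 ▸ fun e => hD ((C.zero _ _ _ hi).1 e)), tame_one, h4]
  refine (hs_sum Finset.univ fun i _ => ⟨FB2.fins hP j (cut C φ.toPre i) _ _ _ hG hz
    (tame_mem hO hf (ex1_ne C hσ i)).2, rfl⟩).2.symm.trans (hs_congr (hs_add h1
      (hs_mul (-O.1.ord f) (val_eq C hP φ hG hz hτ))) (fun O' => ?_) (zero_add _).symm).2
  rw [tm, ← mul_assoc, ← add_mul]
  refine sum_cut C _ _ fun i hi => ?_
  have h3 := (C.opn i).gz _ _ _ O'.2.1 hz hi
  rw [ex1, if_pos ((C.opn i).gz _ _ y hO hy h3), h2 i h3, ord_eq C O'.2.1 hz hτ hi,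
    Pl.ord_mul O'.2.1 a0 (zpow_ne_zero _ (hτ.ne i h3)), Pl.ValB.ord_zpow O'.2.1 (hτ.ne i h3)]
  push_cast
  rfl

/-- The intersection product respects rational equivalence. -/
noncomputable def fe (hP : Atl P) (φ : Fe j D) : Fe (j + 1) P where
  toPre := pre C hP φ
  rat := FB2.rat hP (pre C hP φ) fun M y f hM hy hg hf => by
    obtain ⟨σ, hσ⟩ := sec C y hy
    have h0 := sec_id C (hσ M (AlgHom.id K M))
    refine hs_congr (hs_mul (-1) (hs_sum Finset.univ fun i _ => FB2.key hP j (cut C φ.toPre i) M y f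
      _ hM hy hg hf (ex1_ne C h0 i))) (fun O => ?_) (by simp)
    rw [inner C hP φ hM hy h0 hf O, neg_mul, neg_mul, one_mul, neg_neg]
    rfl

end FB4a

theorem FB4_thm [Base K] [FB2 K] : FB4 K where
  sec C _ y hy := FB4a.sec C y hy
  ord_eq C _ _ _ _ _ h hy hσ hi := FB4a.ord_eq C h hy hσ hi
  cart hP C _ φ := ⟨FB4a.fe C hP φ, fun _ _ _ hM hy hσ => FB4a.val_eq C hP φ hM hy hσ⟩

end Pool.Agent.Lib.MP_557161_ag.HG
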