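import Pool.Agent.Lib.MP_557161_ag.HG.St1

/-!
Intersection with a divisor given by tautological bundles; connected families.
-/

namespace Pool.Agent.Lib.MP_557161_ag.HG

open Pool.Agent.Lib.MP_557161_ag.DL Submodule

variable {K : Type} [Field K]

namespace FB5a

section Nv

variable {L L' : Type} [Field L] [Field L'] {σ : Type}

open Classical in
/-- The generator of a line whose coordinate `s` is one. -/
noncomputable def nv (E : Submodule L (σ → L)) (s : σ) : σ → L :=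
  if h : ∃ x : σ → L, x s = 1 ∧ E = span L {x} then h.choose else 0

lemma mem_gen {E : Submodule L (σ → L)} {x : σ → L} (e : E = span L {x}) : x ∈ E :=
  e.ge (mem_span_singleton_self x)

lemma span_nrm {x : σ → L} {s : σ} (h : x s ≠ 0) : span L {(x s)⁻¹ • x} = span L {x} :=
  span_singleton_smul_eq (IsUnit.mk0 _ (inv_ne_zero h)) x

lemma nv_eq {E : Submodule L (σ → L)} {x : σ → L} {s : σ} (e : E = span L {x}) (h : x s ≠ 0) :
    nv E s = (x s)⁻¹ • x := by
  have h1 : ∃ z : σ → L, z s = 1 ∧ E = span L {z} :=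
    ⟨(x s)⁻¹ • x, by simp [h], e.trans (span_nrm h).symm⟩
  obtain ⟨h2, h3⟩ := h1.choose_spec
  rw [nv, dif_pos h1]
  obtain ⟨c, hc⟩ := mem_span_singleton.1 (e.le (mem_gen h3))
  have h4 : c * x s = 1 := (congrFun hc s).trans h2
  rw [← hc, eq_inv_of_mul_eq_one_left h4]

lemma coord_ne {E : Submodule L (σ → L)} {x z : σ → L} {s : σ} (e : E = span L {x}) (hz : z ∈ E)
    (h : z s ≠ 0) : x s ≠ 0 := by
  obtain ⟨c, rfl⟩ := mem_span_singleton.1 (e.le hz)
  exact right_ne_zero_of_mul h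

lemma span_of_mem {E : Submodule L (σ → L)} {x z : σ → L} {s : σ} (e : E = span L {x})
    (hz : z ∈ E) (h : z s ≠ 0) : E = span L {z} := by
  obtain ⟨c, rfl⟩ := mem_span_singleton.1 (e.le hz)
  exact e.trans (span_singleton_smul_eq (IsUnit.mk0 _ (left_ne_zero_of_mul h)) x).symm

end Nv

variable {A : Amb K} {P D : Sp A} (C : LB P D) {L L' M : Fld K}

/-- The chart on which the chosen coordinates of the lines do not vanish. -/
def U (s : ∀ a, C.σ a) : Sp A where
  mem y := P.mem y ∧ ∀ a, ∃ x, x (s a) ≠ 0 ∧ (C.l a).f y = span _ {x}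
  map_iff {L L'} ι y := by
    rw [P.map_iff]
    refine and_congr_right fun hy => forall_congr' fun a => ?_
    rw [(C.l a).nat ι y hy]
    constructor
    · rintro ⟨x, h, e⟩
      obtain ⟨z, -, hz⟩ := (C.l a).mem y hy
      have e' : smap ι.toRingHom ((C.l a).f y) = span L' {mapV ι.toRingHom z} := by
        rw [hz, smap_single]
      have h1 := coord_ne e' (mem_gen e) h
      exact ⟨z, fun h0 => h1 (by simp [mapV, h0]), hz⟩
    · rintro ⟨x, h, e⟩
      exact ⟨mapV ι.toRingHom x, (map_ne_zero ι).2 h, by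
        show smap ι.toRingHom _ = _
        rw [e, smap_single]⟩

/-- The normalised generators. -/
noncomputable def n (s : ∀ a, C.σ a) (L : Fld K) (y : A.pt L) (a : C.ι) : C.σ a → L :=
  nv ((C.l a).f y) (s a)

variable {C} {s k : ∀ a, C.σ a}

lemma n_eq {y : A.pt L} (h : (U C s).mem y) {a : C.ι} {x : C.σ a → L}
    (e : (C.l a).f y = span L {x}) : x (s a) ≠ 0 ∧ n C s L y a = (x (s a))⁻¹ • x := by
  obtain ⟨z, h1, h2⟩ := h.2 a
  have h3 := coord_ne e (mem_gen h2) h1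
  exact ⟨h3, nv_eq e h3⟩

lemma n_spec {y : A.pt L} (h : (U C s).mem y) (a : C.ι) :
    n C s L y a (s a) = 1 ∧ (C.l a).f y = span L {n C s L y a} := by
  obtain ⟨z, h1, h2⟩ := h.2 a
  rw [(n_eq h h2).2]
  exact ⟨by simp [h1], h2.trans (span_nrm h1).symm⟩

lemma n_gen {y : A.pt L} (h : (U C s).mem y) (a : C.ι) :
    n C s L y a ≠ 0 ∧ (C.l a).f y = span L {n C s L y a} :=
  ⟨fun e => one_ne_zero ((n_spec h a).1.symm.trans (congrFun e _)), (n_spec h a).2⟩

lemma n_tr {y : A.pt L} (h : (U C s).mem y) (h' : (U C k).mem y) (a : C.ι) :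
    n C s L y a (k a) ≠ 0 ∧ n C s L y a = n C s L y a (k a) • n C k L y a := by
  obtain ⟨h1, h2⟩ := n_eq h' (n_spec h a).2
  exact ⟨h1, by rw [h2, smul_inv_smul₀ h1]⟩

lemma n_nat (ι : L →ₐ[K] L') {y : A.pt L} (h : (U C s).mem y) (a : C.ι) :
    n C s L' (A.map ι y) a = mapV ι (n C s L y a) := by
  obtain ⟨h1, h2⟩ := n_spec h a
  have e : (C.l a).f (A.map ι y) = span L' {mapV ι.toRingHom (n C s L y a)} := by
    rw [(C.l a).nat ι y h.1, ← smap_single, ← h2]; rfl
  rw [(n_eq (((U C s).map_iff ι y).2 h) e).2]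
  simp [mapV, h1]

lemma n_red {O : Pl M} (hO : O.IsDVR) {y : A.pt M} (hy : P.mem y) (h : (U C s).mem (A.red O y))
    (a : C.ι) : ∃ x, x (s a) = 1 ∧ (C.l a).f y = span M {x} ∧ IntV O x ∧
      rdV O x = n C s O.res (A.red O y) a := by
  obtain ⟨h1, h2⟩ := n_spec h a
  have h3 : n C s O.res (A.red O y) a ∈ sred O ((C.l a).f y) := by
    rw [(C.l a).cont O y hO hy h.1] at h2
    exact mem_gen h2
  obtain ⟨x, hx, ix, e⟩ := h3
  obtain ⟨z, -, hz⟩ := (C.l a).mem y hy
  have h4 : O.rd (x (s a)) = 1 := (congrFun e _).trans h1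
  have h5 := (O.rd_ne_zero_iff (ix (s a))).1 (h4 ▸ one_ne_zero)
  refine ⟨(x (s a))⁻¹ • x, by simp [h5.1], (span_of_mem hz hx h5.1).trans (span_nrm h5.1).symm,
    IntV.smul h5.2 ix, ?_⟩
  rw [rdV_smul h5.2 ix, O.rd_inv (ix _) (h4 ▸ one_ne_zero), h4, inv_one, one_smul, e]

lemma gz {O : Pl M} (hO : O.IsDVR) {y : A.pt M} (hy : P.mem y) (h : (U C s).mem (A.red O y)) :
    (U C s).mem y := ⟨hy, fun a => by
  obtain ⟨x, h1, h2, -⟩ := n_red hO hy h a
  exact ⟨x, h1 ▸ one_ne_zero, h2⟩⟩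

lemma n_cont {O : Pl M} (hO : O.IsDVR) {y : A.pt M} (hy : P.mem y) (h : (U C s).mem (A.red O y))
    (a : C.ι) : IntV O (n C s M y a) ∧ rdV O (n C s M y a) = n C s O.res (A.red O y) a := by
  obtain ⟨x, h1, h2, h3⟩ := n_red hO hy h a
  rw [(n_eq (gz hO hy h) h2).2, h1, inv_one, one_smul]
  exact h3

variable (C)

/-- The Cartier divisor. -/
noncomputable def car : Car P D where
  ι := ∀ a, C.σ a
  fin := inferInstance
  U := U C
  opn _ := ⟨fun _ _ h => h.1, fun _ _ _ hO hy h => gz hO hy h⟩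
  cov L y hy := by
    choose x h1 h2 using fun a => (C.l a).mem y hy
    choose s hs using fun a => Function.ne_iff.1 (h1 a)
    exact ⟨s, hy, fun a => ⟨x a, hs a, h2 a⟩⟩
  t i k L y := ∏ a, n C i L y a (k a) ^ C.c a
  s i L y := C.s L y (n C i L y)
  rt i k := ⟨fun ι y h => by
      rw [map_prod]
      exact Finset.prod_congr rfl fun a _ => by rw [n_nat ι h.1, map_zpow₀]; rfl,
    fun O y hO h h' => Rel.prod (R := Rel.ofPl O) _ fun a _ => Rel.zpow (R := Rel.ofPl O)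
      ⟨(n_cont hO h.1.1 h'.1 a).1 _, congrFun (n_cont hO h.1.1 h'.1 a).2 _⟩ (n_tr h'.1 h'.2 a).1 _⟩
  rs i := ⟨fun ι y h => by
      rw [← C.nat ι y _ h.1 (n_gen h)]
      exact congrArg _ (funext (n_nat ι h)),
    fun O y hO h h' => by
      have := C.cont O y (n C i _ y) hO h.1 h'.1 fun a => ⟨(n_cont hO h.1 h' a).1,
        (n_cont hO h.1 h' a).2 ▸ (n_gen h' a).1, (n_spec h a).2⟩
      exact ⟨this.1, this.2.trans (congrArg _ (funext fun a => (n_cont hO h.1 h' a).2))⟩⟩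
  t_ne i k L y h h' := Finset.prod_ne_zero_iff.2 fun a _ => zpow_ne_zero _ (n_tr h h' a).1
  coc i k l L y h h' _ := by
    rw [← Finset.prod_mul_distrib]
    refine Finset.prod_congr rfl fun a _ => ?_
    rw [← mul_zpow]
    exact congrArg (· ^ C.c a) (congrFun (n_tr h h' a).2 (l a)).symm
  s_eq i k L y h h' := by
    rw [← C.hom L y _ _ h.1 (fun a => (n_tr h h' a).1) (n_gen h')]
    exact congrArg _ (funext fun a => (n_tr h h' a).2)
  sub := C.sub
  zero i L y h := C.zero L y _ h.1 (n_gen h)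

lemma ord_prod {O : Pl M} (hO : O.IsDVR) {α : Type} (t : Finset α) (f : α → M)
    (h : ∀ a, f a ≠ 0) : O.ord (∏ a ∈ t, f a) = ∑ a ∈ t, O.ord (f a) := by
  classical
  induction t using Finset.induction_on with
  | empty => simpa using Pl.ord_eq_zero_of_mem one_ne_zero (one_mem _) (by simp [one_mem])
  | insert a t ha ih =>
    rw [Finset.prod_insert ha, Finset.sum_insert ha,
      Pl.ord_mul hO (h a) (Finset.prod_ne_zero_iff.2 fun b _ => h b), ih]

theorem cartL [FB3 K] [FB4 K] (hP : Atl P) {j : ℕ} (φ : Fe j D) :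
    ∃ ψ : Fe (j + 1) P, ∀ (M : Fld K) (y : A.pt M) (x : ∀ a, C.σ a → M) (τ : M), Good (j + 1) M →
      P.mem y → (∀ a, x a ≠ 0 ∧ (C.l a).f y = Submodule.span M {x a}) → τ ≠ 0 →
      (¬ D.mem y → τ = C.s M y x) →
      HasS (fun O : Dv M j => ((O.1.ord τ - ∑ a, C.c a * ordv O.1 (x a) : ℤ) : ℂ) *
        φ.v O.1.res (A.red O.1 y)) (ψ.v M y) := by
  obtain ⟨ψ, hψ⟩ := FB4.cart hP (car C) φ
  refine ⟨ψ, fun M y x τ hM hy hx hτ hD => ?_⟩
  let σ : (car C).ι → M := fun i => (∏ a, (x a (i a))⁻¹ ^ C.c a) * τ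
  have hσ : (car C).Sec y σ := by
    refine ⟨fun i h => mul_ne_zero (Finset.prod_ne_zero_iff.2 fun a _ =>
      zpow_ne_zero _ (inv_ne_zero (n_eq h (hx a).2).1)) hτ, fun i k h h' => ?_, fun h0 i h => ?_⟩
    · show _ * τ = (∏ a, n C i M y a (k a) ^ C.c a) * (_ * τ)
      rw [← mul_assoc, ← Finset.prod_mul_distrib]
      refine congrArg (· * τ) (Finset.prod_congr rfl fun a _ => ?_)
      rw [← mul_zpow, (n_eq h (hx a).2).2, Pi.smul_apply, smul_eq_mul,
        mul_inv_cancel_right₀ (n_eq h' (hx a).2).1]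
    · show _ * τ = C.s M y (n C i M y)
      rw [hD h0, ← C.hom M y x _ hy (fun a => inv_ne_zero (n_eq h (hx a).2).1) hx]
      exact congrArg _ (funext fun a => (n_eq h (hx a).2).2.symm)
  have H := hψ M y σ hM hy hσ
  refine (congrArg (HasS · (ψ.v M y)) (funext fun O => ?_)).mp H
  by_cases hv : φ.v O.1.res (A.red O.1 y) = 0
  · rw [hv, mul_zero, mul_zero]
  obtain ⟨i, hi⟩ := (car C).cov _ _ (C.sub _ _ (φ.supp _ _ hv).2)
  have h := gz O.2.1 hy hi
  have h1 := fun a => inv_ne_zero (n_eq h (hx a).2).1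
  rw [FB4.ord_eq (car C) O.2.1 hy hσ hi]
  congr 2
  show O.1.ord (_ * τ) = _
  rw [Pl.ord_mul O.2.1 (Finset.prod_ne_zero_iff.2 fun a _ => zpow_ne_zero _ (h1 a)) hτ,
    ord_prod O.2.1 _ _ fun a => zpow_ne_zero _ (h1 a), add_comm, sub_eq_add_neg,
    ← Finset.sum_neg_distrib]
  refine congrArg _ (Finset.sum_congr rfl fun a _ => ?_)
  rw [Pl.ValB.ord_zpow O.2.1 (h1 a), Pl.ord_inv O.2.1, FB3.ordv_eq O.2.1 (n_eq h (hx a).2).1
    ((n_eq h (hx a).2).2 ▸ (n_cont O.2.1 hy hi a).1), mul_neg]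

section Conn

variable {Ω : ASp K .one} {γ δ : Mor (Ω.sp.prod P) P} {j : ℕ}

lemma mem_const {c : K} (h : Ω.mem (.base K) c) (L : Fld K) :
    Ω.sp.mem (L := L) (some (algebraMap K L c)) :=
  Ω.sp_some.2 ((Ω.map_iff (M := .base K) (Algebra.ofId K L) c).2 h)

lemma map_const (ι : L →ₐ[K] L') {c : K} (hc : Ω.mem (.base K) c) {y : A.pt L} (hy : P.mem y) :
    γ.f (L := L') (some (algebraMap K L' c), A.map ι y) =
      A.map ι (γ.f (L := L) (some (algebraMap K L c), y)) := by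
  rw [← ι.commutes c]
  exact γ.nat ι (some (algebraMap K L c), y) ⟨mem_const hc _, hy⟩

lemma red_const {O : Pl M} {T : M} {c : K} (h : (Rel.ofPl O).r T (algebraMap K _ c)) (y : A.pt M) :
    ((Cd.one.amb K).prod A).red O (some T, y) = (some (algebraMap K O.res c), A.red O y) :=
  Prod.ext (Cd.red_some (c := .one) h) rfl

lemma place (hδ : ∀ (L : Fld K) (t : L) (y : A.pt L), Ω.mem L t → P.mem y →
      δ.f (L := L) (some t, γ.f (L := L) (some t, y)) = y) (φ : Fe j P) (hL : Good j L)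
    {α : L →ₐ[K] M} {T : M} (ht : Trans' α T) (hg : Gen α T) (hT : Ω.mem M T) {c : K}
    (hc : Ω.mem (.base K) c) {y : A.pt L} (hy : P.mem y) :
    ∃ O : Dv M j, O.1.ord (T - algebraMap K M c) = 1 ∧ (Rel.ofPl O.1).r T (algebraMap K _ c) ∧
      φ.v O.1.res (A.red O.1 (γ.f (L := M) (some T, A.map α y))) =
        φ.v L (γ.f (L := L) (some (algebraMap K L c), y)) ∧
      ∀ O' : Dv M j, (Rel.ofPl O'.1).r T (algebraMap K _ c) →
        φ.v O'.1.res (A.red O'.1 (γ.f (L := M) (some T, A.map α y))) ≠ 0 → O' = O := by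
  have e : T - algebraMap K M c = α 1 * T + α (-algebraMap K L c) := by
    rw [map_one, one_mul, map_neg, α.commutes, sub_eq_add_neg]
  have h1 : Trans' α (T - algebraMap K M c) := e ▸ ht.affine one_ne_zero _
  have h2 : Gen α (T - algebraMap K M c) := e ▸ hg.affine one_ne_zero _
  have h0 : T - algebraMap K M c ≠ 0 := fun h => h1.ne 0 (h.trans (map_zero _).symm)
  have hm : (Ω.sp.prod P).mem (L := M) (some T, A.map α y) :=
    ⟨Ω.sp_some.2 hT, (P.map_iff α y).2 hy⟩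
  have hinv : ∀ O : Pl M, (Rel.ofPl O).r T (algebraMap K _ c) → (T - algebraMap K M c)⁻¹ ∉ O.O :=
    fun O h h' => by
      have h3 := Rel.sub h ((Rel.ofPl O).const c)
      exact (O.rd_ne_zero_iff h3.1).2 ⟨h0, h'⟩ (h3.2.trans (sub_self _))
  have hred : ∀ O : Pl M, O.IsDVR → (Rel.ofPl O).r T (algebraMap K _ c) →
      P.mem (A.red O (A.map α y)) → A.red O (γ.f (L := M) (some T, A.map α y)) =
        γ.f (L := O.res) (some (algebraMap K O.res c), A.red O (A.map α y)) := fun O d h h' =>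
    (γ.cont O _ d hm (by rw [red_const h]; exact ⟨mem_const hc _, h'⟩)).symm.trans
      (congrArg γ.f (red_const h _))
  obtain ⟨O, h, d, o, s⟩ := Pl.exists_zero_place h1 h2
  have r : (Rel.ofPl O).r T (algebraMap K _ c) := by
    simpa using (Rel.ofPl O).add ((Pl.ord_pos_iff d h0).1 (o ▸ one_pos)) ((Rel.ofPl O).const c)
  refine ⟨⟨O, d, (Fin'.of_surj s).tr_eq.trans hL.2⟩, o, r, ?_, fun O' r' hv => ?_⟩
  · show φ.v O.res (A.red O _) = _
    rw [hred O d r (by rw [A.red_triv h]; exact (P.map_iff _ _).2 hy), A.red_triv h,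
      map_const h.hom hc hy, φ.ext _ _ hL (hL.of_fin (Fin'.of_surj s)), deg_of_surj s,
      Nat.cast_one, one_mul]
  by_cases h' : Pl.Triv α O'.1
  · exact Subtype.ext (Pl.zero_place_unique h1 h2 h' h (hinv _ r') (hinv _ r))
  refine absurd ?_ hv
  have h3 : (Ω.sp.prod P).mem (((Cd.one.amb K).prod A).red O'.1
      (some T, γ.f (L := M) (some T, A.map α y))) := by
    rw [red_const r']
    exact ⟨mem_const hc _, (φ.supp _ _ hv).2⟩
  have h4 := δ.mem _ h3
  rw [δ.cont O'.1 (some T, γ.f (L := M) (some T, A.map α y)) O'.2.1 ⟨hm.1, γ.mem _ hm⟩ h3,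
    hδ M T (A.map α y) hT hm.2] at h4
  rw [hred O'.1 O'.2.1 r' h4]
  rw [A.red_map (Pl.over_comap α O'.1)] at h4 ⊢
  rw [map_const _ hc ((P.map_iff _ _).1 h4)]
  exact φ.low _ _ (Pl.tr_res_lt _ (fun h0 => h' fun x =>
    (Pl.over_comap α O'.1 x).1 (h0 ▸ ValuationSubring.mem_top x)) hL.2.le)

theorem conn (hδ : ∀ (L : Fld K) (t : L) (y : A.pt L), Ω.mem L t → P.mem y →
      δ.f (L := L) (some t, γ.f (L := L) (some t, y)) = y)
    (hΩ : ∀ (L : Fld K) (T : L), Transcendental K T → Ω.mem L T) (a b : K)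
    (ha : Ω.mem (.base K) a) (hb : Ω.mem (.base K) b) (φ : Fe j P) (L : Fld K) (y : A.pt L)
    (hy : P.mem y) : φ.v L (γ.f (L := L) (some (algebraMap K L a), y)) =
      φ.v L (γ.f (L := L) (some (algebraMap K L b), y)) := by
  classical
  by_cases hab : a = b
  · rw [hab]
  by_cases hL : Good j L
  swap
  · rw [not_not.1 fun h => hL (φ.supp _ _ h).1, not_not.1 fun h => hL (φ.supp _ _ h).1]
  obtain ⟨M, α, T, ht, hg⟩ : ∃ (M : Fld K) (α : L →ₐ[K] M) (T : M), Trans' α T ∧ Gen α T :=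
    ⟨_, _, _, trans_rat L, gen_rat L⟩
  have hT : Ω.mem M T := hΩ M T (transcendental_iff.2 fun Q hQ =>
    ht.comp (L := .base K) (Algebra.ofId K L) Q (by
      rw [Subsingleton.elim (α.comp (Algebra.ofId K L)) (Algebra.ofId K M)]; exact hQ))
  have h0 : ∀ c : K, T - algebraMap K M c ≠ 0 := fun c h =>
    ht.ne (algebraMap K L c) ((sub_eq_zero.1 h).trans (α.commutes c).symm)
  have hu : ∀ (O : Pl M) (c : K), T ∈ O.O → O.rd T ≠ algebraMap K _ c →
      O.ord (T - algebraMap K M c) = 0 := fun O c h h' => by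
    have h1 := Rel.sub (R := Rel.ofPl O) ⟨h, rfl⟩ ((Rel.ofPl O).const c)
    exact Pl.ord_eq_zero_of_mem (h0 c) h1.1
      ((O.rd_ne_zero_iff h1.1).1 (h1.2 ▸ sub_ne_zero.2 h')).2
  have ho : ∀ O : Pl M, O.IsDVR → O.ord ((T - algebraMap K M a) / (T - algebraMap K M b)) =
      O.ord (T - algebraMap K M a) - O.ord (T - algebraMap K M b) := fun O d => by
    rw [div_eq_mul_inv, Pl.ord_mul d (h0 a) (inv_ne_zero (h0 b)), Pl.ord_inv d]; rfl
  obtain ⟨Oa, a1, a2, a3, a4⟩ := place hδ φ hL ht hg hT ha hy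
  obtain ⟨Ob, b1, b2, b3, b4⟩ := place hδ φ hL ht hg hT hb hy
  have hne : Oa ≠ Ob := by
    rintro rfl
    exact hab ((algebraMap K _).injective (a2.2.symm.trans b2.2))
  have H := (φ.rat M (γ.f (L := M) (some T, A.map α y)) _ (hL.succ ht hg)
    (γ.mem _ ⟨Ω.sp_some.2 hT, (P.map_iff α y).2 hy⟩) (div_ne_zero (h0 a) (h0 b))).2
  rw [finsum_eq_sum_of_support_subset _ (s := {Oa, Ob}) fun O hO => ?_, Finset.sum_pair hne, a3, b3,
    ho _ Oa.2.1, ho _ Ob.2.1, a1, b1,
    hu _ b a2.1 fun e => hab ((algebraMap K _).injective (a2.2.symm.trans e)),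
    hu _ a b2.1 fun e => hab ((algebraMap K _).injective (e.symm.trans b2.2))] at H
  · simpa [add_neg_eq_zero] using H
  have hv := right_ne_zero_of_mul hO
  have h1 : O.1.ord ((T - algebraMap K M a) / (T - algebraMap K M b)) ≠ 0 := by
    exact_mod_cast left_ne_zero_of_mul hO
  rw [Finset.coe_pair]
  by_cases hm : T ∈ O.1.O
  · by_cases e : O.1.rd T = algebraMap K _ a
    · exact Or.inl (a4 O ⟨hm, e⟩ hv)
    by_cases e' : O.1.rd T = algebraMap K _ b
    · exact Or.inr (b4 O ⟨hm, e'⟩ hv)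
    exact absurd (by rw [ho _ O.2.1, hu _ a hm e, hu _ b hm e', sub_zero]) h1
  have h2 : ∀ c c' : K, (T - algebraMap K M c) / (T - algebraMap K M c') ∈ O.1.O := fun c c' => by
    have h3 : (T - algebraMap K M c')⁻¹ ∈ O.1.O := (O.1.O.mem_or_inv_mem _).resolve_left fun h =>
      hm (by simpa using add_mem h (O.1.const c'))
    rw [show (T - algebraMap K M c) / (T - algebraMap K M c') =
      1 + (algebraMap K M c' - algebraMap K M c) * (T - algebraMap K M c')⁻¹ by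
        have := h0 c'; field_simp; ring]
    exact add_mem (one_mem _) (mul_mem (sub_mem (O.1.const _) (O.1.const _)) h3)
  exact absurd (Pl.ord_eq_zero_of_mem' O.2.1 (h2 a b) (by rw [inv_div]; exact h2 b a)) h1

end Conn

end FB5a

theorem FB5_thm [FB3 K] [FB4 K] : FB5 K where
  cartL hP C _ φ := FB5a.cartL C hP φ
  conn _ _ _ hδ hΩ a b ha hb _ φ L y hy := FB5a.conn hδ hΩ a b ha hb φ L y hy

end Pool.Agent.Lib.MP_557161_ag.HG
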