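import Pool.Agent.Lib.MP_557161_ag.HG.FC31

/-!
One step of stationary phase.
-/

namespace Pool.Agent.Lib.MP_557161_ag.HG

open Pool.Agent.Lib.MP_557161_ag.DL

namespace F3

lemma sum_zero {α β : Type} (s : Finset β) {g : β → α → ℂ} {v : β → ℂ}
    (h : ∀ b ∈ s, HasS (g b) (v b)) (h0 : ∀ a, ∑ b ∈ s, g b a = 0) : ∑ b ∈ s, v b = 0 := by
  rw [← Finset.sum_congr rfl fun b hb => (h b hb).2, sum_finsum_comm s g fun b hb => (h b hb).1]
  simp [h0]

variable {K : Type} [Field K] {p : ℕ} {c c' d : Cd}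

lemma as_add [Fact p.Prime] [CharP K p] (L : Fld K) (y : L) (a : ℕ) :
    (y + a) ^ p - (y + a) = y ^ p - y := by
  have : CharP L p := charP_of_injective_algebraMap (algebraMap K L).injective p
  rw [add_pow_char, show (a : L) ^ p = a from map_natCast (frobenius L p) a]
  ring

variable (p) (E : Ph K c) (W : ASp K d) (f : ∀ L : Fld K, c.X L → Unit → L)
  (hf : Reg E.S (.vec Unit) f)

/-- The base of the blow up. -/
def TT : ASp K ((c.prod .one).prod d) := (E.S.prod (.univ K .one)).prod W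

/-- The equation of the cover. -/
def ee (d : Cd) (L : Fld K) (q : ((c.prod .one).prod d).X L) : L :=
  q.1.2 ^ p - q.1.2 - E.φ L q.1.1

/-- The equation of the zero set. -/
def gg (d : Cd) (L : Fld K) (q : ((c.prod .one).prod d).X L) : L := f L q.1.1 ()

lemma ree : Reg (TT E W) .one (ee p E d) := fun _ _ R _ _ m m' e =>
  Rel.sub (Rel.sub (Rel.pow e.1.2 p) e.1.2) (E.reg R m.1.1 m'.1.1 e.1.1)

include hf in
lemma rgg : Reg (TT E W) .one (gg f d) := fun _ _ R _ _ m m' e => hf R m.1.1 m'.1.1 e.1.1 ()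

lemma mem_iff (L : Fld K) (q : ((c.prod .one).prod d).X L) :
    (((E.zer f hf).tot p).prod W).mem L q ↔
      (TT E W).mem L q ∧ gg f d L q = 0 ∧ ee p E d L q = 0 :=
  ⟨fun ⟨⟨⟨⟨a, b⟩, _⟩, a'⟩, b'⟩ => ⟨⟨⟨a, trivial⟩, b'⟩, b (), sub_eq_zero.2 a'⟩,
    fun ⟨⟨⟨a, _⟩, b'⟩, b, a'⟩ => ⟨⟨⟨⟨a, fun _ => b⟩, trivial⟩, sub_eq_zero.1 a'⟩, b'⟩⟩

/-- The compactification of the cover in the direction of the new variable. -/
abbrev BB : Sp ((((c.prod .one).prod d).amb K).prod (Cd.one.amb K)) :=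
  Bl (TT E W) (ee p E d) (gg f d) (ree p E W) (rgg E W f hf)

variable {p E W f hf} {j : ℕ} (Φ : NF p j (E.zer f hf) W) (ψ : Fe (j + 1) (BB p E W f hf))

/-- The formula for the intersection with the divisor. -/
def Fm : Prop :=
  ∀ (M : Fld K) (q : ((c.prod .one).prod d).X M) (ξ : Option M), Good (j + 1) M →
    (TT E W).mem M q → bl (ee p E d M q) (gg f d M q) ξ →
    HasS (fun O : Dv M j => (O.1.ord (sc (ee p E d M q) (gg f d M q) ξ (rp O.1 ξ).isNone) : ℂ) *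
      Φ.v O.1.res ((((c.prod .one).prod d).amb K).red O.1 (some q))) (ψ.v M (some q, ξ))

variable {Φ ψ}

lemma psi_supp {L : Fld K} {q : ((c.prod .one).prod d).X L} {ξ : Option L}
    (h : ψ.v L (some q, ξ) ≠ 0) :
    Good (j + 1) L ∧ (TT E W).mem L q ∧ bl (ee p E d L q) (gg f d L q) ξ :=
  ⟨(ψ.supp _ _ h).1, (Bl_some ..).1 (ψ.supp _ _ h).2⟩

lemma psi_nt [Fact p.Prime] [CharP K p] (hψ : Fm Φ ψ) (L : Fld K) (x : c.X L) (y : L) (w : d.X L)
    (ξ : Option L) : ∑ a ∈ Finset.range p, ψ.v L (some ((x, y + a), w), ξ) = 0 := by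
  have e1 : ∀ a : ℕ, ee p E d L ((x, y + a), w) = ee p E d L ((x, y), w) :=
    fun a => congrArg (· - E.φ L x) (as_add L y a)
  have e2 : ∀ a : ℕ, gg f d L ((x, y + a), w) = gg f d L ((x, y), w) := fun _ => rfl
  by_cases h : Good (j + 1) L ∧ (TT E W).mem L ((x, y), w) ∧
    bl (ee p E d L ((x, y), w)) (gg f d L ((x, y), w)) ξ
  · refine sum_zero _ (fun a _ => hψ L ((x, y + a), w) ξ h.1 h.2.1 (by
      rw [e1]; exact h.2.2)) fun O => ?_
    simp only [e1, e2]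
    rw [← Finset.mul_sum]
    refine mul_eq_zero_of_right _ ?_
    by_cases hi : ∃ q', (((c.prod .one).prod d).amb K).red O.1 (some ((x, y), w)) = some q'
    · obtain ⟨⟨⟨x', y'⟩, w'⟩, e'⟩ := hi
      have r := Cd.lift_of_red e'
      refine Eq.trans (Finset.sum_congr rfl fun a _ => congrArg _ ?_) (Φ.nt _ x' y' w')
      exact Cd.red_some ⟨⟨r.1.1, (Rel.ofPl O.1).add r.1.2 (Rel.natCast _ a)⟩, r.2⟩
    · refine Finset.sum_eq_zero fun a _ => not_not.1 fun b => hi ?_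
      obtain ⟨⟨⟨x', y'⟩, w'⟩, e', -⟩ := (Φ.supp _ _ b).2
      have r := Cd.lift_of_red e'
      have r' := Rel.sub r.1.2 ((Rel.ofPl O.1).natCast a)
      rw [add_sub_cancel_right] at r'
      exact ⟨((x', y' - a), w'), Cd.red_some ⟨⟨r.1.1, r'⟩, r.2⟩⟩
  · refine Finset.sum_eq_zero fun a _ => not_not.1 fun b => h ?_
    have := psi_supp b
    rw [e1] at this
    exact this

lemma psi_kills [FA3 K] (hψ : Fm Φ ψ) (L : Fld K) (x : c.X L) (y : L) (w : d.X L) (ξ : Option L)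
    (F : IntermediateField K L) {m₁ m₂ : ℕ} (hx : c.all (· ∈ F) x) (hy : y ^ p - y ∈ F)
    (hξ : ξ.getD 1 ∈ F) (hF : (L.sub F).tr ≤ m₁) (hw : d.Dm L w m₂) (hm : m₁ + m₂ ≤ j + 1) :
    ψ.v L (some ((x, y), w), ξ) = 0 := by
  by_contra h
  obtain ⟨hL, m, b⟩ := psi_supp h
  refine h ((hψ L _ ξ hL m b).2.symm.trans (finsum_eq_zero_of_forall_eq_zero fun O => ?_))
  by_contra a
  obtain ⟨a1, a2⟩ := mul_ne_zero_iff.1 a
  obtain ⟨⟨⟨x', y'⟩, w'⟩, e', -⟩ := (Φ.supp _ _ a2).2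
  have r := Cd.lift_of_red e'
  have hs := sc_mem F (e := ee p E d L ((x, y), w)) (g := gg f d L ((x, y), w))
    (sub_mem hy (E.reg.all_sub F m.1.1 hx)) (hf.all_sub F m.1.1 hx ()) hξ (rp O.1 ξ).isNone
  have hn : ∃ a ∈ F, a ∉ O.1.O := by
    by_contra hn
    have h1 : ∀ a ∈ F, a ∈ O.1.O := fun a ha => not_not.1 fun e => hn ⟨a, ha, e⟩
    exact a1 (by rw [Pl.ord_eq_zero_of_mem' O.2.1 (h1 _ hs) (h1 _ (inv_mem hs)), Int.cast_zero])
  cases m₁ with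
  | zero =>
    obtain ⟨u, hu, hu'⟩ := hn
    refine absurd ((Pl.comap (M := L.sub F) F.val O.1).tr_res_lt (fun e => hu' ?_) hF) (by simp)
    have : (⟨u, hu⟩ : F) ∈ (Pl.comap (M := L.sub F) F.val O.1).O :=
      e ▸ ValuationSubring.mem_top _
    exact this
  | succ m₁ =>
    rw [e'] at a2
    exact a2 (Φ.kills _ x' y' w' m₁ m₂ (FA3.dm_red_lt F r.1.1 hx hF hn) (FA3.dm_red r.2 hw)
      (by omega))

theorem exists_nf [Fact p.Prime] [CharP K p] [FA3 K] (hψ : Fm Φ ψ) (E' : Ph K c')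
    (π : ∀ L : Fld K, c'.X L → c.X L) (hπ : Mp E'.S E.S π) (ξ : ∀ L : Fld K, c'.X L → Option L)
    (hn : ∀ (L L' : Fld K) (ι : L →ₐ[K] L') (x : c'.X L), ξ L' (c'.map ι x) = (ξ L x).map ι)
    (hc : ∀ (M : Fld K) (O : Pl M) (x : c'.X M) (x' : c'.X O.res),
      c'.lift (Rel.ofPl O).r x x' → rp O (ξ M x) = ξ _ x')
    (hb : ∀ L x, E'.S.mem L x → bl (E'.φ L x - E.φ L (π L x)) (f L (π L x) ()) (ξ L x))
    (hξ : ∀ (L : Fld K) (F : IntermediateField K L) (x : c'.X L), c'.all (· ∈ F) x →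
      (ξ L x).getD 1 ∈ F)
    (hp : ∀ (M : Fld K) (O : Pl M) (x : c'.X M) (x' : c.X O.res) (y' : O.res) (w' : d.X O.res),
      E'.S.mem M x → E.S.mem _ x' → c.lift (Rel.ofPl O).r (π M x) x' →
      (Rel.ofPl O).r (E'.φ M x) (y' ^ p - y') → ψ.v O.res (some ((x', y'), w'), rp O (ξ M x)) ≠ 0 →
      ∃ x'', E'.S.mem O.res x'' ∧ c'.lift (Rel.ofPl O).r x x'') :
    ∃ Ψ : NF p (j + 1) E' W, ∀ L x y w, ((E'.tot p).prod W).mem L ((x, y), w) →
      Ψ.b L x y w = ψ.v L (some ((π L x, y), w), ξ L x) := by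
  obtain ⟨Ψ, hΨ⟩ := pull_bl _ _ _ _ _ ψ ((E'.tot p).prod W) (fun L q => ((π L q.1.1, q.1.2), q.2))
    ⟨fun _ _ R _ _ m m' r => ⟨⟨hπ.reg R m.1.1.1 m'.1.1.1 r.1.1, r.1.2⟩, r.2⟩,
      fun L q m => ⟨⟨hπ.mem L _ m.1.1.1, trivial⟩, m.2⟩⟩ (fun L q => ξ L q.1.1)
    (fun L L' ι q => hn L L' ι q.1.1) (fun M O q q' r => hc M O _ _ r.1.1)
    (fun L q m => by
      have := hb L _ m.1.1.1
      rw [← show q.1.2 ^ p - q.1.2 = E'.φ L q.1.1 from m.1.2] at this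
      exact this)
    (by
      rintro M O ⟨⟨x, y⟩, w⟩ ⟨⟨x', y'⟩, w'⟩ m r h
      have m' := (psi_supp h).2.1
      have r' : (Rel.ofPl O).r (E'.φ M x) (y' ^ p - y') := by
        rw [← show y ^ p - y = E'.φ M x from m.1.2]
        exact Rel.sub (Rel.pow r.1.2 p) r.1.2
      obtain ⟨x'', a, b⟩ := hp M O x x' y' w' m.1.1.1 m'.1.1 r.1.1 r' h
      exact ⟨((x'', y'), w'), ⟨⟨⟨a, trivial⟩, Rel.eq r' (E'.reg _ m.1.1.1 a b) rfl⟩, m'.2⟩,
        ⟨b, r.1.2⟩, r.2⟩)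
  have h0 : ∀ L q, ¬ ((E'.tot p).prod W).mem L q → Ψ.v L (some q) = 0 := fun L q h =>
    not_not.1 fun a => h ((ASp.sp_some _).1 (Ψ.supp _ _ a).2)
  refine ⟨⟨Ψ, fun L x y w => ?_, ?_⟩, fun L x y w m => hΨ L _ m⟩
  · have e1 : ∀ a : ℕ, ((E'.tot p).prod W).mem L ((x, y + a), w) ↔
        ((E'.tot p).prod W).mem L ((x, y), w) := fun a =>
      and_congr_left' (and_congr_right' (Eq.congr_left (as_add L y a)))
    by_cases m : ((E'.tot p).prod W).mem L ((x, y), w)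
    · exact (Finset.sum_congr rfl fun a _ => hΨ L _ ((e1 a).2 m)).trans
        (psi_nt hψ L (π L x) y w (ξ L x))
    · exact Finset.sum_eq_zero fun a _ => h0 L _ fun b => m ((e1 a).1 b)
  · rintro L x y w m₁ m₂ ⟨F, hx, hF⟩ hw hm
    by_cases m : ((E'.tot p).prod W).mem L ((x, y), w)
    · refine (hΨ L _ m).trans (psi_kills hψ L _ y w _ F (hπ.reg.all_sub F m.1.1.1 hx) ?_
        (hξ L F x hx) hF hw hm)
      rw [show y ^ p - y = E'.φ L x from m.1.2]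
      exact E'.reg.all_sub F m.1.1.1 hx
    · exact h0 L _ m

lemma psi_inf [Fact p.Prime] [CharP K p] [FA3 K] [FC2 K p] (hψ : Fm Φ ψ) (L : Fld K)
    (q : ((c.prod .one).prod d).X L) : ψ.v L (some q, none) = 0 := by
  let E' : Ph K (c.prod .one) :=
    ⟨(E.zer f hf).S.prod (.univ K .one), fun _ x => x.2, fun _ _ _ _ _ _ _ r => r.2⟩
  obtain ⟨Ψ, hΨ⟩ := exists_nf hψ E' (fun _ x => x.1)
    ⟨fun _ _ _ _ _ _ _ r => r.1, fun _ _ m => m.1.1⟩ (fun _ _ => none) (fun _ _ _ _ => rfl)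
    (fun _ _ _ _ _ => rfl) (fun _ _ m => m.1.2 ()) (fun _ F _ _ => one_mem F)
    (fun M O x x' y' w' m m' r r' _ => ⟨(x', y' ^ p - y'),
      ⟨⟨m', fun i => Rel.eq_zero (hf _ m.1.1 m' r i) (m.1.2 i)⟩, trivial⟩, r, r'⟩)
  have hV : Van p E' W := FC2.kill (fun _ z => (z.2.1, z.2.2 + z.1))
    ⟨fun _ _ R _ _ _ _ r => ⟨r.2.1, R.add r.2.2 r.1⟩, fun _ _ m => ⟨m.2.1, trivial⟩⟩
    fun L t x _ => ⟨Prod.ext rfl (add_zero _), Prod.ext rfl (add_neg_cancel_right _ _), rfl⟩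
  obtain ⟨⟨x, y⟩, w⟩ := q
  by_contra h
  obtain ⟨-, m, b⟩ := psi_supp h
  exact h ((hΨ L (x, y ^ p - y) y w ⟨⟨⟨⟨⟨m.1.1, fun _ => b⟩, trivial⟩, trivial⟩, rfl⟩, m.2⟩).symm.trans
    (hV _ Ψ L _ y w))

lemma psi_val (hψ : Fm Φ ψ) {L M : Fld K} {α : L →ₐ[K] M} {T : M} (hL : Good j L)
    (ht : Trans' α T) (hg : Gen α T) {q : ((c.prod .one).prod d).X L}
    (m : (((E.zer f hf).tot p).prod W).mem L q) :
    ψ.v M (some (((c.prod .one).prod d).map α q), some T) = -Φ.v L (some q) := by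
  obtain ⟨a1, a2, a3⟩ := (mem_iff p E W f hf M _).1 ((ASp.map_iff _ α q).2 m)
  have h0 : T ≠ 0 := fun e => ht.ne 0 (by rw [e, map_zero])
  obtain ⟨O, hO, d1, d2, d3⟩ := Pl.exists_zero_place ht.inv hg.inv
  have d4 : Good j O.res := hL.of_fin (Fin'.of_surj d3)
  have d5 : O.ord T = -1 := by rw [← d2, Pl.ord_inv d1, neg_neg]
  have d6 : T ∉ O.O := fun e => by
    have := (Pl.ord_nonneg_iff d1).2 e
    omega
  have hs : ∀ i, sc (ee p E d M (((c.prod .one).prod d).map α q))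
      (gg f d M (((c.prod .one).prod d).map α q)) (some T) i = cond i T 1 := fun i => by
    rw [sc, if_pos ⟨a2, a3⟩, Option.getD_some, if_neg h0]
  rw [← (hψ M _ (some T) (hL.succ ht hg) a1 (by rw [a2, a3]; exact bl_zero _)).2,
    finsum_eq_single _ (⟨O, d1, d4.2⟩ : Dv M j)]
  · have e : Φ.v O.res ((((c.prod .one).prod d).amb K).red O
        (some (((c.prod .one).prod d).map α q))) = deg hO.hom * Φ.v L (some q) :=
      (congrArg _ ((((c.prod .one).prod d).amb K).red_triv hO (some q))).trans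
        (Φ.ext hO.hom _ hL d4)
    rw [hs, rp_not d6, e, deg_of_surj d3]
    simp [d5]
  · intro O' hO'
    rw [hs]
    by_cases h : T ∈ O'.1.O
    · rw [rp_mem h, show cond (some (O'.1.rd T)).isNone T 1 = 1 from rfl,
        Pl.ord_eq_zero_of_mem one_ne_zero (one_mem _) (by rw [inv_one]; exact one_mem _),
        Int.cast_zero, zero_mul]
    · refine mul_eq_zero_of_right _ ?_
      have h1 : (Pl.comap α O'.1).O ≠ ⊤ := fun e => hO' (Subtype.ext
        (Pl.zero_place_unique ht.inv hg.inv (fun a => by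
          have : a ∈ (Pl.comap α O'.1).O := e ▸ ValuationSubring.mem_top _
          exact this) hO (by rwa [inv_inv]) (by rwa [inv_inv])))
      have e := (((c.prod .one).prod d).amb K).red_map (Pl.over_comap α O'.1) (some q)
      exact (congrArg _ e).trans (Φ.low _ _ ((Pl.comap α O'.1).tr_res_lt h1 hL.2.le))

end F3

open F3 in
theorem FC3_thm {K : Type} [Field K] [Base K] {p : ℕ} [Fact p.Prime] [CharP K p] [FA1 K] [FA2 K]
    [FA3 K] [FB3 K] [FB4 K] [FB5 K] [FC1 K p] [FC2 K p] : FC3 K p := by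
  refine ⟨fun {c d E W} f hf j Φ => ?_⟩
  obtain ⟨ψ, hψ⟩ := exists_psi _ _ _ (ree p E W) (rgg E W f hf) _ (mem_iff p E W f hf) Φ.toFe
  have e1 : ∀ (L : Fld K) (x : (c.prod (.vec Unit)).X L),
      (E.lin f hf).φ L x - E.φ L x.1 = x.2 () * f L x.1 () := fun L x => by
    simp [Ph.lin]
  obtain ⟨Ψ, hΨ⟩ := exists_nf (Φ := Φ) hψ (E.lin f hf) (fun _ x => x.1)
    ⟨fun _ _ _ _ _ _ _ r => r.1, fun _ _ m => m.1⟩ (fun _ x => some (x.2 ()))
    (fun _ _ _ _ => rfl) (fun _ _ _ _ r => Cd.red_some (c := .one) (r.2 ())) (fun L x _ => e1 L x)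
    (fun _ _ _ h => h.2 ())
    (fun M O x x' y' w' m m' r _ h => by
      by_cases hu : x.2 () ∈ O.O
      · exact ⟨(x', fun _ => O.rd (x.2 ())), ⟨m', trivial⟩, r, fun _ => ⟨hu, rfl⟩⟩
      · rw [rp_not hu] at h
        exact absurd (psi_inf (Φ := Φ) hψ _ _) h)
  refine ⟨Ψ, fun L M α T x y w hL ht hg hx => ?_⟩
  have e2 : (E.lin f hf).φ M (c.map α x, fun _ => T) = α (E.φ L x) := by
    refine (sub_eq_zero.1 ((e1 M (c.map α x, fun _ => T)).trans ?_)).trans (E.reg.nat α hx.1)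
    rw [show f M (c.map α x) () = α (f L x ()) from congrFun (hf.nat α hx.1) (), hx.2, map_zero,
      mul_zero]
  have e3 : (((E.lin f hf).tot p).prod W).mem M (((c.map α x, fun _ => T), α y), d.map α w) ↔
      (((E.zer f hf).tot p).prod W).mem L ((x, y), w) := by
    refine and_congr (and_congr (iff_of_true ⟨⟨(E.S.map_iff α x).2 hx.1, trivial⟩, trivial⟩
      ⟨hx, trivial⟩) ?_) (W.map_iff α w)
    show α y ^ p - α y = (E.lin f hf).φ M (c.map α x, fun _ => T) ↔ y ^ p - y = E.φ L x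
    rw [e2, ← map_pow, ← map_sub]
    exact α.injective.eq_iff
  by_cases m : (((E.zer f hf).tot p).prod W).mem L ((x, y), w)
  · exact (hΨ M _ _ _ (e3.2 m)).trans (psi_val (Φ := Φ) hψ hL ht hg m)
  · rw [show Φ.b L x y w = 0 from not_not.1 fun a => m ((ASp.sp_some _).1 (Φ.supp _ _ a).2),
      neg_zero]
    exact not_not.1 fun a => m (e3.1 ((ASp.sp_some _).1 (Ψ.supp _ _ a).2))

end Pool.Agent.Lib.MP_557161_ag.HG
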