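import Pool.Agent.Lib.MP_557161_ag.HG.St1

/-!
Stationary phase: uniqueness and vanishing.
-/

namespace Pool.Agent.Lib.MP_557161_ag.HG

open Pool.Agent.Lib.MP_557161_ag.DL

variable {K : Type} [Field K] {p : ℕ} {c d : Cd} {E : Ph K c} {W : ASp K d} {κ : Type} [Fintype κ]
  (f : ∀ L : Fld K, c.X L → κ → L) (hf : Reg E.S (.vec κ) f)

/-- The restriction to the zero set, with the linear variables as last coordinates. -/
theorem fc4_pull [FC1 K p] {i : ℕ} (Ψ : NF p i (E.lin f hf) W) :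
    ∃ Θ : AF i ((((E.zer f hf).tot p).prod W).prod (.univ K (.vec κ))),
      ∀ L x y w T, (E.zer f hf).S.mem L x → Θ.a L (((x, y), w), T) = Ψ.b L (x, T) y w := by
  have ph : ∀ (L : Fld K) (x : c.X L) (T : κ → L), (E.zer f hf).S.mem L x →
      (E.lin f hf).φ L (x, T) = (E.zer f hf).φ L x := fun L x T m => by
    have : ∀ i, f L x i = 0 := m.2
    simp [Ph.lin, Ph.zer, Ph.res, this]
  have hg : Mp ((((E.zer f hf).tot p).prod W).prod (.univ K (.vec κ)))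
      (((E.lin f hf).tot p).prod W) fun _ X => (((X.1.1.1, X.2), X.1.1.2), X.1.2) :=
    ⟨fun _ _ _ _ _ _ _ e => ⟨⟨⟨e.1.1.1, e.2⟩, e.1.1.2⟩, e.1.2⟩, fun L X m =>
      ⟨⟨⟨⟨m.1.1.1.1.1, trivial⟩, trivial⟩, m.1.1.2.trans (ph L _ _ m.1.1.1.1).symm⟩, m.1.2⟩⟩
  have hp : Pro ((((E.zer f hf).tot p).prod W).prod (.univ K (.vec κ)))
      (((E.lin f hf).tot p).prod W) fun _ X => (((X.1.1.1, X.2), X.1.1.2), X.1.2) := by
    intro M O X z _ m m' e
    have mz : (E.zer f hf).S.mem O.res z.1.1.1 := ⟨m'.1.1.1.1, fun i =>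
      Rel.eq_zero (hf _ m.1.1.1.1.1 m'.1.1.1.1 e.1.1.1 i) (m.1.1.1.1.2 i)⟩
    exact ⟨(((z.1.1.1, z.1.2), z.2), z.1.1.2),
      ⟨⟨⟨⟨mz, trivial⟩, m'.1.2.trans (ph _ _ _ mz)⟩, m'.2⟩, trivial⟩,
      ⟨⟨e.1.1.1, e.1.2⟩, e.2⟩, e.1.1.2⟩
  refine ⟨Ψ.toFe.pull hg.mor (hp.mor hg), fun L x y w T m => ?_⟩
  by_cases h : ((((E.zer f hf).tot p).prod W).prod (.univ K (.vec κ))).mem L (((x, y), w), T)
  · exact Fe.pull_of_mem _ _ _ ((ASp.sp_some _).2 h)
  · have e1 : Ψ.b L (x, T) y w = 0 := by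
      by_contra h0
      obtain ⟨-, -, h2, h3⟩ := FC1.mem Ψ h0
      exact h ⟨⟨⟨⟨m, trivial⟩, h2.trans (ph L x T m)⟩, h3⟩, trivial⟩
    rw [e1]
    by_contra h0
    exact h ((ASp.sp_some _).1 (Pre.supp _ L _ h0).2)

/-- One more linear form may be nonzero. -/
theorem fc4_step [FC1 K p] [FC2 K p] [DecidableEq κ] {i : ℕ} (Ψ : NF p i (E.lin f hf) W)
    (s : Finset κ) (k : κ)
    (ih : ∀ L x T y w, (∀ a, a ∉ s → f L x a = 0) → Ψ.b L (x, T) y w = 0) :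
    ∀ L x T y w, (∀ a, a ∉ insert k s → f L x a = 0) → Ψ.b L (x, T) y w = 0 := by
  let E₁ : Ph K (c.prod (.vec κ)) := (E.lin f hf).res
    ((E.lin f hf).S.cl (fun L X => ∀ a, a ∉ insert k s → f L X.1 a = 0)
      fun _ _ R _ _ m m' e h a ha => Rel.eq_zero (hf R m.1 m'.1 e.1 a) (h a ha)) fun _ _ h => h.1
  let E₂ : Ph K (c.prod (.vec κ)) := E₁.res
    (E₁.S.opn (fun L X => f L X.1 k ≠ 0)
      fun _ _ R _ _ m m' e h => Rel.ne_zero (hf R m.1.1 m'.1.1 e.1 k) h) fun _ _ h => h.1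
  obtain ⟨Φ₁, h₁⟩ := FC1.pull (E := E.lin f hf) (E' := E₁) (f := fun _ X => X)
    ⟨⟨Reg.id _, fun _ _ m => m.1⟩, fun _ _ _ => rfl⟩
    (fun M O X z _ m m' e => ⟨z, ⟨m', fun a ha =>
      Rel.eq_zero (hf _ m.1.1 m'.1 e.1 a) (m.2 a ha)⟩, e⟩) Ψ
  obtain ⟨Φ₂, h₂⟩ := FC1.res (E := E₁) (E' := E₂)
    ⟨⟨Reg.id _, fun _ _ m => m.1⟩, fun _ _ _ => rfl⟩ Φ₁ (fun L X y w h0 => by
      have m := (FC1.mem Φ₁ h0).2.1
      refine ⟨m, fun hk => h0 ?_⟩
      rw [h₁ L X y w m]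
      refine ih L X.1 X.2 y w fun a ha => ?_
      by_cases e : a = k
      · rw [e]; exact hk
      · exact m.2 a (by simp [e, ha]))
  have hv : Van p E₂ W := by
    refine FC2.kill (fun L X => (X.2.1, fun a => X.2.2 a + if a = k then X.1 / f L X.2.1 k else 0))
      ⟨fun _ _ R _ _ m m' e => ⟨e.2.1, fun a => R.add (e.2.2 a) (Rel.ite _
        (Rel.div e.1 (hf R m.2.1.1.1 m'.2.1.1.1 e.2.1 k) m'.2.2) R.zero)⟩,
        fun L X m => ⟨⟨⟨m.2.1.1.1, trivial⟩, m.2.1.2⟩, m.2.2⟩⟩ fun L t X m => ⟨?_, ?_, ?_⟩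
    · simp
    · refine Prod.ext rfl (funext fun a => ?_)
      dsimp only
      split_ifs <;> ring
    · have hk : f L X.1 k ≠ 0 := m.2
      change E.φ L X.1 + ∑ a, (X.2 a + if a = k then t / f L X.1 k else 0) * f L X.1 a =
        E.φ L X.1 + ∑ a, X.2 a * f L X.1 a + t
      simp [add_mul, Finset.sum_add_distrib, hk, add_assoc]
  intro L x T y w h
  by_contra h0
  have m : E₁.S.mem L (x, T) := ⟨(FC1.mem Ψ h0).2.1, h⟩
  exact h0 (by rw [← h₁ L (x, T) y w m, ← h₂, hv])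

theorem fc4_uniq [FC1 K p] [FC2 K p] {i : ℕ} (Ψ : NF p i (E.lin f hf) W)
    (h : ∀ (j : ℕ) (L M : Fld K) (α : L →ₐ[K] M) (T : κ → M) x y w, i = j + Nat.card κ →
      Free j α T → (E.zer f hf).S.mem L x → Ψ.b M (c.map α x, T) (α y) (d.map α w) = 0)
    (L : Fld K) (x : (c.prod (.vec κ)).X L) (y : L) (w : d.X L) : Ψ.b L x y w = 0 := by
  classical
  obtain ⟨Θ, hΘ⟩ := fc4_pull f hf Ψ
  have h0 := FC2.up (p := p) Θ fun j L M α T X e hT m =>
    (hΘ M _ _ _ T (((E.zer f hf).S.map_iff α _).2 m.1.1.1)).trans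
      (h j L M α T X.1.1 X.1.2 X.2 e hT m.1.1.1)
  have key : ∀ s : Finset κ, ∀ L x T y w, (∀ a, a ∉ s → f L x a = 0) → Ψ.b L (x, T) y w = 0 := by
    intro s
    induction s using Finset.induction_on with
    | empty =>
      intro L x T y w hx
      by_contra h1
      exact h1 ((hΘ L x y w T ⟨(FC1.mem Ψ h1).2.1.1, fun a => hx a (by simp)⟩).symm.trans
        (h0 L _))
    | insert k s _ ih => exact fc4_step f hf Ψ s k ih
  exact key Finset.univ L x.1 x.2 y w fun a ha => absurd (Finset.mem_univ a) ha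

theorem fc4_lin [FA1 K] [FA3 K] [FC1 K p] [FC2 K p] (hv : Van p (E.zer f hf) W) :
    Van p (E.lin f hf) W := by
  intro i Ψ
  refine fc4_uniq f hf Ψ fun j L M α T x y w e hT m => ?_
  subst e
  obtain ⟨Θ, hΘ⟩ := fc4_pull f hf Ψ
  obtain ⟨Φ, hΦ⟩ := FC2.down (p := p) Θ
  have val : ∀ (L M : Fld K) (α : L →ₐ[K] M) (T : κ → M) x y w, Free j α T →
      (E.zer f hf).S.mem L x → Φ.a L ((x, y), w) = Ψ.b M (c.map α x, T) (α y) (d.map α w) := by
    intro L M α T x y w hT m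
    rw [← hΘ M _ _ _ T (((E.zer f hf).S.map_iff α _).2 m)]
    by_cases h : (((E.zer f hf).tot p).prod W).mem L ((x, y), w)
    · exact (hΦ L M α T ((x, y), w) hT h).symm
    · have e1 : Φ.a L ((x, y), w) = 0 := by
        by_contra h0
        exact h ((ASp.sp_some _).1 (Φ.supp L _ h0).2)
      rw [e1, eq_comm]
      by_contra h0
      have m' := ((ASp.sp_some _).1 (Θ.supp M _ h0).2).1
      exact h (((((E.zer f hf).tot p).prod W).map_iff α ((x, y), w)).1 m')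
  have sup : ∀ (L : Fld K) x y w, Φ.a L ((x, y), w) ≠ 0 → Good j L ∧ (E.zer f hf).S.mem L x :=
    fun L x y w h0 => ⟨(Φ.supp L _ h0).1, ((ASp.sp_some _).1 (Φ.supp L _ h0).2).1.1.1⟩
  let Φ' : NF p j (E.zer f hf) W := ⟨Φ, fun L x y w => by
      by_cases h : Good j L ∧ (E.zer f hf).S.mem L x
      · rw [← Ψ.nt (fr L κ) (c.map (frα L κ) x, frT L κ) (frα L κ y) (d.map (frα L κ) w)]
        refine Finset.sum_congr rfl fun a _ => ?_
        have := val L _ _ _ x (y + a) w (FA1.fr_free κ h.1) h.2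
        rwa [map_add, map_natCast] at this
      · refine Finset.sum_eq_zero fun a _ => ?_
        by_contra h0
        exact h (sup L x _ w h0),
    fun L x y w m₁ m₂ h1 h2 h3 => by
      by_contra h0
      obtain ⟨g1, g2⟩ := sup L x y w h0
      exact h0 ((val L _ _ _ x y w (FA1.fr_free κ g1) g2).trans
        (Ψ.kills _ _ _ _ (m₁ + Nat.card κ) m₂
          (FA3.dm_pair ((FA3.dm_map _).2 h1) (FA3.dm_vec _)) ((FA3.dm_map _).2 h2) (by omega)))⟩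
  exact (val L M α T x y w hT m).symm.trans (hv j Φ' L x y w)

theorem FC4_thm {K : Type} [Field K] [Base K] {p : ℕ} [Fact p.Prime] [CharP K p] [FA1 K] [FA3 K]
    [FC1 K p] [FC2 K p] : FC4 K p :=
  ⟨fun f hf _ Ψ h => fc4_uniq f hf Ψ h, fun f hf => fc4_lin f hf⟩

end Pool.Agent.Lib.MP_557161_ag.HG
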