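import Pool.Agent.Lib.MP_557161_ag.HG.St1

/-!
Stationary phase in several variables.
-/

namespace Pool.Agent.Lib.MP_557161_ag.HG

open Pool.Agent.Lib.MP_557161_ag.DL

variable {K : Type} [Field K] {p : ℕ}

namespace FC5a

/-- The pull back along a map with a regular left inverse. -/
theorem pull_iso [FC1 K p] {c c' d : Cd} {E : Ph K c} {E' : Ph K c'} {W : ASp K d}
    {f : ∀ L : Fld K, c'.X L → c.X L} (g : ∀ L : Fld K, c.X L → c'.X L) (hf : PMp E' E f)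
    (hg : Mp E.S E'.S g) (e : ∀ L x, E'.S.mem L x → g L (f L x) = x) {j : ℕ} (Φ : NF p j E W) :
    ∃ Φ' : NF p j E' W, ∀ L x y w, E'.S.mem L x → Φ'.b L x y w = Φ.b L (f L x) y w :=
  FC1.pull hf (Pro.of_left hg hf.toMp e) Φ

/-- The existence of the functional with the given generic values. -/
theorem val [FA1 K] [FC1 K p] [FC3 K p] (n : ℕ) : ∀ {c d : Cd} {E : Ph K c} {W : ASp K d}
    {κ : Type} [Fintype κ] (f : ∀ L : Fld K, c.X L → κ → L) (hf : Reg E.S (.vec κ) f) {j i : ℕ}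
    (Φ : NF p j (E.zer f hf) W), Nat.card κ = n → i = j + n → ∃ Ψ : NF p i (E.lin f hf) W,
      ∀ (L M : Fld K) (α : L →ₐ[K] M) (T : κ → M) x y w, Free j α T → (E.zer f hf).S.mem L x →
        Ψ.b M (c.map α x, T) (α y) (d.map α w) = (-1) ^ n * Φ.b L x y w := by
  induction n with
  | zero =>
    intro c d E W κ _ f hf j i Φ hn hi
    obtain rfl : j = i := hi.symm
    have : IsEmpty κ := by
      rwa [Nat.card_eq_fintype_card, Fintype.card_eq_zero_iff] at hn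
    obtain ⟨Ψ, hΨ⟩ := pull_iso (E' := E.lin f hf) (E := E.zer f hf) (f := fun _ x => x.1)
      (fun _ x => (x, isEmptyElim))
      ⟨⟨fun _ _ _ _ _ _ _ e => e.1, fun _ _ m => ⟨m.1, isEmptyElim⟩⟩,
        fun L x _ => by simp [Ph.lin, Ph.zer, Ph.res]⟩
      ⟨fun _ _ _ _ _ _ _ e => ⟨e, isEmptyElim⟩, fun _ _ m => ⟨m.1, trivial⟩⟩
      (fun _ x _ => Prod.ext rfl (funext isEmptyElim)) Φ
    refine ⟨Ψ, fun L M α T x y w hF hx => ?_⟩
    rw [hΨ _ _ _ _ ⟨(E.S.map_iff α x).2 hx.1, trivial⟩]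
    have := Φ.ext α (some ((x, y), w)) hF.gL (by simpa only [hn, Nat.add_zero] using hF.gM)
    rw [deg_of_surj (FA1.zero.1 hF).2, Nat.cast_one] at this
    rw [pow_zero]
    exact this
  | succ n ih =>
    intro c d E W κ _ f hf j i Φ hn hi
    classical
    obtain ⟨s⟩ : Nonempty κ := (Nat.card_pos_iff.1 (by omega : 0 < Nat.card κ)).1
    have hc : Nat.card {a // ¬ a = s} = n := by
      rw [Nat.card_eq_fintype_card] at hn ⊢
      rw [Fintype.card_subtype_compl, Fintype.card_subtype_eq, hn]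
      rfl
    let f' : ∀ L : Fld K, c.X L → {a // ¬ a = s} → L := fun L x a => f L x a
    have hf' : Reg E.S (.vec {a // ¬ a = s}) f' := fun _ _ R _ _ m m' e a => hf R m m' e a
    let g : ∀ L : Fld K, c.X L → Unit → L := fun L x _ => f L x s
    have hg : Reg E.S (.vec Unit) g := fun _ _ R _ _ m m' e _ => hf R m m' e s
    have hg' : Reg (E.zer f' hf').S (.vec Unit) g := hg.mono fun _ _ m => m.1
    obtain ⟨Φ₁, h₁⟩ := pull_iso (E' := (E.zer f' hf').zer g hg') (E := E.zer f hf)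
      (f := fun _ x => x) (fun _ x => x)
      ⟨⟨Reg.id _, fun _ _ m => ⟨m.1.1, fun a =>
        if e : a = s then e ▸ m.2 () else m.1.2 ⟨a, e⟩⟩⟩, fun _ _ _ => rfl⟩
      ⟨Reg.id _, fun _ _ m => ⟨⟨m.1, fun a => m.2 a⟩, fun _ => m.2 s⟩⟩ (fun _ _ _ => rfl) Φ
    obtain ⟨Ψ₁, h₂⟩ := FC3.s5 g hg' Φ₁
    let f₂ : ∀ L : Fld K, (c.prod (.vec Unit)).X L → {a // ¬ a = s} → L := fun L x => f' L x.1
    have hf₂ : Reg (E.lin g hg).S (.vec _) f₂ := fun _ _ R _ _ m m' e => hf' R m.1 m'.1 e.1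
    obtain ⟨Ψ₂, h₃⟩ := pull_iso (E' := (E.lin g hg).zer f₂ hf₂) (E := (E.zer f' hf').lin g hg')
      (f := fun _ x => x) (fun _ x => x)
      ⟨⟨Reg.id _, fun _ _ m => ⟨⟨m.1.1, m.2⟩, trivial⟩⟩, fun _ _ _ => rfl⟩
      ⟨Reg.id _, fun _ _ m => ⟨⟨m.1.1, trivial⟩, m.1.2⟩⟩ (fun _ _ _ => rfl) Ψ₁
    obtain ⟨Ψ₃, h₄⟩ := ih f₂ hf₂ (i := i) Ψ₂ hc (by omega)
    obtain ⟨Ψ, h₅⟩ := pull_iso (E' := E.lin f hf) (E := (E.lin g hg).lin f₂ hf₂)
      (f := fun _ x => ((x.1, fun _ => x.2 s), fun a => x.2 a))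
      (fun _ x => (x.1.1, fun a => if h : a = s then x.1.2 () else x.2 ⟨a, h⟩))
      ⟨⟨fun _ _ _ _ _ _ _ e => ⟨⟨e.1, fun _ => e.2 s⟩, fun a => e.2 a⟩,
        fun _ _ m => ⟨⟨m.1, trivial⟩, trivial⟩⟩, fun L x _ => by
          change E.φ L x.1 + ∑ _u : Unit, x.2 s * f L x.1 s +
            ∑ a : {a // ¬ a = s}, x.2 a * f L x.1 a = E.φ L x.1 + ∑ a, x.2 a * f L x.1 a
          rw [Fintype.sum_eq_add_sum_subtype_ne (fun a => x.2 a * f L x.1 a) s, Fintype.sum_unique,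
            add_assoc]⟩
      ⟨fun _ _ _ _ _ _ _ e => ⟨e.1.1, fun a => by
          by_cases h : a = s
          · simpa only [dif_pos h] using e.1.2 ()
          · simpa only [dif_neg h] using e.2 ⟨a, h⟩⟩, fun _ _ m => ⟨m.1.1, trivial⟩⟩
      (fun _ x _ => Prod.ext rfl (funext fun a => by
        by_cases h : a = s
        · subst h
          exact dif_pos rfl
        · exact dif_neg h)) Ψ₃
    refine ⟨Ψ, fun L M α T x y w hF hx => ?_⟩
    obtain ⟨M₁, α₁, β, T₁, rfl, hT, F₁, F₂⟩ := FA1.split hF (· = s)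
    rw [Nat.card_unique] at F₂
    obtain ⟨g₁, t₁, n₁⟩ := FA1.one.1 F₁
    have hx₁ : ((E.zer f' hf').zer g hg').S.mem L x := ⟨⟨hx.1, fun a => hx.2 a⟩, fun _ => hx.2 s⟩
    have hx₂ : (E.zer f' hf').S.mem M₁ (c.map α₁ x) := ((E.zer f' hf').S.map_iff α₁ x).2 hx₁.1
    have e₄ := h₄ M₁ M β _ (c.map α₁ x, fun _ => T₁ default) (α₁ y) (d.map α₁ w) F₂
      ⟨⟨hx₂.1, trivial⟩, hx₂.2⟩
    rw [h₃ _ _ _ _ ⟨⟨hx₂.1, trivial⟩, hx₂.2⟩, h₂ L M₁ α₁ _ x y w g₁ t₁ n₁ hx₁, h₁ _ _ _ _ hx₁] at e₄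
    rw [h₅ _ _ _ _ ⟨(E.S.map_iff _ x).2 hx.1, trivial⟩, pow_succ, mul_assoc, neg_one_mul, ← e₄]
    change Ψ₃.b M ((c.map (fun a => β (α₁ a)) x, fun _ => T s), _) _ (d.map (fun a => β (α₁ a)) w) =
      Ψ₃.b M ((c.map β (c.map α₁ x), fun _ => β (T₁ default)), _) _ _
    rw [c.map_map, d.map_map, hT]
    rfl

end FC5a

theorem FC5_thm [FA1 K] [FC1 K p] [FC3 K p] [FC4 K p] : FC5 K p where
  s5 {c d E W κ} _ f hf {j} Φ := by
    obtain ⟨Ψ, h⟩ := FC5a.val _ f hf Φ rfl rfl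
    refine ⟨Ψ, h, fun γ γ' σ χ hγ hφ hΦ => ?_⟩
    obtain ⟨Ψ', h'⟩ := FC5a.pull_iso (E' := E.lin f hf) (E := E.lin f hf)
      (f := fun L x => (γ L x.1, fun i => x.2 (σ i))) (fun L x => (γ' L x.1, fun i => x.2 (σ.symm i)))
      ⟨⟨fun _ _ R _ _ m m' e => ⟨hγ.mf.reg R m.1 m'.1 e.1, fun i => e.2 _⟩,
        fun _ _ m => ⟨hγ.mf.mem _ _ m.1, trivial⟩⟩, fun L x m => by
          change E.φ L (γ L x.1) + ∑ i, x.2 (σ i) * f L (γ L x.1) i =
            E.φ L x.1 + ∑ i, x.2 i * f L x.1 i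
          rw [(hφ L x.1 m.1).1, ← Equiv.sum_comp σ fun i => x.2 i * f L x.1 i]
          simp only [(hφ L x.1 m.1).2]⟩
      ⟨fun _ _ R _ _ m m' e => ⟨hγ.mg.reg R m.1 m'.1 e.1, fun i => e.2 _⟩,
        fun _ _ m => ⟨hγ.mg.mem _ _ m.1, trivial⟩⟩
      (fun L x m => Prod.ext (hγ.gf L x.1 m.1)
        (funext fun i => congrArg x.2 (σ.apply_symm_apply i))) Ψ
    obtain ⟨Θ, hΘ⟩ := FC1.sum (Finset.univ : Finset Bool) (fun b => cond b 1 (-χ))
      fun b => cond b Ψ' Ψ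
    simp only [Fintype.sum_bool, cond_true, cond_false, one_mul] at hΘ
    have h0 := FC4.uniq f hf Θ fun j' L M α T x y w hj hF hx => by
      obtain rfl : j = j' := Nat.add_right_cancel hj
      have hF' : Free j α fun i => T (σ i) := ⟨hF.gL, hF.gM, by
        rw [← hF.top, gen, gen, show Set.range (fun i => T (σ i)) = Set.range T from
          σ.surjective.range_comp T]⟩
      have hx' : (E.zer f hf).S.mem L (γ L x) :=
        ⟨hγ.mf.mem _ _ hx.1, fun i => ((hφ L x hx.1).2 i).trans (hx.2 _)⟩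
      rw [hΘ, h' _ _ _ _ ⟨(E.S.map_iff α x).2 hx.1, trivial⟩, h L M α T x y w hF hx]
      change Ψ.b M (γ M (c.map α x), fun i => T (σ i)) _ _ + _ = 0
      rw [hγ.mf.reg.nat α hx.1, h L M α _ _ y w hF' hx', hΦ L x y w hx]
      ring
    intro L x y w hx
    have := h0 L x y w
    rw [hΘ, h' _ _ _ _ hx] at this
    linear_combination this
  lin {c d E W κ} _ f hf H j Φ L x y w := by
    by_contra h0
    obtain ⟨h1, h2, -⟩ := FC1.mem Φ h0
    obtain ⟨Ψ, h⟩ := FC5a.val _ f hf Φ rfl rfl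
    have := h L _ _ _ x y w (FA1.fr_free κ h1) h2
    rw [H] at this
    exact mul_ne_zero (pow_ne_zero _ (neg_ne_zero.2 one_ne_zero)) h0 this.symm

end Pool.Agent.Lib.MP_557161_ag.HG
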