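import Pool.Agent.Lib.MP_557161_ag.HG.St1

/-!
Specialisation of the phase, and divisors on Artin-Schreier covers.
-/

namespace Pool.Agent.Lib.MP_557161_ag.HG

open Pool.Agent.Lib.MP_557161_ag.DL
open CKL (isDiv_comap)

namespace C6

open Polynomial in
lemma prod_add (L : Type) [Field L] (p : ℕ) [hp : Fact p.Prime] [CharP L p] (η : L) :
    ∏ a ∈ Finset.range p, (η + (a : L)) = η ^ p - η := by
  have h1 := hp.out.one_lt
  have m1 : (∏ a ∈ Finset.range p, (X + C (a : L))).Monic :=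
    monic_prod_of_monic _ _ fun _ _ => monic_X_add_C _
  have d1 : (∏ a ∈ Finset.range p, (X + C (a : L))).degree = (p : WithBot ℕ) := by
    rw [degree_prod]
    simp only [degree_X_add_C, Finset.sum_const, Finset.card_range, nsmul_eq_mul, mul_one]
  have d0 : (X : L[X]).degree < p := by rw [degree_X]; exact_mod_cast h1
  have d2 : (X ^ p - X : L[X]).degree = p := by
    rw [degree_sub_eq_left_of_degree_lt (by rwa [degree_X_pow]), degree_X_pow]
  have e := eq_of_degree_sub_lt_of_eval_index_eq (Finset.range p) (v := fun a : ℕ => -(a : L))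
    (f := ∏ a ∈ Finset.range p, (X + C (a : L))) (g := X ^ p - X)
    (fun a ha b hb h => CharP.natCast_injOn_Iio L p (by simpa using ha) (by simpa using hb)
      (neg_injective h))
    (by
      rw [Finset.card_range, ← d1]
      exact degree_sub_lt_left (d1.trans d2.symm) m1.ne_zero
        (m1.leadingCoeff.trans (monic_X_pow_sub d0).leadingCoeff.symm))
    fun a ha => by
      rw [eval_prod, Finset.prod_eq_zero ha (by simp), eval_sub, eval_pow, eval_X,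
        ← frobenius_def, map_neg, map_natCast, sub_self]
  simpa [eval_prod] using congrArg (eval η) e

lemma hasS_sum {α β : Type} (s : Finset β) {g : β → α → ℂ} {r : β → ℂ}
    (h : ∀ b ∈ s, HasS (g b) (r b)) : HasS (fun a => ∑ b ∈ s, g b a) (∑ b ∈ s, r b) :=
  ⟨(s.finite_toSet.biUnion fun b hb => (h b hb).1).subset (Finset.support_sum s g),
    (finsum_sum_comm s (fun a b => g b a) fun b hb => (h b hb).1).trans
      (Finset.sum_congr rfl fun b hb => (h b hb).2)⟩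

lemma hasS_zero {α : Type} {g : α → ℂ} {r : ℂ} (h : HasS g r) (h0 : ∀ a, g a = 0) : r = 0 :=
  h.2.symm.trans (finsum_eq_zero_of_forall_eq_zero h0)

variable {K : Type} [Field K] {c d : Cd} {p j : ℕ} {L M M' : Fld K}

lemma ord_one (O : Pl M) : O.ord 1 = 0 :=
  Pl.ord_eq_zero_of_mem one_ne_zero (one_mem _) (by rw [inv_one]; exact one_mem _)

lemma ord_prod {O : Pl M} (hO : O.IsDVR) {β : Type} (s : Finset β) {f : β → M}
    (h : ∀ b ∈ s, f b ≠ 0) : O.ord (∏ b ∈ s, f b) = ∑ b ∈ s, O.ord (f b) := by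
  classical
  induction s using Finset.induction_on with
  | empty => simpa using ord_one O
  | insert a s ha ih =>
    rw [Finset.prod_insert ha, Finset.sum_insert ha, Pl.ord_mul hO (h a (by simp))
      (Finset.prod_ne_zero_iff.2 fun b hb => h b (by simp [hb])), ih fun b hb => h b (by simp [hb])]

lemma mem_of_as {O : Pl M} (hp : 1 < p) {η : M} (h : η ^ p - η ∈ O.O) : η ∈ O.O := by
  refine ValC.mem_of_integral (A := O.O) (fun a => a.2)
    ⟨Polynomial.X ^ p - (Polynomial.X + Polynomial.C ⟨_, h⟩), Polynomial.monic_X_pow_sub ?_, ?_⟩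
  · rw [Polynomial.degree_X_add_C]
    exact_mod_cast hp
  · simp

lemma v_none {S : ASp K c} (θ : Pre j S.sp) (L : Fld K) : θ.v L none = 0 :=
  not_not.1 fun h => (θ.supp _ _ h).2.elim fun _ e => nomatch e.1

lemma red_none {O : Pl M} {x : c.X M} (h : ¬ c.all (· ∈ O.O) x) :
    (c.amb K).red O (some x) = none := if_neg h

lemma lift_rd {O : Pl M} {x : c.X M} (h : c.all (· ∈ O.O) x) :
    c.lift (Rel.ofPl O).r x (c.map O.rd x) := (Cd.lift_pl O).2 ⟨h, rfl⟩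

variable {E : Ph K c} {W : ASp K d} (Φ : NF p j E W)

/-- The value at the reduction. -/
noncomputable def vr (O : Pl M) (x : c.X M) (y : M) (w : d.X M) : ℂ :=
  Φ.v O.res ((((c.prod .one).prod d).amb K).red O (some ((x, y), w)))

lemma vr_of_lift {O : Pl M} {x : c.X M} {y : M} {w : d.X M} {x' : c.X O.res} {y' : O.res}
    {w' : d.X O.res} (hx : c.lift (Rel.ofPl O).r x x') (hy : (Rel.ofPl O).r y y')
    (hw : d.lift (Rel.ofPl O).r w w') : vr Φ O x y w = Φ.b O.res x' y' w' :=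
  congrArg (Φ.v O.res) (Cd.red_some (c := (c.prod .one).prod d) (x := ((x, y), w))
    (x' := ((x', y'), w')) ⟨⟨hx, hy⟩, hw⟩)

lemma vr_ne {O : Pl M} {x : c.X M} {y : M} {w : d.X M} (h : vr Φ O x y w ≠ 0) :
    c.all (· ∈ O.O) x ∧ y ∈ O.O ∧ d.all (· ∈ O.O) w := by
  by_contra h'
  apply h
  rw [vr, red_none (c := (c.prod .one).prod d) (O := O) (x := ((x, y), w))
    fun e => h' ⟨e.1.1, e.1.2, e.2⟩]
  exact v_none Φ.toPre _

lemma vr_nt (O : Pl M) (x : c.X M) (y : M) (w : d.X M) :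
    ∑ a ∈ Finset.range p, vr Φ O x (y + a) w = 0 := by
  by_contra h
  obtain ⟨a, -, ha⟩ := Finset.exists_ne_zero_of_sum_ne_zero h
  obtain ⟨h1, h2, h3⟩ := vr_ne Φ ha
  have h4 : y ∈ O.O := by simpa using sub_mem h2 (natCast_mem O.O a)
  apply h
  rw [← Φ.nt O.res (c.map O.rd x) (O.rd y) (d.map O.rd w)]
  exact Finset.sum_congr rfl fun a _ => vr_of_lift Φ (lift_rd h1)
    ((Rel.ofPl O).add ⟨h4, rfl⟩ ((Rel.ofPl O).natCast a)) (lift_rd h3)

lemma vr_add {O : Pl M} (x : c.X M) (y : M) (w : d.X M) {u : M} (hu : (Rel.ofPl O).r u 0) :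
    vr Φ O x (y + u) w = vr Φ O x y w := by
  by_cases h : c.all (· ∈ O.O) x ∧ y ∈ O.O ∧ d.all (· ∈ O.O) w
  · rw [vr_of_lift Φ (lift_rd h.1) ((Rel.ofPl O).add ⟨h.2.1, rfl⟩ hu) (lift_rd h.2.2), add_zero,
      vr_of_lift Φ (lift_rd h.1) ⟨h.2.1, rfl⟩ (lift_rd h.2.2)]
  · rw [not_not.1 fun e => h (vr_ne Φ e)]
    by_contra e
    obtain ⟨h1, h2, h3⟩ := vr_ne Φ e
    exact h ⟨h1, by simpa using sub_mem h2 hu.1, h3⟩

lemma pt_sum [hp : Fact p.Prime] [CharP M p] {O : Pl M} (hO : O.IsDVR) (x : c.X M) (y : M)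
    (w : d.X M) {η : M} (h : η ^ p - η ≠ 0) :
    ∑ a ∈ Finset.range p, (O.ord (η + a) : ℂ) * vr Φ O x (y + η + a) w =
      if 0 < O.ord (η ^ p - η) then (O.ord (η ^ p - η) : ℂ) * vr Φ O x y w else 0 := by
  have h0 : ∀ a ∈ Finset.range p, η + (a : M) ≠ 0 :=
    Finset.prod_ne_zero_iff.1 ((prod_add M p η).trans_ne h)
  by_cases hη : η ∈ O.O
  · have h1 := (Pl.ord_nonneg_iff hO).2 (sub_mem (pow_mem hη p) hη)
    rw [Finset.sum_congr rfl (g := fun a : ℕ => (O.ord (η + a) : ℂ) * vr Φ O x y w) fun a ha => ?_,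
      ← Finset.sum_mul, ← Int.cast_sum, ← ord_prod hO _ h0, prod_add]
    · split_ifs with h2
      · rfl
      · rw [le_antisymm (not_lt.1 h2) h1, Int.cast_zero, zero_mul]
    · rcases ((Pl.ord_nonneg_iff hO).2 (add_mem hη (natCast_mem O.O a))).eq_or_lt with e | e
      · rw [← e, Int.cast_zero, zero_mul, zero_mul]
      · rw [add_assoc, vr_add Φ x y w ((Pl.ord_pos_iff hO (h0 a ha)).1 e)]
  · have h1 : η ≠ 0 := fun e => hη (e ▸ zero_mem _)
    have h2 : η⁻¹ ∈ O.O := (O.O.mem_or_inv_mem η).resolve_left hη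
    have h3 : O.rd η⁻¹ = 0 := not_not.1 fun e => hη (by
      simpa using ((O.rd_ne_zero_iff h2).1 e).2)
    rw [if_neg fun e => hη (mem_of_as hp.out.one_lt ((Pl.ord_nonneg_iff hO).1 e.le)),
      Finset.sum_congr rfl (g := fun a : ℕ => (O.ord η : ℂ) * vr Φ O x (y + η + a) w)
        fun a ha => ?_, ← Finset.mul_sum, vr_nt, mul_zero]
    have h4 := (Rel.ofPl O).add (Rel.ofPl O).one
      ((Rel.ofPl O).mul ((Rel.ofPl O).natCast a) ⟨h2, h3⟩)
    have h5 := (O.rd_ne_zero_iff h4.1).1 (by rw [h4.2]; simp)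
    rw [show η + a = η * (1 + a * η⁻¹) by field_simp, Pl.ord_mul hO h1 h5.1,
      Pl.ord_eq_zero_of_mem h5.1 h4.1 h5.2, add_zero]

lemma vr_over {ι : M →ₐ[K] M'} {O : Pl M} {O' : Pl M'} (h : Pl.Over ι O O') (x : c.X M) (y : M)
    (w : d.X M) : vr Φ O' (c.map ι x) (ι y) (d.map ι w) =
      Φ.v O'.res ((((c.prod .one).prod d).amb K).map h.resHom
        ((((c.prod .one).prod d).amb K).red O (some ((x, y), w)))) :=
  congrArg (Φ.v O'.res) ((((c.prod .one).prod d).amb K).red_map h (some ((x, y), w)))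

lemma exists_as (hp : 1 < p) (M : Fld K) (t : M) :
    ∃ (M' : Fld K) (ι : M →ₐ[K] M') (y : M'), Fin' ι ∧ y ^ p - y = ι t := by
  have d0 : (Polynomial.X + Polynomial.C (M.toCl t)).degree < (p : WithBot ℕ) := by
    rw [Polynomial.degree_X_add_C]
    exact_mod_cast hp
  obtain ⟨y₀, h₀⟩ := IsAlgClosed.exists_root (k := AlgebraicClosure M)
    (Polynomial.X ^ p - (Polynomial.X + Polynomial.C (M.toCl t))) (by
      rw [Polynomial.degree_sub_eq_left_of_degree_lt (by rwa [Polynomial.degree_X_pow]),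
        Polynomial.degree_X_pow]
      exact_mod_cast (by omega : p ≠ 0))
  obtain ⟨M', ι, κ, h1, h2, h3⟩ := exists_fin_sub M {y₀}
  obtain ⟨y, rfl⟩ := h3 y₀ (by simp)
  refine ⟨M', ι, y, h1, κ.injective ?_⟩
  have e : κ (ι t) = M.toCl t := by rw [← h2]; rfl
  simp only [Polynomial.IsRoot.def, Polynomial.eval_sub, Polynomial.eval_pow, Polynomial.eval_X,
    Polynomial.eval_add, Polynomial.eval_C] at h₀
  show κ _ = κ _
  rw [e, map_sub, map_pow]
  linear_combination h₀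

variable [Base K]

lemma push {ι : M →ₐ[K] M'} (b1 : Fin' ι) (hM : Good (j + 1) M) {g : M} (hg : g ≠ 0)
    (r : Dv M j → ℂ) {F : Dv M' j → ℂ} (hF : HasS F 0)
    (h : ∀ (O : Dv M j) (O' : Dv M' j) (h : Pl.Over ι O.1 O'.1),
      F O' = O'.1.ord (ι g) * (deg h.resHom * r O)) :
    HasS (fun O : Dv M j => (O.1.ord g : ℂ) * r O) 0 := by
  obtain ⟨c4, c5⟩ := fib_sum (β := Dv M j)
    (fun O' : Dv M' j => ⟨Pl.comap ι O'.1, isDiv_comap b1 O'.2⟩) hF.1
    (G := fun O => deg ι * ((O.1.ord g : ℂ) * r O)) fun O => by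
      have d1 : Function.Injective fun O' : {O' : Pl M' // Pl.Over ι O.1 O'} =>
          (⟨O'.1, O'.2.isDiv b1 hM O.2⟩ : Dv M' j) :=
        fun _ _ e => Subtype.ext (congrArg Subtype.val e :)
      have d2 := Pl.sum_ord_nrm b1 hM O.2 ((map_ne_zero ι).2 hg)
      have : Finite {O' : Pl M' // Pl.Over ι O.1 O'} := Pl.finite_over b1 hM O.2
      have := Fintype.ofFinite {O' : Pl M' // Pl.Over ι O.1 O'}
      rw [nrm_map, Pl.ord_pow O.2.1, finsum_eq_sum_of_fintype] at d2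
      refine (finsum_mem_congr (t := Set.range _) ?_ fun _ _ => rfl).trans
        ((finsum_mem_range d1).trans ?_)
      · ext O'
        exact ⟨fun e => ⟨⟨O'.1, e ▸ Pl.over_comap ι O'.1⟩, rfl⟩,
          by rintro ⟨O'', rfl⟩; exact Subtype.ext O''.2.eq_comap.symm⟩
      · rw [finsum_eq_sum_of_fintype, ← mul_assoc, ← Int.cast_natCast, ← Int.cast_mul, ← d2,
          Int.cast_sum, Finset.sum_mul]
        refine Finset.sum_congr rfl fun O' _ => ?_
        rw [h O ⟨O'.1, O'.2.isDiv b1 hM O.2⟩ O'.2, Int.cast_mul, Int.cast_natCast, mul_assoc]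
  have c6 := c4.subset (Function.support_subset_iff.2 fun O (h : (O.1.ord g : ℂ) * r O ≠ 0) =>
    Function.mem_support.2 (mul_ne_zero (deg_ne b1) h))
  rw [hF.2, ← mul_finsum] at c5
  exact ⟨c6, (mul_eq_zero.1 c5).resolve_left (deg_ne b1)⟩

open Classical in
theorem asdiv [hp : Fact p.Prime] [CharP K p] [FA3 K] (M : Fld K) (x : c.X M) (y : M) (w : d.X M)
    (hM : Good (j + 1) M) (hx : E.S.mem M x) (hw : W.mem M w) (he : E.φ M x - (y ^ p - y) ≠ 0) :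
    HasS (fun O : Dv M j => if 0 < O.1.ord (E.φ M x - (y ^ p - y)) then
      (O.1.ord (E.φ M x - (y ^ p - y)) : ℂ) *
        rv (c := (c.prod .one).prod d) Φ.toPre.a O.1 ((x, y), w) else 0) 0 := by
  obtain ⟨M', ι, y', b1, hy'⟩ := exists_as hp.out.one_lt M (E.φ M x)
  have : CharP M' p := charP_of_injective_algebraMap (algebraMap K M').injective p
  have e1 : (y' - ι y) ^ p - (y' - ι y) = ι (E.φ M x - (y ^ p - y)) := by
    rw [sub_pow_char, map_sub, map_sub, map_pow, ← hy']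
    ring
  have e0 : (y' - ι y) ^ p - (y' - ι y) ≠ 0 := e1 ▸ (map_ne_zero ι).2 he
  have H := hasS_sum (Finset.range p) fun a ha => Φ.rat M'
    (some ((c.map ι x, ι y + (y' - ι y) + a), d.map ι w)) (y' - ι y + a) (hM.of_fin b1)
    ⟨_, rfl, ⟨⟨(E.S.map_iff ι x).2 hx, trivial⟩, by
      show (ι y + (y' - ι y) + a) ^ p - _ = E.φ M' (c.map ι x)
      rw [E.reg.nat ι hx, add_pow_char, add_sub_cancel, ← frobenius_def p (a : M'), map_natCast]
      linear_combination hy'⟩, (W.map_iff ι w).2 hw⟩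
    (Finset.prod_ne_zero_iff.1 ((prod_add M' p _).trans_ne e0) a ha)
  rw [Finset.sum_const_zero] at H
  have H' := push b1 hM he (fun O => if 0 < O.1.ord (E.φ M x - (y ^ p - y)) then vr Φ O.1 x y w
    else 0) H fun O O' h => by
      obtain ⟨k, k0, hk⟩ := h.exists_ram O'.2.1 O.2.1.ne_top
      refine (pt_sum Φ O'.2.1 _ _ _ e0).trans ?_
      rw [e1, vr_over Φ h, Φ.ext _ _ (O.2.good hM) (O'.2.good (hM.of_fin b1))]
      simp only [hk, mul_pos_iff_of_pos_left k0, mul_ite, mul_zero]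
      rfl
  simp only [mul_ite, mul_zero] at H'
  convert H' using 4 with O
  exact (FA3.v_red Φ.toPre O.1 ((x, y), w) fun _ ⟨_, e, _⟩ => nomatch e).symm

section Spec

variable (E) (W) (p) (ψ : ∀ L : Fld K, c.X L → L) (hψ : Reg E.S .one ψ)

/-- The deformation over the affine line. -/
def dfa : Ph K (c.prod .one) where
  S := E.S.prod (.univ K .one)
  φ L x := E.φ L x.1 + x.2 * ψ L x.1
  reg _ _ R _ _ m m' e := R.add (E.reg R m.1 m'.1 e.1) (R.mul e.2 (hψ R m.1 m'.1 e.1))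

/-- The total space. -/
abbrev tP : ASp K (((c.prod .one).prod .one).prod d) := ((dfa E ψ hψ).tot p).prod W

/-- The special fibre. -/
def tD : ASp K (((c.prod .one).prod .one).prod d) :=
  (tP p E W ψ hψ).cl (fun _ z => z.1.1.2 = 0) fun _ _ _ _ _ _ _ e h => Rel.eq_zero e.1.1.2 h

/-- The special fibre as a Cartier divisor. -/
def car : Car (tP p E W ψ hψ).sp (tD p E W ψ hψ).sp where
  ι := Unit
  fin := inferInstance
  U _ := (tP p E W ψ hψ).sp
  opn _ := ⟨fun _ _ h => h, fun _ _ _ _ h _ => h⟩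
  cov _ _ h := ⟨(), h⟩
  t _ _ _ _ := 1
  s _ _ y := Option.elim y 0 fun z => z.1.1.2
  rt _ _ := ⟨fun ι _ _ => (map_one ι).symm, fun O _ _ _ _ => ⟨one_mem _, O.rd_one⟩⟩
  rs _ := ⟨by rintro L L' ι _ ⟨z, rfl, -⟩; rfl, by
    rintro M O _ - ⟨z, rfl, -⟩ ⟨z', e, -⟩
    rw [e]
    exact (Cd.lift_of_red e).1.1.2⟩
  t_ne _ _ _ _ _ _ := one_ne_zero
  coc _ _ _ _ _ _ _ _ := one_mul _
  s_eq _ _ _ _ _ _ := (one_mul _).symm
  sub := by
    rintro L _ ⟨z, rfl, h⟩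
    exact ⟨z, rfl, h.1⟩
  zero := by
    rintro _ L _ ⟨z, rfl, h⟩
    exact ⟨fun e => ⟨z, rfl, h, e⟩, fun e => ((tD p E W ψ hψ).sp_some.1 e).2⟩

variable {E W p}

omit [Base K] in
open Classical in
lemma exists_fib : ∃ θ : Fe j (tD p E W ψ hψ).sp, ∀ (M : Fld K) (O : Pl M) x l y w,
    θ.v O.res (((((c.prod .one).prod .one).prod d).amb K).red O (some (((x, l), y), w))) =
      if (Rel.ofPl O).r l 0 then vr Φ O x y w else 0 := by
  have hf : Mp (tD p E W ψ hψ) ((E.tot p).prod W) fun _ z => ((z.1.1.1, z.1.2), z.2) :=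
    ⟨fun _ _ _ _ _ _ _ e => ⟨⟨e.1.1.1, e.1.2⟩, e.2⟩, fun L z h => ⟨⟨⟨h.1.1.1.1.1, trivial⟩,
      h.1.1.2.trans (by
        show _ + z.1.1.2 * _ = _
        rw [show z.1.1.2 = 0 from h.2, zero_mul, add_zero])⟩, h.1.2⟩⟩
  have hg : Mp ((E.tot p).prod W) (tD p E W ψ hψ) fun _ z => (((z.1.1, 0), z.1.2), z.2) :=
    ⟨fun _ _ R _ _ _ _ e => ⟨⟨⟨e.1.1, R.zero⟩, e.1.2⟩, e.2⟩, fun L z h =>
      ⟨⟨⟨⟨⟨h.1.1.1, trivial⟩, trivial⟩, h.1.2.trans (by
        show _ = _ + (0 : L) * _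
        rw [zero_mul, add_zero])⟩, h.2⟩, rfl⟩⟩
  refine ⟨Φ.toFe.pull hf.mor (Pro.mor hf (Pro.of_left hg hf ?_)), fun M O x l y w => ?_⟩
  · rintro L ⟨⟨⟨x, l⟩, y⟩, w⟩ h
    obtain rfl : l = 0 := h.2
    rfl
  by_cases h : c.all (· ∈ O.O) x ∧ l ∈ O.O ∧ y ∈ O.O ∧ d.all (· ∈ O.O) w
  · rw [Cd.red_some (c := ((c.prod .one).prod .one).prod d) (x := (((x, l), y), w))
      (x' := (((c.map O.rd x, O.rd l), O.rd y), d.map O.rd w))
      ⟨⟨⟨lift_rd h.1, h.2.1, rfl⟩, h.2.2.1, rfl⟩, lift_rd h.2.2.2⟩,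
      vr_of_lift Φ (lift_rd h.1) ⟨h.2.2.1, rfl⟩ (lift_rd h.2.2.2)]
    split_ifs with h0
    · rw [h0.2]
      refine ite_eq_left_iff.2 fun e => Eq.symm (not_not.1 fun e' => e ?_)
      exact ⟨_, rfl, hg.mem _ _ (((E.tot p).prod W).sp_some.1 (Φ.supp _ _ e').2)⟩
    · exact if_neg fun e => h0 ⟨h.2.1, ((tD p E W ψ hψ).sp_some.1 e).2⟩
  · rw [red_none (c := ((c.prod .one).prod .one).prod d) (O := O) (x := (((x, l), y), w))
      fun e => h ⟨e.1.1.1, e.1.1.2, e.1.2, e.2⟩, v_none]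
    split_ifs with h0
    · by_contra e
      obtain ⟨h1, h2, h3⟩ := vr_ne Φ (Ne.symm e)
      exact h ⟨h1, h0.1, h2, h3⟩
    · rfl

omit [Base K] in
open Classical in
lemma exists_cart [FB3 K] [FB4 K] : ∃ Ψ : Fe (j + 1) (tP p E W ψ hψ).sp,
    (∀ M x y w, Ψ.v M (some (((x, 0), y), w)) = 0) ∧
    ∀ (M : Fld K) x l y w, Good (j + 1) M → (tP p E W ψ hψ).mem M (((x, l), y), w) → l ≠ 0 →
      HasS (fun O : Dv M j => (O.1.ord l : ℂ) * if (Rel.ofPl O.1).r l 0 then vr Φ O.1 x y w else 0)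
        (Ψ.v M (some (((x, l), y), w))) := by
  obtain ⟨θ, hθ⟩ := exists_fib Φ ψ hψ
  obtain ⟨Ψ, hΨ⟩ := FB4.cart (FB3.aff _) (car p E W ψ hψ) θ
  have key : ∀ (M : Fld K) (z) (σ : M), Good (j + 1) M → (tP p E W ψ hψ).mem M z → σ ≠ 0 →
      (z.1.1.2 ≠ 0 → σ = z.1.1.2) → HasS (fun O : Dv M j => (O.1.ord σ : ℂ) *
        θ.v O.1.res (((((c.prod .one).prod .one).prod d).amb K).red O.1 (some z)))
        (Ψ.v M (some z)) := fun M z σ hM hz h0 h1 => by
    have hs : (car p E W ψ hψ).Sec (M := M) (some z) fun _ => σ := ⟨fun _ _ => h0, fun _ _ _ _ =>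
      (one_mul _).symm, fun e _ _ => h1 fun e' => e ⟨z, rfl, hz, e'⟩⟩
    convert hΨ M (some z) (fun _ => σ) hM ⟨z, rfl, hz⟩ hs using 2 with O
    by_cases e : θ.v O.1.res (((((c.prod .one).prod .one).prod d).amb K).red O.1 (some z)) = 0
    · rw [e, mul_zero, mul_zero]
    · rw [FB4.ord_eq (car p E W ψ hψ) (i := ()) O.2.1 ⟨z, rfl, hz⟩ hs
        ((car p E W ψ hψ).sub _ _ (θ.supp _ _ e).2)]
  refine ⟨Ψ, fun M x y w => not_not.1 fun h => h ?_, fun M x l y w hM hz h0 => ?_⟩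
  · obtain ⟨hM, hz⟩ := Ψ.supp _ _ h
    exact hasS_zero (key M _ 1 hM ((tP p E W ψ hψ).sp_some.1 hz) one_ne_zero fun e =>
      absurd rfl e) fun O => by rw [ord_one, Int.cast_zero, zero_mul]
  · simpa only [hθ] using key M _ l hM hz h0 fun _ => rfl

omit [Base K] in
open Classical in
lemma exists_nf [Fact p.Prime] [CharP K p] [FA3 K] [FB3 K] [FB4 K] :
    ∃ Ψ : NF p (j + 1) (dfa E ψ hψ) W, (∀ M x y w, Ψ.b M (x, 0) y w = 0) ∧
    ∀ (M : Fld K) x l y w, Good (j + 1) M → (tP p E W ψ hψ).mem M (((x, l), y), w) → l ≠ 0 →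
      HasS (fun O : Dv M j => (O.1.ord l : ℂ) * if (Rel.ofPl O.1).r l 0 then vr Φ O.1 x y w else 0)
        (Ψ.b M (x, l) y w) := by
  obtain ⟨Ψ, h0, h1⟩ := exists_cart Φ ψ hψ
  refine ⟨⟨Ψ, ?_, ?_⟩, h0, h1⟩
  · rintro M ⟨x, l⟩ y w
    by_contra h
    obtain ⟨b, -, hb⟩ := Finset.exists_ne_zero_of_sum_ne_zero h
    obtain ⟨hM, hz⟩ := Ψ.supp _ _ hb
    have hz := (tP p E W ψ hψ).sp_some.1 hz
    have : CharP M p := charP_of_injective_algebraMap (algebraMap K M).injective p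
    have e : ∀ a : ℕ, (y + a : M) ^ p - (y + a) = y ^ p - y := fun a => by
      rw [add_pow_char, ← frobenius_def p (a : M), map_natCast]
      ring
    refine h (hasS_zero (hasS_sum _ fun a _ => h1 M x l (y + a) w hM
      ⟨⟨hz.1.1, (e a).trans ((e b).symm.trans hz.1.2)⟩, hz.2⟩ fun e => hb (e ▸ h0 _ _ _ _))
      fun O => ?_)
    rw [← Finset.mul_sum, Finset.sum_ite_irrel, vr_nt, Finset.sum_const_zero, ite_self, mul_zero]
  · rintro M ⟨x, l⟩ y w m₁ m₂ ⟨F, hF, hm⟩ hw hj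
    by_contra h
    obtain ⟨hM, hz⟩ := Ψ.supp _ _ h
    have l0 : l ≠ 0 := fun e => h (e ▸ h0 _ _ _ _)
    refine h (hasS_zero (h1 M x l y w hM ((tP p E W ψ hψ).sp_some.1 hz) l0) fun O => ?_)
    by_contra h2
    have h3 := right_ne_zero_of_mul h2
    split_ifs at h3 with h4
    swap
    · exact h3 rfl
    have h5 : l⁻¹ ∉ O.1.O := fun e => (O.1.rd_ne_zero_iff h4.1).2 ⟨l0, e⟩ h4.2
    obtain ⟨a1, a2, a3⟩ := vr_ne Φ h3
    rcases m₁ with _ | m
    · refine absurd (Pl.tr_res_lt (Pl.comap (M := M.sub F) F.val O.1) (fun e => h5 ?_) hm) (by simp)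
      exact (Pl.over_comap (M := M.sub F) F.val O.1 ⟨l⁻¹, inv_mem hF.2⟩).1
        (e ▸ ValuationSubring.mem_top _)
    · refine h3 ((vr_of_lift Φ (lift_rd a1) ⟨a2, rfl⟩ (lift_rd a3)).trans (Φ.kills _ _ _ _ m m₂
        (FA3.dm_red_lt F (lift_rd a1) hF.1 hm ⟨_, inv_mem hF.2, h5⟩)
        (FA3.dm_red (lift_rd a3) hw) (by omega)))

open Classical in
theorem spec [Fact p.Prime] [CharP K p] [FA3 K] [FB3 K] [FB4 K] [FC1 K p]
    (hv : Van p (E.dfm ψ hψ) W) (L : Fld K) (x : c.X L) (y : L) (w : d.X L) (h : ψ L x = 0) :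
    Φ.b L x y w = 0 := by
  by_contra hne
  obtain ⟨hL, hx, hy, hw⟩ := FC1.mem Φ hne
  obtain ⟨Ψ, h0, h1⟩ := exists_nf Φ ψ hψ
  obtain ⟨Ψ', h2⟩ := FC1.res (E := dfa E ψ hψ) (E' := E.dfm ψ hψ)
    ⟨⟨Reg.id _, fun _ _ m => ⟨m.1, trivial⟩⟩, fun _ _ _ => rfl⟩ Ψ fun L x y w e =>
      ⟨(FC1.mem Ψ e).2.1.1, fun e' => e (by
        rw [show x = (x.1, 0) from Prod.ext rfl e']
        exact h0 _ _ _ _)⟩
  have ht := trans_rat L
  have hg := gen_rat L
  have T0 : (RatFunc.X : L.rat) ≠ 0 := RatFunc.X_ne_zero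
  have H := (h1 L.rat (c.map L.toRat x) RatFunc.X (L.toRat y) (d.map L.toRat w) (hL.succ ht hg)
    ⟨⟨⟨⟨(E.S.map_iff _ x).2 hx, trivial⟩, trivial⟩, by
      show L.toRat y ^ p - L.toRat y = E.φ _ (c.map L.toRat x) + _ * ψ _ (c.map L.toRat x)
      rw [E.reg.nat _ hx, hψ.nat _ hx, h]
      show _ = L.toRat _ + _ * L.toRat 0
      rw [map_zero, mul_zero, add_zero, ← hy, map_sub, map_pow]⟩, (W.map_iff _ w).2 hw⟩ T0).2
  rw [← h2, hv] at H
  obtain ⟨O₀, h₀, d₀, o₀, s₀⟩ := Pl.exists_zero_place ht hg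
  have i₀ : O₀.IsDiv j := ⟨d₀, (Fin'.of_surj s₀).tr_eq.trans hL.2⟩
  have r₀ : (Rel.ofPl O₀).r RatFunc.X 0 := (Pl.ord_pos_iff d₀ T0).1 (o₀ ▸ one_pos)
  rw [finsum_eq_single _ ⟨O₀, i₀⟩] at H
  · have e := Φ.ext h₀.hom (some ((x, y), w)) hL (i₀.good (hL.succ ht hg))
    rw [deg_of_surj s₀, Nat.cast_one, one_mul] at e
    simp only [o₀, Int.cast_one, one_mul] at H
    rw [if_pos r₀, vr_of_lift Φ (Cd.lift_triv h₀ x) ⟨h₀ y, (h₀.hom_apply y).symm⟩
      (Cd.lift_triv h₀ w)] at H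
    exact hne (e.symm.trans H)
  · intro O hO
    by_contra h3
    have h4 := right_ne_zero_of_mul h3
    split_ifs at h4 with h5
    swap
    · exact h4 rfl
    by_cases hT : Pl.Triv L.toRat O.1
    · exact hO (Subtype.ext (Pl.zero_place_unique ht hg hT h₀
        (fun e => (O.1.rd_ne_zero_iff h5.1).2 ⟨T0, e⟩ h5.2)
        fun e => (O₀.rd_ne_zero_iff r₀.1).2 ⟨T0, e⟩ r₀.2))
    · refine h4 ((vr_over Φ (Pl.over_comap _ O.1) x y w).trans (Φ.low _ _ ?_))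
      exact Pl.tr_res_lt _ (fun e => hT fun a => (Pl.over_comap L.toRat O.1 a).1
        (e ▸ ValuationSubring.mem_top a)) hL.2.le

end Spec

end C6

theorem FC6_thm {K : Type} [Field K] [Base K] {p : ℕ} [Fact p.Prime] [CharP K p] [FA3 K] [FB3 K]
    [FB4 K] [FC1 K p] : FC6 K p where
  spec ψ hψ hv _ Φ := C6.spec Φ ψ hψ hv
  asdiv Φ := C6.asdiv Φ

end Pool.Agent.Lib.MP_557161_ag.HG
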