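import Pool.Agent.Lib.MP_557161_ag.HG.FA1
import Pool.Agent.Lib.MP_557161_ag.HG.FA2
import Pool.Agent.Lib.MP_557161_ag.HG.FA3
import Pool.Agent.Lib.MP_557161_ag.HG.FB0
import Pool.Agent.Lib.MP_557161_ag.HG.FB1
import Pool.Agent.Lib.MP_557161_ag.HG.FB2
import Pool.Agent.Lib.MP_557161_ag.HG.FB3
import Pool.Agent.Lib.MP_557161_ag.HG.FB4
import Pool.Agent.Lib.MP_557161_ag.HG.FB5
import Pool.Agent.Lib.MP_557161_ag.HG.FC1
import Pool.Agent.Lib.MP_557161_ag.HG.FC2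
import Pool.Agent.Lib.MP_557161_ag.HG.FC3
import Pool.Agent.Lib.MP_557161_ag.HG.FC4
import Pool.Agent.Lib.MP_557161_ag.HG.FC5
import Pool.Agent.Lib.MP_557161_ag.HG.FC6
import Pool.Agent.Lib.MP_557161_ag.HG.FC7

/-!
The general tools, assembled.
-/

namespace Pool.Agent.Lib.MP_557161_ag.HG

open Pool.Agent.Lib.MP_557161_ag.DL

variable {K : Type} [Field K] [Base K]

theorem FW0_thm : FW0 K :=
  have a1 : FA1 K := FA1_thm
  have a2 : FA2 K := FA2_thm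
  have a3 : FA3 K := FA3_thm
  have _ : FB0 K := FB0_thm
  have _ : FB1 K := FB1_thm
  have b2 : FB2 K := FB2_thm
  have b3 : FB3 K := FB3_thm
  have b4 : FB4 K := FB4_thm
  ⟨a1, a2, a3, b2, b3, b4, FB5_thm⟩

theorem FWp_thm {p : ℕ} [Fact p.Prime] [CharP K p] : FWp K p :=
  have _ : FW0 K := FW0_thm
  have c1 : FC1 K p := FC1_thm
  have c2 : FC2 K p := FC2_thm
  have _ : FC3 K p := FC3_thm
  have c4 : FC4 K p := FC4_thm
  have c5 : FC5 K p := FC5_thm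
  have c6 : FC6 K p := FC6_thm
  ⟨c1, c2, c4, c5, c6, FC7_thm⟩

end Pool.Agent.Lib.MP_557161_ag.HG
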