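import Pool.Agent.Lib.MP_557161_ag.HG.St2

/-!
Reduction of a chain that ends in a lower triangular matrix to the torus.
-/

namespace Pool.Agent.Lib.MP_557161_ag.HG

open Pool.Agent.Lib.MP_557161_ag.DL Matrix Fin

namespace BRA

section Prod

variable {A A' : Type} [Monoid A] [Monoid A'] {m : ℕ}

lemma pp_last (g : Fin m → A) : partialProd g (last m) = (List.ofFn g).prod := by
  simp [partialProd, List.take_of_length_le]

lemma pp_rel (r : A → A' → Prop) (h1 : r 1 1)
    (hm : ∀ {a a' b b'}, r a a' → r b b' → r (a * b) (a' * b')) {g : Fin m → A} {g' : Fin m → A'}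
    (h : ∀ j, r (g j) (g' j)) (i : Fin (m + 1)) : r (partialProd g i) (partialProd g' i) := by
  induction i using Fin.induction with
  | zero => simpa using h1
  | succ i ih => simpa only [partialProd_succ] using hm ih (h i)

lemma tele {μ : Fin (m + 1) → A} {ν : Fin m → A} (h : ∀ j, μ j.castSucc * ν j = μ j.succ)
    (i : Fin (m + 1)) : μ 0 * partialProd ν i = μ i := by
  induction i using Fin.induction with
  | zero => simp
  | succ i ih => rw [partialProd_succ, ← mul_assoc, ih, h]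

end Prod

section Mat

variable {F : Type} [Field F] {m n : ℕ}

lemma uni_det {u : Matrix (Fin n) (Fin n) F} (h : Uni Fin.val u) : u.det ≠ 0 := by
  rw [det_of_isUpperTriangular fun _ _ e => h.1 e]
  simp [h.2]

lemma pp_det {g : Fin m → Matrix (Fin n) (Fin n) F} (h : ∀ j, (g j).det ≠ 0) (i : Fin (m + 1)) :
    (partialProd g i).det ≠ 0 :=
  pp_rel (fun a _ : Matrix (Fin n) (Fin n) F => a.det ≠ 0) (by simp)
    (fun h h' => by rw [det_mul]; exact mul_ne_zero h h') (g' := g) h i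

lemma pp_ne {g : Fin m → F} (h : ∀ j, g j ≠ 0) (i : Fin (m + 1)) : partialProd g i ≠ 0 :=
  pp_rel (fun a (_ : F) => a ≠ 0) one_ne_zero mul_ne_zero (g' := g) h i

lemma psi_one : psi (1 : Matrix (Fin n) (Fin n) F) = 0 :=
  Finset.sum_eq_zero fun i _ => Finset.sum_eq_zero fun j _ => by
    split_ifs with h
    · exact one_apply_ne fun e => by rw [e] at h; omega
    · rfl

lemma stp_diag {a b : Fin n → F} (h : ∀ i, a i ≠ 0) :
    stp true (diagonal a) (diagonal fun i => a i * b i) = diagonal b := by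
  rw [stp, cond_true, ← diagonal_mul_diagonal, nonsing_inv_mul_cancel_left]
  rw [det_diagonal]
  exact (Finset.prod_ne_zero_iff.2 fun i _ => h i).isUnit

end Mat

variable {K : Type} [Field K] {cc : Cd} (C : EqD K cc) {n : ℕ} (e e' : Fin (n + 1) → ℕ)

/-- The context: a unitriangular matrix and a point of the torus. -/
noncomputable def ctx : EqD K (cc.prod ((sq (n + 1)).prod (.vec (Fin (n + 1))))) :=
  C.ext (((C.S.prod (.univ K ((sq (n + 1)).prod (.vec (Fin (n + 1)))))).opn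
      (fun _ x => ∀ i, x.2.2 i ≠ 0)
      fun _ _ _ _ _ _ _ e h i => Rel.ne_zero (e.2.2 i) (h i)).cl (fun _ x => Uni Fin.val x.2.1)
    fun _ _ _ _ _ _ _ e h => Rel.uni e.2.1 h) (fun _ _ h => h.1.1.1) (fun _ x => psi x.2.1)
    (fun _ x => ∏ i, x.2.2 i ^ e' i) (fun _ _ _ _ _ _ _ e => Rel.psi e.2.1)
    (fun _ _ _ _ _ _ _ e => Rel.prod _ fun i _ => Rel.pow (e.2.2 i) _)
    fun _ _ h => Finset.prod_ne_zero_iff.2 fun i _ => pow_ne_zero _ (h.1.2 i)

/-- The chain. -/
noncomputable def chn :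
    ChD K (cc.prod ((sq (n + 1)).prod (.vec (Fin (n + 1))))) (Fin (n + 1)) (n + 1) :=
  ⟨ctx C e', fun _ x => x.2.1, fun _ x => x.2.2, fun _ _ _ _ _ _ _ e => e.2.1,
    fun _ _ _ _ _ _ _ e => e.2.2, fun i => (rev i).val, val_injective.comp rev_injective,
    fun _ => true, e⟩

lemma iso_top : Iso ((chn C e e').Ch (n + 1)).S
    (chL (low C e') (fun _ x => x.2) (fun _ _ _ _ _ _ _ h => h.2) 1 e).S
    (fun _ x => ((x.1.1, x.2 (last _)), x.1.2.1, fun j => (x.2 j.castSucc)⁻¹ * x.2 j.succ))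
    fun _ x => ((x.1.1, x.2.1, fun i => x.1.2 i i), fun j => x.2.1 * partialProd x.2.2 j) := by
  have h1 : ∀ L x, ((chn C e e').Ch (n + 1)).S.mem L x → ∀ i,
      x.1.2.1 * partialProd (fun j => (x.2 j.castSucc)⁻¹ * x.2 j.succ) i = x.2 i := fun L x h i =>
    (congrArg (· * _) h.2.1.symm).trans
      (tele (fun j => mul_nonsing_inv_cancel_left _ _ (h.1.2 _).isUnit) i)
  have h2 : ∀ L x, (chL (low C e') (fun _ x => x.2) (fun _ _ _ _ _ _ _ h => h.2) 1 e).S.mem L x →
      x.2.1 * partialProd x.2.2 (last _) = x.1.2 := fun L x h => (pp_last x.2.2).symm ▸ h.2.2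
  have h3 : ∀ L x, (chL (low C e') (fun _ x => x.2) (fun _ _ _ _ _ _ _ h => h.2) 1 e).S.mem L x →
      ∀ j, (x.2.1 * partialProd x.2.2 j).det ≠ 0 := fun L x h j => by
    rw [det_mul]
    exact mul_ne_zero (uni_det h.2.1) (pp_det h.1.2 j)
  refine ⟨⟨fun _ _ R _ _ _ m' r => ⟨⟨r.1.1, r.2 _⟩, r.1.2.1, fun j =>
      Rel.mmul (Rel.minv (r.2 _) (m'.1.2 _)) (r.2 _)⟩, fun L x h =>
      ⟨⟨⟨⟨⟨⟨h.1.1.1.1.1.1, trivial⟩, fun i => ?_⟩, fun i j hij =>
        h.2.2.1 _ le_rfl (rev_lt_rev.2 hij)⟩, trivial⟩,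
        fun j => det_stp_ne true (h.1.2 _) (h.1.2 _)⟩, h.1.1.1.2, ?_⟩⟩,
    ⟨fun _ _ R _ _ _ _ r => ⟨⟨r.1.1, r.2.1, fun i => r.1.2 i i⟩, fun j =>
      Rel.mmul r.2.1 (pp_rel R.m' Rel.mone (fun a b => Rel.mmul a b) r.2.2 j)⟩, fun L x h =>
      ⟨⟨⟨⟨⟨⟨h.1.1.1.1.1.1, trivial⟩, h.1.1.1.1.2⟩, h.2.1⟩, trivial⟩, h3 L x h⟩, ?_, fun j hj => ?_,
        fun j hj => absurd j.2 (by omega), fun i => ?_⟩⟩, fun L x h => ?_, fun L x h => ?_⟩
  · exact (h.2.2.2.2 i).trans_ne (h.1.1.1.1.2 i)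
  · exact (congrArg (x.1.2.1 * ·) (pp_last _).symm).trans (h1 L x h _)
  · exact (congrArg _ (partialProd_zero _)).trans (mul_one _)
  · obtain rfl : j = last _ := last_le_iff.1 hj
    exact fun a b hab => (congrFun₂ (h2 L x h) a b).trans (h.1.1.1.2 a b (rev_lt_rev.1 hab))
  · exact congrFun₂ (h2 L x h) i i
  · exact Prod.ext (Prod.ext rfl (Prod.ext rfl (funext h.2.2.2.2))) (funext (h1 L x h))
  · refine Prod.ext (Prod.ext rfl (h2 L x h)) (Prod.ext rfl (funext fun j => ?_))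
    simp only [partialProd_succ, ← mul_assoc]
    rw [mul_assoc _ x.2.1, nonsing_inv_mul _ (h3 L x h _).isUnit, one_mul]

lemma iso_bot : Iso (tor C fun x : Fin (n + 1) × Fin (n + 1) => e x.1 + e' x.2).S
    ((chn C e e').Ch 0).S
    (fun _ x => ((x.1, 1, fun i => ∏ j, x.2 (j, i)),
      fun j => diagonal fun i => partialProd (fun a => x.2 (a, i)) j))
    fun _ x => (x.1.1, fun a => (x.2 a.1.castSucc a.2 a.2)⁻¹ * x.2 a.1.succ a.2 a.2) := by
  have h1 : ∀ L x, ((chn C e e').Ch 0).S.mem L x → x.1.2.1 = 1 := fun L x h =>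
    Matrix.ext fun a b => by
      rcases lt_trichotomy a b with c | rfl | c
      · exact (congrFun₂ h.2.1 a b).symm.trans
          ((h.2.2.1 0 le_rfl (rev_lt_rev.2 c)).trans (one_apply_ne c.ne).symm)
      · exact (h.1.1.1.2.2 a).trans (one_apply_eq a).symm
      · exact (h.1.1.1.2.1 c).trans (one_apply_ne c.ne').symm
  have h2 : ∀ L x, ((chn C e e').Ch 0).S.mem L x → ∀ j, diagonal (x.2 j).diag = x.2 j :=
    fun L x h j => IsDiag.diagonal_diag (by
      induction j using Fin.cases with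
      | zero => exact (h.2.1.trans (h1 L x h)).symm ▸ isDiag_one
      | succ j => exact h.2.2.2.1 _ (Nat.succ_pos _))
  have h3 : ∀ L x, ((chn C e e').Ch 0).S.mem L x → ∀ j i, x.2 j i i ≠ 0 := fun L x h j i => by
    have := h.1.2 j
    rw [← h2 L x h j, det_diagonal] at this
    exact Finset.prod_ne_zero_iff.1 this i (Finset.mem_univ _)
  have h4 : ∀ L x, ((chn C e e').Ch 0).S.mem L x → ∀ i j,
      partialProd (fun a => (x.2 a.castSucc i i)⁻¹ * x.2 a.succ i i) j = x.2 j i i :=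
    fun L x h i j => by
      rw [← tele (μ := fun j => x.2 j i i) (fun a => mul_inv_cancel_left₀ (h3 L x h _ i) _) j,
        congrFun₂ (h.2.1.trans (h1 L x h)) i i, one_apply_eq, one_mul]
  refine ⟨⟨fun _ _ R _ _ _ _ r => ⟨⟨r.1, Rel.mone, fun i => Rel.prod .univ fun j _ => r.2 (j, i)⟩,
      fun j => Rel.mdiag fun i => pp_rel R.r R.one R.mul (fun a => r.2 (a, i)) j⟩, fun L x h =>
      ⟨⟨⟨⟨⟨⟨h.1, trivial⟩, fun i => (Finset.prod_ne_zero_iff (s := .univ)).2 fun j _ =>
        h.2.2 (j, i)⟩, blockTriangular_one, one_apply_eq⟩, trivial⟩, fun j => ?_⟩, ?_,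
        fun j _ => blockTriangular_diagonal _, fun j _ => isDiag_diagonal _, fun i => ?_⟩⟩,
    ⟨fun _ _ R _ _ _ m' r => ⟨r.1.1, fun a =>
      R.mul (R.inv (r.2 _ _ _) (h3 _ _ m' _ _)) (r.2 _ _ _)⟩, fun L x h =>
      ⟨h.1.1.1.1.1.1, trivial, fun a => mul_ne_zero (inv_ne_zero (h3 L x h _ _)) (h3 L x h _ _)⟩⟩,
    fun L x h => Prod.ext rfl (funext fun a => ?_), fun L x h => ?_⟩
  · rw [det_diagonal]
    exact Finset.prod_ne_zero_iff.2 fun i _ => pp_ne (fun a => h.2.2 _) j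
  · simp only [partialProd_zero]
    exact diagonal_one
  · exact (diagonal_apply_eq _ i).trans ((pp_last _).trans List.prod_ofFn)
  · simp only [diagonal_apply_eq, partialProd_succ]
    exact inv_mul_cancel_left₀ (pp_ne (fun a => h.2.2 _) _) _
  · refine Prod.ext (Prod.ext rfl (Prod.ext (h1 L x h).symm (funext fun i => ?_)))
      (funext fun j => (congrArg _ (funext fun i => h4 L x h i j)).trans (h2 L x h j))
    exact (List.prod_ofFn.symm.trans (pp_last _).symm).trans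
      ((h4 L x h i _).trans (h.2.2.2.2 i))

end BRA

open BRA in
theorem BR_thm {K : Type} [Field K] {p : ℕ} [FC7 K p] [MS K p] : BR K p := by
  refine ⟨fun {N} hN {cc d} C W {n} e e' h => ?_⟩
  have h0 : EVan p N ((chn C e e').Ch 0) W := by
    refine (FC7.iso hN 1 one_ne_zero (iso_bot C e e') fun L x m => ?_).1 h
    have h1 : ∀ j : Fin (n + 1), stp true
        (diagonal fun i => partialProd (fun a => x.2 (a, i)) j.castSucc)
        (diagonal fun i => partialProd (fun a => x.2 (a, i)) j.succ) =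
        diagonal fun i => x.2 (j, i) := fun j => by
      simp only [partialProd_succ]
      exact stp_diag fun i => pp_ne (fun a => m.2.2 _) _
    constructor
    · show C.φ L x.1 + psi 1 + ∑ j, 1 * (stp true _ _).trace = C.φ L x.1 + ∑ i, x.2 i
      simp only [h1, psi_one, add_zero, one_mul, trace_diagonal, Fintype.sum_prod_type]
    · show C.g L x.1 * (∏ i, (∏ j, x.2 (j, i)) ^ e' i) * ∏ j, (stp true _ _).det ^ e j =
        algebraMap K L 1 * (C.g L x.1 * ∏ i, x.2 i ^ (e i.1 + e' i.2))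
      simp only [h1, det_diagonal, map_one, one_mul, pow_add, Finset.prod_mul_distrib,
        ← Finset.prod_pow, Fintype.prod_prod_type]
      rw [mul_assoc, mul_comm (∏ _, _), Finset.prod_comm (f := fun i j => x.2 (j, i) ^ e' i)]
  have h1 : ∀ k, k ≤ n + 1 → EVan p N ((chn C e e').Ch k) W := fun k => by
    induction k with
    | zero => exact fun _ => h0
    | succ k ih => exact fun hk => MS.van hN _ W hk (ih (Nat.le_of_succ_le hk))
  refine (FC7.iso hN 1 one_ne_zero (iso_top C e e') fun L x m => ⟨?_, ?_⟩).1 (h1 _ le_rfl)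
  · show C.φ L x.1.1 + 0 + algebraMap K L 1 * (∑ j, (stp true _ _).trace + psi x.1.2.1) =
      C.φ L x.1.1 + psi x.1.2.1 + ∑ j, 1 * (stp true _ _).trace
    simp only [map_one, one_mul]
    ring
  · show C.g L x.1.1 * (∏ i, x.2 (last _) i i ^ e' i) * _ =
      algebraMap K L 1 * (C.g L x.1.1 * (∏ i, x.1.2.2 i ^ e' i) * _)
    simp only [map_one, one_mul, m.2.2.2.2]
    rfl

end Pool.Agent.Lib.MP_557161_ag.HG
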