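import Pool.Agent.Lib.MP_557161_ag.HG.St2

/-!
Reduction to a companion matrix.
-/

namespace Pool.Agent.Lib.MP_557161_ag.HG

open Pool.Agent.Lib.MP_557161_ag.DL Matrix

section Mat

variable {F : Type} [Field F] {m n : ℕ} {A B : Matrix (Fin m) (Fin m) F}

lemma ch1_det (h : Uni Fin.val A) : A.det = 1 := by
  rw [det_of_isUpperTriangular fun _ _ e => h.1 e]
  exact Finset.prod_eq_one fun i _ => h.2 i

lemma ch1_diag (h : A.BlockTriangular Fin.val) (h' : B.BlockTriangular Fin.val) (i : Fin m) :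
    (A * B) i i = A i i * B i i := by
  rw [mul_apply]
  refine Finset.sum_eq_single i (fun k _ hk => ?_) (by simp)
  rcases lt_or_gt_of_ne hk with e | e
  · rw [h e, zero_mul]
  · rw [h' e, mul_zero]

lemma ch1_unit (h : Uni Fin.val A) : IsUnit A.det := by
  rw [ch1_det h]
  exact isUnit_one

lemma ch1_inv (h : Uni Fin.val A) : Uni Fin.val A⁻¹ := by
  have := invertibleOfIsUnitDet A (ch1_unit h)
  have h1 := blockTriangular_inv_of_blockTriangular h.1
  refine ⟨h1, fun i => ?_⟩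
  have h2 := ch1_diag h1 h.1 i
  rwa [nonsing_inv_mul _ (ch1_unit h), h.2, mul_one, one_apply_eq, eq_comm] at h2

lemma ch1_psi_mul (h : Uni Fin.val A) (h' : Uni Fin.val B) : psi (A * B) = psi A + psi B := by
  unfold psi
  rw [← Finset.sum_add_distrib]
  refine Finset.sum_congr rfl fun i _ => ?_
  rw [← Finset.sum_add_distrib]
  refine Finset.sum_congr rfl fun j _ => ?_
  split_ifs with e
  · rw [mul_apply, Finset.sum_eq_add_of_mem j i (by simp) (by simp) (by rintro rfl; omega)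
      fun k _ hk => ?_, h.2, h'.2, mul_one, one_mul]
    rcases lt_or_gt_of_ne hk.2 with e' | e'
    · rw [h.1 e', zero_mul]
    · have h1 : i.1 < k.1 := e'
      have h2 : k.1 ≠ j.1 := fun e => hk.1 (Fin.ext e)
      rw [h'.1 (show j.1 < k.1 by omega), mul_zero]
  · simp

lemma ch1_psi_inv (h : Uni Fin.val A) : psi A⁻¹ = -psi A := by
  have h1 := ch1_psi_mul (ch1_inv h) h
  rw [nonsing_inv_mul _ (ch1_unit h)] at h1
  have h2 : psi (1 : Matrix (Fin m) (Fin m) F) = 0 :=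
    Finset.sum_eq_zero fun i _ => Finset.sum_eq_zero fun j _ => by
      split_ifs with e
      · exact one_apply_ne (by rintro rfl; omega)
      · rfl
  linear_combination h2 - h1

lemma ch1_up (T : UpI (Fin.val : Fin m → ℕ) → F) : Uni Fin.val (1 + upm Fin.val T) :=
  ⟨fun i j e => by
    rw [Matrix.add_apply, one_apply_ne (by rintro rfl; exact lt_irrefl _ e), upm, of_apply,
      dif_neg (lt_asymm e), add_zero], fun i => by simp [upm]⟩

lemma ch1_up_apply (T : UpI (Fin.val : Fin m → ℕ) → F) (z : UpI (Fin.val : Fin m → ℕ)) :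
    (1 + upm Fin.val T) z.1.1 z.1.2 = T z := by
  rw [Matrix.add_apply, one_apply_ne (fun e => z.2.ne (congrArg _ e)), upm, of_apply, dif_pos z.2,
    zero_add]

lemma ch1_up_eq (h : Uni Fin.val A) : (1 + upm Fin.val fun z => A z.1.1 z.1.2) = A := by
  ext i j
  rcases lt_trichotomy i j with e | rfl | e
  · exact ch1_up_apply _ ⟨(i, j), e⟩
  · rw [(ch1_up _).2, h.2]
  · rw [(ch1_up _).1 e, h.1 e]

lemma ch1_sum (T : UpI (Fin.val : Fin m → ℕ) → F) (Y : Fin m → Fin m → F) :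
    ∑ z, T z * Y z.1.1 z.1.2 = ∑ i, ∑ j, upm Fin.val T i j * Y i j := by
  have h := Finset.sum_filter_of_ne (s := Finset.univ)
    (f := fun x : Fin m × Fin m => upm Fin.val T x.1 x.2 * Y x.1 x.2) (p := fun x => x.1.1 < x.2.1)
    fun x _ hx => by_contra fun e => hx (by rw [upm, of_apply, dif_neg e, zero_mul])
  rw [← Fintype.sum_prod_type', ← h, Finset.sum_subtype
    (p := fun x : Fin m × Fin m => x.1.1 < x.2.1) (F := inferInstance) _ (by simp)]
  exact Finset.sum_congr rfl fun z _ => by rw [upm, of_apply, dif_pos z.2]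

lemma ch1_phase (h : Uni Fin.val A) (X : Matrix (Fin m) (Fin m) F) (ε : F) :
    ε * X.trace + ∑ z : UpI (Fin.val : Fin m → ℕ), A z.1.1 z.1.2 *
      (ε * (X z.1.2 z.1.1 - if z.1.1.1 + 1 = z.1.2.1 then 1 else 0)) =
      ε * ((A * X).trace - psi A) := by
  rw [ch1_sum (fun z => A z.1.1 z.1.2) fun i j => ε * (X j i - if i.1 + 1 = j.1 then 1 else 0)]
  have h1 := ch1_up_eq h
  set U := upm Fin.val fun z => A z.1.1 z.1.2
  have h2 : psi A = ∑ i, ∑ j, U i j * if i.1 + 1 = j.1 then 1 else 0 :=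
    Finset.sum_congr rfl fun i _ => Finset.sum_congr rfl fun j _ => by
      split_ifs with e
      · rw [← h1, Matrix.add_apply, one_apply_ne (by rintro rfl; omega), zero_add, mul_one]
      · rw [mul_zero]
  have h3 : (A * X).trace = X.trace + ∑ i, ∑ j, U i j * X j i := by
    rw [← h1, add_mul, one_mul, trace_add]
    rfl
  rw [h2, h3, add_sub_assoc, mul_add, ← Finset.sum_sub_distrib, Finset.mul_sum]
  congr 1
  refine Finset.sum_congr rfl fun i _ => ?_
  rw [← Finset.sum_sub_distrib, Finset.mul_sum]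
  exact Finset.sum_congr rfl fun j _ => by ring

variable {v X : Matrix (Fin (n + 1)) (Fin (n + 1)) F} {a : Fin (n + 1) → F}

lemma ch1_rho_zero (a : Fin (n + 1) → F) (v : Matrix (Fin (n + 1)) (Fin (n + 1)) F) :
    (rho a * v) 0 = a ᵥ* v := by
  ext j
  simp [mul_apply, rho, vecMul, dotProduct]

lemma ch1_rho_succ (a : Fin (n + 1) → F) (v : Matrix (Fin (n + 1)) (Fin (n + 1)) F) (i : Fin n)
    (j : Fin (n + 1)) : (rho a * v) i.succ j = v i.castSucc j := by
  rw [mul_apply, Finset.sum_eq_single i.castSucc (fun k _ hk => ?_) (by simp)]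
  · simp [rho]
  · have : i.1 ≠ k.1 := fun e => hk (Fin.ext e.symm)
    simp [rho, this]

lemma ch1_rho_det (a : Fin (n + 1) → F) : (rho a).det = (-1) ^ n * a (Fin.last n) := by
  rw [det_succ_column _ (Fin.last n), Finset.sum_eq_single 0 (fun k _ hk => ?_) (by simp)]
  · have : (rho a).submatrix (Fin.succAbove 0) (Fin.last n).succAbove = 1 := by
      ext i j
      simp [rho, one_apply, Fin.val_inj]
    rw [this]
    simp [rho]
  · have : k.1 ≠ n + 1 := k.2.ne
    simp [rho, hk, this]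

lemma ch1_psi (v : Matrix (Fin (n + 1)) (Fin (n + 1)) F) :
    psi v = ∑ i : Fin n, v i.castSucc i.succ := by
  unfold psi
  rw [Fin.sum_univ_castSucc, Finset.sum_eq_zero (s := Finset.univ)
    (f := fun j : Fin (n + 1) => if (Fin.last n).1 + 1 = j.1 then v (Fin.last n) j else 0)
    fun j _ => if_neg j.2.ne', add_zero]
  refine Finset.sum_congr rfl fun i _ => ?_
  rw [Finset.sum_eq_single i.succ (fun k _ hk => if_neg fun e => hk (Fin.ext e.symm)) (by simp)]
  exact if_pos rfl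

lemma ch1_rho_trace (h : Uni Fin.val v) (a : Fin (n + 1) → F) :
    (rho a * v).trace = a 0 + psi v := by
  rw [trace, Fin.sum_univ_succ, ch1_psi]
  simp only [diag_apply, ch1_rho_succ, ch1_rho_zero]
  congr 1
  rw [vecMul, dotProduct, Finset.sum_eq_single 0 (fun k _ hk => ?_) (by simp), h.2, mul_one]
  rw [h.1 (Fin.pos_iff_ne_zero.2 hk), mul_zero]

/-- The unitriangular factor of a Hessenberg matrix. -/
def ch1v (X : Matrix (Fin (n + 1)) (Fin (n + 1)) F) : Matrix (Fin (n + 1)) (Fin (n + 1)) F :=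
  Matrix.of fun i j => if i = Fin.last n then if j = Fin.last n then 1 else 0 else X (i + 1) j

lemma ch1v_cast (X : Matrix (Fin (n + 1)) (Fin (n + 1)) F) (i : Fin n) (j : Fin (n + 1)) :
    ch1v X i.castSucc j = X i.succ j := by
  rw [ch1v, of_apply, if_neg (Fin.castSucc_lt_last i).ne, Fin.coeSucc_eq_succ]

lemma ch1v_last (X : Matrix (Fin (n + 1)) (Fin (n + 1)) F) (j : Fin (n + 1)) :
    ch1v X (Fin.last n) j = if j = Fin.last n then 1 else 0 := if_pos rfl

lemma ch1v_rho (h : Uni Fin.val v) (a : Fin (n + 1) → F) : ch1v (rho a * v) = v := by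
  ext i j
  induction i using Fin.lastCases with
  | cast i => rw [ch1v_cast, ch1_rho_succ]
  | last =>
    rw [ch1v_last]
    split_ifs with e
    · rw [e, h.2]
    · exact (h.1 (Fin.lt_last_iff_ne_last.2 e)).symm

lemma ch1_hess (h : Uni Fin.val v) (a : Fin (n + 1) → F) (z : UpI (Fin.val : Fin (n + 1) → ℕ)) :
    (rho a * v) z.1.2 z.1.1 = if z.1.1.1 + 1 = z.1.2.1 then 1 else 0 := by
  obtain ⟨⟨i, l⟩, hz⟩ := z
  induction l using Fin.cases with
  | zero => exact absurd hz (Nat.not_lt_zero _)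
  | succ l =>
    have h1 : i.1 < l.1 + 1 := hz
    rw [ch1_rho_succ]
    split_ifs with e
    · exact (congrArg _ (Fin.ext (Nat.succ.inj e))).trans (h.2 _)
    · have h2 : i.1 + 1 ≠ l.1 + 1 := e
      exact h.1 (show i.1 < l.1 by omega)

lemma ch1v_uni (h : ∀ z : UpI (Fin.val : Fin (n + 1) → ℕ),
    X z.1.2 z.1.1 = if z.1.1.1 + 1 = z.1.2.1 then 1 else 0) : Uni Fin.val (ch1v X) := by
  refine ⟨fun i j e => ?_, fun i => ?_⟩ <;> induction i using Fin.lastCases with
  | last =>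
    rw [ch1v_last]
    first
      | exact if_pos rfl
      | exact if_neg fun e' => lt_irrefl _ (e' ▸ e)
  | cast i =>
    rw [ch1v_cast]
    first
      | exact (h ⟨(i.castSucc, i.succ), Nat.lt_succ_self _⟩).trans (if_pos rfl)
      | exact (h ⟨(j, i.succ), Nat.lt_succ_of_lt e⟩).trans (if_neg fun e' => e.ne (Nat.succ.inj e'))

lemma ch1v_mul (h : Uni Fin.val (ch1v X)) : rho (X 0 ᵥ* (ch1v X)⁻¹) * ch1v X = X := by
  ext i j
  induction i using Fin.cases with
  | zero => rw [ch1_rho_zero, vecMul_vecMul, nonsing_inv_mul _ (ch1_unit h), vecMul_one]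
  | succ i => rw [ch1_rho_succ, ch1v_cast]

lemma ch1_row (h : Uni Fin.val v) (a : Fin (n + 1) → F) : (rho a * v) 0 ᵥ* v⁻¹ = a := by
  rw [ch1_rho_zero, vecMul_vecMul, mul_nonsing_inv _ (ch1_unit h), vecMul_one]

lemma ch1_rho_det' (h : Uni Fin.val v) (a : Fin (n + 1) → F) :
    (rho a * v).det = (-1) ^ n * a (Fin.last n) := by
  rw [det_mul, ch1_det h, ch1_rho_det, mul_one]

lemma ch1_one {α : Type} [Monoid α] (g : Fin 1 → α) : (List.ofFn g).prod = g 0 := by simp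

end Mat

variable {K : Type} [Field K]

lemma ch1_rel {M L : Fld K} {R : Rel M L} {n : ℕ} {X : Matrix (Fin (n + 1)) (Fin (n + 1)) M}
    {X' : Matrix (Fin (n + 1)) (Fin (n + 1)) L} (h : R.m' X X') : R.m' (ch1v X) (ch1v X') :=
  fun _ j => Rel.ite _ (Rel.ite _ R.one R.zero) (h _ j)

section Sp

variable {cc : Cd} (C : EqD K cc) {n : ℕ}
  (X : ∀ L : Fld K, cc.X L → Matrix (Fin (n + 1)) (Fin (n + 1)) L) (hX : Reg C.S (.mat _ _) X)
  (ε : K) (e : Fin 1 → ℕ)

/-- The open set where `X` is invertible. -/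
noncomputable def ch1E : EqD K cc where
  S := C.S.opn (fun L x => (X L x).det ≠ 0)
    fun _ _ R _ _ m m' e h => Rel.ne_zero (Rel.det (hX R m m' e)) h
  φ L x := C.φ L x + algebraMap K L ε * (X L x).trace
  reg _ _ R _ _ m m' e := R.add (C.reg R m.1 m'.1 e) (R.mul (R.const _) (Rel.trace (hX R m.1 m'.1 e)))
  g L x := C.g L x * (X L x).det ^ e 0
  rg _ _ R _ _ m m' e := R.mul (C.rg R m.1 m'.1 e) (Rel.pow (Rel.det (hX R m.1 m'.1 e)) _)
  ne L x m := mul_ne_zero (C.ne L x m.1) (pow_ne_zero _ m.2)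

/-- The equations of Hessenberg matrices. -/
noncomputable def ch1f (L : Fld K) (x : cc.X L) (z : UpI (Fin.val : Fin (n + 1) → ℕ)) : L :=
  algebraMap K L ε * (X L x z.1.2 z.1.1 - if z.1.1.1 + 1 = z.1.2.1 then 1 else 0)

lemma ch1f_reg : Reg (ch1E C X hX ε e).S (.vec _) (ch1f X ε) := fun _ _ R _ _ m m' e _ =>
  R.mul (R.const _) (Rel.sub (hX R m.1 m'.1 e _ _) (Rel.ite _ R.one R.zero))

lemma ch1_isoL : Iso (chL C X hX ε e).S ((ch1E C X hX ε e).lin _ (ch1f_reg C X hX ε e)).S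
    (fun _ x => (x.1, fun z => x.2.1⁻¹ z.1.1 z.1.2))
    fun L x => (x.1, (1 + upm Fin.val x.2)⁻¹, fun _ => (1 + upm Fin.val x.2) * X L x.1) where
  mf := ⟨fun _ _ _ _ _ _ m' e => ⟨e.1, fun _ => Rel.minv e.2.1 (ch1_unit m'.2.1).ne_zero _ _⟩,
    fun L x m => ⟨⟨m.1.1.1, show (X L x.1).det ≠ 0 by
      rw [← m.2.2, ch1_one, det_mul]
      exact mul_ne_zero (ch1_unit m.2.1).ne_zero (m.1.2 0)⟩, trivial⟩⟩
  mg := ⟨fun _ _ R _ _ m m' e =>
      have h := Rel.madd Rel.mone (Rel.mupm Fin.val e.2)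
      ⟨e.1, Rel.minv h (ch1_unit (ch1_up _)).ne_zero, fun _ => Rel.mmul h (hX R m.1.1 m'.1.1 e.1)⟩,
    fun _ _ m => ⟨⟨⟨m.1.1, trivial⟩, fun _ => by
      rw [det_mul]
      exact mul_ne_zero (ch1_unit (ch1_up _)).ne_zero m.1.2⟩, ch1_inv (ch1_up _), by
      rw [ch1_one, nonsing_inv_mul_cancel_left _ _ (ch1_unit (ch1_up _))]⟩⟩
  gf L x m := by
    refine Prod.ext rfl (Prod.ext ?_ (funext fun j => ?_))
    · simp only [ch1_up_eq (ch1_inv m.2.1), nonsing_inv_nonsing_inv _ (ch1_unit m.2.1)]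
    · simp only [ch1_up_eq (ch1_inv m.2.1)]
      rw [← m.2.2, ch1_one, nonsing_inv_mul_cancel_left _ _ (ch1_unit m.2.1), Subsingleton.elim j 0]
  fg L x _ := Prod.ext rfl (funext fun z => by
    simp only [nonsing_inv_nonsing_inv _ (ch1_unit (ch1_up x.2)), ch1_up_apply])

variable {ε}

lemma ch1_zer (hε : ε ≠ 0) {L : Fld K} {x : cc.X L} (m : ∀ z, ch1f X ε L x z = 0) :
    Uni Fin.val (ch1v (X L x)) :=
  ch1v_uni fun z => sub_eq_zero.1 ((mul_eq_zero.1 (m z)).resolve_left ((map_ne_zero _).2 hε))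

lemma ch1_isoR (hε : ε ≠ 0) :
    Iso (chR C X hX ε e).S ((ch1E C X hX ε e).zer _ (ch1f_reg C X hX ε e)).S (fun _ x => x.1)
      fun L x => (x, ch1v (X L x), fun _ => X L x 0 ᵥ* (ch1v (X L x))⁻¹) where
  mf := ⟨fun _ _ _ _ _ _ _ e => e.1, fun L x m => ⟨⟨m.1.1.1, show (X L x.1).det ≠ 0 by
      rw [← m.2.2, ch1_one, ch1_rho_det' m.2.1]
      exact mul_ne_zero (by simp) (m.1.2 0)⟩, fun z => by
      rw [ch1f, ← m.2.2, ch1_one, ch1_hess m.2.1, sub_self, mul_zero]⟩⟩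
  mg := ⟨fun _ _ R _ _ m m' e =>
      have h := hX R m.1.1 m'.1.1 e
      ⟨e, ch1_rel h, fun _ j => Rel.sum Finset.univ fun k _ => R.mul (h 0 k)
        (Rel.minv (ch1_rel h) (ch1_unit (ch1_zer X hε m'.2)).ne_zero k j)⟩,
    fun _ _ m =>
      have h := ch1_zer X hε m.2
      ⟨⟨⟨m.1.1, trivial⟩, fun _ h0 => m.1.2 (by
        rw [← ch1v_mul h, ch1_rho_det' h]
        exact mul_eq_zero_of_right _ h0)⟩, h, by rw [ch1_one, ch1v_mul h]⟩⟩
  gf L x m := by
    refine Prod.ext rfl (Prod.ext ?_ (funext fun j => ?_))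
    · simp only [← m.2.2, ch1_one, ch1v_rho m.2.1]
    · simp only [← m.2.2, ch1_one, ch1v_rho m.2.1, ch1_row m.2.1, Subsingleton.elim j 0]
  fg _ _ _ := rfl

end Sp

theorem CH1_thm [Base K] {p : ℕ} [Fact p.Prime] [CharP K p] [FW0 K] [FWp K p] : CH1 K p where
  iff {N} hN cc d C W n X hX ε hε e := by
    refine (FC7.iso hN 1 one_ne_zero (ch1_isoL C X hX ε e) fun L x m => ⟨?_, ?_⟩).trans
      ((FC7.lin _ _).trans (FC7.iso hN (((-1) ^ n) ^ e 0) (by simp) (ch1_isoR C X hX e hε)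
        fun L x m => ⟨?_, ?_⟩).symm)
    · change C.φ L x.1 + _ * (X L x.1).trace + ∑ z, _ * ch1f X ε L x.1 z =
        C.φ L x.1 + _ * (∑ j, (x.2.2 j).trace + psi x.2.1)
      unfold ch1f
      rw [add_assoc, ch1_phase (ch1_inv m.2.1), ch1_psi_inv m.2.1, ← m.2.2, ch1_one,
        nonsing_inv_mul_cancel_left _ _ (ch1_unit m.2.1), sub_neg_eq_add, Fin.sum_univ_one]
    · change C.g L x.1 * (X L x.1).det ^ e 0 = _ * (C.g L x.1 * ∏ j, (x.2.2 j).det ^ e j)
      rw [← m.2.2, ch1_one, det_mul, ch1_det m.2.1, Fin.prod_univ_one, map_one, one_mul, one_mul]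
    · change C.φ L x.1 + _ * (X L x.1).trace = C.φ L x.1 + _ * (∑ j, x.2.2 j 0 + psi x.2.1)
      rw [← m.2.2, ch1_one, ch1_rho_trace m.2.1, Fin.sum_univ_one]
    · change C.g L x.1 * (X L x.1).det ^ e 0 = _ * (C.g L x.1 * ∏ j, x.2.2 j (Fin.last n) ^ e j)
      rw [← m.2.2, ch1_one, ch1_rho_det' m.2.1, Fin.prod_univ_one, mul_pow, map_pow, map_pow,
        map_neg, map_one, mul_left_comm]

end Pool.Agent.Lib.MP_557161_ag.HG
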