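import Pool.Agent.Lib.MP_557161_ag.HG.St2

/-!
Reduction of a product of matrices to a product of companion matrices, by induction on the number
of factors.
-/

namespace Pool.Agent.Lib.MP_557161_ag.HG

open Pool.Agent.Lib.MP_557161_ag.DL Matrix

variable {K : Type} [Field K] {cc d : Cd}

namespace Ch2

lemma det_rho {F : Type} [Field F] {n : ℕ} {a : Fin (n + 1) → F} (h : a (Fin.last n) ≠ 0) :
    (rho a).det ≠ 0 := by
  intro e
  obtain ⟨v, h0, hv⟩ := Matrix.exists_mulVec_eq_zero_iff.2 e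
  have h1 : ∀ j : Fin n, v j.castSucc = 0 := fun j => by
    have h2 := congrFun hv j.succ
    simp only [mulVec, dotProduct, rho, of_apply, Fin.succ_ne_zero, if_false, Fin.val_succ,
      Nat.add_right_cancel_iff, ite_mul, one_mul, zero_mul, Pi.zero_apply] at h2
    rw [Finset.sum_eq_single j.castSucc] at h2
    · simpa using h2
    · intro b _ hb
      exact if_neg fun e' => hb (Fin.ext e'.symm)
    · simp
  have h3 := congrFun hv 0
  simp only [mulVec, dotProduct, rho, of_apply, if_true, Fin.sum_univ_castSucc, h1, mul_zero,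
    Finset.sum_const_zero, zero_add, Pi.zero_apply, mul_eq_zero, h, false_or] at h3
  exact h0 (funext fun i => Fin.lastCases h3 h1 i)

lemma det_prod {F : Type} [Field F] {n k : ℕ} {a : Fin k → Fin (n + 1) → F}
    (h : ∀ j, a j (Fin.last n) ≠ 0) : (List.ofFn fun j => rho (a j)).prod.det ≠ 0 := by
  induction k with
  | zero => simp
  | succ k ih =>
    rw [List.ofFn_succ, List.prod_cons, det_mul]
    exact mul_ne_zero (det_rho (h 0)) (ih fun j => h j.succ)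

lemma prod_last {M : Type} [Monoid M] {k : ℕ} (g : Fin (k + 1) → M) :
    (List.ofFn g).prod = (List.ofFn fun j : Fin k => g j.castSucc).prod * g (Fin.last k) := by
  rw [List.ofFn_succ', List.prod_concat]

lemma snoc_all {α β : Type} {k : ℕ} {q : α → β → Prop} {x : Fin k → α} {y : Fin k → β} {a : α}
    {b : β} (h : ∀ j, q (x j) (y j)) (h' : q a b) (j : Fin (k + 1)) :
    q (Fin.snoc (α := fun _ => α) x a j) (Fin.snoc (α := fun _ => β) y b j) := by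
  refine Fin.lastCases ?_ (fun i => ?_) j
  · simpa using h'
  · simpa using h i

variable (C : EqD K cc) {n : ℕ} (X : ∀ L : Fld K, cc.X L → Matrix (Fin (n + 1)) (Fin (n + 1)) L)
  (hX : Reg C.S (.mat _ _) X) (ε : K) {k : ℕ}

lemma memL (e : Fin k → ℕ) {L : Fld K} {x} : (chL C X hX ε e).S.mem L x ↔ C.S.mem L x.1 ∧
    (∀ j, (x.2.2 j).det ≠ 0) ∧ Uni Fin.val x.2.1 ∧ x.2.1 * (List.ofFn x.2.2).prod = X L x.1 :=
  ⟨fun h => ⟨h.1.1.1, h.1.2, h.2⟩, fun h => ⟨⟨⟨h.1, trivial⟩, h.2.1⟩, h.2.2⟩⟩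

lemma memR (e : Fin k → ℕ) {L : Fld K} {x} : (chR C X hX ε e).S.mem L x ↔ C.S.mem L x.1 ∧
    (∀ j, x.2.2 j (Fin.last n) ≠ 0) ∧ Uni Fin.val x.2.1 ∧
      (List.ofFn fun j => rho (x.2.2 j)).prod * x.2.1 = X L x.1 :=
  ⟨fun h => ⟨h.1.1.1, h.1.2, h.2⟩, fun h => ⟨⟨⟨h.1, trivial⟩, h.2.1⟩, h.2.2⟩⟩

lemma phL (e : Fin k → ℕ) (L : Fld K) (x) : (chL C X hX ε e).φ L x =
    C.φ L x.1 + algebraMap K L ε * (∑ j, (x.2.2 j).trace + psi x.2.1) := rfl

lemma phR (e : Fin k → ℕ) (L : Fld K) (x) : (chR C X hX ε e).φ L x =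
    C.φ L x.1 + algebraMap K L ε * (∑ j, x.2.2 j 0 + psi x.2.1) := rfl

lemma gL (e : Fin k → ℕ) (L : Fld K) (x) : (chL C X hX ε e).g L x =
    C.g L x.1 * ∏ j, (x.2.2 j).det ^ e j := rfl

lemma gR (e : Fin k → ℕ) (L : Fld K) (x) : (chR C X hX ε e).g L x =
    C.g L x.1 * ∏ j, x.2.2 j (Fin.last n) ^ e j := rfl

/-- The context with one more invertible matrix. -/
noncomputable def c1 (n : ℕ) (a : ℕ) : EqD K (cc.prod (sq (n + 1))) :=
  C.ext ((C.S.prod (.univ K (sq (n + 1)))).opn (fun _ x => x.2.det ≠ 0)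
      fun _ _ _ _ _ _ _ e h => Rel.ne_zero (Rel.det e.2) h)
    (fun _ _ h => h.1.1) (fun L x => algebraMap K L ε * x.2.trace) (fun _ x => x.2.det ^ a)
    (fun _ _ R _ _ _ _ e => R.mul (R.const _) (Rel.trace e.2))
    (fun _ _ _ _ _ _ _ e => Rel.pow (Rel.det e.2) _) fun _ _ h => pow_ne_zero _ h.2

include hX in
lemma r1 (a : ℕ) : Reg (c1 C ε n a).S (.mat _ _) fun L x => X L x.1 * x.2⁻¹ :=
  fun _ _ R _ _ m m' e => Rel.mmul (hX R m.1.1 m'.1.1 e.1) (Rel.minv e.2 m'.2)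

/-- The context with the rows of the companion matrices. -/
noncomputable def c2 (n : ℕ) (e : Fin k → ℕ) :
    EqD K (cc.prod (.pi (Fin k) (.vec (Fin (n + 1))))) :=
  C.ext ((C.S.prod (.univ K (.pi (Fin k) (.vec (Fin (n + 1)))))).opn
      (fun _ x => ∀ j, x.2 j (Fin.last n) ≠ 0)
      fun _ _ _ _ _ _ _ e h j => Rel.ne_zero (e.2 j _) (h j))
    (fun _ _ h => h.1.1) (fun L x => algebraMap K L ε * ∑ j, x.2 j 0)
    (fun _ x => ∏ j, x.2 j (Fin.last n) ^ e j)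
    (fun _ _ R _ _ _ _ e => R.mul (R.const _) (Rel.sum _ fun j _ => e.2 j 0))
    (fun _ _ _ _ _ _ _ e => Rel.prod _ fun j _ => Rel.pow (e.2 j _) _)
    fun _ _ h => Finset.prod_ne_zero_iff.2 fun j _ => pow_ne_zero _ (h.2 j)

include hX in
lemma r2 (e : Fin k → ℕ) : Reg (c2 C ε n e).S (.mat _ _)
    fun L x => (List.ofFn fun j => rho (x.2 j)).prod⁻¹ * X L x.1 :=
  fun _ _ R _ _ m m' e => Rel.mmul (Rel.minv (Rel.mprod fun j => Rel.rho (e.2 j)) (det_prod m'.2))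
    (hX R m.1.1 m'.1.1 e.1)

variable {p : ℕ} [FC7 K p] {N : ℕ} (W : ASp K d)

lemma base (hN : 0 < N) (e : Fin 0 → ℕ) :
    EVan p N (chL C X hX ε e) W ↔ EVan p N (chR C X hX ε e) W := by
  refine FC7.iso hN (f := fun _ x => (x.1, x.2.1, fun j => j.elim0))
    (f' := fun _ x => (x.1, x.2.1, fun j => j.elim0)) 1 one_ne_zero
    ⟨⟨fun _ _ _ _ _ _ _ h => ⟨h.1, h.2.1, fun j => j.elim0⟩, fun L x m => ?_⟩,
      ⟨fun _ _ _ _ _ _ _ h => ⟨h.1, h.2.1, fun j => j.elim0⟩, fun L x m => ?_⟩,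
      fun L x _ => Prod.ext rfl (Prod.ext rfl (funext fun j => j.elim0)),
      fun L x _ => Prod.ext rfl (Prod.ext rfl (funext fun j => j.elim0))⟩ fun L x _ => ?_
  · obtain ⟨h1, -, h2, h3⟩ := (memL C X hX ε e).1 m
    exact (memR C X hX ε e).2 ⟨h1, fun j => j.elim0, h2, by simpa using h3⟩
  · obtain ⟨h1, -, h2, h3⟩ := (memR C X hX ε e).1 m
    exact (memL C X hX ε e).2 ⟨h1, fun j => j.elim0, h2, by simpa using h3⟩
  · rw [phL, phR, gL, gR]
    simp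

lemma step1 (hN : 0 < N) (e : Fin (k + 1) → ℕ) : EVan p N (chL C X hX ε e) W ↔
    EVan p N (chL (c1 C ε n (e (Fin.last k))) _ (r1 C X hX ε _) ε fun j : Fin k => e j.castSucc) W := by
  refine FC7.iso hN (f := fun _ x => ((x.1, x.2.2 (Fin.last k)), x.2.1, fun j => x.2.2 j.castSucc))
    (f' := fun L x => (x.1.1, x.2.1, Fin.snoc (α := fun _ => Matrix _ _ L) x.2.2 x.1.2)) 1 one_ne_zero
    ⟨⟨fun _ _ _ _ _ _ _ h => ⟨⟨h.1, h.2.2 _⟩, h.2.1, fun j => h.2.2 _⟩, fun L x m => ?_⟩,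
      ⟨fun _ _ R _ _ _ _ h => ⟨h.1.1, h.2.1, snoc_all (q := R.m') h.2.2 h.1.2⟩, fun L x m => ?_⟩,
      fun L x _ => Prod.ext rfl (Prod.ext rfl (Fin.snoc_init_self x.2.2)),
      fun L x _ => Prod.ext (Prod.ext rfl (by simp)) (Prod.ext rfl (funext fun j => by simp))⟩
    fun L x _ => ?_
  · obtain ⟨h1, h0, h2, h3⟩ := (memL C X hX ε e).1 m
    refine (memL _ _ _ ε _).2 ⟨⟨⟨h1, trivial⟩, h0 _⟩, fun j => h0 _, h2, ?_⟩
    show _ = X L x.1 * (x.2.2 (Fin.last k))⁻¹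
    rw [← h3, prod_last, ← mul_assoc, mul_nonsing_inv_cancel_right _ _ (h0 _).isUnit]
  · obtain ⟨h1, h0, h2, h3⟩ := (memL _ _ _ ε _).1 m
    refine (memL C X hX ε e).2 ⟨h1.1.1, snoc_all (q := fun A _ => det A ≠ 0) (y := x.2.2)
      (b := x.1.2) h0 h1.2, h2, ?_⟩
    rw [prod_last]
    simp only [Fin.snoc_castSucc, Fin.snoc_last]
    rw [← mul_assoc, h3]
    exact nonsing_inv_mul_cancel_right _ _ (Ne.isUnit h1.2)
  · rw [phL, phL, gL, gL, Fin.sum_univ_castSucc, Fin.prod_univ_castSucc, map_one]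
    exact ⟨by show C.φ L x.1 + _ * _ + _ = _; ring, by show C.g L x.1 * _ ^ _ * _ = _; ring⟩

lemma step2 (hN : 0 < N) (a : ℕ) (e : Fin k → ℕ) :
    EVan p N (chR (c1 C ε n a) _ (r1 C X hX ε a) ε e) W ↔
    EVan p N (chL (c2 C ε n e) _ (r2 C X hX ε e) ε fun _ : Fin 1 => a) W := by
  refine FC7.iso hN (f := fun _ x => ((x.1.1, x.2.2), x.2.1, fun _ => x.1.2))
    (f' := fun L x => ((x.1.1, x.2.2 0), x.2.1, x.1.2)) 1 one_ne_zero
    ⟨⟨fun _ _ _ _ _ _ _ h => ⟨⟨h.1.1, h.2.2⟩, h.2.1, fun _ => h.1.2⟩, fun L x m => ?_⟩,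
      ⟨fun _ _ R _ _ _ _ h => ⟨⟨h.1.1, h.2.2 0⟩, h.2.1, h.1.2⟩, fun L x m => ?_⟩,
      fun L x _ => rfl,
      fun L x _ => Prod.ext rfl (Prod.ext rfl (funext fun j => by rw [Subsingleton.elim j 0]))⟩
    fun L x _ => ?_
  · obtain ⟨h1, h0, h2, h3⟩ := (memR _ _ _ ε _).1 m
    refine (memL _ _ _ ε _).2 ⟨⟨h1.1, h0⟩, fun _ => h1.2, h2, ?_⟩
    have h4 : X L x.1.1 = _ := (nonsing_inv_mul_cancel_right _ _ (Ne.isUnit h1.2)).symm.trans
      (congrArg (· * x.1.2) h3.symm)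
    show _ = _⁻¹ * X L x.1.1
    rw [h4, mul_assoc, nonsing_inv_mul_cancel_left _ _ (det_prod h0).isUnit]
    simp
  · obtain ⟨h1, h0, h2, h3⟩ := (memL _ _ _ ε _).1 m
    refine (memR _ _ _ ε _).2 ⟨⟨h1.1, h0 0⟩, h1.2, h2, ?_⟩
    have h4 : X L x.1.1 = _ := (mul_nonsing_inv_cancel_left _ _ (det_prod h1.2).isUnit).symm.trans
      (congrArg ((List.ofFn fun j => rho (x.1.2 j)).prod * ·) h3.symm)
    show _ = X L x.1.1 * (x.2.2 0)⁻¹
    rw [h4, List.ofFn_succ, List.ofFn_zero, List.prod_singleton, ← mul_assoc,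
      mul_nonsing_inv_cancel_right _ _ (h0 0).isUnit]
  · rw [phL, phR, gL, gR, Fin.sum_univ_one, Fin.prod_univ_one, map_one]
    exact ⟨by show C.φ L x.1.1 + _ * _ + _ = C.φ L x.1.1 + _ * _ + _; ring,
      by show C.g L x.1.1 * _ * _ = 1 * (C.g L x.1.1 * _ * _); ring⟩

lemma step3 (hN : 0 < N) (e : Fin (k + 1) → ℕ) : EVan p N (chR C X hX ε e) W ↔
    EVan p N (chR (c2 C ε n fun j : Fin k => e j.castSucc) _ (r2 C X hX ε _) ε
      fun _ : Fin 1 => e (Fin.last k)) W := by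
  refine FC7.iso hN
    (f := fun _ x => ((x.1, fun j => x.2.2 j.castSucc), x.2.1, fun _ => x.2.2 (Fin.last k)))
    (f' := fun L x => (x.1.1, x.2.1, Fin.snoc (α := fun _ => Fin (n + 1) → L) x.1.2 (x.2.2 0))) 1
    one_ne_zero
    ⟨⟨fun _ _ _ _ _ _ _ h => ⟨⟨h.1, fun j => h.2.2 _⟩, h.2.1, fun _ => h.2.2 _⟩, fun L x m => ?_⟩,
      ⟨fun _ _ R _ _ _ _ h => ⟨h.1.1, h.2.1,
        snoc_all (q := (Cd.vec (Fin (n + 1))).lift R.r) h.1.2 (h.2.2 0)⟩, fun L x m => ?_⟩,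
      fun L x _ => Prod.ext rfl (Prod.ext rfl (Fin.snoc_init_self x.2.2)),
      fun L x _ => Prod.ext (Prod.ext rfl (funext fun j => by simp))
        (Prod.ext rfl (funext fun j => by rw [Subsingleton.elim j 0]; simp))⟩
    fun L x _ => ?_
  · obtain ⟨h1, h0, h2, h3⟩ := (memR C X hX ε e).1 m
    refine (memR _ _ _ ε _).2 ⟨⟨⟨h1, trivial⟩, fun j => h0 _⟩, fun _ => h0 _, h2, ?_⟩
    show _ = _⁻¹ * X L x.1
    rw [← h3, prod_last fun j => rho (x.2.2 j), mul_assoc,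
      nonsing_inv_mul_cancel_left _ _ (det_prod fun j => h0 _).isUnit]
    simp
  · obtain ⟨h1, h0, h2, h3⟩ := (memR _ _ _ ε _).1 m
    refine (memR C X hX ε e).2 ⟨h1.1.1, snoc_all (q := fun (a : Fin (n + 1) → L) _ => a (Fin.last n) ≠ 0) (y := x.1.2)
      (b := x.2.2 0) h1.2 (h0 0), h2, ?_⟩
    rw [prod_last]
    simp only [Fin.snoc_castSucc, Fin.snoc_last]
    rw [List.ofFn_succ, List.ofFn_zero, List.prod_singleton] at h3
    rw [mul_assoc, h3]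
    exact mul_nonsing_inv_cancel_left _ _ (det_prod h1.2).isUnit
  · rw [phR, phR, gR, gR, Fin.sum_univ_castSucc (n := k), Fin.prod_univ_castSucc (n := k),
      Fin.sum_univ_one, Fin.prod_univ_one, map_one]
    exact ⟨by show C.φ L x.1 + _ * _ + _ = _; ring, by show C.g L x.1 * _ * _ = _; ring⟩

end Ch2

theorem CH2_thm {p : ℕ} [FC7 K p] [CH1 K p] : CH2 K p where
  iff {N} hN {cc d} C W {n} X hX ε hε {k} e := by
    induction k generalizing cc with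
    | zero => exact Ch2.base C X hX ε W hN e
    | succ k ih =>
      rw [Ch2.step1 C X hX ε W hN e, ih, Ch2.step2 C X hX ε W hN, CH1.iff hN _ W _ _ ε hε,
        Ch2.step3 C X hX ε W hN e]

end Pool.Agent.Lib.MP_557161_ag.HG
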