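import Pool.Agent.Lib.MP_557161_ag.HG.St2

/-!
Products of companion matrices.
-/

namespace Pool.Agent.Lib.MP_557161_ag.HG

open Pool.Agent.Lib.MP_557161_ag.DL Matrix

section Alg

variable {F : Type} [Field F] {n : ℕ}

lemma CH3_pick {q : Fin (n + 1) → Prop} [DecidablePred q] (f : Fin (n + 1) → F) (s : Fin (n + 1))
    (h : ∀ j, q j ↔ j.1 = s.1) : (∑ j, if q j then f j else 0) = f s := by
  rw [Finset.sum_eq_single s (fun j _ e => if_neg fun e' => e (Fin.ext ((h j).1 e'))) (by simp),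
    if_pos ((h s).2 rfl)]

lemma CH3_none {q : Fin (n + 1) → Prop} [DecidablePred q] (f : Fin (n + 1) → F) (h : ∀ j, ¬ q j) :
    (∑ j, if q j then f j else 0) = 0 := Finset.sum_eq_zero fun j _ => if_neg (h j)

/-- The unitriangular part. -/
def CH3u (a : Fin (n + 1) → Fin (n + 1) → F) : Matrix (Fin (n + 1)) (Fin (n + 1)) F :=
  of fun i j => (if i = j then 1 else 0) - ∑ c : Fin (n + 1), if j.1 = i.1 + 1 + c.1 then a i c else 0

/-- The lower triangular part. -/
def CH3b (a : Fin (n + 1) → Fin (n + 1) → F) : Matrix (Fin (n + 1)) (Fin (n + 1)) F :=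
  of fun i l => ∑ c : Fin (n + 1), if i.1 + c.1 = n + l.1 then a i c else 0

/-- The inverse map. -/
def CH3a (b u : Matrix (Fin (n + 1)) (Fin (n + 1)) F) (i c : Fin (n + 1)) : F :=
  (∑ l : Fin (n + 1), if i.1 + c.1 = n + l.1 then b i l else 0) -
    ∑ j : Fin (n + 1), if j.1 = i.1 + 1 + c.1 then u i j else 0

variable (a : Fin (n + 1) → Fin (n + 1) → F) {b u : Matrix (Fin (n + 1)) (Fin (n + 1)) F}

lemma CH3u_uni : Uni Fin.val (CH3u a) := by
  refine ⟨fun i j h => ?_, fun i => ?_⟩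
  · rw [CH3u, of_apply, if_neg (by rintro rfl; omega), CH3_none _ (fun c => by omega), sub_zero]
  · rw [CH3u, of_apply, if_pos rfl, CH3_none _ (fun c => by omega), sub_zero]

lemma CH3u_up (i c j : Fin (n + 1)) (h : j.1 = i.1 + 1 + c.1) : CH3u a i j = -a i c := by
  rw [CH3u, of_apply, if_neg (by rintro rfl; omega), CH3_pick _ c (fun c => by omega), zero_sub]

lemma CH3b_low (i j : Fin (n + 1)) (h : i < j) : CH3b a i j = 0 :=
  CH3_none _ fun c => by omega

lemma CH3b_eq (i c l : Fin (n + 1)) (h : i.1 + c.1 = n + l.1) : CH3b a i l = a i c :=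
  CH3_pick _ c fun c => by omega

lemma CH3a_up (i c j : Fin (n + 1)) (h : j.1 = i.1 + 1 + c.1) : CH3a b u i c = -u i j := by
  rw [CH3a, CH3_none _ (fun c => by omega), CH3_pick _ j (fun c => by omega), zero_sub]

lemma CH3a_low (i c l : Fin (n + 1)) (h : i.1 + c.1 = n + l.1) : CH3a b u i c = b i l := by
  rw [CH3a, CH3_pick _ l (fun c => by omega), CH3_none _ (fun c => by omega), sub_zero]

lemma CH3_gf : CH3a (CH3b a) (CH3u a) = a := by
  funext i c
  by_cases h : i.1 + c.1 < n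
  · rw [CH3a_up i c ⟨i.1 + 1 + c.1, by omega⟩ rfl, CH3u_up a i c _ rfl, neg_neg]
  · have e : i.1 + c.1 = n + (⟨i.1 + c.1 - n, by omega⟩ : Fin (n + 1)).1 := by
      simp only
      omega
    rw [CH3a_low i c _ e, CH3b_eq a i c _ e]

lemma CH3_fgb (hb : ∀ i j, i < j → b i j = 0) : CH3b (CH3a b u) = b := by
  ext i l
  by_cases h : i < l
  · rw [CH3b_low _ i l h, hb i l h]
  · have e : i.1 + (⟨n + l.1 - i.1, by omega⟩ : Fin (n + 1)).1 = n + l.1 := by
      simp only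
      omega
    rw [CH3b_eq _ i _ l e, CH3a_low i _ l e]

lemma CH3_fgu (hu : Uni Fin.val u) : CH3u (CH3a b u) = u := by
  ext i j
  rcases lt_trichotomy i j with h | rfl | h
  · have e : j.1 = i.1 + 1 + (⟨j.1 - i.1 - 1, by omega⟩ : Fin (n + 1)).1 := by
      simp only
      omega
    rw [CH3u_up _ i _ j e, CH3a_up i _ j e, neg_neg]
  · rw [(CH3u_uni _).2, hu.2]
  · rw [(CH3u_uni _).1 h, hu.1 h]

lemma CH3_psi : CH3b a (Fin.last n) 0 - psi (CH3u a) = ∑ j, a j 0 := by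
  rw [CH3b_eq a _ 0 0 rfl, psi, Fin.sum_univ_castSucc, Fin.sum_univ_castSucc (fun j => a j 0),
    CH3_none (q := fun j => (Fin.last n).1 + 1 = j.1) _ (fun c => by simp only [Fin.val_last]; omega),
    Finset.sum_congr rfl fun i _ => (CH3_pick _ i.succ fun c => eq_comm).trans
      (CH3u_up a _ 0 _ rfl), Finset.sum_neg_distrib]
  ring

lemma CH3_rows {k : ℕ} (a : Fin k → Fin (n + 1) → F) : ∃ z : ℕ → Fin (n + 1) → F,
    (∀ i l, (List.ofFn fun j => rho (a j)).prod i l = z i.1 l) ∧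
    (∀ t l, z (k + t) l = if t = l.1 then 1 else 0) ∧
    ∀ (i : Fin k) l, z i.1 l = ∑ c, a i c * z (i.1 + 1 + c.1) l := by
  induction k with
  | zero =>
    exact ⟨fun t l => if t = l.1 then 1 else 0, fun i l => by simp [one_apply, Fin.ext_iff],
      fun t l => by rw [zero_add], fun i => i.elim0⟩
  | succ k ih =>
    obtain ⟨z, h1, h2, h3⟩ := ih fun j => a j.succ
    refine ⟨fun t => Nat.casesOn t (fun l => ∑ c, a 0 c * z c.1 l) z, fun i l => ?_, fun t l => ?_,
      fun i l => ?_⟩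
    · rw [List.ofFn_succ, List.prod_cons, mul_apply]
      simp only [h1]
      induction i using Fin.cases with
      | zero => simp [rho]
      | succ i =>
        simp only [rho, of_apply, if_neg i.succ_ne_zero, ite_mul, one_mul, zero_mul]
        exact CH3_pick _ i.castSucc fun c => by simp [eq_comm]
    · rw [add_right_comm]
      exact h2 t l
    · induction i using Fin.cases with
      | zero => exact Finset.sum_congr rfl fun c _ => by rw [add_comm _ c.1]; rfl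
      | succ i =>
        refine (h3 i l).trans (Finset.sum_congr rfl fun c _ => ?_)
        rw [Fin.val_succ, add_right_comm (i.1 + 1) 1 c.1]

lemma CH3_mul : CH3u a * (List.ofFn fun j => rho (a j)).prod = CH3b a := by
  obtain ⟨z, h1, h2, h3⟩ := CH3_rows a
  ext i l
  have e : ∀ c : Fin (n + 1), a i c * z (i.1 + 1 + c.1) l =
      (∑ j : Fin (n + 1), if j.1 = i.1 + 1 + c.1 then a i c * z j.1 l else 0) +
        if i.1 + c.1 = n + l.1 then a i c else 0 := fun c => by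
    by_cases h : i.1 + c.1 < n
    · rw [CH3_pick _ ⟨i.1 + 1 + c.1, by omega⟩ (fun _ => Iff.rfl), if_neg (by omega), add_zero]
    · rw [CH3_none _ (fun _ => by omega), zero_add, show i.1 + 1 + c.1 = n + 1 + (i.1 + c.1 - n) by omega,
        h2, mul_ite, mul_one, mul_zero]
      exact if_congr (by omega) rfl rfl
  simp only [mul_apply, h1, CH3u, CH3b, of_apply, sub_mul, Finset.sum_sub_distrib, ite_mul, one_mul,
    zero_mul, Finset.sum_mul, Finset.sum_ite_eq, Finset.mem_univ, if_true]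
  rw [h3, Finset.sum_congr rfl fun c _ => e c, Finset.sum_add_distrib, Finset.sum_comm]
  ring

lemma CH3_cancel (hu : Uni Fin.val u) {A B : Matrix (Fin (n + 1)) (Fin (n + 1)) F}
    (h : u * A = u * B) : A = B := by
  have e : IsUnit u.det := by
    rw [det_of_isUpperTriangular fun i j h => hu.1 h]
    simp [hu.2]
  rw [← nonsing_inv_mul_cancel_left u A e, h, nonsing_inv_mul_cancel_left u B e]

end Alg

variable {K : Type} [Field K] {p : ℕ}

section
variable {M L : Fld K} {R : Rel M L} {n : ℕ} {a : Fin (n + 1) → Fin (n + 1) → M}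
  {a' : Fin (n + 1) → Fin (n + 1) → L} {b u : Matrix (Fin (n + 1)) (Fin (n + 1)) M}
  {b' u' : Matrix (Fin (n + 1)) (Fin (n + 1)) L}

lemma CH3_rb (h : ∀ i c, R.r (a i c) (a' i c)) : R.m' (CH3b a) (CH3b a') :=
  fun i _ => Rel.sum Finset.univ fun c _ => Rel.ite _ (h i c) R.zero

lemma CH3_ru (h : ∀ i c, R.r (a i c) (a' i c)) : R.m' (CH3u a) (CH3u a') :=
  fun i _ => Rel.sub (Rel.ite _ R.one R.zero) (Rel.sum _ fun c _ => Rel.ite _ (h i c) R.zero)

lemma CH3_ra (h : R.m' b b') (h' : R.m' u u') (i c : Fin (n + 1)) :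
    R.r (CH3a b u i c) (CH3a b' u' i c) :=
  Rel.sub (Rel.sum _ fun l _ => Rel.ite _ (h i l) R.zero) (Rel.sum _ fun l _ => Rel.ite _ (h' i l) R.zero)

end

theorem CH3_thm [FC7 K p] : CH3 K p where
  iff {N} hN cc d C W n X hX ε e := by
    refine FC7.iso hN (f := fun _ x => ((x.1, CH3b x.2.2), (x.2.1, CH3u x.2.2)))
      (f' := fun _ x => (x.1.1, (x.2.1, CH3a x.1.2 x.2.2))) 1 one_ne_zero
      ⟨⟨fun _ _ _ _ _ _ _ e => ⟨⟨e.1, CH3_rb e.2.2⟩, e.2.1, CH3_ru e.2.2⟩,
        fun L x m => ⟨⟨⟨⟨m.1.1, fun i => ?_⟩, CH3b_low _⟩, trivial⟩, m.2.1, CH3u_uni _, ?_⟩⟩,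
      ⟨fun _ _ _ _ _ _ _ e => ⟨e.1.1, e.2.1, CH3_ra e.1.2 e.2.2⟩,
        fun L x m => ⟨⟨m.1.1.1.1, fun i => ?_⟩, m.2.1, CH3_cancel m.2.2.1 ?_⟩⟩,
      fun L x _ => Prod.ext rfl (Prod.ext rfl (CH3_gf _)),
      fun L x m => Prod.ext (Prod.ext rfl (CH3_fgb m.1.1.2)) (Prod.ext rfl (CH3_fgu m.2.2.1))⟩
      fun L x m => ⟨?_, ?_⟩
    · exact (CH3b_eq _ i (Fin.last n) i (add_comm _ _)).trans_ne (m.1.2 i)
    · change CH3b x.2.2 * x.2.1 = CH3u x.2.2 * X L x.1
      rw [← m.2.2, ← CH3_mul, Matrix.mul_assoc]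
    · exact (CH3a_low i (Fin.last n) i (add_comm _ _)).trans_ne (m.1.1.1.2 i)
    · have h := CH3_mul (CH3a x.1.2 x.2.2)
      rw [CH3_fgb m.1.1.2, CH3_fgu m.2.2.1] at h
      exact (Matrix.mul_assoc _ _ _).symm.trans ((congrArg (· * x.2.1) h).trans m.2.2.2)
    · change C.φ L x.1 + 0 + algebraMap K L ε * (CH3b x.2.2 (Fin.last n) 0 - psi (CH3u x.2.2) +
        psi x.2.1) = C.φ L x.1 + algebraMap K L ε * (∑ j, x.2.2 j 0 + psi x.2.1)
      rw [CH3_psi, add_zero]
    · change C.g L x.1 * (∏ i, CH3b x.2.2 i i ^ e i) * 1 =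
        algebraMap K L 1 * (C.g L x.1 * ∏ j, x.2.2 j (Fin.last n) ^ e j)
      simp only [CH3b_eq _ _ (Fin.last n) _ (add_comm _ _), map_one, one_mul, mul_one]

end Pool.Agent.Lib.MP_557161_ag.HG
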