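import Pool.Agent.Lib.MP_557161_ag.HG.G11

/-!
Basic properties of the generic values.
-/

namespace Pool.Agent.Lib.MP_557161_ag.HG

open Pool.Agent.Lib.MP_557161_ag.DL Matrix

variable {K : Type} [Field K] {p : ℕ}

namespace G1a

variable {cc d : Cd} {n m : ℕ} (G : GC K p cc d n m) {L M : Fld K}

lemma tt_iff (k : ℕ) (z : (zsh cc d n m).X L) (μ : Fin (m + 1) → Matrix (Fin n) (Fin n) L) :
    (G.tt k).mem L (zpt z μ) ↔ (G.C.S.mem L z.1.1 ∧ G.W.mem L z.2.2) ∧ (∀ j, (μ j).det ≠ 0) ∧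
      (μ 0 = 1 ∧ (∀ j, k ≤ j.1 → (μ j).BlockTriangular Fin.val) ∧ (∀ j, k < j.1 → (μ j).IsDiag) ∧
        ∀ i, μ (Fin.last m) i i = algebraMap K L G.t) ∧
      z.2.1.1 ^ G.N = G.C.g L z.1.1 *
        ∏ j : Fin m, (stp (G.s j) (μ j.castSucc) (μ j.succ)).det ^ G.e j ∧
      z.2.1.2 ^ p - z.2.1.2 = G.C.φ L z.1.1 +
        ∑ j : Fin m, cond (G.s j) 1 (-1) * (stp (G.s j) (μ j.castSucc) (μ j.succ)).trace :=
  ⟨fun h => ⟨⟨h.1.1.1.1.1.1.1.1, h.2⟩, h.1.1.1.1.1.1.2, h.1.1.1.1.1.2, h.1.1.1.2, h.1.2⟩,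
    fun h => ⟨⟨⟨⟨⟨⟨⟨⟨h.1.1, trivial⟩, h.2.1⟩, h.2.2.1⟩, trivial⟩, h.2.2.2.1⟩, trivial⟩, h.2.2.2.2⟩,
      h.1.2⟩⟩

lemma zS_iff (z : (zsh cc d n m).X L) : G.zS.mem L z ↔ (G.C.S.mem L z.1.1 ∧ G.W.mem L z.2.2) ∧
    ((∀ i, z.1.2 0 i = 1) ∧ (∀ i, z.1.2 (Fin.last m) i = algebraMap K L G.t) ∧
      ∀ j i, z.1.2 j i ≠ 0) ∧ z.2.1.1 ^ G.N = G.C.g L z.1.1 * gT G.s G.e z.1.2 ∧
      z.2.1.2 ^ p - z.2.1.2 = G.C.φ L z.1.1 + φT G.s z.1.2 := by
  have H := fun h0 : ∀ j i, z.1.2 j i ≠ 0 => chain G.s G.e (g := 1) (p := z.1.2)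
    (μ := fun j => diagonal (z.1.2 j)) (A := fun j => diagonal (z.1.2 j)) (by simp)
    (fun j => by simp) (fun j => blockTriangular_diagonal _) (fun j i => diagonal_apply_eq _ _) h0
  refine Iff.trans ⟨fun h => h.2, fun h => ⟨trivial, h⟩⟩ ((tt_iff G 0 z _).trans ⟨?_, ?_⟩)
  · rintro ⟨h1, h2, h3, h4, h5⟩
    have h0 : ∀ j i, z.1.2 j i ≠ 0 := fun j i =>
      Finset.prod_ne_zero_iff.1 (det_diagonal.symm.trans_ne (h2 j)) i (Finset.mem_univ i)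
    refine ⟨h1, ⟨fun i => ?_, fun i => ?_, h0⟩, (H h0).2.1 ▸ h4, (H h0).2.2 ▸ h5⟩
    · simpa using congrFun (congrFun h3.1 i) i
    · simpa using h3.2.2.2 i
  · rintro ⟨h1, ⟨h2, h3, h0⟩, h4, h5⟩
    refine ⟨h1, (H h0).1, ⟨?_, fun j _ => blockTriangular_diagonal _,
      fun j _ => isDiag_diagonal _, fun i => by simpa using h3 i⟩, (H h0).2.1 ▸ h4, (H h0).2.2 ▸ h5⟩
    rw [show z.1.2 0 = fun _ => 1 from funext h2, diagonal_one]

lemma zperm_mem {z : (zsh cc d n m).X L} (σ : Equiv.Perm (Fin n)) (h : G.zS.mem L z) :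
    G.zS.mem L (zperm σ z) := by
  obtain ⟨h1, ⟨h2, h3, h0⟩, h4, h5⟩ := (zS_iff G z).1 h
  exact (zS_iff G _).2 ⟨h1, ⟨fun _ => h2 _, fun _ => h3 _, fun _ _ => h0 _ _⟩,
    h4.trans (congrArg _ (gT_perm _ _ _ σ).symm), h5.trans (congrArg _ (φT_perm _ _ σ).symm)⟩

lemma sub_diag {F : Type} [Field F] {μ : Matrix (Fin n) (Fin n) F} {t : F}
    (h : SU Fin.val (μ - diagonal fun _ => t)) : μ.BlockTriangular Fin.val ∧ ∀ i, μ i i = t := by
  have e : μ = diagonal (fun _ => t) + (μ - diagonal fun _ => t) := (add_sub_cancel _ _).symm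
  exact ⟨e ▸ dn_tri _ h, fun i => (congrFun (congrFun e i) i).trans (dn_diag _ h i)⟩

lemma gpt_mem {x : (gsh cc d n m).X L} (T : Mid m × UpN n → L) (h : G.gS.mem L x) :
    (G.tt m).mem L (gpt x T) := by
  obtain ⟨⟨⟨hz, -⟩, hg⟩, h1, h2⟩ := h
  obtain ⟨a1, ⟨a2, a3, a0⟩, a4, a5⟩ := (zS_iff G _).1 hz
  rw [conj_sub hg] at h2
  have hl : Fin.last m ≠ 0 := fun e => G.hm.ne' (congrArg Fin.val e)
  obtain ⟨b1, b2, b3⟩ := chain G.s G.e (p := x.1.1.2) hg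
    (μ := cmat x.2.1 x.2.2 fun j => diagonal (x.1.1.2 j) + nmat T j)
    (A := fun j => if j = 0 then 1 else if j = Fin.last m then x.2.2⁻¹ * x.2.1 * x.2.2
      else diagonal (x.1.1.2 j) + nmat T j)
    (fun j => by
      unfold cmat
      split_ifs
      · rw [Matrix.mul_one, mul_nonsing_inv _ (unit hg)]
      · simp only [Matrix.mul_assoc, mul_nonsing_inv_cancel_left _ _ (unit hg),
          mul_nonsing_inv _ (unit hg), Matrix.mul_one]
      · rfl)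
    (fun j => by
      split_ifs
      exacts [blockTriangular_one, (sub_diag h2).1, dn_tri _ (nmat_su _ _)])
    (fun j i => by
      split_ifs with e e'
      · rw [e, a2, one_apply_eq]
      · rw [e', a3, (sub_diag h2).2]
      · exact dn_diag _ (nmat_su _ _) i) a0
  have hc : cmat x.2.1 x.2.2 (fun j => diagonal (x.1.1.2 j) + nmat T j) (Fin.last m) = x.2.1 :=
    (if_neg hl).trans (if_pos rfl)
  refine (tt_iff G m _ _).2 ⟨a1, b1, ⟨if_pos rfl, fun j hj => ?_, fun j hj => ?_, fun i => ?_⟩,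
    b2 ▸ a4, b3 ▸ a5⟩
  · rw [show j = Fin.last m from Fin.ext (by have := j.2; simp only [Fin.val_last]; omega), hc]
    exact (sub_diag h1).1
  · exact absurd j.2 (by omega)
  · rw [hc, (sub_diag h1).2]

lemma gpt_reg :
    Reg (G.gS.prod (.univ K (.vec (Mid m × UpN n)))) (tsh cc d n m) fun _ x => gpt x.1 x.2 :=
  fun _ _ _ _ _ _ m' e => ⟨⟨⟨⟨e.1.1.1.1, fun j => by
    dsimp only [gpt, zpt, cmat]
    split_ifs
    exacts [Rel.mone, e.1.2.1, Rel.mmul (Rel.mmul e.1.2.2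
      (Rel.madd (Rel.mdiag (e.1.1.1.2 j)) (rel_nmat e.2 j))) (Rel.minv e.1.2.2 m'.1.1.2)]⟩,
    e.1.1.2.1.1⟩, e.1.1.2.1.2⟩, e.1.1.2.2⟩

lemma mul_mem {x : (gsh cc d n m).X L} {b : Matrix (Fin n) (Fin n) L} (h : G.gS.mem L x)
    (hb : Bor b) : G.gS.mem L (gmul x b) := by
  refine ⟨⟨h.1.1, ?_⟩, h.2.1, ?_⟩
  · exact (det_mul _ _).trans_ne (mul_ne_zero h.1.2 hb.2)
  · have := su_mul_tri (tri_mul_su (bor_inv hb).1 h.2.2) hb.1
    simpa only [gmul, Matrix.mul_inv_rev, Matrix.mul_assoc] using this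

lemma nu_eq {F : Type} [Field F] {r r' : Fin n} (hr : r'.1 = r.1 + 1)
    {μ g : Matrix (Fin n) (Fin n) F} (h : g.det ≠ 0) (t : F) :
    (g⁻¹ * (μ - diagonal fun _ : Fin n => t) * g : Matrix _ _ F) r r' = (g⁻¹ * μ * g) r r' := by
  rw [conj_sub h, Matrix.sub_apply, diagonal_apply_ne _ (ne_of hr), sub_zero]

lemma sw_mem {r r' : Fin n} (hr : r'.1 = r.1 + 1) {x : (gsh cc d n m).X L} (S : L)
    (h : G.gS.mem L x) (h0 : nu r r' x = 0) : G.gS.mem L (gsw r r' x S) := by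
  refine ⟨⟨⟨zperm_mem G _ h.1.1.1, trivial⟩, ?_⟩, h.2.1, ?_⟩
  · exact (det_mul _ _).trans_ne (mul_ne_zero h.1.2 (hS_det hr S))
  · have := su_hS hr h.2.2 ((nu_eq hr h.1.2 _).trans h0) (-S) S
    simpa only [gsw, Matrix.mul_inv_rev, Matrix.mul_assoc, hS_inv hr] using this

lemma nu_mul {r r' : Fin n} (hr : r'.1 = r.1 + 1) {x : (gsh cc d n m).X L}
    {b : Matrix (Fin n) (Fin n) L} (h : G.gS.mem L x) (h0 : nu r r' x = 0) (hb : Bor b) :
    nu r r' (gmul x b) = 0 := by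
  refine (nu_eq hr (mul_mem G h hb).1.2 (algebraMap K L G.t)).symm.trans ?_
  have := mul_tri_zero hr (tri_mul_su (bor_inv hb).1 h.2.2)
    (tri_mul_zero hr (bor_inv hb).1 h.2.2 ((nu_eq hr h.1.2 _).trans h0)) hb.1
  simpa only [gmul, Matrix.mul_inv_rev, Matrix.mul_assoc] using this

lemma map_gmul (α : L →ₐ[K] M) (x : (gsh cc d n m).X L) (b : Matrix (Fin n) (Fin n) L) :
    (gsh cc d n m).map α (gmul x b) = gmul ((gsh cc d n m).map α x) (b.map α) :=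
  Prod.ext rfl (Prod.ext rfl (Matrix.map_mul (f := α)))

/-- The points at which the neighbouring flag is admissible. -/
noncomputable def nS (r r' : Fin n) : ASp K (gsh cc d n m) :=
  G.gS.cl (fun _ x => nu r r' x = 0) fun _ _ _ _ _ _ m' e h =>
    Rel.eq_zero (Rel.mmul (Rel.mmul (Rel.minv e.2.2 m'.1.2) e.2.1) e.2.2 r r') h

lemma sw_reg (r r' : Fin n) : Reg ((nS G r r').prod (.univ K (.vec Unit))) (gsh cc d n m)
    fun _ x => gsw r r' x.1 (x.2 ()) := fun _ _ _ _ _ _ _ e =>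
  ⟨⟨⟨e.1.1.1.1, fun j _ => e.1.1.1.2 j _⟩, e.1.1.2⟩, e.1.2.1,
    Rel.mmul e.1.2.2 (rel_hS r r' (e.2 ()))⟩

variable [FA3 K]

lemma gv_eq' {c c' : Cd} {κ : Type} [Finite κ] {P : Sp (c'.amb K)} {j i : ℕ} (θ : Pre i P)
    (h : i = j + Nat.card κ) (S : ASp K c) (f : ∀ L : Fld K, c.X L → (κ → L) → c'.X L)
    (hf : Reg (S.prod (.univ K (.vec κ))) c' fun L x => f L x.1 x.2) {α : L →ₐ[K] M} {T : κ → M}
    (x : c.X L) (hx : S.mem L x) (hF : Free j α T) :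
    θ.a M (f M (c.map α x) T) = gv θ.a f j L x := by
  subst h
  exact FA3.gv_eq θ S f hf x hx hF

lemma gv_pre' {c c' : Cd} {κ : Type} [Finite κ] {P : Sp (c'.amb K)} {j i : ℕ} (θ : Pre i P)
    (h : i = j + Nat.card κ) (S : ASp K c) (f : ∀ L : Fld K, c.X L → (κ → L) → c'.X L)
    (hf : Reg (S.prod (.univ K (.vec κ))) c' fun L x => f L x.1 x.2) :
    ∃ θ' : Pre j S.sp, ∀ L x, S.mem L x → θ'.a L x = gv θ.a f j L x := by
  subst h
  exact FA3.gv_pre θ S f hf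

variable {i : ℕ}

lemma pre (h : G.j = i + Nat.card (Mid m × UpN n)) :
    ∃ θ : Pre i G.gS.sp, ∀ L x, G.gS.mem L x → θ.a L x = G.Γ i L x :=
  gv_pre' G.Ψ.toPre h G.gS (fun _ x T => gpt x T) (gpt_reg G)

lemma eq (h : G.j = i + Nat.card (Mid m × UpN n)) {α : L →ₐ[K] M} {T : Mid m × UpN n → M}
    {x : (gsh cc d n m).X L} (hx : G.gS.mem L x) (hF : Free i α T) :
    G.a M (gpt ((gsh cc d n m).map α x) T) = G.Γ i L x :=
  gv_eq' G.Ψ.toPre h G.gS (fun _ x T => gpt x T) (gpt_reg G) x hx hF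

omit [FA3 K] in
lemma gv_sw {r r' : Fin n} (hr : r'.1 = r.1 + 1) {θ : Pre (i + 1) G.gS.sp}
    (hθ : ∀ L x, G.gS.mem L x → θ.a L x = G.Γ (i + 1) L x) {x : (gsh cc d n m).X L}
    (hx : (nS G r r').mem L x) :
    gv θ.a (fun _ x (S : Unit → _) => gsw r r' x (S ())) i L x = G.Γs r r' i L x := by
  have := ((nS G r r').map_iff (frα L Unit) x).2 hx
  unfold GC.Γs gv
  rw [hθ _ _ (sw_mem G hr _ this.1 this.2)]

lemma eqs {r r' : Fin n} (hr : r'.1 = r.1 + 1) (h : G.j = i + 1 + Nat.card (Mid m × UpN n))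
    {α : L →ₐ[K] M} {S : M} {x : (gsh cc d n m).X L} (hx : G.gS.mem L x) (h0 : nu r r' x = 0)
    (hF : Free i α fun _ : Unit => S) :
    G.Γ (i + 1) M (gsw r r' ((gsh cc d n m).map α x) S) = G.Γs r r' i L x := by
  obtain ⟨θ, hθ⟩ := pre G h
  have := ((nS G r r').map_iff α x).2 ⟨hx, h0⟩
  rw [← hθ _ _ (sw_mem G hr _ this.1 this.2), ← gv_sw G hr hθ ⟨hx, h0⟩]
  exact gv_eq' θ (by rw [Nat.card_unique]) (nS G r r')
    (fun _ x (S : Unit → _) => gsw r r' x (S ())) (sw_reg G r r') x ⟨hx, h0⟩ hF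

omit [FA3 K] in
lemma gen_α {κ : Type} (α : L →ₐ[K] M) (T : κ → M) (a : L) :
    (Rel.ofSub (gen α T)).r (α a) (α a) :=
  ⟨IntermediateField.subset_adjoin _ _ (Or.inl ⟨a, rfl⟩), rfl⟩

omit [FA3 K] in
lemma gen_T {κ : Type} (α : L →ₐ[K] M) (T : κ → M) (a : κ) :
    (Rel.ofSub (gen α T)).r (T a) (T a) :=
  ⟨IntermediateField.subset_adjoin _ _ (Or.inr ⟨a, rfl⟩), rfl⟩

variable [FA1 K]

lemma inv (h : G.j = i + Nat.card (Mid m × UpN n)) {x : (gsh cc d n m).X L}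
    {b : Matrix (Fin n) (Fin n) L} (hx : G.gS.mem L x) (hb : Bor b) :
    G.Γ i L (gmul x b) = G.Γ i L x := by
  by_cases hL : Good i L
  swap
  · exact (if_neg hL).trans (if_neg hL).symm
  have hF := FA1.fr_free (Mid m × UpN n) hL
  generalize frα L _ = α, frT L _ = T at hF
  have hB := bor_map α hb
  have hF' : Free i α (cj (b.map α) (fun j i => α (x.1.1.2 j i)) T) :=
    FA1.of_gen hF rfl fun a => by
      rw [← cj_inv hB (fun j i => α (x.1.1.2 j i)) T a]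
      have e : (Rel.ofSub (gen α (cj (b.map α) (fun j i => α (x.1.1.2 j i)) T))).m' (b.map α)
        (b.map α) := fun _ _ => gen_α _ _ _
      exact (Rel.mmul (Rel.mmul (Rel.minv e hB.2) (Rel.madd (Rel.mdiag fun _ => gen_α _ _ _)
        (rel_nmat (gen_T _ _) _))) e _ _).1
  rw [← eq G h (mul_mem G hx hb) hF, ← eq G h hx hF', map_gmul]
  exact congrArg (fun μ => G.a _ (zpt _ μ)) (cmat_mul hB _ _ _ T)

lemma invs {r r' : Fin n} (hr : r'.1 = r.1 + 1) (h : G.j = i + 1 + Nat.card (Mid m × UpN n))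
    {x : (gsh cc d n m).X L} {b : Matrix (Fin n) (Fin n) L} (hx : G.gS.mem L x)
    (h0 : nu r r' x = 0) (hb : Bor b) : G.Γs r r' i L (gmul x b) = G.Γs r r' i L x := by
  by_cases hL : Good i L
  swap
  · exact (if_neg hL).trans (if_neg hL).symm
  have hF : Free i (frα L Unit) fun _ : Unit => frT L Unit () := FA1.fr_free Unit hL
  generalize frα L _ = α, frT L Unit () = S at hF
  have hB := bor_map α hb
  have h1 : α (b r r) ≠ 0 := bor_diag hB r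
  have h2 : α (b r' r') ≠ 0 := bor_diag hB r'
  have hu : α (b r r) + α (b r r') * S ≠ 0 := fun e => bor_diag hb r (by
    have := FA1.trans hF () (Polynomial.C (b r r) + Polynomial.C (b r r') * Polynomial.X)
      (by simpa using e)
    simpa using congrArg (fun P => Polynomial.coeff P 0) this)
  obtain ⟨S', hS'⟩ : ∃ S', S' = α (b r' r') * S / (α (b r r) + α (b r r') * S) := ⟨_, rfl⟩
  have e1 : S' * (α (b r r) + α (b r r') * S) = α (b r' r') * S := by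
    rw [hS', div_mul_cancel₀ _ hu]
  have e2 : α (b r' r') - S' * α (b r r') ≠ 0 := fun e =>
    mul_ne_zero h2 h1 (by linear_combination (α (b r r) + α (b r r') * S) * e + α (b r r') * e1)
  have hF' : Free i α fun _ : Unit => S' := FA1.of_gen hF rfl fun _ => by
    rw [show S = S' * α (b r r) / (α (b r' r') - S' * α (b r r')) from
      (eq_div_iff e2).2 (by linear_combination -e1)]
    exact (Rel.div ((Rel.ofSub _).mul (gen_T α (fun _ : Unit => S') ()) (gen_α _ _ _))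
      (Rel.sub (gen_α _ _ _) ((Rel.ofSub _).mul (gen_T α (fun _ : Unit => S') ())
        (gen_α _ _ _))) e2).1
  have hx' := ((nS G r r').map_iff α x).2 ⟨hx, h0⟩
  rw [← eqs G hr h (mul_mem G hx hb) (nu_mul G hr hx h0 hb) hF, ← eqs G hr h hx h0 hF', map_gmul,
    ← inv G h (sw_mem G hr S' hx'.1 hx'.2) (bor_hS hr hB e1)]
  refine congrArg _ (Prod.ext rfl (Prod.ext rfl ?_))
  have := hS_neg hr (-S')
  rw [neg_neg] at this
  simp only [gmul, gsw, Matrix.mul_assoc]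
  rw [← Matrix.mul_assoc (hS r r' S'), this, Matrix.one_mul]

end G1a

theorem G1_thm [FA1 K] [FA3 K] : G1 K p where
  zmem G _ _ h := ((G1a.zS_iff G _).1 h).2.1
  zperm G _ _ σ h := G1a.zperm_mem G σ h
  mem G _ _ T h := G1a.gpt_mem G T h
  reg G := G1a.gpt_reg G
  pre G _ h := G1a.pre G h
  eq G _ h _ _ _ _ _ hx hF := G1a.eq G h hx hF
  low G _ h _ _ _ hx hd hl := by
    obtain ⟨θ, hθ⟩ := G1a.pre G h
    rw [← hθ _ _ hx, FA3.low' θ hd hl]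
  mul G _ _ _ hx hb := G1a.mul_mem G hx hb
  inv G _ h _ _ _ hx hb := G1a.inv G h hx hb
  sw G _ _ hr _ _ S hx h0 := G1a.sw_mem G hr S hx h0
  eqs G _ _ hr _ h _ _ _ _ _ hx h0 hF := G1a.eqs G hr h hx h0 hF
  invs G _ _ hr _ h _ _ _ hx h0 hb := ⟨G1a.nu_mul G hr hx h0 hb, G1a.invs G hr h hx h0 hb⟩
  lows G r r' hr _ h _ _ _ hx h0 hd hl := by
    obtain ⟨θ, hθ⟩ := G1a.pre G h
    obtain ⟨θ', hθ'⟩ := G1a.gv_pre' (κ := Unit) θ (by rw [Nat.card_unique]) (G1a.nS G r r')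
      (fun _ x S => gsw r r' x (S ())) (G1a.sw_reg G r r')
    rw [← G1a.gv_sw G hr hθ ⟨hx, h0⟩, ← hθ' _ _ ⟨hx, h0⟩, FA3.low' θ' hd hl]

end Pool.Agent.Lib.MP_557161_ag.HG
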