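import Pool.Agent.Lib.MP_557161_ag.HG.G31

/-!
The relation between the families.
-/

namespace Pool.Agent.Lib.MP_557161_ag.HG

open Pool.Agent.Lib.MP_557161_ag.DL Matrix

variable {K : Type} [Field K] {p : ℕ} {cc d : Cd} {n m : ℕ} (G : GC K p cc d n m)
  {r r' c : Fin n} {s i i' : ℕ} {L M : Fld K}

lemma G3_gr (α : L →ₐ[K] M) {κ : Type} (T : κ → M) (a : κ) : T a ∈ gen α T :=
  IntermediateField.subset_adjoin _ _ (Or.inr ⟨a, rfl⟩)

lemma G3_res {e : Cd} (α : L →ₐ[K] M) (O : Pl M) {κ : Type} (P : κ → O.res) {z : e.X L}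
    {z' : e.X O.res} (h : e.lift (Rel.ofPl O).r (e.map α z) z') :
    e.all (· ∈ gen (Pl.over_comap α O).resHom P) z' := (e.all_iff _ _).2 fun a => by
  have := ((e.lift_iff _ _ _).1 h a).2
  rw [e.co_map, ← (Pl.over_comap α O).resHom_rd] at this
  exact IntermediateField.subset_adjoin _ _ (Or.inl ⟨_, this⟩)

lemma G3_map (α : L →ₐ[K] M) (T : UpN n → L) (a c : Fin n) :
    upm Fin.val (fun a => α (T a)) a c = α (upm Fin.val T a c) := by
  simp only [upm, of_apply]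
  split_ifs
  exacts [rfl, (map_zero α).symm]

lemma G3_val [FA1 K] [G1 K p] [G4 K p] (hr : r'.1 = r.1 + 1) (hs : r'.1 < s) (hn : s ≤ n)
    (hc : c.1 + 1 = s) (hi : i + Nat.card (UpN n) = i' + 1)
    (hj : G.j = i + Nat.card (UpN n) + Nat.card (Mid m × UpN n)) {β : L →ₐ[K] M} {z}
    (hz : G.zS.mem L z) {T : UpN n → M} {a₀ : UpN n} (hF : Free i β fun a : {a // a ≠ a₀} => T a)
    {q : ℕ} (hq : q < s) (h : q = r ∧ upm Fin.val T r c = 0 ∧ (r' < c → upm Fin.val T r' c ≠ 0) ∨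
      q = r' + 1 ∧ r' < c ∧ upm Fin.val T r' c = 0 ∧ upm Fin.val T r c ≠ 0) :
    G.Γs r r' i' M (G.fam s r' M ((zsh cc d n m).map β z) T) =
      G.γ s q i L (zperm (Equiv.swap r r') z) := by
  classical
  have e0 : Nat.card {a // a ≠ a₀} + 1 = Nat.card (UpN n) := by
    rw [← Nat.card_congr (Equiv.optionSubtypeNe a₀), Finite.card_option]
  obtain rfl : i' = i + Nat.card {a // a ≠ a₀} := by omega
  have h1 := FA1.fr_free Unit hF.gM
  set α := frα M Unit
  set S := frT M Unit ()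
  have hm := (G.zS.map_iff β z).2 hz
  have h2 : Free i (α.comp β) (G3T s r r' c S fun a => α (T a)) := by
    refine FA1.of_gen (FA1.comp hF h1) (by simp only [Nat.card_sum, Nat.card_unique, e0]) fun a => ?_
    have := G3T_gen (S := S) (T := fun a => α (T a)) hr hs hc
      (by simpa only [G3_map α T, map_eq_zero, Ne] using h.imp (·.2) (·.2)) _ (G3_gr (α.comp β) _)
    cases a
    exacts [this.2 _, this.1]
  have h3 := G3_sw (S := S) (T := fun a => α (T a)) (q := q) hr hs hc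
    (by simp only [G3_map α T, map_eq_zero]; tauto)
  rw [← G1.eqs G hr (hi ▸ hj) ((G4.fam G hs hn).mem M (_, T) ⟨hm, trivial⟩) ?_ (S := S) h1,
    ← G4.eq G hq hn hj (G1.zperm G _ hz) h2, hi,
    ← (G4.fam G hs hn).reg.nat α (x := (_, T)) ⟨hm, trivial⟩]
  · refine congrArg _ (Prod.ext ?_ (Prod.ext (congrArg (diagonal _ + ·) h3.2) h3.1))
    exact congrArg (zperm _) ((zsh cc d n m).map_map β α z)
  · refine (G3_nu_fam hr hs hc _).trans ?_
    rcases h with h | h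
    · rw [h.2.1, zero_mul]
    · rw [if_neg h.2.1.ne, h.2.2.1, mul_zero]

lemma G3_other [FA1 K] [FA2 K] [IW K] [G1 K p] [G4 K p] (hr : r'.1 = r.1 + 1) (hs : r'.1 < s)
    (hn : s ≤ n) (hc : c.1 + 1 = s) (hi : i + Nat.card (UpN n) = i' + 1)
    (hj : G.j = i + Nat.card (UpN n) + Nat.card (Mid m × UpN n)) {α : L →ₐ[K] M} {z}
    (hz : G.zS.mem L z) (hL : Good i L) {T : UpN n → M} (O : Pl M)
    (H : (∀ a, T a ∈ O.O) → (upm Fin.val (fun a => O.rd (T a)) r c *
        if r' = c then 1 else upm Fin.val (fun a => O.rd (T a)) r' c) = 0 →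
      ∃ l, l < i' ∧ (O.res.sub (gen (Pl.over_comap α O).resHom fun a => O.rd (T a))).tr ≤ l)
    {b : Matrix (Fin n) (Fin n) M} {x} (hb : Bor b) (hx : G.gS.mem O.res x)
    (e : (gsh cc d n m).lift (Rel.ofPl O).r (gmul (G.fam s r' M ((zsh cc d n m).map α z) T) b) x)
    (h0 : nu r r' x = 0) : G.Γs r r' i' O.res x = 0 := by
  obtain ⟨z', μ, k⟩ := x
  have hk : k.det ≠ 0 := hx.1.2
  have eN : (Rel.ofPl O).m' (gnm s r' T) (μ - diagonal fun _ => algebraMap K _ G.t) := by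
    have := Rel.msub e.2.1 (Rel.mdiag fun _ => (Rel.ofPl O).const G.t)
    rwa [show (gmul (G.fam s r' M ((zsh cc d n m).map α z) T) b).2.1 - _ = gnm s r' T from
      add_sub_cancel_left _ _] at this
  obtain ⟨q, hq, D⟩ := (((G3D.fam hs T).mul hb).rel eN e.2.2 hk).step hr hs hc hk
    ((G3_nu k μ _ hk (by omega)).symm.trans h0)
  obtain ⟨k₀, b₀, z₀, v, rfl, hb₀, hv, -, h⟩ := IW.nf k hk hq hn D.h1 D.h2
  have e1 : k₀ * b₀ * b₀⁻¹ = k₀ := mul_nonsing_inv_cancel_right _ _ hb₀.2.isUnit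
  have hm := G1.mul G hx hb₀.G3_inv
  obtain ⟨h1, h2⟩ := G1.invs G hr (hi ▸ hj) hx h0 hb₀.G3_inv
  replace D := D.mul hb₀.G3_inv
  simp only [gmul, e1] at hm h1 h2 D
  have hk₀ : k₀.det ≠ 0 := hm.1.2
  suffices ∃ l, l < i' ∧ (gsh cc d n m).Dm O.res (z', μ, k₀) l by
    obtain ⟨l, h3, h4⟩ := this
    exact h2 ▸ G1.lows G hr (hi ▸ hj) hm h1 h4 h3
  rcases h with h | h
  · have hg := (IW.lu O (G3_luni s r' T) hb h hb₀ e.2.2).1
    have hT := G3_ent (· ∈ O.O) (fun a c => (hg a c).1) (fun a c => (eN a c).1)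
      fun a c => (Rel.mmul (Rel.minv hg hk₀) eN a c).1
    have e2 : (z', μ, k₀) = G.fam s r' O.res z' fun a => O.rd (T a) :=
      Cd.lift_eq (c := gsh cc d n m) (x := G.fam s r' M _ T) ⟨e.1, e.2.1, hg⟩
        ((G4.fam G hs hn).reg (Rel.ofPl O) (x := (_, T)) (x' := (z', _))
          ⟨(G.zS.map_iff α z).2 hz, trivial⟩ ⟨hx.1.1.1, trivial⟩ ⟨e.1, fun a => ⟨hT a, rfl⟩⟩) rfl
    rw [e2] at h1 ⊢
    obtain ⟨l, h3, h4⟩ := H hT ((G3_nu_fam hr hs hc _).symm.trans h1)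
    exact ⟨l, h3, _, (G4.fam G hs hn).reg.all_sub _ (x := (z', _)) ⟨hx.1.1.1, trivial⟩
      ⟨G3_res α O _ e.1, G3_gr _ _⟩, h4⟩
  · set N := μ - diagonal fun _ => algebraMap K _ G.t
    let P : Fin z₀ ⊕ Fin q ⊕ {a : UpN n // s ≤ a.1.2.1} → O.res :=
      Sum.elim v (Sum.elim (fun a => (k₀⁻¹ * N) (a.castLE (by omega)) c) fun a => N a.1.1.1 a.1.1.2)
    have h3 := G3_gr (Pl.over_comap α O).resHom P
    have h4 : ∀ a c, k₀ a c ∈ gen (Pl.over_comap α O).resHom P := fun a c => by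
      rcases hv a c with h | h | ⟨l, h⟩ <;> rw [h]
      exacts [zero_mem _, one_mem _, h3 (.inl l)]
    have h5 := D.mem hk₀ hm.2.1 _ h4
      (fun a u h1 h2 => by
        obtain rfl : u = c := by omega
        exact h3 (.inr (.inl ⟨a, h1⟩))) fun a h1 => h3 (.inr (.inr ⟨a, h1⟩))
    refine ⟨i + Nat.card (Fin z₀ ⊕ Fin q ⊕ {a : UpN n // s ≤ a.1.2.1}), ?_, _,
      ⟨G3_res α O P e.1, fun a u => ?_, h4⟩, (FA1.tr_gen _ P).trans ?_⟩
    · have := G3_card hn
      simp only [Nat.card_sum, Nat.card_fin]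
      omega
    · change μ a u ∈ _
      rw [← sub_add_cancel μ (diagonal fun _ => algebraMap K _ G.t), Matrix.add_apply, diagonal_apply]
      refine add_mem (h5 a u) ?_
      split_ifs
      exacts [IntermediateField.algebraMap_mem _ _, zero_mem _]
    · rw [Nat.cast_add]
      exact add_le_add_left (FA2.res_le α O hL.2.le) _

theorem G3_thm [FA1 K] [FA2 K] [G1 K p] [IW K] [R2 K p] [G4 K p] : G3 K p where
  rel {cc d n m} G hm r r' hr s i hs hn hj L z hz := by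
    classical
    by_cases hL : Good i L
    swap
    · simp [GC.γ, gv, hL]
    have hF := FA1.fr_free (UpN n) hL
    set α := frα L (UpN n)
    set T := frT L (UpN n)
    obtain ⟨c, hc⟩ : ∃ c : Fin n, c.1 + 1 = s := ⟨⟨s - 1, by omega⟩, by simp only; omega⟩
    have hrc : r < c := by omega
    obtain ⟨i', hi⟩ : ∃ i', i + Nat.card (UpN n) = i' + 1 := by
      have : Nonempty (UpN n) := ⟨⟨(r, c), hrc⟩⟩
      have := Nat.card_pos (α := UpN n)
      exact ⟨i + Nat.card (UpN n) - 1, by omega⟩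
    choose Z hZ h1 h2 h3 h4 h5 using FA2.zero hF hi
    have hz' := (G.zS.map_iff α z).2 hz
    have hne : ∀ a u, u ≠ a → (Z a).1.rd (T u) ≠ 0 := fun a u h =>
      map_zero (hZ a).hom ▸ (FA1.trans (h4 a) ⟨u, h⟩).ne 0
    have hT : ∀ u, T u ≠ 0 := fun u => map_zero α ▸ (FA1.trans hF u).ne 0
    have hord : ∀ a u, u ≠ a → (Z a).1.ord (T u) = 0 := fun a u h =>
      Pl.ord_eq_zero_of_mem (hT u) (h1 a u) (((Z a).1.rd_ne_zero_iff (h1 a u)).1 (hne a u h)).2
    have hx : G.gS.mem _ (G.fam s r' _ ((zsh cc d n m).map α z) T) :=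
      (G4.fam G hs hn).mem _ (_, T) ⟨hz', trivial⟩
    have hl : ∀ a, (G.gS.mem _ (G.fam s r' _ ((zsh cc d n m).map (hZ a).hom z) fun u => (Z a).1.rd (T u))) ∧
        (gsh cc d n m).lift (Rel.ofPl (Z a).1).r (G.fam s r' _ ((zsh cc d n m).map α z) T)
          (G.fam s r' _ ((zsh cc d n m).map (hZ a).hom z) fun u => (Z a).1.rd (T u)) := fun a =>
      have := (G.zS.map_iff (hZ a).hom z).2 hz
      ⟨(G4.fam G hs hn).mem _ (_, _) ⟨this, trivial⟩, (G4.fam G hs hn).reg _ (x := (_, T))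
        (x' := (_, _)) ⟨hz', trivial⟩ ⟨this, trivial⟩ ⟨Cd.lift_triv _ z, fun u => ⟨h1 a u, rfl⟩⟩⟩
    have hν : nu r r' (G.fam s r' _ ((zsh cc d n m).map α z) T) = _ := G3_nu_fam hr hs hc _
    have key := fun hν0 A val hA (hO : ∀ O ∉ A, _) => R2.rel G hm hr (hi ▸ hj) hx (hi ▸ hF.gM) hν0 A val hA
      fun O h b x hb hx' e h0 => G3_other G hr hs hn hc hi hj hz hL O.1 (hO O h) hb hx' e (by
        have hk : x.2.2.det ≠ 0 := hx'.1.2
        refine ((Rel.mmul (Rel.mmul (Rel.minv e.2.2 hk) e.2.1) e.2.2 r r').2).symm.trans ?_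
        refine ((Pl.ord_pos_iff O.2.1 fun e' => ?_).1 h0).2
        rw [e', Pl.ord_zero _ O.2.1] at h0
        exact h0.false)
    rw [← hi, G4.eq G hs hn hj hz hF, show (zperm (Equiv.swap r r')
      (G.fam s r' _ ((zsh cc d n m).map α z) T).1, (G.fam s r' _ ((zsh cc d n m).map α z) T).2) =
      G.fam s r' _ ((zsh cc d n m).map α (zperm (Equiv.swap r r') z)) T from rfl,
      G4.eq G hs hn hj (G1.zperm G (Equiv.swap r r') hz) hF] at key
    let a₁ : UpN n := ⟨(r, c), hrc⟩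
    have u₁ : ∀ {F : Fld K} (T : UpN n → F), upm Fin.val T r c = T a₁ := fun T => G3_upm' T a₁
    rw [u₁] at hν
    rcases (show r' = c ∨ r' < c by omega) with rfl | h
    · rw [if_pos rfl, mul_one] at hν
      simpa [hc] using key (hν ▸ hT a₁) {Z a₁} (fun _ => G.γ s r i L (zperm (Equiv.swap r r') z))
        (fun O hO => by
          obtain rfl := Finset.mem_singleton.1 hO
          refine ⟨_, (hl a₁).1, (hl a₁).2, ?_⟩
          rw [hν, h2, G3_val G hr hs hn hc hi hj hz (h4 a₁) (q := r) (by omega)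
            (.inl ⟨rfl, (u₁ _).trans (h3 a₁), fun h => h.false.elim⟩), Int.cast_one, one_mul])
        fun O hO hT h0 => h5 a₁ O (mt Finset.mem_singleton.2 hO) hT (by simpa [u₁] using h0)
    · let a₂ : UpN n := ⟨(r', c), h⟩
      have u₂ : ∀ {F : Fld K} (T : UpN n → F), upm Fin.val T r' c = T a₂ := fun T => G3_upm' T a₂
      have n₁ : a₁ ≠ a₂ := fun e => by
        have : r = r' := congrArg (·.1.1) e
        omega
      have n₂ : Z a₁ ≠ Z a₂ := fun e => hne a₂ a₁ n₁ (e ▸ h3 a₁)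
      rw [if_neg h.ne, u₂] at hν
      have := key (hν ▸ mul_ne_zero (hT a₁) (hT a₂)) {Z a₁, Z a₂}
        (fun O => G.γ s (if O = Z a₁ then r else r' + 1) i L (zperm (Equiv.swap r r') z))
        (fun O hO => by
          rw [hν, Pl.ord_mul O.2.1 (hT a₁) (hT a₂)]
          rcases Finset.mem_insert.1 hO with rfl | hO
          · refine ⟨_, (hl a₁).1, (hl a₁).2, ?_⟩
            rw [if_pos rfl, h2, hord a₁ a₂ n₁.symm, G3_val G hr hs hn hc hi hj hz (h4 a₁) (q := r) (by omega)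
              (.inl ⟨rfl, (u₁ _).trans (h3 a₁), fun _ => (u₂ _).trans_ne (hne a₁ a₂ n₁.symm)⟩)]
            simp
          · obtain rfl := Finset.mem_singleton.1 hO
            refine ⟨_, (hl a₂).1, (hl a₂).2, ?_⟩
            rw [if_neg n₂.symm, h2, hord a₂ a₁ n₁, G3_val G hr hs hn hc hi hj hz (h4 a₂) (q := r' + 1)
              (by omega) (.inr ⟨rfl, h, (u₂ _).trans (h3 a₂), (u₁ _).trans_ne (hne a₂ a₁ n₁)⟩)]
            simp)
        fun O hO hT h0 => by
          rw [if_neg h.ne, u₁, u₂, mul_eq_zero] at h0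
          rw [Finset.mem_insert, Finset.mem_singleton, not_or] at hO
          exact h0.elim (h5 a₁ O hO.1 hT) (h5 a₂ O hO.2 hT)
      rwa [Finset.sum_pair n₂, if_pos rfl, if_neg n₂.symm, ← add_assoc, ← if_pos (show r'.1 + 1 < s by omega)
        (t := G.γ s (r' + 1) i L _) (e := 0)] at this

end Pool.Agent.Lib.MP_557161_ag.HG
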