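import Pool.Agent.Lib.MP_557161_ag.HG.St2

/-!
From the torus to the full chain: iteration of one step.
-/

namespace Pool.Agent.Lib.MP_557161_ag.HG

open Pool.Agent.Lib.MP_557161_ag.DL Matrix

variable {K : Type} [Field K] {p : ℕ}

namespace M1a

lemma reindex {j : ℕ} {L M : Fld K} {α : L →ₐ[K] M} {κ κ' : Type} {T : κ → M} (h : Free j α T)
    (e : κ' ≃ κ) : Free j α fun i => T (e i) :=
  ⟨h.gL, by rw [Nat.card_congr e]; exact h.gM, by
    rw [← h.top, gen, gen, show (Set.range fun i => T (e i)) = Set.range T from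
      e.surjective.range_comp T]⟩

variable {ι F : Type} [Field F] {b : ι → ℕ} {m k : ℕ}

lemma upm_le (T : UpI b → F) {i j : ι} (h : b j ≤ b i) : upm b T i j = 0 :=
  dif_neg (not_lt.2 h)

lemma upm_map {F' : Type} [Field F'] (f : F → F') (h : f 0 = 0) (T : UpI b → F) :
    (upm b T).map f = upm b fun z => f (T z) := by
  ext i j
  simp only [upm, map_apply, of_apply]
  split_ifs
  exacts [rfl, h]

/-- The strictly upper triangular parts that are added in the first `k` steps. -/
def ad (b : ι → ℕ) (m : ℕ) (T : Fin k × UpI b → F) (i : Fin (m + 1)) : Matrix ι ι F :=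
  Fin.cases 0 (fun a => if h : a.1 < k then upm b fun z => T (⟨a, h⟩, z) else 0) i

lemma ad_su (T : Fin k × UpI b → F) (i : Fin (m + 1)) : SU b (ad b m T i) := by
  intro a c h
  refine Fin.cases rfl (fun s => ?_) i
  simp only [ad, Fin.cases_succ]
  split_ifs
  exacts [upm_le _ h, rfl]

lemma ad_gt (T : Fin k × UpI b → F) {i : Fin (m + 1)} (h : k < i.1) : ad b m T i = 0 := by
  revert h
  refine Fin.cases (fun _ => rfl) (fun s h => ?_) i
  simp only [ad, Fin.cases_succ]
  exact dif_neg (by simp only [Fin.val_succ] at h; omega)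

lemma tri_add {A B : Matrix ι ι F} (h : A.BlockTriangular b) (h' : SU b B) :
    (A + B).BlockTriangular b := fun i j e => by
  rw [Matrix.add_apply, h e, h' i j (le_of_lt e), add_zero]

variable [Fintype ι] [DecidableEq ι]

lemma det_add {A B : Matrix ι ι F} (h : A.BlockTriangular b) (h' : SU b B) :
    (A + B).det = A.det := by
  rw [(tri_add h h').det, h.det]
  refine Finset.prod_congr rfl fun a _ => congrArg det (Matrix.ext fun i j => ?_)
  change A i j + B i j = A i j
  rw [h' i j (by rw [i.2, j.2]), add_zero]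

variable {cc d : Cd}

lemma mem_ad (Q : ChD K cc ι m) {L : Fld K} {x : (chs cc ι m).X L} (h : (Q.Ch 0).S.mem L x)
    (T : Fin k × UpI Q.b → L) : (Q.Ch k).S.mem L (x.1, fun i => x.2 i + ad Q.b m T i) := by
  have t : ∀ i, (x.2 i).BlockTriangular Q.b := fun i => h.2.2.1 i (Nat.zero_le _)
  refine ⟨⟨⟨h.1.1.1, trivial⟩, fun i => ?_⟩, ?_, fun i _ => tri_add (t i) (ad_su T i),
    fun i hi => ?_, fun i => ?_⟩
  · change (x.2 i + ad Q.b m T i).det ≠ 0
    rw [det_add (t i) (ad_su T i)]
    exact h.1.2 i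
  · exact (add_zero _).trans h.2.1
  · change (x.2 i + ad Q.b m T i).IsDiag
    rw [ad_gt T hi, add_zero]
    exact h.2.2.2.1 i (by omega)
  · change x.2 _ i i + ad Q.b m T _ i i = _
    rw [ad_su T _ i i le_rfl, add_zero]
    exact h.2.2.2.2 i

/-- The old variables. -/
def e₁ (k : ℕ) (U : Type) : Fin k × U ≃ {a : Fin (k + 1) × U // a.1.1 < k} where
  toFun a := ⟨(a.1.castSucc, a.2), a.1.2⟩
  invFun a := (⟨a.1.1, a.2⟩, a.1.2)
  left_inv _ := rfl
  right_inv _ := rfl

/-- The new variables. -/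
def e₂ (k : ℕ) (U : Type) : U ≃ {a : Fin (k + 1) × U // ¬ a.1.1 < k} where
  toFun a := ⟨(Fin.last k, a), lt_irrefl k⟩
  invFun a := a.1.2
  left_inv _ := rfl
  right_inv a := Subtype.ext (Prod.ext (Fin.ext (by
    have := a.1.1.2
    have := a.2
    simp only [Fin.val_last]
    omega)) rfl)

theorem val [FA1 K] [MS K p] {N : ℕ} (hN : 0 < N) (Q : ChD K cc ι m) {W : ASp K d} {j : ℕ}
    (Φ : NF p j ((Q.Ch 0).kum N) W) (k : ℕ) : k ≤ m → ∀ {i : ℕ},
    i = j + Nat.card (Fin k × UpI Q.b) → ∃ Ψ : NF p i ((Q.Ch k).kum N) W,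
      ∀ (L M : Fld K) (α : L →ₐ[K] M) (T : Fin k × UpI Q.b → M) (x : (chs cc ι m).X L) r y w,
        Free j α T → (Q.Ch 0).S.mem L x →
        Ψ.b M ((cc.map α x.1, fun i => (x.2 i).map α + ad Q.b m T i), α r) (α y) (d.map α w) =
          ((-1) ^ Nat.card (UpI Q.b)) ^ k * Φ.b L (x, r) y w := by
  induction k with
  | zero =>
    intro _ i hi
    obtain rfl : j = i := by simp [hi]
    refine ⟨Φ, fun L M α T x r y w hF _ => ?_⟩
    have := Φ.ext α (some (((x, r), y), w)) hF.gL (by simpa using hF.gM)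
    rw [deg_of_surj (FA1.zero.1 hF).2, Nat.cast_one] at this
    have e : (fun i => (x.2 i).map α + ad Q.b m T i) = fun i => (x.2 i).map α := funext fun i => by
      refine Fin.cases (add_zero _) (fun s => ?_) i
      rw [ad_gt T (Nat.succ_pos _), add_zero]
    rw [pow_zero, e]
    exact this
  | succ k ih =>
    intro hk i hi
    obtain ⟨Ψ₁, h₁⟩ := ih (by omega) rfl
    obtain ⟨Ψ, h₂⟩ := MS.s5 hN Q ⟨k, hk⟩ Ψ₁
    obtain rfl : j + Nat.card (Fin k × UpI Q.b) + Nat.card (UpI Q.b) = i := by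
      simp only [hi, Nat.card_prod, Nat.card_fin]
      ring
    refine ⟨Ψ, fun L M α T x r y w hF hx => ?_⟩
    obtain ⟨M₁, α₁, β, T₁, rfl, hT, F₁, F₂⟩ := FA1.split hF fun a => a.1.1 < k
    rw [← Nat.card_congr (e₁ k _)] at F₂
    have e := h₂ M₁ M β _ _ (α₁ r) (α₁ y) (d.map α₁ w) (reindex F₂ (e₂ k _))
      (mem_ad Q (((Q.Ch 0).S.map_iff α₁ x).2 hx) fun a => T₁ (e₁ k _ a))
    rw [h₁ L M₁ α₁ _ x r y w (reindex F₁ (e₁ k _)) hx] at e
    rw [pow_succ', mul_assoc, ← e]
    change Ψ.b M ((cc.map (fun a => β (α₁ a)) x.1, _), _) _ (d.map (fun a => β (α₁ a)) w) =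
      Ψ.b M ((cc.map β (cc.map α₁ x.1), _), _) _ _
    rw [cc.map_map, d.map_map]
    refine congrArg (fun z => Ψ.b M ((_, z), _) _ _) (funext fun i => ?_)
    have hm : ∀ i, ((x.2 i).map α₁ + ad Q.b m (fun a => T₁ (e₁ k _ a)) i).map β =
        (x.2 i).map (β.comp α₁) + ad Q.b m (fun a => T (a.1.castSucc, a.2)) i := fun i => by
      rw [Matrix.map_add _ (map_add β)]
      congr 1
      refine Fin.cases (Matrix.map_zero _ (map_zero β)) (fun s => ?_) i
      simp only [ad, Fin.cases_succ]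
      split_ifs
      · rw [upm_map _ (map_zero β)]
        simp only [hT]
        rfl
      · exact Matrix.map_zero _ (map_zero β)
    by_cases h : i = Fin.succ ⟨k, hk⟩
    · subst h
      rw [Function.update_self]
      refine Eq.trans ?_ (congrArg (· + _) (hm _).symm)
      rw [ad_gt (k := k) _ (Nat.lt_succ_self k), add_zero]
      congr 1
      exact dif_pos (Nat.lt_succ_self k)
    · rw [Function.update_of_ne h]
      refine Eq.trans ?_ (hm _).symm
      congr 1
      revert h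
      refine Fin.cases (fun _ => rfl) (fun s h => ?_) i
      have : s.1 ≠ k := fun e => h (congrArg Fin.succ (Fin.ext e))
      simp only [ad, Fin.cases_succ]
      by_cases h' : s.1 < k
      · rw [dif_pos h', dif_pos (by omega)]
        rfl
      · rw [dif_neg h', dif_neg (by omega)]

end M1a

theorem M1_thm [FW0 K] [MS K p] : M1 K p where
  s5 hN cc d ι _ _ m Q W j Φ := by
    obtain ⟨Ψ, h⟩ := M1a.val hN Q Φ m le_rfl rfl
    refine ⟨Ψ, _, pow_ne_zero m (pow_ne_zero (Nat.card (UpI Q.b)) (neg_ne_zero.2 one_ne_zero)),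
      fun L M α T x r y w hF hx => ?_⟩
    rw [← h L M α T x r y w hF hx]
    refine congrArg (fun z => Ψ.b M ((_, z), _) _ _) (funext fun i => ?_)
    congr 1
    refine Fin.cases rfl (fun s => ?_) i
    simp only [M1a.ad, Fin.cases_succ, dif_pos s.2]

end Pool.Agent.Lib.MP_557161_ag.HG
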