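import Pool.Agent.Lib.MP_557161_ag.HG.St3M
import Pool.Agent.Lib.MP_557161_ag.HG.M1

/-!
The families of flags.
-/

namespace Pool.Agent.Lib.MP_557161_ag.HG

open Pool.Agent.Lib.MP_557161_ag.DL Matrix

variable {K : Type} [Field K] {p : ℕ}

namespace G4a

section Mat

variable {F : Type} [Field F] {n s r : ℕ} (T : UpN n → F)

lemma ggm_diag (a : Fin n) : ggm s r T a a = 1 := if_pos rfl

lemma ggm_up {b a : Fin n} (h : b < a) : ggm s r T b a = 0 := by
  simp only [ggm, of_apply, if_neg h.ne', M1a.upm_le T (le_of_lt h), ite_self]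

lemma ggm_det : (ggm s r T).det = 1 := by
  rw [det_of_isLowerTriangular _ fun a b h => ggm_up T h]
  exact Finset.prod_eq_one fun a _ => ggm_diag T a

lemma ggm_zero {b a : Fin n} (h : a ≠ b) (h' : ¬ (b.1 + 1 < s ∨ (b.1 + 1 = s ∧ r ≤ a.1))) :
    ggm s r T b a = 0 := by
  simp only [ggm, of_apply, if_neg h, if_neg h']

lemma ggm_mul {a : Fin n} (h : s ≤ a.1) (B : Matrix (Fin n) (Fin n) F) (c : Fin n) :
    (ggm s r T * B) a c = B a c := by
  rw [mul_apply, Finset.sum_eq_single a (fun b _ e => by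
    rw [ggm_zero T e (by omega), zero_mul]) (by simp), ggm_diag, one_mul]

/-- The column `s - 1`. -/
def vm (s r : ℕ) (T : UpN n → F) : Matrix (Fin n) (Fin n) F :=
  Matrix.of fun a b => if b.1 + 1 = s then (if a.1 < r then upm Fin.val T a b else 0) else 0

/-- The last columns. -/
def um (s : ℕ) (T : UpN n → F) : Matrix (Fin n) (Fin n) F :=
  Matrix.of fun a b => if s ≤ b.1 then upm Fin.val T a b else 0

lemma gnm_eq : gnm s r T = ggm s r T * vm s r T + um s T := by
  ext a b
  simp only [gnm, vm, um, of_apply, Matrix.add_apply, mul_apply]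
  by_cases h : s ≤ b.1
  · simp [h, show ¬ b.1 + 1 = s by omega]
  · by_cases h' : b.1 + 1 = s <;> simp only [h, h', if_true, if_false, add_zero, mul_zero,
      Finset.sum_const_zero]

lemma um_su : SU Fin.val (um s T) := fun a b h => by
  simp only [um, of_apply, M1a.upm_le T h, ite_self]

lemma gnm_su (h : r < s) : SU Fin.val (gnm s r T) := fun a b e => by
  rw [gnm_eq, Matrix.add_apply, um_su T a b e, add_zero, mul_apply]
  refine Finset.sum_eq_zero fun c _ => ?_
  simp only [vm, of_apply]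
  split_ifs with h₁ h₂
  · rw [ggm_zero T (fun e' => by rw [e'] at h₂; omega) (by omega), zero_mul]
  · exact mul_zero _
  · exact mul_zero _

lemma um_mul : um s T * ggm s r T = um s T := by
  ext a c
  rw [mul_apply, Finset.sum_eq_single c (fun b _ e => ?_) (by simp), ggm_diag, mul_one]
  by_cases h : s ≤ b.1
  · rw [ggm_zero T e.symm (by omega), mul_zero]
  · simp only [um, of_apply, if_neg h, zero_mul]

lemma conj_su (h : r < s) : SU Fin.val ((ggm s r T)⁻¹ * gnm s r T * ggm s r T) := fun a b e => by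
  have u : IsUnit (ggm s r T).det := by rw [ggm_det]; exact isUnit_one
  rw [gnm_eq, mul_add, add_mul, nonsing_inv_mul_cancel_left _ _ u, mul_assoc, um_mul,
    Matrix.add_apply]
  have h₁ : (vm s r T * ggm s r T) a b = 0 := by
    rw [mul_apply]
    refine Finset.sum_eq_zero fun c _ => ?_
    simp only [vm, of_apply]
    split_ifs with h₁ h₂
    · rw [ggm_zero T (fun e' => by rw [← e'] at h₁; omega) (by omega), mul_zero]
    · exact zero_mul _
    · exact zero_mul _
  rw [h₁, zero_add]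
  by_cases hb : s ≤ b.1
  · rw [← ggm_mul (s := s) (r := r) T (hb.trans e) ((ggm s r T)⁻¹ * um s T) b,
      mul_nonsing_inv_cancel_left _ _ u, um_su T a b e]
  · rw [mul_apply]
    exact Finset.sum_eq_zero fun c _ => by simp only [um, of_apply, if_neg hb, mul_zero]

/-- The new parameters. -/
def stT (s : ℕ) (T : UpN n → F) (x : UpN n) : F :=
  if x.1.2.1 = s then gnm (s + 1) s T x.1.1 x.1.2 else T x

lemma upm_stT {a b : Fin n} (h : b.1 ≠ s) : upm Fin.val (stT s T) a b = upm Fin.val T a b := by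
  simp only [upm, of_apply, stT, if_neg h]

lemma ggm_step : ggm s 0 (stT s T) = ggm (s + 1) s T := by
  ext b a
  simp only [ggm, of_apply]
  split_ifs with h h₁ h₂ h₂
  · rfl
  · exact upm_stT T (by omega)
  · omega
  · exact (M1a.upm_le T (by omega)).symm
  · rfl

lemma gnm_step : gnm s 0 (stT s T) = gnm (s + 1) s T := by
  ext a b
  by_cases h : b.1 = s
  · by_cases h' : a.1 < b.1
    · simp only [gnm, of_apply, if_pos h.ge, upm, dif_pos h', stT, if_pos h]
    · rw [gnm_su T (Nat.lt_succ_self s) a b (not_lt.1 h')]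
      simp only [gnm, of_apply, if_pos h.ge, M1a.upm_le _ (not_lt.1 h')]
  · simp only [gnm, of_apply, upm_stT T h, Nat.not_lt_zero, if_false, mul_zero,
      Finset.sum_const_zero, ite_self, if_neg (show ¬ b.1 + 1 = s + 1 by omega)]
    exact if_congr (by omega) rfl rfl

lemma ggm_one : ggm 1 0 T = 1 := by
  ext b a
  by_cases h : a = b
  · rw [h, ggm_diag, one_apply_eq]
  · rw [one_apply_ne' h]
    simp only [ggm, of_apply, if_neg h]
    split_ifs with h'
    exacts [M1a.upm_le T (by omega), rfl]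

lemma gnm_one : gnm 1 0 T = upm Fin.val T := by
  ext a b
  simp only [gnm, of_apply, Nat.not_lt_zero, if_false, mul_zero, Finset.sum_const_zero, ite_self]
  split_ifs with h
  exacts [rfl, (M1a.upm_le T (by omega)).symm]

lemma gnm_top : gnm n 0 T = 0 := by
  ext a b
  simp only [gnm, of_apply, Nat.not_lt_zero, if_false, mul_zero, Finset.sum_const_zero, ite_self,
    if_neg (not_le.2 b.2), Matrix.zero_apply]

lemma psi_diag (x : Fin n → F) : psi (diagonal x) = 0 :=
  Finset.sum_eq_zero fun i _ => Finset.sum_eq_zero fun j _ => by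
    split_ifs with h
    exacts [diagonal_apply_ne _ fun e => by rw [e] at h; omega, rfl]

end Mat

variable {M L : Fld K} {n m s r : ℕ} {cc d : Cd}

lemma rel_ggm {R : Rel M L} {T : UpN n → M} {T' : UpN n → L} (h : ∀ x, R.r (T x) (T' x)) :
    R.m' (ggm s r T) (ggm s r T') := fun b a =>
  Rel.ite _ R.one (Rel.ite _ (Rel.mupm _ h a b) R.zero)

lemma rel_gnm {R : Rel M L} {T : UpN n → M} {T' : UpN n → L} (h : ∀ x, R.r (T x) (T' x)) :
    R.m' (gnm s r T) (gnm s r T') := fun a b =>
  Rel.ite _ (Rel.mupm _ h a b) (Rel.ite _ (Rel.sum _ fun c _ =>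
    R.mul (rel_ggm h a c) (Rel.ite _ (Rel.mupm _ h c b) R.zero)) R.zero)

lemma mem_stT (T : UpN n → M) (E : IntermediateField K M) (h : ∀ x, stT s T x ∈ E) (x : UpN n) :
    T x ∈ E := by
  have h₁ : ∀ x : UpN n, x.1.2.1 ≠ s → T x ∈ E := fun x e => by
    simpa only [stT, if_neg e] using h x
  have h₂ : ∀ a c, ggm (s + 1) s T a c ∈ E := fun a c => by
    rw [← ggm_step]
    exact (rel_ggm (R := Rel.ofSub E) (fun x => ⟨h x, rfl⟩) a c).1
  by_cases e : x.1.2.1 = s
  swap
  · exact h₁ x e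
  obtain ⟨⟨a, b⟩, hab⟩ := x
  simp only at e hab
  induction' hk : a.1 using Nat.strong_induction_on with k ih generalizing a
  have h₃ := h ⟨(a, b), hab⟩
  simp only [stT, if_pos e, gnm, of_apply, if_neg (show ¬ s + 1 ≤ b.1 by omega),
    if_pos (show b.1 + 1 = s + 1 by omega)] at h₃
  rw [← Finset.add_sum_erase _ _ (Finset.mem_univ a), ggm_diag, one_mul, if_pos (by omega)] at h₃
  have h₄ := E.sub_mem h₃ (E.sum_mem (t := Finset.univ.erase a)
    (f := fun c => ggm (s + 1) s T a c * if c.1 < s then upm Fin.val T c b else 0) fun c hc => ?_)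
  · simpa only [add_sub_cancel_right, upm, of_apply, dif_pos hab] using h₄
  · rcases lt_or_gt_of_ne (Finset.ne_of_mem_erase hc) with l | l
    · refine E.mul_mem (h₂ a c) ?_
      have l' : c.1 < b.1 := lt_trans l hab
      rw [if_pos (by omega)]
      simp only [upm, of_apply, dif_pos l']
      exact ih c.1 (hk ▸ l) c l' rfl
    · rw [ggm_up T l, zero_mul]
      exact E.zero_mem

lemma fam (G : GC K p cc d n m) (h : r < s) :
    Mp (G.zS.prod (.univ K (.vec (UpN n)))) G.gS fun L x => G.fam s r L x.1 x.2 where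
  reg _ _ R _ _ _ _ e :=
    ⟨e.1, Rel.madd (Rel.mdiag fun _ => R.const _) (rel_gnm e.2), rel_ggm e.2⟩
  mem L x hx := by
    refine ⟨⟨⟨hx.1, trivial⟩, ?_⟩, ?_, ?_⟩
    · change (ggm s r x.2).det ≠ 0
      rw [ggm_det]
      exact one_ne_zero
    · simp only [GC.fam, add_sub_cancel_left]
      exact gnm_su _ h
    · simp only [GC.fam, add_sub_cancel_left]
      exact conj_su _ h

lemma eq [FA3 K] [G1 K p] (G : GC K p cc d n m) {i : ℕ} (h : r < s)
    (hj : G.j = i + Nat.card (UpN n) + Nat.card (Mid m × UpN n)) {α : L →ₐ[K] M} {T : UpN n → M}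
    {z} (hz : G.zS.mem L z) (hF : Free i α T) :
    G.Γ (i + Nat.card (UpN n)) M (G.fam s r M ((zsh cc d n m).map α z) T) = G.γ s r i L z := by
  obtain ⟨θ, hθ⟩ := G1.pre G hj
  have hm : ∀ {M : Fld K} (α : L →ₐ[K] M) (T : UpN n → M),
      G.gS.mem M (G.fam s r M ((zsh cc d n m).map α z) T) := fun α T =>
    (fam G h).mem _ (_, T) ⟨(G.zS.map_iff α z).2 hz, trivial⟩
  rw [← hθ _ _ (hm α T), FA3.gv_eq θ G.zS (G.fam s r) (fam G h).reg z hz hF]
  simp only [GC.γ, gv, hθ _ _ (hm _ _)]

/-- The variables of the last matrix. -/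
def e₁ (hm : 0 < m) (U : Type) : U ≃ {a : Fin m × U // a.1.succ = Fin.last m} where
  toFun a := ⟨(⟨m - 1, by omega⟩, a), Fin.ext (by simp only [Fin.val_succ, Fin.val_last]; omega)⟩
  invFun a := a.1.2
  left_inv _ := rfl
  right_inv a := Subtype.ext (Prod.ext (Fin.ext (by
    have := congrArg Fin.val a.2
    simp only [Fin.val_succ, Fin.val_last] at this ⊢
    omega)) rfl)

/-- The variables of the middle matrices. -/
def e₂ (m : ℕ) (U : Type) : Mid m × U ≃ {a : Fin m × U // ¬ a.1.succ = Fin.last m} where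
  toFun a := ⟨(a.1.1.pred a.1.2.1, a.2), by rw [Fin.succ_pred]; exact a.1.2.2⟩
  invFun a := (⟨a.1.1.succ, Fin.succ_ne_zero _, a.2⟩, a.1.2)
  left_inv a := Prod.ext (Subtype.ext (Fin.succ_pred _ a.1.2.1)) rfl
  right_inv a := Subtype.ext (Prod.ext (Fin.pred_succ (h := Fin.succ_ne_zero _) _) rfl)

end G4a

open G4a in
theorem G4_thm [FW0 K] [G1 K p] : G4 K p where
  fam G _ _ h _ := fam G h
  eq G _ _ _ h _ hj _ _ _ _ _ hz hF := eq G h hj hz hF
  step {cc d n m} G s i hs _ hj L z hz := by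
    by_cases hL : Good i L
    · have hF := FA1.fr_free (UpN n) hL
      rw [← eq G (Nat.lt_succ_self s) hj hz hF, ← eq G hs hj hz (FA1.of_gen (T' := stT s _) hF rfl
        (mem_stT (s := s) _ _ fun x => IntermediateField.subset_adjoin _ _ (Or.inr ⟨x, rfl⟩)))]
      simp only [GC.fam, ggm_step, gnm_step]
    · simp only [GC.γ, gv, if_neg hL]
  one {cc d n m} G i _ hj L M α T z hz hF := by
    obtain ⟨M₁, α₁, β, T₁, rfl, hT, F₁, F₂⟩ := FA1.split hF fun a => a.1.succ = Fin.last m
    rw [← Nat.card_congr (e₁ G.hm _)] at F₂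
    have hz₁ := (G.zS.map_iff α₁ z).2 hz
    rw [← eq G Nat.one_pos hj hz (M1a.reindex F₁ (e₁ G.hm _)), ← G1.eq G hj
      ((fam G Nat.one_pos).mem _ (_, _) ⟨hz₁, trivial⟩) (M1a.reindex F₂ (e₂ m _))]
    congr 1
    change zpt ((zsh cc d n m).map β ((zsh cc d n m).map α₁ z)) _ = _
    rw [Cd.map_map]
    refine congrArg (zpt _) (funext fun j => ?_)
    obtain ⟨z₀, z₁, -⟩ := G1.zmem G hz
    simp only [GC.fam, ggm_one, gnm_one, cmat]
    refine Fin.cases ?_ (fun a => ?_) j
    · rw [if_pos rfl, Fin.cases_zero, add_zero, funext z₀, diagonal_map (map_zero _)]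
      simp only [map_one, diagonal_one]
    rw [if_neg (Fin.succ_ne_zero a), Fin.cases_succ, diagonal_map (map_zero _)]
    split_ifs with h
    · rw [Matrix.map_add _ (map_add β), diagonal_map (map_zero _), M1a.upm_map _ (map_zero β), h]
      simp only [z₁, AlgHom.commutes, hT]
      congr 2
      funext u
      exact congrArg T (congrArg Subtype.val ((e₁ G.hm _).right_inv ⟨(a, u), h⟩))
    · rw [Matrix.map_one _ (map_zero β) (map_one β), inv_one, one_mul, mul_one, nmat,
        dif_pos ⟨Fin.succ_ne_zero a, h⟩]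
      simp only [e₂, Equiv.coe_fn_mk, Fin.pred_succ]
      rfl
  top {cc d n m} G h i L z := by
    simp only [GC.γ, GC.Γ, gv]
    split_ifs
    · refine h _ (_, _) _ _ _ ?_
      simp only [GC.fam, gnm_top, add_zero, cmat, if_pos, diagonal_map (map_zero _)]
      split_ifs
      exacts [psi_diag _, psi_diag _]
    · rfl
    · rfl

end Pool.Agent.Lib.MP_557161_ag.HG
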