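import Pool.Agent.Lib.MP_557161_ag.HG.St3M

/-!
Symmetric functionals on the torus vanish.
-/

namespace Pool.Agent.Lib.MP_557161_ag.HG

open Pool.Agent.Lib.MP_557161_ag.DL Matrix

namespace MNa

theorem card_mid {m : ℕ} (hm : 0 < m) : Nat.card (Mid m) + 1 = m := by
  have h : (0 : Fin (m + 1)) ≠ Fin.last m := fun e => by
    have := congrArg Fin.val e
    simp at this
    omega
  have e : (Finset.univ.filter fun j : Fin (m + 1) => j ≠ 0 ∧ j ≠ Fin.last m) =
      Finset.univ \ {0, Fin.last m} := by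
    ext j
    simp
  rw [Nat.card_eq_fintype_card, Fintype.card_subtype, e, Finset.card_univ_diff,
    Finset.card_pair h, Fintype.card_fin]
  omega

theorem rec_zero (b : ℕ → ℂ) (s : ℕ)
    (h : ∀ r, r + 1 < s + 1 → 2 * b (r + 1) + b r + (if r + 2 < s + 1 then b (r + 2) else 0) = 0)
    (h0 : b 0 = 0) : b s = 0 := by
  let c : ℕ → ℂ := fun r => if r < s + 1 then b r else 0
  have h1 : ∀ r, r ≤ s → c r = -(-1) ^ r * r * c 1 ∧ c (r + 1) = (-1) ^ r * (r + 1) * c 1 := by
    intro r
    induction r with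
    | zero => exact fun _ => ⟨by simp [c, h0], by simp⟩
    | succ r ih =>
      intro hr
      obtain ⟨e1, e2⟩ := ih (by omega)
      have e3 : 2 * c (r + 1) + c r + c (r + 2) = 0 := by
        simp only [c]
        rw [if_pos (by omega), if_pos (by omega)]
        exact h r (by omega)
      push_cast
      exact ⟨by rw [e2]; ring, by linear_combination e3 - 2 * e2 - e1⟩
  obtain ⟨e1, e2⟩ := h1 s le_rfl
  have e3 : c (s + 1) = 0 := if_neg (lt_irrefl _)
  have e4 : c 1 = 0 := (mul_eq_zero.1 (e2.symm.trans e3)).resolve_left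
    (mul_ne_zero (pow_ne_zero _ (by simp)) (by exact_mod_cast s.succ_ne_zero))
  rw [e4, mul_zero] at e1
  exact (if_pos s.lt_succ_self).symm.trans e1

variable {K : Type} [Field K] {p : ℕ} {cc d : Cd} {n m : ℕ}

theorem sum_zero [G1 K p] [G3 K p] [G4 K p] (G : GC K p cc d (n + 1) m) (hm : Even m) {i : ℕ}
    (hi : G.j = i + Nat.card (UpN (n + 1)) + Nat.card (Mid m × UpN (n + 1)))
    (h : ∀ L x r y w, psi (x.2 (Fin.last m)) = 0 → G.Ψ.b L (x, r) y w = 0) {L : Fld K} {z}
    (hz : G.zS.mem L z) : ∑ σ, G.γ 1 0 i L (zperm σ z) = 0 := by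
  have key : ∀ k s, s + k = n → ∑ σ, G.γ (s + 1) 0 i L (zperm σ z) = 0 := by
    intro k
    induction k with
    | zero =>
      rintro s rfl
      exact Finset.sum_eq_zero fun σ _ => G4.top G h i L _
    | succ k ih =>
      intro s hs
      rw [← Finset.sum_congr rfl fun σ _ =>
        G4.step G s.succ_pos (by omega) hi (G1.zperm G σ hz)]
      refine rec_zero (fun r => ∑ σ, G.γ (s + 1 + 1) r i L (zperm σ z)) (s + 1) (fun r hr => ?_)
        (ih (s + 1) (by omega))
      let a : Fin (n + 1) := ⟨r, by omega⟩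
      let a' : Fin (n + 1) := ⟨r + 1, by omega⟩
      have e : ∀ f : (zsh cc d (n + 1) m).X L → ℂ,
          ∑ σ, f (zperm (Equiv.swap a a') (zperm σ z)) = ∑ σ, f (zperm σ z) := fun f =>
        Equiv.sum_comp (Equiv.mulRight (Equiv.swap a a')) fun σ => f (zperm σ z)
      have h1 := Finset.sum_eq_zero (s := Finset.univ) fun σ _ =>
        G3.rel G hm (r := a) (r' := a') rfl (s := s + 1 + 1) hr (by omega) hi (G1.zperm G σ hz)
      simp only [Finset.sum_add_distrib, e] at h1
      rw [two_mul]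
      refine Eq.trans (congrArg _ ?_) h1
      split_ifs with h2
      · exact (e _).symm
      · exact Finset.sum_const_zero.symm
  exact key n 0 (zero_add n)

end MNa

theorem MN_thm {K : Type} [Field K] [Base K] {p : ℕ} [Fact p.Prime] [CharP K p] [FW0 K]
    [FWp K p] [M1 K p] [WH K p] [U1 K p] [G1 K p] [G3 K p] [G4 K p] : MN K p where
  van {N} hN cc d C W n t h0 h1 e e' hv j Φ hΦ L x y w := by
    by_contra hne
    obtain ⟨hL, hx, hy, hw⟩ := FC1.mem Φ hne
    obtain ⟨Ψ, ε, hε, hΨ⟩ := M1.s5 hN _ Φ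
    have hm : 0 < n + 1 + (n + 1) := by omega
    let G : GC K p cc d (n + 1) (n + 1 + (n + 1)) := ⟨N, hN, C, W, t, _, _, hm, _, Ψ⟩
    have hi : G.j = j + Nat.card (UpN (n + 1)) +
        Nat.card (Mid (n + 1 + (n + 1)) × UpN (n + 1)) := by
      show j + Nat.card (Fin (n + 1 + (n + 1)) × UpN (n + 1)) = _
      rw [Nat.card_prod, Nat.card_prod, Nat.card_fin]
      nth_rw 1 [← MNa.card_mid hm]
      ring
    obtain ⟨⟨c, μ⟩, r⟩ := x
    have hd : μ = fun k => diagonal fun i => μ k i i := funext fun k => by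
      refine (IsDiag.diagonal_diag ?_).symm
      rcases Nat.eq_zero_or_pos k.1 with h | h
      · obtain rfl : k = 0 := Fin.ext h
        rw [show μ 0 = 1 from hx.1.1.2.1]
        exact isDiag_one
      · exact hx.1.1.2.2.2.1 k h
    let z : (zsh cc d (n + 1) (n + 1 + (n + 1))).X L := ((c, fun k i => μ k i i), ((r, y), w))
    have hz : G.zS.mem L z := ⟨trivial, by
      show (G.tt 0).mem L ((((c, fun k => diagonal fun i => μ k i i), r), y), w)
      rw [← hd]
      exact ⟨⟨⟨hx, trivial⟩, hy⟩, hw⟩⟩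
    have h2 := MNa.sum_zero G ⟨_, rfl⟩ hi
      (U1.van hN C W t h0 _ _ (WH.van hN C W t h0 h1 e e' hv) Ψ) hz
    have hF := FA1.fr_free (Fin (n + 1 + (n + 1)) × UpN (n + 1)) hL
    rw [Finset.sum_congr rfl (g := fun _ => ε * Φ.b L ((c, μ), r) y w) fun σ _ => ?_,
      Finset.sum_const, nsmul_eq_mul] at h2
    · exact mul_ne_zero (Nat.cast_ne_zero.2 Finset.univ_nonempty.card_pos.ne')
        (mul_ne_zero hε hne) h2
    · have h3 := G1.zperm G σ hz
      have e1 : (fun k => (μ k).submatrix σ σ) = fun k => diagonal fun i => μ k (σ i) (σ i) :=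
        funext fun k => by
          rw [congrFun hd k, submatrix_diagonal_equiv]
          simp [Function.comp_def]
      rw [G4.one G n.succ_pos hi h3 hF, ← one_mul (Φ.b L _ y w), ← hΦ σ L _ y w hx]
      simp only [e1]
      exact hΨ L _ _ _ (c, fun k => diagonal fun i => μ k (σ i) (σ i)) r y w hF h3.2.1.1.1.1.1

end Pool.Agent.Lib.MP_557161_ag.HG
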