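import Pool.Agent.Lib.MP_557161_ag.HG.St2

/-!
One step in a chain of matrices.
-/

namespace Pool.Agent.Lib.MP_557161_ag.HG

open Pool.Agent.Lib.MP_557161_ag.DL Matrix

section Mat

variable {ι : Type} [Fintype ι] [DecidableEq ι] {F : Type} [Field F] {b : ι → ℕ}

/-- The matrix or its inverse. -/
noncomputable def msJ (s : Bool) (A : Matrix ι ι F) : Matrix ι ι F := cond s A A⁻¹

lemma msJ_J (s : Bool) {A : Matrix ι ι F} (h : A.det ≠ 0) : msJ s (msJ s A) = A := by
  cases s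
  exacts [nonsing_inv_nonsing_inv A (Ne.isUnit h), rfl]

lemma msJ_det (s : Bool) {A B : Matrix ι ι F} (h : A.det = B.det) :
    (msJ s A).det = (msJ s B).det := by
  cases s <;> simp [msJ, det_nonsing_inv, h]

lemma msJ_ne (s : Bool) {A : Matrix ι ι F} (h : A.det ≠ 0) : (msJ s A).det ≠ 0 := by
  cases s <;> simp [msJ, det_nonsing_inv, h]

lemma msJ_tri (s : Bool) {A : Matrix ι ι F} (h : A.det ≠ 0) (t : A.BlockTriangular b) :
    (msJ s A).BlockTriangular b := by
  cases s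
  · let _ := invertibleOfIsUnitDet A (Ne.isUnit h)
    exact blockTriangular_inv_of_blockTriangular t
  · exact t

lemma msJ_isDiag (s : Bool) {A : Matrix ι ι F} (h : A.IsDiag) : (msJ s A).IsDiag := by
  cases s
  · rw [← h.diagonal_diag, msJ, cond_false, inv_diagonal]
    exact isDiag_diagonal _
  · exact h

omit [Fintype ι] in
lemma ms_diag_tri {A : Matrix ι ι F} (h : A.IsDiag) : A.BlockTriangular b := by
  rw [← h.diagonal_diag]
  exact blockTriangular_diagonal _

omit [DecidableEq ι] in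
lemma ms_mul_diag (hb : Function.Injective b) {A B : Matrix ι ι F} (t : A.BlockTriangular b)
    (t' : B.BlockTriangular b) (i : ι) : (A * B) i i = A i i * B i i := by
  rw [mul_apply, Finset.sum_eq_single i (fun j _ hj => ?_) (by simp)]
  rcases lt_or_gt_of_ne (hb.ne hj) with h | h
  · rw [t h, zero_mul]
  · rw [t' h, mul_zero]

lemma ms_det (hb : Function.Injective b) {A : Matrix ι ι F} (t : A.BlockTriangular b) :
    A.det = ∏ i, A i i := by
  let _ := LinearOrder.lift' b hb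
  exact det_of_isUpperTriangular (M := A) fun i j h => t h

lemma ms_det_eq (hb : Function.Injective b) {A B : Matrix ι ι F} (t : A.BlockTriangular b)
    (t' : B.BlockTriangular b) (e : ∀ i, A i i = B i i) : A.det = B.det := by
  rw [ms_det hb t, ms_det hb t']
  exact Finset.prod_congr rfl fun i _ => e i

lemma msJ_diag (hb : Function.Injective b) (s : Bool) {A B : Matrix ι ι F} (h : A.det ≠ 0)
    (t : A.BlockTriangular b) (t' : B.BlockTriangular b) (e : ∀ i, A i i = B i i) (i : ι) :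
    msJ s A i i = msJ s B i i := by
  cases s
  · have k : ∀ {C : Matrix ι ι F}, C.det ≠ 0 → C.BlockTriangular b → C⁻¹ i i = (C i i)⁻¹ :=
      fun {C} h t => eq_inv_of_mul_eq_one_left (by
        rw [← ms_mul_diag (A := C⁻¹) hb (msJ_tri false h t) t,
          nonsing_inv_mul C (Ne.isUnit h), one_apply_eq])
    exact (k h t).trans ((congrArg _ (e i)).trans (k (ms_det_eq hb t t' e ▸ h) t').symm)
  · exact e i

omit [Fintype ι] [DecidableEq ι] in
lemma ms_upm_le (T : UpI b → F) {i j : ι} (h : b j ≤ b i) : upm b T i j = 0 := dif_neg h.not_gt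

omit [Fintype ι] [DecidableEq ι] in
lemma ms_upm_up (T : UpI b → F) (x : UpI b) : upm b T x.1.1 x.1.2 = T x := dif_pos x.2

omit [Fintype ι] [DecidableEq ι] in
lemma ms_add_tri {A : Matrix ι ι F} (t : A.BlockTriangular b) (T : UpI b → F) :
    (A + upm b T).BlockTriangular b := t.add fun _ _ h => ms_upm_le T h.le

omit [Fintype ι] [DecidableEq ι] in
lemma ms_add_diag (A : Matrix ι ι F) (T : UpI b → F) (i : ι) : (A + upm b T) i i = A i i := by
  rw [Matrix.add_apply, ms_upm_le T le_rfl, add_zero]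

omit [Fintype ι] [DecidableEq ι] in
lemma ms_add_up {A : Matrix ι ι F} (h : A.IsDiag) (T : UpI b → F) (x : UpI b) :
    (A + upm b T) x.1.1 x.1.2 = T x := by
  rw [Matrix.add_apply, ms_upm_up, h fun e => x.2.ne (congrArg b e), zero_add]

omit [Fintype ι] [DecidableEq ι] in
lemma ms_split (hb : Function.Injective b) {X Y : Matrix ι ι F} (t : X.BlockTriangular b)
    (h : Y.IsDiag) (e : ∀ i, Y i i = X i i) : Y + upm b (fun x => X x.1.1 x.1.2) = X := by
  ext i j
  rcases lt_trichotomy (b i) (b j) with l | l | l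
  · exact ms_add_up h _ ⟨(i, j), l⟩
  · rw [hb l, ms_add_diag, e]
  · rw [Matrix.add_apply, ms_upm_le _ l.le, h fun e => l.ne' (congrArg b e), t l, add_zero]

omit [DecidableEq ι] in
lemma ms_tr_upm (X : Matrix ι ι F) (T : UpI b → F) :
    (X * upm b T).trace = ∑ x : UpI b, T x * X x.1.2 x.1.1 := by
  have e := Fintype.sum_subtype_add_sum_subtype (fun x : ι × ι => b x.1 < b x.2)
    fun x => X x.2 x.1 * upm b T x.1 x.2
  rw [Finset.sum_eq_zero (s := Finset.univ (α := {x : ι × ι // ¬ b x.1 < b x.2}))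
    (fun x _ => by rw [ms_upm_le T (not_lt.1 x.2), mul_zero]), add_zero,
    Fintype.sum_prod_type_right] at e
  refine (show _ = _ from e.symm).trans (Finset.sum_congr rfl fun x _ => ?_)
  rw [ms_upm_up, mul_comm]

lemma ms_tr_stp (s : Bool) (A B : Matrix ι ι F) :
    (stp s A B).trace = (msJ (!s) A * msJ s B).trace := by
  cases s
  exacts [trace_mul_comm _ _, rfl]

lemma ms_det_stp (s : Bool) {A B A' B' : Matrix ι ι F} (h : A.det = A'.det) (h' : B.det = B'.det) :
    (stp s A B).det = (stp s A' B').det := by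
  cases s <;> simp [stp, det_nonsing_inv, h, h']

lemma ms_tr_left (hb : Function.Injective b) (s : Bool) {A A' B : Matrix ι ι F} (h : A.det ≠ 0)
    (t : A.BlockTriangular b) (t' : A'.BlockTriangular b) (e : ∀ i, A i i = A' i i)
    (h2 : B.det ≠ 0) (t2 : B.BlockTriangular b) : (stp s A B).trace = (stp s A' B).trace := by
  rw [ms_tr_stp, ms_tr_stp]
  refine Finset.sum_congr rfl fun i _ => ?_
  rw [diag_apply, diag_apply, ms_mul_diag hb (msJ_tri _ h t) (msJ_tri _ h2 t2),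
    ms_mul_diag hb (msJ_tri _ (ms_det_eq hb t t' e ▸ h) t') (msJ_tri _ h2 t2),
    msJ_diag hb _ h t t' e]

/-- The triangular matrix with given diagonal part and upper coordinates. -/
noncomputable def msF (b : ι → ℕ) (s : Bool) (A : Matrix ι ι F) (T : UpI b → F) : Matrix ι ι F :=
  msJ s (msJ s A + upm b T)

section
variable (hb : Function.Injective b) (s : Bool) {A : Matrix ι ι F} (h : A.det ≠ 0)
  (t : A.BlockTriangular b) (T : UpI b → F)
include hb h t

lemma ms_in_ne : (msJ s A + upm b T).det ≠ 0 :=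
  ms_det_eq hb (msJ_tri s h t) (ms_add_tri (msJ_tri s h t) T) (fun i => (ms_add_diag _ T i).symm) ▸
    msJ_ne s h

lemma msF_J : msJ s (msF b s A T) = msJ s A + upm b T := msJ_J s (ms_in_ne hb s h t T)

lemma msF_tri : (msF b s A T).BlockTriangular b :=
  msJ_tri s (ms_in_ne hb s h t T) (ms_add_tri (msJ_tri s h t) T)

lemma msF_diag (i : ι) : msF b s A T i i = A i i := by
  rw [msF, msJ_diag hb s (ms_in_ne hb s h t T) (ms_add_tri (msJ_tri s h t) T) (msJ_tri s h t)
    (ms_add_diag _ T), msJ_J s h]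

lemma msF_det : (msF b s A T).det = A.det :=
  ms_det_eq hb (msF_tri hb s h t T) t (msF_diag hb s h t T)

omit T in
lemma msF_G : msF b s (diagonal A.diag) (fun x => msJ s A x.1.1 x.1.2) = A := by
  rw [msF, ms_split hb (msJ_tri s h t) (msJ_isDiag s (isDiag_diagonal _))
    fun i => (msJ_diag hb s h t (blockTriangular_diagonal _)
      (fun i => (diagonal_apply_eq A.diag i).symm) i).symm, msJ_J s h]

end

variable {K : Type} [Field K] {M L : Fld K} {R : Rel M L}

lemma Rel.msJ (s : Bool) {A : Matrix ι ι M} {A' : Matrix ι ι L} (h : R.m' A A') (e : A'.det ≠ 0) :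
    R.m' (msJ s A) (msJ s A') := by
  cases s
  exacts [Rel.minv h e, h]

lemma Rel.msF (hb : Function.Injective b) (s : Bool) {A : Matrix ι ι M} {A' : Matrix ι ι L}
    (h : R.m' A A') (e : A'.det ≠ 0) (t : A'.BlockTriangular b) {T : UpI b → M} {T' : UpI b → L}
    (hT : ∀ x, R.r (T x) (T' x)) : R.m' (msF b s A T) (msF b s A' T') :=
  Rel.msJ s (Rel.madd (Rel.msJ s h e) (Rel.mupm b hT)) (ms_in_ne hb s e t T')

end Mat

section Chain

variable {K : Type} [Field K] {cc d : Cd} {ι : Type} [Fintype ι] [DecidableEq ι] {m : ℕ}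
  (Q : ChD K cc ι m)

lemma ms_mem (k : ℕ) {L : Fld K} (x : (chs cc ι m).X L) : (Q.Ch k).S.mem L x ↔
    Q.C.S.mem L x.1 ∧ (∀ j, (x.2 j).det ≠ 0) ∧ x.2 0 = Q.X0 L x.1 ∧
    (∀ j, k ≤ j.1 → (x.2 j).BlockTriangular Q.b) ∧ (∀ j, k < j.1 → (x.2 j).IsDiag) ∧
    ∀ i, x.2 (Fin.last m) i i = Q.D L x.1 i :=
  ⟨fun h => ⟨h.1.1.1, h.1.2, h.2⟩, fun h => ⟨⟨⟨h.1, trivial⟩, h.2.1⟩, h.2.2⟩⟩

variable (k : Fin m)

/-- Changing the matrix number `k + 1` without changing its diagonal. -/
lemma ms_upd {L : Fld K} {x : (chs cc ι m).X L} (h : (Q.Ch (k + 1)).S.mem L x) {A : Matrix ι ι L}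
    (t : A.BlockTriangular Q.b) (e : ∀ i, A i i = x.2 k.succ i i) :
    (Q.Ch (k + 1)).S.mem L (x.1, Function.update x.2 k.succ A) ∧
    (Q.Ch (k + 1)).g L (x.1, Function.update x.2 k.succ A) = (Q.Ch (k + 1)).g L x ∧
    (Q.Ch (k + 1)).φ L (x.1, Function.update x.2 k.succ A) = (Q.Ch (k + 1)).φ L x +
      cond (Q.s k) 1 (-1) * (msJ (!Q.s k) (x.2 k.castSucc) *
        (msJ (Q.s k) A - msJ (Q.s k) (x.2 k.succ))).trace := by
  obtain ⟨h1, h2, h3, h4, h5, h6⟩ := (ms_mem Q _ x).1 h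
  have t' := h4 k.succ le_rfl
  have hd : ∀ j, (Function.update x.2 k.succ A j).det = (x.2 j).det := fun j => by
    by_cases hj : j = k.succ
    · rw [hj, Function.update_self, ms_det_eq Q.hb t t' e]
    · rw [Function.update_of_ne hj]
  refine ⟨(ms_mem Q _ _).2 ⟨h1, fun j => (hd j).symm ▸ h2 j, ?_, fun j hj => ?_, fun j hj => ?_,
    fun i => ?_⟩, ?_, ?_⟩
  · exact (Function.update_of_ne (Fin.succ_ne_zero k).symm A x.2).trans h3
  · by_cases hj' : j = k.succ
    · simpa only [hj', Function.update_self] using t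
    · simpa only [Function.update_of_ne hj'] using h4 j hj
  · have hj' : j ≠ k.succ := fun e => by simp [e] at hj
    simpa only [Function.update_of_ne hj'] using h5 j hj
  · by_cases hj' : Fin.last m = k.succ
    · rw [← h6 i, hj']
      simpa only [Function.update_self] using e i
    · simpa only [Function.update_of_ne hj'] using h6 i
  · exact congrArg (Q.C.g L x.1 * ·) (Finset.prod_congr rfl fun j _ =>
      congrArg (· ^ Q.e j) (ms_det_stp _ (hd _) (hd _)))
  · refine Eq.trans (congrArg (Q.C.φ L x.1 + ·) ?_) (add_assoc _ _ _).symm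
    beta_reduce
    rw [← Finset.add_sum_erase _ _ (Finset.mem_univ k), ← Finset.add_sum_erase _ _ (Finset.mem_univ k),
      add_right_comm]
    congr 1
    · simp only [Function.update_self, Function.update_of_ne (Fin.castSucc_lt_succ (i := k)).ne]
      rw [ms_tr_stp, ms_tr_stp, Matrix.mul_sub, trace_sub]
      ring
    · refine Finset.sum_congr rfl fun j hj => ?_
      have hj' : j.succ ≠ k.succ := (Fin.succ_injective _).ne (Finset.ne_of_mem_erase hj)
      simp only [Function.update_of_ne hj']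
      by_cases hc : j.castSucc = k.succ
      · have : (j : ℕ) = k + 1 := congrArg Fin.val hc
        rw [hc, Function.update_self, ms_tr_left Q.hb _ (ms_det_eq Q.hb t t' e ▸ h2 _) t t' e (h2 _)
          (h4 _ (by simp [this]))]
      · rw [Function.update_of_ne hc]

/-- Chains whose matrices after the number `k` are diagonal. -/
noncomputable def msV : EqD K (chs cc ι m) :=
  (Q.Ch (k + 1)).res ((Q.Ch (k + 1)).S.cl (fun _ x => (x.2 k.succ).IsDiag)
    fun _ _ _ _ _ _ _ e h a c hac => Rel.eq_zero (e.2 _ a c) (h hac)) fun _ _ h => h.1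

/-- The lower entries of the matrix number `k` or of its inverse. -/
noncomputable def msf (L : Fld K) (x : (chs cc ι m).X L) (a : UpI Q.b) : L :=
  cond (Q.s k) 1 (-1) * msJ (!Q.s k) (x.2 k.castSucc) a.1.2 a.1.1

lemma msf_reg : Reg (msV Q k).S (.vec (UpI Q.b)) (msf Q k) := fun _ _ R _ _ _ m' e _ =>
  R.mul (by cases Q.s k; exacts [Rel.neg R.one, R.one]) (Rel.msJ _ (e.2 _) (m'.1.1.2 _) _ _)

lemma ms_zer {L : Fld K} (x : (chs cc ι m).X L) :
    ((msV Q k).zer _ (msf_reg Q k)).S.mem L x ↔ (Q.Ch k).S.mem L x := by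
  have hc : (cond (Q.s k) 1 (-1) : L) ≠ 0 := by cases Q.s k <;> simp
  constructor
  · rintro ⟨⟨h, hd⟩, hf⟩
    obtain ⟨h1, h2, h3, h4, h5, h6⟩ := (ms_mem Q _ x).1 h
    refine (ms_mem Q _ x).2 ⟨h1, h2, h3, fun j hj => ?_, fun j hj => ?_, h6⟩
    · rcases hj.eq_or_lt with e | e
      · rw [show j = k.castSucc from Fin.ext e.symm, ← msJ_J (!Q.s k) (h2 _)]
        exact msJ_tri _ (msJ_ne _ (h2 _)) fun a c hac =>
          (mul_eq_zero.1 (hf ⟨(c, a), hac⟩)).resolve_left hc
      · exact h4 j e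
    · rcases (Nat.succ_le_of_lt hj).eq_or_lt with e | e
      · exact (show j = k.succ from Fin.ext e.symm) ▸ hd
      · exact h5 j e
  · intro h
    obtain ⟨h1, h2, h3, h4, h5, h6⟩ := (ms_mem Q _ x).1 h
    exact ⟨⟨(ms_mem Q _ x).2 ⟨h1, h2, h3, fun j hj => h4 j (by omega), fun j hj => h5 j (by omega),
      h6⟩, h5 _ (by simp)⟩, fun a => mul_eq_zero_of_right _ (msJ_tri _ (h2 _) (h4 _ le_rfl) a.2)⟩

lemma ms_iso0 : Iso ((msV Q k).zer _ (msf_reg Q k)).S (Q.Ch k).S (fun _ x => x) fun _ x => x :=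
  ⟨⟨Reg.id _, fun _ x => (ms_zer Q k x).1⟩, ⟨Reg.id _, fun _ x => (ms_zer Q k x).2⟩,
    fun _ _ _ => rfl, fun _ _ _ => rfl⟩

/-- The map to the next chain space. -/
noncomputable def msA (L : Fld K) (x : ((chs cc ι m).prod (.vec (UpI Q.b))).X L) :
    (chs cc ι m).X L :=
  (x.1.1, Function.update x.1.2 k.succ (msF Q.b (Q.s k) (x.1.2 k.succ) x.2))

/-- The inverse map. -/
noncomputable def msB (L : Fld K) (x : (chs cc ι m).X L) :
    ((chs cc ι m).prod (.vec (UpI Q.b))).X L :=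
  ((x.1, Function.update x.2 k.succ (diagonal (x.2 k.succ).diag)),
    fun a => msJ (Q.s k) (x.2 k.succ) a.1.1 a.1.2)

lemma msA_spec {L : Fld K} {x} (h : ((msV Q k).lin _ (msf_reg Q k)).S.mem L x) :
    (Q.Ch (k + 1)).S.mem L (msA Q k L x) ∧
    (Q.Ch (k + 1)).g L (msA Q k L x) = ((msV Q k).lin _ (msf_reg Q k)).g L x ∧
    (Q.Ch (k + 1)).φ L (msA Q k L x) = ((msV Q k).lin _ (msf_reg Q k)).φ L x := by
  have h2 := h.1.1.1.2 k.succ
  have t := h.1.1.2.2.1 k.succ le_rfl
  obtain ⟨a1, a2, a3⟩ := ms_upd Q k h.1.1 (msF_tri Q.hb (Q.s k) h2 t x.2)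
    (msF_diag Q.hb (Q.s k) h2 t x.2)
  refine ⟨a1, a2, a3.trans (congrArg ((Q.Ch (k + 1)).φ L x.1 + ·) ?_)⟩
  rw [msF_J Q.hb _ h2 t, add_sub_cancel_left, ms_tr_upm, Finset.mul_sum]
  exact Finset.sum_congr rfl fun a _ => mul_left_comm _ _ _

lemma ms_iso1 : Iso ((msV Q k).lin _ (msf_reg Q k)).S (Q.Ch (k + 1)).S (msA Q k) (msB Q k) where
  mf := ⟨fun _ _ R _ _ _ m' e => ⟨e.1.1, Rel.update (q := fun _ => R.m') e.1.2 _
      (Rel.msF Q.hb _ (e.1.2 _) (m'.1.1.1.2 _) (m'.1.1.2.2.1 _ le_rfl) e.2)⟩,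
    fun _ _ h => (msA_spec Q k h).1⟩
  mg := ⟨fun _ _ R _ _ _ m' e => ⟨⟨e.1, Rel.update (q := fun _ => R.m') e.2 _
      (Rel.mdiag fun i => e.2 _ i i)⟩, fun _ => Rel.msJ _ (e.2 _) (m'.1.2 _) _ _⟩,
    fun L x h => ⟨⟨(ms_upd Q k h (blockTriangular_diagonal _) fun i => diagonal_apply_eq _ i).1, by
      simpa only [msB, Function.update_self] using isDiag_diagonal _⟩, trivial⟩⟩
  gf L x h := by
    have h2 := h.1.1.1.2 k.succ
    have t := h.1.1.2.2.1 k.succ le_rfl
    have hd : (x.1.2 k.succ).IsDiag := h.1.2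
    simp only [msA, msB, Function.update_self, Function.update_idem]
    rw [show (msF Q.b (Q.s k) (x.1.2 k.succ) x.2).diag = (x.1.2 k.succ).diag from
      funext (msF_diag Q.hb _ h2 t _), hd.diagonal_diag, Function.update_eq_self, msF_J Q.hb _ h2 t]
    exact Prod.ext rfl (funext fun a => ms_add_up (msJ_isDiag _ hd) _ a)
  fg L x h := by
    simp only [msA, msB, Function.update_self, Function.update_idem]
    rw [msF_G Q.hb _ (h.1.2 _) (h.2.2.1 _ le_rfl), Function.update_eq_self]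

end Chain

theorem MS_thm {K : Type} [Field K] [Base K] {p : ℕ} [Fact p.Prime] [CharP K p] [FW0 K]
    [FWp K p] : MS K p where
  van {N} hN cc d ι _ _ m Q W k hk h :=
    (FC7.iso hN 1 one_ne_zero (ms_iso1 Q ⟨k, hk⟩) fun L x hx =>
      ⟨(msA_spec Q _ hx).2.2, by rw [map_one, one_mul]; exact (msA_spec Q _ hx).2.1⟩).1
      ((FC7.lin _ _).2 ((FC7.iso hN 1 one_ne_zero (ms_iso0 Q ⟨k, hk⟩) fun L x _ =>
        ⟨rfl, by rw [map_one, one_mul]; rfl⟩).2 h))
  s5 {N} hN cc d ι _ _ m Q W k j Φ := by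
    have i0 := ms_iso0 Q k
    have i1 := (ms_iso1 Q k).symm
    obtain ⟨Φ₀, h0⟩ := FC7.pull hN (E' := (msV Q k).zer _ (msf_reg Q k)) (h := fun _ _ => 1)
      ⟨⟨i0.mf, fun _ _ _ => rfl⟩, fun _ _ R _ _ _ _ _ => R.one,
        fun _ _ _ => by rw [one_pow, mul_one]; rfl⟩ i0.pro Φ
    obtain ⟨Ψ₀, h1⟩ := FC7.s5 _ _ Φ₀
    obtain ⟨Ψ, h2⟩ := FC7.pull hN (E' := Q.Ch (k + 1)) (h := fun _ _ => 1)
      ⟨⟨i1.mf, fun L x hx => by
          rw [← (msA_spec Q k (i1.mf.mem L x hx)).2.2, i1.gf L x hx]⟩,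
        fun _ _ R _ _ _ _ _ => R.one, fun L x hx => by
          rw [one_pow, mul_one, ← (msA_spec Q k (i1.mf.mem L x hx)).2.1, i1.gf L x hx]⟩ i1.pro Ψ₀
    refine ⟨Ψ, fun L M α T x r y w hT hx => ?_⟩
    have hz := (ms_zer Q k x).2 hx
    have hz' := (ASp.map_iff _ α x).2 hz
    have hd : ((x.2 k.succ).map α).IsDiag := hz'.1.2
    have hn : ((x.2 k.succ).map α).det ≠ 0 := hz'.1.1.1.2 k.succ
    have t := ms_add_tri (ms_diag_tri (b := Q.b) hd) T
    have hn' : ((x.2 k.succ).map α + upm Q.b T).det ≠ 0 :=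
      ms_det_eq Q.hb (ms_diag_tri hd) t (fun i => (ms_add_diag _ T i).symm) ▸ hn
    have e : diagonal ((x.2 k.succ).map α + upm Q.b T).diag = (x.2 k.succ).map α := by
      rw [show ((x.2 k.succ).map α + upm Q.b T).diag = ((x.2 k.succ).map α).diag from
        funext (ms_add_diag _ T), hd.diagonal_diag]
    have hF : Free j α fun a : UpI Q.b =>
        msJ (Q.s k) ((x.2 k.succ).map α + upm Q.b T) a.1.1 a.1.2 := by
      refine FA1.of_gen hT rfl fun a => ?_
      have e2 := msF_G Q.hb (Q.s k) hn' t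
      rw [e] at e2
      refine ((congrFun₂ e2 a.1.1 a.1.2).trans (ms_add_up hd T a)) ▸ ?_
      exact (Rel.msF (R := Rel.ofSub (gen α _)) Q.hb (Q.s k)
        (fun _ _ => ⟨IntermediateField.subset_adjoin _ _ (Or.inl ⟨_, rfl⟩), rfl⟩) hn (ms_diag_tri hd)
        (fun z => ⟨IntermediateField.subset_adjoin _ _ (Or.inr ⟨z, rfl⟩), rfl⟩) _ _).1
    rw [h2 M _ _ _ _ (ms_upd Q k hz'.1.1 t (ms_add_diag _ T)).1, mul_one, ← mul_one r,
      ← h0 L x r y w hz, ← h1 L M α _ x r y w hF hz]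
    simp only [msB, Function.update_self, Function.update_idem, e]
    rw [show Function.update (fun i => (x.2 i).map α) k.succ ((x.2 k.succ).map α) =
      fun i => (x.2 i).map α from Function.update_eq_self k.succ _, mul_one r]

end Pool.Agent.Lib.MP_557161_ag.HG
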