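import Pool.Agent.Lib.MP_557161_ag.HG.St4
import Pool.Agent.Lib.MP_557161_ag.HG.BR

/-!
Symmetric functionals on copies of the hypergeometric torus vanish.
-/

namespace Pool.Agent.Lib.MP_557161_ag.HG

open Pool.Agent.Lib.MP_557161_ag.DL Matrix Fin BRA

namespace MTA

variable {K : Type} [Field K] {cc d : Cd} (C : EqD K cc) {n m : ℕ}

lemma tor_equiv {p : ℕ} [FC7 K p] {N : ℕ} (hN : 0 < N) {W : ASp K d} {I I' : Type} [Fintype I]
    [Fintype I'] (ρ : I' ≃ I) (E : I → ℕ) (h : EVan p N (tor C E) W) :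
    EVan p N (tor C fun i => E (ρ i)) W := by
  refine (FC7.iso hN (E' := tor C E) (E := tor C fun i => E (ρ i))
    (f := fun _ x => (x.1, fun i => x.2 (ρ i)))
    (f' := fun _ x => (x.1, fun i => x.2 (ρ.symm i))) 1 one_ne_zero
    ⟨⟨fun _ _ _ _ _ _ _ e => ⟨e.1, fun _ => e.2 _⟩, fun _ _ h => ⟨h.1, trivial, fun _ => h.2.2 _⟩⟩,
      ⟨fun _ _ _ _ _ _ _ e => ⟨e.1, fun _ => e.2 _⟩, fun _ _ h => ⟨h.1, trivial, fun _ => h.2.2 _⟩⟩,
      fun _ _ _ => by simp, fun _ _ _ => by simp⟩ fun L x _ => ⟨?_, ?_⟩).1 h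
  · exact congrArg (C.φ L x.1 + ·) (ρ.sum_comp x.2)
  · rw [map_one, one_mul]
    exact congrArg (C.g L x.1 * ·) (ρ.prod_comp fun i => x.2 i ^ E i)

variable (t : K) (s : Fin m → Bool) (e : Fin m → ℕ)

lemma mem_iff {L : Fld K} {x : (chs cc (Fin n) m).X L} : ((zd C t n s e).Ch 0).S.mem L x ↔
    C.S.mem L x.1 ∧ (∀ j, (x.2 j).IsDiag) ∧ (∀ j i, x.2 j i i ≠ 0) ∧ (∀ i, x.2 0 i i = 1) ∧
      ∀ i, x.2 (last m) i i = algebraMap K L t := by
  have hd : ∀ {A : Matrix (Fin n) (Fin n) L}, A.IsDiag → (A.det ≠ 0 ↔ ∀ i, A i i ≠ 0) := fun h => by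
    rw [← h.diagonal_diag, det_diagonal]
    simp [Finset.prod_ne_zero_iff]
  refine ⟨fun h => ?_, fun h => ⟨⟨⟨h.1, trivial⟩, fun j => (hd (h.2.1 j)).2 (h.2.2.1 j)⟩, ?_,
    fun j _ a b hab => h.2.1 j fun e => by simp [e] at hab, fun j _ => h.2.1 j, h.2.2.2.2⟩⟩
  · have h0 : x.2 0 = 1 := h.2.1
    have h1 : ∀ j, (x.2 j).IsDiag := fun j => by
      induction j using Fin.cases with
      | zero => exact h0 ▸ isDiag_one
      | succ j => exact h.2.2.2.1 _ (Nat.succ_pos _)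
    exact ⟨h.1.1.1, h1, fun j => (hd (h1 j)).1 (h.1.2 j), fun i => h0 ▸ one_apply_eq i, h.2.2.2.2⟩
  · exact (h.2.1 0).diagonal_diag.symm.trans
      ((congrArg diagonal (funext h.2.2.2.1)).trans diagonal_one)

/-- The quotients of consecutive diagonal entries. -/
def uu {F : Type} [Field F] (μ : Fin (m + 1) → Matrix (Fin n) (Fin n) F) (i : Fin n) (j : Fin m) :
    F := (μ j.castSucc i i)⁻¹ * μ j.succ i i

lemma stp_uu {F : Type} [Field F] {μ : Fin (m + 1) → Matrix (Fin n) (Fin n) F}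
    (h : ∀ j, (μ j).IsDiag) (h' : ∀ j i, μ j i i ≠ 0) (b : Bool) (j : Fin m) :
    stp b (μ j.castSucc) (μ j.succ) = diagonal fun i => cond b (uu μ i j) (uu μ i j)⁻¹ := by
  have k : ∀ a c : Fin (m + 1), (μ a)⁻¹ * μ c = diagonal fun i => (μ a i i)⁻¹ * μ c i i :=
    fun a c => ((congrArg₂ (stp true) (h a).diagonal_diag.symm ((h c).diagonal_diag.symm.trans
      (congrArg diagonal (funext fun i => (mul_inv_cancel_left₀ (h' a i) _).symm)))).trans
      (stp_diag (h' a)))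
  cases b
  · exact (k _ _).trans (congrArg diagonal (funext fun i => by simp [uu]))
  · exact k _ _

lemma pp_uu {F : Type} [Field F] {μ : Fin (m + 1) → Matrix (Fin n) (Fin n) F}
    (h' : ∀ j i, μ j i i ≠ 0) (h0 : ∀ i, μ 0 i i = 1) (i : Fin n) (j : Fin (m + 1)) :
    partialProd (uu μ i) j = μ j i i := by
  rw [← tele (μ := fun j => μ j i i) (ν := uu μ i) (fun a => mul_inv_cancel_left₀ (h' _ i) _) j,
    h0, one_mul]

variable {κ A B : Type} [Fintype κ] [Fintype A] [Fintype B] {k l : ℕ} (ρ : κ ≃ Fin n)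
  (α : Fin k ≃ A) (β : Fin l ≃ B)

/-- From chains to tori. -/
def ff (L : Fld K) (x : (chs cc (Fin n) (k + l)).X L) : (cc.prod (.pi κ (wsh A B))).X L :=
  (x.1, fun i => (fun a => uu x.2 (ρ i) (castAdd l (α.symm a)),
    fun b => (uu x.2 (ρ i) (natAdd k (β.symm b)))⁻¹))

/-- The list of the quotients. -/
def ap {F : Type} [Field F] (w : (A → F) × (B → F)) : Fin (k + l) → F :=
  Fin.append (fun a => w.1 (α a)) fun b => (w.2 (β b))⁻¹

/-- From tori to chains. -/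
def gg (L : Fld K) (x : (cc.prod (.pi κ (wsh A B))).X L) : (chs cc (Fin n) (k + l)).X L :=
  (x.1, fun j => diagonal fun i => partialProd (ap α β (x.2 (ρ.symm i))) j)

variable (e : A → ℕ) (e' : B → ℕ)

/-- The chains. -/
noncomputable abbrev c0 : EqD K (chs cc (Fin n) (k + l)) :=
  (zd C t n (Fin.append (fun _ : Fin k => true) fun _ : Fin l => false)
    (Fin.append (fun a => e (α a)) fun b => e' (β b))).Ch 0

lemma iso : Iso (c0 (n := n) C t α β e e').S (tw C t κ e e').S (ff ρ α β) (gg ρ α β) := by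
  have h1 : ∀ L x, (c0 (n := n) C t α β e e').S.mem L x → ∀ i j, uu x.2 i j ≠ 0 := fun L x h i j =>
    have h := ((mem_iff C t _ _).1 h).2.2.1
    mul_ne_zero (inv_ne_zero (h _ _)) (h _ _)
  have h2 : ∀ L x, (tw C t κ e e').S.mem L x → ∀ i j, ap α β (x.2 i) j ≠ 0 := fun L x h i j => by
    induction j using Fin.addCases with
    | left a => simpa only [ap, append_left] using (h.1.2 i).1 _
    | right b => simpa only [ap, append_right] using inv_ne_zero ((h.1.2 i).2 _)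
  have h3 : ∀ (L : Fld K) (w : (A → L) × (B → L)),
      partialProd (ap α β w) (last _) = (∏ a, w.1 a) * (∏ b, w.2 b)⁻¹ := fun L w => by
    simp only [pp_last, List.prod_ofFn, prod_univ_add, ap, append_left, append_right,
      Finset.prod_inv_distrib, α.prod_comp w.1, β.prod_comp w.2]
  have h4 : ∀ (L : Fld K) (x : (chs cc (Fin n) (k + l)).X L) i,
      ap α β ((ff ρ α β L x).2 i) = uu x.2 (ρ i) := fun L x i => funext fun j => by
    induction j using Fin.addCases <;> simp [ap, ff]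
  refine ⟨⟨fun M L R x x' _ h r => ?_, fun L x h => ⟨⟨⟨h.1.1.1, trivial⟩, fun i =>
      ⟨fun _ => h1 L x h _ _, fun _ => inv_ne_zero (h1 L x h _ _)⟩⟩, fun i => ?_⟩⟩,
    ⟨fun M L R x x' _ h r => ⟨r.1, fun j => Rel.mdiag fun i =>
      pp_rel R.r R.one R.mul (fun a => ?_) j⟩, fun L x h => (mem_iff C t _ _).2 ⟨h.1.1.1,
      fun _ => isDiag_diagonal _, fun j i => ?_, fun i => ?_, fun i => ?_⟩⟩,
    fun L x h => ?_, fun L x h => ?_⟩
  · have q : ∀ i j, R.r (uu x.2 i j) (uu x'.2 i j) := fun i j =>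
      R.mul (R.inv (r.2 _ _ _) (((mem_iff C t _ _).1 h).2.2.1 _ _)) (r.2 _ _ _)
    exact ⟨r.1, fun i => ⟨fun _ => q _ _, fun _ => R.inv (q _ _) (h1 L x' h _ _)⟩⟩
  · obtain ⟨-, -, a1, a2, a3⟩ := (mem_iff C t _ _).1 h
    have := h3 L ((ff ρ α β L x).2 i)
    rw [h4, pp_uu a1 a2, a3] at this
    exact (mul_inv_eq_iff_eq_mul₀ (Finset.prod_ne_zero_iff.2 fun _ _ =>
      inv_ne_zero (h1 L x h _ _))).1 this.symm
  · induction a using Fin.addCases with
    | left a => simpa only [ap, append_left] using (r.2 _).1 _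
    | right b => simpa only [ap, append_right] using R.inv ((r.2 _).2 _) ((h.1.2 _).2 _)
  · exact (diagonal_apply_eq _ i).trans_ne (pp_ne (h2 L x h _) j)
  · exact (diagonal_apply_eq _ i).trans (partialProd_zero _)
  · exact (diagonal_apply_eq _ i).trans ((h3 L _).trans ((mul_inv_eq_iff_eq_mul₀
      (Finset.prod_ne_zero_iff.2 fun _ _ => (h.1.2 _).2 _)).2 (h.2 _)))
  · obtain ⟨-, a0, a1, a2, -⟩ := (mem_iff C t _ _).1 h
    refine Prod.ext rfl (funext fun j => Eq.trans ?_ (a0 j).diagonal_diag)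
    simp only [gg, h4, Equiv.apply_symm_apply, pp_uu a1 a2]
    rfl
  · have q : ∀ i j, uu (gg ρ α β L x).2 (ρ i) j = ap α β (x.2 i) j := fun i j => by
      simp only [uu, gg, diagonal_apply_eq, partialProd_succ, Equiv.symm_apply_apply]
      exact inv_mul_cancel_left₀ (pp_ne (h2 L x h _) _) _
    refine Prod.ext rfl (funext fun i => ?_)
    simp [ff, q, ap]

lemma emp (N : ℕ) :
    EMp N (c0 (n := n) C t α β e e') (tw C t κ e e') (ff ρ α β) fun _ _ => 1 := by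
  refine ⟨⟨(iso C t ρ α β e e').mf, fun L x h => congrArg (C.φ L x.1 + ·) ?_⟩,
    fun _ _ R _ _ _ _ _ => R.one, fun L x h => ?_⟩
  · obtain ⟨-, a0, a1, -⟩ := (mem_iff C t _ _).1 h
    show ∑ i, (∑ a, uu x.2 (ρ i) _ - ∑ b, (uu x.2 (ρ i) _)⁻¹) = ∑ j, _ * (stp _ _ _).trace
    simp only [stp_uu a0 a1, zd, trace_diagonal, sum_univ_add, append_left, append_right, cond_true,
      cond_false, one_mul, neg_one_mul, Finset.sum_neg_distrib, Finset.sum_add_distrib,
      ← α.sum_comp, ← β.sum_comp, ← ρ.sum_comp, Equiv.symm_apply_apply, sub_eq_add_neg]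
    rw [Finset.sum_comm, Finset.sum_comm (s := (Finset.univ : Finset κ))]
  · obtain ⟨-, a0, a1, -⟩ := (mem_iff C t _ _).1 h
    rw [one_pow, mul_one]
    refine congrArg (C.g L x.1 * ·) ?_
    show ∏ i, ((∏ a, uu x.2 (ρ i) _ ^ e a) * ∏ b, (uu x.2 (ρ i) _)⁻¹ ^ e' b) =
      ∏ j, (stp _ _ _).det ^ _
    simp only [stp_uu a0 a1, zd, det_diagonal, prod_univ_add, append_left, append_right, cond_true,
      cond_false, Finset.prod_mul_distrib, ← Finset.prod_pow, ← α.prod_comp, ← β.prod_comp,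
      ← ρ.prod_comp, Equiv.symm_apply_apply]
    rw [Finset.prod_comm, Finset.prod_comm (s := (Finset.univ : Finset κ))]

end MTA

open MTA in
theorem MT_thm {K : Type} [Field K] {p : ℕ} [FC1 K p] [FC7 K p] [MN K p] : MT K p where
  van {N} hN cc d C W t h0 h1 κ _ A B _ _ e e' hκ hA hB hv j Φ hΦ L x y w := by
    obtain ⟨n, hn⟩ := Nat.exists_eq_succ_of_ne_zero hκ.ne'
    have ρ : κ ≃ Fin (n + 1) := Finite.equivFinOfCardEq hn
    have α : Fin (n + 1) ≃ A := (Finite.equivFinOfCardEq (hA.trans hn)).symm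
    have β : Fin (n + 1) ≃ B := (Finite.equivFinOfCardEq (hB.trans hn)).symm
    have hi := iso C t ρ α β e e'
    have hm := emp C t ρ α β e e' N
    obtain ⟨Ψ, hΨ⟩ := FC7.pull hN hm hi.pro Φ
    have hs : ∀ σ : Equiv.Perm (Fin (n + 1)),
        Ψ.Eqv (fun _ x => ((x.1.1, fun i => (x.1.2 i).submatrix σ σ), x.2)) 1 := fun σ L z y w hz => by
      obtain ⟨a, a0, a1, a2, a3⟩ := (mem_iff C t _ _).1 hz.1.1
      refine (hΨ L (z.1.1, fun i => (z.1.2 i).submatrix σ σ) z.2 y w ((mem_iff C t _ _).2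
        ⟨a, fun j => (a0 j).submatrix σ.injective, fun _ _ => a1 _ _, fun _ => a2 _,
          fun _ => a3 _⟩)).trans (Eq.trans ?_ ((hΦ (ρ.trans (σ.trans ρ.symm)) L
          (ff ρ α β L z.1, z.2 * 1) y w ⟨⟨hm.mem L _ hz.1.1, trivial⟩, ?_⟩).trans
          (congrArg _ (hΨ L z.1 z.2 y w hz.1.1).symm)))
      · simp [ff, uu]
      · exact Eq.trans (by rw [mul_pow]; exact congrArg (· * _) hz.2) (hm.gh L _ hz.1.1).symm
    by_contra hne
    have hx := (FC1.mem Φ hne).2.1.1.1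
    have := hΨ L _ x.2 y w (hi.mg.mem L x.1 hx)
    rw [hi.fg L x.1 hx, mul_one] at this
    exact hne (this.symm.trans (MN.van hN C W t h0 h1 (fun a => e (α a)) (fun b => e' (β b))
      (tor_equiv C hN (α.prodCongr β) _ hv) Ψ hs _ _ _ _))

end Pool.Agent.Lib.MP_557161_ag.HG
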