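import Pool.Agent.Lib.MP_557161_ag.HG.R22

/-!
The relation attached to a simple reflection.
-/

namespace Pool.Agent.Lib.MP_557161_ag.HG

open Pool.Agent.Lib.MP_557161_ag.DL Matrix Pl Pl.ValB

section

variable {K : Type} [Field K] {p : ℕ} {cc d : Cd} {n m : ℕ} (G : GC K p cc d n m)
  {L M N : Fld K} {r r' : Fin n} [g1 : G1 K p] [FA1 K] [h2 : R2a K p] [FA3 K] [FA2 K]
  (hr : r'.1 = r.1 + 1) {i : ℕ} (hj : G.j = i + 1 + Nat.card (Mid m × UpN n)) {α : L →ₐ[K] M}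
  {x : (gsh cc d n m).X L} (hx : G.gS.mem L x) (hν : nu r r' x ≠ 0)
  {T : Option (Mid m × UpN n) → M} (hF : Free (i + 1) α T)

/-- The terms of the places that are trivial on the base field. -/
noncomputable def r2B (r r' : Fin n) (α : L →ₐ[K] M) (x : (gsh cc d n m).X L)
    (T : Option (Mid m × UpN n) → M) (O : Pl M) (j : Fin (m + 1)) : ℂ :=
  (O.ord (r2A r r' α x T j) : ℂ) * rv G.a O (r2P r r' (j.1 - 1) α x T)

omit [FA1 K] h2 [FA3 K] [FA2 K] in
lemma r2_gpt {R : Rel M N} {y y'} (h : G.gS.mem M y) (h' : G.gS.mem N y')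
    (e : (gsh cc d n m).lift R.r y y') {t : Mid m × UpN n → M} {t' : Mid m × UpN n → N}
    (e' : ∀ a, R.r (t a) (t' a)) : (tsh cc d n m).lift R.r (gpt y t) (gpt y' t') :=
  g1.reg G R (x := (y, t)) (x' := (y', t')) ⟨h, trivial⟩ ⟨h', trivial⟩ ⟨e, e'⟩

omit g1 [FA1 K] h2 [FA3 K] [FA2 K] in
lemma r2F_ne {O : Pl M} {P : (tsh cc d n m).X M} (h : r2F G O P ≠ 0) :
    0 < O.ord (r2E G P) ∧ rv G.a O P ≠ 0 := by
  rw [r2F] at h
  split_ifs at h with h1
  exacts [⟨h1, right_ne_zero_of_mul h⟩, absurd rfl h]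

include hr in
omit g1 [FA1 K] [FA3 K] [FA2 K] in
include h2 in
lemma r2_back {R : Rel M N} {y : (gsh cc d n m).X M} {y' : (gsh cc d n m).X N}
    (e : (gsh cc d n m).lift R.r y y') (hd : y'.2.2.det ≠ 0) (S : M) (t : Mid m × UpN n → M)
    (j : Mid m) {a' : N} {t' : Mid m × UpN n → N} (e1 : R.r (alf r r' y S t j.1) a')
    (e2 : ∀ a, R.r (shT r r' S t a) (t' a))
    (h0 : t' (j, r2i hr) ≠ 0) :
    (∃ u, R.r S u) ∧ ∀ a, ∃ u, R.r (t a) u := by
  obtain ⟨-, z2, z3⟩ := h2.zero hr y S t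
  have e3 := e2 (j, r2i hr)
  rw [← r2_nmat hr (shT r r' S t) j, z3] at e3
  have e4 := Rel.div (Rel.sub (Rel.sub (e.1.1.2 j.1 r') (e.1.1.2 j.1 r)) e1) e3 h0
  rw [alf, if_neg j.2.2, sub_sub_cancel, mul_div_cancel_right₀ _ (Rel.ne_zero e3 h0)] at e4
  exact ⟨⟨_, e4⟩, fun a => ⟨_, congrFun z2 a ▸ (h2.rel r r' R e hd (Rel.neg e4) e2).2.2.2 a⟩⟩

include hr hx hν hF

omit g1 h2 [FA3 K] [FA2 K] in
lemma r2A_ne {j : Fin (m + 1)} (h : j ≠ 0) : r2A r r' α x T j ≠ 0 := by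
  by_cases e : j = Fin.last m
  · rw [e, r2_last G α hx]
    exact mul_ne_zero (neg_ne_zero.2 (r2_var_ne hF none)) ((map_ne_zero α).2 hν)
  · exact r2_alf hr α x T ⟨j, h, e⟩ ▸ r2_quad_ne hF _ _ _

omit [FA3 K] [FA2 K] in
lemma r2_A {O : Pl M} (hO : O.IsDVR) (h : Triv α O) (hT : ∀ a, T a ∈ O.O) (k : Fin m)
    (hk : k.castSucc ≠ 0) : r2F G O (r2P r r' k α x T) =
      r2B G r r' α x T O k.castSucc + r2B G r r' α x T O k.succ := by
  obtain ⟨x₀, h0, hl⟩ := r2_triv G.gS h hx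
  obtain ⟨a1, a2⟩ := r2_rel (r := r) (r' := r') G (over_comap α O) h0 hl hT
  have c1 := r2_cfu (r := r) (r' := r') G (Cd.lift_over (over_comap α O) hl)
    ((G.gS.map_iff _ _).2 h0) k
  have n1 := r2A_ne G hr hx hν hF hk
  have n2 := r2A_ne G hr hx hν hF (Fin.succ_ne_zero k)
  have p1 := (ord_nonneg_iff hO).2 (a2 k.castSucc).1
  have p2 := (ord_nonneg_iff hO).2 (a2 k.succ).1
  have e : r2B G r r' α x T O k.castSucc =
      O.ord (r2A r r' α x T k.castSucc) * rv G.a O (r2P r r' k α x T) := by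
    rcases p1.eq_or_lt with e | e
    · rw [r2B, ← e, Int.cast_zero, zero_mul, zero_mul]
    · rw [r2B, r2_rv _ (a1 _), r2_rv _ (a1 _)]
      exact congrArg (fun u => _ * G.a O.res u) (h2.agree hr k.castSucc _ _ _
        ((a2 _).2.symm.trans ((ord_pos_iff hO n1).1 e).2)).symm
  rw [e, r2F, r2_E G hr k α hx, r2_un_ord hO (r2_un c1.1 c1.2) (mul_ne_zero n1 n2), ord_mul hO n1 n2,
    r2B, Fin.val_succ, Nat.add_sub_cancel, ← add_mul, ← Int.cast_add]
  split_ifs with h1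
  · rfl
  · rw [le_antisymm (not_lt.1 h1) (add_nonneg p1 p2), Int.cast_zero, zero_mul]

include hj

omit hν in
open Classical in
lemma r2_one (j : Mid m) (h1 : j.1.1 = 1) : ∃ O₁ : Dv M G.j, (Triv α O₁.1 ∧ ∀ a, T a ∈ O₁.1.O) ∧
    ∀ O : Dv M G.j, Triv α O.1 → (∀ a, T a ∈ O.1.O) →
      r2B G r r' α x T O.1 j.1 = if O = O₁ then G.Γ (i + 1) L x else 0 := by
  have hX := (G.gS.map_iff α x).2 hx
  let T' : Option (Mid m × UpN n) → M := fun a =>
    a.elim (r2A r r' α x T j.1) (shT r r' (T none) fun a => T (some a))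
  have b0 : T' (some (j, r2i hr)) ≠ 0 := by
    show shT r r' (T none) (fun a => T (some a)) _ ≠ 0
    rw [← r2_nmat hr (shT r r' (T none) fun a => T (some a)) j,
      (h2.zero hr ((gsh cc d n m).map α x) _ _).2.2, r2_nmat hr]
    exact r2_var_ne hF _
  have hF' : Free (i + 1) α T' := FA1.of_gen hF rfl fun a => by
    obtain ⟨⟨_, c1⟩, c2⟩ := r2_back (p := p) hr (r2_all α T' x) (r2_det G hX) (T none) (fun a => T (some a))
      j ⟨FA2_var α T' none, rfl⟩ (fun a => ⟨FA2_var α T' (some a), rfl⟩) b0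
    cases a with
    | none => exact c1.1
    | some a => exact (c2 a).choose_spec.1
  obtain ⟨O₁, t1, t2, t3, -, t5, t6⟩ := r2_zero hF' hj
  refine ⟨O₁, ⟨t1, fun a => ?_⟩, fun O h hT => ?_⟩
  · obtain ⟨⟨_, c1⟩, c2⟩ := r2_back (p := p) hr (Cd.lift_triv t1 x) (r2_det G ((G.gS.map_iff _ _).2 hx))
      (T none) (fun a => T (some a)) j ⟨t2 none, rfl⟩ (fun a => ⟨t2 (some a), rfl⟩) (r2_var_ne t5 _)
    cases a with
    | none => exact c1.1
    | some a => exact (c2 a).choose_spec.1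
  have e : r2B G r r' α x T O.1 j.1 = O.1.ord (T' none) *
      rv G.a O.1 (gpt ((gsh cc d n m).map α x) fun a => T' (some a)) := by
    rw [r2B, h1, r2P, (h2.zero hr _ _ _).1]
    rfl
  rw [e]
  split_ifs with hO
  · subst hO
    rw [t3, Int.cast_one, one_mul, r2_rv _ (r2_gpt G hX ((G.gS.map_iff _ _).2 hx)
      (Cd.lift_triv t1 x) fun a => ⟨t2 (some a), rfl⟩), g1.eq G hj hx t5]
  · obtain ⟨x₀, h0, hl⟩ := r2_triv G.gS h hx
    have h0' := (G.gS.map_iff (over_comap α O.1).resHom _).2 h0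
    obtain ⟨-, a2, -, a4⟩ := h2.rel r r' (Rel.ofPl O.1) (Cd.lift_over (over_comap α O.1) hl)
      (r2_det G h0') ⟨hT none, rfl⟩ fun a => ⟨hT (some a), rfl⟩
    have hT' : ∀ a, T' a ∈ O.1.O := fun a => by
      cases a with
      | none => exact (a2 _).1
      | some a => exact (a4 a).1
    rcases ((ord_nonneg_iff O.2.1).2 (hT' none)).eq_or_lt with e | e
    · rw [← e, Int.cast_zero, zero_mul]
    · obtain ⟨l, c1, c2⟩ := t6 O hO hT' ((ord_pos_iff O.2.1 (r2_var_ne hF' none)).1 e).2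
      have c3 := r2_gpt G h0' h0' (r2_all (over_comap α O.1).resHom (fun a => O.1.rd (T' a)) x₀)
        fun a => ⟨FA2_var _ _ (some a), rfl⟩
      rw [r2_rv _ (r2_gpt G hX h0' (Cd.lift_over (over_comap α O.1) hl)
        fun a => ⟨hT' (some a), rfl⟩), r2_low G _ ((Cd.lift_sub _).1 c3).1 c2 c1, mul_zero]

open Classical in
lemma r2_two : ∃ O₂ : Dv M G.j, (Triv α O₂.1 ∧ ∀ a, T a ∈ O₂.1.O) ∧
    ∀ O : Dv M G.j, Triv α O.1 → (∀ a, T a ∈ O.1.O) → r2B G r r' α x T O.1 (Fin.last m) =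
      if O = O₂ then G.Γ (i + 1) L (zperm (Equiv.swap r r') x.1, x.2) else 0 := by
  obtain ⟨O₂, t1, t2, t3, t4, t5, t6⟩ := r2_zero hF hj
  refine ⟨O₂, ⟨t1, t2⟩, fun O h hT => ?_⟩
  have u : Un O.1 (α (-nu r r' x)) :=
    ⟨(map_ne_zero α).2 (neg_ne_zero.2 hν), h _, map_inv₀ α _ ▸ h _⟩
  rw [r2B, r2_last G α hx, neg_mul_comm, mul_comm (T none), ← map_neg,
    r2_un_ord O.2.1 u (r2_var_ne hF none)]
  split_ifs with hO
  · subst hO
    have hx' : G.gS.mem L (zperm (Equiv.swap r r') x.1, x.2) :=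
      ⟨⟨⟨g1.zperm G _ hx.1.1.1, trivial⟩, hx.1.2⟩, hx.2⟩
    rw [t3, Int.cast_one, one_mul, r2_rv _ ((h2.rel r r' (Rel.ofPl O.1) (Cd.lift_triv t1 x)
      (r2_det G ((G.gS.map_iff _ _).2 hx)) ⟨t2 none, t4⟩ fun a => ⟨t2 (some a), rfl⟩).1 _),
      Fin.val_last, h2.last hr, ← g1.eq G hj hx' t5]
    congr 2
    exact Prod.ext rfl (Prod.ext rfl (by simp [gsw, hS]))
  · rcases ((ord_nonneg_iff O.2.1).2 (hT none)).eq_or_lt with e | e
    · rw [← e, Int.cast_zero, zero_mul]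
    · obtain ⟨x₀, h0, hl⟩ := r2_triv G.gS h hx
      rw [r2_drop G h0 hl hT (t6 O hO hT ((ord_pos_iff O.2.1 (r2_var_ne hF none)).1 e).2), mul_zero]

/-- Places where the first variable has a pole. -/
lemma r2_ns {O : Pl M} (hO : O.IsDVR) (hI : R2I (comap α O) x) (hS : T none ∉ O.O) (k : Fin m)
    (hk : k.castSucc ≠ 0) : r2F G O (r2P r r' k α x T) = 0 := by
  by_contra hv
  have hb := r2_bor (F := L) hr
  have hne : r ≠ r' := fun e => by rw [e] at hr; omega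
  obtain ⟨T', f1, f2, f3⟩ := h2.refr hr k x hb hF
  have hx' := g1.mul G hx hb
  have hν' := r2_nu_mul G hr hj hx hν hb
  have s0 : T none ≠ 0 := fun e => hS (e ▸ zero_mem _)
  have s1 := (O.O.mem_or_inv_mem _).resolve_left hS
  have s2 : (Rel.ofPl O).r (T' none) 1 := by
    have := (Rel.ofPl O).inv ((Rel.ofPl O).add ⟨s1, not_not.1 fun e => hS (by
      simpa using ((O.rd_ne_zero_iff s1).1 e).2)⟩ (Rel.ofPl O).one) (by simp)
    rw [zero_add, inv_one, show (T none)⁻¹ + 1 = (1 + T none) / T none by field_simp,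
      inv_div] at this
    simpa [f2, hne, hne.symm] using this
  obtain ⟨g', a1, a2⟩ := hI
  rw [r2P, f3] at hv
  obtain ⟨h1, hv'⟩ := r2F_ne G hv
  obtain ⟨hT, hd, x₀, h0, hl⟩ := r2_red G hr hx' ⟨_, Rel.mmul a1 (Rel.msub Rel.mone
    (Rel.msingle r r' (Rel.one _))), by rw [det_mul]; exact mul_ne_zero a2 (r2_bor hr).2⟩ s2.1 hv'
  refine hd ?_
  by_cases ht : Triv α O
  · obtain ⟨-, b2⟩ := r2_rel (r := r) (r' := r') G (over_comap α O) h0 hl hT
    have c1 := r2_cfu (r := r) (r' := r') G (Cd.lift_over (over_comap α O) hl)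
      ((G.gS.map_iff _ _).2 h0) k
    have c2 := (Rel.ofPl O).mul c1.1 ((Rel.ofPl O).mul (b2 k.castSucc) (b2 k.succ))
    rw [← r2_E G hr k α hx'] at c2
    have c3 := c2.2.symm.trans ((ord_pos_iff hO fun e => by
      rw [e, ord_zero _ hO] at h1; exact lt_irrefl _ h1).1 h1).2
    obtain ⟨j, c4⟩ : ∃ j : Mid m,
        r2A r r' (over_comap α O).resHom x₀ (fun a => O.rd (T' a)) j.1 = 0 := by
      rcases mul_eq_zero.1 ((mul_eq_zero.1 c3).resolve_left c1.2) with e | e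
      · exact ⟨⟨_, hk, Fin.castSucc_ne_last k⟩, e⟩
      · refine ⟨⟨_, Fin.succ_ne_zero k, fun e' => ?_⟩, e⟩
        have n1 := r2_nu (r := r) (r' := r') hl (r2_det G h0)
        rw [e', r2_last G _ h0, s2.2, ← n1.2] at e
        exact mul_ne_zero (neg_ne_zero.2 one_ne_zero) ((map_ne_zero _).2
          ((rd_ne_zero_iff _ n1.1).2 ⟨hν', ht _⟩)) e
    rw [r2_alf hr, s2.2, one_mul, sub_eq_zero] at c4
    have c5 := Finite.card_subtype_lt (α := Mid m × UpN n)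
      (p := (· ≠ (j, r2i hr))) fun e => e rfl
    refine ⟨_, hj ▸ Nat.add_lt_add_left c5 (i + 1), (r2_tr _ _ (fun a : {a // a ≠
      (j, r2i hr)} => O.rd (T' (some a))) fun a => ?_).trans ?_⟩
    · rcases a with _ | a
      · exact s2.2 ▸ one_mem _
      · by_cases e : a = (j, r2i hr)
        · rw [e, ← c4]
          exact FA2_base _ _ _
        · exact FA2_var _ (fun a : {a // a ≠ (j, r2i hr)} =>
            O.rd (T' (some a))) ⟨a, e⟩
    · rw [Nat.cast_add]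
      exact add_le_add_left (FA2.res_le α O hF.gL.2.le) _
  · refine ⟨i + Nat.card (Mid m × UpN n), by omega,
      (r2_tr _ _ (fun a => O.rd (T' (some a))) fun a => ?_).trans ?_⟩
    · rcases a with _ | a
      exacts [s2.2 ▸ one_mem _, FA2_var _ (fun a => O.rd (T' (some a))) a]
    · rw [Nat.cast_add]
      exact add_le_add_left (FA2.res_lt ht hF.gL.2.le) _

/-- Places that are not trivial on the base field. -/
lemma r2_gc {O : Pl M} (hO : O.IsDVR) (ht : ¬ Triv α O) (hI : R2I (comap α O) x) (k : Fin m)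
    (hk : k.castSucc ≠ 0) (hv : r2F G O (r2P r r' k α x T) ≠ 0) : (comap α O).IsDiv i ∧
      (∀ a, T a ∈ O.O) ∧ ¬ R2Drop G.j α O T ∧ ∃ x₀, G.gS.mem (comap α O).res x₀ ∧
        (gsh cc d n m).lift (Rel.ofPl (comap α O)).r x x₀ := by
  have h := r2_red G hr hx hI (by_contra fun e => hv (r2_ns G hr hj hx hν hF hO hI e k hk))
    (r2F_ne G hv).2
  refine ⟨(FA2.comap_dv hF.gL hO ht (fun a => O.rd (T a)) le_rfl).resolve_right ?_, h⟩
  rintro ⟨l, c1, c2⟩
  rw [Finite.card_option] at c1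
  exact h.2.1 ⟨l, by omega, c2⟩

lemma r2_off [iw : IW K] {A : Finset (Dv L i)}
    (hB : ∀ O ∉ A, ∀ b x', Bor b → G.gS.mem O.1.res x' →
      (gsh cc d n m).lift (Rel.ofPl O.1).r (gmul x b) x' → 0 < O.1.ord (nu r r' (gmul x b)) →
      G.Γs r r' i O.1.res x' = 0) (O : Dv M G.j) (ht : ¬ Triv α O.1) (k : Fin m)
    (hk : k.castSucc ≠ 0) (hv : r2F G O.1 (r2P r r' k α x T) ≠ 0) :
    ∃ h : (comap α O.1).IsDiv i, (⟨_, h⟩ : Dv L i) ∈ A := by
  obtain ⟨b, g', hb, a1, a2⟩ := iw.iwa (comap α O.1) x.2.2 (r2_det G hx)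
  obtain ⟨T', f1, -, f3⟩ := h2.refr hr k x hb hF
  have hx' := g1.mul G hx hb
  have hν' := r2_nu_mul G hr hj hx hν hb
  rw [r2P, f3] at hv
  obtain ⟨hO, hT, hd, x₀, h0, hl⟩ := r2_gc G hr hj hx' hν' f1 O.2.1 ht ⟨g', a1, a2⟩ k hk hv
  obtain ⟨O', h, -, c2, c3, c4⟩ := r2_gauss (J := G.j) f1 (by rw [Finite.card_option]; omega) ⟨_, hO⟩
  have e := c4 O rfl hT hd
  subst e
  rw [r2_gv G hr hj hO.1 O.2.1 h hx' hν' hT c2 c3 h0 hl k hk] at hv
  split_ifs at hv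
  · refine ⟨hO, by_contra fun hA => right_ne_zero_of_mul hv (hB _ hA b x₀ hb h0 hl ?_)⟩
    exact ((ord_nonneg_iff hO.1).2 (r2_nu hl (r2_det G h0)).1).lt_of_ne'
      (Int.cast_ne_zero.1 (left_ne_zero_of_mul hv))
  · exact absurd rfl hv

open Classical in
lemma r2_main [IW K] [FC6 K p] (hm : Even m) (A : Finset (Dv L i)) (val : Dv L i → ℂ)
    (hA : ∀ O ∈ A, ∃ x', G.gS.mem O.1.res x' ∧ (gsh cc d n m).lift (Rel.ofPl O.1).r x x' ∧
      val O = (O.1.ord (nu r r' x) : ℂ) * G.Γs r r' i O.1.res x')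
    (hB : ∀ O ∉ A, ∀ b x', Bor b → G.gS.mem O.1.res x' →
      (gsh cc d n m).lift (Rel.ofPl O.1).r (gmul x b) x' → 0 < O.1.ord (nu r r' (gmul x b)) →
      G.Γs r r' i O.1.res x' = 0) :
    G.Γ (i + 1) L x + G.Γ (i + 1) L (zperm (Equiv.swap r r') x.1, x.2) + ∑ O ∈ A, val O = 0 := by
  have hm0 := G.hm
  obtain ⟨m', hm'⟩ := hm
  have hX := (G.gS.map_iff α x).2 hx
  have kk : ∀ k ∈ Finset.range (m - 1), ∃ k' : Fin m, k'.1 = k + 1 ∧ k'.castSucc ≠ 0 := fun k hk =>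
    ⟨⟨k + 1, by have := Finset.mem_range.1 hk; omega⟩, rfl, fun e => by
      simpa using congrArg Fin.val e⟩
  have H := C6.hasS_sum (Finset.range (m - 1)) (r := fun _ => 0)
    (g := fun k (O : Dv M G.j) => (-1) ^ k * r2F G O.1 (r2P r r' (k + 1) α x T)) fun k hk => by
      obtain ⟨k', e, hk'⟩ := kk k hk
      rw [← e]
      refine r2_smul (FC6.asdiv G.Ψ M (r2P r r' k' α x T).1.1 (r2P r r' k' α x T).1.2
        (r2P r r' k' α x T).2 ?_ (h2.mem G hr k' _ _ hX).1 hX.1.1.1.2.2 ?_) _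
      · have := hF.gM
        rwa [Finite.card_option, ← Nat.add_assoc, ← hj] at this
      · refine (r2_E G hr k' α hx T).trans_ne (mul_ne_zero ?_ (mul_ne_zero (r2A_ne G hr hx hν hF hk')
          (r2A_ne G hr hx hν hF (Fin.succ_ne_zero _))))
        exact (r2_cfu (R := Rel.ofHom (AlgHom.id K M)) G ((Cd.lift_hom _).2 (Cd.map_id _ _)) hX k').2
  obtain ⟨O₁, t1, t2⟩ := r2_one G hr hj hx hF
    ⟨⟨1, by omega⟩, fun e => by simpa using congrArg Fin.val e, fun e => by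
      have := congrArg Fin.val e; simp at this; omega⟩ rfl
  obtain ⟨O₂, t3, t4⟩ := r2_two G hr hj hx hν hF
  choose Gs q1 g2 g3 g4 g5 using r2_gauss (J := G.j) hF (by rw [Finite.card_option]; omega)
  have H' := r2_add (r2_add (r2_single O₁ (G.Γ (i + 1) L x))
    (r2_single O₂ (G.Γ (i + 1) L (zperm (Equiv.swap r r') x.1, x.2))))
    (C6.hasS_sum A fun O _ => r2_single (Gs O) (val O))
  have nt : ∀ O, ¬ Triv α (Gs O).1 := fun O e => O.2.1.ne_top
    (eq_top_iff.2 fun a _ => (q1 O a).2 (e a))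
  refine (H'.2.symm.trans (finsum_congr fun O => ?_)).trans (H.2.trans Finset.sum_const_zero)
  beta_reduce
  by_cases hO : Triv α O.1 ∧ ∀ a, T a ∈ O.1.O
  · rw [← t2 O hO.1 hO.2, ← t4 O hO.1 hO.2,
      Finset.sum_eq_zero fun O' _ => if_neg fun e : O = Gs O' => nt O' (e ▸ hO.1), add_zero]
    exact r2_tele' ⟨m', hm'⟩ (r2B G r r' α x T O.1) (fun k => r2F G O.1 (r2P r r' k α x T)) _ rfl
      (r2_A G hr hx hν hF O.2.1 hO.1 hO.2)
  · rw [if_neg fun e : O = O₁ => hO (e ▸ t1), if_neg fun e : O = O₂ => hO (e ▸ t3), zero_add,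
      zero_add]
    by_cases hG : ∃ O' ∈ A, O = Gs O'
    · obtain ⟨O', hO', rfl⟩ := hG
      obtain ⟨x₀, h0, hl, hv⟩ := hA O' hO'
      rw [Finset.sum_eq_single O' (fun O'' _ hne => if_neg fun e : Gs O' = Gs O'' => hne (Subtype.ext
        ((q1 O'').eq_comap.trans (e ▸ (q1 O').eq_comap.symm)))) fun e => absurd hO' e, if_pos rfl,
        Finset.sum_eq_single (m - 2) (fun k hk hne => ?_) fun e => absurd
          (Finset.mem_range.2 (by omega)) e]
      · obtain ⟨k', e, hk'⟩ := kk (m - 2) (Finset.mem_range.2 (by omega))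
        rw [← e, r2_gv G hr hj O'.2.1 (Gs O').2.1 (q1 O') hx hν (g2 O') (g3 O') (g4 O') h0 hl k' hk',
          if_pos (Fin.ext (by simp; omega)), hv, Even.neg_one_pow ⟨m' - 1, by omega⟩, one_mul]
      · obtain ⟨k', e, hk'⟩ := kk k hk
        rw [← e, r2_gv G hr hj O'.2.1 (Gs O').2.1 (q1 O') hx hν (g2 O') (g3 O') (g4 O') h0 hl k' hk',
          if_neg fun e' => hne (by have := congrArg Fin.val e'; simp at this; omega), mul_zero]
    · rw [Finset.sum_eq_zero fun O' h => if_neg fun e => hG ⟨O', h, e⟩]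
      refine (Finset.sum_eq_zero fun k hk => mul_eq_zero_of_right _ (by_contra fun hv => ?_)).symm
      obtain ⟨k', e, hk'⟩ := kk k hk
      rw [← e] at hv
      by_cases ht : Triv α O.1
      · obtain ⟨x₀, h0, hl⟩ := r2_triv G.gS ht hx
        have hI : R2I (comap α O.1) x := ⟨_, hl.2.2, r2_det G h0⟩
        exact hO ⟨ht, (r2_red G hr hx hI (by_contra fun e =>
          hv (r2_ns G hr hj hx hν hF O.2.1 hI e k' hk')) (r2F_ne G hv).2).1⟩
      · obtain ⟨h, h'⟩ := r2_off G hr hj hx hν hF hB O ht k' hk' hv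
        obtain ⟨x₀, h0, hl, -⟩ := hA _ h'
        obtain ⟨-, c1, c2, -⟩ := r2_gc G hr hj hx hν hF O.2.1 ht ⟨_, hl.2.2, r2_det G h0⟩ k' hk' hv
        exact hG ⟨_, h', g5 _ O rfl c1 c2⟩

end

theorem R2_thm {K : Type} [Field K] [Base K] {p : ℕ} [Fact p.Prime] [CharP K p] [FW0 K] [FWp K p]
    [G1 K p] [IW K] [R2a K p] : R2 K p where
  rel G hm _ _ hr _ hj _ _ hx hL hν A val hA hB :=
    r2_main G hr hj hx hν (FA1.fr_free _ hL) hm A val hA hB

end Pool.Agent.Lib.MP_557161_ag.HG
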