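import Pool.Agent.Lib.MP_557161_ag.HG.R2a1

/-!
The algebra of hybrid chains.
-/

namespace Pool.Agent.Lib.MP_557161_ag.HG

open Pool.Agent.Lib.MP_557161_ag.DL Matrix

namespace R2A

section Mat

variable {F : Type} [Field F] {n m : ℕ} {r r' : Fin n} {cc d : Cd}

lemma hpt_eq (k : ℕ) (x : (gsh cc d n m).X F) (S : F) (T : Mid m × UpN n → F) :
    hpt r r' k x S T = zpt x.1 (cmat x.2.1 x.2.2 fun j =>
      hyb r r' (j.1 ≤ k) S (x.1.1.2 j) (nmat T j)) := rfl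

lemma hpt_ch (k : ℕ) (x : (gsh cc d n m).X F) (S : F) (T : Mid m × UpN n → F) :
    (hpt r r' k x S T).1.1.1.2 = cmat x.2.1 x.2.2 fun j =>
      hyb r r' (j.1 ≤ k) S (x.1.1.2 j) (nmat T j) := rfl

lemma hpt_last (hm : 0 < m) (k : ℕ) (x : (gsh cc d n m).X F) (S : F) (T : Mid m × UpN n → F) :
    (hpt r r' k x S T).1.1.1.2 (Fin.last m) = x.2.1 := by
  rw [hpt_ch, cmat, if_neg fun e => hm.ne' (congrArg Fin.val e), if_pos rfl]

lemma su_nmat (T : Mid m × UpN n → F) (j : Fin (m + 1)) : SU Fin.val (nmat T j) := fun a b h => by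
  rw [nmat]
  split_ifs
  exacts [dif_neg (not_lt.2 h), rfl]

lemma nmat_apply (T : Mid m × UpN n → F) (a : Mid m × UpN n) :
    nmat T a.1.1 a.2.1.1 a.2.1.2 = T a := by
  rw [nmat, dif_pos a.1.2]
  exact dif_pos a.2.2

lemma nmat_of (N : Fin (m + 1) → Matrix (Fin n) (Fin n) F) {j : Fin (m + 1)}
    (h : j ≠ 0 ∧ j ≠ Fin.last m) :
    nmat (fun a => N a.1.1 a.2.1.1 a.2.1.2) j = upp Fin.val (N j) := dif_pos h

lemma cmat_mid {μ g : Matrix (Fin n) (Fin n) F} {A : Fin (m + 1) → Matrix (Fin n) (Fin n) F}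
    {j : Fin (m + 1)} (h : j ≠ 0 ∧ j ≠ Fin.last m) : cmat μ g A j = g * A j * g⁻¹ := by
  rw [cmat, if_neg h.1, if_neg h.2]

lemma cmat_congr {μ g g' : Matrix (Fin n) (Fin n) F}
    {A A' : Fin (m + 1) → Matrix (Fin n) (Fin n) F}
    (h : ∀ j, j ≠ 0 ∧ j ≠ Fin.last m → g * A j * g⁻¹ = g' * A' j * g'⁻¹) :
    cmat μ g A = cmat μ g' A' := funext fun j => by
  simp only [cmat]
  split_ifs with h1 h2
  exacts [rfl, rfl, h j ⟨h1, h2⟩]

lemma tv_swap (s : Bool) (a b : Fin n → F) (σ : Equiv.Perm (Fin n)) :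
    tv s (fun i => a (σ i)) (fun i => b (σ i)) = tv s a b :=
  Equiv.sum_comp σ fun i => cond s ((a i)⁻¹ * b i) ((b i)⁻¹ * a i)

lemma tr_diag (s : Bool) {a b : Fin n → F} (ha : ∀ i, a i ≠ 0) (hb : ∀ i, b i ≠ 0) :
    (stp s (diagonal a) (diagonal b)).trace = tv s a b := by
  rw [tr_tri s (blockTriangular_diagonal _) (blockTriangular_diagonal _), diag_diagonal,
    diag_diagonal] <;> rw [det_diagonal]
  exacts [Finset.prod_ne_zero_iff.2 fun i _ => ha i, Finset.prod_ne_zero_iff.2 fun i _ => hb i]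

lemma su_sub {A : Matrix (Fin n) (Fin n) F} {q : Fin n → F} (h : SU Fin.val (A - diagonal q)) :
    Tri A ∧ ∀ i, A i i = q i := by
  simpa only [add_sub_cancel] using tri_add (q := q) h

/-- The matrices of a hybrid chain in the frame `g`. -/
noncomputable def frm (r r' : Fin n) (k : ℕ) (x : (gsh cc d n m).X F) (S : F)
    (T : Mid m × UpN n → F) (j : Fin (m + 1)) : Matrix (Fin n) (Fin n) F :=
  if j = Fin.last m then x.2.2⁻¹ * x.2.1 * x.2.2 else hyb r r' (j.1 ≤ k) S (x.1.1.2 j) (nmat T j)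

lemma hpt_frm (hr : r'.1 = r.1 + 1) (hm : 0 < m) (k : ℕ) {x : (gsh cc d n m).X F} (S : F)
    (T : Mid m × UpN n → F) (hg : x.2.2.det ≠ 0) (h0 : ∀ i, x.1.1.2 0 i = 1) (j : Fin (m + 1)) :
    (hpt r r' k x S T).1.1.1.2 j = x.2.2 * frm r r' k x S T j * x.2.2⁻¹ := by
  rw [hpt_ch, cmat, frm]
  split_ifs with h1 h2 h2
  · exact absurd (congrArg Fin.val (h1.symm.trans h2)) hm.ne
  · subst h1
    simp only [hyb, Fin.val_zero, Nat.zero_le, if_true, h0, nmat, ne_eq, not_true, false_and,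
      dif_neg, not_false_iff, add_zero, diagonal_one, mul_one]
    rw [hS_cancel hr (add_neg_cancel S), mul_one, mul_nonsing_inv _ hg.isUnit]
  · simp only [mul_assoc]
    rw [mul_nonsing_inv _ hg.isUnit, mul_one, mul_nonsing_inv_cancel_left _ _ hg.isUnit]
  · rfl

lemma frm_tri (hr : r'.1 = r.1 + 1) {k : ℕ} (hk : k < m) {x : (gsh cc d n m).X F} (S : F)
    (T : Mid m × UpN n → F) (hg : x.2.2.det ≠ 0) {t : F} (h1 : ∀ i, x.1.1.2 (Fin.last m) i = t)
    (h2 : SU Fin.val (x.2.2⁻¹ * (x.2.1 - diagonal fun _ => t) * x.2.2)) (j : Fin (m + 1)) :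
    Tri (trf r r' (j.1 ≤ k) S (frm r r' k x S T j)) ∧
      (∀ i, trf r r' (j.1 ≤ k) S (frm r r' k x S T j) i i =
        x.1.1.2 j (if j.1 ≤ k then Equiv.swap r r' i else i)) ∧
      alf r r' x S T j =
        x.1.1.2 j r' - x.1.1.2 j r - S * trf r r' (j.1 ≤ k) S (frm r r' k x S T j) r r' := by
  rw [frm, alf]
  split_ifs with h h3
  · exact absurd (h ▸ h3 : (Fin.last m).1 ≤ k) hk.not_ge
  · rw [mul_sub, sub_mul, ← smul_one_eq_diagonal, mul_smul_comm, smul_mul_assoc, mul_one,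
      nonsing_inv_mul _ hg.isUnit, smul_one_eq_diagonal] at h2
    subst h
    simp only [trf, if_neg h3, h1, sub_self, zero_sub]
    exact ⟨(su_sub h2).1, (su_sub h2).2, rfl⟩
  all_goals
    have h4 := trf_hyb (c := j.1 ≤ k) (S := S) (q := x.1.1.2 j) hr (su_nmat T j)
    exact ⟨h4.1, by simpa only [*, if_true, if_false] using h4.2.1, by rw [h4.2.2]⟩

end Mat

section Rel

variable {K : Type} [Field K] {M L : Fld K} {R : Rel M L} {n m : ℕ} (r r' : Fin n) {S : M} {S' : L}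
  {A : Matrix (Fin n) (Fin n) M} {A' : Matrix (Fin n) (Fin n) L}

lemma mite (c : Prop) [Decidable c] {B : Matrix (Fin n) (Fin n) M} {B' : Matrix (Fin n) (Fin n) L}
    (h : R.m' A A') (h' : R.m' B B') : R.m' (if c then A else B) (if c then A' else B') := by
  split_ifs
  exacts [h, h']

lemma rel_hS (h : R.r S S') : R.m' (hS r r' S) (hS r r' S') := Rel.madd Rel.mone (Rel.msingle _ _ h)

lemma rel_upp (h : R.m' A A') : R.m' (upp Fin.val A) (upp Fin.val A') :=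
  Rel.mupm _ fun _ => h _ _

lemma rel_nmat {T : Mid m × UpN n → M} {T' : Mid m × UpN n → L} (h : ∀ a, R.r (T a) (T' a))
    (j : Fin (m + 1)) : R.m' (nmat T j) (nmat T' j) := by
  simp only [nmat]
  split_ifs
  exacts [Rel.mupm _ fun _ => h _, Rel.mzero]

lemma rel_hyb (c : Prop) [Decidable c] (h : R.r S S') {q : Fin n → M} {q' : Fin n → L}
    (hq : ∀ i, R.r (q i) (q' i)) (hA : R.m' A A') : R.m' (hyb r r' c S q A) (hyb r r' c S' q' A') :=
  mite c (Rel.mmul (Rel.mmul (rel_hS r r' h) (Rel.madd (Rel.mdiag fun _ => hq _) hA))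
    (rel_hS r r' (Rel.neg h))) (Rel.madd (Rel.mdiag hq)
      (rel_upp (Rel.mmul (Rel.mmul (rel_hS r r' h) hA) (rel_hS r r' (Rel.neg h)))))

lemma rel_trf (c : Prop) [Decidable c] (h : R.r S S') (hA : R.m' A A') :
    R.m' (trf r r' c S A) (trf r r' c S' A') :=
  mite c (Rel.mmul (Rel.mmul (rel_hS r r' (Rel.neg h)) hA) (rel_hS r r' h)) hA

lemma rel_rcv (c : Prop) [Decidable c] (h : R.r S S') (hA : R.m' A A') :
    R.m' (rcv r r' c S A) (rcv r r' c S' A') :=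
  rel_upp (Rel.mmul (Rel.mmul (rel_hS r r' (Rel.neg h)) (mite c hA (rel_upp hA))) (rel_hS r r' h))

variable {cc d : Cd} {r r'}

lemma int (hr : r'.1 = r.1 + 1) (k : ℕ) (O : Pl M) (x : (gsh cc d n m).X M) (S : M)
    (T : Mid m × UpN n → M) {g' : Matrix (Fin n) (Fin n) O.res} (hg : (Rel.ofPl O).m' x.2.2 g')
    (hg' : g'.det ≠ 0) (hS : S ∈ O.O) (h : (tsh cc d n m).all (· ∈ O.O) (hpt r r' k x S T)) :
    (∀ (j : Mid m) i, x.1.1.2 j.1 i ∈ O.O) ∧ ∀ a, T a ∈ O.O := by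
  have h0 := (Rel.ne_zero (Rel.det hg) hg').isUnit
  have h1 : ∀ j : Mid m, ∃ A', (Rel.ofPl O).m'
      (hyb r r' (j.1.1 ≤ k) S (x.1.1.2 j.1) (nmat T j.1)) A' := fun j => by
    have h2 : (Rel.ofPl O).m' ((hpt r r' k x S T).1.1.1.2 j.1)
        (((hpt r r' k x S T).1.1.1.2 j.1).map O.rd) := fun a b => ⟨h.1.1.1.2 j.1 a b, rfl⟩
    obtain ⟨A', h3⟩ : ∃ A', (Rel.ofPl O).m' _ A' := ⟨_, Rel.mmul (Rel.mmul (Rel.minv hg hg') h2) hg⟩
    rw [hpt_ch, cmat_mid j.2, mul_assoc, nonsing_inv_mul_cancel_right _ _ h0,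
      nonsing_inv_mul_cancel_left _ _ h0] at h3
    exact ⟨_, h3⟩
  have h4 : (Rel.ofPl O).r S (O.rd S) := ⟨hS, rfl⟩
  refine ⟨fun j i => ?_, fun a => ?_⟩
  · obtain ⟨A', h5⟩ := h1 j
    have h6 := (rel_trf r r' (j.1.1 ≤ k) h4 h5 (if j.1.1 ≤ k then Equiv.swap r r' i else i)
      (if j.1.1 ≤ k then Equiv.swap r r' i else i)).1
    rw [(trf_hyb hr (su_nmat T _)).2.1] at h6
    split_ifs at h6
    · rwa [Equiv.swap_apply_self] at h6
    · exact h6
  · obtain ⟨A', h5⟩ := h1 a.1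
    have h6 := (rel_rcv r r' (a.1.1.1 ≤ k) h4 h5 a.2.1.1 a.2.1.2).1
    rwa [rcv_hyb hr (su_nmat T _), nmat_apply] at h6

end Rel

variable {K : Type} [Field K] {p n m : ℕ} {cc d : Cd} {r r' : Fin n}

lemma det_frm [G1 K p] (G : GC K p cc d n m) (hr : r'.1 = r.1 + 1) (k : ℕ) {L : Fld K} {x} (S : L)
    (T : Mid m × UpN n → L) (h : G.gS.mem L x) (j : Fin (m + 1)) :
    ((hpt r r' k x S T).1.1.1.2 j).det = ∏ i, x.1.1.2 j i := by
  obtain ⟨z0, z1, -⟩ := G1.zmem G h.1.1.1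
  rw [hpt_ch, cmat]
  split_ifs with h1 h2
  · simp [h1, z0]
  · rw [tri_det (su_sub h.2.1).1, h2]
    exact Finset.prod_congr rfl fun i _ => ((su_sub h.2.1).2 i).trans (z1 i).symm
  · have h4 := trf_hyb (c := j.1 ≤ k) (S := S) (q := x.1.1.2 j) hr (su_nmat T j)
    rw [det_conj ((isUnit_iff_isUnit_det _).2 (Ne.isUnit h.1.2))]
    exact det_hyb hr h4.1 h4.2.1

lemma mem [G1 K p] (G : GC K p cc d n m) (hr : r'.1 = r.1 + 1) (k : Fin m) {L : Fld K} {x} (S : L)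
    (T : Mid m × UpN n → L) (h : G.gS.mem L x) :
    (((zd G.C G.t n G.s G.e).Ch m).kum G.N).S.mem L (hpt r r' k x S T).1.1 ∧
      (((zd G.C G.t n G.s G.e).Ch m).kum G.N).φ L (hpt r r' k x S T).1.1 -
        (x.1.2.1.2 ^ p - x.1.2.1.2) =
        cfu r r' G.s x k * (alf r r' x S T k.castSucc * alf r r' x S T k.succ) := by
  obtain ⟨z0, z1, z2⟩ := G1.zmem G h.1.1.1
  have hz := h.1.1.1.2.1
  have h1 := det_frm G hr k S T h
  have h2 := hpt_last (r := r) (r' := r') G.hm k x S T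
  refine ⟨⟨⟨⟨⟨⟨hz.1.1.1.1.1.1.1, trivial⟩, fun j => (h1 j).trans_ne
    (Finset.prod_ne_zero_iff.2 fun i _ => z2 j i)⟩, rfl, fun j hj => ?_,
    fun j hj => absurd j.2 (by omega), fun i => (congrFun₂ h2 i i).trans ((su_sub h.2.1).2 i)⟩,
    trivial⟩, hz.1.1.2.trans (congrArg (G.C.g L x.1.1.1 * ·) (Finset.prod_congr rfl fun j _ =>
      congrArg (· ^ G.e j) (det_stp _ (det_diagonal.trans (h1 _).symm)
        (det_diagonal.trans (h1 _).symm))))⟩, ?_⟩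
  · obtain rfl : j = Fin.last m := Fin.last_le_iff.1 hj
    exact h2 ▸ (su_sub h.2.1).1
  have h3 := frm_tri hr k.2 S T h.1.2 z1 h.2.2
  have h4 : ∀ j : Fin (m + 1), (trf r r' (j.1 ≤ k) S (frm r r' k x S T j)).det ≠ 0 := fun j => by
    rw [tri_det (h3 j).1]
    exact Finset.prod_ne_zero_iff.2 fun i _ => ((h3 j).2.1 i).trans_ne (z2 _ _)
  have h5 : ∀ j : Fin (m + 1), j.1 ≤ k → frm r r' k x S T j =
      hS r r' S * trf r r' (j.1 ≤ k) S (frm r r' k x S T j) * hS r r' (-S) := fun j hj => by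
    rw [trf, if_pos hj, cj_cj hr (add_neg_cancel S)]
  have h6 : ∀ j : Fin (m + 1), ¬ j.1 ≤ k → frm r r' k x S T j =
      trf r r' (j.1 ≤ k) S (frm r r' k x S T j) := fun j hj => (if_neg hj).symm
  have h7 : ∀ j : Fin (m + 1), (trf r r' (j.1 ≤ k) S (frm r r' k x S T j)).diag =
      fun i => x.1.1.2 j (if j.1 ≤ k then Equiv.swap r r' i else i) := fun j => funext (h3 j).2.1
  have h8 : ∀ j : Fin m, cond (G.s j) 1 (-1) * (stp (G.s j) ((hpt r r' k x S T).1.1.1.2 j.castSucc)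
      ((hpt r r' k x S T).1.1.1.2 j.succ)).trace = cond (G.s j) 1 (-1) *
      (stp (G.s j) (diagonal (x.1.1.2 j.castSucc)) (diagonal (x.1.1.2 j.succ))).trace +
      if j = k then cfu r r' G.s x k * (alf r r' x S T k.castSucc * alf r r' x S T k.succ)
      else 0 := fun j => by
    rw [hpt_frm hr G.hm k S T h.1.2 z0, hpt_frm hr G.hm k S T h.1.2 z0,
      tr_conj _ (nonsing_inv_mul _ (Ne.isUnit h.1.2)), tr_diag _ (z2 _) (z2 _)]
    rcases lt_trichotomy j k with e | rfl | e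
    · have e1 : j.castSucc.1 ≤ k := e.le
      have e2 : j.succ.1 ≤ k := e
      rw [if_neg e.ne, add_zero, h5 _ e1, h5 _ e2, tr_conj _ (hS_cancel hr (neg_add_cancel S)),
        tr_tri _ (h3 _).1 (h3 _).1 (h4 _) (h4 _), h7, h7]
      simp only [if_pos e1, if_pos e2, tv_swap]
    · have e1 : j.castSucc.1 ≤ j := le_rfl
      have e2 : ¬ j.succ.1 ≤ j := Nat.not_succ_le_self _
      rw [if_pos rfl, h5 _ e1, h6 _ e2, tr_hyb hr _ (h3 _).1 (h3 _).1 (h4 _) (h4 _), h7,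
        (h3 _).2.2, (h3 _).2.2]
      simp only [(h3 _).2.1, if_pos e1, if_neg e2, Equiv.swap_apply_self, Equiv.swap_apply_left,
        Equiv.swap_apply_right, cfu]
    · have e1 : ¬ j.castSucc.1 ≤ k := not_le.2 e
      have e2 : ¬ j.succ.1 ≤ k := fun e' => e1 (Nat.le_of_succ_le e')
      rw [if_neg e.ne', add_zero, h6 _ e1, h6 _ e2, tr_tri _ (h3 _).1 (h3 _).1 (h4 _) (h4 _), h7, h7]
      simp only [if_neg e1, if_neg e2]
  refine (congrArg₂ (· - ·) (congrArg (G.C.φ L x.1.1.1 + ·)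
    (Finset.sum_congr rfl fun j _ => h8 j)) hz.2).trans ?_
  rw [Finset.sum_add_distrib, Finset.sum_ite_eq' _ k, if_pos (Finset.mem_univ _), ← add_assoc]
  exact add_sub_cancel_left _ _

lemma red [G1 K p] (G : GC K p cc d n m) (hr : r'.1 = r.1 + 1) (k : ℕ) {M : Fld K} (O : Pl M)
    {x : (gsh cc d n m).X M} (S : M) (T : Mid m × UpN n → M) {g' : Matrix (Fin n) (Fin n) O.res}
    {u : (tsh cc d n m).X O.res} (h : G.gS.mem M x) (hg : (Rel.ofPl O).m' x.2.2 g')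
    (hg' : g'.det ≠ 0) (hS : S ∈ O.O) (e : (tsh cc d n m).lift (Rel.ofPl O).r (hpt r r' k x S T) u)
    (hu : (G.tt m).mem O.res u) :
    ∃ x', G.gS.mem O.res x' ∧ (gsh cc d n m).lift (Rel.ofPl O).r x x' := by
  obtain ⟨z0, z1, -⟩ := G1.zmem G h.1.1.1
  have h1 := (int hr k O x S T hg hg' hS ((Cd.lift_pl O).1 e).1).1
  have h2 : ∀ j i, (Rel.ofPl O).r (x.1.1.2 j i) (O.rd (x.1.1.2 j i)) := fun j i => ⟨by
    by_cases e1 : j = 0
    · rw [e1, z0]; exact one_mem _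
    by_cases e2 : j = Fin.last m
    · rw [e2, z1]; exact O.const _
    exact h1 ⟨j, e1, e2⟩ i, rfl⟩
  have h3 : (Rel.ofPl O).m' x.2.1 (u.1.1.1.2 (Fin.last m)) :=
    hpt_last (r := r) (r' := r') G.hm k x S T ▸ e.1.1.1.2 (Fin.last m)
  have h4 : (chs cc (Fin n) m).lift (Rel.ofPl O).r (x.1.1.1, fun j => diagonal (x.1.1.2 j))
      (u.1.1.1.1, fun j => diagonal fun i => O.rd (x.1.1.2 j i)) :=
    ⟨e.1.1.1.1, fun j => Rel.mdiag (h2 j)⟩
  have hz := h.1.1.1.2.1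
  have h5 : ((zd G.C G.t n G.s G.e).Ch 0).S.mem O.res
      (u.1.1.1.1, fun j => diagonal fun i => O.rd (x.1.1.2 j i)) := by
    refine ⟨⟨⟨hu.1.1.1.1.1.1.1.1, trivial⟩, fun j => ?_⟩,
      Rel.meq (h4.2 0) Rel.mone hz.1.1.1.1.2.1, fun j _ => blockTriangular_diagonal _,
      fun j _ => isDiag_diagonal _,
      fun i => Rel.eq (h4.2 _ i i) (Rel.const _ _) (hz.1.1.1.1.2.2.2.2 i)⟩
    exact (Rel.eq (Rel.det (h4.2 j)) (Rel.det (e.1.1.1.2 j))
      (det_diagonal.trans (det_frm G hr k S T h j).symm)).trans_ne (hu.1.1.1.1.1.1.2 j)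
  have h6 : (((zd G.C G.t n G.s G.e).Ch 0).kum G.N).S.mem O.res
      ((u.1.1.1.1, fun j => diagonal fun i => O.rd (x.1.1.2 j i)), u.1.1.2) :=
    ⟨⟨h5, trivial⟩, Rel.eq (Rel.pow e.1.1.2 _)
      (((zd G.C G.t n G.s G.e).Ch 0).rg _ hz.1.1.1.1 h5 h4) hz.1.1.2⟩
  have h7 := Rel.msub h3 (Rel.mdiag fun _ => (Rel.ofPl O).const G.t)
  exact ⟨(((u.1.1.1.1, fun j i => O.rd (x.1.1.2 j i)), (u.1.1.2, u.1.2), u.2),
    u.1.1.1.2 (Fin.last m), g'), ⟨⟨⟨⟨trivial, ⟨⟨h6, trivial⟩,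
      Rel.eq (Rel.sub (Rel.pow e.1.2 p) e.1.2) ((((zd G.C G.t n G.s G.e).Ch 0).kum G.N).reg _
        hz.1.1 h6 ⟨h4, e.1.1.2⟩) hz.2⟩, hu.2⟩, trivial⟩, hg'⟩, Rel.su h7 h.2.1,
      Rel.su (Rel.mmul (Rel.mmul (Rel.minv hg hg') h7) hg) h.2.2⟩,
    ⟨⟨e.1.1.1.1, h2⟩, ⟨e.1.1.2, e.1.2⟩, e.2⟩, h3, hg⟩

lemma refr [FA1 K] (hr : r'.1 = r.1 + 1) (k : ℕ) {i : ℕ} {L M : Fld K} {α : L →ₐ[K] M}
    (x : (gsh cc d n m).X L) {b : Matrix (Fin n) (Fin n) L} {T : Option (Mid m × UpN n) → M}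
    (hb : Bor b) (hT : Free i α T) :
    ∃ T' : Option (Mid m × UpN n) → M, Free i α T' ∧
      T' none = T none * α (b r r) / (α (b r' r') - T none * α (b r r')) ∧
      hpt r r' k ((gsh cc d n m).map α x) (T none) (fun a => T (some a)) =
        hpt r r' k ((gsh cc d n m).map α (gmul x b)) (T' none) fun a => T' (some a) := by
  have t1 : Tri (b.map α) := fun a c e => (congrArg α (hb.1 e)).trans (map_zero α)
  have d1 : (b.map α).det ≠ 0 := by
    rw [show (b.map α).det = α b.det from (α.toRingHom.map_det b).symm]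
    exact (map_ne_zero α).2 hb.2
  have n1 : α (b r r) ≠ 0 := tri_ne t1 d1 r
  have n2 : α (b r' r') ≠ 0 := tri_ne t1 d1 r'
  set S := T none with hS0
  have n3 : α (b r' r') - S * α (b r r') ≠ 0 := fun e => by
    by_cases h : b r r' = 0
    · exact n2 (by simpa [h] using e)
    · refine (FA1.trans hT none).ne (b r' r' / b r r') ?_
      rw [map_div₀, eq_div_iff ((map_ne_zero α).2 h)]
      exact (sub_eq_zero.1 e).symm
  set S' := S * α (b r r) / (α (b r' r') - S * α (b r r')) with hS'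
  have t2 : Tri (hS r r' (-S) * b.map α * hS r r' S') := cj_tri hr t1 (by
    simp only [map_apply, hS', neg_mul, ← sub_eq_add_neg]
    rw [mul_div_cancel₀ _ n3, neg_add_cancel])
  have d2 : (hS r r' (-S) * b.map α * hS r r' S').det ≠ 0 := by
    rwa [det_mul, det_mul, hS_det hr, hS_det hr, one_mul, mul_one]
  let A : Fin (m + 1) → Matrix (Fin n) (Fin n) M := fun j =>
    hyb r r' (j.1 ≤ k) S (fun a => α (x.1.1.2 j a)) (nmat (fun a => T (some a)) j)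
  let N : Fin (m + 1) → Matrix (Fin n) (Fin n) M := fun j =>
    rcv r r' (j.1 ≤ k) S' ((b.map α)⁻¹ * A j * b.map α)
  have h1 : ∀ j, hyb r r' (j.1 ≤ k) S' (fun a => α (x.1.1.2 j a)) (N j) =
      (b.map α)⁻¹ * A j * b.map α := fun j => by
    have h2 := trf_hyb (c := j.1 ≤ k) (S := S) (q := fun a => α (x.1.1.2 j a)) hr
      (su_nmat (fun a => T (some a)) j)
    have h3 : ∃ c, Tri c ∧ c.det ≠ 0 ∧ trf r r' (j.1 ≤ k) S' ((b.map α)⁻¹ * A j * b.map α) =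
        c⁻¹ * trf r r' (j.1 ≤ k) S (A j) * c := by
      simp only [trf]
      split_ifs
      · refine ⟨_, t2, d2, ?_⟩
        rw [Matrix.mul_inv_rev, Matrix.mul_inv_rev,
          inv_eq_left_inv (hS_cancel hr (add_neg_cancel S)),
          inv_eq_left_inv (hS_cancel hr (neg_add_cancel S'))]
        simp only [mul_assoc]
        rw [← mul_assoc (hS r r' S) (hS r r' (-S)), ← mul_assoc (hS r r' S) (hS r r' (-S)),
          hS_cancel hr (add_neg_cancel S), one_mul, one_mul]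
      · exact ⟨_, t1, d1, rfl⟩
    obtain ⟨c, c1, c2, c3⟩ := h3
    exact hyb_rcv hr (c3 ▸ (tri_conj c1 c2 h2.1).1) fun a => by
      rw [c3, (tri_conj c1 c2 h2.1).2, h2.2.1]
  have h2 : ∀ j, j ≠ 0 ∧ j ≠ Fin.last m →
      nmat (fun a => N a.1.1 a.2.1.1 a.2.1.2) j = N j := fun j hj =>
    (nmat_of N hj).trans (upp_su su_upp)
  have h3 : ∀ j, A j = b.map α * ((b.map α)⁻¹ * A j * b.map α) * (b.map α)⁻¹ := fun j => by
    rw [← mul_assoc, mul_nonsing_inv_cancel_right _ _ d1.isUnit,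
      mul_nonsing_inv_cancel_left _ _ d1.isUnit]
  refine ⟨fun o => o.elim S' fun a => N a.1.1 a.2.1.1 a.2.1.2, FA1.of_gen hT rfl ?_, rfl, ?_⟩
  · set E := gen α fun o : Option (Mid m × UpN n) => o.elim S' fun a => N a.1.1 a.2.1.1 a.2.1.2
    have g1 : ∀ a, (Rel.ofSub E).r (α a) (α a) := fun a =>
      ⟨IntermediateField.subset_adjoin _ _ (Or.inl ⟨a, rfl⟩), rfl⟩
    have g2 : (Rel.ofSub E).r S' S' := ⟨IntermediateField.subset_adjoin _ _ (Or.inr ⟨none, rfl⟩), rfl⟩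
    have g3 : (Rel.ofSub E).r S S := by
      have e1 : α (b r r) + S' * α (b r r') =
          α (b r r) * α (b r' r') / (α (b r' r') - S * α (b r r')) := by
        rw [hS']
        field_simp
        ring
      have e : S = S' * α (b r' r') / (α (b r r) + S' * α (b r r')) := by
        rw [e1, hS']
        field_simp
      rw [e]
      exact Rel.div (Rel.mul _ g2 (g1 _)) (Rel.add _ (g1 _) (Rel.mul _ g2 (g1 _)))
        (e1 ▸ div_ne_zero (mul_ne_zero n1 n2) n3)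
    have g4 : (Rel.ofSub E).m' (b.map α) (b.map α) := fun _ _ => g1 _
    rintro (_ | a)
    · exact g3.1
    have g5 := rel_nmat (R := Rel.ofSub E) (T := fun a => N a.1.1 a.2.1.1 a.2.1.2)
      (fun a => ⟨IntermediateField.subset_adjoin _ _ (Or.inr ⟨some a, rfl⟩), rfl⟩) a.1.1
    have g6 := rel_hyb r r' (a.1.1.1 ≤ k) g2 (fun c => g1 (x.1.1.2 a.1.1 c)) g5
    have g7 := Rel.mmul (Rel.mmul g4 g6) (Rel.minv g4 d1)
    rw [h2 _ a.1.2, h1, ← h3] at g7
    have g8 := (rel_rcv r r' (a.1.1.1 ≤ k) g3 g7 a.2.1.1 a.2.1.2).1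
    rwa [rcv_hyb hr (su_nmat _ _), nmat_apply] at g8
  · rw [hpt_eq, hpt_eq]
    refine congrArg (zpt ((zsh cc d n m).map α x.1)) (cmat_congr (μ := x.2.1.map α) fun j hj => ?_)
    show x.2.2.map α * A j * (x.2.2.map α)⁻¹ = (x.2.2 * b).map α * hyb r r' (j.1 ≤ k) S'
      (fun a => α (x.1.1.2 j a)) (nmat (fun a => N a.1.1 a.2.1.1 a.2.1.2) j) * ((x.2.2 * b).map α)⁻¹
    rw [h2 j hj, h1, Matrix.map_mul, Matrix.mul_inv_rev]
    simp only [mul_assoc, mul_nonsing_inv_cancel_left _ _ d1.isUnit]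

end R2A

open R2A in
theorem R2a_thm {K : Type} [Field K] {p : ℕ} [FA1 K] [G1 K p] : R2a K p where
  mem G _ _ := mem G
  agree {cc d n m r r'} hr j L x S T h := by
    rw [hpt_eq, hpt_eq]
    refine congrArg (zpt x.1) (cmat_congr fun a ha => ?_)
    by_cases e : a = j
    · subst e
      have h1 : ¬ a.1 ≤ a.1 - 1 := by
        have : a.1 ≠ 0 := fun e => ha.1 (Fin.ext e)
        omega
      rw [alf, if_neg ha.2] at h
      have h2 := hyb_agree hr (su_nmat T a) h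
      simp only [hyb, le_rfl, h1, if_true, if_false] at h2 ⊢
      rw [h2]
    · have h1 : a.1 ≤ j.1 ↔ a.1 ≤ j.1 - 1 := by
        have := Fin.val_ne_of_ne e
        omega
      simp only [hyb, h1]
  zero {cc d n m r r'} hr L x S T := by
    have h1 : ∀ j, j ≠ 0 ∧ j ≠ Fin.last m → nmat (shT r r' S T) j =
        upp Fin.val (hS r r' S * nmat T j * hS r r' (-S)) := fun j hj => dif_pos hj
    refine ⟨congrArg (zpt x.1) (cmat_congr fun j hj => ?_), funext fun a => ?_, fun j => ?_⟩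
    · rw [if_neg fun e => hj.1 (Fin.ext (Nat.le_zero.1 e)), h1 j hj]
    · have h2 := congrFun₂ (upp_cj hr (add_neg_cancel S) (nmat T a.1.1)) a.2.1.1 a.2.1.2
      have h3 : a.2.1.1 < a.2.1.2 := a.2.2
      rw [upp_apply, upp_apply, if_pos h3, if_pos h3, nmat_apply] at h2
      rw [shT, h1 _ a.1.2, neg_neg, h2]
    · by_cases hj : j ≠ 0 ∧ j ≠ Fin.last m
      · rw [h1 j hj, upp_apply, if_pos (Fin.lt_def.2 (by omega)), cj_adj hr]
      · rw [nmat, nmat, dif_neg hj, dif_neg hj]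
  last {cc d n m r r'} hr L x S T := congrArg (zpt x.1) (cmat_congr (μ := x.2.1)
      (g' := x.2.2 * hS r r' S) fun j hj => by
    have h1 : j.1 ≤ m - 1 := by
      have := Fin.val_lt_last hj.2
      omega
    rw [if_pos h1, Matrix.mul_inv_rev, inv_eq_right_inv (hS_cancel hr (add_neg_cancel S))]
    simp only [mul_assoc]
    rfl)
  refr := refr
  rel {cc d n m} r r' M L R x x' S S' T T' e h hS hT := by
    have h1 : R.r (nu r r' x) (nu r r' x') :=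
      Rel.mmul (Rel.mmul (Rel.minv e.2.2 h) e.2.1) e.2.2 r r'
    exact ⟨fun k => ⟨⟨⟨⟨e.1.1.1, fun j => mite _ Rel.mone (mite _ e.2.1 (Rel.mmul (Rel.mmul e.2.2
      (rel_hyb r r' _ hS (e.1.1.2 j) (rel_nmat hT j))) (Rel.minv e.2.2 h)))⟩, e.1.2.1.1⟩,
      e.1.2.1.2⟩, e.1.2.2⟩, fun j => Rel.ite _ (Rel.neg (R.mul hS h1))
      (Rel.sub (Rel.sub (e.1.1.2 j _) (e.1.1.2 j _)) (R.mul hS (rel_nmat hT j _ _))), h1,
      fun a => Rel.mmul (Rel.mmul (rel_hS r r' hS) (rel_nmat hT _)) (rel_hS r r' (Rel.neg hS)) _ _⟩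
  int hr k _ := int hr k
  red G _ _ := red G

end Pool.Agent.Lib.MP_557161_ag.HG
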