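import Pool.Agent.Lib.MP_557161_ag.HG.St2

/-!
Tori whose exponents come in dual pairs.
-/

namespace Pool.Agent.Lib.MP_557161_ag.HG

open Pool.Agent.Lib.MP_557161_ag.DL Sum

namespace Tv

variable {K : Type} [Field K] {H P F κ I : Type}

/-- Coordinates in which a hyperbolic form is a sum of squares. -/
def zz (j : K) (L : Fld K) (y : (H ⊕ P → L) × (H ⊕ P → L)) : H ⊕ H → L :=
  Sum.elim (fun a => (y.2 (inl a) + y.1 (inl a)) * algebraMap K L 2⁻¹)
    fun a => (y.1 (inl a) - y.2 (inl a)) * algebraMap K L (j * 2⁻¹)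

lemma zz_rel (j : K) {M L : Fld K} {R : Rel M L} {y : (H ⊕ P → M) × (H ⊕ P → M)}
    {y' : (H ⊕ P → L) × (H ⊕ P → L)} (h1 : ∀ s, R.r (y.1 s) (y'.1 s))
    (h2 : ∀ s, R.r (y.2 s) (y'.2 s)) (t : H ⊕ H) : R.r (zz j M y t) (zz j L y' t) := by
  cases t
  exacts [R.mul (R.add (h2 _) (h1 _)) (R.const _), R.mul (Rel.sub (h1 _) (h2 _)) (R.const _)]

section
variable (h2 : (2 : K) ≠ 0) {j : K} (hj : j ^ 2 = -1) (L : Fld K)
include h2 hj

lemma cst : algebraMap K L j ^ 2 = -1 ∧ 2 * algebraMap K L 2⁻¹ = 1 :=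
  ⟨by rw [← map_pow, hj, map_neg, map_one],
    by rw [← map_ofNat (algebraMap K L) 2, ← map_mul, mul_inv_cancel₀ h2, map_one]⟩

lemma zz_inv (y : (H ⊕ P → L) × (H ⊕ P → L)) (a : H) :
    y.1 (inl a) = zz j L y (inl a) - algebraMap K L j * zz j L y (inr a) ∧
    y.2 (inl a) = zz j L y (inl a) + algebraMap K L j * zz j L y (inr a) ∧
    zz j L y (inl a) ^ 2 + zz j L y (inr a) ^ 2 = y.2 (inl a) * y.1 (inl a) := by
  obtain ⟨e1, e2⟩ := cst h2 hj L
  simp only [zz, elim_inl, elim_inr, map_mul]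
  generalize algebraMap K L j = J at *
  generalize algebraMap K L 2⁻¹ = c at *
  generalize y.1 (inl a) = u
  generalize y.2 (inl a) = v
  exact ⟨by linear_combination (u - v) * c * e1 - u * e2,
    by linear_combination (v - u) * c * e1 - v * e2,
    by linear_combination (u - v) ^ 2 * c ^ 2 * e1 + u * v * (2 * c + 1) * e2⟩

lemma zz_mk (Z : H ⊕ H → L) (u v : P → L) : ∃ y : (H ⊕ P → L) × (H ⊕ P → L), zz j L y = Z ∧
    (∀ i, y.1 (inr i) = u i) ∧ ∀ i, y.2 (inr i) = v i := by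
  obtain ⟨e1, e2⟩ := cst h2 hj L
  refine ⟨(Sum.elim (fun a => Z (inl a) - algebraMap K L j * Z (inr a)) u,
    Sum.elim (fun a => Z (inl a) + algebraMap K L j * Z (inr a)) v), ?_, fun _ => rfl, fun _ => rfl⟩
  funext t
  cases t <;> simp only [zz, elim_inl, elim_inr, map_mul]
  · linear_combination Z (inl _) * e2
  · linear_combination -(2 * Z (inr _) * algebraMap K L 2⁻¹) * e1 + Z (inr _) * e2

end

variable [Fintype H] [Fintype P] [Fintype F] [Fintype κ] [Fintype I]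

/-- The base space. -/
noncomputable def bs (H : Type) [Fintype H] (a : K) (ha : a ≠ 0) (e : P → ℕ) :
    EqD K (.vec (H ⊕ P)) where
  S := (ASp.univ K _).opn (fun _ y => ∀ i, y (inr i) ≠ 0)
    fun _ _ _ _ _ _ _ e h i => Rel.ne_zero (e _) (h i)
  φ _ _ := 0
  reg _ _ R _ _ _ _ _ := R.zero
  g L y := algebraMap K L a * ∏ i, y (inr i) ^ e i
  rg _ _ R _ _ _ _ e := R.mul (R.const a) (Rel.prod _ fun _ _ => Rel.pow (e _) _)
  ne _ _ h := mul_ne_zero ((map_ne_zero _).2 ha)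
    (Finset.prod_ne_zero_iff.2 fun i _ => pow_ne_zero _ (h.2 i))

/-- The equations of the critical point. -/
def eqn (L : Fld K) (y : H ⊕ P → L) : H ⊕ P → L :=
  Sum.elim (fun a => y (inl a)) fun i => y (inr i) + 1

lemma eqn_reg (S : ASp K (.vec (H ⊕ P))) : Reg S (.vec (H ⊕ P)) eqn := fun _ _ R _ _ _ _ e s => by
  cases s
  exacts [e _, R.add (e _) R.one]

/-- The open part of the linear space. -/
noncomputable def us (j a : K) (ha : a ≠ 0) (e : P → ℕ) (σ : F ⊕ κ ≃ H ⊕ H) :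
    EqD K ((Cd.vec (H ⊕ P)).prod (.vec (H ⊕ P))) :=
  ((bs H a ha e).lin eqn (eqn_reg _)).res (((bs H a ha e).lin eqn (eqn_reg _)).S.opn
    (fun L y => (∀ i, zz j L y (σ (inl i)) ≠ 0) ∧ ∀ i, y.2 (inr i) ≠ 0)
    fun _ _ _ _ _ _ _ e h => ⟨fun i => Rel.ne_zero (zz_rel j e.1 e.2 _) (h.1 i),
      fun i => Rel.ne_zero (e.2 _) (h.2 i)⟩) fun _ _ h => h.1

variable {p : ℕ} [FC7 K p] {N : ℕ} {d : Cd} (W : ASp K d)

omit [Fintype F] [Fintype κ] in
lemma van_us (hN : 0 < N) (j a : K) (ha : a ≠ 0) (e : P → ℕ) (σ : F ⊕ κ ≃ H ⊕ H) :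
    EVan p N (us j a ha e σ) W := by
  refine FC7.opn (E := (bs H a ha e).lin eqn (eqn_reg _)) (fun _ _ h => ⟨h.1, rfl, rfl⟩)
    (fun _ _ _ _ h h' e => ⟨h, fun i => Rel.ne_zero (zz_rel j e.1 e.2 _) (h'.2.1 i),
      fun i => Rel.ne_zero (e.2 _) (h'.2.2 i)⟩)
    ((FC7.lin _ _).2 (FC7.pt hN fun L y h => ⟨⊥, fun s => ?_, ?_⟩))
  · have := h.2 s
    cases s with
    | inl a => exact (show y (inl a) = 0 from this) ▸ zero_mem _
    | inr i => exact eq_neg_of_add_eq_zero_left (show y (inr i) + 1 = 0 from this) ▸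
        neg_mem (one_mem _)
  · exact (trdeg_eq_zero (R := K) (A := (⊥ : IntermediateField K L))).le.trans (by simp)

/-- The torus coordinates. -/
def wt (j : K) (σ : F ⊕ κ ≃ H ⊕ H) (L : Fld K) (y : (H ⊕ P → L) × (H ⊕ P → L)) :
    F ⊕ P ⊕ P → L :=
  Sum.elim (fun i => zz j L y (σ (inl i)) ^ 2)
    (Sum.elim (fun i => y.1 (inr i) * y.2 (inr i)) fun i => y.2 (inr i))

theorem core [IsAlgClosed K] (h2 : (2 : K) ≠ 0) (hN : 0 < N) (E : I → ℕ) (ρ : F ⊕ P ⊕ P ≃ I)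
    (σ : F ⊕ κ ≃ H ⊕ H) (hF : ∀ i, N ∣ E (ρ (inl i)) + E (ρ (inl i)))
    (hP : ∀ i, N ∣ E (ρ (inr (inl i))) + E (ρ (inr (inr i)))) (C : EqD K (.vec κ))
    (hS : ∀ L x, C.S.mem L x) (hφ : ∀ L x, C.φ L x = -∑ i, x i ^ 2) {a : K}
    (hg : ∀ L x, C.g L x = algebraMap K L a) : EVan p N (tor C E) W := by
  obtain ⟨j, hj⟩ := IsAlgClosed.exists_pow_nat_eq (-1 : K) two_pos
  have ha : a ≠ 0 := by simpa [hg] using C.ne (.base K) 0 (hS _ _)
  choose c hc using hF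
  choose c' hc' using hP
  refine FC7.img hN (E' := us j a ha (fun i => E (ρ (inr (inl i)))) σ)
    (f := fun L y => (fun k => algebraMap K L j * zz j L y (σ (inr k)),
      fun i => wt j σ L y (ρ.symm i)))
    (h := fun L y => (∏ i, zz j L y (σ (inl i)) ^ c i) * ∏ i, y.2 (inr i) ^ c' i)
    ⟨⟨⟨fun M L R y y' _ _ e => ⟨fun k => R.mul (R.const j) (zz_rel j e.1 e.2 _), fun i => ?_⟩,
      fun L y h => ⟨hS _ _, trivial, fun i => ?_⟩⟩, fun L y _ => ?_⟩,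
      fun M L R y y' _ _ e => R.mul (Rel.prod _ fun i _ => Rel.pow (zz_rel j e.1 e.2 _) _)
        (Rel.prod _ fun i _ => Rel.pow (e.2 _) _), fun L y _ => ?_⟩ ?_ ?_ (van_us W hN j a ha _ σ)
  · show R.r (wt j σ M y (ρ.symm i)) (wt j σ L y' (ρ.symm i))
    rcases ρ.symm i with i | i | i
    exacts [Rel.pow (zz_rel j e.1 e.2 _) 2, R.mul (e.1 _) (e.2 _), e.2 _]
  · show wt j σ L y (ρ.symm i) ≠ 0
    rcases ρ.symm i with i | i | i
    exacts [pow_ne_zero 2 (h.2.1 i), mul_ne_zero (h.1.1.2 i) (h.2.2 i), h.2.2 i]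
  · show C.φ L _ + ∑ i, wt j σ L y (ρ.symm i) = 0 + ∑ s, y.2 s * eqn L y.1 s
    have e1 := σ.sum_comp fun t => zz j L y t ^ 2
    rw [Fintype.sum_sum_type, Fintype.sum_sum_type, ← Finset.sum_add_distrib,
      Finset.sum_congr rfl fun a _ => (zz_inv h2 hj L y a).2.2] at e1
    rw [hφ, ρ.symm.sum_comp (wt j σ L y)]
    simp only [Fintype.sum_sum_type, wt, eqn, elim_inl, elim_inr, mul_pow, (cst h2 hj L).1, mul_add,
      Finset.sum_add_distrib, neg_one_mul, Finset.sum_neg_distrib, mul_one, mul_comm (y.1 _)]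
    linear_combination e1
  · show C.g L _ * ∏ i, wt j σ L y (ρ.symm i) ^ E i =
      (algebraMap K L a * ∏ i, y.1 (inr i) ^ E (ρ (inr (inl i)))) * _
    rw [hg, ← ρ.prod_comp]
    simp only [Fintype.prod_sum_type, wt, elim_inl, elim_inr, Equiv.symm_apply_apply, mul_pow,
      ← Finset.prod_pow, ← pow_mul, mul_comm _ N, ← hc, ← hc', two_mul, pow_add,
      Finset.prod_mul_distrib]
    ring
  · rintro M O y ⟨x', w'⟩ - hy hz ⟨e1, e2⟩
    have e3 : ∀ s, (Rel.ofPl O).r (wt j σ M y s) (w' (ρ s)) := fun s => by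
      simpa only [Equiv.symm_apply_apply] using e2 (ρ s)
    have e4 : ∀ i, (Rel.ofPl O).r (y.1 (inr i)) (w' (ρ (inr (inl i))) / w' (ρ (inr (inr i)))) :=
      fun i => mul_div_cancel_right₀ (y.1 (inr i)) (hy.2.2 i) ▸
        Rel.div (e3 (inr (inl i))) (e3 (inr (inr i))) (hz.2.2 _)
    have e5 : ∀ t, zz j M y t ∈ O.O := fun t => by
      obtain ⟨s | s, rfl⟩ := σ.surjective t
      · refine (O.O.mem_or_inv_mem _).elim id fun h => ?_
        simpa [wt, pow_two, hy.2.1 s] using mul_mem (e3 (inl s)).1 h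
      · have := neg_mem (mul_mem (O.const j) (e1 s).1)
        rwa [← mul_assoc, ← pow_two, (cst h2 hj M).1, neg_one_mul, neg_neg] at this
    have e6 : ∀ s, (Rel.ofPl O).r (y.1 s) (O.rd (y.1 s)) := fun s => ⟨by
      cases s with
      | inl a => exact (zz_inv h2 hj M y a).1 ▸ sub_mem (e5 _) (mul_mem (O.const j) (e5 _))
      | inr i => exact (e4 i).1, rfl⟩
    have e7 : ∀ s, (Rel.ofPl O).r (y.2 s) (O.rd (y.2 s)) := fun s => ⟨by
      cases s with
      | inl a => exact (zz_inv h2 hj M y a).2.1 ▸ add_mem (e5 _) (mul_mem (O.const j) (e5 _))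
      | inr i => exact (e3 (inr (inr i))).1, rfl⟩
    refine ⟨(fun s => O.rd (y.1 s), fun s => O.rd (y.2 s)), ⟨⟨⟨trivial, fun i => ?_⟩, trivial⟩,
      fun i h => hz.2.2 (ρ (inl i)) ?_, fun i => ?_⟩, e6, e7⟩
    · exact (e4 i).2.trans_ne (div_ne_zero (hz.2.2 _) (hz.2.2 _))
    · exact (Rel.eq (e3 (inl i)) (Rel.pow (zz_rel j e6 e7 _) 2) rfl).trans (by rw [h]; simp)
    · exact (e3 (inr (inr i))).2.trans_ne (hz.2.2 _)
  · rintro L _ ⟨x, w⟩ hz
    choose u hu using fun i => IsAlgClosed.exists_pow_nat_eq (w (ρ (inl i))) two_pos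
    obtain ⟨y, e, e1, e2⟩ := zz_mk h2 hj L
      (fun t => Sum.elim u (fun k => -(algebraMap K L j * x k)) (σ.symm t))
      (fun i => w (ρ (inr (inl i))) / w (ρ (inr (inr i)))) fun i => w (ρ (inr (inr i)))
    refine ⟨y, ⟨⟨⟨trivial, fun i => ?_⟩, trivial⟩, fun i => ?_, fun i => ?_⟩,
      Prod.ext (funext fun k => ?_) (funext fun i => ?_)⟩
    · exact (e1 i).trans_ne (div_ne_zero (hz.2.2 _) (hz.2.2 _))
    · simp only [e, Equiv.symm_apply_apply]
      exact fun h : u i = 0 => hz.2.2 (ρ (inl i)) ((hu i).symm.trans (by rw [h]; simp))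
    · exact (e2 i).trans_ne (hz.2.2 _)
    · simp only [e, Equiv.symm_apply_apply, elim_inr]
      linear_combination -(x k) * (cst h2 hj L).1
    · obtain ⟨s, rfl⟩ := ρ.surjective i
      simp only [Equiv.symm_apply_apply, wt, e, e1, e2]
      rcases s with i | i | i
      exacts [hu i, div_mul_cancel₀ _ (hz.2.2 _), rfl]

omit [Fintype H] [Fintype P] [Fintype F] [Fintype κ] in
lemma exists_split (τ : I → I) (hτ : Function.Involutive τ) :
    ∃ (q : I → Prop) (ρ : {i // τ i = i} ⊕ {i // q i} ⊕ {i // q i} ≃ I), (∀ i, ρ (inl i) = i) ∧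
      (∀ i, ρ (inr (inl i)) = i) ∧ ∀ i, ρ (inr (inr i)) = τ i := by
  obtain ⟨e, he⟩ := exists_injective_nat I
  refine ⟨fun i => e i < e (τ i), Equiv.ofBijective (Sum.elim (↑) (Sum.elim (↑) fun i => τ i))
    ⟨?_, fun i => ?_⟩, fun _ => rfl, fun _ => rfl, fun _ => rfl⟩
  · rintro (⟨a, ha⟩ | ⟨a, ha⟩ | ⟨a, ha⟩) (⟨b, hb⟩ | ⟨b, hb⟩ | ⟨b, hb⟩) h <;>
      simp only [elim_inl, elim_inr] at h <;> grind [Function.Involutive]
  · rcases lt_trichotomy (e i) (e (τ i)) with h | h | h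
    · exact ⟨inr (inl ⟨i, h⟩), rfl⟩
    · exact ⟨inl ⟨i, (he h).symm⟩, rfl⟩
    · exact ⟨inr (inr ⟨τ i, show _ < e (τ (τ i)) by rwa [hτ i]⟩), hτ i⟩

end Tv

theorem TV_thm {K : Type} [Field K] [Base K] {p : ℕ} [FC7 K p] : TV K p where
  van h2 N N' h0 hN d W I κ _ _ E τ hτ hE _ hev C hS hφ := by
    classical
    rintro ⟨a, hg⟩
    obtain ⟨q, ρ, h1, h3, h4⟩ := Tv.exists_split τ hτ
    obtain ⟨m, hm⟩ := hev
    obtain ⟨σ⟩ : Nonempty ({i // τ i = i} ⊕ κ ≃ Fin m ⊕ Fin m) :=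
      Finite.card_eq.1 (by simpa only [Nat.card_sum, Nat.card_fin] using hm)
    exact Tv.core W h2 (by omega) E ρ σ (fun i => by simpa only [h1, i.2] using hE i)
      (fun i => by simpa only [h3, h4] using hE i) C hS hφ hg

end Pool.Agent.Lib.MP_557161_ag.HG
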