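import Pool.Agent.Lib.MP_557161_ag.HG.St2

/-!
Specialisation of the Whittaker character.
-/

namespace Pool.Agent.Lib.MP_557161_ag.HG

open Pool.Agent.Lib.MP_557161_ag.DL Matrix

namespace U1a

section
variable {F : Type} [Field F] {n : ℕ} {a : F} (A B : Matrix (Fin n) (Fin n) F)

/-- Conjugation by the diagonal matrix with entries `a ^ i`. -/
def cj (a : F) (A : Matrix (Fin n) (Fin n) F) : Matrix (Fin n) (Fin n) F :=
  Matrix.of fun i j => a⁻¹ ^ i.1 * A i j * a ^ j.1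

theorem cj_eq : cj a A = diagonal (fun i => a⁻¹ ^ i.1) * A * diagonal fun i => a ^ i.1 := by
  ext i j
  rw [mul_diagonal, diagonal_mul]
  rfl

theorem dd (ha : a ≠ 0) :
    diagonal (fun i : Fin n => a ^ i.1) * diagonal (fun i => a⁻¹ ^ i.1) = 1 := by
  rw [diagonal_mul_diagonal, ← diagonal_one]
  congr 1
  funext i
  rw [← mul_pow, mul_inv_cancel₀ ha, one_pow]

theorem cj_diag (ha : a ≠ 0) (i : Fin n) : cj a A i i = A i i := by
  rw [cj, of_apply, mul_right_comm, ← mul_pow, inv_mul_cancel₀ ha, one_pow, one_mul]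

theorem cj_zero {i j : Fin n} (h : A i j = 0) : cj a A i j = 0 := by
  rw [cj, of_apply, h, mul_zero, zero_mul]

theorem cj_cj (ha : a ≠ 0) : cj a⁻¹ (cj a A) = A := by
  ext i j
  simp only [cj, of_apply, inv_inv, inv_pow]
  field_simp

theorem cj_mul (ha : a ≠ 0) : cj a (A * B) = cj a A * cj a B := by
  simp only [cj_eq, Matrix.mul_assoc]
  rw [← Matrix.mul_assoc (diagonal fun i : Fin n => a ^ i.1), dd ha, Matrix.one_mul]

theorem cj_one (ha : a ≠ 0) : cj a (1 : Matrix (Fin n) (Fin n) F) = 1 := by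
  rw [cj_eq, Matrix.mul_one, mul_eq_one_comm, dd ha]

theorem cj_det (ha : a ≠ 0) : (cj a A).det = A.det := by
  rw [cj_eq, det_mul, det_mul, mul_right_comm, ← det_mul, mul_eq_one_comm.1 (dd ha), det_one,
    one_mul]

theorem cj_trace (ha : a ≠ 0) : (cj a A).trace = A.trace :=
  Finset.sum_congr rfl fun i _ => cj_diag A ha i

theorem cj_inv (ha : a ≠ 0) (h : A.det ≠ 0) : (cj a A)⁻¹ = cj a A⁻¹ :=
  inv_eq_left_inv (by rw [← cj_mul _ _ ha, nonsing_inv_mul _ h.isUnit, cj_one ha])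

theorem cj_stp (ha : a ≠ 0) (s : Bool) (h : A.det ≠ 0) (h' : B.det ≠ 0) :
    stp s (cj a A) (cj a B) = cj a (stp s A B) := by
  cases s
  · show _ * _ = cj a (_ * _)
    rw [cj_mul _ _ ha, cj_inv _ ha h']
  · show _ * _ = cj a (_ * _)
    rw [cj_mul _ _ ha, cj_inv _ ha h]

theorem cj_psi (ha : a ≠ 0) : psi (cj a A) = a * psi A := by
  simp only [psi, Finset.mul_sum]
  refine Finset.sum_congr rfl fun i _ => Finset.sum_congr rfl fun j _ => ?_
  split_ifs with h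
  · rw [cj, of_apply, ← h, pow_succ, inv_pow]
    field_simp
  · rw [mul_zero]

end

variable {K : Type} [Field K] {cc : Cd} {n m : ℕ}

theorem rel_cj {M L : Fld K} {R : Rel M L} {a : M} {a' : L} (h : R.r a a') (h0 : a' ≠ 0)
    {A : Matrix (Fin n) (Fin n) M} {A' : Matrix (Fin n) (Fin n) L} (e : R.m' A A') :
    R.m' (cj a A) (cj a' A') :=
  fun i j => R.mul (R.mul (Rel.pow (R.inv h h0) _) (e i j)) (Rel.pow h _)

variable {C : EqD K cc} {t : K} {s : Fin m → Bool} {e : Fin m → ℕ} {L : Fld K} {a : L}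
  {x : (chs cc (Fin n) m).X L}

theorem mem_cj (ha : a ≠ 0) (h : ((zd C t n s e).Ch m).S.mem L x) :
    ((zd C t n s e).Ch m).S.mem L (x.1, fun j => cj a (x.2 j)) :=
  ⟨⟨⟨h.1.1.1, trivial⟩, fun j => (cj_det _ ha).trans_ne (h.1.2 j)⟩,
    (congrArg (cj a) h.2.1).trans (cj_one ha),
    fun j hj _ _ hi => cj_zero _ (h.2.2.1 j hj hi), fun j hj _ _ hi => cj_zero _ (h.2.2.2.1 j hj hi),
    fun i => (cj_diag _ ha i).trans (h.2.2.2.2 i)⟩

theorem φ_cj (ha : a ≠ 0) (h : ((zd C t n s e).Ch m).S.mem L x) :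
    ((zd C t n s e).Ch m).φ L (x.1, fun j => cj a (x.2 j)) = ((zd C t n s e).Ch m).φ L x :=
  congrArg (C.φ L x.1 + ·) (Finset.sum_congr rfl fun _ _ => congrArg _
    ((congrArg trace (cj_stp _ _ ha _ (h.1.2 _) (h.1.2 _))).trans (cj_trace _ ha)))

theorem g_cj (ha : a ≠ 0) (h : ((zd C t n s e).Ch m).S.mem L x) :
    ((zd C t n s e).Ch m).g L (x.1, fun j => cj a (x.2 j)) = ((zd C t n s e).Ch m).g L x :=
  congrArg (C.g L x.1 * ·) (Finset.prod_congr rfl fun j _ => congrArg (· ^ e j)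
    ((congrArg det (cj_stp _ _ ha _ (h.1.2 _) (h.1.2 _))).trans (cj_det _ ha)))

end U1a

open U1a in
theorem U1_thm {K : Type} [Field K] [Base K] {p : ℕ} [Fact p.Prime] [CharP K p] [FW0 K]
    [FWp K p] : U1 K p where
  van {N} hN cc d C W n m t ht s e hv j Ψ L x r y w h0 := by
    refine FC7.spec (E := (zd C t n s e).Ch m) (fun _ x => psi (x.2 (Fin.last m)))
      (fun _ _ _ _ _ _ _ e => Rel.psi (e.2 _)) ?_ Ψ L x r y w h0
    have hf : Reg (whit C t n s e).S (.vec Unit) fun _ _ _ => 0 := fun _ _ R _ _ _ _ _ _ => R.zero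
    have h1 : EVan p N ((whit C t n s e).lin _ hf) W := (FC7.lin _ hf).2
      (FC7.opn (E := whit C t n s e) (E' := (whit C t n s e).zer _ hf)
        (fun _ _ h => ⟨h.1, rfl, rfl⟩) (fun _ _ _ _ h _ _ => ⟨h, fun _ => rfl⟩) hv)
    let S := ((whit C t n s e).lin _ hf).S.opn (fun _ x => x.2 () ≠ 0)
      fun _ _ _ _ _ _ _ e h => Rel.ne_zero (e.2 ()) h
    have h2 : EVan p N (((whit C t n s e).lin _ hf).res S fun _ _ h => h.1) W :=
      FC7.opn (fun _ _ h => ⟨h.1, rfl, rfl⟩)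
        (fun _ _ _ _ h h' e => ⟨h, Rel.ne_zero (e.2 ()) h'.2⟩) h1
    have ne : ∀ (L : Fld K) (l : L), l ≠ 0 → -(algebraMap K L t * l) ≠ 0 := fun L l h =>
      neg_ne_zero.2 (mul_ne_zero ((map_ne_zero _).2 ht) h)
    refine (FC7.iso hN (E := ((whit C t n s e).lin _ hf).res S fun _ _ h => h.1)
      (E' := ((zd C t n s e).Ch m).dfm (fun _ x => psi (x.2 (Fin.last m)))
        fun _ _ _ _ _ _ _ e => Rel.psi (e.2 _))
      (f := fun L x => ((x.1.1, fun j => cj (-(algebraMap K L t * x.2)) (x.1.2 j)), fun _ => x.2))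
      (f' := fun L x => ((x.1.1, fun j => cj (-(algebraMap K L t * x.2 ()))⁻¹ (x.1.2 j)), x.2 ()))
      1 one_ne_zero ⟨⟨fun _ _ R _ _ _ m' e => ⟨⟨e.1.1, fun j => rel_cj
        (Rel.neg (R.mul (R.const t) e.2)) (ne _ _ m'.2) (e.1.2 j)⟩, fun _ => e.2⟩,
        fun L x m => ⟨⟨mem_cj (ne _ _ m.2) m.1, trivial⟩, m.2⟩⟩,
      ⟨fun _ _ R _ _ _ m' e => ⟨⟨e.1.1, fun j => rel_cj
        (R.inv (Rel.neg (R.mul (R.const t) (e.2 ()))) (ne _ _ m'.2)) (inv_ne_zero (ne _ _ m'.2))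
        (e.1.2 j)⟩, e.2 ()⟩, fun L x m => ⟨mem_cj (inv_ne_zero (ne _ _ m.2)) m.1.1, m.2⟩⟩,
      fun L x m => Prod.ext (Prod.ext rfl (funext fun j => cj_cj _ (ne _ _ m.2))) rfl,
      fun L x m => Prod.ext (Prod.ext rfl (funext fun j => ?_)) rfl⟩ fun L x m => ⟨?_, ?_⟩).2 h2
    · have := cj_cj (x.1.2 j) (inv_ne_zero (ne _ _ m.2))
      rwa [inv_inv] at this
    · show ((zd C t n s e).Ch _).φ L _ + -(algebraMap K L t⁻¹ * psi (cj _ _)) + ∑ _i : Unit, _ * 0 =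
        ((zd C t n s e).Ch _).φ L x.1 + x.2 * psi _
      have : algebraMap K L t ≠ 0 := (map_ne_zero _).2 ht
      rw [φ_cj (ne _ _ m.2) m.1, cj_psi _ (ne _ _ m.2), map_inv₀]
      simp only [mul_zero, Finset.sum_const_zero, add_zero, add_right_inj]
      field_simp
    · rw [map_one, one_mul]
      exact g_cj (ne _ _ m.2) m.1

end Pool.Agent.Lib.MP_557161_ag.HG
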