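import Pool.Agent.Lib.MP_557161_ag.HG.WH1

/-!
The Whittaker space.
-/

namespace Pool.Agent.Lib.MP_557161_ag.HG

open Pool.Agent.Lib.MP_557161_ag.DL Matrix

namespace WHa

variable {K : Type} [Field K] {p N : ℕ} {cc d : Cd} [h7 : FC7 K p] (C : EqD K cc) (W : ASp K d)
  {n : ℕ}

/-- The product with the group of unitriangular matrices. -/
noncomputable def spc (n : ℕ) : EqD K (cc.prod (sq n)) :=
  C.ext ((C.S.prod (.univ K (sq n))).cl (fun _ x => Uni Fin.val x.2)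
    fun _ _ _ _ _ _ _ e h => Rel.uni e.2 h) (fun _ _ h => h.1.1) (fun _ _ => 0) (fun _ _ => 1)
    (fun _ _ R _ _ _ _ _ => R.zero) (fun _ _ R _ _ _ _ _ => R.one) fun _ _ _ => one_ne_zero

lemma van_spc (hN : 0 < N) (h : EVan p N C W) : EVan p N (spc C n) W := by
  have hf : Reg C.S (.vec (UpI (Fin.val : Fin n → ℕ))) fun _ _ _ => 0 :=
    fun _ _ R _ _ _ _ _ _ => R.zero
  have h1 : EVan p N (C.lin _ hf) W := (h7.lin _ hf).2 (h7.opn (E := C) (E' := C.zer _ hf)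
    (fun _ _ m => ⟨m.1, rfl, rfl⟩) (fun _ _ _ _ m _ _ => ⟨m, fun _ => rfl⟩) h)
  refine (h7.iso hN (E' := C.lin _ hf) (E := spc C n) (f := fun _ x => (x.1, 1 + upm Fin.val x.2))
    (f' := fun _ x => (x.1, fun i => x.2 i.1.1 i.1.2)) 1 one_ne_zero
    ⟨⟨fun _ _ _ _ _ _ _ e => ⟨e.1, Rel.madd Rel.mone (Rel.mupm _ e.2)⟩,
      fun _ _ m => ⟨⟨m.1, trivial⟩, uni_upm _⟩⟩,
    ⟨fun _ _ _ _ _ _ _ e => ⟨e.1, fun _ => e.2 _ _⟩, fun _ _ m => ⟨m.1.1, trivial⟩⟩,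
    fun _ _ _ => Prod.ext rfl (funext fun i => upm_ent _ i),
    fun _ _ m => Prod.ext rfl (upm_uni m.2)⟩ fun L x _ => ⟨?_, ?_⟩).1 h1
  · change C.φ L x.1 + 0 = C.φ L x.1 + ∑ i, x.2 i * 0
    simp
  · change C.g L x.1 * 1 = algebraMap K L 1 * C.g L x.1
    simp

lemma van_tor (hN : 0 < N) {I : Type} [Fintype I] (σ : Equiv.Perm I) (E : I → ℕ)
    (h : EVan p N (tor C E) W) : EVan p N (tor C fun i => E (σ i)) W := by
  refine (h7.iso hN (E' := tor C E) (E := tor C fun i => E (σ i))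
    (f := fun _ x => (x.1, fun i => x.2 (σ i))) (f' := fun _ x => (x.1, fun i => x.2 (σ.symm i)))
    1 one_ne_zero
    ⟨⟨fun _ _ _ _ _ _ _ e => ⟨e.1, fun _ => e.2 _⟩, fun _ _ m => ⟨m.1, trivial, fun _ => m.2.2 _⟩⟩,
    ⟨fun _ _ _ _ _ _ _ e => ⟨e.1, fun _ => e.2 _⟩, fun _ _ m => ⟨m.1, trivial, fun _ => m.2.2 _⟩⟩,
    fun _ x _ => Prod.ext rfl (funext fun i => congrArg x.2 (σ.apply_symm_apply i)),
    fun _ x _ => Prod.ext rfl (funext fun i => congrArg x.2 (σ.symm_apply_apply i))⟩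
    fun L x _ => ⟨?_, ?_⟩).1 h
  · change C.φ L x.1 + ∑ i, x.2 (σ i) = C.φ L x.1 + ∑ i, x.2 i
    rw [Equiv.sum_comp σ x.2]
  · change C.g L x.1 * ∏ i, x.2 (σ i) ^ E (σ i) =
      algebraMap K L 1 * (C.g L x.1 * ∏ i, x.2 i ^ E i)
    rw [Equiv.prod_comp σ fun i => x.2 i ^ E i, map_one, one_mul]

variable (t : K) (e e' : Fin (n + 1) → ℕ)

/-- The product with tuples of invertible matrices. -/
noncomputable def C1 : EqD K (cc.prod (.pi (Fin (n + 1)) (sq (n + 1)))) :=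
  C.ext ((C.S.prod (.univ K (.pi (Fin (n + 1)) (sq (n + 1))))).opn (fun _ x => ∀ j, (x.2 j).det ≠ 0)
      fun _ _ _ _ _ _ _ e h j => Rel.ne_zero (Rel.det (e.2 j)) (h j))
    (fun _ _ h => h.1.1) (fun _ x => ∑ j, (x.2 j).trace) (fun _ x => ∏ j, (x.2 j).det ^ e j)
    (fun _ _ _ _ _ _ _ e => Rel.sum _ fun j _ => Rel.trace (e.2 j))
    (fun _ _ _ _ _ _ _ e => Rel.prod _ fun j _ => Rel.pow (Rel.det (e.2 j)) _)
    fun _ _ h => Finset.prod_ne_zero_iff.2 fun j _ => pow_ne_zero _ (h.2 j)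

/-- The scaled product. -/
noncomputable def X1 (L : Fld K) (x : (cc.prod (.pi (Fin (n + 1)) (sq (n + 1)))).X L) :
    Matrix (Fin (n + 1)) (Fin (n + 1)) L := (algebraMap K L t)⁻¹ • (List.ofFn x.2).prod

variable {t} in
lemma rX1 (ht : t ≠ 0) : Reg (C1 C e).S (.mat _ _) (X1 t) := fun _ _ R _ _ _ _ l =>
  Rel.msmul (R.inv (R.const t) ((map_ne_zero _).2 ht)) (Rel.mprod l.2)

/-- Lower triangular matrices with a phase. -/
noncomputable def C2 : EqD K (cc.prod (sq (n + 1))) :=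
  (low C e').addφ (fun _ x => -x.2 (Fin.last n) 0) fun _ _ _ _ _ _ _ l => Rel.neg (l.2 _ _)

/-- The scaled matrix. -/
noncomputable def X2 (L : Fld K) (x : (cc.prod (sq (n + 1))).X L) :
    Matrix (Fin (n + 1)) (Fin (n + 1)) L := algebraMap K L t • x.2

lemma rX2 : Reg (C2 C e').S (.mat _ _) (X2 t) := fun _ _ R _ _ _ _ l =>
  Rel.msmul (R.const t) l.2

variable {t}

lemma step1 (hN : 0 < N) (ht : t ≠ 0)
    (h : EVan p N (chL (C1 C e) (X1 t) (rX1 C e ht) (-1) fun j => e' j.rev) W) :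
    EVan p N (whit C t (n + 1) (Fin.append (fun _ : Fin (n + 1) => true) fun _ : Fin (n + 1) => false)
      (Fin.append e e')) W := by
  have t0 : ∀ L : Fld K, algebraMap K L t ≠ 0 := fun L => (map_ne_zero _).2 ht
  have hl : ∀ L x, (chL (C1 C e) (X1 t) (rX1 C e ht) (-1) fun j => e' j.rev).S.mem L x →
      pp (fac x.1.2 x.2.2) (Fin.last _) = algebraMap K L t • x.2.1 := fun L x m => by
    have := congrArg (algebraMap K L t • ·) m.2.2
    simp only [X1, smul_inv_smul₀ (t0 L)] at this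
    rw [fac_last, ← this, Matrix.smul_mul, mul_nonsing_inv_cancel_right _ _ (prod_det m.1.2).isUnit]
  refine (h7.iso hN (E := chL (C1 C e) (X1 t) (rX1 C e ht) (-1) fun j => e' j.rev)
    (E' := whit C t (n + 1) (Fin.append (fun _ : Fin (n + 1) => true) fun _ : Fin (n + 1) => false)
      (Fin.append e e'))
    (f := fun L x => ((x.1, fun j => stp true (x.2 (Fin.castAdd (n + 1) j).castSucc)
      (x.2 (Fin.castAdd (n + 1) j).succ)), ((algebraMap K L t)⁻¹ • x.2 (Fin.last _), fun j =>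
        stp false (x.2 (Fin.natAdd (n + 1) j.rev).castSucc) (x.2 (Fin.natAdd (n + 1) j.rev).succ))))
    (f' := fun _ x => (x.1.1, pp (fac x.1.2 x.2.2))) 1 one_ne_zero
    ⟨⟨fun _ _ R _ _ _ m' l => ⟨⟨l.1, fun _ => Rel.stp true (l.2 _) (l.2 _) (m'.1.2 _) (m'.1.2 _)⟩,
      Rel.msmul (R.inv (R.const t) (t0 _)) (l.2 _),
      fun _ => Rel.stp false (l.2 _) (l.2 _) (m'.1.2 _) (m'.1.2 _)⟩, fun L x m => ?_⟩,
    ⟨fun _ _ _ _ _ _ m' l => ⟨l.1.1, rel_pp (rel_fac l.1.2 l.2.2 m'.1.2)⟩, fun L x m => ?_⟩,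
    fun _ _ m => Prod.ext rfl (fac_tel m.2.1 m.1.2), fun L x m => ?_⟩
    fun L x _ => ⟨?_, ?_⟩).2 h
  · have hd : ∀ s a b, (stp s (x.2 a) (x.2 b)).det ≠ 0 := fun s a b =>
      det_stp_ne s (m.1.2 a) (m.1.2 b)
    refine ⟨⟨⟨⟨⟨m.1.1.1, trivial⟩, fun _ => hd true _ _⟩, trivial⟩, fun _ => hd false _ _⟩,
      ⟨fun i j hij => ?_, fun i => ?_⟩, ?_⟩
    · exact mul_eq_zero_of_right _ (m.2.2.1 (Fin.last _) le_rfl hij)
    · exact (congrArg ((algebraMap K L t)⁻¹ * ·) (m.2.2.2.2 i)).trans (inv_mul_cancel₀ (t0 L))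
    · have := congrFun (fac_tel m.2.1 m.1.2) (Fin.last _)
      rw [fac_last] at this
      change (_ • x.2 _) * _ = _ • _
      rw [← this, Matrix.smul_mul,
        nonsing_inv_mul_cancel_right _ _ (prod_det fun _ => hd false _ _).isUnit]
  · refine ⟨⟨⟨m.1.1.1.1.1, trivial⟩, pp_det (fac_det m.1.1.1.2 m.1.2)⟩,
      pp_zero (k := fac x.1.2 x.2.2),
      fun j hj a b hab => ?_, fun j hj => absurd hj (Nat.not_lt.2 (Fin.is_le j)), fun i => ?_⟩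
    · obtain rfl : j = Fin.last _ := Fin.ext (le_antisymm (Fin.is_le j) hj)
      exact (congrFun (congrFun (hl L x m) a) b).trans (mul_eq_zero_of_right _ (m.2.1.1 hab))
    · exact (congrFun (congrFun (hl L x m) i) i).trans
        ((congrArg (_ * ·) (m.2.1.2 i)).trans (mul_one _))
  · have hd := fac_det m.1.1.1.2 m.1.2
    refine Prod.ext (Prod.ext rfl (funext fun j => (pp_stp hd _).trans ?_))
      (Prod.ext ?_ (funext fun j => (pp_stp' hd _).trans ?_))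
    · rw [fac, Fin.append_left]
    · change _ • pp _ _ = _
      rw [hl L x m, inv_smul_smul₀ (t0 L)]
    · rw [fac, Fin.append_right, Fin.rev_rev, nonsing_inv_nonsing_inv _ (m.1.2 j).isUnit]
  · simp only [chL, C1, whit, ChD.Ch, zd, EqD.ext, EqD.addφ, Fin.sum_univ_add (a := n + 1),
      Fin.append_left, Fin.append_right, cond_true, cond_false, psi_smul, map_neg, map_one, map_inv₀,
      one_mul, neg_mul, Finset.sum_neg_distrib]
    rw [← Equiv.sum_comp Fin.revPerm fun j => (stp false (x.2 (Fin.natAdd (n + 1) j).castSucc)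
      (x.2 (Fin.natAdd (n + 1) j).succ)).trace]
    simp only [Fin.revPerm_apply]
    ring
  · simp only [chL, C1, whit, ChD.Ch, zd, EqD.ext, EqD.addφ, Fin.prod_univ_add (a := n + 1),
      Fin.append_left, Fin.append_right, map_one, one_mul]
    rw [← Equiv.prod_comp Fin.revPerm fun j => (stp false (x.2 (Fin.natAdd (n + 1) j).castSucc)
      (x.2 (Fin.natAdd (n + 1) j).succ)).det ^ e' j, mul_assoc]
    rfl

lemma step2 (hN : 0 < N) (ht : t ≠ 0)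
    (h : EVan p N (spc (chL (C2 C e') (X2 t) (rX2 C t e') 1 e) (n + 1)) W) :
    EVan p N (chB (C1 C e) (X1 t) (rX1 C e ht) (-1) e') W := by
  have t0 : ∀ L : Fld K, algebraMap K L t ≠ 0 := fun L => (map_ne_zero _).2 ht
  refine (h7.iso hN (E := spc (chL (C2 C e') (X2 t) (rX2 C t e') 1 e) (n + 1))
    (E' := chB (C1 C e) (X1 t) (rX1 C e ht) (-1) e')
    (f := fun _ x => (((x.1.1.1, x.1.2),
      (x.2.2 * x.2.1⁻¹, fun j => x.2.1 * x.1.1.2 j * x.2.1⁻¹)), x.2.1))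
    (f' := fun _ x => (((x.1.1.1, fun j => x.2⁻¹ * x.1.2.2 j * x.2), x.1.1.2), (x.2, x.1.2.1 * x.2)))
    1 one_ne_zero
    ⟨⟨fun _ _ _ _ _ _ m' l => ⟨⟨⟨l.1.1.1, l.1.2⟩, Rel.mmul l.2.2 (Rel.minv l.2.1 (uni_ne m'.2.1)),
      fun j => Rel.mmul (Rel.mmul l.2.1 (l.1.1.2 j)) (Rel.minv l.2.1 (uni_ne m'.2.1))⟩, l.2.1⟩,
      fun L x m => ?_⟩,
    ⟨fun _ _ _ _ _ _ m' l => ⟨⟨⟨l.1.1.1, fun j => Rel.mmul (Rel.mmul (Rel.minv l.2 (uni_ne m'.2))
      (l.1.2.2 j)) l.2⟩, l.1.1.2⟩, l.2, Rel.mmul l.1.2.1 l.2⟩, fun L x m => ?_⟩,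
    fun _ _ m => Prod.ext (Prod.ext (Prod.ext rfl (funext fun _ =>
      cj_cj (nonsing_inv_mul _ (uni_unit m.2.1)) _)) rfl)
      (Prod.ext rfl (nonsing_inv_mul_cancel_right _ _ (uni_unit m.2.1))),
    fun _ _ m => Prod.ext (Prod.ext rfl (Prod.ext (mul_nonsing_inv_cancel_right _ _ (uni_unit m.2))
      (funext fun _ => cj_cj (mul_nonsing_inv _ (uni_unit m.2)) _))) rfl⟩
    fun L x m => ⟨?_, ?_⟩).2 h
  · have hv := nonsing_inv_mul _ (uni_unit m.2.1)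
    refine ⟨⟨⟨⟨⟨⟨⟨⟨m.1.1.1.1.1.1.1, trivial⟩, m.1.1.1.2⟩, m.1.1.2⟩, trivial⟩,
      fun j => (det_cj hv _).trans_ne (m.1.1.1.1.1.2 j)⟩,
      uni_mul m.2.2.1 (uni_inv m.2.1), ?_⟩, trivial⟩, m.2.1⟩
    have := congrArg (algebraMap K L t • · * x.2.1⁻¹) m.2.2.2
    simp only [X1, Matrix.mul_smul, smul_inv_smul₀ (t0 L), Matrix.smul_mul,
      mul_nonsing_inv_cancel_right _ _ (uni_unit m.2.1)] at this
    change _ * (List.ofFn fun j => _ * _ * _).prod = _ • _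
    rw [prod_conj hv, this]
    simp only [Matrix.mul_assoc, nonsing_inv_mul_cancel_left _ _ (uni_unit m.2.1)]
  · have hv := mul_nonsing_inv _ (uni_unit m.2)
    refine ⟨⟨⟨⟨⟨⟨⟨m.1.1.1.1.1.1.1.1, trivial⟩, fun j => (det_cj hv _).trans_ne (m.1.1.1.2 j)⟩,
      trivial⟩, m.1.1.1.1.1.1.2⟩, m.1.1.1.1.1.2⟩, trivial⟩, m.2, uni_mul m.1.1.2.1 m.2, ?_⟩
    have := congrArg ((algebraMap K L t)⁻¹ • ·) m.1.1.2.2
    simp only [X2, inv_smul_smul₀ (t0 L)] at this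
    change _ * _ = _ * _ • (List.ofFn fun j => _ * _ * _).prod
    rw [prod_conj hv, ← this]
    simp only [Matrix.mul_smul, Matrix.smul_mul, Matrix.mul_assoc,
      mul_nonsing_inv_cancel_left _ _ (uni_unit m.2)]
  · simp only [spc, chL, chB, low, C1, C2, EqD.ext, EqD.addφ,
      trace_cj (nonsing_inv_mul _ (uni_unit m.2.1)), psi_mul m.2.2.1 (uni_inv m.2.1), psi_inv m.2.1,
      map_neg, map_one]
    ring
  · simp only [spc, chL, chB, low, C1, C2, EqD.ext, EqD.addφ,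
      det_cj (nonsing_inv_mul _ (uni_unit m.2.1)), map_one]
    ring

lemma step3 (hN : 0 < N) (ht : t ≠ 0) (h1 : t ≠ 1)
    (h : EVan p N (chB (low C e') (fun _ x => x.2) (fun _ _ _ _ _ _ _ h => h.2) 1 e) W) :
    EVan p N (chB (C2 C e') (X2 t) (rX2 C t e') 1 e) W := by
  obtain ⟨a, ha⟩ : ∃ a, a = t - 1 := ⟨_, rfl⟩
  obtain ⟨k, hk⟩ : ∃ k, k = a * t⁻¹ := ⟨_, rfl⟩
  have a1 : a ≠ 0 := ha ▸ sub_ne_zero.2 h1
  have k1 : k ≠ 0 := hk ▸ mul_ne_zero a1 (inv_ne_zero ht)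
  have a0 : ∀ L : Fld K, algebraMap K L a ≠ 0 := fun L => (map_ne_zero _).2 a1
  have k0 : ∀ L : Fld K, algebraMap K L k ≠ 0 := fun L => (map_ne_zero _).2 k1
  have kt : ∀ L : Fld K, algebraMap K L a = algebraMap K L k * algebraMap K L t := fun L => by
    rw [← map_mul, hk, inv_mul_cancel_right₀ ht]
  refine (h7.iso hN (E := chB (low C e') (fun _ x => x.2) (fun _ _ _ _ _ _ _ h => h.2) 1 e)
    (E' := chB (C2 C e') (X2 t) (rX2 C t e') 1 e)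
    (f := fun L x => (((x.1.1.1, algebraMap K L a • x.1.1.2), algebraMap K L k • x.1.2), x.2))
    (f' := fun L x =>
      (((x.1.1.1, (algebraMap K L a)⁻¹ • x.1.1.2), (algebraMap K L k)⁻¹ • x.1.2), x.2))
    (a ^ (∑ i, e' i) * k ^ ∑ i, e i) (mul_ne_zero (pow_ne_zero _ a1) (pow_ne_zero _ k1))
    ⟨⟨fun _ _ R _ _ _ _ l => ⟨⟨⟨l.1.1.1, Rel.msmul (R.const a) l.1.1.2⟩,
      Rel.msmul (R.const k) l.1.2⟩, l.2⟩, fun L x m => ?_⟩,
    ⟨fun _ _ R _ _ _ _ l => ⟨⟨⟨l.1.1.1, Rel.msmul (R.inv (R.const a) (a0 _)) l.1.1.2⟩,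
      Rel.msmul (R.inv (R.const k) (k0 _)) l.1.2⟩, l.2⟩, fun L x m => ?_⟩,
    fun L _ _ => Prod.ext (Prod.ext (Prod.ext rfl (inv_smul_smul₀ (a0 L) _))
      (inv_smul_smul₀ (k0 L) _)) rfl,
    fun L _ _ => Prod.ext (Prod.ext (Prod.ext rfl (smul_inv_smul₀ (a0 L) _))
      (smul_inv_smul₀ (k0 L) _)) rfl⟩
    fun L x m => ⟨?_, ?_⟩).2 h
  · refine ⟨⟨⟨⟨⟨⟨⟨⟨m.1.1.1.1.1.1.1.1, trivial⟩, fun i => mul_ne_zero (a0 L) (m.1.1.1.1.1.1.2 i)⟩,
      fun i j hij => mul_eq_zero_of_right _ (m.1.1.1.1.1.2 i j hij)⟩, trivial⟩,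
      fun i => mul_ne_zero (k0 L) (m.1.1.1.2 i)⟩,
      fun i j hij => mul_eq_zero_of_right _ (m.1.1.2 i j hij)⟩, trivial⟩, m.2.1, m.2.2.1, ?_⟩
    change _ • x.1.2 * _ = _ * _ • x.1.1.2
    rw [Matrix.smul_mul, m.2.2.2, X2, kt, Matrix.mul_smul, Matrix.mul_smul, smul_smul]
  · refine ⟨⟨⟨⟨⟨⟨⟨⟨m.1.1.1.1.1.1.1.1, trivial⟩,
      fun i => mul_ne_zero (inv_ne_zero (a0 L)) (m.1.1.1.1.1.1.2 i)⟩,
      fun i j hij => mul_eq_zero_of_right _ (m.1.1.1.1.1.2 i j hij)⟩, trivial⟩,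
      fun i => mul_ne_zero (inv_ne_zero (k0 L)) (m.1.1.1.2 i)⟩,
      fun i j hij => mul_eq_zero_of_right _ (m.1.1.2 i j hij)⟩, trivial⟩, m.2.1, m.2.2.1, ?_⟩
    change _ • x.1.2 * _ = _ * _ • _ • x.1.1.2
    rw [Matrix.smul_mul, m.2.2.2, kt, smul_smul, Matrix.mul_smul, _root_.mul_inv_rev,
      mul_inv_cancel_left₀ ((map_ne_zero _).2 ht)]
  · have := congrFun (congrFun m.2.2.2 (Fin.last n)) 0
    rw [mul_uni_ent m.2.1, uni_mul_ent m.2.2.1] at this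
    have h2 := kt L
    rw [ha, map_sub, map_one] at h2
    simp only [chB, low, C2, X2, EqD.ext, EqD.addφ, map_one, Matrix.smul_apply, smul_eq_mul] at this ⊢
    rw [this]
    linear_combination -x.1.1.2 (Fin.last n) 0 * h2
  · simp only [chB, low, C2, EqD.ext, EqD.addφ, Matrix.smul_apply, smul_eq_mul, mul_pow,
      Finset.prod_mul_distrib, Finset.prod_pow_eq_pow_sum, map_mul, map_pow]
    ring

end WHa

open WHa in
theorem WH_thm {K : Type} [Field K] [Base K] {p : ℕ} [Fact p.Prime] [CharP K p] [FW0 K] [FWp K p]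
    [h2 : CH2 K p] [h3 : CH3 K p] [hb : BR K p] : WH K p where
  van hN _ _ C W _ _ ht h1 e e' h :=
    step1 C W e e' hN ht <| (h2.iff hN _ W _ _ _ (neg_ne_zero.2 one_ne_zero) _).2 <|
      (h3.iff hN _ W _ _ _ _).2 <| step2 C W e _ hN ht <| van_spc _ W hN <|
      (h2.iff hN _ W _ _ _ one_ne_zero _).2 <| (h3.iff hN _ W _ _ _ _).2 <|
      step3 C W e _ hN ht h1 <| (h3.iff hN _ W _ _ _ _).1 <|
      (h2.iff hN _ W _ _ _ one_ne_zero _).1 <| hb.red hN C W e _ <|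
      van_tor C W hN ((Equiv.refl _).prodCongr Fin.revPerm) _ h

end Pool.Agent.Lib.MP_557161_ag.HG
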