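import Pool.Agent.Lib.MP_557161_ag.HG.All0
import Pool.Agent.Lib.MP_557161_ag.HG.MS
import Pool.Agent.Lib.MP_557161_ag.HG.M1
import Pool.Agent.Lib.MP_557161_ag.HG.CH1
import Pool.Agent.Lib.MP_557161_ag.HG.CH2
import Pool.Agent.Lib.MP_557161_ag.HG.CH3
import Pool.Agent.Lib.MP_557161_ag.HG.BR
import Pool.Agent.Lib.MP_557161_ag.HG.WH
import Pool.Agent.Lib.MP_557161_ag.HG.U1
import Pool.Agent.Lib.MP_557161_ag.HG.TV
import Pool.Agent.Lib.MP_557161_ag.HG.G1
import Pool.Agent.Lib.MP_557161_ag.HG.IW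
import Pool.Agent.Lib.MP_557161_ag.HG.R2a
import Pool.Agent.Lib.MP_557161_ag.HG.R2
import Pool.Agent.Lib.MP_557161_ag.HG.G3
import Pool.Agent.Lib.MP_557161_ag.HG.G4
import Pool.Agent.Lib.MP_557161_ag.HG.MN
import Pool.Agent.Lib.MP_557161_ag.HG.MT
import Pool.Agent.Lib.MP_557161_ag.HG.A1
import Pool.Agent.Lib.MP_557161_ag.HG.A2a
import Pool.Agent.Lib.MP_557161_ag.HG.A2b
import Pool.Agent.Lib.MP_557161_ag.HG.A3
import Pool.Agent.Lib.MP_557161_ag.HG.A4
import Pool.Agent.Lib.MP_557161_ag.HG.A5a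
import Pool.Agent.Lib.MP_557161_ag.HG.A5
import Pool.Agent.Lib.MP_557161_ag.HG.A6

/-!
The top exterior power of the motive of the double plane, assembled.
-/

namespace Pool.Agent.Lib.MP_557161_ag.HG

open Pool.Agent.Lib.MP_557161_ag.DL

variable {K : Type} [Field K] [Base K]

theorem MT_all {p : ℕ} [Fact p.Prime] [CharP K p] : MT K p :=
  have _ : FW0 K := FW0_thm
  have _ : FWp K p := FWp_thm
  have _ : MS K p := MS_thm
  have _ : M1 K p := M1_thm
  have _ : CH1 K p := CH1_thm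
  have _ : CH2 K p := CH2_thm
  have _ : CH3 K p := CH3_thm
  have _ : BR K p := BR_thm
  have _ : WH K p := WH_thm
  have _ : U1 K p := U1_thm
  have _ : G1 K p := G1_thm
  have _ : IW K := IW_thm
  have _ : R2a K p := R2a_thm
  have _ : R2 K p := R2_thm
  have _ : G4 K p := G4_thm
  have _ : G3 K p := G3_thm
  have _ : MN K p := MN_thm
  MT_thm

theorem ALT_thm : ALT K := by
  obtain ⟨p, hp, _⟩ := Base.char (K := K)
  have : Fact p.Prime := ⟨hp⟩
  have : FW0 K := FW0_thm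
  have : FWp K p := FWp_thm
  have : MT K p := MT_all
  have : TV K p := TV_thm
  have : A3 K := A3_thm
  have : A5a K p := A5a_thm
  refine ⟨fun G κ _ _ h => ?_⟩
  obtain ⟨H, h1, h2⟩ := (A1_thm (K := K)).red G
  exact h2 κ ((A2a_thm (p := p)).red H κ (A2b_thm.red H κ (A4_thm.red H κ
    (A5_thm.red H κ (A6_thm.van H κ (h.trans h1.symm))))))

end Pool.Agent.Lib.MP_557161_ag.HG
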