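import Pool.Agent.Lib.MP_557161_ag.HG.StY

/-!
The branch curve is smooth.
-/

namespace Pool.Agent.Lib.MP_557161_ag.HG

open Pool.Agent.Lib.MP_557161_ag.DL MvPolynomial

variable {K : Type} [Field K]

namespace GD

variable (G : GD K)

lemma three : 3 ≤ G.e ∧ Odd G.n ∧ Odd G.u ∧ (2 : K) ≠ 0 ∧ ∀ i, 2 ≤ G.w i := by
  have h : 2 * G.e * G.n * ∏ i, G.a i ≠ 0 := fun e => G.ch (by rw [e, Nat.cast_zero])
  have hw : ∀ i, 2 ≤ G.w i := fun i => by
    have h1 := Finset.prod_ne_zero_iff.1 (right_ne_zero_of_mul h) (i - 1) (Finset.mem_univ _)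
    have h2 : G.w i ≠ 0 := fun e => by
      have := G.hw i
      rw [e] at this
      omega
    obtain ⟨r, hr⟩ := G.ev i
    omega
  have hs := G.sw
  have hu : Odd G.u := ⟨G.e - 1, by have := G.hu; omega⟩
  rw [Fin.sum_univ_three] at hs
  refine ⟨by have := hw 0; have := hw 1; have := hw 2; omega, ?_, hu, fun e => G.ch ?_, hw⟩
  · obtain ⟨r, hr⟩ := hu.mul hu
    obtain ⟨s, hs⟩ := hu
    exact ⟨r - s, by have := G.hn; have := Nat.le_mul_self G.u; omega⟩
  · push_cast
    rw [e, zero_mul, zero_mul, zero_mul]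

variable {A : Type} [CommRing A] [Algebra K A] (x : Fin 3 → A) (i : Fin 3)

lemma evF : aeval x G.F = x i ^ G.u * x (i + 1) + x (i + 1) ^ G.u * x (i + 2) +
    x (i + 2) ^ G.u * x i + algebraMap K A G.lam *
      (x i ^ G.w i * (x (i + 1) ^ G.w (i + 1) * x (i + 2) ^ G.w (i + 2))) := by
  fin_cases i <;> simp [brF, Fin.sum_univ_three, Fin.prod_univ_three] <;> ring

lemma evD : aeval x (pderiv i G.F) = G.u * x i ^ (G.u - 1) * x (i + 1) + x (i + 2) ^ G.u +
    algebraMap K A G.lam * (G.w i * x i ^ (G.w i - 1) *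
      (x (i + 1) ^ G.w (i + 1) * x (i + 2) ^ G.w (i + 2))) := by
  fin_cases i <;> simp [brF, Fin.sum_univ_three, Fin.prod_univ_three] <;> ring

lemma bd (h : x i = 0) : aeval x G.F = x (i + 1) ^ G.u * x (i + 2) := by
  have := G.three.2.2.1.pos
  have := G.three.2.2.2.2 i
  rw [G.evF x i, h, zero_pow (by omega), zero_pow (by omega)]
  ring

lemma not_sq {L : Type} [Field L] [Algebra K L] (x : Fin 3 → Polynomial L) (k : Fin 3)
    (h0 : x k = 1) (h1 : x (k + 1) = Polynomial.X) (h2 : x (k + 2) = 0) (g : Polynomial L) :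
    g ^ 2 ≠ aeval x G.F := fun h => by
  rw [G.bd x _ h2, add_assoc, add_assoc, show (2 + 1 : Fin 3) = 0 from rfl, add_zero, h0,
    show (2 + 2 : Fin 3) = 1 from rfl, h1, one_pow, one_mul] at h
  have := congrArg Polynomial.natDegree h
  rw [Polynomial.natDegree_pow, Polynomial.natDegree_X] at this
  omega

lemma torus {L : Type} [Field L] [Algebra K L] (x : Fin 3 → L) (hx : ∀ i, x i ≠ 0) :
    ∃ i, aeval x (pderiv i G.F) ≠ 0 := by
  by_contra! h
  set m := algebraMap K L G.lam * ∏ i, x i ^ G.w i with hm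
  have hE : ∀ i, G.u * (G.n * (x i ^ G.u * x (i + 1)) + G.a i * m) +
      (G.n * (x (i + 2) ^ G.u * x i) + G.a (i + 2) * m) = 0 := fun i => by
    have e := h i
    have e1 : (G.n : L) * G.w i = G.u * G.a i + G.a (i + 2) := by
      rw [show i + 2 = i - 1 by fin_cases i <;> rfl]
      exact_mod_cast congrArg (Nat.cast : ℕ → L) (G.hw i)
    have e2 : ∏ i, x i ^ G.w i =
        x i ^ G.w i * (x (i + 1) ^ G.w (i + 1) * x (i + 2) ^ G.w (i + 2)) := by
      fin_cases i <;> simp [Fin.prod_univ_three] <;> ring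
    have e3 := pow_sub_one_mul G.three.2.2.1.pos.ne' (x i)
    have e4 := pow_sub_one_mul (n := G.w i) (by have := G.three.2.2.2.2 i; omega) (x i)
    rw [G.evD] at e
    rw [hm, e2, ← e3, ← e4]
    linear_combination (G.n * x i) * e - algebraMap K L G.lam * (x i ^ (G.w i - 1) * x i *
      (x (i + 1) ^ G.w (i + 1) * x (i + 2) ^ G.w (i + 2))) * e1
  have hc : ((2 * G.e * G.n * ∏ i, G.a i : ℕ) : L) ≠ 0 := by
    rw [← map_natCast (algebraMap K L)]
    exact (map_ne_zero _).2 G.ch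
  have hu : (G.u : L) ^ 3 + 1 ≠ 0 := fun e => hc (by
    have e1 : (G.u : L) + 1 = 2 * G.e := by exact_mod_cast congrArg (Nat.cast : ℕ → L) G.hu
    have e2 : (G.n : L) + G.u = G.u * G.u + 1 := by
      exact_mod_cast congrArg (Nat.cast : ℕ → L) G.hn
    have : (2 * G.e * G.n : L) = 0 := by linear_combination e - G.n * e1 + (G.u + 1) * e2
    push_cast
    rw [this, zero_mul])
  have h0 := hE 0
  have h1 := hE 1
  have h2 := hE 2
  simp only [Fin.reduceAdd] at h0 h1 h2
  have t0 : G.n * (x 0 ^ G.u * x 1) = -(G.a 0 * m) := mul_left_cancel₀ hu (by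
    linear_combination (G.u : L) ^ 2 * h0 + h1 - G.u * h2)
  have t1 : G.n * (x 1 ^ G.u * x 2) = -(G.a 1 * m) := mul_left_cancel₀ hu (by
    linear_combination (G.u : L) ^ 2 * h1 + h2 - G.u * h0)
  have t2 : G.n * (x 2 ^ G.u * x 0) = -(G.a 2 * m) := mul_left_cancel₀ hu (by
    linear_combination (G.u : L) ^ 2 * h2 + h0 - G.u * h1)
  have w0 : G.w 0 * G.n = G.u * G.a 0 + G.a 2 := (mul_comm _ _).trans (G.hw 0)
  have w1 : G.w 1 * G.n = G.u * G.a 1 + G.a 0 := (mul_comm _ _).trans (G.hw 1)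
  have w2 : G.w 2 * G.n = G.u * G.a 2 + G.a 1 := (mul_comm _ _).trans (G.hw 2)
  have hs : G.n = G.a 0 + G.a 1 + G.a 2 := by
    have e := G.sw
    rw [Fin.sum_univ_three, ← G.hu] at e
    refine Nat.eq_of_mul_eq_mul_left G.u.succ_pos ?_
    rw [Nat.succ_eq_add_one]
    linear_combination w0 + w1 + w2 + G.n * e.symm
  have hP : (∏ i, x i ^ G.w i) ^ G.n ≠ 0 :=
    pow_ne_zero _ (Finset.prod_ne_zero_iff.2 fun i _ => pow_ne_zero _ (hx i))
  refine G.disc ((algebraMap K L).injective (mul_right_cancel₀ hP ?_))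
  have e1 : (∏ i, x i ^ G.w i) ^ G.n = (x 0 ^ G.u * x 1) ^ G.a 0 * (x 1 ^ G.u * x 2) ^ G.a 1 *
      (x 2 ^ G.u * x 0) ^ G.a 2 := by
    simp only [Fin.prod_univ_three, mul_pow, ← pow_mul, w0, w1, w2, pow_add]
    ring
  calc _ = (G.a 0 * m) ^ G.a 0 * (G.a 1 * m) ^ G.a 1 * (G.a 2 * m) ^ G.a 2 := by
        rw [map_mul, mul_right_comm, map_pow, ← mul_pow, ← hm, hs]
        simp only [Fin.prod_univ_three, map_mul, map_pow, map_natCast, mul_pow, pow_add]
        ring
    _ = _ := by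
        rw [← neg_eq_iff_eq_neg.2 t0, ← neg_eq_iff_eq_neg.2 t1, ← neg_eq_iff_eq_neg.2 t2, e1,
          map_pow, map_neg, map_natCast, ← neg_mul, ← neg_mul, ← neg_mul]
        generalize -(G.n : L) = c
        simp only [hs, mul_pow c, pow_add]
        ring

end GD

theorem XA_thm [FA1 K] : XA K where
  three G := G.three
  hom G := by
    refine (IsHomogeneous.sum _ _ _ fun i _ => ?_).add ?_
    · exact G.hu ▸ (isHomogeneous_X_pow i _).mul (isHomogeneous_X _ _)
    · exact G.sw ▸ (IsHomogeneous.prod _ _ _ fun i _ => isHomogeneous_X_pow i _).C_mul _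
  sm G L x hx _ := by
    by_cases h : ∀ i, x i ≠ 0
    · exact G.torus x h
    by_contra! o
    obtain ⟨i, hi⟩ := not_forall_not.1 h
    have := G.three.1
    have := G.hu
    have := G.three.2.2.2.2 i
    have e : i + 2 + 1 = i ∧ i + 2 + 2 = i + 1 := by fin_cases i <;> exact ⟨rfl, rfl⟩
    have h1 := o i
    have h2 := o (i + 2)
    rw [G.evD, hi, zero_pow (by omega), zero_pow (by omega)] at h1
    rw [G.evD, e.1, e.2, hi, zero_pow (by omega : G.w i ≠ 0)] at h2
    simp only [mul_zero, zero_mul, zero_add, add_zero] at h1 h2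
    refine hx (funext fun j => ?_)
    obtain rfl | rfl | rfl := (by decide : ∀ i j : Fin 3, j = i ∨ j = i + 1 ∨ j = i + 2) i j
    exacts [hi, pow_eq_zero_iff (by omega) |>.1 h2, pow_eq_zero_iff (by omega) |>.1 h1]
  bd G L x i := G.bd x i
  nsq G L g h := G.not_sq (L := L) ![1, Polynomial.X, 0] 0 rfl rfl rfl
    (aeval ![1, Polynomial.X, 0] g) (by rw [← map_pow, h, aeval_map_algebraMap])
  nsq' G j L M α x k hk hf z h := by
    obtain ⟨ρ, -, hρ, -⟩ := FA1.lift hf (FA1.fr_free {i // i ≠ k} hf.gL) (AlgHom.id K L)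
    let y : Fin 3 → MvPolynomial {i // i ≠ k} L := fun i => if h : i = k then 1 else X ⟨i, h⟩
    let ι := IsScalarTower.toAlgHom K (MvPolynomial {i // i ≠ k} L)
      (FractionRing (MvPolynomial {i // i ≠ k} L))
    have e : ρ z ^ 2 = ι (aeval y G.F) := by
      rw [← map_pow, h, ← AlgHom.comp_apply, ← AlgHom.comp_apply, comp_aeval, comp_aeval]
      refine congrArg (aeval · G.F) (funext fun i => ?_)
      by_cases hi : i = k
      · simp only [y, hi, hk, map_one, dite_true]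
      · exact (hρ ⟨i, hi⟩).trans (by simp only [y, hi, dite_false]; rfl)
    obtain ⟨g, hg⟩ := IsIntegrallyClosed.exists_algebraMap_eq_of_isIntegral_pow
      (R := MvPolynomial {i // i ≠ k} L) two_pos (e ▸ isIntegral_algebraMap)
    let φ := (aeval (R := L) fun i : {i // i ≠ k} =>
      if i.1 = k + 1 then (Polynomial.X : Polynomial L) else 0).restrictScalars K
    have e1 := (by decide : ∀ k : Fin 3, k + 1 ≠ k ∧ k + 2 ≠ k ∧ k + 2 ≠ k + 1) k
    refine G.not_sq (fun i => φ (y i)) k (by simp [y]) (by simp [y, φ, e1.1])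
      (by simp [y, φ, e1.2.1, e1.2.2]) (φ g) ?_
    rw [← comp_aeval, AlgHom.comp_apply, ← map_pow]
    exact congrArg φ (IsFractionRing.injective _ (FractionRing _) (by rw [map_pow, hg, e]; rfl))
  frob G p Q _ _ h L x := by
    obtain ⟨⟨f, rfl⟩, h⟩ := h
    have := charP_of_injective_algebraMap (algebraMap K L).injective p
    simp only [G.evF _ 0, add_pow_char_pow, mul_pow, ← map_pow, h, ← pow_mul, mul_comm (p ^ f)]

end Pool.Agent.Lib.MP_557161_ag.HG
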