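import Pool.Agent.Lib.MP_557161_ag.HG.StY
import Pool.Agent.Lib.MP_557161_ag.HG.FA1

/-!
Generic points of the double plane.
-/

namespace Pool.Agent.Lib.MP_557161_ag.HG

open Pool.Agent.Lib.MP_557161_ag.DL MvPolynomial

variable {K : Type} [Field K]

namespace Xg

variable {L M M₀ : Fld K} {j : ℕ}

lemma card_ne (k : Fin 3) : Nat.card {i : Fin 3 // i ≠ k} = 2 := by
  rw [Nat.card_eq_fintype_card, Fintype.card_subtype_compl, Fintype.card_fin,
    Fintype.card_subtype_eq]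

lemma gen_one (β : M₀ →ₐ[K] M) (θ : M) : gen β (fun _ : Unit => θ) = ⊤ ↔ Gen β θ := by
  rw [Fa1.top_iff, ValA.gen_iff, Set.range_unique]

lemma fin_sq {β : M₀ →ₐ[K] M} {θ : M} {c : M₀} (h : θ ^ 2 = β c) (hg : Gen β θ) : Fin' β := by
  refine hg.fin fun ht => ?_
  have h1 := ht (Polynomial.X ^ 2 - Polynomial.C c) (by
    rw [Polynomial.eval₂_sub, Polynomial.eval₂_X_pow, Polynomial.eval₂_C, h]
    exact sub_self _)
  exact Polynomial.X_pow_sub_C_ne_zero two_pos c h1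

lemma deg_sq {β : M₀ →ₐ[K] M} {θ : M} {c : M₀} (h : θ ^ 2 = β c) (hg : Gen β θ)
    (hc : ∀ z : M₀, z ^ 2 ≠ c) : deg β = 2 := by
  let _ := ValA.alg β
  have : Module.Finite M₀ M := fin_sq h hg
  have hi : IsIntegral M₀ θ := Algebra.IsIntegral.isIntegral θ
  have h1 : minpoly M₀ θ = Polynomial.X ^ 2 - Polynomial.C c := by
    refine (minpoly.eq_of_irreducible_of_monic
      (X_pow_sub_C_irreducible_of_prime Nat.prime_two hc) ?_
      (Polynomial.monic_X_pow_sub_C c two_ne_zero)).symm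
    rw [map_sub, map_pow, Polynomial.aeval_X, Polynomial.aeval_C, h]
    exact sub_self _
  have h2 := IntermediateField.adjoin.finrank hi
  rw [(ValA.gen_iff β θ).1 hg, IntermediateField.finrank_top', h1,
    Polynomial.natDegree_X_pow_sub_C] at h2
  exact h2

lemma ind_sq {β : M₀ →ₐ[K] M} {θ : M} {c : M₀} (h : θ ^ 2 = β c) (hc : ∀ z : M₀, z ^ 2 ≠ c)
    {a b : M₀} (e : β a + β b * θ = 0) : a = 0 ∧ b = 0 := by
  have hb : b = 0 := by
    by_contra hb
    have hb' : β b ≠ 0 := (map_ne_zero β).2 hb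
    refine hc (a / b) (β.injective ?_)
    have h1 : β a = -(β b * θ) := eq_neg_of_add_eq_zero_left e
    show β ((a / b) ^ 2) = β c
    rw [map_pow, map_div₀, h1, ← h]
    field_simp
  rw [hb, map_zero, zero_mul, add_zero] at e
  exact ⟨(map_eq_zero_iff β β.injective).1 e, hb⟩

lemma map_aeval (β : M₀ →ₐ[K] M) (x : Fin 3 → M₀) (f : MvPolynomial (Fin 3) K) :
    β (aeval x f) = aeval (fun i => β (x i)) f := by
  rw [← comp_aeval]; rfl

/-- The vector with coordinate one at `k`. -/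
def ext {A : Type} [One A] (k : Fin 3) (T : {i : Fin 3 // i ≠ k} → A) (i : Fin 3) : A :=
  if h : i = k then 1 else T ⟨i, h⟩

lemma ext_self {A : Type} [One A] (k : Fin 3) (T : {i : Fin 3 // i ≠ k} → A) : ext k T k = 1 :=
  dif_pos rfl

lemma ext_ne {A : Type} [One A] (k : Fin 3) (T : {i : Fin 3 // i ≠ k} → A) :
    (fun i : {i : Fin 3 // i ≠ k} => ext k T i) = T :=
  funext fun i => dif_neg i.2

theorem ex (G : GD K) (hL : Good j L) :
    ∃ (M : Fld K) (α : L →ₐ[K] M) (y : xz.X M), G.GenU j α y := by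
  obtain ⟨M₀, α₀, T, hf⟩ : ∃ (M₀ : Fld K) (α₀ : L →ₐ[K] M₀) (T : {i : Fin 3 // i ≠ 0} → M₀),
      Free j α₀ T := ⟨_, _, _, Fa1.fr_free _ hL⟩
  obtain ⟨z, hz⟩ := IsAlgClosed.exists_pow_nat_eq (M₀.toCl (aeval (ext 0 T) G.F)) two_pos
  obtain ⟨M, β, ρ, θ, hc, hθ, hg⟩ := exists_gen M₀.toCl z
  have h1 : θ ^ 2 = β (aeval (ext 0 T) G.F) := ρ.injective (by
    show ρ (θ ^ 2) = (ρ.comp β) _
    rw [map_pow, hθ, hz, hc])
  have h2 := hf.gM
  rw [card_ne] at h2
  refine ⟨M, β.comp α₀, (fun i => β (ext 0 T i), θ), hL, h2.of_fin (fin_sq h1 hg),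
    ⟨⟨trivial, fun i => (map_ne_zero β).2 ?_⟩, ?_, ?_⟩, ?_⟩
  · by_cases hi : i = 0
    · rw [hi, ext_self]; exact one_ne_zero
    · have h3 := Fa1.ne hf (X ⟨i, hi⟩) (X_ne_zero _)
      rw [eval₂_X] at h3
      exact fun e => h3 ((congrFun (ext_ne 0 T) ⟨i, hi⟩).symm.trans e)
  · show β (ext 0 T 0) = 1
    rw [ext_self, map_one]
  · exact h1.trans (map_aeval β _ _)
  · rw [eq_top_iff, ← (gen_one β θ).2 hg]
    refine Fa1.gen_le (fun a => ?_) fun _ => Fa1.right_mem _ _ (Sum.inr ())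
    have h3 : gen α₀ T ≤ (gen (β.comp α₀) (xz.co (fun i => β (ext 0 T i), θ))).comap β :=
      Fa1.gen_le (fun a => Fa1.left_mem (β.comp α₀) _ a) fun i => by
        rw [← congrFun (ext_ne 0 T) i]
        exact Fa1.right_mem (β.comp α₀) (xz.co (fun i => β (ext 0 T i), θ)) (Sum.inl i.1)
    rw [hf.top] at h3
    exact h3 IntermediateField.mem_top

variable {G : GD K} {α : L →ₐ[K] M} {y : xz.X M}

theorem neg (h : G.GenU j α y) (ε : Bool) : G.GenU j α (sg ε M y) := by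
  cases ε
  · exact h
  · refine ⟨h.gL, h.gM, ⟨h.mem.1, h.mem.2.1, ?_⟩, ?_⟩
    · exact (neg_sq y.2).trans h.mem.2.2
    · rw [eq_top_iff, ← h.top]
      refine Fa1.gen_le (Fa1.left_mem _ _) ?_
      rintro (i | i)
      · exact Fa1.right_mem α (xz.co (ngz M y)) (Sum.inl i)
      · exact neg_mem_iff.1 (Fa1.right_mem α (xz.co (ngz M y)) (Sum.inr i))

lemma sq [XA K] (h : G.GenU j α y) (k : Fin 3) :
    (y.2 / y.1 k ^ G.e) ^ 2 = aeval (fun i => y.1 i / y.1 k) G.F := by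
  have h1 := aeval_smul_of_isHomogeneous (XA.hom G) (y.1 k)⁻¹ y.1
  have h2 : (fun i => y.1 i / y.1 k) = (y.1 k)⁻¹ • y.1 :=
    funext fun i => by rw [Pi.smul_apply, smul_eq_mul, div_eq_inv_mul]
  rw [h2, h1, div_pow, h.mem.2.2, ← pow_mul, mul_comm G.e, inv_pow, div_eq_inv_mul]

theorem chart [XA K] (h : G.GenU j α y) (k : Fin 3) :
    ∃ (M₀ : Fld K) (α₀ : L →ₐ[K] M₀) (β : M₀ →ₐ[K] M) (x : Fin 3 → M₀),
      β.comp α₀ = α ∧ x k = 1 ∧ (∀ i, β (x i) = y.1 i / y.1 k) ∧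
      Free j α₀ (fun i : {i // i ≠ k} => x i) ∧ deg β = 2 ∧ Gen β (y.2 / y.1 k ^ G.e) := by
  obtain ⟨α₀, β, T, hc, hT, ht⟩ :=
    Fa1.exists_sub α fun i : {i : Fin 3 // i ≠ k} => y.1 i / y.1 k
  have hk : y.1 k ≠ 0 := h.mem.1.2 k
  have hx : ∀ i, β (ext k T i) = y.1 i / y.1 k := fun i => by
    by_cases hi : i = k
    · rw [hi, ext_self, map_one, div_self hk]
    · exact (congrArg β (congrFun (ext_ne k T) ⟨i, hi⟩)).trans (hT ⟨i, hi⟩)
  have hs : (y.2 / y.1 k ^ G.e) ^ 2 = β (aeval (ext k T) G.F) := by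
    rw [map_aeval, funext hx]; exact sq h k
  have hg : Gen β (y.2 / y.1 k ^ G.e) := by
    rw [← gen_one, eq_top_iff, ← h.top]
    have h1 : ∀ i, y.1 i / y.1 k ∈ gen β fun _ : Unit => y.2 / y.1 k ^ G.e := fun i =>
      hx i ▸ Fa1.left_mem β _ _
    have h2 : y.1 k ∈ gen β fun _ : Unit => y.2 / y.1 k ^ G.e := by
      have h3 := inv_mem (h1 0)
      rwa [h.mem.2.1, one_div, inv_inv] at h3
    refine Fa1.gen_le (fun a => ?_) ?_
    · rw [← show β (α₀ a) = α a from AlgHom.congr_fun hc a]; exact Fa1.left_mem β _ _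
    · rintro (i | i)
      · have h3 := mul_mem (h1 i) h2
        rwa [div_mul_cancel₀ _ hk] at h3
      · have h3 := mul_mem (Fa1.right_mem β (fun _ : Unit => y.2 / y.1 k ^ G.e) ())
          (pow_mem h2 G.e)
        rwa [div_mul_cancel₀ _ (pow_ne_zero _ hk)] at h3
  have hf : Free j α₀ fun i : {i // i ≠ k} => ext k T i := by
    rw [ext_ne]
    refine ⟨h.gL, ?_, ht⟩
    rw [card_ne]
    exact h.gM.down (ι := β) ((fin_sq hs hg).tr_eq.symm.trans h.gM.2)
  exact ⟨_, α₀, β, ext k T, hc, ext_self k T, hx, hf,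
    deg_sq hs hg (XA.nsq' G _ k (ext_self k T) hf), hg⟩

section Red

variable {R A : Type} [CommRing R] [CommRing A] (k : Fin 3)
  (π : MvPolynomial (Option (Fin 3)) R →+* A)

lemma red₀ (h : π (X (some k)) = 1) (g : MvPolynomial (Fin 3) R) :
    ∃ a : MvPolynomial {i : Fin 3 // i ≠ k} R,
      π (rename some g) = π (rename (fun i => some i.1) a) := by
  induction g using MvPolynomial.induction_on with
  | C c => exact ⟨C c, by rw [rename_C, rename_C]⟩
  | add p q hp hq =>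
    obtain ⟨a, ha⟩ := hp
    obtain ⟨b, hb⟩ := hq
    exact ⟨a + b, by rw [map_add, map_add, map_add, map_add, ha, hb]⟩
  | mul_X p i hp =>
    obtain ⟨a, ha⟩ := hp
    by_cases hi : i = k
    · exact ⟨a, by rw [map_mul, map_mul, rename_X, hi, h, mul_one, ha]⟩
    · exact ⟨a * X ⟨i, hi⟩, by rw [map_mul, map_mul, map_mul, map_mul, rename_X, rename_X, ha]⟩

lemma red (h : π (X (some k)) = 1) {F : MvPolynomial (Fin 3) R}
    (h' : π (X none) ^ 2 = π (rename some F)) (f : MvPolynomial (Option (Fin 3)) R) :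
    ∃ a b : MvPolynomial {i : Fin 3 // i ≠ k} R,
      π f = π (rename (fun i => some i.1) a + rename (fun i => some i.1) b * X none) := by
  induction f using MvPolynomial.induction_on with
  | C c => exact ⟨C c, 0, by simp⟩
  | add p q hp hq =>
    obtain ⟨a, b, e⟩ := hp
    obtain ⟨a', b', e'⟩ := hq
    refine ⟨a + a', b + b', ?_⟩
    simp only [map_add, map_mul] at e e' ⊢
    rw [e, e']; ring
  | mul_X p s hp =>
    obtain ⟨a, b, e⟩ := hp
    cases s with
    | none =>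
      obtain ⟨c, hc⟩ := red₀ k π h F
      refine ⟨b * c, a, ?_⟩
      simp only [map_add, map_mul] at e ⊢
      rw [e, ← hc, ← h']; ring
    | some i =>
      obtain ⟨c, hc⟩ := red₀ k π h (X i)
      rw [rename_X] at hc
      refine ⟨a * c, b * c, ?_⟩
      simp only [map_add, map_mul] at e ⊢
      rw [e, hc]; ring

end Red

theorem ker [XA K] (h : G.GenU j α y) (k : Fin 3) (f : MvPolynomial (Option (Fin 3)) L)
    (hf : eval₂ α.toRingHom (fun s => s.elim (y.2 / y.1 k ^ G.e) fun i => y.1 i / y.1 k) f = 0) :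
    f ∈ Ideal.span {X (some k) - 1,
      X none ^ 2 - rename some (MvPolynomial.map (algebraMap K L) G.F)} := by
  obtain ⟨M₀, α₀, β, x, hc, hk, hx, hF, -, -⟩ := chart h k
  have hs : (y.2 / y.1 k ^ G.e) ^ 2 = β (aeval x G.F) := by
    rw [map_aeval, funext hx]; exact sq h k
  set I : Ideal (MvPolynomial (Option (Fin 3)) L) := Ideal.span {X (some k) - 1,
    X none ^ 2 - rename some (MvPolynomial.map (algebraMap K L) G.F)} with hI
  let ev : MvPolynomial (Option (Fin 3)) L →+* M :=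
    eval₂Hom α.toRingHom fun s => s.elim (y.2 / y.1 k ^ G.e) fun i => y.1 i / y.1 k
  have h1 : I ≤ RingHom.ker ev := by
    rw [hI, Ideal.span_le]
    rintro _ (rfl | rfl)
    · show ev _ = 0
      rw [map_sub, map_one, eval₂Hom_X']
      exact sub_eq_zero.2 (div_self (h.mem.1.2 k))
    · show ev _ = 0
      rw [map_sub, map_pow, eval₂Hom_X', sub_eq_zero]
      refine (sq h k).trans ?_
      show _ = eval₂ _ _ _
      rw [eval₂_rename, eval₂_map, aeval_def]
      congr 1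
      exact RingHom.ext fun c => (α.commutes c).symm
  obtain ⟨a, b, e⟩ := red k (Ideal.Quotient.mk I)
    ((Ideal.Quotient.eq (y := 1)).2 (Ideal.subset_span (Or.inl rfl)))
    (F := MvPolynomial.map (algebraMap K L) G.F)
    (by rw [← map_pow]; exact Ideal.Quotient.eq.2 (Ideal.subset_span (Or.inr rfl))) f
  have h2 : ∀ a : MvPolynomial {i : Fin 3 // i ≠ k} L, ev (rename (fun i => some i.1) a) =
      β (eval₂ α₀.toRingHom (fun i : {i // i ≠ k} => x i) a) := fun a => by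
    rw [Fa1.map_ev, hc]
    show eval₂ _ _ _ = _
    rw [eval₂_rename]
    congr 1
    exact funext fun i => (hx i).symm
  have h3 : ev (f - _) = 0 := h1 (Ideal.Quotient.eq.1 e)
  rw [map_sub, show ev f = 0 from hf, zero_sub, neg_eq_zero, map_add, map_mul, h2, h2,
    eval₂Hom_X'] at h3
  obtain ⟨ha, hb⟩ := ind_sq hs (XA.nsq' G x k hk hF) h3
  have ha' : a = 0 := by_contra fun h0 => Fa1.ne hF a h0 ha
  have hb' : b = 0 := by_contra fun h0 => Fa1.ne hF b h0 hb
  rw [ha', hb', map_zero, zero_mul, add_zero, map_zero] at e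
  exact Ideal.Quotient.eq_zero_iff_mem.1 e

/-- The degree is unchanged when independent variables are adjoined. -/
lemma deg_free {κ : Type} [Finite κ] {L₁ M₁ : Fld K} {α₀ : L →ₐ[K] M₀} {α₁ : L₁ →ₐ[K] M₁}
    {T : κ → M₁} {ι : L₁ →ₐ[K] L} {ρ : M₁ →ₐ[K] M₀} (hF : Free j α₀ fun i => ρ (T i))
    (ht : gen α₁ T = ⊤) (hc : ρ.comp α₁ = α₀.comp ι) : deg ρ = deg ι := by
  by_cases h : L₁.tr = j
  · refine Fa1.deg_eq (Fa1.of_ne (hF.gL.down (ι := ι) h) (fun P hP => ?_) ht) hF hc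
    refine MvPolynomial.map_injective ι.toRingHom ι.injective ?_
    rw [map_zero]
    refine by_contra fun h0 => Fa1.ne hF _ h0 ?_
    rw [Fa1.ev_map, ← hc, ← Fa1.map_ev, hP, map_zero]
  · have h1 : deg ι = 0 := by_contra fun h0 =>
      h (((deg_pos_iff ι).1 (Nat.pos_of_ne_zero h0)).tr_eq.symm.trans hF.gL.2)
    refine (by_contra fun h0 => h ?_ : deg ρ = 0).trans h1.symm
    have h2 := Fa1.tr_top ht
    rw [← ((deg_pos_iff ρ).1 (Nat.pos_of_ne_zero h0)).tr_eq, hF.gM.2, Nat.cast_add] at h2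
    exact le_antisymm ((tr_le ι).trans hF.gL.2.le) ((Cardinal.add_nat_le_add_nat_iff _).1 h2)

theorem dgr [XA K] (h : G.GenU j α y) (s : Set L) :
    Bridge.dg (IntermediateField.adjoin K (α '' s ∪ Set.range y.1)) =
      2 * Bridge.dg (IntermediateField.adjoin K s) := by
  obtain ⟨M₀, α₀, β, x, hc, hk, hx, hF, hd, -⟩ := chart h 0
  have hx' : ∀ i, β (x i) = y.1 i := fun i => by rw [hx, h.mem.2.1, div_one]
  let ι : L.sub (IntermediateField.adjoin K s) →ₐ[K] L := (IntermediateField.adjoin K s).val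
  obtain ⟨α₁, ρ, T, hc', hT, ht⟩ :=
    Fa1.exists_sub (α₀.comp ι) fun i : {i : Fin 3 // i ≠ 0} => x i
  have h1 : deg ρ = deg ι := deg_free (by rw [funext hT]; exact hF) ht hc'
  have h2 : ∀ a, β (ρ (α₁ a)) = α (ι a) := fun a => by
    rw [← hc]; exact congrArg β (AlgHom.congr_fun hc' a)
  have h3 : IntermediateField.adjoin K (α '' s ∪ Set.range y.1) =
      IntermediateField.map (β.comp ρ) ⊤ := by
    refine le_antisymm (IntermediateField.adjoin_le_iff.2 ?_) ?_
    · rintro _ (⟨a, ha, rfl⟩ | ⟨i, rfl⟩)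
      · exact ⟨α₁ ⟨a, IntermediateField.subset_adjoin K s ha⟩, trivial, h2 _⟩
      · exact ⟨ext 0 T i, trivial, by
          by_cases hi : i = 0
          · rw [hi, ext_self, h.mem.2.1]; exact map_one _
          · rw [← hx', ← hT ⟨i, hi⟩, ← congrFun (ext_ne 0 T) ⟨i, hi⟩]; rfl⟩
    · rw [IntermediateField.map_le_iff_le_comap, ← ht]
      refine Fa1.gen_le (fun a => ?_) fun i => ?_
      · show β (ρ (α₁ a)) ∈ IntermediateField.adjoin K (α '' s ∪ Set.range y.1)
        have h4 : IntermediateField.adjoin K s ≤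
            (IntermediateField.adjoin K (α '' s ∪ Set.range y.1)).comap α :=
          IntermediateField.adjoin_le_iff.2 fun b hb =>
            IntermediateField.subset_adjoin K _ (Or.inl ⟨b, hb, rfl⟩)
        rw [h2]
        exact h4 a.2
      · show β (ρ (T i)) ∈ IntermediateField.adjoin K (α '' s ∪ Set.range y.1)
        rw [hT, hx']
        exact IntermediateField.subset_adjoin K _ (Or.inr ⟨i.1, rfl⟩)
  rw [h3, Bridge.dg_map, Bridge.dg_top, one_mul, deg_comp, h1, hd, mul_comm]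
  rfl

end Xg

theorem XG_thm {K : Type} [Field K] [Base K] [FW0 K] [XA K] : XG K where
  ex G _ _ hL := Xg.ex G hL
  neg := Xg.neg
  chart := Xg.chart
  ker := Xg.ker
  dgr := Xg.dgr

end Pool.Agent.Lib.MP_557161_ag.HG
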