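import Pool.Agent.Lib.MP_557161_ag.HG.StY
import Pool.Agent.Lib.MP_2c79a0_ag.H68Dim

/-!
The ideal of the double plane.
-/

namespace Pool.Agent.Lib.MP_557161_ag.HG

open Pool.Agent.Lib.MP_557161_ag.DL MvPolynomial

namespace XJa

variable {k : Type} [Field k] {e : ℕ} {F : MvPolynomial (Fin 3) k} {B B' : Type} [CommRing B]
  [Algebra k B] [CommRing B']

/-- The coordinates of the point `(x, z)`. -/
def vp (e : ℕ) (x : Fin 3 → B) (z : B) (s : Option (Fin e → Fin 3)) : B :=
  s.elim z fun m => ∏ j, x (m j)

theorem map_vp (π : B →+* B') (x : Fin 3 → B) (z : B) (s : Option (Fin e → Fin 3)) :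
    π (vp e x z s) = vp e (fun i => π (x i)) (π z) s := by
  cases s
  · rfl
  · simp [vp]

theorem aeval_nuP (x : Fin 3 → B) (z : B) (f : MvPolynomial (Option (Fin e → Fin 3)) k) :
    aeval (fun s : Option (Fin 3) => s.elim z x) (aeval (nuP k e) f) = aeval (vp e x z) f := by
  rw [← AlgHom.comp_apply, comp_aeval]
  congr 2
  funext s
  cases s <;> simp [nuP, vp]

theorem aeval_H (x : Fin 3 → B) (z : B) :
    aeval (fun s : Option (Fin 3) => s.elim z x) (X none ^ 2 - rename some F) =
      z ^ 2 - aeval x F := by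
  rw [map_sub, map_pow, aeval_X, aeval_rename]
  rfl

theorem vp_mem {x : Fin 3 → B} {z : B} (h : z ^ 2 = aeval x F) {f} (hf : f ∈ dpI e F) :
    aeval (vp e x z) f = 0 := by
  obtain ⟨g, hg⟩ := Ideal.mem_span_singleton'.1 (Ideal.mem_comap.1 hf)
  rw [← aeval_nuP, ← hg, map_mul, aeval_H, h, sub_self, mul_zero]

theorem mem_of {f} (h : ∀ (B : Type) [CommRing B] [Algebra k B] (x : Fin 3 → B) (z : B),
    z ^ 2 = aeval x F → aeval (vp e x z) f = 0) : f ∈ dpI e F := by
  let J : Ideal (MvPolynomial (Option (Fin 3)) k) := Ideal.span {X none ^ 2 - rename some F}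
  have e1 : aeval (fun s : Option (Fin 3) => s.elim (Ideal.Quotient.mk J (X none))
      fun i => Ideal.Quotient.mk J (X (some i))) = Ideal.Quotient.mkₐ k J :=
    algHom_ext fun s => by cases s <;> exact aeval_X _ _
  have := h _ (fun i => Ideal.Quotient.mk J (X (some i))) (Ideal.Quotient.mk J (X none)) (by
    rw [← sub_eq_zero, ← aeval_H, e1]
    exact Ideal.Quotient.eq_zero_iff_mem.2 (Ideal.subset_span rfl))
  rw [← aeval_nuP, e1] at this
  exact Ideal.mem_comap.2 ((Ideal.Quotient.eq_zero_iff_mem (I := J)).1 this)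

theorem aeval_smul {σ : Type} {f : MvPolynomial σ k} {n : ℕ} (hf : f.IsHomogeneous n) (c : B)
    (x : σ → B) : aeval (c • x) f = c ^ n * aeval x f := by
  rw [aeval_def, aeval_def, eval₂_eq, eval₂_eq, Finset.mul_sum]
  refine Finset.sum_congr rfl fun d hd => ?_
  simp only [Pi.smul_apply, smul_eq_mul, mul_pow, Finset.prod_mul_distrib,
    Finset.prod_pow_eq_pow_sum]
  rw [← hf.degree_eq_sum_deg_support hd]
  ring

omit [Algebra k B] in
theorem vp_smul (c : B) (x : Fin 3 → B) (z : B) : vp e (c • x) (c ^ e * z) = c ^ e • vp e x z :=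
  funext fun s => by
    cases s
    · rfl
    · simp [vp, Finset.prod_mul_distrib]

theorem hom (he : 0 < e) (hF : F.IsHomogeneous (2 * e)) : Homog (dpI e F) := by
  intro f hf n
  refine mem_of fun B _ _ x z h => ?_
  have h1 := vp_mem (B := Polynomial B) (x := Polynomial.X • fun i => Polynomial.C (x i))
    (z := Polynomial.X ^ e * Polynomial.C z) (by
      rw [aeval_smul hF, mul_pow, ← pow_mul, mul_comm e, ← map_pow, h]
      exact congrArg _ (map_aeval x Polynomial.C F)) hf
  rw [vp_smul, ← sum_homogeneousComponent f, map_sum] at h1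
  have h2 : ∀ i, aeval ((Polynomial.X : Polynomial B) ^ e • vp e (fun i => Polynomial.C (x i))
      (Polynomial.C z)) (homogeneousComponent i f) =
      Polynomial.monomial (e * i) (aeval (vp e x z) (homogeneousComponent i f)) := fun i => by
    rw [aeval_smul (homogeneousComponent_isHomogeneous i f), ← funext (map_vp Polynomial.C x z),
      ← pow_mul, ← Polynomial.C_mul_X_pow_eq_monomial, mul_comm]
    exact congrArg (· * _) (map_aeval _ Polynomial.C _).symm
  have h3 := congrArg (Polynomial.coeff · (e * n)) h1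
  simp only [h2, Polynomial.finsetSum_coeff, Polynomial.coeff_monomial, Nat.mul_right_inj he.ne',
    Finset.sum_ite_eq', Polynomial.coeff_zero] at h3
  split_ifs at h3 with h4
  · exact h3
  · rw [homogeneousComponent_eq_zero _ _ (by simpa using h4), map_zero]

section Up

variable {K : Type} [Field K] [Algebra k K]

theorem co_C {σ : Type} (φ : K →ₗ[k] k) (c : K) :
    T0.co φ (C c : MvPolynomial σ K) = C (φ c) := by
  classical
  ext m
  rw [T0.coeff_co, coeff_C, coeff_C]
  split_ifs
  exacts [rfl, map_zero φ]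

theorem aeval_up (g : MvPolynomial (Option (Fin e → Fin 3)) k) :
    aeval (nuP K e) (T0.up K g) = T0.up K (aeval (nuP k e) g) := by
  induction g using MvPolynomial.induction_on with
  | C c => simp
  | add f g hf hg => simp only [map_add, hf, hg]
  | mul_X f s hf =>
    simp only [map_mul, hf, map_X, aeval_X]
    cases s <;> simp [nuP]

theorem co_aeval (φ : K →ₗ[k] k) (f : MvPolynomial (Option (Fin e → Fin 3)) K) :
    T0.co φ (aeval (nuP K e) f) = aeval (nuP k e) (T0.co φ f) := by
  induction f using MvPolynomial.induction_on' with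
  | monomial m c =>
    rw [show monomial m c = T0.up K (monomial m (1 : k)) * C c by
      rw [map_monomial, map_one, mul_comm, C_mul_monomial, mul_one], map_mul, aeval_up, algHom_C,
      algebraMap_eq, T0.co_mul, T0.co_mul, co_C, co_C, map_mul, algHom_C, algebraMap_eq]
  | add f g hf hg => simp only [map_add, hf, hg]

theorem up (e : ℕ) (F : MvPolynomial (Fin 3) k) :
    (dpI e F).map (T0.up K) = dpI e (MvPolynomial.map (algebraMap k K) F) := by
  ext f
  have : Ideal.span {X none ^ 2 - rename some (MvPolynomial.map (algebraMap k K) F)} =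
      (Ideal.span {X none ^ 2 - rename some F}).map (T0.up K) := by
    rw [Ideal.map_span, Set.image_singleton, map_sub, map_pow, map_X, map_rename]
  simp only [dpI, T0.mem_up, this, Ideal.mem_comap, co_aeval]

end Up

open Pool.Agent.Lib.MP_2c79a0_ag.H68Dim in
theorem dim (he : 0 < e) (hF : ∀ g : MvPolynomial (Fin 3) k, g ^ 2 ≠ F) : (dpI e F).IsPrime ∧
    ringKrullDim (MvPolynomial (Option (Fin e → Fin 3)) k ⧸ dpI e F) = (2 + 1 : ℕ) := by
  let g : Polynomial (MvPolynomial (Fin 3) k) := Polynomial.X ^ 2 - Polynomial.C F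
  have hm : g.Monic := Polynomial.monic_X_pow_sub_C F two_ne_zero
  have hn : g.natDegree = 2 := Polynomial.natDegree_X_pow_sub_C
  have hp : Prime g := ((hm.irreducible_iff_roots_eq_zero_of_degree_le_three hn.ge
    (by omega)).2 (Multiset.eq_zero_of_forall_notMem fun a ha => hF a (by
      simpa [g, sub_eq_zero] using (Polynomial.mem_roots hm.ne_zero).1 ha))).prime
  have := AdjoinRoot.isDomain_of_prime hp
  have := hm.finite_adjoinRoot
  have : FaithfulSMul (MvPolynomial (Fin 3) k) (AdjoinRoot g) :=
    (faithfulSMul_iff_algebraMap_injective _ _).2 (AdjoinRoot.of.injective_of_degree_ne_zero (by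
      rw [Polynomial.degree_eq_natDegree hm.ne_zero, hn]; decide))
  let x : Fin 3 → AdjoinRoot g := fun i => AdjoinRoot.of g (X i)
  have hx : ∀ a : MvPolynomial (Fin 3) k, aeval x a = AdjoinRoot.of g a := fun a =>
    DFunLike.congr_fun (algHom_ext (f := aeval x) (g := IsScalarTower.toAlgHom k _ (AdjoinRoot g))
      fun i => aeval_X _ _) a
  have hz : AdjoinRoot.root g ^ 2 = aeval x F := by
    have := AdjoinRoot.eval₂_root g
    rw [Polynomial.eval₂_sub, Polynomial.eval₂_X_pow, Polynomial.eval₂_C, sub_eq_zero] at this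
    rw [this, hx]
  let ψ : MvPolynomial (Option (Fin e → Fin 3)) k →ₐ[k] AdjoinRoot g :=
    aeval (vp e x (AdjoinRoot.root g))
  let _ := ψ.toRingHom.toAlgebra
  have hi : Algebra.IsIntegral (MvPolynomial (Option (Fin e → Fin 3)) k) (AdjoinRoot g) := by
    have h1 : ∀ a : MvPolynomial (Fin 3) k, ψ.toRingHom.IsIntegralElem (AdjoinRoot.of g a) := by
      intro a
      induction a using MvPolynomial.induction_on with
      | C c => exact (ψ.commutes c) ▸ ψ.toRingHom.isIntegralElem_map (x := C c)
      | add f g hf hg => rw [map_add]; exact hf.add _ hg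
      | mul_X f i hf =>
        rw [map_mul]
        refine hf.mul _ (IsIntegral.of_pow he ?_)
        have : x i ^ e = ψ (X (some fun _ => i)) := by simp [ψ, vp]
        exact this ▸ ψ.toRingHom.isIntegralElem_map
    refine ⟨fun b => AdjoinRoot.induction_on _ b fun q => ?_⟩
    induction q using Polynomial.induction_on' with
    | add f g hf hg => rw [map_add]; exact hf.add hg
    | monomial n a =>
      rw [← Polynomial.C_mul_X_pow_eq_monomial, map_mul, map_pow, AdjoinRoot.mk_X, AdjoinRoot.mk_C]
      refine IsIntegral.mul (h1 a) (IsIntegral.pow ?_ n)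
      have : AdjoinRoot.root g = ψ (X none) := by simp [ψ, vp]
      exact this ▸ ψ.toRingHom.isIntegralElem_map
  have hk : dpI e F = (PrimeSpectrum.comap
      (algebraMap (MvPolynomial (Option (Fin e → Fin 3)) k) (AdjoinRoot g)) ⊥).asIdeal := by
    refine le_antisymm (fun f hf => vp_mem hz hf) fun f hf => mem_of fun B _ _ y z h => ?_
    let χ : AdjoinRoot g →ₐ[k] B := AdjoinRoot.liftAlgHom _ (aeval y) z (by simp [g, h])
    have e1 := congrArg χ (show ψ f = 0 from hf)
    rw [map_zero, ← AlgHom.comp_apply, comp_aeval] at e1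
    refine Eq.trans (congrArg (fun y => aeval y f) (funext fun s => ?_)) e1
    refine Eq.trans ?_ (map_vp χ.toRingHom _ _ s).symm
    simp [χ, x]
  rw [hk]
  refine ⟨PrimeSpectrum.isPrime _, ?_⟩
  rw [ringKrullDim_quot, coheight_comap, ← coheight_comap (A := MvPolynomial (Fin 3) k), comap_bot,
    coheight_bot_mvPolynomial]
  rfl

end XJa

theorem XJ_thm : XJ :=
  ⟨fun he hF => XJa.hom he hF, fun e F => XJa.up e F, fun he hF => XJa.dim he hF⟩

end Pool.Agent.Lib.MP_557161_ag.HG
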