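import Pool.Agent.Lib.MP_557161_ag.HG.StY

/-!
The Frobenius map of the double plane.
-/

namespace Pool.Agent.Lib.MP_557161_ag.HG

open Pool.Agent.Lib.MP_557161_ag.DL

variable {K : Type} [Field K] {p : ℕ} [Fact p.Prime] [CharP K p] {G : GD K} {Q q : ℕ}

namespace XVA

theorem hom (h : G.Fr p Q) (L : Fld K) : ∃ F : L →+* L, ∀ a, a ^ Q = F a := by
  obtain ⟨⟨f, rfl⟩, -⟩ := h
  have : CharP L p := charP_of_injective_algebraMap (algebraMap K L).injective p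
  exact ⟨iterateFrobenius L p f, fun _ => rfl⟩

theorem pinj (h : G.Fr p Q) {L : Fld K} {a b : L} (e : a ^ Q = b ^ Q) : a = b := by
  obtain ⟨F, hF⟩ := hom h L
  exact F.injective (by rw [← hF, ← hF, e])

omit [CharP K p] in
theorem ne (h : G.Fr p Q) : Q ≠ 0 := by
  obtain ⟨⟨f, rfl⟩, -⟩ := h
  exact pow_ne_zero _ (Fact.out : p.Prime).ne_zero

theorem inj (h : G.Fr p Q) (L : Fld K) : Function.Injective (frb Q L) := fun _ _ e =>
  Prod.ext (funext fun i => pinj h (congrFun (congrArg Prod.fst e) i))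
    (pinj h (congrArg Prod.snd e))

theorem frb_ngz (h : G.Fr p Q) (L : Fld K) (y : xz.X L) :
    frb Q L (ngz L y) = ngz L (frb Q L y) := by
  obtain ⟨F, hF⟩ := hom h L
  exact Prod.ext rfl ((hF _).trans ((map_neg F _).trans (congrArg Neg.neg (hF _).symm)))

theorem mem_ngz {L : Fld K} {y : xz.X L} : G.UU.mem L (ngz L y) ↔ G.UU.mem L y :=
  ⟨fun h => ⟨h.1, h.2.1, (neg_sq y.2).symm.trans h.2.2⟩,
    fun h => ⟨h.1, h.2.1, (neg_sq y.2).trans h.2.2⟩⟩

theorem lift_frb {M L : Fld K} {R : Rel M L} {x : xz.X M} {x' : xz.X L} (e : xz.lift R.r x x') :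
    xz.lift R.r (frb Q M x) (frb Q L x') := ⟨fun i => Rel.pow (e.1 i) Q, Rel.pow e.2 Q⟩

theorem mem_of_pow {M : Fld K} {O : Pl M} {a : M} (h0 : Q ≠ 0) (h : a ^ Q ∈ O.O) : a ∈ O.O := by
  rw [← O.O.valuation_le_one_iff] at h ⊢
  rw [map_pow] at h
  exact (pow_le_one_iff h0).1 h

omit [Fact p.Prime] [CharP K p] in
theorem pow (h : G.Fr p q) (m : ℕ) : G.Fr p (q ^ m) := by
  obtain ⟨⟨f, e⟩, h⟩ := h
  refine ⟨⟨f * m, by rw [e, pow_mul]⟩, ?_⟩
  induction m with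
  | zero => rw [pow_zero, pow_one]
  | succ m ih => rw [pow_succ, pow_mul, ih, h]

theorem cfg_upd (h : G.Fr p q) {T : Type} [DecidableEq T] (e : T → ℕ) (L : Fld K)
    (x : T → xz.X L) (i : T) : cfg q e L (Function.update x i (ngz L (x i))) =
      Function.update (cfg q e L x) i (ngz L (cfg q e L x i)) := by
  funext t
  by_cases c : t = i
  · subst c
    rw [Function.update_self, cfg, Function.update_self, frb_ngz (pow h _), cfg]
  · rw [Function.update_of_ne c, cfg, Function.update_of_ne c, cfg]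

variable [XA K]

theorem mem_frb (h : G.Fr p Q) {L : Fld K} {y : xz.X L} :
    G.UU.mem L (frb Q L y) ↔ G.UU.mem L y := by
  have e := XA.frob G h L y.1
  refine ⟨fun m => ⟨⟨trivial, fun i c => m.1.2 i ?_⟩, pinj h (m.2.1.trans (one_pow Q).symm),
    pinj h ((pow_right_comm _ _ _).trans (m.2.2.trans e))⟩,
    fun m => ⟨⟨trivial, fun i => pow_ne_zero _ (m.1.2 i)⟩, ?_, ?_⟩⟩
  · exact (congrArg (· ^ Q) c).trans (zero_pow (ne h))
  · exact (congrArg (· ^ Q) m.2.1).trans (one_pow Q)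
  · exact (pow_right_comm _ _ _).trans ((congrArg (· ^ Q) m.2.2).trans e.symm)

theorem mp (h : G.Fr p Q) : Mp G.UU G.UU (frb Q) :=
  ⟨fun _ _ _ _ _ _ _ e => lift_frb e, fun _ _ m => (mem_frb h).2 m⟩

theorem pro (h : G.Fr p Q) : Pro G.UU G.UU (frb Q) := fun M O x z _ _ m e => by
  have l : xz.lift (Rel.ofPl O).r x (xz.map O.rd x) :=
    ⟨fun i => ⟨mem_of_pow (ne h) (e.1 i).1, rfl⟩, mem_of_pow (ne h) e.2.1, rfl⟩
  exact ⟨_, (mem_frb h).1 (Cd.lift_eq e (lift_frb l) rfl ▸ m), l⟩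

theorem srj (h : G.Fr p Q) : Srj G.UU G.UU (frb Q) := fun L _ z m => by
  choose r hr using fun a : L => IsAlgClosed.exists_pow_nat_eq a (Nat.pos_of_ne_zero (ne h))
  have e : frb Q L (fun i => r (z.1 i), r z.2) = z := Prod.ext (funext fun i => hr _) (hr _)
  exact ⟨_, (mem_frb h).1 (e.symm ▸ m), e⟩

variable {T : Type} [Finite T]

theorem mem_cfg (h : G.Fr p q) (e : T → ℕ) {L : Fld K} {x : T → xz.X L} :
    (G.UU.pi T).mem L (cfg q e L x) ↔ (G.UU.pi T).mem L x :=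
  forall_congr' fun _ => mem_frb (pow h _)

theorem cmp (h : G.Fr p q) (e : T → ℕ) : Mp (G.UU.pi T) (G.UU.pi T) (cfg q e) :=
  ⟨fun _ _ _ _ _ _ _ l i => lift_frb (l i), fun _ _ m => (mem_cfg h e).2 m⟩

theorem cpro (h : G.Fr p q) (e : T → ℕ) : Pro (G.UU.pi T) (G.UU.pi T) (cfg q e) :=
  fun M O x z hO m m' l => by
    choose x' h1 h2 using fun i => pro (pow h (e i)) M O (x i) (z i) hO (m i) (m' i) (l i)
    exact ⟨x', h1, h2⟩

theorem csrj (h : G.Fr p q) (e : T → ℕ) : Srj (G.UU.pi T) (G.UU.pi T) (cfg q e) :=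
  fun L _ z m => by
    choose x h1 h2 using fun i => srj (pow h (e i)) L (z i) (m i)
    exact ⟨x, h1, funext h2⟩

theorem pull (h : G.Fr p q) {j : ℕ} (φ : AF j (G.UU.pi T)) (e : T → ℕ) :
    ∃ ψ : AF j (G.UU.pi T), ∀ L x, ψ.a L x = φ.a L (cfg q e L x) := by
  refine ⟨φ.pull (cmp h e).mor ((cpro h e).mor _), fun L x => ?_⟩
  by_cases m : (G.UU.pi T).mem L x
  · exact Fe.pull_of_mem _ _ _ ((ASp.sp_some _).2 m)
  · exact (not_not.1 fun c => m ((ASp.sp_some _).1 (Pre.supp _ _ _ c).2)).trans (not_not.1 fun c =>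
      m ((mem_cfg h e).1 ((ASp.sp_some _).1 (φ.supp _ _ c).2))).symm

theorem desc [Base K] (h : G.Fr p q) {j : ℕ} (φ : AF j (G.UU.pi T)) (e : T → ℕ) :
    ∃ ψ : AF j (G.UU.pi T), ∀ L x, φ.a L x = ψ.a L (cfg q e L x) := by
  obtain ⟨ψ, hψ⟩ := descent ((cpro h e).mor (cmp h e)) ((csrj h e).mor _) φ (by
    rintro L _ _ ⟨x, rfl, -⟩ ⟨x', rfl, -⟩ c
    have c' : cfg q e L x = cfg q e L x' := Option.some.inj c
    rw [show x = x' from funext fun i => inj (pow h (e i)) L (congrFun c' i)])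
  refine ⟨ψ, fun L x => ?_⟩
  by_cases m : Good j L ∧ (G.UU.pi T).mem L x
  · have s : Function.Surjective (AlgHom.id K L) := Function.surjective_id
    have := hψ L L (AlgHom.id K L) (some (cfg q e L x)) (some x) m.1 (Fin'.of_surj s)
      ((ASp.sp_some _).2 m.2) (Amb.map_id _ _).symm
    rwa [deg_of_surj s, Nat.cast_one, one_mul] at this
  · exact (not_not.1 fun c => m ⟨(φ.supp _ _ c).1, (ASp.sp_some _).1 (φ.supp _ _ c).2⟩).trans
      (not_not.1 fun c => m ⟨(ψ.supp _ _ c).1,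
        (mem_cfg h e).1 ((ASp.sp_some _).1 (ψ.supp _ _ c).2)⟩).symm

theorem anti [Base K] [DecidableEq T] (h : G.Fr p q) {j : ℕ} {φ ψ : AF j (G.UU.pi T)} {e : T → ℕ}
    (hψ : ∀ L x, φ.a L x = ψ.a L (cfg q e L x)) (ha : AntiP φ.a) : AntiP ψ.a := by
  intro i L x
  by_cases m : Good j L ∧ (G.UU.pi T).mem L x
  · obtain ⟨L', ι, _, a1, ⟨x', rfl, -⟩, a3⟩ :=
      CKL.surj_lift ((csrj h e).mor (cmp h e)) ((ASp.sp_some _).2 m.2)
    have a4 : cfg q e L' x' = (Cd.pi T xz).map ι x := Option.some.inj a3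
    have v : ∀ y, ψ.a L' ((Cd.pi T xz).map ι y) = deg ι * ψ.a L y :=
      fun y => ψ.ext ι (some y) m.1 (m.1.of_fin a1)
    refine mul_left_cancel₀ (deg_ne a1) ?_
    rw [mul_neg, ← v, ← v, ← a4, ← hψ, ← ha i, hψ, cfg_upd h, a4]
    refine congrArg _ (funext fun t => ?_)
    by_cases c : t = i
    · subst c
      simp only [Function.update_self]
      exact Prod.ext rfl (map_neg ι _)
    · simp only [Function.update_of_ne c]
  · rw [show ψ.a L x = 0 from not_not.1 fun c =>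
      m ⟨(ψ.supp _ _ c).1, (ASp.sp_some _).1 (ψ.supp _ _ c).2⟩, neg_zero]
    refine not_not.1 fun c => m ⟨(ψ.supp _ _ c).1, fun t => ?_⟩
    have := (ASp.sp_some _).1 (ψ.supp _ _ c).2 t
    by_cases c : t = i
    · subst c
      rw [Function.update_self] at this
      exact mem_ngz.1 this
    · rwa [Function.update_of_ne c] at this

omit [XA K] in
theorem co_cfg (e : T → ℕ) {L L₁ : Fld K} (ι : L₁ →ₐ[K] L) (x : T → xz.X L) (s : (Cd.pi T xz).ι)
    (h : (Cd.pi T xz).co x s ∈ Set.range ι) : (Cd.pi T xz).co (cfg q e L x) s ∈ Set.range ι := by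
  obtain ⟨a, ha⟩ := h
  refine ⟨a ^ q ^ e s.1, ?_⟩
  rw [map_pow, ha]
  obtain ⟨t, i | i⟩ := s <;> rfl

end XVA

theorem XV_thm [Base K] [XA K] : XV K p where
  mp h := ⟨XVA.mp h, XVA.pro h, XVA.srj h, XVA.inj h⟩
  pow := XVA.pow
  pull {G q} h T _ _ j φ e := by
    obtain ⟨ψ, hψ⟩ := XVA.pull h φ e
    refine ⟨ψ, hψ, fun ha i L x => ?_, fun sd hk L L₁ L₂ ι₁ ι₂ w h1 h2 h3 => ?_⟩
    · rw [hψ, hψ, XVA.cfg_upd h, ha]
    · rw [hψ]
      exact hk L L₁ L₂ ι₁ ι₂ _ (fun s c => XVA.co_cfg e ι₁ w s (h1 s c))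
        (fun s c => XVA.co_cfg e ι₂ w s (h2 s c)) h3
  desc {G q} h T _ _ j φ e := by
    obtain ⟨ψ, hψ⟩ := XVA.desc h φ e
    exact ⟨ψ, hψ, XVA.anti h hψ⟩

end Pool.Agent.Lib.MP_557161_ag.HG
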