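import Pool.Agent.Lib.MP_557161_ag.HG.StX

/-!
Points of the double plane.
-/

namespace Pool.Agent.Lib.MP_557161_ag.HG

open Pool.Agent.Lib.MP_557161_ag.DL MvPolynomial Submodule

variable {K : Type} [Field K]

namespace YAp

lemma wdg_eq_zero {L σ : Type} [Field L] {a b : σ → L} (ha : a ≠ 0) :
    wdg a b = 0 ↔ ∃ c : L, b = c • a := by
  constructor
  · intro h
    obtain ⟨k, hk⟩ := Function.ne_iff.1 ha
    have hk : a k ≠ 0 := hk
    refine ⟨b k / a k, funext fun i => ?_⟩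
    have : a k * b i - a i * b k = 0 := congrFun h (k, i)
    show b i = b k / a k * a i
    field_simp
    linear_combination this
  · rintro ⟨c, rfl⟩
    funext s
    show a s.1 * (c * a s.2) - a s.2 * (c * a s.1) = 0
    ring

lemma sq_mem {M : Fld K} (O : Pl M) {z : M} (h : z ^ 2 ∈ O.O) : z ∈ O.O := by
  rcases O.O.mem_or_inv_mem z with h1 | h1
  · exact h1
  · by_cases h0 : z = 0
    · rw [h0]; exact zero_mem _
    · have : z = z ^ 2 * z⁻¹ := by field_simp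
      rw [this]; exact mul_mem h h1

lemma prod_taylor {R α : Type} [CommRing R] [DecidableEq α] (S : Subring R) (x v : α → R) (ρ : R)
    (hx : ∀ i, x i ∈ S) (hv : ∀ i, v i ∈ S) (hρ : ρ ∈ S) (s : Finset α) :
    ∃ r ∈ S, ∏ i ∈ s, (x i + ρ * v i) =
      ∏ i ∈ s, x i + ρ * ∑ i ∈ s, v i * ∏ j ∈ s.erase i, x j + ρ ^ 2 * r := by
  induction s using Finset.induction_on with
  | empty => exact ⟨0, zero_mem _, by simp⟩
  | insert a s ha ih =>
    obtain ⟨r, hr, e⟩ := ih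
    have h1 : ∑ i ∈ s, v i * ∏ j ∈ s.erase i, x j ∈ S :=
      sum_mem fun i _ => mul_mem (hv i) (prod_mem fun j _ => hx j)
    refine ⟨x a * r + v a * ∑ i ∈ s, v i * ∏ j ∈ s.erase i, x j + ρ * v a * r,
      add_mem (add_mem (mul_mem (hx a) hr) (mul_mem (hv a) h1))
        (mul_mem (mul_mem hρ (hv a)) hr), ?_⟩
    have h2 : ∑ i ∈ s, v i * ∏ j ∈ (insert a s).erase i, x j =
        x a * ∑ i ∈ s, v i * ∏ j ∈ s.erase i, x j := by
      rw [Finset.mul_sum]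
      refine Finset.sum_congr rfl fun i hi => ?_
      rw [Finset.erase_insert_of_ne (fun e : a = i => ha (e ▸ hi)),
        Finset.prod_insert fun e => ha (Finset.mem_of_mem_erase e)]
      ring
    rw [Finset.prod_insert ha, Finset.prod_insert ha, Finset.sum_insert ha, Finset.erase_insert ha,
      e, h2]
    ring

lemma aeval_mem {M : Fld K} {O : Pl M} {σ : Type} {x : σ → M} (h : IntV O x)
    (f : MvPolynomial σ K) : aeval x f ∈ O.O :=
  (Rel.aeval (R := Rel.ofPl O) (x' := rdV O x) (fun i => ⟨h i, rfl⟩) f).1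

lemma poly_taylor {M : Fld K} {O : Pl M} {σ : Type} [Fintype σ] {x v : σ → M} {ρ : M}
    (hx : IntV O x) (hv : IntV O v) (hρ : ρ ∈ O.O) (f : MvPolynomial σ K) :
    ∃ r ∈ O.O, aeval (x + ρ • v) f =
      aeval x f + ρ * ∑ i, aeval x (pderiv i f) * v i + ρ ^ 2 * r := by
  classical
  induction f using MvPolynomial.induction_on with
  | C c => exact ⟨0, zero_mem _, by simp⟩
  | add f g hf hg =>
    obtain ⟨r, hr, e⟩ := hf
    obtain ⟨r', hr', e'⟩ := hg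
    refine ⟨r + r', add_mem hr hr', ?_⟩
    simp only [map_add, add_mul, Finset.sum_add_distrib, e, e']
    ring
  | mul_X f i hf =>
    obtain ⟨r, hr, e⟩ := hf
    have h1 : ∑ j, aeval x (pderiv j f) * v j ∈ O.O :=
      sum_mem fun j _ => mul_mem (aeval_mem hx _) (hv j)
    refine ⟨(∑ j, aeval x (pderiv j f) * v j) * v i + r * x i + ρ * r * v i,
      add_mem (add_mem (mul_mem h1 (hv i)) (mul_mem hr (hx i))) (mul_mem (mul_mem hρ hr) (hv i)), ?_⟩
    have h2 : ∑ j, aeval x (pderiv j (f * X i)) * v j =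
        (∑ j, aeval x (pderiv j f) * v j) * x i + aeval x f * v i := by
      have h3 : ∀ j, aeval x (pderiv j (f * X i)) * v j =
          aeval x (pderiv j f) * v j * x i + if i = j then aeval x f * v j else 0 := fun j => by
        rw [pderiv_mul, pderiv_X, map_add, map_mul, map_mul, aeval_X]
        by_cases e : i = j
        · subst e
          simp
          ring
        · simp [e]
          ring
      simp only [h3, Finset.sum_add_distrib, Finset.sum_ite_eq, Finset.mem_univ, if_true,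
        Finset.sum_mul]
    rw [map_mul, map_mul, aeval_X, aeval_X, e, h2, Pi.add_apply, Pi.smul_apply, smul_eq_mul]
    ring

variable {G : GD K} {L M : Fld K}

lemma nu_const (y : xz.X L) (k : Fin 3) : G.nu y (some fun _ => k) = y.1 k ^ G.e := by
  simp [GD.nu]

lemma nu_upd (y : xz.X L) (o : Fin G.e) (k i : Fin 3) :
    G.nu y (some (Function.update (fun _ => k) o i)) * y.1 k = y.1 i * y.1 k ^ G.e := by
  rw [← nu_const y k]
  show (∏ j, y.1 (Function.update (fun _ => k) o i j)) * _ = _ * ∏ _j : Fin G.e, y.1 k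
  rw [← Finset.mul_prod_erase _ _ (Finset.mem_univ o),
    ← Finset.mul_prod_erase _ (fun _ => y.1 k) (Finset.mem_univ o), Function.update_self,
    Finset.prod_congr rfl fun j hj => by
      rw [Function.update_of_ne (Finset.ne_of_mem_erase hj)]]
  ring

lemma nu_eq {y y' : xz.X L} (e : G.pt L y = G.pt L y') : ∃ c : L, c • G.nu y = G.nu y' :=
  have e' : span L {G.nu y} = span L {G.nu y'} := e
  mem_span_singleton.1 (e'.ge (mem_span_singleton_self _))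

lemma pt_eq {y y' : xz.X L} (h : G.Cn L y) (h' : G.Cn L y') (e : G.pt L y = G.pt L y') :
    ∃ a : L, a ≠ 0 ∧ y' = G.scl a y := by
  obtain ⟨c, hc⟩ := nu_eq e
  have c0 : c ≠ 0 := fun e => G.nu_ne h'.1 (by rw [← hc, e, zero_smul])
  obtain ⟨k, hk⟩ := Function.ne_iff.1 h.1
  have hk : y.1 k ≠ 0 := hk
  have h1 : ∀ s, G.nu y' s = c * G.nu y s := fun s => (congrFun hc s).symm
  have h2 : y'.1 k ^ G.e = c * y.1 k ^ G.e := by rw [← nu_const, ← nu_const, h1]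
  have hk' : y'.1 k ≠ 0 := fun e =>
    mul_ne_zero c0 (pow_ne_zero _ hk) (by rw [← h2, e, zero_pow G.e_pos.ne'])
  refine ⟨y'.1 k / y.1 k, div_ne_zero hk' hk, Prod.ext (funext fun i => ?_) ?_⟩
  · show y'.1 i = y'.1 k / y.1 k * y.1 i
    have h3 := nu_upd y ⟨0, G.e_pos⟩ k i
    have h4 := nu_upd y' ⟨0, G.e_pos⟩ k i
    rw [h1, h2] at h4
    refine mul_left_cancel₀ (mul_ne_zero c0 (pow_ne_zero G.e hk)) ?_
    field_simp
    refine mul_left_cancel₀ c0 ?_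
    refine mul_left_cancel₀ (pow_ne_zero G.e hk) ?_
    linear_combination c * y'.1 k * h3 - y.1 k * h4
  · show y'.2 = (y'.1 k / y.1 k) ^ G.e * y.2
    rw [div_pow, h2, mul_div_cancel_right₀ _ (pow_ne_zero _ hk)]
    exact h1 none

lemma sv_eq {y y' : xz.X L} (h : G.Cn L y) (h' : G.Cn L y') :
    G.sv y y' = 0 ↔ G.pt L y = G.pt L y' := by
  rw [GD.sv, wdg_eq_zero (G.nu_ne h.1)]
  constructor
  · rintro ⟨c, hc⟩
    have c0 : c ≠ 0 := fun e => G.nu_ne h'.1 (by rw [hc, e, zero_smul])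
    show span L {G.nu y} = span L {G.nu y'}
    rw [hc, span_singleton_smul_eq c0.isUnit]
  · intro e
    obtain ⟨c, hc⟩ := nu_eq e
    exact ⟨c, hc.symm⟩

lemma dnu_euler (y : xz.X L) (c : L) :
    G.dnu y (c • y.1, c * G.e * y.2) = (c * G.e) • G.nu y := funext fun s => by
  cases s with
  | none => rfl
  | some m =>
    show ∑ i, c * y.1 (m i) * ∏ i' ∈ Finset.univ.erase i, y.1 (m i') = c * G.e * ∏ i, y.1 (m i)
    rw [Finset.sum_congr rfl fun i _ => by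
      rw [mul_assoc, Finset.mul_prod_erase _ (fun i => y.1 (m i)) (Finset.mem_univ i)]]
    simp only [Finset.sum_const, Finset.card_univ, Fintype.card_fin, nsmul_eq_mul]
    ring

lemma dnu_sub (y v w : xz.X L) :
    G.dnu y (v.1 - w.1, v.2 - w.2) = G.dnu y v - G.dnu y w := funext fun s => by
  cases s with
  | none => rfl
  | some m => simp [GD.dnu, sub_mul]

lemma tv_eq {y : xz.X L} (v : xz.X L) (h : G.Cn L y) :
    G.tv y v = 0 ↔ ∃ c : L, v = (c • y.1, c * G.e * y.2) := by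
  rw [GD.tv, wdg_eq_zero (G.nu_ne h.1)]
  refine ⟨fun ⟨c, hc⟩ => ?_, fun ⟨c, hc⟩ => ⟨_, hc ▸ dnu_euler y c⟩⟩
  obtain ⟨k, hk⟩ := Function.ne_iff.1 h.1
  have hk : y.1 k ≠ 0 := hk
  refine ⟨v.1 k / y.1 k, ?_⟩
  generalize hd : v.1 k / y.1 k = d
  obtain ⟨w, hw⟩ : ∃ w : xz.X L, w = (v.1 - d • y.1, v.2 - d * G.e * y.2) := ⟨_, rfl⟩
  have h1 : G.dnu y w = (c - d * G.e) • G.nu y := by
    rw [hw, sub_smul, ← hc, ← dnu_euler]
    exact dnu_sub y v (d • y.1, d * G.e * y.2)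
  have h2 : w.1 k = 0 := by
    rw [hw, ← hd]
    show v.1 k - v.1 k / y.1 k * y.1 k = 0
    rw [div_mul_cancel₀ _ hk, sub_self]
  have h3 : c - d * G.e = 0 := by
    have : G.dnu y w (some fun _ => k) = (c - d * G.e) * G.nu y (some fun _ => k) := congrFun h1 _
    rw [nu_const] at this
    simp only [GD.dnu, Option.elim_some, h2, zero_mul, Finset.sum_const_zero] at this
    exact (mul_eq_zero.1 this.symm).resolve_right (pow_ne_zero _ hk)
  rw [h3, zero_smul] at h1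
  have h4 : w.1 = 0 := funext fun i => by
    let o : Fin G.e := ⟨0, G.e_pos⟩
    have : ∑ j, w.1 (Function.update (fun _ => k) o i j) *
        ∏ j' ∈ Finset.univ.erase j, y.1 (Function.update (fun _ => k) o i j') = 0 :=
      congrFun h1 (some (Function.update (fun _ => k) o i))
    rw [Finset.sum_eq_single o (fun j _ hj => by rw [Function.update_of_ne hj, h2, zero_mul])
      (fun e => absurd (Finset.mem_univ o) e), Function.update_self] at this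
    refine (mul_eq_zero.1 this).resolve_right (Finset.prod_ne_zero_iff.2 fun j hj => ?_)
    rw [Function.update_of_ne (Finset.ne_of_mem_erase hj)]
    exact hk
  have h5 : w.2 = 0 := congrFun h1 none
  rw [hw] at h4 h5
  exact Prod.ext (sub_eq_zero.1 h4) (sub_eq_zero.1 h5)

lemma nu_rel {R : Rel M L} {y : xz.X M} {y' : xz.X L} (e : xz.lift R.r y y') (s : G.σ) :
    R.r (G.nu y s) (G.nu y' s) := by
  cases s with
  | none => exact e.2
  | some m => exact Rel.prod Finset.univ fun i _ => e.1 (m i)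

lemma dnu_rel {R : Rel M L} {y v : xz.X M} {y' v' : xz.X L} (e : xz.lift R.r y y')
    (e' : xz.lift R.r v v') (s : G.σ) : R.r (G.dnu y v s) (G.dnu y' v' s) := by
  cases s with
  | none => exact e'.2
  | some m =>
    exact Rel.sum Finset.univ fun i _ =>
      R.mul (e'.1 (m i)) (Rel.prod (Finset.univ.erase i) fun j _ => e.1 (m j))

variable {O : Pl M}

lemma prim (O : Pl M) {y : xz.X M} (h : G.Cn M y) :
    ∃ a : M, a ≠ 0 ∧ IntV O (G.scl a y).1 ∧ rdV O (G.scl a y).1 ≠ 0 := by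
  obtain ⟨s, hs, i⟩ := exists_scale O h.1
  refine ⟨_, inv_ne_zero hs, i, fun e => ?_⟩
  have : O.rd ((y.1 s)⁻¹ * y.1 s) = 0 := congrFun e s
  rw [inv_mul_cancel₀ hs, O.rd_one] at this
  exact one_ne_zero this

lemma lift_rd {y : xz.X M} (h : G.Cn M y) (i : IntV O y.1) :
    xz.lift (Rel.ofPl O).r y (xz.map O.rd y) :=
  ⟨fun k => ⟨i k, rfl⟩, sq_mem O (h.2 ▸ aeval_mem i _), rfl⟩

lemma red {y : xz.X M} (h : G.Cn M y) (i : IntV O y.1) (r : rdV O y.1 ≠ 0) :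
    y.2 ∈ O.O ∧ G.Cn O.res (xz.map O.rd y) ∧
      (Sub K G.σ).red O (G.pt M y) = G.pt O.res (xz.map O.rd y) ∧ IntV O (G.nu y) ∧
      rdV O (G.nu y) = G.nu (xz.map O.rd y) := by
  have e := lift_rd h i
  have h1 : IntV O (G.nu y) := fun s => (nu_rel e s).1
  have h2 : rdV O (G.nu y) = G.nu (xz.map O.rd y) := funext fun s => (nu_rel e s).2
  refine ⟨e.2.1, ⟨r, Rel.eq (Rel.pow e.2 2) (Rel.aeval e.1 _) h.2⟩, ?_, h1, h2⟩
  exact (sred_single h1 (h2 ▸ G.nu_ne r)).trans (congrArg (fun v => span O.res {v}) h2)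

lemma scl_one (y : xz.X L) : G.scl 1 y = y := Prod.ext (one_smul _ _) (by simp [GD.scl])

lemma scl_scl (a b : L) (y : xz.X L) : G.scl a (G.scl b y) = G.scl (a * b) y :=
  Prod.ext (smul_smul _ _ _) (by simp [GD.scl, mul_pow, mul_assoc])

lemma eq_of {y y' : xz.X L} {k : Fin 3} (h : G.Cn L y) (h' : G.Cn L y') (h0 : y.1 k ≠ 0)
    (h1 : y.1 k = y'.1 k) (e : G.pt L y = G.pt L y') : y = y' := by
  obtain ⟨a, -, rfl⟩ := pt_eq h h' e
  have : a = 1 := mul_right_cancel₀ h0 (h1.symm.trans (one_mul _).symm)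
  rw [this, scl_one]

lemma uu {y : xz.X L} (h : G.UU.mem L y) : G.Cn L y :=
  ⟨fun e => h.1.2 0 (congrFun e 0), h.2.2⟩

lemma uu_eq {y y' : xz.X L} (h : G.UU.mem L y) (h' : G.UU.mem L y') (e : G.pt L y = G.pt L y') :
    y = y' := eq_of (uu h) (uu h') (h.1.2 0) (h.2.1.trans h'.2.1.symm) e

lemma adj {y : xz.X M} {y' : xz.X O.res} (h : G.Cn M y) (h' : G.Cn O.res y') {k : Fin 3} {t : M}
    (ht : t ∈ O.O) (h0 : y'.1 k ≠ 0) (h1 : O.rd t = y'.1 k)
    (e : (Sub K G.σ).red O (G.pt M y) = G.pt O.res y') :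
    ∃ a : M, a ≠ 0 ∧ (G.scl a y).1 k = t ∧ xz.lift (Rel.ofPl O).r (G.scl a y) y' := by
  obtain ⟨a, a0, i, r⟩ := prim O h
  have c := h.scl a0
  obtain ⟨-, c', e', -⟩ := red c i r
  rw [GD.pt_scl _ a0, e] at e'
  obtain ⟨b, -, hb⟩ := pt_eq c' h' e'.symm
  have h2 : O.rd ((G.scl a y).1 k) ≠ 0 := fun e => h0 (by
    rw [hb]
    show b * O.rd ((G.scl a y).1 k) = 0
    rw [e, mul_zero])
  obtain ⟨h3, h4⟩ := (O.rd_ne_zero_iff (i k)).1 h2
  have t0 : O.rd t ≠ 0 := h1 ▸ h0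
  have h5 : t * ((G.scl a y).1 k)⁻¹ ≠ 0 :=
    mul_ne_zero ((O.rd_ne_zero_iff ht).1 t0).1 (inv_ne_zero h3)
  have h6 : (G.scl (t * ((G.scl a y).1 k)⁻¹) (G.scl a y)).1 k = t := by
    show t * ((G.scl a y).1 k)⁻¹ * (G.scl a y).1 k = t
    rw [mul_assoc, inv_mul_cancel₀ h3, mul_one]
  have i' : IntV O (G.scl (t * ((G.scl a y).1 k)⁻¹) (G.scl a y)).1 := IntV.smul (mul_mem ht h4) i
  have h7 : rdV O (G.scl (t * ((G.scl a y).1 k)⁻¹) (G.scl a y)).1 k = y'.1 k :=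
    (congrArg O.rd h6).trans h1
  obtain ⟨-, c₂, e₂, -⟩ := red (c.scl h5) i' fun e => h0 (h7.symm.trans (congrFun e k))
  rw [GD.pt_scl _ h5, GD.pt_scl _ a0, e] at e₂
  refine ⟨_, mul_ne_zero h5 a0, scl_scl _ a y ▸ h6, ?_⟩
  rw [← scl_scl, eq_of h' c₂ h0 h7.symm e₂]
  exact lift_rd (c.scl h5) i'

lemma uu_red {y : xz.X M} {y' : xz.X O.res} (h : G.UU.mem M y) (h' : G.UU.mem O.res y') :
    (Sub K G.σ).red O (G.pt M y) = G.pt O.res y' ↔ xz.lift (Rel.ofPl O).r y y' := by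
  constructor
  · intro e
    obtain ⟨a, -, h1, h2⟩ := adj (uu h) (uu h') (one_mem _) (h'.1.2 0)
      (O.rd_one.trans h'.2.1.symm) e
    have : a = 1 := by
      have h3 : a * y.1 0 = 1 := h1
      rwa [h.2.1, mul_one] at h3
    rwa [this, scl_one] at h2
  · intro e
    obtain ⟨-, rfl⟩ := (Cd.lift_pl O).1 e
    exact (red (uu h) (fun i => (e.1 i).1) (uu h').1).2.2.1

lemma taylor (G : GD K) (O : Pl M) (y v : xz.X M) (ρ : M) (hy : xz.all (· ∈ O.O) y)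
    (hv : xz.all (· ∈ O.O) v) (hρ : ρ ∈ O.O) : IntV O (G.dnu y v) ∧
      rdV O (G.dnu y v) = G.dnu (xz.map O.rd y) (xz.map O.rd v) ∧
      ∃ r, IntV O r ∧ G.nu (mv y ρ v) = G.nu y + ρ • G.dnu y v + ρ ^ 2 • r := by
  have e := dnu_rel (G := G) ((Cd.lift_pl O).2 ⟨hy, rfl⟩) ((Cd.lift_pl O).2 ⟨hv, rfl⟩)
  refine ⟨fun s => (e s).1, funext fun s => (e s).2, ?_⟩
  have : ∀ s, ∃ r ∈ O.O, G.nu (mv y ρ v) s = G.nu y s + ρ * G.dnu y v s + ρ ^ 2 * r := fun s => by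
    cases s with
    | none => exact ⟨0, zero_mem _, by simp [GD.nu, GD.dnu, mv]⟩
    | some m =>
      exact prod_taylor O.O.toSubring (fun i => y.1 (m i)) (fun i => v.1 (m i)) ρ
        (fun i => hy.1 (m i)) (fun i => hv.1 (m i)) hρ Finset.univ
  choose r hr er using this
  exact ⟨r, hr, funext er⟩

lemma near {y y' : xz.X M} (h : G.Cn M y) (h' : G.Cn M y') (i : IntV O y'.1) (r : rdV O y'.1 ≠ 0)
    (ne : G.pt M y ≠ G.pt M y')
    (e : (Sub K G.σ).red O (G.pt M y) = (Sub K G.σ).red O (G.pt M y')) :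
    ∃ (a ρ : M) (v : xz.X M), a ≠ 0 ∧ ρ ≠ 0 ∧ ρ ∈ O.O ∧ O.rd ρ = 0 ∧ xz.all (· ∈ O.O) v ∧
      G.scl a y = mv y' ρ v ∧ G.Tn O.res (xz.map O.rd y') (xz.map O.rd v) ∧
      G.tv (xz.map O.rd y') (xz.map O.rd v) ≠ 0 := by
  obtain ⟨-, c', e', -⟩ := red h' i r
  obtain ⟨k, hk⟩ := Function.ne_iff.1 r
  have hk : O.rd (y'.1 k) ≠ 0 := hk
  obtain ⟨a, a0, h1, l⟩ := adj h c' (i k) hk rfl (e.trans e')
  have l' := lift_rd h' i
  have c := h.scl a0
  have ne' : G.scl a y ≠ y' := fun e => ne (by rw [← e, GD.pt_scl _ a0])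
  generalize hz : G.scl a y = z at h1 l c ne'
  have d0 : xz.co z - xz.co y' ≠ 0 := fun e => ne' (xz.inj (sub_eq_zero.1 e))
  obtain ⟨s, ρ0, iv⟩ := exists_scale O d0
  have hρ : (Rel.ofPl O).r ((xz.co z - xz.co y') s) 0 := by
    have := Rel.sub ((xz.lift_iff _ _ _).1 l s) ((xz.lift_iff _ _ _).1 l' s)
    rwa [sub_self] at this
  generalize hρ' : (xz.co z - xz.co y') s = ρ at ρ0 iv hρ
  obtain ⟨v, hv⟩ : ∃ v : xz.X M, xz.co v = ρ⁻¹ • (xz.co z - xz.co y') := ⟨_, xz.co_mk _⟩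
  have av : xz.all (· ∈ O.O) v := (xz.all_iff _ _).2 (hv ▸ iv)
  have lv : xz.lift (Rel.ofPl O).r v (xz.map O.rd v) := (Cd.lift_pl O).2 ⟨av, rfl⟩
  have ez : z = mv y' ρ v := by
    refine Prod.ext (funext fun j => ?_) ?_
    · have : v.1 j = ρ⁻¹ * (z.1 j - y'.1 j) := congrFun hv (.inl j)
      show z.1 j = y'.1 j + ρ * v.1 j
      rw [this, mul_inv_cancel_left₀ ρ0, add_sub_cancel]
    · have : v.2 = ρ⁻¹ * (z.2 - y'.2) := congrFun hv (.inr ())
      show z.2 = y'.2 + ρ * v.2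
      rw [this, mul_inv_cancel_left₀ ρ0, add_sub_cancel]
  refine ⟨a, ρ, v, a0, ρ0, hρ.1, hρ.2, av, hz.trans ez, ?_, fun e0 => ?_⟩
  · obtain ⟨q, hq, eq⟩ := poly_taylor i av.1 hρ.1 G.F
    have h2 : (y'.2 + ρ * v.2) ^ 2 = aeval (y'.1 + ρ • v.1) G.F := (ez ▸ c).2
    rw [eq, ← h'.2] at h2
    have h3 : 2 * y'.2 * v.2 + ρ * v.2 ^ 2 = ∑ j, aeval y'.1 (pderiv j G.F) * v.1 j + ρ * q :=
      mul_left_cancel₀ ρ0 (by linear_combination h2)
    have h4 := Rel.eq ((Rel.ofPl O).add ((Rel.ofPl O).mul ((Rel.ofPl O).mul (Rel.two _) l'.2) lv.2)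
      ((Rel.ofPl O).mul hρ (Rel.pow lv.2 2))) ((Rel.ofPl O).add (Rel.sum Finset.univ fun j _ =>
        (Rel.ofPl O).mul (Rel.aeval l'.1 (pderiv j G.F)) (lv.1 j))
        ((Rel.ofPl O).mul hρ ⟨hq, rfl⟩)) h3
    rw [zero_mul, zero_mul, add_zero, add_zero] at h4
    exact h4
  · obtain ⟨b, hb⟩ := (tv_eq _ c').1 e0
    have h2 : v.1 k = 0 := by
      have : v.1 k = ρ⁻¹ * (z.1 k - y'.1 k) := congrFun hv (.inl k)
      rw [this, h1, sub_self, mul_zero]
    have h3 : O.rd (v.1 k) = b * O.rd (y'.1 k) := congrFun (congrArg Prod.fst hb) k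
    rw [h2, O.rd_zero] at h3
    have h4 : b = 0 := (mul_eq_zero.1 h3.symm).resolve_right hk
    have h5 : xz.co v s = 1 := by
      rw [hv, Pi.smul_apply, hρ', smul_eq_mul, inv_mul_cancel₀ ρ0]
    have h6 := xz.co_map O.rd v s
    rw [h5, O.rd_one, hb, h4] at h6
    rcases s with j | j <;> simp at h6

lemma cmp (O : Pl M) {E : (Sub K G.σ).pt M} (h : G.XX.mem E) :
    G.XX.mem ((Sub K G.σ).red O E) := by
  obtain ⟨y, h, rfl⟩ := h
  obtain ⟨a, a0, i, r⟩ := prim O h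
  obtain ⟨-, c, e, -⟩ := red (h.scl a0) i r
  exact ⟨_, c, GD.pt_scl y a0 ▸ e⟩

lemma mor {B : Amb K} {Z : Sp B} (φ : ∀ L : Fld K, xz.X L → B.pt L)
    (h1 : ∀ (L : Fld K) (y : xz.X L) (a : L), a ≠ 0 → φ L (G.scl a y) = φ L y)
    (h2 : ∀ (L : Fld K) (y : xz.X L), G.Cn L y → Z.mem (φ L y))
    (h3 : ∀ (L L' : Fld K) (κ : L →ₐ[K] L') (y : xz.X L), φ L' (xz.map κ y) = B.map κ (φ L y))
    (h4 : ∀ (M : Fld K) (O : Pl M) (y : xz.X M), G.Cn M y → IntV O y.1 → rdV O y.1 ≠ 0 →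
      φ O.res (xz.map O.rd y) = B.red O (φ M y)) :
    ∃ s : Mor G.XX Z, ∀ (L : Fld K) (y : xz.X L), G.Cn L y → s.f (G.pt L y) = φ L y := by
  classical
  obtain ⟨f, hf⟩ : ∃ f : ∀ L : Fld K, (Sub K G.σ).pt L → B.pt L,
      ∀ (L : Fld K) (y : xz.X L), G.Cn L y → f L (G.pt L y) = φ L y := by
    refine ⟨fun L E => if h : ∃ y, G.Cn L y ∧ E = G.pt L y then φ L h.choose else φ L (0, 0),
      fun L y h => ?_⟩
    have e : ∃ y', G.Cn L y' ∧ G.pt L y = G.pt L y' := ⟨y, h, rfl⟩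
    obtain ⟨a, a0, ha⟩ := pt_eq h e.choose_spec.1 e.choose_spec.2
    exact (dif_pos e).trans (ha ▸ h1 L y a a0)
  refine ⟨⟨fun {L} => f L, ?_, ?_, ?_⟩, hf⟩
  · rintro L _ ⟨y, h, rfl⟩
    exact hf L y h ▸ h2 L y h
  · rintro L L' κ _ ⟨y, h, rfl⟩
    rw [GD.map_pt, hf L y h, hf L' _ ((GD.cn_map κ).2 h), h3]
  · rintro M O _ - ⟨y, h, rfl⟩ -
    obtain ⟨a, a0, i, r⟩ := prim O h
    obtain ⟨-, c, e, -⟩ := red (h.scl a0) i r
    rw [← GD.pt_scl y a0, e, hf _ _ c, hf _ _ (h.scl a0), h4 M O _ (h.scl a0) i r]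

lemma cn_ngz {y : xz.X L} (h : G.Cn L y) : G.Cn L (ngz L y) :=
  ⟨h.1, (neg_sq y.2).trans h.2⟩

lemma sig (G : GD K) : ∃ s : Mor G.XX G.XX, ∀ (L : Fld K) (y : xz.X L), G.Cn L y →
    s.f (G.pt L y) = G.pt L (ngz L y) := by
  refine mor (fun L y => G.pt L (ngz L y)) (fun L y a a0 => ?_)
    (fun L y h => ⟨_, cn_ngz h, rfl⟩) (fun L L' κ y => ?_) fun M O y h i r => ?_
  · rw [← GD.pt_scl (ngz L y) a0]
    exact congrArg (G.pt L) (Prod.ext rfl (mul_neg _ _).symm)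
  · rw [GD.map_pt]
    exact congrArg (G.pt L') (Prod.ext rfl (map_neg κ _).symm)
  · rw [(red (cn_ngz h) i r).2.2.1]
    exact congrArg (G.pt O.res) (Prod.ext rfl (O.rd_neg (red h i r).1).symm)

lemma prj (G : GD K) : ∃ π : Mor G.XX (Lines K (Fin 3)), ∀ (L : Fld K) (y : xz.X L), G.Cn L y →
    π.f (G.pt L y) = span L {y.1} :=
  mor (B := Sub K (Fin 3)) (fun L y => span L {y.1})
    (fun _ y _ a0 => span_singleton_smul_eq a0.isUnit y.1) (fun _ y h => ⟨y.1, h.1, rfl⟩)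
    (fun _ _ κ y => (smap_single κ.toRingHom y.1).symm) fun _ _ _ _ i r => (sred_single i r).symm

end YAp

theorem YA_thm {K : Type} [Field K] [FW0 K] : YA K where
  pt_eq := YAp.pt_eq
  sv_eq := YAp.sv_eq
  tv_eq := YAp.tv_eq
  prim O _ := YAp.prim O
  red h i r :=
    let ⟨h1, h2, h3, h4, h5⟩ := YAp.red h i r
    ⟨h1, h2, h3, h4, h5, fun d => FB3.ordv_prim d h4 (h5 ▸ GD.nu_ne _ r)⟩
  uu := YAp.uu
  uu_eq := YAp.uu_eq
  uu_red := YAp.uu_red
  taylor G _ := YAp.taylor G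
  near := YAp.near
  cmp O _ := YAp.cmp O
  atl G := FB3.sub (FB3.lines _) (fun _ _ ⟨y, h, e⟩ => ⟨G.nu y, G.nu_ne h.1, e⟩)
    fun _ O _ _ _ _ m _ => YAp.cmp O m
  sig := YAp.sig
  prj := YAp.prj

end Pool.Agent.Lib.MP_557161_ag.HG
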