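import Pool.Agent.Lib.MP_557161_ag.HG.StX

/-!
Existence of the two intersections with divisors on the blow-up.
-/

namespace Pool.Agent.Lib.MP_557161_ag.HG

open Pool.Agent.Lib.MP_557161_ag.DL MvPolynomial Submodule

namespace YDa

section Lin

variable {L L' σ : Type} [Field L] [Field L']

open Classical in
/-- The factor of proportionality. -/
noncomputable def sc (a b : σ → L) : L := if h : ∃ t : L, a = t • b then h.choose else 0

lemma sc_eq {a b : σ → L} {t : L} (hb : b ≠ 0) (h : a = t • b) : sc a b = t := by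
  have h1 : ∃ t : L, a = t • b := ⟨t, h⟩
  rw [sc, dif_pos h1]
  exact smul_left_injective L hb (h1.choose_spec.symm.trans h)

lemma ex_smul {x z : σ → L} (e : span L {x} = span L {z}) : ∃ c : L, x = c • z := by
  obtain ⟨c, hc⟩ := mem_span_singleton.1 (e.le (mem_span_singleton_self x))
  exact ⟨c, hc.symm⟩

lemma wdg_self (a : σ → L) : wdg a a = 0 := funext fun s => by simp [wdg, mul_comm]

lemma wdg_zero {a b : σ → L} (ha : a ≠ 0) (hb : b ≠ 0) :
    wdg a b = 0 ↔ span L {a} = span L {b} := by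
  constructor
  · intro h
    obtain ⟨s, hs⟩ := Function.ne_iff.1 ha
    have hs : a s ≠ 0 := hs
    have e : b = (b s / a s) • a := funext fun t => by
      have h1 : a s * b t - a t * b s = 0 := congrFun h (s, t)
      show b t = b s / a s * a t
      field_simp
      linear_combination h1
    have h0 : b s / a s ≠ 0 := fun h0 => hb (by rw [e, h0, zero_smul])
    rw [e, span_singleton_smul_eq (IsUnit.mk0 _ h0)]
  · intro h
    obtain ⟨c, rfl⟩ := ex_smul h
    have := wdg_smul c 1 b b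
    rw [one_smul, wdg_self, smul_zero] at this
    exact this

variable {x x' : σ → L} {b : σ × σ → L}

lemma sc_hom (hb : b ≠ 0) (h : ∃ t : L, wdg x x' = t • b) (u u' : L) {v : L} (hv : v ≠ 0) :
    sc (wdg (u • x) (u' • x')) (v • b) =
      v ^ (-1 : ℤ) * (u ^ (1 : ℤ) * u' ^ (1 : ℤ)) * sc (wdg x x') b := by
  obtain ⟨t, ht⟩ := h
  rw [sc_eq hb ht]
  refine sc_eq (smul_ne_zero hv hb) ?_
  rw [wdg_smul, ht, smul_smul, smul_smul]
  congr 1
  simp only [zpow_one, zpow_neg]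
  field_simp

lemma sc_nat (hb : b ≠ 0) (h : ∃ t : L, wdg x x' = t • b) (κ : L →+* L') :
    sc (wdg (mapV κ x) (mapV κ x')) (mapV κ b) = κ (sc (wdg x x') b) := by
  obtain ⟨t, ht⟩ := h
  rw [sc_eq hb ht]
  refine sc_eq (mt (mapV_eq_zero κ).1 hb) ?_
  rw [← wdg_map, ht, mapV_smul]

lemma sc_zero (hb : b ≠ 0) (h : ∃ t : L, wdg x x' = t • b) (hx : x ≠ 0) (hx' : x' ≠ 0) :
    sc (wdg x x') b = 0 ↔ span L {x} = span L {x'} := by
  obtain ⟨t, ht⟩ := h
  rw [sc_eq hb ht, ← wdg_zero hx hx', ht, smul_eq_zero, or_iff_left hb]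

end Lin

variable {K : Type} [Field K] (G : GD K) {B : Amb K}

lemma wdg_red {M : Fld K} {O : Pl M} {σ : Type} {a b : σ → M} (ha : IntV O a) (hb : IntV O b) :
    IntV O (wdg a b) ∧ rdV O (wdg a b) = wdg (rdV O a) (rdV O b) :=
  ⟨fun _ => sub_mem (mul_mem (ha _) (hb _)) (mul_mem (ha _) (hb _)), funext fun s => by
    show O.rd (_ - _) = _
    rw [O.rd_sub (mul_mem (ha _) (hb _)) (mul_mem (ha _) (hb _)), O.rd_mul (ha _) (hb _),
      O.rd_mul (ha _) (hb _)]
    rfl⟩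

lemma sc_cont {M : Fld K} {O : Pl M} {σ : Type} {x x' : σ → M} {b : σ × σ → M} (hx : IntV O x)
    (hx' : IntV O x') (hb : IntV O b) (h0 : rdV O b ≠ 0) (h : ∃ t : M, wdg x x' = t • b) :
    sc (wdg x x') b ∈ O.O ∧
      O.rd (sc (wdg x x') b) = sc (wdg (rdV O x) (rdV O x')) (rdV O b) := by
  obtain ⟨t, ht⟩ := h
  obtain ⟨h1, h2⟩ := wdg_red hx hx'
  obtain ⟨k, hk⟩ := Function.ne_iff.1 h0
  obtain ⟨h3, h4⟩ := (O.rd_ne_zero_iff (hb k)).1 hk
  have h5 : t ∈ O.O := by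
    have h6 : t * b k ∈ O.O := by
      have := h1 k
      rw [ht] at this
      exact this
    have := mul_mem h6 h4
    rwa [mul_inv_cancel_right₀ h3] at this
  rw [sc_eq (fun e => h0 (by rw [e, rdV_zero])) ht]
  exact ⟨h5, (sc_eq h0 (by rw [← h2, ht, rdV_smul h5 hb])).symm⟩

/-- The coordinates of the three projective spaces. -/
def ix : Option Bool → Type
  | none => G.σ × G.σ
  | some _ => G.σ

instance ixf : ∀ a, Finite (ix G a)
  | none => inferInstanceAs (Finite (G.σ × G.σ))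
  | some _ => inferInstanceAs (Finite G.σ)

/-- The three tautological lines. -/
def ln (S : Sp G.A3) (hS : ∀ (L : Fld K) (s : G.A3.pt L), S.mem s → G.BB.mem s) (Z : Sp B) :
    ∀ a, Mor (S.prod Z) (Lines K (ix G a))
  | none => ⟨fun s => s.1.2, fun s h => by
      obtain ⟨_, _, b, -, -, -, -, h5, h6, -⟩ := hS _ _ h.1
      exact ⟨b, h5, h6⟩, fun _ _ _ => rfl, fun _ _ _ _ _ => rfl⟩
  | some true => ⟨fun s => s.1.1.1, fun s h => by
      obtain ⟨y, _, _, h1, -, h3, -⟩ := hS _ _ h.1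
      exact ⟨G.nu y, G.nu_ne h1.1, h3⟩, fun _ _ _ => rfl, fun _ _ _ _ _ => rfl⟩
  | some false => ⟨fun s => s.1.1.2, fun s h => by
      obtain ⟨_, y, _, -, h2, -, h4, -⟩ := hS _ _ h.1
      exact ⟨G.nu y, G.nu_ne h2.1, h4⟩, fun _ _ _ => rfl, fun _ _ _ _ _ => rfl⟩

/-- Three generators. -/
def gn {L : Type} (b : G.σ × G.σ → L) (x x' : G.σ → L) : ∀ a, ix G a → L
  | none => b
  | some true => x
  | some false => x'

variable {G}

lemma ex_sc {L : Fld K} {s : G.A3.pt L} (h : G.BB.mem s) {b : G.σ × G.σ → L} {x x' : G.σ → L}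
    (e : s.2 = span L {b}) (e₁ : s.1.1 = span L {x}) (e₂ : s.1.2 = span L {x'}) :
    ∃ t : L, wdg x x' = t • b := by
  obtain ⟨y, y', b', -, -, h3, h4, -, h6, h7⟩ := h
  obtain ⟨r, rfl⟩ := ex_smul (e₁.symm.trans h3)
  obtain ⟨r', rfl⟩ := ex_smul (e₂.symm.trans h4)
  obtain ⟨c, hc⟩ := ex_smul (h6.symm.trans e)
  rw [wdg_smul]
  rcases h7 with rfl | ⟨rfl, -⟩
  · exact ⟨r * r' * c, by rw [mul_smul (r * r'), ← hc]; rfl⟩
  · exact ⟨0, by rw [wdg_self, smul_zero, zero_smul]⟩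

variable (G)

/-- The excess bundle with the zero section. -/
noncomputable def lbE (Z : Sp B) : LB (G.EE.prod Z) (G.EE.prod Z) where
  ι := Option Bool
  σ := ix G
  l := ln G G.EE (fun _ _ h => h.1) Z
  c a := a.elim G.e fun ε => bif ε then 3 - 3 * G.e else 0
  s _ _ _ := 0
  hom _ _ _ _ _ _ _ := (mul_zero _).symm
  nat ι _ _ _ _ := (map_zero ι).symm
  cont O _ _ _ _ _ _ := ⟨zero_mem _, O.rd_zero⟩
  sub _ _ h := h
  zero _ _ _ h _ := ⟨fun _ => h, fun _ => rfl⟩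

/-- The bundle of the exceptional divisor with its canonical section. -/
noncomputable def lbB (Z : Sp B) : LB (G.BB.prod Z) (G.EE.prod Z) where
  ι := Option Bool
  σ := ix G
  l := ln G G.BB (fun _ _ h => h) Z
  c a := a.elim (-1) fun _ => 1
  s _ _ x := sc (σ := G.σ × G.σ) (wdg (σ := G.σ) (x (some true)) (x (some false))) (x none)
  hom L y x u hy hu hx := by
    rw [Fintype.prod_option, Fintype.prod_bool]
    exact sc_hom (hx none).1 (ex_sc hy.1 (hx none).2 (hx (some true)).2 (hx (some false)).2) _ _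
      (hu none)
  nat ι y x hy hx := sc_nat (hx none).1
    (ex_sc hy.1 (hx none).2 (hx (some true)).2 (hx (some false)).2) ι.toRingHom
  cont O y x _ hy _ hx := sc_cont (hx (some true)).1 (hx (some false)).1 (hx none).1 (hx none).2.1
    (ex_sc hy.1 (hx none).2.2 (hx (some true)).2.2 (hx (some false)).2.2)
  sub _ _ h := ⟨h.1.1, h.2⟩
  zero L y x hy hx := (sc_zero (hx none).1
    (ex_sc hy.1 (hx none).2 (hx (some true)).2 (hx (some false)).2) (hx (some true)).1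
    (hx (some false)).1).trans
    ⟨fun h => ⟨⟨hy.1, (hx (some true)).2.trans (h.trans (hx (some false)).2.symm)⟩, hy.2⟩,
      fun h => (hx (some true)).2.symm.trans (h.1.2.trans (hx (some false)).2)⟩

/-- The projection from the exceptional divisor. -/
def pr (Z : Sp B) : Mor (G.EE.prod Z) Z :=
  ⟨fun s => s.2, fun _ h => h.2, fun _ _ _ => rfl, fun _ _ _ _ _ => rfl⟩

lemma pr_pro [YB K] (Z : Sp B) : (pr G Z).Proper := fun O _ _ h h' => ⟨YB.cmpE O h.1, h'⟩

end YDa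

open YDa

variable {K : Type} [Field K]

theorem YD_psi [FW0 K] [YB K] (G : GD K) {d : Cd} {W : ASp K d} {j : ℕ} (φ : AF j W) :
    ∃ ψ, G.IsPsi φ ψ := by
  obtain ⟨ψ, h⟩ := FB5.cartL (FB3.prod (YB.atl G).2 (FB3.aff W)) (lbE G W.sp)
    (φ.pull (pr G W.sp) (pr_pro G W.sp))
  refine ⟨ψ, fun M y b w hM hy hb hE hw => ?_⟩
  have hP : (G.EE.prod W.sp).mem (L := M) (((G.pt M y, G.pt M y), span M {b}), some w) :=
    ⟨hE, W.sp_some.2 hw⟩
  have := h M _ (gn G b (G.nu y) (G.nu y)) 1 hM hP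
    (fun a => match a with
      | none => ⟨hb, rfl⟩
      | some true => ⟨G.nu_ne hy.1, rfl⟩
      | some false => ⟨G.nu_ne hy.1, rfl⟩) one_ne_zero fun h' => absurd hP h'
  convert this using 3 with O
  · congr 1
    rw [Pl.ord_eq_zero_of_mem (O := O.1) one_ne_zero (one_mem _) (by rw [inv_one]; exact one_mem _)]
    show _ = 0 - ∑ a : Option Bool, (lbE G W.sp).c a * ordv O.1 (gn G b (G.nu y) (G.nu y) a)
    rw [Fintype.sum_option, Fintype.sum_bool]
    show _ = 0 - ((G.e : ℤ) * ordv O.1 b + ((3 - 3 * G.e) * ordv O.1 (G.nu y) +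
      0 * ordv O.1 (G.nu y)))
    ring
  · rw [← FA3.v_red φ.toPre O.1 w fun L ⟨_, e, _⟩ => nomatch e]
    by_cases hm : W.sp.mem ((d.amb K).red O.1 (some w))
    · exact (Fe.pull_of_mem (pr G W.sp) (pr_pro G W.sp) φ (pr_pro G W.sp O.1 _ O.2.1 hP hm)).symm
    · rw [not_not.1 fun e => hm (φ.supp _ _ e).2]
      exact (not_not.1 fun e => hm ((φ.pull (pr G W.sp) (pr_pro G W.sp)).supp _ _ e).2.2).symm

theorem YD_xi [FW0 K] [YB K] (G : GD K) {d : Cd} {W : ASp K d} {j : ℕ}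
    (ψ : Fe j (G.EE.prod W.sp)) : ∃ Ξ, G.IsXi ψ Ξ := by
  obtain ⟨Ξ, h⟩ := FB5.cartL (FB3.prod (YB.atl G).1 (FB3.aff W)) (lbB G W.sp) ψ
  refine ⟨Ξ, fun M y y' b w τ hM hy hy' hb hB hw hτ he => ?_⟩
  have := h M (((G.pt M y, G.pt M y'), span M {b}), some w) (gn G b (G.nu y) (G.nu y')) τ hM
    ⟨hB, W.sp_some.2 hw⟩
    (fun a => match a with
      | none => ⟨hb, rfl⟩
      | some true => ⟨G.nu_ne hy.1, rfl⟩
      | some false => ⟨G.nu_ne hy'.1, rfl⟩) hτ
    fun h' => (sc_eq hb (he fun e => h' ⟨⟨hB, e⟩, W.sp_some.2 hw⟩)).symm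
  convert this using 4 with O
  show _ = O.1.ord τ - ∑ a : Option Bool, (lbB G W.sp).c a * ordv O.1 (gn G b (G.nu y) (G.nu y') a)
  rw [Fintype.sum_option, Fintype.sum_bool]
  show _ = _ - (-1 * ordv O.1 b + (1 * ordv O.1 (G.nu y) + 1 * ordv O.1 (G.nu y')))
  ring

theorem YD_thm [Base K] [FW0 K] [YA K] [YB K] : YD K := ⟨YD_psi, YD_xi⟩

end Pool.Agent.Lib.MP_557161_ag.HG
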