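import Pool.Agent.Lib.MP_557161_ag.HG.StX

/-!
The value on a fibre of the exceptional divisor.
-/

namespace Pool.Agent.Lib.MP_557161_ag.HG

open Pool.Agent.Lib.MP_557161_ag.DL

variable {K : Type} [Field K]

namespace YFAux

variable [FW0 K] {L M : Fld K} {α : L →ₐ[K] M} {O : Pl M} {σ : Type}

lemma ordv_comb (hO : O.IsDVR) (h : Pl.Triv α O) (b₀ b₁ : σ → L) {s t : M} (hs : s ∈ O.O)
    (ht : t ∈ O.O) (e : O.rd s • mapV h.hom b₀ + O.rd t • mapV h.hom b₁ ≠ 0) :
    ordv O (s • mapV α b₀ + t • mapV α b₁) = 0 := by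
  refine FB3.ordv_prim hO (fun i => add_mem (mul_mem hs (h _)) (mul_mem ht (h _))) fun e' => e ?_
  rw [← e']
  funext i
  show O.rd s * h.hom _ + O.rd t * h.hom _ = O.rd (s * α _ + t * α _)
  rw [O.rd_add (mul_mem hs (h _)) (mul_mem ht (h _)), O.rd_mul hs (h _), O.rd_mul ht (h _),
    h.hom_apply, h.hom_apply]

lemma ordv_map (hO : O.IsDVR) (h : Pl.Triv α O) {b : σ → L} (hb : b ≠ 0) :
    ordv O (mapV α b) = 0 := by
  simpa using ordv_comb hO h b b (one_mem _) (zero_mem _) (by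
    simpa using mt (mapV_eq_zero h.hom.toRingHom).1 hb)

lemma rv_eq {d : Cd} {W : ASp K d} {j : ℕ} (φ : AF j W) (O : Pl M) (w : d.X L) :
    rv φ.a O (d.map α w) = φ.v O.res ((d.amb K).red O ((d.amb K).map α (some w))) :=
  (FA3.v_red φ.toPre O _ fun _ ⟨_, e, _⟩ => nomatch e).symm

lemma rv_triv {d : Cd} {W : ASp K d} {j : ℕ} (φ : AF j W) (h : Pl.Triv α O) (hL : Good j L)
    (hs : Function.Surjective h.hom) (w : d.X L) : rv φ.a O (d.map α w) = φ.a L w := by
  have := φ.ext h.hom (some w) hL (hL.of_fin (Fin'.of_surj hs))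
  rw [deg_of_surj hs, Nat.cast_one, one_mul] at this
  exact (rv_eq φ O w).trans ((congrArg _ ((d.amb K).red_triv h _)).trans this)

lemma rv_low {d : Cd} {W : ASp K d} {j : ℕ} (φ : AF j W) (h : ¬ Pl.Triv α O) (hL : Good j L)
    (w : d.X L) : rv φ.a O (d.map α w) = 0 :=
  (rv_eq φ O w).trans ((congrArg _ ((d.amb K).red_map (Pl.over_comap α O) _)).trans
    (φ.low _ _ (Pl.tr_res_lt _
      (fun e => h fun x => (Pl.over_comap α O x).1 (e ▸ ValuationSubring.mem_top _)) hL.2.le)))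

end YFAux

open YFAux in
theorem YF_thm [FW0 K] [YB K] : YF K where
  fib {G d W j φ ψ} hψ {L M α T y v₀ v₁ w} hL ht hg hf hw := by
    obtain ⟨hb, hm⟩ := YB.fp_mem α T hf
    refine (hψ M _ _ _ (hL.succ ht hg) ((GD.cn_map α).2 hf.cn) hb hm
      ((W.map_iff α w).2 hw)).2.symm.trans ?_
    obtain ⟨O, h, hO, h1, h2⟩ := Pl.exists_zero_place ht.inv hg.inv
    have hr : Good j O.res := hL.of_fin (Fin'.of_surj h2)
    have h0 : T ≠ 0 := fun e => ht.ne 0 (by rw [e, map_zero])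
    have h3 : O.ord T = -1 := by rw [Pl.ord_inv hO] at h1; omega
    have h4 : T ∉ O.O := fun e => by have := (Pl.ord_nonneg_iff hO).2 e; omega
    have hn : ∀ {O : Pl M}, O.IsDVR → Pl.Triv α O → ordv O (G.nu (xz.map α y)) = 0 :=
      fun hO h => G.nu_map α.toRingHom y ▸ ordv_map hO h (G.nu_ne hf.cn.1)
    rw [finsum_eq_single _ (⟨O, hO, hr.2⟩ : Dv M j)]
    · have h5 := (Pl.ord_pos_iff hO (inv_ne_zero h0)).1 (by omega)
      have e : mapV α (G.tv y v₀) + T • mapV α (G.tv y v₁) =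
          T • (T⁻¹ • mapV α (G.tv y v₀) + (1 : M) • mapV α (G.tv y v₁)) := by
        rw [smul_add, smul_inv_smul₀ h0, one_smul]
      have h6 : G.tv y v₁ ≠ 0 := hf.ind.ne_zero 1
      have h7 := FB3.ordv_smul hO (x := T⁻¹ • mapV α (G.tv y v₀) + (1 : M) • mapV α (G.tv y v₁))
        (fun e' => hb (by rw [e, e', smul_zero])) h0
      rw [← e, h3, ordv_comb hO h _ _ h5.1 (one_mem _) (by
        simpa [h5.2] using mt (mapV_eq_zero h.hom.toRingHom).1 h6)] at h7
      simp only []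
      rw [h7, hn hO h, rv_triv φ h hL h2]
      simp
    · rintro ⟨O', hO'⟩ hne
      simp only []
      by_cases h' : Pl.Triv α O'
      · have h5 : T ∈ O'.O := by_contra fun e => hne (Subtype.ext
          (Pl.zero_place_unique ht.inv hg.inv h' h (by rwa [inv_inv]) (by rwa [inv_inv])))
        have h6 := ordv_comb hO'.1 h' (G.tv y v₀) (G.tv y v₁) (one_mem _) h5 (by
          simpa using (YB.fp_mem h'.hom (O'.rd T) hf).1)
        rw [one_smul] at h6
        rw [h6, hn hO'.1 h']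
        simp
      · rw [rv_low φ h' hL, mul_zero]

end Pool.Agent.Lib.MP_557161_ag.HG
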