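import Pool.Agent.Lib.MP_557161_ag.HG.StX

/-!
The key formula of the blow-up.
-/

namespace Pool.Agent.Lib.MP_557161_ag.HG

open Pool.Agent.Lib.MP_557161_ag.DL Submodule

namespace YGp

lemma split {α β : Type} {g : α → ℂ} {c s : ℂ} (h : HasS g c) (a₀ : α) {Γ : β → α}
    (hΓ : Function.Injective Γ) (hne : ∀ b, Γ b ≠ a₀)
    (h0 : ∀ a, a ≠ a₀ → a ∉ Set.range Γ → g a = 0) (h' : HasS (fun b => g (Γ b)) s) :
    c = g a₀ + s := by
  let ι : Option β → α := fun o => o.elim a₀ Γ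
  have hι : Function.Injective ι := by
    rintro (_ | a) (_ | b) e
    · rfl
    · exact absurd e.symm (hne b)
    · exact absurd e (hne a)
    · exact congrArg some (hΓ e)
  have e1 : ∑ᶠ a, g a = ∑ᶠ a ∈ Set.range ι, g a := finsum_congr fun a => by
    by_cases ha : a ∈ Set.range ι
    · simp [ha]
    · rw [h0 a (fun e => ha ⟨none, e.symm⟩) fun ⟨b, e⟩ => ha ⟨some b, e⟩]
      simp
  rw [← h.2, e1, finsum_mem_range hι, finsum_option (f := fun o => g (ι o)) h'.1, ← h'.2]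
  rfl

variable {K : Type} [Field K] {L M N : Fld K} {G : GD K}

lemma o1 (O : Pl M) : O.ord 1 = 0 :=
  Pl.ord_eq_zero_of_mem one_ne_zero (one_mem _) (by rw [inv_one]; exact one_mem _)

lemma int_map {α : L →ₐ[K] M} {O : Pl L} {O' : Pl M} (h : Pl.Over α O O') {σ : Type} {x : σ → L}
    (hx : IntV O x) : IntV O' (mapV α x) ∧ rdV O' (mapV α x) = mapV h.resHom (rdV O x) :=
  ⟨fun i => (h _).1 (hx i), funext fun _ => (h.resHom_rd _).symm⟩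

lemma int_triv {α : L →ₐ[K] M} {O : Pl M} (h : Pl.Triv α O) {σ : Type} (x : σ → L) :
    IntV O (mapV α x) ∧ rdV O (mapV α x) = mapV h.hom x :=
  ⟨fun _ => h _, funext fun _ => (h.hom_apply _).symm⟩

lemma ordv_map [FW0 K] {α : L →ₐ[K] M} {O : Pl L} {O' : Pl M} (h : Pl.Over α O O') (hO : O.IsDVR)
    (hO' : O'.IsDVR) (ho : ∀ f, O'.ord (α f) = O.ord f) {σ : Type} [Finite σ] {x : σ → L}
    (hx : x ≠ 0) : ordv O' (mapV α x) = ordv O x := by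
  obtain ⟨a, a0, h1, h2⟩ := FB3.exists_prim O hx
  have e1 := FB3.ordv_prim hO h1 h2
  obtain ⟨h3, h4⟩ := int_map h h1
  have e2 := FB3.ordv_prim hO' h3 (h4 ▸ mt (mapV_eq_zero h.resHom.toRingHom).1 h2)
  have e3 : mapV α (a • x) = α a • mapV α x := mapV_smul α.toRingHom a x
  have e4 : mapV α x ≠ 0 := mt (mapV_eq_zero α.toRingHom).1 hx
  rw [e3, FB3.ordv_smul hO' e4 ((map_ne_zero α).2 a0), ho] at e2
  rw [FB3.ordv_smul hO hx a0] at e1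
  omega

lemma tv_red [YA K] {O : Pl L} {y u : xz.X L} (hy : G.Cn L y) (h1 : IntV O y.1)
    (h2 : rdV O y.1 ≠ 0) (hu : xz.all (· ∈ O.O) u) :
    IntV O (G.tv y u) ∧ rdV O (G.tv y u) = G.tv (xz.map O.rd y) (xz.map O.rd u) := by
  obtain ⟨k1, -, -, k2, k3, -⟩ := YA.red hy h1 h2
  obtain ⟨k4, k5, -⟩ := YA.taylor G O y u 0 ⟨h1, k1⟩ hu (zero_mem _)
  refine ⟨fun s => sub_mem (mul_mem (k2 _) (k4 _)) (mul_mem (k2 _) (k4 _)), funext fun s => ?_⟩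
  rw [GD.tv, GD.tv, ← k3, ← k5]
  show O.rd (_ * _ - _ * _) = O.rd _ * O.rd _ - O.rd _ * O.rd _
  rw [O.rd_sub (mul_mem (k2 _) (k4 _)) (mul_mem (k2 _) (k4 _)), O.rd_mul (k2 _) (k4 _),
    O.rd_mul (k2 _) (k4 _)]

lemma fp_map (α : L →ₐ[K] M) (κ : M →ₐ[K] N) (y v₀ v₁ : xz.X L) (T : M) :
    G.A3.map κ (G.fp α y v₀ v₁ T) = G.fp (κ.comp α) y v₀ v₁ (κ T) := by
  have e : (Sub K G.σ).map κ (G.pt M (xz.map α y)) = G.pt N (xz.map (κ.comp α) y) := by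
    rw [← GD.map_pt, ← GD.map_pt, Amb.map_comp]
  refine Prod.ext (Prod.ext e e) ((smap_single κ.toRingHom _).trans ?_)
  rw [mapV_add, mapV_smul]
  rfl

/-- A frame and its reduction. -/
structure Rd (G : GD K) (α : L →ₐ[K] M) (O : Pl M) (ρ : N →ₐ[K] O.res) (y u₀ u₁ : xz.X L)
    (y' u₀' u₁' : xz.X N) : Prop where
  p : (Sub K G.σ).red O (G.pt M (xz.map α y)) = G.pt O.res (xz.map ρ y')
  i0 : IntV O (mapV α (G.tv y u₀)) ∧ rdV O (mapV α (G.tv y u₀)) = mapV ρ (G.tv y' u₀')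
  i1 : IntV O (mapV α (G.tv y u₁)) ∧ rdV O (mapV α (G.tv y u₁)) = mapV ρ (G.tv y' u₁')
  f : G.Frm N y' u₀' u₁'

section Rd

variable [FW0 K] [YB K] {α : L →ₐ[K] M} {O : Pl M} {ρ : N →ₐ[K] O.res} {y u₀ u₁ : xz.X L}
  {y' u₀' u₁' : xz.X N} {T : M}

lemma Rd.fin (h : Rd G α O ρ y u₀ u₁ y' u₀' u₁') (hT : T ∈ O.O) :
    G.A3.red O (G.fp α y u₀ u₁ T) = G.fp ρ y' u₀' u₁' (O.rd T) ∧
      (O.IsDVR → ordv O (mapV α (G.tv y u₀) + T • mapV α (G.tv y u₁)) = 0) := by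
  have h1 := h.i0.1.add (IntV.smul hT h.i1.1)
  have h2 : rdV O (mapV α (G.tv y u₀) + T • mapV α (G.tv y u₁)) =
      mapV ρ (G.tv y' u₀') + O.rd T • mapV ρ (G.tv y' u₁') := by
    rw [rdV_add h.i0.1 (IntV.smul hT h.i1.1), rdV_smul hT h.i1.1, h.i0.2, h.i1.2]
  have h3 := (YB.fp_mem ρ (O.rd T) h.f).1
  rw [← h2] at h3
  refine ⟨Prod.ext (Prod.ext h.p h.p) ((FB3.red_line h1 h3).trans ?_),
    fun hO => FB3.ordv_prim hO h1 h3⟩
  rw [h2]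
  rfl

omit [YB K] in
lemma Rd.inf (h : Rd G α O ρ y u₀ u₁ y' u₀' u₁') (hT : T ∉ O.O) :
    G.A3.red O (G.fp α y u₀ u₁ T) =
      G.A3.map ρ ((G.pt N y', G.pt N y'), span N {G.tv y' u₁'}) ∧
      (O.IsDVR → ordv O (mapV α (G.tv y u₀) + T • mapV α (G.tv y u₁)) = O.ord T) := by
  have t0 : T ≠ 0 := fun e => hT (e ▸ zero_mem _)
  have t1 : T⁻¹ ∈ O.O := (O.O.mem_or_inv_mem T).resolve_left hT
  have t2 : O.rd T⁻¹ = 0 := by
    by_contra e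
    exact hT (inv_inv T ▸ ((O.rd_ne_zero_iff t1).1 e).2)
  have h1 := (IntV.smul t1 h.i0.1).add h.i1.1
  have h2 : rdV O (T⁻¹ • mapV α (G.tv y u₀) + mapV α (G.tv y u₁)) = mapV ρ (G.tv y' u₁') := by
    rw [rdV_add (IntV.smul t1 h.i0.1) h.i1.1, rdV_smul t1 h.i0.1, t2, zero_smul, zero_add, h.i1.2]
  have h3 : rdV O (T⁻¹ • mapV α (G.tv y u₀) + mapV α (G.tv y u₁)) ≠ 0 :=
    h2 ▸ mt (mapV_eq_zero ρ.toRingHom).1 (h.f.ind.ne_zero 1)
  have h4 : mapV α (G.tv y u₀) + T • mapV α (G.tv y u₁) =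
      T • (T⁻¹ • mapV α (G.tv y u₀) + mapV α (G.tv y u₁)) := by
    rw [smul_add, smul_smul, mul_inv_cancel₀ t0, one_smul]
  have e := h.p.trans (GD.map_pt ρ y').symm
  refine ⟨Prod.ext (Prod.ext e e) ?_, fun hO => ?_⟩
  · show sred O (span M {_}) = smap ρ.toRingHom _
    rw [h4, span_singleton_smul_eq t0.isUnit, FB3.red_line h1 h3, h2, smap_single]
    rfl
  · rw [h4, FB3.ordv_smul hO (fun e => h3 (by rw [e]; exact funext fun _ => O.rd_zero)) t0,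
      FB3.ordv_prim hO h1 h3, add_zero]

end Rd

lemma rd_triv {α : L →ₐ[K] M} {O : Pl M} (h : Pl.Triv α O) {y v₀ v₁ : xz.X L}
    (hF : G.Frm L y v₀ v₁) : Rd G α O h.hom y v₀ v₁ y v₀ v₁ :=
  ⟨by rw [← GD.map_pt, ← GD.map_pt, Amb.red_triv _ h], int_triv h _, int_triv h _, hF⟩

lemma rd_over [YA K] {α : L →ₐ[K] M} {O : Pl L} {O' : Pl M} (h : Pl.Over α O O')
    {y u₀ u₁ : xz.X L} (hy : G.Cn L y) (h1 : IntV O y.1) (h2 : rdV O y.1 ≠ 0)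
    (i0 : xz.all (· ∈ O.O) u₀) (i1 : xz.all (· ∈ O.O) u₁)
    (hF : G.Frm O.res (xz.map O.rd y) (xz.map O.rd u₀) (xz.map O.rd u₁)) :
    Rd G α O' h.resHom y u₀ u₁ (xz.map O.rd y) (xz.map O.rd u₀) (xz.map O.rd u₁) :=
  ⟨by rw [← GD.map_pt, ← GD.map_pt, Amb.red_map _ h, (YA.red hy h1 h2).2.2.1],
    (tv_red hy h1 h2 i0).2 ▸ int_map h (tv_red hy h1 h2 i0).1,
    (tv_red hy h1 h2 i1).2 ▸ int_map h (tv_red hy h1 h2 i1).1, hF⟩

variable {d : Cd} {W : ASp K d} {j : ℕ} {φ : AF j W} {ψ : Fe (j + 1) (G.EE.prod W.sp)}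

lemma fib [YF K] (hψ : G.IsPsi φ ψ) {α : L →ₐ[K] M} {T : M} {y v₀ v₁ : xz.X L} (hL : Good j L)
    (hT : Trans' α T) (hG : Gen α T) (hF : G.Frm L y v₀ v₁) (z : (d.amb K).pt L) :
    ψ.v M (G.fp α y v₀ v₁ T, (d.amb K).map α z) = G.e * φ.v L z := by
  by_cases hz : W.sp.mem z
  · obtain ⟨w, rfl, hw⟩ := hz
    exact YF.fib hψ hL hT hG hF hw
  · rw [not_not.1 fun e => hz ((W.sp.map_iff α z).1 (ψ.supp _ _ e).2.2),
      not_not.1 fun e => hz (φ.supp _ _ e).2, mul_zero]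

lemma key [Base K] [FW0 K] [YA K] [YB K] [YV K] [YF K] (hψ : G.IsPsi φ ψ) {α : L →ₐ[K] M} {T : M}
    {y v₀ v₁ : xz.X L} (hL : Good (j + 1) L) (hT : Trans' α T) (hG : Gen α T)
    (hF : G.Frm L y v₀ v₁) (z : (d.amb K).pt L) : ∃ δ : L, δ ≠ 0 ∧ ∀ O₁ : Pl L, O₁.IsDVR →
      ∃ Γ : Pl M, Pl.Over α O₁ Γ ∧ (O₁.IsDiv j → Γ.IsDiv (j + 1) ∧
        ((Γ.ord 1 - ordv Γ (G.nu (xz.map α y)) - ordv Γ (G.nu (xz.map α y)) +
          ordv Γ (mapV α (G.tv y v₀) + T • mapV α (G.tv y v₁)) : ℤ) : ℂ) *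
          ψ.v Γ.res ((G.A3.prod (d.amb K)).red Γ (G.fp α y v₀ v₁ T, (d.amb K).map α z)) =
        ((-(G.e * ordv O₁ (G.tv y v₁)) - (3 - 3 * G.e) * ordv O₁ (G.nu y) : ℤ) : ℂ) *
          φ.v O₁.res ((d.amb K).red O₁ z) +
          G.e * ((O₁.ord δ : ℂ) * φ.v O₁.res ((d.amb K).red O₁ z))) ∧
      ∀ O : Pl M, Pl.Over α O₁ O → (O₁.IsDiv j → O ≠ Γ) →
        ψ.v O.res ((G.A3.prod (d.amb K)).red O (G.fp α y v₀ v₁ T, (d.amb K).map α z)) = 0 := by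
  obtain ⟨δ, δ0, hv⟩ := YV.vol hF
  refine ⟨δ, δ0, fun O₁ d₁ => ?_⟩
  obtain ⟨a, c₀, c₁, c, u₀, u₁, a0, c0, c1, h1, h2, i0, i1, hf, e0, e1, eo⟩ := hv O₁ d₁
  have hy := hF.cn.scl a0
  have k0 : α c₀ ≠ 0 := (map_ne_zero α).2 c0
  obtain ⟨T', hT'⟩ : ∃ T', T' = α (c₁ / c₀) * T + α (c / c₀) := ⟨_, rfl⟩
  have t1 : Trans' α T' := hT' ▸ hT.affine (div_ne_zero c1 c0) _
  have t2 : Gen α T' := hT' ▸ hG.affine (div_ne_zero c1 c0) _
  have eb : mapV α (G.tv y v₀) + T • mapV α (G.tv y v₁) =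
      α c₀ • (mapV α (G.tv (G.scl a y) u₀) + T' • mapV α (G.tv (G.scl a y) u₁)) := by
    rw [e0, e1, hT']
    funext s
    simp only [mapV, Pi.add_apply, Pi.smul_apply, smul_eq_mul, map_add, map_mul, map_div₀]
    field_simp
    ring
  have ep : G.fp α y v₀ v₁ T = G.fp α (G.scl a y) u₀ u₁ T' := by
    have e : G.pt M (xz.map α y) = G.pt M (xz.map α (G.scl a y)) := by
      rw [← GD.map_pt, ← GD.map_pt, GD.pt_scl _ a0]
    refine Prod.ext (Prod.ext e e) ?_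
    show span M {_} = span M {_}
    rw [eb, span_singleton_smul_eq k0.isUnit]
  obtain ⟨Γ, hΓ, g1, g2, g3, g4⟩ := Pl.exists_gauss t1 t2 O₁
  obtain ⟨g4, g5⟩ := g4 d₁
  refine ⟨Γ, hΓ, fun dv => ⟨⟨g4, ?_⟩, ?_⟩, fun O hO hne => ?_⟩
  · rw [g2.tr_eq g3, dv.2]
    norm_cast
  · have R := rd_over hΓ hy h1 h2 i0 i1 hf
    obtain ⟨r1, r2⟩ := R.fin g1
    have v1 : ψ.v Γ.res ((G.A3.prod (d.amb K)).red Γ (G.fp α y v₀ v₁ T, (d.amb K).map α z)) =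
        G.e * φ.v O₁.res ((d.amb K).red O₁ z) := by
      rw [← fib hψ (dv.good hL) g2 g3 hf, ← r1, ← ep, ← Amb.red_map _ hΓ]
      rfl
    have v2 : ordv Γ (G.nu (xz.map α y)) = ordv O₁ (G.nu y) := by
      rw [← ordv_map hΓ d₁ g4 g5 (G.nu_ne hF.cn.1)]
      exact congrArg _ (G.nu_map α.toRingHom y).symm
    have v3 : ordv Γ (mapV α (G.tv y v₀) + T • mapV α (G.tv y v₁)) = O₁.ord c₀ := by
      have := (YB.fp_mem α T hF).1
      rw [eb] at this ⊢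
      rw [FB3.ordv_smul g4 (right_ne_zero_of_smul this) k0, r2 g4, g5, add_zero]
    have v4 : ordv O₁ (G.tv y v₁) = O₁.ord c₁ := by
      obtain ⟨s1, s2⟩ := tv_red hy h1 h2 i1
      have s3 : rdV O₁ (G.tv (G.scl a y) u₁) ≠ 0 := s2 ▸ hf.ind.ne_zero 1
      rw [e1, FB3.ordv_smul d₁ (fun e => s3 (by rw [e]; exact funext fun _ => O₁.rd_zero)) c1,
        FB3.ordv_prim d₁ s1 s3, add_zero]
    have eo' := congrArg (Int.cast : ℤ → ℂ) eo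
    rw [v1, v2, v3, v4, o1]
    push_cast at eo' ⊢
    linear_combination φ.v O₁.res ((d.amb K).red O₁ z) * eo'
  · have R := rd_over hO hy h1 h2 i0 i1 hf
    have lt := O₁.tr_res_lt d₁.ne_top hL.2.le
    have er : (G.A3.prod (d.amb K)).red O (G.fp α y v₀ v₁ T, (d.amb K).map α z) =
        (G.A3.red O (G.fp α (G.scl a y) u₀ u₁ T'),
          (d.amb K).map hO.resHom ((d.amb K).red O₁ z)) := by
      rw [← ep, ← Amb.red_map _ hO]
      rfl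
    rw [er]
    by_cases m : T' ∈ O.O
    · obtain ⟨M₀, α₀, κ, T₀, q1, q2, q3⟩ := exists_gen hO.resHom (O.rd T')
      rw [(R.fin m).1, ← q2, ← q1, ← fp_map, Amb.map_comp]
      refine ψ.low κ (_, _) ?_
      by_cases q4 : Trans' α₀ T₀
      · have q5 : O₁.res.tr ≠ j := fun e => hne ⟨d₁, e⟩ (Pl.gauss_unique t2 hO hΓ m g1
          (by rw [← q2, ← q1]; exact Trans'.of_map.2 q4) g2)
        refine q3.tr_le.trans_lt ?_
        obtain ⟨n, hn⟩ := Cardinal.lt_aleph0.1 (lt.trans (Cardinal.natCast_lt_aleph0))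
        rw [hn] at lt q5 ⊢
        norm_cast at lt q5 ⊢
        omega
      · exact (q3.fin q4).tr_eq.trans_lt lt
    · rw [(R.inf m).1]
      exact ψ.low hO.resHom (_, _) lt

end YGp

open YGp in
theorem YG_thm {K : Type} [Field K] [Base K] [FW0 K] [YA K] [YB K] [YV K] [YF K] : YG K := by
  refine ⟨fun {G d W j φ ψ Ξ} hψ hΞ L M α T y v₀ v₁ w hL hT hG hF hw => ?_⟩
  obtain ⟨δ, δ0, hk⟩ := key hψ hL hT hG hF (some w)
  choose Γ hΓ h1 h2 using hk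
  obtain ⟨b0, hE⟩ := YB.fp_mem α T hF
  have cn := (GD.cn_map α).2 hF.cn
  have hX := hΞ M _ _ _ (d.map α w) 1 (hL.succ hT hG) cn cn b0 hE.1 ((W.map_iff α w).2 hw)
    one_ne_zero fun h => absurd rfl h
  have b1 : G.tv y v₁ ≠ 0 := hF.ind.ne_zero 1
  have hP := hψ L y _ w hL hF.cn b1 ((YB.on hF.cn _).2 ⟨v₁, hF.t1, b1, rfl⟩) hw
  have hR := φ.rat L (some w) δ hL (W.sp_some.2 hw) δ0
  obtain ⟨O₀, h₀, d₀, o₀, s₀⟩ := Pl.exists_zero_place hT.inv hG.inv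
  have f₀ := Fin'.of_surj s₀
  have t0 : T ∉ O₀.O := fun e => by
    have := (Pl.ord_nonneg_iff d₀).2 e
    rw [Pl.ord_inv d₀] at o₀
    omega
  have n0 : ∀ O : Pl M, O.IsDVR → Pl.Triv α O → ordv O (G.nu (xz.map α y)) = 0 := fun O dO h => by
    obtain ⟨k1, k2⟩ := int_triv h (G.nu y)
    exact (congrArg _ (G.nu_map α.toRingHom y).symm).trans (FB3.ordv_prim dO k1
      (k2 ▸ mt (mapV_eq_zero h.hom.toRingHom).1 (G.nu_ne hF.cn.1)))
  have hs : HasS (fun O₁ : Dv L j =>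
      ((-(G.e * ordv O₁.1 (G.tv y v₁)) - (3 - 3 * G.e) * ordv O₁.1 (G.nu y) : ℤ) : ℂ) *
        φ.v O₁.1.res ((d.amb K).red O₁.1 (some w)) +
        G.e * ((O₁.1.ord δ : ℂ) * φ.v O₁.1.res ((d.amb K).red O₁.1 (some w))))
      (ψ.v L (((G.pt L y, G.pt L y), span L {G.tv y v₁}), some w)) := by
    have hv : ∀ O : Pl L, rv φ.a O w = φ.v O.res ((d.amb K).red O (some w)) := fun O =>
      (FA3.v_red φ.toPre O w fun _ ⟨_, e, _⟩ => nomatch e).symm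
    simp only [hv] at hP
    have f2 : (Function.support fun O₁ : Dv L j => (G.e : ℂ) * ((O₁.1.ord δ : ℂ) *
        φ.v O₁.1.res ((d.amb K).red O₁.1 (some w)))).Finite :=
      hR.1.subset fun _ h => right_ne_zero_of_mul h
    refine ⟨(hP.1.union f2).subset (Function.support_add _ _), ?_⟩
    rw [finsum_add_distrib hP.1 f2, hP.2, ← mul_finsum, hR.2, mul_zero, add_zero]
  have := split hX ⟨O₀, d₀, f₀.tr_eq.trans hL.2⟩
    (Γ := fun O₁ : Dv L j => ⟨Γ O₁.1 O₁.2.1, (h1 _ _ O₁.2).1⟩)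
    (fun O₁ O₂ e => Subtype.ext ((hΓ _ O₁.2.1).eq_comap.trans
      ((congrArg (fun O : Dv M (j + 1) => Pl.comap α O.1) e).trans (hΓ _ O₂.2.1).eq_comap.symm)))
    (fun O₁ e => O₁.2.1.ne_top (ValuationSubring.ext _ _ fun x => iff_of_true
      ((hΓ _ O₁.2.1 x).2 ((congrArg (fun O : Dv M (j + 1) => α x ∈ O.1.O) e).mpr (h₀ x)))
      (ValuationSubring.mem_top _)))
    (fun O ne nr => ?_) (by
      simp only [← fun O₁ : Dv L j => (h1 _ O₁.2.1 O₁.2).2] at hs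
      exact hs)
  · refine this.trans ?_
    obtain ⟨r1, r2⟩ := (rd_triv h₀ hF).inf t0
    have v1 : ψ.v O₀.res ((G.A3.prod (d.amb K)).red O₀
        (G.fp α y v₀ v₁ T, (d.amb K).map α (some w))) =
        ψ.v L (((G.pt L y, G.pt L y), span L {G.tv y v₁}), some w) := by
      have e := ψ.ext h₀.hom (((G.pt L y, G.pt L y), span L {G.tv y v₁}), some w) hL (hL.of_fin f₀)
      rw [deg_of_surj s₀, Nat.cast_one, one_mul] at e
      rw [← e]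
      exact congrArg _ (Prod.ext r1 ((d.amb K).red_triv h₀ (some w)))
    rw [Pl.ord_inv d₀] at o₀
    show ((O₀.ord 1 - _ - _ + _ : ℤ) : ℂ) * ψ.v O₀.res ((G.A3.prod (d.amb K)).red O₀
        (G.fp α y v₀ v₁ T, (d.amb K).map α (some w))) + _ = 0
    rw [v1, o1, n0 O₀ d₀ h₀, r2 d₀, show O₀.ord T = -1 by omega]
    push_cast
    ring
  · by_cases h : Pl.Triv α O.1
    · by_cases m : T ∈ O.1.O
      · rw [o1, n0 _ O.2.1 h, ((rd_triv h hF).fin m).2 O.2.1]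
        simp
      · exact absurd (Subtype.ext (Pl.zero_place_unique hT.inv hG.inv h h₀
          (by rwa [inv_inv]) (by rwa [inv_inv]))) ne
    · have d₁ := (Pl.over_comap α O.1).isDVR O.2.1 fun e =>
        h fun x => (e.ge (ValuationSubring.mem_top x) : x ∈ (Pl.comap α O.1).O)
      exact mul_eq_zero_of_right _ (h2 _ d₁ O.1 (Pl.over_comap α O.1) fun dv e =>
        nr ⟨⟨_, dv⟩, Subtype.ext e.symm⟩)

end Pool.Agent.Lib.MP_557161_ag.HG
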