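import Pool.Agent.Lib.MP_557161_ag.HG.StX

/-!
Descent of functionals from the blow-up of the diagonal to the square of the double plane.
-/

namespace Pool.Agent.Lib.MP_557161_ag.HG

open Pool.Agent.Lib.MP_557161_ag.DL Submodule

namespace YHa

variable {K : Type} [Field K] {G : GD K} {d : Cd} {W : ASp K d} {j : ℕ} {L M N : Fld K}

lemma fp_map (α : L →ₐ[K] M) (κ : M →ₐ[K] N) (y v₀ v₁ : xz.X L) (T : M) :
    G.A3.map κ (G.fp α y v₀ v₁ T) = G.fp (κ.comp α) y v₀ v₁ (κ T) := by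
  refine Prod.ext (Prod.ext (GD.map_pt κ _) (GD.map_pt κ _)) ((smap_single _ _).trans ?_)
  congr 2
  funext s
  simp [mapV]

variable [YB K] {Ξ : Fe (j + 1) (G.BB.prod W.sp)}

lemma z0 (hΞ : G.FibZ Ξ) {m : ℕ} (i : L →ₐ[K] N) (E : (Sub K G.σ).pt L) (u : (d.amb K).pt L)
    (π : (Sub K (G.σ × G.σ)).pt N) (hL : Good m L) (hm : m ≤ j) :
    Ξ.v N ((((Sub K G.σ).map i E, (Sub K G.σ).map i E), π), (d.amb K).map i u) = 0 := by
  by_contra h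
  obtain ⟨gN, hB, hW⟩ := Ξ.supp _ _ h
  obtain ⟨w, rfl, hw⟩ := (W.sp.map_iff i u).1 hW
  obtain ⟨y, hy, rfl⟩ : G.XX.mem E := by
    obtain ⟨y', _, _, h1, _, h3, _⟩ := hB
    exact (G.XX.map_iff i E).1 ⟨y', h1, h3⟩
  rw [GD.map_pt] at h hB
  obtain ⟨v, hv, h0, rfl⟩ := (YB.on ((GD.cn_map i).2 hy) π).1 ⟨hB, rfl⟩
  obtain ⟨v₀, v₁, F⟩ := YB.frm hy
  obtain ⟨s, t, e⟩ := YB.frm_span (YB.frm_map i F) hv
  rw [← GD.tv_map, ← GD.tv_map] at e
  have lt : ∀ {n : ℕ}, n ≤ j → (n : Cardinal) < (j + 1 : ℕ) := fun hn => by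
    exact_mod_cast Nat.lt_succ_of_le hn
  by_cases hs : s = 0
  · rw [hs, zero_smul, zero_add] at e
    have ht : t ≠ 0 := fun e' => h0 (by rw [e, e', zero_smul])
    refine h (Eq.trans ?_ (Ξ.low i (((G.pt L y, G.pt L y), span L {G.tv y v₁}), some w)
      (hL.2 ▸ lt hm)))
    congr 1
    refine Prod.ext (Prod.ext (Prod.ext (GD.map_pt i _).symm (GD.map_pt i _).symm) ?_) rfl
    exact (by rw [e, span_singleton_smul_eq (IsUnit.mk0 _ ht)] : span N {_} = _).trans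
      (smap_single _ _).symm
  obtain ⟨M, α, κ, T, rfl, hT, hg⟩ := exists_gen i (t / s)
  have e1 : (((G.pt N (xz.map (κ.comp α) y), G.pt N (xz.map (κ.comp α) y)),
      span N {G.tv (xz.map (κ.comp α) y) v}), (d.amb K).map (κ.comp α) (some w)) =
      (G.A3.prod (d.amb K)).map κ (G.fp α y v₀ v₁ T, some (d.map α w)) := by
    refine Prod.ext (Eq.trans ?_ (fp_map α κ y v₀ v₁ T).symm) ((d.amb K).map_comp α κ (some w))
    refine Prod.ext rfl ?_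
    show span N {_} = span N {_}
    rw [e, hT, ← span_singleton_smul_eq (IsUnit.mk0 _ hs) (_ + (t / s) • _), smul_add, smul_smul,
      mul_div_cancel₀ _ hs]
    rfl
  refine h ((congrArg (Ξ.v N) e1).trans ?_)
  by_cases ht : Trans' α T
  · rcases hm.eq_or_lt with rfl | hm
    · rw [Ξ.ext κ _ (hL.succ ht hg) gN, hΞ L M α T y v₀ v₁ w hL ht hg F hw, mul_zero]
    · exact Ξ.low κ _ ((hL.succ ht hg).2 ▸ lt hm)
  · exact Ξ.low κ _ ((hL.of_fin (hg.fin ht)).2 ▸ lt hm)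

lemma z1 (hΞ : G.FibZ Ξ) (i : L →ₐ[K] N) (E : (Sub K G.σ).pt L) (u : (d.amb K).pt L)
    (π : (Sub K (G.σ × G.σ)).pt N) (hL : L.tr < (j + 1 : ℕ)) :
    Ξ.v N ((((Sub K G.σ).map i E, (Sub K G.σ).map i E), π), (d.amb K).map i u) = 0 := by
  obtain ⟨s, hs⟩ := ((Sub K G.σ).prod (d.amb K)).fg (L := L) (E, u)
  obtain ⟨m, hm⟩ := good_adjoin L s s.finite_toSet
  let κ : L.sub (IntermediateField.adjoin K (s : Set L)) →ₐ[K] L :=
    (IntermediateField.adjoin K (s : Set L)).val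
  obtain ⟨⟨E₀, u₀⟩, e⟩ := hs _ κ fun x hx => ⟨⟨x, IntermediateField.subset_adjoin _ _ hx⟩, rfl⟩
  obtain rfl : (Sub K G.σ).map κ E₀ = E := congrArg Prod.fst e
  obtain rfl : (d.amb K).map κ u₀ = u := congrArg Prod.snd e
  have h1 := (tr_le κ).trans_lt hL
  rw [hm.2] at h1
  rw [← Amb.map_comp, ← Amb.map_comp]
  exact z0 hΞ _ _ _ _ hm (Nat.lt_succ_iff.1 (by exact_mod_cast h1))

omit [YB K] in
lemma at_zero {σ : Type} [Finite σ] {α : L →ₐ[K] M} {O : Pl M} (h : Pl.Triv α O) {T : M}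
    (hT : T⁻¹ ∉ O.O) {b : σ → L} (hb : b ≠ 0) (b' : σ → L) :
    sred O (span M {mapV α b + T • mapV α b'}) = smap h.hom.toRingHom (span L {b}) := by
  have h1 : T ∈ O.O := (O.O.mem_or_inv_mem T).resolve_right hT
  have h2 : O.rd T = 0 := by_contra fun e => hT (Pl.ValB.un_of_rd h1 e).2.2
  have i1 : ∀ c : σ → L, IntV O (mapV α c) := fun c s => h _
  have e : rdV O (mapV α b + T • mapV α b') = mapV h.hom.toRingHom b := by
    rw [rdV_add (i1 b) ((i1 b').smul h1), rdV_smul h1 (i1 b'), h2, zero_smul, add_zero]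
    exact funext fun s => (h.hom_apply _).symm
  rw [sred_single ((i1 b).add ((i1 b').smul h1)) (by rw [e]; exact mt (mapV_eq_zero _).1 hb), e,
    smap_single]

lemma z2 (hΞ : G.FibZ Ξ) (hL : Good (j + 1) L) {y v v' : xz.X L} (F : G.Frm L y v v')
    {u : (d.amb K).pt L} (hu : W.sp.mem u) :
    Ξ.v L (((G.pt L y, G.pt L y), span L {G.tv y v}), u) =
      Ξ.v L (((G.pt L y, G.pt L y), span L {G.tv y v'}), u) := by
  classical
  obtain ⟨M, α, T, ht, hg⟩ : ∃ (M : Fld K) (α : L →ₐ[K] M) (T : M), Trans' α T ∧ Gen α T :=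
    ⟨_, _, _, trans_rat L, gen_rat L⟩
  have T0 : T ≠ 0 := fun e => ht.ne 0 (e.trans (map_zero α).symm)
  have b0 : G.tv y v ≠ 0 := F.ind.ne_zero 0
  have b1 : G.tv y v' ≠ 0 := F.ind.ne_zero 1
  obtain ⟨O₀, t₀, d₀, o₀, s₀⟩ := Pl.exists_zero_place ht hg
  obtain ⟨O₁, t₁, d₁, o₁, s₁⟩ := Pl.exists_zero_place ht.inv hg.inv
  have n₀ : T⁻¹ ∉ O₀.O := by rw [← Pl.ord_nonneg_iff d₀, Pl.ord_inv d₀, o₀]; omega
  have n₁ : T⁻¹⁻¹ ∉ O₁.O := by rw [← Pl.ord_nonneg_iff d₁, Pl.ord_inv d₁, o₁]; omega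
  rw [Pl.ord_inv d₁, neg_eq_iff_eq_neg] at o₁
  have g₀ := hL.of_fin (Fin'.of_surj s₀)
  have g₁ := hL.of_fin (Fin'.of_surj s₁)
  have hne : (⟨O₀, d₀, g₀.2⟩ : Dv M (j + 1)) ≠ ⟨O₁, d₁, g₁.2⟩ := fun e => by
    obtain rfl : O₀ = O₁ := congrArg Subtype.val e
    omega
  have H := (Ξ.rat M (G.fp α y v v' T, (d.amb K).map α u) T (hL.succ ht hg)
    ⟨(YB.fp_mem α T F).2.1, (W.sp.map_iff α u).2 hu⟩ T0).2
  have r : ∀ (O : Pl M) (h : Pl.Triv α O) (π : Submodule L (G.σ × G.σ → L)),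
      sred O (span M {mapV α (G.tv y v) + T • mapV α (G.tv y v')}) = smap h.hom.toRingHom π →
      (G.A3.prod (d.amb K)).red O (G.fp α y v v' T, (d.amb K).map α u) =
        (G.A3.prod (d.amb K)).map h.hom (((G.pt L y, G.pt L y), π), u) := fun O h π e => by
    have e1 : (Sub K G.σ).red O (G.pt M (xz.map α y)) = (Sub K G.σ).map h.hom (G.pt L y) := by
      rw [← GD.map_pt, Amb.red_triv _ h]
    exact Prod.ext (Prod.ext (Prod.ext e1 e1) e) ((d.amb K).red_triv h u)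
  rw [finsum_eq_sum_of_support_subset _ (s := {⟨O₀, d₀, g₀.2⟩, ⟨O₁, d₁, g₁.2⟩}) fun O hO => ?_,
    Finset.sum_pair hne] at H
  · have e₁ := at_zero t₁ n₁ b1 (G.tv y v)
    rw [← span_singleton_smul_eq (IsUnit.mk0 _ T0), smul_add, smul_smul, mul_inv_cancel₀ T0,
      one_smul, add_comm] at e₁
    dsimp only at H
    rw [r _ t₀ _ (at_zero t₀ n₀ b0 _), r _ t₁ _ e₁, Ξ.ext _ _ hL g₀, Ξ.ext _ _ hL g₁,
      deg_of_surj s₀, deg_of_surj s₁, o₀, o₁] at H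
    simpa [add_neg_eq_zero] using H
  rw [Finset.coe_pair]
  by_cases h : Pl.Triv α O.1
  · by_contra hn
    refine left_ne_zero_of_mul hO ?_
    rw [Pl.ord_eq_zero_of_mem T0 (by_contra fun e => hn (Or.inr (Subtype.ext
      (Pl.zero_place_unique ht.inv hg.inv h t₁ (by rwa [inv_inv]) n₁))))
      (by_contra fun e => hn (Or.inl (Subtype.ext (Pl.zero_place_unique ht hg h t₀ e n₀)))),
      Int.cast_zero]
  · refine absurd ?_ (right_ne_zero_of_mul hO)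
    have ov := Pl.over_comap α O.1
    have e1 : (Sub K G.σ).red O.1 (G.pt M (xz.map α y)) =
        (Sub K G.σ).map ov.resHom ((Sub K G.σ).red (Pl.comap α O.1) (G.pt L y)) := by
      rw [← GD.map_pt, Amb.red_map _ ov]
    refine Eq.trans ?_ (z1 hΞ ov.resHom ((Sub K G.σ).red (Pl.comap α O.1) (G.pt L y))
      ((d.amb K).red (Pl.comap α O.1) u) (sred O.1 (G.fp α y v v' T).2)
      (Pl.tr_res_lt _ (fun e => h fun x => (ov x).1 (e ▸ ValuationSubring.mem_top _)) hL.2.le))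
    congr 1
    exact Prod.ext (Prod.ext (Prod.ext e1 e1) rfl) ((d.amb K).red_map ov u)

lemma z3 (hΞ : G.FibZ Ξ) {s : G.A2.pt L} {π π' : (Sub K (G.σ × G.σ)).pt L} {u : (d.amb K).pt L}
    (h : G.BB.mem (L := L) (s, π)) (h' : G.BB.mem (L := L) (s, π')) (hu : W.sp.mem u) :
    Ξ.v L ((s, π), u) = Ξ.v L ((s, π'), u) := by
  by_cases hL : Good (j + 1) L
  swap
  · rw [not_not.1 fun h => hL (Ξ.supp _ _ h).1, not_not.1 fun h => hL (Ξ.supp _ _ h).1]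
  obtain ⟨P, P'⟩ := s
  obtain ⟨y, y', hy, hy', rfl, rfl⟩ : ∃ y y', G.Cn L y ∧ G.Cn L y' ∧ P = G.pt L y ∧
      P' = G.pt L y' := by
    obtain ⟨y, y', _, h1, h2, h3, h4, _⟩ := h
    exact ⟨y, y', h1, h2, h3, h4⟩
  by_cases e : G.pt L y = G.pt L y'
  swap
  · rw [(YB.off hy hy' e π).1 h, (YB.off hy hy' e π').1 h']
  rw [← e] at h h' ⊢
  obtain ⟨v, hv, h0, rfl⟩ := (YB.on hy π).1 ⟨h, rfl⟩
  obtain ⟨v', hv', h0', rfl⟩ := (YB.on hy π').1 ⟨h', rfl⟩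
  by_cases hi : LinearIndependent L ![G.tv y v, G.tv y v']
  · exact z2 hΞ hL ⟨hy, hv, hv', hi⟩ hu
  rw [LinearIndependent.pair_iff' h0, not_forall] at hi
  obtain ⟨a, ha⟩ := hi
  rw [not_not] at ha
  rw [← ha, span_singleton_smul_eq (IsUnit.mk0 _ fun e => h0' (by rw [← ha, e, zero_smul]))]

/-- The projection from the blow-up. -/
def prj (G : GD K) (W : ASp K d) : Mor (G.BB.prod W.sp) (G.X2.prod W.sp) where
  f p := (p.1.1, p.2)
  mem _ h := let ⟨y, y', _, h1, h2, h3, h4, _⟩ := h.1; ⟨⟨⟨y, h1, h3⟩, y', h2, h4⟩, h.2⟩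
  nat _ _ _ := rfl
  cont _ _ _ _ _ := rfl

end YHa

open YHa in
theorem YH_thm {K : Type} [Field K] [Base K] [YB K] : YH K := ⟨fun {G d W j} Ξ hΞ => by
  obtain ⟨Ψ, hΨ⟩ := descent (f := prj G W) (fun O y _ h h' => ⟨YB.cmpB O h.1, h'.2⟩)
    (fun L _ z h => let ⟨π, hπ⟩ := YB.lift h.1; ⟨((z.1, π), z.2), ⟨hπ, h.2⟩, rfl⟩) Ξ
    (fun L ⟨⟨s, π⟩, u⟩ ⟨⟨s', π'⟩, u'⟩ h h' e => by
      obtain rfl : s = s' := congrArg Prod.fst e
      obtain rfl : u = u' := congrArg Prod.snd e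
      exact z3 hΞ h.1 h'.1 h.2)
  refine ⟨Ψ, fun L s w hs => ?_⟩
  by_cases h : Good (j + 1) L ∧ W.sp.mem (L := L) (some w)
  · rw [hΨ L L (AlgHom.id K L) (s.1, some w) (s, some w) h.1 (Fin'.of_surj fun x => ⟨x, rfl⟩)
      ⟨hs, h.2⟩ (Amb.map_id _ _).symm, deg_of_surj fun x => ⟨x, rfl⟩, Nat.cast_one, one_mul]
  · rw [not_not.1 fun e => h ⟨(Ψ.supp _ _ e).1, (Ψ.supp _ _ e).2.2⟩,
      not_not.1 fun e => h ⟨(Ξ.supp _ _ e).1, (Ξ.supp _ _ e).2.2⟩]⟩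

end Pool.Agent.Lib.MP_557161_ag.HG
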