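import Pool.Agent.Lib.MP_557161_ag.HG.StX

/-!
Naturality of the intersection with the diagonal.
-/

namespace Pool.Agent.Lib.MP_557161_ag.HG

open Pool.Agent.Lib.MP_557161_ag.DL Submodule

variable {K : Type} [Field K]

namespace YNA

theorem hs {α : Type} {f f' : α → ℂ} {a a' χ : ℂ} (h : HasS f a) (h' : HasS f' a')
    (e : ∀ x, f' x = χ * f x) : a' = χ * a := by
  rw [← h'.2, ← h.2, mul_finsum]
  exact finsum_congr e

variable {d d' : Cd} {W : ASp K d} {W' : ASp K d'} {g : ∀ L : Fld K, d'.X L → d.X L}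

theorem red (hg : Mp W' W g) (hp : Pro W' W g) {M : Fld K} {O : Pl M} (hO : O.IsDVR) {χ : ℂ}
    {F : (d.amb K).pt O.res → ℂ} {F' : (d'.amb K).pt O.res → ℂ}
    (s : ∀ z, F z ≠ 0 → W.sp.mem z) (s' : ∀ z, F' z ≠ 0 → W'.sp.mem z)
    (e : ∀ w, W'.mem O.res w → F' (some w) = χ * F (some (g _ w))) {w : d'.X M}
    (hw : W'.mem M w) :
    F' ((d'.amb K).red O (some w)) = χ * F ((d.amb K).red O (some (g M w))) := by
  by_cases h : W'.sp.mem ((d'.amb K).red O (some w))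
  · obtain ⟨x, e1, hx⟩ := h
    rw [e1, Cd.red_some (hg.reg _ hw hx (Cd.lift_of_red e1)), e x hx]
  · have h1 : F ((d.amb K).red O (some (g M w))) = 0 := by
      by_contra h1
      obtain ⟨z, e1, hz⟩ := s _ h1
      obtain ⟨x, hx, e2⟩ := hp M O w z hO hw hz (Cd.lift_of_red e1)
      exact h ⟨x, Cd.red_some e2, hx⟩
    rw [h1, mul_zero]
    by_contra h2
    exact h (s' _ h2)

theorem rv_eq {j : ℕ} (φ : AF j W) {M : Fld K} (O : Pl M) (w : d.X M) :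
    rv φ.a O w = φ.v O.res ((d.amb K).red O (some w)) := by
  by_cases h : d.all (· ∈ O.O) w
  · rw [Cd.red_some ((Cd.lift_pl O).2 ⟨h, rfl⟩)]
    exact if_pos h
  · have e : (d.amb K).red O (some w) = none := if_neg h
    rw [e, rv, if_neg h]
    by_contra h1
    obtain ⟨_, e1, -⟩ := (φ.supp _ _ (Ne.symm h1)).2
    exact nomatch e1

theorem off {A : Amb K} {P : Sp A} {j : ℕ} (θ : Fe j (P.prod W.sp)) (θ' : Fe j (P.prod W'.sp))
    (χ : ℂ) {L : Fld K} {s : A.pt L} (z : (d.amb K).pt L) (z' : (d'.amb K).pt L)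
    (h : ¬ (Good j L ∧ P.mem s)) : θ'.v L (s, z') = χ * θ.v L (s, z) := by
  have h1 : θ.v L (s, z) = 0 := by
    by_contra h1
    exact h ⟨(θ.supp _ _ h1).1, (θ.supp _ _ h1).2.1⟩
  have h2 : θ'.v L (s, z') = 0 := by
    by_contra h2
    exact h ⟨(θ'.supp _ _ h2).1, (θ'.supp _ _ h2).2.1⟩
  rw [h1, h2, mul_zero]

variable {G : GD K} {j : ℕ} {χ : ℂ}

theorem psi (hg : Mp W' W g) (hp : Pro W' W g) {φ : AF j W} {φ' : AF j W'} {ψ ψ'}
    (h : G.IsPsi φ ψ) (h' : G.IsPsi φ' ψ')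
    (e : ∀ L w, W'.mem L w → φ'.a L w = χ * φ.a L (g L w)) (M : Fld K) (s : G.A3.pt M)
    (w : d'.X M) (hw : W'.mem M w) : ψ'.v M (s, some w) = χ * ψ.v M (s, some (g M w)) := by
  by_cases hs' : Good (j + 1) M ∧ G.EE.mem s
  swap
  · exact off ψ ψ' χ _ _ hs'
  obtain ⟨hM, hE⟩ := hs'
  obtain ⟨⟨y, -, b, hy, -, e1, -, hb, e3, -⟩, e4⟩ := id hE
  obtain ⟨⟨P, P'⟩, π⟩ := s
  obtain rfl : P = G.pt M y := e1
  obtain rfl : G.pt M y = P' := e4
  obtain rfl : π = span M {b} := e3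
  refine hs (h M y b _ hM hy hb hE (hg.mem _ _ hw)) (h' M y b _ hM hy hb hE hw) fun O => ?_
  rw [rv_eq, rv_eq, red hg hp O.2.1 (F := φ.v O.1.res) (F' := φ'.v O.1.res)
    (fun z hz => (φ.supp _ _ hz).2) (fun z hz => (φ'.supp _ _ hz).2) (e _) hw]
  ring

theorem xi (hg : Mp W' W g) (hp : Pro W' W g) {ψ : Fe j (G.EE.prod W.sp)}
    {ψ' : Fe j (G.EE.prod W'.sp)} {Ξ Ξ'} (h : G.IsXi ψ Ξ) (h' : G.IsXi ψ' Ξ')
    (e : ∀ (M : Fld K) (s : G.A3.pt M) (w : d'.X M), W'.mem M w →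
      ψ'.v M (s, some w) = χ * ψ.v M (s, some (g M w))) (M : Fld K) (s : G.A3.pt M)
    (w : d'.X M) (hw : W'.mem M w) : Ξ'.v M (s, some w) = χ * Ξ.v M (s, some (g M w)) := by
  by_cases hs' : Good (j + 1) M ∧ G.BB.mem s
  swap
  · exact off Ξ Ξ' χ _ _ hs'
  obtain ⟨hM, hB⟩ := hs'
  obtain ⟨y, y', b, hy, hy', e1, e2, hb, e3, e4⟩ := id hB
  obtain ⟨⟨P, P'⟩, π⟩ := s
  obtain rfl : P = G.pt M y := e1
  obtain rfl : P' = G.pt M y' := e2
  obtain rfl : π = span M {b} := e3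
  have e5 : G.pt M y ≠ G.pt M y' → G.sv y y' = (1 : M) • b := fun hne => by
    rcases e4 with rfl | ⟨rfl, -⟩
    · rw [one_smul]
    · exact absurd rfl hne
  refine hs (h M y y' b _ 1 hM hy hy' hb hB (hg.mem _ _ hw) one_ne_zero e5)
    (h' M y y' b _ 1 hM hy hy' hb hB hw one_ne_zero e5) fun O => ?_
  have := red hg hp O.2.1 (χ := χ)
    (F := fun z => ψ.v O.1.res (G.A3.red O.1 ((G.pt M y, G.pt M y'), span M {b}), z))
    (F' := fun z => ψ'.v O.1.res (G.A3.red O.1 ((G.pt M y, G.pt M y'), span M {b}), z))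
    (fun z hz => (ψ.supp _ _ hz).2.2) (fun z hz => (ψ'.supp _ _ hz).2.2) (e _ _) hw
  exact (congrArg (_ * ·) this).trans (mul_left_comm _ _ _)

end YNA

theorem YN_thm [YB K] : YN K where
  nat := by
    rintro G d d' W W' j φ φ' Ψ Ψ' ⟨ψ, Ξ, h1, h2, h3⟩ ⟨ψ', Ξ', k1, k2, k3⟩ g hg hp χ e L s w hw
    by_cases hs : Good (j + 2) L ∧ G.X2.mem s
    swap
    · exact YNA.off Ψ Ψ' χ _ _ hs
    obtain ⟨π, hπ⟩ := YB.lift hs.2
    rw [h3 L (s, π) _ hπ, k3 L (s, π) _ hπ]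
    exact YNA.xi hg hp h2 k2 (YNA.psi hg hp h1 k1 e) L _ w hw

end Pool.Agent.Lib.MP_557161_ag.HG
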