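import Pool.Agent.Lib.MP_557161_ag.HG.StX
import Pool.Agent.Lib.MP_557161_ag.DL.PS

/-!
Functionals on the square of the double plane that vanish on exterior products are antisymmetric.
-/

namespace Pool.Agent.Lib.MP_557161_ag.HG

open Pool.Agent.Lib.MP_557161_ag.DL MvPolynomial Submodule

variable {K : Type} [Field K] [Base K]

namespace YQ

lemma ck_lines : CK (Lines K (Fin 3)) := by
  obtain ⟨p, hp, hc⟩ := Base.char (K := K)
  have := Fact.mk hp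
  let := ZMod.algebra K p
  refine (ck_proj (K := K) (0 : Matrix (Fin 3) (Fin 3) (ZMod p)) ⊤).congr fun L ℓ =>
    ⟨fun h => exists_gen_line h.1, ?_⟩
  rintro ⟨x, hx, rfl⟩
  exact (mem_ps_span hx).2 ⟨by rw [DL.ext, smap_top]; trivial, fun _ h => absurd h (Nat.not_lt_zero _)⟩

lemma van_lines {B : Amb K} (Z : Sp B) : DL.Van (Lines K (Fin 3)) Z :=
  CKL.van_image (Y' := (Lines K (Fin 3)).prod (Sp.point K)) ⟨fun y => y.1, fun _ h => h.1,
    fun _ _ _ => rfl, fun _ _ _ _ _ => rfl⟩ (fun _ _ _ _ h => ⟨h, trivial⟩)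
    (fun _ _ y hy => ⟨(y, ()), ⟨hy, trivial⟩, rfl⟩) (ck_lines _ _ _ _ (van_point Z))

omit [Base K] in
lemma cn_ngz {G : GD K} {L : Fld K} {y : xz.X L} (h : G.Cn L y) : G.Cn L (ngz L y) :=
  ⟨h.1, (neg_sq y.2).trans h.2⟩

omit [Base K] in
lemma fib {G : GD K} {L : Fld K} {y y' : xz.X L} (h : G.Cn L y) (h' : G.Cn L y')
    (e : span L {y.1} = span L {y'.1}) :
    G.pt L y' = G.pt L y ∨ G.pt L y' = G.pt L (ngz L y) := by
  obtain ⟨a, ha⟩ := mem_span_singleton.1 (e.ge (mem_span_singleton_self y'.1))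
  have a0 : a ≠ 0 := fun e' => h'.1 (by rw [← ha, e', zero_smul])
  have h1 : y'.2 ^ 2 = (a ^ G.e * y.2) ^ 2 := h'.2.trans (by rw [← ha]; exact (h.scl a0).2.symm)
  rcases sq_eq_sq_iff_eq_or_eq_neg.1 h1 with h2 | h2
  · exact Or.inl (by rw [← GD.pt_scl y a0]; exact congrArg _ (Prod.ext ha.symm h2))
  · exact Or.inr (by
      rw [← GD.pt_scl (ngz L y) a0]
      exact congrArg _ (Prod.ext ha.symm (h2.trans (mul_neg _ _).symm)))

lemma left [YA K] (G : GD K) {j : ℕ} (φ : Fn j G.X2) (hk : φ.Kills) (L : Fld K) (y : xz.X L)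
    (E : (Sub K G.σ).pt L) (hy : G.Cn L y) :
    φ.v L (G.pt L (ngz L y), E) = -φ.v L (G.pt L y, E) := by
  by_cases hE : G.XX.mem E
  swap
  · rw [not_not.1 fun e => hE (φ.supp L (G.pt L (ngz L y), E) e).2.2,
      not_not.1 fun e => hE (φ.supp L (G.pt L y, E) e).2.2, neg_zero]
  obtain ⟨s, hs⟩ := YA.sig G
  obtain ⟨π, hπ⟩ := YA.prj G
  have sp : s.Proper := fun O _ _ h _ => YA.cmp O h
  have πp : π.Proper := fun O _ _ h _ => YA.cmp O h
  have πs : π.Surj := by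
    rintro L _ _ ⟨x, hx, rfl⟩
    obtain ⟨z, hz⟩ := IsAlgClosed.exists_pow_nat_eq (aeval x G.F : L) two_pos
    exact ⟨G.pt L (x, z), ⟨_, ⟨hx, hz⟩, rfl⟩, hπ L (x, z) ⟨hx, hz⟩⟩
  obtain ⟨ψ, hψ⟩ := Fn.exists_sum Finset.univ fun b : Bool =>
    if b then φ.pull (s.prod G.XX) (sp.prod G.XX) else φ
  simp only [Fintype.sum_bool, if_true, Bool.false_eq_true, if_false] at hψ
  have e1 : ∀ (L : Fld K) (y : xz.X L) (E : (Sub K G.σ).pt L), G.Cn L y → G.XX.mem E →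
      ψ.v L (G.pt L y, E) = φ.v L (G.pt L (ngz L y), E) + φ.v L (G.pt L y, E) := fun L y E h h' => by
    rw [← hs L y h]
    exact (hψ L _).trans (congrArg (· + _) (Fn.pull_of_mem _ _ _ (by exact ⟨⟨y, h, rfl⟩, h'⟩)))
  refine eq_neg_of_add_eq_zero_left ((e1 L y E hy hE).symm.trans ?_)
  refine CKL.van_descent πp πs (van_lines G.XX) ψ (fun L L₁ L₂ ι₁ ι₂ y z hj => ?_) ?_ L _
  · exact (hψ L _).trans ((congrArg₂ (· + ·) (hk.pull s sp L L₁ L₂ ι₁ ι₂ y z hj)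
      (hk L L₁ L₂ ι₁ ι₂ y z hj)).trans (add_zero 0))
  · rintro L _ _ z ⟨y, h, rfl⟩ ⟨y', h', rfl⟩ hz e
    rw [hπ L y h, hπ L y' h'] at e
    rcases fib h h' e with e' | e'
    · rw [e']
    · rw [e', e1 L y z h hz, e1 L _ z (cn_ngz h) hz, add_comm]
      exact congrArg (fun u => φ.v L (G.pt L u, z) + _) (Prod.ext rfl (neg_neg _).symm)

end YQ

theorem YQ_thm [YA K] : YQ K := ⟨fun G j φ hk L y E hy => by
  refine ⟨YQ.left G φ hk L y E hy, ?_⟩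
  by_cases hE : G.XX.mem E
  swap
  · rw [not_not.1 fun e => hE (φ.supp L (E, G.pt L (ngz L y)) e).2.1,
      not_not.1 fun e => hE (φ.supp L (E, G.pt L y) e).2.1, neg_zero]
  let t : Mor G.X2 G.X2 := ⟨fun y => y.swap, fun _ h => ⟨h.2, h.1⟩, fun _ _ _ => rfl,
    fun _ _ _ _ _ => rfl⟩
  have tp : t.Proper := fun _ _ _ _ h => ⟨h.2, h.1⟩
  have h := YQ.left G (φ.pull t tp) (fun L L₁ L₂ ι₁ ι₂ y z hj => ?_) L y E hy
  · exact (Fn.pull_of_mem t tp φ (y := (_, E)) ⟨⟨_, YQ.cn_ngz hy, rfl⟩, hE⟩).symm.trans (h.trans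
      (congrArg Neg.neg (Fn.pull_of_mem t tp φ (y := (_, E)) ⟨⟨_, hy, rfl⟩, hE⟩)))
  · by_contra h'
    exact h' ((Fn.pull_of_mem t tp φ (Fn.supp _ _ _ h').2).trans
      (hk L L₂ L₁ ι₂ ι₁ z y (add_comm L₁.tr _ ▸ hj)))⟩

end Pool.Agent.Lib.MP_557161_ag.HG
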