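import Pool.Agent.Lib.MP_557161_ag.HG.StX

/-!
The diagonal is the unit.
-/

namespace Pool.Agent.Lib.MP_557161_ag.HG

open Pool.Agent.Lib.MP_557161_ag.DL Submodule

variable {K : Type} [Field K] {G : GD K} {L L' M N : Fld K} {c d : Cd} {S : ASp K c} {W : ASp K d}
  {j : ℕ} {g : ∀ L : Fld K, (xz.prod c).X L → d.X L}

lemma yu_low {P : Sp (G.A3.prod (d.amb K))} (θ : Pre (j + 1) P) (α : L →ₐ[K] L') (κ : L' →ₐ[K] N)
    (E : (Sub K G.σ).pt L) (π : (Sub K (G.σ × G.σ)).pt L') (w : d.X L) (h : L'.tr < (j + 1 : ℕ)) :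
    θ.v N ((((Sub K G.σ).map (κ.comp α) E, (Sub K G.σ).map (κ.comp α) E),
      (Sub K (G.σ × G.σ)).map κ π), some (d.map (κ.comp α) w)) = 0 := by
  have e : d.map (κ.comp α) w = d.map κ (d.map α w) := (d.map_map α κ w).symm
  rw [(Sub K G.σ).map_comp, e]
  exact θ.low κ ((((Sub K G.σ).map α E, (Sub K G.σ).map α E), π), some (d.map α w)) h

variable [YA K]

lemma yu_near {O : Pl M} {A y v : xz.X M} {a ρ : M} (hA : G.Cn M A) (iA : IntV O A.1)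
    (rA : rdV O A.1 ≠ 0) (iv : xz.all (· ∈ O.O) v) (hρ : ρ ∈ O.O) (r0 : O.rd ρ = 0) (a0 : a ≠ 0)
    (ρ0 : ρ ≠ 0) (e : G.scl a y = mv A ρ v) :
    IntV O (G.scl a y).1 ∧ xz.map O.rd (G.scl a y) = xz.map O.rd A ∧
      ∃ b, IntV O b ∧ rdV O b = G.tv (xz.map O.rd A) (xz.map O.rd v) ∧
        G.sv A (G.scl a y) = ρ • b ∧ span M {b} = span M {G.sv A y} := by
  obtain ⟨i2, -, -, i1, r1, -⟩ := YA.red hA iA rA
  obtain ⟨i3, r3, r, i4, e4⟩ := YA.taylor G O A v ρ ⟨iA, i2⟩ iv hρ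
  have k : ∀ s t, s ∈ O.O → t ∈ O.O → s + ρ * t ∈ O.O ∧ O.rd (s + ρ * t) = O.rd s :=
    fun s t hs ht => ⟨add_mem hs (mul_mem hρ ht), by
      rw [O.rd_add hs (mul_mem hρ ht), O.rd_mul hρ ht, r0, zero_mul, add_zero]⟩
  have p : ∀ s, (Rel.ofPl O).r (G.nu A s) (G.nu (xz.map O.rd A) s) :=
    fun s => ⟨i1 s, congrFun r1 s⟩
  have q : ∀ s, (Rel.ofPl O).r ((G.dnu A v + ρ • r) s) (G.dnu (xz.map O.rd A) (xz.map O.rd v) s) :=
    fun s => ⟨(k _ _ (i3 s) (i4 s)).1, (k _ _ (i3 s) (i4 s)).2.trans (congrFun r3 s)⟩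
  have z : ∀ s, (Rel.ofPl O).r (wdg (G.nu A) (G.dnu A v + ρ • r) s)
      (G.tv (xz.map O.rd A) (xz.map O.rd v) s) :=
    fun s => Rel.sub (Rel.mul _ (p _) (q _)) (Rel.mul _ (p _) (q _))
  have e5 : G.sv A (G.scl a y) = ρ • wdg (G.nu A) (G.dnu A v + ρ • r) := by
    rw [e, GD.sv, e4]
    exact funext fun s => by simp [wdg]; ring
  refine ⟨e ▸ fun i => (k _ _ (iA i) (iv.1 i)).1, e ▸ Prod.ext
    (funext fun i => (k _ _ (iA i) (iv.1 i)).2) (k _ _ i2 iv.2).2, _, fun s => (z s).1,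
    funext fun s => (z s).2, e5, ?_⟩
  rw [← span_singleton_smul_eq ρ0.isUnit, ← e5, GD.sv, G.nu_scl, ← one_smul M (G.nu A), wdg_smul,
    span_singleton_smul_eq (mul_ne_zero one_ne_zero (pow_ne_zero _ a0)).isUnit]
  rfl

lemma yu_red (hg : Mp (G.UU.prod S) W g) {O : Pl M} {ι : L →ₐ[K] O.res} {R : xz.X L} {u : c.X L}
    (hR : G.UU.mem L R) (hu : S.mem L u) {A y : xz.X M} {u' : c.X M} (hA : G.UU.mem M A)
    (hy : G.UU.mem M y) (hu' : S.mem M u') (eA : xz.lift (Rel.ofPl O).r A (xz.map ι R))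
    (eu : c.lift (Rel.ofPl O).r u' (c.map ι u))
    (e : (Sub K G.σ).red O (G.pt M A) = (Sub K G.σ).red O (G.pt M y)) :
    (Sub K G.σ).red O (G.pt M A) = (Sub K G.σ).map ι (G.pt L R) ∧
      (d.amb K).red O (some (g M (y, u'))) = some (d.map ι (g L (R, u))) := by
  have hR' := (G.UU.map_iff ι R).2 hR
  have h1 := (YA.uu_red hA hR').2 eA
  refine ⟨h1.trans (GD.map_pt ι R).symm, ?_⟩
  rw [← hg.reg.nat ι (x := (R, u)) ⟨hR, hu⟩]
  exact Cd.red_some (hg.reg (Rel.ofPl O) (x := (y, u')) (x' := (xz.map ι R, c.map ι u)) ⟨hy, hu'⟩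
    ⟨hR', (S.map_iff ι u).2 hu⟩ ⟨(YA.uu_red hy hR').1 (e.symm.trans h1), eu⟩)

variable [YB K]

lemma yu_bad (hg : Mp (G.UU.prod S) W g) (hp : Pro (G.UU.prod S) W g)
    (ψ : Fe (j + 1) (G.EE.prod W.sp)) {α : L →ₐ[K] M} (hL : L.tr ≤ j) {y : xz.X M} {R : xz.X L}
    {u : c.X L} (hy : G.UU.mem M y) (hR : G.UU.mem L R) (hu : S.mem L u) {O : Pl M} (hO : O.IsDVR)
    (ht : ¬ Pl.Triv α O) (π : (Sub K (G.σ × G.σ)).pt O.res) :
    ψ.v O.res ((((Sub K G.σ).red O (G.pt M (xz.map α R)), (Sub K G.σ).red O (G.pt M y)), π),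
      (d.amb K).red O (some (g M (y, c.map α u)))) = 0 := by
  by_contra ne
  obtain ⟨-, m1, z, m2, m3⟩ := ψ.supp _ _ ne
  have hA := (G.UU.map_iff α R).2 hR
  have hu' := (S.map_iff α u).2 hu
  have e : (Sub K G.σ).red O (G.pt M (xz.map α R)) = (Sub K G.σ).red O (G.pt M y) := m1.2
  obtain ⟨x, k1, k2⟩ := hp M O (y, c.map α u) z hO ⟨hy, hu'⟩ m3 (Cd.lift_of_red m2)
  have ov := Pl.over_comap α O
  have k3 := (YA.uu_red hA k1.1).1 (e.trans ((YA.uu_red hy k1.1).2 k2.1))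
  have l1 := Cd.lift_over ov ((Cd.lift_pl _).2
    ⟨(Cd.all_over ov).1 ((Cd.lift_pl O).1 k3).1, rfl⟩)
  have l2 := Cd.lift_over ov ((Cd.lift_pl _).2
    ⟨(Cd.all_over ov).1 ((Cd.lift_pl O).1 k2.2).1, rfl⟩)
  obtain ⟨r1, r2⟩ := yu_red hg ((G.UU.map_iff ov.resHom _).1 (Cd.lift_eq k3 l1 rfl ▸ k1.1))
    ((S.map_iff ov.resHom _).1 (Cd.lift_eq k2.2 l2 rfl ▸ k1.2)) hA hy hu' l1 l2 e
  rw [← e, r1] at m1
  obtain ⟨L', α', κ, π', e1, e2, e3⟩ := YB.dm ov.resHom m1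
  have t := Pl.tr_res_lt (Pl.comap α O) (fun e => ht fun a =>
    (ov a).1 (e ▸ ValuationSubring.mem_top a)) hL
  refine ne ?_
  rw [← e, r1, r2, ← e1, ← e3]
  refine yu_low ψ.toPre α' κ _ _ _ (e2.trans_lt ?_)
  obtain ⟨m, hm⟩ := Cardinal.lt_aleph0.1 (t.trans Cardinal.natCast_lt_aleph0)
  rw [hm] at t ⊢
  exact_mod_cast Nat.succ_lt_succ (Nat.cast_lt.1 t)

theorem YU_thm {K : Type} [Field K] [Base K] [FW0 K] [YA K] [YB K] [YF K] [YP K] : YU K :=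
  ⟨fun {G c d S W j φ Ψ} ⟨ψ, Ξ, h1, h2, h3⟩ g hg hp L M α y hy R u hR hu => by
    obtain ⟨O, h, v₀, v₁, T, a, ρ, v, f, t1, t2, a0, o1, iv, e1, e2, un⟩ := YP.pt hy R (YA.uu hR)
    have hA := (G.UU.map_iff α R).2 hR
    have hu' := (S.map_iff α u).2 hu
    have cA := YA.uu hA
    have cy := YA.uu hy.mem
    have tA : ∀ {O : Pl M} (h : Pl.Triv α O), IntV O (xz.map α R).1 ∧ rdV O (xz.map α R).1 ≠ 0 ∧
        xz.map O.rd (xz.map α R) = xz.map h.hom R := fun {O} h => by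
      obtain ⟨k1, k2⟩ := (Cd.lift_pl O).1 (Cd.lift_triv (c := xz) h R)
      exact ⟨k1.1, fun e => ((GD.cn_map h.hom).2 (YA.uu hR)).1 ((congrArg Prod.fst k2).symm.trans e),
        k2⟩
    have ρ0 : ρ ≠ 0 := fun e => by
      rw [e, Pl.ord_zero _ O.2.1] at o1
      exact zero_ne_one o1
    obtain ⟨ρ1, ρ2⟩ := (Pl.ord_pos_iff O.2.1 ρ0).1 (o1 ▸ one_pos)
    obtain ⟨i1, i2, i3⟩ := tA h
    obtain ⟨k1, k2, b, k3, k4, k5, k6⟩ := yu_near cA i1 i2 iv ρ1 ρ2 a0 ρ0 e1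
    rw [i3, e2] at k4
    have b1 : rdV O.1 b ≠ 0 := k4 ▸ (YB.fp_mem h.hom T f).1
    have b0 : b ≠ 0 := fun e => b1 (e ▸ rdV_zero _)
    have ne : G.pt M (xz.map α R) ≠ G.pt M y := fun e => smul_ne_zero ρ0 b0 (k5 ▸
      (YA.sv_eq cA (cy.scl a0)).2 (e.trans (GD.pt_scl y a0).symm))
    have m := (YB.off cA cy ne _).2 k6
    have s := (h2 M _ _ b (g M (y, c.map α u)) ρ hy.gM cA (cy.scl a0) b0 ((GD.pt_scl y a0).symm ▸ m)
      (hg.mem _ _ ⟨hy.mem, hu'⟩) ρ0 fun _ => k5).2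
    rw [GD.pt_scl y a0] at s
    refine (h3 M (_, _) _ m).trans (s.symm.trans ((finsum_eq_single _ O fun O' e => ?_).trans ?_))
    · refine mul_eq_zero_of_right _ ?_
      by_cases h' : Pl.Triv α O'.1
      · by_contra n
        have e3 : (Sub K G.σ).red O'.1 (G.pt M (xz.map α R)) = (Sub K G.σ).red O'.1 (G.pt M y) :=
          (ψ.supp _ _ n).2.1.2
        obtain ⟨j1, j2, j3⟩ := tA h'
        obtain ⟨a', ρ', v', l1, l2, l3, l4, l5, l6, -, l7⟩ := YA.near cy cA j1 j2 ne.symm e3.symm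
        obtain ⟨-, -, b', n1, n2, -, n3⟩ := yu_near cA j1 j2 l5 l3 l4 l1 l2 l6
        rw [j3] at l7 n2
        obtain ⟨L', α', κ, π, p1, p2, p3⟩ := un O'.1 h' a' ρ' v' O'.2.1
          (fun e' => e (Subtype.ext e')) l1 l3 l4 l5 l6 l7
        obtain ⟨r1, r2⟩ := yu_red hg hR hu hA hy.mem hu' (Cd.lift_triv h' R) (Cd.lift_triv h' u) e3
        have r3 : (Sub K (G.σ × G.σ)).red O'.1 (span M {b}) = (Sub K (G.σ × G.σ)).map κ π := by
          rw [k6, ← n3, p3, ← n2]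
          exact sred_single n1 (n2 ▸ l7)
        refine n (Eq.trans (congrArg (ψ.v _) ?_) (yu_low ψ.toPre α' κ (G.pt L R) π (g L (R, u))
          (p2.trans_lt (by exact_mod_cast j.lt_succ_self))))
        rw [p1]
        exact Prod.ext (Prod.ext (Prod.ext r1 (e3.symm.trans r1)) r3) r2
      · exact yu_bad hg hp ψ hy.gL.2.le hy.mem hR hu O'.2.1 h' _
    · obtain ⟨-, -, q1, -, -, q2⟩ := YA.red cA i1 i2
      obtain ⟨-, -, q3, -, -, q4⟩ := YA.red (cy.scl a0) k1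
        fun e => i2 ((congrArg Prod.fst k2).symm.trans e)
      rw [k2, ← q1, GD.pt_scl y a0] at q3
      obtain ⟨-, r2⟩ := yu_red hg hR hu hA hy.mem hu' (Cd.lift_triv h R) (Cd.lift_triv h u) q3.symm
      rw [o1, q2 O.2.1, q4 O.2.1, FB3.ordv_prim O.2.1 k3 b1,
        ← YF.fib h1 hy.gL t1 t2 f (hg.mem L (R, u) ⟨hR, hu⟩)]
      rw [i3] at q1
      rw [sub_zero, sub_zero, add_zero, Int.cast_one, one_mul]
      exact congrArg (ψ.v _) (Prod.ext (Prod.ext (Prod.ext q1 (q3.trans q1))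
        ((sred_single k3 b1).trans (congrArg (fun x => span _ {x}) k4))) r2)⟩

end Pool.Agent.Lib.MP_557161_ag.HG
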