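import Pool.Agent.Lib.MP_557161_ag.HG.StX
import Pool.Agent.Lib.MP_557161_ag.HG.FC1

/-!
Antisymmetric functionals live on the part of the double plane over the torus.
-/

namespace Pool.Agent.Lib.MP_557161_ag.HG

open Pool.Agent.Lib.MP_557161_ag.DL MvPolynomial

variable {K : Type} [Field K]

namespace YWa

variable {G : GD K} {B : Amb K} {Q : Sp B} {j : ℕ} {L M : Fld K}

lemma scl_zero (y : xz.X L) {a : L} (ha : a ≠ 0) :
    (fun i => (G.scl a y).1 i = 0) = fun i => y.1 i = 0 :=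
  funext fun _ => propext ⟨fun h => (mul_eq_zero.1 h).resolve_left ha,
    fun h => mul_eq_zero_of_right a h⟩

/-- The points with a condition on the set of vanishing coordinates. -/
def XP (G : GD K) (q : (Fin 3 → Prop) → Prop) : Sp (Sub K G.σ) where
  mem {L} E := ∃ y, G.Cn L y ∧ q (fun i => y.1 i = 0) ∧ E = G.pt L y
  map_iff κ _ := by
    have k : ∀ y : xz.X _, (fun i => (xz.map κ y).1 i = 0) = fun i => y.1 i = 0 := fun y =>
      funext fun _ => propext (map_eq_zero κ)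
    exact ⟨fun ⟨y, h, hq, e⟩ => let ⟨y₀, _, a0, h1, h2, h3⟩ := GD.pt_desc κ h e
        ⟨y₀, h1, by rwa [← k, h3, scl_zero y a0], h2⟩,
      fun ⟨y, h, hq, e⟩ => ⟨_, (GD.cn_map κ).2 h, by rwa [k], e ▸ GD.map_pt κ y⟩⟩

/-- The action of the multiplicative group on a boundary curve. -/
def tw (i : Fin 3) {L : Type} [CommRing L] (t : L) (y : xz.X L) : xz.X L :=
  (fun k => (if k = i + 2 then t ^ 2 else 1) * y.1 k, t * y.2)

lemma tw_rel (i : Fin 3) {R : Rel M L} {t : M} {t' : L} {y : xz.X M} {y' : xz.X L}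
    (h : R.r t t') (e : xz.lift R.r y y') : xz.lift R.r (tw i t y) (tw i t' y') :=
  ⟨fun k => R.mul (Rel.ite _ (Rel.pow h 2) R.one) (e.1 k), R.mul h e.2⟩

lemma tw_scl (i : Fin 3) (t a : L) (y : xz.X L) : tw i t (G.scl a y) = G.scl a (tw i t y) :=
  Prod.ext (funext fun _ => mul_left_comm _ _ _) (mul_left_comm _ _ _)

lemma tw_inv (i : Fin 3) {t : L} (ht : t ≠ 0) (y : xz.X L) : tw i t⁻¹ (tw i t y) = y := by
  refine Prod.ext (funext fun k => ?_) (inv_mul_cancel_left₀ ht _)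
  simp only [tw]
  split_ifs
  · rw [inv_pow, inv_mul_cancel_left₀ (pow_ne_zero 2 ht)]
  · rw [one_mul, one_mul]

lemma tw_cn [XA K] {i : Fin 3} {t : L} (ht : t ≠ 0) {y : xz.X L} (h : G.Cn L y) (h0 : y.1 i = 0) :
    G.Cn L (tw i t y) ∧ (tw i t y).1 i = 0 := by
  have h1 : (tw i t y).1 i = 0 := mul_eq_zero_of_right _ h0
  refine ⟨⟨fun e => h.1 (funext fun k => (mul_eq_zero.1 (congrFun e k)).resolve_left ?_), ?_⟩, h1⟩
  · split_ifs
    exacts [pow_ne_zero 2 ht, one_ne_zero]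
  · rw [XA.bd G L _ i h1]
    simp only [tw, if_neg ((by decide : ∀ i : Fin 3, i + 1 ≠ i + 2) i), if_true]
    rw [mul_pow, h.2, XA.bd G L _ i h0]
    ring

variable [YA K]

open Classical in
/-- The action on points of projective space. -/
noncomputable def tE (G : GD K) (i : Fin 3) {L : Fld K} (t : L) (E : (Sub K G.σ).pt L) :
    (Sub K G.σ).pt L := if h : G.XX.mem E then G.pt L (tw i t h.choose) else E

lemma tE_pt (i : Fin 3) (t : L) {y : xz.X L} (h : G.Cn L y) :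
    tE G i t (G.pt L y) = G.pt L (tw i t y) := by
  have m : G.XX.mem (G.pt L y) := ⟨y, h, rfl⟩
  obtain ⟨a, a0, e⟩ := YA.pt_eq h m.choose_spec.1 m.choose_spec.2
  rw [tE, dif_pos m, e, tw_scl, GD.pt_scl _ a0]

lemma red_pt {O : Pl M} {y : xz.X M} {y' : xz.X O.res} (h : G.Cn M y) (h0 : y'.1 ≠ 0)
    (e : xz.lift (Rel.ofPl O).r y y') : (Sub K G.σ).red O (G.pt M y) = G.pt O.res y' := by
  obtain ⟨h1, rfl⟩ := (Cd.lift_pl O).1 e
  exact (YA.red h h1.1 h0).2.2.1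

lemma prim (O : Pl M) {y : xz.X M} (h : G.Cn M y) : ∃ (a : M) (y' : xz.X O.res), a ≠ 0 ∧
    G.Cn O.res y' ∧ xz.lift (Rel.ofPl O).r (G.scl a y) y' := by
  obtain ⟨a, a0, h1, h2⟩ := YA.prim O h
  obtain ⟨h3, h4, -⟩ := YA.red (h.scl a0) h1 h2
  exact ⟨a, _, a0, h4, (Cd.lift_pl O).2 ⟨⟨h1, h3⟩, rfl⟩⟩

variable [XA K]

/-- The family of automorphisms of a boundary curve. -/
noncomputable def fam (G : GD K) (i : Fin 3) (Q : Sp B) {τ : ∀ L : Fld K, L → L}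
    (hτ : Mp (.gm K) (.gm K) τ) :
    Mor ((ASp.gm K).sp.prod ((XP G fun z => z i).prod Q)) ((XP G fun z => z i).prod Q) where
  f {L} y := (y.1.elim y.2.1 fun t => tE G i (τ L t) y.2.1, y.2.2)
  mem := by
    rintro L ⟨_, _, q⟩ ⟨⟨t, rfl, ht⟩, ⟨y, h, h0, rfl⟩, hq⟩
    have := tw_cn (hτ.mem L t ht) h h0
    exact ⟨⟨_, this.1, this.2, tE_pt i _ h⟩, hq⟩
  nat := by
    rintro L L' ι ⟨_, _, q⟩ ⟨⟨t, rfl, ht⟩, ⟨y, h, h0, rfl⟩, hq⟩
    refine Prod.ext ?_ rfl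
    show tE G i (τ L' (ι t)) ((Sub K G.σ).map ι (G.pt L y)) =
      (Sub K G.σ).map ι (tE G i (τ L t) (G.pt L y))
    rw [GD.map_pt, tE_pt i _ h, tE_pt i _ ((GD.cn_map ι).2 h), GD.map_pt]
    exact congrArg _ ((Cd.lift_hom ι).1 (tw_rel i (R := Rel.ofHom ι) (hτ.reg.nat ι ht).symm
      ((Cd.lift_hom ι).2 rfl))).symm
  cont := by
    rintro M O ⟨_, _, q⟩ - ⟨⟨t, rfl, ht⟩, ⟨y, h, h0, rfl⟩, hq⟩ ⟨⟨t', e, ht'⟩, -⟩
    refine Prod.ext ?_ rfl
    obtain ⟨a, y', a0, h1, h2⟩ := prim O h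
    show ((Cd.one.amb K).red O (some t)).elim _ (fun t => tE G i (τ _ t)
      ((Sub K G.σ).red O (G.pt M y))) = (Sub K G.σ).red O (tE G i (τ M t) (G.pt M y))
    have e' : (Cd.one.amb K).red O (some t) = some t' := e
    have h3 : (G.scl a y).1 i = 0 := mul_eq_zero_of_right a h0
    rw [e', Option.elim_some, ← GD.pt_scl y a0, red_pt (h.scl a0) h1.1 h2, tE_pt i _ h1,
      tE_pt i _ (h.scl a0)]
    exact (red_pt (tw_cn (hτ.mem M t ht) (h.scl a0) h3).1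
      (tw_cn (hτ.mem _ t' ht') h1 (Rel.eq_zero (h2.1 i) h3)).1.1
      (tw_rel i (hτ.reg _ ht ht' (Cd.lift_of_red (c := .one) e')) h2)).symm

variable [FW0 K]

/-- An antisymmetric functional vanishes on the boundary. -/
theorem bd_zero (Θ : Fe j (G.XX.prod Q)) (hΘ : ∀ (L : Fld K) (y : xz.X L) (q : B.pt L), G.Cn L y →
      Θ.v L (G.pt L (ngz L y), q) = -Θ.v L (G.pt L y, q)) {y : xz.X L} (h : G.Cn L y) {i : Fin 3}
    (h0 : y.1 i = 0) (q : B.pt L) : Θ.v L (G.pt L y, q) = 0 := by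
  by_contra hv
  have hq : Q.mem q := (Θ.supp _ _ hv).2.2
  let ι : Mor (XP G fun z => z i) G.XX := Mor.incl fun _ _ ⟨y, a, _, b⟩ => ⟨y, a, b⟩
  have hp : ι.Proper := by
    rintro M O _ - ⟨y, h, h0, rfl⟩ -
    obtain ⟨a, y', a0, h1, h2⟩ := prim O h
    exact ⟨y', h1, Rel.eq_zero (h2.1 i) (mul_eq_zero_of_right a h0),
      by rw [← GD.pt_scl y a0, red_pt (h.scl a0) h1.1 h2]⟩
  have m1 : Mp (.gm K) (.gm K) fun _ t => t := ⟨Reg.id _, fun _ _ h => h⟩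
  have m2 : Mp (.gm K) (.gm K) fun _ t => t⁻¹ :=
    ⟨fun _ _ R _ _ _ m e => R.inv e m, fun _ _ h => inv_ne_zero h⟩
  have := FB5.conn (.gm K) (fam G i Q m1) (fam G i Q m2) (by
      rintro L t ⟨_, q⟩ ht ⟨⟨y, h, h0, rfl⟩, -⟩
      refine Prod.ext ?_ rfl
      show tE G i t⁻¹ (tE G i t (G.pt L y)) = G.pt L y
      rw [tE_pt i _ h, tE_pt i _ (tw_cn ht h h0).1, tw_inv i ht])
    (fun L T hT e => hT (e ▸ isAlgebraic_zero)) 1 (-1) one_ne_zero (neg_ne_zero.2 one_ne_zero)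
    (Θ.pull (ι.prod Q) (hp.prod Q)) L (G.pt L y, q) ⟨⟨y, h, h0, rfl⟩, hq⟩
  rw [Fe.pull_of_mem _ _ _ ((fam G i Q m1).mem _ ⟨(ASp.gm K).sp_some.2 (by simp [ASp.gm]),
    ⟨y, h, h0, rfl⟩, hq⟩), Fe.pull_of_mem _ _ _ ((fam G i Q m1).mem _
      ⟨(ASp.gm K).sp_some.2 (by simp [ASp.gm]), ⟨y, h, h0, rfl⟩, hq⟩)] at this
  change Θ.v L (tE G i (algebraMap K L 1) (G.pt L y), q) =
    Θ.v L (tE G i (algebraMap K L (-1)) (G.pt L y), q) at this
  have e1 : tw i (algebraMap K L 1) y = y := by simp [tw]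
  have e2 : tw i (algebraMap K L (-1)) y = ngz L y := by simp [tw, ngz]
  rw [tE_pt i _ h, tE_pt i _ h, e1, e2, hΘ L y q h] at this
  exact hv (self_eq_neg.1 this)

/-- Antisymmetrisation in the first factor. -/
theorem slot (Ψ : Fe j (G.XX.prod Q)) : ∃ Φ : Fe j (G.UU.sp.prod Q),
    ∀ (L : Fld K) (A : xz.X L) (q : B.pt L), G.UU.mem L A → Q.mem q →
      Φ.v L (some A, q) = ∑ ε : Bool, sn ε * Ψ.v L (G.pt L (sg ε L A), q) := by
  obtain ⟨s, hs⟩ := YA.sig (K := K) G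
  have hp : s.Proper := fun O _ _ h _ => YA.cmp O h
  obtain ⟨Θ, hΘ⟩ := Fe.exists_sum Finset.univ fun ε : Bool =>
    FC1A.smul (sn ε) (bif ε then Ψ.pull (s.prod Q) (hp.prod Q) else Ψ)
  have hv : ∀ (L : Fld K) (y : xz.X L) (q : B.pt L), G.Cn L y → Q.mem q →
      Θ.v L (G.pt L y, q) = ∑ ε : Bool, sn ε * Ψ.v L (G.pt L (sg ε L y), q) := fun L y q h hq => by
    rw [hΘ, Fintype.sum_bool, Fintype.sum_bool]
    show sn true * (Ψ.pull (s.prod Q) (hp.prod Q)).v L _ + _ = _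
    rw [Fe.pull_of_mem _ _ _ (show (G.XX.prod Q).mem (G.pt L y, q) from ⟨⟨y, h, rfl⟩, hq⟩)]
    show sn true * Ψ.v L (s.f (G.pt L y), q) + _ = _
    rw [hs L y h]
    rfl
  have ha : ∀ (L : Fld K) (y : xz.X L) (q : B.pt L), G.Cn L y →
      Θ.v L (G.pt L (ngz L y), q) = -Θ.v L (G.pt L y, q) := fun L y q h => by
    by_cases hq : Q.mem q
    · rw [hv L y q h hq, hv L (ngz L y) q ⟨h.1, (neg_sq _).trans h.2⟩ hq]
      simp [sn, sg, ngz]
    · rw [not_not.1 fun e => hq (Θ.supp _ _ e).2.2, not_not.1 fun e => hq (Θ.supp _ _ e).2.2,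
        neg_zero]
  let Θ' : Fe j ((XP G fun z => ∀ i, ¬ z i).prod Q) :=
    ⟨⟨Θ.v, fun L y h => by
      obtain ⟨h1, ⟨z, h2, h3⟩, h4⟩ := Θ.supp L y h
      exact ⟨h1, ⟨z, h2, fun i h0 => h (by
        rw [show y = (G.pt L z, y.2) from Prod.ext h3 rfl, bd_zero Θ ha h2 h0]), h3⟩, h4⟩,
      Θ.ext, Θ.low⟩, fun M y f hM ⟨⟨z, a, _, b⟩, c⟩ => Θ.rat M y f hM ⟨⟨z, a, b⟩, c⟩⟩
  let π : Mor G.UU.sp (XP G fun z => ∀ i, ¬ z i) :=
    { f := fun {L} y => y.elim (G.pt L (0, 0)) (G.pt L)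
      mem := by
        rintro L _ ⟨A, rfl, hA⟩
        exact ⟨A, YA.uu hA, hA.1.2, rfl⟩
      nat := by
        rintro L L' ι _ ⟨A, rfl, hA⟩
        exact (GD.map_pt ι A).symm
      cont := by
        rintro M O _ - ⟨A, rfl, hA⟩ ⟨A', e, hA'⟩
        rw [e]
        exact ((YA.uu_red hA hA').2 (Cd.lift_of_red e)).symm }
  have hπ : π.Proper := by
    rintro M O _ - ⟨A, rfl, hA⟩ ⟨z, h1, h2, e⟩
    have z0 := inv_ne_zero (h2 0)
    have m : G.UU.mem _ (G.scl (z.1 0)⁻¹ z) :=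
      ⟨⟨trivial, fun i => mul_ne_zero z0 (h2 i)⟩, inv_mul_cancel₀ (h2 0), (h1.scl z0).2⟩
    exact ⟨_, Cd.red_some ((YA.uu_red hA m).1 (e.trans (GD.pt_scl z z0).symm)), m⟩
  refine ⟨Θ'.pull (π.prod Q) (hπ.prod Q), fun L A q hA hq => ?_⟩
  rw [Fe.pull_of_mem _ _ _ (show (G.UU.sp.prod Q).mem (some A, q) from ⟨⟨A, rfl, hA⟩, hq⟩)]
  exact hv L A q (YA.uu hA) hq

end YWa

open YWa in
theorem YW_thm [FW0 K] [XA K] [YA K] : YW K where
  aff G d W j c Ψ := by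
    obtain ⟨Φ₁, h₁⟩ := slot (Ψ.pull (Y' := G.XX.prod (G.XX.prod W.sp))
      (show Mor _ (G.X2.prod W.sp) from ⟨fun y => ((y.1, y.2.1), y.2.2),
        fun _ h => ⟨⟨h.1, h.2.1⟩, h.2.2⟩, fun _ _ _ => rfl,
        fun _ _ _ _ _ => rfl⟩) fun _ _ _ _ h => ⟨h.1.1, h.1.2, h.2⟩)
    obtain ⟨Φ₂, h₂⟩ := slot (Φ₁.pull (Y' := G.XX.prod (G.UU.sp.prod W.sp))
      (show Mor _ (G.UU.sp.prod (G.XX.prod W.sp)) from ⟨fun y => (y.2.1, y.1, y.2.2),
        fun _ h => ⟨h.2.1, h.1, h.2.2⟩, fun _ _ _ => rfl,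
        fun _ _ _ _ _ => rfl⟩) fun _ _ _ _ h => ⟨h.2.1, h.1, h.2.2⟩)
    let π : Mor ((G.UU.prod G.UU).prod W).sp (G.UU.sp.prod (G.UU.sp.prod W.sp)) :=
      { f := fun y => (y.map (·.1.2), y.map (·.1.1), y.map (·.2))
        mem := by
          rintro L _ ⟨x, rfl, h⟩
          exact ⟨⟨_, rfl, h.1.2⟩, ⟨_, rfl, h.1.1⟩, ⟨_, rfl, h.2⟩⟩
        nat := by
          rintro L L' ι _ ⟨x, rfl, h⟩
          rfl
        cont := by
          rintro M O _ - ⟨x, rfl, h⟩ ⟨x', e, h'⟩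
          have r := Cd.lift_of_red e
          rw [e]
          exact (Prod.ext (Cd.red_some r.1.2) (Prod.ext (Cd.red_some r.1.1)
            (Cd.red_some r.2))).symm }
    have hπ : π.Proper := by
      rintro M O _ - ⟨x, rfl, h⟩ ⟨⟨B, e1, h1⟩, ⟨A, e2, h2⟩, w, e3, h3⟩
      exact ⟨((A, B), w), Cd.red_some (c := (xz.prod xz).prod d)
        ⟨⟨Cd.lift_of_red e2, Cd.lift_of_red e1⟩, Cd.lift_of_red e3⟩, ⟨h2, h1⟩, h3⟩
    refine ⟨FC1A.smul c (Φ₂.pull π hπ), fun L A B w hA hB => congrArg (c * ·) ?_⟩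
    by_cases hw : W.mem L w
    · have cn : ∀ ε {y : xz.X L}, G.UU.mem L y → G.XX.mem (G.pt L (sg ε L y)) := fun ε y h => by
        cases ε
        exacts [⟨_, YA.uu h, rfl⟩, ⟨ngz L y, ⟨(YA.uu h).1, (neg_sq _).trans (YA.uu h).2⟩, rfl⟩]
      have mw := W.sp_some.2 hw
      have mA := G.UU.sp_some.2 hA
      rw [Fe.pull_of_mem π hπ Φ₂ (((G.UU.prod G.UU).prod W).sp_some.2
        (show ((G.UU.prod G.UU).prod W).mem L ((A, B), w) from ⟨⟨hA, hB⟩, hw⟩)), Finset.sum_comm]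
      refine (h₂ L B (some A, some w) hB ⟨mA, mw⟩).trans (Finset.sum_congr rfl fun ε' _ => ?_)
      rw [Fe.pull_of_mem _ _ _ (show (G.XX.prod (G.UU.sp.prod W.sp)).mem
        (G.pt L (sg ε' L B), some A, some w) from ⟨cn ε' hB, mA, mw⟩)]
      refine (congrArg (sn ε' * ·) (h₁ L A (G.pt L (sg ε' L B), some w) hA
        ⟨cn ε' hB, mw⟩)).trans ?_
      rw [Finset.mul_sum]
      refine Finset.sum_congr rfl fun ε _ => ?_
      rw [Fe.pull_of_mem _ _ _ (show (G.XX.prod (G.XX.prod W.sp)).mem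
        (G.pt L (sg ε L A), G.pt L (sg ε' L B), some w) from ⟨cn ε hA, cn ε' hB, mw⟩),
        ← mul_assoc, mul_comm (sn ε')]
    · rw [not_not.1 fun e => hw ((ASp.sp_some _).1 ((Φ₂.pull π hπ).supp _ _ e).2).2]
      exact (Finset.sum_eq_zero fun ε _ => Finset.sum_eq_zero fun ε' _ => by
        rw [not_not.1 fun e => hw (W.sp_some.1 (Ψ.supp _ _ e).2.2), mul_zero]).symm

end Pool.Agent.Lib.MP_557161_ag.HG
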