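import Pool.Agent.Lib.MP_557161_ag.HG.All0
import Pool.Agent.Lib.MP_557161_ag.HG.XA
import Pool.Agent.Lib.MP_557161_ag.HG.XG
import Pool.Agent.Lib.MP_557161_ag.HG.XH
import Pool.Agent.Lib.MP_557161_ag.HG.XI
import Pool.Agent.Lib.MP_557161_ag.HG.XJ
import Pool.Agent.Lib.MP_557161_ag.HG.XQ
import Pool.Agent.Lib.MP_557161_ag.HG.XV
import Pool.Agent.Lib.MP_557161_ag.HG.XW
import Pool.Agent.Lib.MP_557161_ag.HG.YA
import Pool.Agent.Lib.MP_557161_ag.HG.YB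
import Pool.Agent.Lib.MP_557161_ag.HG.YD
import Pool.Agent.Lib.MP_557161_ag.HG.YF
import Pool.Agent.Lib.MP_557161_ag.HG.YG
import Pool.Agent.Lib.MP_557161_ag.HG.YH
import Pool.Agent.Lib.MP_557161_ag.HG.YK
import Pool.Agent.Lib.MP_557161_ag.HG.YL
import Pool.Agent.Lib.MP_557161_ag.HG.YN
import Pool.Agent.Lib.MP_557161_ag.HG.YP
import Pool.Agent.Lib.MP_557161_ag.HG.YQ
import Pool.Agent.Lib.MP_557161_ag.HG.YU
import Pool.Agent.Lib.MP_557161_ag.HG.YV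
import Pool.Agent.Lib.MP_557161_ag.HG.YW

/-!
The geometry of the double plane, assembled.
-/

namespace Pool.Agent.Lib.MP_557161_ag.HG

open Pool.Agent.Lib.MP_557161_ag.DL

variable {K : Type} [Field K] [Base K]

theorem geo0 : XA K ∧ XG K ∧ YA K ∧ YB K ∧ YD K ∧ YF K ∧ YP K ∧ YG K ∧ YH K ∧ YN K ∧ YK K ∧
    YU K ∧ YW K ∧ YQ K :=
  have _ : FW0 K := FW0_thm
  have xa : XA K := XA_thm
  have xg : XG K := XG_thm
  have _ : XH K := XH_thm
  have ya : YA K := YA_thm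
  have yb : YB K := YB_thm
  have _ : YV K := YV_thm
  have yf : YF K := YF_thm
  have yp : YP K := YP_thm
  ⟨xa, xg, ya, yb, YD_thm, yf, yp, YG_thm, YH_thm, YN_thm, YK_thm, YU_thm, YW_thm, YQ_thm⟩

theorem geoP {p : ℕ} [Fact p.Prime] [CharP K p] :
    XI K p ∧ XV K p ∧ XW K p ∧ XQ K p ∧ YL K p := by
  have : FW0 K := FW0_thm
  obtain ⟨_, _, _, _, -, _, _, -, -, -, -, -, _, _⟩ := geo0 (K := K)
  have : XJ := XJ_thm
  have xi : XI K p := XI_thm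
  have xv : XV K p := XV_thm
  exact ⟨xi, xv, XW_thm, XQ_thm, YL_thm⟩

end Pool.Agent.Lib.MP_557161_ag.HG
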