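import Pool.Agent.Lib.MP_557161_ag.HG.StY

/-!
The charts of the double plane are smooth.
-/

namespace Pool.Agent.Lib.MP_557161_ag.HG

open Pool.Agent.Lib.MP_557161_ag.DL MvPolynomial

namespace XKp

variable {k : Type} [Field k]

theorem aeval_mul_homog {σ B : Type} [CommRing B] [Algebra k B] {f : MvPolynomial σ k} {n : ℕ}
    (hf : f.IsHomogeneous n) (c : B) (x : σ → B) :
    aeval (fun s => c * x s) f = c ^ n * aeval x f := by
  rw [aeval_def, aeval_def, eval₂_eq, eval₂_eq, Finset.mul_sum]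
  refine Finset.sum_congr rfl fun d hd => ?_
  simp only [mul_pow, Finset.prod_mul_distrib, Finset.prod_pow_eq_pow_sum]
  rw [← hf.degree_eq_sum_deg_support hd]
  ring

/-- The equation of the double plane. -/
noncomputable def eqn (F : MvPolynomial (Fin 3) k) : MvPolynomial (Option (Fin 3)) k :=
  X none ^ 2 - rename some F

theorem mem_dpI {e : ℕ} {F : MvPolynomial (Fin 3) k} {f : MvPolynomial (Option (Fin e → Fin 3)) k} :
    f ∈ dpI e F ↔ eqn F ∣ aeval (nuP k e) f := by
  rw [dpI, Ideal.mem_comap, Ideal.mem_span_singleton]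
  rfl

theorem kill {e : ℕ} {F : MvPolynomial (Fin 3) k} (hI : Homog (dpI e F)) {B : Type} [CommRing B]
    [Algebra k B] {x : Option (Fin 3) → B} (hx : aeval x (eqn F) = 0) (c : B)
    {f : MvPolynomial (Option (Fin e → Fin 3)) k} (hf : f ∈ dpI e F) :
    aeval (fun t => c * aeval x (nuP k e t)) f = 0 := by
  rw [← sum_homogeneousComponent f, map_sum]
  refine Finset.sum_eq_zero fun n _ => ?_
  rw [aeval_mul_homog (homogeneousComponent_isHomogeneous n f)]
  obtain ⟨g, hg⟩ := mem_dpI.1 (hI f hf n)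
  have h : aeval (fun t => aeval x (nuP k e t)) (homogeneousComponent n f) =
      aeval x (aeval (nuP k e) (homogeneousComponent n f)) := by
    rw [← AlgHom.comp_apply, comp_aeval]
  rw [h, hg, map_mul, hx, zero_mul, mul_zero]

theorem taylor {σ B : Type} [Fintype σ] [DecidableEq σ] [CommRing B] [Algebra k B] (x a : σ → B)
    {δ : B} (hδ : δ * δ = 0) (p : MvPolynomial σ k) :
    aeval (fun j => x j + δ * a j) p = aeval x p + δ * ∑ j, a j * aeval x (pderiv j p) := by
  induction p using MvPolynomial.induction_on with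
  | C r => simp
  | add p q hp hq =>
    simp only [map_add, hp, hq, mul_add, Finset.sum_add_distrib]
    ring
  | mul_X p i hp =>
    have h : ∑ j, a j * aeval x (pderiv j (p * X i)) =
        (∑ j, a j * aeval x (pderiv j p)) * x i + a i * aeval x p := by
      simp only [Derivation.leibniz, smul_eq_mul, map_add, map_mul, aeval_X, mul_add,
        Finset.sum_add_distrib, pderiv_X, Finset.sum_mul]
      rw [add_comm]
      congr 1
      · exact Finset.sum_congr rfl fun j _ => by ring
      · rw [Finset.sum_eq_single i (fun j _ hj => by simp [hj.symm]) (by simp)]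
        simp
    rw [map_mul, map_mul, hp, aeval_X, aeval_X, h]
    linear_combination (∑ j, a j * aeval x (pderiv j p)) * a i * hδ

theorem unit_ideal {F : MvPolynomial (Fin 3) k} (h2 : (2 : k) ≠ 0)
    (hs : ∀ x : Fin 3 → AlgebraicClosure k, x ≠ 0 → aeval x F = 0 →
      ∃ i, aeval x (pderiv i F) ≠ 0) (i : Fin 3) :
    ∃ a : Option (Fin 3) → MvPolynomial (Option (Fin 3)) k,
      1 - ∑ j, a j * pderiv j (eqn F) ∈ Ideal.span {eqn F, X (some i) - 1} := by
  have h : Ideal.span (Set.range fun j => pderiv j (eqn F)) ⊔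
      Ideal.span {eqn F, X (some i) - 1} = ⊤ := by
    rw [← Ideal.radical_eq_top, ← vanishingIdeal_zeroLocus_eq_radical (K := AlgebraicClosure k),
      eq_top_iff]
    intro f _ x hx
    exfalso
    have h0 : ∀ j, aeval x (pderiv j (eqn F)) = 0 := fun j =>
      hx _ (Ideal.mem_sup_left (Ideal.subset_span ⟨j, rfl⟩))
    have h1 : aeval x (eqn F) = 0 := hx _ (Ideal.mem_sup_right (Ideal.subset_span (by simp)))
    have h3 : aeval x (X (some i) - 1 : MvPolynomial (Option (Fin 3)) k) = 0 :=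
      hx _ (Ideal.mem_sup_right (Ideal.subset_span (by simp)))
    have h4 : x none = 0 := by
      have h5 := h0 none
      have h6 : pderiv none (rename some F) = 0 :=
        pderiv_eq_zero_of_notMem_vars fun h => by
          obtain ⟨j, -, hj⟩ := mem_vars_rename _ _ h
          exact Option.some_ne_none _ hj
      have h7 : (2 : AlgebraicClosure k) ≠ 0 := by
        rw [← map_ofNat (algebraMap k (AlgebraicClosure k))]
        exact (map_ne_zero _).2 h2
      simpa [eqn, h6, Derivation.leibniz_pow, h7] using h5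
    rw [eqn, map_sub, map_pow, aeval_X, h4, aeval_rename] at h1
    obtain ⟨j, hj⟩ := hs (x ∘ some) (fun h => by
      have := congrFun h i
      simp only [Function.comp, Pi.zero_apply] at this
      simp [this] at h3) (by simpa using h1)
    have h5 := h0 (some j)
    rw [eqn, map_sub, pderiv_rename (Option.some_injective _), map_sub, aeval_rename] at h5
    simp [Derivation.leibniz_pow, hj] at h5
  obtain ⟨u, hu, v, hv, huv⟩ := Submodule.mem_sup.1 ((Ideal.eq_top_iff_one _).1 h)
  obtain ⟨a, rfl⟩ := Ideal.mem_span_range_iff_exists_fun.1 hu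
  exact ⟨a, eq_sub_of_add_eq' huv ▸ hv⟩

theorem lift_pt {F : MvPolynomial (Fin 3) k} {i : Fin 3}
    {a : Option (Fin 3) → MvPolynomial (Option (Fin 3)) k}
    (ha : 1 - ∑ j, a j * pderiv j (eqn F) ∈ Ideal.span {eqn F, X (some i) - 1})
    {B : Type} [CommRing B] [Algebra k B] {N : Ideal B} (hN : N ^ 2 = ⊥)
    {x : Option (Fin 3) → B ⧸ N} (hi : x (some i) = 1) (hx : aeval x (eqn F) = 0) :
    ∃ x' : Option (Fin 3) → B, (∀ j, Ideal.Quotient.mk N (x' j) = x j) ∧ aeval x' (eqn F) = 0 := by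
  choose w hw using fun j => Ideal.Quotient.mk_surjective (x j)
  have hm : ∀ p : MvPolynomial (Option (Fin 3)) k,
      Ideal.Quotient.mk N (aeval w p) = aeval x p := fun p => by
    rw [← Ideal.Quotient.mkₐ_eq_mk k, ← AlgHom.comp_apply, comp_aeval]
    simp only [Ideal.Quotient.mkₐ_eq_mk, hw]
  have sq : ∀ u ∈ N, ∀ v ∈ N, u * v = 0 := fun u hu v hv => by
    rw [← Ideal.mem_bot, ← hN, sq]
    exact Ideal.mul_mem_mul hu hv
  have hδ : aeval w (eqn F) ∈ N := by rw [← Ideal.Quotient.eq_zero_iff_mem, hm, hx]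
  have h1 : aeval w (1 - ∑ j, a j * pderiv j (eqn F)) ∈ N := by
    refine (Ideal.span_le (I := N.comap (aeval w))).2 ?_ ha
    rintro _ (rfl | rfl)
    · exact hδ
    · rw [SetLike.mem_coe, Ideal.mem_comap, ← Ideal.Quotient.eq_zero_iff_mem, hm]
      simp [hi]
  refine ⟨fun j => w j + aeval w (eqn F) * -aeval w (a j), fun j => ?_, ?_⟩
  · rw [map_add, hw, map_mul, hm, hx, zero_mul, add_zero]
  · rw [taylor _ _ (sq _ hδ _ hδ), ← sq _ hδ _ h1]
    simp only [map_sub, map_one, map_sum, map_mul, neg_mul, Finset.sum_neg_distrib]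
    ring

/-- The coordinate `x j * x i ^ n`. -/
def ud (n : ℕ) (i j : Fin 3) : Option (Fin (n + 1) → Fin 3) := some (Fin.cons j fun _ => i)

theorem nu_ud (n : ℕ) (i j : Fin 3) :
    nuP k (n + 1) (ud n i j) = X (some i) ^ n * X (some j) := by
  simp [nuP, ud, Fin.prod_univ_succ, mul_comm]

theorem rel_one {n : ℕ} (F : MvPolynomial (Fin 3) k) (i : Fin 3) (t : Fin (n + 1) → Fin 3) :
    X (some t) * X (ud n i i) ^ n - ∏ l, X (ud n i (t l)) ∈ dpI (n + 1) F := by
  refine mem_dpI.2 ⟨0, ?_⟩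
  simp only [map_sub, map_mul, map_pow, map_prod, aeval_X, nu_ud, Finset.prod_mul_distrib,
    Finset.prod_const, Finset.card_univ, Fintype.card_fin, mul_zero]
  simp only [nuP, Option.elim]
  ring

theorem rel_two {n : ℕ} {F : MvPolynomial (Fin 3) k} (hF : F.IsHomogeneous (2 * (n + 1)))
    (i : Fin 3) :
    X none ^ 2 * X (ud n i i) ^ (2 * n) - aeval (fun j => X (ud n i j)) F ∈ dpI (n + 1) F := by
  refine mem_dpI.2 ⟨(X (some i) ^ n) ^ (2 * (n + 1)), ?_⟩
  rw [map_sub, ← AlgHom.comp_apply _ (aeval _), comp_aeval]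
  simp only [map_mul, map_pow, aeval_X, nu_ud]
  rw [aeval_mul_homog hF, eqn, rename_eq_aeval]
  simp only [nuP, Option.elim, Function.comp_def]
  ring

theorem unproj {n : ℕ} {F : MvPolynomial (Fin 3) k} (hF : F.IsHomogeneous (2 * (n + 1)))
    {B : Type} [CommRing B] [Algebra k B] {y : Option (Fin (n + 1) → Fin 3) → B}
    (hy : ∀ f ∈ dpI (n + 1) F, aeval y f = 0) {i : Fin 3} {c : B} (hc : c * y (ud n i i) = 1) :
    ∃ x : Option (Fin 3) → B, x (some i) = 1 ∧ aeval x (eqn F) = 0 ∧
      ∀ t, aeval x (nuP k (n + 1) t) = c * y t := by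
  refine ⟨fun j => c * y (j.elim none (ud n i)), hc, ?_, fun t => ?_⟩
  · have h := hy _ (rel_two hF i)
    rw [map_sub, ← AlgHom.comp_apply _ (aeval _), comp_aeval] at h
    simp only [map_mul, map_pow, aeval_X] at h
    rw [eqn, map_sub, aeval_rename, map_pow, aeval_X]
    simp only [Function.comp_def, Option.elim]
    rw [aeval_mul_homog hF, ← sub_eq_zero.1 h]
    have h1 : (c * y (ud n i i)) ^ (2 * n) = 1 := by rw [hc, one_pow]
    linear_combination (-(c * y none) ^ 2) * h1
  · cases t with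
    | none => simp [nuP]
    | some t =>
      have h := hy _ (rel_one F i t)
      simp only [map_sub, map_mul, map_pow, map_prod, aeval_X] at h
      simp only [nuP, Option.elim, map_prod, aeval_X, Finset.prod_mul_distrib, Finset.prod_const,
        Finset.card_univ, Fintype.card_fin]
      rw [← sub_eq_zero.1 h]
      have h1 : (c * y (ud n i i)) ^ n = 1 := by rw [hc, one_pow]
      linear_combination (c * y (some t)) * h1

theorem away {n : ℕ} {F : MvPolynomial (Fin 3) k} (hF : F.IsHomogeneous (2 * (n + 1)))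
    (hI : Homog (dpI (n + 1) F)) {i : Fin 3}
    {a : Option (Fin 3) → MvPolynomial (Option (Fin 3)) k}
    (ha : 1 - ∑ j, a j * pderiv j (eqn F) ∈ Ideal.span {eqn F, X (some i) - 1})
    (s : Option (Fin (n + 1) → Fin 3)) :
    Algebra.FormallySmooth k (Localization.Away
      (Ideal.Quotient.mk (dpI (n + 1) F ⊔ Ideal.span {X s - 1}) (X (ud n i i)))) := by
  set J := dpI (n + 1) F ⊔ Ideal.span {X s - 1} with hJ
  set t := Ideal.Quotient.mk J (X (ud n i i)) with ht
  refine Algebra.FormallySmooth.of_comp_surjective fun B _ _ N hN φ => ?_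
  let y : Option (Fin (n + 1) → Fin 3) → B ⧸ N := fun u =>
    φ (algebraMap _ (Localization.Away t) (Ideal.Quotient.mk J (X u)))
  have hy : ∀ f, aeval y f = φ (algebraMap _ (Localization.Away t) (Ideal.Quotient.mk J f)) :=
    fun f => by
      have := comp_aeval (f := X) ((φ.comp (IsScalarTower.toAlgHom k _ (Localization.Away t))).comp
        (Ideal.Quotient.mkₐ k J))
      rw [aeval_X_left] at this
      exact (AlgHom.congr_fun this f).symm
  have hy0 : ∀ f ∈ J, aeval y f = 0 := fun f hf => by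
    rw [hy, Ideal.Quotient.eq_zero_iff_mem.2 hf, map_zero, map_zero]
  have hs : y s = 1 := by
    simpa [sub_eq_zero] using hy0 _ (Ideal.mem_sup_right (Ideal.mem_span_singleton_self _))
  have hu : IsUnit (y (ud n i i)) := (IsLocalization.Away.algebraMap_isUnit t).map φ
  obtain ⟨c, hc⟩ := hu.exists_left_inv
  obtain ⟨x, hx1, hx2, hx3⟩ := unproj hF (fun f hf => hy0 f (Ideal.mem_sup_left hf)) hc
  obtain ⟨w, hw1, hw2⟩ := lift_pt ha hN hx1 hx2
  have hm : ∀ u, Ideal.Quotient.mk N (aeval w (nuP k (n + 1) u)) = c * y u := fun u => by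
    rw [← hx3, ← Ideal.Quotient.mkₐ_eq_mk k, ← AlgHom.comp_apply, comp_aeval]
    simp only [Ideal.Quotient.mkₐ_eq_mk, hw1]
  have hun : ∀ {b : B}, IsUnit (Ideal.Quotient.mk N b) → IsUnit b := fun h =>
    (IsNilpotent.isUnit_quotient_mk_iff ⟨2, hN⟩).1 h
  obtain ⟨d, hd⟩ := (hun (b := aeval w (nuP k (n + 1) s)) (by
    rw [hm, hs, mul_one]
    exact IsUnit.of_mul_eq_one _ hc)).exists_left_inv
  have hdc : Ideal.Quotient.mk N d * c = 1 := by
    have := congrArg (Ideal.Quotient.mk N) hd
    rwa [map_mul, hm, hs, mul_one, map_one] at this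
  have hz : ∀ u, Ideal.Quotient.mk N (d * aeval w (nuP k (n + 1) u)) = y u := fun u => by
    rw [map_mul, hm, ← mul_assoc, hdc, one_mul]
  let ψ : (MvPolynomial _ k ⧸ J) →ₐ[k] B := Ideal.Quotient.liftₐ J
    (aeval fun u => d * aeval w (nuP k (n + 1) u)) fun f hf => by
      refine (sup_le (fun g hg => ?_) (Ideal.span_le.2 ?_) :
        J ≤ RingHom.ker (aeval fun u => d * aeval w (nuP k (n + 1) u))) hf
      · exact kill hI hw2 d hg
      · rintro _ rfl
        simpa [sub_eq_zero] using hd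
  have hψ : ∀ u, ψ (Ideal.Quotient.mk J (X u)) = d * aeval w (nuP k (n + 1) u) := fun u => by
    simp [ψ]
  have hψt : IsUnit (ψ t) := hun (by rw [ht, hψ, hz]; exact hu)
  refine ⟨IsLocalization.Away.liftAlgHom t hψt, ?_⟩
  refine IsLocalization.algHom_ext (Submonoid.powers t) ?_
  refine Ideal.Quotient.algHom_ext k (MvPolynomial.algHom_ext fun u => ?_)
  exact (congrArg (Ideal.Quotient.mk N) ((IsLocalization.Away.lift_eq t hψt _).trans (hψ u))).trans
    (hz u)

theorem deg_mem {e : ℕ} {G : MvPolynomial (Fin 3) k} (hG : G.IsHomogeneous e) :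
    ∃ g ∈ Ideal.span (Set.range fun t => (X (some t) : MvPolynomial (Option (Fin e → Fin 3)) k)),
      aeval (nuP k e) g = rename some G := by
  have h : G ∈ homogeneousSubmodule (Fin 3) k e := hG
  rw [← homogeneousSubmodule_one_pow, homogeneousSubmodule_one_eq_span_X, Submodule.span_pow] at h
  clear hG
  induction h using Submodule.span_induction with
  | mem G hG =>
    obtain ⟨f, rfl⟩ := Set.mem_pow.1 hG
    choose t ht using fun l => (f l).2
    refine ⟨X (some t), Ideal.subset_span ⟨t, rfl⟩, ?_⟩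
    simp [nuP, List.prod_ofFn, ← ht]
  | zero => exact ⟨0, zero_mem _, by simp⟩
  | add G G' _ _ h h' =>
    obtain ⟨g, hg, e1⟩ := h
    obtain ⟨g', hg', e2⟩ := h'
    exact ⟨g + g', add_mem hg hg', by rw [map_add, map_add, e1, e2]⟩
  | smul r G _ h =>
    obtain ⟨g, hg, e1⟩ := h
    exact ⟨C r * g, Ideal.mul_mem_left _ _ hg, by
      rw [map_mul, e1, smul_eq_C_mul, map_mul, rename_C, algHom_C, algebraMap_eq]⟩

theorem rel_three {e : ℕ} {F : MvPolynomial (Fin 3) k} (hF : F.IsHomogeneous (2 * e)) :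
    ∃ g ∈ Ideal.span (Set.range fun t => (X (some t) : MvPolynomial (Option (Fin e → Fin 3)) k)),
      X none ^ 2 - g ∈ dpI e F := by
  have h : F ∈ homogeneousSubmodule (Fin 3) k (2 * e) := hF
  rw [← homogeneousSubmodule_one_pow, two_mul, pow_add, homogeneousSubmodule_one_pow] at h
  obtain ⟨g, hg, e1⟩ : ∃ g ∈ Ideal.span (Set.range fun t =>
      (X (some t) : MvPolynomial (Option (Fin e → Fin 3)) k)),
      aeval (nuP k e) g = rename some F := by
    clear hF
    refine Submodule.mul_induction_on h (fun G hG G' hG' => ?_) fun G G' h h' => ?_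
    · obtain ⟨g, hg, e1⟩ := deg_mem hG
      obtain ⟨g', -, e2⟩ := deg_mem hG'
      exact ⟨g * g', Ideal.mul_mem_right _ _ hg, by rw [map_mul, map_mul, e1, e2]⟩
    · obtain ⟨g, hg, e1⟩ := h
      obtain ⟨g', hg', e2⟩ := h'
      exact ⟨g + g', add_mem hg hg', by rw [map_add, map_add, e1, e2]⟩
  exact ⟨g, hg, mem_dpI.2 ⟨1, by rw [map_sub, e1, map_pow, aeval_X, mul_one]; rfl⟩⟩

theorem cover {n : ℕ} {F : MvPolynomial (Fin 3) k} (hF : F.IsHomogeneous (2 * (n + 1)))
    {P : Ideal (MvPolynomial (Option (Fin (n + 1) → Fin 3)) k)} (hP : P.IsPrime)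
    (h : dpI (n + 1) F ≤ P) (hi : ∀ i, X (ud n i i) ∈ P) (s : Option (Fin (n + 1) → Fin 3)) :
    X s ∈ P := by
  have h1 : ∀ t, X (some t) ∈ P := fun t => by
    have h2 : X (some t) ^ (n + 1) - ∏ l, X (ud n (t l) (t l)) ∈ dpI (n + 1) F := by
      refine mem_dpI.2 ⟨0, ?_⟩
      simp only [map_sub, map_pow, map_prod, aeval_X, nu_ud, ← pow_succ, Finset.prod_pow, mul_zero]
      simp [nuP]
    refine hP.mem_of_pow_mem (n + 1) ?_
    simpa using add_mem (h h2)
      (Ideal.prod_mem P (f := fun l => X (ud n (t l) (t l))) (Finset.mem_univ 0) (hi (t 0)))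
  cases s with
  | some t => exact h1 t
  | none =>
    obtain ⟨g, hg, h2⟩ := rel_three hF
    refine hP.mem_of_pow_mem 2 ?_
    simpa using add_mem (h h2) (Ideal.span_le.2 (Set.range_subset_iff.2 h1) hg)

theorem smooth {e : ℕ} {F : MvPolynomial (Fin 3) k} (he : 0 < e) (h2 : (2 : k) ≠ 0)
    (hF : F.IsHomogeneous (2 * e)) (hI : Homog (dpI e F))
    (hs : ∀ x : Fin 3 → AlgebraicClosure k, x ≠ 0 → aeval x F = 0 →
      ∃ i, aeval x (pderiv i F) ≠ 0) (s : Option (Fin e → Fin 3)) :
    Algebra.Smooth k (Chart (dpI e F) s) := by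
  obtain ⟨n, rfl⟩ := Nat.exists_eq_add_one_of_ne_zero he.ne'
  have fp : Algebra.FinitePresentation k (Chart (dpI (n + 1) F) s) :=
    Algebra.FinitePresentation.of_finiteType.1 inferInstance
  refine ⟨Algebra.smoothLocus_eq_univ_iff.1 (Set.eq_univ_of_forall fun p => ?_), fp⟩
  by_cases h : ∀ i, Ideal.Quotient.mk _ (X (ud n i i)) ∈ p.asIdeal
  · have hJ : dpI (n + 1) F ⊔ Ideal.span {X s - 1} ≤ p.asIdeal.comap (Ideal.Quotient.mk _) :=
      fun f hf => by
        rw [Ideal.mem_comap, Ideal.Quotient.eq_zero_iff_mem.2 hf]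
        exact zero_mem _
    have hP := Ideal.comap_isPrime (Ideal.Quotient.mk _) p.asIdeal
    refine absurd ((Ideal.eq_top_iff_one _).2 ?_) hP.ne_top
    simpa using sub_mem (cover hF hP (le_sup_left.trans hJ) h s)
      (hJ (Ideal.mem_sup_right (Ideal.mem_span_singleton_self _)))
  · obtain ⟨i, hi⟩ := not_forall.1 h
    obtain ⟨a, ha⟩ := unit_ideal h2 hs i
    exact Algebra.basicOpen_subset_smoothLocus_iff.2 (away hF hI ha s) hi

end XKp

/-- The double plane is smooth. -/
theorem XK_thm [XJ] : XK :=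
  ⟨fun he h2 hF hs s => XKp.smooth he h2 hF (XJ.hom he hF) hs s⟩

end Pool.Agent.Lib.MP_557161_ag.HG
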