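import Pool.Agent.Lib.MP_557161_ag.HG.StZ
import Pool.Agent.Lib.MP_557161_ag.HG.XA

/-!
The vector field on the double plane.
-/

namespace Pool.Agent.Lib.MP_557161_ag.HG

open Pool.Agent.Lib.MP_557161_ag.DL MvPolynomial Submodule

variable {K : Type} [Field K]

namespace ZEp

variable (G : GD K) {L : Fld K}

lemma tv_lin (y v v' : xz.X L) (a b : L) :
    G.tv y (a • v.1 + b • v'.1, a * v.2 + b * v'.2) = a • G.tv y v + b • G.tv y v' := by
  have h : ∀ s, G.dnu y (a • v.1 + b • v'.1, a * v.2 + b * v'.2) s =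
      a * G.dnu y v s + b * G.dnu y v' s := fun s => by
    cases s <;> simp [GD.dnu, Finset.mul_sum, mul_assoc, add_mul, Finset.sum_add_distrib]
  funext s
  simp only [GD.tv, wdg, h, Pi.add_apply, Pi.smul_apply, smul_eq_mul]
  ring

lemma homD : G.dF.IsHomogeneous (2 * G.e - 1) := G.homF.pderiv.add G.homF.pderiv

include G in
lemma two (L : Fld K) : (2 : L) ≠ 0 := by
  rw [← map_ofNat (algebraMap K L) 2]
  exact (map_ne_zero _).2 G.three.2.2.2.1

lemma bd1 {x : Fin 3 → L} (h : x 1 = 0) : aeval x G.F = x 2 ^ G.u * x 0 := G.bd x 1 h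

lemma nz {x : Fin 3 → L} (hx : x ≠ 0) (h : aeval x G.F = 0) (h' : aeval x G.dF = 0) :
    x 0 ≠ 0 := fun h0 => by
  have := G.three.1
  have := G.hu
  have := G.three.2.2.2.2 0
  have e : x 1 ^ G.u * x 2 = 0 := (G.bd x 0 h0).symm.trans h
  have e' : x 2 ^ G.u + x 1 ^ G.u = 0 := by
    rw [GD.dF, map_add, G.evD, G.evD] at h'
    simp only [Fin.reduceAdd, zero_add, h0, zero_pow (by omega : G.u - 1 ≠ 0),
      zero_pow (by omega : G.w 0 - 1 ≠ 0), zero_pow (by omega : G.w 0 ≠ 0), mul_zero, zero_mul,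
      add_zero] at h'
    exact h'
  have u0 : G.u ≠ 0 := by omega
  have h2 : x 2 = 0 := by
    rcases mul_eq_zero.1 e with e | e
    · rw [e, add_zero] at e'
      exact (pow_eq_zero_iff u0).1 e'
    · exact e
  rw [h2, zero_pow u0, zero_add] at e'
  refine hx (funext fun i => ?_)
  fin_cases i
  exacts [h0, (pow_eq_zero_iff u0).1 e', h2]

lemma const [Base K] {t : L} (h : ∀ O : Pl L, t ∈ O.O) : ∃ c : K, algebraMap K L c = t := by
  have h1 : t ∈ (integralClosure K L).toSubring := by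
    by_contra e
    obtain ⟨V, h1, h2⟩ := Subring.exists_le_valuationSubring_of_isIntegrallyClosedIn e
    exact h2 (h ⟨V, fun c => h1 ((integralClosure K L).algebraMap_mem c)⟩)
  obtain ⟨c, hc⟩ := (IsAlgClosed.algebraMap_bijective_of_isIntegral (k := K)).2
    (⟨t, h1⟩ : integralClosure K L)
  exact ⟨c, congrArg Subtype.val hc⟩

lemma crit [Base K] {x : Fin 3 → L} (hx : x ≠ 0) (h : aeval x G.F = 0) (h' : aeval x G.dF = 0) :
    ∃ (c : L) (x₀ : Fin 3 → K), c ≠ 0 ∧ x₀ 0 = 1 ∧ x = fun i => c * algebraMap K L (x₀ i) := by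
  have h0 := nz G hx h h'
  have key : ∀ i, ∃ c : K, algebraMap K L c = x i / x 0 := fun i => const fun O => by
    obtain ⟨s, hs, hi⟩ := exists_scale O hx
    have r : ∀ i, (Rel.ofPl O).r (((x s)⁻¹ • x) i) (rdV O ((x s)⁻¹ • x) i) := fun i => ⟨hi i, rfl⟩
    have h1 := nz G (L := O.res) (x := rdV O ((x s)⁻¹ • x))
      (fun e => one_ne_zero ((Rel.eq (r s) (Rel.ofPl O).one (inv_mul_cancel₀ hs)).symm.trans
        (congrFun e s)))
      (Rel.eq_zero (Rel.aeval r _) (by rw [aeval_smul_of_isHomogeneous G.homF, h, mul_zero]))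
      (Rel.eq_zero (Rel.aeval r _) (by rw [aeval_smul_of_isHomogeneous (homD G), h', mul_zero]))
    have h2 := (Rel.div (r i) (r 0) h1).1
    rwa [Pi.smul_apply, Pi.smul_apply, smul_eq_mul, smul_eq_mul,
      mul_div_mul_left _ _ (inv_ne_zero hs)] at h2
  choose x₀ hx₀ using key
  refine ⟨x 0, x₀, h0, (algebraMap K L).injective ?_, funext fun i => ?_⟩
  · rw [hx₀, div_self h0, map_one]
  · rw [hx₀, mul_div_cancel₀ _ h0]

end ZEp

open ZEp in
theorem ZE_thm [Base K] [XA K] [YA K] : ZE K where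
  tn G L y := by
    simp only [GD.Tn, GD.vf, GD.dF, map_add, Fin.sum_univ_three, Matrix.cons_val_zero,
      Matrix.cons_val_one, Matrix.cons_val]
    ring
  scl G L y c := by
    obtain ⟨m, hm⟩ := Nat.exists_eq_add_one_of_ne_zero G.e_pos.ne'
    have e : G.vf L (G.scl c y) =
        (c ^ m • (G.scl c (G.vf L y)).1, c ^ m * (G.scl c (G.vf L y)).2) := by
      refine Prod.ext (funext fun i => ?_) ?_
      · fin_cases i <;> simp [GD.vf, GD.scl, hm] <;> ring
      · change aeval (c • y.1) G.dF = c ^ m * (c ^ G.e * aeval y.1 G.dF)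
        rw [aeval_smul_of_isHomogeneous (homD G), ← mul_assoc, ← pow_add]
        congr 2
        omega
    rw [e, GD.tv, GD.dnu_smul, GD.dnu_scl, GD.nu_scl, smul_smul, wdg_smul, ← pow_add, ← pow_add,
      show G.e + (m + G.e) = 3 * G.e - 1 by omega]
    rfl
  zero G L y h e := by
    obtain ⟨c, hc⟩ := (YA.tv_eq _ h).1 e
    have h0 : 2 * y.2 = c * y.1 0 := congrFun (congrArg Prod.fst hc) 0
    have h1 : 0 = c * y.1 1 := congrFun (congrArg Prod.fst hc) 1
    have h2 : 2 * y.2 = c * y.1 2 := congrFun (congrArg Prod.fst hc) 2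
    have h3 : aeval y.1 G.dF = c * G.e * y.2 := congrArg Prod.snd hc
    by_cases c0 : c = 0
    · rw [c0, zero_mul] at h0
      exact Or.inl ⟨(mul_eq_zero.1 h0).resolve_left (two G L), by rw [h3, c0, zero_mul, zero_mul]⟩
    have h4 : y.1 1 = 0 := (mul_eq_zero.1 h1.symm).resolve_left c0
    have h5 : y.1 2 = y.1 0 := mul_left_cancel₀ c0 (h2.symm.trans h0)
    have h6 : y.1 = y.1 0 • ![1, 0, 1] := funext fun i => by fin_cases i <;> simp [h4, h5]
    have h7 : y.2 ^ 2 = (y.1 0 ^ G.e) ^ 2 := by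
      rw [h.2, bd1 G h4, h5, ← pow_succ, G.hu, ← pow_mul, mul_comm]
    have h8 : y.1 0 ≠ 0 := fun e => h.1 (by rw [h6, e, zero_smul])
    rcases sq_eq_sq_iff_eq_or_eq_neg.1 h7 with e | e
    · exact Or.inr ⟨_, false, h8, Prod.ext h6 (e.trans (mul_one _).symm)⟩
    · exact Or.inr ⟨_, true, h8, Prod.ext h6 (e.trans (mul_neg_one _).symm)⟩
  base G L := ⟨fun e => one_ne_zero (congrFun e 0), by rw [bd1 G rfl]; simp⟩
  crit G L x := crit G
  ind G L x hx h := by
    refine LinearIndependent.pair_iff.2 fun s t e => ?_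
    rw [← tv_lin] at e
    obtain ⟨c, hc⟩ := (YA.tv_eq (y := (x, 0)) _ ⟨hx, by simp [h]⟩).1 e
    have h0 : s = c * x 0 := by simpa using congrFun (congrArg Prod.fst hc) 0
    have h1 : c = 0 ∨ x 1 = 0 := by simpa using congrFun (congrArg Prod.fst hc) 1
    have h2 : s = c * x 2 := by simpa using congrFun (congrArg Prod.fst hc) 2
    refine ⟨?_, by simpa using congrArg Prod.snd hc⟩
    rcases h1 with h1 | h1
    · rw [h0, h1, zero_mul]
    · rcases mul_eq_zero.1 ((bd1 G h1).symm.trans h) with e | e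
      · rw [h2, pow_eq_zero_iff G.three.2.2.1.pos.ne' |>.1 e, mul_zero]
      · rw [h0, e, mul_zero]
  split G L y := by
    rw [← tv_lin]
    congr 1
    refine Prod.ext (funext fun i => ?_) (by simp [GD.vf])
    fin_cases i <;> simp [GD.vf]
  sec G L y := by
    have h : ∀ m, G.dnu y (0, 1) (some m) = 0 := fun m => by
      simp only [GD.dnu, Option.elim_some]
      exact Finset.sum_eq_zero fun i _ => mul_eq_zero_of_left rfl _
    have h' : G.dnu y (0, 1) none = 1 := rfl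
    funext ⟨s, t⟩
    cases s <;> cases t <;> simp [GD.sv, GD.tv, wdg, GD.nu, h, h', ngz] <;> ring
  rad G L y v ρ h e := by
    have h1 : ∑ i, y.1 i * aeval y.1 (pderiv i G.F) = 2 * G.e * y.2 ^ 2 := by
      have := congrArg (aeval y.1) G.homF.sum_X_mul_pderiv
      simpa [h.2] using this
    have h2 := tv_lin G y (G.vf L y)
      ((2 * y.2) • v.1, ∑ i, aeval y.1 (pderiv i G.F) * v.1 i) 1 ρ
    have e0 : y.1 0 = 1 + ρ * v.1 0 := congrFun e 0
    have e1 : y.1 1 = 0 + ρ * v.1 1 := congrFun e 1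
    have e2 : y.1 2 = 1 + ρ * v.1 2 := congrFun e 2
    have h3 := h2.symm.trans ((YA.tv_eq _ h).2 ⟨2 * y.2, Prod.ext (funext fun i => ?_) ?_⟩)
    · rw [neg_smul, eq_neg_iff_add_eq_zero, ← h3, one_smul]
    · fin_cases i <;> simp [GD.vf, e0, e1, e2] <;> ring
    · clear h2
      simp only [GD.vf, GD.dF, map_add, Fin.sum_univ_three] at h1 ⊢
      linear_combination h1 - aeval y.1 (pderiv 0 G.F) * e0 - aeval y.1 (pderiv 1 G.F) * e1 -
        aeval y.1 (pderiv 2 G.F) * e2

end Pool.Agent.Lib.MP_557161_ag.HG
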