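import Pool.Agent.Lib.MP_557161_ag.HG.StZ
import Pool.Agent.Lib.MP_557161_ag.HG.YF

/-!
Two lines in the plane meet in one point.
-/

namespace Pool.Agent.Lib.MP_557161_ag.HG

open Pool.Agent.Lib.MP_557161_ag.DL Submodule

namespace ZHa

variable {K : Type} [Field K] {B : Amb K}

/-- The tautological bundle with the zero section. -/
noncomputable def lbH (Z : Sp B) : LB ((Lines K (Fin 3)).prod Z) ((Lines K (Fin 3)).prod Z) where
  ι := Unit
  σ _ := Fin 3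
  l _ := ⟨fun s => s.1, fun _ h => h.1, fun _ _ _ => rfl, fun _ _ _ _ _ => rfl⟩
  c _ := 1
  s _ _ _ := 0
  hom _ _ _ _ _ _ _ := (mul_zero _).symm
  nat ι _ _ _ _ := (map_zero ι).symm
  cont O _ _ _ _ _ _ := ⟨zero_mem _, O.rd_zero⟩
  sub _ _ h := h
  zero _ _ _ h _ := ⟨fun _ => h, fun _ => rfl⟩

/-- The projection. -/
def pr (Z : Sp B) : Mor ((Lines K (Fin 3)).prod Z) Z :=
  ⟨fun s => s.2, fun _ h => h.2, fun _ _ _ => rfl, fun _ _ _ _ _ => rfl⟩

lemma pr_pro (Z : Sp B) : (pr Z).Proper := fun O ⟨E, _⟩ _ ⟨⟨x, h0, e⟩, _⟩ h' =>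
  ⟨exists_gen_line (E := sred O E) (by
    rw [finrank_sred, show E = _ from e, finrank_span_singleton h0]), h'⟩

variable [FW0 K] {d : Cd} {W : ASp K d} {j : ℕ}

lemma cart (φ : Fe j ((Lines K (Fin 3)).prod W.sp)) :
    ∃ ψ : Fe (j + 1) ((Lines K (Fin 3)).prod W.sp), ∀ (M : Fld K) (x : Fin 3 → M) (w : d.X M),
      Good (j + 1) M → x ≠ 0 → W.mem M w →
      HasS (fun O : Dv M j => ((-ordv O.1 x : ℤ) : ℂ) * φ.v O.1.res
        (((Sub K (Fin 3)).prod (d.amb K)).red O.1 (span M {x}, some w)))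
        (ψ.v M (span M {x}, some w)) := by
  obtain ⟨ψ, h⟩ := FB5.cartL (FB3.prod (FB3.lines (Fin 3)) (FB3.aff W)) (lbH W.sp) φ
  refine ⟨ψ, fun M x w hM hx hw => ?_⟩
  have hP : ((Lines K (Fin 3)).prod W.sp).mem (L := M) (span M {x}, some w) :=
    ⟨⟨x, hx, rfl⟩, W.sp_some.2 hw⟩
  have := h M _ (fun _ => x) 1 hM hP (fun _ => ⟨hx, rfl⟩) one_ne_zero fun h' => absurd hP h'
  convert this using 4 with O
  rw [Pl.ord_eq_zero_of_mem (O := O.1) one_ne_zero (one_mem _) (by rw [inv_one]; exact one_mem _)]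
  show _ = 0 - ∑ _a : Unit, 1 * ordv O.1 x
  simp

lemma exH (φ : AF j W) : ∃ ϑ, IsH φ ϑ := by
  obtain ⟨ϑ, h⟩ := cart (φ.pull (pr W.sp) (pr_pro W.sp))
  refine ⟨ϑ, fun M x w hM hx hw => ?_⟩
  have hP : ((Lines K (Fin 3)).prod W.sp).mem (L := M) (span M {x}, some w) :=
    ⟨⟨x, hx, rfl⟩, W.sp_some.2 hw⟩
  convert h M x w hM hx hw using 3 with O
  rw [← FA3.v_red φ.toPre O.1 w fun L ⟨_, e, _⟩ => nomatch e]
  by_cases hm : W.sp.mem ((d.amb K).red O.1 (some w))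
  · exact (Fe.pull_of_mem (pr W.sp) (pr_pro W.sp) φ (pr_pro W.sp O.1 _ O.2.1 hP hm)).symm
  · rw [not_not.1 fun e => hm (φ.supp _ _ e).2]
    exact (not_not.1 fun e => hm ((φ.pull (pr W.sp) (pr_pro W.sp)).supp _ _ e).2.2).symm

variable {φ : AF j W} {ϑ : Fe (j + 1) ((Lines K (Fin 3)).prod W.sp)} {L M : Fld K}
  {α : L →ₐ[K] M}

lemma line (hϑ : IsH φ ϑ) {T : M} (hL : Good j L) (ht : Trans' α T) (hg : Gen α T) {w : d.X L}
    (hw : W.mem L w) : ϑ.v M (span M {![0, 1, T]}, some (d.map α w)) = φ.a L w := by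
  have hx : (![0, 1, T] : Fin 3 → M) ≠ 0 := fun e => one_ne_zero (congrFun e 1)
  refine (hϑ M _ _ (hL.succ ht hg) hx ((W.map_iff α w).2 hw)).2.symm.trans ?_
  obtain ⟨O, h, hO, h1, h2⟩ := Pl.exists_zero_place ht.inv hg.inv
  have hr : Good j O.res := hL.of_fin (Fin'.of_surj h2)
  have h0 : T ≠ 0 := fun e => ht.ne 0 (by rw [e, map_zero])
  have h3 : O.ord T = -1 := by rw [Pl.ord_inv hO] at h1; omega
  have h4 : T ∉ O.O := fun e => by have := (Pl.ord_nonneg_iff hO).2 e; omega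
  rw [finsum_eq_single _ (⟨O, hO, hr.2⟩ : Dv M j)]
  · have h5 := (Pl.ord_pos_iff hO (inv_ne_zero h0)).1 (by omega)
    have h6 : ordv O ![0, 1, T] = O.ord T := FB3.ordv_eq (s := 2) hO h0 fun i => by
      fin_cases i
      · simp
      · simpa using h5.1
      · simp [h0]
    simp only []
    rw [h6, h3, YFAux.rv_triv φ h hL h2]
    simp
  · rintro ⟨O', hO'⟩ hne
    simp only []
    by_cases h' : Pl.Triv α O'
    · have h5 : T ∈ O'.O := by_contra fun e => hne (Subtype.ext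
        (Pl.zero_place_unique ht.inv hg.inv h' h (by rwa [inv_inv]) (by rwa [inv_inv])))
      have h6 : ordv O' ![0, 1, T] = 0 := FB3.ordv_prim hO'.1 (fun i => by
        fin_cases i
        exacts [zero_mem _, one_mem _, h5]) fun e => one_ne_zero (O'.rd_one.symm.trans (congrFun e 1))
      rw [h6]
      simp
    · rw [YFAux.rv_low φ h' hL, mul_zero]

omit [FW0 K] in
lemma drop (ϑ : Fe (j + 1) ((Lines K (Fin 3)).prod W.sp)) (F : IntermediateField K M)
    (hF : ∀ a, α a ∈ F) {m : ℕ} (hm : m < j + 1) (h : (M.sub F).tr ≤ m) {z : Fin 3 → M}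
    (hz : ∀ i, z i ∈ F) (u : (d.amb K).pt L) : ϑ.v M (span M {z}, (d.amb K).map α u) = 0 := by
  let ρ : L →ₐ[K] M.sub F := α.codRestrict F.toSubalgebra hF
  let κ : M.sub F →ₐ[K] M := F.val
  refine Eq.trans ?_ (ϑ.low κ (span (M.sub F) {fun i => ⟨z i, hz i⟩}, (d.amb K).map ρ u)
    (h.trans_lt (by exact_mod_cast hm)))
  congr 1
  exact Prod.ext (smap_single κ.toRingHom fun i => ⟨z i, hz i⟩).symm ((d.amb K).map_comp ρ κ u)

omit [FW0 K] in
lemma red_scl (O : Pl M) {x : Fin 3 → M} {r : Fin 3} (h0 : x r ≠ 0) (h : IntV O ((x r)⁻¹ • x)) :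
    sred O (span M {x}) = span O.res {rdV O ((x r)⁻¹ • x)} := by
  rw [← span_singleton_smul_eq (IsUnit.mk0 _ (inv_ne_zero h0)) x]
  refine sred_single h fun e => one_ne_zero (O.rd_one.symm.trans ?_)
  have := congrFun e r
  rwa [show rdV O ((x r)⁻¹ • x) r = O.rd ((x r)⁻¹ * x r) from rfl, inv_mul_cancel₀ h0] at this

lemma plane (hϑ : IsH φ ϑ) {x : Fin 3 → M} (h0 : x 0 = 1)
    (hF : Free j α fun i : {i // i ≠ (0 : Fin 3)} => x i) {w : d.X L} :
    W.mem L w → ∑ᶠ O : Dv M (j + 1), ((-ordv O.1 x : ℤ) : ℂ) * ϑ.v O.1.res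
      (((Sub K (Fin 3)).prod (d.amb K)).red O.1 (span M {x}, some (d.map α w))) = φ.a L w := by
  intro hw
  have h1 : x 1 ≠ 0 := fun e => (FA1.trans hF ⟨1, by decide⟩).ne 0 (e.trans (map_zero α).symm)
  let T : Bool → M := fun b => bif b then (x 1)⁻¹ else (x 1)⁻¹ * x 2
  have g : ∀ {N N' : Fld K} (β : N →ₐ[K] N') (U : Bool → N') b, U b ∈ gen β U := fun _ _ b =>
    IntermediateField.subset_adjoin _ _ (Or.inr ⟨b, rfl⟩)
  have c2 : Nat.card Bool = 2 := by simp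
  have hT : Free j α T := FA1.of_gen hF (by rw [c2]; simp) fun ⟨i, hi⟩ => by
    have a1 : x 1 ∈ gen α T := by simpa [T] using inv_mem (g α T true)
    fin_cases i
    · exact absurd rfl hi
    · exact a1
    · simpa [T, h1] using mul_mem a1 (g α T false)
  have iv : ∀ {O : Pl M}, (∀ a, T a ∈ O.O) → O.rd (T true) = 0 →
      IntV O ((x 1)⁻¹ • x) ∧ rdV O ((x 1)⁻¹ • x) = ![0, 1, O.rd (T false)] := fun {O} a1 a2 => by
    have e : (x 1)⁻¹ • x = ![T true, 1, T false] := funext fun i => by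
      fin_cases i <;> simp [T, h0, h1]
    rw [e]
    refine ⟨fun i => ?_, funext fun i => ?_⟩
    · fin_cases i
      exacts [a1 true, one_mem _, a1 false]
    · fin_cases i
      exacts [a2, O.rd_one, rfl]
  obtain ⟨O, h, z1, z2, z3, z4, z5⟩ := FA2.zero hT (i := j + 1) (by rw [c2]) true
  rw [finsum_eq_single _ O]
  · have : Unique {a : Bool // a ≠ true} :=
      ⟨⟨⟨false, by decide⟩⟩, fun ⟨a, ha⟩ => by cases a; exacts [rfl, absurd rfl ha]⟩
    obtain ⟨a1, a2, a3⟩ := FA1.one.1 z4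
    rw [← Subsingleton.elim (⟨false, by decide⟩ : {a : Bool // a ≠ true}) default] at a2 a3
    obtain ⟨b1, b2⟩ := iv z1 z3
    have b3 : O.1.ord (x 1) = -1 := by
      have : O.1.ord (x 1)⁻¹ = 1 := z2
      rw [Pl.ord_inv O.2.1] at this
      omega
    rw [FB3.ordv_eq O.2.1 h1 b1, b3, ← line hϑ a1 a2 a3 hw]
    simp only [neg_neg, Int.cast_one, one_mul]
    congr 1
    exact Prod.ext ((red_scl O.1 h1 b1).trans (by rw [b2])) ((d.amb K).red_triv h (some w))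
  · intro O' hne
    have hx : x ≠ 0 := fun e => h1 (congrFun e 1)
    have ov := Pl.over_comap α O'.1
    have e2 : (d.amb K).red O'.1 (some (d.map α w)) =
        (d.amb K).map ov.resHom ((d.amb K).red (Pl.comap α O'.1) (some w)) :=
      (d.amb K).red_map ov (some w)
    obtain ⟨r, r0, hr⟩ := exists_scale O'.1 hx
    have i0 : (x r)⁻¹ ∈ O'.1.O := by simpa [h0] using hr 0
    by_cases a0 : x r ∈ O'.1.O
    · rw [FB3.ordv_eq O'.2.1 r0 hr, Pl.ord_eq_zero_of_mem r0 a0 i0]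
      simp
    have a1 : O'.1.rd (x r)⁻¹ = 0 := by_contra fun e =>
      a0 (by simpa using ((O'.1.rd_ne_zero_iff i0).1 e).2)
    refine mul_eq_zero_of_right _ ?_
    by_cases a2 : O'.1.rd ((x r)⁻¹ * x 1) = 0
    · let z : Fin 3 → (Pl.comap α O'.1).res := ![0, 0, 1]
      have b1 : r = 2 := by
        fin_cases r
        · exact absurd (h0 ▸ one_mem _) a0
        · rw [show (x ((fun i => i) ⟨1, _⟩ : Fin 3))⁻¹ * x 1 = 1 from inv_mul_cancel₀ h1,
            Pl.rd_one] at a2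
          exact absurd a2 one_ne_zero
        · rfl
      subst b1
      refine Eq.trans ?_ (ϑ.low ov.resHom (span _ {z}, (d.amb K).red (Pl.comap α O'.1) (some w))
        ((FA2.res_le α O'.1 hF.gL.2.le).trans_lt (by exact_mod_cast Nat.lt_succ_self j)))
      congr 1
      refine Prod.ext ((red_scl O'.1 r0 hr).trans (Eq.trans ?_ (smap_single _ z).symm)) e2
      congr 2
      funext i
      fin_cases i
      · simpa [rdV, mapV, z, h0] using a1
      · simpa [rdV, mapV, z] using a2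
      · simp [rdV, mapV, z, r0]
    · obtain ⟨b1, b2⟩ := (O'.1.rd_ne_zero_iff (hr 1)).1 a2
      have b2 : ((x r)⁻¹ * x 1)⁻¹ ∈ O'.1.O := b2
      have b3 : ∀ i, (x 1)⁻¹ * x i = ((x r)⁻¹ * x 1)⁻¹ * ((x r)⁻¹ * x i) := fun i => by
        field_simp
      have b4 : (x 1)⁻¹ = ((x r)⁻¹ * x 1)⁻¹ * (x r)⁻¹ := by simpa [h0] using b3 0
      have b5 : ∀ a, T a ∈ O'.1.O := fun a => by
        cases a
        · exact (congrArg (· ∈ O'.1.O) (b3 2)).mpr (mul_mem b2 (hr 2))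
        · exact (congrArg (· ∈ O'.1.O) b4).mpr (mul_mem b2 i0)
      have b6 : O'.1.rd (T true) = 0 := by
        show O'.1.rd (x 1)⁻¹ = 0
        rw [b4, O'.1.rd_mul b2 i0, a1, mul_zero]
      obtain ⟨m, hm, b7⟩ := z5 O' hne b5 b6
      obtain ⟨c1, c3⟩ := iv b5 b6
      refine Eq.trans ?_ (drop ϑ (α := ov.resHom) _ (fun a => IntermediateField.subset_adjoin _ _
        (Or.inl ⟨a, rfl⟩)) hm b7 (z := ![0, 1, O'.1.rd (T false)]) (fun i => ?_)
        ((d.amb K).red (Pl.comap α O'.1) (some w)))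
      · congr 1
        exact Prod.ext ((red_scl O'.1 h1 c1).trans (by rw [c3])) e2
      · fin_cases i
        exacts [zero_mem _, one_mem _, g _ _ false]

end ZHa

open ZHa in
theorem ZH_thm {K : Type} [Field K] [FW0 K] [XG K] : ZH K := ⟨fun {d W j} φ => by
  obtain ⟨ϑ, hϑ⟩ := exH φ
  refine ⟨ϑ, hϑ, fun G L M α y hy w hw => ?_⟩
  obtain ⟨ψ, hψ⟩ := cart ϑ
  obtain ⟨M₀, α₀, β, x, rfl, h0, h1, hF, h2, -⟩ := XG.chart hy 0
  have y0 : y.1 0 = 1 := hy.mem.2.1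
  have e : mapV β.toRingHom x = y.1 := funext fun i => by
    show β (x i) = _
    rw [h1, y0, div_one]
  have g0 : Good (j + 1 + 1) M₀ := by simpa using hF.gM
  have hx : x ≠ 0 := fun e => one_ne_zero (h0.symm.trans (congrFun e 0))
  have H := hψ M y.1 (d.map (β.comp α₀) w) hy.gM
    (fun e => one_ne_zero (y0.symm.trans (congrFun e 0))) ((W.map_iff _ w).2 hw)
  have e2 := ψ.ext β (span M₀ {x}, some (d.map α₀ w)) g0 hy.gM
  rw [← (hψ M₀ x _ g0 hx ((W.map_iff _ w).2 hw)).2, plane hϑ h0 hF hw, h2] at e2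
  refine (Eq.trans ?_ e2 : _ = _) ▸ H
  congr 1
  exact Prod.ext (e ▸ (smap_single _ x).symm) ((d.amb K).map_comp α₀ β (some w))⟩

end Pool.Agent.Lib.MP_557161_ag.HG
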