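import Pool.Agent.Lib.MP_557161_ag.HG.StX

/-!
The contraction with the diagonal: assembly of its laws.
-/

namespace Pool.Agent.Lib.MP_557161_ag.HG

open Pool.Agent.Lib.MP_557161_ag.DL

variable {K : Type} [Field K] {p : ℕ} [Fact p.Prime] [CharP K p] {G : GD K} {Q : ℕ}

namespace XOA

theorem ngz_ngz (L : Fld K) (y : xz.X L) : ngz L (ngz L y) = y := Prod.ext rfl (neg_neg _)

theorem sg_sg (ε : Bool) (L : Fld K) (y : xz.X L) : sg ε L (sg ε L y) = y := by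
  cases ε
  exacts [rfl, ngz_ngz L y]

theorem mem_ngz {L : Fld K} {y : xz.X L} : G.UU.mem L (ngz L y) ↔ G.UU.mem L y :=
  ⟨fun h => ⟨h.1, h.2.1, (neg_sq y.2).symm.trans h.2.2⟩,
    fun h => ⟨h.1, h.2.1, (neg_sq y.2).trans h.2.2⟩⟩

theorem mem_sg (ε : Bool) {L : Fld K} {y : xz.X L} (h : G.UU.mem L y) :
    G.UU.mem L (sg ε L y) := by
  cases ε
  exacts [h, mem_ngz.2 h]

theorem map_sg (ε : Bool) {L M : Fld K} (α : L →ₐ[K] M) (y : xz.X L) :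
    xz.map α (sg ε L y) = sg ε M (xz.map α y) := by
  cases ε
  exacts [rfl, Prod.ext rfl (map_neg α _)]

theorem lift_sg (ε : Bool) {M L : Fld K} {R : Rel M L} {x : xz.X M} {x' : xz.X L}
    (e : xz.lift R.r x x') : xz.lift R.r (sg ε M x) (sg ε L x') := by
  cases ε
  exacts [e, ⟨e.1, Rel.neg e.2⟩]

theorem frb_ngz (h : G.Fr p Q) (L : Fld K) (y : xz.X L) :
    frb Q L (ngz L y) = ngz L (frb Q L y) := by
  obtain ⟨⟨f, rfl⟩, -⟩ := h
  have : CharP L p := charP_of_injective_algebraMap (algebraMap K L).injective p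
  exact Prod.ext rfl (map_neg (iterateFrobenius L p f) y.2)

theorem mem_frb [XA K] (h : G.Fr p Q) (h1 : 1 < Q) {L : Fld K} {y : xz.X L} (m : G.UU.mem L y) :
    G.UU.mem L (frb Q L y) :=
  ⟨⟨trivial, fun i => pow_ne_zero _ (m.1.2 i)⟩, (congrArg (· ^ Q) m.2.1).trans (one_pow Q),
    (pow_right_comm _ _ _).trans ((congrArg (· ^ Q) m.2.2).trans (XA.frob G h L y.1).symm)⟩

variable {c d : Cd} {S : ASp K c} {W : ASp K d} {j : ℕ}

theorem mp_sg (ε : Bool) : Mp (G.UU.prod S) (G.UU.prod S) fun L x => (sg ε L x.1, x.2) :=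
  ⟨fun _ _ _ _ _ _ _ e => ⟨lift_sg ε e.1, e.2⟩, fun _ _ m => ⟨mem_sg ε m.1, m.2⟩⟩

theorem pro_sg (ε : Bool) {g : ∀ L : Fld K, (xz.prod c).X L → d.X L} (h : Pro (G.UU.prod S) W g) :
    Pro (G.UU.prod S) W fun L x => g L (sg ε L x.1, x.2) := fun M O x z hO hx hz e => by
  obtain ⟨x', h1, h2⟩ := h M O (sg ε M x.1, x.2) z hO ⟨mem_sg ε hx.1, hx.2⟩ hz e
  refine ⟨(sg ε _ x'.1, x'.2), ⟨mem_sg ε h1.1, h1.2⟩, ?_, h2.2⟩
  have := lift_sg ε (R := Rel.ofPl O) h2.1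
  rwa [sg_sg] at this

theorem off (Φ : AF j ((G.UU.prod G.UU).prod W)) {L : Fld K} {A B : xz.X L} (w : d.X L)
    (h : ¬ (G.UU.mem L A ∧ G.UU.mem L B)) : Φ.a L ((A, B), w) = 0 := by
  by_contra c
  exact h (ASp.sp_some _ |>.1 (Φ.supp L _ c).2).1

theorem ce (G : GD K) : (G.e : ℂ) ≠ 0 := Nat.cast_ne_zero.2 G.e_pos.ne'

/-- The relation. -/
def AC (G : GD K) : CRel G := fun _ _ _ φ Φ => ∃ Ψ, G.Con φ Ψ ∧ G.IsAff (1 / (4 * G.e)) Ψ Φ

theorem anti {a : ℂ} {Ψ : Fe j (G.X2.prod W.sp)} {Φ : AF j ((G.UU.prod G.UU).prod W)}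
    (h : G.IsAff a Ψ Φ) (L : Fld K) (A B : xz.X L) (w : d.X L) :
    Φ.a L ((ngz L A, B), w) = -Φ.a L ((A, B), w) ∧ Φ.a L ((A, ngz L B), w) = -Φ.a L ((A, B), w) := by
  by_cases m : G.UU.mem L A ∧ G.UU.mem L B
  · rw [h L _ _ w (mem_ngz.2 m.1) m.2, h L _ _ w m.1 (mem_ngz.2 m.2), h L _ _ w m.1 m.2]
    simp only [Fintype.sum_bool, sg, sn, cond_true, cond_false, ngz_ngz]
    constructor <;> ring
  · rw [off Φ w m, off Φ w (by rwa [mem_ngz]), off Φ w (by rwa [mem_ngz]), neg_zero]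
    exact ⟨rfl, rfl⟩

theorem desc {L L₁ : Fld K} (ι : L₁ →ₐ[K] L) (A : xz.X L) (h : ∀ i, xz.co A i ∈ Set.range ι) :
    ∃ A₁ : xz.X L₁, xz.map ι A₁ = A := by
  choose z hz using h
  exact ⟨xz.mk' z, xz.inj (funext fun i => by rw [xz.co_map, xz.co_mk, hz])⟩

end XOA

open XOA in
theorem XO_thm [XA K] [XG K] [YD K] [YG K] [YH K] [YN K] [YK K] [YU K] [YL K p] [YW K] :
    XO K p where
  ex G := by
    refine ⟨AC G, fun φ => ?_, ?_, ?_, ?_, ?_, ?_⟩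
    · obtain ⟨ψ, h1⟩ := YD.psi G φ
      obtain ⟨Ξ, h2⟩ := YD.xi G ψ
      obtain ⟨Ψ, h3⟩ := YH.desc Ξ (YG.fibz h1 h2)
      obtain ⟨Φ, h4⟩ := YW.aff G (1 / (4 * G.e)) Ψ
      exact ⟨Φ, Ψ, ⟨ψ, Ξ, h1, h2, h3⟩, h4⟩
    · rintro d W j φ Φ ⟨Ψ, -, h⟩ L A B w
      exact anti h L A B w
    · rintro d d' W W' j φ φ' Φ Φ' ⟨Ψ, h1, h2⟩ ⟨Ψ', h3, h4⟩ g hg hp χ hχ L A B w hw
      by_cases m : G.UU.mem L A ∧ G.UU.mem L B
      · rw [h2 L _ _ _ m.1 m.2, h4 L _ _ _ m.1 m.2]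
        simp only [YN.nat h1 h3 hg hp χ hχ L _ w hw, Fintype.sum_bool]
        ring
      · rw [off Φ _ m, off Φ' _ m, mul_zero]
    · rintro d W j φ Φ ⟨Ψ, h1, h2⟩ q hq L L₁ L₂ ι₁ ι₂ ⟨⟨A, B⟩, w⟩ k1 k2 k3
      by_cases m : G.UU.mem L A ∧ G.UU.mem L B
      · obtain ⟨A₁, rfl⟩ := desc ι₁ A fun i => k1 (Sum.inl (Sum.inl i)) trivial
        obtain ⟨B₁, rfl⟩ := desc ι₁ B fun i => k1 (Sum.inl (Sum.inr i)) trivial
        have e : ∀ ε ε', Ψ.v L ((G.pt L (sg ε L (xz.map ι₁ A₁)), G.pt L (sg ε' L (xz.map ι₁ B₁))),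
            some w) = 0 := fun ε ε' => by
          rw [← map_sg, ← map_sg, ← GD.map_pt, ← GD.map_pt]
          exact YK.kills h1 q hq L L₁ L₂ ι₁ ι₂ (G.pt L₁ (sg ε L₁ A₁), G.pt L₁ (sg ε' L₁ B₁)) w
            (fun i c => k1 (Sum.inr i) c) (fun i c => k2 (Sum.inr i) c) k3
        rw [h2 L _ _ _ m.1 m.2]
        simp only [e, mul_zero, Finset.sum_const_zero]
      · exact off Φ _ m
    · rintro c d S W j φ Φ ⟨Ψ, h1, h2⟩ g hg hp L M α y hy R u hR hu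
      have e : ∀ ε ε', Ψ.v M ((G.pt M (sg ε M (xz.map α R)), G.pt M (sg ε' M y)),
          some (g M (y, c.map α u))) = G.e * φ.a L (g L (sg ε' L (sg ε L R), u)) := fun ε ε' => by
        have := YU.unit h1 (hg.comp (mp_sg ε')) (pro_sg ε' hp) (XG.neg hy ε') (sg ε L R) u
          (mem_sg ε hR) hu
        simp only [sg_sg] at this
        rw [← map_sg]
        exact this
      rw [h2 M _ _ _ ((G.UU.map_iff α R).2 hR) hy.mem]
      simp only [e]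
      simp only [Fintype.sum_bool, sg, sn, cond_true, cond_false, ngz_ngz]
      have := ce G
      field_simp
      ring
    · rintro d W j φ Φ ⟨Ψ, h1, h2⟩ Q hQ hF L M α y hy w hw
      have e : ∀ ε ε', sg ε M (frb Q M y) = sg (xor ε ε') M (frb Q M (sg ε' M y)) := fun ε ε' => by
        cases ε <;> cases ε' <;> simp [sg, frb_ngz hF, ngz_ngz]
      have e1 : ∀ ε ε', Ψ.v M ((G.pt M (sg ε M (frb Q M y)), G.pt M (sg ε' M y)),
          some (d.map α w)) = G.e * G.fx Q (xor ε ε') * φ.a L w := fun ε ε' => by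
        rw [e ε ε']
        exact (YL.loop h1 hQ hF (XG.neg hy ε') w hw _).1
      have e2 : ∀ ε ε', Ψ.v M ((G.pt M (sg ε M y), G.pt M (sg ε' M (frb Q M y))),
          some (d.map α w)) = G.e * G.fx Q (xor ε' ε) * φ.a L w := fun ε ε' => by
        rw [e ε' ε]
        exact (YL.loop h1 hQ hF (XG.neg hy ε) w hw _).2
      rw [h2 M _ _ _ (mem_frb hF hQ hy.mem) hy.mem, h2 M _ _ _ hy.mem (mem_frb hF hQ hy.mem)]
      simp only [e1, e2]
      simp only [Fintype.sum_bool, sn, cond_true, cond_false, Bool.xor_self, Bool.xor_false,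
        Bool.false_xor]
      have := ce G
      constructor <;> field_simp <;> ring

end Pool.Agent.Lib.MP_557161_ag.HG
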