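import Pool.Agent.Lib.MP_557161_ag.HG.StZ
import Pool.Agent.Lib.MP_557161_ag.HG.XO

/-!
The contraction with the diagonal, with its value on the diagonal.
-/

namespace Pool.Agent.Lib.MP_557161_ag.HG

open Pool.Agent.Lib.MP_557161_ag.DL

variable {K : Type} [Field K] {p : ℕ} [Fact p.Prime] [CharP K p]

open XOA in
theorem ZO_con [XA K] [XG K] [YD K] [YG K] [YH K] [YN K] [YK K] [YU K] [YL K p] [YW K]
    (G : GD K) : ConL G p (AC G) := by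
  refine ⟨fun φ => ?_, ?_, ?_, ?_, ?_, ?_⟩
  · obtain ⟨ψ, h1⟩ := YD.psi G φ
    obtain ⟨Ξ, h2⟩ := YD.xi G ψ
    obtain ⟨Ψ, h3⟩ := YH.desc Ξ (YG.fibz h1 h2)
    obtain ⟨Φ, h4⟩ := YW.aff G (1 / (4 * G.e)) Ψ
    exact ⟨Φ, Ψ, ⟨ψ, Ξ, h1, h2, h3⟩, h4⟩
  · rintro d W j φ Φ ⟨Ψ, -, h⟩ L A B w
    exact anti h L A B w
  · rintro d d' W W' j φ φ' Φ Φ' ⟨Ψ, h1, h2⟩ ⟨Ψ', h3, h4⟩ g hg hp χ hχ L A B w hw
    by_cases m : G.UU.mem L A ∧ G.UU.mem L B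
    · rw [h2 L _ _ _ m.1 m.2, h4 L _ _ _ m.1 m.2]
      simp only [YN.nat h1 h3 hg hp χ hχ L _ w hw, Fintype.sum_bool]
      ring
    · rw [off Φ _ m, off Φ' _ m, mul_zero]
  · rintro d W j φ Φ ⟨Ψ, h1, h2⟩ q hq L L₁ L₂ ι₁ ι₂ ⟨⟨A, B⟩, w⟩ k1 k2 k3
    by_cases m : G.UU.mem L A ∧ G.UU.mem L B
    · obtain ⟨A₁, rfl⟩ := desc ι₁ A fun i => k1 (Sum.inl (Sum.inl i)) trivial
      obtain ⟨B₁, rfl⟩ := desc ι₁ B fun i => k1 (Sum.inl (Sum.inr i)) trivial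
      have e : ∀ ε ε', Ψ.v L ((G.pt L (sg ε L (xz.map ι₁ A₁)), G.pt L (sg ε' L (xz.map ι₁ B₁))),
          some w) = 0 := fun ε ε' => by
        rw [← map_sg, ← map_sg, ← GD.map_pt, ← GD.map_pt]
        exact YK.kills h1 q hq L L₁ L₂ ι₁ ι₂ (G.pt L₁ (sg ε L₁ A₁), G.pt L₁ (sg ε' L₁ B₁)) w
          (fun i c => k1 (Sum.inr i) c) (fun i c => k2 (Sum.inr i) c) k3
      rw [h2 L _ _ _ m.1 m.2]
      simp only [e, mul_zero, Finset.sum_const_zero]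
    · exact off Φ _ m
  · rintro c d S W j φ Φ ⟨Ψ, h1, h2⟩ g hg hp L M α y hy R u hR hu
    have e : ∀ ε ε', Ψ.v M ((G.pt M (sg ε M (xz.map α R)), G.pt M (sg ε' M y)),
        some (g M (y, c.map α u))) = G.e * φ.a L (g L (sg ε' L (sg ε L R), u)) := fun ε ε' => by
      have := YU.unit h1 (hg.comp (mp_sg ε')) (pro_sg ε' hp) (XG.neg hy ε') (sg ε L R) u
        (mem_sg ε hR) hu
      simp only [sg_sg] at this
      rw [← map_sg]
      exact this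
    rw [h2 M _ _ _ ((G.UU.map_iff α R).2 hR) hy.mem]
    simp only [e]
    simp only [Fintype.sum_bool, sg, sn, cond_true, cond_false, ngz_ngz]
    have := ce G
    field_simp
    ring
  · rintro d W j φ Φ ⟨Ψ, h1, h2⟩ Q hQ hF L M α y hy w hw
    have e : ∀ ε ε', sg ε M (frb Q M y) = sg (xor ε ε') M (frb Q M (sg ε' M y)) := fun ε ε' => by
      cases ε <;> cases ε' <;> simp [sg, frb_ngz hF, ngz_ngz]
    have e1 : ∀ ε ε', Ψ.v M ((G.pt M (sg ε M (frb Q M y)), G.pt M (sg ε' M y)),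
        some (d.map α w)) = G.e * G.fx Q (xor ε ε') * φ.a L w := fun ε ε' => by
      rw [e ε ε']
      exact (YL.loop h1 hQ hF (XG.neg hy ε') w hw _).1
    have e2 : ∀ ε ε', Ψ.v M ((G.pt M (sg ε M y), G.pt M (sg ε' M (frb Q M y))),
        some (d.map α w)) = G.e * G.fx Q (xor ε' ε) * φ.a L w := fun ε ε' => by
      rw [e ε' ε]
      exact (YL.loop h1 hQ hF (XG.neg hy ε) w hw _).2
    rw [h2 M _ _ _ (mem_frb hF hQ hy.mem) hy.mem, h2 M _ _ _ hy.mem (mem_frb hF hQ hy.mem)]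
    simp only [e1, e2]
    simp only [Fintype.sum_bool, sn, cond_true, cond_false, Bool.xor_self, Bool.xor_false,
      Bool.false_xor]
    have := ce G
    constructor <;> field_simp <;> ring

theorem ZO_n (G : GD K) : (G.n : ℂ) = 4 * G.e ^ 2 - 6 * G.e + 3 := by
  have h1 : (G.u : ℂ) + 1 = 2 * G.e := by exact_mod_cast G.hu
  have h2 : (G.n : ℂ) + G.u = G.u * G.u + 1 := by exact_mod_cast G.hn
  linear_combination h2 + (G.u + 2 * G.e - 2) * h1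

open XOA in
theorem ZO_diag [XG K] [ZX K] [ZX2 K] (G : GD K) : DiagL G (AC G) := by
  rintro d W j φ Φ ⟨Ψ, h1, h2⟩ L M α y hy w hw
  have e1 := ZX.dg h1 hy w hw
  have e2 := ZX.dg h1 (XG.neg hy true) w hw
  have e3 := ZX2.gr h1 hy w hw
  have e4 := ZX2.gr h1 (XG.neg hy true) w hw
  rw [h2 M _ _ _ hy.mem hy.mem, ZO_n]
  simp only [Fintype.sum_bool, sg, sn, cond_true, cond_false, ngz_ngz] at e2 e4 ⊢
  rw [e1, e2, e3, e4]
  have := ce G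
  field_simp
  ring

theorem ZO_thm [XA K] [XG K] [YD K] [YG K] [YH K] [YN K] [YK K] [YU K] [YL K p] [YW K] [ZX K]
    [ZX2 K] : ZO K p where
  ex G := ⟨XOA.AC G, ZO_con G, ZO_diag G⟩

end Pool.Agent.Lib.MP_557161_ag.HG
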