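import Pool.Agent.Lib.MP_557161_ag.HG.StZ
import Pool.Agent.Lib.MP_557161_ag.HG.XS

/-!
One contraction with the diagonal, loops with equal exponents included.
-/

namespace Pool.Agent.Lib.MP_557161_ag.HG

open Pool.Agent.Lib.MP_557161_ag.DL IntermediateField XSA
open Bridge (dg dg_map)

section

variable {K : Type} [Field K] {G : GD K} {p q : ℕ} {T : Type} [Finite T] {AC : CRel G}
  {φ : AF (Nat.card T) (G.UU.pi T)} {Φ : AF (Nat.card T + 2) ((G.UU.prod G.UU).prod (G.UU.pi T))}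
  {Ψ : AF (Nat.card (Option (Option T))) (G.UU.pi (Option (Option T)))}
  {τ : Option (Option T) → Option (Option T)} {e : Option (Option T) → ℕ} {v : ℂ}
  [FA1 K] [FA3 K] [XG K] [XV K p]

lemma ZS_loop (hA : ConL G p AC) (hD : DiagL G AC) (hc : AC φ Φ)
    (hΨ : ∀ L x, Ψ.a L x = Φ.a L (spl L x)) (h1 : 1 < q) (hq : G.Fr p q) {τ' : T → T} (hτ : Inv τ') (t1 : τ none = some none)
    (t2 : ∀ t, τ (some (some t)) = some (some (τ' t))) {m : ℕ}
    (he : e none = m ∧ e (some none) = 0 ∨ e none = 0 ∧ e (some none) = m)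
    (h : DV G q φ.a τ' (fun t => e (some (some t))) v) :
    DV G q Ψ.a τ e (G.PP q m * v / 2) := by
  intro L P hL hP hi
  by_cases h0 : dg (xf L P) = 0
  · rw [dg_zero hq Ψ e hL hP h0, h0, Nat.cast_zero, zero_mul]
  rw [Finite.card_option, Finite.card_option] at hL
  have e1 : P (some none) = P none := t1 ▸ hi none
  obtain ⟨L₁, M, α, κ, y, W, g1, g2, g3, g4⟩ := split hτ hL (P := P) (y := P none)
    (W := fun t => P (some (some t))) (fun _ => hP _) (hP _) (fun t => t2 t ▸ hi _)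
    (by rintro (_ | _ | t); exacts [Or.inl rfl, Or.inl e1, Or.inr ⟨t, rfl⟩]) ⟨_, rfl⟩
    (fun _ => ⟨_, rfl⟩) h0
  have k1 : ∀ t, G.UU.mem L₁ (W t) := fun t =>
    (G.UU.map_iff α _).1 ((G.UU.map_iff κ _).1 (g3 t ▸ hP _))
  have k2 := h L₁ W g1.gL k1 fun t => xz.map_inj α.injective (xz.map_inj κ.injective
    (((g3 _).trans (t2 t ▸ hi _)).trans (g3 _).symm))
  have k5 := (cfg_mp hq fun t => e (some (some t))).1.mem L₁ W k1
  have k3 : ∀ w, (G.UU.pi T).mem L₁ w →
      Φ.a M ((frb (q ^ m) M y, y), (Cd.pi T xz).map α w) = G.PP q m * φ.a L₁ w ∧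
      Φ.a M ((y, frb (q ^ m) M y), (Cd.pi T xz).map α w) = G.PP q m * φ.a L₁ w := fun w hw => by
    rcases eq_or_ne m 0 with rfl | hm
    · rw [frb_zero, and_self, GD.PP, if_pos rfl]
      exact hD hc g1 w hw
    · rw [GD.PP, if_neg hm]
      exact hA.loop hc (Nat.one_lt_pow hm h1) (XV.pow hq m) g1 w hw
  have k4 : ∀ A B : xz.X M, cfg q e L P none = xz.map κ A → cfg q e L P (some none) = xz.map κ B →
      Ψ.a L (cfg q e L P) = deg κ * Φ.a M ((A, B),
        (Cd.pi T xz).map α (cfg q (fun t => e (some (some t))) L₁ W)) := fun A B a b => by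
    refine (hΨ _ _).trans (Eq.trans (congrArg (Φ.a L) ?_) (Φ.ext κ (some _) g1.gM hL))
    refine Prod.ext (Prod.ext a b) (funext fun t => ?_)
    exact ((frb_map κ _ _).symm.trans (congrArg _ (frb_map α _ _).symm)).symm.trans
      (congrArg _ (g3 t)) |>.symm
  rw [g4]
  rcases he with he | he
  · rw [k4 (frb (q ^ m) M y) y (by rw [cfg, he.1, frb_map, g2]) (by rw [cfg, he.2, frb_zero, e1, g2]),
      (k3 _ k5).1, k2]
    push_cast
    ring
  · rw [k4 y (frb (q ^ m) M y) (by rw [cfg, he.1, frb_zero, g2])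
      (by rw [cfg, he.2, frb_map, e1, g2]), (k3 _ k5).2, k2]
    push_cast
    ring

end

theorem ZS_thm {K : Type} [Field K] {p : ℕ} [FA1 K] [FA3 K] [XG K] [XV K p] [XW K p] [ZO K p] :
    ZS K p := ⟨fun {G q} h1 hq T _ _ φ ha => by
  obtain ⟨AC, hA, hD⟩ := ZO.ex (p := p) G
  obtain ⟨Φ, hc⟩ := hA.ex φ
  obtain ⟨Ψ, hΨ⟩ := ex_pull Φ
  have e0 : Ψ.a = fun L x => Φ.a L (spl L x) := funext₂ hΨ
  refine ⟨Ψ, e0 ▸ anti hA hc ha, fun sd s h => e0 ▸ kills hA hc sd s h, fun τ e v hτ h => ?_⟩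
  by_cases c : Lp τ
  · have t0 : τ none = some none := c
    have t1 : τ (some none) = none := t0 ▸ (hτ _).1
    have t2 := fun t : T => ss hτ e (t := t) (by simp [t0]) (by simp [t1])
    have hτ' : Inv (rτ τ) := fun t => ⟨by simpa [(t2 _).1] using (hτ (some (some t))).1,
      by simpa [(t2 _).1] using (hτ (some (some t))).2⟩
    rw [funext fun t => (t2 t).2] at h
    obtain ⟨x, m, he, hv⟩ : ∃ x m, (e none = x + m ∧ e (some none) = x ∨
        e none = x ∧ e (some none) = x + m) ∧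
        lamP q (G.PP q) (e none) (e (some none)) = (q : ℂ) ^ (2 * x) * G.PP q m := by
      rcases le_total (e none) (e (some none)) with k | k
      · exact ⟨_, _, Or.inr ⟨rfl, (Nat.add_sub_cancel' k).symm⟩,
          by rw [lamP, min_eq_left k, max_eq_right k]⟩
      · exact ⟨_, _, Or.inl ⟨(Nat.add_sub_cancel' k).symm, rfl⟩,
          by rw [lamP, min_eq_right k, max_eq_left k]⟩
    have k := (XW.shift hq Ψ hτ (fun t => t.elim (e none - x) fun t =>
      t.elim (e (some none) - x) fun t => e (some (some t))) e none x _ (by simp; omega)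
      (by simp [t0]; omega) (by rintro (_ | _ | t) a b <;> simp_all)).2
      (ZS_loop hA hD hc hΨ h1 hq hτ' t0 (fun t => (t2 t).1) (m := m) (by simp; omega) h)
    rwa [if_pos c, hv, mul_assoc, mul_div_assoc]
  obtain ⟨i, t1⟩ : ∃ i, τ none = some (some i) := by
    rcases k : τ none with _ | _ | i
    exacts [absurd k (hτ _).2, absurd k c, ⟨i, rfl⟩]
  obtain ⟨j, t2⟩ : ∃ i, τ (some none) = some (some i) := by
    rcases k : τ (some none) with _ | _ | i
    exacts [absurd ((congrArg τ k).symm.trans (hτ _).1) c, absurd k (hτ _).2, ⟨i, rfl⟩]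
  have t3 : τ (some (some i)) = none := t1 ▸ (hτ _).1
  have t4 : τ (some (some j)) = some none := t2 ▸ (hτ _).1
  have n : i ≠ j := fun k => by simp [← k, t3] at t4
  have r1 : rτ τ i = j := by simp [rτ, t2, t3]
  have r2 : rτ τ j = i := by simp [rτ, t1, t4]
  have t5 := fun (t : T) (a : t ≠ i) (b : t ≠ j) =>
    ss hτ e (t := t) (by simp [t1, a.symm]) (by simp [t2, b.symm])
  have hτ' : Inv (rτ τ) := fun t => by
    by_cases a : t = i
    · simp [a, r1, r2, n.symm]
    by_cases b : t = j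
    · simp [b, r1, r2, n]
    have k := hτ (some (some t))
    rw [(t5 t a b).1] at k
    rw [(t5 _ (fun u => by simp [u, t3] at k) fun u => by simp [u, t4] at k).1] at k
    simpa using k
  let f : T → ℕ := fun t => (if t = i then e none else 0) + if t = j then e (some none) else 0
  obtain ⟨φ', d1, d2⟩ := XV.desc hq φ f
  obtain ⟨Φ', hc'⟩ := hA.ex φ'
  obtain ⟨Ψ', hΨ'⟩ := ex_pull Φ'
  obtain ⟨w, rfl⟩ : ∃ w, v = (q : ℂ) ^ (2 * (e none + e (some none))) * w :=
    ⟨_, (mul_div_cancel₀ _ (pow_ne_zero _ (Nat.cast_ne_zero.2 (by omega)))).symm⟩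
  have k1 := (XW.shift hq φ' hτ' (fun t => e (some (some t))) (fun t => re τ e t + f t) i
    (e none + e (some none)) w (by simp [re, t3, f, n]; omega)
    (by simp [r1, re, t4, f, n.symm]; omega)
    fun t a b => by simp [(t5 t a (r1 ▸ b)).2, f, a, r1 ▸ b]).1
    fun L P a b c => by rw [← cfg_cfg, ← d1]; exact h L P a b c
  have k2 := (shift hq Ψ' hτ _ (some none) (e (some none)) _).2 ((shift hq Ψ' hτ _ none (e none) _).2
    (path0 (e := fun t => (Option.bind t id).elim 0 fun t => e (some (some t))) hA hc' hΨ' hq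
      (d2 ha) hτ' t1 (r1 ▸ t2) (fun t a b => (t5 t a (r1 ▸ b)).1) rfl rfl k1))
  intro L P a b u
  refine Eq.trans ?_ ((k2 L P a b u).trans (by rw [if_neg c]; ring))
  rw [hΨ, hΨ']
  refine (hA.nat hc' hc (cfg_mp hq f).1 (cfg_mp hq f).2 1 (fun L w _ => by rw [one_mul, d1]) L _ _ _
    ((cfg_mp hq fun t => e (some (some t))).1.mem L _ fun t => b _)).trans
    ((one_mul _).trans (congrArg (Φ'.a L) ?_))
  rw [cfg_cfg]
  refine Prod.ext (Prod.ext ?_ ?_) (funext fun t => ?_) <;>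
    simp [spl, cfg, f, t1, t2, add_assoc]⟩

end Pool.Agent.Lib.MP_557161_ag.HG
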