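import Pool.Agent.Lib.MP_557161_ag.HG.StZ
import Pool.Agent.Lib.MP_557161_ag.HG.XV

/-!
Descent along Frobenius.
-/

namespace Pool.Agent.Lib.MP_557161_ag.HG

open Pool.Agent.Lib.MP_557161_ag.DL

variable {K : Type} [Field K] {p : ℕ} [Fact p.Prime] [CharP K p] {G : GD K} {q : ℕ}

namespace ZVA

/-- The elements that are algebraic over the image of a field. -/
theorem clos [FA1 K] {L₁ L : Fld K} (ι : L₁ →ₐ[K] L) : ∃ F : IntermediateField K L,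
    (L.sub F).tr ≤ L₁.tr ∧ ∀ (a : L) (n : ℕ), n ≠ 0 → a ^ n ∈ Set.range ι → a ∈ F := by
  refine ⟨(algebraicClosure ι.fieldRange L).restrictScalars K,
    (FA1.tr_mono ι.fieldRange _ fun _ hx => mem_algebraicClosure_iff.1 hx).trans
      (tr_le (L := L.sub ι.fieldRange) (L' := L₁) ι.equivFieldRange.symm.toAlgHom),
    fun a n hn ⟨b, hb⟩ => mem_algebraicClosure_iff.2 (IsAlgebraic.of_pow (Nat.pos_of_ne_zero hn) ?_)⟩
  exact isAlgebraic_algebraMap (⟨a ^ n, b, hb⟩ : ι.fieldRange)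

omit [Fact p.Prime] [CharP K p] in
theorem co_pow {T : Type} [Finite T] (e : T → ℕ) {L : Fld K} (x : T → xz.X L)
    (s : (Cd.pi T xz).ι) :
    (Cd.pi T xz).co (cfg q e L x) s = (Cd.pi T xz).co x s ^ q ^ e s.1 := by
  obtain ⟨t, i | i⟩ := s <;> rfl

theorem kls [Base K] [FA1 K] [XA K] (h : G.Fr p q) {T : Type} [Finite T] {j : ℕ}
    {φ ψ : AF j (G.UU.pi T)} {e : T → ℕ} (hψ : ∀ L x, φ.a L x = ψ.a L (cfg q e L x))
    (sd : T → Bool) (hk : KlS sd φ.a) : KlS sd ψ.a := by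
  intro L L₁ L₂ ι₁ ι₂ x h1 h2 h3
  by_cases m : Good j L ∧ (G.UU.pi T).mem L x
  · obtain ⟨L', ι, _, a1, ⟨x', rfl, -⟩, a3⟩ :=
      CKL.surj_lift ((XVA.csrj h e).mor (XVA.cmp h e)) ((ASp.sp_some _).2 m.2)
    have a4 : cfg q e L' x' = (Cd.pi T xz).map ι x := Option.some.inj a3
    have v : ψ.a L' ((Cd.pi T xz).map ι x) = deg ι * ψ.a L x :=
      ψ.ext ι (some x) m.1 (m.1.of_fin a1)
    obtain ⟨F₁, b1, c1⟩ := clos (ι.comp ι₁)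
    obtain ⟨F₂, b2, c2⟩ := clos (ι.comp ι₂)
    have k : ∀ {L₀ : Fld K} (κ : L₀ →ₐ[K] L) (s : (Cd.pi T xz).ι),
        (Cd.pi T xz).co x s ∈ Set.range κ →
        (Cd.pi T xz).co x' s ^ q ^ e s.1 ∈ Set.range (ι.comp κ) := fun κ s ⟨b, hb⟩ =>
      ⟨b, by rw [← co_pow, a4, Cd.co_map, ← hb]; rfl⟩
    have n0 : ∀ s : (Cd.pi T xz).ι, q ^ e s.1 ≠ 0 := fun s => pow_ne_zero _ (XVA.ne h)
    refine (mul_eq_zero.1 ?_).resolve_left (deg_ne a1)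
    rw [← v, ← a4, ← hψ]
    exact hk L' (L'.sub F₁) (L'.sub F₂) F₁.val F₂.val x'
      (fun s c => ⟨⟨_, c1 _ _ (n0 s) (k ι₁ s (h1 s c))⟩, rfl⟩)
      (fun s c => ⟨⟨_, c2 _ _ (n0 s) (k ι₂ s (h2 s c))⟩, rfl⟩) ((add_le_add b1 b2).trans h3)
  · exact not_not.1 fun c => m ⟨(ψ.supp _ _ c).1, (ASp.sp_some _).1 (ψ.supp _ _ c).2⟩

end ZVA

theorem ZV_thm [Base K] [FW0 K] [XA K] [XV K p] : ZV K p where
  desc {_ _} h _ _ _ _ φ e := by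
    obtain ⟨ψ, hψ, ha⟩ := XV.desc h φ e
    exact ⟨ψ, hψ, ha, ZVA.kls h hψ⟩

end Pool.Agent.Lib.MP_557161_ag.HG
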