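import Pool.Agent.Lib.MP_557161_ag.HG.StZ
import Pool.Agent.Lib.MP_557161_ag.HG.YA
import Pool.Agent.Lib.MP_557161_ag.HG.YU
import Pool.Agent.Lib.MP_557161_ag.HG.FC6

/-!
The self intersection of the diagonal.
-/

namespace Pool.Agent.Lib.MP_557161_ag.HG

open Pool.Agent.Lib.MP_557161_ag.DL MvPolynomial Submodule

namespace ZXa

variable {K : Type} [Field K] {G : GD K} {L M N : Fld K} {d : Cd} {W : ASp K d} {j : ℕ} {ε : Bool}

lemma two_ne (G : GD K) (L : Fld K) : (2 : L) ≠ 0 := fun e =>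
  G.ch ((algebraMap K L).injective (by
    rw [map_natCast, Nat.cast_mul, Nat.cast_mul, Nat.cast_mul, Nat.cast_ofNat, e]
    simp))

lemma tv_rel {R : Rel M N} {y v : xz.X M} {y' v' : xz.X N} (e : xz.lift R.r y y')
    (e' : xz.lift R.r v v') (s : G.σ × G.σ) : R.r (G.tv y v s) (G.tv y' v' s) :=
  Rel.sub (R.mul (YAp.nu_rel e _) (YAp.dnu_rel e e' _))
    (R.mul (YAp.nu_rel e _) (YAp.dnu_rel e e' _))

lemma vf_rel {R : Rel M N} {y : xz.X M} {y' : xz.X N} (e : xz.lift R.r y y') :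
    xz.lift R.r (G.vf M y) (G.vf N y') :=
  ⟨fun i => by fin_cases i; exacts [R.mul R.two e.2, R.zero, R.mul R.two e.2], Rel.aeval e.1 _⟩

lemma v_rel (R : Rel M N) (i : Fin 3) : R.r (![1, 0, 1] i) (![1, 0, 1] i) := by
  fin_cases i
  exacts [R.one, R.zero, R.one]

/-- The two zeros of the vector field outside the branch curve. -/
def rr (ε : Bool) (L : Fld K) : xz.X L := sg ε L (![1, 0, 1], 1)

lemma rr_rel (R : Rel M N) : xz.lift R.r (rr ε M) (rr ε N) := by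
  cases ε
  exacts [⟨v_rel R, R.one⟩, ⟨v_rel R, Rel.neg R.one⟩]

lemma rr_map (κ : L →ₐ[K] M) : xz.map κ (rr ε L) = rr ε M := (Cd.lift_hom κ).1 (rr_rel _)

lemma rr_one : (rr ε L).1 = ![1, 0, 1] := by cases ε <;> rfl

lemma rr_two : (rr ε L).2 ≠ 0 := by
  cases ε
  exacts [one_ne_zero, neg_ne_zero.2 one_ne_zero]

lemma un {O : Pl M} {u : M} {u' : O.res} (h : (Rel.ofPl O).r u u') (n : u' ≠ 0) : O.ord u = 0 :=
  have := (O.rd_ne_zero_iff h.1).1 (h.2 ▸ n)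
  Pl.ord_eq_zero_of_mem this.1 h.1 this.2

lemma th0 {P : Sp ((Sub K (Fin 3)).prod (d.amb K))} (ϑ : Fe (j + 1) P) (ι : L →ₐ[K] N)
    (hL : L.tr ≤ j) (x : Fin 3 → L) (w : d.X L) {c : N} (c0 : c ≠ 0) {x' : Fin 3 → N}
    (e : x' = c • mapV ι.toRingHom x) : ϑ.v N (span N {x'}, some (d.map ι w)) = 0 := by
  rw [e, span_singleton_smul_eq c0.isUnit, ← smap_single]
  exact ϑ.low ι (span L {x}, some w) (hL.trans_lt (by exact_mod_cast j.lt_succ_self))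

lemma tn {O : Pl M} {A v : xz.X M} {A' v' : xz.X O.res} {ρ : M} (hA : G.Cn M A)
    (hm : G.Cn M (mv A ρ v)) (l : xz.lift (Rel.ofPl O).r A A') (lv : xz.lift (Rel.ofPl O).r v v')
    (ρ0 : ρ ≠ 0) (hρ : (Rel.ofPl O).r ρ 0) : G.Tn O.res A' v' := by
  obtain ⟨q, hq, eq⟩ := YAp.poly_taylor (fun i => (l.1 i).1) (fun i => (lv.1 i).1) hρ.1 G.F
  have h2 : (A.2 + ρ * v.2) ^ 2 = aeval (A.1 + ρ • v.1) G.F := hm.2
  rw [eq, ← hA.2] at h2
  have h3 : 2 * A.2 * v.2 + ρ * v.2 ^ 2 = ∑ j, aeval A.1 (pderiv j G.F) * v.1 j + ρ * q :=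
    mul_left_cancel₀ ρ0 (by linear_combination h2)
  have h4 := Rel.eq ((Rel.ofPl O).add ((Rel.ofPl O).mul ((Rel.ofPl O).mul (Rel.two _) l.2) lv.2)
    ((Rel.ofPl O).mul hρ (Rel.pow lv.2 2))) ((Rel.ofPl O).add (Rel.sum Finset.univ fun j _ =>
      (Rel.ofPl O).mul (Rel.aeval l.1 (pderiv j G.F)) (lv.1 j))
      ((Rel.ofPl O).mul hρ ⟨hq, rfl⟩)) h3
  rw [zero_mul, zero_mul, add_zero, add_zero] at h4
  exact h4

lemma hs_mul {β : Type} {g : β → ℂ} {r : ℂ} (h : HasS g r) (a : ℂ) :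
    HasS (fun b => a * g b) (a * r) :=
  ⟨h.1.subset fun _ hb => right_ne_zero_of_mul hb, by rw [← mul_finsum, h.2]⟩

lemma hs_single {β : Type} [DecidableEq β] (b : β) (a : ℂ) :
    HasS (fun b' => if b' = b then a else 0) a :=
  ⟨(Set.finite_singleton b).subset fun _ hb => by_contra fun e => hb (if_neg e),
    (finsum_eq_single _ b fun _ e => if_neg e).trans (if_pos rfl)⟩

lemma hs_add {β : Type} {g g' : β → ℂ} {a a' : ℂ} (h : HasS g a) (h' : HasS g' a') :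
    HasS (fun b => g b + g' b) (a + a') :=
  ⟨(h.1.union h'.1).subset (Function.support_add g g'), by
    rw [finsum_add_distrib h.1 h'.1, h.2, h'.2]⟩

/-- The multiplicity of a place. -/
noncomputable def zc (G : GD K) (O : Pl M) (y : xz.X M) : ℤ :=
  O.ord y.2⁻¹ - ordv O (G.nu y) - ordv O (G.nu y) + ordv O (G.tv y (G.vf M y))

variable [FB3 K]

lemma vec {O : Pl M} (hO : O.IsDVR) {σ : Type} [Finite σ] {x t : σ → M} {t' : σ → O.res} {a r : M}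
    (a0 : a ≠ 0) (r0 : r ≠ 0) (n : t' ≠ 0) (l : ∀ s, (Rel.ofPl O).r (t s) (t' s))
    (e : a • x = r • t) :
    ordv O x = O.ord r - O.ord a ∧ (Sub K σ).red O (span M {x}) = span O.res {t'} := by
  obtain rfl : rdV O t = t' := funext fun s => (l s).2
  have i : IntV O t := fun s => (l s).1
  have t0 : t ≠ 0 := fun e => n (e ▸ rdV_zero O)
  have x0 : x ≠ 0 := fun e' => smul_ne_zero r0 t0 (by rw [← e, e', smul_zero])
  have h := FB3.ordv_smul hO x0 a0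
  rw [e, FB3.ordv_smul hO t0 r0, FB3.ordv_prim hO i n] at h
  refine ⟨by omega, ?_⟩
  rw [← span_singleton_smul_eq a0.isUnit x, e, span_singleton_smul_eq r0.isUnit]
  exact sred_single i n

variable [ZE K]

omit [FB3 K] in
lemma rr_cn : G.Cn L (rr ε L) := by
  cases ε
  exacts [ZE.base G L, YAp.cn_ngz (ZE.base G L)]

omit [FB3 K] in
lemma rr_inj {ε' : Bool} (e : G.pt L (rr ε L) = G.pt L (rr ε' L)) : ε = ε' := by
  have := congrArg Prod.snd (YAp.eq_of (k := 0) rr_cn rr_cn (by simp [rr_one]) (by simp [rr_one]) e)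
  cases ε <;> cases ε' <;> try rfl
  · have h : (1 : L) = -1 := this
    exact absurd (by linear_combination h) (two_ne G L)
  · have h : (-1 : L) = 1 := this
    exact absurd (by linear_combination -h) (two_ne G L)

lemma prim {O : Pl M} (hO : O.IsDVR) {y : xz.X M} (cy : G.Cn M y) (z0 : y.2 ≠ 0) {c : M}
    (c0 : c ≠ 0) {y' : xz.X O.res} (l : xz.lift (Rel.ofPl O).r (G.scl c y) y') (n : y'.1 ≠ 0) :
    G.Cn O.res y' ∧ (Sub K G.σ).red O (G.pt M y) = G.pt O.res y' ∧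
      (Sub K (Fin 3)).red O (span M {y.1}) = span O.res {y'.1} ∧ ordv O y.1 = -O.ord c ∧
      O.ord y.2 = O.ord (G.scl c y).2 - G.e * O.ord c ∧
      ∀ (r : M) (t : G.σ × G.σ → M) (t' : G.σ × G.σ → O.res), r ≠ 0 → t' ≠ 0 →
        (∀ s, (Rel.ofPl O).r (t s) (t' s)) → G.tv (G.scl c y) (G.vf M (G.scl c y)) = r • t →
        zc G O y = O.ord c - O.ord (G.scl c y).2 + O.ord r ∧
        (Sub K (G.σ × G.σ)).red O (span M {G.tv y (G.vf M y)}) = span O.res {t'} := by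
  obtain ⟨a1, a2⟩ := vec hO (x := y.1) c0 one_ne_zero n l.1 (one_smul _ _).symm
  obtain ⟨b1, b2⟩ := vec hO (x := G.nu y) (pow_ne_zero G.e c0) one_ne_zero (G.nu_ne n)
    (YAp.nu_rel l) ((G.nu_scl c y).symm.trans (one_smul _ _).symm)
  have z : O.ord (G.scl c y).2 = G.e * O.ord c + O.ord y.2 :=
    (Pl.ord_mul hO (pow_ne_zero _ c0) z0).trans (by rw [Pl.ord_pow hO])
  rw [C6.ord_one] at a1 b1
  refine ⟨⟨n, Rel.eq (Rel.pow l.2 2) (Rel.aeval l.1 _) (cy.scl c0).2⟩, b2, a2, by omega, by omega,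
    fun r t t' r0 n' l' e => ?_⟩
  obtain ⟨c1, c2⟩ := vec hO (pow_ne_zero _ c0) r0 n' l' ((ZE.scl G M y c).symm.trans e)
  refine ⟨?_, c2⟩
  have k : ((3 * G.e - 1 : ℕ) : ℤ) = 3 * G.e - 1 := by have := G.e_pos; omega
  rw [zc, c1, b1, z, Pl.ord_inv hO, Pl.ord_pow hO, Pl.ord_pow hO, k]
  ring

lemma rad {O : Pl M} (hO : O.IsDVR) {y v : xz.X M} (cy : G.Cn M y) (x0 : y.1 0 = 1) {a ρ : M}
    (a0 : a ≠ 0) (ρ0 : ρ ≠ 0) (hρ : (Rel.ofPl O).r ρ 0) {v' : xz.X O.res}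
    (lv : xz.lift (Rel.ofPl O).r v v') (e : G.scl a y = mv (rr ε M) ρ v)
    (n : G.tv (rr ε O.res) v' ≠ 0) :
    y.2 ≠ 0 ∧ zc G O y = O.ord ρ ∧ (Sub K G.σ).red O (G.pt M y) = G.pt O.res (rr ε O.res) ∧
      (Sub K (Fin 3)).red O (span M {y.1}) = span O.res {(rr ε O.res).1} ∧
      (Sub K (G.σ × G.σ)).red O (span M {G.tv y (G.vf M y)}) =
        span O.res {G.tv (rr ε O.res) v'} := by
  have lA := rr_rel (ε := ε) (Rel.ofPl O)
  have l : xz.lift (Rel.ofPl O).r (G.scl a y) (rr ε O.res) := by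
    rw [e]
    exact ⟨fun i => by simpa [mv] using (Rel.ofPl O).add (lA.1 i) ((Rel.ofPl O).mul hρ (lv.1 i)),
      by simpa [mv] using (Rel.ofPl O).add lA.2 ((Rel.ofPl O).mul hρ lv.2)⟩
  have z0 : y.2 ≠ 0 :=
    right_ne_zero_of_mul (Rel.ne_zero (R := Rel.ofPl O) (a := a ^ G.e * y.2) l.2 rr_two)
  have t : 2 * (rr ε O.res).2 * v'.2 = ∑ i, aeval (rr ε O.res).1 (pderiv i G.F) * v'.1 i :=
    tn (G := G) rr_cn (e ▸ cy.scl a0) lA lv ρ0 hρ
  have u := mul_ne_zero (two_ne G O.res) (rr_two (ε := ε) (L := O.res))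
  have e1 : G.tv (rr ε O.res) ((2 * (rr ε O.res).2) • v'.1, 2 * (rr ε O.res).2 * v'.2) =
      (2 * (rr ε O.res).2) • G.tv (rr ε O.res) v' := by
    rw [GD.tv, G.dnu_smul, ← one_smul O.res (G.nu _), wdg_smul, one_mul]
    rfl
  obtain ⟨-, p1, p2, -, -, p3⟩ := prim hO cy z0 a0 l (rr_cn (G := G)).1
  obtain ⟨q1, q2⟩ := p3 ρ _ _ ρ0 (neg_ne_zero.2 (e1 ▸ smul_ne_zero u n))
    (fun s => Rel.neg (tv_rel l ⟨fun i => (Rel.ofPl O).mul ((Rel.ofPl O).mul (Rel.two _) l.2)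
      (lv.1 i), t ▸ Rel.sum Finset.univ fun i _ =>
        (Rel.ofPl O).mul (Rel.aeval l.1 (pderiv i G.F)) (lv.1 i)⟩ s))
    ((ZE.rad G M _ v ρ (cy.scl a0) (by rw [e, ← rr_one (ε := ε)]; rfl)).trans
      ((neg_smul _ _).trans (smul_neg _ _).symm))
  have o : O.ord a = 0 := un (u' := 1) (by simpa [GD.scl, x0, rr_one] using l.1 0) one_ne_zero
  refine ⟨z0, by rw [q1, o, un l.2 rr_two, sub_zero, zero_add], p1, p2, ?_⟩
  rw [q2, e1, ← neg_smul, span_singleton_smul_eq (neg_ne_zero.2 u).isUnit]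

variable {φ : AF j W} {ψ : Fe (j + 1) (G.EE.prod W.sp)}
  {ϑ : Fe (j + 1) ((Lines K (Fin 3)).prod W.sp)}

lemma far [YA K] [ZX1 K] (h1 : G.IsPsi φ ψ) (hϑ : IsH φ ϑ) {O : Pl M} (hO : O.IsDVR)
    (gN : Good (j + 1) O.res) (ι : L →ₐ[K] O.res) (hL : L.tr ≤ j) {w : d.X L} (hw : W.mem L w)
    {y : xz.X M} (cy : G.Cn M y) (z0 : y.2 ≠ 0) (x0 : y.1 0 = 1)
    (hf : ∀ ε, (Sub K G.σ).red O (G.pt M y) ≠ G.pt O.res (rr ε O.res)) :
    (zc G O y : ℂ) * ψ.v O.res ((((Sub K G.σ).red O (G.pt M y), (Sub K G.σ).red O (G.pt M y)),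
        (Sub K (G.σ × G.σ)).red O (span M {G.tv y (G.vf M y)})), some (d.map ι w)) =
      (2 * G.e - G.e ^ 2 * (3 - 2 * G.e)) * (((-ordv O y.1 : ℤ) : ℂ) *
        ϑ.v O.res ((Sub K (Fin 3)).red O (span M {y.1}), some (d.map ι w))) +
      -(G.e * (3 - 2 * G.e)) * ((O.ord y.2 : ℂ) *
        ϑ.v O.res ((Sub K (Fin 3)).red O (span M {y.1}), some (d.map ι w))) := by
  obtain ⟨c, c0, i, n⟩ := YA.prim O cy
  have l := YAp.lift_rd (cy.scl c0) i
  obtain ⟨p0, p1, p2, p3, p4, p5⟩ := prim hO cy z0 c0 l n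
  generalize xz.map O.rd (G.scl c y) = y' at l p0 p1 p2 p5
  have hw' := (W.map_iff ι w).2 hw
  have lc : (Rel.ofPl O).r c (y'.1 0) := by simpa [GD.scl, x0] using l.1 0
  have zs : (G.scl c y).2 ≠ 0 := mul_ne_zero (pow_ne_zero _ c0) z0
  have sp := ZE.split G M (G.scl c y)
  rw [p1, p2, p3, p4]
  by_cases b0 : G.tv y' (G.vf O.res y') = 0
  · rcases ZE.zero G _ y' p0 b0 with ⟨k1, k2⟩ | ⟨c', ε, k1, k2⟩
    swap
    · exact absurd (p1.trans (k2 ▸ GD.pt_scl _ k1)) (hf ε)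
    have f0 : aeval y'.1 G.F = 0 := by rw [← p0.2, k1, zero_pow two_ne_zero]
    obtain ⟨c', x₀, k3, k4, k5⟩ := ZE.crit G _ y'.1 p0.1 f0 k2
    have t0 := th0 ϑ ι hL (fun i => algebraMap K L (x₀ i)) w k3 (x' := y'.1)
      (k5.trans (funext fun i => congrArg (c' * ·) (ι.commutes _).symm))
    have ind := LinearIndependent.pair_iff.1 (ZE.ind G _ y'.1 p0.1 f0)
    rw [show (y'.1, (0 : O.res)) = y' from Prod.ext rfl k1.symm] at ind
    have r1 := tv_rel (G := G) l (v := (![1, 0, 1], 0)) (v' := (![1, 0, 1], 0))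
      ⟨v_rel _, (Rel.ofPl O).zero⟩
    have r2 := tv_rel (G := G) l (v := (0, 1)) (v' := (0, 1))
      ⟨fun _ => (Rel.ofPl O).zero, (Rel.ofPl O).one⟩
    rw [t0, mul_zero, mul_zero, mul_zero, mul_zero, add_zero]
    by_cases hq : aeval (G.scl c y).1 G.dF / (G.scl c y).2 ∈ O.O
    · obtain ⟨q1, -⟩ := p5 _ _ _ zs (fun e => two_ne G _ (ind _ _ e).1)
        (fun s => (Rel.ofPl O).add ((Rel.ofPl O).mul (Rel.two _) (r1 s))
          ((Rel.ofPl O).mul ⟨hq, rfl⟩ (r2 s)))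
        (sp.trans (funext fun s => by
          simp only [Pi.add_apply, Pi.smul_apply, smul_eq_mul]; field_simp))
      rw [q1, un lc (by simp [k5, k4, k3])]
      simp
    · have d0 : aeval (G.scl c y).1 G.dF ≠ 0 := fun e => hq (by rw [e, zero_div]; exact zero_mem _)
      have m := (O.O.mem_or_inv_mem _).resolve_left hq
      have m0 : O.rd (aeval (G.scl c y).1 G.dF / (G.scl c y).2)⁻¹ = 0 :=
        by_contra fun e => hq (by simpa using ((O.rd_ne_zero_iff m).1 e).2)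
      obtain ⟨-, q2⟩ := p5 _ _ (G.tv y' (0, 1)) d0
        (fun e => one_ne_zero (ind 0 1 (by rw [zero_smul, one_smul, zero_add]; exact e)).2)
        (fun s => by
          simpa using (Rel.ofPl O).add ((Rel.ofPl O).mul ((Rel.ofPl O).mul (Rel.two _) ⟨m, m0⟩)
            (r1 s)) (r2 s))
        (sp.trans (funext fun s => by
          simp only [Pi.add_apply, Pi.smul_apply, smul_eq_mul]; field_simp))
      rw [q2, ZX1.ram h1 hϑ gN p0 k1 hw', t0, mul_zero, mul_zero]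
  · obtain ⟨q1, q2⟩ := p5 1 _ _ one_ne_zero b0 (tv_rel l (vf_rel l)) (one_smul _ _).symm
    have hC : (O.ord c : ℂ) * ψ.v O.res (((G.pt _ y', G.pt _ y'),
        span O.res {G.tv y' (G.vf O.res y')}), some (d.map ι w)) =
        O.ord c * (2 * G.e * ϑ.v O.res (span O.res {y'.1}, some (d.map ι w))) := by
      by_cases k : y'.1 0 = 0
      · rw [ZX1.lin h1 hϑ gN p0 k hw']
      · simp [un lc k]
    have hZ : (O.ord (G.scl c y).2 : ℂ) * ψ.v O.res (((G.pt _ y', G.pt _ y'),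
        span O.res {G.tv y' (G.vf O.res y')}), some (d.map ι w)) = O.ord (G.scl c y).2 *
        (G.e * (3 - 2 * G.e) * ϑ.v O.res (span O.res {y'.1}, some (d.map ι w))) := by
      by_cases k : y'.2 = 0
      · have e := ZE.split G _ y'
        rw [k, mul_zero, zero_smul, zero_add] at e
        rw [e, span_singleton_smul_eq (left_ne_zero_of_smul (e ▸ b0)).isUnit,
          ZX1.ram h1 hϑ gN p0 k hw']
      · simp [un l.2 k]
    rw [q1, q2, C6.ord_one]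
    push_cast
    linear_combination hC - hZ

end ZXa

open ZXa in
theorem ZX_thm {K : Type} [Field K] [Base K] [FW0 K] [YA K] [YB K] [YF K] [YP K] [ZE K] [ZH K]
    [ZX1 K] : ZX K :=
  ⟨fun {G d W j φ Ψ} ⟨ψ, Ξ, h1, h2, h3⟩ L M α y hy w hw => by
    classical
    obtain ⟨ϑ, hϑ, hs⟩ := ZH.ex φ
    choose O h v₀ v₁ T a ρ v f t1 t2 a0 o1 iv e1 e2 un using
      fun ε => YP.pt hy (rr ε L) (rr_cn (ε := ε))
    have cy := YA.uu hy.mem
    have x0 : y.1 0 = 1 := hy.mem.2.1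
    have hw' := (W.map_iff α w).2 hw
    have hL := hy.gL.2.le
    have ne : ∀ ε, G.pt M y ≠ G.pt M (rr ε M) := fun ε e => by
      obtain ⟨a, -, e'⟩ := YA.pt_eq rr_cn cy e.symm
      exact hy.mem.1.2 1 (by simp [e', GD.scl, rr_one])
    have sp := fun ε => by
      have ρ0 : ρ ε ≠ 0 := fun e => zero_ne_one ((e ▸ Pl.ord_zero _ (O ε).2.1).symm.trans (o1 ε))
      exact rad (O ε).2.1 cy x0 (a0 ε) ρ0 ((Pl.ord_pos_iff (O ε).2.1 ρ0).1 (o1 ε ▸ one_pos))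
        ((Cd.lift_pl _).2 ⟨iv ε, rfl⟩) (rr_map α ▸ e1 ε)
        (rr_map (h ε).hom ▸ e2 ε ▸ (YB.fp_mem (h ε).hom (T ε) (f ε)).1)
    have z0 := (sp true).1
    have b0 : G.tv y (G.vf M y) ≠ 0 := fun e => by
      rcases ZE.zero G M y cy e with k | ⟨c, ε, k1, k2⟩
      exacts [z0 k.1, ne ε (k2 ▸ GD.pt_scl _ k1)]
    have m := ((YB.on cy _).2 ⟨_, ZE.tn G M y, b0, rfl⟩).1
    have s := (h2 M y y _ (d.map α w) y.2⁻¹ hy.gM cy cy b0 m hw' (inv_ne_zero z0)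
      fun e => absurd rfl e).2
    have s' := (hs_add (hs_add (hs_mul (hs G hy w hw) (2 * G.e - G.e ^ 2 * (3 - 2 * G.e)))
      (hs_mul (ϑ.rat M (span M {y.1}, some (d.map α w)) y.2 hy.gM
        ⟨⟨_, cy.1, rfl⟩, W.sp_some.2 hw'⟩ z0) (-(G.e * (3 - 2 * G.e)))))
      (C6.hasS_sum Finset.univ fun ε _ => hs_single (O ε) (G.e * φ.a L w))).2
    refine (h3 M (_, _) _ m).trans (s.symm.trans (((finsum_congr fun O' => ?_).trans s').trans ?_))
    swap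
    · rw [Fintype.sum_bool]
      ring
    show (zc G O'.1 y : ℂ) * ψ.v _ ((((Sub K G.σ).red O'.1 (G.pt M y),
      (Sub K G.σ).red O'.1 (G.pt M y)), (Sub K (G.σ × G.σ)).red O'.1 (span M {_})),
      (d.amb K).red O'.1 (some (d.map α w))) = _ * (_ * ϑ.v _ ((Sub K (Fin 3)).red O'.1
      (span M {y.1}), (d.amb K).red O'.1 (some (d.map α w)))) + _ * (_ * ϑ.v _
      ((Sub K (Fin 3)).red O'.1 (span M {y.1}), (d.amb K).red O'.1 (some (d.map α w)))) + _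
    by_cases h' : Pl.Triv α O'.1
    swap
    · obtain ⟨k1, k2⟩ := ZX1.low h1 hϑ O'.1 w hy.gL h'
      rw [k1, k2, Finset.sum_eq_zero fun ε _ => if_neg fun e : O' = O ε => h' (e ▸ h ε)]
      simp
    rw [show (d.amb K).red O'.1 (some (d.map α w)) = some (d.map h'.hom w) from
      (d.amb K).red_triv h' (some w)]
    by_cases hn : ∀ ε, (Sub K G.σ).red O'.1 (G.pt M y) ≠ G.pt _ (rr ε _)
    · rw [far h1 hϑ O'.2.1 (O'.2.good hy.gM) h'.hom hL hw cy z0 x0 hn,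
        Finset.sum_eq_zero fun ε _ => if_neg fun e : O' = O ε => hn ε (e ▸ (sp ε).2.2.1), add_zero]
    obtain ⟨ε, hn⟩ := not_forall.1 hn
    rw [not_not] at hn
    have t0 := th0 ϑ h'.hom hL (rr ε L).1 w one_ne_zero
      ((congrArg Prod.fst (rr_map h'.hom)).symm.trans (one_smul _ _).symm)
    rw [Finset.sum_eq_single ε (fun ε' _ n => if_neg fun e : O' = O ε' =>
      n (rr_inj ((e ▸ (sp ε').2.2.1 :).symm.trans hn))) fun e => absurd (Finset.mem_univ _) e]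
    split_ifs with e
    · subst e
      obtain ⟨-, q1, q2, q3, q4⟩ := sp ε
      rw [q1, q2, q3, q4, t0, o1, ← YF.fib h1 hy.gL (t1 ε) (t2 ε) (f ε) hw, GD.fp, ← e2, rr_map]
      simp
    · obtain ⟨k1, k2⟩ := (Cd.lift_pl O'.1).1 (rr_rel (ε := ε) (Rel.ofPl O'.1))
      have k3 : rdV O'.1 (rr ε M).1 ≠ 0 := fun e =>
        (rr_cn (G := G)).1 ((congrArg Prod.fst k2).symm.trans e)
      obtain ⟨a', ρ', v', l1, l2, l3, l4, l5, l6, -, l7⟩ := YA.near cy rr_cn k1.1 k3 (ne ε)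
        (hn.trans (k2 ▸ (YA.red rr_cn k1.1 k3).2.2.1).symm)
      rw [k2] at l7
      obtain ⟨-, -, q2, q3, q4⟩ :=
        rad O'.2.1 cy x0 l1 l2 ⟨l3, l4⟩ ((Cd.lift_pl _).2 ⟨l5, rfl⟩) l6 l7
      obtain ⟨L', α', κ, π, p1, p2, p3⟩ := un ε O'.1 h' a' ρ' v' O'.2.1
        (fun e' => e (Subtype.ext e')) l1 l3 l4 l5 ((rr_map α).symm ▸ l6) ((rr_map h'.hom).symm ▸ l7)
      have k := yu_low ψ.toPre α' κ (G.pt L (rr ε L)) π w
        (p2.trans_lt (by exact_mod_cast j.lt_succ_self))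
      rw [p1, p3, GD.map_pt, rr_map] at k
      rw [q2, q3, q4, t0, k]
      simp⟩

end Pool.Agent.Lib.MP_557161_ag.HG
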