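import Pool.Agent.Lib.MP_557161_ag.HG.StZ

/-!
Values on two kinds of curves in the exceptional divisor.
-/

namespace Pool.Agent.Lib.MP_557161_ag.HG

open Pool.Agent.Lib.MP_557161_ag.DL MvPolynomial Submodule

variable {K : Type} [Field K]

namespace ZX1A

variable [FW0 K] {G : GD K} {d : Cd} {W : ASp K d} {j : ℕ} {φ : AF j W} {L N : Fld K}

lemma low (φ : AF j W) (κ : L →ₐ[K] N) (h : L.tr < j) {u : (d.amb K).pt L} {w : d.X N}
    (e : (d.amb K).map κ u = some w) (O : Pl N) : rv φ.a O w = 0 := by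
  rw [← FA3.v_red φ.toPre O w (fun _ ⟨_, e, _⟩ => nomatch e), ← e]
  by_cases h' : Pl.Triv κ O
  · exact (congrArg _ ((d.amb K).red_triv h' _)).trans (φ.low _ _ h)
  · exact (congrArg _ ((d.amb K).red_map (Pl.over_comap κ O) _)).trans (φ.low _ _ (Pl.tr_res_lt _
      (fun e => h' fun x => (Pl.over_comap κ O x).1 (e ▸ ValuationSubring.mem_top _)) h.le))

variable [YA K]

omit [FW0 K] in
lemma tv_red {O : Pl L} {y u : xz.X L} (hy : G.Cn L y) (h1 : IntV O y.1)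
    (h2 : rdV O y.1 ≠ 0) (hu : xz.all (· ∈ O.O) u) :
    IntV O (G.tv y u) ∧ rdV O (G.tv y u) = G.tv (xz.map O.rd y) (xz.map O.rd u) := by
  obtain ⟨k1, -, -, k2, k3, -⟩ := YA.red hy h1 h2
  obtain ⟨k4, k5, -⟩ := YA.taylor G O y u 0 ⟨h1, k1⟩ hu (zero_mem _)
  refine ⟨fun s => sub_mem (mul_mem (k2 _) (k4 _)) (mul_mem (k2 _) (k4 _)), funext fun s => ?_⟩
  rw [GD.tv, GD.tv, ← k3, ← k5]
  show O.rd (_ * _ - _ * _) = O.rd _ * O.rd _ - O.rd _ * O.rd _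
  rw [O.rd_sub (mul_mem (k2 _) (k4 _)) (mul_mem (k2 _) (k4 _)), O.rd_mul (k2 _) (k4 _),
    O.rd_mul (k2 _) (k4 _)]

omit [FW0 K] in
lemma ram_ne {y : xz.X L} (hy : G.Cn L y) (h : y.2 = 0) : G.tv y (0, 1) ≠ 0 := fun e => by
  obtain ⟨c, hc⟩ := (YA.tv_eq _ hy).1 e
  simpa [h] using congrArg Prod.snd hc

omit [FW0 K] [YA K] in
lemma lin_ne [ZE K] {y : xz.X L} (hy : G.Cn L y) (h : y.1 0 = 0) : G.tv y (G.vf L y) ≠ 0 :=
  fun e => by
    rcases ZE.zero G L y hy e with ⟨h1, h2⟩ | ⟨c, ε, hc, rfl⟩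
    · obtain ⟨c, x, hc, h3, h4⟩ := ZE.crit G L y.1 hy.1 (by rw [← hy.2, h1]; simp) h2
      exact hc (by simpa [h4, h3] using h)
    · exact hc (by cases ε <;> simpa [GD.scl, sg, ngz] using h)

lemma val [YB K] {ψ ϑ} (hψ : G.IsPsi φ ψ) (hϑ : IsH φ ϑ) {y v : xz.X N} {w : d.X N}
    (hN : Good (j + 1) N) (hy : G.Cn N y) (hw : W.mem N w) (ht : G.Tn N y v) (hb : G.tv y v ≠ 0)
    (k : ℕ) (ho : ∀ (O : Pl N) (a : N), a ≠ 0 → IntV O (G.scl a y).1 → rdV O (G.scl a y).1 ≠ 0 →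
      IntV O (a ^ k • G.tv y v) ∧ rdV O (a ^ k • G.tv y v) ≠ 0) :
    ψ.v N (((G.pt N y, G.pt N y), span N {G.tv y v}), some w) =
      G.e * (k + 3 - 3 * G.e) * ϑ.v N (span N {y.1}, some w) := by
  obtain ⟨h1, h2⟩ := hϑ N y.1 w hN hy.1 hw
  rw [← (hψ N y _ w hN hy hb ((YB.on hy _).2 ⟨v, ht, hb, rfl⟩) hw).2, ← h2, mul_finsum' _ _ h1]
  refine finsum_congr fun O => ?_
  obtain ⟨a, a0, i1, r1⟩ := YA.prim O.1 hy
  have e1 := FB3.ordv_prim O.2.1 i1 r1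
  have e2 := (YA.red (hy.scl a0) i1 r1).2.2.2.2.2 O.2.1
  have e3 := FB3.ordv_prim O.2.1 (ho _ a a0 i1 r1).1 (ho _ a a0 i1 r1).2
  rw [show (G.scl a y).1 = a • y.1 from rfl, FB3.ordv_smul O.2.1 hy.1 a0] at e1
  rw [G.nu_scl, FB3.ordv_smul O.2.1 (G.nu_ne hy.1) (pow_ne_zero _ a0), Pl.ord_pow O.2.1] at e2
  rw [FB3.ordv_smul O.2.1 hb (pow_ne_zero _ a0), Pl.ord_pow O.2.1] at e3
  simp only [eq_neg_of_add_eq_zero_right e1, eq_neg_of_add_eq_zero_right e2,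
    eq_neg_of_add_eq_zero_right e3]
  push_cast
  ring

end ZX1A

open ZX1A in
theorem ZX1_thm [FW0 K] [YA K] [YB K] [ZE K] : ZX1 K where
  ram {G d W j φ ψ ϑ} hψ hϑ {N y w} hN hy h hw := by
    have ht : G.Tn N y (0, 1) := by
      show 2 * y.2 * 1 = ∑ i, _ * (0 : N)
      simp [h]
    rw [val hψ hϑ hN hy hw ht (ram_ne hy h) G.e fun O a a0 i1 r1 => ?_]
    · ring
    have e : G.tv (G.scl a y) (0, 1) = a ^ G.e • G.tv y (0, 1) := by
      have : ∀ i, (0 : (Cd.vec (Fin 3)).X N) i = 0 := fun _ => rfl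
      rw [GD.tv, G.nu_scl, show G.dnu (G.scl a y) (0, 1) = (1 : N) • G.dnu y (0, 1) from
        funext fun s => by cases s <;> simp [GD.dnu, this], wdg_smul, mul_one]
      rfl
    obtain ⟨i2, r2⟩ := tv_red (hy.scl a0) i1 r1 (u := (0, 1)) ⟨fun _ => zero_mem _, one_mem _⟩
    rw [← e, r2, show xz.map O.rd ((0, 1) : xz.X N) = (0, 1) from
      Prod.ext (funext fun _ => O.rd_zero) O.rd_one]
    exact ⟨i2, ram_ne (YA.red (hy.scl a0) i1 r1).2.1 (by simp [GD.scl, h])⟩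
  lin {G d W j φ ψ ϑ} hψ hϑ {N y w} hN hy h hw := by
    rw [val hψ hϑ hN hy hw (ZE.tn G N y) (lin_ne hy h) (3 * G.e - 1) fun O a a0 i1 r1 => ?_]
    · rw [Nat.cast_sub (by have := G.e_pos; omega)]
      push_cast
      ring
    obtain ⟨k1, k2, -⟩ := YA.red (hy.scl a0) i1 r1
    have e := (Cd.lift_pl O).1 (show xz.lift (Rel.ofPl O).r (G.vf N (G.scl a y))
      (G.vf O.res (xz.map O.rd (G.scl a y))) from ⟨fun i => by
        have := (Rel.ofPl O).mul (Rel.two _) ⟨k1, rfl⟩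
        fin_cases i
        exacts [this, Rel.zero _, this], Rel.aeval (R := .ofPl O) (fun i => ⟨i1 i, rfl⟩) _⟩)
    obtain ⟨i2, r2⟩ := tv_red (hy.scl a0) i1 r1 e.1
    rw [← ZE.scl, r2, e.2]
    exact ⟨i2, lin_ne k2 (by simp [GD.scl, h])⟩
  low {G d W j φ ψ ϑ} hψ hϑ {L M α} O w hL h := by
    have h1 := Pl.tr_res_lt (Pl.comap α O)
      (fun e => h fun x => (Pl.over_comap α O x).1 (e ▸ ValuationSubring.mem_top _)) hL.2.le
    have h2 := (d.amb K).red_map (Pl.over_comap α O) (some w)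
    refine ⟨fun s => by_contra fun hs => ?_, fun s => by_contra fun hs => ?_⟩
    · obtain ⟨g, ⟨⟨y, y', b, k1, -, k2, -, k3, k4, k5⟩, k6⟩, w', e, hw⟩ := ψ.supp _ _ hs
      obtain ⟨⟨s1, s2⟩, s3⟩ := s
      obtain rfl : s1 = s2 := k6
      obtain rfl : s1 = G.pt _ y := k2
      obtain rfl : s3 = span _ {b} := k4
      refine hs ((congrArg (fun t => ψ.v _ (_, t)) e).trans
        ((hψ _ y b w' g k1 k3 (ψ.supp _ _ hs).2.1 hw).2.symm.trans ?_))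
      simp only [low φ _ h1 (h2.symm.trans e), mul_zero, finsum_zero]
    · obtain ⟨g, ⟨x, k1, k2⟩, w', e, hw⟩ := ϑ.supp _ _ hs
      obtain rfl : s = span _ {x} := k2
      refine hs ((congrArg (fun t => ϑ.v _ (_, t)) e).trans ((hϑ _ x w' g k1 hw).2.symm.trans ?_))
      simp only [low φ _ h1 (h2.symm.trans e), mul_zero, finsum_zero]

end Pool.Agent.Lib.MP_557161_ag.HG
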