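import Pool.Agent.Lib.MP_557161_ag.HG.StZ

/-!
The intersection of the diagonal with the graph of the involution.
-/

namespace Pool.Agent.Lib.MP_557161_ag.HG

open Pool.Agent.Lib.MP_557161_ag.DL MvPolynomial Submodule

namespace ZX2A

variable {K : Type} [Field K] {G : GD K} {L M : Fld K} {j : ℕ}

lemma comb {α : Type} {f g h : α → ℂ} {a b c : ℂ} (s t : ℂ) (hf : HasS f a) (hg : HasS g b)
    (hh : HasS h c) (e : ∀ x, f x = s * g x + t * h x) : a = s * b + t * c := by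
  rw [← hf.2, ← hg.2, ← hh.2, funext e, mul_finsum, mul_finsum, finsum_add_distrib
    (hg.1.subset (Function.support_mul_subset_right _ _))
    (hh.1.subset (Function.support_mul_subset_right _ _))]

lemma dnu_one (y : xz.X M) : G.dnu y (0, 1) = fun s => s.elim 1 fun _ => 0 := funext fun s => by
  cases s
  · rfl
  · rw [GD.dnu, Option.elim_some]
    exact Finset.sum_eq_zero fun _ _ => zero_mul _

lemma tv_scl (a : M) (y : xz.X M) : G.tv (G.scl a y) (0, 1) = a ^ G.e • G.tv y (0, 1) := by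
  rw [GD.tv, G.nu_scl, dnu_one, ← dnu_one y, ← one_smul M (G.dnu y (0, 1)), wdg_smul, mul_one,
    GD.tv]

lemma z_ne [XA K] [XG K] {α : L →ₐ[K] M} {y : xz.X M} (hy : G.GenU j α y) : y.2 ≠ 0 := by
  obtain ⟨M₀, α₀, β, x, -, h1, h2, h3, -⟩ := XG.chart hy 0
  refine fun e => XA.nsq' G x 0 h1 h3 0 (β.injective ?_)
  have h4 : mapV β.toRingHom x = y.1 := funext fun i => (h2 i).trans (by rw [hy.mem.2.1, div_one])
  refine Eq.trans ?_ (aeval_mapV β x G.F)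
  rw [h4, ← hy.mem.2.2, e]
  simp

variable [YA K]

lemma tv_ne {y : xz.X L} (h : G.Cn L y) : G.tv y (0, 1) ≠ 0 := fun e => by
  obtain ⟨c, hc⟩ := (YA.tv_eq _ h).1 e
  have h1 := (smul_eq_zero.1 (congrArg Prod.fst hc).symm).resolve_right h.1
  simpa [h1] using congrArg Prod.snd hc

lemma tv_red {O : Pl M} {y : xz.X M} (h : G.Cn M y) (i : IntV O y.1) (r : rdV O y.1 ≠ 0) :
    IntV O (G.tv y (0, 1)) ∧ rdV O (G.tv y (0, 1)) = G.tv (xz.map O.rd y) (0, 1) := by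
  obtain ⟨-, -, -, i1, r1, -⟩ := YA.red h i r
  have p : ∀ s, (Rel.ofPl O).r (G.nu y s) (G.nu (xz.map O.rd y) s) := fun s => ⟨i1 s, congrFun r1 s⟩
  have q : ∀ s, (Rel.ofPl O).r (G.dnu y (0, 1) s) (G.dnu (xz.map O.rd y) (0, 1) s) := fun s => by
    rw [dnu_one, dnu_one]
    cases s
    exacts [⟨one_mem _, O.rd_one⟩, ⟨zero_mem _, O.rd_zero⟩]
  have z : ∀ s, (Rel.ofPl O).r (G.tv y (0, 1) s) (G.tv (xz.map O.rd y) (0, 1) s) :=
    fun s => Rel.sub (Rel.mul _ (p _) (q _)) (Rel.mul _ (p _) (q _))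
  exact ⟨fun s => (z s).1, funext fun s => (z s).2⟩

end ZX2A

open ZX2A in
theorem ZX2_thm {K : Type} [Field K] [Base K] [FW0 K] [XA K] [XG K] [YA K] [YB K] [ZE K] [ZH K]
    [ZX1 K] : ZX2 K := ⟨fun {G d W j φ Ψ} ⟨ψ, Ξ, h1, h2, h3⟩ L M α y hy w hw => by
  obtain ⟨ϑ, t1, t2⟩ := ZH.ex φ
  have cy := YA.uu hy.mem
  have ng : ∀ {y : xz.X M}, G.Cn M y → G.Cn M (ngz M y) := fun h => ⟨h.1, (neg_sq _).trans h.2⟩
  have z0 := z_ne hy
  have two : (2 : M) = algebraMap K M 2 := (map_ofNat _ 2).symm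
  have k2 : (2 : K) ≠ 0 := (XA.three G).2.2.2.1
  have m2 : (2 : M) ≠ 0 := two ▸ (map_ne_zero _).2 k2
  have τ0 := mul_ne_zero m2 z0
  have b0 := tv_ne cy
  have ne : G.pt M (ngz M y) ≠ G.pt M y := fun e =>
    smul_ne_zero τ0 b0 ((ZE.sec G M y).symm.trans ((YA.sv_eq (ng cy) cy).2 e))
  have m := (YB.off (ng cy) cy ne (span M {G.tv y (0, 1)})).2
    (by rw [ZE.sec, span_singleton_smul_eq τ0.isUnit])
  have hw' := (W.map_iff α w).2 hw
  refine (h3 M (_, _) _ m).trans ((comb (G.e * (3 - 2 * G.e)) (G.e * (3 - 2 * G.e) * G.e)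
    (h2 M _ _ _ _ _ hy.gM (ng cy) cy b0 m hw' τ0 fun _ => ZE.sec G M y)
    (ϑ.rat M (span M {y.1}, some (d.map α w)) y.2 hy.gM ⟨⟨_, cy.1, rfl⟩, _, rfl, hw'⟩ z0)
    (t2 G hy w hw) fun O => ?_).trans (by ring))
  by_cases h : Pl.Triv α O.1
  swap
  · obtain ⟨l1, l2⟩ := ZX1.low h1 t1 O.1 w hy.gL h
    exact (mul_eq_zero_of_right _ (l1 _)).trans (add_eq_zero_iff_eq_neg.2 ((mul_eq_zero_of_right _
      (mul_eq_zero_of_right _ (l2 _))).trans (neg_eq_zero.2 (mul_eq_zero_of_right _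
      (mul_eq_zero_of_right _ (l2 _)))).symm)).symm
  have hO := O.2.1
  obtain ⟨a, a0, i1, r1⟩ := YA.prim O.1 cy
  have ae := pow_ne_zero G.e a0
  have es : ngz M (G.scl a y) = G.scl a (ngz M y) := Prod.ext rfl (mul_neg _ _).symm
  obtain ⟨p1, p2, p3, -, -, p4⟩ := YA.red (cy.scl a0) i1 r1
  obtain ⟨-, -, q3, -, -, q4⟩ := YA.red (ng (cy.scl a0)) i1 r1
  obtain ⟨s1, s2⟩ := tv_red (cy.scl a0) i1 r1
  have s3 : rdV O.1 (G.tv (G.scl a y) (0, 1)) ≠ 0 := s2 ▸ tv_ne p2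
  have o1 := p4 hO
  have o2 := q4 hO
  have o3 := FB3.ordv_prim hO s1 s3
  have o4 : ordv O.1 (a • y.1) = 0 := FB3.ordv_prim hO i1 r1
  rw [es, G.nu_scl, FB3.ordv_smul hO (G.nu_ne (ng cy).1) ae] at o2
  rw [G.nu_scl, FB3.ordv_smul hO (G.nu_ne cy.1) ae] at o1
  rw [tv_scl, FB3.ordv_smul hO b0 ae] at o3
  rw [FB3.ordv_smul hO cy.1 a0] at o4
  have o5 : O.1.ord (2 : M) = 0 := Pl.ord_eq_zero_of_mem m2 (two ▸ O.1.const _)
    (by rw [two, ← map_inv₀]; exact O.1.const _)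
  have o6 : O.1.ord (G.scl a y).2 = O.1.ord (a ^ G.e) + O.1.ord y.2 := Pl.ord_mul hO ae z0
  have o7 := Pl.ord_pow hO a G.e
  have o8 : O.1.ord (2 * y.2) - ordv O.1 (G.nu (ngz M y)) - ordv O.1 (G.nu y) +
      ordv O.1 (G.tv y (0, 1)) = O.1.ord (G.scl a y).2 := by rw [Pl.ord_mul hO m2 z0]; omega
  have o9 : (O.1.ord (G.scl a y).2 : ℂ) = O.1.ord y.2 + G.e * ((-ordv O.1 y.1 : ℤ) : ℂ) := by
    rw [o6, o7, eq_neg_of_add_eq_zero_left o4]
    push_cast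
    ring
  rw [o8]
  by_cases c : O.1.rd (G.scl a y).2 = 0
  · have e1 : xz.map O.1.rd (ngz M (G.scl a y)) = xz.map O.1.rd (G.scl a y) :=
      Prod.ext rfl ((O.1.rd_neg p1).trans ((neg_eq_zero.2 c).trans c.symm))
    rw [e1, es, GD.pt_scl _ a0] at q3
    rw [GD.pt_scl _ a0] at p3
    have e2 := Cd.red_some (Cd.lift_triv h w)
    have e3 := sred_single s1 s3
    have e4 := sred_single i1 r1
    rw [s2, tv_scl, span_singleton_smul_eq ae.isUnit] at e3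
    rw [show (G.scl a y).1 = a • y.1 from rfl, span_singleton_smul_eq a0.isUnit] at e4
    have e5 := ZX1.ram h1 t1 (O.2.good hy.gM) p2 c ((W.map_iff h.hom w).2 hw)
    have e6 : ψ.v O.1.res ((G.A3.prod (d.amb K)).red O.1 (((G.pt M (ngz M y), G.pt M y),
        span M {G.tv y (0, 1)}), some (d.map α w))) = _ :=
      (congrArg (ψ.v _) (Prod.ext (Prod.ext (Prod.ext q3 p3) e3) e2)).trans e5
    have e7 : ϑ.v O.1.res (((Sub K (Fin 3)).prod (d.amb K)).red O.1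
        (span M {y.1}, some (d.map α w))) = ϑ.v O.1.res (span O.1.res
          {(xz.map O.1.rd (G.scl a y)).1}, some (d.map h.hom w)) :=
      congrArg (ϑ.v _) (Prod.ext e4 e2)
    rw [e6, e7, o9]
    ring
  · obtain ⟨u1, u2⟩ := (O.1.rd_ne_zero_iff p1).1 c
    rw [Pl.ord_eq_zero_of_mem u1 p1 u2, Int.cast_zero] at o9 ⊢
    rw [eq_neg_of_add_eq_zero_left o9.symm]
    ring⟩

end Pool.Agent.Lib.MP_557161_ag.HG
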