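import Pool.Agent.Lib.MP_557161_ag.HG.All1
import Pool.Agent.Lib.MP_557161_ag.HG.All2
import Pool.Agent.Lib.MP_557161_ag.HG.Fin2
import Pool.Agent.Lib.MP_557161_ag.HG.XC
import Pool.Agent.Lib.MP_557161_ag.HG.XK
import Pool.Agent.Lib.MP_557161_ag.HG.XT
import Pool.Agent.Lib.MP_557161_ag.HG.XZ
import Pool.Agent.Lib.MP_557161_ag.HG.ZA
import Pool.Agent.Lib.MP_557161_ag.HG.ZA1
import Pool.Agent.Lib.MP_557161_ag.HG.ZB
import Pool.Agent.Lib.MP_557161_ag.HG.ZD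
import Pool.Agent.Lib.MP_557161_ag.HG.ZE
import Pool.Agent.Lib.MP_557161_ag.HG.ZH
import Pool.Agent.Lib.MP_557161_ag.HG.ZO
import Pool.Agent.Lib.MP_557161_ag.HG.ZR
import Pool.Agent.Lib.MP_557161_ag.HG.ZS
import Pool.Agent.Lib.MP_557161_ag.HG.ZT
import Pool.Agent.Lib.MP_557161_ag.HG.ZV
import Pool.Agent.Lib.MP_557161_ag.HG.ZX
import Pool.Agent.Lib.MP_557161_ag.HG.ZX1
import Pool.Agent.Lib.MP_557161_ag.HG.ZX2

/-!
The conjecture of Tate for divisors on the double planes, assembled.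
-/

namespace Pool.Agent.Lib.MP_557161_ag.HG

open Pool.Agent.Lib.MP_557161_ag.DL

theorem ZR_all {K : Type} [Field K] [Base K] {p : ℕ} [Fact p.Prime] [CharP K p] : ZR K p := by
  have : FW0 K := FW0_thm
  obtain ⟨_, _, _, _, _, _, _, _, _, _, _, _, _, -⟩ := geo0 (K := K)
  obtain ⟨-, _, _, -, _⟩ := geoP (K := K) (p := p)
  have : ALT K := ALT_thm
  have : XC := XC_thm
  have : ZE K := ZE_thm
  have : ZH K := ZH_thm
  have : ZX1 K := ZX1_thm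
  have : ZX K := ZX_thm
  have : ZX2 K := ZX2_thm
  have : ZO K p := ZO_thm
  have : ZS K p := ZS_thm
  have : ZV K p := ZV_thm
  exact ZR_thm

theorem final {k : Type} [Field k] [Finite k] (G : GD k) (L : ℕ → Type) [∀ m, Field (L m)]
    [∀ m, Algebra k (L m)] (hL : ∀ m, Module.finrank k (L m) = m + 1) :
    SmProj (dpI G.e G.F) 2 ∧ ∃ ζ : ℂ → ℂ, IsZeta (dpI G.e G.F) 2 L ζ ∧
    (((-3 : ℤ) : WithTop ℤ) ≤ meromorphicOrderAt ζ 1 +
      meromorphicOrderAt ζ (1 + Real.pi * Complex.I / Real.log (Nat.card k)) →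
    (∀ F : ∀ P : Var (dpI G.e G.F) 1, Res (dpI G.e G.F) P.1, ∃ ρ : ℕ,
      Module.rank ℤ (Num (dpI G.e G.F) 1 1 F) = ρ ∧ meromorphicOrderAt ζ 1 = (-(ρ : ℤ) : ℤ)) ∧
    ([ZY] → TateAt (Nat.card k) 1 (upI (dpI G.e G.F)))) := by
  have hb := T0.fbar k
  have : Fact (ringChar k).Prime := ⟨hb.prime⟩
  have := hb.char
  have := (geo0 (K := AlgebraicClosure k)).1
  obtain ⟨_, _, -, _, -⟩ := geoP (K := AlgebraicClosure k) (p := ringChar k)
  have : ZR (AlgebraicClosure k) (ringChar k) := ZR_all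
  have : XJ := XJ_thm
  have : XK := XK_thm
  have : XT := XT_thm
  have : XZ := XZ_thm
  have : ZA1 := ZA1_thm
  have : ZA := ZA_thm
  have : ZB := ZB_thm
  have : ZD := ZD_thm
  have : ZT := ZT_thm
  obtain ⟨ζ, h1, h2⟩ := zeta_dec (p := ringChar k) G L hL
  exact ⟨⟨G.hI, G.hs, G.hd, fun i P => nonempty_res G.hI P.2.2.1 P.2.2.2.1,
    fun i n h P Q F => chi_eventually G.hI G.hs G.hd h P Q F⟩, ζ, h1, h2⟩

end Pool.Agent.Lib.MP_557161_ag.HG
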