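import Pool.Agent.Lib.MP_557161_ag.HG.Defs3

/-!
Tate classes in one codimension.
-/

namespace Pool.Agent.Lib.MP_557161_ag.HG

open MvPolynomial Pool.Agent.Lib.MP_60ec62_ag.DL Pool.Agent.Lib.MP_557161_ag.DL.Rl

variable {K : Type} [Field K] {σ : Type}

/-- For every vector space with an endomorphism `Fr`, cycle classes and an action of the
subvarieties of `X × X` as correspondences, the generalised eigenvectors of `Fr` for the eigenvalue
`q ^ i` are combinations of classes of Frobenius invariant cycles of codimension `i`. -/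
def TateAt (q i : ℕ) (J : Ideal (MvPolynomial σ K)) : Prop :=
  ∀ (E V : Type) [Field E] [CharZero E] [AddCommGroup V] [Module E V] (Fr : Module.End E V)
    (cl : PrimeSpectrum (MvPolynomial σ K) → V) (cd : PrimeSpectrum (MvPolynomial σ K) → ℕ)
    (act : PrimeSpectrum (MvPolynomial (σ ⊕ σ) K) → Module.End E V), Kills J act →
    (∀ a ∈ DL.Rl.Sub J, ∀ b ∈ DL.Rl.Sub J, ∀ Z, Z.asIdeal = box a.asIdeal b.asIdeal →
      ∀ x, ∃ c : E, act Z x = c • cl b) →
    (∀ j, ∑ᶠ P ∈ {P | Minimal (· ∈ DL.Rl.Sub J) P}, act (grP (q ^ j) P) = Fr ^ j) →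
    Stm.Compat q (DL.Rl.Sub J) (Stm.tw q) Fr cl cd →
    ∀ (r : ℕ) (x : V), ((Fr - (q : E) ^ i • 1) ^ r) x = 0 →
      x ∈ Submodule.span E (Stm.InvCl {P ∈ DL.Rl.Sub J | cd P = i} (Stm.tw q) cl)

end Pool.Agent.Lib.MP_557161_ag.HG
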