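import Pool.Agent.Lib.MP_557161_ag.HG.FC21

/-!
Connected families and homotopy invariance.
-/

namespace Pool.Agent.Lib.MP_557161_ag.HG

open Pool.Agent.Lib.MP_557161_ag.DL

namespace FC2a

variable {K : Type} [Field K] {c d : Cd} {j : ℕ}

theorem a_mem {S : ASp K c} (Φ : AF j S) {L : Fld K} {x : c.X L} (h : Φ.a L x ≠ 0) :
    Good j L ∧ S.mem L x := ⟨(Φ.supp _ _ h).1, S.sp_some.1 (Φ.supp _ _ h).2⟩

theorem a_pull {S : ASp K c} {T : ASp K d} {f : ∀ L : Fld K, c.X L → d.X L} (h : Mp S T f)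
    (hp : Pro S T f) (Φ : AF j T) : ∃ Ψ : AF j S, ∀ L x, S.mem L x → Ψ.a L x = Φ.a L (f L x) :=
  ⟨Φ.pull h.mor (hp.mor h), fun _ _ m => Fe.pull_of_mem _ _ _ (S.sp_some.2 m)⟩

theorem a_ext {S : ASp K c} (Φ : AF j S) {L M : Fld K} {α : L →ₐ[K] M} (hL : Good j L)
    (h : Function.Surjective α) (x : c.X L) : Φ.a M (c.map α x) = Φ.a L x := by
  have := Φ.ext α (some x) hL (hL.of_fin (Fin'.of_surj h))
  rwa [deg_of_surj h, Nat.cast_one, one_mul] at this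

/-- The trivial line bundle. -/
def tb (S : ASp K c) : Bun (S.prod (.univ K .one)).sp S.sp (Amb.const K Unit) where
  π := Mp.mor (f := fun _ x => x.1) ⟨fun _ _ _ _ _ _ _ e => e.1, fun _ _ m => m.1⟩
  fr _ _ := True
  θ y _ t := y.map fun x => (x, t)
  ex _ _ := ⟨(), trivial⟩
  fr_map _ _ _ _ _ := trivial
  θ_map := by
    rintro L L' ι _ _ t ⟨x, rfl, -⟩ -
    rfl
  mem := by
    rintro L _ _ t ⟨x, rfl, hx⟩ -
    exact ⟨⟨_, rfl, hx, trivial⟩, rfl⟩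
  surj := by
    rintro L _ _ ⟨x, rfl, -⟩ -
    exact ⟨x.2, rfl⟩
  trans _ _ _ _ _ _ := ⟨1, 0, one_ne_zero, fun _ ι t => by rw [map_one, map_zero, one_mul, add_zero]⟩
  int _ _ _ _ _ := ⟨(), trivial, trivial⟩
  red := by
    rintro M O _ _ t - ⟨x, rfl, -⟩ ⟨x', e, -⟩ - -
    refine ⟨fun ht => ?_, ?_⟩
    · rw [e]
      exact Cd.red_some (c := c.prod .one) (x := (x, t)) (x' := (x', O.rd t))
        ⟨Cd.lift_of_red e, ht, rfl⟩
    · rintro ht ⟨z, e', -⟩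
      exact ht (Cd.lift_of_red (c := c.prod .one) (x := (x, t)) e').2.1

variable [Base K]

theorem down1 {S : ASp K c} (Φ : AF (j + 1) (S.prod (.univ K .one))) : ∃ Ψ : AF j S,
    (∀ (L M : Fld K) (α : L →ₐ[K] M) (T : M) (x : c.X L), Good j L → Trans' α T → Gen α T →
      S.mem L x → Φ.a M (c.map α x, T) = Ψ.a L x) ∧
    ((∀ L x, Ψ.a L x = 0) → ∀ L x, Φ.a L x = 0) := by
  let f : Mor ((S.prod (.univ K .one)).sp.prod (Sp.point K)) (S.prod (.univ K .one)).sp :=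
    ⟨fun y => y.1, fun _ h => h.1, fun _ _ _ => rfl, fun _ _ _ _ _ => rfl⟩
  let g : Mor S.sp (S.sp.prod (Sp.point K)) :=
    ⟨fun y => (y, ()), fun _ h => ⟨h, trivial⟩, fun _ _ _ => rfl, fun _ _ _ _ _ => rfl⟩
  have hf : f.Proper := fun _ _ _ _ h => ⟨h, trivial⟩
  have hg : g.Proper := fun _ _ _ _ h => h.1
  refine ⟨(Hi.down (tb S) (Φ.pull f hf)).pull g hg, fun L M α T x hL ht hT hx => ?_,
    fun h L x => ?_⟩
  · refine Eq.trans ?_ (Fe.pull_of_mem g hg _ (S.sp_some.2 hx)).symm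
    refine Eq.trans ?_ (Hi.val_eq (tb S) (Φ.pull f hf) hL ht hT (y := some x) (c := ())
      (S.sp_some.2 hx) trivial ())
    exact (Fe.pull_of_mem f hf Φ (y := CKL2.pt (tb S) α (some x) () T ())
      ⟨⟨_, rfl, (S.map_iff α x).2 hx, trivial⟩, trivial⟩).symm
  · by_contra hv
    refine hv ((Fe.pull_of_mem f hf Φ (y := (some x, ())) ⟨(Φ.supp _ _ hv).2, trivial⟩).symm.trans
      (Hi.up (tb S) _ (fun L y => ?_) _ _))
    by_contra hy
    obtain ⟨-, ⟨x, e, hx⟩, -⟩ := Hi.val_ne _ _ hy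
    obtain ⟨y, z⟩ := y
    obtain rfl : y = some x := e
    exact hy ((Fe.pull_of_mem g hg _ (S.sp_some.2 hx)).symm.trans (h L x))

omit [Base K] in
theorem up0 {S : ASp K c} (Φ : AF 0 (S.prod (.univ K .one))) (L : Fld K)
    (x : (c.prod .one).X L) : Φ.a L x = 0 := by
  by_contra hv
  obtain ⟨hL, hx, -⟩ := a_mem Φ hv
  obtain ⟨x, t⟩ := x
  set α := L.toRat
  set U : L.rat := RatFunc.X
  have ht : Trans' α U := trans_rat L
  have hU : U ≠ 0 := fun h => ht.ne 0 (h.trans (map_zero _).symm)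
  refine hv (two_pts Φ hL ht (gen_rat L) (some (c.map α x, U + α t))
    ⟨_, rfl, (S.map_iff α x).2 hx, trivial⟩ _ _
    (fun O _ n _ => absurd (comap_lt n hL) (by simp)) (fun O h d s o => ?_) fun O h d s o => ?_)
  · have r : (Rel.ofPl O).r U 0 := (Pl.ord_pos_iff d.1 hU).1 o
    have r' := (Rel.ofPl O).add r (Cd.lift_triv (c := .one) h t)
    rw [zero_add] at r'
    rw [Cd.red_some (c := c.prod .one) (x := (c.map α x, U + α t))
      (x' := (c.map h.hom x, h.hom t)) ⟨Cd.lift_triv h x, r'⟩]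
    exact a_ext Φ hL s (x, t)
  · by_contra hw
    obtain ⟨z, e, -⟩ := (Φ.supp _ _ hw).2
    have m : U + α t ∈ O.O :=
      (Cd.lift_of_red (c := c.prod .one) (x := (c.map α x, U + α t)) e).2.1
    have m' : U ∈ O.O := by simpa using sub_mem m (h t)
    have := (Pl.ord_nonneg_iff d.1).2 m'
    rw [Pl.ord_inv d.1] at o
    omega

section
variable {κ : Type} [Finite κ] (s : κ)

open Classical in
/-- Insert a coordinate. -/
noncomputable def ins {L : Type} (u : {i // i ≠ s} → L) (t : L) (i : κ) : L :=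
  if h : i = s then t else u ⟨i, h⟩

omit [Finite κ] in
theorem ins_self {L : Type} (T : κ → L) : ins s (fun i => T i.1) (T s) = T := funext fun i => by
  unfold ins
  split_ifs with h
  · rw [h]
  · rfl

omit [Base K] in
theorem pull_ins {S : ASp K c} (Φ : AF j (S.prod (.univ K (.vec κ)))) :
    ∃ Ψ : AF j ((S.prod (.univ K (.vec {i // i ≠ s}))).prod (.univ K .one)),
      ∀ (L : Fld K) x u t, S.mem L x → Ψ.a L ((x, u), t) = Φ.a L (x, ins s u t) := by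
  have h1 : Mp ((S.prod (.univ K (.vec {i // i ≠ s}))).prod (.univ K .one))
      (S.prod (.univ K (.vec κ))) fun _ x => (x.1.1, ins s x.1.2 x.2) :=
    ⟨fun _ _ R z z' _ _ e => ⟨e.1.1, fun i => by
      show R.r (ins s z.1.2 z.2 i) (ins s z'.1.2 z'.2 i)
      unfold ins
      split_ifs with h
      exacts [e.2, e.1.2 _]⟩, fun _ _ m => ⟨m.1.1, trivial⟩⟩
  have h2 : Mp (S.prod (.univ K (.vec κ)))
      ((S.prod (.univ K (.vec {i // i ≠ s}))).prod (.univ K .one))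
      fun _ x => ((x.1, fun i => x.2 i.1), x.2 s) :=
    ⟨fun _ _ _ _ _ _ _ e => ⟨⟨e.1, fun i => e.2 i.1⟩, e.2 s⟩,
      fun _ _ m => ⟨⟨m.1, trivial⟩, trivial⟩⟩
  obtain ⟨Ψ, h⟩ := a_pull h1 (Pro.of_left h2 h1 fun L x _ =>
    Prod.ext (Prod.ext rfl (funext fun i => dif_neg i.2)) (dif_pos rfl)) Φ
  exact ⟨Ψ, fun L x u t m => h L ((x, u), t) ⟨⟨m, trivial⟩, trivial⟩⟩

theorem card_ne : Nat.card κ = Nat.card {i // i ≠ s} + 1 := by
  classical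
  rw [← Finite.card_option]
  exact Nat.card_congr (Equiv.optionSubtypeNe s).symm

end

theorem down [FA1 K] (n : ℕ) : ∀ {c : Cd} {κ : Type} [Finite κ] {S : ASp K c} {i j : ℕ}
    (Φ : AF i (S.prod (.univ K (.vec κ)))), Nat.card κ = n → i = j + n → ∃ Ψ : AF j S,
    ∀ (L M : Fld K) (α : L →ₐ[K] M) (T : κ → M) (x : c.X L), Free j α T → S.mem L x →
      Φ.a M (c.map α x, T) = Ψ.a L x := by
  induction n with
  | zero =>
    rintro c κ _ S _ j Φ hκ rfl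
    have : IsEmpty κ := Finite.card_eq_zero_iff.1 hκ
    have h1 : Mp S (S.prod (.univ K (.vec κ))) fun _ x => (x, isEmptyElim) :=
      ⟨fun _ _ _ _ _ _ _ e => ⟨e, isEmptyElim⟩, fun _ _ m => ⟨m, trivial⟩⟩
    obtain ⟨Ψ, h⟩ := a_pull h1 (Pro.of_left (g := fun _ x => x.1)
      ⟨fun _ _ _ _ _ _ _ e => e.1, fun _ _ m => m.1⟩ h1 fun _ _ _ => rfl) Φ
    refine ⟨Ψ, fun L M α T x hF hx => ?_⟩
    rw [h L x hx, ← a_ext Φ hF.gL (FA1.zero.1 hF).2]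
    exact congrArg (fun u => Φ.a M (c.map α x, u)) (funext isEmptyElim)
  | succ n ih =>
    rintro c κ _ S _ j Φ hκ rfl
    obtain ⟨s⟩ : Nonempty κ := (Nat.card_pos_iff.1 (by omega)).1
    have hs : Nat.card {i // i ≠ s} = n := by
      have := card_ne s
      omega
    obtain ⟨Φ₁, h₁⟩ := pull_ins s Φ
    obtain ⟨Ψ₁, h₂, -⟩ := down1 (j := j + n) Φ₁
    obtain ⟨Ψ, h₃⟩ := ih Ψ₁ hs rfl
    refine ⟨Ψ, fun L M α T x hF hx => ?_⟩
    obtain ⟨M₁, α₁, β, T₁, rfl, e, f₁, f₂⟩ := FA1.split hF (· ≠ s)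
    let _ : Unique {i // ¬ i ≠ s} := ⟨⟨⟨s, fun h => h rfl⟩⟩, fun i => Subtype.ext (not_not.1 i.2)⟩
    obtain ⟨g₁, g₂, g₃⟩ := FA1.one.1 f₂
    rw [← h₃ L M₁ α₁ T₁ x f₁ hx, ← h₂ M₁ M β (T s) (c.map α₁ x, T₁) (hs ▸ g₁) g₂ g₃
      ⟨(S.map_iff α₁ x).2 hx, trivial⟩]
    refine Eq.trans ?_ (h₁ M _ _ _ ((S.map_iff β _).2 ((S.map_iff α₁ x).2 hx))).symm
    rw [c.map_map]
    simp only [e, ins_self]
    rfl

theorem up [FA1 K] (n : ℕ) : ∀ {c : Cd} {κ : Type} [Finite κ] {S : ASp K c} {i : ℕ}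
    (Φ : AF i (S.prod (.univ K (.vec κ)))), Nat.card κ = n →
    (∀ (j : ℕ) (L M : Fld K) (α : L →ₐ[K] M) (T : κ → M) (x : c.X L), i = j + n →
      Free j α T → S.mem L x → Φ.a M (c.map α x, T) = 0) → ∀ L x, Φ.a L x = 0 := by
  induction n with
  | zero =>
    intro c κ _ S i Φ hκ H L x
    have : IsEmpty κ := Finite.card_eq_zero_iff.1 hκ
    by_contra hv
    obtain ⟨hL, hx, -⟩ := a_mem Φ hv
    have := H i L L (AlgHom.id K L) x.2 x.1 rfl (FA1.zero.2 ⟨hL, Function.surjective_id⟩) hx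
    exact hv ((congrArg (fun u => Φ.a L (u, x.2)) (c.map_id x.1)).symm.trans this)
  | succ n ih =>
    intro c κ _ S i Φ hκ H L x
    obtain ⟨s⟩ : Nonempty κ := (Nat.card_pos_iff.1 (by omega)).1
    have hs : Nat.card {i // i ≠ s} = n := by
      have := card_ne s
      omega
    obtain ⟨Φ₁, h₁⟩ := pull_ins s Φ
    by_contra hv
    obtain ⟨-, hx, -⟩ := a_mem Φ hv
    have e := h₁ L x.1 (fun i => x.2 i.1) (x.2 s) hx
    rw [ins_self] at e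
    refine hv (e.symm.trans ?_)
    cases i with
    | zero => exact up0 Φ₁ _ _
    | succ i =>
      obtain ⟨Ψ₁, h₂, h₃⟩ := down1 Φ₁
      refine h₃ (ih Ψ₁ hs fun j L M α T x hj hF hx => ?_) _ _
      have hM : Good i M := hj ▸ hs ▸ hF.gM
      have f₁ : Free (j + Nat.card {i // i ≠ s}) M.toRat fun _ : Unit => (RatFunc.X : M.rat) :=
        FA1.one.2 ⟨hF.gM, trans_rat M, gen_rat M⟩
      have f₂ : Free j (M.toRat.comp α) (ins s (fun i => M.toRat (T i)) RatFunc.X) := by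
        refine FA1.of_gen (FA1.comp hF f₁)
          (by rw [Nat.card_sum, card_ne s, Nat.card_unique (α := Unit)]) ?_
        rintro (i | i) <;> refine IntermediateField.subset_adjoin _ _ (Or.inr ?_)
        exacts [⟨i.1, dif_neg i.2⟩, ⟨s, dif_pos rfl⟩]
      rw [← h₂ M M.rat M.toRat RatFunc.X (c.map α x, T) hM (trans_rat M) (gen_rat M)
        ⟨(S.map_iff α x).2 hx, trivial⟩]
      refine (h₁ M.rat _ _ _ ((S.map_iff _ _).2 ((S.map_iff α x).2 hx))).trans ?_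
      rw [c.map_map]
      exact H j L M.rat _ _ x (by omega) f₂ hx

variable {p : ℕ} {E : Ph K c} {W : ASp K d}

theorem nconn (Ω : ASp K .one) (γ δ : ∀ L : Fld K, (Cd.one.prod c).X L → c.X L)
    (hγ : Mp (Ω.prod E.S) E.S γ) (hδ : Mp (Ω.prod E.S) E.S δ)
    (h : ∀ (L : Fld K) (t : L) x, Ω.mem L t → E.S.mem L x →
      δ L (t, γ L (t, x)) = x ∧ E.φ L (γ L (t, x)) = E.φ L x)
    (hT : ∀ (L : Fld K) (T : L), Transcendental K T → Ω.mem L T) (a b : K)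
    (ha : Ω.mem (.base K) a) (hb : Ω.mem (.base K) b) (Φ : NF p j E W) (L : Fld K) (x : c.X L)
    (y : L) (w : d.X L) (hx : E.S.mem L x) :
    Φ.b L (γ L (algebraMap K L a, x)) y w = Φ.b L (γ L (algebraMap K L b, x)) y w := by
  have hc : ∀ c : K, Ω.mem (.base K) c → Ω.mem L (algebraMap K L c) := fun c h =>
    (Ω.map_iff (M := .base K) (Algebra.ofId K L) c).2 h
  by_cases hm : y ^ p - y = E.φ L x ∧ W.mem L w
  · have h1 : Mp (Ω.prod ((E.tot p).prod W)) ((E.tot p).prod W)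
        fun L z => ((γ L (z.1, z.2.1.1), z.2.1.2), z.2.2) :=
      ⟨fun _ _ R z z' m m' e => ⟨⟨hγ.reg R (x := (z.1, z.2.1.1)) (x' := (z'.1, z'.2.1.1))
        ⟨m.1, m.2.1.1.1⟩ ⟨m'.1, m'.2.1.1.1⟩ ⟨e.1, e.2.1.1⟩, e.2.1.2⟩, e.2.2⟩,
      fun L z m => ⟨⟨⟨hγ.mem L (z.1, z.2.1.1) ⟨m.1, m.2.1.1.1⟩, trivial⟩,
        m.2.1.2.trans (h L _ _ m.1 m.2.1.1.1).2.symm⟩, m.2.2⟩⟩
    refine aconn Ω h1 ?_ hT a b ha hb Φ.toFe L ((x, y), w) ⟨⟨⟨hx, trivial⟩, hm.1⟩, hm.2⟩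
    intro M O t t' z z' m m' r n n' e
    have e₁ := hδ.reg (Rel.ofPl O) (x := (t, γ M (t, z.1.1))) (x' := (t', z'.1.1))
      ⟨m, hγ.mem M (t, z.1.1) ⟨m, n.1.1.1⟩⟩ ⟨m', n'.1.1.1⟩ ⟨r, e.1.1⟩
    rw [(h M t _ m n.1.1.1).1] at e₁
    have e₂ := hδ.mem O.res (t', z'.1.1) ⟨m', n'.1.1.1⟩
    exact ⟨((δ _ (t', z'.1.1), z'.1.2), z'.2), ⟨⟨⟨e₂, trivial⟩,
      Rel.eq (Rel.sub (Rel.pow e.1.2 p) e.1.2) (E.reg _ n.1.1.1 e₂ e₁) n.1.2⟩, n'.2⟩,
      ⟨e₁, e.1.2⟩, e.2⟩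
  · have : ∀ c : K, Ω.mem (.base K) c → Φ.b L (γ L (algebraMap K L c, x)) y w = 0 := fun c m => by
      by_contra hv
      obtain ⟨-, h1, h2⟩ := a_mem Φ.toFe hv
      exact hm ⟨h1.2.trans (h L _ x (hc c m) hx).2, h2⟩
    rw [this a ha, this b hb]

theorem kill [Fact p.Prime] [CharP K p] (γ : ∀ L : Fld K, (Cd.one.prod c).X L → c.X L)
    (hγ : Mp ((ASp.univ K .one).prod E.S) E.S γ)
    (h : ∀ (L : Fld K) (t : L) x, E.S.mem L x →
      γ L (0, x) = x ∧ γ L (-t, γ L (t, x)) = x ∧ E.φ L (γ L (t, x)) = E.φ L x + t) :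
    Van p E W := by
  intro j Φ L x y w
  by_contra hv
  obtain ⟨-, hm⟩ := a_mem Φ.toFe hv
  have ch : ∀ L : Fld K, CharP L p := fun L =>
    charP_of_injective_algebraMap (algebraMap K L).injective p
  have h1 : ∀ ε : ℤˣ, Mp ((ASp.univ K .one).prod ((E.tot p).prod W)) ((E.tot p).prod W)
      fun L z => ((γ L ((ε : ℤ) * (z.1 ^ p - z.1), z.2.1.1), z.2.1.2 + (ε : ℤ) * z.1), z.2.2) :=
    fun ε => ⟨fun _ _ R z z' m m' e => ⟨⟨hγ.reg R (x := (_, z.2.1.1)) (x' := (_, z'.2.1.1))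
        ⟨trivial, m.2.1.1.1⟩ ⟨trivial, m'.2.1.1.1⟩
        ⟨R.mul (R.intCast _) (Rel.sub (Rel.pow e.1 p) e.1), e.2.1.1⟩,
        R.add e.2.1.2 (R.mul (R.intCast _) e.1)⟩, e.2.2⟩,
      fun L z m => ⟨⟨⟨hγ.mem L (_, z.2.1.1) ⟨trivial, m.2.1.1.1⟩, trivial⟩, by
        have := ch L
        have e : z.2.1.2 ^ p - z.2.1.2 = E.φ L z.2.1.1 := m.2.1.2
        show (z.2.1.2 + (ε : ℤ) * z.1) ^ p - (z.2.1.2 + (ε : ℤ) * z.1) = E.φ L (γ L (_, z.2.1.1))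
        rw [(h L _ _ m.2.1.1.1).2.2, ← e, add_pow_char, mul_pow,
          ← frobenius_def p ((ε : ℤ) : L), map_intCast]
        ring⟩, m.2.2⟩⟩
  have h2 : ∀ a : K, Φ.b L (γ L (algebraMap K L a ^ p - algebraMap K L a, x))
      (y + algebraMap K L a) w = Φ.b L x y w := fun a => by
    have h4 := aconn (ASp.univ K .one) (h1 1) (fun M O t t' z z' _ _ r n n' e => ?_)
      (fun _ _ _ => trivial) a 0 trivial trivial Φ.toFe L ((x, y), w) hm
    · simpa [(h L 0 x hm.1.1.1).1, (Fact.out : p.Prime).ne_zero] using h4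
    · have e₁ := (h1 (-1)).reg (Rel.ofPl O) (x := (t, _)) (x' := (t', z'))
        ⟨trivial, (h1 1).mem M (t, z) ⟨trivial, n⟩⟩ ⟨trivial, n'⟩ ⟨r, e⟩
      refine ⟨_, (h1 (-1)).mem _ (t', z') ⟨trivial, n'⟩, ?_⟩
      have e₂ := (h M (t ^ p - t) _ n.1.1.1).2.1
      rw [neg_sub] at e₂
      simpa [e₂] using e₁
  have h3 := Φ.nt L x y w
  rw [Finset.sum_congr rfl (g := fun _ => Φ.b L x y w) fun a _ => ?_] at h3
  · rw [Finset.sum_const, Finset.card_range, nsmul_eq_mul] at h3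
    exact mul_ne_zero (Nat.cast_ne_zero.2 (Fact.out : p.Prime).ne_zero) hv h3
  · have := ch L
    have e : (a : L) ^ p - a = 0 := by rw [← frobenius_def, map_natCast, sub_self]
    have := h2 a
    rwa [map_natCast, e, (h L 0 x hm.1.1.1).1] at this

end FC2a

theorem FC2_thm {K : Type} [Field K] [Base K] {p : ℕ} [Fact p.Prime] [CharP K p] [FA1 K] [FA3 K]
    [FB5 K] [FC1 K p] : FC2 K p where
  conn Ω γ δ hγ hδ h hT a b ha hb _ Φ L x y w hx :=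
    FC2a.nconn Ω γ δ hγ hδ h hT a b ha hb Φ L x y w hx
  kill γ hγ h := FC2a.kill γ hγ h
  up Φ h := FC2a.up _ Φ rfl h
  down Φ := FC2a.down _ Φ rfl rfl

end Pool.Agent.Lib.MP_557161_ag.HG
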