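import Pool.Agent.Lib.MP_557161_ag.HG.St1

/-!
Connected families of proper maps act trivially on functionals.
-/

namespace Pool.Agent.Lib.MP_557161_ag.HG.FC2a

open Pool.Agent.Lib.MP_557161_ag.DL

variable {K : Type} [Field K] [Base K] {A : Amb K} {P : Sp A} {j : ℕ}

omit [Base K] in
/-- The divisor of a generator of a simple transcendental extension. -/
theorem two_pts (φ : Fe j P) {L M : Fld K} {α : L →ₐ[K] M} {U : M} (hL : Good j L)
    (ht : Trans' α U) (hg : Gen α U) (z : A.pt M) (hz : P.mem z) (r₀ r₁ : ℂ)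
    (hn : ∀ O : Pl M, O.IsDVR → ¬ Pl.Triv α O → O.ord U ≠ 0 → φ.v O.res (A.red O z) = 0)
    (h₀ : ∀ (O : Pl M) (h : Pl.Triv α O), O.IsDiv j → Function.Surjective h.hom → 0 < O.ord U →
      φ.v O.res (A.red O z) = r₀)
    (h₁ : ∀ (O : Pl M) (h : Pl.Triv α O), O.IsDiv j → Function.Surjective h.hom → 0 < O.ord U⁻¹ →
      φ.v O.res (A.red O z) = r₁) : r₀ = r₁ := by
  classical
  have hU : U ≠ 0 := fun h => ht.ne 0 (h.trans (map_zero _).symm)
  obtain ⟨O₀, t₀, d₀, o₀, s₀⟩ := Pl.exists_zero_place ht hg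
  obtain ⟨O₁, t₁, d₁, o₁, s₁⟩ := Pl.exists_zero_place ht.inv hg.inv
  have i₀ : O₀.IsDiv j := ⟨d₀, (Fin'.of_surj s₀).tr_eq.trans hL.2⟩
  have i₁ : O₁.IsDiv j := ⟨d₁, (Fin'.of_surj s₁).tr_eq.trans hL.2⟩
  have hinv : ∀ (O : Pl M) (f : M), O.IsDVR → 0 < O.ord f → f⁻¹ ∉ O.O := by
    intro O f d ho hh
    have := (Pl.ord_nonneg_iff d).2 hh
    rw [Pl.ord_inv d] at this
    omega
  have o₂ : O₁.ord U = -1 := by
    rw [Pl.ord_inv d₁] at o₁
    omega
  have hne : (⟨O₀, i₀⟩ : Dv M j) ≠ ⟨O₁, i₁⟩ := fun e => by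
    obtain rfl : O₀ = O₁ := congrArg Subtype.val e
    omega
  have H := (φ.rat M z U (hL.succ ht hg) hz hU).2
  rw [finsum_eq_sum_of_support_subset _ (s := {⟨O₀, i₀⟩, ⟨O₁, i₁⟩}), Finset.sum_pair hne] at H
  · simp only [o₀, o₂] at H
    rw [h₀ O₀ t₀ i₀ s₀ (by omega), h₁ O₁ t₁ i₁ s₁ (by omega)] at H
    simpa [add_neg_eq_zero] using H
  · intro O hO
    have o : O.1.ord U ≠ 0 := by exact_mod_cast left_ne_zero_of_mul hO
    have hT : Pl.Triv α O.1 := by
      by_contra hT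
      exact right_ne_zero_of_mul hO (hn O.1 O.2.1 hT o)
    simp only [Finset.coe_insert, Finset.coe_singleton, Set.mem_insert_iff, Set.mem_singleton_iff]
    rcases lt_or_gt_of_ne o with o | o
    · exact Or.inr (Subtype.ext (Pl.zero_place_unique ht.inv hg.inv hT t₁
        (hinv _ _ O.2.1 (by rw [Pl.ord_inv O.2.1]; omega)) (hinv _ _ d₁ (o₁ ▸ one_pos))))
    · exact Or.inl (Subtype.ext (Pl.zero_place_unique ht hg hT t₀ (hinv _ _ O.2.1 o)
        (hinv _ _ d₀ (o₀ ▸ one_pos))))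

omit [Base K] in
theorem comap_lt {L M : Fld K} {α : L →ₐ[K] M} {O : Pl M} (h : ¬ Pl.Triv α O) (hL : Good j L) :
    (Pl.comap α O).res.tr < j :=
  Pl.tr_res_lt _ (fun h0 => h fun x =>
    (Pl.over_comap α O x).1 (h0 ▸ ValuationSubring.mem_top x)) hL.2.le

omit [Base K] in
theorem lift_of_ord {M : Fld K} {O : Pl M} (d : O.IsDVR) {T : M} {a b : K} (hab : a ≠ b)
    (ha : T ≠ algebraMap K M a) (hb : T ≠ algebraMap K M b)
    (h : 0 < O.ord ((T - algebraMap K M a) / (T - algebraMap K M b))) :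
    (Rel.ofPl O).r T (algebraMap K O.res a) := by
  set U := (T - algebraMap K M a) / (T - algebraMap K M b) with hU
  have ha' := sub_ne_zero.2 ha
  have hb' := sub_ne_zero.2 hb
  have h1 : (Rel.ofPl O).r U 0 := (Pl.ord_pos_iff d (div_ne_zero ha' hb')).1 h
  have h2 := Rel.div (Rel.sub ((Rel.ofPl O).const a) ((Rel.ofPl O).mul ((Rel.ofPl O).const b) h1))
    (Rel.sub (Rel.one _) h1) (by simp)
  have h3 : algebraMap K M a - algebraMap K M b ≠ 0 :=
    sub_ne_zero.2 fun e => hab ((algebraMap K M).injective e)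
  have h4 : 1 - U = (algebraMap K M a - algebraMap K M b) / (T - algebraMap K M b) := by
    rw [hU]
    field_simp
    ring
  have h5 : (algebraMap K M a - algebraMap K M b * U) / (1 - U) = T := by
    rw [h4, hU]
    field_simp
    ring
  rw [h5] at h2
  simpa using h2

omit [Base K] in
theorem transc {L M : Fld K} {α : L →ₐ[K] M} {T : M} (h : Trans' α T) : Transcendental K T := by
  have := h.comp (L := Fld.base K) (Algebra.ofId K L)
  refine transcendental_iff.2 fun P hP => this P ?_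
  rw [← hP, Polynomial.aeval_def]
  congr 1
  exact RingHom.ext fun x => (α.comp (Algebra.ofId K L)).commutes x

/-- A connected family of proper maps. -/
theorem conn (Ω : ASp K .one) (γ : Mor (Ω.sp.prod P) P)
    (hp : ∀ (M : Fld K) (O : Pl M) (t : M) (t' : O.res) (y : A.pt M), O.IsDVR → Ω.mem M t →
      Ω.mem O.res t' → (Rel.ofPl O).r t t' → P.mem y → P.mem (A.red O (γ.f (L := M) (some t, y))) →
      P.mem (A.red O y))
    (hT : ∀ (L : Fld K) (T : L), Transcendental K T → Ω.mem L T) (a b : K)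
    (ha : Ω.mem (.base K) a) (hb : Ω.mem (.base K) b) (φ : Fe j P) (L : Fld K) (y : A.pt L)
    (hy : P.mem y) :
    φ.v L (γ.f (L := L) (some (algebraMap K L a), y)) =
      φ.v L (γ.f (L := L) (some (algebraMap K L b), y)) := by
  by_cases hab : a = b
  · rw [hab]
  by_cases hL : Good j L
  swap
  · rw [not_not.1 fun e => hL (φ.supp _ _ e).1, not_not.1 fun e => hL (φ.supp _ _ e).1]
  have hc : ∀ c : K, Ω.mem (.base K) c → ∀ N : Fld K, Ω.mem N (algebraMap K N c) := fun c h N =>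
    (Ω.map_iff (M := .base K) (Algebra.ofId K N) c).2 h
  set α := L.toRat
  set T : L.rat := RatFunc.X
  have ht : Trans' α T := trans_rat L
  have hg : Gen α T := gen_rat L
  have hΩ := hT L.rat T (transc ht)
  have hy' := (P.map_iff α y).2 hy
  have hne : ∀ c : K, T ≠ algebraMap K L.rat c := fun c e =>
    ht.ne (algebraMap K L c) (e.trans (α.commutes c).symm)
  have hz : P.mem (γ.f (L := L.rat) (some T, A.map α y)) := γ.mem _ ⟨Ω.sp_some.2 hΩ, hy'⟩
  have key : ∀ (c : K) (O : Pl L.rat), Ω.mem (.base K) c → O.IsDVR →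
      (Rel.ofPl O).r T (algebraMap K O.res c) → ∀ (N : Fld K) (κ : N →ₐ[K] O.res) (y₀ : A.pt N),
      A.red O (A.map α y) = A.map κ y₀ → (P.mem y₀ ∨
        P.mem (A.red O (γ.f (L := L.rat) (some T, A.map α y)))) →
      A.red O (γ.f (L := L.rat) (some T, A.map α y)) =
        A.map κ (γ.f (L := N) (some (algebraMap K N c), y₀)) := by
    intro c O h d r N κ y₀ e m
    have m₁ : P.mem y₀ := m.elim id fun m =>
      (P.map_iff κ y₀).1 (e ▸ hp _ O T _ _ d hΩ (hc c h _) r hy' m)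
    have e₁ : (Cd.one.amb K).red O (some T) = some (algebraMap K O.res c) := Cd.red_some r
    have e₂ : ((Cd.one.amb K).prod A).red O (some T, A.map α y) =
        ((Cd.one.amb K).prod A).map κ (some (algebraMap K N c), y₀) :=
      Prod.ext (e₁.trans (congrArg some (κ.commutes c).symm)) e
    have m₂ : (Ω.sp.prod P).mem (L := N) (some (algebraMap K N c), y₀) :=
      ⟨Ω.sp_some.2 (hc c h N), m₁⟩
    exact (γ.cont O (some T, A.map α y) d ⟨Ω.sp_some.2 hΩ, hy'⟩
      (e₂ ▸ ((Ω.sp.prod P).map_iff κ _).2 m₂)).symm.trans ((congrArg γ.f e₂).trans (γ.nat κ _ m₂))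
  have hU : (T - algebraMap K L.rat a) / (T - algebraMap K L.rat b) =
      α (algebraMap K L (b - a)) * (α 1 * T + α (-algebraMap K L b))⁻¹ + α 1 := by
    have := sub_ne_zero.2 (hne b)
    rw [map_one, map_neg, α.commutes, α.commutes, one_mul, ← sub_eq_add_neg, map_sub]
    field_simp
    ring
  have hba : algebraMap K L (b - a) ≠ 0 := (map_ne_zero _).2 (sub_ne_zero.2 (Ne.symm hab))
  have val : ∀ (c : K) (O : Pl L.rat) (h : Pl.Triv α O), Ω.mem (.base K) c → O.IsDiv j →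
      Function.Surjective h.hom → (Rel.ofPl O).r T (algebraMap K O.res c) →
      φ.v O.res (A.red O (γ.f (L := L.rat) (some T, A.map α y))) =
        φ.v L (γ.f (L := L) (some (algebraMap K L c), y)) := fun c O h m d s r => by
    rw [key c O m d.1 r L h.hom y (A.red_triv h y) (Or.inl hy),
      φ.ext _ _ hL (d.good (hL.succ ht hg)), deg_of_surj s, Nat.cast_one, one_mul]
  refine two_pts φ (U := (T - algebraMap K L.rat a) / (T - algebraMap K L.rat b)) hL
    (hU ▸ (ht.affine one_ne_zero _).inv.affine hba _)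
    (hU ▸ (hg.affine one_ne_zero _).inv.affine hba _) _ hz _ _ (fun O d n o => ?_)
    (fun O h d s o => val a O h ha d s (lift_of_ord d.1 hab (hne a) (hne b) o))
    fun O h d s o => val b O h hb d s
      (lift_of_ord d.1 (Ne.symm hab) (hne b) (hne a) (by rwa [inv_div] at o))
  by_contra hv
  have : ∃ c : K, Ω.mem (.base K) c ∧ (Rel.ofPl O).r T (algebraMap K O.res c) := by
    rcases lt_or_gt_of_ne o with o | o
    · exact ⟨b, hb, lift_of_ord d (Ne.symm hab) (hne b) (hne a) (by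
        rw [← inv_div, Pl.ord_inv d]; omega)⟩
    · exact ⟨a, ha, lift_of_ord d hab (hne a) (hne b) o⟩
  obtain ⟨c, m, r⟩ := this
  apply hv
  rw [key c O m d r _ (Pl.over_comap α O).resHom _ (A.red_map (Pl.over_comap α O) y)
    (Or.inr (φ.supp _ _ hv).2)]
  exact φ.low _ _ (comap_lt n hL)

/-- A connected family of maps with left inverses. -/
theorem conn_inv (Ω : ASp K .one) (γ δ : Mor (Ω.sp.prod P) P)
    (h : ∀ (L : Fld K) (t : L) (y : A.pt L), Ω.mem L t → P.mem y →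
      δ.f (L := L) (some t, γ.f (L := L) (some t, y)) = y)
    (hT : ∀ (L : Fld K) (T : L), Transcendental K T → Ω.mem L T) (a b : K)
    (ha : Ω.mem (.base K) a) (hb : Ω.mem (.base K) b) (φ : Fe j P) (L : Fld K) (y : A.pt L)
    (hy : P.mem y) :
    φ.v L (γ.f (L := L) (some (algebraMap K L a), y)) =
      φ.v L (γ.f (L := L) (some (algebraMap K L b), y)) := by
  refine conn Ω γ (fun M O t t' y d m m' r hy hz => ?_) hT a b ha hb φ L y hy
  have e : (Cd.one.amb K).red O (some t) = some t' := Cd.red_some r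
  have m₁ : (Ω.sp.prod P).mem (((Cd.one.amb K).prod A).red O
      (some t, γ.f (L := M) (some t, y))) := ⟨⟨t', e, m'⟩, hz⟩
  have := δ.cont O (some t, γ.f (L := M) (some t, y)) d
    ⟨Ω.sp_some.2 m, γ.mem _ ⟨Ω.sp_some.2 m, hy⟩⟩ m₁
  rw [h M t y m hy] at this
  exact this ▸ δ.mem _ m₁

variable {c : Cd}

/-- A family of regular maps as a morphism. -/
def fam {Ω : ASp K .one} {S : ASp K c} {g : ∀ L : Fld K, (Cd.one.prod c).X L → c.X L}
    (h : Mp (Ω.prod S) S g) : Mor (Ω.sp.prod S.sp) S.sp where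
  f {L} y := y.1.bind fun t => y.2.map fun x => g L (t, x)
  mem := by
    rintro L ⟨_, _⟩ ⟨⟨t, rfl, ht⟩, ⟨x, rfl, hx⟩⟩
    exact ⟨_, rfl, h.mem L (t, x) ⟨ht, hx⟩⟩
  nat := by
    rintro L L' ι ⟨_, _⟩ ⟨⟨t, rfl, ht⟩, ⟨x, rfl, hx⟩⟩
    exact congrArg some (h.reg.nat ι (x := (t, x)) ⟨ht, hx⟩)
  cont := by
    rintro M O ⟨_, _⟩ _ ⟨⟨t, rfl, ht⟩, ⟨x, rfl, hx⟩⟩ ⟨⟨t', e, ht'⟩, ⟨x', e', hx'⟩⟩
    have e₁ : ((Cd.one.amb K).prod (c.amb K)).red O (some t, some x) = (some t', some x') :=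
      Prod.ext e e'
    rw [e₁]
    exact (Cd.red_some (h.reg _ (x := (t, x)) (x' := (t', x')) ⟨ht, hx⟩ ⟨ht', hx'⟩
      ⟨Cd.lift_of_red (c := .one) e, Cd.lift_of_red e'⟩)).symm

/-- A connected family of proper regular maps. -/
theorem aconn {S : ASp K c} (Ω : ASp K .one) {g : ∀ L : Fld K, (Cd.one.prod c).X L → c.X L}
    (h : Mp (Ω.prod S) S g)
    (hp : ∀ (M : Fld K) (O : Pl M) (t : M) (t' : O.res) (x : c.X M) (z : c.X O.res), Ω.mem M t →
      Ω.mem O.res t' → (Rel.ofPl O).r t t' → S.mem M x → S.mem O.res z →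
      c.lift (Rel.ofPl O).r (g M (t, x)) z → ∃ x', S.mem O.res x' ∧ c.lift (Rel.ofPl O).r x x')
    (hT : ∀ (L : Fld K) (T : L), Transcendental K T → Ω.mem L T) (a b : K)
    (ha : Ω.mem (.base K) a) (hb : Ω.mem (.base K) b) (φ : AF j S) (L : Fld K) (x : c.X L)
    (hx : S.mem L x) :
    φ.a L (g L (algebraMap K L a, x)) = φ.a L (g L (algebraMap K L b, x)) := by
  refine conn Ω (fam h) ?_ hT a b ha hb φ L (some x) (S.sp_some.2 hx)
  rintro M O t t' _ - m m' r ⟨x, rfl, hx⟩ ⟨z, e, hz⟩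
  obtain ⟨x', h1, h2⟩ := hp M O t t' x z m m' r hx hz (Cd.lift_of_red e)
  exact ⟨x', Cd.red_some h2, h1⟩

end Pool.Agent.Lib.MP_557161_ag.HG.FC2a
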