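import Pool.Agent.Lib.MP_557161_ag.HG.St1

/-!
The closure of the graph of a quotient of two regular functions, and the intersection with the
divisor over their common zeros.
-/

namespace Pool.Agent.Lib.MP_557161_ag.HG

open Pool.Agent.Lib.MP_557161_ag.DL

namespace F3

variable {K : Type} [Field K] {c c' : Cd} {M L : Fld K}

/-- The equation `e = ξ g` for a point `ξ` of the projective line. -/
def bl {L : Type} [Field L] (e g : L) : Option L → Prop
  | some u => e = u * g
  | none => g = 0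

/-- The reduction of a point of the projective line. -/
noncomputable abbrev rp (O : Pl M) (ξ : Option M) : Option O.res := (Cd.one.amb K).red O ξ

lemma rp_mem {O : Pl M} {u : M} (h : u ∈ O.O) : rp O (some u) = some (O.rd u) :=
  Cd.red_some (c := .one) ⟨h, rfl⟩

lemma rp_not {O : Pl M} {u : M} (h : u ∉ O.O) : rp O (some u) = none := if_neg h

lemma rp_rel {O : Pl M} {u : M} {u' : O.res} (h : rp O (some u) = some u') :
    (Rel.ofPl O).r u u' := Cd.lift_of_red (c := .one) h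

lemma bl_red {O : Pl M} {e g : M} {e' g' : O.res} (he : (Rel.ofPl O).r e e')
    (hg : (Rel.ofPl O).r g g') {ξ : Option M} (h : bl e g ξ) : bl e' g' (rp O ξ) := by
  cases ξ with
  | none => exact Rel.eq_zero hg h
  | some u =>
    by_cases hu : u ∈ O.O
    · rw [rp_mem hu]
      exact Rel.eq he ((Rel.ofPl O).mul ⟨hu, rfl⟩ hg) h
    · rw [rp_not hu]
      have h0 : u ≠ 0 := fun e => hu (e ▸ zero_mem _)
      have h1 : u⁻¹ ∈ O.O := (O.O.mem_or_inv_mem u).resolve_left hu
      have h2 : O.rd u⁻¹ = 0 := by_contra fun e =>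
        hu (by simpa using ((O.rd_ne_zero_iff h1).1 e).2)
      exact (Rel.eq hg ((Rel.ofPl O).mul ⟨h1, h2⟩ he)
        (by rw [show e = u * g from h, inv_mul_cancel_left₀ h0])).trans (zero_mul _)

lemma bl_map (ι : M →ₐ[K] L) (e g : M) (ξ : Option M) :
    bl (ι e) (ι g) (ξ.map ι) ↔ bl e g ξ := by
  cases ξ with
  | none => exact map_eq_zero ι
  | some u =>
    show ι e = ι u * ι g ↔ e = u * g
    rw [← map_mul]
    exact ι.injective.eq_iff

lemma bl_zero {L : Type} [Field L] (ξ : Option L) : bl 0 0 ξ := by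
  cases ξ with
  | none => rfl
  | some u => exact (mul_zero u).symm

lemma red_eq_some {O : Pl M} {O' : Pl O.res} {y : Option (c.X O.res)} {q : c.X O'.res}
    (h : (c.amb K).red O' y = some q) : ∃ q', y = some q' := by
  cases y with
  | none => exact nomatch h
  | some q' => exact ⟨q', rfl⟩

/-- The two standard charts of the projective line. -/
def ch {L : Type} [Field L] : Bool → Option L → Prop
  | false, ξ => ξ ≠ none
  | true, ξ => ξ ≠ some 0

lemma ch_isNone {L : Type} [Field L] (ξ : Option L) : ch ξ.isNone ξ := by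
  cases ξ <;> simp [ch]

lemma ch_both {L : Type} [Field L] {ξ : Option L} (h : ch false ξ) (h' : ch true ξ) :
    ∃ u, ξ = some u ∧ u ≠ 0 := by
  cases ξ with
  | none => exact absurd rfl h
  | some u => exact ⟨u, rfl, fun e => h' (congrArg some e)⟩

lemma ch_map (ι : M →ₐ[K] L) (i : Bool) (ξ : Option M) : ch i (ξ.map ι) ↔ ch i ξ := by
  cases i <;> cases ξ <;> simp [ch]

lemma ch_red (O : Pl M) (i : Bool) (ξ : Option M) (h : ch i (rp O ξ)) : ch i ξ := by
  cases i with
  | false => rintro rfl; exact h rfl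
  | true => rintro rfl; exact h ((rp_mem (zero_mem _)).trans (congrArg some O.rd_zero))

/-- The transition functions. -/
def tt {L : Type} [Field L] : Bool → Bool → L → L
  | false, true, u => u⁻¹
  | true, false, u => u
  | _, _, _ => 1

open Classical in
/-- The standard rational section. -/
noncomputable def sc {L : Type} [Field L] (e g : L) (ξ : Option L) (i : Bool) : L :=
  if g = 0 ∧ e = 0 then cond i (if ξ.getD 1 = 0 then 1 else ξ.getD 1) 1 else cond i e g

lemma sc_mem (F : IntermediateField K L) {e g : L} {ξ : Option L} (he : e ∈ F) (hg : g ∈ F)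
    (hξ : ξ.getD 1 ∈ F) (i : Bool) : sc e g ξ i ∈ F := by
  unfold sc
  cases i <;> split_ifs <;> first | assumption | exact one_mem F

section
variable (T : ASp K c) (e g : ∀ L : Fld K, c.X L → L) (he : Reg T .one e) (hg : Reg T .one g)

/-- The closure of the graph of `e / g`. -/
def Bl : Sp ((c.amb K).prod (Cd.one.amb K)) where
  mem {L} z := ∃ q, z.1 = some q ∧ T.mem L q ∧ bl (e L q) (g L q) z.2
  map_iff {L L'} ι z := by
    obtain ⟨y, ξ⟩ := z
    have key : ∀ q, T.mem L q →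
        (bl (e L' (c.map ι q)) (g L' (c.map ι q)) (ξ.map ι) ↔ bl (e L q) (g L q) ξ) :=
      fun q m => by rw [he.nat ι m, hg.nat ι m]; exact bl_map ι _ _ ξ
    cases y with
    | none => exact ⟨fun ⟨_, h, _⟩ => (nomatch h), fun ⟨_, h, _⟩ => nomatch h⟩
    | some q =>
      constructor
      · rintro ⟨q', h, m, b⟩
        obtain rfl : c.map ι q = q' := Option.some.inj h
        have m' := (T.map_iff ι q).1 m
        exact ⟨q, rfl, m', (key q m').1 b⟩
      · rintro ⟨q', h, m, b⟩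
        obtain rfl : q = q' := Option.some.inj h
        exact ⟨_, rfl, (T.map_iff ι q).2 m, (key q m).2 b⟩

lemma Bl_some {q : c.X L} {ξ : Option L} :
    (Bl T e g he hg).mem (L := L) (some q, ξ) ↔ T.mem L q ∧ bl (e L q) (g L q) ξ :=
  ⟨fun ⟨_, h, m⟩ => Option.some.inj h ▸ m, fun m => ⟨q, rfl, m⟩⟩

lemma atl [FB3 K] : Atl (Bl T e g he hg) := by
  refine FB3.sub (FB3.prod (FB3.aff T) FB3.p1) ?_ ?_
  · rintro L z ⟨q, h, m, -⟩
    exact ⟨⟨q, h, m⟩, trivial⟩
  · rintro M O O' ⟨_, ξ⟩ - - ⟨q, rfl, m, b⟩ ⟨q'', h, m'', -⟩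
    obtain ⟨q', h'⟩ := red_eq_some h
    have r := Cd.lift_of_red h'
    have m' := T.mid r (Cd.lift_of_red (h' ▸ h)) m m''
    exact ⟨q', h', m', bl_red (he _ m m' r) (hg _ m m' r) b⟩

/-- The charts. -/
def UU (i : Bool) : Sp ((c.amb K).prod (Cd.one.amb K)) where
  mem z := (Bl T e g he hg).mem z ∧ ch i z.2
  map_iff ι z := and_congr ((Bl T e g he hg).map_iff ι z) (ch_map ι i z.2)

variable (T₀ : ASp K c) (h₀ : ∀ L q, T₀.mem L q ↔ T.mem L q ∧ g L q = 0 ∧ e L q = 0)

/-- The divisor over the common zeros. -/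
noncomputable def car : Car (Bl T e g he hg) (T₀.sp.prod (P1 K)) where
  ι := Bool
  fin := inferInstance
  U := UU T e g he hg
  opn i := ⟨fun _ _ h => h.1, fun _ O z _ h h' => ⟨h, ch_red O i _ h'.2⟩⟩
  cov _ z h := ⟨_, h, ch_isNone z.2⟩
  t i k _ z := tt i k (z.2.getD 1)
  s i L z := z.1.elim 0 fun q => cond i (e L q) (g L q)
  rt i k := by
    constructor
    · rintro L L' ι ⟨y, ξ⟩ -
      show tt i k ((ξ.map ι).getD 1) = ι (tt i k (ξ.getD 1))
      cases i <;> cases k <;> cases ξ <;> simp [tt]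
    · rintro M O ⟨y, ξ⟩ - h h'
      have key : ∀ {i k}, (UU T e g he hg false).mem (L := M) (y, ξ) →
          ch false (rp O ξ) → ch true (rp O ξ) →
          (Rel.ofPl O).r (tt i k (ξ.getD 1)) (tt i k ((rp O ξ).getD 1)) := by
        intro i k a b b'
        obtain ⟨u', e', h0⟩ := ch_both b b'
        obtain ⟨u, rfl⟩ := Option.ne_none_iff_exists'.1 a.2
        rw [e']
        have r := rp_rel e'
        cases i <;> cases k
        exacts [Rel.one _, (Rel.ofPl O).inv r h0, r, Rel.one _]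
      cases i <;> cases k
      exacts [Rel.one (Rel.ofPl O), key h.1 h'.1.2 h'.2.2, key h.2 h'.2.2 h'.1.2,
        Rel.one (Rel.ofPl O)]
  rs i := by
    constructor
    · rintro L L' ι ⟨_, ξ⟩ ⟨⟨q, rfl, m, -⟩, -⟩
      cases i
      exacts [hg.nat ι m, he.nat ι m]
    · rintro M O ⟨_, ξ⟩ - ⟨⟨q, rfl, m, -⟩, -⟩ ⟨⟨q', h', m', -⟩, -⟩
      have r := Cd.lift_of_red h'
      show (Rel.ofPl O).r (cond i (e M q) (g M q))
        (((c.amb K).red O (some q)).elim 0 fun q => cond i (e _ q) (g _ q))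
      rw [show (c.amb K).red O (some q) = some q' from h']
      cases i
      exacts [hg _ m m' r, he _ m m' r]
  t_ne i k L z h h' := by
    cases i <;> cases k
    · exact one_ne_zero
    · obtain ⟨u, e, h0⟩ := ch_both h.2 h'.2
      rw [e]
      exact inv_ne_zero h0
    · obtain ⟨u, e, h0⟩ := ch_both h'.2 h.2
      rw [e]
      exact h0
    · exact one_ne_zero
  coc i k l L z h h' h'' := by
    cases i <;> cases k <;> cases l <;> try (simp only [tt, one_mul, mul_one])
    · obtain ⟨u, e, h0⟩ := ch_both h.2 h'.2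
      rw [e]
      exact inv_mul_cancel₀ h0
    · obtain ⟨u, e, h0⟩ := ch_both h'.2 h.2
      rw [e]
      exact mul_inv_cancel₀ h0
  s_eq i k := by
    rintro L ⟨_, ξ⟩ ⟨⟨q, rfl, m, b⟩, h⟩ ⟨-, h'⟩
    cases i <;> cases k
    · exact (one_mul _).symm
    · obtain ⟨u, rfl, h0⟩ := ch_both h h'
      exact (eq_inv_mul_iff_mul_eq₀ h0).2 (Eq.symm b)
    · obtain ⟨u, rfl, h0⟩ := ch_both h' h
      exact b
    · exact (one_mul _).symm
  sub := by
    rintro L ⟨_, ξ⟩ ⟨⟨q, rfl, m⟩, -⟩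
    obtain ⟨a, b, b'⟩ := (h₀ L q).1 m
    exact ⟨q, rfl, a, by rw [b, b']; exact bl_zero ξ⟩
  zero i := by
    rintro L ⟨_, ξ⟩ ⟨⟨q, rfl, m, b⟩, h⟩
    refine Iff.trans ?_ ((T₀.sp_some.trans (h₀ L q)).symm.trans (and_true _).symm.to_iff)
    rw [and_iff_right m]
    cases i
    · obtain ⟨u, rfl⟩ := Option.ne_none_iff_exists'.1 h
      exact ⟨fun a : g L q = 0 => ⟨a, by rw [show e L q = u * g L q from b, a, mul_zero]⟩,
        fun a => a.1⟩
    · refine ⟨fun a : e L q = 0 => ⟨?_, a⟩, fun a => a.2⟩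
      cases ξ with
      | none => exact b
      | some u =>
        exact (mul_eq_zero.1 ((show e L q = u * g L q from b).symm.trans a)).resolve_left
          fun e => h (congrArg some e)

open Classical in
lemma sec {q : c.X M} {ξ : Option M} (m : T.mem M q) (b : bl (e M q) (g M q) ξ) :
    (car T e g he hg T₀ h₀).Sec (M := M) (some q, ξ) (sc (e M q) (g M q) ξ) := by
  have hD : (T₀.sp.prod (P1 K)).mem (L := M) (some q, ξ) ↔ g M q = 0 ∧ e M q = 0 :=
    ((and_true _).to_iff.trans (T₀.sp_some.trans (h₀ M q))).trans (and_iff_right m)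
  by_cases h : g M q = 0 ∧ e M q = 0
  · refine ⟨fun (i : Bool) _ => ?_, fun (i k : Bool) a a' => ?_, fun a => absurd (hD.2 h) a⟩
    · rw [sc, if_pos h]
      cases i
      · exact one_ne_zero
      · show (if _ then _ else _) ≠ _
        split_ifs with a
        exacts [one_ne_zero, a]
    · rw [sc, sc, if_pos h, if_pos h]
      cases i <;> cases k
      · exact (one_mul _).symm
      · obtain ⟨u, rfl, h0⟩ := ch_both a.2 a'.2
        show 1 = u⁻¹ * (if u = 0 then 1 else u)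
        rw [if_neg h0, inv_mul_cancel₀ h0]
      · obtain ⟨u, rfl, h0⟩ := ch_both a'.2 a.2
        show (if u = 0 then 1 else u) = u * 1
        rw [if_neg h0, mul_one]
      · exact (one_mul _).symm
  · have e1 : ∀ i, sc (e M q) (g M q) ξ i = (car T e g he hg T₀ h₀).s i M (some q, ξ) :=
      fun i => if_neg h
    refine ⟨fun (i : Bool) a => ?_, fun (i k : Bool) a a' => ?_, fun _ i _ => e1 i⟩
    · rw [e1]
      exact fun a' => h (hD.1 (((car T e g he hg T₀ h₀).zero i M _ a).1 a'))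
    · rw [e1, e1]
      exact (car T e g he hg T₀ h₀).s_eq i k M _ a a'

include h₀ in
theorem exists_psi [FB3 K] [FB4 K] {j : ℕ} (Φ : Fe j T₀.sp) :
    ∃ ψ : Fe (j + 1) (Bl T e g he hg), ∀ (M : Fld K) (q : c.X M) (ξ : Option M), Good (j + 1) M →
      T.mem M q → bl (e M q) (g M q) ξ →
      HasS (fun O : Dv M j => (O.1.ord (sc (e M q) (g M q) ξ (rp O.1 ξ).isNone) : ℂ) *
        Φ.v O.1.res ((c.amb K).red O.1 (some q))) (ψ.v M (some q, ξ)) := by
  let π : Mor (T₀.sp.prod (P1 K)) T₀.sp :=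
    ⟨fun z => z.1, fun _ h => h.1, fun _ _ _ => rfl, fun _ _ _ _ _ => rfl⟩
  have hπ : π.Proper := fun _ _ _ _ h => ⟨h, trivial⟩
  obtain ⟨ψ, hψ⟩ := FB4.cart (atl T e g he hg) (car T e g he hg T₀ h₀) (Φ.pull π hπ)
  refine ⟨ψ, fun M q ξ hM m b => ?_⟩
  have hs := sec T e g he hg T₀ h₀ m b
  have hz : (Bl T e g he hg).mem (L := M) (some q, ξ) := ⟨q, rfl, m, b⟩
  convert hψ M (some q, ξ) _ hM hz hs using 2 with O
  by_cases h : T₀.sp.mem ((c.amb K).red O.1 (some q))
  · have hD : (T₀.sp.prod (P1 K)).mem (((c.amb K).prod (Cd.one.amb K)).red O.1 (some q, ξ)) :=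
      ⟨h, trivial⟩
    rw [Fe.pull_of_mem π hπ Φ hD, FB4.ord_eq (car T e g he hg T₀ h₀) (i := (rp O.1 ξ).isNone)
      O.2.1 hz hs ⟨(car T e g he hg T₀ h₀).sub _ _ hD, ch_isNone _⟩]
    rfl
  · rw [not_not.1 fun a => h (Φ.supp _ _ a).2,
      not_not.1 fun a => h ((Φ.pull π hπ).supp _ _ a).2.1, mul_zero, mul_zero]

open Classical in
theorem pull_bl {i : ℕ} (ψ : Fe i (Bl T e g he hg)) (S : ASp K c')
    (π : ∀ L : Fld K, c'.X L → c.X L) (hπ : Mp S T π) (ξ : ∀ L : Fld K, c'.X L → Option L)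
    (hn : ∀ (L L' : Fld K) (ι : L →ₐ[K] L') (x : c'.X L), ξ L' (c'.map ι x) = (ξ L x).map ι)
    (hc : ∀ (M : Fld K) (O : Pl M) (x : c'.X M) (x' : c'.X O.res),
      c'.lift (Rel.ofPl O).r x x' → rp O (ξ M x) = ξ _ x')
    (hb : ∀ L x, S.mem L x → bl (e L (π L x)) (g L (π L x)) (ξ L x))
    (hp : ∀ (M : Fld K) (O : Pl M) (x : c'.X M) (q : c.X O.res), S.mem M x →
      c.lift (Rel.ofPl O).r (π M x) q → ψ.v O.res (some q, rp O (ξ M x)) ≠ 0 →
      ∃ x', S.mem O.res x' ∧ c'.lift (Rel.ofPl O).r x x') :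
    ∃ Ψ : Fe i S.sp, ∀ L x, S.mem L x → Ψ.v L (some x) = ψ.v L (some (π L x), ξ L x) := by
  let G : ∀ L : Fld K, Option (c'.X L) → ℂ := fun L y =>
    y.elim 0 fun x => if S.mem L x then ψ.v L (some (π L x), ξ L x) else 0
  have h1 : ∀ L x, S.mem L x → G L (some x) = ψ.v L (some (π L x), ξ L x) := fun _ _ m => if_pos m
  have h2 : ∀ L y, ¬ S.sp.mem (L := L) y → G L y = 0 := fun L y m => by
    cases y with
    | none => rfl
    | some x => exact if_neg fun a => m (S.sp_some.2 a)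
  have h3 : ∀ {L L' : Fld K} (ι : L →ₐ[K] L') (x : c'.X L), S.mem L x →
      G L' ((c'.amb K).map ι (some x)) =
        ψ.v L' (((c.amb K).prod (Cd.one.amb K)).map ι (some (π L x), ξ L x)) := fun ι x m => by
    refine (h1 _ _ ((S.map_iff ι x).2 m)).trans ?_
    rw [hπ.reg.nat ι m, hn]
    rfl
  refine ⟨⟨⟨G, fun L y h => ?_, fun ι y a a' => ?_, fun ι y a => ?_⟩, ?_⟩, h1⟩
  · obtain ⟨x, rfl, m⟩ := not_not.1 fun a => h (h2 L y a)
    rw [h1 L x m] at h
    exact ⟨(ψ.supp _ _ h).1, x, rfl, m⟩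
  · by_cases h : S.sp.mem y
    · obtain ⟨x, rfl, m⟩ := h
      rw [h3 ι x m, h1 _ x m]
      exact ψ.ext ι _ a a'
    · rw [h2 _ y h, h2 _ _ fun b => h ((S.sp.map_iff ι y).1 b), mul_zero]
  · by_cases h : S.sp.mem y
    · obtain ⟨x, rfl, m⟩ := h
      exact (h3 ι x m).trans (ψ.low ι _ a)
    · exact h2 _ _ fun b => h ((S.sp.map_iff ι y).1 b)
  · rintro M _ f hM ⟨x, rfl, m⟩ hf
    convert ψ.rat M (some (π M x), ξ M x) f hM ⟨_, rfl, hπ.mem _ _ m, hb _ _ m⟩ hf using 3 with O
    by_cases h : S.sp.mem ((c'.amb K).red O.1 (some x))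
    · obtain ⟨x', e', m'⟩ := h
      have r := Cd.lift_of_red e'
      rw [e']
      refine (h1 _ _ m').trans ?_
      rw [← hc M O.1 x x' r, ← Cd.red_some (hπ.reg _ m m' r)]
      rfl
    · refine (h2 _ _ h).trans (not_not.1 fun a => h ?_)
      obtain ⟨q, e', -⟩ := (ψ.supp _ _ (Ne.symm a)).2
      obtain ⟨x', m', r⟩ := hp M O.1 x q m (Cd.lift_of_red e') (fun b => a (by
        rw [← b, ← show (c.amb K).red O.1 (some (π M x)) = some q from e']; rfl))
      exact ⟨x', Cd.red_some r, m'⟩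

end

end F3

end Pool.Agent.Lib.MP_557161_ag.HG
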