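import Pool.Agent.Lib.MP_557161_ag.HG.Shp
import Pool.Agent.Lib.MP_557161_ag.DL.Sub

/-!
Complex functionals on cycles, generic points, atlases, Cartier divisors, Artin-Schreier covers.
-/

namespace Pool.Agent.Lib.MP_557161_ag.HG

open Pool.Agent.Lib.MP_557161_ag.DL

variable {K : Type} [Field K] {A B : Amb K}

/-- Divisorial places. -/
abbrev Dv (M : Fld K) (j : ℕ) : Type := {O : Pl M // O.IsDiv j}

/-- `g` has finite support and sum `c`. -/
def HasS {α : Type} (g : α → ℂ) (c : ℂ) : Prop := (Function.support g).Finite ∧ ∑ᶠ a, g a = c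

/-- A linear functional on `j`-dimensional cycles of `P`. -/
structure Pre (j : ℕ) (P : Sp A) where
  v : ∀ L : Fld K, A.pt L → ℂ
  supp : ∀ L y, v L y ≠ 0 → Good j L ∧ P.mem y
  ext : ∀ {L L' : Fld K} (ι : L →ₐ[K] L') (y : A.pt L), Good j L → Good j L' →
    v L' (A.map ι y) = deg ι * v L y
  low : ∀ {L L' : Fld K} (ι : L →ₐ[K] L') (y : A.pt L), L.tr < j → v L' (A.map ι y) = 0

/-- The functional vanishes on the divisor of `f`. -/
def Pre.Rat {j : ℕ} {P : Sp A} (θ : Pre j P) (M : Fld K) (y : A.pt M) (f : M) : Prop :=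
  HasS (fun O : Dv M j => (O.1.ord f : ℂ) * θ.v O.1.res (A.red O.1 y)) 0

/-- A linear functional on `j`-dimensional cycles of `P` modulo rational equivalence. -/
structure Fe (j : ℕ) (P : Sp A) extends Pre j P where
  rat : ∀ (M : Fld K) (y : A.pt M) (f : M), Good (j + 1) M → P.mem y → f ≠ 0 →
    HasS (fun O : Dv M j => (O.1.ord f : ℂ) * v O.1.res (A.red O.1 y)) 0

/-- The point is defined over a field of transcendence degree at most `m`. -/
def Dm (A : Amb K) (L : Fld K) (y : A.pt L) (m : ℕ) : Prop :=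
  ∃ (L₀ : Fld K) (κ : L₀ →ₐ[K] L) (y₀ : A.pt L₀), A.map κ y₀ = y ∧ L₀.tr ≤ m

/-- The coordinates lie in a subfield of transcendence degree at most `m`. -/
def Cd.Dm (c : Cd) (L : Fld K) (x : c.X L) (m : ℕ) : Prop :=
  ∃ F : IntermediateField K L, c.all (· ∈ F) x ∧ (L.sub F).tr ≤ m

/-- The field is generated by the point. -/
def GenPt (A : Amb K) (M : Fld K) (y : A.pt M) : Prop :=
  ∀ (L : Fld K) (κ : L →ₐ[K] M) (y₀ : A.pt L), A.map κ y₀ = y → Function.Surjective κ

/-- The subfield generated by the image of `α` and the family `T`. -/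
noncomputable def gen {L M : Fld K} (α : L →ₐ[K] M) {κ : Type} (T : κ → M) :
    IntermediateField K M := IntermediateField.adjoin K (Set.range α ∪ Set.range T)

/-- `M` is the field of rational functions in the variables `T` over `L`. -/
structure Free (j : ℕ) {L M : Fld K} (α : L →ₐ[K] M) {κ : Type} (T : κ → M) : Prop where
  gL : Good j L
  gM : Good (j + Nat.card κ) M
  top : gen α T = ⊤

/-- The field of rational functions in the variables `κ`. -/
noncomputable abbrev fr (L : Fld K) (κ : Type) : Fld K := ⟨FractionRing (MvPolynomial κ L)⟩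

/-- The constants. -/
noncomputable def frα (L : Fld K) (κ : Type) : L →ₐ[K] fr L κ :=
  IsScalarTower.toAlgHom K L (FractionRing (MvPolynomial κ L))

/-- The variables. -/
noncomputable def frT (L : Fld K) (κ : Type) (i : κ) : fr L κ :=
  algebraMap (MvPolynomial κ L) (FractionRing (MvPolynomial κ L)) (MvPolynomial.X i)

open Classical in
/-- The value at the generic point of a family with parameters `κ`. -/
noncomputable def gv {c c' : Cd} {κ : Type} (a : ∀ L : Fld K, c'.X L → ℂ)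
    (θ : ∀ L : Fld K, c.X L → (κ → L) → c'.X L) (j : ℕ) (L : Fld K) (x : c.X L) : ℂ :=
  if Good j L then a (fr L κ) (θ _ (c.map (frα L κ) x) (frT L κ)) else 0

/-- Locally closed spaces. -/
def LC (P : Sp A) : Prop :=
  ∀ (M : Fld K) (O : Pl M) (O' : Pl O.res) (y : A.pt M), O.IsDVR → O'.IsDVR → P.mem y →
    P.mem (A.red O' (A.red O y)) → P.mem (A.red O y)

/-- `U` is open in `P`. -/
structure Opn (U P : Sp A) : Prop where
  sub : ∀ (L : Fld K) (y : A.pt L), U.mem y → P.mem y
  gz : ∀ (M : Fld K) (O : Pl M) (y : A.pt M), O.IsDVR → P.mem y → U.mem (A.red O y) → U.mem y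

/-- An open part of `P` that is isomorphic to a locally closed subset of an affine space. -/
structure Chrt (P : Sp A) where
  U : Sp A
  opn : Opn U P
  c : Cd
  S : Sp (c.amb K)
  lc : LC S
  ne : ∀ L : Fld K, ¬ S.mem (L := L) none
  f : Mor U S
  g : Mor S U
  gf : ∀ (L : Fld K) (y : A.pt L), U.mem y → g.f (f.f y) = y
  fg : ∀ (L : Fld K) (z : (c.amb K).pt L), S.mem z → f.f (g.f z) = z

/-- Spaces with a finite atlas. -/
def Atl (P : Sp A) : Prop :=
  LC P ∧ ∃ (n : ℕ) (C : Fin n → Chrt P), ∀ (L : Fld K) (y : A.pt L), P.mem y → ∃ i, (C i).U.mem y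

/-- The tame symbol. -/
noncomputable def tame {M : Fld K} (O : Pl M) (f g : M) : O.res :=
  O.rd (f ^ O.ord g / g ^ O.ord f)

/-- Divisors have finitely many components. -/
def FinS (P : Sp A) : Prop :=
  ∀ (j : ℕ) (θ : Pre j P) (M : Fld K) (y : A.pt M) (f : M), Good (j + 1) M → P.mem y → f ≠ 0 →
    (Function.support fun O : Dv M j => (O.1.ord f : ℂ) * θ.v O.1.res (A.red O.1 y)).Finite

/-- The divisors of the tame symbols add up to zero. -/
def Key (P : Sp A) : Prop :=
  ∀ (j : ℕ) (θ : Pre j P) (M : Fld K) (y : A.pt M) (f g : M), Good (j + 2) M → P.mem y →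
    GenPt A M y → f ≠ 0 → g ≠ 0 →
    HasS (fun O : Dv M (j + 1) => ∑ᶠ O' : Dv O.1.res j,
      (O'.1.ord (tame O.1 f g) : ℂ) * θ.v O'.1.res (A.red O'.1 (A.red O.1 y))) 0

/-- Regular functions on `U`. -/
structure RFn (U : Sp A) (f : ∀ L : Fld K, A.pt L → L) : Prop where
  nat : ∀ {L L' : Fld K} (ι : L →ₐ[K] L') (y : A.pt L), U.mem y → f L' (A.map ι y) = ι (f L y)
  cont : ∀ {M : Fld K} (O : Pl M) (y : A.pt M), O.IsDVR → U.mem y → U.mem (A.red O y) →
    f M y ∈ O.O ∧ O.rd (f M y) = f O.res (A.red O y)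

/-- A line bundle on `P` with a section that vanishes exactly on `D`. -/
structure Car (P D : Sp A) where
  ι : Type
  fin : Finite ι
  U : ι → Sp A
  opn : ∀ i, Opn (U i) P
  cov : ∀ (L : Fld K) (y : A.pt L), P.mem y → ∃ i, (U i).mem y
  t : ι → ι → ∀ L : Fld K, A.pt L → L
  s : ι → ∀ L : Fld K, A.pt L → L
  rt : ∀ i k, RFn ((U i).inter (U k)) (t i k)
  rs : ∀ i, RFn (U i) (s i)
  t_ne : ∀ i k L y, (U i).mem y → (U k).mem y → t i k L y ≠ 0
  coc : ∀ i k l L y, (U i).mem y → (U k).mem y → (U l).mem y → t i k L y * t k l L y = t i l L y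
  s_eq : ∀ i k L y, (U i).mem y → (U k).mem y → s i L y = t i k L y * s k L y
  sub : ∀ (L : Fld K) (y : A.pt L), D.mem y → P.mem y
  zero : ∀ i L y, (U i).mem y → (s i L y = 0 ↔ D.mem y)

/-- Admissible rational sections at the point `y`. -/
structure Car.Sec {P D : Sp A} (C : Car P D) {M : Fld K} (y : A.pt M) (σ : C.ι → M) : Prop where
  ne : ∀ i, (C.U i).mem y → σ i ≠ 0
  tr : ∀ i k, (C.U i).mem y → (C.U k).mem y → σ i = C.t i k M y * σ k
  can : ¬ D.mem y → ∀ i, (C.U i).mem y → σ i = C.s i M y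

open Classical in
/-- The order of a section. -/
noncomputable def Car.ord {P D : Sp A} (C : Car P D) {M : Fld K} (O : Pl M) (y : A.pt M)
    (σ : C.ι → M) : ℤ :=
  if h : ∃ i, (C.U i).mem (A.red O y) then O.ord (σ h.choose) else 0

open Classical in
/-- The order of a vector. -/
noncomputable def ordv {M : Fld K} (O : Pl M) {σ : Type} (x : σ → M) : ℤ :=
  if h : ∃ s, x s ≠ 0 ∧ IntV O ((x s)⁻¹ • x) then O.ord (x h.choose) else 0

/-- The projective space of lines. -/
def Lines (K : Type) [Field K] (σ : Type) [Finite σ] : Sp (Sub K σ) where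
  mem {L} E := ∃ x : σ → L, x ≠ 0 ∧ E = Submodule.span L {x}
  map_iff {L L'} κ (E : Submodule L (σ → L)) := by
    constructor
    · rintro ⟨x, h0, e⟩
      exact exists_gen_line (E := E) (by
        rw [← finrank_smap κ.toRingHom, show smap κ.toRingHom E = _ from e,
          finrank_span_singleton h0])
    · rintro ⟨x, h0, rfl⟩
      exact ⟨mapV κ.toRingHom x, mt (mapV_eq_zero _).1 h0, smap_single _ x⟩

/-- A product of powers of tautological line bundles with a section that vanishes on `D`. -/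
structure LB (P D : Sp A) where
  ι : Type
  [fin : Fintype ι]
  σ : ι → Type
  [fσ : ∀ a, Finite (σ a)]
  l : ∀ a, Mor P (Lines K (σ a))
  c : ι → ℤ
  s : ∀ L : Fld K, A.pt L → (∀ a, σ a → L) → L
  hom : ∀ (L : Fld K) (y : A.pt L) (x : ∀ a, σ a → L) (u : ι → L), P.mem y → (∀ a, u a ≠ 0) →
    (∀ a, x a ≠ 0 ∧ (l a).f y = Submodule.span L {x a}) →
    s L y (fun a => u a • x a) = (∏ a, u a ^ c a) * s L y x
  nat : ∀ {L L' : Fld K} (ι' : L →ₐ[K] L') (y : A.pt L) (x : ∀ a, σ a → L), P.mem y →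
    (∀ a, x a ≠ 0 ∧ (l a).f y = Submodule.span L {x a}) →
    s L' (A.map ι' y) (fun a => mapV ι' (x a)) = ι' (s L y x)
  cont : ∀ {M : Fld K} (O : Pl M) (y : A.pt M) (x : ∀ a, σ a → M), O.IsDVR → P.mem y →
    P.mem (A.red O y) → (∀ a, IntV O (x a) ∧ rdV O (x a) ≠ 0 ∧ (l a).f y = Submodule.span M {x a}) →
    s M y x ∈ O.O ∧ O.rd (s M y x) = s O.res (A.red O y) fun a => rdV O (x a)
  sub : ∀ (L : Fld K) (y : A.pt L), D.mem y → P.mem y
  zero : ∀ (L : Fld K) (y : A.pt L) (x : ∀ a, σ a → L), P.mem y →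
    (∀ a, x a ≠ 0 ∧ (l a).f y = Submodule.span L {x a}) → (s L y x = 0 ↔ D.mem y)

attribute [instance] LB.fin LB.fσ

variable {c d c' : Cd}

/-- Functionals on an affine space. -/
abbrev AF (j : ℕ) (S : ASp K c) := Fe j S.sp

/-- The value at a finite point. -/
abbrev Pre.a {j : ℕ} {P : Sp (c.amb K)} (θ : Pre j P) (L : Fld K) (x : c.X L) : ℂ := θ.v L (some x)

open Classical in
/-- The value at the reduction of a point. -/
noncomputable def rv (a : ∀ L : Fld K, c.X L → ℂ) {M : Fld K} (O : Pl M) (x : c.X M) : ℂ :=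
  if c.all (· ∈ O.O) x then a O.res (c.map O.rd x) else 0

/-- A space with a phase function. -/
structure Ph (K : Type) [Field K] (c : Cd) where
  S : ASp K c
  φ : ∀ L : Fld K, c.X L → L
  reg : Reg S .one φ

/-- The Artin-Schreier cover. -/
def Ph.tot (p : ℕ) (E : Ph K c) : ASp K (c.prod .one) :=
  (E.S.prod (.univ K .one)).cl (fun L x => x.2 ^ p - x.2 = E.φ L x.1) fun _ _ R _ _ m m' e h =>
    Rel.eq (Rel.sub (Rel.pow e.2 p) e.2) (E.reg R m.1 m'.1 e.1) h

/-- Functionals on the Artin-Schreier cover times `W` that vanish on invariants of the covering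
group and on exterior products. -/
structure NF (p j : ℕ) (E : Ph K c) (W : ASp K d) extends Fe j ((E.tot p).prod W).sp where
  nt : ∀ (L : Fld K) (x : c.X L) (y : L) (w : d.X L),
    ∑ a ∈ Finset.range p, v L (some ((x, y + a), w)) = 0
  kills : ∀ (L : Fld K) (x : c.X L) (y : L) (w : d.X L) (m₁ m₂ : ℕ), c.Dm L x m₁ → d.Dm L w m₂ →
    m₁ + m₂ ≤ j → v L (some ((x, y), w)) = 0

/-- The value of the functional. -/
abbrev NF.b {p j : ℕ} {E : Ph K c} {W : ASp K d} (Φ : NF p j E W) (L : Fld K) (x : c.X L) (y : L)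
    (w : d.X L) : ℂ := Φ.v L (some ((x, y), w))

/-- All functionals vanish. -/
def Van (p : ℕ) (E : Ph K c) (W : ASp K d) : Prop :=
  ∀ (j : ℕ) (Φ : NF p j E W) (L : Fld K) (x : c.X L) (y : L) (w : d.X L), Φ.b L x y w = 0

/-- Maps that preserve the phase. -/
structure PMp (E' : Ph K c') (E : Ph K c) (f : ∀ L : Fld K, c'.X L → c.X L) : Prop
    extends Mp E'.S E.S f where
  ph : ∀ L x, E'.S.mem L x → E.φ L (f L x) = E'.φ L x

/-- The functional is multiplied by `χ` under `γ`. -/
def NF.Eqv {p j : ℕ} {E : Ph K c} {W : ASp K d} (Φ : NF p j E W)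
    (γ : ∀ L : Fld K, c.X L → c.X L) (χ : ℂ) : Prop :=
  ∀ (L : Fld K) (x : c.X L) (y : L) (w : d.X L), E.S.mem L x → Φ.b L (γ L x) y w = χ * Φ.b L x y w

namespace Ph

variable (E : Ph K c)

/-- The restriction to a subspace. -/
def res (S' : ASp K c) (h : ∀ L x, S'.mem L x → E.S.mem L x) : Ph K c := ⟨S', E.φ, E.reg.mono h⟩

variable {κ : Type} [Fintype κ] (f : ∀ L : Fld K, c.X L → κ → L) (hf : Reg E.S (.vec κ) f)

/-- The zero set of `f`. -/
def zer : Ph K c := E.res (E.S.cl (fun L x => ∀ i, f L x i = 0)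
  fun _ _ R _ _ m m' e h i => Rel.eq_zero (hf R m m' e i) (h i)) fun _ _ h => h.1

/-- The product with an affine space, with a phase that is linear in the new variables. -/
def lin : Ph K (c.prod (.vec κ)) where
  S := E.S.prod (.univ K _)
  φ L x := E.φ L x.1 + ∑ i, x.2 i * f L x.1 i
  reg _ _ R _ _ m m' e := R.add (E.reg R m.1 m'.1 e.1)
    (Rel.sum _ fun i _ => R.mul (e.2 i) (hf R m.1 m'.1 e.1 i))

end Ph

/-- A space with a phase function and an invertible function. -/
structure EqD (K : Type) [Field K] (c : Cd) extends Ph K c where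
  g : ∀ L : Fld K, c.X L → L
  rg : Reg S .one g
  ne : ∀ L x, S.mem L x → g L x ≠ 0

namespace EqD

variable (E : EqD K c)

/-- The Kummer cover. -/
def kum (N : ℕ) : Ph K (c.prod .one) where
  S := (E.S.prod (.univ K .one)).cl (fun L x => x.2 ^ N = E.g L x.1) fun _ _ R _ _ m m' e h =>
    Rel.eq (Rel.pow e.2 N) (E.rg R m.1 m'.1 e.1) h
  φ L x := E.φ L x.1
  reg _ _ R _ _ m m' e := E.reg R m.1.1 m'.1.1 e.1

/-- The restriction to a subspace. -/
def res (S' : ASp K c) (h : ∀ L x, S'.mem L x → E.S.mem L x) : EqD K c :=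
  ⟨E.toPh.res S' h, E.g, E.rg.mono h, fun L x m => E.ne L x (h L x m)⟩

/-- The product with `T`, with an additional phase `ψ` and an additional factor `h`. -/
def ext (T : ASp K (c.prod d)) (hT : ∀ L x, T.mem L x → E.S.mem L x.1)
    (ψ h : ∀ L : Fld K, (c.prod d).X L → L) (hψ : Reg T .one ψ) (hh : Reg T .one h)
    (h0 : ∀ L x, T.mem L x → h L x ≠ 0) : EqD K (c.prod d) where
  S := T
  φ L x := E.φ L x.1 + ψ L x
  reg _ _ R _ _ m m' e := R.add (E.reg R (hT _ _ m) (hT _ _ m') e.1) (hψ R m m' e)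
  g L x := E.g L x.1 * h L x
  rg _ _ R _ _ m m' e := R.mul (E.rg R (hT _ _ m) (hT _ _ m') e.1) (hh R m m' e)
  ne L x m := mul_ne_zero (E.ne L _ (hT _ _ m)) (h0 L x m)

/-- An additional phase. -/
def addφ (ψ : ∀ L : Fld K, c.X L → L) (hψ : Reg E.S .one ψ) : EqD K c where
  S := E.S
  φ L x := E.φ L x + ψ L x
  reg _ _ R _ _ m m' e := R.add (E.reg R m m' e) (hψ R m m' e)
  g := E.g
  rg := E.rg
  ne := E.ne

variable {κ : Type} [Fintype κ] (f : ∀ L : Fld K, c.X L → κ → L) (hf : Reg E.S (.vec κ) f)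

/-- The zero set of `f`. -/
def zer : EqD K c := ⟨E.toPh.zer f hf, E.g, E.rg.mono fun _ _ h => h.1, fun L x m => E.ne L x m.1⟩

/-- The product with an affine space, with a phase that is linear in the new variables. -/
def lin : EqD K (c.prod (.vec κ)) :=
  ⟨E.toPh.lin f hf, fun L x => E.g L x.1, fun _ _ R _ _ m m' e => E.rg R m.1 m'.1 e.1,
    fun L x m => E.ne L x.1 m.1⟩

end EqD

/-- All functionals on the Kummer cover vanish. -/
abbrev EVan (p N : ℕ) (E : EqD K c) (W : ASp K d) : Prop := Van p (E.kum N) W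

/-- Maps that preserve the phase, and the invertible function up to the `N`-th power of `h`. -/
structure EMp (N : ℕ) (E' : EqD K c') (E : EqD K c) (f : ∀ L : Fld K, c'.X L → c.X L)
    (h : ∀ L : Fld K, c'.X L → L) : Prop extends PMp E'.toPh E.toPh f where
  rh : Reg E'.S .one h
  gh : ∀ L x, E'.S.mem L x → E.g L (f L x) = E'.g L x * h L x ^ N

end Pool.Agent.Lib.MP_557161_ag.HG
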