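import Pool.Agent.Lib.MP_557161_ag.HG.Fe

/-!
Basic operations on complex functionals: pull back, sums, descent.
-/

namespace Pool.Agent.Lib.MP_557161_ag.HG

open Pool.Agent.Lib.MP_557161_ag.DL
open CKL (fin_lift surj_lift isDiv_comap)

variable {K : Type} [Field K] {A A' B C : Amb K} {Y : Sp A} {Y' : Sp A'} {Z : Sp B} {j : ℕ}

open Classical in
/-- The pull back of a functional along a proper map. -/
noncomputable def Fe.pull (f : Mor Y' Y) (hp : f.Proper) (φ : Fe j Y) : Fe j Y' where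
  v L y := if Y'.mem y then φ.v L (f.f y) else 0
  supp L y h := by
    split_ifs at h with hy
    · exact ⟨(φ.supp L _ h).1, hy⟩
    · exact absurd rfl h
  ext ι y h h' := by
    by_cases hy : Y'.mem y
    · rw [if_pos hy, if_pos ((Y'.map_iff ι y).2 hy), f.nat ι y hy, φ.ext ι _ h h']
    · rw [if_neg hy, if_neg fun e => hy ((Y'.map_iff ι y).1 e), mul_zero]
  low ι y h := by
    split_ifs with hy
    · rw [f.nat ι y ((Y'.map_iff ι y).1 hy), φ.low ι _ h]
    · rfl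
  rat M y g hM hy hg := by
    have e : ∀ O : {O : Pl M // O.IsDiv j},
        (if Y'.mem (A'.red O.1 y) then φ.v O.1.res (f.f (A'.red O.1 y)) else 0) =
          φ.v O.1.res (A.red O.1 (f.f y)) := fun O => by
      split_ifs with h
      · rw [f.cont O.1 y O.2.1 hy h]
      · by_contra h'
        exact h (hp O.1 y O.2.1 hy (φ.supp _ _ (Ne.symm h')).2)
    simp only [e]
    exact φ.rat M _ g hM (f.mem y hy) hg

theorem Fe.pull_of_mem (f : Mor Y' Y) (hp : f.Proper) (φ : Fe j Y) {L : Fld K} {y : A'.pt L}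
    (h : Y'.mem y) : (φ.pull f hp).v L y = φ.v L (f.f y) := if_pos h

theorem Fe.exists_sum {α : Type} (s : Finset α) (φ : α → Fe j Y) :
    ∃ ψ : Fe j Y, ∀ L y, ψ.v L y = ∑ a ∈ s, (φ a).v L y := by
  classical
  induction s using Finset.induction_on with
  | empty =>
    exact ⟨⟨⟨fun _ _ => 0, fun _ _ h => absurd rfl h, fun _ _ _ _ => (mul_zero _).symm,
      fun _ _ _ => rfl⟩, fun _ _ _ _ _ _ => by simp [HasS]⟩, fun _ _ => rfl⟩
  | insert a s ha ih =>
    obtain ⟨ψ, hψ⟩ := ih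
    refine ⟨⟨⟨fun L y => (φ a).v L y + ψ.v L y, fun L y h => ?_, fun ι y h h' => ?_,
      fun ι y h => ?_⟩, fun M y g hM hy hg => ?_⟩, fun L y => by rw [Finset.sum_insert ha, ← hψ]⟩
    · by_cases h1 : (φ a).v L y = 0
      · exact ψ.supp L y fun h2 => h (by rw [h1, h2, add_zero])
      · exact (φ a).supp L y h1
    · rw [(φ a).ext ι y h h', ψ.ext ι y h h', mul_add]
    · rw [(φ a).low ι y h, ψ.low ι y h, add_zero]
    · obtain ⟨h1, h2⟩ := (φ a).rat M y g hM hy hg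
      obtain ⟨h3, h4⟩ := ψ.rat M y g hM hy hg
      simp only [mul_add]
      exact ⟨(h1.union h3).subset (Function.support_add _ _),
        by rw [finsum_add_distrib h1 h3, h2, h4, add_zero]⟩

theorem deg_ne {L L' : Fld K} {ι : L →ₐ[K] L'} (h : Fin' ι) : (deg ι : ℂ) ≠ 0 :=
  Nat.cast_ne_zero.2 ((deg_pos_iff ι).2 h).ne'

theorem fib_sum {α β : Type} (c : α → β) {F : α → ℂ} (hF : (Function.support F).Finite)
    {G : β → ℂ} (hG : ∀ b, ∑ᶠ a ∈ {a | c a = b}, F a = G b) :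
    (Function.support G).Finite ∧ ∑ᶠ b, G b = ∑ᶠ a, F a := by
  classical
  have e : ∀ b, G b = ∑ a ∈ hF.toFinset with c a = b, F a := fun b => by
    rw [← hG]
    refine finsum_mem_eq_sum_of_inter_support_eq F ?_
    ext a
    simp only [Set.mem_inter_iff, Set.mem_ofPred_eq, Finset.coe_filter, Set.Finite.mem_toFinset]
    tauto
  have hs : Function.support G ⊆ ↑(hF.toFinset.image c) := fun b hb => by
    rw [Function.mem_support, e] at hb
    obtain ⟨a, ha, -⟩ := Finset.exists_ne_zero_of_sum_ne_zero hb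
    exact Finset.mem_coe.2 (Finset.mem_image.2 ⟨a, (Finset.mem_filter.1 ha).1,
      (Finset.mem_filter.1 ha).2⟩)
  refine ⟨(Finset.finite_toSet _).subset hs, ?_⟩
  rw [finsum_eq_sum_of_support_subset G hs, finsum_eq_sum F hF]
  simp only [e]
  exact Finset.sum_fiberwise_of_maps_to (fun a ha => Finset.mem_image_of_mem c ha) F

variable [Base K]

theorem descent {f : Mor Y' Y} (hp : f.Proper) (hs : f.Surj) (φ : Fe j Y')
    (hf : ∀ (L : Fld K) (y y' : A'.pt L), Y'.mem y → Y'.mem y' → f.f y = f.f y' →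
      φ.v L y = φ.v L y') :
    ∃ ψ : Fe j Y, ∀ (L L' : Fld K) (ι : L →ₐ[K] L') (y : A.pt L) (w : A'.pt L'), Good j L →
      Fin' ι → Y'.mem w → f.f w = A.map ι y → φ.v L' w = deg ι * ψ.v L y := by
  have key : ∀ (L : Fld K) (y : A.pt L), ∃ r : ℂ, (r ≠ 0 → Good j L ∧ Y.mem y) ∧
      ∀ (L' : Fld K) (ι : L →ₐ[K] L') (w : A'.pt L'), Good j L →
        Fin' ι → Y'.mem w → f.f w = A.map ι y → φ.v L' w = deg ι * r := by
    intro L y
    by_cases h : Good j L ∧ Y.mem y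
    · obtain ⟨L₁, ι₁, w₁, a1, a2, a3⟩ := surj_lift hs h.2
      refine ⟨φ.v L₁ w₁ / deg ι₁, fun _ => h, fun L₂ ι₂ w₂ _ b1 b2 b3 => ?_⟩
      obtain ⟨N, κ₁, κ₂, c1, c2⟩ := exists_amalgam ι₁ ι₂ a1
      have c3 : Fin' (κ₁.comp ι₁) := c1 ▸ b1.comp c2
      have c4 := hf N _ _ ((Y'.map_iff κ₁ w₁).2 a2) ((Y'.map_iff κ₂ w₂).2 b2) (by
        rw [f.nat _ _ a2, f.nat _ _ b2, a3, b3, ← A.map_comp, ← A.map_comp, c1])
      rw [φ.ext κ₁ w₁ (h.1.of_fin a1) (h.1.of_fin c3),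
        φ.ext κ₂ w₂ (h.1.of_fin b1) (h.1.of_fin c3)] at c4
      have c5 : (deg ι₁ : ℂ) * deg κ₁ = deg ι₂ * deg κ₂ := by
        rw [← Nat.cast_mul, ← Nat.cast_mul, ← deg_comp, ← deg_comp, c1]
      have c6 := deg_ne a1
      refine mul_left_cancel₀ (deg_ne c2) ?_
      rw [← c4, ← mul_assoc, mul_comm (deg κ₂ : ℂ), ← c5]
      field_simp
    · refine ⟨0, fun e => absurd rfl e, fun L' ι w a1 _ a3 a4 => absurd ⟨a1, ?_⟩ h⟩
      exact (Y.map_iff ι y).1 (a4 ▸ f.mem w a3)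
  choose v h1 h2 using key
  refine ⟨⟨⟨v, h1, fun {L L'} ι y a1 a2 => ?_, fun {L L'} ι y a1 => ?_⟩,
    fun M y g hM hy hg => ?_⟩, fun L L' ι y w => h2 L y L' ι w⟩
  · by_cases hy : Y.mem y
    · obtain ⟨L₁, κ, w, b1, b2, b3⟩ := surj_lift hs ((Y.map_iff ι y).2 hy)
      have c1 := h2 _ _ _ κ w a2 b1 b2 b3
      rw [h2 _ y _ (κ.comp ι) w a1 ((a2.fin ι a1.2).comp b1) b2 (by rw [b3, A.map_comp]),
        deg_comp, Nat.cast_mul, mul_comm (deg ι : ℂ), mul_assoc] at c1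
      exact (mul_left_cancel₀ (deg_ne b1) c1).symm
    · rw [not_not.1 fun e => hy (h1 _ y e).2, mul_zero]
      exact not_not.1 fun e => hy ((Y.map_iff ι y).1 (h1 _ _ e).2)
  · by_contra e
    obtain ⟨L₁, ι₁, w, b1, b2, b3⟩ := surj_lift hs ((Y.map_iff ι y).1 (h1 _ _ e).2)
    obtain ⟨N, κ₁, κ₂, c1, c2⟩ := exists_amalgam ι₁ ι b1
    have c3 := h2 _ _ _ κ₂ _ (h1 _ _ e).1 c2 ((Y'.map_iff κ₁ w).2 b2) (by
      rw [f.nat _ _ b2, b3, ← A.map_comp, ← A.map_comp, c1])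
    rw [φ.low κ₁ w (b1.tr_eq ▸ a1)] at c3
    exact mul_ne_zero (deg_ne c2) e c3.symm
  · obtain ⟨M', ι, w, b1, b2, b3⟩ := surj_lift hs hy
    obtain ⟨c1, c2⟩ := φ.rat M' w (ι g) (hM.of_fin b1) b2 ((map_ne_zero ι).2 hg)
    have c3 : ∀ (O : Pl M) (O' : Pl M') (h : Pl.Over ι O O'), O.IsDiv j →
        φ.v O'.res (A'.red O' w) = deg h.resHom * v O.res (A.red O y) := fun O O' h hO => by
      have d1 := (h.isDiv b1 hM hO).1
      have d2 : A.red O' (f.f w) = A.map h.resHom (A.red O y) := by rw [b3, A.red_map h]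
      by_cases d3 : Y'.mem (A'.red O' w)
      · exact h2 _ _ _ _ _ (hO.good hM) (h.fin_res b1) d3 ((f.cont O' w d1 b2 d3).trans d2)
      · rw [not_not.1 fun e => d3 (φ.supp _ _ e).2, not_not.1 fun e => d3
          (hp O' w d1 b2 (d2 ▸ (Y.map_iff _ _).2 (h1 _ _ e).2)), mul_zero]
    obtain ⟨c4, c5⟩ := fib_sum (β := {O : Pl M // O.IsDiv j})
      (fun O' : {O' : Pl M' // O'.IsDiv j} => ⟨Pl.comap ι O'.1, isDiv_comap b1 O'.2⟩) c1
      (G := fun O => deg ι * ((O.1.ord g : ℂ) * v O.1.res (A.red O.1 y))) fun O => by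
        have d1 : Function.Injective fun O' : {O' : Pl M' // Pl.Over ι O.1 O'} =>
            (⟨O'.1, O'.2.isDiv b1 hM O.2⟩ : {O' : Pl M' // O'.IsDiv j}) :=
          fun _ _ e => Subtype.ext (congrArg Subtype.val e :)
        have d2 := Pl.sum_ord_nrm b1 hM O.2 ((map_ne_zero ι).2 hg)
        have : Finite {O' : Pl M' // Pl.Over ι O.1 O'} := Pl.finite_over b1 hM O.2
        have := Fintype.ofFinite {O' : Pl M' // Pl.Over ι O.1 O'}
        rw [nrm_map, Pl.ord_pow O.2.1, finsum_eq_sum_of_fintype] at d2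
        refine (finsum_mem_congr (t := Set.range _) ?_ fun _ _ => rfl).trans
          ((finsum_mem_range d1).trans ?_)
        · ext O'
          exact ⟨fun e => ⟨⟨O'.1, e ▸ Pl.over_comap ι O'.1⟩, rfl⟩,
            by rintro ⟨O'', rfl⟩; exact Subtype.ext O''.2.eq_comap.symm⟩
        · rw [finsum_eq_sum_of_fintype, ← mul_assoc, ← Int.cast_natCast, ← Int.cast_mul, ← d2,
            Int.cast_sum, Finset.sum_mul]
          refine Finset.sum_congr rfl fun O' _ => ?_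
          rw [c3 O.1 O'.1 O'.2 O.2, Int.cast_mul, Int.cast_natCast, mul_assoc]
    have c6 := c4.subset (Function.support_subset_iff.2 fun O (h : (O.1.ord g : ℂ) *
      v O.1.res (A.red O.1 y) ≠ 0) => Function.mem_support.2 (mul_ne_zero (deg_ne b1) h))
    rw [c2, ← mul_finsum] at c5
    exact ⟨c6, (mul_eq_zero.1 c5).resolve_left (deg_ne b1)⟩

end Pool.Agent.Lib.MP_557161_ag.HG
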