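import Pool.Agent.Lib.MP_557161_ag.HG.FeB

/-!
Homotopy invariance for complex functionals.
-/

namespace Pool.Agent.Lib.MP_557161_ag.HG

open Pool.Agent.Lib.MP_557161_ag.DL
open CKL2 (pt pt_map pt_comp rat_lift red_pt exists_int)

variable {K : Type} [Field K] {A A' B C D : Amb K}

namespace Hi

theorem transfer {α β : Type*} (g : α → ℂ) (g' : β → ℂ) (R : α → β → Prop)
    (h1 : ∀ a, g a ≠ 0 → ∃ b, R a b) (h2 : ∀ b, g' b ≠ 0 → ∃ a, R a b)
    (h3 : ∀ a b, R a b → g a = g' b) (h4 : ∀ a b b', R a b → R a b' → b = b')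
    (h5 : ∀ a a' b, R a b → R a' b → a = a')
    (hf : (Function.support g').Finite ∧ ∑ᶠ b, g' b = 0) :
    (Function.support g).Finite ∧ ∑ᶠ a, g a = 0 := by
  classical
  choose e he using h1
  let E : Function.support g → Function.support g' := fun a =>
    ⟨e a.1 a.2, fun h => a.2 ((h3 _ _ (he a.1 a.2)).trans h)⟩
  have hE : Function.Bijective E := by
    refine ⟨fun a a' h => Subtype.ext (h5 _ _ _ (he a.1 a.2) ?_), fun b => ?_⟩
    · have h' : e a.1 a.2 = e a'.1 a'.2 := congrArg Subtype.val h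
      rw [h']
      exact he a'.1 a'.2
    · obtain ⟨a, ha⟩ := h2 b.1 b.2
      have ha0 : g a ≠ 0 := fun h => b.2 ((h3 _ _ ha).symm.trans h)
      exact ⟨⟨a, ha0⟩, Subtype.ext (h4 _ _ _ (he a ha0) ha)⟩
  refine ⟨?_, ?_⟩
  · have : Finite (Function.support g') := hf.1
    exact Finite.of_injective E hE.1
  · rw [← finsum_mem_support, ← finsum_set_coe_eq_finsum_mem,
      finsum_eq_of_bijective E hE (g := fun b => g' b.1) fun a => h3 _ _ (he a.1 a.2),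
      finsum_set_coe_eq_finsum_mem (f := g'), finsum_mem_support, hf.2]

variable {E : Sp A} {W : Sp B} {Z : Sp D} (b : Bun E W C) {j : ℕ} (φ : Fe (j + 1) (E.prod Z))

open Classical in
/-- The value at the generic point of a fibre. -/
noncomputable def val (L : Fld K) (y : (B.prod D).pt L) : ℂ :=
  if h : Good j L ∧ W.mem y.1 then
    φ.v L.rat (pt b L.toRat y.1 (b.ex y.1 h.2).choose RatFunc.X y.2) else 0

theorem val_eq {L M : Fld K} (hL : Good j L) {α : L →ₐ[K] M} {T : M} (ht : Trans' α T)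
    (hg : Gen α T) {y : B.pt L} {c : C.pt L} (hy : W.mem y) (hc : b.fr y c) (z : D.pt L) :
    φ.v M (pt b α y c T z) = val b φ L (y, z) := by
  have h : Good j L ∧ W.mem y := ⟨hL, hy⟩
  have hc0 := (b.ex y h.2).choose_spec
  refine Eq.trans ?_ (dif_pos h).symm
  obtain ⟨a, a', ha, hh⟩ := b.trans y c _ hy hc hc0
  obtain ⟨κ, hκ, hT⟩ := exists_lift (trans_rat L) (gen_rat L) (ht.affine ha a')
  have hs : Function.Surjective κ := Gen.surj hκ (hT ▸ hg.affine ha a')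
  have e := φ.ext κ (pt b L.toRat y (b.ex y h.2).choose RatFunc.X z)
    (hL.succ (trans_rat L) (gen_rat L)) (hL.succ ht hg)
  rw [pt_map b _ _ _ _ hy hc0, hκ, hT, deg_of_surj hs, Nat.cast_one, one_mul] at e
  refine Eq.trans ?_ e
  rw [pt, pt, hh]

theorem val_ne {L : Fld K} {y : (B.prod D).pt L} (h : val b φ L y ≠ 0) :
    Good j L ∧ (W.prod Z).mem y := by
  by_cases h' : Good j L ∧ W.mem y.1
  · rw [val, dif_pos h'] at h
    exact ⟨h'.1, h'.2, (Z.map_iff _ _).1 (φ.supp _ _ h).2.2⟩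
  · rw [val, dif_neg h'] at h
    exact absurd rfl h

theorem val_map {L L' : Fld K} (ι : L →ₐ[K] L') (hL' : Good j L') {y : B.pt L} {c : C.pt L}
    (hy : W.mem y) (hc : b.fr y c) (z : D.pt L') :
    val b φ L' (B.map ι y, z) = φ.v L'.rat
      (A.map (rat_lift ι).choose (b.θ (B.map L.toRat y) (C.map L.toRat c) RatFunc.X),
        D.map L'.toRat z) := by
  obtain ⟨hκ, hT⟩ := (rat_lift ι).choose_spec
  rw [← val_eq b φ hL' (trans_rat L') (gen_rat L') ((W.map_iff ι y).2 hy) (b.fr_map ι y c hy hc),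
    ← b.θ_map _ _ _ _ ((W.map_iff _ y).2 hy) (b.fr_map _ y c hy hc), ← B.map_comp, ← C.map_comp,
    hκ, hT, pt, B.map_comp, C.map_comp]

variable [Base K]

/-- The value at a Gauss extension. -/
theorem gauss_eq {M N : Fld K} (hM : Good (j + 1) M) {ρ : M →ₐ[K] N} {O : Pl M} {O' : Pl N}
    (h : Pl.Over ρ O O') (hO : O.IsDiv j) {y : B.pt M} {c : C.pt M} (hy : W.mem y)
    (hy' : W.mem (B.red O y)) (hc : b.fr y c) (hc' : b.fr (B.red O y) (C.red O c)) {T : N}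
    (ht : Trans' ρ T) (hg : Gen ρ T) (hT : T ∈ O'.O) (ht' : Trans' h.resHom (O'.rd T))
    (z : D.pt M) :
    O'.IsDiv (j + 1) ∧ (∀ f, O'.ord (ρ f) = O.ord f) ∧
      φ.v O'.res ((A.prod D).red O' (pt b ρ y c T z)) =
        val b φ O.res ((B.prod D).red O (y, z)) := by
  obtain ⟨O₁, h₁, m₁, t₁, g₁, d₁⟩ := Pl.exists_gauss ht hg O
  obtain rfl : O₁ = O' := Pl.gauss_unique hg h₁ h m₁ hT t₁ ht'
  refine ⟨⟨(d₁ hO.1).1, ?_⟩, (d₁ hO.1).2, ?_⟩
  · rw [t₁.tr_eq g₁, hO.2, Nat.cast_succ]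
  · rw [(red_pt b (Z := Z) h (d₁ hO.1).1 hy hy' hc hc' T z).1 hT]
    exact val_eq b φ (hO.good hM) t₁ g₁ hy' hc' _

omit [Base K] in
/-- A place with a nonzero value is trivial on the base or a Gauss extension. -/
theorem gauss_of {M N : Fld K} (hM : Good (j + 1) M) {ρ : M →ₐ[K] N} {O : Pl M} {O' : Pl N}
    (h : Pl.Over ρ O O') (hO : O.O ≠ ⊤) (hO' : O'.IsDiv (j + 1)) {y : B.pt M} {c : C.pt M}
    (hy : W.mem y) (hc : b.fr y c) {T : N} (hg : Gen ρ T) {z : D.pt M}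
    (hv : φ.v O'.res ((A.prod D).red O' (pt b ρ y c T z)) ≠ 0) :
    O.IsDiv j ∧ W.mem (B.red O y) ∧
      (b.fr (B.red O y) (C.red O c) → T ∈ O'.O ∧ Trans' h.resHom (O'.rd T)) := by
  have htr : O.res.tr = j := by
    have h1 : O.res.tr < (j + 1 : ℕ) := O.tr_res_lt hO hM.2.le
    have h2 := h.tr_res_le hg
    rw [hO'.2] at h2
    obtain ⟨n, hn⟩ := Cardinal.lt_aleph0.1 (h1.trans Cardinal.natCast_lt_aleph0)
    rw [hn] at h1 h2 ⊢
    norm_cast at h1 h2 ⊢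
    omega
  have hm := b.mem (B.map ρ y) (C.map ρ c) T ((W.map_iff ρ y).2 hy) (b.fr_map ρ y c hy hc)
  have hE : E.mem (A.red O' (b.θ (B.map ρ y) (C.map ρ c) T)) := (φ.supp _ _ hv).2.1
  have hy' : W.mem (B.red O y) := by
    have h1 := b.π.mem _ hE
    rw [b.π.cont O' _ hO'.1 hm.1 hE, hm.2, B.red_map h] at h1
    exact (W.map_iff _ _).1 h1
  refine ⟨⟨h.isDVR hO'.1 hO, htr⟩, hy', fun hc' => ?_⟩
  have H := red_pt b (Z := Z) h hO'.1 hy hy' hc hc' T z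
  have hT : T ∈ O'.O := by
    by_contra hT
    exact H.2 hT (φ.supp _ _ hv).2
  refine ⟨hT, ?_⟩
  by_contra ht
  obtain ⟨M₁, α, κ, T₁, hκ, hT₁, hg₁⟩ := exists_gen h.resHom (O'.rd T)
  have hf : Fin' α := hg₁.fin fun h' => ht (by rw [← hκ, ← hT₁]; exact Trans'.of_map.2 h')
  apply hv
  rw [H.1 hT, ← hκ, ← hT₁, ← pt_map b _ _ _ _ hy' hc']
  refine φ.low κ _ ?_
  rw [hf.tr_eq, htr]
  exact_mod_cast Nat.lt_succ_self j

omit [Base K] in
theorem rel_of {M N : Fld K} (hM : Good (j + 1) M) {ρ : M →ₐ[K] N} {O' : Pl N}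
    (hO : (Pl.comap ρ O').O ≠ ⊤) (hO' : O'.IsDiv (j + 1)) {y : B.pt M} {c : C.pt M}
    (hy : W.mem y) (hc : b.fr y c) {T : N} (ht : Trans' ρ T) (hg : Gen ρ T) {z : D.pt M}
    (hv : φ.v O'.res ((A.prod D).red O' (pt b ρ y c T z)) ≠ 0) :
    (Pl.comap ρ O').IsDiv j ∧
      CKL2.Rel b ρ y (b.θ (B.map ρ y) (C.map ρ c) T) (Pl.comap ρ O') O' := by
  obtain ⟨h₁, h₂, -⟩ := gauss_of b φ hM (Pl.over_comap ρ O') hO hO' hy hc hg hv
  obtain ⟨c', T', a₁, a₂, a₃, a₄, a₅⟩ := exists_int b hy hc ht hg _ h₁.1 h₂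
  have hv' : φ.v O'.res ((A.prod D).red O' (pt b ρ y c' T' z)) ≠ 0 := by
    rw [pt, a₃]
    exact hv
  obtain ⟨a₆, a₇⟩ := (gauss_of b φ hM (Pl.over_comap ρ O') hO hO' hy a₁ a₅ hv').2.2 a₂
  exact ⟨h₁, Pl.over_comap ρ O', c', T', h₂, a₁, a₂, a₃, a₄, a₅, a₆, a₇⟩

theorem rel_eq {M N : Fld K} (hM : Good (j + 1) M) {ρ : M →ₐ[K] N} {O : Pl M} {O' : Pl N}
    (hO : O.IsDiv j) {y : B.pt M} (hy : W.mem y) {e : A.pt N} (h : CKL2.Rel b ρ y e O O')
    (z : D.pt M) :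
    O'.IsDiv (j + 1) ∧ (∀ f, O'.ord (ρ f) = O.ord f) ∧
      φ.v O'.res ((A.prod D).red O' (e, D.map ρ z)) =
        val b φ O.res ((B.prod D).red O (y, z)) := by
  obtain ⟨h, c, T, a₁, a₂, a₃, rfl, a₅, a₆, a₇, a₈⟩ := h
  exact gauss_eq b φ hM h hO hy a₁ a₂ a₃ a₅ a₆ a₇ a₈ z

theorem val_rat (M : Fld K) (y : (B.prod D).pt M) (f : M) (hM : Good (j + 1) M)
    (hy : (W.prod Z).mem y) (hf : f ≠ 0) :
    (Function.support fun O : {O : Pl M // O.IsDiv j} =>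
      (O.1.ord f : ℂ) * val b φ O.1.res ((B.prod D).red O.1 y)).Finite ∧
    ∑ᶠ O : {O : Pl M // O.IsDiv j},
      (O.1.ord f : ℂ) * val b φ O.1.res ((B.prod D).red O.1 y) = 0 := by
  classical
  obtain ⟨y, z⟩ := y
  obtain ⟨c, hc⟩ := b.ex y hy.1
  have hm := b.mem (B.map M.toRat y) (C.map M.toRat c) RatFunc.X ((W.map_iff _ y).2 hy.1)
    (b.fr_map _ y c hy.1 hc)
  have H := φ.rat M.rat (pt b M.toRat y c RatFunc.X z) (M.toRat f)
    (hM.succ (trans_rat M) (gen_rat M)) ⟨hm.1, (Z.map_iff _ z).2 hy.2⟩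
    ((map_ne_zero M.toRat).2 hf)
  choose c' T' a₁ a₂ a₃ a₄ a₅ using fun O : {O : Pl M // O.IsDiv j} =>
    exists_int b hy.1 hc (trans_rat M) (gen_rat M) O.1 O.2.1
  refine transfer _ _ (fun O O' => ∃ (h : Pl.Over M.toRat O.1 O'.1) (hy' : W.mem (B.red O.1 y)),
    T' O hy' ∈ O'.1.O ∧ Trans' h.resHom (O'.1.rd (T' O hy'))) ?_ ?_ ?_ ?_ ?_ H
  · intro O hO
    have hy' : W.mem (B.red O.1 y) := (val_ne b φ (right_ne_zero_of_mul hO)).2.1
    obtain ⟨O', h, m, t, -⟩ := Pl.exists_gauss (a₄ _ hy') (a₅ _ hy') O.1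
    exact ⟨⟨O', (gauss_eq b φ hM h O.2 hy.1 hy' (a₁ _ hy') (a₂ _ hy') (a₄ _ hy') (a₅ _ hy') m t
      z).1⟩, h, hy', m, t⟩
  · intro O' hO'
    have h0 : (Pl.comap M.toRat O'.1).O ≠ ⊤ := by
      intro h0
      apply left_ne_zero_of_mul hO'
      have h1 : ∀ x : M, M.toRat x ∈ O'.1.O := fun x =>
        (Pl.over_comap M.toRat O'.1 x).1 (h0 ▸ ValuationSubring.mem_top x)
      rw [Pl.ord_eq_zero_of_mem' O'.2.1 (h1 f) (by rw [← map_inv₀]; exact h1 _), Int.cast_zero]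
    have hv := right_ne_zero_of_mul hO'
    obtain ⟨h₁, h₂, -⟩ := gauss_of b φ hM (Pl.over_comap _ O'.1) h0 O'.2 hy.1 hc (gen_rat M) hv
    have hv' : φ.v O'.1.res ((A.prod D).red O'.1 (pt b M.toRat y (c' ⟨_, h₁⟩ h₂) (T' ⟨_, h₁⟩ h₂) z)) ≠ 0 := by
      rw [pt, a₃]
      exact hv
    exact ⟨⟨_, h₁⟩, Pl.over_comap _ O'.1, h₂,
      (gauss_of b φ hM (Pl.over_comap _ O'.1) h0 O'.2 hy.1 (a₁ ⟨_, h₁⟩ h₂) (a₅ ⟨_, h₁⟩ h₂) hv').2.2
        (a₂ ⟨_, h₁⟩ h₂)⟩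
  · rintro O O' ⟨h, hy', m, t⟩
    obtain ⟨-, e₁, e₂⟩ := gauss_eq b φ hM h O.2 hy.1 hy' (a₁ _ hy') (a₂ _ hy') (a₄ _ hy')
      (a₅ _ hy') m t z
    rw [pt, a₃] at e₂
    rw [← e₁, ← e₂]
    rfl
  · rintro O O₁ O₂ ⟨h₁, hy', m₁, t₁⟩ ⟨h₂, _, m₂, t₂⟩
    exact Subtype.ext (Pl.gauss_unique (a₅ _ hy') h₁ h₂ m₁ m₂ t₁ t₂)
  · rintro O₁ O₂ O' ⟨h₁, -⟩ ⟨h₂, -⟩
    exact Subtype.ext (h₁.eq_comap.trans h₂.eq_comap.symm)

/-- The functional on the base. -/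
noncomputable def down : Fe j (W.prod Z) where
  v := val b φ
  supp _ _ h := val_ne b φ h
  ext {L L'} ι y hL hL' := by
    by_cases hy : W.mem y.1
    · obtain ⟨c, hc⟩ := b.ex y.1 hy
      obtain ⟨hκ, hT⟩ := (rat_lift ι).choose_spec
      have e := φ.ext (rat_lift ι).choose (pt b L.toRat y.1 c RatFunc.X y.2)
        (hL.succ (trans_rat L) (gen_rat L)) (hL'.succ (trans_rat L') (gen_rat L'))
      rw [val_eq b φ hL (trans_rat L) (gen_rat L) hy hc, pt_map b _ _ _ _ hy hc, hκ, hT,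
        ← pt_comp, val_eq b φ hL' (trans_rat L') (gen_rat L') ((W.map_iff ι _).2 hy)
          (b.fr_map ι _ c hy hc),
        deg_rat hκ (gen_rat L) (hT.symm ▸ trans_rat L') (hT.symm ▸ gen_rat L')] at e
      exact e
    · rw [val, val, dif_neg fun h => hy ((W.map_iff ι _).1 h.2), dif_neg fun h => hy h.2, mul_zero]
  low {L L'} ι y hL := by
    by_contra h
    obtain ⟨h₁, h₂, -⟩ := val_ne b φ h
    have hy : W.mem y.1 := (W.map_iff ι _).1 h₂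
    obtain ⟨c, hc⟩ := b.ex y.1 hy
    obtain ⟨hκ, hT⟩ := (rat_lift ι).choose_spec
    have e := φ.low (rat_lift ι).choose (pt b L.toRat y.1 c RatFunc.X y.2) (by
      rw [(trans_rat L).tr_eq (gen_rat L)]
      obtain ⟨n, hn⟩ := Cardinal.lt_aleph0.1 (hL.trans Cardinal.natCast_lt_aleph0)
      rw [hn] at hL ⊢
      norm_cast at hL ⊢
      omega)
    rw [pt_map b _ _ _ _ hy hc, hκ, hT, ← pt_comp] at e
    exact h ((val_eq b φ h₁ (trans_rat L') (gen_rat L') h₂ (b.fr_map ι _ c hy hc) _).symm.trans e)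
  rat := val_rat b φ

theorem up (h : ∀ L y, val b φ L y = 0) (L : Fld K) (e : (A.prod D).pt L) : φ.v L e = 0 := by
  by_contra hv
  obtain ⟨hL, he, hz⟩ := φ.supp _ _ hv
  obtain ⟨e, z⟩ := e
  have hy := b.π.mem e he
  obtain ⟨c, hc⟩ := b.ex _ hy
  obtain ⟨t, ht⟩ := b.surj e c he hc
  set y := b.π.f e
  have hm := b.mem (B.map L.toRat y) (C.map L.toRat c) RatFunc.X ((W.map_iff _ y).2 hy)
    (b.fr_map _ y c hy hc)
  set f : L.rat := L.toRat 1 * RatFunc.X + L.toRat (-t) with hf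
  have hf1 : Trans' L.toRat f := (trans_rat L).affine one_ne_zero _
  have hf2 : Gen L.toRat f := (gen_rat L).affine one_ne_zero _
  have hX : RatFunc.X = f + L.toRat t := by rw [hf, map_one, map_neg]; ring
  have hf0 : f ≠ 0 := fun h => hf1.ne 0 (h.trans (map_zero _).symm)
  have hN := hL.succ (trans_rat L) (gen_rat L)
  have H := (φ.rat L.rat (pt b L.toRat y c RatFunc.X z) f hN ⟨hm.1, (Z.map_iff _ z).2 hz⟩ hf0).2
  have triv : ∀ (O : Pl L.rat) (_ : O.IsDVR) (h : Pl.Triv L.toRat O),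
      (RatFunc.X ∈ O.O → (A.prod D).red O (pt b L.toRat y c RatFunc.X z) =
        pt b h.hom y c (O.rd RatFunc.X) z) ∧
      (RatFunc.X ∉ O.O → ¬ (E.prod Z).mem ((A.prod D).red O (pt b L.toRat y c RatFunc.X z))) := by
    intro O d h
    have H := b.red O (B.map L.toRat y) (C.map L.toRat c) RatFunc.X d ((W.map_iff _ y).2 hy)
      (by rw [B.red_triv h]; exact (W.map_iff _ _).2 hy) (b.fr_map _ y c hy hc)
      (by rw [B.red_triv h, C.red_triv h]; exact b.fr_map _ _ _ hy hc)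
    refine ⟨fun hT => Prod.ext ?_ (D.red_triv h z), fun hT hh => H.2 hT hh.1⟩
    have := H.1 hT
    rw [B.red_triv h, C.red_triv h] at this
    exact this
  obtain ⟨O₀, h₀, d₀, o₀, s₀⟩ := Pl.exists_zero_place hf1 hf2
  have i₀ : O₀.IsDiv (j + 1) := ⟨d₀, (Fin'.of_surj s₀).tr_eq.trans hL.2⟩
  have hinv : ∀ O : Pl L.rat, O.IsDVR → 0 < O.ord f → f⁻¹ ∉ O.O := by
    intro O d ho hh
    have := (Pl.ord_nonneg_iff d).2 hh
    rw [Pl.ord_inv d] at this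
    omega
  rw [finsum_eq_single _ ⟨O₀, i₀⟩] at H
  · obtain ⟨m, r⟩ := (Pl.ord_pos_iff d₀ hf0).1 (by omega)
    have hX' : RatFunc.X ∈ O₀.O := hX ▸ add_mem m (h₀ t)
    have hr : O₀.rd RatFunc.X = h₀.hom t := by
      rw [hX, O₀.rd_add m (h₀ t), r, zero_add, h₀.hom_apply]
    have e₁ := φ.ext h₀.hom (e, z) hL (i₀.good hN)
    have e₂ : (A.prod D).map h₀.hom (e, z) = pt b h₀.hom y c (h₀.hom t) z := by
      refine Prod.ext ?_ rfl
      show A.map h₀.hom e = _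
      rw [← ht]
      exact (b.θ_map _ _ _ _ hy hc).symm
    simp only [o₀, Int.cast_one, one_mul] at H
    rw [(triv O₀ d₀ h₀).1 hX', hr, ← e₂, e₁, deg_of_surj s₀, Nat.cast_one, one_mul] at H
    exact hv H
  · intro O hO
    by_contra hne
    have hv' := right_ne_zero_of_mul hne
    by_cases hT : Pl.Triv L.toRat O.1
    · have hX' : RatFunc.X ∈ O.1.O := by
        by_contra hX'
        exact (triv O.1 O.2.1 hT).2 hX' (φ.supp _ _ hv').2
      have m : f ∈ O.1.O := add_mem (mul_mem (hT 1) hX') (hT _)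
      have o₁ := (Pl.ord_nonneg_iff O.2.1).2 m
      have o₂ : O.1.ord f ≠ 0 := by exact_mod_cast left_ne_zero_of_mul hne
      exact hO (Subtype.ext (Pl.zero_place_unique hf1 hf2 hT h₀ (hinv _ O.2.1 (by omega))
        (hinv _ d₀ (o₀ ▸ one_pos))))
    · have h0 : (Pl.comap L.toRat O.1).O ≠ ⊤ := fun h0 => hT fun x =>
        (Pl.over_comap L.toRat O.1 x).1 (h0 ▸ ValuationSubring.mem_top x)
      obtain ⟨r₁, r₂⟩ := rel_of b φ hL h0 O.2 hy hc (trans_rat L) (gen_rat L) hv'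
      exact hv' ((rel_eq b φ hL r₁ hy r₂ z).2.2.trans (h _ _))

end Hi

end Pool.Agent.Lib.MP_557161_ag.HG
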