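import Pool.Agent.Lib.MP_557161_ag.HG.St3M

/-!
Triangular matrices and elementary matrices.
-/

namespace Pool.Agent.Lib.MP_557161_ag.HG

open Pool.Agent.Lib.MP_557161_ag.DL Matrix

namespace G1a

variable {F : Type} [Field F] {n m : ℕ} {A B N g : Matrix (Fin n) (Fin n) F} {r r' : Fin n}

lemma tri_det (h : A.BlockTriangular Fin.val) : A.det = ∏ i, A i i :=
  det_of_isUpperTriangular fun _ _ hij => h hij

lemma tri_mul_diag (h : A.BlockTriangular Fin.val) (h' : B.BlockTriangular Fin.val) (i : Fin n) :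
    (A * B) i i = A i i * B i i := by
  rw [mul_apply]
  refine Finset.sum_eq_single i (fun k _ hk => ?_) fun h => absurd (Finset.mem_univ i) h
  rcases lt_or_gt_of_ne hk with e | e
  · rw [h e, zero_mul]
  · rw [h' e, mul_zero]

lemma unit (h : A.det ≠ 0) : IsUnit A.det := h.isUnit

lemma det_inv_ne (h : A.det ≠ 0) : A⁻¹.det ≠ 0 := by simpa [det_nonsing_inv] using h

lemma bor_diag (h : Bor A) (i : Fin n) : A i i ≠ 0 :=
  Finset.prod_ne_zero_iff.1 ((tri_det h.1).symm.trans_ne h.2) i (Finset.mem_univ i)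

lemma bor_inv (h : Bor A) : Bor A⁻¹ :=
  letI := invertibleOfIsUnitDet A (unit h.2)
  ⟨blockTriangular_inv_of_blockTriangular h.1, det_inv_ne h.2⟩

lemma bor_inv_diag (h : Bor A) (i : Fin n) : A⁻¹ i i = (A i i)⁻¹ := by
  have := tri_mul_diag (bor_inv h).1 h.1 i
  rw [nonsing_inv_mul _ (unit h.2), one_apply_eq] at this
  exact eq_inv_of_mul_eq_one_left this.symm

lemma tr_stp (s : Bool) (h : Bor A) (h' : Bor B) :
    (stp s A B).trace = ∑ i, cond s ((A i i)⁻¹ * B i i) ((B i i)⁻¹ * A i i) := by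
  cases s <;> refine Finset.sum_congr rfl fun i _ => ?_
  · exact (tri_mul_diag (bor_inv h').1 h.1 i).trans (by rw [bor_inv_diag h']; rfl)
  · exact (tri_mul_diag (bor_inv h).1 h'.1 i).trans (by rw [bor_inv_diag h]; rfl)

lemma det_stp (s : Bool) (A B : Matrix (Fin n) (Fin n) F) :
    (stp s A B).det = cond s (A.det⁻¹ * B.det) (B.det⁻¹ * A.det) := by
  cases s <;> simp [stp, det_nonsing_inv]

lemma conj_inv (hg : g.det ≠ 0) (A B : Matrix (Fin n) (Fin n) F) :
    (g * A * g⁻¹)⁻¹ * (g * B * g⁻¹) = g * (A⁻¹ * B) * g⁻¹ := by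
  rw [Matrix.mul_inv_rev, Matrix.mul_inv_rev, nonsing_inv_nonsing_inv _ (unit hg)]
  simp only [Matrix.mul_assoc, nonsing_inv_mul_cancel_left _ _ (unit hg)]

lemma stp_conj (s : Bool) (hg : g.det ≠ 0) (A B : Matrix (Fin n) (Fin n) F) :
    stp s (g * A * g⁻¹) (g * B * g⁻¹) = g * stp s A B * g⁻¹ := by
  cases s
  exacts [conj_inv hg _ _, conj_inv hg _ _]

lemma det_conj'' (hg : g.det ≠ 0) (A : Matrix (Fin n) (Fin n) F) : (g * A * g⁻¹).det = A.det :=
  det_conj ((isUnit_iff_isUnit_det g).2 (unit hg)) A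

/-- The invertible function on the torus. -/
def gT (s : Fin m → Bool) (e : Fin m → ℕ) (p : Fin (m + 1) → Fin n → F) : F :=
  ∏ j : Fin m, cond (s j) ((∏ i, p j.castSucc i)⁻¹ * ∏ i, p j.succ i)
    ((∏ i, p j.succ i)⁻¹ * ∏ i, p j.castSucc i) ^ e j

/-- The phase on the torus. -/
def φT (s : Fin m → Bool) (p : Fin (m + 1) → Fin n → F) : F :=
  ∑ j : Fin m, cond (s j) 1 (-1) * ∑ i, cond (s j) ((p j.castSucc i)⁻¹ * p j.succ i)
    ((p j.succ i)⁻¹ * p j.castSucc i)

lemma gT_perm (s : Fin m → Bool) (e : Fin m → ℕ) (p : Fin (m + 1) → Fin n → F)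
    (σ : Equiv.Perm (Fin n)) : gT s e (fun j i => p j (σ i)) = gT s e p := by
  simp only [gT, fun j => Equiv.prod_comp σ (p j)]

lemma φT_perm (s : Fin m → Bool) (p : Fin (m + 1) → Fin n → F) (σ : Equiv.Perm (Fin n)) :
    φT s (fun j i => p j (σ i)) = φT s p :=
  Finset.sum_congr rfl fun j _ => congrArg _ (Equiv.sum_comp σ fun i =>
    cond (s j) ((p j.castSucc i)⁻¹ * p j.succ i) ((p j.succ i)⁻¹ * p j.castSucc i))

lemma chain (s : Fin m → Bool) (e : Fin m → ℕ) {p : Fin (m + 1) → Fin n → F}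
    {μ A : Fin (m + 1) → Matrix (Fin n) (Fin n) F} (hg : g.det ≠ 0)
    (hμ : ∀ j, μ j = g * A j * g⁻¹) (hA : ∀ j, (A j).BlockTriangular Fin.val)
    (hp : ∀ j i, A j i i = p j i) (h0 : ∀ j i, p j i ≠ 0) :
    (∀ j, (μ j).det ≠ 0) ∧
      ∏ j : Fin m, (stp (s j) (μ j.castSucc) (μ j.succ)).det ^ e j = gT s e p ∧
      ∑ j : Fin m, cond (s j) 1 (-1) * (stp (s j) (μ j.castSucc) (μ j.succ)).trace = φT s p := by
  have hd : ∀ j, (A j).det = ∏ i, p j i := fun j => by simp only [tri_det (hA j), hp]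
  have hB : ∀ j, Bor (A j) := fun j =>
    ⟨hA j, hd j ▸ Finset.prod_ne_zero_iff.2 fun i _ => h0 j i⟩
  refine ⟨fun j => by rw [hμ, det_conj'' hg]; exact (hB j).2, ?_, ?_⟩
  · simp only [gT, det_stp, hμ, det_conj'' hg, hd]
  · simp only [φT, hμ, stp_conj _ hg, trace_conj ((isUnit_iff_isUnit_det g).2 (unit hg)),
      tr_stp _ (hB _) (hB _), hp]

lemma su_tri (h : SU Fin.val N) : N.BlockTriangular Fin.val := fun i j hij => h i j hij.le

lemma tri_mul_su (hA : A.BlockTriangular Fin.val) (h : SU Fin.val N) : SU Fin.val (A * N) :=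
  fun i j hij => mul_apply.trans <| Finset.sum_eq_zero fun k _ => by
    rcases lt_or_ge k.1 i.1 with e | e
    · rw [hA e, zero_mul]
    · rw [h k j (hij.trans e), mul_zero]

lemma su_mul_tri (h : SU Fin.val N) (hA : A.BlockTriangular Fin.val) : SU Fin.val (N * A) :=
  fun i j hij => mul_apply.trans <| Finset.sum_eq_zero fun k _ => by
    rcases le_or_gt k.1 i.1 with e | e
    · rw [h i k e, zero_mul]
    · rw [hA (lt_of_le_of_lt hij e), mul_zero]

lemma tri_mul_zero (hr : r'.1 = r.1 + 1) (hA : A.BlockTriangular Fin.val) (h : SU Fin.val N)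
    (h0 : N r r' = 0) : (A * N) r r' = 0 :=
  mul_apply.trans <| Finset.sum_eq_zero fun k _ => by
    rcases lt_trichotomy k.1 r.1 with e | e | e
    · rw [hA e, zero_mul]
    · rw [Fin.ext e, h0, mul_zero]
    · rw [h k r' (by omega), mul_zero]

lemma mul_tri_zero (hr : r'.1 = r.1 + 1) (h : SU Fin.val N) (h0 : N r r' = 0)
    (hA : A.BlockTriangular Fin.val) : (N * A) r r' = 0 :=
  mul_apply.trans <| Finset.sum_eq_zero fun k _ => by
    rcases lt_trichotomy k.1 r'.1 with e | e | e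
    · rw [h r k (by omega), zero_mul]
    · rw [Fin.ext e, h0, zero_mul]
    · rw [hA e, mul_zero]

lemma mul_hS (A : Matrix (Fin n) (Fin n) F) (S : F) (i j : Fin n) :
    (A * hS r r' S) i j = A i j + if j = r then A i r' * S else 0 := by
  rw [hS, Matrix.mul_add, Matrix.mul_one, Matrix.add_apply]
  split_ifs with h
  · rw [h, mul_single_apply_same]
  · rw [mul_single_apply_of_ne _ _ _ _ _ h]

lemma hS_mul (A : Matrix (Fin n) (Fin n) F) (S : F) (i j : Fin n) :
    (hS r r' S * A) i j = A i j + if i = r' then S * A r j else 0 := by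
  rw [hS, Matrix.add_mul, Matrix.one_mul, Matrix.add_apply]
  split_ifs with h
  · rw [h, single_mul_apply_same]
  · rw [single_mul_apply_of_ne _ _ _ _ _ h]

lemma ne_of (hr : r'.1 = r.1 + 1) : r ≠ r' := fun e => by rw [e] at hr; omega

lemma hS_neg (hr : r'.1 = r.1 + 1) (S : F) : hS r r' (-S) * hS r r' S = 1 := by
  simp only [hS, Matrix.add_mul, Matrix.mul_add, Matrix.one_mul, Matrix.mul_one,
    single_mul_single_of_ne _ _ _ _ (ne_of hr), add_zero]
  rw [add_assoc, ← single_add, neg_add_cancel, single_zero, add_zero]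

lemma hS_inv (hr : r'.1 = r.1 + 1) (S : F) : (hS r r' S)⁻¹ = hS r r' (-S) :=
  inv_eq_left_inv (hS_neg hr S)

lemma hS_det (hr : r'.1 = r.1 + 1) (S : F) : (hS r r' S).det ≠ 0 := fun e => by
  simpa [e] using congrArg det (hS_neg hr S)

lemma su_hS (hr : r'.1 = r.1 + 1) (h : SU Fin.val N) (h0 : N r r' = 0) (a b : F) :
    SU Fin.val (hS r r' a * N * hS r r' b) := by
  have h1 : ∀ j : Fin n, j.1 ≤ r'.1 → N r j = 0 := fun j hj => by
    rcases hj.lt_or_eq with e | e
    · exact h r j (by omega)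
    · rw [Fin.ext e, h0]
  have h2 : ∀ i j : Fin n, j.1 ≤ i.1 → (hS r r' a * N) i j = 0 := fun i j hij => by
    rw [hS_mul, h i j hij, zero_add]
    split_ifs with e
    · rw [h1 j (e ▸ hij), mul_zero]
    · rfl
  intro i j hij
  rw [mul_hS, h2 i j hij, zero_add]
  split_ifs with e
  · subst e
    rcases hij.lt_or_eq with e | e
    · rw [h2 i r' (by omega), zero_mul]
    · rw [← Fin.ext e, hS_mul, if_neg (ne_of hr), h0, add_zero, zero_mul]
  · rfl

lemma bor_hS (hr : r'.1 = r.1 + 1) (h : Bor B) {S S' : F}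
    (e : S' * (B r r + B r r' * S) = B r' r' * S) : Bor (hS r r' (-S') * B * hS r r' S) := by
  refine ⟨fun i j hij => ?_, by simp [hS_det hr, h.2]⟩
  rw [Matrix.mul_assoc, hS_mul, mul_hS, mul_hS, h.1 hij, zero_add]
  by_cases hi : i = r' <;> by_cases hj : j = r
  · rw [if_pos hi, if_pos hj, if_pos hj, hi, hj]
    linear_combination -e
  · rw [if_pos hi, if_neg hj, if_neg hj, h.1 (i := r) (j := j) (by
      have : j.1 ≠ r.1 := fun e => hj (Fin.ext e)
      subst hi
      omega)]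
    simp
  · rw [if_neg hi, if_pos hj, h.1 (i := i) (j := r') (by
      have : i.1 ≠ r'.1 := fun e => hi (Fin.ext e)
      subst hj
      omega)]
    simp
  · rw [if_neg hi, if_neg hj, add_zero]

lemma upm_su {b : Fin n → ℕ} (T : UpI b → F) : SU b (upm b T) := fun _ _ h => dif_neg (not_lt.2 h)

lemma nmat_su (T : Mid m × UpN n → F) (j : Fin (m + 1)) : SU Fin.val (nmat T j) := by
  unfold nmat
  split_ifs
  exacts [upm_su _, fun _ _ _ => rfl]

lemma nmat_apply (T : Mid m × UpN n → F) (a : Mid m × UpN n) :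
    nmat T a.1.1 a.2.1.1 a.2.1.2 = T a := by
  rw [nmat, dif_pos a.1.2]
  exact dif_pos a.2.2

lemma dn_tri (q : Fin n → F) (h : SU Fin.val N) : (diagonal q + N).BlockTriangular Fin.val :=
  (blockTriangular_diagonal q).add (su_tri h)

lemma dn_diag (q : Fin n → F) (h : SU Fin.val N) (i : Fin n) : (diagonal q + N) i i = q i := by
  rw [Matrix.add_apply, h i i le_rfl, add_zero, diagonal_apply_eq]

/-- The parameters after a change of the frame. -/
noncomputable def cj (B : Matrix (Fin n) (Fin n) F) (p : Fin (m + 1) → Fin n → F)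
    (T : Mid m × UpN n → F) (a : Mid m × UpN n) : F :=
  (B * (diagonal (p a.1.1) + nmat T a.1.1) * B⁻¹) a.2.1.1 a.2.1.2

lemma cj_eq (h : Bor B) (p : Fin (m + 1) → Fin n → F) (T : Mid m × UpN n → F) (j : Mid m) :
    diagonal (p j.1) + nmat (cj B p T) j.1 = B * (diagonal (p j.1) + nmat T j.1) * B⁻¹ := by
  have h1 := dn_tri (p j.1) (nmat_su T j.1)
  ext a c
  rcases lt_trichotomy a.1 c.1 with e | e | e
  · rw [Matrix.add_apply, diagonal_apply_ne _ (fun e' => by rw [e'] at e; omega), zero_add]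
    exact nmat_apply _ (j, ⟨(a, c), e⟩)
  · obtain rfl := Fin.ext e
    rw [dn_diag _ (nmat_su _ _), tri_mul_diag (h.1.mul h1) (bor_inv h).1, tri_mul_diag h.1 h1,
      dn_diag _ (nmat_su _ _), bor_inv_diag h, mul_right_comm, mul_inv_cancel₀ (bor_diag h a),
      one_mul]
  · rw [dn_tri _ (nmat_su _ _) e, ((h.1.mul h1).mul (bor_inv h).1) e]

lemma cj_inv (h : Bor B) (p : Fin (m + 1) → Fin n → F) (T : Mid m × UpN n → F)
    (a : Mid m × UpN n) :
    (B⁻¹ * (diagonal (p a.1.1) + nmat (cj B p T) a.1.1) * B) a.2.1.1 a.2.1.2 = T a := by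
  rw [cj_eq h]
  simp only [Matrix.mul_assoc, nonsing_inv_mul_cancel_left _ _ (unit h.2),
    nonsing_inv_mul _ (unit h.2), Matrix.mul_one]
  rw [Matrix.add_apply, diagonal_apply_ne _ (fun e' => absurd a.2.2 (by rw [e']; omega)), zero_add,
    nmat_apply]

lemma cmat_mul (h : Bor B) (μ g : Matrix (Fin n) (Fin n) F) (p : Fin (m + 1) → Fin n → F)
    (T : Mid m × UpN n → F) :
    (cmat μ (g * B) fun j => diagonal (p j) + nmat T j) =
      cmat μ g fun j => diagonal (p j) + nmat (cj B p T) j := by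
  funext j
  unfold cmat
  split_ifs with h1 h2
  · rfl
  · rfl
  · simp only [cj_eq h p T ⟨j, h1, h2⟩, Matrix.mul_inv_rev, Matrix.mul_assoc]

lemma conj_sub (hg : g.det ≠ 0) (μ : Matrix (Fin n) (Fin n) F) (t : F) :
    g⁻¹ * (μ - diagonal fun _ => t) * g = g⁻¹ * μ * g - diagonal fun _ => t := by
  rw [Matrix.mul_sub, Matrix.sub_mul, ← smul_one_eq_diagonal, Matrix.mul_smul, Matrix.smul_mul,
    Matrix.mul_one, nonsing_inv_mul _ (unit hg)]

variable {K : Type} [Field K] {M L : Fld K} {R : Rel M L}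

lemma rel_nmat {T : Mid m × UpN n → M} {T' : Mid m × UpN n → L} (h : ∀ a, R.r (T a) (T' a))
    (j : Fin (m + 1)) : R.m' (nmat T j) (nmat T' j) := by
  unfold nmat
  split_ifs
  exacts [Rel.mupm _ fun _ => h _, Rel.mzero]

lemma rel_hS (r r' : Fin n) {S : M} {S' : L} (h : R.r S S') : R.m' (hS r r' S) (hS r r' S') :=
  Rel.madd Rel.mone (Rel.msingle _ _ h)

lemma bor_map (α : M →ₐ[K] L) {b : Matrix (Fin n) (Fin n) M} (h : Bor b) : Bor (b.map α) :=
  have e : (Rel.ofHom α).m' b (b.map α) := fun _ _ => rfl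
  ⟨Rel.tri e h.1, fun h0 => h.2 ((map_eq_zero α).1 ((Rel.det e).trans h0))⟩

end G1a

end Pool.Agent.Lib.MP_557161_ag.HG
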