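import Pool.Agent.Lib.MP_557161_ag.HG.St3M

/-!
Matrix identities for the relation between the families.
-/

namespace Pool.Agent.Lib.MP_557161_ag.HG

open Pool.Agent.Lib.MP_557161_ag.DL Matrix

section Alg

variable {F : Type} [Field F] {n s q q' : ℕ} {N k b : Matrix (Fin n) (Fin n) F} {T : UpN n → F}
  {r r' c : Fin n} {S : F}

/-- The shape of a nilpotent matrix and a frame in the closure of a family. -/
structure G3D (s q q' : ℕ) (N k : Matrix (Fin n) (Fin n) F) : Prop where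
  h1 : ∀ a c : Fin n, c < a → s ≤ a.1 → k a c = 0
  h2 : ∀ a c : Fin n, a.1 + 1 = s → c.1 < q → k a c = 0
  h3 : ∀ a c : Fin n, c.1 + 1 < s → N a c = 0
  h4 : ∀ a c : Fin n, c.1 + 1 = s → q' ≤ a.1 → (k⁻¹ * N) a c = 0

lemma G3_upm (T : UpN n → F) {a c : Fin n} (h : c ≤ a) : upm Fin.val T a c = 0 :=
  dif_neg (by omega)

lemma G3_luni (s q : ℕ) (T : UpN n → F) : LUni (ggm s q T) :=
  ⟨fun a c h => by rw [ggm, of_apply, if_neg h.ne', G3_upm T h.le, ite_self],
    fun a => if_pos rfl⟩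

lemma LUni.G3_det (h : LUni k) : k.det ≠ 0 := by
  rw [det_of_isLowerTriangular k fun i j e => h.1 i j e]
  simp [h.2]

lemma Bor.G3_inv (h : Bor b) : Bor b⁻¹ := by
  let _ := invertibleOfIsUnitDet b h.2.isUnit
  exact ⟨blockTriangular_inv_of_blockTriangular h.1, by simp [h.2]⟩

lemma G3_col (hc : c.1 + 1 = s) (a : Fin n) :
    ((ggm s q T)⁻¹ * gnm s q T) a c = if a.1 < q then upm Fin.val T a c else 0 := by
  have e : ∀ a, gnm s q T a c =
      (ggm s q T *ᵥ fun d => if d.1 < q then upm Fin.val T d c else 0) a := fun a => by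
    rw [gnm, of_apply, if_neg (by omega), if_pos hc]
    rfl
  simp only [mul_apply, e]
  change ((ggm s q T)⁻¹ *ᵥ (ggm s q T *ᵥ _)) a = _
  rw [mulVec_mulVec, nonsing_inv_mul _ (G3_luni s q T).G3_det.isUnit, one_mulVec]

lemma G3D.fam (hq : q < s) (T : UpN n → F) : G3D s q q (gnm s q T) (ggm s q T) :=
  ⟨fun a c h h' => by rw [ggm, of_apply, if_neg h.ne, if_neg (by omega)],
    fun a c h h' => by rw [ggm, of_apply, if_neg (by omega), if_neg (by omega)],
    fun a c h => by rw [gnm, of_apply, if_neg (by omega), if_neg (by omega)],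
    fun a c h h' => by rw [G3_col h, if_neg (by omega)]⟩

lemma G3D.mul (h : G3D s q q' N k) (hb : Bor b) : G3D s q q' N (k * b) := by
  have e : ∀ (A B : Matrix (Fin n) (Fin n) F) a c, (∀ d, A a d = 0 ∨ B d c = 0) → (A * B) a c = 0 :=
    fun A B a c h => mul_apply.trans (Finset.sum_eq_zero fun d _ => mul_eq_zero.2 (h d))
  refine ⟨fun a c h1 h2 => e _ _ _ _ fun d => ?_, fun a c h1 h2 => e _ _ _ _ fun d => ?_, h.h3,
    fun a c h1 h2 => ?_⟩
  · exact (lt_or_ge d a).imp (fun h3 => h.h1 a d h3 h2) fun h3 => hb.1 (by omega)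
  · exact (lt_or_ge d.1 q).imp (h.h2 a d h1) fun h3 => hb.1 (by omega)
  · rw [Matrix.mul_inv_rev, Matrix.mul_assoc]
    exact e _ _ _ _ fun d => (lt_or_ge d a).imp (fun h3 => hb.G3_inv.1 h3)
      fun h3 => h.h4 d c h1 (by omega)

lemma G3D.nu (h : G3D s q q' N k) (hc : c.1 + 1 = s) (hr : r'.1 < s) :
    (k⁻¹ * N * k) r r' = (k⁻¹ * N) r c * k c r' := by
  refine mul_apply.trans (Finset.sum_eq_single c (fun d _ hd => mul_eq_zero.2 ?_) (by simp))
  have := Fin.val_ne_of_ne hd
  exact (lt_or_ge (d.1 + 1) s).imp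
    (fun e => mul_apply.trans (Finset.sum_eq_zero fun a _ => by rw [h.h3 a d e, mul_zero]))
    fun e => h.h1 d r' (by omega) (by omega)

lemma G3D.step (hr : r'.1 = r.1 + 1) (hs : r'.1 < s) (hc : c.1 + 1 = s) (h : G3D s r' r' N k)
    (hk : k.det ≠ 0) (h0 : (k⁻¹ * N * k) r r' = 0) : ∃ q, q + 1 < s ∧ G3D s (q + 1) q N k := by
  rw [h.nu hc hs, mul_eq_zero] at h0
  rcases h0 with h0 | h0
  · refine ⟨r, hr ▸ hs, h.h1, hr ▸ h.h2, h.h3, fun a d h1 h2 => ?_⟩
    obtain rfl : d = c := by omega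
    rcases h2.eq_or_lt with h2 | h2
    · rwa [← Fin.ext h2]
    · exact h.h4 a d h1 (by omega)
  · refine ⟨r', ?_, h.h1, fun a d h1 h2 => ?_, h.h3, h.h4⟩
    · by_contra e
      obtain rfl : c = r' := by omega
      let _ := invertibleOfIsUnitDet k hk.isUnit
      have ht : k.BlockTriangular fun a => if a < c then 0 else a.1 := fun a d h1 => by
        rcases lt_trichotomy a c with h2 | rfl | h2
        · simp [h2] at h1
        · exact h.h2 a d hc (by simp only [lt_irrefl, if_false] at h1; split_ifs at h1 <;> omega)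
        · exact h.h1 a d (by simp only [h2.not_gt, if_false] at h1; split_ifs at h1 <;> omega) (by omega)
      have e1 := congrFun (congrFun (nonsing_inv_mul k hk.isUnit) c) c
      rw [one_apply_eq, mul_apply, Finset.sum_eq_zero fun d _ => ?_] at e1
      · exact zero_ne_one e1
      rcases lt_trichotomy d c with h2 | rfl | h2
      · rw [blockTriangular_inv_of_blockTriangular ht (by simp only [h2, lt_irrefl, if_true, if_false]; omega),
          zero_mul]
      · rw [h0, mul_zero]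
      · rw [h.h1 d c h2 (by omega), mul_zero]
    · obtain rfl : a = c := by omega
      rcases (Nat.lt_succ_iff.1 h2).eq_or_lt with h2 | h2
      · rwa [Fin.ext h2]
      · exact h.h2 a d h1 h2

lemma G3D.mem (h : G3D s q q' N k) (hk : k.det ≠ 0) (hN : SU Fin.val N) {σ : Type} [SetLike σ F]
    [SubfieldClass σ F] (E : σ)
    (h1 : ∀ a c, k a c ∈ E) (h2 : ∀ a c : Fin n, a.1 < q' → c.1 + 1 = s → (k⁻¹ * N) a c ∈ E)
    (h3 : ∀ a : UpN n, s ≤ a.1.2.1 → N a.1.1 a.1.2 ∈ E) (a c : Fin n) : N a c ∈ E := by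
  rcases lt_trichotomy (c.1 + 1) s with e | e | e
  · exact h.h3 a c e ▸ zero_mem E
  · rw [← mul_nonsing_inv_cancel_left k N hk.isUnit, mul_apply]
    refine sum_mem fun d _ => mul_mem (h1 a d) ?_
    rcases lt_or_ge d.1 q' with e' | e'
    exacts [h2 d c e' e, h.h4 d c e e' ▸ zero_mem E]
  · rcases lt_or_ge a.1 c.1 with e' | e'
    exacts [h3 ⟨(a, c), e'⟩ (Nat.lt_succ_iff.1 e), hN a c e' ▸ zero_mem E]

lemma G3_nu (k μ : Matrix (Fin n) (Fin n) F) (t : F) (hk : k.det ≠ 0) (hr : r ≠ r') :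
    (k⁻¹ * μ * k) r r' = (k⁻¹ * (μ - diagonal fun _ : Fin n => t) * k) r r' := by
  rw [Matrix.mul_sub, Matrix.sub_mul, ← smul_one_eq_diagonal, Matrix.mul_smul, Matrix.mul_one,
    Matrix.smul_mul, nonsing_inv_mul k hk.isUnit, Matrix.sub_apply, Matrix.smul_apply, one_apply_ne hr, smul_zero,
    sub_zero]

lemma G3_nu_fam (hr : r'.1 = r.1 + 1) (hs : r'.1 < s) (hc : c.1 + 1 = s) (t : F) :
    ((ggm s r' T)⁻¹ * ((diagonal fun _ : Fin n => t) + gnm s r' T) * ggm s r' T) r r' =
      upm Fin.val T r c * if r' = c then 1 else upm Fin.val T r' c := by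
  rw [G3_nu _ _ t (G3_luni s r' T).G3_det (by omega), add_sub_cancel_left, (G3D.fam hs T).nu hc hs,
    G3_col hc, if_pos (by omega), ggm, of_apply, if_pos (Or.inr ⟨hc, le_rfl⟩)]

/-- The parameters after the change of the frame. -/
def G3T (s : ℕ) (r r' c : Fin n) (S : F) (T : UpN n → F) (a : UpN n) : F :=
  T a + (if a.1.1 = r then ggm s r' T a.1.2 r' * S else 0) -
    if a.1.1 = r' ∧ a.1.2 = c then S * upm Fin.val T r c else 0

lemma G3T_upm {a d : Fin n} (h : a < d) : upm Fin.val (G3T s r r' c S T) a d = upm Fin.val T a d +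
    (if a = r then ggm s r' T d r' * S else 0) -
      if a = r' ∧ d = c then S * upm Fin.val T r c else 0 := by
  simp only [upm, of_apply, dif_pos (show a.1 < d.1 from h), G3T]

lemma G3_hS (k : Matrix (Fin n) (Fin n) F) (d a : Fin n) :
    (k * hS r r' S) d a = k d a + if a = r then k d r' * S else 0 := by
  rw [hS, Matrix.mul_add, Matrix.mul_one, Matrix.add_apply]
  split_ifs with h
  · rw [h, mul_single_apply_same]
  · rw [mul_single_apply_of_ne _ _ _ _ _ h]

lemma G3_sw (hr : r'.1 = r.1 + 1) (hs : r'.1 < s) (hc : c.1 + 1 = s)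
    (h : q = r ∧ upm Fin.val T r c = 0 ∨ q = r' + 1 ∧ r' < c ∧ upm Fin.val T r' c = 0) :
    ggm s r' T * hS r r' S = ggm s q (G3T s r r' c S T) ∧ gnm s r' T = gnm s q (G3T s r r' c S T) := by
  have e0 : ∀ d : Fin n, d < r' ∨ s ≤ d.1 → ggm s r' T d r' = 0 := fun d e =>
    e.elim ((G3_luni s r' T).1 d r') fun e => (G3D.fam hs T).h1 d r' (by omega) e
  have e2 : r' < c → ggm s r' T c r' = upm Fin.val T r' c := fun e => by
    rw [ggm, of_apply, if_neg e.ne, if_pos (Or.inr ⟨hc, le_rfl⟩)]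
  have e1 : ggm s r' T * hS r r' S = ggm s q (G3T s r r' c S T) := by
    ext d a
    rw [G3_hS]
    rcases lt_trichotomy d a with e | rfl | e
    · rw [(G3_luni _ _ _).1 d a e, (G3_luni _ _ _).1 d a e]
      split_ifs with e'
      · rw [e0 d (by omega), zero_mul, add_zero]
      · rw [add_zero]
    · rw [(G3_luni _ _ _).2, (G3_luni _ _ _).2]
      split_ifs with e'
      · rw [e0 d (by omega), zero_mul, add_zero]
      · rw [add_zero]
    · nth_rw 1 [ggm]
      nth_rw 2 [ggm]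
      rw [of_apply, of_apply, if_neg e.ne, if_neg e.ne, G3T_upm e]
      rcases lt_trichotomy d c with e' | rfl | e'
      · rw [if_pos (by omega), if_pos (Or.inl (by omega)), if_neg (c := _ ∧ _) (by omega), sub_zero]
      · rcases h with ⟨rfl, h⟩ | ⟨rfl, h, h'⟩
        · split_ifs <;> first | omega | simp [*]
        · rw [e2 h, h']
          split_ifs <;> first | omega | (simp; done) | (simp [show a = r' by omega, h'])
      · rw [if_neg (by omega), if_neg (c := _ ∨ _) (by omega), e0 d (by omega)]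
        simp
  refine ⟨e1, ?_⟩
  ext a d
  rw [gnm, gnm, of_apply, of_apply]
  split_ifs with h1 h2
  · rcases lt_or_ge a d with e | e
    · rw [G3T_upm e, e0 d (Or.inr h1), if_neg (c := _ ∧ _) (by omega)]
      simp
    · rw [G3_upm _ e, G3_upm _ e]
  · obtain rfl : d = c := by omega
    rw [← e1]
    change (ggm s r' T *ᵥ _) a = ((ggm s r' T * hS r r' S) *ᵥ _) a
    rw [← mulVec_mulVec]
    congr 2
    funext u
    rw [hS, add_mulVec, one_mulVec, single_mulVec, Pi.add_apply, Function.update_apply]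
    have hrc : r < d := by omega
    rcases h with ⟨rfl, h⟩ | ⟨rfl, h, h'⟩
    · rw [if_neg (lt_irrefl _), mul_zero]
      rcases lt_trichotomy u r with e | rfl | e
      · rw [if_pos (by omega), if_pos (show u.1 < r.1 from e), G3T_upm (e.trans hrc), if_neg e.ne, h]
        simp
      · simp [h]
      · rw [if_neg (by omega), if_neg (show ¬ u.1 < r.1 by omega)]
        simp
    · rw [if_pos (show r.1 < r'.1 + 1 by omega), G3T_upm hrc, e2 h, h', if_neg (c := _ ∧ _) (by omega)]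
      rcases lt_trichotomy u r' with e | rfl | e
      · rw [if_pos (show u.1 < r'.1 from e), if_pos (by omega), G3T_upm (e.trans h), e2 h, h', if_neg e.ne,
          if_neg (c := _ ∧ _) (by omega)]
        simp
      · rw [if_neg (lt_irrefl _), if_pos (by omega), G3T_upm h, h', if_neg (by omega)]
        simp
      · rw [if_neg (by omega), if_neg (by omega), if_neg e.ne']
        simp
  · rfl

lemma G3_upm' (T : UpN n → F) (a : UpN n) : upm Fin.val T a.1.1 a.1.2 = T a := dif_pos a.2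

lemma G3T_gen (hr : r'.1 = r.1 + 1) (hs : r'.1 < s) (hc : c.1 + 1 = s)
    (h : upm Fin.val T r c = 0 ∧ (r' < c → upm Fin.val T r' c ≠ 0) ∨
      r' < c ∧ upm Fin.val T r' c = 0 ∧ upm Fin.val T r c ≠ 0)
    {σ : Type} [SetLike σ F] [SubfieldClass σ F] (E : σ) (hE : ∀ a, G3T s r r' c S T a ∈ E) :
    S ∈ E ∧ ∀ a, T a ∈ E := by
  have hrc : r < c := by omega
  have e2 : ggm s r' T c r' = if r' = c then 1 else upm Fin.val T r' c := by
    rw [ggm, of_apply, if_pos (Or.inr ⟨hc, le_rfl⟩)]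
  have a1 : upm Fin.val T r c + ggm s r' T c r' * S ∈ E := by
    have := hE ⟨(r, c), hrc⟩
    rwa [← G3_upm' (G3T s r r' c S T), G3T_upm hrc, if_pos rfl, if_neg (by omega), sub_zero] at this
  have a2 : S * upm Fin.val T r c ∈ E := by
    rcases h with h | ⟨h, h', -⟩
    · rw [h.1, mul_zero]
      exact zero_mem E
    · have := hE ⟨(r', c), h⟩
      rwa [← G3_upm' (G3T s r r' c S T), G3T_upm h, h', if_neg (by omega), if_pos ⟨rfl, rfl⟩, add_zero, zero_sub,
        neg_mem_iff] at this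
  have a3 : ∀ a : UpN n, a.1.1 ≠ r → T a ∈ E := fun a e => by
    have := hE a
    rw [G3T, if_neg e, add_zero] at this
    split_ifs at this
    · simpa using add_mem this a2
    · simpa using this
  have a4 : ∀ d, ggm s r' T d r' ∈ E := fun d => by
    simp only [ggm, upm, of_apply]
    split_ifs
    exacts [one_mem E, a3 _ (show r' ≠ r by omega), zero_mem E, zero_mem E]
  have a5 : S ∈ E := by
    rcases h with ⟨h, h'⟩ | ⟨h, h', h''⟩
    · have : ggm s r' T c r' ≠ 0 := by
        rw [e2]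
        split_ifs
        exacts [one_ne_zero, h' (by omega)]
      rw [h, zero_add] at a1
      simpa [this] using mul_mem (inv_mem (a4 c)) a1
    · rw [e2, if_neg h.ne, h', zero_mul, add_zero] at a1
      simpa [h''] using mul_mem a2 (inv_mem a1)
  refine ⟨a5, fun a => ?_⟩
  by_cases e : a.1.1 = r
  · have := hE a
    rw [G3T, if_pos e, if_neg (by omega), sub_zero] at this
    simpa using sub_mem this (mul_mem (a4 a.1.2) a5)
  · exact a3 a e

lemma G3_ent (P : F → Prop) (h1 : ∀ a c, P (ggm s q T a c)) (h2 : ∀ a c, P (gnm s q T a c))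
    (h3 : ∀ a c, P (((ggm s q T)⁻¹ * gnm s q T) a c)) (a : UpN n) : P (T a) := by
  have := a.2
  rw [← G3_upm' T]
  by_cases e : a.1.2.1 + 1 < s ∨ a.1.2.1 + 1 = s ∧ q ≤ a.1.1.1
  · have := h1 a.1.2 a.1.1
    rwa [ggm, of_apply, if_neg (by omega), if_pos e] at this
  · by_cases e' : s ≤ a.1.2.1
    · have := h2 a.1.1 a.1.2
      rwa [gnm, of_apply, if_pos e'] at this
    · have := h3 a.1.1 a.1.2
      rwa [G3_col (by omega), if_pos (by omega)] at this

lemma G3_card (hs : s ≤ n) :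
    s * s + 2 * Nat.card {a : UpN n // s ≤ a.1.2.1} ≤ 2 * Nat.card (UpN n) + s := by
  have e := Nat.card_congr (Equiv.sumCompl fun a : UpN n => s ≤ a.1.2.1)
  let f : ({a : UpN n // ¬ s ≤ a.1.2.1} ⊕ {a : UpN n // ¬ s ≤ a.1.2.1}) ⊕ Fin s → Fin s × Fin s :=
    Sum.elim (Sum.elim
      (fun a => (⟨a.1.1.1, by have := a.1.2; have := a.2; omega⟩, ⟨a.1.1.2, not_le.1 a.2⟩))
      fun a => (⟨a.1.1.2, not_le.1 a.2⟩, ⟨a.1.1.1, by have := a.1.2; have := a.2; omega⟩))
      fun a => (a, a)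
  have e' := Nat.card_le_card_of_surjective f fun ⟨a, c⟩ => by
    rcases lt_trichotomy a c with h | rfl | h
    exacts [⟨.inl (.inl ⟨⟨(a.castLE hs, c.castLE hs), h⟩, not_le.2 c.2⟩), rfl⟩, ⟨.inr a, rfl⟩,
      ⟨.inl (.inr ⟨⟨(c.castLE hs, a.castLE hs), h⟩, not_le.2 a.2⟩), rfl⟩]
  simp only [Nat.card_sum, Nat.card_prod, Nat.card_fin] at e e'
  omega

end Alg

lemma G3D.rel {K : Type} [Field K] {M L : Fld K} {R : Rel M L} {n s q q' : ℕ}
    {N k : Matrix (Fin n) (Fin n) M} {N' k' : Matrix (Fin n) (Fin n) L} (h : G3D s q q' N k)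
    (hN : R.m' N N') (hk : R.m' k k') (h0 : k'.det ≠ 0) : G3D s q q' N' k' :=
  ⟨fun a c e e' => Rel.eq_zero (hk a c) (h.h1 a c e e'),
    fun a c e e' => Rel.eq_zero (hk a c) (h.h2 a c e e'), fun a c e => Rel.eq_zero (hN a c) (h.h3 a c e),
    fun a c e e' => Rel.eq_zero (Rel.mmul (Rel.minv hk h0) hN a c) (h.h4 a c e e')⟩

end Pool.Agent.Lib.MP_557161_ag.HG
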