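import Pool.Agent.Lib.MP_557161_ag.HG.St3M

/-!
Iwasawa decomposition, integrality of the LU decomposition, column echelon form.
-/

namespace Pool.Agent.Lib.MP_557161_ag.HG

open Pool.Agent.Lib.MP_557161_ag.DL Matrix

section Ech

variable {F : Type} [Field F] {n : ℕ}

lemma bor_iff {b : Matrix (Fin n) (Fin n) F} :
    Bor b ↔ (∀ i j, j < i → b i j = 0) ∧ ∀ i, b i i ≠ 0 := by
  have key : (∀ i j, j < i → b i j = 0) → b.det = ∏ i, b i i := fun h =>
    det_of_isUpperTriangular fun i j e => h i j e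
  constructor
  · rintro ⟨h, h'⟩
    have h1 : ∀ i j, j < i → b i j = 0 := fun i j e => h e
    rw [key h1, Finset.prod_ne_zero_iff] at h'
    exact ⟨h1, fun i => h' i (Finset.mem_univ _)⟩
  · rintro ⟨h, h'⟩
    exact ⟨fun i j e => h i j e, by rw [key h, Finset.prod_ne_zero_iff]; exact fun i _ => h' i⟩

lemma sum_Iio (f : Fin n → F) (c : Fin n) (h : ∀ l, c < l → f l = 0) :
    ∑ l, f l = f c + ∑ l ∈ Finset.Iio c, f l := by
  rw [Finset.add_sum_Iio_eq_sum_Iic]
  exact (Finset.sum_subset (Finset.subset_univ _) fun l _ hl => h l (by simpa using hl)).symm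

/-- Column reduction with a rule `Q` for the choice of the pivots. -/
lemma exists_ech (k : Matrix (Fin n) (Fin n) F) (hk : k.det ≠ 0) (Q : (Fin n → F) → Fin n → Prop)
    (hQ : ∀ x : Fin n → F, x ≠ 0 → ∃ a, x a ≠ 0 ∧ Q ((x a)⁻¹ • x) a) :
    ∃ (b : Matrix (Fin n) (Fin n) F) (π : Equiv.Perm (Fin n)), Bor b ∧ ∀ c, (k * b) (π c) c = 1 ∧
      Q (fun a => (k * b) a c) (π c) ∧ ∀ c', c' < c → (k * b) (π c') c = 0 := by
  classical
  have main : ∀ m ≤ n, ∃ (U : Fin n → Fin n → F) (π : Fin n → Fin n), ∀ c : Fin n, c.1 < m →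
      U c c ≠ 0 ∧ (∀ r, c < r → U c r = 0) ∧ (k *ᵥ U c) (π c) = 1 ∧ Q (k *ᵥ U c) (π c) ∧
        ∀ c', c' < c → (k *ᵥ U c) (π c') = 0 := by
    intro m
    induction m with
    | zero => exact fun _ => ⟨0, id, fun c hc => absurd hc (Nat.not_lt_zero _)⟩
    | succ m ih =>
      intro hm
      obtain ⟨U, π, h⟩ := ih (by omega)
      set μ : Fin n := ⟨m, hm⟩ with hμ
      have inner : ∀ j ≤ m, ∃ u : Fin n → F, u μ = 1 ∧ (∀ r, μ < r → u r = 0) ∧
          ∀ c' : Fin n, c'.1 < j → (k *ᵥ u) (π c') = 0 := by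
        intro j
        induction j with
        | zero =>
          exact fun _ => ⟨Pi.single μ 1, by simp, fun r hr => Pi.single_eq_of_ne hr.ne' _,
            fun c hc => absurd hc (Nat.not_lt_zero _)⟩
        | succ j ih' =>
          intro hj
          obtain ⟨u, h1, h2, h3⟩ := ih' (by omega)
          set ν : Fin n := ⟨j, by omega⟩ with hν
          have hνμ : ν < μ := by rw [Fin.lt_def]; exact hj
          obtain ⟨-, g2, g3, -, g5⟩ := h ν hj
          refine ⟨u - (k *ᵥ u) (π ν) • U ν, by simp [h1, g2 μ hνμ],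
            fun r hr => by simp [h2 r hr, g2 r (hνμ.trans hr)], fun c' hc' => ?_⟩
          rw [mulVec_sub, mulVec_smul, Pi.sub_apply, Pi.smul_apply, smul_eq_mul]
          rcases (Nat.lt_succ_iff.1 hc').lt_or_eq with e | e
          · rw [h3 c' e, g5 c' e, mul_zero, sub_zero]
          · rw [show c' = ν from Fin.ext e, g3, mul_one, sub_self]
      obtain ⟨u, h1, h2, h3⟩ := inner m le_rfl
      have hx : k *ᵥ u ≠ 0 := fun e => by
        have := eq_zero_of_mulVec_eq_zero hk e
        simp [this] at h1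
      obtain ⟨a, ha, hq⟩ := hQ _ hx
      refine ⟨Function.update U μ (((k *ᵥ u) a)⁻¹ • u), Function.update π μ a, fun c hc => ?_⟩
      rcases (Nat.lt_succ_iff.1 hc).lt_or_eq with e | e
      · have hne : ∀ c' : Fin n, c' ≤ c → c' ≠ μ := fun c' l e' => by
          have : c'.1 ≤ c.1 := l
          rw [e'] at this
          exact absurd this (by simpa [hμ] using e)
        obtain ⟨g1, g2, g3, g4, g5⟩ := h c e
        simp only [Function.update_of_ne (hne c le_rfl)]
        exact ⟨g1, g2, g3, g4, fun c' l => by rw [Function.update_of_ne (hne c' l.le)]; exact g5 c' l⟩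
      · obtain rfl : c = μ := Fin.ext e
        simp only [Function.update_self, mulVec_smul]
        refine ⟨by simpa [h1] using ha, fun r hr => by simp [h2 r hr], by simp [ha], hq,
          fun c' l => ?_⟩
        rw [Function.update_of_ne l.ne, Pi.smul_apply, h3 c' l, smul_zero]
  obtain ⟨U, π, h⟩ := main n le_rfl
  have hinj : Function.Injective π := fun c c' e => by
    by_contra hne
    rcases lt_or_gt_of_ne hne with l | l
    · have := (h c' c'.2).2.2.2.2 c l
      rw [e, (h c' c'.2).2.2.1] at this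
      exact one_ne_zero this
    · have := (h c c.2).2.2.2.2 c' l
      rw [← e, (h c c.2).2.2.1] at this
      exact one_ne_zero this
  exact ⟨Matrix.of fun r c => U c r, Equiv.ofBijective π (Finite.injective_iff_bijective.1 hinj),
    bor_iff.2 ⟨fun i j l => (h j j.2).2.1 i l, fun i => (h i i.2).1⟩, fun c => (h c c.2).2.2⟩

lemma Bor.inv {b : Matrix (Fin n) (Fin n) F} (h : Bor b) : Bor b⁻¹ := by
  have := invertibleOfIsUnitDet b (Ne.isUnit h.2)
  exact ⟨blockTriangular_inv_of_blockTriangular h.1, by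
    rw [det_nonsing_inv, Ring.inverse_eq_inv]; exact inv_ne_zero h.2⟩

lemma card_pairs (s : ℕ) : 2 * ((Finset.range s).sigma fun y => Finset.range y).card + s = s * s := by
  rw [Finset.card_sigma]
  simp only [Finset.card_range]
  rw [mul_comm, Finset.sum_range_id_mul_two]
  cases s with
  | zero => rfl
  | succ s => simp [Nat.mul_succ]

lemma exists_nf {s i : ℕ} (k : Matrix (Fin n) (Fin n) F) (hk : k.det ≠ 0) (his : i < s)
    (hsn : s ≤ n) (h1 : ∀ a c : Fin n, c < a → s ≤ a.1 → k a c = 0)
    (h2 : ∀ a c : Fin n, a.1 + 1 = s → c.1 < i → k a c = 0) :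
    ∃ (k₀ b : Matrix (Fin n) (Fin n) F) (z : ℕ) (v : Fin z → F), k = k₀ * b ∧ Bor b ∧
      (∀ a c, k₀ a c = 0 ∨ k₀ a c = 1 ∨ ∃ l, k₀ a c = v l) ∧ 2 * z + 2 * i + s ≤ s * s ∧
      (LUni k₀ ∨ 2 * (z + 1) + 2 * i + s ≤ s * s) := by
  classical
  obtain ⟨b, π, hb, h⟩ := exists_ech k hk (fun x a => ∀ r, r < a → x r = 0) fun x hx => by
    obtain ⟨a, ha, hm⟩ := (Finset.univ.filter fun a => x a ≠ 0).exists_min_image id (by
      obtain ⟨a, ha⟩ := Function.ne_iff.1 hx
      exact ⟨a, by simpa using ha⟩)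
    refine ⟨a, by simpa using ha, fun r hr => ?_⟩
    have : x r = 0 := by
      by_contra e
      exact absurd (hm r (by simpa using e)) (not_le.2 hr)
    simp [this]
  set A := k * b with hA
  have hz : ∀ a c : Fin n, (∀ c', c' ≤ c → k a c' = 0) → A a c = 0 := fun a c e => by
    rw [hA, mul_apply]
    refine Finset.sum_eq_zero fun l _ => ?_
    rcases le_or_gt l c with o | o
    · rw [e l o, zero_mul]
    · rw [(bor_iff.1 hb).1 l c o, mul_zero]
  have z1 : ∀ a c : Fin n, c < a → s ≤ a.1 → A a c = 0 := fun a c l l' =>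
    hz a c fun c' o => h1 a c' (o.trans_lt l) l'
  have z2 : ∀ a c : Fin n, a.1 + 1 = s → c.1 < i → A a c = 0 := fun a c l l' =>
    hz a c fun c' o => h2 a c' l (lt_of_le_of_lt o l')
  -- the permutation fixes the rows `≥ s`
  have fx : ∀ t : ℕ, ∀ a : Fin n, s ≤ a.1 → n ≤ a.1 + t → π a = a := by
    intro t
    induction t with
    | zero => exact fun a _ o => absurd a.2 (by omega)
    | succ t ih =>
      intro a o o'
      obtain ⟨c, rfl⟩ := π.surjective a
      rcases lt_trichotomy c (π c) with l | l | l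
      · have := z1 _ c l o
        rw [(h c).1] at this
        exact absurd this one_ne_zero
      · rw [← l]; exact l.symm
      · have l' : (π c).1 < c.1 := l
        rw [ih c (by omega) (by omega)] at l
        exact absurd l (lt_irrefl _)
  have lt1 : ∀ a : Fin n, (π a).1 < s ↔ a.1 < s := fun a => by
    constructor
    · intro o
      by_contra o'
      rw [fx n a (by omega) (by omega)] at o
      exact o' o
    · intro o
      by_contra o'
      have := π.injective (fx n (π a) (by omega) (by omega))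
      rw [this] at o'
      exact o' o
  let Z : Finset (Fin n × Fin n) := Finset.univ.filter fun x => A (π x.1) x.2 ≠ 0 ∧ x.1 ≠ x.2
  let P : Finset (Σ _ : ℕ, ℕ) := (Finset.range s).sigma fun y => Finset.range y
  let φ : Fin n × Fin n → Σ _ : ℕ, ℕ := fun x => ⟨x.1.1, x.2.1⟩
  have hφ : Function.Injective φ := fun x y e => by
    simp only [φ, Sigma.mk.injEq, heq_eq_eq] at e
    exact Prod.ext (Fin.ext e.1) (Fin.ext e.2)
  have hZ : ∀ x ∈ Z, x.2 < x.1 ∧ π x.2 < π x.1 ∧ x.1.1 < s := fun x hx => by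
    obtain ⟨e1, e2⟩ := (Finset.mem_filter.1 hx).2
    have o1 : x.2 < x.1 := lt_of_le_of_ne (not_lt.1 fun o => e1 ((h _).2.2 _ o)) e2.symm
    refine ⟨o1, lt_of_le_of_ne (not_lt.1 fun o => e1 ((h _).2.1 _ o))
      fun o => e2 (π.injective o).symm, ?_⟩
    by_contra o
    rw [fx n x.1 (by omega) (by omega)] at e1
    exact e1 (z1 _ _ o1 (by omega))
  obtain ⟨w, hw⟩ := π.surjective ⟨s - 1, by omega⟩
  have hw' : (π w).1 + 1 = s := by rw [hw]; simp only; omega
  have hwi : i ≤ w.1 := not_lt.1 fun o => by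
    have := z2 _ _ hw' o
    rw [(h w).1] at this
    exact one_ne_zero this
  have hws : w.1 < s := (lt1 w).1 (by omega)
  let Y : Finset (Σ _ : ℕ, ℕ) := (Finset.range i).image fun c => ⟨w.1, c⟩
  have hY : Y.card = i := by
    rw [Finset.card_image_of_injective _ fun c c' e => by simpa using e, Finset.card_range]
  have hd : Disjoint (Z.image φ) Y := by
    rw [Finset.disjoint_left]
    intro y hy hy'
    obtain ⟨x, hx, rfl⟩ := Finset.mem_image.1 hy
    obtain ⟨c, hc, e⟩ := Finset.mem_image.1 hy'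
    simp only [φ, Sigma.mk.injEq, heq_eq_eq] at e
    refine (Finset.mem_filter.1 hx).2.1 (z2 _ _ ?_ ?_)
    · rw [← Fin.ext e.1, hw']
    · rw [← e.2]; exact Finset.mem_range.1 hc
  have hsub : Z.image φ ∪ Y ⊆ P := by
    intro y hy
    rcases Finset.mem_union.1 hy with hy | hy
    · obtain ⟨x, hx, rfl⟩ := Finset.mem_image.1 hy
      exact Finset.mem_sigma.2 ⟨Finset.mem_range.2 (hZ x hx).2.2, Finset.mem_range.2 (hZ x hx).1⟩
    · obtain ⟨c, hc, rfl⟩ := Finset.mem_image.1 hy
      exact Finset.mem_sigma.2 ⟨Finset.mem_range.2 hws,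
        Finset.mem_range.2 ((Finset.mem_range.1 hc).trans_le hwi)⟩
  have hc : (Z.image φ ∪ Y).card = Z.card + i := by
    rw [Finset.card_union_of_disjoint hd, Finset.card_image_of_injective _ hφ, hY]
  have hP := card_pairs s
  have hle := Finset.card_le_card hsub
  refine ⟨A, b⁻¹, Z.card, fun l => A (π (Z.equivFin.symm l).1.1) (Z.equivFin.symm l).1.2,
    by rw [hA, mul_nonsing_inv_cancel_right _ _ (Ne.isUnit hb.2)], hb.inv, fun a c => ?_,
    by change 2 * P.card + s = s * s at hP; omega, ?_⟩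
  · obtain ⟨c', rfl⟩ := π.surjective a
    by_cases e : A (π c') c = 0
    · exact .inl e
    by_cases e' : c' = c
    · exact .inr (.inl (e' ▸ (h c').1))
    · exact .inr (.inr ⟨Z.equivFin ⟨(c', c), Finset.mem_filter.2 ⟨Finset.mem_univ _, e, e'⟩⟩,
        by simp⟩)
  · by_cases hm : StrictMono π
    · have : ∀ c, π c = c := fun c =>
        Fin.ext (Fin.coe_orderIso_apply (StrictMono.orderIsoOfSurjective π hm π.surjective) c)
      exact .inl ⟨fun a c l => by simpa [this] using (h c).2.1 a (by rwa [this]),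
        fun a => by simpa [this] using (h a).1⟩
    · right
      simp only [StrictMono, not_forall, not_lt] at hm
      obtain ⟨c, c', l, l'⟩ := hm
      have l2 : π c' < π c := lt_of_le_of_ne l' fun e => l.ne' (π.injective e)
      have l3 : c.1 < c'.1 := l
      have l4 : (π c').1 < (π c).1 := l2
      have hs' : c'.1 < s := by
        by_contra o
        have e1 := fx n c' (by omega) (by omega)
        have e2 : π (π c) = π c := fx n (π c) (by rw [e1] at l4; omega) (by omega)
        rw [π.injective e2, e1] at l4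
        omega
      have : (Z.image φ ∪ Y).card < P.card := by
        refine Finset.card_lt_card ⟨hsub, fun e => ?_⟩
        have hy : φ (c', c) ∈ P :=
          Finset.mem_sigma.2 ⟨Finset.mem_range.2 hs', Finset.mem_range.2 l3⟩
        rcases Finset.mem_union.1 (e hy) with hy | hy
        · obtain ⟨x, hx, e'⟩ := Finset.mem_image.1 hy
          rw [hφ e'] at hx
          exact absurd (hZ _ hx).2.1 (not_lt.2 l')
        · obtain ⟨c'', -, e'⟩ := Finset.mem_image.1 hy
          simp only [φ, Sigma.mk.injEq, heq_eq_eq] at e'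
          have := (lt1 c).2 (l3.trans hs')
          rw [← Fin.ext e'.1] at l4
          omega
      change 2 * P.card + s = s * s at hP
      omega

end Ech

variable {K : Type} [Field K]

lemma rel_lu {M L : Fld K} (R : Rel M L) {n : ℕ} {g b : Matrix (Fin n) (Fin n) M}
    {k₀ b₀ : Matrix (Fin n) (Fin n) L} (hg : LUni g) (hb : Bor b) (hk : LUni k₀) (hb₀ : Bor b₀)
    (h : R.m' (g * b) (k₀ * b₀)) : R.m' g k₀ ∧ R.m' b b₀ := by
  rw [bor_iff] at hb hb₀
  have key : ∀ c : Fin n, (∀ r, R.r (g r c) (k₀ r c)) ∧ ∀ j, R.r (b c j) (b₀ c j) := by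
    intro c
    induction c using WellFoundedLT.induction with
    | ind c ih =>
      have hs : ∀ r j, R.r (∑ l ∈ Finset.Iio c, g r l * b l j)
          (∑ l ∈ Finset.Iio c, k₀ r l * b₀ l j) := fun r j =>
        Rel.sum _ fun l hl => R.mul ((ih l (Finset.mem_Iio.1 hl)).1 r)
          ((ih l (Finset.mem_Iio.1 hl)).2 j)
      have hr : ∀ j, R.r (b c j) (b₀ c j) := fun j => by
        have := Rel.sub (h c j) (hs c j)
        rwa [mul_apply, mul_apply, sum_Iio _ c fun l o => by rw [hg.1 c l o, zero_mul],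
          sum_Iio _ c fun l o => by rw [hk.1 c l o, zero_mul], hg.2, hk.2, one_mul, one_mul,
          add_sub_cancel_right, add_sub_cancel_right] at this
      refine ⟨fun r => ?_, hr⟩
      have := Rel.div (Rel.sub (h r c) (hs r c)) (hr c) (hb₀.2 c)
      rwa [mul_apply, mul_apply, sum_Iio _ c fun l o => by rw [hb.1 l c o, mul_zero],
        sum_Iio _ c fun l o => by rw [hb₀.1 l c o, mul_zero], add_sub_cancel_right,
        add_sub_cancel_right, mul_div_cancel_right₀ _ (hb.2 c),
        mul_div_cancel_right₀ _ (hb₀.2 c)] at this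
  exact ⟨fun r c => (key c).1 r, fun c j => (key c).2 j⟩

theorem IW_thm : IW K where
  iwa {M} O n g hg := by
    obtain ⟨b, π, hb, h⟩ := exists_ech g hg (fun x _ => IntV O x) fun x hx => exists_scale O hx
    refine ⟨b, (g * b).map O.rd, hb, fun a c => ⟨(h c).2.1 a, rfl⟩, fun e => ?_⟩
    have := det_permute π ((g * b).map O.rd)
    rw [e, mul_zero, det_of_isLowerTriangular _ fun a c l => by
      simp [(h c).2.2 a l]] at this
    simp [fun c => (h c).1] at this
  lu O _ _ _ _ _ hg hb hk hb₀ h := rel_lu _ hg hb hk hb₀ h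
  nf k hk his hsn h1 h2 := exists_nf k hk his hsn h1 h2

end Pool.Agent.Lib.MP_557161_ag.HG
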