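import Pool.Agent.Lib.MP_557161_ag.HG.St1

/-!
The double planes, and the statement that links the two halves of the proof.
-/

namespace Pool.Agent.Lib.MP_557161_ag.HG

open Pool.Agent.Lib.MP_557161_ag.DL MvPolynomial

variable {K : Type} [Field K] {c d : Cd}

/-- The branch polynomial of degree `u + 1`. -/
noncomputable def brF {R : Type} [CommRing R] (u : ℕ) (w : Fin 3 → ℕ) (lam : R) :
    MvPolynomial (Fin 3) R :=
  ∑ i, X i ^ u * X (i + 1) + C lam * ∏ i, X i ^ w i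

/-- The data of a double plane in a hypergeometric family. -/
structure GD (K : Type) [Field K] where
  e : ℕ
  u : ℕ
  n : ℕ
  a : Fin 3 → ℕ
  w : Fin 3 → ℕ
  lam : K
  hu : u + 1 = 2 * e
  hn : n + u = u * u + 1
  hw : ∀ i, n * w i = u * a i + a (i - 1)
  ev : ∀ i, Even (w i)
  sw : ∑ i, w i = 2 * e
  cop : Nat.gcd (a 0) (Nat.gcd (a 1) (a 2)) = 1
  ch : ((2 * e * n * ∏ i, a i : ℕ) : K) ≠ 0
  l0 : lam ≠ 0
  disc : lam ^ n * ∏ i, (a i : K) ^ a i ≠ (-(n : K)) ^ n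

/-- The shape of points `(x, z)`. -/
abbrev xz : Cd := (Cd.vec (Fin 3)).prod .one

/-- The involution `z ↦ -z`. -/
def ngz (L : Fld K) (x : xz.X L) : xz.X L := (x.1, -x.2)

/-- The part of the double plane over the torus. -/
noncomputable def GD.UU (G : GD K) : ASp K xz :=
  ((ASp.univ K xz).opn (fun _ x => ∀ i, x.1 i ≠ 0)
    fun _ _ _ _ _ _ _ e h i => Rel.ne_zero (e.1 i) (h i)).cl
    (fun _ x => x.1 0 = 1 ∧ x.2 ^ 2 = aeval x.1 (brF G.u G.w G.lam))
    fun _ _ R _ _ _ _ e h => ⟨Rel.eq (e.1 0) R.one h.1, Rel.eq (Rel.pow e.2 2) (Rel.aeval e.1 _) h.2⟩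

/-- The functional vanishes on exterior products. -/
def KillsA {j : ℕ} {S : ASp K c} {W : ASp K d} (Φ : AF j (S.prod W)) : Prop :=
  ∀ (L : Fld K) (x : c.X L) (w : d.X L) (m₁ m₂ : ℕ), c.Dm L x m₁ → d.Dm L w m₂ → m₁ + m₂ ≤ j →
    Φ.a L (x, w) = 0

/-- The functional changes sign under the involution `τ` of every factor. -/
def Anti {j : ℕ} {U : ASp K c} {κ : Type} [Finite κ] [DecidableEq κ] {W : ASp K d}
    (τ : ∀ L : Fld K, c.X L → c.X L) (Φ : AF j ((U.pi κ).prod W)) : Prop :=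
  ∀ (i : κ) (L : Fld K) (x : κ → c.X L) (w : d.X L),
    Φ.a L (Function.update x i (τ L (x i)), w) = -Φ.a L (x, w)

/-- Alternating functionals vanish. -/
def AltV (U : ASp K c) (τ : ∀ L : Fld K, c.X L → c.X L) (κ : Type) [Fintype κ] [DecidableEq κ] :
    Prop :=
  ∀ {d : Cd} (W : ASp K d) (j : ℕ) (Φ : AF j ((U.pi κ).prod W)), KillsA Φ → Anti τ Φ →
    (∀ (σ : Equiv.Perm κ) (L : Fld K) (x : κ → c.X L) (w : d.X L),
      Φ.a L (fun i => x (σ i), w) = ((Equiv.Perm.sign σ : ℤ) : ℂ) * Φ.a L (x, w)) →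
    ∀ (L : Fld K) (x : κ → c.X L) (w : d.X L), Φ.a L (x, w) = 0

/-- Alternating sums vanish. -/
def AltS (U : ASp K c) (τ : ∀ L : Fld K, c.X L → c.X L) (κ : Type) [Fintype κ] [DecidableEq κ] :
    Prop :=
  ∀ {d : Cd} (W : ASp K d) (j : ℕ) (Φ : AF j ((U.pi κ).prod W)), KillsA Φ → Anti τ Φ →
    ∀ (L : Fld K) (x : κ → c.X L) (w : d.X L),
      ∑ σ : Equiv.Perm κ, ((Equiv.Perm.sign σ : ℤ) : ℂ) * Φ.a L (fun i => x (σ i), w) = 0

/-- The top exterior power of the motive of the double plane is a sum of products. -/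
class ALT (K : Type) [Field K] : Prop where
  alt : ∀ (G : GD K) (κ : Type) [Fintype κ] [DecidableEq κ], Nat.card κ = G.n → AltS G.UU ngz κ

end Pool.Agent.Lib.MP_557161_ag.HG
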