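import Pool.Agent.Lib.MP_557161_ag.HG.St3M
import Pool.Agent.Lib.MP_557161_ag.HG.FA2
import Pool.Agent.Lib.MP_557161_ag.HG.FC6
import Pool.Agent.Lib.MP_557161_ag.HG.MS

/-!
Tools for the relation of a simple reflection: places of purely transcendental extensions.
-/

namespace Pool.Agent.Lib.MP_557161_ag.HG

open Pool.Agent.Lib.MP_557161_ag.DL Matrix Pl Pl.ValB

variable {K : Type} [Field K] {L M N : Fld K} {κ : Type}

/-- The residues of the variables generate a small field. -/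
def R2Drop (J : ℕ) (α : L →ₐ[K] M) (O : Pl M) (T : κ → M) : Prop :=
  ∃ l, l < J ∧ (O.res.sub (gen (over_comap α O).resHom fun a => O.rd (T a))).tr ≤ l

lemma r2_card : Nat.card κ = Nat.card {a : Option κ // a ≠ none} :=
  Nat.card_eq_of_bijective (fun a => ⟨some a, nofun⟩)
    ⟨fun _ _ h => Option.some.inj (congrArg Subtype.val h), by
      rintro ⟨_ | a, h⟩
      exacts [absurd rfl h, ⟨a, rfl⟩]⟩

lemma r2_un_ord {O : Pl M} (hO : O.IsDVR) {u y : M} (hu : Un O u) (hy : y ≠ 0) :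
    O.ord (u * y) = O.ord y := by
  rw [ord_mul hO hu.1 hy, ord_eq_zero_of_mem hu.1 hu.2.1 hu.2.2, zero_add]

lemma r2_un {O : Pl M} {a : M} {a' : O.res} (h : (Rel.ofPl O).r a a') (e : a' ≠ 0) : Un O a :=
  un_of_rd h.1 (h.2 ▸ e)

lemma r2_rv {c : Cd} (a : ∀ L : Fld K, c.X L → ℂ) {O : Pl M} {x : c.X M} {u : c.X O.res}
    (h : c.lift (Rel.ofPl O).r x u) : rv a O x = a O.res u := by
  obtain ⟨h1, h2⟩ := (Cd.lift_pl O).1 h
  rw [rv, if_pos h1, h2]

lemma r2_all {c : Cd} (γ : L →ₐ[K] N) (t : κ → N) (x : c.X L) :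
    c.lift (Rel.ofSub (gen γ t)).r (c.map γ x) (c.map γ x) :=
  (Cd.lift_sub _).2 ⟨(c.all_iff _ _).2 fun i => by rw [c.co_map]; exact FA2_base _ _ _, rfl⟩

lemma r2_triv {c : Cd} (S : ASp K c) {α : L →ₐ[K] M} {O : Pl M} (h : Triv α O) {x : c.X L}
    (hx : S.mem L x) : ∃ x₀, S.mem (comap α O).res x₀ ∧ c.lift (Rel.ofPl (comap α O)).r x x₀ := by
  have h' : Triv (AlgHom.id K L) (comap α O) := h
  have e := Cd.lift_triv h' x
  rw [show c.map (AlgHom.id K L) x = x from c.map_id x] at e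
  exact ⟨_, (S.map_iff h'.hom x).2 hx, e⟩

lemma r2_tele (B : ℕ → ℂ) (n : ℕ) : ∑ k ∈ Finset.range n, (-1) ^ k * (B (k + 1) + B (k + 2)) =
    B 1 - (-1) ^ n * B (n + 1) := by
  induction n with
  | zero => simp
  | succ n ih => rw [Finset.sum_range_succ, ih]; ring

lemma r2_tele' {m : ℕ} (hm : Even m) (B : Fin (m + 1) → ℂ) (F : ℕ → ℂ) (j : Fin (m + 1))
    (hj : j.1 = 1) (h : ∀ k : Fin m, k.castSucc ≠ 0 → F k = B k.castSucc + B k.succ) :
    B j + B (Fin.last m) = ∑ k ∈ Finset.range (m - 1), (-1) ^ k * F (k + 1) := by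
  obtain ⟨m', hm'⟩ := hm
  have h1 := j.2
  have e := r2_tele (fun j => if h : j < m + 1 then B ⟨j, h⟩ else 0) (m - 1)
  rw [dif_pos (by omega), dif_pos (by omega), Odd.neg_one_pow ⟨m' - 1, by omega⟩, neg_one_mul,
    sub_neg_eq_add] at e
  refine Eq.trans ?_ (e.symm.trans (Finset.sum_congr rfl fun k hk => ?_))
  · congr 2
    exacts [Fin.ext hj, Fin.ext (by simp; omega)]
  · have := Finset.mem_range.1 hk
    rw [dif_pos (by omega), dif_pos (by omega),
      h ⟨k + 1, by omega⟩ fun e => by simpa using congrArg Fin.val e]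
    rfl

lemma r2_smul {β : Type} {g : β → ℂ} (h : HasS g 0) (a : ℂ) : HasS (fun b => a * g b) 0 :=
  ⟨h.1.subset fun _ hb => right_ne_zero_of_mul hb, by rw [← mul_finsum, h.2, mul_zero]⟩

lemma r2_single {β : Type} [DecidableEq β] (b : β) (a : ℂ) :
    HasS (fun b' => if b' = b then a else 0) a :=
  ⟨(Set.finite_singleton b).subset fun _ hb => by_contra fun e => hb (if_neg e),
    (finsum_eq_single _ b fun _ e => if_neg e).trans (if_pos rfl)⟩

lemma r2_add {β : Type} {g g' : β → ℂ} {a a' : ℂ} (h : HasS g a) (h' : HasS g' a') :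
    HasS (fun b => g b + g' b) (a + a') :=
  ⟨(h.1.union h'.1).subset (Function.support_add g g'), by
    rw [finsum_add_distrib h.1 h'.1, h.2, h'.2]⟩

variable [FA1 K] [Finite κ] {j : ℕ}

lemma r2_tr (γ : L →ₐ[K] N) {κ' : Type} (t : κ' → N) (t' : κ → N) (h : ∀ a, t a ∈ gen γ t') :
    (N.sub (gen γ t)).tr ≤ L.tr + Nat.card κ :=
  (tr_le (L := N.sub _) (L' := N.sub _)
    (IntermediateField.inclusion (FA2_le (FA2_base _ _) h))).trans (FA1.tr_gen γ t')

lemma r2_re {α : L →ₐ[K] M} {T : Option κ → M}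
    (h : Free j α fun a : {a : Option κ // a ≠ none} => T a) : Free j α fun a => T (some a) :=
  FA1.of_gen h r2_card (by
    rintro ⟨_ | a, e⟩
    exacts [absurd rfl e, FA2_var α (fun a => T (some a)) a])

lemma r2_split {α : L →ₐ[K] M} {T : Option κ → M} (h : Free j α T) :
    ∃ (M₁ : Fld K) (α₁ : L →ₐ[K] M₁) (β : M₁ →ₐ[K] M) (S : M₁), β.comp α₁ = α ∧ β S = T none ∧
      Free j α₁ (fun _ : Unit => S) ∧ Free (j + 1) β fun a => T (some a) := by
  obtain ⟨M₁, α₁, β, T₁, e1, e2, f1, f2⟩ := FA1.split h (· = none)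
  rw [Nat.card_unique] at f2
  refine ⟨M₁, α₁, β, T₁ ⟨none, rfl⟩, e1, e2 _, FA1.of_gen f1 (by simp) ?_, r2_re f2⟩
  rintro ⟨_, rfl⟩
  exact FA2_var α₁ (fun _ : Unit => T₁ ⟨none, rfl⟩) ()

lemma r2_var_ne {α : L →ₐ[K] M} {T : κ → M} (h : Free j α T) (a : κ) : T a ≠ 0 := fun e =>
  (FA1.trans h a).ne 0 (e.trans (map_zero α).symm)

lemma r2_quad_ne {α : L →ₐ[K] M} {T : κ → M} (h : Free j α T) (δ : L) (a b : κ) :
    α δ - T a * T b ≠ 0 := by
  have := FA1.ne h (MvPolynomial.C δ - MvPolynomial.X a * MvPolynomial.X b) fun e => by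
    have h0 := congrArg (MvPolynomial.eval fun _ => 0) e
    have h1 := congrArg (MvPolynomial.eval fun _ => 1) e
    simp at h0 h1
    simp [h0] at h1
  simpa using this

variable [FA2 K]

lemma r2_zero {J : ℕ} {α : L →ₐ[K] M} {T : Option κ → M} (h : Free j α T)
    (hJ : J = j + Nat.card κ) : ∃ (O : Dv M J) (h : Triv α O.1), (∀ a, T a ∈ O.1.O) ∧
      O.1.ord (T none) = 1 ∧ O.1.rd (T none) = 0 ∧ Free j h.hom (fun a => O.1.rd (T (some a))) ∧
      ∀ O' : Dv M J, O' ≠ O → (∀ a, T a ∈ O'.1.O) → O'.1.rd (T none) = 0 → R2Drop J α O'.1 T := by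
  obtain ⟨O, h1, h2, h3, h4, h5, h6⟩ := FA2.zero (i := J) h (by rw [Finite.card_option]; omega) none
  exact ⟨O, h1, h2, h3, h4, r2_re (T := fun a => O.1.rd (T a)) h5, h6⟩

omit [FA1 K] in
lemma r2_gauss {J : ℕ} {α : L →ₐ[K] M} {T : κ → M} (h : Free (j + 1) α T)
    (hJ : j + Nat.card κ = J) (O : Dv L j) : ∃ (O' : Dv M J) (h : Over α O.1 O'.1),
      (∀ a, T a ∈ O'.1.O) ∧ (∀ f, O'.1.ord (α f) = O.1.ord f) ∧
      Free j h.resHom (fun a => O'.1.rd (T a)) ∧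
      ∀ O'' : Dv M J, comap α O''.1 = O.1 → (∀ a, T a ∈ O''.1.O) → ¬ R2Drop J α O''.1 T →
        O'' = O' := by
  subst hJ
  obtain ⟨O', h1, h2, h3, h4, h5⟩ := FA2.gauss h O
  refine ⟨O', h1, h2, h3, h4, fun O'' e hT hd => by_contra fun hne => hd ?_⟩
  obtain ⟨O, hO⟩ := O
  obtain rfl : comap α O''.1 = O := e
  exact h5 O'' (over_comap α _) hne hT

end Pool.Agent.Lib.MP_557161_ag.HG
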