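import Pool.Agent.Lib.MP_557161_ag.HG.R21

/-!
The terms of the relation of a simple reflection at a single place.
-/

namespace Pool.Agent.Lib.MP_557161_ag.HG

open Pool.Agent.Lib.MP_557161_ag.DL Matrix Pl Pl.ValB

variable {K : Type} [Field K] {p : ℕ} {cc d : Cd} {n m : ℕ} (G : GC K p cc d n m)
  {L M N : Fld K} {r r' : Fin n}

/-- The hybrid chain at the generic point. -/
noncomputable abbrev r2P (r r' : Fin n) (k : ℕ) (α : L →ₐ[K] M) (x : (gsh cc d n m).X L)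
    (T : Option (Mid m × UpN n) → M) : (tsh cc d n m).X M :=
  hpt r r' k ((gsh cc d n m).map α x) (T none) fun a => T (some a)

/-- The functions `alf` at the generic point. -/
noncomputable abbrev r2A (r r' : Fin n) (α : L →ₐ[K] M) (x : (gsh cc d n m).X L)
    (T : Option (Mid m × UpN n) → M) (j : Fin (m + 1)) : M :=
  alf r r' ((gsh cc d n m).map α x) (T none) (fun a => T (some a)) j

/-- The equation of the cover. -/
noncomputable def r2E (P : (tsh cc d n m).X M) : M :=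
  (((zd G.C G.t n G.s G.e).Ch m).kum G.N).φ M P.1.1 - (P.1.2 ^ p - P.1.2)

open Classical in
/-- The term of a place. -/
noncomputable def r2F (O : Pl M) (P : (tsh cc d n m).X M) : ℂ :=
  if 0 < O.ord (r2E G P) then (O.ord (r2E G P) : ℂ) * rv G.a O P else 0

/-- The frame is integral and invertible. -/
def R2I (O : Pl L) (x : (gsh cc d n m).X L) : Prop :=
  ∃ g', (Rel.ofPl O).m' x.2.2 g' ∧ g'.det ≠ 0

/-- The position of the simple root. -/
def r2i (hr : r'.1 = r.1 + 1) : UpN n := ⟨(r, r'), hr ▸ Nat.lt_succ_self _⟩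

lemma r2_det {x} (h : G.gS.mem L x) : x.2.2.det ≠ 0 := h.1.2

lemma r2_nu {R : Rel M L} {x : (gsh cc d n m).X M} {x' : (gsh cc d n m).X L}
    (h : (gsh cc d n m).lift R.r x x') (e : x'.2.2.det ≠ 0) : R.r (nu r r' x) (nu r r' x') :=
  Rel.mmul (Rel.mmul (Rel.minv h.2.2 e) h.2.1) h.2.2 r r'

lemma r2_nu_map (α : L →ₐ[K] M) {x} (h : G.gS.mem L x) :
    nu r r' ((gsh cc d n m).map α x) = α (nu r r' x) :=
  (r2_nu (R := Rel.ofHom α) ((Cd.lift_hom α).2 rfl) (r2_det G ((G.gS.map_iff α x).2 h))).symm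

lemma r2_nmat (hr : r'.1 = r.1 + 1) {F : Type} [Field F] (T : Mid m × UpN n → F) (j : Mid m) :
    nmat T j.1 r r' = T (j, r2i hr) := by
  rw [nmat, dif_pos j.2]
  exact ms_upm_up (fun a => T (j, a)) (r2i hr)

lemma r2_alf (hr : r'.1 = r.1 + 1) (α : L →ₐ[K] M) (x : (gsh cc d n m).X L)
    (T : Option (Mid m × UpN n) → M) (j : Mid m) : r2A r r' α x T j.1 =
      α (x.1.1.2 j.1 r' - x.1.1.2 j.1 r) - T none * T (some (j, r2i hr)) := by
  rw [r2A, alf, if_neg j.2.2, r2_nmat hr, map_sub]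

lemma r2_last (α : L →ₐ[K] M) {x} (h : G.gS.mem L x) (T : Option (Mid m × UpN n) → M) :
    r2A r r' α x T (Fin.last m) = -T none * α (nu r r' x) := by
  rw [r2A, alf, if_pos rfl, r2_nu_map G α h, neg_mul]

lemma r2_gsw (β : M →ₐ[K] N) (x : (gsh cc d n m).X M) (S : M) :
    (gsh cc d n m).map β (gsw r r' x S) = gsw r r' ((gsh cc d n m).map β x) (β S) :=
  Prod.ext rfl (Prod.ext rfl (Matrix.ext fun i j => Rel.mmul (R := Rel.ofHom β) (fun _ _ => rfl)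
    (Rel.madd Rel.mone (Rel.msingle r' r rfl)) i j))

lemma r2_bor (hr : r'.1 = r.1 + 1) {F : Type} [Field F] :
    Bor (1 - single r r' 1 : Matrix (Fin n) (Fin n) F) := by
  have t : (1 - single r r' 1 : Matrix (Fin n) (Fin n) F).BlockTriangular Fin.val :=
    blockTriangular_one.sub fun i j h => single_apply_of_ne _ _ _ _ _ fun e => by
      obtain ⟨rfl, rfl⟩ := e
      omega
  refine ⟨t, ?_⟩
  rw [ms_det Fin.val_injective t]
  refine Finset.prod_ne_zero_iff.2 fun i _ => ?_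
  rw [Matrix.sub_apply, one_apply_eq, single_apply_of_ne _ _ _ _ _ fun e => by
    obtain ⟨rfl, rfl⟩ := e
    omega, sub_zero]
  exact one_ne_zero

variable [g1 : G1 K p]

lemma r2_cfu {R : Rel M L} {x : (gsh cc d n m).X M} {x' : (gsh cc d n m).X L}
    (h : (gsh cc d n m).lift R.r x x') (e : G.gS.mem L x') (k : Fin m) :
    R.r (cfu r r' G.s x k) (cfu r r' G.s x' k) ∧ cfu r r' G.s x' k ≠ 0 := by
  have h0 := fun j => mul_ne_zero ((g1.zmem G e.1.1.1).2.2 j r) ((g1.zmem G e.1.1.1).2.2 j r')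
  have h1 := fun j => R.inv (R.mul (h.1.1.2 j r) (h.1.1.2 j r')) (h0 j)
  rw [cfu, cfu]
  cases G.s k
  exacts [⟨Rel.neg (h1 _), neg_ne_zero.2 (inv_ne_zero (h0 _))⟩, ⟨h1 _, inv_ne_zero (h0 _)⟩]

lemma r2_nu_mul (hr : r'.1 = r.1 + 1) {i : ℕ} (hj : G.j = i + 1 + Nat.card (Mid m × UpN n)) {x}
    (hx : G.gS.mem L x) (hν : nu r r' x ≠ 0) {b : Matrix (Fin n) (Fin n) L} (hb : Bor b) :
    nu r r' (gmul x b) ≠ 0 := fun e => hν (by
  have := (g1.invs G hr hj (g1.mul G hx hb) e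
    (b := b⁻¹) ⟨msJ_tri false hb.2 hb.1, msJ_ne false hb.2⟩).1
  rwa [gmul, gmul, mul_nonsing_inv_cancel_right _ _ (Ne.isUnit hb.2)] at this)

variable [FA1 K]

lemma r2_val (hr : r'.1 = r.1 + 1) {i : ℕ} (hj : G.j = i + 1 + Nat.card (Mid m × UpN n))
    {γ : L →ₐ[K] N} {T : Option (Mid m × UpN n) → N} (hF : Free i γ T) {x} (hx : G.gS.mem L x)
    (hν : nu r r' x = 0) : G.a N (gpt (gsw r r' ((gsh cc d n m).map γ x) (T none))
      fun a => T (some a)) = G.Γs r r' i L x := by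
  obtain ⟨M₁, α₁, β, S, rfl, e, f1, f2⟩ := r2_split hF
  rw [← g1.eqs G hr hj hx hν f1, ← g1.eq G hj (g1.sw G hr S ((G.gS.map_iff α₁ x).2 hx)
    (by rw [r2_nu_map G α₁ hx, hν, map_zero])) f2, r2_gsw, Cd.map_map, e]
  rfl

variable [h2 : R2a K p] [FA3 K]

omit [FA1 K] g1 h2 in
lemma r2_low (F : IntermediateField K N) {u : (tsh cc d n m).X N}
    (h : (tsh cc d n m).all (· ∈ F) u) {l : ℕ} (h1 : (N.sub F).tr ≤ l) (h3 : l < G.j) :
    G.a N u = 0 := FA3.low' (c := tsh cc d n m) G.Ψ.toPre ⟨F, h, h1⟩ h3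

omit [FA1 K] g1 [FA3 K] in
lemma r2_E (hr : r'.1 = r.1 + 1) (k : Fin m) (α : L →ₐ[K] M) {x} (hx : G.gS.mem L x)
    (T : Option (Mid m × UpN n) → M) : r2E G (r2P r r' k α x T) =
      cfu r r' G.s ((gsh cc d n m).map α x) k *
        (r2A r r' α x T k.castSucc * r2A r r' α x T k.succ) :=
  (h2.mem G hr k _ _ ((G.gS.map_iff α x).2 hx)).2

omit [FA1 K] g1 [FA3 K] in
include h2 in
lemma r2_rel {α : L →ₐ[K] M} {O : Pl L} {O' : Pl M} (h : Over α O O') {x : (gsh cc d n m).X L} {x₀}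
    (h0 : G.gS.mem O.res x₀) (hl : (gsh cc d n m).lift (Rel.ofPl O).r x x₀)
    {T : Option (Mid m × UpN n) → M} (hT : ∀ a, T a ∈ O'.O) :
    (∀ k, (tsh cc d n m).lift (Rel.ofPl O').r (r2P r r' k α x T)
      (r2P r r' k h.resHom x₀ fun a => O'.rd (T a))) ∧
    ∀ j, (Rel.ofPl O').r (r2A r r' α x T j) (r2A r r' h.resHom x₀ (fun a => O'.rd (T a)) j) :=
  have := h2.rel r r' (Rel.ofPl O') (Cd.lift_over h hl) (r2_det G ((G.gS.map_iff _ _).2 h0))
    ⟨hT none, rfl⟩ fun a => ⟨hT (some a), rfl⟩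
  ⟨this.1, this.2.1⟩

omit [FA1 K] g1 in
include h2 in
lemma r2_drop {α : L →ₐ[K] M} {O' : Pl M} {x : (gsh cc d n m).X L} {x₀}
    (h0 : G.gS.mem (comap α O').res x₀) (hl : (gsh cc d n m).lift (Rel.ofPl (comap α O')).r x x₀)
    {T : Option (Mid m × UpN n) → M} (hT : ∀ a, T a ∈ O'.O) (hd : R2Drop G.j α O' T) (k : ℕ) :
    rv G.a O' (r2P r r' k α x T) = 0 := by
  obtain ⟨l, h1, h3⟩ := hd
  rw [r2_rv _ ((r2_rel G (over_comap α O') h0 hl hT).1 k)]
  have h4 := (h2.rel r r' _ (r2_all (over_comap α O').resHom (fun a => O'.rd (T a)) x₀)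
    (r2_det G ((G.gS.map_iff _ _).2 h0)) ⟨FA2_var _ _ none, rfl⟩
    fun a => ⟨FA2_var _ _ (some a), rfl⟩).1 k
  exact r2_low G _ ((Cd.lift_sub _).1 h4).1 h3 h1

omit [FA1 K] g1 in
include h2 in
lemma r2_red (hr : r'.1 = r.1 + 1) {α : L →ₐ[K] M} {O' : Pl M} {x} (hx : G.gS.mem L x)
    (hI : R2I (comap α O') x) {T : Option (Mid m × UpN n) → M} (hS : T none ∈ O'.O) {k : ℕ}
    (hv : rv G.a O' (r2P r r' k α x T) ≠ 0) : (∀ a, T a ∈ O'.O) ∧ ¬ R2Drop G.j α O' T ∧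
      ∃ x₀, G.gS.mem (comap α O').res x₀ ∧ (gsh cc d n m).lift (Rel.ofPl (comap α O')).r x x₀ := by
  obtain ⟨g', a1, a2⟩ := hI
  have ho := over_comap α O'
  have b1 : (Rel.ofPl O').m' ((gsh cc d n m).map α x).2.2 (g'.map ho.resHom) :=
    Cd.lift_over (c := sq n) ho a1
  have b2 : (g'.map ho.resHom).det ≠ 0 :=
    Rel.det (R := Rel.ofHom ho.resHom) (C := g') (fun _ _ => rfl) ▸ (map_ne_zero _).2 a2
  have b3 : (tsh cc d n m).all (· ∈ O'.O) (r2P r r' k α x T) := by_contra fun e => hv (if_neg e)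
  have b4 := C6.lift_rd b3
  have hT : ∀ a, T a ∈ O'.O := fun a => by
    cases a
    exacts [hS, (h2.int hr k O' _ _ _ b1 b2 hS b3).2 _]
  obtain ⟨x', c1, c2⟩ := h2.red G hr k O' _ _ ((G.gS.map_iff α x).2 hx) b1 b2 hS b4
    ((G.tt m).sp_some.1 (G.Ψ.supp _ _ (r2_rv G.a b4 ▸ hv :)).2)
  have c3 := C6.lift_rd ((Cd.all_over ho).1 ((Cd.lift_pl O').1 c2).1)
  rw [Cd.lift_eq c2 (Cd.lift_over ho c3) rfl, G.gS.map_iff] at c1
  exact ⟨hT, fun e => hv (r2_drop G c1 c3 hT e k), _, c1, c3⟩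

omit [FA3 K] in
include h2 in
/-- The term of a Gauss place. -/
lemma r2_gv (hr : r'.1 = r.1 + 1) {i : ℕ} (hj : G.j = i + 1 + Nat.card (Mid m × UpN n))
    {α : L →ₐ[K] M} {O : Pl L} {O' : Pl M} (hO : O.IsDVR) (hO' : O'.IsDVR) (h : Over α O O') {x}
    (hx : G.gS.mem L x) (hν : nu r r' x ≠ 0) {T : Option (Mid m × UpN n) → M}
    (hT : ∀ a, T a ∈ O'.O) (ho : ∀ f, O'.ord (α f) = O.ord f)
    (hF : Free i h.resHom fun a => O'.rd (T a)) {x₀} (h0 : G.gS.mem O.res x₀)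
    (hl : (gsh cc d n m).lift (Rel.ofPl O).r x x₀) (k : Fin m) (hk : k.castSucc ≠ 0) :
    r2F G O' (r2P r r' k α x T) =
      if k.succ = Fin.last m then (O.ord (nu r r' x) : ℂ) * G.Γs r r' i O.res x₀ else 0 := by
  obtain ⟨a1, a2⟩ := r2_rel (r := r) (r' := r') G h h0 hl hT
  have u : ∀ j : Mid m, Un O' (r2A r r' α x T j.1) := fun j =>
    r2_un (a2 j.1) (r2_alf hr _ x₀ _ j ▸ r2_quad_ne hF _ _ _)
  have c1 := r2_cfu (r := r) (r' := r') G (Cd.lift_over h hl) ((G.gS.map_iff _ _).2 h0) k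
  have u0 := r2_un c1.1 c1.2
  have u1 := u ⟨k.castSucc, hk, Fin.castSucc_ne_last k⟩
  rw [r2F, r2_E G hr k α hx]
  by_cases e : k.succ = Fin.last m
  · have u2 : Un O' (-T none) :=
      r2_un (Rel.neg ⟨hT none, rfl⟩) (neg_ne_zero.2 (r2_var_ne hF none))
    have n0 := (map_ne_zero α).2 hν
    have n1 := r2_nu (r := r) (r' := r') hl (r2_det G h0)
    rw [if_pos e, e, r2_last G α hx, r2_un_ord hO' u0 (mul_ne_zero u1.1 (mul_ne_zero u2.1 n0)),
      r2_un_ord hO' u1 (mul_ne_zero u2.1 n0), r2_un_ord hO' u2 n0, ho]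
    split_ifs with h1
    · have e' : (k : ℕ) = m - 1 := by have := congrArg Fin.val e; simp at this; omega
      rw [r2_rv _ (a1 k), r2P, e', h2.last hr,
        r2_val G hr hj hF h0 (n1.2.symm.trans ((ord_pos_iff hO hν).1 h1).2)]
    · rw [le_antisymm (not_lt.1 h1) ((ord_nonneg_iff hO).2 n1.1), Int.cast_zero, zero_mul]
  · have u3 := u0.mul (u1.mul (u ⟨k.succ, Fin.succ_ne_zero k, e⟩))
    rw [if_neg e, ord_eq_zero_of_mem u3.1 u3.2.1 u3.2.2, if_neg (lt_irrefl _)]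

end Pool.Agent.Lib.MP_557161_ag.HG
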