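import Pool.Agent.Lib.MP_557161_ag.HG.St3M

/-!
Triangular matrices and their conjugates by an elementary matrix.
-/

namespace Pool.Agent.Lib.MP_557161_ag.HG.R2A

open Pool.Agent.Lib.MP_557161_ag.DL Matrix

variable {F : Type} [Field F] {n : ℕ} {r r' : Fin n} {A B U V N g g' : Matrix (Fin n) (Fin n) F}
  {S S' : F} {q : Fin n → F}

/-- Upper triangular matrices. -/
abbrev Tri (A : Matrix (Fin n) (Fin n) F) : Prop := A.BlockTriangular Fin.val

lemma tri_diag (t : Tri A) (t' : Tri B) (i : Fin n) : (A * B) i i = A i i * B i i := by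
  rw [mul_apply, Finset.sum_eq_single i (fun j _ hj => ?_) (by simp)]
  rcases lt_or_gt_of_ne hj with h | h
  · rw [t h, zero_mul]
  · rw [t' h, mul_zero]

lemma ne_of (hr : r'.1 = r.1 + 1) : r ≠ r' := fun e => by rw [e] at hr; omega

lemma tri_adj (hr : r'.1 = r.1 + 1) (t : Tri A) (t' : Tri B) :
    (A * B) r r' = A r r * B r r' + A r r' * B r' r' := by
  rw [mul_apply, Finset.sum_eq_add r r' (ne_of hr) (fun j _ hj => ?_) (by simp) (by simp)]
  rcases lt_or_gt_of_ne hj.1 with h | h
  · rw [t h, zero_mul]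
  · have h1 : r.1 < j.1 := h
    have h2 : j.1 ≠ r'.1 := Fin.val_ne_of_ne hj.2
    rw [t' (show r'.1 < j.1 by omega), mul_zero]

lemma tri_det (t : Tri A) : A.det = ∏ i, A i i := det_of_isUpperTriangular fun _ _ e => t e

lemma tri_ne (t : Tri A) (h : A.det ≠ 0) (i : Fin n) : A i i ≠ 0 :=
  Finset.prod_ne_zero_iff.1 ((tri_det t).symm.trans_ne h) i (Finset.mem_univ i)

lemma tri_inv (t : Tri A) (h : A.det ≠ 0) : Tri A⁻¹ :=
  let _ := invertibleOfIsUnitDet A h.isUnit
  blockTriangular_inv_of_blockTriangular t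

lemma tri_inv_diag (t : Tri A) (h : A.det ≠ 0) (i : Fin n) : A⁻¹ i i = (A i i)⁻¹ :=
  eq_inv_of_mul_eq_one_right (by
    rw [← tri_diag t (tri_inv t h), mul_nonsing_inv _ h.isUnit, one_apply_eq])

lemma tri_inv_adj (hr : r'.1 = r.1 + 1) (t : Tri A) (h : A.det ≠ 0) :
    A⁻¹ r r' = -(A r r' * (A r r * A r' r')⁻¹) := by
  have h1 := tri_adj hr t (tri_inv t h)
  rw [mul_nonsing_inv _ h.isUnit, one_apply_ne (ne_of hr), tri_inv_diag t h] at h1
  have h2 := tri_ne t h r
  have h3 := tri_ne t h r'
  field_simp at h1 ⊢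
  linear_combination -h1

lemma tri_conj (tB : Tri B) (h : B.det ≠ 0) (t : Tri A) :
    Tri (B⁻¹ * A * B) ∧ ∀ i, (B⁻¹ * A * B) i i = A i i :=
  ⟨((tri_inv tB h).mul t).mul tB, fun i => by
    rw [tri_diag ((tri_inv tB h).mul t) tB, tri_diag (tri_inv tB h) t, tri_inv_diag tB h,
      mul_right_comm, inv_mul_cancel₀ (tri_ne tB h i), one_mul]⟩

lemma hS_left (A : Matrix (Fin n) (Fin n) F) (i j : Fin n) :
    (hS r r' S * A) i j = A i j + if i = r' then S * A r j else 0 := by
  rw [hS, add_mul, one_mul, Matrix.add_apply]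
  split_ifs with h
  · rw [h, single_mul_apply_same]
  · rw [single_mul_apply_of_ne _ _ _ _ _ h]

lemma hS_right (A : Matrix (Fin n) (Fin n) F) (i j : Fin n) :
    (A * hS r r' S) i j = A i j + if j = r then A i r' * S else 0 := by
  rw [hS, mul_add, mul_one, Matrix.add_apply]
  split_ifs with h
  · rw [h, mul_single_apply_same]
  · rw [mul_single_apply_of_ne _ _ _ _ _ h]

lemma hS_cancel (hr : r'.1 = r.1 + 1) (e : S + S' = 0) : hS r r' S * hS r r' S' = 1 := by
  simp only [hS, add_mul, mul_add, one_mul, mul_one, single_mul_single_of_ne _ _ _ _ (ne_of hr),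
    add_zero, add_assoc, ← single_add]
  rw [e, single_zero, add_zero]

lemma hS_det (hr : r'.1 = r.1 + 1) : (hS r r' S).det = 1 := det_transvection_of_ne _ _ (ne_of hr).symm S

lemma upp_apply (A : Matrix (Fin n) (Fin n) F) (i j : Fin n) :
    upp Fin.val A i j = if i < j then A i j else 0 := rfl

lemma su_upp : SU Fin.val (upp Fin.val A) := fun _ _ h => dif_neg (not_lt.2 h)

lemma upp_su (h : SU Fin.val N) : upp Fin.val N = N := Matrix.ext fun i j => by
  rw [upp_apply]
  split_ifs with e
  exacts [rfl, (h i j (not_lt.1 e)).symm]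

lemma upp_add : upp Fin.val (diagonal q + N) = upp Fin.val N := Matrix.ext fun i j => by
  simp only [upp_apply]
  split_ifs with e
  · rw [Matrix.add_apply, diagonal_apply_ne _ e.ne, zero_add]
  · rfl

lemma tri_add (h : SU Fin.val N) : Tri (diagonal q + N) ∧ ∀ i, (diagonal q + N) i i = q i :=
  ⟨(blockTriangular_diagonal _).add fun i j e => h i j e.le, fun i => by
    rw [Matrix.add_apply, h i i le_rfl, add_zero, diagonal_apply_eq]⟩

lemma tri_split (t : Tri A) (h : ∀ i, A i i = q i) : diagonal q + upp Fin.val A = A :=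
  Matrix.ext fun i j => by
    rw [Matrix.add_apply, upp_apply]
    rcases lt_trichotomy i j with e | rfl | e
    · rw [if_pos e, diagonal_apply_ne _ e.ne, zero_add]
    · rw [if_neg (lt_irrefl _), diagonal_apply_eq, add_zero, h]
    · rw [if_neg e.not_gt, diagonal_apply_ne _ e.ne', add_zero, t e]

lemma upp_cj (hr : r'.1 = r.1 + 1) (e : S + S' = 0) (A : Matrix (Fin n) (Fin n) F) :
    upp Fin.val (hS r r' S' * upp Fin.val (hS r r' S * A * hS r r' S') * hS r r' S) =
      upp Fin.val A := Matrix.ext fun i j => by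
  obtain rfl := eq_neg_of_add_eq_zero_right e
  simp only [upp_apply, hS_right, hS_left, Fin.ext_iff, Fin.lt_def]
  split_ifs <;> first | omega | ring

lemma cj_adj (hr : r'.1 = r.1 + 1) : (hS r r' S * A * hS r r' S') r r' = A r r' := by
  rw [hS_right, hS_left, if_neg (ne_of hr), if_neg (ne_of hr).symm, add_zero, add_zero]

lemma cj_tri (hr : r'.1 = r.1 + 1) (t : Tri A) (e : S * A r r + (A r' r' + S * A r r') * S' = 0) :
    Tri (hS r r' S * A * hS r r' S') := fun i j h => by
  rw [hS_right, hS_left, hS_left, t h]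
  by_cases h1 : i = r' <;> by_cases h2 : j = r
  · rw [if_pos h1, if_pos h1, if_pos h2, h1, h2, zero_add, e]
  · have h3 : j.1 ≠ r.1 := Fin.val_ne_of_ne h2
    have h4 : j.1 < r'.1 := h1 ▸ h
    rw [if_neg h2, t (show j.1 < r.1 by omega)]
    simp
  · have h3 : i.1 ≠ r'.1 := Fin.val_ne_of_ne h1
    have h4 : r.1 < i.1 := h2 ▸ h
    rw [if_neg h1, if_neg h1, t (show r'.1 < i.1 by omega)]
    simp
  · simp [h1, h2]

variable (r r') in
/-- A matrix of a hybrid chain. -/
def hyb (c : Prop) [Decidable c] (S : F) (q : Fin n → F) (N : Matrix (Fin n) (Fin n) F) :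
    Matrix (Fin n) (Fin n) F :=
  if c then hS r r' S * (diagonal (fun i => q (Equiv.swap r r' i)) + N) * hS r r' (-S)
  else diagonal q + upp Fin.val (hS r r' S * N * hS r r' (-S))

variable (r r') in
/-- The triangular form. -/
def trf (c : Prop) [Decidable c] (S : F) (A : Matrix (Fin n) (Fin n) F) :
    Matrix (Fin n) (Fin n) F := if c then hS r r' (-S) * A * hS r r' S else A

variable (r r') in
/-- The nilpotent part. -/
def rcv (c : Prop) [Decidable c] (S : F) (A : Matrix (Fin n) (Fin n) F) :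
    Matrix (Fin n) (Fin n) F :=
  upp Fin.val (hS r r' (-S) * (if c then A else upp Fin.val A) * hS r r' S)

variable {c : Prop} [Decidable c]

lemma cj_cj (hr : r'.1 = r.1 + 1) (e : S + S' = 0) :
    hS r r' S * (hS r r' S' * A * hS r r' S) * hS r r' S' = A := by
  simp only [mul_assoc]
  rw [hS_cancel hr e, mul_one, ← mul_assoc, hS_cancel hr e, one_mul]

lemma trf_hyb (hr : r'.1 = r.1 + 1) (h : SU Fin.val N) : Tri (trf r r' c S (hyb r r' c S q N)) ∧
    (∀ i, trf r r' c S (hyb r r' c S q N) i i = q (if c then Equiv.swap r r' i else i)) ∧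
    trf r r' c S (hyb r r' c S q N) r r' = N r r' := by
  simp only [trf, hyb]
  split_ifs
  · rw [cj_cj hr (neg_add_cancel S)]
    exact ⟨(tri_add h).1, (tri_add h).2, by
      rw [Matrix.add_apply, diagonal_apply_ne _ (ne_of hr), zero_add]⟩
  · exact ⟨(tri_add su_upp).1, (tri_add su_upp).2, by
      rw [Matrix.add_apply, diagonal_apply_ne _ (ne_of hr), zero_add, upp_apply,
        if_pos (Fin.lt_def.2 (by omega)), cj_adj hr]⟩

lemma rcv_hyb (hr : r'.1 = r.1 + 1) (h : SU Fin.val N) : rcv r r' c S (hyb r r' c S q N) = N := by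
  simp only [rcv, hyb]
  split_ifs
  · rw [cj_cj hr (neg_add_cancel S), upp_add, upp_su h]
  · rw [upp_add, upp_su su_upp, upp_cj hr (add_neg_cancel S), upp_su h]

lemma hyb_rcv (hr : r'.1 = r.1 + 1) (t : Tri (trf r r' c S A))
    (h : ∀ i, trf r r' c S A i i = q (if c then Equiv.swap r r' i else i)) :
    hyb r r' c S q (rcv r r' c S A) = A := by
  simp only [rcv, hyb, trf] at t h ⊢
  split_ifs at t h ⊢
  · rw [tri_split t h, cj_cj hr (add_neg_cancel S)]
  · rw [upp_cj hr (neg_add_cancel S), upp_su su_upp, tri_split t h]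

lemma hyb_agree (hr : r'.1 = r.1 + 1) (h : SU Fin.val N) (e : q r' - q r - S * N r r' = 0) :
    hyb r r' True S q N = hyb r r' False S q N := by
  have h1 := tri_add (q := fun i => q (Equiv.swap r r' i)) h
  have h2 : (diagonal (fun i => q (Equiv.swap r r' i)) + N) r r' = N r r' := by
    rw [Matrix.add_apply, diagonal_apply_ne _ (ne_of hr), zero_add]
  rw [hyb, hyb, if_pos trivial, if_neg not_false]
  refine (tri_split (q := q) (cj_tri hr h1.1 ?_) fun i => ?_).symm.trans (congrArg _ ?_)
  · rw [h1.2, h1.2, h2, Equiv.swap_apply_left, Equiv.swap_apply_right]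
    linear_combination S * e
  · rw [hS_right, hS_left, hS_left, h1.2, h2]
    by_cases e1 : i = r
    · rw [if_pos e1, e1, if_neg (ne_of hr), if_neg (ne_of hr), h2, Equiv.swap_apply_left]
      linear_combination e
    · rw [if_neg e1]
      by_cases e2 : i = r'
      · rw [if_pos e2, e2, h2, Equiv.swap_apply_right]
        linear_combination -e
      · rw [if_neg e2, Equiv.swap_apply_of_ne_of_ne e1 e2, add_zero, add_zero]
  · ext i j
    simp only [upp_apply, hS_right, hS_left, Matrix.add_apply, diagonal_apply, Fin.ext_iff, Fin.lt_def]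
    split_ifs <;> first | omega | ring

lemma det_hyb (hr : r'.1 = r.1 + 1) (t : Tri (trf r r' c S A))
    (h : ∀ i, trf r r' c S A i i = q (if c then Equiv.swap r r' i else i)) : A.det = ∏ i, q i := by
  have h1 := tri_det t
  simp only [h] at h1
  simp only [trf] at h1
  split_ifs at h1
  · rwa [det_mul, det_mul, hS_det hr, hS_det hr, one_mul, mul_one, Equiv.prod_comp _ q] at h1
  · exact h1

lemma det_stp (s : Bool) (h : A.det = U.det) (h' : B.det = V.det) :
    (stp s A B).det = (stp s U V).det := by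
  cases s <;> simp [stp, det_nonsing_inv, h, h']

lemma tr_conj (s : Bool) (h : g' * g = 1) :
    (stp s (g * A * g') (g * B * g')).trace = (stp s A B).trace := by
  have e : ∀ A B : Matrix (Fin n) (Fin n) F,
      ((g * A * g')⁻¹ * (g * B * g')).trace = (A⁻¹ * B).trace := fun A B => by
    rw [Matrix.mul_inv_rev, Matrix.mul_inv_rev, inv_eq_right_inv h, inv_eq_left_inv h, trace_mul_comm]
    simp only [mul_assoc]
    rw [← mul_assoc g' g, h, one_mul, trace_mul_comm]
    simp only [mul_assoc]
    rw [h, mul_one, trace_mul_comm]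
  cases s
  exacts [e B A, e A B]

/-- The trace on the torus. -/
def tv (s : Bool) (a b : Fin n → F) : F := ∑ i, cond s ((a i)⁻¹ * b i) ((b i)⁻¹ * a i)

lemma tr_tri (s : Bool) (t : Tri A) (t' : Tri B) (h : A.det ≠ 0) (h' : B.det ≠ 0) :
    (stp s A B).trace = tv s A.diag B.diag := Finset.sum_congr rfl fun i _ => by
  cases s
  · exact (tri_diag (tri_inv t' h') t i).trans (congrArg (· * _) (tri_inv_diag t' h' i))
  · exact (tri_diag (tri_inv t h) t' i).trans (congrArg (· * _) (tri_inv_diag t h i))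

lemma tr_cj (hr : r'.1 = r.1 + 1) (t : Tri U) (t' : Tri V) :
    (hS r r' S * U * hS r r' (-S) * V).trace =
      ∑ i, U (Equiv.swap r r' i) (Equiv.swap r r' i) * V i i -
      (U r r - U r' r' - S * U r r') * (V r' r' - V r r - S * V r r') := by
  have h1 : (U * V).trace = ∑ i, U i i * V i i := Finset.sum_congr rfl fun i _ => tri_diag t t' i
  have h2 : ∑ i, U (Equiv.swap r r' i) (Equiv.swap r r' i) * V i i - ∑ i, U i i * V i i =
      (U r r - U r' r') * (V r' r' - V r r) := by
    rw [← Finset.sum_sub_distrib, Finset.sum_eq_add r r' (ne_of hr) (fun j _ hj => by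
      rw [Equiv.swap_apply_of_ne_of_ne hj.1 hj.2, sub_self]) (by simp) (by simp),
      Equiv.swap_apply_left, Equiv.swap_apply_right]
    ring
  have h3 : (U * single r' r (-S) * V).trace = -S * (V * U) r r' := by
    rw [trace_mul_cycle, trace_mul_comm, trace_single_mul, smul_eq_mul]
  have h4 : (U * single r' r (-S) * V) r r' = U r r' * -S * V r r' := by
    rw [mul_apply, Finset.sum_eq_single r (fun j _ hj => by
      rw [mul_single_apply_of_ne _ _ _ _ _ hj, zero_mul]) (by simp), mul_single_apply_same]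
  simp only [hS, add_mul, mul_add, one_mul, mul_one, trace_add, mul_assoc (single r' r S),
    trace_single_mul, smul_eq_mul]
  rw [h1, h3, h4, tri_adj hr t t', tri_adj hr t' t]
  linear_combination -h2

lemma tr_hyb (hr : r'.1 = r.1 + 1) (s : Bool) (t : Tri U) (t' : Tri V) (h : U.det ≠ 0)
    (h' : V.det ≠ 0) : cond s 1 (-1) * (stp s (hS r r' S * U * hS r r' (-S)) V).trace =
      cond s 1 (-1) * tv s (fun i => U (Equiv.swap r r' i) (Equiv.swap r r' i)) V.diag +
      cond s (U r' r' * U r r)⁻¹ (-(V r r * V r' r')⁻¹) *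
        ((U r r - U r' r' - S * U r r') * (V r' r' - V r r - S * V r r')) := by
  cases s
  · have h1 := tri_ne t' h' r
    have h2 := tri_ne t' h' r'
    simp only [stp, tv, cond_false, diag_apply]
    rw [trace_mul_comm, tr_cj hr t (tri_inv t' h'), tri_inv_adj hr t' h']
    simp only [tri_inv_diag t' h', mul_comm (U _ _)]
    field_simp
    ring
  · have h1 := tri_ne t h r
    have h2 := tri_ne t h r'
    simp only [stp, tv, cond_true, diag_apply]
    rw [Matrix.mul_inv_rev, Matrix.mul_inv_rev, inv_eq_left_inv (hS_cancel hr (add_neg_cancel S)),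
      inv_eq_right_inv (hS_cancel hr (add_neg_cancel S)), ← mul_assoc,
      tr_cj hr (tri_inv t h) t', tri_inv_adj hr t h]
    simp only [tri_inv_diag t h]
    field_simp
    ring

end Pool.Agent.Lib.MP_557161_ag.HG.R2A
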