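import Pool.Agent.Lib.MP_557161_ag.DL.CKL

/-!
Specialisation relations between fields: a common form of field extensions and places.
-/

namespace Pool.Agent.Lib.MP_557161_ag.HG

open Pool.Agent.Lib.MP_557161_ag.DL

variable {K : Type} [Field K]

/-- A local homomorphism from a subring of `M` to `L`, as a relation. -/
structure Rel (M L : Fld K) where
  r : M → L → Prop
  const : ∀ c : K, r (algebraMap K M c) (algebraMap K L c)
  add : ∀ {a b a' b'}, r a a' → r b b' → r (a + b) (a' + b')
  mul : ∀ {a b a' b'}, r a a' → r b b' → r (a * b) (a' * b')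
  inv : ∀ {a a'}, r a a' → a' ≠ 0 → r a⁻¹ a'⁻¹
  func : ∀ {a'}, r 0 a' → a' = 0

namespace Rel

variable {M L N : Fld K} (R : Rel M L) {a b : M} {a' b' : L}

lemma zero : R.r 0 0 := by simpa using R.const 0
lemma one : R.r 1 1 := by simpa using R.const 1
lemma natCast (n : ℕ) : R.r n n := by simpa using R.const n
lemma intCast (n : ℤ) : R.r n n := by simpa using R.const n
lemma two : R.r 2 2 := by simpa using R.natCast 2

variable {R}

lemma neg (h : R.r a a') : R.r (-a) (-a') := by simpa using R.mul (R.const (-1)) h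
lemma sub (h : R.r a a') (h' : R.r b b') : R.r (a - b) (a' - b') := by
  simpa only [sub_eq_add_neg] using R.add h (neg h')
lemma div (h : R.r a a') (h' : R.r b b') (h0 : b' ≠ 0) : R.r (a / b) (a' / b') := by
  simpa only [div_eq_mul_inv] using R.mul h (R.inv h' h0)
lemma pow (h : R.r a a') (n : ℕ) : R.r (a ^ n) (a' ^ n) := by
  induction n with
  | zero => simpa using R.one
  | succ n ih => simpa only [pow_succ] using R.mul ih h
lemma zpow (h : R.r a a') (h0 : a' ≠ 0) (n : ℤ) : R.r (a ^ n) (a' ^ n) := by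
  obtain ⟨k, rfl | rfl⟩ := n.eq_nat_or_neg
  · simpa using pow h k
  · simpa using R.inv (pow h k) (pow_ne_zero _ h0)
lemma smul (c : K) (h : R.r a a') : R.r (c • a) (c • a') := by
  simpa only [Algebra.smul_def] using R.mul (R.const c) h
lemma eq (h : R.r a a') (h' : R.r b b') (e : a = b) : a' = b' := by
  subst e
  exact sub_eq_zero.1 (R.func (by simpa using sub h h'))
lemma eq_zero (h : R.r a a') (e : a = 0) : a' = 0 := eq h R.zero e
lemma ne_zero (h : R.r a a') (h0 : a' ≠ 0) : a ≠ 0 := fun e => h0 (eq_zero h e)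
lemma ne (h : R.r a a') (h' : R.r b b') (h0 : a' ≠ b') : a ≠ b := fun e => h0 (eq h h' e)
lemma ite (q : Prop) [Decidable q] (h : R.r a a') (h' : R.r b b') :
    R.r (if q then a else b) (if q then a' else b') := by
  split_ifs
  exacts [h, h']
lemma sum {α : Type*} (s : Finset α) {f : α → M} {f' : α → L} (h : ∀ i ∈ s, R.r (f i) (f' i)) :
    R.r (∑ i ∈ s, f i) (∑ i ∈ s, f' i) := by
  classical
  induction s using Finset.induction_on with
  | empty => simpa using R.zero
  | insert a s ha ih =>
    rw [Finset.sum_insert ha, Finset.sum_insert ha]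
    exact R.add (h a (by simp)) (ih fun i hi => h i (by simp [hi]))
lemma prod {α : Type*} (s : Finset α) {f : α → M} {f' : α → L} (h : ∀ i ∈ s, R.r (f i) (f' i)) :
    R.r (∏ i ∈ s, f i) (∏ i ∈ s, f' i) := by
  classical
  induction s using Finset.induction_on with
  | empty => simpa using R.one
  | insert a s ha ih =>
    rw [Finset.prod_insert ha, Finset.prod_insert ha]
    exact R.mul (h a (by simp)) (ih fun i hi => h i (by simp [hi]))
lemma aeval {σ : Type} {x : σ → M} {x' : σ → L} (h : ∀ i, R.r (x i) (x' i))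
    (f : MvPolynomial σ K) : R.r (MvPolynomial.aeval x f) (MvPolynomial.aeval x' f) := by
  induction f using MvPolynomial.induction_on with
  | C c => simpa using R.const c
  | add f g hf hg => simpa using R.add hf hg
  | mul_X f i hf => simpa using R.mul hf (h i)
lemma aevalZ {σ : Type} {x : σ → M} {x' : σ → L} (h : ∀ i, R.r (x i) (x' i))
    (f : MvPolynomial σ ℤ) : R.r (MvPolynomial.aeval x f) (MvPolynomial.aeval x' f) := by
  induction f using MvPolynomial.induction_on with
  | C c => simpa using R.intCast c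
  | add f g hf hg => simpa using R.add hf hg
  | mul_X f i hf => simpa using R.mul hf (h i)
lemma update {σ : Type} [DecidableEq σ] {X X' : σ → Type} {q : ∀ i, X i → X' i → Prop}
    {x : ∀ i, X i} {x' : ∀ i, X' i} (h : ∀ i, q i (x i) (x' i)) (s : σ) {u : X s} {u' : X' s}
    (hu : q s u u') (i : σ) : q i (Function.update x s u i) (Function.update x' s u' i) := by
  by_cases e : i = s
  · subst e
    simpa using hu
  · simpa [Function.update_of_ne e] using h i

section Mat

variable {m n o : Type}

/-- The relation for matrices. -/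
abbrev m' (R : Rel M L) (A : Matrix m n M) (A' : Matrix m n L) : Prop := ∀ i j, R.r (A i j) (A' i j)

variable {A B : Matrix m n M} {A' B' : Matrix m n L}

lemma madd (h : R.m' A A') (h' : R.m' B B') : R.m' (A + B) (A' + B') :=
  fun i j => R.add (h i j) (h' i j)
lemma msub (h : R.m' A A') (h' : R.m' B B') : R.m' (A - B) (A' - B') :=
  fun i j => sub (h i j) (h' i j)
lemma mneg (h : R.m' A A') : R.m' (-A) (-A') := fun i j => neg (h i j)
lemma msmul (h : R.r a a') (h' : R.m' A A') : R.m' (a • A) (a' • A') :=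
  fun i j => R.mul h (h' i j)
lemma mzero : R.m' (0 : Matrix m n M) 0 := fun _ _ => R.zero
lemma mmul [Fintype n] (h : R.m' A A') {C : Matrix n o M} {C' : Matrix n o L} (h' : R.m' C C') :
    R.m' (A * C) (A' * C') := fun i j => sum _ fun k _ => R.mul (h i k) (h' k j)
lemma meq (h : R.m' A A') (h' : R.m' B B') (e : A = B) : A' = B' :=
  Matrix.ext fun i j => eq (h i j) (h' i j) (by rw [e])
lemma mdiag [DecidableEq n] {x : n → M} {x' : n → L} (h : ∀ i, R.r (x i) (x' i)) :
    R.m' (Matrix.diagonal x) (Matrix.diagonal x') := fun i j => by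
  simp only [Matrix.diagonal_apply]
  exact ite _ (h i) R.zero
lemma mone [DecidableEq n] : R.m' (1 : Matrix n n M) 1 := mdiag fun _ => R.one
lemma msingle [DecidableEq m] [DecidableEq n] (i : m) (j : n) (h : R.r a a') :
    R.m' (Matrix.single i j a) (Matrix.single i j a') := fun i j => by
  simp only [Matrix.single_apply]
  exact ite _ h R.zero
lemma mulVec [Fintype n] (h : R.m' A A') {x : n → M} {x' : n → L} (hx : ∀ i, R.r (x i) (x' i))
    (i : m) : R.r (A.mulVec x i) (A'.mulVec x' i) := sum _ fun k _ => R.mul (h i k) (hx k)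

variable [Fintype n] {C : Matrix n n M} {C' : Matrix n n L}

lemma trace (h : R.m' C C') : R.r C.trace C'.trace := sum _ fun i _ => h i i

variable [DecidableEq n]

lemma det (h : R.m' C C') : R.r C.det C'.det := by
  rw [Matrix.det_apply', Matrix.det_apply']
  exact sum _ fun σ _ => R.mul (R.intCast _) (prod _ fun i _ => h _ _)
lemma madj (h : R.m' C C') : R.m' C.adjugate C'.adjugate := fun i j => by
  rw [Matrix.adjugate_apply, Matrix.adjugate_apply]
  refine det fun k l => ?_
  rw [Matrix.updateRow_apply, Matrix.updateRow_apply]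
  refine ite _ ?_ (h k l)
  simp only [Pi.single_apply]
  exact ite _ R.one R.zero
lemma minv (h : R.m' C C') (h0 : C'.det ≠ 0) : R.m' C⁻¹ C'⁻¹ := by
  rw [Matrix.inv_def, Matrix.inv_def, Ring.inverse_eq_inv', Ring.inverse_eq_inv']
  exact msmul (R.inv (det h) h0) (madj h)
lemma mpow (h : R.m' C C') (k : ℕ) : R.m' (C ^ k) (C' ^ k) := by
  induction k with
  | zero => simpa using mone
  | succ k ih => simpa only [pow_succ] using mmul ih h
lemma mprod {k : ℕ} {g : Fin k → Matrix n n M} {g' : Fin k → Matrix n n L}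
    (h : ∀ j, R.m' (g j) (g' j)) : R.m' (List.ofFn g).prod (List.ofFn g').prod := by
  induction k with
  | zero => simpa using mone
  | succ k ih =>
    rw [List.ofFn_succ, List.ofFn_succ, List.prod_cons, List.prod_cons]
    exact mmul (h 0) (ih fun j => h _)

end Mat

/-- The graph of a field extension. -/
def ofHom (ι : M →ₐ[K] L) : Rel M L where
  r a a' := ι a = a'
  const c := ι.commutes c
  add h h' := by rw [map_add, h, h']
  mul h h' := by rw [map_mul, h, h']
  inv h _ := by rw [map_inv₀, h]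
  func h := by rw [← h, map_zero]

/-- The diagonal of a subfield. -/
def ofSub (F : IntermediateField K L) : Rel L L where
  r a a' := a ∈ F ∧ a = a'
  const c := ⟨F.algebraMap_mem c, rfl⟩
  add h h' := ⟨add_mem h.1 h'.1, by rw [h.2, h'.2]⟩
  mul h h' := ⟨mul_mem h.1 h'.1, by rw [h.2, h'.2]⟩
  inv h _ := ⟨inv_mem h.1, by rw [h.2]⟩
  func h := h.2.symm

/-- The inverse of an injective relation. -/
def symm (R : Rel M L) (h : ∀ a, R.r a 0 → a = 0) : Rel L M where
  r a' a := R.r a a'
  const := R.const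
  add := R.add
  mul := R.mul
  inv {a' a} e h0 := R.inv e fun e' => h0 (h a (e' ▸ e))
  func e := h _ e

/-- The composition. -/
def comp (R : Rel M L) (R' : Rel L N) : Rel M N where
  r a c := ∃ b, R.r a b ∧ R'.r b c
  const c := ⟨_, R.const c, R'.const c⟩
  add := fun ⟨_, h1, h2⟩ ⟨_, h3, h4⟩ => ⟨_, R.add h1 h3, R'.add h2 h4⟩
  mul := fun ⟨_, h1, h2⟩ ⟨_, h3, h4⟩ => ⟨_, R.mul h1 h3, R'.mul h2 h4⟩
  inv := fun ⟨_, h1, h2⟩ h0 => ⟨_, R.inv h1 (ne_zero h2 h0), R'.inv h2 h0⟩
  func := fun ⟨_, h1, h2⟩ => R'.func (R.func h1 ▸ h2)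

/-- The reduction at a place. -/
def ofPl (O : Pl M) : Rel M O.res where
  r a a' := a ∈ O.O ∧ O.rd a = a'
  const c := ⟨O.const c, O.rd_const c⟩
  add h h' := ⟨add_mem h.1 h'.1, by rw [O.rd_add h.1 h'.1, h.2, h'.2]⟩
  mul h h' := ⟨mul_mem h.1 h'.1, by rw [O.rd_mul h.1 h'.1, h.2, h'.2]⟩
  inv h h0 := ⟨((O.rd_ne_zero_iff h.1).1 (h.2 ▸ h0)).2, by rw [O.rd_inv h.1 (h.2 ▸ h0), h.2]⟩
  func h := by rw [← h.2, O.rd_zero]

end Rel

end Pool.Agent.Lib.MP_557161_ag.HG
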