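import Pool.Agent.Lib.MP_557161_ag.HG.Rel

/-!
Affine spaces with structured coordinates, locally closed subsets and regular maps.
-/

namespace Pool.Agent.Lib.MP_557161_ag.HG

open Pool.Agent.Lib.MP_557161_ag.DL

/-- A type of tuples with finitely many coordinates. -/
structure Cd where
  X : Type → Type
  ι : Type
  fin : Finite ι
  co : ∀ {L : Type}, X L → ι → L
  mk' : ∀ {L : Type}, (ι → L) → X L
  co_mk : ∀ {L : Type} (z : ι → L), co (mk' z) = z
  inj : ∀ {L : Type} {x x' : X L}, co x = co x' → x = x'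
  lift : ∀ {L L' : Type}, (L → L' → Prop) → X L → X L' → Prop
  lift_iff : ∀ {L L' : Type} (r : L → L' → Prop) (x : X L) (x' : X L'),
    lift r x x' ↔ ∀ i, r (co x i) (co x' i)
  map : ∀ {L L' : Type}, (L → L') → X L → X L'
  co_map : ∀ {L L' : Type} (f : L → L') (x : X L) (i : ι), co (map f x) i = f (co x i)

attribute [instance] Cd.fin

namespace Cd

/-- One coordinate. -/
abbrev one : Cd where
  X L := L
  ι := Unit
  fin := inferInstance
  co x _ := x
  mk' z := z ()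
  co_mk _ := rfl
  inj h := congrFun h ()
  lift r x x' := r x x'
  lift_iff _ _ _ := ⟨fun h _ => h, fun h => h ()⟩
  map f x := f x
  co_map _ _ _ := rfl

/-- Vectors. -/
abbrev vec (κ : Type) [Finite κ] : Cd where
  X L := κ → L
  ι := κ
  fin := inferInstance
  co x := x
  mk' z := z
  co_mk _ := rfl
  inj h := h
  lift r x x' := ∀ i, r (x i) (x' i)
  lift_iff _ _ _ := Iff.rfl
  map f x i := f (x i)
  co_map _ _ _ := rfl

/-- Matrices. -/
abbrev mat (m n : Type) [Finite m] [Finite n] : Cd where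
  X L := Matrix m n L
  ι := m × n
  fin := inferInstance
  co x i := x i.1 i.2
  mk' z := Matrix.of fun i j => z (i, j)
  co_mk _ := rfl
  inj h := Matrix.ext fun i j => congrFun h (i, j)
  lift r x x' := ∀ i j, r (x i j) (x' i j)
  lift_iff _ _ _ := ⟨fun h i => h i.1 i.2, fun h i j => h (i, j)⟩
  map f x := x.map f
  co_map _ _ _ := rfl

/-- Pairs. -/
abbrev prod (c d : Cd) : Cd where
  X L := c.X L × d.X L
  ι := c.ι ⊕ d.ι
  fin := inferInstance
  co x := Sum.elim (c.co x.1) (d.co x.2)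
  mk' z := (c.mk' (z ∘ Sum.inl), d.mk' (z ∘ Sum.inr))
  co_mk z := by rw [c.co_mk, d.co_mk, Sum.elim_comp_inl_inr]
  inj h := Prod.ext (c.inj (congrArg (· ∘ Sum.inl) h)) (d.inj (congrArg (· ∘ Sum.inr) h))
  lift r x x' := c.lift r x.1 x'.1 ∧ d.lift r x.2 x'.2
  lift_iff r x x' := by rw [c.lift_iff, d.lift_iff, Sum.forall]; rfl
  map f x := (c.map f x.1, d.map f x.2)
  co_map f x i := by
    cases i
    exacts [c.co_map _ _ _, d.co_map _ _ _]

/-- Families. -/
abbrev pi (κ : Type) [Finite κ] (c : Cd) : Cd where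
  X L := κ → c.X L
  ι := κ × c.ι
  fin := inferInstance
  co x i := c.co (x i.1) i.2
  mk' z a := c.mk' fun i => z (a, i)
  co_mk z := funext fun i => by rw [c.co_mk]
  inj h := funext fun a => c.inj (funext fun i => congrFun h (a, i))
  lift r x x' := ∀ a, c.lift r (x a) (x' a)
  lift_iff r x x' := by simp only [c.lift_iff, Prod.forall]
  map f x a := c.map f (x a)
  co_map f x i := c.co_map _ _ _

variable (c : Cd) {K : Type} [Field K]

/-- All coordinates have the property `q`. -/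
def all {L : Type} (q : L → Prop) (x : c.X L) : Prop := c.lift (fun a _ => q a) x x

lemma all_iff {L : Type} (q : L → Prop) (x : c.X L) : c.all q x ↔ ∀ i, q (c.co x i) :=
  c.lift_iff _ _ _

lemma map_id {L : Type} (x : c.X L) : c.map (fun a => a) x = x :=
  c.inj (funext fun _ => c.co_map _ _ _)

lemma map_map {L L' L'' : Type} (f : L → L') (g : L' → L'') (x : c.X L) :
    c.map g (c.map f x) = c.map (fun a => g (f a)) x :=
  c.inj (funext fun _ => by simp only [c.co_map])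

lemma map_congr {L L' : Type} {f g : L → L'} {x : c.X L} (h : ∀ i, f (c.co x i) = g (c.co x i)) :
    c.map f x = c.map g x := c.inj (funext fun _ => by simp only [c.co_map, h])

lemma map_inj {L L' : Type} {f : L → L'} (h : Function.Injective f) :
    Function.Injective (c.map f) := fun x y e =>
  c.inj (funext fun i => h (by rw [← c.co_map f x, e, c.co_map]))

variable {c}

lemma lift_mono {L L' : Type} {r r' : L → L' → Prop} (h : ∀ a b, r a b → r' a b) {x : c.X L}
    {x' : c.X L'} (e : c.lift r x x') : c.lift r' x x' :=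
  (c.lift_iff _ _ _).2 fun i => h _ _ ((c.lift_iff _ _ _).1 e i)

variable {M L N : Fld K}

lemma lift_hom (ι : M →ₐ[K] L) {x : c.X M} {x' : c.X L} :
    c.lift (Rel.ofHom ι).r x x' ↔ c.map ι x = x' := by
  rw [c.lift_iff]
  exact ⟨fun h => c.inj (funext fun i => (c.co_map _ _ _).trans (h i)),
    fun h i => by rw [← h, c.co_map]; rfl⟩

lemma lift_pl (O : Pl M) {x : c.X M} {x' : c.X O.res} :
    c.lift (Rel.ofPl O).r x x' ↔ c.all (· ∈ O.O) x ∧ c.map O.rd x = x' := by
  rw [c.lift_iff, c.all_iff]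
  exact ⟨fun h => ⟨fun i => (h i).1, c.inj (funext fun i => (c.co_map _ _ _).trans (h i).2)⟩,
    fun h i => ⟨h.1 i, by rw [← h.2, c.co_map]⟩⟩

lemma lift_sub (F : IntermediateField K L) {x x' : c.X L} :
    c.lift (Rel.ofSub F).r x x' ↔ c.all (· ∈ F) x ∧ x = x' := by
  rw [c.lift_iff, c.all_iff]
  exact ⟨fun h => ⟨fun i => (h i).1, c.inj (funext fun i => (h i).2)⟩,
    fun h i => ⟨h.1 i, by rw [← h.2]⟩⟩

lemma lift_symm {R : Rel M L} (h : ∀ a, R.r a 0 → a = 0) {x : c.X M} {x' : c.X L}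
    (e : c.lift R.r x x') : c.lift (R.symm h).r x' x :=
  (c.lift_iff _ _ _).2 fun i => (c.lift_iff R.r x x').1 e i

lemma lift_comp {R : Rel M L} {R' : Rel L N} {x : c.X M} {x' : c.X L} {x'' : c.X N}
    (e : c.lift R.r x x') (e' : c.lift R'.r x' x'') : c.lift (R.comp R').r x x'' :=
  (c.lift_iff _ _ _).2 fun i => ⟨_, (c.lift_iff _ _ _).1 e i, (c.lift_iff _ _ _).1 e' i⟩

lemma lift_eq {R : Rel M L} {x y : c.X M} {x' y' : c.X L} (e : c.lift R.r x x')
    (e' : c.lift R.r y y') (h : x = y) : x' = y' :=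
  c.inj (funext fun i => Rel.eq ((c.lift_iff _ _ _).1 e i) ((c.lift_iff _ _ _).1 e' i) (by rw [h]))

/-- Constant points are related. -/
lemma lift_const (R : Rel M L) (x : c.X K) :
    c.lift R.r (c.map (algebraMap K M) x) (c.map (algebraMap K L) x) :=
  (c.lift_iff _ _ _).2 fun i => by rw [c.co_map, c.co_map]; exact R.const _

lemma lift_triv {α : L →ₐ[K] M} {O : Pl M} (h : Pl.Triv α O) (x : c.X L) :
    c.lift (Rel.ofPl O).r (c.map α x) (c.map h.hom x) :=
  (c.lift_iff _ _ _).2 fun i => by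
    rw [c.co_map, c.co_map]; exact ⟨h _, (h.hom_apply _).symm⟩

lemma lift_over {α : L →ₐ[K] M} {O : Pl L} {O' : Pl M} (h : Pl.Over α O O') {x : c.X L}
    {x' : c.X O.res} (e : c.lift (Rel.ofPl O).r x x') :
    c.lift (Rel.ofPl O').r (c.map α x) (c.map h.resHom x') :=
  (c.lift_iff _ _ _).2 fun i => by
    have := (c.lift_iff _ _ _).1 e i
    rw [c.co_map, c.co_map]
    exact ⟨(h _).1 this.1, by rw [← this.2, h.resHom_rd]⟩

lemma all_over {α : L →ₐ[K] M} {O : Pl L} {O' : Pl M} (h : Pl.Over α O O') {x : c.X L} :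
    c.all (· ∈ O'.O) (c.map α x) ↔ c.all (· ∈ O.O) x := by
  simp only [c.all_iff, c.co_map]
  exact forall_congr' fun i => (h _).symm

variable (c K)

open Classical in
/-- The affine space of `c` with a point at infinity. -/
noncomputable def amb : Amb K where
  pt L := Option (c.X L)
  map κ y := y.map (c.map κ)
  map_id y := by
    cases y with
    | none => rfl
    | some x => exact congrArg some (c.map_id x)
  map_comp ι κ y := by
    cases y with
    | none => rfl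
    | some x => exact congrArg some (c.map_map ι κ x).symm
  inj κ := Option.map_injective (c.map_inj κ.injective)
  red O y := y.bind fun x => if c.all (· ∈ O.O) x then some (c.map O.rd x) else none
  red_map {M M' ι O O'} h y := by
    cases y with
    | none => rfl
    | some x =>
      simp only [Option.map_some, Option.bind_some]
      by_cases hx : c.all (· ∈ O.O) x
      · rw [if_pos hx, if_pos ((all_over h).2 hx), Option.map_some, c.map_map, c.map_map]
        simp only [h.resHom_rd]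
      · rw [if_neg hx, if_neg fun h' => hx ((all_over h).1 h')]; rfl
  red_triv {L M ι O} h y := by
    cases y with
    | none => rfl
    | some x =>
      have := (lift_pl O).1 (lift_triv h x)
      simp only [Option.map_some, Option.bind_some]
      rw [if_pos this.1, this.2]
  fg y := by
    cases y with
    | none => exact ⟨∅, fun _ _ _ => ⟨none, rfl⟩⟩
    | some x =>
      refine ⟨(Set.finite_range (c.co x)).toFinset, fun L₀ κ h => ?_⟩
      choose z hz using fun i => h (c.co x i) (by simp)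
      exact ⟨some (c.mk' z), congrArg some (c.inj (funext fun i => by rw [c.co_map, c.co_mk, hz]))⟩

variable {c K}

lemma red_some {O : Pl M} {x : c.X M} {x' : c.X O.res} (h : c.lift (Rel.ofPl O).r x x') :
    (c.amb K).red O (some x) = some x' := by
  obtain ⟨h1, h2⟩ := (lift_pl O).1 h
  exact (if_pos h1).trans (congrArg some h2)

lemma lift_of_red {O : Pl M} {x : c.X M} {x' : c.X O.res}
    (h : (c.amb K).red O (some x) = some x') : c.lift (Rel.ofPl O).r x x' := by
  by_cases hx : c.all (· ∈ O.O) x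
  · exact (lift_pl O).2 ⟨hx, Option.some.inj ((if_pos hx).symm.trans h)⟩
  · exact absurd ((if_neg hx).symm.trans h) (by simp)

end Cd

variable {K : Type} [Field K] {c d c' : Cd}

/-- A locally closed set: it is closed under specialisation inside an open set. -/
structure ASp (K : Type) [Field K] (c : Cd) where
  mem : ∀ L : Fld K, c.X L → Prop
  lc : ∃ op : ∀ L : Fld K, c.X L → Prop, (∀ L x, mem L x → op L x) ∧
    ∀ (M L : Fld K) (R : Rel M L) (x : c.X M) (x' : c.X L), c.lift R.r x x' → op L x' →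
      op M x ∧ (mem M x → mem L x')

/-- Regular maps. -/
def Reg (S : ASp K c) (d : Cd) (f : ∀ L : Fld K, c.X L → d.X L) : Prop :=
  ∀ ⦃M L : Fld K⦄ (R : Rel M L) ⦃x : c.X M⦄ ⦃x' : c.X L⦄, S.mem M x → S.mem L x' →
    c.lift R.r x x' → d.lift R.r (f M x) (f L x')

namespace ASp

variable (S : ASp K c) {M L N : Fld K}

lemma iff_of_inj {R : Rel M L} (h : ∀ a, R.r a 0 → a = 0) {x : c.X M} {x' : c.X L}
    (e : c.lift R.r x x') : S.mem M x ↔ S.mem L x' := by
  obtain ⟨op, h1, h2⟩ := S.lc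
  have e' := Cd.lift_symm h e
  exact ⟨fun m => (h2 _ _ _ _ _ e (h2 _ _ _ _ _ e' (h1 _ _ m)).1).2 m,
    fun m => (h2 _ _ _ _ _ e' (h2 _ _ _ _ _ e (h1 _ _ m)).1).2 m⟩

lemma map_iff (ι : M →ₐ[K] L) (x : c.X M) : S.mem L (c.map ι x) ↔ S.mem M x :=
  (S.iff_of_inj (R := Rel.ofHom ι) (fun _ h => (map_eq_zero ι).1 h) ((Cd.lift_hom ι).2 rfl)).symm

lemma mid {R : Rel M L} {R' : Rel L N} {x : c.X M} {x' : c.X L} {x'' : c.X N}
    (e : c.lift R.r x x') (e' : c.lift R'.r x' x'') (h : S.mem M x) (h' : S.mem N x'') :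
    S.mem L x' := by
  obtain ⟨op, h1, h2⟩ := S.lc
  exact (h2 _ _ _ _ _ e (h2 _ _ _ _ _ e' (h1 _ _ h')).1).2 h

/-- The space of points. -/
def sp : Sp (c.amb K) where
  mem {L} y := ∃ x, y = some x ∧ S.mem L x
  map_iff κ y := by
    cases y with
    | none => exact ⟨fun ⟨_, e, _⟩ => (nomatch e), fun ⟨_, e, _⟩ => nomatch e⟩
    | some x =>
      exact ⟨fun ⟨_, e, h⟩ => ⟨x, rfl, (S.map_iff κ x).1 (Option.some.inj e ▸ h)⟩,
        fun ⟨_, e, h⟩ => ⟨_, rfl, (S.map_iff κ x).2 (Option.some.inj e ▸ h)⟩⟩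

lemma sp_some {x : c.X L} : S.sp.mem (L := L) (some x) ↔ S.mem L x :=
  ⟨fun ⟨_, e, h⟩ => Option.some.inj e ▸ h, fun h => ⟨x, rfl, h⟩⟩

/-- The whole space. -/
def univ (K : Type) [Field K] (c : Cd) : ASp K c :=
  ⟨fun _ _ => True, fun _ _ => True, fun _ _ _ => trivial, fun _ _ _ _ _ _ _ => ⟨trivial, id⟩⟩

/-- A closed subset. -/
def cl (q : ∀ L : Fld K, c.X L → Prop)
    (h : ∀ ⦃M L : Fld K⦄ (R : Rel M L) ⦃x : c.X M⦄ ⦃x' : c.X L⦄, S.mem M x → S.mem L x' →
      c.lift R.r x x' → q M x → q L x') : ASp K c where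
  mem L x := S.mem L x ∧ q L x
  lc := by
    obtain ⟨op, h1, h2⟩ := S.lc
    exact ⟨op, fun L x m => h1 L x m.1, fun M L R x x' e o => ⟨(h2 _ _ R x x' e o).1, fun m =>
      have := (h2 _ _ R x x' e o).2 m.1
      ⟨this, h R m.1 this e m.2⟩⟩⟩

/-- An open subset. -/
def opn (q : ∀ L : Fld K, c.X L → Prop)
    (h : ∀ ⦃M L : Fld K⦄ (R : Rel M L) ⦃x : c.X M⦄ ⦃x' : c.X L⦄, S.mem M x → S.mem L x' →
      c.lift R.r x x' → q L x' → q M x) : ASp K c where
  mem L x := S.mem L x ∧ q L x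
  lc := by
    obtain ⟨op, h1, h2⟩ := S.lc
    exact ⟨fun L x => op L x ∧ (S.mem L x → q L x), fun L x m => ⟨h1 L x m.1, fun _ => m.2⟩,
      fun M L R x x' e o => ⟨⟨(h2 _ _ R x x' e o.1).1, fun m =>
        have := (h2 _ _ R x x' e o.1).2 m
        h R m this e (o.2 this)⟩, fun m =>
        have := (h2 _ _ R x x' e o.1).2 m.1
        ⟨this, o.2 this⟩⟩⟩

/-- The preimage under a regular map. -/
def comap (T : ASp K d) (f : ∀ L : Fld K, c.X L → d.X L) (hf : Reg S d f) : ASp K c where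
  mem L x := S.mem L x ∧ T.mem L (f L x)
  lc := by
    obtain ⟨op, h1, h2⟩ := S.lc
    obtain ⟨op', h3, h4⟩ := T.lc
    exact ⟨fun L x => op L x ∧ (S.mem L x → op' L (f L x)),
      fun L x m => ⟨h1 L x m.1, fun _ => h3 _ _ m.2⟩,
      fun M L R x x' e o => ⟨⟨(h2 _ _ R x x' e o.1).1, fun m =>
        have := (h2 _ _ R x x' e o.1).2 m
        (h4 _ _ R _ _ (hf R m this e) (o.2 this)).1⟩, fun m =>
        have := (h2 _ _ R x x' e o.1).2 m.1
        ⟨this, (h4 _ _ R _ _ (hf R m.1 this e) (o.2 this)).2 m.2⟩⟩⟩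

/-- The product. -/
def prod (T : ASp K d) : ASp K (c.prod d) where
  mem L x := S.mem L x.1 ∧ T.mem L x.2
  lc := by
    obtain ⟨op, h1, h2⟩ := S.lc
    obtain ⟨op', h3, h4⟩ := T.lc
    exact ⟨fun L x => op L x.1 ∧ op' L x.2, fun L x m => ⟨h1 _ _ m.1, h3 _ _ m.2⟩,
      fun M L R x x' e o => ⟨⟨(h2 _ _ R _ _ e.1 o.1).1, (h4 _ _ R _ _ e.2 o.2).1⟩,
        fun m => ⟨(h2 _ _ R _ _ e.1 o.1).2 m.1, (h4 _ _ R _ _ e.2 o.2).2 m.2⟩⟩⟩

/-- The power. -/
def pi (κ : Type) [Finite κ] : ASp K (Cd.pi κ c) where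
  mem L x := ∀ a, S.mem L (x a)
  lc := by
    obtain ⟨op, h1, h2⟩ := S.lc
    exact ⟨fun L x => ∀ a, op L (x a), fun L x m a => h1 _ _ (m a),
      fun M L R x x' e o => ⟨fun a => (h2 _ _ R _ _ (e a) (o a)).1,
        fun m a => (h2 _ _ R _ _ (e a) (o a)).2 (m a)⟩⟩

/-- The same set given by an equivalent predicate. -/
def copy (q : ∀ L : Fld K, c.X L → Prop) (h : ∀ L x, q L x ↔ S.mem L x) : ASp K c where
  mem := q
  lc := by
    obtain ⟨op, h1, h2⟩ := S.lc
    exact ⟨op, fun L x m => h1 _ _ ((h _ _).1 m), fun M L R x x' e o =>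
      ⟨(h2 _ _ R _ _ e o).1, fun m => (h _ _).2 ((h2 _ _ R _ _ e o).2 ((h _ _).1 m))⟩⟩

/-- The multiplicative group. -/
def gm (K : Type) [Field K] : ASp K .one :=
  ⟨fun _ x => x ≠ 0, fun _ x => x ≠ 0, fun _ _ h => h,
    fun _ _ _ _ _ e o => ⟨Rel.ne_zero e o, fun _ => o⟩⟩

end ASp

namespace Reg

variable {S : ASp K c} {f : ∀ L : Fld K, c.X L → d.X L} {M L : Fld K}

lemma nat (h : Reg S d f) (ι : M →ₐ[K] L) {x : c.X M} (hx : S.mem M x) :
    f L (c.map ι x) = d.map ι (f M x) :=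
  ((Cd.lift_hom ι).1 (h _ hx ((S.map_iff ι x).2 hx) ((Cd.lift_hom ι).2 rfl))).symm

lemma all_sub (h : Reg S d f) (F : IntermediateField K L) {x : c.X L} (hx : S.mem L x)
    (e : c.all (· ∈ F) x) : d.all (· ∈ F) (f L x) :=
  ((Cd.lift_sub F).1 (h _ hx hx ((Cd.lift_sub F).2 ⟨e, rfl⟩))).1

lemma mono (h : Reg S d f) {S' : ASp K c} (e : ∀ L x, S'.mem L x → S.mem L x) : Reg S' d f :=
  fun _ _ R _ _ m m' => h R (e _ _ m) (e _ _ m')

lemma id (S : ASp K c) : Reg S c fun _ x => x := fun _ _ _ _ _ _ _ e => e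

end Reg

/-- Regular maps from `S` to `T`. -/
structure Mp (S : ASp K c) (T : ASp K d) (f : ∀ L : Fld K, c.X L → d.X L) : Prop where
  reg : Reg S d f
  mem : ∀ L x, S.mem L x → T.mem L (f L x)

/-- The valuative criterion of properness. -/
def Pro (S : ASp K c) (T : ASp K d) (f : ∀ L : Fld K, c.X L → d.X L) : Prop :=
  ∀ (M : Fld K) (O : Pl M) (x : c.X M) (z : d.X O.res), O.IsDVR → S.mem M x → T.mem O.res z →
    d.lift (Rel.ofPl O).r (f M x) z → ∃ x', S.mem O.res x' ∧ c.lift (Rel.ofPl O).r x x'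

/-- Surjectivity on geometric points. -/
def Srj (S : ASp K c) (T : ASp K d) (f : ∀ L : Fld K, c.X L → d.X L) : Prop :=
  ∀ (L : Fld K) [IsAlgClosed L] (z : d.X L), T.mem L z → ∃ x, S.mem L x ∧ f L x = z

/-- Isomorphisms. -/
structure Iso (S : ASp K c) (T : ASp K d) (f : ∀ L : Fld K, c.X L → d.X L)
    (g : ∀ L : Fld K, d.X L → c.X L) : Prop where
  mf : Mp S T f
  mg : Mp T S g
  gf : ∀ L x, S.mem L x → g L (f L x) = x
  fg : ∀ L z, T.mem L z → f L (g L z) = z

section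
variable {S : ASp K c} {T : ASp K d} {V : ASp K c'} {f : ∀ L : Fld K, c.X L → d.X L}
  {g : ∀ L : Fld K, d.X L → c.X L}

lemma Mp.comp {f' : ∀ L : Fld K, d.X L → c'.X L} (h' : Mp T V f') (h : Mp S T f) :
    Mp S V fun L x => f' L (f L x) :=
  ⟨fun _ _ R _ _ m m' e => h'.reg R (h.mem _ _ m) (h.mem _ _ m') (h.reg R m m' e),
    fun _ _ m => h'.mem _ _ (h.mem _ _ m)⟩

lemma Reg.comp {f' : ∀ L : Fld K, d.X L → c'.X L} (h' : Reg T c' f') (h : Mp S T f) :
    Reg S c' fun L x => f' L (f L x) :=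
  fun _ _ R _ _ m m' e => h' R (h.mem _ _ m) (h.mem _ _ m') (h.reg R m m' e)

/-- A map with a regular left inverse on the target is proper. -/
lemma Pro.of_left (hg : Mp T S g) (hf : Mp S T f) (e : ∀ L x, S.mem L x → g L (f L x) = x) :
    Pro S T f := fun M O x z _ hx hz h =>
  ⟨g _ z, hg.mem _ _ hz, e M x hx ▸ hg.reg _ (hf.mem _ _ hx) hz h⟩

lemma Iso.pro (h : Iso S T f g) : Pro S T f := Pro.of_left h.mg h.mf h.gf

lemma Iso.srj (h : Iso S T f g) : Srj S T f := fun L _ z hz => ⟨_, h.mg.mem L z hz, h.fg L z hz⟩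

lemma Iso.symm (h : Iso S T f g) : Iso T S g f := ⟨h.mg, h.mf, h.fg, h.gf⟩

/-- The morphism of spaces. -/
def Mp.mor (h : Mp S T f) : Mor S.sp T.sp where
  f {L} y := y.map (f L)
  mem := by
    rintro L _ ⟨x, rfl, hx⟩
    exact ⟨_, rfl, h.mem L x hx⟩
  nat := by
    rintro L L' ι _ ⟨x, rfl, hx⟩
    exact congrArg some (h.reg.nat ι hx)
  cont := by
    rintro M O _ _ ⟨x, rfl, hx⟩ ⟨x', e, hx'⟩
    rw [e]
    exact (Cd.red_some (h.reg _ hx hx' (Cd.lift_of_red e))).symm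

lemma Pro.mor (h : Mp S T f) (hp : Pro S T f) : h.mor.Proper := by
  rintro M O _ hO ⟨x, rfl, hx⟩ ⟨z, e, hz⟩
  obtain ⟨x', h1, h2⟩ := hp M O x z hO hx hz (Cd.lift_of_red e)
  exact ⟨x', Cd.red_some h2, h1⟩

lemma Srj.mor (h : Mp S T f) (hs : Srj S T f) : h.mor.Surj := by
  rintro L _ _ ⟨z, rfl, hz⟩
  obtain ⟨x, h1, rfl⟩ := hs L z hz
  exact ⟨some x, ⟨x, rfl, h1⟩, rfl⟩

end

end Pool.Agent.Lib.MP_557161_ag.HG
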