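import Pool.Agent.Lib.MP_557161_ag.HG.FeC

/-!
Statements of the general tools. Every class is a list of statements that is proved in its own file.
-/

namespace Pool.Agent.Lib.MP_557161_ag.HG

open Pool.Agent.Lib.MP_557161_ag.DL

/-- The projective line. -/
def P1 (K : Type) [Field K] : Sp (Cd.one.amb K) := ⟨fun _ => True, fun _ _ => Iff.rfl⟩

section
variable {K : Type} [Field K] {c : Cd}

/-- The deformation of the phase. -/
def Ph.dfm (E : Ph K c) (ψ : ∀ L : Fld K, c.X L → L) (hψ : Reg E.S .one ψ) :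
    Ph K (c.prod .one) where
  S := E.S.prod (.gm K)
  φ L x := E.φ L x.1 + x.2 * ψ L x.1
  reg _ _ R _ _ m m' e := R.add (E.reg R m.1 m'.1 e.1) (R.mul e.2 (hψ R m.1 m'.1 e.1))

/-- The deformation of the phase. -/
def EqD.dfm (E : EqD K c) (ψ : ∀ L : Fld K, c.X L → L) (hψ : Reg E.S .one ψ) :
    EqD K (c.prod .one) :=
  ⟨E.toPh.dfm ψ hψ, fun L x => E.g L x.1, fun _ _ R _ _ m m' e => E.rg R m.1 m'.1 e.1,
    fun L x m => E.ne L x.1 m.1⟩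

/-- `S'` is open in `S`. -/
def AOpn (S' S : ASp K c) : Prop :=
  ∀ (M : Fld K) (O : Pl M) (x : c.X M) (x' : c.X O.res), S.mem M x → S'.mem O.res x' →
    c.lift (Rel.ofPl O).r x x' → S'.mem M x

end

/-- Purely transcendental extensions. -/
class FA1 (K : Type) [Field K] : Prop where
  fr_free : ∀ {j : ℕ} {L : Fld K} (κ : Type) [Finite κ], Good j L → Free j (frα L κ) (frT L κ)
  lift : ∀ {j j' : ℕ} {L M L' M' : Fld K} {α : L →ₐ[K] M} {α' : L' →ₐ[K] M'} {κ : Type} [Finite κ]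
    {T : κ → M} {T' : κ → M'}, Free j α T → Free j' α' T' → ∀ ι : L →ₐ[K] L',
    ∃ ρ : M →ₐ[K] M', ρ.comp α = α'.comp ι ∧ (∀ i, ρ (T i) = T' i) ∧ (j = j' → deg ρ = deg ι)
  of_gen : ∀ {j : ℕ} {L M : Fld K} {α : L →ₐ[K] M} {κ κ' : Type} [Finite κ] [Finite κ']
    {T : κ → M} {T' : κ' → M}, Free j α T → Nat.card κ' = Nat.card κ → (∀ i, T i ∈ gen α T') →
    Free j α T'
  comp : ∀ {j : ℕ} {L M N : Fld K} {α : L →ₐ[K] M} {β : M →ₐ[K] N} {κ κ' : Type} [Finite κ]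
    [Finite κ'] {T : κ → M} {U : κ' → N}, Free j α T → Free (j + Nat.card κ) β U →
    Free j (β.comp α) (Sum.elim (fun i => β (T i)) U)
  split : ∀ {j : ℕ} {L M : Fld K} {α : L →ₐ[K] M} {κ : Type} [Finite κ] {T : κ → M},
    Free j α T → ∀ q : κ → Prop, ∃ (M₁ : Fld K) (α₁ : L →ₐ[K] M₁) (β : M₁ →ₐ[K] M)
      (T₁ : {i // q i} → M₁), β.comp α₁ = α ∧ (∀ i, β (T₁ i) = T i) ∧ Free j α₁ T₁ ∧
      Free (j + Nat.card {i // q i}) β fun i : {i // ¬ q i} => T i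
  one : ∀ {j : ℕ} {L M : Fld K} {α : L →ₐ[K] M} {κ : Type} [Unique κ] {T : κ → M},
    Free j α T ↔ Good j L ∧ Trans' α (T default) ∧ Gen α (T default)
  zero : ∀ {j : ℕ} {L M : Fld K} {α : L →ₐ[K] M} {κ : Type} [IsEmpty κ] {T : κ → M},
    Free j α T ↔ Good j L ∧ Function.Surjective α
  ne : ∀ {j : ℕ} {L M : Fld K} {α : L →ₐ[K] M} {κ : Type} [Finite κ] {T : κ → M}, Free j α T →
    ∀ P : MvPolynomial κ L, P ≠ 0 → MvPolynomial.eval₂ α.toRingHom T P ≠ 0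
  trans : ∀ {j : ℕ} {L M : Fld K} {α : L →ₐ[K] M} {κ : Type} [Finite κ] {T : κ → M}, Free j α T →
    ∀ i, Trans' α (T i)
  tr_gen : ∀ {L M : Fld K} (α : L →ₐ[K] M) {κ : Type} [Finite κ] (T : κ → M),
    (M.sub (gen α T)).tr ≤ L.tr + Nat.card κ
  tr_mono : ∀ {M : Fld K} (F F' : IntermediateField K M), (∀ x ∈ F', IsAlgebraic F x) →
    (M.sub F').tr ≤ (M.sub F).tr
  sub : ∀ {j : ℕ} {L M : Fld K} (α : L →ₐ[K] M) {κ : Type} [Finite κ] (T : κ → M), Good j L →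
    (M.sub (gen α T)).tr = (j + Nat.card κ : ℕ) → ∃ (M₁ : Fld K) (α₁ : L →ₐ[K] M₁)
      (β : M₁ →ₐ[K] M) (T₁ : κ → M₁), β.comp α₁ = α ∧ (∀ i, β (T₁ i) = T i) ∧ Free j α₁ T₁

/-- Zero places and Gauss places. -/
class FA2 (K : Type) [Field K] : Prop where
  res_lt : ∀ {m : ℕ} {L M : Fld K} {α : L →ₐ[K] M} {O : Pl M}, ¬ Pl.Triv α O → L.tr ≤ (m + 1 : ℕ) →
    (Pl.comap α O).res.tr ≤ m
  res_le : ∀ {m : ℕ} {L M : Fld K} (α : L →ₐ[K] M) (O : Pl M), L.tr ≤ m →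
    (Pl.comap α O).res.tr ≤ m
  zero : ∀ {i j : ℕ} {L M : Fld K} {α : L →ₐ[K] M} {κ : Type} [Finite κ] {T : κ → M},
    Free j α T → j + Nat.card κ = i + 1 → ∀ s : κ, ∃ (O : Dv M i) (h : Pl.Triv α O.1),
      (∀ a, T a ∈ O.1.O) ∧ O.1.ord (T s) = 1 ∧ O.1.rd (T s) = 0 ∧
      Free j h.hom (fun a : {a // a ≠ s} => O.1.rd (T a)) ∧
      ∀ O' : Dv M i, O' ≠ O → (∀ a, T a ∈ O'.1.O) → O'.1.rd (T s) = 0 → ∃ m, m < i ∧
        (O'.1.res.sub (gen (Pl.over_comap α O'.1).resHom fun a => O'.1.rd (T a))).tr ≤ m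
  gauss : ∀ {j : ℕ} {L M : Fld K} {α : L →ₐ[K] M} {κ : Type} [Finite κ] {T : κ → M},
    Free (j + 1) α T → ∀ O : Dv L j, ∃ (O' : Dv M (j + Nat.card κ)) (h : Pl.Over α O.1 O'.1),
      (∀ a, T a ∈ O'.1.O) ∧ (∀ f, O'.1.ord (α f) = O.1.ord f) ∧
      Free j h.resHom (fun a => O'.1.rd (T a)) ∧
      ∀ (O'' : Dv M (j + Nat.card κ)) (h' : Pl.Over α O.1 O''.1), O'' ≠ O' → (∀ a, T a ∈ O''.1.O) →
        ∃ m, m < j + Nat.card κ ∧ (O''.1.res.sub (gen h'.resHom fun a => O''.1.rd (T a))).tr ≤ m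
  comap_dv : ∀ {j k : ℕ} {L M : Fld K} {α : L →ₐ[K] M} {O : Pl M}, Good (j + 1) L → O.IsDVR →
    ¬ Pl.Triv α O → ∀ {κ : Type} [Finite κ] (t : κ → O.res), Nat.card κ ≤ k →
    (Pl.comap α O).IsDiv j ∨ ∃ m, m < j + k ∧
      (O.res.sub (gen (Pl.over_comap α O).resHom t)).tr ≤ m

/-- Dimensions of points and generic values. -/
class FA3 (K : Type) [Field K] : Prop where
  dm_iff : ∀ {c : Cd} {L : Fld K} {x : c.X L} {m : ℕ}, c.Dm L x m ↔ Dm (c.amb K) L (some x) m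
  dm_map : ∀ {c : Cd} {L L' : Fld K} (ι : L →ₐ[K] L') {x : c.X L} {m : ℕ},
    c.Dm L' (c.map ι x) m ↔ c.Dm L x m
  dm_tr : ∀ {c : Cd} {L : Fld K} (x : c.X L) {m : ℕ}, L.tr ≤ m → c.Dm L x m
  dm_mono : ∀ {c : Cd} {L : Fld K} {x : c.X L} {m m' : ℕ}, c.Dm L x m → m ≤ m' → c.Dm L x m'
  dm_red : ∀ {c : Cd} {M : Fld K} {O : Pl M} {x : c.X M} {x' : c.X O.res} {m : ℕ},
    c.lift (Rel.ofPl O).r x x' → c.Dm M x m → c.Dm O.res x' m
  dm_red_lt : ∀ {c : Cd} {M : Fld K} {O : Pl M} {x : c.X M} {x' : c.X O.res} {m : ℕ}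
    (F : IntermediateField K M), c.lift (Rel.ofPl O).r x x' → c.all (· ∈ F) x →
    (M.sub F).tr ≤ (m + 1 : ℕ) → (∃ a ∈ F, a ∉ O.O) → c.Dm O.res x' m
  dm_pair : ∀ {c d : Cd} {L : Fld K} {x : c.X L} {w : d.X L} {m m' : ℕ}, c.Dm L x m → d.Dm L w m' →
    (c.prod d).Dm L (x, w) (m + m')
  dm_alg : ∀ {c d : Cd} {L : Fld K} {x : c.X L} {w : d.X L} {m : ℕ}, c.Dm L x m →
    (∀ F : IntermediateField K L, c.all (· ∈ F) x → d.all (IsAlgebraic F) w) → d.Dm L w m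
  dm_vec : ∀ {κ : Type} [Finite κ] {L : Fld K} (T : κ → L), (Cd.vec κ).Dm L T (Nat.card κ)
  dm_reg : ∀ {c d : Cd} {S : ASp K c} {f : ∀ L : Fld K, c.X L → d.X L} {L : Fld K} {x : c.X L}
    {m : ℕ}, Reg S d f → S.mem L x → c.Dm L x m → d.Dm L (f L x) m
  low : ∀ {A : Amb K} {P : Sp A} {j m : ℕ} (θ : Pre j P) {L : Fld K} {y : A.pt L}, Dm A L y m →
    m < j → θ.v L y = 0
  low' : ∀ {c : Cd} {P : Sp (c.amb K)} {j m : ℕ} (θ : Pre j P) {L : Fld K} {x : c.X L},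
    c.Dm L x m → m < j → θ.a L x = 0
  v_red : ∀ {c : Cd} {P : Sp (c.amb K)} {j : ℕ} (θ : Pre j P) {M : Fld K} (O : Pl M) (x : c.X M),
    (∀ L : Fld K, ¬ P.mem (L := L) none) → θ.v O.res ((c.amb K).red O (some x)) = rv θ.a O x
  gv_eq : ∀ {c c' : Cd} {κ : Type} [Finite κ] {P : Sp (c'.amb K)} {j : ℕ}
    (θ : Pre (j + Nat.card κ) P) (S : ASp K c) (f : ∀ L : Fld K, c.X L → (κ → L) → c'.X L),
    Reg (S.prod (.univ K (.vec κ))) c' (fun L x => f L x.1 x.2) →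
    ∀ {L M : Fld K} {α : L →ₐ[K] M} {T : κ → M} (x : c.X L), S.mem L x → Free j α T →
      θ.a M (f M (c.map α x) T) = gv θ.a f j L x
  gv_pre : ∀ {c c' : Cd} {κ : Type} [Finite κ] {P : Sp (c'.amb K)} {j : ℕ}
    (θ : Pre (j + Nat.card κ) P) (S : ASp K c) (f : ∀ L : Fld K, c.X L → (κ → L) → c'.X L),
    Reg (S.prod (.univ K (.vec κ))) c' (fun L x => f L x.1 x.2) →
    ∃ θ' : Pre j S.sp, ∀ L x, S.mem L x → θ'.a L x = gv θ.a f j L x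

/-- Finiteness of divisors on affine spaces. -/
class FB0 (K : Type) [Field K] : Prop where
  fins : ∀ c : Cd, FinS (ASp.univ K c).sp

/-- The key lemma on affine spaces. -/
class FB1 (K : Type) [Field K] : Prop where
  key : ∀ c : Cd, Key (ASp.univ K c).sp

/-- Consequences of the existence of an atlas. -/
class FB2 (K : Type) [Field K] : Prop where
  fins : ∀ {A : Amb K} {P : Sp A}, Atl P → FinS P
  key : ∀ {A : Amb K} {P : Sp A}, Atl P → Key P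
  genpt : ∀ {A : Amb K} {P : Sp A}, Atl P → ∀ (M : Fld K) (y : A.pt M), P.mem y →
    ∃ (L : Fld K) (κ : L →ₐ[K] M) (y₀ : A.pt L) (m : ℕ), A.map κ y₀ = y ∧ GenPt A L y₀ ∧ Good m L
  rat : ∀ {A : Amb K} {P : Sp A}, Atl P → ∀ {j : ℕ} (θ : Pre j P),
    (∀ M y f, Good (j + 1) M → P.mem y → GenPt A M y → f ≠ 0 → θ.Rat M y f) →
    ∀ M y f, Good (j + 1) M → P.mem y → f ≠ 0 → θ.Rat M y f

/-- Existence of atlases, orders of vectors. -/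
class FB3 (K : Type) [Field K] : Prop where
  aff : ∀ {c : Cd} (S : ASp K c), Atl S.sp
  prod : ∀ {A B : Amb K} {P : Sp A} {Q : Sp B}, Atl P → Atl Q → Atl (P.prod Q)
  sub : ∀ {A : Amb K} {P Q : Sp A}, Atl P → (∀ (L : Fld K) (y : A.pt L), Q.mem y → P.mem y) →
    LC Q → Atl Q
  lines : ∀ (σ : Type) [Finite σ], Atl (Lines K σ)
  p1 : Atl (P1 K)
  ordv_eq : ∀ {M : Fld K} {O : Pl M} {σ : Type} {x : σ → M} {s : σ}, O.IsDVR → x s ≠ 0 →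
    IntV O ((x s)⁻¹ • x) → ordv O x = O.ord (x s)
  ordv_smul : ∀ {M : Fld K} {O : Pl M} {σ : Type} [Finite σ] {x : σ → M} {a : M}, O.IsDVR → x ≠ 0 →
    a ≠ 0 → ordv O (a • x) = O.ord a + ordv O x
  ordv_prim : ∀ {M : Fld K} {O : Pl M} {σ : Type} {x : σ → M}, O.IsDVR → IntV O x → rdV O x ≠ 0 →
    ordv O x = 0
  exists_prim : ∀ {M : Fld K} (O : Pl M) {σ : Type} [Finite σ] {x : σ → M}, x ≠ 0 →
    ∃ a : M, a ≠ 0 ∧ IntV O (a • x) ∧ rdV O (a • x) ≠ 0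
  red_line : ∀ {M : Fld K} {O : Pl M} {σ : Type} [Finite σ] {x : σ → M}, IntV O x → rdV O x ≠ 0 →
    sred O (Submodule.span M {x}) = Submodule.span O.res {rdV O x}

/-- Intersection with a Cartier divisor. -/
class FB4 (K : Type) [Field K] : Prop where
  sec : ∀ {A : Amb K} {P D : Sp A} (C : Car P D) {L : Fld K} (y : A.pt L), P.mem y →
    ∃ σ : C.ι → L, ∀ (M : Fld K) (α : L →ₐ[K] M), C.Sec (A.map α y) fun i => α (σ i)
  ord_eq : ∀ {A : Amb K} {P D : Sp A} (C : Car P D) {M : Fld K} {O : Pl M} {y : A.pt M}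
    {σ : C.ι → M} {i : C.ι}, O.IsDVR → P.mem y → C.Sec y σ → (C.U i).mem (A.red O y) →
    C.ord O y σ = O.ord (σ i)
  cart : ∀ {A : Amb K} {P D : Sp A}, Atl P → ∀ (C : Car P D) {j : ℕ} (φ : Fe j D),
    ∃ ψ : Fe (j + 1) P, ∀ (M : Fld K) (y : A.pt M) (σ : C.ι → M), Good (j + 1) M → P.mem y →
      C.Sec y σ → HasS (fun O : Dv M j => (C.ord O.1 y σ : ℂ) * φ.v O.1.res (A.red O.1 y)) (ψ.v M y)

/-- Intersection with a divisor given by tautological bundles; connected families. -/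
class FB5 (K : Type) [Field K] : Prop where
  cartL : ∀ {A : Amb K} {P D : Sp A}, Atl P → ∀ (C : LB P D) {j : ℕ} (φ : Fe j D),
    ∃ ψ : Fe (j + 1) P, ∀ (M : Fld K) (y : A.pt M) (x : ∀ a, C.σ a → M) (τ : M), Good (j + 1) M →
      P.mem y → (∀ a, x a ≠ 0 ∧ (C.l a).f y = Submodule.span M {x a}) → τ ≠ 0 →
      (¬ D.mem y → τ = C.s M y x) →
      HasS (fun O : Dv M j => ((O.1.ord τ - ∑ a, C.c a * ordv O.1 (x a) : ℤ) : ℂ) *
        φ.v O.1.res (A.red O.1 y)) (ψ.v M y)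
  conn : ∀ {A : Amb K} {P : Sp A} (Ω : ASp K .one) (γ δ : Mor (Ω.sp.prod P) P),
    (∀ (L : Fld K) (t : L) (y : A.pt L), Ω.mem L t → P.mem y →
      δ.f (L := L) (some t, γ.f (L := L) (some t, y)) = y) →
    (∀ (L : Fld K) (T : L), Transcendental K T → Ω.mem L T) → ∀ a b : K, Ω.mem (.base K) a →
    Ω.mem (.base K) b → ∀ {j : ℕ} (φ : Fe j P) (L : Fld K) (y : A.pt L), P.mem y →
      φ.v L (γ.f (L := L) (some (algebraMap K L a), y)) =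
        φ.v L (γ.f (L := L) (some (algebraMap K L b), y))

/-- Basic operations on functionals on Artin-Schreier covers. -/
class FC1 (K : Type) [Field K] (p : ℕ) : Prop where
  mem : ∀ {c d : Cd} {E : Ph K c} {W : ASp K d} {j : ℕ} (Φ : NF p j E W) {L : Fld K} {x : c.X L}
    {y : L} {w : d.X L}, Φ.b L x y w ≠ 0 →
    Good j L ∧ E.S.mem L x ∧ y ^ p - y = E.φ L x ∧ W.mem L w
  pull : ∀ {c c' d : Cd} {E : Ph K c} {E' : Ph K c'} {W : ASp K d}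
    {f : ∀ L : Fld K, c'.X L → c.X L}, PMp E' E f → Pro E'.S E.S f → ∀ {j : ℕ} (Φ : NF p j E W),
    ∃ Φ' : NF p j E' W, ∀ L x y w, E'.S.mem L x → Φ'.b L x y w = Φ.b L (f L x) y w
  srj : ∀ {c c' c₁ c₂ d : Cd} {S : ASp K c} {S' : ASp K c'} {E₁ : Ph K c₁} {E₂ : Ph K c₂}
    {W : ASp K d} {f : ∀ L : Fld K, c'.X L → c.X L} {γ₁ : ∀ L : Fld K, c.X L → c₁.X L}
    {γ₂ : ∀ L : Fld K, c.X L → c₂.X L}, Mp S' S f → Srj S' S f → Reg S c₁ γ₁ → Reg S c₂ γ₂ →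
    ∀ {j : ℕ} (Φ₁ : NF p j E₁ W) (Φ₂ : NF p j E₂ W) (χ : ℂ),
    (∀ L x y w, S'.mem L x → Φ₁.b L (γ₁ L (f L x)) y w = χ * Φ₂.b L (γ₂ L (f L x)) y w) →
    ∀ L x y w, S.mem L x → Φ₁.b L (γ₁ L x) y w = χ * Φ₂.b L (γ₂ L x) y w
  res : ∀ {c d : Cd} {E E' : Ph K c} {W : ASp K d}, PMp E' E (fun _ x => x) →
    ∀ {j : ℕ} (Φ : NF p j E W), (∀ L x y w, Φ.b L x y w ≠ 0 → E'.S.mem L x) →
    ∃ Φ' : NF p j E' W, ∀ L x y w, Φ'.b L x y w = Φ.b L x y w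
  ext : ∀ {c d : Cd} {E E' : Ph K c} {W : ASp K d}, PMp E' E (fun _ x => x) → AOpn E'.S E.S →
    ∀ {j : ℕ} (Φ' : NF p j E' W), ∃ Φ : NF p j E W, ∀ L x y w, Φ.b L x y w = Φ'.b L x y w
  sum : ∀ {c d : Cd} {E : Ph K c} {W : ASp K d} {j : ℕ} {α : Type} (s : Finset α) (a : α → ℂ)
    (Φ : α → NF p j E W), ∃ Ψ : NF p j E W, ∀ L x y w, Ψ.b L x y w = ∑ i ∈ s, a i * (Φ i).b L x y w
  desc : ∀ {c c' d : Cd} {E : Ph K c} {E' : Ph K c'} {W : ASp K d}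
    {f : ∀ L : Fld K, c'.X L → c.X L}, PMp E' E f → Pro E'.S E.S f → Srj E'.S E.S f →
    ∀ {j : ℕ} (Φ' : NF p j E' W), (∀ L x x' y w, E'.S.mem L x → E'.S.mem L x' → f L x = f L x' →
      Φ'.b L x y w = Φ'.b L x' y w) →
    ∃ Φ : NF p j E W, ∀ L x y w, E'.S.mem L x → Φ.b L (f L x) y w = Φ'.b L x y w
  img : ∀ {c c' d : Cd} {E : Ph K c} {E' : Ph K c'} {W : ASp K d}
    {f : ∀ L : Fld K, c'.X L → c.X L}, PMp E' E f → Pro E'.S E.S f → Srj E'.S E.S f →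
    Van p E' W → Van p E W
  opn : ∀ {c d : Cd} {E E' : Ph K c} {W : ASp K d}, PMp E' E (fun _ x => x) → AOpn E'.S E.S →
    Van p E W → Van p E' W
  pt : ∀ {c d : Cd} {E : Ph K c} {W : ASp K d}, (∀ L x, E.S.mem L x → c.Dm L x 0) → Van p E W

/-- Connected families and homotopy invariance. -/
class FC2 (K : Type) [Field K] (p : ℕ) : Prop where
  conn : ∀ {c d : Cd} {E : Ph K c} {W : ASp K d} (Ω : ASp K .one)
    (γ δ : ∀ L : Fld K, (Cd.one.prod c).X L → c.X L), Mp (Ω.prod E.S) E.S γ →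
    Mp (Ω.prod E.S) E.S δ →
    (∀ (L : Fld K) (t : L) x, Ω.mem L t → E.S.mem L x →
      δ L (t, γ L (t, x)) = x ∧ E.φ L (γ L (t, x)) = E.φ L x) →
    (∀ (L : Fld K) (T : L), Transcendental K T → Ω.mem L T) → ∀ a b : K, Ω.mem (.base K) a →
    Ω.mem (.base K) b → ∀ {j : ℕ} (Φ : NF p j E W) L x y w, E.S.mem L x →
      Φ.b L (γ L (algebraMap K L a, x)) y w = Φ.b L (γ L (algebraMap K L b, x)) y w
  kill : ∀ {c d : Cd} {E : Ph K c} {W : ASp K d} (γ : ∀ L : Fld K, (Cd.one.prod c).X L → c.X L),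
    Mp ((ASp.univ K .one).prod E.S) E.S γ →
    (∀ (L : Fld K) (t : L) x, E.S.mem L x →
      γ L (0, x) = x ∧ γ L (-t, γ L (t, x)) = x ∧ E.φ L (γ L (t, x)) = E.φ L x + t) → Van p E W
  up : ∀ {c : Cd} {κ : Type} [Finite κ] {S : ASp K c} {i : ℕ}
    (Φ : AF i (S.prod (.univ K (.vec κ)))),
    (∀ (j : ℕ) (L M : Fld K) (α : L →ₐ[K] M) (T : κ → M) (x : c.X L), i = j + Nat.card κ →
      Free j α T → S.mem L x → Φ.a M (c.map α x, T) = 0) → ∀ L x, Φ.a L x = 0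
  down : ∀ {c : Cd} {κ : Type} [Finite κ] {S : ASp K c} {j : ℕ}
    (Φ : AF (j + Nat.card κ) (S.prod (.univ K (.vec κ)))), ∃ Ψ : AF j S,
    ∀ (L M : Fld K) (α : L →ₐ[K] M) (T : κ → M) (x : c.X L), Free j α T → S.mem L x →
      Φ.a M (c.map α x, T) = Ψ.a L x

/-- One step of stationary phase. -/
class FC3 (K : Type) [Field K] (p : ℕ) : Prop where
  s5 : ∀ {c d : Cd} {E : Ph K c} {W : ASp K d} (f : ∀ L : Fld K, c.X L → Unit → L)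
    (hf : Reg E.S (.vec Unit) f) {j : ℕ} (Φ : NF p j (E.zer f hf) W),
    ∃ Ψ : NF p (j + 1) (E.lin f hf) W, ∀ (L M : Fld K) (α : L →ₐ[K] M) (T : M) x y w,
      Good j L → Trans' α T → Gen α T → (E.zer f hf).S.mem L x →
      Ψ.b M (c.map α x, fun _ => T) (α y) (d.map α w) = -Φ.b L x y w

/-- Stationary phase. -/
class FC4 (K : Type) [Field K] (p : ℕ) : Prop where
  uniq : ∀ {c d : Cd} {E : Ph K c} {W : ASp K d} {κ : Type} [Fintype κ]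
    (f : ∀ L : Fld K, c.X L → κ → L) (hf : Reg E.S (.vec κ) f) {i : ℕ}
    (Ψ : NF p i (E.lin f hf) W),
    (∀ (j : ℕ) (L M : Fld K) (α : L →ₐ[K] M) (T : κ → M) x y w, i = j + Nat.card κ → Free j α T →
      (E.zer f hf).S.mem L x → Ψ.b M (c.map α x, T) (α y) (d.map α w) = 0) →
    ∀ L x y w, Ψ.b L x y w = 0
  lin : ∀ {c d : Cd} {E : Ph K c} {W : ASp K d} {κ : Type} [Fintype κ]
    (f : ∀ L : Fld K, c.X L → κ → L) (hf : Reg E.S (.vec κ) f),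
    Van p (E.zer f hf) W → Van p (E.lin f hf) W

/-- Stationary phase. -/
class FC5 (K : Type) [Field K] (p : ℕ) : Prop where
  s5 : ∀ {c d : Cd} {E : Ph K c} {W : ASp K d} {κ : Type} [Fintype κ]
    (f : ∀ L : Fld K, c.X L → κ → L) (hf : Reg E.S (.vec κ) f) {j : ℕ}
    (Φ : NF p j (E.zer f hf) W), ∃ Ψ : NF p (j + Nat.card κ) (E.lin f hf) W,
      (∀ (L M : Fld K) (α : L →ₐ[K] M) (T : κ → M) x y w, Free j α T → (E.zer f hf).S.mem L x →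
        Ψ.b M (c.map α x, T) (α y) (d.map α w) = (-1) ^ Nat.card κ * Φ.b L x y w) ∧
      ∀ (γ γ' : ∀ L : Fld K, c.X L → c.X L) (σ : Equiv.Perm κ) (χ : ℂ), Iso E.S E.S γ γ' →
        (∀ L x, E.S.mem L x → E.φ L (γ L x) = E.φ L x ∧ ∀ i, f L (γ L x) i = f L x (σ i)) →
        Φ.Eqv γ χ → Ψ.Eqv (fun L x => (γ L x.1, fun i => x.2 (σ i))) χ
  lin : ∀ {c d : Cd} {E : Ph K c} {W : ASp K d} {κ : Type} [Fintype κ]
    (f : ∀ L : Fld K, c.X L → κ → L) (hf : Reg E.S (.vec κ) f),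
    Van p (E.lin f hf) W → Van p (E.zer f hf) W

open Classical in
/-- Specialisation of the phase, and divisors on Artin-Schreier covers. -/
class FC6 (K : Type) [Field K] (p : ℕ) : Prop where
  spec : ∀ {c d : Cd} {E : Ph K c} {W : ASp K d} (ψ : ∀ L : Fld K, c.X L → L)
    (hψ : Reg E.S .one ψ), Van p (E.dfm ψ hψ) W → ∀ {j : ℕ} (Φ : NF p j E W) L x y w,
    ψ L x = 0 → Φ.b L x y w = 0
  asdiv : ∀ {c d : Cd} {E : Ph K c} {W : ASp K d} {j : ℕ} (Φ : NF p j E W) (M : Fld K)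
    (x : c.X M) (y : M) (w : d.X M), Good (j + 1) M → E.S.mem M x → W.mem M w →
    E.φ M x - (y ^ p - y) ≠ 0 →
    HasS (fun O : Dv M j => if 0 < O.1.ord (E.φ M x - (y ^ p - y)) then
      (O.1.ord (E.φ M x - (y ^ p - y)) : ℂ) *
        rv (c := (c.prod .one).prod d) Φ.toPre.a O.1 ((x, y), w) else 0) 0

/-- The tools for Kummer covers. -/
class FC7 (K : Type) [Field K] (p : ℕ) : Prop where
  pull : ∀ {N : ℕ}, 0 < N → ∀ {c c' d : Cd} {E : EqD K c} {E' : EqD K c'} {W : ASp K d}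
    {f : ∀ L : Fld K, c'.X L → c.X L} {h : ∀ L : Fld K, c'.X L → L}, EMp N E' E f h →
    Pro E'.S E.S f → ∀ {j : ℕ} (Φ : NF p j (E.kum N) W), ∃ Φ' : NF p j (E'.kum N) W,
      ∀ L x r y w, E'.S.mem L x → Φ'.b L (x, r) y w = Φ.b L (f L x, r * h L x) y w
  img : ∀ {N : ℕ}, 0 < N → ∀ {c c' d : Cd} {E : EqD K c} {E' : EqD K c'} {W : ASp K d}
    {f : ∀ L : Fld K, c'.X L → c.X L} {h : ∀ L : Fld K, c'.X L → L}, EMp N E' E f h →
    Pro E'.S E.S f → Srj E'.S E.S f → EVan p N E' W → EVan p N E W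
  iso : ∀ {N : ℕ}, 0 < N → ∀ {c c' d : Cd} {E : EqD K c} {E' : EqD K c'} {W : ASp K d}
    {f : ∀ L : Fld K, c'.X L → c.X L} {f' : ∀ L : Fld K, c.X L → c'.X L} (a : K), a ≠ 0 →
    Iso E'.S E.S f f' → (∀ L x, E'.S.mem L x → E.φ L (f L x) = E'.φ L x ∧
      E.g L (f L x) = algebraMap K L a * E'.g L x) → (EVan p N E' W ↔ EVan p N E W)
  opn : ∀ {N : ℕ} {c d : Cd} {E E' : EqD K c} {W : ASp K d},
    (∀ L x, E'.S.mem L x → E.S.mem L x ∧ E.φ L x = E'.φ L x ∧ E.g L x = E'.g L x) →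
    AOpn E'.S E.S → EVan p N E W → EVan p N E' W
  pt : ∀ {N : ℕ}, 0 < N → ∀ {c d : Cd} {E : EqD K c} {W : ASp K d},
    (∀ L x, E.S.mem L x → c.Dm L x 0) → EVan p N E W
  lin : ∀ {N : ℕ} {c d : Cd} {E : EqD K c} {W : ASp K d} {κ : Type} [Fintype κ]
    (f : ∀ L : Fld K, c.X L → κ → L) (hf : Reg E.S (.vec κ) f),
    EVan p N (E.lin f hf) W ↔ EVan p N (E.zer f hf) W
  s5 : ∀ {N : ℕ} {c d : Cd} {E : EqD K c} {W : ASp K d} {κ : Type} [Fintype κ]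
    (f : ∀ L : Fld K, c.X L → κ → L) (hf : Reg E.S (.vec κ) f) {j : ℕ}
    (Φ : NF p j ((E.zer f hf).kum N) W), ∃ Ψ : NF p (j + Nat.card κ) ((E.lin f hf).kum N) W,
      ∀ (L M : Fld K) (α : L →ₐ[K] M) (T : κ → M) x r y w, Free j α T → (E.zer f hf).S.mem L x →
        Ψ.b M ((c.map α x, T), α r) (α y) (d.map α w) = (-1) ^ Nat.card κ * Φ.b L (x, r) y w
  spec : ∀ {N : ℕ} {c d : Cd} {E : EqD K c} {W : ASp K d} (ψ : ∀ L : Fld K, c.X L → L)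
    (hψ : Reg E.S .one ψ), EVan p N (E.dfm ψ hψ) W → ∀ {j : ℕ} (Φ : NF p j (E.kum N) W) L x r y w,
    ψ L x = 0 → Φ.b L (x, r) y w = 0

/-- All general tools that do not depend on `p`. -/
class FW0 (K : Type) [Field K] : Prop where
  a1 : FA1 K
  a2 : FA2 K
  a3 : FA3 K
  b2 : FB2 K
  b3 : FB3 K
  b4 : FB4 K
  b5 : FB5 K

/-- All tools for Artin-Schreier covers. -/
class FWp (K : Type) [Field K] (p : ℕ) : Prop where
  c1 : FC1 K p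
  c2 : FC2 K p
  c4 : FC4 K p
  c5 : FC5 K p
  c6 : FC6 K p
  c7 : FC7 K p

attribute [instance] FW0.a1 FW0.a2 FW0.a3 FW0.b2 FW0.b3 FW0.b4 FW0.b5 FWp.c1 FWp.c2 FWp.c4 FWp.c5
  FWp.c6 FWp.c7

end Pool.Agent.Lib.MP_557161_ag.HG
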