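import Pool.Agent.Lib.MP_557161_ag.HG.St1

/-!
Chains of matrices: definitions and statements.
-/

namespace Pool.Agent.Lib.MP_557161_ag.HG

open Pool.Agent.Lib.MP_557161_ag.DL Matrix

variable {K : Type} [Field K] {cc d : Cd}

section Mat

variable {ι : Type} {F : Type} [Field F]

/-- Strictly upper triangular matrices. -/
def SU (b : ι → ℕ) (A : Matrix ι ι F) : Prop := ∀ i j, b j ≤ b i → A i j = 0

/-- Upper unitriangular matrices. -/
def Uni (b : ι → ℕ) (A : Matrix ι ι F) : Prop := A.BlockTriangular b ∧ ∀ i, A i i = 1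

/-- The positions above the diagonal. -/
abbrev UpI (b : ι → ℕ) : Type := {x : ι × ι // b x.1 < b x.2}

/-- The strictly upper triangular matrix with given entries. -/
def upm (b : ι → ℕ) (T : UpI b → F) : Matrix ι ι F :=
  Matrix.of fun i j => if h : b i < b j then T ⟨(i, j), h⟩ else 0

/-- The strictly upper triangular part. -/
def upp (b : ι → ℕ) (A : Matrix ι ι F) : Matrix ι ι F := upm b fun x => A x.1.1 x.1.2

/-- The sum of the entries just above the diagonal. -/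
def psi {n : ℕ} (A : Matrix (Fin n) (Fin n) F) : F := ∑ i, ∑ j, if i.1 + 1 = j.1 then A i j else 0

/-- A companion matrix. -/
def rho {n : ℕ} (a : Fin (n + 1) → F) : Matrix (Fin (n + 1)) (Fin (n + 1)) F :=
  Matrix.of fun i j => if i = 0 then a j else if i.1 = j.1 + 1 then 1 else 0

variable [Fintype ι] [DecidableEq ι]

/-- The quotient of two consecutive matrices. -/
noncomputable def stp (s : Bool) (A B : Matrix ι ι F) : Matrix ι ι F := cond s (A⁻¹ * B) (B⁻¹ * A)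

variable {M L : Fld K} {R : Rel M L}

omit [Fintype ι] [DecidableEq ι] in
lemma Rel.tri {b : ι → ℕ} {A : Matrix ι ι M} {A' : Matrix ι ι L} (h : R.m' A A')
    (e : A.BlockTriangular b) : A'.BlockTriangular b := fun i j hij => Rel.eq_zero (h i j) (e hij)

omit [Fintype ι] [DecidableEq ι] in
lemma Rel.su {b : ι → ℕ} {A : Matrix ι ι M} {A' : Matrix ι ι L} (h : R.m' A A') (e : SU b A) :
    SU b A' := fun i j hij => Rel.eq_zero (h i j) (e i j hij)

omit [Fintype ι] [DecidableEq ι] in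
lemma Rel.uni {b : ι → ℕ} {A : Matrix ι ι M} {A' : Matrix ι ι L} (h : R.m' A A') (e : Uni b A) :
    Uni b A' := ⟨Rel.tri h e.1, fun i => Rel.eq (h i i) R.one (e.2 i)⟩

omit [Fintype ι] [DecidableEq ι] in
lemma Rel.mupm (b : ι → ℕ) {T : UpI b → M} {T' : UpI b → L} (h : ∀ x, R.r (T x) (T' x)) :
    R.m' (upm b T) (upm b T') := fun i j => by
  simp only [upm, of_apply]
  split_ifs
  exacts [h _, R.zero]

lemma Rel.psi {n : ℕ} {A : Matrix (Fin n) (Fin n) M} {A' : Matrix (Fin n) (Fin n) L}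
    (h : R.m' A A') : R.r (psi A) (psi A') :=
  Rel.sum _ fun i _ => Rel.sum _ fun j _ => Rel.ite _ (h i j) R.zero

lemma Rel.rho {n : ℕ} {a : Fin (n + 1) → M} {a' : Fin (n + 1) → L} (h : ∀ i, R.r (a i) (a' i)) :
    R.m' (rho a) (rho a') := fun _ j => Rel.ite _ (h j) (Rel.ite _ R.one R.zero)

lemma Rel.stp (s : Bool) {A B : Matrix ι ι M} {A' B' : Matrix ι ι L} (h : R.m' A A')
    (h' : R.m' B B') (e : A'.det ≠ 0) (e' : B'.det ≠ 0) : R.m' (stp s A B) (stp s A' B') := by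
  cases s
  exacts [Rel.mmul (Rel.minv h' e') h, Rel.mmul (Rel.minv h e) h']

lemma det_stp_ne (s : Bool) {A B : Matrix ι ι F} (e : A.det ≠ 0) (e' : B.det ≠ 0) :
    (stp s A B).det ≠ 0 := by
  cases s <;> simp [stp, det_nonsing_inv, e, e']

end Mat

/-- The data of a chain of matrices. -/
structure ChD (K : Type) [Field K] (cc : Cd) (ι : Type) [Fintype ι] [DecidableEq ι] (m : ℕ) where
  C : EqD K cc
  X0 : ∀ L : Fld K, cc.X L → Matrix ι ι L
  D : ∀ L : Fld K, cc.X L → ι → L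
  rX : Reg C.S (.mat ι ι) X0
  rD : Reg C.S (.vec ι) D
  b : ι → ℕ
  hb : Function.Injective b
  s : Fin m → Bool
  e : Fin m → ℕ

section Chain

variable {ι : Type} [Fintype ι] [DecidableEq ι] {m : ℕ}

/-- The shape of chains. -/
abbrev chs (cc : Cd) (ι : Type) [Finite ι] (m : ℕ) : Cd := cc.prod (.pi (Fin (m + 1)) (.mat ι ι))

/-- Chains `μ 0 = X0, ..., μ m`; `μ k` is upper triangular, the later ones are diagonal. -/
noncomputable def ChD.Ch (Q : ChD K cc ι m) (k : ℕ) : EqD K (chs cc ι m) :=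
  Q.C.ext (((Q.C.S.prod (.univ K (.pi (Fin (m + 1)) (.mat ι ι)))).opn (fun _ x => ∀ j, (x.2 j).det ≠ 0)
      fun _ _ _ _ _ _ _ e h j => Rel.ne_zero (Rel.det (e.2 j)) (h j)).cl
    (fun L x => x.2 0 = Q.X0 L x.1 ∧ (∀ j, k ≤ j.1 → (x.2 j).BlockTriangular Q.b) ∧
      (∀ j, k < j.1 → (x.2 j).IsDiag) ∧ ∀ i, x.2 (Fin.last m) i i = Q.D L x.1 i)
    fun _ _ R _ _ m m' e h => ⟨Rel.meq (e.2 0) (Q.rX R m.1.1 m'.1.1 e.1) h.1,
      fun j hj => Rel.tri (e.2 j) (h.2.1 j hj),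
      fun j hj a c hac => Rel.eq_zero (e.2 j a c) (h.2.2.1 j hj hac),
      fun i => Rel.eq (e.2 _ i i) (Q.rD R m.1.1 m'.1.1 e.1 i) (h.2.2.2 i)⟩)
    (fun _ _ h => h.1.1.1)
    (fun _ x => ∑ j : Fin m, cond (Q.s j) 1 (-1) * (stp (Q.s j) (x.2 j.castSucc) (x.2 j.succ)).trace)
    (fun _ x => ∏ j : Fin m, (stp (Q.s j) (x.2 j.castSucc) (x.2 j.succ)).det ^ Q.e j)
    (fun _ _ R _ _ _ m' e => Rel.sum _ fun j _ => R.mul
      (by cases Q.s j; exacts [Rel.neg R.one, R.one])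
      (Rel.trace (Rel.stp _ (e.2 _) (e.2 _) (m'.1.2 _) (m'.1.2 _))))
    (fun _ _ _ _ _ _ m' e => Rel.prod _ fun _ _ =>
      Rel.pow (Rel.det (Rel.stp _ (e.2 _) (e.2 _) (m'.1.2 _) (m'.1.2 _))) _)
    fun _ _ h => Finset.prod_ne_zero_iff.2 fun _ _ => pow_ne_zero _ (det_stp_ne _ (h.1.2 _) (h.1.2 _))

/-- Chains from the identity matrix to a matrix with diagonal entries `t`. -/
noncomputable def zd (C : EqD K cc) (t : K) (n : ℕ) (s : Fin m → Bool) (e : Fin m → ℕ) :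
    ChD K cc (Fin n) m :=
  ⟨C, fun _ _ => 1, fun L _ _ => algebraMap K L t, fun _ _ _ _ _ _ _ _ => Rel.mone,
    fun _ _ R _ _ _ _ _ _ => R.const t, Fin.val, Fin.val_injective, s, e⟩

/-- The Whittaker space. -/
noncomputable def whit (C : EqD K cc) (t : K) (n : ℕ) (s : Fin m → Bool) (e : Fin m → ℕ) :
    EqD K (chs cc (Fin n) m) :=
  ((zd C t n s e).Ch m).addφ (fun L x => -(algebraMap K L t⁻¹ * psi (x.2 (Fin.last m))))
    fun _ _ R _ _ _ _ e => Rel.neg (R.mul (R.const _) (Rel.psi (e.2 _)))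

end Chain

/-- A torus with the sum of the coordinates as phase and a monomial. -/
noncomputable def tor (C : EqD K cc) {I : Type} [Fintype I] (E : I → ℕ) : EqD K (cc.prod (.vec I)) :=
  C.ext (C.S.prod ((ASp.univ K (.vec I)).opn (fun _ x => ∀ i, x i ≠ 0)
    fun _ _ _ _ _ _ _ e h i => Rel.ne_zero (e i) (h i))) (fun _ _ h => h.1) (fun _ x => ∑ i, x.2 i)
    (fun _ x => ∏ i, x.2 i ^ E i) (fun _ _ _ _ _ _ _ e => Rel.sum _ fun i _ => e.2 i)
    (fun _ _ _ _ _ _ _ e => Rel.prod _ fun i _ => Rel.pow (e.2 i) _)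
    fun _ _ h => Finset.prod_ne_zero_iff.2 fun i _ => pow_ne_zero _ (h.2.2 i)

section Whit

variable (C : EqD K cc) {n : ℕ} (X : ∀ L : Fld K, cc.X L → Matrix (Fin (n + 1)) (Fin (n + 1)) L)
  (hX : Reg C.S (.mat _ _) X) (ε : K) {k : ℕ}

/-- Square matrices. -/
abbrev sq (n : ℕ) : Cd := .mat (Fin n) (Fin n)

/-- `u g_1 ... g_k = X`. -/
noncomputable def chL (e : Fin k → ℕ) :
    EqD K (cc.prod ((sq (n + 1)).prod (.pi (Fin k) (sq (n + 1))))) :=
  C.ext (((C.S.prod (.univ K ((sq (n + 1)).prod (.pi (Fin k) (sq (n + 1)))))).opn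
      (fun _ x => ∀ j, (x.2.2 j).det ≠ 0)
      fun _ _ _ _ _ _ _ e h j => Rel.ne_zero (Rel.det (e.2.2 j)) (h j)).cl
    (fun L x => Uni Fin.val x.2.1 ∧ x.2.1 * (List.ofFn x.2.2).prod = X L x.1)
    fun _ _ R _ _ m m' e h => ⟨Rel.uni e.2.1 h.1,
      Rel.meq (Rel.mmul e.2.1 (Rel.mprod e.2.2)) (hX R m.1.1 m'.1.1 e.1) h.2⟩)
    (fun _ _ h => h.1.1.1)
    (fun L x => algebraMap K L ε * (∑ j, (x.2.2 j).trace + psi x.2.1))
    (fun _ x => ∏ j, (x.2.2 j).det ^ e j)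
    (fun _ _ R _ _ _ _ e => R.mul (R.const _)
      (R.add (Rel.sum _ fun j _ => Rel.trace (e.2.2 j)) (Rel.psi e.2.1)))
    (fun _ _ _ _ _ _ _ e => Rel.prod _ fun j _ => Rel.pow (Rel.det (e.2.2 j)) _)
    fun _ _ h => Finset.prod_ne_zero_iff.2 fun j _ => pow_ne_zero _ (h.1.2 j)

/-- `rho (a_1) ... rho (a_k) v = X`. -/
noncomputable def chR (e : Fin k → ℕ) :
    EqD K (cc.prod ((sq (n + 1)).prod (.pi (Fin k) (.vec (Fin (n + 1)))))) :=
  C.ext (((C.S.prod (.univ K ((sq (n + 1)).prod (.pi (Fin k) (.vec (Fin (n + 1))))))).opn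
      (fun _ x => ∀ j, x.2.2 j (Fin.last n) ≠ 0)
      fun _ _ _ _ _ _ _ e h j => Rel.ne_zero (e.2.2 j _) (h j)).cl
    (fun L x => Uni Fin.val x.2.1 ∧ (List.ofFn fun j => rho (x.2.2 j)).prod * x.2.1 = X L x.1)
    fun _ _ R _ _ m m' e h => ⟨Rel.uni e.2.1 h.1, Rel.meq
      (Rel.mmul (Rel.mprod fun j => Rel.rho (e.2.2 j)) e.2.1) (hX R m.1.1 m'.1.1 e.1) h.2⟩)
    (fun _ _ h => h.1.1.1)
    (fun L x => algebraMap K L ε * (∑ j, x.2.2 j 0 + psi x.2.1))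
    (fun _ x => ∏ j, x.2.2 j (Fin.last n) ^ e j)
    (fun _ _ R _ _ _ _ e => R.mul (R.const _) (R.add (Rel.sum _ fun j _ => e.2.2 j 0) (Rel.psi e.2.1)))
    (fun _ _ _ _ _ _ _ e => Rel.prod _ fun j _ => Rel.pow (e.2.2 j _) _)
    fun _ _ h => Finset.prod_ne_zero_iff.2 fun j _ => pow_ne_zero _ (h.1.2 j)

/-- The product with the invertible lower triangular matrices. -/
noncomputable def low (e : Fin (n + 1) → ℕ) : EqD K (cc.prod (sq (n + 1))) :=
  C.ext (((C.S.prod (.univ K (sq (n + 1)))).opn (fun _ x => ∀ i, x.2 i i ≠ 0)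
      fun _ _ _ _ _ _ _ e h i => Rel.ne_zero (e.2 i i) (h i)).cl
    (fun _ x => ∀ i j, i < j → x.2 i j = 0)
    fun _ _ _ _ _ _ _ e h i j hij => Rel.eq_zero (e.2 i j) (h i j hij))
    (fun _ _ h => h.1.1.1) (fun _ _ => 0) (fun _ x => ∏ i, x.2 i i ^ e i)
    (fun _ _ R _ _ _ _ _ => R.zero) (fun _ _ _ _ _ _ _ e => Rel.prod _ fun i _ => Rel.pow (e.2 i i) _)
    fun _ _ h => Finset.prod_ne_zero_iff.2 fun i _ => pow_ne_zero _ (h.1.2 i)

lemma low_mem (e : Fin (n + 1) → ℕ) {L : Fld K} {x} (h : (low C e).S.mem L x) : C.S.mem L x.1 :=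
  h.1.1.1

/-- `b v = u X` with `b` lower triangular; the point is `((c, b), (v, u))`. -/
noncomputable def chB (e' : Fin (n + 1) → ℕ) :
    EqD K ((cc.prod (sq (n + 1))).prod ((sq (n + 1)).prod (sq (n + 1)))) :=
  (low C e').ext (((low C e').S.prod (.univ K ((sq (n + 1)).prod (sq (n + 1))))).cl
    (fun L x => Uni Fin.val x.2.1 ∧ Uni Fin.val x.2.2 ∧ x.1.2 * x.2.1 = x.2.2 * X L x.1.1)
    fun _ _ R _ _ m m' e h => ⟨Rel.uni e.2.1 h.1, Rel.uni e.2.2 h.2.1, Rel.meq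
      (Rel.mmul e.1.2 e.2.1) (Rel.mmul e.2.2 (hX R (low_mem C e' m.1) (low_mem C e' m'.1) e.1.1)) h.2.2⟩)
    (fun _ _ h => h.1.1)
    (fun L x => algebraMap K L ε * (x.1.2 (Fin.last n) 0 - psi x.2.2 + psi x.2.1)) (fun _ _ => 1)
    (fun _ _ R _ _ _ _ e => R.mul (R.const _)
      (R.add (Rel.sub (e.1.2 _ _) (Rel.psi e.2.2)) (Rel.psi e.2.1)))
    (fun _ _ R _ _ _ _ _ => R.one) fun _ _ _ => one_ne_zero

end Whit

/-- One step in a chain. -/
class MS (K : Type) [Field K] (p : ℕ) : Prop where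
  van : ∀ {N : ℕ}, 0 < N → ∀ {cc d : Cd} {ι : Type} [Fintype ι] [DecidableEq ι] {m : ℕ}
    (Q : ChD K cc ι m) (W : ASp K d) {k : ℕ}, k < m → EVan p N (Q.Ch k) W → EVan p N (Q.Ch (k + 1)) W
  s5 : ∀ {N : ℕ}, 0 < N → ∀ {cc d : Cd} {ι : Type} [Fintype ι] [DecidableEq ι] {m : ℕ}
    (Q : ChD K cc ι m) {W : ASp K d} (k : Fin m) {j : ℕ} (Φ : NF p j ((Q.Ch k).kum N) W),
    ∃ Ψ : NF p (j + Nat.card (UpI Q.b)) ((Q.Ch (k + 1)).kum N) W,
      ∀ (L M : Fld K) (α : L →ₐ[K] M) (T : UpI Q.b → M) (x : (chs cc ι m).X L) r y w, Free j α T →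
        (Q.Ch k).S.mem L x →
        Ψ.b M ((cc.map α x.1, Function.update (fun i => (x.2 i).map α) k.succ
          ((x.2 k.succ).map α + upm Q.b T)), α r) (α y) (d.map α w) =
          (-1) ^ Nat.card (UpI Q.b) * Φ.b L (x, r) y w

/-- From the torus to the full chain. -/
class M1 (K : Type) [Field K] (p : ℕ) : Prop where
  s5 : ∀ {N : ℕ}, 0 < N → ∀ {cc d : Cd} {ι : Type} [Fintype ι] [DecidableEq ι] {m : ℕ}
    (Q : ChD K cc ι m) {W : ASp K d} {j : ℕ} (Φ : NF p j ((Q.Ch 0).kum N) W),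
    ∃ (Ψ : NF p (j + Nat.card (Fin m × UpI Q.b)) ((Q.Ch m).kum N) W) (ε : ℂ), ε ≠ 0 ∧
      ∀ (L M : Fld K) (α : L →ₐ[K] M) (T : Fin m × UpI Q.b → M) (x : (chs cc ι m).X L) r y w,
        Free j α T → (Q.Ch 0).S.mem L x →
        Ψ.b M ((cc.map α x.1, fun i => (x.2 i).map α +
          Fin.cases 0 (fun a => upm Q.b fun z => T (a, z)) i), α r) (α y) (d.map α w) =
          ε * Φ.b L (x, r) y w

/-- Reduction to a companion matrix. -/
class CH1 (K : Type) [Field K] (p : ℕ) : Prop where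
  iff : ∀ {N : ℕ}, 0 < N → ∀ {cc d : Cd} (C : EqD K cc) (W : ASp K d) {n : ℕ}
    (X : ∀ L : Fld K, cc.X L → Matrix (Fin (n + 1)) (Fin (n + 1)) L) (hX : Reg C.S (.mat _ _) X)
    (ε : K), ε ≠ 0 → ∀ e : Fin 1 → ℕ, EVan p N (chL C X hX ε e) W ↔ EVan p N (chR C X hX ε e) W

/-- Reduction to companion matrices. -/
class CH2 (K : Type) [Field K] (p : ℕ) : Prop where
  iff : ∀ {N : ℕ}, 0 < N → ∀ {cc d : Cd} (C : EqD K cc) (W : ASp K d) {n : ℕ}
    (X : ∀ L : Fld K, cc.X L → Matrix (Fin (n + 1)) (Fin (n + 1)) L) (hX : Reg C.S (.mat _ _) X)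
    (ε : K), ε ≠ 0 → ∀ {k : ℕ} (e : Fin k → ℕ),
    EVan p N (chL C X hX ε e) W ↔ EVan p N (chR C X hX ε e) W

/-- Products of companion matrices. -/
class CH3 (K : Type) [Field K] (p : ℕ) : Prop where
  iff : ∀ {N : ℕ}, 0 < N → ∀ {cc d : Cd} (C : EqD K cc) (W : ASp K d) {n : ℕ}
    (X : ∀ L : Fld K, cc.X L → Matrix (Fin (n + 1)) (Fin (n + 1)) L) (hX : Reg C.S (.mat _ _) X)
    (ε : K) (e : Fin (n + 1) → ℕ), EVan p N (chR C X hX ε e) W ↔ EVan p N (chB C X hX ε e) W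

/-- Reduction to the torus. -/
class BR (K : Type) [Field K] (p : ℕ) : Prop where
  red : ∀ {N : ℕ}, 0 < N → ∀ {cc d : Cd} (C : EqD K cc) (W : ASp K d) {n : ℕ}
    (e e' : Fin (n + 1) → ℕ),
    EVan p N (tor C fun x : Fin (n + 1) × Fin (n + 1) => e x.1 + e' x.2) W →
    EVan p N (chL (low C e') (fun _ x => x.2) (fun _ _ _ _ _ _ _ h => h.2) 1 e) W

/-- The Whittaker space. -/
class WH (K : Type) [Field K] (p : ℕ) : Prop where
  van : ∀ {N : ℕ}, 0 < N → ∀ {cc d : Cd} (C : EqD K cc) (W : ASp K d) {n : ℕ} (t : K), t ≠ 0 →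
    t ≠ 1 → ∀ e e' : Fin (n + 1) → ℕ,
    EVan p N (tor C fun x : Fin (n + 1) × Fin (n + 1) => e x.1 + e' x.2) W →
    EVan p N (whit C t (n + 1) (Fin.append (fun _ : Fin (n + 1) => true) fun _ : Fin (n + 1) => false)
      (Fin.append e e')) W

/-- Vanishing on chains that end in a scalar matrix. -/
class U1 (K : Type) [Field K] (p : ℕ) : Prop where
  van : ∀ {N : ℕ}, 0 < N → ∀ {cc d : Cd} (C : EqD K cc) (W : ASp K d) {n m : ℕ} (t : K),
    t ≠ 0 → ∀ (s : Fin m → Bool) (e : Fin m → ℕ), EVan p N (whit C t n s e) W →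
    ∀ {j : ℕ} (Ψ : NF p j (((zd C t n s e).Ch m).kum N) W) L x r y w,
      psi (x.2 (Fin.last m)) = 0 → Ψ.b L (x, r) y w = 0

/-- Tori whose exponents come in dual pairs. -/
class TV (K : Type) [Field K] (p : ℕ) : Prop where
  van : (2 : K) ≠ 0 → ∀ {N N' : ℕ}, 0 < N' → N = 2 * N' → ∀ {d : Cd} (W : ASp K d) {I κ : Type}
    [Fintype I] [Fintype κ] (E : I → ℕ) (τ : I → I), Function.Involutive τ →
    (∀ i, N ∣ E i + E (τ i)) → (∀ i, τ i = i → E i % N = N') →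
    Even (Nat.card {i // τ i = i} + Nat.card κ) → ∀ C : EqD K (.vec κ), (∀ L x, C.S.mem L x) →
    (∀ L x, C.φ L x = -∑ i, x i ^ 2) → (∃ a : K, ∀ L x, C.g L x = algebraMap K L a) →
    EVan p N (tor C E) W

/-- Symmetric functionals on the torus vanish. -/
class MN (K : Type) [Field K] (p : ℕ) : Prop where
  van : ∀ {N : ℕ}, 0 < N → ∀ {cc d : Cd} (C : EqD K cc) (W : ASp K d) {n : ℕ} (t : K), t ≠ 0 →
    t ≠ 1 → ∀ e e' : Fin (n + 1) → ℕ,
    EVan p N (tor C fun x : Fin (n + 1) × Fin (n + 1) => e x.1 + e' x.2) W →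
    ∀ {j : ℕ} (Φ : NF p j (((zd C t (n + 1) (Fin.append (fun _ : Fin (n + 1) => true)
      fun _ : Fin (n + 1) => false) (Fin.append e e')).Ch 0).kum N) W),
      (∀ σ : Equiv.Perm (Fin (n + 1)),
        Φ.Eqv (fun _ x => ((x.1.1, fun i => (x.1.2 i).submatrix σ σ), x.2)) 1) →
      ∀ L x y w, Φ.b L x y w = 0

end Pool.Agent.Lib.MP_557161_ag.HG
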