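import Pool.Agent.Lib.MP_557161_ag.HG.St2

/-!
Chains that preserve a moving flag: definitions and statements.
-/

namespace Pool.Agent.Lib.MP_557161_ag.HG

open Pool.Agent.Lib.MP_557161_ag.DL Matrix

variable {K : Type} [Field K] {cc d : Cd}

/-- The indices of the middle matrices of a chain. -/
abbrev Mid (m : ℕ) : Type := {j : Fin (m + 1) // j ≠ 0 ∧ j ≠ Fin.last m}

/-- The positions above the diagonal. -/
abbrev UpN (n : ℕ) : Type := UpI (Fin.val : Fin n → ℕ)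

/-- The shape of points `((c, p), ((r, y), w))` of the torus side. -/
abbrev zsh (cc d : Cd) (n m : ℕ) : Cd :=
  (cc.prod (.pi (Fin (m + 1)) (.vec (Fin n)))).prod ((Cd.one.prod .one).prod d)

/-- The shape of points `(z, μ, g)`. -/
abbrev gsh (cc d : Cd) (n m : ℕ) : Cd := (zsh cc d n m).prod ((sq n).prod (sq n))

/-- The shape of points of the covers of the chain spaces. -/
abbrev tsh (cc d : Cd) (n m : ℕ) : Cd := (((chs cc (Fin n) m).prod .one).prod .one).prod d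

section Mat

variable {F : Type} [Field F] {n m : ℕ}

/-- The nilpotent part of a middle matrix. -/
def nmat (T : Mid m × UpN n → F) (j : Fin (m + 1)) : Matrix (Fin n) (Fin n) F :=
  if h : j ≠ 0 ∧ j ≠ Fin.last m then upm Fin.val fun a => T (⟨j, h⟩, a) else 0

/-- The chain with first matrix `1`, last matrix `μ` and middle matrices `g (A j) g⁻¹`. -/
noncomputable def cmat (μ g : Matrix (Fin n) (Fin n) F)
    (A : Fin (m + 1) → Matrix (Fin n) (Fin n) F) (j : Fin (m + 1)) : Matrix (Fin n) (Fin n) F :=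
  if j = 0 then 1 else if j = Fin.last m then μ else g * A j * g⁻¹

/-- An elementary matrix. -/
def hS (r r' : Fin n) (S : F) : Matrix (Fin n) (Fin n) F := 1 + single r' r S

/-- The point with chain `μ`. -/
def zpt (z : (zsh cc d n m).X F) (μ : Fin (m + 1) → Matrix (Fin n) (Fin n) F) :
    (tsh cc d n m).X F := ((((z.1.1, μ), z.2.1.1), z.2.1.2), z.2.2)

/-- Permutation of the eigenvalues. -/
def zperm (σ : Equiv.Perm (Fin n)) (z : (zsh cc d n m).X F) : (zsh cc d n m).X F :=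
  ((z.1.1, fun j i => z.1.2 j (σ i)), z.2)

/-- The chain that preserves the flag of `g`. -/
noncomputable def gpt (x : (gsh cc d n m).X F) (T : Mid m × UpN n → F) : (tsh cc d n m).X F :=
  zpt x.1 (cmat x.2.1 x.2.2 fun j => diagonal (x.1.1.2 j) + nmat T j)

/-- The hybrid chain: the matrices up to `k` preserve the flag of `g * hS r r' S`. -/
noncomputable def hpt (r r' : Fin n) (k : ℕ) (x : (gsh cc d n m).X F) (S : F)
    (T : Mid m × UpN n → F) : (tsh cc d n m).X F :=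
  zpt x.1 (cmat x.2.1 x.2.2 fun j => if j.1 ≤ k then
    hS r r' S * (diagonal (fun i => x.1.1.2 j (Equiv.swap r r' i)) + nmat T j) * hS r r' (-S)
    else diagonal (x.1.1.2 j) + upp Fin.val (hS r r' S * nmat T j * hS r r' (-S)))

/-- The change of parameters. -/
def shT (r r' : Fin n) (S : F) (T : Mid m × UpN n → F) (a : Mid m × UpN n) : F :=
  (hS r r' S * nmat T a.1.1 * hS r r' (-S)) a.2.1.1 a.2.1.2

/-- The entry `(r, r')` of the last matrix in the frame `g`. -/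
noncomputable def nu (r r' : Fin n) (x : (gsh cc d n m).X F) : F := (x.2.2⁻¹ * x.2.1 * x.2.2) r r'

/-- The function that vanishes when the `j`-th matrix preserves both flags. -/
noncomputable def alf (r r' : Fin n) (x : (gsh cc d n m).X F) (S : F) (T : Mid m × UpN n → F)
    (j : Fin (m + 1)) : F :=
  if j = Fin.last m then -(S * nu r r' x) else x.1.1.2 j r' - x.1.1.2 j r - S * nmat T j r r'

/-- The unit in the phase of a hybrid chain. -/
def cfu (r r' : Fin n) (s : Fin m → Bool) (x : (gsh cc d n m).X F) (k : Fin m) : F :=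
  cond (s k) (x.1.1.2 k.castSucc r * x.1.1.2 k.castSucc r')⁻¹
    (-(x.1.1.2 k.succ r * x.1.1.2 k.succ r')⁻¹)

/-- Change of the frame. -/
def gmul (x : (gsh cc d n m).X F) (b : Matrix (Fin n) (Fin n) F) : (gsh cc d n m).X F :=
  (x.1, x.2.1, x.2.2 * b)

/-- The neighbouring flag, with two eigenvalues exchanged. -/
def gsw (r r' : Fin n) (x : (gsh cc d n m).X F) (S : F) : (gsh cc d n m).X F :=
  (zperm (Equiv.swap r r') x.1, x.2.1, x.2.2 * hS r r' S)

/-- Lower unitriangular matrices. -/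
def LUni (A : Matrix (Fin n) (Fin n) F) : Prop := (∀ i j, i < j → A i j = 0) ∧ ∀ i, A i i = 1

/-- Invertible upper triangular matrices. -/
def Bor (A : Matrix (Fin n) (Fin n) F) : Prop := A.BlockTriangular Fin.val ∧ A.det ≠ 0

/-- The frame of the family `(s, r)`. -/
def ggm (s r : ℕ) (T : UpN n → F) : Matrix (Fin n) (Fin n) F :=
  Matrix.of fun b a => if a = b then 1 else
    if b.1 + 1 < s ∨ (b.1 + 1 = s ∧ r ≤ a.1) then upm Fin.val T a b else 0

/-- The nilpotent matrix of the family `(s, r)`. -/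
def gnm (s r : ℕ) (T : UpN n → F) : Matrix (Fin n) (Fin n) F :=
  Matrix.of fun a b => if s ≤ b.1 then upm Fin.val T a b else if b.1 + 1 = s then
    ∑ c, ggm s r T a c * (if c.1 < r then upm Fin.val T c b else 0) else 0

end Mat

/-- A functional on the full chain space. -/
structure GC (K : Type) [Field K] (p : ℕ) (cc d : Cd) (n m : ℕ) where
  N : ℕ
  hN : 0 < N
  C : EqD K cc
  W : ASp K d
  t : K
  s : Fin m → Bool
  e : Fin m → ℕ
  hm : 0 < m
  j : ℕ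
  Ψ : NF p j (((zd C t n s e).Ch m).kum N) W

namespace GC

variable {p n m : ℕ} (G : GC K p cc d n m)

/-- The total space of stage `k`. -/
noncomputable def tt (k : ℕ) : ASp K (tsh cc d n m) :=
  ((((zd G.C G.t n G.s G.e).Ch k).kum G.N).tot p).prod G.W

/-- The torus side. -/
noncomputable def zS : ASp K (zsh cc d n m) :=
  (ASp.univ K _).comap (G.tt 0) (fun _ z => zpt z fun j => diagonal (z.1.2 j))
    fun _ _ _ _ _ _ _ e => ⟨⟨⟨⟨e.1.1, fun j => Rel.mdiag (e.1.2 j)⟩, e.2.1.1⟩, e.2.1.2⟩, e.2.2⟩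

/-- The points `(z, μ, g)` such that `μ - t` is nilpotent for both flags. -/
noncomputable def gS : ASp K (gsh cc d n m) :=
  ((G.zS.prod (.univ K ((sq n).prod (sq n)))).opn (fun _ x => x.2.2.det ≠ 0)
    fun _ _ _ _ _ _ _ e h => Rel.ne_zero (Rel.det e.2.2) h).cl
    (fun L x => SU Fin.val (x.2.1 - diagonal fun _ => algebraMap K L G.t) ∧
      SU Fin.val (x.2.2⁻¹ * (x.2.1 - diagonal fun _ => algebraMap K L G.t) * x.2.2))
    fun _ _ R _ _ _ m' e h =>
      have := Rel.msub e.2.1 (Rel.mdiag fun _ => R.const G.t)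
      ⟨Rel.su this h.1, Rel.su (Rel.mmul (Rel.mmul (Rel.minv e.2.2 m'.2) this) e.2.2) h.2⟩

/-- The values of the functional. -/
noncomputable abbrev a (L : Fld K) (x : (tsh cc d n m).X L) : ℂ := G.Ψ.toPre.a L x

/-- The value at the generic chain that preserves the flag of `g`. -/
noncomputable def Γ (i : ℕ) (L : Fld K) (x : (gsh cc d n m).X L) : ℂ :=
  gv G.a (fun _ x T => gpt x T) i L x

/-- The value at the generic neighbouring flag. -/
noncomputable def Γs (r r' : Fin n) (i : ℕ) (L : Fld K) (x : (gsh cc d n m).X L) : ℂ :=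
  gv (G.Γ (i + 1)) (fun _ x (S : Unit → _) => gsw r r' x (S ())) i L x

/-- The generic point of the family `(s, r)`. -/
noncomputable def fam (s r : ℕ) (L : Fld K) (z : (zsh cc d n m).X L) (T : UpN n → L) :
    (gsh cc d n m).X L := (z, (diagonal fun _ => algebraMap K L G.t) + gnm s r T, ggm s r T)

/-- The value at the generic point of the family `(s, r)`. -/
noncomputable def γ (s r i : ℕ) (L : Fld K) (z : (zsh cc d n m).X L) : ℂ :=
  gv (G.Γ (i + Nat.card (UpN n))) (G.fam s r) i L z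

end GC

/-- Basic properties of the generic values. -/
class G1 (K : Type) [Field K] (p : ℕ) : Prop where
  zmem : ∀ {cc d : Cd} {n m : ℕ} (G : GC K p cc d n m) {L : Fld K} {z}, G.zS.mem L z →
    (∀ i, z.1.2 0 i = 1) ∧ (∀ i, z.1.2 (Fin.last m) i = algebraMap K L G.t) ∧ ∀ j i, z.1.2 j i ≠ 0
  zperm : ∀ {cc d : Cd} {n m : ℕ} (G : GC K p cc d n m) {L : Fld K} {z} (σ : Equiv.Perm (Fin n)),
    G.zS.mem L z → G.zS.mem L (zperm σ z)
  mem : ∀ {cc d : Cd} {n m : ℕ} (G : GC K p cc d n m) {L : Fld K} {x} (T : Mid m × UpN n → L),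
    G.gS.mem L x → (G.tt m).mem L (gpt x T)
  reg : ∀ {cc d : Cd} {n m : ℕ} (G : GC K p cc d n m),
    Reg (G.gS.prod (.univ K (.vec (Mid m × UpN n)))) (tsh cc d n m) fun _ x => gpt x.1 x.2
  pre : ∀ {cc d : Cd} {n m : ℕ} (G : GC K p cc d n m) {i : ℕ},
    G.j = i + Nat.card (Mid m × UpN n) →
    ∃ θ : Pre i G.gS.sp, ∀ L x, G.gS.mem L x → θ.a L x = G.Γ i L x
  eq : ∀ {cc d : Cd} {n m : ℕ} (G : GC K p cc d n m) {i : ℕ}, G.j = i + Nat.card (Mid m × UpN n) →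
    ∀ {L M : Fld K} {α : L →ₐ[K] M} {T : Mid m × UpN n → M} {x}, G.gS.mem L x → Free i α T →
    G.a M (gpt ((gsh cc d n m).map α x) T) = G.Γ i L x
  low : ∀ {cc d : Cd} {n m : ℕ} (G : GC K p cc d n m) {i : ℕ}, G.j = i + Nat.card (Mid m × UpN n) →
    ∀ {L : Fld K} {x} {l : ℕ}, G.gS.mem L x → (gsh cc d n m).Dm L x l → l < i → G.Γ i L x = 0
  mul : ∀ {cc d : Cd} {n m : ℕ} (G : GC K p cc d n m) {L : Fld K} {x}
    {b : Matrix (Fin n) (Fin n) L}, G.gS.mem L x → Bor b → G.gS.mem L (gmul x b)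
  inv : ∀ {cc d : Cd} {n m : ℕ} (G : GC K p cc d n m) {i : ℕ}, G.j = i + Nat.card (Mid m × UpN n) →
    ∀ {L : Fld K} {x} {b : Matrix (Fin n) (Fin n) L}, G.gS.mem L x → Bor b →
    G.Γ i L (gmul x b) = G.Γ i L x
  sw : ∀ {cc d : Cd} {n m : ℕ} (G : GC K p cc d n m) {r r' : Fin n}, r'.1 = r.1 + 1 →
    ∀ {L : Fld K} {x} (S : L), G.gS.mem L x → nu r r' x = 0 → G.gS.mem L (gsw r r' x S)
  eqs : ∀ {cc d : Cd} {n m : ℕ} (G : GC K p cc d n m) {r r' : Fin n}, r'.1 = r.1 + 1 → ∀ {i : ℕ},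
    G.j = i + 1 + Nat.card (Mid m × UpN n) → ∀ {L M : Fld K} {α : L →ₐ[K] M} {S : M} {x},
    G.gS.mem L x → nu r r' x = 0 → Free i α (fun _ : Unit => S) →
    G.Γ (i + 1) M (gsw r r' ((gsh cc d n m).map α x) S) = G.Γs r r' i L x
  invs : ∀ {cc d : Cd} {n m : ℕ} (G : GC K p cc d n m) {r r' : Fin n}, r'.1 = r.1 + 1 → ∀ {i : ℕ},
    G.j = i + 1 + Nat.card (Mid m × UpN n) → ∀ {L : Fld K} {x} {b : Matrix (Fin n) (Fin n) L},
    G.gS.mem L x → nu r r' x = 0 → Bor b →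
    nu r r' (gmul x b) = 0 ∧ G.Γs r r' i L (gmul x b) = G.Γs r r' i L x
  lows : ∀ {cc d : Cd} {n m : ℕ} (G : GC K p cc d n m) {r r' : Fin n}, r'.1 = r.1 + 1 → ∀ {i : ℕ},
    G.j = i + 1 + Nat.card (Mid m × UpN n) → ∀ {L : Fld K} {x} {l : ℕ}, G.gS.mem L x →
    nu r r' x = 0 → (gsh cc d n m).Dm L x l → l < i → G.Γs r r' i L x = 0

/-- Decompositions of matrices. -/
class IW (K : Type) [Field K] : Prop where
  iwa : ∀ {M : Fld K} (O : Pl M) {n : ℕ} (g : Matrix (Fin n) (Fin n) M), g.det ≠ 0 →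
    ∃ (b : Matrix (Fin n) (Fin n) M) (k : Matrix (Fin n) (Fin n) O.res), Bor b ∧
      (Rel.ofPl O).m' (g * b) k ∧ k.det ≠ 0
  lu : ∀ {M : Fld K} (O : Pl M) {n : ℕ} {g b : Matrix (Fin n) (Fin n) M}
    {k₀ b₀ : Matrix (Fin n) (Fin n) O.res}, LUni g → Bor b → LUni k₀ → Bor b₀ →
    (Rel.ofPl O).m' (g * b) (k₀ * b₀) → (Rel.ofPl O).m' g k₀ ∧ (Rel.ofPl O).m' b b₀
  nf : ∀ {F : Fld K} {n s i : ℕ} (k : Matrix (Fin n) (Fin n) F), k.det ≠ 0 → i < s → s ≤ n →
    (∀ a c : Fin n, c < a → s ≤ a.1 → k a c = 0) → (∀ a c : Fin n, a.1 + 1 = s → c.1 < i → k a c = 0) →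
    ∃ (k₀ b : Matrix (Fin n) (Fin n) F) (z : ℕ) (v : Fin z → F), k = k₀ * b ∧ Bor b ∧
      (∀ a c, k₀ a c = 0 ∨ k₀ a c = 1 ∨ ∃ l, k₀ a c = v l) ∧ 2 * z + 2 * i + s ≤ s * s ∧
      (LUni k₀ ∨ 2 * (z + 1) + 2 * i + s ≤ s * s)

/-- The algebra of hybrid chains. -/
class R2a (K : Type) [Field K] (p : ℕ) : Prop where
  mem : ∀ {cc d : Cd} {n m : ℕ} (G : GC K p cc d n m) {r r' : Fin n}, r'.1 = r.1 + 1 →
    ∀ (k : Fin m) {L : Fld K} {x} (S : L) (T : Mid m × UpN n → L), G.gS.mem L x →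
    (((zd G.C G.t n G.s G.e).Ch m).kum G.N).S.mem L (hpt r r' k x S T).1.1 ∧
      (((zd G.C G.t n G.s G.e).Ch m).kum G.N).φ L (hpt r r' k x S T).1.1 -
        (x.1.2.1.2 ^ p - x.1.2.1.2) =
        cfu r r' G.s x k * (alf r r' x S T k.castSucc * alf r r' x S T k.succ)
  agree : ∀ {cc d : Cd} {n m : ℕ} {r r' : Fin n}, r'.1 = r.1 + 1 → ∀ (j : Fin (m + 1)) {L : Fld K}
    (x : (gsh cc d n m).X L) (S : L) (T : Mid m × UpN n → L), alf r r' x S T j = 0 →
    hpt r r' j x S T = hpt r r' (j.1 - 1) x S T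
  zero : ∀ {cc d : Cd} {n m : ℕ} {r r' : Fin n}, r'.1 = r.1 + 1 → ∀ {L : Fld K}
    (x : (gsh cc d n m).X L) (S : L) (T : Mid m × UpN n → L),
    hpt r r' 0 x S T = gpt x (shT r r' S T) ∧ shT r r' (-S) (shT r r' S T) = T ∧
      ∀ j, nmat (shT r r' S T) j r r' = nmat T j r r'
  last : ∀ {cc d : Cd} {n m : ℕ} {r r' : Fin n}, r'.1 = r.1 + 1 → ∀ {L : Fld K}
    (x : (gsh cc d n m).X L) (S : L) (T : Mid m × UpN n → L),
    hpt r r' (m - 1) x S T = gpt (gsw r r' x S) T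
  refr : ∀ {cc d : Cd} {n m : ℕ} {r r' : Fin n}, r'.1 = r.1 + 1 → ∀ (k : ℕ) {i : ℕ} {L M : Fld K}
    {α : L →ₐ[K] M} (x : (gsh cc d n m).X L) {b : Matrix (Fin n) (Fin n) L}
    {T : Option (Mid m × UpN n) → M}, Bor b → Free i α T →
    ∃ T' : Option (Mid m × UpN n) → M, Free i α T' ∧
      T' none = T none * α (b r r) / (α (b r' r') - T none * α (b r r')) ∧
      hpt r r' k ((gsh cc d n m).map α x) (T none) (fun a => T (some a)) =
        hpt r r' k ((gsh cc d n m).map α (gmul x b)) (T' none) fun a => T' (some a)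
  rel : ∀ {cc d : Cd} {n m : ℕ} (r r' : Fin n) {M L : Fld K} (R : Rel M L)
    {x : (gsh cc d n m).X M} {x' : (gsh cc d n m).X L} {S : M} {S' : L} {T : Mid m × UpN n → M}
    {T' : Mid m × UpN n → L}, (gsh cc d n m).lift R.r x x' → x'.2.2.det ≠ 0 → R.r S S' →
    (∀ a, R.r (T a) (T' a)) →
    (∀ k, (tsh cc d n m).lift R.r (hpt r r' k x S T) (hpt r r' k x' S' T')) ∧
      (∀ j, R.r (alf r r' x S T j) (alf r r' x' S' T' j)) ∧ R.r (nu r r' x) (nu r r' x') ∧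
      ∀ a, R.r (shT r r' S T a) (shT r r' S' T' a)
  int : ∀ {cc d : Cd} {n m : ℕ} {r r' : Fin n}, r'.1 = r.1 + 1 → ∀ (k : ℕ) {M : Fld K} (O : Pl M)
    (x : (gsh cc d n m).X M) (S : M) (T : Mid m × UpN n → M)
    {g' : Matrix (Fin n) (Fin n) O.res}, (Rel.ofPl O).m' x.2.2 g' → g'.det ≠ 0 → S ∈ O.O →
    (tsh cc d n m).all (· ∈ O.O) (hpt r r' k x S T) →
    (∀ (j : Mid m) i, x.1.1.2 j.1 i ∈ O.O) ∧ ∀ a, T a ∈ O.O
  red : ∀ {cc d : Cd} {n m : ℕ} (G : GC K p cc d n m) {r r' : Fin n}, r'.1 = r.1 + 1 → ∀ (k : ℕ)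
    {M : Fld K} (O : Pl M) {x : (gsh cc d n m).X M} (S : M) (T : Mid m × UpN n → M)
    {g' : Matrix (Fin n) (Fin n) O.res} {u : (tsh cc d n m).X O.res}, G.gS.mem M x →
    (Rel.ofPl O).m' x.2.2 g' → g'.det ≠ 0 → S ∈ O.O →
    (tsh cc d n m).lift (Rel.ofPl O).r (hpt r r' k x S T) u → (G.tt m).mem O.res u →
    ∃ x', G.gS.mem O.res x' ∧ (gsh cc d n m).lift (Rel.ofPl O).r x x'

/-- The relation attached to a simple reflection. -/
class R2 (K : Type) [Field K] (p : ℕ) : Prop where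
  rel : ∀ {cc d : Cd} {n m : ℕ} (G : GC K p cc d n m), Even m → ∀ {r r' : Fin n}, r'.1 = r.1 + 1 →
    ∀ {i : ℕ}, G.j = i + 1 + Nat.card (Mid m × UpN n) → ∀ {L : Fld K} {x}, G.gS.mem L x →
    Good (i + 1) L → nu r r' x ≠ 0 → ∀ (A : Finset (Dv L i)) (val : Dv L i → ℂ),
    (∀ O ∈ A, ∃ x', G.gS.mem O.1.res x' ∧ (gsh cc d n m).lift (Rel.ofPl O.1).r x x' ∧
      val O = (O.1.ord (nu r r' x) : ℂ) * G.Γs r r' i O.1.res x') →
    (∀ O ∉ A, ∀ b x', Bor b → G.gS.mem O.1.res x' →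
      (gsh cc d n m).lift (Rel.ofPl O.1).r (gmul x b) x' → 0 < O.1.ord (nu r r' (gmul x b)) →
      G.Γs r r' i O.1.res x' = 0) →
    G.Γ (i + 1) L x + G.Γ (i + 1) L (zperm (Equiv.swap r r') x.1, x.2) + ∑ O ∈ A, val O = 0

/-- The relation between the families. -/
class G3 (K : Type) [Field K] (p : ℕ) : Prop where
  rel : ∀ {cc d : Cd} {n m : ℕ} (G : GC K p cc d n m), Even m → ∀ {r r' : Fin n}, r'.1 = r.1 + 1 →
    ∀ {s i : ℕ}, r'.1 < s → s ≤ n → G.j = i + Nat.card (UpN n) + Nat.card (Mid m × UpN n) →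
    ∀ {L : Fld K} {z}, G.zS.mem L z →
    G.γ s r' i L z + G.γ s r' i L (zperm (Equiv.swap r r') z) +
      G.γ s r i L (zperm (Equiv.swap r r') z) +
      (if r'.1 + 1 < s then G.γ s (r'.1 + 1) i L (zperm (Equiv.swap r r') z) else 0) = 0

/-- The first and the last families. -/
class G4 (K : Type) [Field K] (p : ℕ) : Prop where
  fam : ∀ {cc d : Cd} {n m : ℕ} (G : GC K p cc d n m) {s r : ℕ}, r < s → s ≤ n →
    Mp (G.zS.prod (.univ K (.vec (UpN n)))) G.gS fun L x => G.fam s r L x.1 x.2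
  eq : ∀ {cc d : Cd} {n m : ℕ} (G : GC K p cc d n m) {s r i : ℕ}, r < s → s ≤ n →
    G.j = i + Nat.card (UpN n) + Nat.card (Mid m × UpN n) → ∀ {L M : Fld K} {α : L →ₐ[K] M}
    {T : UpN n → M} {z}, G.zS.mem L z → Free i α T →
    G.Γ (i + Nat.card (UpN n)) M (G.fam s r M ((zsh cc d n m).map α z) T) = G.γ s r i L z
  step : ∀ {cc d : Cd} {n m : ℕ} (G : GC K p cc d n m) {s i : ℕ}, 0 < s → s + 1 ≤ n →
    G.j = i + Nat.card (UpN n) + Nat.card (Mid m × UpN n) → ∀ {L : Fld K} {z}, G.zS.mem L z →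
    G.γ (s + 1) s i L z = G.γ s 0 i L z
  one : ∀ {cc d : Cd} {n m : ℕ} (G : GC K p cc d n m) {i : ℕ}, 0 < n →
    G.j = i + Nat.card (UpN n) + Nat.card (Mid m × UpN n) → ∀ {L M : Fld K} {α : L →ₐ[K] M}
    {T : Fin m × UpN n → M} {z}, G.zS.mem L z → Free i α T →
    G.γ 1 0 i L z = G.a M (zpt ((zsh cc d n m).map α z) fun j => (diagonal (z.1.2 j)).map α +
      Fin.cases 0 (fun a => upm Fin.val fun u => T (a, u)) j)
  top : ∀ {cc d : Cd} {n m : ℕ} (G : GC K p cc d n m),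
    (∀ L x r y w, psi (x.2 (Fin.last m)) = 0 → G.Ψ.b L (x, r) y w = 0) →
    ∀ (i : ℕ) (L : Fld K) z, G.γ n 0 i L z = 0

end Pool.Agent.Lib.MP_557161_ag.HG
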