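import Pool.Agent.Lib.MP_557161_ag.HG.St2
import Pool.Agent.Lib.MP_557161_ag.HG.Itf

/-!
From the double plane to the torus side of the chains: definitions and statements.
-/

namespace Pool.Agent.Lib.MP_557161_ag.HG

open Pool.Agent.Lib.MP_557161_ag.DL MvPolynomial

variable {K : Type} [Field K] {cc : Cd}

/-- The shape of one copy of the hypergeometric torus. -/
abbrev wsh (A B : Type) [Finite A] [Finite B] : Cd := (Cd.vec A).prod (.vec B)

/-- Copies of the hypergeometric torus `∏ w = t ∏ w'`. -/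
noncomputable def tw (C : EqD K cc) (t : K) (κ : Type) [Fintype κ] {A B : Type} [Fintype A]
    [Fintype B] (e : A → ℕ) (e' : B → ℕ) : EqD K (cc.prod (.pi κ (wsh A B))) :=
  C.ext (((C.S.prod (.univ K (.pi κ (wsh A B)))).opn
      (fun _ x => ∀ i, (∀ a, (x.2 i).1 a ≠ 0) ∧ ∀ b, (x.2 i).2 b ≠ 0)
      fun _ _ _ _ _ _ _ e h i => ⟨fun a => Rel.ne_zero ((e.2 i).1 a) ((h i).1 a),
        fun b => Rel.ne_zero ((e.2 i).2 b) ((h i).2 b)⟩).cl
    (fun L x => ∀ i, ∏ a, (x.2 i).1 a = algebraMap K L t * ∏ b, (x.2 i).2 b)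
    fun _ _ R _ _ _ _ e h i => Rel.eq (Rel.prod _ fun a _ => (e.2 i).1 a)
      (R.mul (R.const t) (Rel.prod _ fun b _ => (e.2 i).2 b)) (h i))
    (fun _ _ h => h.1.1.1)
    (fun _ x => ∑ i, (∑ a, (x.2 i).1 a - ∑ b, (x.2 i).2 b))
    (fun _ x => ∏ i, ((∏ a, (x.2 i).1 a ^ e a) * ∏ b, (x.2 i).2 b ^ e' b))
    (fun _ _ _ _ _ _ _ e => Rel.sum _ fun i _ =>
      Rel.sub (Rel.sum _ fun a _ => (e.2 i).1 a) (Rel.sum _ fun b _ => (e.2 i).2 b))
    (fun _ _ R _ _ _ _ e => Rel.prod _ fun i _ => R.mul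
      (Rel.prod _ fun a _ => Rel.pow ((e.2 i).1 a) _) (Rel.prod _ fun b _ => Rel.pow ((e.2 i).2 b) _))
    fun _ _ h => Finset.prod_ne_zero_iff.2 fun i _ => mul_ne_zero
      (Finset.prod_ne_zero_iff.2 fun a _ => pow_ne_zero _ ((h.1.2 i).1 a))
      (Finset.prod_ne_zero_iff.2 fun b _ => pow_ne_zero _ ((h.1.2 i).2 b))

/-- The elementary symmetric functions. -/
noncomputable def es {ι F : Type} [Fintype ι] [CommRing F] (u : ι → F) (k : ℕ) : F :=
  aeval u (esymm ι ℤ k)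

/-- The hypergeometric data. -/
structure HD (K : Type) [Field K] where
  b : Option (Fin 3) → ℕ
  lam : K
  hb : b none = ∑ l, b (some l) + 1
  l0 : lam ≠ 0
  two : (2 : K) ≠ 0
  ch : ∀ l, ((2 * b l + 1 : ℕ) : K) ≠ 0
  disc : lam ^ (2 * b none + 1) * ∏ l, ((2 * b (some l) + 1 : ℕ) : K) ^ (2 * b (some l) + 1) ≠
    (-((2 * b none + 1 : ℕ) : K)) ^ (2 * b none + 1)

/-- The sign of the phase. -/
def sgO {F : Type} [Ring F] (l : Option (Fin 3)) : F := l.elim (-1) fun _ => 1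

lemma Rel.sgO {M L : Fld K} (R : Rel M L) (l : Option (Fin 3)) : R.r (sgO l) (sgO l) := by
  cases l
  exacts [Rel.neg R.one, R.one]

namespace HD

variable (H : HD K)

/-- The exponents. -/
abbrev aa (l : Option (Fin 3)) : ℕ := 2 * H.b l + 1

/-- The common denominator. -/
def N : ℕ := 2 * ∏ l, H.aa l

/-- The parameter. -/
def t : K := (-(H.aa none : K) / H.lam) ^ H.aa none / ∏ l, (H.aa (some l) : K) ^ H.aa (some l)

/-- The torus `∏ X ^ a = 1` times the line. -/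
noncomputable def V3 : ASp K xz :=
  ((ASp.univ K xz).opn (fun _ x => ∀ i, x.1 i ≠ 0)
    fun _ _ _ _ _ _ _ e h i => Rel.ne_zero (e.1 i) (h i)).cl
    (fun _ x => ∏ i, x.1 i ^ H.aa (some i) = 1)
    fun _ _ R _ _ _ _ e h => Rel.eq (Rel.prod _ fun i _ => Rel.pow (e.1 i) _) R.one h

/-- The double cover of the torus. -/
noncomputable def U3 : ASp K xz :=
  H.V3.cl (fun L x => x.2 ^ 2 = ∑ i, x.1 i + algebraMap K L H.lam)
    fun _ _ R _ _ _ _ e h => Rel.eq (Rel.pow e.2 2)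
      (R.add (Rel.sum _ fun i _ => e.1 i) (R.const _)) h

/-- The shape of points `(π, ρ)`. -/
abbrev ysh : Cd := (Cd.vec (Option (Fin 3))).prod .one

/-- The torus with coordinates `(π, ρ)`. -/
noncomputable def TY : ASp K ysh :=
  ((ASp.univ K ysh).opn (fun _ x => ∀ l, x.1 l ≠ 0)
    fun _ _ _ _ _ _ _ e h i => Rel.ne_zero (e.1 i) (h i)).cl
    (fun L x => x.2 ^ 2 = x.1 none ∧
      ∏ l, x.1 (some l) ^ H.aa (some l) = algebraMap K L H.t * x.1 none ^ H.aa none)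
    fun _ _ R _ _ _ _ e h => ⟨Rel.eq (Rel.pow e.2 2) (e.1 _) h.1,
      Rel.eq (Rel.prod _ fun i _ => Rel.pow (e.1 _) _) (R.mul (R.const _) (Rel.pow (e.1 _) _)) h.2⟩

/-- The indices of the roots. -/
abbrev Ix : Type := Σ l : Option (Fin 3), Fin (H.aa l)

/-- The shape of points `(u, ρ)`. -/
abbrev ush : Cd := (Cd.vec H.Ix).prod .one

/-- The torus with coordinates `(u, ρ)`. -/
noncomputable def TU : ASp K H.ush :=
  ((ASp.univ K H.ush).opn (fun _ x => ∀ a, x.1 a ≠ 0)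
    fun _ _ _ _ _ _ _ e h i => Rel.ne_zero (e.1 i) (h i)).cl
    (fun L x => x.2 ^ 2 = ∏ k, x.1 ⟨none, k⟩ ^ H.aa none ∧
      ∏ l, ∏ k, x.1 ⟨some l, k⟩ ^ H.aa (some l) =
        algebraMap K L H.t * ∏ k, x.1 ⟨none, k⟩ ^ H.aa none)
    fun _ _ R _ _ _ _ e h =>
      have := Rel.prod (R := R) Finset.univ fun k _ => Rel.pow (e.1 ⟨none, k⟩) (H.aa none)
      ⟨Rel.eq (Rel.pow e.2 2) this h.1, Rel.eq
        (Rel.prod _ fun _ _ => Rel.prod _ fun _ _ => Rel.pow (e.1 _) _) (R.mul (R.const _) this) h.2⟩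

variable (κ : Type) [Fintype κ]

/-- The points `((X, z), s)`. -/
noncomputable def E3 : Ph K (.pi κ (xz.prod .one)) where
  S := (H.V3.prod (.gm K)).pi κ
  φ L x := ∑ i, (x i).2 * (∑ l, (x i).1.1 l + algebraMap K L H.lam - (x i).1.2 ^ 2)
  reg _ _ R _ _ _ _ e := Rel.sum _ fun i _ => R.mul (e i).2
    (Rel.sub (R.add (Rel.sum _ fun l _ => (e i).1.1 l) (R.const _)) (Rel.pow (e i).1.2 2))

/-- The points `(v, (π, ρ))`. -/
noncomputable def EY : Ph K ((Cd.vec κ).prod (.pi κ ysh)) where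
  S := (ASp.univ K (.vec κ)).prod (H.TY.pi κ)
  φ _ x := -∑ i, x.1 i ^ 2 + ∑ i, ∑ l, sgO l * (H.aa l * (x.2 i).1 l)
  reg _ _ R _ _ _ _ e := R.add (Rel.neg (Rel.sum _ fun i _ => Rel.pow (e.1 i) 2))
    (Rel.sum _ fun i _ => Rel.sum _ fun l _ => R.mul (R.sgO l) (R.mul (R.natCast _) ((e.2 i).1 l)))

/-- The points `(v, (u, ρ))`. -/
noncomputable def EU : Ph K ((Cd.vec κ).prod (.pi κ H.ush)) where
  S := (ASp.univ K (.vec κ)).prod (H.TU.pi κ)
  φ _ x := -∑ i, x.1 i ^ 2 + ∑ i, ∑ a : H.Ix, sgO a.1 * (x.2 i).1 a ^ H.aa a.1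
  reg _ _ R _ _ _ _ e := R.add (Rel.neg (Rel.sum _ fun i _ => Rel.pow (e.1 i) 2))
    (Rel.sum _ fun i _ => Rel.sum _ fun a _ => R.mul (R.sgO _) (Rel.pow ((e.2 i).1 a) _))

end HD

section Act

variable {κ : Type} [Finite κ] {c : Cd}

/-- Permutation of the copies. -/
def cperm (σ : Equiv.Perm κ) (L : Fld K) (x : ((Cd.vec κ).prod (.pi κ c)).X L) :
    ((Cd.vec κ).prod (.pi κ c)).X L := (x.1, fun i => x.2 (σ i))

/-- A transformation of one copy. -/
def cact [DecidableEq κ] (i : κ) (γ : ∀ L : Fld K, c.X L → c.X L) (L : Fld K)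
    (x : ((Cd.vec κ).prod (.pi κ c)).X L) : ((Cd.vec κ).prod (.pi κ c)).X L :=
  (x.1, Function.update x.2 i (γ L (x.2 i)))

/-- The change of the sign of the last coordinate. -/
def ngl (L : Fld K) (x : (c.prod .one).X L) : (c.prod .one).X L := (x.1, -x.2)

variable {I : Type} [Finite I]

/-- Permutation of the coordinates. -/
def uperm (σ : Equiv.Perm I) (L : Fld K) (x : ((Cd.vec I).prod .one).X L) :
    ((Cd.vec I).prod .one).X L := (fun a => x.1 (σ a), x.2)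

/-- Multiplication of the coordinates by constants. -/
def umul (ξ : I → K) (L : Fld K) (x : ((Cd.vec I).prod .one).X L) : ((Cd.vec I).prod .one).X L :=
  (fun a => algebraMap K L (ξ a) * x.1 a, x.2)

end Act

namespace HD

variable (H : HD K) (p : ℕ) (κ : Type) [Fintype κ] [DecidableEq κ]

/-- The vanishing statement on `E3`. -/
def ST3 : Prop :=
  ∀ {d : Cd} (W : ASp K d) (j : ℕ) (Φ : NF p j (H.E3 κ) W),
    (∀ σ : Equiv.Perm κ, Φ.Eqv (fun _ x i => x (σ i)) ((Equiv.Perm.sign σ : ℤ) : ℂ)) →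
    (∀ i, Φ.Eqv (fun L x => Function.update x i (ngz L (x i).1, (x i).2)) (-1)) →
    ∀ L x y w, Φ.b L x y w = 0

/-- The vanishing statement on `EY`. -/
def ST5 : Prop :=
  ∀ {d : Cd} (W : ASp K d) (j : ℕ) (Φ : NF p j (H.EY κ) W), (∀ σ, Φ.Eqv (cperm σ) 1) →
    (∀ i, Φ.Eqv (cact i ngl) (-1)) → ∀ L x y w, Φ.b L x y w = 0

/-- The vanishing statement on `EU` for symmetric functionals. -/
def ST8 : Prop :=
  ∀ {d : Cd} (W : ASp K d) (j : ℕ) (Φ : NF p j (H.EU κ) W), (∀ σ, Φ.Eqv (cperm σ) 1) →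
    (∀ i, Φ.Eqv (cact i ngl) (-1)) →
    (∀ i (σ : Equiv.Perm H.Ix), (∀ a, (σ a).1 = a.1) → Φ.Eqv (cact i (uperm σ)) 1) →
    ∀ L x y w, Φ.b L x y w = 0

open Classical in
/-- The vanishing statement on `EU` for the standard character. -/
def ST10 : Prop :=
  ∀ (ζ : K) (ω : ℂ), IsPrimitiveRoot ζ H.N → IsPrimitiveRoot ω H.N →
  ∀ {d : Cd} (W : ASp K d) (j : ℕ) (Φ : NF p j (H.EU κ) W), (∀ σ, Φ.Eqv (cperm σ) 1) →
    (∀ i, Φ.Eqv (cact i ngl) (-1)) →
    (∀ i (a : H.Ix), Φ.Eqv (cact i (umul fun a' => if a' = a then ζ ^ (H.N / H.aa a.1) else 1))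
      (ω ^ (H.N / H.aa a.1 * a.2.1))) →
    ∀ L x y w, Φ.b L x y w = 0

end HD

/-- Symmetric functionals on copies of the hypergeometric torus vanish. -/
class MT (K : Type) [Field K] (p : ℕ) : Prop where
  van : ∀ {N : ℕ}, 0 < N → ∀ {cc d : Cd} (C : EqD K cc) (W : ASp K d) (t : K), t ≠ 0 → t ≠ 1 →
    ∀ (κ : Type) [Fintype κ] {A B : Type} [Fintype A] [Fintype B] (e : A → ℕ) (e' : B → ℕ),
    0 < Nat.card κ → Nat.card A = Nat.card κ → Nat.card B = Nat.card κ →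
    EVan p N (tor C fun x : A × B => e x.1 + e' x.2) W →
    ∀ {j : ℕ} (Φ : NF p j ((tw C t κ e e').kum N) W),
      (∀ σ : Equiv.Perm κ, Φ.Eqv (fun _ x => ((x.1.1, fun i => x.1.2 (σ i)), x.2)) 1) →
      ∀ L x y w, Φ.b L x y w = 0

/-- From the double plane to the double cover of the torus. -/
class A1 (K : Type) [Field K] : Prop where
  red : ∀ G : GD K, ∃ H : HD K, H.aa none = G.n ∧ ∀ (κ : Type) [Fintype κ] [DecidableEq κ],
    AltV H.U3 ngz κ → AltS G.UU ngz κ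

/-- Passage to an Artin-Schreier cover. -/
class A2a (K : Type) [Field K] (p : ℕ) : Prop where
  red : ∀ (H : HD K) (κ : Type) [Fintype κ] [DecidableEq κ], H.ST3 p κ → AltV H.U3 ngz κ

/-- Separation of the quadratic variables. -/
class A2b (K : Type) [Field K] (p : ℕ) : Prop where
  red : ∀ (H : HD K) (κ : Type) [Fintype κ] [DecidableEq κ], H.ST5 p κ → H.ST3 p κ

/-- Power sums of odd degree and elementary symmetric functions. -/
class A3 (K : Type) [Field K] : Prop where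
  newton : ∀ b : ℕ, ∃ (P : MvPolynomial (Fin b) ℤ) (H : Fin b → MvPolynomial (Fin b) ℤ),
    (∀ (F : Fld K) (u : Fin (2 * b + 1) → F), ∑ k, u k ^ (2 * b + 1) =
      aeval (fun k : Fin b => es u (k + 1)) P + ∑ k : Fin b, es u (b + 1 + k) *
        (((2 * b + 1 : ℕ) : F) * aeval (fun k : Fin b => es u (k + 1)) (H k)) +
        ((2 * b + 1 : ℕ) : F) * ∏ k, u k) ∧
    (∀ F : Fld K, aeval (fun _ : Fin b => (0 : F)) P = 0) ∧
    ∀ (F : Fld K) (e : Fin b → F), (∀ k, aeval e (H k) = 0) ↔ e = 0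
  top : ∀ (F : Fld K) (a : ℕ) (u : Fin a → F), es u a = ∏ k, u k
  perm : ∀ (F : Fld K) (a : ℕ) (u : Fin a → F) (σ : Equiv.Perm (Fin a)) (k : ℕ),
    es (fun i => u (σ i)) k = es u k
  srj : ∀ (F : Fld K) [IsAlgClosed F] (a : ℕ) (c : ℕ → F), ∃ u : Fin a → F,
    ∀ k, 0 < k → k ≤ a → es u k = c k
  int : ∀ {M : Fld K} (O : Pl M) (a : ℕ) (u : Fin a → M), (∀ k, 0 < k → k ≤ a → es u k ∈ O.O) →
    ∀ i, u i ∈ O.O

/-- The relation of Hasse and Davenport: passage to the roots. -/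
class A4 (K : Type) [Field K] (p : ℕ) : Prop where
  red : ∀ (H : HD K) (κ : Type) [Fintype κ] [DecidableEq κ], H.ST8 p κ → H.ST5 p κ

open Classical in
/-- Repeated characters do not contribute. -/
class A5a (K : Type) [Field K] (p : ℕ) : Prop where
  rep : ∀ (H : HD K) (κ : Type) [Fintype κ] [DecidableEq κ] {d : Cd} (W : ASp K d) (j : ℕ)
    (Φ : NF p j (H.EU κ) W) (i : κ) (l : Option (Fin 3)) (k k' : Fin (H.aa l)) (ξ : K), k ≠ k' →
    IsPrimitiveRoot ξ (H.aa l) → Φ.Eqv (cact i (uperm (Equiv.swap ⟨l, k⟩ ⟨l, k'⟩))) 1 →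
    Φ.Eqv (cact i (umul fun a => if a = ⟨l, k⟩ then ξ else if a = ⟨l, k'⟩ then ξ⁻¹ else 1)) 1 →
    ∀ L x y w, Φ.b L x y w = 0

/-- Reduction to the standard character. -/
class A5 (K : Type) [Field K] (p : ℕ) : Prop where
  red : ∀ (H : HD K) (κ : Type) [Fintype κ] [DecidableEq κ], H.ST10 p κ → H.ST8 p κ

/-- Descent to the hypergeometric torus. -/
class A6 (K : Type) [Field K] (p : ℕ) : Prop where
  van : ∀ (H : HD K) (κ : Type) [Fintype κ] [DecidableEq κ], Nat.card κ = H.aa none → H.ST10 p κ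

end Pool.Agent.Lib.MP_557161_ag.HG
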