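import Pool.Agent.Lib.MP_557161_ag.HG.XD

/-!
The intersection with the diagonal of the double plane: definitions and statements.
-/

namespace Pool.Agent.Lib.MP_557161_ag.HG

open Pool.Agent.Lib.MP_557161_ag.DL MvPolynomial Submodule

section Defs

variable {K : Type} [Field K]

/-- The point `y + ρ v`. -/
def mv {L : Type} [CommRing L] (y : xz.X L) (ρ : L) (v : xz.X L) : xz.X L :=
  (y.1 + ρ • v.1, y.2 + ρ * v.2)

namespace GD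

variable (G : GD K) {d : Cd} {W : ASp K d} {j : ℕ}

/-- Two tangent vectors that span the tangent plane. -/
structure Frm (L : Fld K) (y v₀ v₁ : xz.X L) : Prop where
  cn : G.Cn L y
  t0 : G.Tn L y v₀
  t1 : G.Tn L y v₁
  ind : LinearIndependent L ![G.tv y v₀, G.tv y v₁]

/-- The point of the exceptional divisor with direction `v₀ + T v₁`. -/
noncomputable def fp {L M : Fld K} (α : L →ₐ[K] M) (y v₀ v₁ : xz.X L) (T : M) : G.A3.pt M :=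
  ((G.pt M (xz.map α y), G.pt M (xz.map α y)),
    span M {mapV α (G.tv y v₀) + T • mapV α (G.tv y v₁)})

/-- `ψ` is the composition of the intersection with `e` times the first Chern class of the excess
bundle, of the projection to `W` and of `φ`. -/
def IsPsi (φ : AF j W) (ψ : Fe (j + 1) (G.EE.prod W.sp)) : Prop :=
  ∀ (M : Fld K) (y : xz.X M) (b : G.σ × G.σ → M) (w : d.X M), Good (j + 1) M → G.Cn M y → b ≠ 0 →
    G.EE.mem (L := M) ((G.pt M y, G.pt M y), span M {b}) → W.mem M w →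
    HasS (fun O : Dv M j =>
      ((-(G.e * ordv O.1 b) - (3 - 3 * G.e) * ordv O.1 (G.nu y) : ℤ) : ℂ) * rv φ.a O.1 w)
      (ψ.v M (((G.pt M y, G.pt M y), span M {b}), some w))

/-- `Ξ` is the composition of the intersection with the exceptional divisor and of `ψ`. -/
def IsXi (ψ : Fe j (G.EE.prod W.sp)) (Ξ : Fe (j + 1) (G.BB.prod W.sp)) : Prop :=
  ∀ (M : Fld K) (y y' : xz.X M) (b : G.σ × G.σ → M) (w : d.X M) (τ : M), Good (j + 1) M →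
    G.Cn M y → G.Cn M y' → b ≠ 0 → G.BB.mem (L := M) ((G.pt M y, G.pt M y'), span M {b}) →
    W.mem M w → τ ≠ 0 → (G.pt M y ≠ G.pt M y' → G.sv y y' = τ • b) →
    HasS (fun O : Dv M j =>
      ((O.1.ord τ - ordv O.1 (G.nu y) - ordv O.1 (G.nu y') + ordv O.1 b : ℤ) : ℂ) *
        ψ.v O.1.res ((G.A3.prod (d.amb K)).red O.1 (((G.pt M y, G.pt M y'), span M {b}), some w)))
      (Ξ.v M (((G.pt M y, G.pt M y'), span M {b}), some w))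

/-- `Ξ` vanishes on the cycles that are unions of fibres of the blow-up. -/
def FibZ (Ξ : Fe (j + 1) (G.BB.prod W.sp)) : Prop :=
  ∀ (L M : Fld K) (α : L →ₐ[K] M) (T : M) (y v₀ v₁ : xz.X L) (w : d.X L), Good j L → Trans' α T →
    Gen α T → G.Frm L y v₀ v₁ → W.mem L w → Ξ.v M (G.fp α y v₀ v₁ T, some (d.map α w)) = 0

/-- `Ξ` comes from `Ψ`. -/
def IsCon (Ξ : Fe j (G.BB.prod W.sp)) (Ψ : Fe j (G.X2.prod W.sp)) : Prop :=
  ∀ (L : Fld K) (s : G.A3.pt L) (w : d.X L), G.BB.mem s → Ψ.v L (s.1, some w) = Ξ.v L (s, some w)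

/-- `Ψ` is the composition of `e` times the intersection with the diagonal, of the projection to
`W` and of `φ`. -/
def Con (φ : AF j W) (Ψ : Fe (j + 2) (G.X2.prod W.sp)) : Prop :=
  ∃ (ψ : Fe (j + 1) (G.EE.prod W.sp)) (Ξ : Fe (j + 2) (G.BB.prod W.sp)),
    G.IsPsi φ ψ ∧ G.IsXi ψ Ξ ∧ G.IsCon Ξ Ψ

/-- `Φ` is the restriction of `c` times the antisymmetrisation of `Ψ`. -/
def IsAff (c : ℂ) (Ψ : Fe j (G.X2.prod W.sp)) (Φ : AF j ((G.UU.prod G.UU).prod W)) : Prop :=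
  ∀ (L : Fld K) (A B : xz.X L) (w : d.X L), G.UU.mem L A → G.UU.mem L B →
    Φ.a L ((A, B), w) = c * ∑ ε : Bool, ∑ ε' : Bool, sn ε * sn ε' *
      Ψ.v L ((G.pt L (sg ε L A), G.pt L (sg ε' L B)), some w)

end GD

end Defs

variable (K : Type) [Field K]

/-- Points of the double plane. -/
class YA : Prop where
  pt_eq : ∀ {G : GD K} {L : Fld K} {y y' : xz.X L}, G.Cn L y → G.Cn L y' → G.pt L y = G.pt L y' →
    ∃ a : L, a ≠ 0 ∧ y' = G.scl a y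
  sv_eq : ∀ {G : GD K} {L : Fld K} {y y' : xz.X L}, G.Cn L y → G.Cn L y' →
    (G.sv y y' = 0 ↔ G.pt L y = G.pt L y')
  tv_eq : ∀ {G : GD K} {L : Fld K} {y : xz.X L} (v : xz.X L), G.Cn L y →
    (G.tv y v = 0 ↔ ∃ c : L, v = (c • y.1, c * G.e * y.2))
  prim : ∀ {G : GD K} {M : Fld K} (O : Pl M) {y : xz.X M}, G.Cn M y →
    ∃ a : M, a ≠ 0 ∧ IntV O (G.scl a y).1 ∧ rdV O (G.scl a y).1 ≠ 0
  red : ∀ {G : GD K} {M : Fld K} {O : Pl M} {y : xz.X M}, G.Cn M y → IntV O y.1 → rdV O y.1 ≠ 0 →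
    y.2 ∈ O.O ∧ G.Cn O.res (xz.map O.rd y) ∧
      (Sub K G.σ).red O (G.pt M y) = G.pt O.res (xz.map O.rd y) ∧ IntV O (G.nu y) ∧
      rdV O (G.nu y) = G.nu (xz.map O.rd y) ∧ (O.IsDVR → ordv O (G.nu y) = 0)
  uu : ∀ {G : GD K} {L : Fld K} {y : xz.X L}, G.UU.mem L y → G.Cn L y
  uu_eq : ∀ {G : GD K} {L : Fld K} {y y' : xz.X L}, G.UU.mem L y → G.UU.mem L y' →
    G.pt L y = G.pt L y' → y = y'
  uu_red : ∀ {G : GD K} {M : Fld K} {O : Pl M} {y : xz.X M} {y' : xz.X O.res}, G.UU.mem M y →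
    G.UU.mem O.res y' → ((Sub K G.σ).red O (G.pt M y) = G.pt O.res y' ↔
      xz.lift (Rel.ofPl O).r y y')
  taylor : ∀ (G : GD K) {M : Fld K} (O : Pl M) (y v : xz.X M) (ρ : M), xz.all (· ∈ O.O) y →
    xz.all (· ∈ O.O) v → ρ ∈ O.O → IntV O (G.dnu y v) ∧
      rdV O (G.dnu y v) = G.dnu (xz.map O.rd y) (xz.map O.rd v) ∧
      ∃ r, IntV O r ∧ G.nu (mv y ρ v) = G.nu y + ρ • G.dnu y v + ρ ^ 2 • r
  near : ∀ {G : GD K} {M : Fld K} {O : Pl M} {y y' : xz.X M}, G.Cn M y → G.Cn M y' → IntV O y'.1 →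
    rdV O y'.1 ≠ 0 → G.pt M y ≠ G.pt M y' →
    (Sub K G.σ).red O (G.pt M y) = (Sub K G.σ).red O (G.pt M y') →
    ∃ (a ρ : M) (v : xz.X M), a ≠ 0 ∧ ρ ≠ 0 ∧ ρ ∈ O.O ∧ O.rd ρ = 0 ∧ xz.all (· ∈ O.O) v ∧
      G.scl a y = mv y' ρ v ∧ G.Tn O.res (xz.map O.rd y') (xz.map O.rd v) ∧
      G.tv (xz.map O.rd y') (xz.map O.rd v) ≠ 0
  cmp : ∀ {G : GD K} {M : Fld K} (O : Pl M) {E : (Sub K G.σ).pt M}, G.XX.mem E →
    G.XX.mem ((Sub K G.σ).red O E)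
  atl : ∀ G : GD K, Atl G.XX
  sig : ∀ G : GD K, ∃ s : Mor G.XX G.XX, ∀ (L : Fld K) (y : xz.X L), G.Cn L y →
    s.f (G.pt L y) = G.pt L (ngz L y)
  prj : ∀ G : GD K, ∃ π : Mor G.XX (Lines K (Fin 3)), ∀ (L : Fld K) (y : xz.X L), G.Cn L y →
    π.f (G.pt L y) = span L {y.1}

/-- The blow-up. -/
class YB : Prop where
  cmpB : ∀ {G : GD K} {M : Fld K} (O : Pl M) {s : G.A3.pt M}, G.BB.mem s → G.BB.mem (G.A3.red O s)
  cmpE : ∀ {G : GD K} {M : Fld K} (O : Pl M) {s : G.A3.pt M}, G.EE.mem s → G.EE.mem (G.A3.red O s)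
  atl : ∀ G : GD K, Atl G.BB ∧ Atl G.EE
  lift : ∀ {G : GD K} {L : Fld K} {s : G.A2.pt L}, G.X2.mem s → ∃ π, G.BB.mem (L := L) (s, π)
  off : ∀ {G : GD K} {L : Fld K} {y y' : xz.X L}, G.Cn L y → G.Cn L y' → G.pt L y ≠ G.pt L y' →
    ∀ π, G.BB.mem (L := L) ((G.pt L y, G.pt L y'), π) ↔ π = span L {G.sv y y'}
  on : ∀ {G : GD K} {L : Fld K} {y : xz.X L}, G.Cn L y →
    ∀ π, G.EE.mem (L := L) ((G.pt L y, G.pt L y), π) ↔
      ∃ v, G.Tn L y v ∧ G.tv y v ≠ 0 ∧ π = span L {G.tv y v}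
  frm : ∀ {G : GD K} {L : Fld K} {y : xz.X L}, G.Cn L y → ∃ v₀ v₁, G.Frm L y v₀ v₁
  frm_map : ∀ {G : GD K} {L L' : Fld K} (κ : L →ₐ[K] L') {y v₀ v₁ : xz.X L}, G.Frm L y v₀ v₁ →
    G.Frm L' (xz.map κ y) (xz.map κ v₀) (xz.map κ v₁)
  frm_span : ∀ {G : GD K} {L : Fld K} {y v₀ v₁ v : xz.X L}, G.Frm L y v₀ v₁ → G.Tn L y v →
    ∃ s t : L, G.tv y v = s • G.tv y v₀ + t • G.tv y v₁
  fp_mem : ∀ {G : GD K} {L M : Fld K} (α : L →ₐ[K] M) {y v₀ v₁ : xz.X L} (T : M),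
    G.Frm L y v₀ v₁ → mapV α (G.tv y v₀) + T • mapV α (G.tv y v₁) ≠ 0 ∧ G.EE.mem (G.fp α y v₀ v₁ T)
  dm : ∀ {G : GD K} {L N : Fld K} (ι : L →ₐ[K] N) {E : (Sub K G.σ).pt L}
    {π : (Sub K (G.σ × G.σ)).pt N},
    G.EE.mem (L := N) (((Sub K G.σ).map ι E, (Sub K G.σ).map ι E), π) →
    ∃ (L' : Fld K) (α : L →ₐ[K] L') (κ : L' →ₐ[K] N) (π' : (Sub K (G.σ × G.σ)).pt L'),
      κ.comp α = ι ∧ L'.tr ≤ L.tr + 1 ∧ (Sub K (G.σ × G.σ)).map κ π' = π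

/-- The determinant of the tangent bundle. -/
class YV : Prop where
  vol : ∀ {G : GD K} {L : Fld K} {y v₀ v₁ : xz.X L}, G.Frm L y v₀ v₁ → ∃ δ : L, δ ≠ 0 ∧
    ∀ O : Pl L, O.IsDVR → ∃ (a c₀ c₁ c : L) (u₀ u₁ : xz.X L), a ≠ 0 ∧ c₀ ≠ 0 ∧ c₁ ≠ 0 ∧
      IntV O (G.scl a y).1 ∧ rdV O (G.scl a y).1 ≠ 0 ∧ xz.all (· ∈ O.O) u₀ ∧ xz.all (· ∈ O.O) u₁ ∧
      G.Frm O.res (xz.map O.rd (G.scl a y)) (xz.map O.rd u₀) (xz.map O.rd u₁) ∧
      G.tv y v₀ = c₀ • G.tv (G.scl a y) u₀ + c • G.tv (G.scl a y) u₁ ∧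
      G.tv y v₁ = c₁ • G.tv (G.scl a y) u₁ ∧
      G.e * (O.ord c₀ + O.ord c₁) + (3 - 5 * G.e) * ordv O (G.nu y) = G.e * O.ord δ

/-- Existence of the two intersections with divisors. -/
class YD : Prop where
  psi : ∀ (G : GD K) {d : Cd} {W : ASp K d} {j : ℕ} (φ : AF j W), ∃ ψ, G.IsPsi φ ψ
  xi : ∀ (G : GD K) {d : Cd} {W : ASp K d} {j : ℕ} (ψ : Fe j (G.EE.prod W.sp)), ∃ Ξ, G.IsXi ψ Ξ

/-- The value on a fibre of the exceptional divisor. -/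
class YF : Prop where
  fib : ∀ {G : GD K} {d : Cd} {W : ASp K d} {j : ℕ} {φ : AF j W} {ψ}, G.IsPsi φ ψ →
    ∀ {L M : Fld K} {α : L →ₐ[K] M} {T : M} {y v₀ v₁ : xz.X L} {w : d.X L}, Good j L → Trans' α T →
    Gen α T → G.Frm L y v₀ v₁ → W.mem L w →
    ψ.v M (G.fp α y v₀ v₁ T, some (d.map α w)) = G.e * φ.a L w

/-- The key formula of the blow-up. -/
class YG : Prop where
  fibz : ∀ {G : GD K} {d : Cd} {W : ASp K d} {j : ℕ} {φ : AF j W} {ψ Ξ}, G.IsPsi φ ψ →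
    G.IsXi ψ Ξ → G.FibZ Ξ

/-- Descent from the blow-up. -/
class YH : Prop where
  desc : ∀ {G : GD K} {d : Cd} {W : ASp K d} {j : ℕ} (Ξ : Fe (j + 1) (G.BB.prod W.sp)), G.FibZ Ξ →
    ∃ Ψ, G.IsCon Ξ Ψ

/-- Naturality. -/
class YN : Prop where
  nat : ∀ {G : GD K} {d d' : Cd} {W : ASp K d} {W' : ASp K d'} {j : ℕ} {φ : AF j W} {φ' : AF j W'}
    {Ψ Ψ'}, G.Con φ Ψ → G.Con φ' Ψ' → ∀ {g : ∀ L : Fld K, d'.X L → d.X L}, Mp W' W g → Pro W' W g →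
    ∀ χ : ℂ, (∀ L w, W'.mem L w → φ'.a L w = χ * φ.a L (g L w)) →
    ∀ (L : Fld K) (s : G.A2.pt L) (w : d'.X L), W'.mem L w →
      Ψ'.v L (s, some w) = χ * Ψ.v L (s, some (g L w))

/-- Exterior products. -/
class YK : Prop where
  kills : ∀ {G : GD K} {d : Cd} {W : ASp K d} {j : ℕ} {φ : AF j W} {Ψ}, G.Con φ Ψ →
    ∀ q : d.ι → Prop, KlP d q j φ.a → ∀ (L L₁ L₂ : Fld K) (ι₁ : L₁ →ₐ[K] L) (ι₂ : L₂ →ₐ[K] L)
    (s : G.A2.pt L₁) (w : d.X L), (∀ i, q i → d.co w i ∈ Set.range ι₁) →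
    (∀ i, ¬ q i → d.co w i ∈ Set.range ι₂) → L₁.tr + L₂.tr ≤ (j + 2 : ℕ) →
    Ψ.v L (G.A2.map ι₁ s, some w) = 0

/-- The place of the blow-up of a rational point. -/
class YP : Prop where
  pt : ∀ {G : GD K} {j : ℕ} {L M : Fld K} {α : L →ₐ[K] M} {y : xz.X M}, G.GenU j α y →
    ∀ R : xz.X L, G.Cn L R → ∃ (O : Dv M (j + 1)) (h : Pl.Triv α O.1) (v₀ v₁ : xz.X L)
      (T : O.1.res) (a ρ : M) (v : xz.X M), G.Frm L R v₀ v₁ ∧ Trans' h.hom T ∧ Gen h.hom T ∧ a ≠ 0 ∧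
      O.1.ord ρ = 1 ∧ xz.all (· ∈ O.1.O) v ∧ G.scl a y = mv (xz.map α R) ρ v ∧
      G.tv (xz.map h.hom R) (xz.map O.1.rd v) =
        mapV h.hom (G.tv R v₀) + T • mapV h.hom (G.tv R v₁) ∧
      ∀ (O' : Pl M) (h' : Pl.Triv α O') (a' ρ' : M) (v' : xz.X M), O'.IsDVR → O' ≠ O.1 → a' ≠ 0 →
        ρ' ∈ O'.O → O'.rd ρ' = 0 → xz.all (· ∈ O'.O) v' → G.scl a' y = mv (xz.map α R) ρ' v' →
        G.tv (xz.map h'.hom R) (xz.map O'.rd v') ≠ 0 →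
        ∃ (L' : Fld K) (α' : L →ₐ[K] L') (κ : L' →ₐ[K] O'.res) (π : (Sub K (G.σ × G.σ)).pt L'),
          κ.comp α' = h'.hom ∧ L'.tr ≤ j ∧ (Sub K (G.σ × G.σ)).map κ π =
            span O'.res {G.tv (xz.map h'.hom R) (xz.map O'.rd v')}

/-- The diagonal is the unit. -/
class YU : Prop where
  unit : ∀ {G : GD K} {c d : Cd} {S : ASp K c} {W : ASp K d} {j : ℕ} {φ : AF j W} {Ψ}, G.Con φ Ψ →
    ∀ {g : ∀ L : Fld K, (xz.prod c).X L → d.X L}, Mp (G.UU.prod S) W g → Pro (G.UU.prod S) W g →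
    ∀ {L M : Fld K} {α : L →ₐ[K] M} {y : xz.X M}, G.GenU j α y → ∀ (R : xz.X L) (u : c.X L),
      G.UU.mem L R → S.mem L u →
      Ψ.v M ((G.pt M (xz.map α R), G.pt M y), some (g M (y, c.map α u))) =
        G.e * φ.a L (g L (R, u))

/-- The fixed point formula. -/
class YL (p : ℕ) : Prop where
  loop : ∀ {G : GD K} {d : Cd} {W : ASp K d} {j : ℕ} {φ : AF j W} {Ψ}, G.Con φ Ψ → ∀ {Q : ℕ},
    1 < Q → G.Fr p Q → ∀ {L M : Fld K} {α : L →ₐ[K] M} {y : xz.X M}, G.GenU j α y →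
    ∀ w : d.X L, W.mem L w → ∀ ε : Bool,
      Ψ.v M ((G.pt M (sg ε M (frb Q M y)), G.pt M y), some (d.map α w)) =
        G.e * G.fx Q ε * φ.a L w ∧
      Ψ.v M ((G.pt M y, G.pt M (sg ε M (frb Q M y))), some (d.map α w)) =
        G.e * G.fx Q ε * φ.a L w

/-- Antisymmetric functionals live on the part over the torus. -/
class YW : Prop where
  aff : ∀ (G : GD K) {d : Cd} {W : ASp K d} {j : ℕ} (c : ℂ) (Ψ : Fe j (G.X2.prod W.sp)),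
    ∃ Φ, G.IsAff c Ψ Φ

/-- Functionals that vanish on exterior products are antisymmetric. -/
class YQ : Prop where
  anti : ∀ (G : GD K) {j : ℕ} (φ : Fn j G.X2), φ.Kills → ∀ (L : Fld K) (y : xz.X L)
    (E : (Sub K G.σ).pt L), G.Cn L y → φ.v L (G.pt L (ngz L y), E) = -φ.v L (G.pt L y, E) ∧
      φ.v L (E, G.pt L (ngz L y)) = -φ.v L (E, G.pt L y)

end Pool.Agent.Lib.MP_557161_ag.HG
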