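import Pool.Agent.Lib.MP_557161_ag.HG.Itf
import Pool.Agent.Lib.MP_557161_ag.HG.Defs
import Pool.Agent.Lib.MP_557161_ag.HG.Defs3
import Pool.Agent.Lib.MP_557161_ag.DL.T0

/-!
The double plane: points, Frobenius, contraction laws, diagrams; statements.
-/

namespace Pool.Agent.Lib.MP_557161_ag.HG

open Pool.Agent.Lib.MP_557161_ag.DL MvPolynomial
open Pool.Agent.Lib.MP_60ec62_ag.DL (Cyc)

section Defs

variable {K : Type} [Field K] {c d d' : Cd}

/-- The map `(x, z) ↦ (x ^ Q, z ^ Q)`. -/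
def frb (Q : ℕ) (L : Fld K) (y : xz.X L) : xz.X L := (fun i => y.1 i ^ Q, y.2 ^ Q)

/-- The identity or the involution `z ↦ -z`. -/
def sg (ε : Bool) (L : Fld K) (y : xz.X L) : xz.X L := bif ε then ngz L y else y

/-- The sign. -/
def sn (ε : Bool) : ℂ := bif ε then -1 else 1

namespace GD

variable (G : GD K)

/-- The branch polynomial. -/
noncomputable abbrev F : MvPolynomial (Fin 3) K := brF G.u G.w G.lam

/-- The coordinates of the embedding. -/
abbrev σ : Type := Option (Fin G.e → Fin 3)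

/-- The embedding. -/
def nu {L : Type} [CommRing L] (y : xz.X L) : G.σ → L :=
  fun s => s.elim y.2 fun m => ∏ i, y.1 (m i)

/-- The differential of the embedding. -/
def dnu {L : Type} [CommRing L] (y v : xz.X L) : G.σ → L :=
  fun s => s.elim v.2 fun m => ∑ i, v.1 (m i) * ∏ i' ∈ Finset.univ.erase i, y.1 (m i')

/-- The weighted scaling. -/
def scl {L : Type} [CommRing L] (a : L) (y : xz.X L) : xz.X L := (a • y.1, a ^ G.e * y.2)

/-- Points of the punctured cone. -/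
def Cn (L : Fld K) (y : xz.X L) : Prop := y.1 ≠ 0 ∧ y.2 ^ 2 = aeval y.1 G.F

/-- Tangent vectors of the cone. -/
def Tn (L : Fld K) (y v : xz.X L) : Prop :=
  2 * y.2 * v.2 = ∑ i, aeval y.1 (pderiv i G.F) * v.1 i

/-- The point of projective space. -/
def pt (L : Fld K) (y : xz.X L) : (Sub K G.σ).pt L := Submodule.span L {G.nu y}

/-- `Q` is a power of the characteristic and the double plane is defined over the field with `Q`
elements. -/
def Fr (p Q : ℕ) : Prop := (∃ f, Q = p ^ f) ∧ G.lam ^ Q = G.lam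

/-- The number of fixed points of Frobenius, or of its composition with the involution. -/
noncomputable def fx (Q : ℕ) (ε : Bool) : ℕ :=
  Nat.card {E : (Sub K G.σ).pt (.base K) // ∃ y, G.Cn (.base K) y ∧ E = G.pt _ y ∧
    E = G.pt _ (sg ε _ (frb Q _ y))}

/-- `y` is a generic point of the double plane over `L`, and `M` is its function field. -/
structure GenU (j : ℕ) {L M : Fld K} (α : L →ₐ[K] M) (y : xz.X M) : Prop where
  gL : Good j L
  gM : Good (j + 2) M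
  mem : G.UU.mem M y
  top : gen α (xz.co y) = ⊤

end GD

/-- The functional vanishes on exterior products, for the partition of the coordinates given by
`q`. -/
def KlP (d : Cd) (q : d.ι → Prop) (j : ℕ) (a : ∀ L : Fld K, d.X L → ℂ) : Prop :=
  ∀ (L L₁ L₂ : Fld K) (ι₁ : L₁ →ₐ[K] L) (ι₂ : L₂ →ₐ[K] L) (w : d.X L),
    (∀ i, q i → d.co w i ∈ Set.range ι₁) → (∀ i, ¬ q i → d.co w i ∈ Set.range ι₂) →
    L₁.tr + L₂.tr ≤ j → a L w = 0

/-- The type of relations between functionals on `W` and on `U × U × W`. -/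
abbrev CRel (G : GD K) : Type 1 :=
  ∀ ⦃d : Cd⦄ ⦃W : ASp K d⦄ ⦃j : ℕ⦄, AF j W → AF (j + 2) ((G.UU.prod G.UU).prod W) → Prop

/-- The laws of the contraction with the diagonal. -/
structure ConL (G : GD K) (p : ℕ) (AC : CRel G) : Prop where
  ex : ∀ {d : Cd} {W : ASp K d} {j : ℕ} (φ : AF j W), ∃ Φ, AC φ Φ
  anti : ∀ {d : Cd} {W : ASp K d} {j : ℕ} {φ : AF j W} {Φ}, AC φ Φ → ∀ (L : Fld K) (A B : xz.X L)
    (w : d.X L), Φ.a L ((ngz L A, B), w) = -Φ.a L ((A, B), w) ∧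
      Φ.a L ((A, ngz L B), w) = -Φ.a L ((A, B), w)
  nat : ∀ {d d' : Cd} {W : ASp K d} {W' : ASp K d'} {j : ℕ} {φ : AF j W} {φ' : AF j W'} {Φ Φ'},
    AC φ Φ → AC φ' Φ' → ∀ {g : ∀ L : Fld K, d'.X L → d.X L}, Mp W' W g → Pro W' W g → ∀ χ : ℂ,
    (∀ L w, W'.mem L w → φ'.a L w = χ * φ.a L (g L w)) →
    ∀ (L : Fld K) (A B : xz.X L) (w : d'.X L), W'.mem L w →
      Φ'.a L ((A, B), w) = χ * Φ.a L ((A, B), g L w)
  kills : ∀ {d : Cd} {W : ASp K d} {j : ℕ} {φ : AF j W} {Φ}, AC φ Φ → ∀ q : d.ι → Prop,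
    KlP d q j φ.a → KlP ((xz.prod xz).prod d) (Sum.elim (fun _ => True) q) (j + 2) Φ.a
  unit : ∀ {c d : Cd} {S : ASp K c} {W : ASp K d} {j : ℕ} {φ : AF j W} {Φ}, AC φ Φ →
    ∀ {g : ∀ L : Fld K, (xz.prod c).X L → d.X L}, Mp (G.UU.prod S) W g → Pro (G.UU.prod S) W g →
    ∀ {L M : Fld K} {α : L →ₐ[K] M} {y : xz.X M}, G.GenU j α y → ∀ (R : xz.X L) (u : c.X L),
      G.UU.mem L R → S.mem L u → Φ.a M ((xz.map α R, y), g M (y, c.map α u)) =
        (φ.a L (g L (R, u)) - φ.a L (g L (ngz L R, u))) / 2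
  loop : ∀ {d : Cd} {W : ASp K d} {j : ℕ} {φ : AF j W} {Φ}, AC φ Φ → ∀ {Q : ℕ}, 1 < Q → G.Fr p Q →
    ∀ {L M : Fld K} {α : L →ₐ[K] M} {y : xz.X M}, G.GenU j α y → ∀ w : d.X L, W.mem L w →
      Φ.a M ((frb Q M y, y), d.map α w) = ((G.fx Q false : ℂ) - G.fx Q true) / 2 * φ.a L w ∧
      Φ.a M ((y, frb Q M y), d.map α w) = ((G.fx Q false : ℂ) - G.fx Q true) / 2 * φ.a L w

section Diagrams

variable {T : Type}

/-- Involutions without fixed points. -/
def Inv (τ : T → T) : Prop := ∀ i, τ (τ i) = i ∧ τ i ≠ i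

/-- The point with coordinates the Frobenius images of `P`. -/
def cfg (q : ℕ) (e : T → ℕ) (L : Fld K) (P : T → xz.X L) : T → xz.X L :=
  fun i => frb (q ^ e i) L (P i)

/-- The field generated by the coordinates `x`. -/
noncomputable def xf (L : Fld K) (P : T → xz.X L) : IntermediateField K L :=
  IntermediateField.adjoin K (Set.range fun s : T × Fin 3 => (P s.1).1 s.2)

/-- The normalised value of `a` on the product of graphs of Frobenius given by `τ` and `e`. -/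
def DV (G : GD K) (q : ℕ) (a : ∀ L : Fld K, (T → xz.X L) → ℂ) (τ : T → T) (e : T → ℕ) (v : ℂ) :
    Prop :=
  ∀ (L : Fld K) (P : T → xz.X L), Good (Nat.card T) L → (∀ i, G.UU.mem L (P i)) →
    (∀ i, P (τ i) = P i) → a L (cfg q e L P) = Bridge.dg (xf L P) * v

/-- The functional changes sign under the involution of every factor. -/
def AntiP [DecidableEq T] (a : ∀ L : Fld K, (T → xz.X L) → ℂ) : Prop :=
  ∀ (i : T) (L : Fld K) (x : T → xz.X L), a L (Function.update x i (ngz L (x i))) = -a L x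

/-- The functional vanishes on exterior products for the partition `sd` of the factors. -/
def KlS [Finite T] (sd : T → Bool) (a : ∀ L : Fld K, (T → xz.X L) → ℂ) : Prop :=
  KlP (Cd.pi T xz) (fun s => sd s.1 = true) (Nat.card T) a

/-- The pairing after the contraction of the two new slots. -/
def rτ (τ : Option (Option T) → Option (Option T)) (j : T) : T :=
  match τ (some (some j)) with
  | some (some j') => j'
  | none => ((τ (some none)).bind id).getD j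
  | some none => ((τ none).bind id).getD j

/-- The exponents after the contraction of the two new slots. -/
def re (τ : Option (Option T) → Option (Option T)) (e : Option (Option T) → ℕ) (j : T) : ℕ :=
  e (some (some j)) + match τ (some (some j)) with
  | some (some _) => 0
  | none => e (some none)
  | some none => e none

/-- The two new slots are paired with each other. -/
def Lp (τ : Option (Option T) → Option (Option T)) : Prop := τ none = some none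

/-- The slots after `r` contractions. -/
def Tw : ℕ → Type
  | 0 => Bool
  | r + 1 => Option (Option (Tw r))

instance Tw.fin : ∀ r, Fintype (Tw r)
  | 0 => inferInstanceAs (Fintype Bool)
  | r + 1 => have := Tw.fin r; inferInstanceAs (Fintype (Option (Option (Tw r))))

instance Tw.dec : ∀ r, DecidableEq (Tw r)
  | 0 => inferInstanceAs (DecidableEq Bool)
  | r + 1 => have := Tw.dec r; inferInstanceAs (DecidableEq (Option (Option (Tw r))))

/-- The side of a slot; the slots of the contraction number `r` are on the side `sd r`. -/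
def side (sd : ℕ → Bool) : ∀ r, Tw r → Bool
  | 0 => id
  | r + 1 => fun s => (Option.bind s id).elim (sd r) (side sd r)

open Classical in
/-- The product of the values of the loops, and the exponents at the two open slots. -/
noncomputable def ev (lam : ℕ → ℕ → ℂ) : ∀ r, (Tw r → Tw r) → (Tw r → ℕ) → ℂ × ℕ × ℕ
  | 0, _, e => (1, e true, e false)
  | r + 1, τ, e => ((if Lp τ then lam (e none) (e (some none)) else 1) *
      (ev lam r (rτ τ) (re τ e)).1, (ev lam r (rτ τ) (re τ e)).2)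

/-- No loop has equal exponents. -/
def Adm : ∀ r, (Tw r → Tw r) → (Tw r → ℕ) → Prop
  | 0, _, _ => True
  | r + 1, τ, e => (Lp τ → e none ≠ e (some none)) ∧ Adm r (rτ τ) (re τ e)

/-- The pairing of the left slot `i` with the right slot `π i`. -/
def tp {κ : Type} (E : κ ⊕ κ ≃ T) (π : Equiv.Perm κ) (t : T) : T :=
  E (Sum.elim (fun i => Sum.inr (π i)) (fun i => Sum.inl (π.symm i)) (E.symm t))

/-- The value of a loop. -/
noncomputable def lpv {n : ℕ} (α : Fin n → ℂ) (Q : ℂ) (x y : ℕ) : ℂ :=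
  ∑ i, α i ^ x * (Q / α i) ^ y

end Diagrams

end Defs

/-- The colouring model. -/
class XC : Prop where
  inv : ∀ {T : Type} {τ : Option (Option T) → Option (Option T)}, Inv τ → Inv (rτ τ)
  perm : ∀ {n : ℕ} (α : Fin n → ℂ) (q : ℝ), 0 < q → (∀ i, ‖α i‖ = q) →
    (∀ m, 0 < m → (∑ i, α i ^ m).im = 0) → ∃ s : Equiv.Perm (Fin n), ∀ i, α (s i) * α i = q ^ 2
  col : ∀ {n : ℕ}, Odd n → ∃ (r : ℕ) (sd : ℕ → Bool) (E : Fin n ⊕ Fin n ≃ Tw r),
    (∀ i, side sd r (E (Sum.inl i)) = true) ∧ (∀ i, side sd r (E (Sum.inr i)) = false) ∧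
    ∀ (α : Fin n → ℂ) (Q β : ℂ) (s : Equiv.Perm (Fin n)), Q ≠ 0 → (∀ i, α (s i) * α i = Q) →
      {i | α i ^ 2 = Q}.Subsingleton → β ≠ 0 → (∀ i, α i = β → α i ^ 2 = Q) →
      ∃ e : Tw r → ℕ, (∀ π, Adm r (tp E π) e) ∧
        ∑ π : Equiv.Perm (Fin n), ((Equiv.Perm.sign π : ℤ) : ℂ) * ((ev (lpv α Q) r (tp E π) e).1 *
          (β ^ (ev (lpv α Q) r (tp E π) e).2.1 * (Q / β) ^ (ev (lpv α Q) r (tp E π) e).2.2)) ≠ 0

/-- The order of the pole from a decomposition of a polynomial in the graph of Frobenius. -/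
class XT : Prop where
  tate : ∀ {k : Type} [Field k] [Finite k] {σ : Type} [Finite σ] {I : Ideal (MvPolynomial σ k)}
    (hI : Homog I) (hs : ∀ s, Algebra.Smooth k (Chart I s)) {d : ℕ}
    (hd : ∀ P ∈ I.minimalPrimes, ringKrullDim (MvPolynomial σ k ⧸ P) = (d + 1 : ℕ))
    (f : Polynomial ℚ), (∀ n, n ≤ d → f.eval ((Nat.card k : ℚ) ^ n) ≠ 0) →
    (∀ t, (f.sum fun j a => a • (T0.sm (AlgebraicClosure k) hI hs hd).grC (Nat.card k ^ (j + t))) ∈
      RatB (upI I) ⊔ ⨆ δ, ProdB (upI I) δ) →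
    ∀ (L : ℕ → Type) [∀ m, Field (L m)] [∀ m, Algebra k (L m)],
    (∀ m, Module.finrank k (L m) = m + 1) → ∀ {ι : Type} [Fintype ι] (γ : ι → ℂ),
    (∀ m, (points I (L m) : ℂ) = ∑ i, γ i ^ (m + 1)) →
    (∀ i n, d < n → γ i ≠ (Nat.card k : ℂ) ^ n) → ∃ ζ : ℂ → ℂ, IsZeta I d L ζ ∧ TateOrd I d ζ
  fixed : ∀ {k : Type} [Field k] [Finite k] {σ : Type} [Finite σ] {I : Ideal (MvPolynomial σ k)}
    (hI : Homog I) (hs : ∀ s, Algebra.Smooth k (Chart I s)) {d : ℕ}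
    (hd : ∀ P ∈ I.minimalPrimes, ringKrullDim (MvPolynomial σ k ⧸ P) = (d + 1 : ℕ))
    (L : Type) [Field L] [Algebra k L] (m : ℕ), Module.finrank k L = m + 1 →
    points I L = (T0.sm (AlgebraicClosure k) hI hs hd).fixed (Nat.card k ^ (m + 1))

/-- Tate classes from a decomposition of a polynomial in the graph of Frobenius. -/
class XY : Prop where
  tate : ∀ {k : Type} [Field k] [Finite k] {σ : Type} [Finite σ] {I : Ideal (MvPolynomial σ k)}
    (hI : Homog I) (hs : ∀ s, Algebra.Smooth k (Chart I s)) {d : ℕ}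
    (hd : ∀ P ∈ I.minimalPrimes, ringKrullDim (MvPolynomial σ k ⧸ P) = (d + 1 : ℕ)),
    (upI I).IsPrime → (∃ s, X s ∉ upI I) →
    ∀ f : Polynomial ℚ, (∀ n, f.eval ((Nat.card k : ℚ) ^ n) ≠ 0) →
    (f.sum fun j a => a • (T0.sm (AlgebraicClosure k) hI hs hd).grC (Nat.card k ^ j)) ∈
      RatB (upI I) ⊔ ⨆ δ, ProdB (upI I) δ → Tate1 (Nat.card k) (upI I)

/-- One rational polynomial for all the values. -/
class XZ : Prop where
  one : ∀ {V : Type} [AddCommGroup V] [Module ℚ V] (N : Submodule ℚ V) (g : ℕ → V) (S : Set ℂ),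
    (∀ β ∈ S, ∃ f : Polynomial ℂ, f.eval β ≠ 0 ∧ ∀ b : V →ₗ[ℚ] ℚ, N ≤ LinearMap.ker b →
      ∀ t, (f.sum fun j a => a * (b (g (j + t)) : ℂ)) = 0) →
    ∃ f : Polynomial ℚ, (∀ β ∈ S, Polynomial.aeval β f ≠ 0) ∧
      ∀ t, (f.sum fun j a => a • g (j + t)) ∈ N

/-- The ideal of the double plane. -/
class XJ : Prop where
  hom : ∀ {k : Type} [Field k] {e : ℕ} {F : MvPolynomial (Fin 3) k}, 0 < e →
    F.IsHomogeneous (2 * e) → Homog (dpI e F)
  up : ∀ {k : Type} [Field k] (e : ℕ) (F : MvPolynomial (Fin 3) k),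
    upI (dpI e F) = dpI e (MvPolynomial.map (algebraMap k (AlgebraicClosure k)) F)
  dim : ∀ {k : Type} [Field k] {e : ℕ} {F : MvPolynomial (Fin 3) k}, 0 < e →
    (∀ g : MvPolynomial (Fin 3) k, g ^ 2 ≠ F) → (dpI e F).IsPrime ∧
    ringKrullDim (MvPolynomial (Option (Fin e → Fin 3)) k ⧸ dpI e F) = (2 + 1 : ℕ)

/-- The double plane is smooth. -/
class XK : Prop where
  smooth : ∀ {k : Type} [Field k] {e : ℕ} {F : MvPolynomial (Fin 3) k}, 0 < e → (2 : k) ≠ 0 →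
    F.IsHomogeneous (2 * e) → (∀ x : Fin 3 → AlgebraicClosure k, x ≠ 0 → aeval x F = 0 →
      ∃ i, aeval x (pderiv i F) ≠ 0) → ∀ s, Algebra.Smooth k (Chart (dpI e F) s)

section Geo

variable (K : Type) [Field K]

/-- The branch curve is smooth. -/
class XA : Prop where
  three : ∀ G : GD K, 3 ≤ G.e ∧ Odd G.n ∧ Odd G.u ∧ (2 : K) ≠ 0 ∧ ∀ i, 2 ≤ G.w i
  hom : ∀ G : GD K, G.F.IsHomogeneous (2 * G.e)
  sm : ∀ (G : GD K) (L : Fld K) (x : Fin 3 → L), x ≠ 0 → aeval x G.F = 0 →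
    ∃ i, aeval x (pderiv i G.F) ≠ 0
  bd : ∀ (G : GD K) (L : Fld K) (x : Fin 3 → L) (i : Fin 3), x i = 0 →
    aeval x G.F = x (i + 1) ^ G.u * x (i + 2)
  nsq : ∀ (G : GD K) (L : Fld K) (g : MvPolynomial (Fin 3) L),
    g ^ 2 ≠ MvPolynomial.map (algebraMap K L) G.F
  nsq' : ∀ (G : GD K) {j : ℕ} {L M : Fld K} {α : L →ₐ[K] M} (x : Fin 3 → M) (k : Fin 3), x k = 1 →
    Free j α (fun i : {i // i ≠ k} => x i) → ∀ z : M, z ^ 2 ≠ aeval x G.F
  frob : ∀ (G : GD K) {p Q : ℕ} [Fact p.Prime] [CharP K p], G.Fr p Q → ∀ (L : Fld K)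
    (x : Fin 3 → L), aeval (fun i => x i ^ Q) G.F = aeval x G.F ^ Q

/-- A simple root gives an unramified place. -/
class XH : Prop where
  hen : ∀ {j : ℕ} {M₀ M : Fld K} {β : M₀ →ₐ[K] M} (O₀ : Dv M₀ j) (θ : M) (h : Polynomial M₀),
    Good (j + 1) M₀ → Gen β θ → (∀ n, h.coeff n ∈ O₀.1.O) → O₀.1.rd (h.coeff 0) = 0 →
    O₀.1.rd (h.coeff 1) ≠ 0 → (∀ g : Polynomial M₀, g.eval₂ β.toRingHom θ = 0 ↔ h ∣ g) →
    ∃ (O : Dv M j) (ov : Pl.Over β O₀.1 O.1), θ ∈ O.1.O ∧ O.1.rd θ = 0 ∧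
      (∀ f, O.1.ord (β f) = O₀.1.ord f) ∧ Function.Surjective ov.resHom ∧
      ∀ O' : Pl M, Pl.Over β O₀.1 O' → θ ∈ O'.O → O'.rd θ = 0 → O' = O.1

/-- Generic points of the double plane. -/
class XG : Prop where
  ex : ∀ (G : GD K) {j : ℕ} {L : Fld K}, Good j L →
    ∃ (M : Fld K) (α : L →ₐ[K] M) (y : xz.X M), G.GenU j α y
  neg : ∀ {G : GD K} {j : ℕ} {L M : Fld K} {α : L →ₐ[K] M} {y : xz.X M}, G.GenU j α y →
    ∀ ε, G.GenU j α (sg ε M y)
  chart : ∀ {G : GD K} {j : ℕ} {L M : Fld K} {α : L →ₐ[K] M} {y : xz.X M}, G.GenU j α y →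
    ∀ k : Fin 3, ∃ (M₀ : Fld K) (α₀ : L →ₐ[K] M₀) (β : M₀ →ₐ[K] M) (x : Fin 3 → M₀),
      β.comp α₀ = α ∧ x k = 1 ∧ (∀ i, β (x i) = y.1 i / y.1 k) ∧
      Free j α₀ (fun i : {i // i ≠ k} => x i) ∧ deg β = 2 ∧ Gen β (y.2 / y.1 k ^ G.e)
  ker : ∀ {G : GD K} {j : ℕ} {L M : Fld K} {α : L →ₐ[K] M} {y : xz.X M}, G.GenU j α y →
    ∀ (k : Fin 3) (f : MvPolynomial (Option (Fin 3)) L),
      eval₂ α.toRingHom (fun s => s.elim (y.2 / y.1 k ^ G.e) fun i => y.1 i / y.1 k) f = 0 →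
      f ∈ Ideal.span {X (some k) - 1,
        X none ^ 2 - rename some (MvPolynomial.map (algebraMap K L) G.F)}
  dgr : ∀ {G : GD K} {j : ℕ} {L M : Fld K} {α : L →ₐ[K] M} {y : xz.X M}, G.GenU j α y →
    ∀ s : Set L, Bridge.dg (IntermediateField.adjoin K (α '' s ∪ Set.range y.1)) =
      2 * Bridge.dg (IntermediateField.adjoin K s)

/-- The ideal of the double plane over an algebraically closed field. -/
class XI (p : ℕ) : Prop where
  zl : ∀ (G : GD K) (L : Fld K) (y : xz.X L), y.2 ^ 2 = aeval y.1 G.F →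
    G.nu y ∈ zeroLocus L (dpI G.e G.F)
  fix : ∀ (G : GD K) (Y : Sm K G.σ), Y.I = dpI G.e G.F → ∀ Q, G.Fr p Q → Y.fixed Q = G.fx Q false
  cnt : ∀ (G : GD K) (Q : ℕ), 1 < Q → G.Fr p Q → G.fx Q false + G.fx Q true = 2 * (1 + Q + Q ^ 2)
  gr : ∀ (G : GD K) (Y : Sm K G.σ), Y.I = dpI G.e G.F → ∀ Q, G.Fr p Q → ∀ {M : Fld K}
    {α : Fld.base K →ₐ[K] M} {y : xz.X M}, G.GenU 0 α y →
    Y.grC Q = Finsupp.single (Bridge.PP (G.nu (frb Q M y)) (G.nu y)) 1

/-- Frobenius. -/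
class XV (p : ℕ) : Prop where
  mp : ∀ {G : GD K} {Q : ℕ}, G.Fr p Q → Mp G.UU G.UU (frb Q) ∧ Pro G.UU G.UU (frb Q) ∧
    Srj G.UU G.UU (frb Q) ∧ ∀ L : Fld K, Function.Injective (frb Q L)
  pow : ∀ {G : GD K} {q : ℕ}, G.Fr p q → ∀ m, G.Fr p (q ^ m)
  pull : ∀ {G : GD K} {q : ℕ}, G.Fr p q → ∀ {T : Type} [Finite T] [DecidableEq T] {j : ℕ}
    (φ : AF j (G.UU.pi T)) (e : T → ℕ), ∃ ψ : AF j (G.UU.pi T),
      (∀ L x, ψ.a L x = φ.a L (cfg q e L x)) ∧ (AntiP φ.a → AntiP ψ.a) ∧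
      ∀ sd : T → Bool, KlS sd φ.a → KlS sd ψ.a
  desc : ∀ {G : GD K} {q : ℕ}, G.Fr p q → ∀ {T : Type} [Finite T] [DecidableEq T] {j : ℕ}
    (φ : AF j (G.UU.pi T)) (e : T → ℕ), ∃ ψ : AF j (G.UU.pi T),
      (∀ L x, φ.a L x = ψ.a L (cfg q e L x)) ∧ (AntiP φ.a → AntiP ψ.a)

/-- Normalised values. -/
class XW (p : ℕ) : Prop where
  shift : ∀ {G : GD K} {q : ℕ}, G.Fr p q → ∀ {T : Type} [Finite T]
    (φ : AF (Nat.card T) (G.UU.pi T)) {τ : T → T}, Inv τ → ∀ (e e' : T → ℕ) (i : T) (m : ℕ) (v : ℂ),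
    e' i = e i + m → e' (τ i) = e (τ i) + m → (∀ t, t ≠ i → t ≠ τ i → e' t = e t) →
    (DV G q φ.a τ e' ((q : ℂ) ^ (2 * m) * v) ↔ DV G q φ.a τ e v)
  val : ∀ {G : GD K} {q : ℕ}, G.Fr p q → ∀ φ : AF (Nat.card Bool) (G.UU.pi Bool), AntiP φ.a →
    ∀ e : Bool → ℕ, ∃ v, DV G q φ.a not e v
  gen : ∀ (G : GD K) (κ : Type) [Finite κ], ∃ (L : Fld K) (P : κ → xz.X L),
    Good (2 * Nat.card κ) L ∧ (∀ i, G.UU.mem L (P i)) ∧ Bridge.dg (xf L P) ≠ 0

/-- The contraction with the diagonal exists. -/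
class XO (p : ℕ) : Prop where
  ex : ∀ G : GD K, ∃ AC : CRel G, ConL G p AC

open Classical in
/-- One contraction. -/
class XS (p : ℕ) : Prop where
  step : ∀ {G : GD K} {q : ℕ}, 1 < q → G.Fr p q → ∀ lam : ℕ → ℕ → ℂ,
    (∀ x m, 0 < m → lam (x + m) x = (q : ℂ) ^ (2 * x) *
      (((G.fx (q ^ m) false : ℂ) - G.fx (q ^ m) true) / 2) ∧ lam x (x + m) = lam (x + m) x) →
    ∀ {T : Type} [Finite T] [DecidableEq T] (φ : AF (Nat.card T) (G.UU.pi T)), AntiP φ.a →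
    ∃ Φ : AF (Nat.card (Option (Option T))) (G.UU.pi (Option (Option T))), AntiP Φ.a ∧
      (∀ (sd : T → Bool) (s : Bool), KlS sd φ.a →
        KlS (fun t : Option (Option T) => (Option.bind t id).elim s sd) Φ.a) ∧
      ∀ (τ : Option (Option T) → Option (Option T)) (e : Option (Option T) → ℕ) (v : ℂ), Inv τ →
        (Lp τ → e none ≠ e (some none)) → DV G q φ.a (rτ τ) (re τ e) v →
        DV G q Φ.a τ e ((if Lp τ then lam (e none) (e (some none)) else 1) * v / 2)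

/-- The relation between the graphs of the powers of Frobenius. -/
class XR (p : ℕ) : Prop where
  rel : ∀ {G : GD K} {q : ℕ}, 1 < q → G.Fr p q → ∀ (α : Fin G.n → ℂ) (s : Equiv.Perm (Fin G.n)),
    (∀ i, α (s i) * α i = (q : ℂ) ^ 2) → {i | α i ^ 2 = (q : ℂ) ^ 2}.Subsingleton →
    (∀ m, 0 < m → ((G.fx (q ^ m) false : ℂ) - G.fx (q ^ m) true) / 2 = ∑ i, α i ^ m) →
    ∀ β : ℂ, β ≠ 0 → (∀ i, α i = β → α i ^ 2 = (q : ℂ) ^ 2) →
    ∃ f : Polynomial ℂ, f.eval β ≠ 0 ∧ ∀ φ : AF (Nat.card Bool) (G.UU.pi Bool), AntiP φ.a →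
      KlS id φ.a → ∀ v : ℕ → ℂ, (∀ j, DV G q φ.a not (fun b => bif b then j else 0) (v j)) →
      ∀ t, (f.sum fun j a => a * v (j + t)) = 0

/-- From linear forms on cycles to functionals. -/
class XQ [Base K] (p : ℕ) : Prop where
  brg : ∀ (G : GD K) (Y : Sm K G.σ), Y.I = dpI G.e G.F → ∀ q, G.Fr p q →
    ∀ b : Cyc (MvPolynomial (G.σ ⊕ G.σ) K) →ₗ[ℚ] ℚ,
    RatB Y.I ⊔ ⨆ δ, ProdB Y.I δ ≤ LinearMap.ker b →
    ∃ φ : AF (Nat.card Bool) (G.UU.pi Bool), AntiP φ.a ∧ KlS id φ.a ∧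
      ∀ j, DV G q φ.a not (fun b => bif b then j else 0) ((b (Y.grC (q ^ j)) : ℂ) / 2)

end Geo

end Pool.Agent.Lib.MP_557161_ag.HG
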