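import Pool.Agent.Lib.MP_557161_ag.HG.StX
import Pool.Agent.Lib.MP_557161_ag.HG.Defs4

/-!
The self intersection of the diagonal and the removal of the hypotheses on the zeta function:
definitions and statements.
-/

namespace Pool.Agent.Lib.MP_557161_ag.HG

open Pool.Agent.Lib.MP_557161_ag.DL MvPolynomial Submodule

section Defs

/-- The value of a loop. -/
noncomputable def lamP (q : ℂ) (P : ℕ → ℂ) (x y : ℕ) : ℂ := q ^ (2 * min x y) * P (max x y - min x y)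

/-- The alternating sum of the diagrams at the eigenvalue `q`. -/
noncomputable def dsum {n r : ℕ} (E : Fin n ⊕ Fin n ≃ Tw r) (lam : ℕ → ℕ → ℂ) (q : ℂ)
    (e : Tw r → ℕ) : ℂ :=
  ∑ π : Equiv.Perm (Fin n), ((Equiv.Perm.sign π : ℤ) : ℂ) * ((ev lam r (tp E π) e).1 *
    q ^ ((ev lam r (tp E π) e).2.1 + (ev lam r (tp E π) e).2.2))

/-- The forms of Frobenius. -/
noncomputable def phi (σ : Polynomial ℂ → ℂ) : ∀ k : ℕ, (Fin k → Polynomial ℂ) → ℂ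
  | 0, _ => 1
  | k + 1, h => σ (h 0) * phi σ k (Fin.tail h) -
      ∑ i, phi σ k (Function.update (Fin.tail h) i (h 0 * Fin.tail h i))

/-- The polynomial with `chC m (x + 1 / x) = x ^ m + x ^ (-m)`. -/
noncomputable abbrev chC (m : ℤ) : Polynomial ℂ := Polynomial.Chebyshev.C ℂ m

/-- The polynomials `(x ^ (a + 1) - x ^ (-a - 1)) (x - 1 / x)`. -/
noncomputable def chD {k : ℕ} (a : Fin k → ℕ) (i : Fin k) : Polynomial ℂ :=
  chC (a i + 2) - chC (a i)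

variable {K : Type} [Field K]

/-- The value of the contraction on the diagonal. -/
def DiagL (G : GD K) (AC : CRel G) : Prop :=
  ∀ {d : Cd} {W : ASp K d} {j : ℕ} {φ : AF j W} {Φ}, AC φ Φ →
    ∀ {L M : Fld K} {α : L →ₐ[K] M} {y : xz.X M}, G.GenU j α y → ∀ w : d.X L, W.mem L w →
      Φ.a M ((y, y), d.map α w) = G.n * φ.a L w

/-- `ϑ` is the composition of the intersection with a line, of the projection to `W` and of
`φ`. -/
def IsH {d : Cd} {W : ASp K d} {j : ℕ} (φ : AF j W)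
    (ϑ : Fe (j + 1) ((Lines K (Fin 3)).prod W.sp)) : Prop :=
  ∀ (M : Fld K) (x : Fin 3 → M) (w : d.X M), Good (j + 1) M → x ≠ 0 → W.mem M w →
    HasS (fun O : Dv M j => ((-ordv O.1 x : ℤ) : ℂ) * rv φ.a O.1 w) (ϑ.v M (span M {x}, some w))

namespace GD

variable (G : GD K)

/-- The derivative of the branch polynomial in the direction `(1, 0, 1)`. -/
noncomputable def dF : MvPolynomial (Fin 3) K := pderiv 0 G.F + pderiv 2 G.F

/-- The lift of the constant vector field `(1, 0, 1)`. -/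
noncomputable def vf (L : Fld K) (y : xz.X L) : xz.X L :=
  (![2 * y.2, 0, 2 * y.2], aeval y.1 G.dF)

/-- The trace of the powers of Frobenius on the anti-invariant part. -/
noncomputable def PP (q m : ℕ) : ℂ :=
  if m = 0 then G.n else ((G.fx (q ^ m) false : ℂ) - G.fx (q ^ m) true) / 2

end GD

end Defs

/-- The sum of the diagrams in a model with integral multiplicities. -/
class ZA1 : Prop where
  mod : ∀ r₀ : ℕ, ∃ (r : ℕ) (sd : ℕ → Bool) (E : Fin (2 * r₀ + 1) ⊕ Fin (2 * r₀ + 1) ≃ Tw r),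
    (∀ i, side sd r (E (Sum.inl i)) = true) ∧ (∀ i, side sd r (E (Sum.inr i)) = false) ∧
    ∀ a : Fin r₀ → ℕ, ∃ e : Tw r → ℕ, ∀ (O : Type) [Fintype O] (x : O → ℂ) (q : ℂ), q ≠ 0 →
      (∀ o, x o ≠ 0) → dsum E (lamP q fun m => q ^ m * (1 + ∑ o, (x o ^ m + (x o)⁻¹ ^ m))) q e =
        (-1) ^ r₀ * r₀.factorial * q ^ (∑ k, (a k + 2)) *
          phi (fun h => ∑ o, h.eval (x o + (x o)⁻¹)) r₀ (chD a)

/-- The sum of the diagrams. -/
class ZA : Prop where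
  frob : ∀ r₀ : ℕ, ∃ (r : ℕ) (sd : ℕ → Bool) (E : Fin (2 * r₀ + 1) ⊕ Fin (2 * r₀ + 1) ≃ Tw r),
    (∀ i, side sd r (E (Sum.inl i)) = true) ∧ (∀ i, side sd r (E (Sum.inr i)) = false) ∧
    ∀ a : Fin r₀ → ℕ, ∃ e : Tw r → ℕ, ∀ (q : ℂ) (P : ℕ → ℂ) (σ : Polynomial ℂ →ₗ[ℂ] ℂ), q ≠ 0 →
      (∀ m : ℕ, σ (chC m) = P m / q ^ m) → dsum E (lamP q P) q e =
        (-1) ^ r₀ * r₀.factorial * q ^ (∑ k, (a k + 2)) * phi σ r₀ (chD a)

/-- Linear forms whose form of Frobenius vanishes. -/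
class ZB : Prop where
  ex : ∀ c : ℕ → ℂ, ∃ σ : Polynomial ℂ →ₗ[ℂ] ℂ, ∀ m : ℕ, σ (chC m) = c m
  rc : ∀ (σ : Polynomial ℂ →ₗ[ℂ] ℂ) (r₀ : ℕ), (∀ a, phi σ r₀ (chD a) = 0) →
    ∃ g : Polynomial ℂ, g.coeff 0 ≠ 0 ∧ ∀ m : ℤ, (g.sum fun j c => c * σ (chC (j + m))) = 0
  cnt : ∀ (σ : Polynomial ℂ →ₗ[ℂ] ℂ) (r₀ : ℕ), (∀ a, phi σ r₀ (chD a) = 0) →
    σ (chC 0) = 2 * r₀ + 1 → ∀ ν : ℂ →₀ ℤ, ν 0 = 0 →
    (∀ m : ℕ, 0 < m → σ (chC m) = ν.sum fun z c => c * z ^ m) → 3 ≤ ν 1 + ν (-1)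

/-- Integral multiplicities from a linear recurrence. -/
class ZD : Prop where
  rat : ∀ {k : Type} [Field k] [Finite k] {σ : Type} [Finite σ] {I : Ideal (MvPolynomial σ k)},
    Homog I → ∀ (L : ℕ → Type) [∀ m, Field (L m)] [∀ m, Algebra k (L m)],
    (∀ m, Module.finrank k (L m) = m + 1) → ∀ g : Polynomial ℚ, g.coeff 0 ≠ 0 →
    (∀ m, (g.sum fun j c => c * (points I (L (j + m)) : ℚ)) = 0) →
    ∃ ν : ℂ →₀ ℤ, ν 0 = 0 ∧ ∀ m, (points I (L m) : ℂ) = ν.sum fun z c => c * z ^ (m + 1)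

/-- The trace formula. -/
class ZT : Prop where
  rc : ∀ {k : Type} [Field k] [Finite k] {σ : Type} [Finite σ] {I : Ideal (MvPolynomial σ k)}
    (hI : Homog I) (hs : ∀ s, Algebra.Smooth k (Chart I s)) {d : ℕ}
    (hd : ∀ P ∈ I.minimalPrimes, ringKrullDim (MvPolynomial σ k ⧸ P) = (d + 1 : ℕ))
    (f : Polynomial ℚ), f.coeff 0 ≠ 0 →
    (∀ t, (f.sum fun j a => a • (T0.sm (AlgebraicClosure k) hI hs hd).grC (Nat.card k ^ (j + t))) ∈
      RatB (upI I) ⊔ ⨆ δ, ProdB (upI I) δ) →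
    ∀ (L : ℕ → Type) [∀ m, Field (L m)] [∀ m, Algebra k (L m)],
    (∀ m, Module.finrank k (L m) = m + 1) → ∃ g : Polynomial ℚ, g.coeff 0 ≠ 0 ∧
      ∀ m, (g.sum fun j c => c * (points I (L (j + m)) : ℚ)) = 0
  tate : ∀ {k : Type} [Field k] [Finite k] {σ : Type} [Finite σ] {I : Ideal (MvPolynomial σ k)}
    (hI : Homog I) (hs : ∀ s, Algebra.Smooth k (Chart I s)) {d : ℕ}
    (hd : ∀ P ∈ I.minimalPrimes, ringKrullDim (MvPolynomial σ k ⧸ P) = (d + 1 : ℕ))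
    (f : Polynomial ℚ) (i n : ℕ), i + n = d → f.eval ((Nat.card k : ℚ) ^ n) ≠ 0 →
    (∀ t, (f.sum fun j a => a • (T0.sm (AlgebraicClosure k) hI hs hd).grC (Nat.card k ^ (j + t))) ∈
      RatB (upI I) ⊔ ⨆ δ, ProdB (upI I) δ) →
    ∀ (L : ℕ → Type) [∀ m, Field (L m)] [∀ m, Algebra k (L m)],
    (∀ m, Module.finrank k (L m) = m + 1) → ∀ ν : ℂ →₀ ℤ,
    (∀ m, (points I (L m) : ℂ) = ν.sum fun z c => c * z ^ (m + 1)) →
    ∀ F : ∀ P : Var I i, Res I P.1, ∃ ρ : ℕ,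
      Module.rank ℤ (Num I i n F) = ρ ∧ ν ((Nat.card k : ℂ) ^ n) = ρ
  zeta : ∀ {k : Type} [Field k] [Finite k] {σ : Type} [Finite σ] {I : Ideal (MvPolynomial σ k)},
    Homog I → ∀ {d : ℕ},
    (∀ P ∈ I.minimalPrimes, ringKrullDim (MvPolynomial σ k ⧸ P) = (d + 1 : ℕ)) →
    ∀ (L : ℕ → Type) [∀ m, Field (L m)] [∀ m, Algebra k (L m)],
    (∀ m, Module.finrank k (L m) = m + 1) → ∀ ν : ℂ →₀ ℤ,
    (∀ m, (points I (L m) : ℂ) = ν.sum fun z c => c * z ^ (m + 1)) →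
    ∃ ζ : ℂ → ℂ, IsZeta I d L ζ ∧
      ∀ s : ℂ, meromorphicOrderAt ζ s = ((-ν ((Nat.card k : ℂ) ^ s) : ℤ) : WithTop ℤ)

/-- Tate classes in one codimension. -/
class ZY : Prop where
  tate : ∀ {k : Type} [Field k] [Finite k] {σ : Type} [Finite σ] {I : Ideal (MvPolynomial σ k)}
    (hI : Homog I) (hs : ∀ s, Algebra.Smooth k (Chart I s)) {d : ℕ}
    (hd : ∀ P ∈ I.minimalPrimes, ringKrullDim (MvPolynomial σ k ⧸ P) = (d + 1 : ℕ)),
    (upI I).IsPrime → (∃ s, X s ∉ upI I) →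
    ∀ (f : Polynomial ℚ) (i : ℕ), f.eval ((Nat.card k : ℚ) ^ i) ≠ 0 →
    (f.sum fun j a => a • (T0.sm (AlgebraicClosure k) hI hs hd).grC (Nat.card k ^ j)) ∈
      RatB (upI I) ⊔ ⨆ δ, ProdB (upI I) δ → TateAt (Nat.card k) i (upI I)

section Geo

variable (K : Type) [Field K]

/-- The vector field. -/
class ZE : Prop where
  tn : ∀ (G : GD K) (L : Fld K) (y : xz.X L), G.Tn L y (G.vf L y)
  scl : ∀ (G : GD K) (L : Fld K) (y : xz.X L) (c : L),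
    G.tv (G.scl c y) (G.vf L (G.scl c y)) = c ^ (3 * G.e - 1) • G.tv y (G.vf L y)
  zero : ∀ (G : GD K) (L : Fld K) (y : xz.X L), G.Cn L y → G.tv y (G.vf L y) = 0 →
    (y.2 = 0 ∧ aeval y.1 G.dF = 0) ∨
      ∃ (c : L) (ε : Bool), c ≠ 0 ∧ y = G.scl c (sg ε L (![1, 0, 1], 1))
  base : ∀ (G : GD K) (L : Fld K), G.Cn L (![1, 0, 1], 1)
  crit : ∀ (G : GD K) (L : Fld K) (x : Fin 3 → L), x ≠ 0 → aeval x G.F = 0 → aeval x G.dF = 0 →
    ∃ (c : L) (x₀ : Fin 3 → K), c ≠ 0 ∧ x₀ 0 = 1 ∧ x = fun i => c * algebraMap K L (x₀ i)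
  ind : ∀ (G : GD K) (L : Fld K) (x : Fin 3 → L), x ≠ 0 → aeval x G.F = 0 →
    LinearIndependent L ![G.tv (x, 0) (![1, 0, 1], 0), G.tv (x, 0) (0, 1)]
  split : ∀ (G : GD K) (L : Fld K) (y : xz.X L), G.tv y (G.vf L y) =
    (2 * y.2) • G.tv y (![1, 0, 1], 0) + aeval y.1 G.dF • G.tv y (0, 1)
  sec : ∀ (G : GD K) (L : Fld K) (y : xz.X L), G.sv (ngz L y) y = (2 * y.2) • G.tv y (0, 1)
  rad : ∀ (G : GD K) (L : Fld K) (y v : xz.X L) (ρ : L), G.Cn L y →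
    y.1 = ![1, 0, 1] + ρ • v.1 → G.tv y (G.vf L y) =
      (-ρ) • G.tv y ((2 * y.2) • v.1, ∑ i, aeval y.1 (pderiv i G.F) * v.1 i)

/-- Two lines meet in one point. -/
class ZH : Prop where
  ex : ∀ {d : Cd} {W : ASp K d} {j : ℕ} (φ : AF j W), ∃ ϑ, IsH φ ϑ ∧ ∀ (G : GD K) {L M : Fld K}
    {α : L →ₐ[K] M} {y : xz.X M}, G.GenU j α y → ∀ w : d.X L, W.mem L w →
    HasS (fun O : Dv M (j + 1) => ((-ordv O.1 y.1 : ℤ) : ℂ) * ϑ.v O.1.res
      (((Sub K (Fin 3)).prod (d.amb K)).red O.1 (span M {y.1}, some (d.map α w)))) (2 * φ.a L w)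

/-- Values on two kinds of curves in the exceptional divisor. -/
class ZX1 : Prop where
  ram : ∀ {G : GD K} {d : Cd} {W : ASp K d} {j : ℕ} {φ : AF j W} {ψ ϑ}, G.IsPsi φ ψ → IsH φ ϑ →
    ∀ {N : Fld K} {y : xz.X N} {w : d.X N}, Good (j + 1) N → G.Cn N y → y.2 = 0 → W.mem N w →
    ψ.v N (((G.pt N y, G.pt N y), span N {G.tv y (0, 1)}), some w) =
      G.e * (3 - 2 * G.e) * ϑ.v N (span N {y.1}, some w)
  lin : ∀ {G : GD K} {d : Cd} {W : ASp K d} {j : ℕ} {φ : AF j W} {ψ ϑ}, G.IsPsi φ ψ → IsH φ ϑ →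
    ∀ {N : Fld K} {y : xz.X N} {w : d.X N}, Good (j + 1) N → G.Cn N y → y.1 0 = 0 → W.mem N w →
    ψ.v N (((G.pt N y, G.pt N y), span N {G.tv y (G.vf N y)}), some w) =
      2 * G.e * ϑ.v N (span N {y.1}, some w)
  low : ∀ {G : GD K} {d : Cd} {W : ASp K d} {j : ℕ} {φ : AF j W} {ψ ϑ}, G.IsPsi φ ψ → IsH φ ϑ →
    ∀ {L M : Fld K} {α : L →ₐ[K] M} (O : Pl M) (w : d.X L), Good j L → ¬ Pl.Triv α O →
    (∀ s, ψ.v O.res (s, (d.amb K).red O (some (d.map α w))) = 0) ∧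
      ∀ s, ϑ.v O.res (s, (d.amb K).red O (some (d.map α w))) = 0

/-- The self intersection of the diagonal, and its intersection with the graph of the
involution. -/
class ZX : Prop where
  dg : ∀ {G : GD K} {d : Cd} {W : ASp K d} {j : ℕ} {φ : AF j W} {Ψ}, G.Con φ Ψ →
    ∀ {L M : Fld K} {α : L →ₐ[K] M} {y : xz.X M}, G.GenU j α y → ∀ w : d.X L, W.mem L w →
    Ψ.v M ((G.pt M y, G.pt M y), some (d.map α w)) =
      G.e * (4 * G.e ^ 2 - 6 * G.e + 6) * φ.a L w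

/-- The intersection of the diagonal with the graph of the involution. -/
class ZX2 : Prop where
  gr : ∀ {G : GD K} {d : Cd} {W : ASp K d} {j : ℕ} {φ : AF j W} {Ψ}, G.Con φ Ψ →
    ∀ {L M : Fld K} {α : L →ₐ[K] M} {y : xz.X M}, G.GenU j α y → ∀ w : d.X L, W.mem L w →
    Ψ.v M ((G.pt M (ngz M y), G.pt M y), some (d.map α w)) =
      G.e * (2 * G.e * (3 - 2 * G.e)) * φ.a L w

/-- The contraction with the diagonal, with its value on the diagonal. -/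
class ZO (p : ℕ) : Prop where
  ex : ∀ G : GD K, ∃ AC : CRel G, ConL G p AC ∧ DiagL G AC

open Classical in
/-- One contraction. -/
class ZS (p : ℕ) : Prop where
  step : ∀ {G : GD K} {q : ℕ}, 1 < q → G.Fr p q →
    ∀ {T : Type} [Finite T] [DecidableEq T] (φ : AF (Nat.card T) (G.UU.pi T)), AntiP φ.a →
    ∃ Φ : AF (Nat.card (Option (Option T))) (G.UU.pi (Option (Option T))), AntiP Φ.a ∧
      (∀ (sd : T → Bool) (s : Bool), KlS sd φ.a →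
        KlS (fun t : Option (Option T) => (Option.bind t id).elim s sd) Φ.a) ∧
      ∀ (τ : Option (Option T) → Option (Option T)) (e : Option (Option T) → ℕ) (v : ℂ), Inv τ →
        DV G q φ.a (rτ τ) (re τ e) v →
        DV G q Φ.a τ e ((if Lp τ then lamP q (G.PP q) (e none) (e (some none)) else 1) * v / 2)

/-- Descent along Frobenius. -/
class ZV (p : ℕ) : Prop where
  desc : ∀ {G : GD K} {q : ℕ}, G.Fr p q → ∀ {T : Type} [Finite T] [DecidableEq T] {j : ℕ}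
    (φ : AF j (G.UU.pi T)) (e : T → ℕ), ∃ ψ : AF j (G.UU.pi T),
      (∀ L x, φ.a L x = ψ.a L (cfg q e L x)) ∧ (AntiP φ.a → AntiP ψ.a) ∧
      ∀ sd : T → Bool, KlS sd φ.a → KlS sd ψ.a

/-- The relation between the graphs of the powers of Frobenius. -/
class ZR (p : ℕ) : Prop where
  rel : ∀ {G : GD K} {q : ℕ}, 1 < q → G.Fr p q → ∀ {n r : ℕ}, n = G.n → ∀ (sd : ℕ → Bool)
    (E : Fin n ⊕ Fin n ≃ Tw r), (∀ i, side sd r (E (Sum.inl i)) = true) →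
    (∀ i, side sd r (E (Sum.inr i)) = false) → ∀ e : Tw r → ℕ, dsum E (lamP q (G.PP q)) q e ≠ 0 →
    ∃ f : Polynomial ℂ, f.eval (q : ℂ) ≠ 0 ∧ f.eval 0 ≠ 0 ∧
      ∀ φ : AF (Nat.card Bool) (G.UU.pi Bool), AntiP φ.a → KlS id φ.a → ∀ v : ℕ → ℂ,
      (∀ j, DV G q φ.a not (fun b => bif b then j else 0) (v j)) →
      ∀ t, (f.sum fun j a => a * v (j + t)) = 0

end Geo

end Pool.Agent.Lib.MP_557161_ag.HG
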