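import Pool.Agent.Lib.MP_557161_ag.HG.St2

/-!
Matrix lemmas for the Whittaker space.
-/

namespace Pool.Agent.Lib.MP_557161_ag.HG.WHa

open Pool.Agent.Lib.MP_557161_ag.DL Matrix

section Uni

variable {F : Type} [Field F] {n : ℕ} {A B : Matrix (Fin n) (Fin n) F}

lemma uni_det (h : Uni Fin.val A) : A.det = 1 := by
  rw [Matrix.det_of_isUpperTriangular (fun i j hij => h.1 hij)]
  simp [h.2]

lemma uni_ne (h : Uni Fin.val A) : A.det ≠ 0 := by simp [uni_det h]

lemma uni_unit (h : Uni Fin.val A) : IsUnit A.det := (uni_ne h).isUnit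

lemma tri_diag (h : A.BlockTriangular Fin.val) (h' : B.BlockTriangular Fin.val) (i : Fin n) :
    (A * B) i i = A i i * B i i := by
  rw [mul_apply]
  refine Finset.sum_eq_single i (fun k _ hk => ?_) (by simp)
  rcases lt_or_gt_of_ne (Fin.val_injective.ne hk) with e | e
  · rw [h e, zero_mul]
  · rw [h' e, mul_zero]

lemma uni_mul (h : Uni Fin.val A) (h' : Uni Fin.val B) : Uni Fin.val (A * B) :=
  ⟨h.1.mul h'.1, fun i => by rw [tri_diag h.1 h'.1, h.2, h'.2, one_mul]⟩

lemma uni_inv (h : Uni Fin.val A) : Uni Fin.val A⁻¹ := by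
  have := invertibleOfIsUnitDet A (uni_unit h)
  have h1 := blockTriangular_inv_of_blockTriangular h.1
  refine ⟨h1, fun i => ?_⟩
  have h2 := tri_diag h.1 h1 i
  rwa [mul_nonsing_inv _ (uni_unit h), one_apply_eq, h.2, one_mul, eq_comm] at h2

lemma psi_smul (a : F) (A : Matrix (Fin n) (Fin n) F) : psi (a • A) = a * psi A := by
  simp [psi, Finset.mul_sum]

lemma psi_mul (h : Uni Fin.val A) (h' : Uni Fin.val B) : psi (A * B) = psi A + psi B := by
  simp only [psi, ← Finset.sum_add_distrib]
  refine Finset.sum_congr rfl fun i _ => Finset.sum_congr rfl fun j _ => ?_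
  split_ifs with e
  · rw [mul_apply, Fintype.sum_eq_add j i (by rintro rfl; omega) fun k hk => ?_, h.2, h'.2,
      mul_one, one_mul]
    have h1 := Fin.val_injective.ne hk.1
    have h2 := Fin.val_injective.ne hk.2
    by_cases l : k.1 < i.1
    · rw [h.1 l, zero_mul]
    · rw [h'.1 (show j.1 < k.1 by omega), mul_zero]
  · simp

lemma psi_one : psi (1 : Matrix (Fin n) (Fin n) F) = 0 :=
  Finset.sum_eq_zero fun i _ => Finset.sum_eq_zero fun j _ => by
    split_ifs with e
    · exact one_apply_ne (by rintro rfl; omega)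
    · rfl

lemma psi_inv (h : Uni Fin.val A) : psi A⁻¹ = -psi A := by
  have := psi_mul h (uni_inv h)
  rw [mul_nonsing_inv _ (uni_unit h), psi_one] at this
  exact eq_neg_of_add_eq_zero_right this.symm

lemma uni_upm (T : UpI (Fin.val : Fin n → ℕ) → F) : Uni Fin.val (1 + upm Fin.val T) :=
  ⟨fun i j hij => by
    rw [Matrix.add_apply, one_apply_ne (by rintro rfl; omega), upm, of_apply, dif_neg (by omega),
      add_zero],
    fun i => by simp [upm]⟩

lemma upm_uni (h : Uni Fin.val A) : 1 + upm Fin.val (fun x => A x.1.1 x.1.2) = A := by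
  ext i j
  rw [Matrix.add_apply, upm, of_apply]
  rcases lt_trichotomy i.1 j.1 with e | e | e
  · rw [dif_pos e, one_apply_ne (by rintro rfl; omega), zero_add]
  · obtain rfl := Fin.ext e
    rw [dif_neg (by omega), one_apply_eq, add_zero, h.2]
  · rw [dif_neg (by omega), one_apply_ne (by rintro rfl; omega), add_zero, h.1 e]

lemma upm_ent (T : UpI (Fin.val : Fin n → ℕ) → F) (x : UpI (Fin.val : Fin n → ℕ)) :
    (1 + upm Fin.val T : Matrix (Fin n) (Fin n) F) x.1.1 x.1.2 = T x := by
  rw [Matrix.add_apply, one_apply_ne (fun e => by have := x.2; rw [e] at this; omega), upm, of_apply,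
    dif_pos x.2, zero_add]

variable {U b : Matrix (Fin (n + 1)) (Fin (n + 1)) F}

lemma mul_uni_ent (h : Uni Fin.val U) (i : Fin (n + 1)) : (b * U) i 0 = b i 0 := by
  rw [mul_apply, Finset.sum_eq_single 0 (fun k _ hk => ?_) (by simp), h.2, mul_one]
  rw [h.1 (show (0 : Fin (n + 1)).1 < k.1 from Fin.pos_iff_ne_zero.2 hk), mul_zero]

lemma uni_mul_ent (h : Uni Fin.val U) (i : Fin (n + 1)) :
    (U * b) (Fin.last n) i = b (Fin.last n) i := by
  rw [mul_apply, Finset.sum_eq_single (Fin.last n) (fun k _ hk => ?_) (by simp), h.2, one_mul]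
  rw [h.1 (show k.1 < (Fin.last n).1 from Fin.lt_last_iff_ne_last.2 hk), zero_mul]

end Uni

section Prod

variable {F : Type} [Field F] {ι : Type} [Fintype ι] [DecidableEq ι] {m : ℕ}

/-- The products of the first factors. -/
def pp (k : Fin m → Matrix ι ι F) (j : Fin (m + 1)) : Matrix ι ι F := ((List.ofFn k).take j).prod

variable {k : Fin m → Matrix ι ι F}

lemma pp_zero : pp k 0 = 1 := by simp [pp]

lemma pp_succ (j : Fin m) : pp k j.succ = pp k j.castSucc * k j := by
  simp only [pp, Fin.val_succ, Fin.val_castSucc]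
  rw [List.prod_take_succ _ _ (by simp)]
  simp

lemma pp_last : pp k (Fin.last m) = (List.ofFn k).prod := by
  rw [pp, List.take_of_length_le (by simp)]

lemma pp_det (h : ∀ j, (k j).det ≠ 0) (j : Fin (m + 1)) : (pp k j).det ≠ 0 := by
  induction j using Fin.induction with
  | zero => simp [pp_zero]
  | succ j ih =>
    rw [pp_succ, det_mul]
    exact mul_ne_zero ih (h j)

lemma prod_det (h : ∀ j, (k j).det ≠ 0) : (List.ofFn k).prod.det ≠ 0 := pp_last (k := k) ▸ pp_det h _

lemma pp_stp (h : ∀ j, (k j).det ≠ 0) (j : Fin m) : (pp k j.castSucc)⁻¹ * pp k j.succ = k j := by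
  rw [pp_succ, nonsing_inv_mul_cancel_left _ _ (pp_det h _).isUnit]

lemma pp_stp' (h : ∀ j, (k j).det ≠ 0) (j : Fin m) :
    (pp k j.succ)⁻¹ * pp k j.castSucc = (k j)⁻¹ := by
  rw [← pp_stp h j, Matrix.mul_inv_rev, nonsing_inv_nonsing_inv _ (pp_det h _).isUnit]

lemma pp_tel {μ : Fin (m + 1) → Matrix ι ι F} (h0 : μ 0 = 1) (h : ∀ j, (μ j).det ≠ 0) :
    pp (fun j => (μ j.castSucc)⁻¹ * μ j.succ) = μ := by
  funext j
  induction j using Fin.induction with
  | zero => rw [pp_zero, h0]
  | succ j ih => rw [pp_succ, ih, mul_nonsing_inv_cancel_left _ _ (h _).isUnit]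

lemma prod_rev (h : Fin m → Matrix ι ι F) :
    (List.ofFn fun j => (h (Fin.rev j))⁻¹).prod = (List.ofFn h).prod⁻¹ := by
  rw [list_prod_inv_reverse]
  congr 1
  refine List.ext_getElem (by simp) fun i h1 h2 => ?_
  simp only [List.getElem_ofFn, List.getElem_map, List.getElem_reverse, List.length_ofFn]
  congr 2
  ext
  simp only [Fin.val_rev]
  omega

section Conj

variable {a b : Matrix ι ι F} (h : b * a = 1)

include h

lemma prod_conj (g : Fin m → Matrix ι ι F) :
    (List.ofFn fun j => a * g j * b).prod = a * (List.ofFn g).prod * b := by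
  induction m with
  | zero => simp [mul_eq_one_comm.1 h]
  | succ m ih =>
    rw [List.ofFn_succ, List.ofFn_succ, List.prod_cons, List.prod_cons, ih]
    simp only [Matrix.mul_assoc]
    rw [← Matrix.mul_assoc b a, h, Matrix.one_mul]

lemma det_cj (g : Matrix ι ι F) : (a * g * b).det = g.det := by
  rw [det_mul_comm, ← Matrix.mul_assoc, h, Matrix.one_mul]

lemma trace_cj (g : Matrix ι ι F) : (a * g * b).trace = g.trace := by
  rw [trace_mul_comm, ← Matrix.mul_assoc, h, Matrix.one_mul]

lemma cj_cj (g : Matrix ι ι F) : b * (a * g * b) * a = g := by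
  rw [← Matrix.mul_assoc, ← Matrix.mul_assoc, h, Matrix.one_mul, Matrix.mul_assoc, h, Matrix.mul_one]

end Conj

/-- The factors of a chain. -/
noncomputable def fac (g h : Fin m → Matrix ι ι F) : Fin (m + m) → Matrix ι ι F :=
  Fin.append g fun j => (h (Fin.rev j))⁻¹

variable {g h : Fin m → Matrix ι ι F}

lemma fac_det (hg : ∀ j, (g j).det ≠ 0) (hh : ∀ j, (h j).det ≠ 0) (j : Fin (m + m)) :
    (fac g h j).det ≠ 0 := by
  refine Fin.addCases (fun i => ?_) (fun i => ?_) j
  · simpa only [fac, Fin.append_left] using hg i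
  · rw [fac, Fin.append_right, det_nonsing_inv, Ring.inverse_eq_inv']
    exact inv_ne_zero (hh _)

lemma fac_last : pp (fac g h) (Fin.last _) = (List.ofFn g).prod * (List.ofFn h).prod⁻¹ := by
  rw [pp_last, fac, List.ofFn_fin_append, List.prod_append, prod_rev]

lemma fac_tel {μ : Fin (m + m + 1) → Matrix ι ι F} (h0 : μ 0 = 1) (hμ : ∀ j, (μ j).det ≠ 0) :
    pp (fac (fun j => stp true (μ (Fin.castAdd m j).castSucc) (μ (Fin.castAdd m j).succ))
      fun j => stp false (μ (Fin.natAdd m j.rev).castSucc) (μ (Fin.natAdd m j.rev).succ)) = μ := by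
  refine Eq.trans (congrArg pp (funext fun j => ?_)) (pp_tel h0 hμ)
  refine Fin.addCases (fun i => ?_) (fun i => ?_) j
  · simp only [fac, stp, Fin.append_left, cond_true]
  · simp only [fac, stp, Fin.append_right, cond_false, Fin.rev_rev]
    rw [Matrix.mul_inv_rev, nonsing_inv_nonsing_inv _ (hμ _).isUnit]

variable {K : Type} [Field K] {M L : Fld K} {R : Rel M L}

lemma rel_pp {k : Fin m → Matrix ι ι M} {k' : Fin m → Matrix ι ι L} (e : ∀ j, R.m' (k j) (k' j))
    (j : Fin (m + 1)) : R.m' (pp k j) (pp k' j) := by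
  induction j using Fin.induction with
  | zero =>
    rw [pp_zero, pp_zero]
    exact Rel.mone
  | succ j ih =>
    rw [pp_succ, pp_succ]
    exact Rel.mmul ih (e j)

lemma rel_fac {g h : Fin m → Matrix ι ι M} {g' h' : Fin m → Matrix ι ι L}
    (e : ∀ j, R.m' (g j) (g' j)) (e' : ∀ j, R.m' (h j) (h' j)) (h0 : ∀ j, (h' j).det ≠ 0)
    (j : Fin (m + m)) : R.m' (fac g h j) (fac g' h' j) := by
  refine Fin.addCases (fun i => ?_) (fun i => ?_) j
  · simpa only [fac, Fin.append_left] using e i
  · simpa only [fac, Fin.append_right] using Rel.minv (e' _) (h0 _)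

end Prod

end Pool.Agent.Lib.MP_557161_ag.HG.WHa
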