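import Pool.Agent.Lib.MP_557161_ag.HG.StY

/-!
Colourings of diagrams.
-/

namespace Pool.Agent.Lib.MP_557161_ag.HG

namespace XCa

open Finset

theorem geom {ι : Type} [Fintype ι] (a v : ι → ℂ) (hv : ∀ i, v i ≠ 0) (N : ℕ)
    (h : ∀ m, ∑ i, a i * v i ^ (N + m) = 0) (g : ℂ → ℂ) : ∑ i, a i * g (v i) = 0 := by
  classical
  let P := Lagrange.interpolate (univ.image v) id fun z => g z / z ^ N
  have e : ∀ i, a i * g (v i) =
      ∑ m ∈ range (P.natDegree + 1), P.coeff m * (a i * v i ^ (N + m)) := fun i => by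
    have h1 : P.eval (v i) = g (v i) / v i ^ N :=
      Lagrange.eval_interpolate_at_node (v := id) _ (Set.injOn_id _)
        (mem_image_of_mem v (mem_univ i))
    rw [← div_mul_cancel₀ (g (v i)) (pow_ne_zero N (hv i)), ← h1, Polynomial.eval_eq_sum_range,
      sum_mul, mul_sum]
    exact sum_congr rfl fun m _ => by ring
  simp only [e]
  rw [sum_comm]
  exact sum_eq_zero fun m _ => by rw [← mul_sum, h, mul_zero]

/-- Sums over disjoint subsets are different. -/
def Sep {T : Type} (s : Finset T) (e : T → ℕ) : Prop :=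
  ∀ x : T → ℤ, (∀ t, |x t| ≤ 1) → ∑ t ∈ s, e t • x t = 0 → ∀ t ∈ s, x t = 0

theorem ex_e {T ι : Type} [Fintype ι] (v : ι → T → ℂ) (hv : ∀ i t, v i t ≠ 0) (g : T → ℂ → ℂ)
    (s : Finset T) (a : ι → ℂ) (h : ∑ i, a i * ∏ t ∈ s, g t (v i t) ≠ 0) :
    ∃ e, Sep s e ∧ ∑ i, a i * ∏ t ∈ s, v i t ^ e t ≠ 0 := by
  classical
  induction s using Finset.induction_on generalizing a with
  | empty => exact ⟨0, fun _ _ _ _ h => absurd h (notMem_empty _), h⟩
  | insert u s hu ih =>
    obtain ⟨e, h1, h2⟩ := ih (fun i => a i * g u (v i u)) (by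
      simpa only [prod_insert hu, mul_assoc] using h)
    obtain ⟨m, h3⟩ := not_forall.1 fun h' => h2 ((sum_congr rfl fun i _ => by ring).trans
      (geom (fun i => a i * ∏ t ∈ s, v i t ^ e t) (v · u) (hv · u) (∑ t ∈ s, e t + 1) h' (g u)))
    have e1 : ∀ t ∈ s, Function.update e u (∑ t ∈ s, e t + 1 + m) t = e t := fun t ht =>
      Function.update_of_ne (ne_of_mem_of_not_mem ht hu) _ _
    refine ⟨Function.update e u (∑ t ∈ s, e t + 1 + m), fun x hx h4 => ?_, fun h4 => h3 ?_⟩
    · rw [sum_insert hu, Function.update_self, 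
        sum_congr (g := fun t => e t • x t) rfl fun t ht => by rw [e1 t ht]] at h4
      have h5 : |∑ t ∈ s, e t • x t| ≤ (∑ t ∈ s, e t : ℕ) := by
        rw [Nat.cast_sum]
        refine (abs_sum_le_sum_abs _ _).trans (sum_le_sum fun t _ => ?_)
        rw [nsmul_eq_mul, abs_mul, Nat.abs_cast]
        exact mul_le_of_le_one_right (Nat.cast_nonneg _) (hx t)
      have h6 : x u = 0 := by
        have := abs_le.1 (hx u)
        have h7 := abs_le.1 h5
        rw [nsmul_eq_mul, Nat.cast_add, Nat.cast_add] at h4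
        rcases (by omega : x u = 0 ∨ x u = 1 ∨ x u = -1) with h | h | h
        · exact h
        all_goals
          rw [h] at h4
          omega
      rw [h6, nsmul_zero, zero_add] at h4
      exact forall_mem_insert _ _ _ |>.2 ⟨h6, h1 x hx h4⟩
    · refine Eq.trans (sum_congr rfl fun i _ => ?_) h4
      rw [prod_insert hu, Function.update_self, mul_assoc, mul_comm (∏ t ∈ s, _),
        prod_congr rfl fun t ht => congrArg (v i t ^ ·) (e1 t ht).symm]

variable {T B : Type} {τ : Option (Option T) → Option (Option T)}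

open Classical in
theorem two (h : Inv τ) : (Lp τ ∧ τ (some none) = none ∧ ∀ j, τ (some (some j)) =
      some (some (rτ τ j)) ∧ ∀ e, re τ e j = e (some (some j))) ∨
    (¬ Lp τ ∧ ∃ i i', i ≠ i' ∧ τ none = some (some i) ∧ τ (some none) = some (some i') ∧
      rτ τ i = i' ∧ rτ τ i' = i ∧
      (∀ j, j ≠ i → j ≠ i' → τ (some (some j)) = some (some (rτ τ j))) ∧
      ∀ e j, re τ e j = e (some (some j)) + (if j = i then e (some none) else 0) +
        if j = i' then e none else 0) := by
  have a : ∀ {s t}, τ s = t → τ t = s := fun e => e ▸ (h _).1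
  have b : ∀ j, τ none ≠ some (some j) → τ (some none) ≠ some (some j) →
      τ (some (some j)) = some (some (rτ τ j)) ∧ ∀ e, re τ e j = e (some (some j)) := by
    intro j h1 h2
    rcases e : τ (some (some j)) with _ | _ | k
    · exact absurd (a e) h1
    · exact absurd (a e) h2
    · simp [rτ, re, e]
  by_cases hl : Lp τ
  · exact Or.inl ⟨hl, a hl, fun j => b j (by rw [show τ none = _ from hl]; simp)
      (by rw [a hl]; simp)⟩
  refine Or.inr ⟨hl, ?_⟩
  rcases e : τ none with _ | _ | i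
  · exact absurd e (h _).2
  · exact absurd e hl
  rcases e' : τ (some none) with _ | _ | i'
  · exact absurd (a e') hl
  · exact absurd e' (h _).2
  have c : i ≠ i' := fun c => by
    have := (a e).symm.trans (c ▸ a e')
    simp at this
  have d := fun j (h1 : j ≠ i) (h2 : j ≠ i') => b j (by simp [e, h1.symm]) (by simp [e', h2.symm])
  refine ⟨i, i', c, rfl, rfl, by simp [rτ, a e, e'], by simp [rτ, a e', e],
    fun j h1 h2 => (d j h1 h2).1, fun f j => ?_⟩
  by_cases h1 : j = i
  · subst h1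
    simp [re, a e, c]
  by_cases h2 : j = i'
  · subst h2
    simp [re, a e', h1]
  · simp [h1, h2, (d j h1 h2).2]

theorem inv (h : Inv τ) : Inv (rτ τ) := by
  have a : ∀ {s t}, τ s = t → τ t = s := fun e => e ▸ (h _).1
  have b : ∀ j, τ (some (some j)) = some (some (rτ τ j)) →
      τ (some (some (rτ τ j))) = some (some (rτ τ (rτ τ j))) → rτ τ (rτ τ j) = j ∧ rτ τ j ≠ j :=
    fun j h1 h2 => ⟨by simpa using h2.symm.trans (a h1), fun e => (h _).2 (h1.trans (by rw [e]))⟩
  intro j
  rcases two h with ⟨-, -, c⟩ | ⟨-, i, i', c1, c2, c3, c4, c5, c6, -⟩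
  · exact b j (c _).1 (c _).1
  by_cases h1 : j = i
  · subst h1
    exact ⟨by rw [c4, c5], c4 ▸ c1.symm⟩
  by_cases h2 : j = i'
  · subst h2
    exact ⟨by rw [c5, c4], c5 ▸ c1⟩
  have d := c6 j h1 h2
  refine b j d (c6 _ (fun e => ?_) fun e => ?_)
  · exact absurd ((a c2).symm.trans (e ▸ a d)) (by simp)
  · exact absurd ((a c3).symm.trans (e ▸ a d)) (by simp)

/-- The extension of a function to the two new slots. -/
def ex2 (x y : B) (c : T → B) (t : Option (Option T)) : B := t.elim x fun u => u.elim y c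

open Classical in
theorem prod_re [Fintype T] {M : Type} [CommMonoid M] {i i' : T} {e : Option (Option T) → ℕ}
    {e' : T → ℕ} (h : ∀ j, e' j = e (some (some j)) + (if j = i then e (some none) else 0) +
      if j = i' then e none else 0) (y : T → M) :
    ∏ t, ex2 (y i') (y i) y t ^ e t = ∏ j, y j ^ e' j := by
  simp only [h, pow_add, prod_mul_distrib, pow_ite, pow_zero, prod_ite_eq', mem_univ, if_true,
    Fintype.prod_option, ex2, Option.elim]
  rw [mul_comm, mul_comm (y i ^ _)]

theorem sep_re [Fintype T] (h : Inv τ) {e : Option (Option T) → ℕ} (he : Sep univ e) :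
    e none ≠ e (some none) ∧ Sep univ (re τ e) := by
  have a : ∀ {x y : ℤ} {c : T → ℤ}, |x| ≤ 1 → |y| ≤ 1 → (∀ t, |c t| ≤ 1) →
      ∀ t, |ex2 x y c t| ≤ 1 := by
    rintro x y c h1 h2 h3 (_ | _ | t)
    exacts [h1, h2, h3 t]
  refine ⟨fun e1 => ?_, fun x hx h1 t _ => ?_⟩
  · exact one_ne_zero (he (ex2 1 (-1) 0) (a (by simp) (by simp) (by simp))
      (by simp [Fintype.sum_option, ex2, e1]) none (mem_univ _))
  rcases two h with ⟨-, -, c⟩ | ⟨-, i, i', -, -, -, -, -, -, c⟩
  · exact he (ex2 0 0 x) (a (by simp) (by simp) hx)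
      (by simpa [Fintype.sum_option, ex2, (c _).2] using h1) (some (some t)) (mem_univ _)
  · exact he (ex2 (x i') (x i) x) (a (hx _) (hx _) hx)
      ((prod_re (M := Multiplicative ℤ) (c e) x).trans h1) (some (some t)) (mem_univ _)

theorem adm : ∀ (r : ℕ) (τ : Tw r → Tw r) (e : Tw r → ℕ), Inv τ → Sep univ e → Adm r τ e
  | 0, _, _, _, _ => trivial
  | r + 1, _, _, h, he => ⟨fun _ => (sep_re h he).1, adm r _ _ (inv h) (sep_re h he).2⟩

/-- The open slots. -/
def op : ∀ r, Bool → Tw r
  | 0, b => b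
  | r + 1, b => some (some (op r b))

/-- The slots of the contraction number `k`. -/
def sl : ∀ r, ℕ → Bool → Tw r
  | 0, _, b => b
  | r + 1, k, b => if k = r then bif b then some none else none else some (some (sl r k b))

theorem sl_top (r : ℕ) (b : Bool) : sl (r + 1) r b = bif b then some none else none := if_pos rfl

theorem sl_lt {r k : ℕ} (h : k < r) (b : Bool) : sl (r + 1) k b = some (some (sl r k b)) :=
  if_neg h.ne

theorem slots : ∀ (r : ℕ) (t : Tw r), (∃ b, t = op r b) ∨ ∃ k, k < r ∧ ∃ b, t = sl r k b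
  | 0, t => Or.inl ⟨t, rfl⟩
  | r + 1, none => Or.inr ⟨r, r.lt_succ_self, false, (sl_top r false).symm⟩
  | r + 1, some none => Or.inr ⟨r, r.lt_succ_self, true, (sl_top r true).symm⟩
  | r + 1, some (some t) => by
    rcases slots r t with ⟨b, rfl⟩ | ⟨k, h, b, rfl⟩
    exacts [Or.inl ⟨b, rfl⟩, Or.inr ⟨k, h.trans r.lt_succ_self, b, (sl_lt h b).symm⟩]

theorem card_tw : ∀ r, Nat.card (Tw r) = 2 * r + 2
  | 0 => Nat.card_eq_fintype_card.trans rfl
  | r + 1 => by
    have := card_tw r
    change Nat.card (Option (Option (Tw r))) = _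
    rw [Finite.card_option, Finite.card_option]
    omega

theorem side_op (sd : ℕ → Bool) : ∀ r b, side sd r (op r b) = b
  | 0, _ => rfl
  | r + 1, b => side_op sd r b

theorem side_sl (sd : ℕ → Bool) : ∀ r k b, k < r → side sd r (sl r k b) = sd k
  | 0, _, _, h => absurd h (Nat.not_lt_zero _)
  | r + 1, k, b, h => by
    rcases Nat.lt_succ_iff_lt_or_eq.1 h with h | rfl
    · rw [sl_lt h]
      exact side_sl sd r k b h
    · rw [sl_top]
      cases b <;> rfl

variable (s : B → B) (o : Bool → B) (P : Finset B)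

/-- The colours of the open slots and of the contracted pairs. -/
def Mt (r : ℕ) (c : Tw r → B) : Prop :=
  (∀ b, c (op r b) = o b) ∧ ∀ k, k < r → c (sl r k true) = s (c (sl r k false))

/-- The colours of loops. -/
def Lo : ∀ r, (Tw r → Tw r) → (Tw r → B) → Prop
  | 0, _, _ => True
  | r + 1, τ, c => (Lp τ → c none ∈ P) ∧ Lo r (rτ τ) fun j => c (some (some j))

/-- Colourings. -/
def Col (r : ℕ) (τ : Tw r → Tw r) (c : Tw r → B) : Prop :=
  Mt s o r c ∧ (∀ t, c (τ t) = s (c t)) ∧ Lo P r τ c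

variable {s o P}

theorem lo_of : ∀ (r : ℕ) (τ : Tw r → Tw r) (c : Tw r → B),
    (∀ k, k < r → c (sl r k false) ∈ P) → Lo P r τ c
  | 0, _, _, _ => trivial
  | r + 1, _, c, h => ⟨fun _ => by simpa [sl_top] using h r r.lt_succ_self,
      lo_of r _ _ fun k hk => by simpa [sl_lt hk] using h k (hk.trans r.lt_succ_self)⟩

theorem mt_succ {r : ℕ} {c : Option (Option (Tw r)) → B} : Mt s o (r + 1) c ↔
    c (some none) = s (c none) ∧ Mt s o r fun j => c (some (some j)) := by
  refine ⟨fun h => ⟨by simpa [sl_top] using h.2 r r.lt_succ_self, h.1, fun k hk => by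
    simpa [sl_lt hk] using h.2 k (hk.trans r.lt_succ_self)⟩, fun h => ⟨h.2.1, fun k hk => ?_⟩⟩
  rcases Nat.lt_succ_iff_lt_or_eq.1 hk with hk | rfl
  · rw [sl_lt hk, sl_lt hk]
    exact h.2.2 k hk
  · rw [sl_top, sl_top]
    exact h.1

open Classical in
theorem ev_eq [Fintype B] (hs : ∀ x, s (s x) = x) (ho : ∀ b, s (o b) = o !b) (z : B → ℂ)
    {lam : ℕ → ℕ → ℂ} (hl : ∀ x y, lam x y = ∑ c ∈ P, z c ^ x * z (s c) ^ y) :
    ∀ (r : ℕ) (τ : Tw r → Tw r) (e : Tw r → ℕ), Inv τ →
      (ev lam r τ e).1 * (z (o true) ^ (ev lam r τ e).2.1 * z (o false) ^ (ev lam r τ e).2.2) =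
        ∑ c with Col s o P r τ c, ∏ t, z (c t) ^ e t
  | 0, τ, e, h => by
    refine Eq.trans ?_ (sum_eq_single_of_mem (ι := Tw 0 → B) o ?_ fun c hc hne => ?_).symm
    · exact (one_mul _).trans (Fintype.prod_bool fun t => z (o t) ^ e t).symm
    · refine (mem_filter (α := Tw 0 → B)).2 ?_
      exact ⟨mem_univ _, ⟨fun _ => rfl, fun _ h => absurd h (Nat.not_lt_zero _)⟩, fun t =>
        (congrArg o (Bool.eq_not_iff.2 (h t).2)).trans (ho t).symm, trivial⟩
    · rw [mem_filter] at hc
      exact absurd (funext hc.2.1.1) hne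
  | r + 1, τ, e, h => by
    have a : ∀ {s t}, τ s = t → τ t = s := fun e => e ▸ (h _).1
    have ih := ev_eq hs ho z hl r _ (re τ e) (inv h)
    refine ((mul_assoc _ _ _).trans (congrArg _ ih)).trans ?_
    have x2 : ∀ c : Option (Option (Tw r)) → B,
        ex2 (c none) (c (some none)) (fun j => c (some (some j))) = c := fun c => by
      funext t
      rcases t with _ | _ | t <;> rfl
    rcases two h with ⟨c1, c2, c3⟩ | ⟨c0, i, i', -, c2, c3, c4, c5, c6, c7⟩
    · rw [if_pos c1, hl, sum_mul_sum, ← sum_product']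
      refine sum_nbij' (fun x => ex2 x.1 (s x.1) x.2)
        (fun c => (c none, fun j => c (some (some j)))) (fun x hx => ?_) (fun c hc => ?_)
        (fun _ _ => rfl) (fun c hc => ?_) fun x _ => ?_
      · obtain ⟨h1, h2⟩ := mem_product.1 hx
        obtain ⟨h2, h3, h4⟩ := (mem_filter.1 h2).2
        refine mem_filter.2 ⟨mem_univ _, mt_succ.2 ⟨rfl, h2⟩, ?_, fun _ => h1, h4⟩
        rintro (_ | _ | t)
        · rw [show τ none = _ from c1]
          rfl
        · rw [c2]
          exact (hs _).symm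
        · rw [(c3 t).1]
          exact h3 t
      · obtain ⟨h2, h3, h4⟩ := (mem_filter.1 hc).2
        exact mem_product.2 ⟨h4.1 c1, mem_filter.2 ⟨mem_univ _, (mt_succ.1 h2).2,
          fun t => (congrArg c (c3 t).1).symm.trans (h3 _), h4.2⟩⟩
      · exact (congrArg (ex2 _ · _) (mt_succ.1 (mem_filter.1 hc).2.1).1.symm).trans (x2 c)
      · refine Eq.trans ?_ (Fintype.prod_option (α := Option (Tw r)) _).symm
        rw [Fintype.prod_option, mul_assoc, prod_congr rfl fun t _ => congrArg _ ((c3 t).2 e)]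
        rfl
    · rw [if_neg c0, one_mul]
      have key : ∀ c : Option (Option (Tw r)) → B, Col s o P (r + 1) τ c →
          c (some none) = s (c none) ∧ c (some (some i)) = c (some none) ∧
            c (some (some i')) = c none := fun c hc =>
        have h1 := (mt_succ.1 hc.1).1
        ⟨h1, (congrArg c c2).symm.trans ((hc.2.1 _).trans h1.symm),
          (congrArg c c3).symm.trans ((hc.2.1 _).trans ((congrArg s h1).trans (hs _)))⟩
      refine sum_nbij' (fun x => ex2 (x i') (x i) x) (fun c j => c (some (some j)))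
        (fun x hx => ?_) (fun c hc => ?_) (fun _ _ => rfl) (fun c hc => ?_)
        fun x _ => (prod_re (c7 e) fun j => z (x j)).symm.trans (prod_congr rfl ?_)
      · obtain ⟨h2, h3, h4⟩ := (mem_filter.1 hx).2
        have d1 : x i = s (x i') := c5 ▸ h3 i'
        have d2 : x i' = s (x i) := c4 ▸ h3 i
        refine mem_filter.2 ⟨mem_univ _, mt_succ.2 ⟨d1, h2⟩, ?_, fun h => absurd h c0, h4⟩
        rintro (_ | _ | t)
        · rw [c2]
          exact d1
        · rw [c3]
          exact d2
        by_cases h1 : t = i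
        · rw [h1, a c2]
          exact d2
        by_cases h1' : t = i'
        · rw [h1', a c3]
          exact d1
        · rw [c6 t h1 h1']
          exact h3 t
      · obtain ⟨h2, h3, h4⟩ := (mem_filter.1 hc).2
        obtain ⟨d1, d2, d3⟩ := key c (mem_filter.1 hc).2
        refine mem_filter.2 ⟨mem_univ _, (mt_succ.1 h2).2, fun t => ?_, h4.2⟩
        by_cases h5 : t = i
        · rw [h5, c4]
          exact d3.trans ((hs _).symm.trans (congrArg s (d2.trans d1).symm))
        by_cases h6 : t = i'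
        · rw [h6, c5]
          exact d2.trans (d1.trans (congrArg s d3.symm))
        · exact (congrArg c (c6 t h5 h6)).symm.trans (h3 _)
      · obtain ⟨-, d2, d3⟩ := key c (mem_filter.1 hc).2
        exact (congrArg₂ (ex2 · · _) d3 d2).trans (x2 c)
      · rintro (_ | _ | t) - <;> rfl

end XCa

end Pool.Agent.Lib.MP_557161_ag.HG
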