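import Pool.Agent.Lib.MP_557161_ag.HG.StY

/-!
The double plane, the blow-up of the diagonal of its square and the exceptional divisor.
-/

namespace Pool.Agent.Lib.MP_557161_ag.HG

open Pool.Agent.Lib.MP_557161_ag.DL MvPolynomial Submodule

variable {K : Type} [Field K]

/-- The exterior product of two vectors. -/
def wdg {L σ : Type} [CommRing L] (a b : σ → L) : σ × σ → L :=
  fun s => a s.1 * b s.2 - a s.2 * b s.1

lemma wdg_smul {L σ : Type} [CommRing L] (r t : L) (a b : σ → L) :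
    wdg (r • a) (t • b) = (r * t) • wdg a b := funext fun s => by simp [wdg]; ring

lemma wdg_map {L L' σ : Type} [Field L] [Field L'] (κ : L →+* L') (a b : σ → L) :
    mapV κ (wdg a b) = wdg (mapV κ a) (mapV κ b) := funext fun s => by simp [wdg, mapV]

namespace GD

variable (G : GD K) {L L' : Fld K}

lemma e_pos : 0 < G.e := by have := G.hu; omega

lemma homF : G.F.IsHomogeneous (2 * G.e) := by
  refine IsHomogeneous.add (IsHomogeneous.sum _ _ _ fun i _ => ?_) ?_
  · rw [← G.hu]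
    simpa using ((isHomogeneous_X K i).pow G.u).mul (isHomogeneous_X K (i + 1))
  · rw [← G.sw]
    simpa using (isHomogeneous_C _ G.lam).mul (IsHomogeneous.prod Finset.univ _ (fun i => G.w i)
      fun i _ => by simpa using (isHomogeneous_X K i).pow (G.w i))

lemma nu_map {R R' : Type} [CommRing R] [CommRing R'] (κ : R →+* R') (y : xz.X R) :
    mapV κ (G.nu y) = G.nu (xz.map κ y) := funext fun s => by
  cases s <;> simp [nu, mapV]

lemma dnu_map {R R' : Type} [CommRing R] [CommRing R'] (κ : R →+* R') (y v : xz.X R) :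
    mapV κ (G.dnu y v) = G.dnu (xz.map κ y) (xz.map κ v) := funext fun s => by
  cases s <;> simp [dnu, mapV]

lemma nu_scl {R : Type} [CommRing R] (a : R) (y : xz.X R) :
    G.nu (G.scl a y) = a ^ G.e • G.nu y := funext fun s => by
  cases s <;> simp [nu, scl, Finset.prod_mul_distrib]

lemma dnu_scl {R : Type} [CommRing R] (a : R) (y v : xz.X R) :
    G.dnu (G.scl a y) (G.scl a v) = a ^ G.e • G.dnu y v := funext fun s => by
  cases s with
  | none => simp [dnu, scl]
  | some m =>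
    simp only [dnu, scl, Option.elim_some, Pi.smul_apply, smul_eq_mul, Finset.mul_sum,
      Finset.prod_mul_distrib, Finset.prod_const, Finset.card_erase_of_mem (Finset.mem_univ _),
      Finset.card_univ, Fintype.card_fin]
    refine Finset.sum_congr rfl fun i _ => ?_
    obtain ⟨m, hm⟩ := Nat.exists_eq_succ_of_ne_zero G.e_pos.ne'
    have : a ^ G.e = a * a ^ (G.e - 1) := by rw [hm, pow_succ']; rfl
    rw [this]; ring

lemma dnu_smul {R : Type} [CommRing R] (a : R) (y v : xz.X R) :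
    G.dnu y (a • v.1, a * v.2) = a • G.dnu y v := funext fun s => by
  cases s <;> simp [dnu, Finset.mul_sum, mul_assoc]

lemma nu_ne {y : xz.X L} (h : y.1 ≠ 0) : G.nu y ≠ 0 := by
  obtain ⟨k, hk⟩ := Function.ne_iff.1 h
  refine Function.ne_iff.2 ⟨some fun _ => k, ?_⟩
  have hk : y.1 k ≠ 0 := hk
  simpa [nu] using fun e => absurd e hk

variable {G}

lemma Cn.scl {y : xz.X L} (h : G.Cn L y) {a : L} (ha : a ≠ 0) : G.Cn L (G.scl a y) :=
  ⟨smul_ne_zero ha h.1, by
    show (a ^ G.e * y.2) ^ 2 = aeval (a • y.1) G.F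
    rw [aeval_smul_of_isHomogeneous G.homF, ← h.2]; ring⟩

lemma Tn.scl {y v : xz.X L} (h : G.Tn L y v) (a : L) : G.Tn L (G.scl a y) (G.scl a v) := by
  show 2 * (a ^ G.e * y.2) * (a ^ G.e * v.2) = ∑ i, aeval (a • y.1) (pderiv i G.F) * (a * v.1 i)
  simp only [aeval_smul_of_isHomogeneous (G.homF.pderiv (i := _))]
  have e : a ^ G.e * a ^ G.e = a ^ (2 * G.e - 1) * a := by
    rw [← pow_add, ← pow_succ]; congr 1; have := G.e_pos; omega
  have h' : 2 * y.2 * v.2 = _ := h
  calc _ = a ^ G.e * a ^ G.e * (2 * y.2 * v.2) := by ring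
    _ = _ := by rw [e, h', Finset.mul_sum]; exact Finset.sum_congr rfl fun i _ => by ring

lemma Tn.smul {y v : xz.X L} (h : G.Tn L y v) (a : L) : G.Tn L y (a • v.1, a * v.2) := by
  show 2 * y.2 * (a * v.2) = ∑ i, aeval y.1 (pderiv i G.F) * (a * v.1 i)
  have h' : 2 * y.2 * v.2 = _ := h
  calc _ = a * (2 * y.2 * v.2) := by ring
    _ = _ := by rw [h', Finset.mul_sum]; exact Finset.sum_congr rfl fun i _ => by ring

lemma cn_map (κ : L →ₐ[K] L') {y : xz.X L} : G.Cn L' (xz.map κ y) ↔ G.Cn L y := by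
  refine and_congr (not_congr (mapV_eq_zero κ.toRingHom)) ?_
  show κ y.2 ^ 2 = aeval (mapV κ.toRingHom y.1) G.F ↔ _
  rw [aeval_mapV, ← map_pow]
  exact κ.injective.eq_iff

lemma tn_map (κ : L →ₐ[K] L') {y v : xz.X L} :
    G.Tn L' (xz.map κ y) (xz.map κ v) ↔ G.Tn L y v := by
  show 2 * κ y.2 * κ v.2 = ∑ i, aeval (mapV κ.toRingHom y.1) (pderiv i G.F) * κ (v.1 i) ↔ _
  simp only [aeval_mapV, ← map_mul, ← map_sum, ← map_ofNat κ 2]
  exact κ.injective.eq_iff

lemma map_pt (κ : L →ₐ[K] L') (y : xz.X L) :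
    (Sub K G.σ).map κ (G.pt L y) = G.pt L' (xz.map κ y) :=
  (smap_single _ _).trans (congrArg (fun v => span L' {v}) (G.nu_map κ.toRingHom y))

lemma pt_scl (y : xz.X L) {a : L} (ha : a ≠ 0) : G.pt L (G.scl a y) = G.pt L y := by
  rw [pt, nu_scl, span_singleton_smul_eq (pow_ne_zero _ ha).isUnit]; rfl

lemma line_desc {τ : Type} [Finite τ] (κ : L →ₐ[K] L') {E : Submodule L (τ → L)} {b : τ → L'}
    (hb : b ≠ 0) (h : smap κ.toRingHom E = span L' {b}) :
    ∃ (g : τ → L) (c : L'), g ≠ 0 ∧ c ≠ 0 ∧ E = span L {g} ∧ mapV κ.toRingHom g = c • b := by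
  obtain ⟨g, g0, hg⟩ := exists_gen_line (E := E) (by
    rw [← finrank_smap κ.toRingHom, h, finrank_span_singleton hb])
  have := mapV_mem κ.toRingHom (hg.ge (mem_span_singleton_self g))
  rw [h, mem_span_singleton] at this
  obtain ⟨c, hc⟩ := this
  exact ⟨g, c, g0, fun e => g0 ((mapV_eq_zero _).1 (by rw [← hc, e, zero_smul])), hg, hc.symm⟩

lemma pt_desc (κ : L →ₐ[K] L') {E : (Sub K G.σ).pt L} {y : xz.X L'} (hy : G.Cn L' y)
    (h : (Sub K G.σ).map κ E = G.pt L' y) :
    ∃ (y₀ : xz.X L) (a : L'), a ≠ 0 ∧ G.Cn L y₀ ∧ E = G.pt L y₀ ∧ xz.map κ y₀ = G.scl a y := by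
  classical
  obtain ⟨g, c, -, c0, -, hg⟩ := line_desc κ (G.nu_ne hy.1) h
  obtain ⟨k, hk⟩ := Function.ne_iff.1 hy.1
  have hk : y.1 k ≠ 0 := hk
  let o : Fin G.e := ⟨0, G.e_pos⟩
  have h1 : ∀ s, κ (g s) = c * G.nu y s := fun s => congrFun hg s
  have h2 : G.nu y (some fun _ => k) = y.1 k ^ G.e := by simp [nu]
  have e : xz.map κ ((fun i => g (some (Function.update (fun _ => k) o i)) / g (some fun _ => k),
      g none / g (some fun _ => k)) : xz.X L) = G.scl (y.1 k)⁻¹ y := by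
    refine Prod.ext (funext fun i => ?_) ?_
    · show κ (_ / _) = (y.1 k)⁻¹ * y.1 i
      have h3 : G.nu y (some (Function.update (fun _ => k) o i)) * y.1 k = y.1 i * y.1 k ^ G.e := by
        rw [← h2]
        show (∏ j, y.1 (Function.update (fun _ => k) o i j)) * _ = _ * ∏ _j : Fin G.e, y.1 k
        rw [← Finset.mul_prod_erase _ _ (Finset.mem_univ o),
          ← Finset.mul_prod_erase _ (fun _ => y.1 k) (Finset.mem_univ o), Function.update_self,
          Finset.prod_congr rfl fun j hj => by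
            rw [Function.update_of_ne (Finset.ne_of_mem_erase hj)]]
        ring
      rw [map_div₀, h1, h1, h2, mul_div_mul_left _ _ c0, div_eq_iff (pow_ne_zero _ hk), mul_assoc,
        ← h3]
      field_simp
    · show κ (_ / _) = (y.1 k)⁻¹ ^ G.e * y.2
      rw [map_div₀, h1, h1, h2, mul_div_mul_left _ _ c0, inv_pow, div_eq_inv_mul]; rfl
  refine ⟨_, _, inv_ne_zero hk, (cn_map κ).1 (e ▸ hy.scl (inv_ne_zero hk)), ?_, e⟩
  refine (Sub K G.σ).inj κ ?_
  rw [map_pt, e, pt_scl _ (inv_ne_zero hk), h]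

variable (G)

/-- The double plane. -/
def XX : Sp (Sub K G.σ) where
  mem {L} E := ∃ y, G.Cn L y ∧ E = G.pt L y
  map_iff κ _ := ⟨fun ⟨_, h, e⟩ => let ⟨y₀, _, _, h1, h2, _⟩ := pt_desc κ h e; ⟨y₀, h1, h2⟩,
    fun ⟨y, h, e⟩ => ⟨_, (cn_map κ).2 h, e ▸ map_pt κ y⟩⟩

/-- The bivector of a tangent vector. -/
def tv {L : Type} [CommRing L] (y v : xz.X L) : G.σ × G.σ → L := wdg (G.nu y) (G.dnu y v)

/-- The bivector of a secant. -/
def sv {L : Type} [CommRing L] (y y' : xz.X L) : G.σ × G.σ → L := wdg (G.nu y) (G.nu y')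

/-- The ambient functor of the square. -/
noncomputable abbrev A2 : Amb K := (Sub K G.σ).prod (Sub K G.σ)

/-- The ambient functor of the blow-up. -/
noncomputable abbrev A3 : Amb K := G.A2.prod (Sub K (G.σ × G.σ))

variable {G}

lemma sv_map (κ : L →ₐ[K] L') (y y' : xz.X L) :
    mapV κ.toRingHom (G.sv y y') = G.sv (xz.map κ y) (xz.map κ y') := by
  rw [sv, wdg_map, nu_map, nu_map]; rfl

lemma tv_map (κ : L →ₐ[K] L') (y v : xz.X L) :
    mapV κ.toRingHom (G.tv y v) = G.tv (xz.map κ y) (xz.map κ v) := by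
  rw [tv, wdg_map, nu_map, dnu_map]; rfl

lemma tv_desc (κ : L →ₐ[K] L') {y : xz.X L} {v : xz.X L'} {g : G.σ × G.σ → L}
    (hv : G.Tn L' (xz.map κ y) v) (h : mapV κ.toRingHom g = G.tv (xz.map κ y) v) :
    ∃ v₀, G.Tn L y v₀ ∧ g = G.tv y v₀ := by
  let := κ.toRingHom.toAlgebra
  obtain ⟨r, hr⟩ := (Algebra.linearMap L L').exists_leftInverse_of_injective
    (LinearMap.ker_eq_bot.2 κ.injective)
  have r1 : ∀ a, r (κ a) = a := fun a => LinearMap.congr_fun hr a
  have r2 : ∀ a t, r (κ a * t) = a * r t := fun a t => r.map_smul a t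
  have r3 : ∀ s, r (G.dnu (xz.map κ y) v s) = G.dnu y (fun i => r (v.1 i), r v.2) s := fun s => by
    cases s with
    | none => rfl
    | some m =>
      simp only [dnu, Option.elim_some, map_sum, ← map_prod κ]
      exact Finset.sum_congr rfl fun i _ => by rw [mul_comm, r2, mul_comm]
  refine ⟨(fun i => r (v.1 i), r v.2), ?_, funext fun s => ?_⟩
  · have h1 : 2 * κ y.2 * v.2 =
        ∑ i, aeval (mapV κ.toRingHom y.1) (pderiv i G.F) * v.1 i := hv
    have h2 := congrArg r h1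
    simp only [aeval_mapV, ← map_ofNat κ 2, ← map_mul, map_sum, r2] at h2
    exact h2
  · have h1 : ∀ s, G.nu (xz.map κ y) s = κ (G.nu y s) := fun s =>
      (congrFun (G.nu_map κ.toRingHom y) s).symm
    rw [← r1 (g s), show κ (g s) = _ from congrFun h s]
    simp only [tv, wdg, map_sub, h1, r2, r3]

variable (G)

/-- The blow-up of the diagonal: two points and the secant or a tangent line. -/
def BB : Sp G.A3 where
  mem {L} s := ∃ y y' b, G.Cn L y ∧ G.Cn L y' ∧ s.1.1 = G.pt L y ∧ s.1.2 = G.pt L y' ∧ b ≠ 0 ∧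
    s.2 = span L {b} ∧ (b = G.sv y y' ∨ (y = y' ∧ ∃ v, G.Tn L y v ∧ b = G.tv y v))
  map_iff {L L'} κ s := by
    constructor
    · rintro ⟨y, y', b, h1, h2, h3, h4, h5, h6, h7⟩
      obtain ⟨y₀, a, a0, k1, k2, k3⟩ := pt_desc κ h1 h3
      obtain ⟨g, c, g0, c0, k4, k5⟩ := line_desc κ h5 h6
      rcases h7 with rfl | ⟨rfl, v, hv, rfl⟩
      · obtain ⟨y₁, a', a1, l1, l2, l3⟩ := pt_desc κ h2 h4
        have e : mapV κ.toRingHom (G.sv y₀ y₁) = (a ^ G.e * a' ^ G.e) • G.sv y y' := by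
          rw [sv_map, k3, l3, sv, nu_scl, nu_scl, wdg_smul]; rfl
        have a2 := mul_ne_zero (pow_ne_zero G.e a0) (pow_ne_zero G.e a1)
        refine ⟨y₀, y₁, _, k1, l1, k2, l2, fun e' => smul_ne_zero a2 h5 ?_,
          (Sub K _).inj κ (h6.trans ?_), Or.inl rfl⟩
        · rw [← e, e', mapV_zero]
        · exact ((smap_single _ _).trans (by rw [e, span_singleton_smul_eq a2.isUnit])).symm
      · have a2 := mul_ne_zero (pow_ne_zero G.e a0) (pow_ne_zero G.e a0)
        obtain ⟨v₀, l1, l2⟩ := tv_desc κ (y := y₀) (g := g)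
          (k3 ▸ (hv.scl a).smul (c / (a ^ G.e * a ^ G.e))) (by
            rw [k5, k3, tv, tv, dnu_smul, nu_scl, dnu_scl, smul_smul, wdg_smul]
            congr 1
            field_simp)
        exact ⟨y₀, y₀, g, k1, k1, k2, ((Sub K _).inj κ (h4.trans h3.symm)).trans k2, g0, k4,
          Or.inr ⟨rfl, v₀, l1, l2⟩⟩
    · rintro ⟨y, y', b, h1, h2, h3, h4, h5, h6, h7⟩
      refine ⟨_, _, mapV κ.toRingHom b, (cn_map κ).2 h1, (cn_map κ).2 h2,
        (congrArg _ h3).trans (map_pt κ y), (congrArg _ h4).trans (map_pt κ y'),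
        mt (mapV_eq_zero _).1 h5, (congrArg _ h6).trans (smap_single _ _), ?_⟩
      rcases h7 with rfl | ⟨rfl, v, hv, rfl⟩
      · exact Or.inl (sv_map κ _ _)
      · exact Or.inr ⟨rfl, _, (tn_map κ).2 hv, tv_map κ _ _⟩

/-- The exceptional divisor. -/
def EE : Sp G.A3 where
  mem s := G.BB.mem s ∧ s.1.1 = s.1.2
  map_iff κ s := and_congr (G.BB.map_iff κ s) ((Sub K G.σ).inj κ).eq_iff

/-- The square. -/
noncomputable abbrev X2 : Sp G.A2 := G.XX.prod G.XX

end GD

end Pool.Agent.Lib.MP_557161_ag.HG
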