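import Pool.Agent.Lib.MP_557161_ag.HG.StY
import Pool.Agent.Lib.MP_557161_ag.DL.Rl
import Pool.Agent.Lib.MP_557161_ag.TU.GrC

/-!
Tate classes from a decomposition of a polynomial in the graph of Frobenius.
-/

namespace Pool.Agent.Lib.MP_557161_ag.HG

open Pool.Agent.Lib.MP_557161_ag.DL MvPolynomial
open Pool.Agent.Lib.MP_60ec62_ag.DL

namespace XYa

/-- The generalised eigenvectors for the first power of the endomorphism. -/
lemma alg1 {α E V : Type} [Field E] [CharZero E] [AddCommGroup V] [Module E V] {p : ℕ} {S : Set α}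
    {τ : α → α} {Fr : Module.End E V} {cl : α → V} {cd : α → ℕ} (hp : 1 < p)
    (hS : ∀ P ∈ S, τ P ∈ S) (hper : ∀ P, ∃ N, 0 < N ∧ τ^[N] P = P)
    (h : Stm.Compat p S τ Fr cl cd) (f : Polynomial E) (hf : ∀ i, f.eval ((p : E) ^ i) ≠ 0)
    (hF : ∀ y, Polynomial.aeval Fr f y ∈ Submodule.span E (cl '' S)) (i r : ℕ) (x : V)
    (hx : ((Fr - (p : E) ^ i • 1) ^ r) x = 0) :
    x ∈ Submodule.span E (Stm.InvCl {P ∈ S | cd P = i} τ cl) := by
  have e : (Fr - (p : E) ^ i • 1) =
      Polynomial.aeval Fr (Polynomial.X - Polynomial.C ((p : E) ^ i)) := by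
    rw [map_sub, Polynomial.aeval_X, Polynomial.aeval_C, Algebra.algebraMap_eq_smul_one]
  have key : ∀ u : Polynomial E, u.eval ((p : E) ^ i) ≠ 0 →
      ∃ a : Polynomial E, Polynomial.aeval Fr (a * u) x = x := fun u hu => by
    have hc : IsCoprime u (Polynomial.X - Polynomial.C ((p : E) ^ i)) :=
      ((Polynomial.irreducible_X_sub_C _).coprime_iff_not_dvd.2 fun hd =>
        hu (Polynomial.dvd_iff_isRoot.1 hd)).symm
    obtain ⟨a, b, hab⟩ := hc.pow_right (n := r)
    have h4 := congrArg (fun g => Polynomial.aeval Fr g x) hab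
    simp only [map_one, Module.End.one_apply] at h4
    rw [map_add, LinearMap.add_apply, map_mul _ b, Module.End.mul_apply, map_pow, ← e, hx,
      map_zero, add_zero] at h4
    exact ⟨a, h4⟩
  have h1 : x ∈ Submodule.span E (cl '' S) := by
    obtain ⟨a, ha⟩ := key f (hf i)
    rw [mul_comm, map_mul, Module.End.mul_apply] at ha
    rw [← ha]
    exact hF _
  obtain ⟨u, hu, hx'⟩ := RlA.carry hp hS hper h Nat.one_pos i h1
  have h2 := RlA.eigen hS h 1 i hx'
  rw [one_mul] at hu h2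
  rw [pow_one] at hx' h2
  rw [Function.iterate_one] at hx'
  obtain ⟨a, ha⟩ := key u hu
  rw [map_mul, Module.End.mul_apply, RlA.aeval_eigen h2] at ha
  rw [← ha]
  exact Submodule.smul_mem _ _ hx'

variable {K : Type} [Field K] {σ : Type}

lemma min_eq {J : Ideal (MvPolynomial σ K)} (hJ : Homog J) (hp : J.IsPrime) (hs : ∃ s, X s ∉ J) :
    {P | Minimal (· ∈ Rl.Sub J) P} = {⟨J, hp⟩} := by
  have h0 : (⟨J, hp⟩ : PrimeSpectrum (MvPolynomial σ K)) ∈ Rl.Sub J := ⟨hJ, le_rfl, hs⟩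
  ext P
  constructor
  · intro hP
    exact le_antisymm (hP.2 h0 hP.1.2.1) hP.1.2.1
  · rintro rfl
    exact ⟨h0, fun Q hQ _ => hQ.2.1⟩

lemma gr_mem [Finite σ] (Y : Sm K σ) (hp : Y.I.IsPrime) (hs : ∃ s, X s ∉ Y.I) {Q : ℕ}
    (hQ : 0 < Q) (h : DefOver Q Y.I) : grP Q ⟨Y.I, hp⟩ ∈ Rl.Sq Y.I := by
  obtain ⟨s, hs⟩ := hs
  refine ⟨Y.gr_hom Q, Y.le_gr hQ h, s, s, fun h => ?_⟩
  have h4 : Ideal.Quotient.mk Y.I (X s) ≠ 0 := fun e => hs (Ideal.Quotient.eq_zero_iff_mem.1 e)
  have h5 : Y.par Q (X (Sum.inl s) * X (Sum.inr s)) = 0 := h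
  simp [Sm.par, h4] at h5

lemma grC_single [Finite σ] (Y : Sm K σ) (hp : Y.I.IsPrime) (hs : ∃ s, X s ∉ Y.I) (Q : ℕ) :
    Y.grC Q = Finsupp.single (grP Q ⟨Y.I, hp⟩) 1 := by
  have e : Y.gr Q = (grP Q ⟨Y.I, hp⟩).asIdeal := rfl
  rw [Y.grC_eq hp.isRadical (fun a ha => by
    rw [Ideal.minimalPrimes_eq_subsingleton_self] at ha
    rwa [Set.mem_singleton_iff.1 ha]) Q {grP Q ⟨Y.I, hp⟩} fun z => by
      rw [e, Ideal.minimalPrimes_eq_subsingleton_self, Finset.mem_singleton,
        Set.mem_singleton_iff, PrimeSpectrum.ext_iff], Finset.sum_singleton]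

end XYa

theorem XY_thm : XY := by
  refine ⟨fun {k} _ _ {σ} _ {I} hI hs {d} hd hp hX f hf hm => ?_⟩
  intro E V _ _ _ _ Fr cl cd act h₁ h₂ h₃ h₄
  have := T0.fbar k
  have := Fintype.ofFinite k
  obtain ⟨e, -, hq⟩ := FiniteField.card k (ringChar k)
  have h1 : 1 < Nat.card k := Finite.one_lt_card
  refine XYa.alg1 h1 (fun P hP => ?_) (fun P => ?_) h₄ (f.map (Rat.castHom E)) (fun i => ?_)
    fun y => ?_
  · obtain ⟨k1, k2, s, k3⟩ := hP
    refine ⟨TwoD.wHomog_comap (frobPb _ (w1 σ) (Nat.card k)) (fun a b hab => ?_) k1, ?_, s,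
      fun h => k3 ?_⟩
    · exact Nat.eq_of_mul_eq_mul_left (by omega) hab
    · have h2 := (T0.defOver_up (K := AlgebraicClosure k) I 1).map_le (by
        rw [pow_one]; exact Fintype.card_pos)
      rw [pow_one, ← Nat.card_eq_fintype_card] at h2
      exact Ideal.map_le_iff_le_comap.1 (h2.trans k2)
    · have h2 : expand (Nat.card k) (X s) ∈ P.asIdeal := h
      rw [expand_X] at h2
      exact P.isPrime.mem_of_pow_mem _ h2
  · obtain ⟨m, hm, h⟩ := exists_defOver (p := ringChar k) P.asIdeal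
    refine ⟨m, hm, ?_⟩
    rw [Rl.tw_iter, Nat.card_eq_fintype_card, hq, ← pow_mul]
    exact (h _ (Dvd.intro_left _ rfl)).cm_eq (pow_pos (FBar.prime (K := AlgebraicClosure k)).pos _)
  · have e1 : ((Nat.card k : ℕ) : E) ^ i = Rat.castHom E ((Nat.card k : ℚ) ^ i) := by simp
    rw [e1, Polynomial.eval_map_apply]
    exact (map_ne_zero _).2 (hf i)
  · have hA : ∀ j, Rl.A (upI I) act ((T0.sm (AlgebraicClosure k) hI hs hd).grC (Nat.card k ^ j)) =
        Fr ^ j := fun j => by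
      have h5 : DefOver (Nat.card k ^ j) (upI I) := by
        rw [Nat.card_eq_fintype_card]
        exact T0.defOver_up (K := AlgebraicClosure k) I j
      have h6 := XYa.gr_mem (T0.sm (AlgebraicClosure k) hI hs hd) hp hX (by positivity) h5
      rw [XYa.grC_single _ hp hX, Rl.A_apply, Finsupp.sum_single_index (by simp), Rat.cast_one,
        one_smul, ← h₃ j, XYa.min_eq hI.upI hp hX, finsum_mem_singleton]
      exact if_pos h6
    have h7 : Rl.A (upI I) act (f.sum fun j a =>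
        a • (T0.sm (AlgebraicClosure k) hI hs hd).grC (Nat.card k ^ j)) =
        Polynomial.aeval Fr (f.map (Rat.castHom E)) := by
      rw [Polynomial.sum, map_sum]
      conv_rhs => rw [f.as_sum_support, Polynomial.map_sum, map_sum]
      refine Finset.sum_congr rfl fun j _ => ?_
      rw [Rl.A_smul, hA, Polynomial.map_monomial, Polynomial.aeval_monomial,
        Algebra.algebraMap_eq_smul_one, smul_mul_assoc, one_mul]
      rfl
    obtain ⟨c₁, k1, c₂, k2, e2⟩ := Submodule.mem_sup.1 hm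
    rw [← h7, ← e2, map_add, Rl.A_rat h₁ k1, zero_add]
    clear e2
    induction k2 using Submodule.iSup_induction' with
    | mem δ c hc => exact Rl.A_prod h₂ hc y
    | zero => simp
    | add a b _ _ ha hb => rw [map_add]; exact add_mem ha hb

end Pool.Agent.Lib.MP_557161_ag.HG
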