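import Pool.Agent.Lib.MP_557161_ag.HG.StX
import Pool.Agent.Lib.MP_557161_ag.HG.Geo0

/-!
The blow-up of the diagonal of the double plane.
-/

namespace Pool.Agent.Lib.MP_557161_ag.HG

open Pool.Agent.Lib.MP_557161_ag.DL MvPolynomial Submodule Module

variable {K : Type} [Field K]

namespace Yb

variable {G : GD K} {L L' M N : Fld K}

/-- The bivector of a tangent vector as a linear map. -/
def tvL (G : GD K) (y : xz.X L) : ((Fin 3 → L) × L) →ₗ[L] (G.σ × G.σ → L) where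
  toFun v := G.tv y v
  map_add' v w := funext fun s => by
    have h : ∀ t, G.dnu y (v + w) t = G.dnu y v t + G.dnu y w t := fun t => by
      cases t <;> simp [GD.dnu, add_mul, Finset.sum_add_distrib]
    simp only [GD.tv, wdg, h, Pi.add_apply]
    ring
  map_smul' a v := by
    have h := G.dnu_smul a y v
    show wdg _ (G.dnu y (a • v.1, a * v.2)) = a • wdg _ _
    rw [h, ← one_smul L (G.nu y), wdg_smul, one_mul, one_smul]

/-- The normal covector. -/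
noncomputable def nL (G : GD K) (y : xz.X L) : Dual L ((Fin 3 → L) × L) where
  toFun v := 2 * y.2 * v.2 - ∑ i, aeval y.1 (pderiv i G.F) * v.1 i
  map_add' v w := by simp [mul_add, Finset.sum_add_distrib]; ring
  map_smul' a v := by
    simp only [Prod.smul_snd, Prod.smul_fst, Pi.smul_apply, smul_eq_mul, RingHom.id_apply, mul_sub,
      Finset.mul_sum]
    congr 1
    · ring
    · exact Finset.sum_congr rfl fun i _ => by ring

lemma tn_iff {y v : xz.X L} : G.Tn L y v ↔ v ∈ LinearMap.ker (nL G y) := sub_eq_zero.symm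

lemma nL_ne {y : xz.X L} (h : G.Cn L y) : nL G y ≠ 0 := fun e => by
  classical
  have h2 : (2 : L) ≠ 0 := by
    rw [← map_ofNat (algebraMap K L) 2]; exact (map_ne_zero _).2 G.two_ne
  obtain ⟨i, hi⟩ := G.smooth h.1
  have h1 : nL G y (Pi.single i 1, 0) = 0 := by rw [e]; rfl
  simp only [nL, LinearMap.coe_mk, AddHom.coe_mk, mul_zero, zero_sub, neg_eq_zero] at h1
  rw [Finset.sum_eq_single i (fun j _ hj => by simp [hj]) (by simp)] at h1
  exact hi (by simpa using h1)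

lemma tn_euler {y : xz.X L} (h : G.Cn L y) (c : L) : G.Tn L y (c • y.1, c * G.e * y.2) := by
  have h1 := congrArg (aeval y.1) G.homF.sum_X_mul_pderiv
  simp only [map_sum, map_mul, aeval_X, nsmul_eq_mul, map_natCast, ← h.2] at h1
  show 2 * y.2 * (c * G.e * y.2) = ∑ i, aeval y.1 (pderiv i G.F) * (c * y.1 i)
  rw [Finset.sum_congr rfl fun i _ => show aeval y.1 (pderiv i G.F) * (c * y.1 i) =
    c * (y.1 i * aeval y.1 (pderiv i G.F)) by ring, ← Finset.mul_sum, h1]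
  push_cast
  ring

/-- The tangent plane. -/
noncomputable def W (G : GD K) (y : xz.X L) : Submodule L (G.σ × G.σ → L) :=
  (LinearMap.ker (nL G y)).map (tvL G y)

lemma mem_W {y v : xz.X L} (h : G.Tn L y v) : G.tv y v ∈ W G y := ⟨v, tn_iff.1 h, rfl⟩

lemma finrank_W [YA K] {y : xz.X L} (h : G.Cn L y) : finrank L (W G y) = 2 := by
  have h1 := Dual.finrank_ker_add_one_of_ne_zero (nL_ne h)
  have h2 := LinearMap.finrank_range_add_finrank_ker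
    ((tvL G y).domRestrict (LinearMap.ker (nL G y)))
  have h3 : LinearMap.ker (tvL G y) = span L {((y.1, G.e * y.2) : (Fin 3 → L) × L)} := by
    ext v
    rw [LinearMap.mem_ker, mem_span_singleton]
    refine (YA.tv_eq v h).trans (exists_congr fun c => ?_)
    rw [eq_comm, mul_assoc]; rfl
  have h4 : LinearMap.ker (tvL G y) ≤ LinearMap.ker (nL G y) := by
    rw [h3, span_singleton_le_iff_mem]
    simpa using tn_iff.1 (tn_euler h 1)
  rw [LinearMap.range_domRestrict, LinearMap.ker_domRestrict,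
    (comapSubtypeEquivOfLe h4).finrank_eq, h3,
    finrank_span_singleton (v := (y.1, G.e * y.2)) fun e => h.1 (congrArg Prod.fst e)] at h2
  simp only [finrank_prod, finrank_fintype_fun_eq_card, Fintype.card_fin, finrank_self] at h1
  unfold W
  omega

lemma frm [YA K] {y : xz.X L} (h : G.Cn L y) : ∃ v₀ v₁, G.Frm L y v₀ v₁ := by
  let b := finBasisOfFinrankEq L (W G y) (finrank_W h)
  obtain ⟨v₀, h0, e0⟩ := (b 0).2
  obtain ⟨v₁, h1, e1⟩ := (b 1).2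
  refine ⟨v₀, v₁, h, tn_iff.2 h0, tn_iff.2 h1, ?_⟩
  have h2 := b.linearIndependent.map' (W G y).subtype (W G y).ker_subtype
  have h3 : ![G.tv y v₀, G.tv y v₁] = (W G y).subtype ∘ b := funext fun i => by
    fin_cases i
    exacts [e0, e1]
  rw [h3]
  exact h2

lemma frm_span [YA K] {y v₀ v₁ v : xz.X L} (h : G.Frm L y v₀ v₁) (hv : G.Tn L y v) :
    ∃ s t : L, G.tv y v = s • G.tv y v₀ + t • G.tv y v₁ := by
  have h1 : span L (Set.range ![G.tv y v₀, G.tv y v₁]) = W G y := by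
    refine eq_of_le_of_finrank_eq (span_le.2 ?_) ?_
    · rintro _ ⟨i, rfl⟩
      fin_cases i
      exacts [mem_W h.t0, mem_W h.t1]
    · rw [finrank_span_eq_card h.ind, finrank_W h.cn, Fintype.card_fin]
  have h2 := mem_W hv
  rw [← h1, mem_span_range_iff_exists_fun] at h2
  obtain ⟨c, hc⟩ := h2
  exact ⟨c 0, c 1, by rw [← hc, Fin.sum_univ_two]; rfl⟩

lemma frm_map (κ : L →ₐ[K] L') {y v₀ v₁ : xz.X L} (h : G.Frm L y v₀ v₁) :
    G.Frm L' (xz.map κ y) (xz.map κ v₀) (xz.map κ v₁) := by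
  refine ⟨(GD.cn_map κ).2 h.cn, (GD.tn_map κ).2 h.t0, (GD.tn_map κ).2 h.t1, ?_⟩
  let := κ.toRingHom.toAlgebra
  have : FaithfulSMul L L' := (faithfulSMul_iff_algebraMap_injective _ _).2 κ.injective
  have h2 := (linearIndependent_algebraMap_comp_iff (S := L')).2 h.ind
  have h3 : ![G.tv (xz.map κ y) (xz.map κ v₀), G.tv (xz.map κ y) (xz.map κ v₁)] =
      fun i => algebraMap L L' ∘ ![G.tv y v₀, G.tv y v₁] i := funext fun i => by
    fin_cases i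
    exacts [(GD.tv_map κ y v₀).symm, (GD.tv_map κ y v₁).symm]
  rw [h3]
  exact h2

lemma scl_scl (a b : L) (y : xz.X L) : G.scl a (G.scl b y) = G.scl (a * b) y :=
  Prod.ext (smul_smul _ _ _) (by simp [GD.scl, mul_pow, mul_assoc])

lemma scl_one (y : xz.X L) : G.scl 1 y = y := Prod.ext (one_smul _ _) (by simp [GD.scl])

lemma sv_scl (a b : L) (y y' : xz.X L) :
    G.sv (G.scl a y) (G.scl b y') = (a ^ G.e * b ^ G.e) • G.sv y y' := by
  rw [GD.sv, GD.nu_scl, GD.nu_scl, wdg_smul]; rfl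

lemma tv_scl (a : L) (y v : xz.X L) :
    G.tv (G.scl a y) (G.scl a v) = (a ^ G.e * a ^ G.e) • G.tv y v := by
  rw [GD.tv, GD.nu_scl, GD.dnu_scl, wdg_smul]; rfl

lemma span_smul {τ : Type} {a : L} (ha : a ≠ 0) (b : τ → L) : span L {a • b} = span L {b} :=
  span_singleton_smul_eq ha.isUnit _

lemma off [YA K] {y y' : xz.X L} (h : G.Cn L y) (h' : G.Cn L y') (hn : G.pt L y ≠ G.pt L y') (π) :
    G.BB.mem (L := L) ((G.pt L y, G.pt L y'), π) ↔ π = span L {G.sv y y'} := by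
  constructor
  · rintro ⟨y₁, y₂, b, h1, h2, h3, h4, -, h6, rfl | ⟨rfl, -⟩⟩
    · obtain ⟨a, a0, rfl⟩ := YA.pt_eq h h1 h3
      obtain ⟨a', a1, rfl⟩ := YA.pt_eq h' h2 h4
      rw [sv_scl, span_smul (mul_ne_zero (pow_ne_zero _ a0) (pow_ne_zero _ a1))] at h6
      exact h6
    · exact absurd (h3.trans h4.symm) hn
  · rintro rfl
    exact ⟨y, y', _, h, h', rfl, rfl, mt (YA.sv_eq h h').1 hn, rfl, Or.inl rfl⟩

lemma on [YA K] {y : xz.X L} (h : G.Cn L y) (π) : G.EE.mem (L := L) ((G.pt L y, G.pt L y), π) ↔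
    ∃ v, G.Tn L y v ∧ G.tv y v ≠ 0 ∧ π = span L {G.tv y v} := by
  constructor
  · rintro ⟨⟨y₁, y₂, b, h1, h2, h3, h4, h5, h6, rfl | ⟨rfl, v, hv, rfl⟩⟩, -⟩
    · exact absurd ((YA.sv_eq h1 h2).2 (h3.symm.trans h4)) h5
    · obtain ⟨a, a0, rfl⟩ := YA.pt_eq h1 h h3.symm
      have a1 := mul_ne_zero (pow_ne_zero G.e a0) (pow_ne_zero G.e a0)
      refine ⟨_, hv.scl a, ?_, ?_⟩
      · rw [tv_scl]; exact smul_ne_zero a1 h5
      · rw [tv_scl, span_smul a1]; exact h6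
  · rintro ⟨v, hv, h0, rfl⟩
    exact ⟨⟨y, y, _, h, h, rfl, rfl, h0, rfl, Or.inr ⟨rfl, v, hv, rfl⟩⟩, rfl⟩

lemma lift [YA K] {s : G.A2.pt L} (h : G.X2.mem s) : ∃ π, G.BB.mem (L := L) (s, π) := by
  obtain ⟨E, E'⟩ := s
  obtain ⟨⟨y, h1, rfl : E = _⟩, y', h2, rfl : E' = _⟩ := h
  by_cases e : G.pt L y = G.pt L y'
  · obtain ⟨v₀, v₁, f⟩ := frm h1
    rw [← e]
    exact ⟨_, ((on h1 _).2 ⟨v₀, f.t0, f.ind.ne_zero 0, rfl⟩).1⟩
  · exact ⟨_, (off h1 h2 e _).2 rfl⟩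

lemma fp_mem [YA K] (α : L →ₐ[K] M) {y v₀ v₁ : xz.X L} (T : M) (h : G.Frm L y v₀ v₁) :
    mapV α (G.tv y v₀) + T • mapV α (G.tv y v₁) ≠ 0 ∧ G.EE.mem (G.fp α y v₀ v₁ T) := by
  have f := frm_map α h
  have e0 : mapV α (G.tv y v₀) = _ := GD.tv_map α y v₀
  have e1 : mapV α (G.tv y v₁) = _ := GD.tv_map α y v₁
  have h0 : mapV α (G.tv y v₀) + T • mapV α (G.tv y v₁) ≠ 0 := fun e =>
    one_ne_zero ((LinearIndependent.pair_iff.1 f.ind 1 T (by rw [one_smul, ← e0, ← e1, e])).1)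
  have e2 : mapV α (G.tv y v₀) + T • mapV α (G.tv y v₁) =
      tvL G (xz.map α y) (xz.map α v₀ + T • xz.map α v₁) := by
    rw [map_add, map_smul, e0, e1]; rfl
  refine ⟨h0, (on f.cn _).2 ⟨xz.map α v₀ + T • xz.map α v₁,
    tn_iff.2 (add_mem (tn_iff.1 f.t0) (smul_mem _ _ (tn_iff.1 f.t1))), ?_, ?_⟩⟩
  · exact fun e => h0 (e2.trans e)
  · exact congrArg (fun b => span M {b}) e2

lemma dm [YA K] (ι : L →ₐ[K] N) {E : (Sub K G.σ).pt L} {π : (Sub K (G.σ × G.σ)).pt N}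
    (h : G.EE.mem (L := N) (((Sub K G.σ).map ι E, (Sub K G.σ).map ι E), π)) :
    ∃ (L' : Fld K) (α : L →ₐ[K] L') (κ : L' →ₐ[K] N) (π' : (Sub K (G.σ × G.σ)).pt L'),
      κ.comp α = ι ∧ L'.tr ≤ L.tr + 1 ∧ (Sub K (G.σ × G.σ)).map κ π' = π := by
  obtain ⟨y, -, -, h1, -, h3, -⟩ := h.1
  obtain ⟨y₀, -, -, h4, rfl, -⟩ := GD.pt_desc ι h1 h3
  rw [GD.map_pt] at h
  obtain ⟨v₀, v₁, f⟩ := frm h4
  have f' := frm_map ι f
  obtain ⟨v, hv, h0, rfl⟩ := (on f'.cn _).1 h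
  obtain ⟨s, t, e⟩ := frm_span f' hv
  rw [← GD.tv_map, ← GD.tv_map] at e
  rw [e] at h0 ⊢
  by_cases hs : s = 0
  · subst hs
    rw [zero_smul, zero_add] at h0 ⊢
    refine ⟨L, AlgHom.id K L, ι, span L {G.tv y₀ v₁}, rfl, le_self_add, ?_⟩
    rw [span_smul (left_ne_zero_of_smul h0)]
    exact smap_single _ _
  · obtain ⟨M, α, κ, T, rfl, hT, hg⟩ := exists_gen ι (t / s)
    refine ⟨M, α, κ, span M {mapV α (G.tv y₀ v₀) + T • mapV α (G.tv y₀ v₁)}, rfl, hg.tr_le, ?_⟩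
    refine (smap_single _ _).trans ?_
    rw [← span_smul hs, mapV_add, mapV_smul, smul_add, smul_smul,
      show s * κ.toRingHom T = t by
        rw [show κ.toRingHom T = t / s from hT, mul_div_cancel₀ _ hs]]
    rfl

lemma wdg_int {O : Pl M} {τ : Type} {a b : τ → M} (ha : IntV O a) (hb : IntV O b) :
    IntV O (wdg a b) ∧ rdV O (wdg a b) = wdg (rdV O a) (rdV O b) :=
  ⟨fun _ => sub_mem (mul_mem (ha _) (hb _)) (mul_mem (ha _) (hb _)), funext fun s => by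
    simp only [rdV, wdg]
    rw [O.rd_sub (mul_mem (ha _) (hb _)) (mul_mem (ha _) (hb _)), O.rd_mul (ha _) (hb _),
      O.rd_mul (ha _) (hb _)]⟩

lemma tn_red {O : Pl M} {y v : xz.X M} (hy : xz.all (· ∈ O.O) y) (hv : xz.all (· ∈ O.O) v)
    (h : G.Tn M y v) : G.Tn O.res (xz.map O.rd y) (xz.map O.rd v) :=
  Rel.eq (R := Rel.ofPl O) (Rel.mul _ (Rel.mul _ (Rel.two _) ⟨hy.2, rfl⟩) ⟨hv.2, rfl⟩)
    (Rel.sum _ fun i _ => Rel.mul _ (Rel.aeval (R := Rel.ofPl O) (fun i => ⟨hy.1 i, rfl⟩) _) ⟨hv.1 i, rfl⟩) h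

lemma red_tv [FB3 K] [YA K] {O : Pl M} {y v : xz.X M} (h : G.Cn M y) (i1 : IntV O y.1)
    (r1 : rdV O y.1 ≠ 0) (hv : xz.all (· ∈ O.O) v) :
    IntV O (G.tv y v) ∧ rdV O (G.tv y v) = G.tv (xz.map O.rd y) (xz.map O.rd v) := by
  obtain ⟨k1, -, -, k4, k5, -⟩ := YA.red h i1 r1
  obtain ⟨t1, t2, -⟩ := YA.taylor G O y v 0 ⟨i1, k1⟩ hv (zero_mem _)
  obtain ⟨w1, w2⟩ := wdg_int k4 t1
  exact ⟨w1, by rw [GD.tv, w2, k5, t2]; rfl⟩

lemma cmp_sv [FB3 K] [YA K] (O : Pl M) {y y' : xz.X M} (h : G.Cn M y) (h' : G.Cn M y')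
    (i1 : IntV O y.1) (r1 : rdV O y.1 ≠ 0) (i2 : IntV O y'.1) (r2 : rdV O y'.1 ≠ 0)
    (hn : G.pt M y ≠ G.pt M y') :
    G.BB.mem (G.A3.red O ((G.pt M y, G.pt M y'), span M {G.sv y y'})) := by
  obtain ⟨-, k2, k3, k4, k5, -⟩ := YA.red h i1 r1
  obtain ⟨l1, l2, l3, l4, l5, -⟩ := YA.red h' i2 r2
  show G.BB.mem (L := O.res) (((Sub K G.σ).red O (G.pt M y), (Sub K G.σ).red O (G.pt M y')),
    sred O (span M {G.sv y y'}))
  by_cases e : (Sub K G.σ).red O (G.pt M y) = (Sub K G.σ).red O (G.pt M y')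
  · obtain ⟨a, ρ, v, a0, ρ0, ρ1, ρ2, hv, e1, e2, e3⟩ := YA.near h h' i2 r2 hn e
    obtain ⟨-, -, r, hr, e4⟩ := YA.taylor G O y' v ρ ⟨i2, l1⟩ hv ρ1
    obtain ⟨t1, t2⟩ := red_tv h' i2 r2 hv
    have w1 := (wdg_int l4 hr).1
    have e5 : a ^ G.e • G.sv y y' = (-ρ) • (G.tv y' v + ρ • wdg (G.nu y') r) := by
      have e6 := sv_scl (G := G) a 1 y y'
      rw [scl_one, one_pow, mul_one, e1, GD.sv, e4] at e6
      rw [← e6]
      funext s
      simp only [wdg, GD.tv, Pi.add_apply, Pi.smul_apply, smul_eq_mul]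
      ring
    have e7 : rdV O (G.tv y' v + ρ • wdg (G.nu y') r) = G.tv (xz.map O.rd y') (xz.map O.rd v) := by
      rw [rdV_add t1 (IntV.smul ρ1 w1), rdV_smul ρ1 w1, ρ2, zero_smul, add_zero, t2]
    rw [e, l3, ← span_smul (pow_ne_zero G.e a0), e5, span_smul (neg_ne_zero.2 ρ0),
      FB3.red_line (t1.add (IntV.smul ρ1 w1)) (e7 ▸ e3), e7]
    exact ((on l2 _).2 ⟨_, e2, e3, rfl⟩).1
  · obtain ⟨w1, w2⟩ := wdg_int k4 l4
    rw [k3, l3] at e ⊢
    have e1 : rdV O (G.sv y y') = G.sv (xz.map O.rd y) (xz.map O.rd y') := by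
      rw [GD.sv, w2, k5, l5]; rfl
    rw [FB3.red_line (x := G.sv y y') w1 (e1 ▸ mt (YA.sv_eq k2 l2).1 e), e1]
    exact (off k2 l2 e _).2 rfl

lemma cmp_tv [FB3 K] [YA K] (O : Pl M) {y v : xz.X M} (h : G.Cn M y) (i1 : IntV O y.1)
    (r1 : rdV O y.1 ≠ 0) (hv : G.Tn M y v) (h0 : G.tv y v ≠ 0) :
    G.BB.mem (G.A3.red O ((G.pt M y, G.pt M y), span M {G.tv y v})) := by
  obtain ⟨k1, k2, k3, -⟩ := YA.red h i1 r1
  obtain ⟨k, hk⟩ := Function.ne_iff.1 r1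
  have hk : O.rd (y.1 k) ≠ 0 := hk
  have hk' : y.1 k ≠ 0 := fun e => hk (by rw [e, O.rd_zero])
  let c := v.1 k / y.1 k
  let u : (Fin 3 → M) × M := v - (c • y.1, c * G.e * y.2)
  have u1 : G.tv y u = G.tv y v := by
    have e : tvL G y (c • y.1, c * G.e * y.2) = 0 := (YA.tv_eq _ h).2 ⟨c, rfl⟩
    show tvL G y (v - _) = tvL G y v
    rw [map_sub, e, sub_zero]
  have u2 : u.1 k = 0 := by simp [u, c, hk']
  have u3 : u ∈ LinearMap.ker (nL G y) := sub_mem (tn_iff.1 hv) (tn_iff.1 (tn_euler h c))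
  have u4 : xz.co u ≠ 0 := fun e => h0 (by
    have e1 : u = 0 := Prod.ext (funext fun i => congrFun e (.inl i)) (congrFun e (.inr ()))
    rw [← u1, e1]
    exact map_zero (tvL G y))
  obtain ⟨a, a0, a1, a2⟩ := FB3.exists_prim O u4
  have a3 : xz.all (· ∈ O.O) (a • u) := ⟨fun i => a1 (.inl i), a1 (.inr ())⟩
  obtain ⟨t1, t2⟩ := red_tv h i1 r1 a3
  have t3 : G.tv (xz.map O.rd y) (xz.map O.rd (a • u)) ≠ 0 := fun e => a2 (by
    obtain ⟨d, hd⟩ := (YA.tv_eq _ k2).1 e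
    have d0 : d = 0 := by
      have e1 : O.rd (a * u.1 k) = d * O.rd (y.1 k) := congrFun (congrArg Prod.fst hd) k
      rw [u2, mul_zero, O.rd_zero] at e1
      exact (mul_eq_zero.1 e1.symm).resolve_right hk
    rw [d0, zero_smul, zero_mul, zero_mul] at hd
    funext i
    cases i with
    | inl i => exact congrFun (congrArg Prod.fst hd) i
    | inr i => exact congrArg Prod.snd hd)
  have t4 : G.tv y (a • u) = a • G.tv y v := (map_smul (tvL G y) a u).trans (congrArg _ u1)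
  show G.BB.mem (L := O.res) (((Sub K G.σ).red O (G.pt M y), (Sub K G.σ).red O (G.pt M y)),
    sred O (span M {G.tv y v}))
  rw [k3, ← span_smul a0, ← t4, FB3.red_line t1 (t2 ▸ t3), t2]
  exact ((on k2 _).2 ⟨_, tn_red ⟨i1, k1⟩ a3 (tn_iff.2 (smul_mem _ a u3)), t3, rfl⟩).1

lemma cmpB [FB3 K] [YA K] (O : Pl M) {s : G.A3.pt M} (h : G.BB.mem s) :
    G.BB.mem (G.A3.red O s) := by
  obtain ⟨⟨E, E'⟩, π⟩ := s
  obtain ⟨y, y', b, h1, h2, rfl : E = _, rfl : E' = _, h5, rfl : π = _, h7⟩ := h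
  obtain ⟨a, a0, a1, a2⟩ := YA.prim O h1
  rcases h7 with rfl | ⟨rfl, v, hv, rfl⟩
  · obtain ⟨b, b0, b1, b2⟩ := YA.prim O h2
    have := cmp_sv O (h1.scl a0) (h2.scl b0) a1 a2 b1 b2 (by
      rw [GD.pt_scl _ a0, GD.pt_scl _ b0]; exact mt (YA.sv_eq h1 h2).2 h5)
    rwa [GD.pt_scl _ a0, GD.pt_scl _ b0, sv_scl,
      span_smul (mul_ne_zero (pow_ne_zero _ a0) (pow_ne_zero _ b0))] at this
  · have a3 := mul_ne_zero (pow_ne_zero G.e a0) (pow_ne_zero G.e a0)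
    have := cmp_tv O (h1.scl a0) a1 a2 (hv.scl a) (by rw [tv_scl]; exact smul_ne_zero a3 h5)
    rwa [GD.pt_scl _ a0, tv_scl, span_smul a3] at this

lemma cmpE [FB3 K] [YA K] (O : Pl M) {s : G.A3.pt M} (h : G.EE.mem s) :
    G.EE.mem (G.A3.red O s) :=
  ⟨cmpB O h.1, congrArg ((Sub K G.σ).red O) h.2⟩

lemma atl [FB3 K] [YA K] (G : GD K) : Atl G.BB ∧ Atl G.EE := by
  have h : Atl G.BB := FB3.sub (FB3.prod (FB3.prod (YA.atl G) (YA.atl G)) (FB3.lines _))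
    (fun _ _ ⟨y, y', b, h1, h2, h3, h4, h5, h6, _⟩ => ⟨⟨⟨y, h1, h3⟩, y', h2, h4⟩, b, h5, h6⟩)
    fun _ O _ _ _ _ h _ => cmpB O h
  exact ⟨h, FB3.sub h (fun _ _ h => h.1) fun _ O _ _ _ _ h _ => cmpE O h⟩

end Yb

theorem YB_thm {K : Type} [Field K] [Base K] [FW0 K] [XA K] [YA K] : YB K where
  cmpB := Yb.cmpB
  cmpE := Yb.cmpE
  atl := Yb.atl
  lift := Yb.lift
  off := Yb.off
  on := Yb.on
  frm := Yb.frm
  frm_map := Yb.frm_map
  frm_span := Yb.frm_span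
  fp_mem := Yb.fp_mem
  dm := Yb.dm

end Pool.Agent.Lib.MP_557161_ag.HG
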