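import Pool.Agent.Lib.MP_557161_ag.HG.StX

/-!
Coordinates near a rational point of the double plane.
-/

namespace Pool.Agent.Lib.MP_557161_ag.HG

open Pool.Agent.Lib.MP_557161_ag.DL MvPolynomial Submodule

variable {K : Type} [Field K] (G : GD K) {L M N : Fld K}

/-- The four coordinates of a point. -/
def YPc {F : Type} (y : xz.X F) : Option (Fin 3) → F := fun s => s.elim y.2 y.1

/-- The point with given coordinates. -/
def YPv {F : Type} (w : Option (Fin 3) → F) : xz.X F := (fun i => w (some i), w none)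

lemma YPc_v {F : Type} (w : Option (Fin 3) → F) : YPc (YPv w) = w :=
  funext fun s => by cases s <;> rfl

/-- The equation of the cone. -/
noncomputable def YPH : MvPolynomial (Option (Fin 3)) K := X none ^ 2 - rename some G.F

section Ring

variable {A : Type} [CommRing A] [Algebra K A]

lemma YPH_eq (w : Option (Fin 3) → A) :
    aeval w (YPH G) = w none ^ 2 - aeval (fun i => w (some i)) G.F := by
  rw [YPH, map_sub, map_pow, aeval_X, aeval_rename]
  rfl

/-- The normal covector. -/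
noncomputable def YPn (w : Option (Fin 3) → A) (s : Option (Fin 3)) : A := aeval w (pderiv s (YPH G))

lemma YPn_none (w : Option (Fin 3) → A) : YPn G w none = 2 * w none := by
  rw [YPn, YPH, map_sub, pderiv_eq_zero_of_notMem_vars (f := rename some G.F)
    fun h => by simpa using vars_rename _ _ h]
  simp

lemma YPn_some (w : Option (Fin 3) → A) (i : Fin 3) :
    YPn G w (some i) = -aeval (fun i => w (some i)) (pderiv i G.F) := by
  rw [YPn, YPH, map_sub, pderiv_rename (Option.some_injective _), map_sub, aeval_rename]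
  simp [pderiv_X, Function.comp_def]

lemma YP_taylor {σ : Type} [Fintype σ] [DecidableEq σ] {S : Type} [SetLike S A] [SubringClass S A]
    (E : S) (hE : ∀ c, algebraMap K A c ∈ E) {x v : σ → A} {ρ : A} (hx : ∀ s, x s ∈ E)
    (hv : ∀ s, v s ∈ E) (hρ : ρ ∈ E) (P : MvPolynomial σ K) :
    ∃ r ∈ E, aeval (fun s => x s + ρ * v s) P =
      aeval x P + ρ * ∑ s, aeval x (pderiv s P) * v s + ρ ^ 2 * r := by
  induction P using MvPolynomial.induction_on with
  | C c => exact ⟨0, zero_mem E, by simp⟩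
  | add f g hf hg =>
    obtain ⟨r, h1, h2⟩ := hf
    obtain ⟨r', h3, h4⟩ := hg
    refine ⟨r + r', add_mem h1 h3, ?_⟩
    simp only [map_add, h2, h4, add_mul, Finset.sum_add_distrib]
    ring
  | mul_X f i hf =>
    obtain ⟨r, h1, h2⟩ := hf
    refine ⟨(∑ s, aeval x (pderiv s f) * v s) * v i + r * (x i + ρ * v i), add_mem (mul_mem (sum_mem
      fun s _ => mul_mem (eval₂_mem (fun _ _ => hE _) hx) (hv s)) (hv i))
      (mul_mem h1 (add_mem (hx i) (mul_mem hρ (hv i)))), ?_⟩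
    have : ∑ s, aeval x (pderiv s (f * X i)) * v s =
        (∑ s, aeval x (pderiv s f) * v s) * x i + aeval x f * v i := by
      simp only [pderiv_mul, pderiv_X, map_add, map_mul, aeval_X, add_mul, Finset.sum_add_distrib,
        Finset.sum_mul, Pi.single_apply, apply_ite (aeval x), map_zero, mul_ite, ite_mul,
        mul_one, mul_zero, zero_mul, Finset.sum_ite_eq, Finset.mem_univ, if_true, mul_right_comm]
    rw [map_mul, map_mul, h2, aeval_X, aeval_X, this]
    ring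

lemma YP_hom {σ : Type} {f : MvPolynomial σ K} {n : ℕ} (hf : f.IsHomogeneous n) (c : A) (x : σ → A) :
    aeval (fun i => c * x i) f = c ^ n * aeval x f := by
  rw [f.as_sum, map_sum, map_sum, Finset.mul_sum]
  refine Finset.sum_congr rfl fun m hm => ?_
  have := hf (mem_support_iff.1 hm)
  rw [aeval_monomial, aeval_monomial, ← this, Finsupp.weight_apply, Finsupp.prod, Finsupp.prod,
    Finsupp.sum, ← Finset.prod_pow_eq_pow_sum, mul_left_comm, ← Finset.prod_mul_distrib]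
  simp [mul_pow]

lemma YP_scl {σ : Type} (ι : L →ₐ[K] A) (c : σ → L) (x : σ → A) (f : MvPolynomial σ L) :
    aevalTower ι x (aeval (fun s => (C (c s) * X s : MvPolynomial σ L)) f) =
      aevalTower ι (fun s => ι (c s) * x s) f := by
  induction f using MvPolynomial.induction_on with
  | C c => simp
  | add f g hf hg => simp only [map_add, hf, hg]
  | mul_X f i hf => simp only [map_mul, hf, aeval_X, aevalTower_C, aevalTower_X]

lemma YP_map {σ : Type} (ι : L →ₐ[K] A) (x : σ → A) (f : MvPolynomial σ K) :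
    aevalTower ι x (MvPolynomial.map (algebraMap K L) f) = aeval x f := by
  induction f using MvPolynomial.induction_on with
  | C c => simp
  | add f g hf hg => simp only [map_add, hf, hg]
  | mul_X f i hf => simp only [map_mul, hf, map_X, aeval_X, aevalTower_X]

variable {G}

lemma YP_ker [XG K] {j : ℕ} {α : L →ₐ[K] M} {y : xz.X M} (hy : G.GenU j α y) (k : Fin 3) {c : L}
    (hc : c ≠ 0) (ι : L →ₐ[K] A) {x : Option (Fin 3) → A} (hx : x (some k) = ι c)
    {f : MvPolynomial (Option (Fin 3)) L}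
    (hf : aevalTower α (YPc (G.scl (α c / y.1 k) y)) f = 0) : aeval x (YPH G) ∣ aevalTower ι x f := by
  let u : L → Option (Fin 3) → L := fun c s => s.elim (c ^ G.e) fun _ => c
  obtain ⟨a, b, h⟩ := Ideal.mem_span_pair.1 (XG.ker hy k (aeval (fun s => C (u c s) * X s) f) (by
    refine (YP_scl α _ _ f).trans (hf ▸ ?_)
    congr 2
    funext s
    cases s <;> simp [u, YPc, GD.scl, div_pow] <;> ring))
  have e := congrArg (aevalTower ι fun s => ι (u c⁻¹ s) * x s) h
  rw [YP_scl, show (fun s => ι (u c s) * (ι (u c⁻¹ s) * x s)) = x from funext fun s => by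
    rw [← mul_assoc, ← map_mul]
    cases s <;> simp [u, hc], ← map_rename, ← map_X (algebraMap K L) none, ← map_pow, ← map_sub] at e
  simp only [map_add, map_mul] at e
  rw [YP_map, ← YPH, YPH_eq, map_sub, aevalTower_X, hx, ← map_mul] at e
  simp only [u, Option.elim_none, Option.elim_some, inv_mul_cancel₀ hc, map_one, sub_self, mul_zero, zero_add,
    YP_hom G.homF, map_pow] at e
  rw [← e, YPH_eq]
  exact Dvd.dvd.mul_left (Dvd.intro_left (ι c⁻¹ ^ (2 * G.e)) (by ring)) _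

end Ring

/-- An enumeration of the four coordinates. -/
structure YPI (k μ i₁ i₂ : Option (Fin 3)) : Prop where
  all : ∀ s, s = k ∨ s = μ ∨ s = i₁ ∨ s = i₂
  ne : k ≠ μ ∧ k ≠ i₁ ∧ k ≠ i₂ ∧ μ ≠ i₁ ∧ μ ≠ i₂ ∧ i₁ ≠ i₂

lemma YPI.ex : ∀ k μ, k ≠ μ → ∃ i₁ i₂, YPI k μ i₁ i₂ := fun k μ h => by
  have : ∀ k μ : Option (Fin 3), k ≠ μ → ∃ i₁ i₂, (∀ s, s = k ∨ s = μ ∨ s = i₁ ∨ s = i₂) ∧
    k ≠ μ ∧ k ≠ i₁ ∧ k ≠ i₂ ∧ μ ≠ i₁ ∧ μ ≠ i₂ ∧ i₁ ≠ i₂ := by decide
  obtain ⟨i₁, i₂, h1, h2⟩ := this k μ h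
  exact ⟨i₁, i₂, h1, h2⟩

variable {k μ i₁ i₂ : Option (Fin 3)}

lemma YPI.sum (h : YPI k μ i₁ i₂) {A : Type} [AddCommMonoid A] (f : Option (Fin 3) → A) :
    ∑ s, f s = f k + f μ + f i₁ + f i₂ := by
  obtain ⟨h1, h2, h3, h4, h5, h6⟩ := h.ne
  rw [show Finset.univ = {k, μ, i₁, i₂} from Finset.ext fun s => by simpa using h.all s,
    Finset.sum_insert (by simp [*]), Finset.sum_insert (by simp [*]), Finset.sum_pair h6, add_assoc,
    add_assoc]

variable {G}

lemma YP_tn {y v : xz.X L} : G.Tn L y v ↔ ∑ s, YPn G (YPc y) s * YPc v s = 0 := by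
  simp only [Fintype.sum_option, YPn_none, YPn_some, neg_mul, Finset.sum_neg_distrib, add_neg_eq_zero]
  rfl

lemma YP_cn {y : xz.X L} (h : G.Cn L y) : aeval (YPc y) (YPH G) = 0 :=
  (YPH_eq G _).trans (sub_eq_zero.2 h.2)

lemma YP_idx [XA K] {R : xz.X L} (h : G.Cn L R) {k : Fin 3} (hk : R.1 k ≠ 0) :
    ∃ μ, some k ≠ μ ∧ YPn G (YPc R) μ ≠ 0 := by
  by_contra! e
  have e1 : R.2 = 0 := by
    have := e none (by simp)
    rw [YPn_none, mul_eq_zero, ← map_ofNat (algebraMap K L) 2, map_eq_zero] at this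
    exact this.resolve_left (XA.three G).2.2.2.1
  have e2 : aeval R.1 G.F = 0 := by rw [← h.2, e1, zero_pow two_ne_zero]
  have e3 : ∀ i, i ≠ k → aeval R.1 (pderiv i G.F) = 0 := fun i hi =>
    neg_eq_zero.1 ((YPn_some G (YPc R) i).symm.trans (e (some i) (by simpa using hi.symm)))
  obtain ⟨i, hi⟩ := XA.sm G L R.1 h.1 e2
  obtain rfl : i = k := by_contra fun e => hi (e3 i e)
  have := congrArg (aeval R.1) G.homF.sum_X_mul_pderiv
  rw [map_nsmul, e2, smul_zero, map_sum, Finset.sum_eq_single i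
    (fun u _ hu => by rw [map_mul, e3 u hu, mul_zero]) (by simp), map_mul, aeval_X] at this
  exact mul_ne_zero hk hi this

variable (G) in
/-- The bivector as a linear function of the tangent vector. -/
def YPt (y : xz.X L) : (Option (Fin 3) → L) →ₗ[L] G.σ × G.σ → L where
  toFun w := G.tv y (YPv w)
  map_add' w w' := by
    have : G.dnu y (YPv (w + w')) = G.dnu y (YPv w) + G.dnu y (YPv w') := funext fun s => by
      cases s <;> simp [GD.dnu, YPv, add_mul, Finset.sum_add_distrib]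
    funext s
    simp only [GD.tv, this, wdg, Pi.add_apply]
    ring
  map_smul' c w := by
    have : G.dnu y (YPv (c • w)) = c • G.dnu y (YPv w) := G.dnu_smul c y (YPv w)
    rw [GD.tv, this, ← one_smul L (G.nu y), wdg_smul, one_mul]
    rfl

/-- The vectors of the frame. -/
noncomputable def YPf (n : Option (Fin 3) → L) (μ i s : Option (Fin 3)) : L :=
  if s = i then 1 else if s = μ then -(n i / n μ) else 0

lemma YP_frm [YA K] {k : Fin 3} (I : YPI (some k) μ i₁ i₂) {R : xz.X L} (h : G.Cn L R)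
    (hk : R.1 k ≠ 0) (hn : YPn G (YPc R) μ ≠ 0) :
    G.Frm L R (YPv (YPf (YPn G (YPc R)) μ i₂)) (YPv (YPf (YPn G (YPc R)) μ i₁)) := by
  obtain ⟨h1, h2, h3, h4, h5, h6⟩ := I.ne
  refine ⟨h, YP_tn.2 ?_, YP_tn.2 ?_, LinearIndependent.pair_iff.2 fun s t e => ?_⟩
  · simp [YPc_v, I.sum, YPf, mul_div_cancel₀, h4.symm, *]
  · simp [YPc_v, I.sum, YPf, mul_div_cancel₀, h6.symm, h5.symm, *]
  · change s • YPt G R _ + t • YPt G R _ = 0 at e
    rw [← map_smul, ← map_smul, ← map_add] at e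
    obtain ⟨c, hc⟩ := (YA.tv_eq _ h).1 e
    replace hc := (YPc_v _).symm.trans (congrArg YPc hc)
    obtain rfl : c = 0 := by simpa [YPf, YPc, *] using congrFun hc (some k)
    have e : ∀ u, (s • YPf (YPn G (YPc R)) μ i₂ + t • YPf (YPn G (YPc R)) μ i₁) u = 0 := fun u => by
      rw [hc]
      cases u <;> simp [YPc]
    exact ⟨by simpa [YPf, h6.symm, h5.symm] using e i₂, by simpa [YPf, h6, h4.symm] using e i₁⟩

lemma YP_tv (I : YPI k μ i₁ i₂) (κ : L →ₐ[K] N) {R : xz.X L} {n : Option (Fin 3) → L} (hn : n μ ≠ 0)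
    {w : Option (Fin 3) → N} (hk : w k = 0) (ht : ∑ s, κ (n s) * w s = 0) :
    G.tv (xz.map κ R) (YPv w) =
      w i₂ • mapV κ (G.tv R (YPv (YPf n μ i₂))) + w i₁ • mapV κ (G.tv R (YPv (YPf n μ i₁))) := by
  obtain ⟨h1, h2, h3, h4, h5, h6⟩ := I.ne
  have e : ∀ v, mapV κ (G.tv R (YPv v)) = YPt G (xz.map κ R) fun s => κ (v s) := fun v =>
    GD.tv_map κ R (YPv v)
  rw [e, e, ← map_smul, ← map_smul, ← map_add]
  refine congrArg (YPt G _) (funext fun s => ?_)
  rw [I.sum, hk] at ht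
  have := (map_ne_zero κ).2 hn
  rcases I.all s with rfl | rfl | rfl | rfl
  · simp [YPf, *]
  · simp only [YPf, Pi.add_apply, Pi.smul_apply, smul_eq_mul, h4, h5, if_true, if_false, map_neg, map_div₀]
    field_simp
    linear_combination ht
  · simp [YPf, h4.symm, *]
  · simp [YPf, h5.symm, h6.symm]

lemma YP_tan {α : L →ₐ[K] M} {O : Pl M} (h : Pl.Triv α O) {r : Option (Fin 3) → L}
    (hr : aeval r (YPH G) = 0) {w : Option (Fin 3) → M} {ρ : M} (h0 : ρ ≠ 0) (h1 : ρ ∈ O.O)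
    (h2 : O.rd ρ = 0) (hw : ∀ s, w s ∈ O.O) (e : aeval (fun s => α (r s) + ρ * w s) (YPH G) = 0) :
    ∑ s, h.hom (YPn G r s) * O.rd (w s) = 0 := by
  obtain ⟨t, ht, e'⟩ := YP_taylor O.O O.const (fun s => h (r s)) hw h1 (YPH G)
  have e1 : ∀ P, aeval (fun s => α (r s)) P = α (aeval r P) := aeval_mapV α r
  simp only [e, e1, hr, map_zero, zero_add] at e'
  refine Rel.eq (R := .ofPl O) (Rel.sum _ fun s _ => (Rel.ofPl O).mul ⟨h _, (h.hom_apply _).symm⟩ ⟨hw s, rfl⟩)
    (b := -(ρ * t)) (by simpa using Rel.neg ((Rel.ofPl O).mul ⟨h1, h2⟩ ⟨ht, rfl⟩))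
    (mul_left_cancel₀ h0 ?_)
  simp only [YPn]
  linear_combination -e'

lemma YP_near [YA K] {α : L →ₐ[K] M} {O : Pl M} (h : Pl.Triv α O) {R : xz.X L} (hR : G.Cn L R)
    {k : Fin 3} (hk : R.1 k ≠ 0) {l ρ : M} {v : xz.X M} (h1 : ρ ∈ O.O) (h2 : O.rd ρ = 0)
    (hv : xz.all (· ∈ O.O) v) (e : l * (α (R.1 k) + ρ * v.1 k) = α (R.1 k)) :
    ∃ w : Option (Fin 3) → M, (∀ s, YPc (G.scl l (mv (xz.map α R) ρ v)) s = α (YPc R s) + ρ * w s) ∧
      (∀ s, w s ∈ O.O) ∧ G.tv (xz.map h.hom R) (YPv fun s => O.rd (w s)) =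
        G.tv (xz.map h.hom R) (xz.map O.rd v) := by
  let Q := Rel.ofPl O
  have r0 : ∀ c, Q.r (α c) (h.hom c) := fun c => ⟨h c, (h.hom_apply c).symm⟩
  have r1 : Q.r ρ 0 := ⟨h1, h2⟩
  have r2 : ∀ i, Q.r (v.1 i) (O.rd (v.1 i)) := fun i => ⟨hv.1 i, rfl⟩
  have r3 : Q.r (α (R.1 k) + ρ * v.1 k) (h.hom (R.1 k)) := by simpa using Q.add (r0 _) (Q.mul r1 (r2 k))
  have n1 := (map_ne_zero h.hom).2 hk
  have n2 := Rel.ne_zero r3 n1
  have r4 := Rel.div (r2 k) r3 n1
  set t := v.1 k / (α (R.1 k) + ρ * v.1 k) with ht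
  set t' := O.rd (v.1 k) / h.hom (R.1 k)
  have e1 : l - 1 = -(ρ * t) := by
    rw [ht]
    field_simp
    linear_combination e
  have r5 : Q.r l 1 := by
    rw [sub_eq_iff_eq_add.1 e1]
    simpa using Q.add (Rel.neg (Q.mul r1 r4)) Q.one
  have r6 : ∀ s, Q.r (Option.elim s (l ^ G.e * v.2 - t * (∑ i ∈ Finset.range G.e, l ^ i) * α R.2)
      fun i => l * v.1 i - t * α (R.1 i)) ((YPc (xz.map O.rd v) -
        YPc (t' • (xz.map h.hom R).1, t' * G.e * (xz.map h.hom R).2)) s) := fun s => by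
    cases s with
    | none =>
      simpa [YPc] using Rel.sub (Q.mul (Rel.pow r5 G.e) ⟨hv.2, rfl⟩)
        (Q.mul (Q.mul r4 (Rel.sum (Finset.range G.e) fun i _ => Rel.pow r5 i)) (r0 R.2))
    | some i => simpa [YPc] using Rel.sub (Q.mul r5 (r2 i)) (Q.mul r4 (r0 (R.1 i)))
  refine ⟨_, fun s => ?_, fun s => (r6 s).1, ?_⟩
  · cases s with
    | none =>
      change l ^ G.e * (α R.2 + ρ * v.2) = α R.2 + ρ * (_ - _)
      have := geom_sum_mul l G.e
      rw [e1] at this
      linear_combination -α R.2 * this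
    | some i =>
      change l * (α (R.1 i) + ρ * v.1 i) = α (R.1 i) + ρ * (_ - _)
      linear_combination α (R.1 i) * e1
  · rw [funext fun s => (r6 s).2]
    refine (map_sub (YPt G (xz.map h.hom R)) _ _).trans (sub_eq_self.2 ?_)
    exact (YA.tv_eq _ ((GD.cn_map h.hom).2 hR)).2 ⟨t', rfl⟩

end Pool.Agent.Lib.MP_557161_ag.HG
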