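import Pool.Agent.Lib.MP_557161_ag.HG.StX

/-!
The determinant of the tangent bundle of the double plane.
-/

namespace Pool.Agent.Lib.MP_557161_ag.HG

open Pool.Agent.Lib.MP_557161_ag.DL MvPolynomial

variable {K : Type} [Field K]

namespace Yv

/-- Vectors with four coordinates. -/
abbrev V4 (R : Type) : Type := (Fin 3 → R) × R

section Det

variable {R : Type} [CommRing R]

/-- The determinant of three vectors. -/
def d3 (a b c : Fin 3 → R) : R :=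
  a 0 * (b 1 * c 2 - b 2 * c 1) - a 1 * (b 0 * c 2 - b 2 * c 0) + a 2 * (b 0 * c 1 - b 1 * c 0)

/-- The determinant of four vectors. -/
def d4 (u E v w : V4 R) : R :=
  u.2 * d3 E.1 v.1 w.1 - E.2 * d3 u.1 v.1 w.1 + v.2 * d3 u.1 E.1 w.1 - w.2 * d3 u.1 E.1 v.1

lemma cramer (u E v w t : V4 R) : d4 u E v w • t =
    d4 t E v w • u + d4 u t v w • E + d4 u E t w • v + d4 u E v t • w := by
  refine Prod.ext (funext fun i => ?_) ?_
  · fin_cases i <;> simp [d4, d3] <;> ring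
  · simp [d4, d3]; ring

lemma d4_comb (u E v w : V4 R) (c s t c' s' t' : R) :
    d4 u E (c • E + s • v + t • w) (c' • E + s' • v + t' • w) = (s * t' - t * s') * d4 u E v w := by
  simp [d4, d3]; ring

lemma dep {L : Type} [Field L] {u E v w : V4 L} (h : d4 u E v w = 0) :
    ∃ c : Fin 4 → L, c ≠ 0 ∧ c 0 • u + c 1 • E + c 2 • v + c 3 • w = 0 := by
  have h1 : Matrix.det !![u.1 0, u.1 1, u.1 2, u.2; E.1 0, E.1 1, E.1 2, E.2;
      v.1 0, v.1 1, v.1 2, v.2; w.1 0, w.1 1, w.1 2, w.2] = -d4 u E v w := by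
    simp [Matrix.det_succ_row_zero, Fin.sum_univ_succ, Fin.succAbove, d4, d3]; ring
  rw [h, neg_zero] at h1
  obtain ⟨c, c0, hc⟩ := Matrix.exists_vecMul_eq_zero_iff.2 h1
  refine ⟨c, c0, Prod.ext (funext fun i => ?_) ?_⟩
  · fin_cases i
    · simpa [Matrix.vecMul, dotProduct, Fin.sum_univ_four] using congrFun hc 0
    · simpa [Matrix.vecMul, dotProduct, Fin.sum_univ_four] using congrFun hc 1
    · simpa [Matrix.vecMul, dotProduct, Fin.sum_univ_four] using congrFun hc 2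
  · simpa [Matrix.vecMul, dotProduct, Fin.sum_univ_four] using congrFun hc 3

end Det

variable (G : GD K) {L M : Fld K}

/-- The normal covector. -/
noncomputable def nf (y : xz.X L) : V4 L →ₗ[L] L where
  toFun u := 2 * y.2 * u.2 - ∑ i, aeval y.1 (pderiv i G.F) * u.1 i
  map_add' u v := by simp [mul_add, Finset.sum_add_distrib]; ring
  map_smul' a u := by simp [mul_sub, Finset.mul_sum, mul_left_comm a]

lemma nf_apply (y : xz.X L) (u : V4 L) :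
    nf G y u = 2 * y.2 * u.2 - ∑ i, aeval y.1 (pderiv i G.F) * u.1 i := rfl

/-- The Euler vector. -/
def eu (y : xz.X L) : V4 L := (y.1, G.e * y.2)

/-- The bivector of a tangent vector as a linear map. -/
def tl (y : xz.X L) : V4 L →ₗ[L] (G.σ × G.σ → L) where
  toFun v := G.tv y v
  map_add' u v := funext fun s => by
    have h : ∀ s, G.dnu y (u + v) s = G.dnu y u s + G.dnu y v s := fun s => by
      cases s <;> simp [GD.dnu, add_mul, Finset.sum_add_distrib]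
    simp only [GD.tv, wdg, h, Pi.add_apply]; ring
  map_smul' a u := by
    have h := wdg_smul 1 a (G.nu y) (G.dnu y u)
    rw [one_smul, one_mul, ← G.dnu_smul] at h
    exact h

variable {G}

lemma tn_iff {y v : xz.X L} : G.Tn L y v ↔ nf G y v = 0 := sub_eq_zero.symm

lemma nf_eu {y : xz.X L} (h : G.Cn L y) : nf G y (eu G y) = 0 := by
  have h1 := congrArg (aeval y.1) G.homF.sum_X_mul_pderiv
  simp only [map_sum, map_mul, aeval_X, nsmul_eq_mul, map_natCast, ← h.2] at h1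
  rw [nf_apply, sub_eq_zero, Finset.sum_congr rfl fun i _ => mul_comm _ _]
  refine Eq.trans ?_ h1.symm
  simp only [eu, Nat.cast_mul, Nat.cast_ofNat]; ring

lemma tl_eu [YA K] {y : xz.X L} (h : G.Cn L y) : tl G y (eu G y) = 0 :=
  (YA.tv_eq (eu G y) h).2 ⟨1, by simp [eu]⟩

lemma exists_nf [XA K] {y : xz.X L} (h : G.Cn L y) : ∃ u, nf G y u ≠ 0 := by
  by_cases hz : y.2 = 0
  · obtain ⟨i, hi⟩ := XA.sm G L y.1 h.1 (by rw [← h.2, hz]; simp)
    refine ⟨(Pi.single i 1, 0), ?_⟩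
    simpa [nf_apply, Pi.single_apply] using hi
  · refine ⟨(0, 1), ?_⟩
    have h2 : (2 : L) ≠ 0 := by
      rw [← map_ofNat (algebraMap K L) 2]
      exact (map_ne_zero _).2 (XA.three G).2.2.2.1
    simpa [nf_apply, h2] using hz

lemma d4_ne [YA K] {y v₀ v₁ : xz.X L} (h : G.Frm L y v₀ v₁) {u : V4 L} (hu : nf G y u ≠ 0) :
    d4 u (eu G y) v₀ v₁ ≠ 0 := fun e => by
  obtain ⟨c, c0, hc⟩ := dep e
  have h1 := congrArg (nf G y) hc
  simp only [map_add, map_smul, nf_eu h.cn, tn_iff.1 h.t0, tn_iff.1 h.t1, smul_eq_mul, mul_zero,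
    add_zero, map_zero, mul_eq_zero, hu, or_false] at h1
  rw [h1, zero_smul, zero_add] at hc
  have h2 := congrArg (tl G y) hc
  simp only [map_add, map_smul, tl_eu h.cn, smul_zero, zero_add, map_zero] at h2
  obtain ⟨h3, h4⟩ := LinearIndependent.pair_iff.1 h.ind _ _ h2
  rw [h3, h4, zero_smul, zero_smul, add_zero, add_zero] at hc
  have h5 : c 1 = 0 := (smul_eq_zero.1 (congrArg Prod.fst hc)).resolve_right h.cn.1
  exact c0 (funext fun i => by fin_cases i <;> assumption)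

lemma d4_scl (a : L) (u E v w : xz.X L) :
    d4 (G.scl a u) (G.scl a E) (G.scl a v) (G.scl a w) = a ^ 3 * a ^ G.e * d4 u E v w := by
  simp [d4, d3, GD.scl]; ring

lemma eu_scl (a : L) (y : xz.X L) : eu G (G.scl a y) = G.scl a (eu G y) :=
  Prod.ext rfl (mul_left_comm _ _ _)

lemma nf_scl (a : L) (y u : xz.X L) :
    nf G (G.scl a y) (G.scl a u) = a ^ G.e * a ^ G.e * nf G y u := by
  show 2 * (a ^ G.e * y.2) * (a ^ G.e * u.2) - ∑ i, aeval (a • y.1) (pderiv i G.F) * (a * u.1 i) = _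
  simp only [aeval_smul_of_isHomogeneous (G.homF.pderiv (i := _))]
  have e : a ^ G.e * a ^ G.e = a ^ (2 * G.e - 1) * a := by
    rw [← pow_add, ← pow_succ]; congr 1; have := G.e_pos; omega
  rw [nf_apply, mul_sub, Finset.mul_sum]
  congr 1
  · ring
  · exact Finset.sum_congr rfl fun i _ => by rw [e]; ring

lemma tv_scl (a : L) (y v : xz.X L) :
    G.tv (G.scl a y) (G.scl a v) = (a ^ G.e * a ^ G.e) • G.tv y v := by
  rw [GD.tv, G.nu_scl, G.dnu_scl, wdg_smul]; rfl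

/-- A tangent vector in terms of the Euler vector and two tangent vectors. -/
lemma decomp {y : xz.X L} (h : G.Cn L y) {u t₀ t₁ v : V4 L} (hu : nf G y u ≠ 0)
    (h₀ : nf G y t₀ = 0) (h₁ : nf G y t₁ = 0) (hv : nf G y v = 0)
    (hd : d4 u (eu G y) t₀ t₁ ≠ 0) : ∃ c s t : L, v = c • eu G y + s • t₀ + t • t₁ := by
  have h1 := cramer u (eu G y) t₀ t₁ v
  have h2 := congrArg (nf G y) h1
  simp only [map_add, map_smul, nf_eu h, h₀, h₁, hv, smul_eq_mul, mul_zero, add_zero] at h2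
  rw [(mul_eq_zero.1 h2.symm).resolve_right hu, zero_smul, zero_add] at h1
  have h3 := (eq_inv_smul_iff₀ hd).2 h1
  rw [smul_add, smul_add, smul_smul, smul_smul, smul_smul] at h3
  exact ⟨_, _, _, h3⟩

lemma indep {y : xz.X L} (h : G.Cn L y) (u u' : V4 L) {t₀ t₁ : V4 L} (h₀ : nf G y t₀ = 0)
    (h₁ : nf G y t₁ = 0) :
    d4 u (eu G y) t₀ t₁ * nf G y u' = d4 u' (eu G y) t₀ t₁ * nf G y u := by
  have h2 := congrArg (nf G y) (cramer u (eu G y) t₀ t₁ u')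
  simpa only [map_add, map_smul, nf_eu h, h₀, h₁, smul_eq_mul, mul_zero, add_zero] using h2

section Rel

variable {R : Rel M L} {y u E v w : xz.X M} {y' u' E' v' w' : xz.X L}

lemma r_d3 {a b c : Fin 3 → M} {a' b' c' : Fin 3 → L} (ha : ∀ i, R.r (a i) (a' i))
    (hb : ∀ i, R.r (b i) (b' i)) (hc : ∀ i, R.r (c i) (c' i)) : R.r (d3 a b c) (d3 a' b' c') :=
  have h : ∀ i k l, R.r (a i * (b k * c l - b l * c k)) (a' i * (b' k * c' l - b' l * c' k)) :=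
    fun i k l => R.mul (ha i) (Rel.sub (R.mul (hb k) (hc l)) (R.mul (hb l) (hc k)))
  R.add (Rel.sub (h 0 1 2) (h 1 0 2)) (h 2 0 1)

lemma r_d4 (hu : xz.lift R.r u u') (hE : xz.lift R.r E E') (hv : xz.lift R.r v v')
    (hw : xz.lift R.r w w') : R.r (d4 u E v w) (d4 u' E' v' w') :=
  Rel.sub (R.add (Rel.sub (R.mul hu.2 (r_d3 hE.1 hv.1 hw.1)) (R.mul hE.2 (r_d3 hu.1 hv.1 hw.1)))
    (R.mul hv.2 (r_d3 hu.1 hE.1 hw.1))) (R.mul hw.2 (r_d3 hu.1 hE.1 hv.1))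

lemma r_nf (hy : xz.lift R.r y y') (hu : xz.lift R.r u u') : R.r (nf G y u) (nf G y' u') :=
  Rel.sub (R.mul (R.mul R.two hy.2) hu.2)
    (Rel.sum _ fun i _ => R.mul (Rel.aeval hy.1 _) (hu.1 i))

lemma r_eu (hy : xz.lift R.r y y') : xz.lift R.r (eu G y) (eu G y') :=
  ⟨hy.1, R.mul (R.natCast _) hy.2⟩

lemma r_comb (hu : xz.lift R.r u u') (hv : xz.lift R.r v v') {s : M} {s' : L} (hs : R.r s s') :
    xz.lift R.r (u + s • v) (u' + s' • v') :=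
  ⟨fun i => R.add (hu.1 i) (R.mul hs (hv.1 i)), R.add hu.2 (R.mul hs hv.2)⟩

end Rel

lemma exists_lift (O : Pl M) (v' : xz.X O.res) : ∃ v : xz.X M, xz.lift (Rel.ofPl O).r v v' := by
  choose f hf using O.rd_surj
  exact ⟨xz.map f v', fun i => hf _, hf _⟩

lemma exists_tan {O : Pl M} {y u : xz.X M} {y' u' v' : xz.X O.res}
    (hy : xz.lift (Rel.ofPl O).r y y') (hu : xz.lift (Rel.ofPl O).r u u') (h : nf G y' u' ≠ 0)
    (hv : nf G y' v' = 0) : ∃ v : xz.X M, xz.lift (Rel.ofPl O).r v v' ∧ nf G y v = 0 := by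
  obtain ⟨w, hw⟩ := exists_lift O v'
  have h1 := r_nf (G := G) hy hu
  have h2 := r_comb hw hu (Rel.neg (Rel.div (r_nf (G := G) hy hw) h1 h))
  rw [hv, zero_div, neg_zero, zero_smul, add_zero] at h2
  refine ⟨_, h2, ?_⟩
  rw [map_add, map_smul, smul_eq_mul, neg_mul, div_mul_cancel₀ _ (Rel.ne_zero h1 h),
    add_neg_cancel]

/-- The triangular form of the change of frames. -/
lemma tri {O : Pl M} {y t₀ t₁ : xz.X M} {y' t₀' t₁' : xz.X O.res} {b₀ b₁ : G.σ × G.σ → M}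
    (h₀ : xz.lift (Rel.ofPl O).r t₀ t₀') (h₁ : xz.lift (Rel.ofPl O).r t₁ t₁')
    (hF : G.Frm O.res y' t₀' t₁') {s t s' t' : M} (e : b₀ = s • G.tv y t₀ + t • G.tv y t₁)
    (e' : b₁ = s' • G.tv y t₀ + t' • G.tv y t₁) (ht : t' ≠ 0) (hs : s' / t' ∈ O.O) :
    ∃ (c₀ c₁ c : M) (u₀ u₁ : xz.X M), xz.all (· ∈ O.O) u₀ ∧ xz.all (· ∈ O.O) u₁ ∧
      G.Frm O.res y' (xz.map O.rd u₀) (xz.map O.rd u₁) ∧
      b₀ = c₀ • G.tv y u₀ + c • G.tv y u₁ ∧ b₁ = c₁ • G.tv y u₁ ∧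
      (c₀ * c₁) ^ 2 = (s * t' - t * s') ^ 2 := by
  have h2 := r_comb h₁ h₀ (s := s' / t') ⟨hs, rfl⟩
  have h3 : G.tv y (t₁ + (s' / t') • t₀) = G.tv y t₁ + (s' / t') • G.tv y t₀ := by
    have := (tl G y).map_add t₁ ((s' / t') • t₀)
    rwa [map_smul] at this
  have h4 : G.tv y' (t₁' + O.rd (s' / t') • t₀') = G.tv y' t₁' + O.rd (s' / t') • G.tv y' t₀' := by
    have := (tl G y').map_add t₁' (O.rd (s' / t') • t₀')
    rwa [map_smul] at this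
  refine ⟨s - t * (s' / t'), t', t, t₀, t₁ + (s' / t') • t₀, ((Cd.lift_pl O).1 h₀).1,
    ((Cd.lift_pl O).1 h2).1, ?_, ?_, ?_, ?_⟩
  · rw [((Cd.lift_pl O).1 h₀).2, ((Cd.lift_pl O).1 h2).2]
    refine ⟨hF.cn, hF.t0, tn_iff.2 ?_, LinearIndependent.pair_iff.2 fun a b hab => ?_⟩
    · rw [map_add, map_smul, tn_iff.1 hF.t0, tn_iff.1 hF.t1, smul_zero, add_zero]
    · obtain ⟨h5, h6⟩ := LinearIndependent.pair_iff.1 hF.ind (a + b * O.rd (s' / t')) b (by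
        rw [← hab, h4]; module)
      rw [h6, zero_mul, add_zero] at h5
      exact ⟨h5, h6⟩
  · rw [e, h3]; module
  · rw [e', h3, smul_add, smul_smul, mul_div_cancel₀ _ ht, add_comm]
  · congr 1
    field_simp

lemma tri' {O : Pl M} {y t₀ t₁ : xz.X M} {y' t₀' t₁' : xz.X O.res} {b₀ b₁ : G.σ × G.σ → M}
    (h₀ : xz.lift (Rel.ofPl O).r t₀ t₀') (h₁ : xz.lift (Rel.ofPl O).r t₁ t₁')
    (hF : G.Frm O.res y' t₀' t₁') {s t s' t' : M} (e : b₀ = s • G.tv y t₀ + t • G.tv y t₁)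
    (e' : b₁ = s' • G.tv y t₀ + t' • G.tv y t₁) (hd : s * t' - t * s' ≠ 0) :
    ∃ (c₀ c₁ c : M) (u₀ u₁ : xz.X M), xz.all (· ∈ O.O) u₀ ∧ xz.all (· ∈ O.O) u₁ ∧
      G.Frm O.res y' (xz.map O.rd u₀) (xz.map O.rd u₁) ∧
      b₀ = c₀ • G.tv y u₀ + c • G.tv y u₁ ∧ b₁ = c₁ • G.tv y u₁ ∧
      (c₀ * c₁) ^ 2 = (s * t' - t * s') ^ 2 := by
  by_cases h : t' ≠ 0 ∧ s' / t' ∈ O.O
  · exact tri h₀ h₁ hF e e' h.1 h.2
  · have hs : s' ≠ 0 := by
      rintro rfl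
      refine h ⟨fun e => hd (by rw [e]; simp), ?_⟩
      rw [zero_div]; exact zero_mem _
    have ht : t' / s' ∈ O.O := by
      by_cases ht : t' = 0
      · rw [ht, zero_div]; exact zero_mem _
      · rw [← inv_div]
        exact (O.O.mem_or_inv_mem _).resolve_left fun e => h ⟨ht, e⟩
    have e2 : (s * t' - t * s') ^ 2 = (t * s' - s * t') ^ 2 := by ring
    rw [e2]
    exact tri h₁ h₀ ⟨hF.cn, hF.t1, hF.t0, LinearIndependent.pair_symm_iff.1 hF.ind⟩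
      (e.trans (add_comm _ _)) (e'.trans (add_comm _ _)) hs ht

theorem vol [FW0 K] [XA K] [YA K] [YB K] {y v₀ v₁ : xz.X L} (hF : G.Frm L y v₀ v₁) :
    ∃ δ : L, δ ≠ 0 ∧
    ∀ O : Pl L, O.IsDVR → ∃ (a c₀ c₁ c : L) (u₀ u₁ : xz.X L), a ≠ 0 ∧ c₀ ≠ 0 ∧ c₁ ≠ 0 ∧
      IntV O (G.scl a y).1 ∧ rdV O (G.scl a y).1 ≠ 0 ∧ xz.all (· ∈ O.O) u₀ ∧ xz.all (· ∈ O.O) u₁ ∧
      G.Frm O.res (xz.map O.rd (G.scl a y)) (xz.map O.rd u₀) (xz.map O.rd u₁) ∧
      G.tv y v₀ = c₀ • G.tv (G.scl a y) u₀ + c • G.tv (G.scl a y) u₁ ∧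
      G.tv y v₁ = c₁ • G.tv (G.scl a y) u₁ ∧
      G.e * (O.ord c₀ + O.ord c₁) + (3 - 5 * G.e) * ordv O (G.nu y) = G.e * O.ord δ := by
  obtain ⟨u, hu⟩ := exists_nf hF.cn
  have hδ := div_ne_zero (d4_ne hF hu) hu
  refine ⟨_, hδ, fun O hO => ?_⟩
  obtain ⟨a, a0, hi, hp⟩ := YA.prim O hF.cn
  have hc := hF.cn.scl a0
  obtain ⟨hz, hcn, -, -, -, hord⟩ := YA.red hc hi hp
  have hy : xz.lift (Rel.ofPl O).r (G.scl a y) (xz.map O.rd (G.scl a y)) :=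
    ⟨fun i => ⟨hi i, rfl⟩, hz, rfl⟩
  obtain ⟨w', hw'⟩ := exists_nf hcn
  obtain ⟨t₀', t₁', hT⟩ := YB.frm hcn
  obtain ⟨w, hw⟩ := exists_lift O w'
  obtain ⟨t₀, h₀, n₀⟩ := exists_tan hy hw hw' (tn_iff.1 hT.t0)
  obtain ⟨t₁, h₁, n₁⟩ := exists_tan hy hw hw' (tn_iff.1 hT.t1)
  have r1 := r_nf (G := G) hy hw
  have r2 := r_d4 hw (r_eu (G := G) hy) h₀ h₁
  have w0 := Rel.ne_zero r1 hw'
  have d0 := Rel.ne_zero r2 (d4_ne hT hw')
  have r3 := Rel.div r2 r1 hw'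
  have r4 := (O.rd_ne_zero_iff r3.1).1 (r3.2 ▸ div_ne_zero (d4_ne hT hw') hw')
  have o1 := Pl.ord_eq_zero_of_mem r4.1 r3.1 r4.2
  have n2 := tn_iff.1 (hF.t0.scl a)
  have n3 := tn_iff.1 (hF.t1.scl a)
  obtain ⟨c, s, t, e⟩ := decomp hc w0 n₀ n₁ n2 d0
  obtain ⟨c', s', t', e'⟩ := decomp hc w0 n₀ n₁ n3 d0
  have ae : a ^ G.e ≠ 0 := pow_ne_zero _ a0
  have key : ∀ {v : xz.X L} {c s t : L}, G.scl a v = c • eu G (G.scl a y) + s • t₀ + t • t₁ →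
      G.tv y v = (s / (a ^ G.e * a ^ G.e)) • G.tv (G.scl a y) t₀ +
        (t / (a ^ G.e * a ^ G.e)) • G.tv (G.scl a y) t₁ := fun {v c s t} h => by
    have h1 := congrArg (tl G (G.scl a y)) h
    rw [map_add, map_add, map_smul, map_smul, map_smul, tl_eu hc, smul_zero, zero_add] at h1
    rw [div_eq_inv_mul, div_eq_inv_mul, mul_smul, mul_smul, ← smul_add,
      eq_inv_smul_iff₀ (mul_ne_zero ae ae), ← tv_scl]
    exact h1
  have h2 := indep hc (G.scl a u) w n2 n3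
  rw [nf_scl, eu_scl, d4_scl, ← eu_scl, e, e', d4_comb] at h2
  have h3 : a ^ 3 * (d4 u (eu G y) v₀ v₁ / nf G y u) = (a ^ G.e) ^ 5 *
      (s / (a ^ G.e * a ^ G.e) * (t' / (a ^ G.e * a ^ G.e)) -
        t / (a ^ G.e * a ^ G.e) * (s' / (a ^ G.e * a ^ G.e))) *
      (d4 w (eu G (G.scl a y)) t₀ t₁ / nf G (G.scl a y) w) := by
    field_simp
    refine mul_left_cancel₀ ae ?_
    linear_combination h2
  have h4 := mul_ne_zero (pow_ne_zero 3 a0) hδ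
  have h5 := right_ne_zero_of_mul (left_ne_zero_of_mul (h3 ▸ h4))
  obtain ⟨c₀, c₁, c₂, u₀, u₁, k1, k2, k3, k4, k5, k6⟩ := tri' h₀ h₁ hT (key e) (key e') h5
  have h6 : c₀ * c₁ ≠ 0 := fun e => pow_ne_zero 2 h5 (by rw [← k6, e]; simp)
  have c0 := left_ne_zero_of_mul h6
  have c1 := right_ne_zero_of_mul h6
  refine ⟨a, c₀, c₁, c₂, u₀, u₁, a0, c0, c1, hi, hp, k1, k2, k3, k4, k5, ?_⟩
  have o2 := congrArg O.ord k6
  rw [Pl.ord_pow hO, Pl.ord_pow hO, Pl.ord_mul hO c0 c1] at o2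
  have o3 := congrArg O.ord h3
  rw [Pl.ord_mul hO (pow_ne_zero 3 a0) hδ, Pl.ord_mul hO (mul_ne_zero (pow_ne_zero _ ae) h5) r4.1,
    Pl.ord_mul hO (pow_ne_zero _ ae) h5, o1, Pl.ord_pow hO, Pl.ord_pow hO, Pl.ord_pow hO] at o3
  have o4 := hord hO
  rw [G.nu_scl, (FW0.b3 (K := K)).ordv_smul hO (G.nu_ne hF.cn.1) ae, Pl.ord_pow hO] at o4
  have o5 := mul_left_cancel₀ (by norm_num) o2
  rw [o5]
  push_cast at o3
  linear_combination (3 - 5 * (G.e : ℤ)) * o4 - (G.e : ℤ) * o3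

end Yv

theorem YV_thm {K : Type} [Field K] [Base K] [FW0 K] [XA K] [YA K] [YB K] : YV K where
  vol := Yv.vol

end Pool.Agent.Lib.MP_557161_ag.HG
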